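import Pool.Agent.Work.MP_25cd3b_gt.LX.DefsP

set_option autoImplicit false

/-!
# The linearised Poincaré map of a closed geodesic
-/

open Set Filter Topology
open scoped ContDiff

namespace Pool.Agent.GM

variable {V : Type} [NormedAddCommGroup V] [NormedSpace ℝ V]

/-- the Jacobi fields along the closed geodesic which are orthogonal to it -/
def ClGeo.jac {G : Type} [Group G] [MulAction G V] {g : Frm V} {a : G} (γ : ClGeo g a) :
    Set (ℝ → V) :=
  {J | IsJac γ.Γ γ.c J ∧ ∀ t, g.val (γ.c t) (deriv γ.c t) (J t) = 0}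

/-- a linear map `Ψ` maps the orthogonal Jacobi fields of `γ1` bijectively to those of `γ2` and commutes
with the linearised Poincaré maps (`J' = P J`, if `J (t + l) = dac a (J' t)` for all `t`) -/
def PoinConj {G : Type} [Group G] [MulAction G V] {g1 g2 : Frm V} {a : G} (γ1 : ClGeo g1 a)
    (γ2 : ClGeo g2 a) : Prop :=
  ∃ Ψ : (ℝ → V) →ₗ[ℝ] (ℝ → V), BijOn Ψ γ1.jac γ2.jac ∧
    ∀ J ∈ γ1.jac, ∀ J' ∈ γ1.jac, (∀ t, J (t + γ1.l) = dac a (γ1.c t) (J' t)) →
      ∀ t, Ψ J (t + γ2.l) = dac a (γ2.c t) (Ψ J' t)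

end Pool.Agent.GM
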