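import Pool.Agent.Work.MP_25cd3b_gt.LX.DefsZ

set_option autoImplicit false

/-!
# MP_25cd3b_gt, block LX, part U: all exponents.  Definitions
-/

open Set Filter Topology
open scoped ContDiff

namespace Pool.Agent.LX

/-- `P` is the spectral projection of `T` for the exponents below `r`; `r` is not an exponent -/
structure Gap {S : Type} [NormedAddCommGroup S] [NormedSpace ℝ S] (T : S ≃L[ℝ] S) (r : ℝ)
    (P : S →L[ℝ] S) : Prop where
  idem : ∀ w, P (P w) = P w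
  comm : ∀ w, P (T w) = T (P w)
  up : ∃ r₀ C : ℝ, r₀ < r ∧ ∀ (k : ℕ) (w : S), ‖(⇑T)^[k] (P w)‖ ≤ C * Real.exp (r₀ * k) * ‖w‖
  lo : ∃ r₁ C : ℝ, r < r₁ ∧ ∀ (k : ℕ) (w : S),
    ‖(⇑T.symm)^[k] (w - P w)‖ ≤ C * Real.exp (-(r₁ * k)) * ‖w‖

/-- exponents of `w` in `[r, t)`, where `P` is the projection for the exponents below `t` -/
def InL {S : Type} [NormedAddCommGroup S] [NormedSpace ℝ S] (T : S ≃L[ℝ] S) (r : ℝ)
    (P : S →L[ℝ] S) (w : S) : Prop :=
  P w = w ∧ ∃ C : ℝ, ∀ k : ℕ, ‖(⇑T.symm)^[k] w‖ ≤ C * Real.exp (-(r * k))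

variable {V : Type} [NormedAddCommGroup V] [NormedSpace ℝ V]

/-- decay of rate `r` -/
def Rt (r : ℝ) (p : ℕ → V) : Prop := ∃ A : ℝ, ∀ j : ℕ, ‖p j‖ ≤ A * Real.exp (-(r * j))

/-- the backward chain `v` follows the linear chain of `Q`, up to `exp (- t i)` -/
def CoB (T : (V × V) ≃L[ℝ] (V × V)) (t : ℝ) (v : ℕ → V) (Q : V × V) : Prop :=
  ∃ C : ℝ, ∀ i : ℕ, ‖(v (i + 1), v i) - (⇑T.symm)^[i] Q‖ ≤ C * Real.exp (-(t * i))

/-- the forward chain `p` follows the linear chain of `R`, up to `exp (- t j)` -/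
def CoF (T : (V × V) ≃L[ℝ] (V × V)) (t : ℝ) (p : ℕ → V) (R : V × V) : Prop :=
  ∃ C : ℝ, ∀ j : ℕ, ‖(p j, p (j + 1)) - (⇑T)^[j] R‖ ≤ C * Real.exp (-(t * j))

/-- the invariant symplectic form of the transfer map -/
noncomputable def Om (H : Bf V) (w w' : V × V) : ℝ := H (0, w.2) (w'.1, 0) - H (0, w'.2) (w.1, 0)

/-- second difference of the action of `p` and of the backward chain `v`, `k` links -/
noncomputable def Gk (H : Bf V) (L1 : V × V → V × V →L[ℝ] ℝ) (p v : ℕ → V) (k : ℕ) : ℝ :=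
  H (v k, v (k - 1)) (p 0, 0) - L1 (p 0, p 1) (v k, 0) + ∑ j ∈ Finset.range k,
    (L1 (p j, p (j + 1)) - H (p j, p (j + 1))) (v (k - j), v (k - (j + 1)))

/-- the chain `p`, with the entry `k` replaced by `0` -/
noncomputable def CA (k : ℕ) (p : ℕ → V) (j : ℕ) : V := if j < k then p j else 0

/-- the reversed chain of `v`, with the entry `0` replaced by `0` -/
noncomputable def CB (k : ℕ) (v : ℕ → V) (j : ℕ) : V := if 0 < j then v (k - j) else 0

/-- residual of the chain equation at `1, ..., k - 1` at most `ε` -/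
def Res (L1 : V × V → V × V →L[ℝ] ℝ) (k : ℕ) (y : ℕ → V) (ε : ℝ) : Prop :=
  ∀ j, j + 1 < k → ∀ w : V,
    |L1 (y j, y (j + 1)) (0, w) + L1 (y (j + 1), y (j + 2)) (w, 0)| ≤ ε * ‖w‖

end Pool.Agent.LX
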