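import Pool.Agent.Work.MP_25cd3b_gt.LX.StmtsZ
import Pool.Agent.Work.MP_25cd3b_gt.LX.DefsU

set_option autoImplicit false

/-!
# MP_25cd3b_gt, block LX, part U: all exponents (pure analysis); statements with complete proofs

No geometry.  `H = L2 0`, `S = V × V`, `T` the transfer map (`IsTr`), `c₁ a = L1 a - H a` (so
`‖c₁ a‖ ≤ K ‖a‖^2` and `‖c₁ a - c₁ b‖ ≤ K (‖a‖ + ‖b‖) ‖a - b‖` for small `a, b`, by `Ch.lip`),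
`p⁺ j = (p j, p (j+1))`, `C` denotes constants.  Every statement of StmtsA, StmtsZ and every earlier
statement may be used as a hypothesis (`x_XPer`, `x_ZTh`, ... are theorems).
-/

open Set Filter Topology
open scoped ContDiff

namespace Pool.Agent.LX

/-! ### linear algebra -/

/-- Gaps (uses `SPr`).  `SPr` with `ρ = exp r`: `P`, `ρ₂ > ρ`; `δ = log ρ₂ - r`.  For `r < r' < r + δ`: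
`r₀ = (r + r') / 2` (`up` with `ρ' = exp r₀`), `r₁ = log ρ₂` (`lo`). -/
def UGp : Prop := ∀ (S : Type) [NormedAddCommGroup S] [NormedSpace ℝ S] [FiniteDimensional ℝ S]
  (T : S ≃L[ℝ] S) (r : ℝ), ∃ (δ : ℝ) (P : S →L[ℝ] S), 0 < δ ∧
  ∀ r' : ℝ, r < r' → r' < r + δ → Gap T r' P

/-- Algebra of gaps.  (1) `w - P w = T^(-k) (x - P x)`, `x = T^k w`, has norm `≤ C exp(-r₁k) ‖T^k w‖ → 0`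
(`comm`).  (2) `P w = T^k P (T^(-k) w)` has norm `≤ C exp(r₀k) exp(-rk) → 0`.  (3) by (1) for `Q`.  (4) `P (w - Q w) = 0`
by (2). -/
def UGa : Prop := ∀ (S : Type) [NormedAddCommGroup S] [NormedSpace ℝ S] (T : S ≃L[ℝ] S) (r t : ℝ)
  (P Q : S →L[ℝ] S), Gap T r P → Gap T t Q → r ≤ t →
  (∀ w : S, (∃ C : ℝ, ∀ k : ℕ, ‖(⇑T)^[k] w‖ ≤ C * Real.exp (r * k)) → P w = w) ∧
  (∀ w : S, (∃ C : ℝ, ∀ k : ℕ, ‖(⇑T.symm)^[k] w‖ ≤ C * Real.exp (-(r * k))) → P w = 0) ∧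
  (∀ w : S, Q (P w) = P w) ∧ ∀ w : S, P (Q w) = P w

/-- The symplectic form.  INVARIANCE: `T (a, b) = (b, c)`, `T (a', b') = (b', c')`.  The chain equations with the
vectors `b'` and `b`: `H(b, c)(b', 0) = -H(a, b)(0, b')`, `H(b', c')(b, 0) = -H(a', b')(0, b)`; subtract, expand by
bilinearity and use the symmetry of `H` (`Pos.symm`): the terms `H(b, 0)(b', 0)` and `H(0, b)(0, b')` cancel.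
NONDEGENERATE: if `Om H w w' = 0` for all `w' = (x, 0)` then `H(0, w.2)(x, 0) = 0`, so `w.2 = 0` (`Tws`); then for all
`w' = (0, y)`: `H(0, y)(w.1, 0) = 0`; `y ↦ H(0, y)(·, 0)`, `V → V*`, is injective (`Tws`), hence surjective, so
`w.1 = 0`.  `Om H w w' = - Om H w' w`. -/
def UOm : Prop := ∀ (V : Type) [NormedAddCommGroup V] [NormedSpace ℝ V] [FiniteDimensional ℝ V]
  (lam : ℝ) (H : Bf V) (T : (V × V) ≃L[ℝ] (V × V)), Pos lam H → Tws H → IsTr H T →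
  (∀ w w', Om H (T w) (T w') = Om H w w') ∧ (∀ w, (∀ w', Om H w' w = 0) → w = 0) ∧
  (∀ w, (∀ w', Om H w w' = 0) → w = 0) ∧ ∃ C : ℝ, ∀ w w', |Om H w w'| ≤ C * ‖w‖ * ‖w'‖

/-- Duality of the levels (uses `UOm`, `UGa`).  Let `InL T r B w` and `Om H R w = 0` for all `R` with
`InL T.symm r B' R`.  Let `x ∈ S`, `x = x₁ + x₂ + x₃`, `x₁ = x - B' x`, `x₃ = A' x`, `x₂ = B' x - A' x`.
`InL T.symm r B' x₂` (`UGa` (3) for `T.symm`; `x₂ = (x - A' x) - (x - B' x)` and both terms decay under `T` at a rate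
`≥ r`, `lo` for `T.symm`).  `Om(x₁, w) = Om(T^k x₁, T^k w) → 0` (`‖T^k x₁‖ ≤ C exp(-t'k)`, `t' > t`, `‖T^k w‖ ≤ C exp(t₀k)`,
`t₀ < t`); `Om(x₃, w) = Om(T^(-k) x₃, T^(-k) w) → 0` (`exp(r₀k)`, `r₀ < r`, and `exp(-rk)`).  So `Om(x, w) = 0` for all
`x`, `w = 0`.  Second claim: the same with `T` and `T.symm` exchanged. -/
def UCh : Prop := ∀ (V : Type) [NormedAddCommGroup V] [NormedSpace ℝ V] [FiniteDimensional ℝ V]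
  (lam : ℝ) (H : Bf V) (T : (V × V) ≃L[ℝ] (V × V)) (r t : ℝ) (A B A' B' : (V × V) →L[ℝ] (V × V)),
  Pos lam H → Tws H → IsTr H T → r < t → Gap T r A → Gap T t B → Gap T.symm r A' →
  Gap T.symm t B' →
  (∀ w, InL T r B w → (∀ R, InL T.symm r B' R → Om H R w = 0) → w = 0) ∧
  ∀ R, InL T.symm r B' R → (∀ w, InL T r B w → Om H R w = 0) → R = 0

/-- Gluing (uses `UGa`).  `Ψ = Ψa ∘ A₁ + Ψb ∘ (1 - A₁)`.  Let `InL T₁ r₀ B₁ w`.  `A₁ w` satisfies `InL T₁ r₀ A₁`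
(`T^(-k) A₁ w = A₁ T^(-k) w`, bounded operator), and `w - A₁ w` satisfies `InL T₁ r B₁` (`UGa` (3), `lo`).
Injective: if `Ψa (A₁ w) + Ψb (w - A₁ w) = 0` then `x = Ψa (A₁ w)` satisfies `A₂ x = x` and `x = -Ψb (..)` decays at the
rate `r`, so `A₂ x = 0` (`UGa` (2)), `x = 0`.  Surjective: decompose `w'` in the same way with `A₂`.  Note that
`A₁ (T₁ w) = T₁ (A₁ w)`. -/
def UGl : Prop := ∀ (S₁ S₂ : Type) [NormedAddCommGroup S₁] [NormedSpace ℝ S₁]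
  [FiniteDimensional ℝ S₁] [NormedAddCommGroup S₂] [NormedSpace ℝ S₂] [FiniteDimensional ℝ S₂]
  (T₁ : S₁ ≃L[ℝ] S₁) (T₂ : S₂ ≃L[ℝ] S₂) (r₀ r t : ℝ) (A₁ B₁ : S₁ →L[ℝ] S₁)
  (A₂ B₂ : S₂ →L[ℝ] S₂), r₀ ≤ r → r < t → Gap T₁ r A₁ → Gap T₂ r A₂ → Gap T₁ t B₁ →
  Gap T₂ t B₂ → ∀ Ψa Ψb : S₁ →L[ℝ] S₂, (∀ w, InL T₁ r₀ A₁ w → InL T₂ r₀ A₂ (Ψa w)) →
  (∀ w, InL T₁ r₀ A₁ w → Ψa w = 0 → w = 0) →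
  (∀ w', InL T₂ r₀ A₂ w' → ∃ w, InL T₁ r₀ A₁ w ∧ Ψa w = w') →
  (∀ w, InL T₁ r₀ A₁ w → Ψa (T₁ w) = T₂ (Ψa w)) → (∀ w, InL T₁ r B₁ w → InL T₂ r B₂ (Ψb w)) →
  (∀ w, InL T₁ r B₁ w → Ψb w = 0 → w = 0) →
  (∀ w', InL T₂ r B₂ w' → ∃ w, InL T₁ r B₁ w ∧ Ψb w = w') →
  (∀ w, InL T₁ r B₁ w → Ψb (T₁ w) = T₂ (Ψb w)) →
  ∃ Ψ : S₁ →L[ℝ] S₂, (∀ w, InL T₁ r₀ B₁ w → InL T₂ r₀ B₂ (Ψ w)) ∧
    (∀ w, InL T₁ r₀ B₁ w → Ψ w = 0 → w = 0) ∧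
    (∀ w', InL T₂ r₀ B₂ w' → ∃ w, InL T₁ r₀ B₁ w ∧ Ψ w = w') ∧
    ∀ w, InL T₁ r₀ B₁ w → Ψ (T₁ w) = T₂ (Ψ w)

/-- UNIQUENESS OF REALISATIONS, second version.  Adapt `LX/I_ZRe.lean` (see the docstring of `ZRe`): there the
spaces are the ranges of projections, here they are `S₁` and `S₂`.  (1) The sequence
`f₁ α (T₁^(-k) Q₁ β) - f₂ α (T₂^(-k) Q₂ β)` is `0` for all `k ≥ 0`.  (2) `Ψ (∑ c_β Q₁ β) = ∑ c_β Q₂ β`. -/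
def URe : Prop := ∀ (S₁ S₂ : Type) [NormedAddCommGroup S₁] [NormedSpace ℝ S₁]
  [FiniteDimensional ℝ S₁] [NormedAddCommGroup S₂] [NormedSpace ℝ S₂] [FiniteDimensional ℝ S₂]
  (T₁ : S₁ ≃L[ℝ] S₁) (T₂ : S₂ ≃L[ℝ] S₂) (t₀ t : ℝ), t₀ < t →
  (∃ C : ℝ, ∀ (k : ℕ) (w : S₁), ‖(⇑T₁)^[k] w‖ ≤ C * Real.exp (t₀ * k) * ‖w‖) →
  (∃ C : ℝ, ∀ (k : ℕ) (w : S₂), ‖(⇑T₂)^[k] w‖ ≤ C * Real.exp (t₀ * k) * ‖w‖) →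
  ∀ (𝒜 ℬ : Type) (f₁ : 𝒜 → S₁ →L[ℝ] ℝ) (f₂ : 𝒜 → S₂ →L[ℝ] ℝ) (Q₁ : ℬ → S₁) (Q₂ : ℬ → S₂),
  (∀ w, w ∈ Submodule.span ℝ (range Q₁)) → (∀ w, w ∈ Submodule.span ℝ (range Q₂)) →
  (∀ w, (∀ α, f₁ α w = 0) → w = 0) → (∀ w, (∀ α, f₂ α w = 0) → w = 0) →
  (∀ α β, ∃ (C : ℝ) (k₀ : ℕ), ∀ k : ℕ, k₀ ≤ k →
    |f₁ α ((⇑T₁.symm)^[k] (Q₁ β)) - f₂ α ((⇑T₂.symm)^[k] (Q₂ β))| ≤ C * Real.exp (-(t * k))) →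
  ∃ Ψ : S₁ ≃L[ℝ] S₂, (∀ w, Ψ (T₁ w) = T₂ (Ψ w)) ∧ (∀ β, Ψ (Q₁ β) = Q₂ β) ∧
    ∀ α w, f₂ α (Ψ w) = f₁ α w

/-! ### infinite chains -/

/-- Asymptotics (adapt `LX/I_ZAs.lean`).  `e i = θ (i+1) - T⁻¹ (θ i)`.  Fast part:
`(1-P) θ_i = T^(-i) (1-P) θ_0 + ∑_{m<i} T^(-(i-m-1)) (1-P) e_m`, norm `≤ C exp(-r₁i) M₁ + ∑_{m<i} C exp(-r₁(i-m-1))
M₂ exp(-2rm) ≤ C (M₁ + M₂) exp(-ti)` (`t < r₁`, `t < 2r`).  Slow part: `Q_i = T^i P θ_i`, `Q_(i+1) - Q_i = T^(i+1) P e_i`,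
norm `≤ C exp(r₀(i+1)) M₂ exp(-2ri)`, summable (`r₀ < t < 2r`); `Q` the limit, `P Q = Q`, `‖Q - P θ_0‖ ≤ C M₂`, and
`P θ_i - T^(-i) Q = - ∑_{l≥i} T^(l+1-i) P e_l` has norm `≤ C M₂ exp(-2ri)`. -/
def UAs : Prop := ∀ (S : Type) [NormedAddCommGroup S] [NormedSpace ℝ S] [FiniteDimensional ℝ S]
  (T : S ≃L[ℝ] S) (r t : ℝ) (P : S →L[ℝ] S), 0 < r → t < 2 * r → Gap T t P →
  ∃ C : ℝ, 0 ≤ C ∧ ∀ (M₁ M₂ : ℝ) (θ : ℕ → S), 0 ≤ M₁ → 0 ≤ M₂ →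
  (∀ i : ℕ, ‖θ i‖ ≤ M₁ * Real.exp (-(r * i))) →
  (∀ i : ℕ, ‖θ (i + 1) - T.symm (θ i)‖ ≤ M₂ * Real.exp (-(2 * r * i))) →
  ∃ Q : S, P Q = Q ∧ ‖Q - P (θ 0)‖ ≤ C * M₂ ∧
    ∀ i : ℕ, ‖θ i - (⇑T.symm)^[i] Q‖ ≤ C * (M₁ + M₂) * Real.exp (-(t * i))

/-- The coordinate of a backward chain (uses `ZTh`, `UAs`).  `θ i = (v (i+1), v i)`, `M₁ = A`, `M₂ = 9 C A^2`. -/
def UQv : Prop := ∀ (V : Type) [NormedAddCommGroup V] [NormedSpace ℝ V] [FiniteDimensional ℝ V]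
  (lam K r₀ : ℝ) (L : V × V → ℝ) (L1 : V × V → V × V →L[ℝ] ℝ) (L2 : V × V → Bf V)
  (T : (V × V) ≃L[ℝ] (V × V)), Ch lam K r₀ L L1 L2 → Tws (L2 0) → IsTr (L2 0) T →
  ∀ (r t : ℝ) (P : (V × V) →L[ℝ] (V × V)), 0 < r → t < 2 * r → Gap T t P →
  ∃ C ρ : ℝ, 0 < ρ ∧ ∀ v, Bc L1 ρ v → ∀ A : ℝ, 0 ≤ A →
  (∀ j : ℕ, ‖v j‖ ≤ A * Real.exp (-(r * j))) →
  ∃ Q : V × V, P Q = Q ∧ CoB T t v Q ∧ ‖Q - P (v 1, v 0)‖ ≤ C * A ^ 2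

/-- Reversal.  `L1' p = (L1 p.swap) ∘ swap`, `L2' p = ..` (compose twice with `ContinuousLinearEquiv.prodComm`; or
use `ContinuousLinearMap.bilinearComp`), `T' = swap ∘ T.symm ∘ swap`.  `Ch`: chain rule.  `IsTr`: if
`T.symm (b, a) = (x, b')` then `T (x, b') = (b, a)`, so `b' = b`.  `Tws`: `L2' 0 (0, v)(w, 0) = H(0, w)(v, 0)` by symmetry,
and `w ↦ H(0, w)(·, 0)`, `V → V*`, is injective, hence surjective.  `Fc`/`Bc`: substitute the index. -/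
def URv : Prop := ∀ (V : Type) [NormedAddCommGroup V] [NormedSpace ℝ V] [FiniteDimensional ℝ V]
  (lam K r₀ : ℝ) (L : V × V → ℝ) (L1 : V × V → V × V →L[ℝ] ℝ) (L2 : V × V → Bf V)
  (T : (V × V) ≃L[ℝ] (V × V)), Ch lam K r₀ L L1 L2 → Tws (L2 0) → IsTr (L2 0) T →
  ∃ (L1' : V × V → V × V →L[ℝ] ℝ) (L2' : V × V → Bf V) (T' : (V × V) ≃L[ℝ] (V × V)),
    Ch lam K r₀ (fun p => L p.swap) L1' L2' ∧ Tws (L2' 0) ∧ IsTr (L2' 0) T' ∧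
    (∀ w, T' w = (T.symm w.swap).swap) ∧ ∀ (ρ : ℝ) (p : ℕ → V), Fc L1 ρ p ↔ Bc L1' ρ p

/-- The coordinate of a forward chain (uses `UQv`, `URv`).  `UQv` for the reversed data: `T'^(-i) = swap T^i swap`, and
`Gap T' t (swap P swap)` follows from `Gap T.symm t P`. -/
def UQf : Prop := ∀ (V : Type) [NormedAddCommGroup V] [NormedSpace ℝ V] [FiniteDimensional ℝ V]
  (lam K r₀ : ℝ) (L : V × V → ℝ) (L1 : V × V → V × V →L[ℝ] ℝ) (L2 : V × V → Bf V)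
  (T : (V × V) ≃L[ℝ] (V × V)), Ch lam K r₀ L L1 L2 → Tws (L2 0) → IsTr (L2 0) T →
  ∀ (r t : ℝ) (P : (V × V) →L[ℝ] (V × V)), 0 < r → t < 2 * r → Gap T.symm t P →
  ∃ C ρ : ℝ, 0 < ρ ∧ ∀ p, Fc L1 ρ p → ∀ A : ℝ, 0 ≤ A →
  (∀ j : ℕ, ‖p j‖ ≤ A * Real.exp (-(r * j))) →
  ∃ R : V × V, P R = R ∧ CoF T t p R ∧ ‖R - P (p 0, p 1)‖ ≤ C * A ^ 2

/-- PERRON'S METHOD.  `Pf = 1 - P`.  On the Banach space of the sequences `θ` with `‖θ‖_r = sup exp(ri) ‖θ i‖ < ∞`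
(for instance `y i = exp(ri) θ i` a bounded function, `BoundedContinuousFunction` or `lp ∞`), ball of radius
`B = C ‖w‖` (`≤ ρ₀`), the map `(F θ) i = T^(-i) w + ∑_{m<i} T^(-(i-m-1)) Pf e_m - ∑_{m≥i} T^(m+1-i) P e_m`,
`e_m = N (θ m) (θ (m+1))`, `‖e_m‖ ≤ 4 K B^2 exp(-2rm)`.  `exp(ri)` times the second term is
`≤ C ∑ exp(-(r₁-r)(i-m)) exp(-rm) B^2`, `exp(ri)` times the third one is `≤ C exp(-ri) ∑_{m≥i} exp((r₀-2r)(m-i)) B^2`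
(`r₀ < r < r₁`); the same for differences, so `F` is a contraction of the ball if `‖w‖` is small.  The fixed point
satisfies `θ (i+1) - T⁻¹ (θ i) = Pf e_i + P e_i`, and `θ 0 - w = - ∑_{m≥0} T^(m+1) P e_m`.  (Or Picard iteration.) -/
def UPe : Prop := ∀ (S : Type) [NormedAddCommGroup S] [NormedSpace ℝ S] [FiniteDimensional ℝ S]
  (T : S ≃L[ℝ] S) (r : ℝ) (P : S →L[ℝ] S), 0 < r → Gap T r P → ∀ K ρ₀ : ℝ, 0 ≤ K → 0 < ρ₀ →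
  ∃ C ρ : ℝ, 0 < C ∧ 0 < ρ ∧ ∀ N : S → S → S, N 0 0 = 0 →
  (∀ x y x' y' : S, ‖x‖ ≤ ρ₀ → ‖y‖ ≤ ρ₀ → ‖x'‖ ≤ ρ₀ → ‖y'‖ ≤ ρ₀ →
    ‖N x y - N x' y'‖ ≤ K * (‖x‖ + ‖y‖ + ‖x'‖ + ‖y'‖) * (‖x - x'‖ + ‖y - y'‖)) →
  ∀ w : S, P w = 0 → ‖w‖ ≤ ρ → ∃ θ : ℕ → S,
    (∀ i, θ (i + 1) = T.symm (θ i) + N (θ i) (θ (i + 1))) ∧
    (∀ i : ℕ, ‖θ i‖ ≤ C * ‖w‖ * Real.exp (-(r * i))) ∧ ‖θ 0 - w‖ ≤ C * ‖w‖ ^ 2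

/-- Fast backward chains (uses `UPe`).  `m : V → V*`, `m a = H(a, 0)(0, ·)` is injective (proof of `STr`, or: `IsTr`
and `T` injective), hence bijective; `M` its inverse.  For `x = (b, c)`, `y = (a, b')`:
`N x y = (- M (c₁(a, b')(0, ·) + c₁(b, c)(·, 0)), 0)`.  `(T.symm (b, c)).2 = b` (`IsTr`), so the sequence `θ` of `UPe`
has the form `θ i = (v (i+1), v i)`, and with `T.symm (b, c) = (a*, b)`: `H(a - a*, 0)(0, ·) = - c₁(a, b)(0, ·) -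
c₁(b, c)(·, 0)`, `H(a*, b)(0, ·) + H(b, c)(·, 0) = 0`; the sum is the chain equation. -/
def UXb : Prop := ∀ (V : Type) [NormedAddCommGroup V] [NormedSpace ℝ V] [FiniteDimensional ℝ V]
  (lam K r₀ : ℝ) (L : V × V → ℝ) (L1 : V × V → V × V →L[ℝ] ℝ) (L2 : V × V → Bf V)
  (T : (V × V) ≃L[ℝ] (V × V)), Ch lam K r₀ L L1 L2 → Tws (L2 0) → IsTr (L2 0) T →
  ∀ (r : ℝ) (P : (V × V) →L[ℝ] (V × V)), 0 < r → Gap T r P → ∀ ρ₀ : ℝ, 0 < ρ₀ →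
  ∃ C ρ : ℝ, 0 < C ∧ 0 < ρ ∧ ∀ w : V × V, P w = 0 → ‖w‖ ≤ ρ → ∃ v : ℕ → V, Bc L1 ρ₀ v ∧
    (∀ j : ℕ, ‖v j‖ ≤ C * ‖w‖ * Real.exp (-(r * j))) ∧ ‖(v 1, v 0) - w‖ ≤ C * ‖w‖ ^ 2

/-- Fast forward chains (uses `UXb`, `URv`). -/
def UXf : Prop := ∀ (V : Type) [NormedAddCommGroup V] [NormedSpace ℝ V] [FiniteDimensional ℝ V]
  (lam K r₀ : ℝ) (L : V × V → ℝ) (L1 : V × V → V × V →L[ℝ] ℝ) (L2 : V × V → Bf V)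
  (T : (V × V) ≃L[ℝ] (V × V)), Ch lam K r₀ L L1 L2 → Tws (L2 0) → IsTr (L2 0) T →
  ∀ (r : ℝ) (P : (V × V) →L[ℝ] (V × V)), 0 < r → Gap T.symm r P → ∀ ρ₀ : ℝ, 0 < ρ₀ →
  ∃ C ρ : ℝ, 0 < C ∧ 0 < ρ ∧ ∀ w : V × V, P w = 0 → ‖w‖ ≤ ρ → ∃ p : ℕ → V, Fc L1 ρ₀ p ∧
    (∀ j : ℕ, ‖p j‖ ≤ C * ‖w‖ * Real.exp (-(r * j))) ∧ ‖(p 0, p 1) - w‖ ≤ C * ‖w‖ ^ 2

/-- Uniqueness (uses `YDif`, `XPer`).  The difference `δ` of two small forward chains with `δ 0 = 0` is a solution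
on `[0, k]` of a linear chain close to `H`: `‖δ j‖ ≤ C exp(-s'(k-j)) ‖δ k‖ ≤ 2 C ρ exp(-s'(k-j))`, `k → ∞`.  Backward
chains: the same for `j ↦ v (k - j)`.  (Rates from `XPosR`.) -/
def UUn : Prop := ∀ (V : Type) [NormedAddCommGroup V] [NormedSpace ℝ V] [FiniteDimensional ℝ V]
  (lam K r₀ : ℝ) (L : V × V → ℝ) (L1 : V × V → V × V →L[ℝ] ℝ) (L2 : V × V → Bf V),
  Ch lam K r₀ L L1 L2 → ∃ ρ : ℝ, 0 < ρ ∧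
  (∀ p p', Fc L1 ρ p → Fc L1 ρ p' → p 0 = p' 0 → p = p') ∧
  ∀ v v', Bc L1 ρ v → Bc L1 ρ v' → v 0 = v' 0 → v = v'

/-! ### the mixed second difference -/

/-- Tight chains are close to almost critical chains (uses `YTri`; adapt `LX/I_ZCv.lean`).  Let `δ = u - y`.  `ρ` small,
so `L2` at points of norm `≤ ρ` is at least `lam/2` times the square of the norm.
`∑ L(u⁺) ≤ ∑ L(y⁺)` (`Tight`, `YTri`, same ends) and `∑ L(u⁺) ≥ ∑ L(y⁺) + ∑ L1(y⁺)(δ⁺) +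
(lam/4) ∑_{j<k} (‖δ j‖^2 + ‖δ (j+1)‖^2)`; the second sum is `∑_{0<j<k} (residual at j)(δ j) ≥ - ∑ ε ‖δ j‖`.  So
`(lam/8) ∑_{j≤k} ‖δ j‖^2 ≤ (2/lam) k ε^2`. -/
def UCv : Prop := ∀ (V : Type) [NormedAddCommGroup V] [NormedSpace ℝ V] (lam K r : ℝ)
  (L : V × V → ℝ) (L1 : V × V → V × V →L[ℝ] ℝ) (L2 : V × V → Bf V) (D : ℕ → V → V → ℝ),
  Gen lam K r L L1 L2 D → ∃ C ρ : ℝ, 0 < C ∧ 0 < ρ ∧ ∀ (k : ℕ) (y u : ℕ → V) (ε : ℝ), 1 ≤ k →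
  (∀ j ≤ k, ‖y j‖ ≤ ρ) → (∀ j ≤ k, ‖u j‖ ≤ ρ) → 0 ≤ ε → Res L1 k y ε → Tight L D k u →
  u 0 = y 0 → u k = y k → ∀ j ≤ k, ‖u j - y j‖ ^ 2 ≤ C * k * ε ^ 2

/-- Residuals.  `A = CA k p`, `B = CB k v`, so `A j = p j` for `j < k`, `B j = q j = v (k - j)` for `j > 0`.  `p` and `q`
satisfy the chain equation.  `A`: only the residual at `k - 1` is not `0`, it is
`(L1(p (k-1), 0) - L1(p (k-1), p k))(w, 0)`, at most `C ‖p k‖ ‖w‖`.  `B`: only at `1`, at most `C ‖v k‖ ‖w‖`.  `A + B`: by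
`‖L1(a + b) - L1 a - L1 b‖ ≤ K' ‖a‖ ‖b‖` (`Ch4.lip2`, `L1 0 = 0`) and the two previous bounds the residual is at most
`C (exp(-rk) + ‖A⁺ j‖ ‖B⁺ j‖ + ..) ≤ C exp(-rk)`. -/
def URs : Prop := ∀ (V : Type) [NormedAddCommGroup V] [NormedSpace ℝ V]
  (lam K r₀ K' r' : ℝ) (L : V × V → ℝ) (L1 : V × V → V × V →L[ℝ] ℝ) (L2 : V × V → Bf V),
  Ch lam K r₀ L L1 L2 → Ch4 K' r' L L1 L2 → ∃ ρ : ℝ, 0 < ρ ∧ ∀ (r : ℝ) (p v : ℕ → V), 0 < r →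
  Fc L1 ρ p → Bc L1 ρ v → Rt r p → Rt r v → ∃ C : ℝ, 0 ≤ C ∧ ∀ k : ℕ, 1 ≤ k →
  Res L1 k (CA k p) (C * Real.exp (-(r * k))) ∧ Res L1 k (CB k v) (C * Real.exp (-(r * k))) ∧
  Res L1 k (CA k p + CB k v) (C * Real.exp (-(r * k)))

/-- Tight chains between `p 0` and `v 0` (uses `URs`, `UCv`).  `y = CA k p + CB k v`, `y 0 = p 0`, `y k = v 0`,
`y 1 = p 1 + v (k-1)`, `y (k-1) = p (k-1) + v 1` (`k ≥ 2`); `ε = C exp(-rk)`. -/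
def UTi : Prop := ∀ (V : Type) [NormedAddCommGroup V] [NormedSpace ℝ V]
  (lam K r₀ K' r' : ℝ) (L : V × V → ℝ) (L1 : V × V → V × V →L[ℝ] ℝ) (L2 : V × V → Bf V)
  (D : ℕ → V → V → ℝ), Gen lam K r₀ L L1 L2 D → Ch4 K' r' L L1 L2 → ∃ ρ : ℝ, 0 < ρ ∧
  ∀ (r : ℝ) (p v : ℕ → V), 0 < r → Fc L1 ρ p → Bc L1 ρ v → Rt r p → Rt r v → ∃ C : ℝ, 0 ≤ C ∧
  ∀ (k : ℕ) (u : ℕ → V), 2 ≤ k → Tight L D k u → u 0 = p 0 → u k = v 0 →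
  (∀ j ≤ k, ‖u j‖ ≤ ρ) →
  ‖u 1 - p 1‖ ^ 2 + ‖u (k - 1) - v 1‖ ^ 2 ≤ C * (k + 1) * Real.exp (-(2 * r * k))

/-- The mixed second difference of fast chains (uses `URs`, `ZCv`; compare `LX/I_ZMb.lean`, `LX/I_ZMc.lean`).
`A = CA k p`, `B = CB k v`, `q j = v (k-j)`, `k ≥ 2`; errors `≤ C (k+1) exp(-2rk)` are neglected.  (a) `ZCv` for
`A + B`, `A`, `B` (residuals `≤ C exp(-rk)`): `D k (p 0) (v 0) = ∑ L(A⁺ + B⁺)`, `D k (p 0) 0 = ∑ L(A⁺)`,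
`D k 0 (v 0) = ∑ L(B⁺)`, and `Ch4.dd` (`∑ ‖A⁺‖^2 ‖B⁺‖^2 ≤ C k exp(-2rk)`):
`Mx = ∑ (L1(A⁺) B⁺ + L1(B⁺) A⁺ - H A⁺ B⁺)`.  (b) `∑ L1(q⁺) A⁺ = L1(q 0, q 1)(p 0, 0)` (chain equation of `q`, `A k = 0`);
`∑ L1(B⁺) A⁺` differs from it by `(L1(0, q 1) - L1(q 0, q 1))(p 0, p 1) = - H(q 0, 0)(p 0, p 1)` (`‖q 0‖ ≤ C exp(-rk)`,
`‖q 1‖ ≤ C exp(-rk)`); `L1(q 0, q 1) = H(q 0, q 1)`.  (c) `∑ (L1(A⁺) - H A⁺) B⁺ = ∑ c₁(A⁺) B⁺`; `c₁(A⁺ j) = c₁(p⁺ j)` for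
`j < k - 1`, and both are `O(exp(-2rk))` for `j = k - 1`; `B⁺ j = q⁺ j` except for `j = 0`, so it is
`∑ c₁(p⁺ j) q⁺ j - c₁(p⁺ 0)(q 0, 0)`.  (d) `H(q 0, 0)(p 0, p 1) + c₁(p⁺ 0)(q 0, 0) = L1(p 0, p 1)(q 0, 0)` (symmetry). -/
def UMx : Prop := ∀ (V : Type) [NormedAddCommGroup V] [NormedSpace ℝ V]
  (lam K r₀ K' r' : ℝ) (L : V × V → ℝ) (L1 : V × V → V × V →L[ℝ] ℝ) (L2 : V × V → Bf V)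
  (D : ℕ → V → V → ℝ), Gen lam K r₀ L L1 L2 D → Ch4 K' r' L L1 L2 → ∃ ρ : ℝ, 0 < ρ ∧
  ∀ (r : ℝ) (p v : ℕ → V), 0 < r → Fc L1 ρ p → Bc L1 ρ v → Rt r p → Rt r v → ∃ C : ℝ, 0 ≤ C ∧
  ∀ k : ℕ, 2 ≤ k →
  |Mx D k (p 0) (v 0) - Gk (L2 0) L1 p v k| ≤ C * (k + 1) * Real.exp (-(2 * r * k))

/-- THE PAIRING (uses `UOm`).  `w = T^(-(k-1)) Q`, so `T^j w = (Y j, Y (j+1))` is a linear chain and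
`‖(v (k-j), v (k-(j+1))) - T^j w‖ ≤ C exp(-t(k-j))` for `j < k` (`CoB`).  (a) Replace in `Gk` the vectors of `v` by those
of `Y`: error `≤ C exp(-tk) + ∑_{j<k} C exp(-2rj) exp(-t(k-j)) ≤ C exp(-tk)` (`t < 2r`).  (b) With
`b j = H(Y j, Y (j+1))(p j, 0) - L1(p j, p (j+1))(Y j, 0)` the chain equations of `p` (nonlinear) and `Y` (linear) and
the symmetry of `H` give `c₁(p⁺ j)(Y⁺ j) = b (j+1) - b j`, so the new `Gk` is `b k`.  (c)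
`b k = - Om H (p⁺ k) (T Q) - c₁(p⁺ k)((T Q).1, 0)` (`Y⁺ k = T Q`), `c₁(p⁺ k) = O(exp(-2rk))`, and by `CoF` and invariance
`Om H (p⁺ k) (T Q) = Om H (T^k R) (T Q) + O(exp(-tk)) = Om H R (T^(-(k-1)) Q) + O(exp(-tk))`. -/
def UGk : Prop := ∀ (V : Type) [NormedAddCommGroup V] [NormedSpace ℝ V] [FiniteDimensional ℝ V]
  (lam K r₀ : ℝ) (L : V × V → ℝ) (L1 : V × V → V × V →L[ℝ] ℝ) (L2 : V × V → Bf V)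
  (T : (V × V) ≃L[ℝ] (V × V)), Ch lam K r₀ L L1 L2 → Tws (L2 0) → IsTr (L2 0) T →
  ∃ ρ : ℝ, 0 < ρ ∧ ∀ (r t : ℝ) (p v : ℕ → V) (Q R : V × V), 0 < r → 0 < t → t < 2 * r →
  Fc L1 ρ p → Rt r p → CoB T t v Q → CoF T t p R → ∃ C : ℝ, ∀ k : ℕ, 1 ≤ k →
  |Gk (L2 0) L1 p v k + Om (L2 0) R ((⇑T.symm)^[k - 1] Q)| ≤ C * Real.exp (-(t * k))

/-! ### the level step -/

/-- THE LEVEL STEP (uses `UQv`, `UQf`, `UXb`, `UXf`, `UCh`, `UGa`, `UOm`, `URe`).  `ρ₀` is so small that `UQv`, `UQf` apply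
to both systems.  COORDINATES: for `RB v1 v2` with `Rt r v1`, `Rt r v2` choose `Q_i` (`UQv`, `B_i Q_i = Q_i`,
`CoB T_i t v_i Q_i`); `InL T_i r B_i Q_i` (`‖T^(-i) Q‖ ≤ ‖(v (i+1), v i)‖ + C exp(-ti) ≤ C exp(-ri)`).  Likewise `R_i` with
`InL T_i.symm r B'_i R_i` for `RF p1 p2` (`UQf`).  Let `E_i` be the space of the `w` with `InL T_i r B_i w`,
`E'_i` that of the `R` with `InL T_i.symm r B'_i R`.  SPANNING: let `w ∈ E₁`; `A₁ w = 0` (`UGa` (2)); for small `θ > 0`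
`UXb` gives a chain `v1` for `θ w` (rate `r`, `A = C θ ‖w‖`), `RB v1 v2` for some `v2` (`Bc L1₁ ρ₁ v1`), `Rt r v2` by
the equivalence for `r`, and `‖Q₁ - θ w‖ ≤ ‖Q₁ - B₁(v1 1, v1 0)‖ + ‖B₁((v1 1, v1 0) - θ w)‖ ≤ C θ^2`; so `w` is a
limit of `θ⁻¹ Q₁`, and the `Q₁` span `E₁` (finite dimension).  The same for `E₂`, and for the `R_i` and `E'_i` (`UXf`).
SEPARATION: if `w ∈ E₁` and `Om(R₁, w) = 0` for all these `R₁` then `Om(R, w) = 0` for all `R ∈ E'₁`, so `w = 0` (`UCh`).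
`URe` for the spaces `E_i` (subspaces, invariant under `T_i`; `‖T_i^k w‖ ≤ C exp(t₀k) ‖w‖` on `E_i`, `t₀ < t`, `Gap.up`), `𝒜` the pairs
with `RF` and rates `r`, `ℬ` the pairs with `RB` and rates `r`, `f_i = Om H_i (R_i, ·)`; it gives `Ψ` (compose with a
projection of `S₁` onto `E₁`, or `B₁ ∘ (1 - A₁)`).  EQUIVALENCE FOR `t`: let `RF p1 p2` and `Rt t p1`; so `Rt r p1`, `Rt r p2`;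
`T₁^j R₁ = O(exp(-tj))` by `CoF`, so `R₁ = 0` (`UGa` (2) for `T₁.symm`, `B'₁ R₁ = R₁`), hence `f₁ = 0`, `f₂ (Ψ w) = f₁ w = 0`, so
`f₂ = 0` on `E₂`, `R₂ = 0` (`UCh`), and `CoF T₂ t p2 0` is `Rt t p2`.  Conversely in the same way; and for `RB`:
`Q₁ = 0` iff `Q₂ = Ψ Q₁ = 0`. -/
def UAb : Prop := ∀ (V₁ V₂ : Type) [NormedAddCommGroup V₁] [NormedSpace ℝ V₁]
  [FiniteDimensional ℝ V₁] [NormedAddCommGroup V₂] [NormedSpace ℝ V₂] [FiniteDimensional ℝ V₂]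
  (lam₁ K₁ r₁ lam₂ K₂ r₂ : ℝ) (L₁ : V₁ × V₁ → ℝ) (L1₁ : V₁ × V₁ → V₁ × V₁ →L[ℝ] ℝ)
  (L2₁ : V₁ × V₁ → Bf V₁) (L₂ : V₂ × V₂ → ℝ) (L1₂ : V₂ × V₂ → V₂ × V₂ →L[ℝ] ℝ)
  (L2₂ : V₂ × V₂ → Bf V₂) (T₁ : (V₁ × V₁) ≃L[ℝ] (V₁ × V₁)) (T₂ : (V₂ × V₂) ≃L[ℝ] (V₂ × V₂)),
  Ch lam₁ K₁ r₁ L₁ L1₁ L2₁ → Ch lam₂ K₂ r₂ L₂ L1₂ L2₂ → Tws (L2₁ 0) → Tws (L2₂ 0) →
  IsTr (L2₁ 0) T₁ → IsTr (L2₂ 0) T₂ → ∀ (r t : ℝ) (A₁ B₁ A₁' B₁' : (V₁ × V₁) →L[ℝ] (V₁ × V₁))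
  (A₂ B₂ A₂' B₂' : (V₂ × V₂) →L[ℝ] (V₂ × V₂)), 0 < r → r < t → t < 2 * r → Gap T₁ r A₁ →
  Gap T₁ t B₁ → Gap T₁.symm r A₁' → Gap T₁.symm t B₁' → Gap T₂ r A₂ → Gap T₂ t B₂ →
  Gap T₂.symm r A₂' → Gap T₂.symm t B₂' → ∃ ρ₀ : ℝ, 0 < ρ₀ ∧
  ∀ (RF RB : (ℕ → V₁) → (ℕ → V₂) → Prop),
  (∀ p1 p2, RF p1 p2 → Fc L1₁ ρ₀ p1 ∧ Fc L1₂ ρ₀ p2) →
  (∀ v1 v2, RB v1 v2 → Bc L1₁ ρ₀ v1 ∧ Bc L1₂ ρ₀ v2) →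
  (∃ ρ₁ : ℝ, 0 < ρ₁ ∧ (∀ p1, Fc L1₁ ρ₁ p1 → ∃ p2, RF p1 p2) ∧
    (∀ p2, Fc L1₂ ρ₁ p2 → ∃ p1, RF p1 p2) ∧ (∀ v1, Bc L1₁ ρ₁ v1 → ∃ v2, RB v1 v2) ∧
    ∀ v2, Bc L1₂ ρ₁ v2 → ∃ v1, RB v1 v2) →
  (∀ p1 p2, RF p1 p2 → (Rt r p1 ↔ Rt r p2)) → (∀ v1 v2, RB v1 v2 → (Rt r v1 ↔ Rt r v2)) →
  (∀ p1 p2 v1 v2 Q₁ Q₂ R₁ R₂, RF p1 p2 → RB v1 v2 → Rt r p1 → Rt r p2 → Rt r v1 → Rt r v2 →
    CoB T₁ t v1 Q₁ → CoB T₂ t v2 Q₂ → CoF T₁ t p1 R₁ → CoF T₂ t p2 R₂ →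
    ∃ (C : ℝ) (k₀ : ℕ), ∀ k : ℕ, k₀ ≤ k →
      |Om (L2₁ 0) R₁ ((⇑T₁.symm)^[k] Q₁) - Om (L2₂ 0) R₂ ((⇑T₂.symm)^[k] Q₂)| ≤
        C * Real.exp (-(t * k))) →
  (∀ p1 p2, RF p1 p2 → (Rt t p1 ↔ Rt t p2)) ∧ (∀ v1 v2, RB v1 v2 → (Rt t v1 ↔ Rt t v2)) ∧
  ∃ Ψ : (V₁ × V₁) →L[ℝ] (V₂ × V₂), (∀ w, InL T₁ r B₁ w → InL T₂ r B₂ (Ψ w)) ∧
    (∀ w, InL T₁ r B₁ w → Ψ w = 0 → w = 0) ∧
    (∀ w', InL T₂ r B₂ w' → ∃ w, InL T₁ r B₁ w ∧ Ψ w = w') ∧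
    ∀ w, InL T₁ r B₁ w → Ψ (T₁ w) = T₂ (Ψ w)

end Pool.Agent.LX
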