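import Pool.Agent.Work.MP_25cd3b_gt.LX.StmtsV
import Pool.Agent.Work.MP_25cd3b_gt.LX.StmtsU

set_option autoImplicit false

/-!
# MP_25cd3b_gt, block LX, part W: the linearised Poincaré map (geometric part), statements with complete
proofs

What may be used: as in StmtsB, StmtsK, StmtsR, StmtsV (`NG.All`, `ST.All93`; every statement of these files,
of StmtsA, StmtsZ, StmtsU, and every earlier statement of this file as a hypothesis).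
`L = Lk g φ a o l V`, `L1 = fderiv ℝ L`, `H = HH g φ a o l V = fderiv ℝ (fderiv ℝ L) 0` (by definition), `o = c 0`,
`D k = Dk g φ a o l V k`, `σ u = ex_o u`.  `Ch4` for `L`: `BSm` and `ZC4`.
-/

open MeasureTheory Set Filter Topology
open scoped ContDiff ENNReal
open Pool.Agent.Work.MP_c9f990_an.Al (IsFlow)

namespace Pool.Agent.LX

open Pool.Agent.MLS Pool.Agent.STR Pool.Agent.LR

/-- two metrics with the same marked length spectrum, closed geodesics `c₁`, `c₂` of the class `a` -/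
structure D2 (n : ℕ) (G : Type) [Group G] [MulAction G (E n)] (g1 g2 : Form n) (κ₁ κ₂ : ℝ)
    (φ₁ φ₂ : ℝ → W n → W n) (M₁ M₂ : ℝ → W n → W n →L[ℝ] W n) (lg₁ lg₂ : E n → E n → E n) (a : G)
    (c₁ c₂ : ℝ → E n) (l : ℝ) (V₁ V₂ : Submodule ℝ (E n)) : Prop where
  P1 : Per n G g1 κ₁ φ₁ M₁ lg₁ a c₁ l V₁
  P2 : Per n G g2 κ₂ φ₂ M₂ lg₂ a c₂ l V₂
  eqL : ∀ b : G, L g1 b = L g2 b
  n1 : ∃ v ∈ V₁, v ≠ 0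
  n2 : ∃ v ∈ V₂, v ≠ 0

variable {n : ℕ} {G : Type} [Group G] [MulAction G (E n)]

/-- `p1`, `p2` are the chains of forward asymptotic geodesics of `g1`, `g2` at bounded distance -/
def MF (g1 g2 : Form n) (φ₁ φ₂ : ℝ → W n → W n) (a : G) (c₁ c₂ : ℝ → E n) (l : ℝ)
    (V₁ V₂ : Submodule ℝ (E n)) (ρ : ℝ) (p1 : ℕ → V₁) (p2 : ℕ → V₂) : Prop :=
  ∃ α1 α2 : ℝ → E n, Fw g1 φ₁ a c₁ l V₁ ρ α1 p1 ∧ Fw g2 φ₂ a c₂ l V₂ ρ α2 p2 ∧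
    ∃ C : ℝ, ∀ t, gd g2 (α1 t) (α2 t) ≤ C

/-- `v1`, `v2` are the chains of backward asymptotic geodesics of `g1`, `g2` at bounded distance -/
def MB (g1 g2 : Form n) (φ₁ φ₂ : ℝ → W n → W n) (a : G) (c₁ c₂ : ℝ → E n) (l : ℝ)
    (V₁ V₂ : Submodule ℝ (E n)) (ρ : ℝ) (v1 : ℕ → V₁) (v2 : ℕ → V₂) : Prop :=
  ∃ β1 β2 : ℝ → E n, Bw g1 φ₁ a c₁ l V₁ ρ β1 v1 ∧ Bw g2 φ₂ a c₂ l V₂ ρ β2 v2 ∧
    ∃ C : ℝ, ∀ t, gd g2 (β1 t) (β2 t) ≤ C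

/-- small corresponding chains have the rate `r` at the same time -/
def Eqr (g1 g2 : Form n) (φ₁ φ₂ : ℝ → W n → W n) (a : G) (c₁ c₂ : ℝ → E n) (l : ℝ)
    (V₁ V₂ : Submodule ℝ (E n)) (r : ℝ) : Prop :=
  ∃ ρ : ℝ, 0 < ρ ∧ (∀ p1 p2, MF g1 g2 φ₁ φ₂ a c₁ c₂ l V₁ V₂ ρ p1 p2 → (Rt r p1 ↔ Rt r p2)) ∧
    ∀ v1 v2, MB g1 g2 φ₁ φ₂ a c₁ c₂ l V₁ V₂ ρ v1 v2 → (Rt r v1 ↔ Rt r v2)

/-- bounded backward orbit -/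
def Ub {S : Type} [NormedAddCommGroup S] [NormedSpace ℝ S] (T : S ≃L[ℝ] S) (w : S) : Prop :=
  ∃ C : ℝ, ∀ k : ℕ, ‖(⇑T.symm)^[k] w‖ ≤ C

/-- TEMPORAL DISPLACEMENT, explicit errors (adapt `LX/I_KEst.lean`; uses `KAl`, `KX1`, `BGen`, `BRev`, `YExc`, `UUn`,
`StCvG`, `StUG`).  In `KEst` only the last step changes: the chain `uα` of `KAl` for `α` is `p` (`UUn`: both are small
forward chains with the same first entry), the chain of `β(-t)` for the reversed data is `v` (it is a backward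
chain for `L`, compare `LX/I_VEx.lean`), and the excesses are
`e = L(x, p 1) + D (k-1) (p 1) z - D k x z ≤ C ‖u 1 - p 1‖^2`, `e' ≤ C ‖u (k-1) - v 1‖^2` (`YExc`); they are small
enough for `KX1` if `ρ` is small (last hypothesis; `e + e' ≤ C ρ`). -/
def WKe : Prop := ∀ (n : ℕ) (G : Type) [Group G] [MulAction G (E n)] (g : Form n) (κ : ℝ)
  (φ : ℝ → W n → W n) (M : ℝ → W n → W n →L[ℝ] W n) (lg : E n → E n → E n) (a : G) (c : ℝ → E n)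
  (l : ℝ) (V : Submodule ℝ (E n)), Per n G g κ φ M lg a c l V → ∃ C ρ : ℝ, 0 < C ∧ 0 < ρ ∧
  ∀ (α β : ℝ → E n) (p v u : ℕ → V) (a₀ b₀ : ℝ) (k : ℕ), Fw g φ a c l V ρ α p →
  Bw g φ a c l V ρ β v → |a₀| ≤ ρ → α a₀ = expo φ g (c 0) (p 0) → |b₀| ≤ ρ →
  β b₀ = expo φ g (c 0) (v 0) → 2 ≤ k → u 0 = p 0 → u k = v 0 → (∀ j ≤ k, ‖u j‖ ≤ ρ) →
  Tight (Lk g φ a (c 0) l V) (Dk g φ a (c 0) l V) k u →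
  ‖u 1 - p 1‖ ^ 2 + ‖u (k - 1) - v 1‖ ^ 2 ≤ ρ → ∃ τ : ℝ, Tau g a α β k l τ ∧
    Dk g φ a (c 0) l V k (p 0) (v 0) + a₀ - b₀ - C * (‖u 1 - p 1‖ ^ 2 + ‖u (k - 1) - v 1‖ ^ 2) ≤ τ ∧
    τ ≤ Dk g φ a (c 0) l V k (p 0) (v 0) + a₀ - b₀

/-- Temporal displacement of fast geodesics (uses `WKe`, `UTi`, `BGen`, `BSm`, `ZC4`, `StCvG`, `StInvD`, `StGd`; compare
`LX/I_KMain.lean`).  `ρ` small.  For `k` large take the tight chain `u` of `Gen.ex` from `p 0` to `v 0` (entries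
`≤ C max`), `UTi`: the error in `WKe` is `≤ C (k+1) exp(-2rk)` (so the last hypothesis of `WKe` holds for large `k`).
Do this for `(α, β)`, for `(α, c)` (chain `v = 0`, `b₀ = 0`; `c` and the chain `0` satisfy `Bw`, `Fw`) and for `(c, β)`
(`p = 0`, `a₀ = 0`).  `Tau g a α c k l 0` and `Tau g a c β k l 0` (see `KMain`), limits are unique, so
`|D k (p 0) 0 + a₀|`, `|D k 0 (v 0) - b₀| ≤ C (k+1) exp(-2rk)`. -/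
def WKm : Prop := ∀ (n : ℕ) (G : Type) [Group G] [MulAction G (E n)] (g : Form n) (κ : ℝ)
  (φ : ℝ → W n → W n) (M : ℝ → W n → W n →L[ℝ] W n) (lg : E n → E n → E n) (a : G) (c : ℝ → E n)
  (l : ℝ) (V : Submodule ℝ (E n)), Per n G g κ φ M lg a c l V → ∃ ρ : ℝ, 0 < ρ ∧
  ∀ (r : ℝ) (α β : ℝ → E n) (p v : ℕ → V), 0 < r → Fw g φ a c l V ρ α p →
  Bw g φ a c l V ρ β v → Rt r p → Rt r v → ∃ (C : ℝ) (k₀ : ℕ), ∀ k : ℕ, k₀ ≤ k →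
  ∃ τ : ℝ, Tau g a α β k l τ ∧
    |τ - Mx (Dk g φ a (c 0) l V) k (p 0) (v 0)| ≤ C * (k + 1) * Real.exp (-(2 * r * k))

/-- Temporal displacement and coordinates (uses `WKm`, `UMx`, `UGk`, `BGen`, `BSm`, `ZC4`, `VTw`).
`τ = Mx + O((k+1) exp(-2rk)) = Gk + O(..) = - Om H R (T^(-(k-1)) Q) + O(exp(-tk))`, and
`(k+1) exp(-2rk) ≤ C exp(-tk)` as `t < 2r`. -/
def WTa : Prop := ∀ (n : ℕ) (G : Type) [Group G] [MulAction G (E n)] (g : Form n) (κ : ℝ)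
  (φ : ℝ → W n → W n) (M : ℝ → W n → W n →L[ℝ] W n) (lg : E n → E n → E n) (a : G) (c : ℝ → E n)
  (l : ℝ) (V : Submodule ℝ (E n)), Per n G g κ φ M lg a c l V →
  ∀ T : (V × V) ≃L[ℝ] (V × V), IsTr (HH g φ a (c 0) l V) T → ∃ ρ : ℝ, 0 < ρ ∧
  ∀ (r t : ℝ) (α β : ℝ → E n) (p v : ℕ → V) (Q R : V × V), 0 < r → 0 < t → t < 2 * r →
  Fw g φ a c l V ρ α p → Bw g φ a c l V ρ β v → Rt r p → Rt r v → CoB T t v Q → CoF T t p R →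
  ∃ (C : ℝ) (k₀ : ℕ), ∀ k : ℕ, k₀ ≤ k → ∃ τ : ℝ, Tau g a α β k l τ ∧
    |τ + Om (HH g φ a (c 0) l V) R ((⇑T.symm)^[k - 1] Q)| ≤ C * Real.exp (-(t * k))

/-- Partners (uses `RPr`, `VEx`, `VGv`, `RT1`, `RT2`, `UUn`, `BGen`, `StGd`).  Let `p1` be a small forward chain of `g1`:
`VEx` gives `α1` and a chain with the same first entry, equal to `p1` by `UUn`; `RT1` for `(g1, g2)` gives `α2` close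
to `c₂` and at bounded distance from `α1`; `VGv` for `g2` gives `p2`.  Let `p2` be a small forward chain of `g2`:
the same with `(g2, g1)` (`RPr` with the roles exchanged), and `d₂ ≤ d₁ + D` (`Pr2.cmp`).  Backward chains:
`RT2`.  (Compare `LX/I_VCon.lean`.) -/
def WPa : Prop := ∀ (n : ℕ) (G : Type) [Group G] [MulAction G (E n)] (g1 g2 : Form n)
  (κ₁ κ₂ : ℝ) (φ₁ φ₂ : ℝ → W n → W n) (M₁ M₂ : ℝ → W n → W n →L[ℝ] W n)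
  (lg₁ lg₂ : E n → E n → E n) (a : G) (c₁ c₂ : ℝ → E n) (l : ℝ) (V₁ V₂ : Submodule ℝ (E n)),
  D2 n G g1 g2 κ₁ κ₂ φ₁ φ₂ M₁ M₂ lg₁ lg₂ a c₁ c₂ l V₁ V₂ → ∀ ρ : ℝ, 0 < ρ →
  ∃ ρ₁ : ℝ, 0 < ρ₁ ∧
  (∀ p1, Fc (fderiv ℝ (Lk g1 φ₁ a (c₁ 0) l V₁)) ρ₁ p1 →
    ∃ p2, MF g1 g2 φ₁ φ₂ a c₁ c₂ l V₁ V₂ ρ p1 p2) ∧
  (∀ p2, Fc (fderiv ℝ (Lk g2 φ₂ a (c₂ 0) l V₂)) ρ₁ p2 →
    ∃ p1, MF g1 g2 φ₁ φ₂ a c₁ c₂ l V₁ V₂ ρ p1 p2) ∧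
  (∀ v1, Bc (fderiv ℝ (Lk g1 φ₁ a (c₁ 0) l V₁)) ρ₁ v1 →
    ∃ v2, MB g1 g2 φ₁ φ₂ a c₁ c₂ l V₁ V₂ ρ v1 v2) ∧
  ∀ v2, Bc (fderiv ℝ (Lk g2 φ₂ a (c₂ 0) l V₂)) ρ₁ v2 →
    ∃ v1, MB g1 g2 φ₁ φ₂ a c₁ c₂ l V₁ V₂ ρ v1 v2

/-- Estimate for partners (uses `WTa`, `RPr`, `RTau`).  Let `k' = k + 1 ≥ k₀`.  `WTa` for `g1` gives `τ` with
`Tau g1 .. k' l τ`, so `Tau g2 .. k' l τ` (`RTau`, with the larger of the two constants `C`), and `WTa` for `g2`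
gives `τ'`, `τ' = τ` (limits are unique). -/
def WEs : Prop := ∀ (n : ℕ) (G : Type) [Group G] [MulAction G (E n)] (g1 g2 : Form n)
  (κ₁ κ₂ : ℝ) (φ₁ φ₂ : ℝ → W n → W n) (M₁ M₂ : ℝ → W n → W n →L[ℝ] W n)
  (lg₁ lg₂ : E n → E n → E n) (a : G) (c₁ c₂ : ℝ → E n) (l : ℝ) (V₁ V₂ : Submodule ℝ (E n)),
  D2 n G g1 g2 κ₁ κ₂ φ₁ φ₂ M₁ M₂ lg₁ lg₂ a c₁ c₂ l V₁ V₂ →
  ∀ (T₁ : (V₁ × V₁) ≃L[ℝ] (V₁ × V₁)) (T₂ : (V₂ × V₂) ≃L[ℝ] (V₂ × V₂)),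
  IsTr (HH g1 φ₁ a (c₁ 0) l V₁) T₁ → IsTr (HH g2 φ₂ a (c₂ 0) l V₂) T₂ → ∃ ρ : ℝ, 0 < ρ ∧
  ∀ (r t : ℝ), 0 < r → 0 < t → t < 2 * r → ∀ p1 p2 v1 v2 Q₁ Q₂ R₁ R₂,
  MF g1 g2 φ₁ φ₂ a c₁ c₂ l V₁ V₂ ρ p1 p2 → MB g1 g2 φ₁ φ₂ a c₁ c₂ l V₁ V₂ ρ v1 v2 → Rt r p1 →
  Rt r p2 → Rt r v1 → Rt r v2 → CoB T₁ t v1 Q₁ → CoB T₂ t v2 Q₂ → CoF T₁ t p1 R₁ →
  CoF T₂ t p2 R₂ → ∃ (C : ℝ) (k₀ : ℕ), ∀ k : ℕ, k₀ ≤ k →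
    |Om (HH g1 φ₁ a (c₁ 0) l V₁) R₁ ((⇑T₁.symm)^[k] Q₁) -
      Om (HH g2 φ₂ a (c₂ 0) l V₂) R₂ ((⇑T₂.symm)^[k] Q₂)| ≤ C * Real.exp (-(t * k))

/-- THE LEVEL STEP (uses `UAb`, `WPa`, `WEs`, `BGen`, `VTw`).  `ρ` = the smallest of the `ρ₀` of `UAb`, the `ρ` of `WEs` and
the `ρ` of `Eqr`; `RF = MF .. ρ`, `RB = MB .. ρ` (`MF`, `MB` are monotone in `ρ`). -/
def WSt : Prop := ∀ (n : ℕ) (G : Type) [Group G] [MulAction G (E n)] (g1 g2 : Form n)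
  (κ₁ κ₂ : ℝ) (φ₁ φ₂ : ℝ → W n → W n) (M₁ M₂ : ℝ → W n → W n →L[ℝ] W n)
  (lg₁ lg₂ : E n → E n → E n) (a : G) (c₁ c₂ : ℝ → E n) (l : ℝ) (V₁ V₂ : Submodule ℝ (E n)),
  D2 n G g1 g2 κ₁ κ₂ φ₁ φ₂ M₁ M₂ lg₁ lg₂ a c₁ c₂ l V₁ V₂ →
  ∀ (T₁ : (V₁ × V₁) ≃L[ℝ] (V₁ × V₁)) (T₂ : (V₂ × V₂) ≃L[ℝ] (V₂ × V₂)),
  IsTr (HH g1 φ₁ a (c₁ 0) l V₁) T₁ → IsTr (HH g2 φ₂ a (c₂ 0) l V₂) T₂ → ∀ (r t : ℝ)
  (A₁ B₁ A₁' B₁' : (V₁ × V₁) →L[ℝ] (V₁ × V₁)) (A₂ B₂ A₂' B₂' : (V₂ × V₂) →L[ℝ] (V₂ × V₂)), 0 < r →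
  r < t → t < 2 * r → Gap T₁ r A₁ → Gap T₁ t B₁ → Gap T₁.symm r A₁' → Gap T₁.symm t B₁' →
  Gap T₂ r A₂ → Gap T₂ t B₂ → Gap T₂.symm r A₂' → Gap T₂.symm t B₂' →
  Eqr g1 g2 φ₁ φ₂ a c₁ c₂ l V₁ V₂ r → Eqr g1 g2 φ₁ φ₂ a c₁ c₂ l V₁ V₂ t ∧
  ∃ Ψ : (V₁ × V₁) →L[ℝ] (V₂ × V₂), (∀ w, InL T₁ r B₁ w → InL T₂ r B₂ (Ψ w)) ∧
    (∀ w, InL T₁ r B₁ w → Ψ w = 0 → w = 0) ∧
    (∀ w', InL T₂ r B₂ w' → ∃ w, InL T₁ r B₁ w ∧ Ψ w = w') ∧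
    ∀ w, InL T₁ r B₁ w → Ψ (T₁ w) = T₂ (Ψ w)

/-- INDUCTION OVER THE LEVELS (uses `WSt`, `UGp`, `UGa`, `UGl`, `SHy`, `ZDc`, `BGen`, `BPos`, `XPosR`).  `s > 0` with `Gr H_i s`
(`BPos`, `XPosR`, the smaller rate; `Gr` is monotone).  `UGp` at a number `r` for the four maps `T₁, T₂, T₁.symm,
T₂.symm` gives gaps for all numbers in `(r, r + δ)`.  START: `r₀ ∈ (0, s)` with four gaps; `Eqr r₀`: every small chain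
has the rate `r₀` (`ZDc`, for both metrics).  CLAIM(N): there are `r ≥ (3/2)^N r₀` with four gaps, `Eqr r`, and `Ψ`
(linear, bijective, equivariant) from the `w` with `InL T₁ r₀ A₁ w` to those with `InL T₂ r₀ A₂ w` (four properties
as in `UGl`).  `N = 0`: `r = r₀`, these `w` are `0` (`UGa` (2)), `Ψ = 0`.  STEP: choose `t` with
`3 r / 2 < t < min (2 r) (3 r / 2 + δ)` and four gaps (`UGp` at `3 r / 2`); `WSt`, `UGl`.  END: take `N` with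
`exp((3/2)^N r₀) ≥ ‖T₁‖, ‖T₂‖`; then `A_i = 1` (`UGa` (1)), so `InL T_i r₀ A_i w` is the decay of rate `r₀` of the
backward orbit, which is the same as boundedness (`SHy`, `r₀ < s`). -/
def WIn : Prop := ∀ (n : ℕ) (G : Type) [Group G] [MulAction G (E n)] (g1 g2 : Form n)
  (κ₁ κ₂ : ℝ) (φ₁ φ₂ : ℝ → W n → W n) (M₁ M₂ : ℝ → W n → W n →L[ℝ] W n)
  (lg₁ lg₂ : E n → E n → E n) (a : G) (c₁ c₂ : ℝ → E n) (l : ℝ) (V₁ V₂ : Submodule ℝ (E n)),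
  D2 n G g1 g2 κ₁ κ₂ φ₁ φ₂ M₁ M₂ lg₁ lg₂ a c₁ c₂ l V₁ V₂ →
  ∀ (T₁ : (V₁ × V₁) ≃L[ℝ] (V₁ × V₁)) (T₂ : (V₂ × V₂) ≃L[ℝ] (V₂ × V₂)),
  IsTr (HH g1 φ₁ a (c₁ 0) l V₁) T₁ → IsTr (HH g2 φ₂ a (c₂ 0) l V₂) T₂ →
  ∃ Ψ : (V₁ × V₁) →L[ℝ] (V₂ × V₂), (∀ w, Ub T₁ w → Ub T₂ (Ψ w)) ∧
    (∀ w, Ub T₁ w → Ψ w = 0 → w = 0) ∧ (∀ w', Ub T₂ w' → ∃ w, Ub T₁ w ∧ Ψ w = w') ∧
    ∀ w, Ub T₁ w → Ψ (T₁ w) = T₂ (Ψ w)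

/-- The transfer map of the reversed geodesic (uses `BRev`, `BSm`, `BPos`).  By `BRev` (`k = 1`) the function `Lk` for
`a⁻¹` is `p ↦ L p.swap`; it is smooth near `0` (`BSm`), so `HH` for `a⁻¹` is `q, q' ↦ H q.swap q'.swap` (chain rule for
the continuous linear equivalence `swap`, twice).  `T' = swap ∘ T.symm ∘ swap`: if `T.symm (b, a') = (x, b')` then
`T (x, b') = (b, a')`, so `b' = b`, and the chain equation for `(x, b, a')` is the reversed one for `(a', b, x)`. -/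
def WRv : Prop := ∀ (n : ℕ) (G : Type) [Group G] [MulAction G (E n)] (g : Form n) (κ : ℝ)
  (φ : ℝ → W n → W n) (M : ℝ → W n → W n →L[ℝ] W n) (lg : E n → E n → E n) (a : G) (c : ℝ → E n)
  (l : ℝ) (V : Submodule ℝ (E n)), Per n G g κ φ M lg a c l V →
  ∀ T : (V × V) ≃L[ℝ] (V × V), IsTr (HH g φ a (c 0) l V) T →
  ∃ T' : (V × V) ≃L[ℝ] (V × V), IsTr (HH g φ a⁻¹ (c 0) l V) T' ∧
    ∀ w, T' w = (T.symm w.swap).swap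

/-- CONJUGACY OF THE POINCARÉ MAPS (uses `WIn`, `WRv`, `BRev`, `SHs`, `SHy`, `BPos`, `XPosR`).  `Ψu` from `WIn` for `a`.  The
reversed data `a⁻¹`, `c_i (-t)` satisfy `D2` (`BRev`), transfer maps `T_i'` (`WRv`); `WIn` gives `Ψ'`.  As
`T'^(-k) w = (T^k w.swap).swap`, `Ψs = swap ∘ Ψ' ∘ swap` is a linear bijection between the `w` with bounded forward
orbit for `T₁` and for `T₂`, and it commutes with `T_i⁻¹`, hence with `T_i`.  `Ps_i` from `SHs` (`Gr H_i s`: `BPos`, `XPosR`):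
`Ps_i w` has a bounded forward, `w - Ps_i w` a bounded backward orbit, and a vector with both orbits bounded is
`0` (`SHy`).  `Ψ = Ψs ∘ Ps₁ + Ψu ∘ (1 - Ps₁)`, bijective, equivariant. -/
def WFu : Prop := ∀ (n : ℕ) (G : Type) [Group G] [MulAction G (E n)] (g1 g2 : Form n)
  (κ₁ κ₂ : ℝ) (φ₁ φ₂ : ℝ → W n → W n) (M₁ M₂ : ℝ → W n → W n →L[ℝ] W n)
  (lg₁ lg₂ : E n → E n → E n) (a : G) (c₁ c₂ : ℝ → E n) (l : ℝ) (V₁ V₂ : Submodule ℝ (E n)),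
  D2 n G g1 g2 κ₁ κ₂ φ₁ φ₂ M₁ M₂ lg₁ lg₂ a c₁ c₂ l V₁ V₂ →
  ∀ (T₁ : (V₁ × V₁) ≃L[ℝ] (V₁ × V₁)) (T₂ : (V₂ × V₂) ≃L[ℝ] (V₂ × V₂)),
  IsTr (HH g1 φ₁ a (c₁ 0) l V₁) T₁ → IsTr (HH g2 φ₂ a (c₂ 0) l V₂) T₂ →
  ∃ Ψ : (V₁ × V₁) ≃L[ℝ] (V₂ × V₂), ∀ w, Ψ (T₁ w) = T₂ (Ψ w)

/-- CONCLUSION (uses `WFu`, `VJ1`, `VJ3`, `VTw`, `BPos`, `STr`, `RDim`; compare `LX/I_VFi.lean`).  CASE `V₁ = 0`: then `V₂ = 0`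
(`RDim` with the roles exchanged), the orthogonal Jacobi fields are `0` (`VJ1`), `Ψ = 0`.  CASE `V₁ ≠ 0`, `V₂ ≠ 0`:
`T_i` from `STr`, `Ψ₀` from `WFu`.  `N_i` the vector space of the orthogonal Jacobi fields along `c_i`,
`w_i : N_i → V_i × V_i` the code, a linear isomorphism (`VJ1`).  `Ψ` is a linear extension to all functions
(`LinearMap.exists_extend`) of `w₂⁻¹ ∘ Ψ₀ ∘ w₁`.  It commutes with the Poincaré maps by `VJ3`. -/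
def WVf : Prop := ∀ (n : ℕ) (G : Type) [Group G] [MulAction G (E n)] (g1 g2 : Form n)
  (κ₁ κ₂ : ℝ) (φ₁ φ₂ : ℝ → W n → W n) (M₁ M₂ : ℝ → W n → W n →L[ℝ] W n)
  (lg₁ lg₂ : E n → E n → E n) (a : G) (c₁ c₂ : ℝ → E n) (l : ℝ) (V₁ V₂ : Submodule ℝ (E n)),
  Per n G g1 κ₁ φ₁ M₁ lg₁ a c₁ l V₁ → Per n G g2 κ₂ φ₂ M₂ lg₂ a c₂ l V₂ →
  (∀ b : G, L g1 b = L g2 b) → ∃ Ψ : (ℝ → E n) →ₗ[ℝ] (ℝ → E n),
  BijOn Ψ {J | NJ g1 c₁ J} {J | NJ g2 c₂ J} ∧ ∀ J J', NJ g1 c₁ J → NJ g1 c₁ J' →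
    (∀ t, J (t + l) = dac a (c₁ t) (J' t)) → ∀ t, Ψ J (t + l) = dac a (c₂ t) (Ψ J' t)

end Pool.Agent.LX
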