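import Pool.Agent.Work.MP_25cd3b_gt.LX.StmtsF

set_option autoImplicit false

/-!
# MP_25cd3b_gt, block LX: the conclusion for the definitions of `Gen` and `LX/DefsF`
-/

open MeasureTheory Set Filter Topology
open scoped ContDiff ENNReal

namespace Pool.Agent.LX

open Pool.Agent.MLS (E W)
open Pool.Agent.GM (Frm toF UGeo UT vec)

namespace IFin

/-- periodicity of the corresponding geodesic -/
theorem per2 {n : ℕ} {G : Type} [Group G] [MulAction G (E n)] (hG : GM.Cocompact (E n) G)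
    {g1 g2 : Frm (E n)} {θ : G ≃* G} {Φ : UT g1 ≃ₜ UT g2} (hΦ : GM.Conj θ g1 g2 Φ)
    {c1 c2 : ℝ → E n} (h1 : UGeo g1 c1) (h2 : UGeo g2 c2) (hc : ∀ t, Φ (vec h1 t) = vec h2 t)
    {a : G} {l : ℝ} (hp : ∀ t, c1 (t + l) = a • c1 t) (t : ℝ) : c2 (t + l) = θ a • c2 t := by
  have hd : ∀ t, DifferentiableAt ℝ c1 t := fun t => (h1.geo.smooth.differentiable (by simp)) t
  have e1 : deriv c1 (t + l) = GM.dac a (c1 t) (deriv c1 t) := by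
    have h3 : deriv (fun s => c1 (s + l)) t = deriv c1 (t + l) := deriv_comp_add_const c1 l t
    have h4 : (fun s => c1 (s + l)) = fun s => a • c1 s := funext hp
    rw [← h3, h4]
    have h5 : HasFDerivAt (fun x : E n => a • x) (GM.dac a (c1 t)) (c1 t) :=
      (((hG.smooth a).differentiable (by simp)) (c1 t)).hasFDerivAt
    exact (h5.comp_hasDerivAt t (hd t).hasDerivAt).deriv
  have h6 := hΦ.eqv a (vec h1 t) (vec h1 (t + l)) (by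
    show (c1 (t + l), deriv c1 (t + l)) = _
    rw [hp t, e1]
    rfl)
  rw [hc, hc] at h6
  exact congrArg Prod.fst h6

theorem le1 (hM : FMain) (hL : FLy) {n : ℕ} {G : Type} [Group G] [MulAction G (E n)]
    (θ : G →* G) {g1 g2 : Frm (E n)} {κ₁ κ₂ : ℝ} {φ₁ φ₂ : ℝ → W n → W n}
    {M₁ M₂ : ℝ → W n → W n →L[ℝ] W n} {lg₁ lg₂ : E n → E n → E n} {a : G} {c₁ c₂ : ℝ → E n}
    {l : ℝ} {V₁ V₂ : Submodule ℝ (E n)} {F : W n → W n} (hB : BPos) (hX : XPosR)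
    (P₁ : Per n G (toF g1) κ₁ φ₁ M₁ lg₁ a c₁ l V₁)
    (P₂ : Per n G (toF g2) κ₂ φ₂ M₂ lg₂ (θ a) c₂ l V₂)
    (hF : Hc θ (toF g1) (toF g2) F) (hC : Cor F c₁ c₂)
    (Γ1 Γ2 : E n → E n →L[ℝ] E n →L[ℝ] E n) (l1 : GM.LeviCivita g1 Γ1)
    (l2 : GM.LeviCivita g2 Γ2) : GM.lmin g2 Γ2 c₂ ≤ GM.lmin g1 Γ1 c₁ := by
  by_contra hcon
  rw [not_le] at hcon
  obtain ⟨q₁, h1, h2⟩ := EReal.lt_iff_exists_real_btwn.1 hcon
  obtain ⟨q₂, h3, h4⟩ := EReal.lt_iff_exists_real_btwn.1 h2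
  have h3' : q₁ < q₂ := EReal.coe_lt_coe_iff.1 h3
  have g1' : ¬ Gr (HH (toF g1) φ₁ a (c₁ 0) l V₁) (q₁ * l) := fun h =>
    absurd ((hL n G g1 κ₁ φ₁ M₁ lg₁ a c₁ l V₁ P₁ Γ1 l1).1 q₁ h) (not_le.2 h1)
  have g2' : Gr (HH (toF g2) φ₂ (θ a) (c₂ 0) l V₂) (q₂ * l) := by
    by_contra h
    exact absurd ((hL n G g2 κ₂ φ₂ M₂ lg₂ (θ a) c₂ l V₂ P₂ Γ2 l2).2 q₂ h) (not_le.2 h4)
  have hpos : 0 < q₁ * l := by
    obtain ⟨_, lam, hlam, hp⟩ := hB n G (toF g1) κ₁ φ₁ M₁ lg₁ a c₁ l V₁ P₁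
    obtain ⟨s, hs, C, hGr⟩ := hX V₁ lam _ hlam hp
    by_contra hle
    rw [not_lt] at hle
    refine g1' ⟨|C|, fun k Y z hS hY => (hGr k Y z hS hY).trans ?_⟩
    have e1 : Real.exp (-(s * k)) ≤ Real.exp (-(q₁ * l * k)) := by
      apply Real.exp_le_exp.2
      have : (0 : ℝ) ≤ k := Nat.cast_nonneg k
      nlinarith
    have e2 : 0 ≤ ‖Y 0‖ * ‖z‖ := by positivity
    have e3 : C * Real.exp (-(s * k)) ≤ |C| * Real.exp (-(q₁ * l * k)) :=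
      mul_le_mul (le_abs_self C) e1 (Real.exp_pos _).le (abs_nonneg C)
    calc C * Real.exp (-(s * k)) * ‖Y 0‖ * ‖z‖ = C * Real.exp (-(s * k)) * (‖Y 0‖ * ‖z‖) := by ring
      _ ≤ |C| * Real.exp (-(q₁ * l * k)) * (‖Y 0‖ * ‖z‖) := mul_le_mul_of_nonneg_right e3 e2
      _ = _ := by ring
  exact g1' (hM n G θ (toF g1) (toF g2) κ₁ κ₂ φ₁ φ₂ M₁ M₂ lg₁ lg₂ a c₁ c₂ l V₁ V₂ F P₁ P₂ hF hC
    (q₁ * l) (q₂ * l) g2' hpos (mul_lt_mul_of_pos_right h3' P₁.pos))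

end IFin

theorem fin (hM : FMain) (hL : FLy) (hP : FPer) (hH : FHc) (hB : BPos) (hX : XPosR)
    (n : ℕ) (G : Type) [Group G] [MulAction G (E n)] (hG : GM.Cocompact (E n) G)
    (g1 g2 : Frm (E n)) (r1 : GM.Riem g1) (r2 : GM.Riem g2) (i1 : GM.Inv G g1) (i2 : GM.Inv G g2)
    (n1 : GM.NegCurv g1) (n2 : GM.NegCurv g2) (θ : G ≃* G) (Φ : UT g1 ≃ₜ UT g2)
    (hΦ : GM.Conj θ g1 g2 Φ) (Γ1 Γ2 : E n → E n →L[ℝ] E n →L[ℝ] E n) (l1 : GM.LeviCivita g1 Γ1)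
    (l2 : GM.LeviCivita g2 Γ2) (c1 c2 : ℝ → E n) (h1 : UGeo g1 c1) (h2 : UGeo g2 c2)
    (hc : ∀ t, Φ (vec h1 t) = vec h2 t) (a : G) (l : ℝ) (hl : 0 < l)
    (hp : ∀ t, c1 (t + l) = a • c1 t) : GM.lmin g1 Γ1 c1 = GM.lmin g2 Γ2 c2 := by
  have hp2 := IFin.per2 hG hΦ h1 h2 hc hp
  obtain ⟨F₁, F₂, hF₁, hF₂, hF⟩ := hH n G hG g1 g2 r1 r2 i1 i2 θ Φ hΦ
  obtain ⟨C₁, C₂⟩ := hF c1 c2 h1 h2 hc
  obtain ⟨κ₁, φ₁, M₁, lg₁, V₁, P₁⟩ := hP n G hG g1 r1 i1 n1 a c1 l h1 hl hp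
  obtain ⟨κ₂, φ₂, M₂, lg₂, V₂, P₂⟩ := hP n G hG g2 r2 i2 n2 (θ a) c2 l h2 hl hp2
  refine le_antisymm ?_ ?_
  · have e : (θ.symm.toMonoidHom (θ a)) = a := θ.symm_apply_apply a
    have P₁' : Per n G (toF g1) κ₁ φ₁ M₁ lg₁ (θ.symm.toMonoidHom (θ a)) c1 l V₁ := by
      rw [e]; exact P₁
    exact IFin.le1 hM hL θ.symm.toMonoidHom hB hX P₂ P₁' hF₂ C₂ Γ2 Γ1 l2 l1
  · exact IFin.le1 hM hL θ.toMonoidHom hB hX P₁ P₂ hF₁ C₁ Γ1 Γ2 l1 l2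

end Pool.Agent.LX
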