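import Pool.Agent.Work.MP_25cd3b_gt.LX.DefsM

set_option autoImplicit false

/-!
# MP_25cd3b_gt, block LX, part M: metric geometry of curvature at most `-κ^2`, statements with complete
proofs

No geometry of manifolds here: only a pseudometric `d` on a set `X`, see `LX/DefsM.lean`.  Every earlier
statement may be used as a hypothesis.  `δ = 3 / κ` (the constant of `MHy`).  Facts used without mention:
`|d x z - d y z| ≤ d x y`, `0 ≤ gp o x y ≤ d o x`, `gp` changes by at most `r` if one of its arguments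
moves by at most `r`, `gp (a o) (a x) (a y) = gp o x y` for isometries, `gp o x y + gp x o y = d o x`.
-/

open Set Filter Topology

namespace Pool.Agent.LX

open Pool.Agent.MLS (IsPM)

/-! ### four points -/

/-- Stewart for every point `z` between `x` and `y`.  Take `z'` from `btw` with `a = d x z`, `b = d z y`.
Its inequality for `p = z` is `sinh κ(a+b) cosh κd(z,z') ≤ sinh κb cosh κa + sinh κa cosh κb =
sinh κ(a+b)`, so `d z z' = 0` if `a + b > 0`, and `d p z = d p z'` for all `p`.  If `a + b = 0` then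
`a = b = 0` and both sides are `0`. -/
def MStw : Prop := ∀ (X : Type) (d : X → X → ℝ) (κ : ℝ), Cat d κ → ∀ x y z p : X,
  d x z + d z y = d x y → Real.sinh (κ * d x y) * Real.cosh (κ * d p z) ≤
    Real.sinh (κ * d z y) * Real.cosh (κ * d p x) + Real.sinh (κ * d x z) * Real.cosh (κ * d p y)

/-- Excess (uses `MStw`).  Let `s = d x m`, `D = d x z`, `A = d w x`, `B = d w z`.  If `D = 0` then `s = 0`
and the left side is `≤ 0`.  Otherwise `sinh κ(D - s) ≤ exp(-κ s) sinh κD`,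
`sinh κs ≤ exp(-κ(D - s)) sinh κD`, so by `MStw`
`cosh κd(w,m) ≤ exp(-κs) cosh κA + exp(-κ(D - s)) cosh κB`.  Multiply by `2 exp κ(s - A)`:
`exp κ(s + d(w,m) - A) ≤ 1 + exp(-2κA) + exp κ(2s - D - A) (exp κB + exp(-κB)) ≤ 1 + 3 Y` with
`Y = exp κ(2 s - D - A + B)` (`exp(-2κA) ≤ Y` because `D ≤ A + B`, `s ≥ 0`).  As `1 + 3 Y ≤ exp (3 Y)`,
`κ(s + d(w,m) - A) ≤ 3 Y`; and `2 s - D = d x m - d m z`. -/
def MEx : Prop := ∀ (X : Type) (d : X → X → ℝ) (κ : ℝ), Cat d κ → ∀ x z m w : X,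
  d x m + d m z = d x z →
  d x m + d m w - d x w ≤ 3 / κ * Real.exp (κ * (d x m - d m z - d x w + d z w))

/-- FOUR POINT INEQUALITY (uses `MEx`).  Let `D = d x z`, `s = (2 D + d x w - d z w - d z y + d x y) / 4`;
`0 ≤ s ≤ D` by the triangle inequality; take `m` between `x` and `z` with `d x m = s` (`btw`).  `MEx` for
`(x, z, m, w)` and for `(z, x, m, y)`: `d x m + d m w - d x w ≤ 3/κ exp(-κ(B - E)/2)` and
`d z m + d m y - d z y ≤ 3/κ exp(-κ(B - E)/2)` with `B = d x w + d y z`, `E = d x y + d z w` (both exponents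
are equal by the choice of `s`).  Add, and use `d y w ≤ d m y + d m w`. -/
def MF1 : Prop := ∀ (X : Type) (d : X → X → ℝ) (κ : ℝ), Cat d κ → ∀ x y z w : X,
  crd d x y z w ≤ 6 / κ * Real.exp (-(κ * (d x w + d y z - d x y - d z w) / 2))

/-- Hyperbolicity (uses `MF1`).  Let `A = d x z + d o y`, `B = d x y + d o z`, `E = d y z + d o x`.  `MF1` for
`(x, o, z, y)`: `A - B ≤ 6/κ exp(-κ(B - E)/2)`, so `A ≤ B + 6/κ` if `B ≥ E`; `MF1` for `(z, o, x, y)`: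
`A - E ≤ 6/κ exp(-κ(E - B)/2)`, so `A ≤ E + 6/κ` if `E ≥ B`.  So `A ≤ max B E + 6/κ`, which is the claim. -/
def MHy : Prop := ∀ (X : Type) (d : X → X → ℝ) (κ : ℝ), Cat d κ → ∀ o x y z : X,
  min (gp d o x y) (gp d o y z) - 3 / κ ≤ gp d o x z

/-- Points close to a geodesic (uses `MStw`).  Let `a = d x m`, `b = d m z`.  If `a + b > 0`: `MStw` for
`p`, `cosh κ(a + e) ≤ exp(κe) cosh κa` and the same for `b`, so
`sinh κ(a+b) cosh κd(p,m) ≤ exp(κe) (sinh κb cosh κa + sinh κa cosh κb) = exp(κe) sinh κ(a+b)`.  If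
`a = b = 0` then `d p m ≤ d p x + d x m ≤ e` and `cosh κe ≤ exp κe`. -/
def MMd : Prop := ∀ (X : Type) (d : X → X → ℝ) (κ : ℝ), Cat d κ → ∀ (x z m p : X) (e : ℝ),
  d x m + d m z = d x z → 0 ≤ e → d x p ≤ d x m + e → d p z ≤ d m z + e →
  Real.cosh (κ * d p m) ≤ Real.exp (κ * e)

/-- The cross difference depends continuously on the points (uses `MF1`).  `MF1` for `(x, x', z, w)`:
`d x w + d x' z - d x x' - d z w = 2 (gp x x' + gp z w - gp x w - gp x' z) ≥ 2 (T - 2 K)` (products seen from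
`o`; `gp z w ≥ 0`).  `MF1` for `(x, x', w, z)`, whose cross difference is minus the first one, in the same
way. -/
def MCt : Prop := ∀ (X : Type) (d : X → X → ℝ) (κ : ℝ), Cat d κ → ∀ (o x x' z w : X) (K T : ℝ),
  T ≤ gp d o x x' → gp d o x z ≤ K → gp d o x w ≤ K → gp d o x' z ≤ K → gp d o x' w ≤ K →
  |crd d x x' z w| ≤ 6 / κ * Real.exp (-(κ * (T - 2 * K)))

/-- FROM LOCAL TO GLOBAL (uses `MF1`).  `K ≥ 0`.  Let `C = 6/κ exp(3 + κ(2 K + 1/2))` and `R₀` so large that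
`C exp(-κ R₀) ≤ 1` and `2 R₀ - 4 K - 1 > 6/κ`.  Induction on `j`, claim `P j`:
`R - 2 K - 1 ≤ d(y 0, y (j+1)) - d(y 0, y j)`; `P 0` is clear.  Suppose `P j`.  Let `x = y 0`, `y' = y j`,
`z = y (j+2)`, `w = y (j+1)`, `A = d x z + d y' w`, `B = d x w + d y' z`, `E = d x y' + d z w`.
`d y' z - d w z = d y' w - 2 gp w y' z ≥ R - 2 K`, so `B - E ≥ 2 R - 4 K - 1 > 6/κ`.  `MF1` for
`(x, y', z, w)`: `A - B ≤ 6/κ exp(-κ(B - E)/2) ≤ C exp(-κR)`.  `MF1` for `(x, z, w, y')`: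
`B - E ≤ 6/κ exp(-κ(E - A)/2)`, so `E ≥ A` is impossible.  `MF1` for `(x, y', w, z)`:
`B - A ≤ 6/κ exp(-κ(A - E)/2)`; first `B - A ≤ 6/κ` (`A > E`), so `A - E ≥ 2 R - 4 K - 1 - 6/κ`, and then
`B - A ≤ C exp(-κR)`.  This is the first claim for `j`; as `C exp(-κR) ≤ 1`,
`d(y 0, y (j+2)) - d(y 0, y (j+1)) ≥ d y' z - d y' w - 1 = d w z - 2 gp w y' z - 1 ≥ R - 2 K - 1`. -/
def MChn : Prop := ∀ κ K : ℝ, 0 < κ → ∃ R₀ C : ℝ, 0 < C ∧ ∀ (X : Type) (d : X → X → ℝ), Cat d κ →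
  ∀ (R : ℝ) (y : ℕ → X), R₀ ≤ R → (∀ j, R ≤ d (y j) (y (j + 1))) →
  (∀ j, gp d (y (j + 1)) (y j) (y (j + 2)) ≤ K) → ∀ j,
  |d (y 0) (y (j + 2)) - d (y 0) (y (j + 1)) - (d (y j) (y (j + 2)) - d (y j) (y (j + 1)))| ≤
    C * Real.exp (-(κ * R)) ∧ R - 2 * K - 1 ≤ d (y 0) (y (j + 1)) - d (y 0) (y j)

/-- TRANSLATION LENGTHS AND CROSS DIFFERENCES (uses `MChn`).  Apply `MChn` to `y j = p^j o`: the products
are `gp o (p⁻¹ o) (p o)` (isometry), so `d(o, p^(j+2) o) - d(o, p^(j+1) o)` differs by at most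
`C exp(-κR)` from `d(o, p² o) - d(o, p o) = d(p⁻¹ o, p o) - d(o, p o)`; sum over `j`, divide by the number of
terms, `len`: second claim.  The same for `q`.  For `p q`: `y (2 i) = (p q)^i o`, `y (2 i + 1) = (p q)^i p o`;
the products are `gp o (p⁻¹ o) (q o)` and `gp o (q⁻¹ o) (p o)`, the steps `d(o, p o)` and `d(o, q o)`, and
the increments `d(p⁻¹ o, q o) - d(o, p o)` and `d(q⁻¹ o, p o) - d(o, q o)`, so `ℓ (p q)` is their sum up to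
`2 C exp(-κR)`.  Combine. -/
def MTl : Prop := ∀ κ K : ℝ, 0 < κ → ∃ R₀ C : ℝ, 0 < C ∧ ∀ (G X : Type) [Group G] [MulAction G X]
  (d : X → X → ℝ) (ℓ : G → ℝ), Act G d κ ℓ → ∀ (R : ℝ) (o : X) (p q : G), R₀ ≤ R →
  R ≤ d o (p • o) → gp d o (p⁻¹ • o) (p • o) ≤ K →
  |ℓ p - (d (p⁻¹ • o) (p • o) - d o (p • o))| ≤ C * Real.exp (-(κ * R)) ∧
  (R ≤ d o (q • o) → gp d o (q⁻¹ • o) (q • o) ≤ K → gp d o (p⁻¹ • o) (q • o) ≤ K →
    gp d o (q⁻¹ • o) (p • o) ≤ K →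
    |crd d (p⁻¹ • o) (q⁻¹ • o) (p • o) (q • o) - (ℓ p + ℓ q - ℓ (p * q))| ≤
      C * Real.exp (-(κ * R)))

/-! ### lines -/

/-- Lines at bounded distance coincide (uses `MF1`, `MMd`).  By shifting both it suffices to treat
`p = c' 0`.  Let `R > D`.  `MF1` for `(c (-R), c' (-R), p, c R)` (`B = 3 R`, `E ≤ R + 2 D`):
`d(c (-R), p) + d(c' (-R), c R) ≤ 3 R + 6/κ exp(-κ(R - D))`.  `MF1` for `(p, c' (-R), c R, c' R)`
(`B = R + d(c' (-R), c R) ≥ 3 R - D`, `E ≤ R + D`):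
`d(p, c R) + 2 R ≤ R + d(c' (-R), c R) + 6/κ exp(-κ(R - D))`.  Add:
`d(c (-R), p) + d(p, c R) ≤ 2 R + ε`, `ε = 12/κ exp(-κ(R - D))`.  Let `s = d(c (-R), p) - R`, `|s| ≤ D`;
`MMd` with `m = c s`: `cosh κd(p, c s) ≤ exp κε`.  So the minimum of the continuous function
`s ↦ d(p, c s)` over `[-D, D]` is `0` (let `R → ∞`). -/
def MLn : Prop := ∀ (X : Type) (d : X → X → ℝ) (κ : ℝ), Cat d κ → ∀ c c' : ℝ → X, Ln d c →
  Ln d c' → (∃ D, ∀ t, d (c t) (c' t) ≤ D) → ∀ t, ∃ s, d (c' t) (c s) = 0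

/-- Asymptotic lines approach exponentially (uses `MF1`, `MMd`).  Let `S = t + N ≥ 0`, `p = c' t`, `T` large,
`ε = d(c T, c' T)`.  `d(p, c T) ≤ T - t + ε`.  `MF1` for `(c (-N), c' (-N), p, c' T)`:
`B = d(c (-N), c' T) + d(c' (-N), p)` is between `T + N + S - ε` and `T + N + S + ε`,
`E = d(c (-N), c' (-N)) + d(p, c' T) ≤ D + T - t`, so `B - E ≥ 2 S - D - ε` and
`d(c (-N), p) ≤ B - (T + N) + .. ≤ S + ε + 6/κ exp(κ(D + ε)/2) exp(-κS)`.  `MMd` with `x = c (-N)`, `z = c T`,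
`m = c t`; let `T → ∞`. -/
def MAe : Prop := ∀ (X : Type) (d : X → X → ℝ) (κ : ℝ), Cat d κ → ∀ c c' : ℝ → X, Ln d c →
  Ln d c' → Asy d c c' → ∀ N D : ℝ, d (c (-N)) (c' (-N)) ≤ D → ∀ t, -N ≤ t →
  Real.cosh (κ * d (c' t) (c t)) ≤
    Real.exp (6 * Real.exp (κ * D / 2) * Real.exp (-(κ * (t + N))))

/-- Rays at bounded distance are asymptotic after a shift (uses `MF1`, `MMd`).  `f T = d(c' 0, c T) - T` is
nonincreasing and `|f T| ≤ D`; let `u` be its limit, `|u| ≤ D`.  Let `t ≥ 0` be fixed and `p = c' t`.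
(1) `MF1` for `(c' 0, p, c T, c' T)` and for `(c' 0, p, c' T, c T)` (`A = T + f T + T - t`,
`B = T + d(p, c T)`, `E ≤ t + D`; `A - E`, `B - E → ∞` as `T → ∞`) gives
`d(p, c T) - (T - t) → u`.  (2) `MF1` for `(c 0, c' 0, p, c T)`: `B = T + t`, `E ≤ D + d(p, c T)`,
`B - E ≥ 2 t - 2 D - 1` for large `T`: `d(c 0, p) ≤ T + t - d(c' 0, c T) + .. `, so for `T → ∞`
`d(c 0, p) ≤ t - u + 6/κ exp(κ(D + 1)) exp(-κt)`.  (3) For `t > D + 1` `MMd` with `x = c 0`, `z = c T`,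
`m = c (t - u)`, `T → ∞`: `cosh κd(c' t, c (t - u)) ≤ exp(6 exp(κ(D + 1)) exp(-κt))`, which tends to `1` as
`t → ∞`.  So `s = u`. -/
def MAs : Prop := ∀ (X : Type) (d : X → X → ℝ) (κ : ℝ), Cat d κ → ∀ c c' : ℝ → X, Ln d c →
  Ln d c' → ∀ D : ℝ, (∀ t, 0 ≤ t → d (c t) (c' t) ≤ D) →
  ∃ s : ℝ, |s| ≤ D ∧ Asy d c (fun t => c' (t + s))

/-! ### the group -/

/-- AN INDEPENDENT AXIS (uses `MHy`, `MLn`).  Let `D₀` be from `cob`, `x` with `d(x, c t) ≥ D₀ + 1` for all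
`t`, and `e` with `d(e c 0, x) ≤ D₀`; so `d(e c 0, c t) ≥ 1` for all `t` (*).  Let `o = c 0`,
`b₀ = d(o, e o)`.  Claim: some `K` satisfies the first inequality.  Otherwise let `r ≥ 0` and
`K = 2 r + b₀`, `s, t ≥ 0` with `d(c s, e c t) < s + t - K`.  As `d(c s, e c t) ≥ |s - t| - b₀`, `s, t ≥ r`.
Products seen from `o`: `gp (c r) (c s) = r`, `gp (c s) (e c t) ≥ (K - b₀)/2 = r`,
`gp (e c t) (e c r) ≥ r - b₀`, so by `MHy` (twice) `gp (c r) (e c r) ≥ r - b₀ - 6/κ` and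
`d(c r, e c r) ≤ 3 b₀ + 12/κ =: C` for all `r ≥ 0`.  Let `g_m = a^(-m) e a^m`; `d(o, g_m o) =
d(c (m l), e c (m l)) ≤ C`, so by `prp` there are `m < m'` with `g_m = g_m'`, that is `e` commutes with
`a^k`, `k = m' - m > 0`.  For `t = j k l + t₀`, `j` an integer, `t₀ ∈ [0, k l)`:
`d(c t, e c t) = d(a^(j k) c t₀, a^(j k) e c t₀) ≤ 2 k l + b₀`.  By `MLn` `d(e c 0, c s) = 0` for some `s`,
a contradiction to (*).  The second inequality in the same way with `a⁻¹` and `c (-t)`.  Take the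
larger `K`. -/
def MNe : Prop := ∀ (G X : Type) [Group G] [MulAction G X] (d : X → X → ℝ) (κ : ℝ) (ℓ : G → ℝ),
  Act G d κ ℓ → ∀ (a : G) (c : ℝ → X) (l : ℝ), Clo d a c l → (∀ D : ℝ, ∃ x, ∀ t, D ≤ d x (c t)) →
  ∃ (e : G) (K : ℝ), ∀ s t : ℝ, 0 ≤ s → 0 ≤ t → s + t - K ≤ d (c s) (e • c t) ∧
    s + t - K ≤ d (c (-s)) (e • c (-t))

/-- FINITELY MANY ELEMENTS (uses `MHy`).  `o = c 0`, `b₀ = d(o, e o)`, `δ = 3/κ`,
`K₁ = (b₀ + K)/2 + 2 δ + 1`, `M = K₁ + b₀`; products are seen from `o`.  Let `u` be a point.  CASE 1: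
`gp (c T) u ≥ M` for some `T ≥ 0`; then also for all larger `T` (`gp (c T) u` is nondecreasing in `T`).
`gp (e c T) (e u) ≥ gp (c T) u - b₀ ≥ K₁`.  If `gp u (e u) > K₁` then by `MHy` twice
`gp (c T) (e c T) ≥ K₁ - 2 δ > (b₀ + K)/2`, but `gp (c T) (e c T) ≤ (T + T + b₀ - 2 T + K)/2`.  So
`gp u (e u) ≤ K₁`, and for every `v` by `MHy` `min (gp v u) (gp v (e u)) ≤ K₁ + δ`.  CASE 2:
`gp (c (-T)) u ≥ M` for some `T ≥ 0`: in the same way.  CASE 3: neither.  Let `m` be a natural number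
with `m l > M + 2 δ`.  `d(c (-m l), u) > m l + d(o, u) - 2 M`, so for `T ≥ m l`
`gp (c T) (a^m u) = (T + d(c (-m l), u) - d(c (T - m l), u))/2 ≥ m l - M`, and likewise
`gp (c (-T)) (a^(-m) u) ≥ m l - M`.  Since `gp (c T) (c (-T)) = 0`, by `MHy` twice
`gp (a^m u) (a^(-m) u) ≤ 2 δ`, and for every `v` `min (gp v (a^m u)) (gp v (a^(-m) u)) ≤ 3 δ`.  So
`F = {1, e, a^m, a^(-m)}`. -/
def MFl : Prop := ∀ (G X : Type) [Group G] [MulAction G X] (d : X → X → ℝ) (κ : ℝ) (ℓ : G → ℝ),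
  Act G d κ ℓ → ∀ (a e : G) (c : ℝ → X) (l K : ℝ), Clo d a c l →
  (∀ s t : ℝ, 0 ≤ s → 0 ≤ t → s + t - K ≤ d (c s) (e • c t) ∧
    s + t - K ≤ d (c (-s)) (e • c (-t))) → Fin4 G d (c 0)

/-- Elements with given directions.  Let `F, K` be from `Fin4`, `D` from `cob`, `D' = max_F d(o, f o)`.
Take `γ`, `η` with `d(γ o, z) ≤ D`, `d(η o, x) ≤ D`, and `f ∈ F` for `u = η⁻¹ o`, `v = γ⁻¹ o`; `p = γ f η⁻¹`.
`gp o (γ o) (p o) = d(o, γ o) - gp (γ o) o (p o) = d(o, γ o) - gp o (γ⁻¹ o) (f η⁻¹ o) ≥ d(o, γ o) - K`, so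
`gp o z (p o) ≥ d(o, z) - 2 D - K`.  `p⁻¹ o = η f⁻¹ γ⁻¹ o`:
`gp o (η o) (p⁻¹ o) = d(o, η o) - gp o (η⁻¹ o) (f⁻¹ γ⁻¹ o)` and
`gp o (η⁻¹ o) (f⁻¹ γ⁻¹ o) ≤ gp (f⁻¹ o) (η⁻¹ o) (f⁻¹ γ⁻¹ o) + D' = gp o (f η⁻¹ o) (γ⁻¹ o) + D' ≤ K + D'`. -/
def MPl : Prop := ∀ (G X : Type) [Group G] [MulAction G X] (d : X → X → ℝ) (κ : ℝ) (ℓ : G → ℝ),
  Act G d κ ℓ → ∀ o : X, Fin4 G d o → ∃ C : ℝ, ∀ x z : X, ∃ p : G,
  d o x - C ≤ gp d o x (p⁻¹ • o) ∧ d o z - C ≤ gp d o z (p • o)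

/-- SAME TRANSLATION LENGTHS, ROUGH ISOMETRY (uses `MTl`).  `F, K` from `Fin4` for `d1`, `D' = max_F d1(o, f o)`.
Let `y` be a point, `γ` with `d1(γ o, y) ≤ D`, `f ∈ F` for `u = γ o`, `v = γ⁻¹ o`: `gp o (γ⁻¹ o) (f γ o) ≤ K`; let
`b = γ f`: `gp o (b⁻¹ o) (b o) ≤ gp o (f⁻¹ γ⁻¹ o) (γ o) + D' ≤ K + 2 D' =: K'`.  With `R₀, C` of `MTl` for `K'`:
if `d1(o, b o) ≥ R₀` then `ℓ b ≥ d1(b⁻¹ o, b o) - d1(o, b o) - C = d1(o, b o) - 2 gp - C ≥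
d1(o, b o) - 2 K' - C`; otherwise `ℓ b ≥ 0 ≥ d1(o, b o) - R₀`.  And `ℓ b ≤ d2(o, b o)` (`len` for `d2`:
`d2(o, b^i o) ≤ i d2(o, b o)`).  As `d1(b o, y) ≤ D + D'`, `d2(b o, y)` is bounded too (`hyp`), so
`d1(o, y) ≤ d2(o, y) + C'` for all `y`.  For `x, y` arbitrary move `x` to distance `≤ D` from `o` by the
group. -/
def MRi : Prop := ∀ (G X : Type) [Group G] [MulAction G X] (d1 d2 : X → X → ℝ) (κ : ℝ)
  (ℓ : G → ℝ), Act G d1 κ ℓ → Act G d2 κ ℓ → ∀ o : X, Fin4 G d1 o →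
  (∀ r : ℝ, ∃ r' : ℝ, ∀ x y, d1 x y ≤ r → d2 x y ≤ r') → ∃ D : ℝ, ∀ x y, d1 x y ≤ d2 x y + D

/-- SAME TRANSLATION LENGTHS, SAME CROSS DIFFERENCES (uses `MTl`, `MPl`, `MHy`, `MCt`).  All products are seen
from `o`; those of `d2` differ from those of `d1` by at most `3 D/2`.  Let `C₁` be the constant of `MPl` for
`d1`, `p` for `(x, z)`, `q` for `(y, w)`: `x' = p⁻¹ o`, `z' = p o`, `y' = q⁻¹ o`, `w' = q o`;
`gp1 x x' ≥ R - C₁` etc., in particular `d1 o x', .. ≥ R - C₁`.  By `MHy` (twice) the products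
`gp1 x' z'`, `gp1 x' w`, `gp1 x' w'`, ... (with some of the points replaced) are at most `K + 6/κ`, if
`R - C₁ > K + 6/κ`.  For both metrics `crd x y z w - crd x' y z w = crd x x' z w`, and the other
replacements in the same way (`crd x y z w = crd z w x y`, `crd x y z w = crd y x w z`): by `MCt` each of the
four replacements costs at most `C exp(-κR)`.  Finally `MTl` for both metrics (`p`, `q`): both
`crd_i x' y' z' w'` are equal to `ℓ p + ℓ q - ℓ (p q)` up to `C exp(-κR)`. -/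
def MEq : Prop := ∀ (G X : Type) [Group G] [MulAction G X] (d1 d2 : X → X → ℝ) (κ : ℝ)
  (ℓ : G → ℝ), Act G d1 κ ℓ → Act G d2 κ ℓ → ∀ o : X, Fin4 G d1 o → ∀ D : ℝ,
  (∀ x y, |d1 x y - d2 x y| ≤ D) → ∀ K : ℝ, ∃ R₀ C : ℝ, ∀ (R : ℝ) (x y z w : X), R₀ ≤ R →
  R ≤ d1 o x → R ≤ d1 o y → R ≤ d1 o z → R ≤ d1 o w → gp d1 o x z ≤ K → gp d1 o x w ≤ K →
  gp d1 o y z ≤ K → gp d1 o y w ≤ K →
  |crd d1 x y z w - crd d2 x y z w| ≤ C * Real.exp (-(κ * R))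

/-- The temporal displacement as a limit of cross differences.  `d(c (-R), c R) = 2 R`;
`|d(α (-R), c R) - 2 R| ≤ d(α R, c R) → 0`; `d(c (-R), a^k β R) = d(a^(-k) c (-R), β R) =
d(c (-R - k l), β R)` and `|d(c (-R - k l), β R) - (2 R + k l)| ≤ d(c (-R - k l), β (-R - k l)) → 0`. -/
def MTc : Prop := ∀ (G X : Type) [Group G] [MulAction G X] (d : X → X → ℝ), IsPM d →
  (∀ (a : G) (x y : X), d (a • x) (a • y) = d x y) → ∀ (a : G) (α β c : ℝ → X) (k : ℕ) (l : ℝ),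
  Ln d α → Ln d β → Ln d c → (∀ t, c (t + l) = a • c t) → Asy d α c → Bsy d β c →
  Tendsto (fun R => crd d (α (-R)) (c (-R)) (a ^ k • β R) (c R) -
    (d (α (-R)) (a ^ k • β R) - 2 * R - k * l)) atTop (𝓝 0)

/-- SAME TRANSLATION LENGTHS, SAME TEMPORAL DISPLACEMENT (uses `MEq`, `MCt`, `MTc`).  `o = c 0`, `C` denotes
constants.  Let `x = α (-R)`, `y = c (-R)`, `z = a^k β R`, `w = c R`.  They have distance `≥ R - C` from `o`, and
the products (for `d1`, seen from `o`) of `x, z` (as `Tdi` holds for `d1`, `d1(x, z) ≥ 2 R - C`), of `x, w`, of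
`y, z` (`Asy`, `Bsy`) and of `y, w` are at most `C`.  So by `MEq` `crd d1 x y z w - crd d2 x y z w → 0` as
`R → ∞`.  Let `x', y', z', w'` be the points of `α2, c2, β2, c2`; `d2(x, x') ≤ C` etc., so
`gp d2 o x x' ≥ R - C` and all products of one of `x, x', y, y'` with one of `z, z', w, w'` for `d2` are
at most `C`; by `MCt` (four replacements, as in `MEq`) `crd d2 x y z w - crd d2 x' y' z' w' → 0`.  `MTc` for
both metrics. -/
def MTa : Prop := ∀ (G X : Type) [Group G] [MulAction G X] (d1 d2 : X → X → ℝ) (κ : ℝ)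
  (ℓ : G → ℝ), Act G d1 κ ℓ → Act G d2 κ ℓ → ∀ (a : G) (c c2 : ℝ → X) (l : ℝ), Clo d1 a c l →
  Clo d2 a c2 l → Fin4 G d1 (c 0) → ∀ D : ℝ, (∀ x y, |d1 x y - d2 x y| ≤ D) →
  (∀ t, d2 (c t) (c2 t) ≤ D) → ∀ (α β α2 β2 : ℝ → X) (k : ℕ) (τ : ℝ), Ln d1 α → Ln d1 β →
  Ln d2 α2 → Ln d2 β2 → (∀ t, d2 (α t) (α2 t) ≤ D) → (∀ t, d2 (β t) (β2 t) ≤ D) →
  Asy d1 α c → Bsy d1 β c → Asy d2 α2 c2 → Bsy d2 β2 c2 → Tdi d1 a α β k l τ →
  Tdi d2 a α2 β2 k l τ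

end Pool.Agent.LX
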