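import Pool.Agent.Work.MP_25cd3b_gt.LX.StmtsK
import Pool.Agent.Work.MP_25cd3b_gt.LX.StmtsM

set_option autoImplicit false

/-!
# MP_25cd3b_gt, block LX, part R: equal marked length spectra (geometric part), statements with complete
proofs

What may be used: as in StmtsB and StmtsK (`NG.All`, `ST.All93`; `MLS.pr_Gd`, `MLS.pr_InvD`, ... for the
statements `StGd`, `StInvD`, `StCtsD`, `StProp`, `StBnd`, `StCmp`, `StLd` of M/Stmts), and every earlier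
statement of the block as a hypothesis.  `d = gd g`, `d_i = gd g_i`.  `As g c d` is `Asy (gd g) c d` and
`Ab g c d` is `Bsy (gd g) c d`, `Tau g` is `Tdi (gd g)` (by unfolding).
-/

open MeasureTheory Set Filter Topology
open scoped ContDiff ENNReal
open Pool.Agent.Work.MP_c9f990_an.Al (IsFlow)

namespace Pool.Agent.LX

open Pool.Agent.MLS Pool.Agent.STR Pool.Agent.LR

/-- two metrics of curvature at most `-κ^2`, with distances at bounded distance, closed geodesics `c1`, `c2`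
of the class of `a` -/
structure Pr2 (n : ℕ) (G : Type) [Group G] [MulAction G (E n)] (g1 g2 : Form n) (κ : ℝ) (a : G)
    (c1 c2 : ℝ → E n) (l D : ℝ) : Prop where
  coc : Cocompact n G
  r1 : Riem g1
  r2 : Riem g2
  i1 : Inv G g1
  i2 : Inv G g2
  kpos : 0 < κ
  k1 : CurvLe g1 κ
  k2 : CurvLe g2 κ
  u1 : UG g1 c1
  u2 : UG g2 c2
  pos : 0 < l
  p1 : ∀ t, c1 (t + l) = a • c1 t
  p2 : ∀ t, c2 (t + l) = a • c2 t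
  cmp : ∀ x y, |gd g1 x y - gd g2 x y| ≤ D
  clo : ∀ t, gd g2 (c1 t) (c2 t) ≤ D
  fin : Fin4 G (gd g1) (c1 0)

/-- The metric space (uses `StCvG`, `StStew`, `StGd`).  `pm`: `StGd`.  `btw` for `x = y`: `a = b = 0`, `z = x`.
For `x ≠ y` let `σ` be the geodesic from `x` to `y` (`StCvG`), `z = σ a`; `StStew` at `t = a`. -/
def RCat : Prop := ∀ (n : ℕ) (g : Form n) (κ : ℝ), Cv g κ → Cat (gd g) κ

/-- Translation lengths (uses `StCvG`, `LR.StAxis` (`LR.pr_Axis` and ST/All93: `STR.p_Log` etc.), `StLd`,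
`StInvD`, `StGd`).  `b = 1`: `L g 1 = 0` (`StLd`).  `b ≠ 1`: let `c, ell` be the axis.  `ell ≤ d(z, b z)` for all
`z` (`Ax.min`), so `ell ≤ L g b ≤ d(c 0, b c 0) = ell`.  `i ell ≤ d(x, b^i x)` (`Ax.min`, the `i`-th iterate is
`b^i`) and `d(x, b^i x) ≤ 2 d(x, c 0) + d(c 0, b^i c 0) = 2 d(x, c 0) + i ell`; divide by `i`. -/
def RLen : Prop := ∀ (n : ℕ) (G : Type) [Group G] [MulAction G (E n)], Cocompact n G →
  ∀ (g : Form n) (κ : ℝ), Riem g → Inv G g → 0 < κ → CurvLe g κ → ∀ (b : G) (x : E n),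
  Tendsto (fun i : ℕ => gd g x (b ^ i • x) / i) atTop (𝓝 (L g b))

/-- The action (uses `RCat`, `RLen`, `StInvD`, `StProp`, `StCtsD`, `StFlow`).  `Cv` from `StFlow`.  `cob`: `K`
compact, `G K = R^n`, `D` the maximum of `d` over `K × K`.  `prp`: `K'` from `StProp` for `{x}`, `r`; if
`d(x, a x) ≤ r` then `a x ∈ K'`, so `a (K' ∪ {x})` meets `K' ∪ {x}`: `Cocompact.proper`. -/
def RAct : Prop := ∀ (n : ℕ) (G : Type) [Group G] [MulAction G (E n)], Cocompact n G →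
  ∀ (g : Form n) (κ : ℝ), Riem g → Inv G g → 0 < κ → CurvLe g κ →
  Act G (gd g) κ (fun b => L g b)

/-- The closed geodesic is not everything (uses `StCvG`, `StIso`, `StUG`, `NcInj`, `NcGx`).  Let `σ` be the unit
speed geodesic with `σ 0 = c 0`, `σ' 0 = v / |v|` (`t ↦ ex (t v / |v|)`; see `IKExA.ug_expo` in
`LX/I_KExA.lean`).  `σ 1 ≠ c 1` and `σ 1 ≠ c (-1)`, because `σ 1 = ex (σ' 0)`, `c 1 = ex (c' 0)`,
`c (-1) = ex (- c' 0)`, `ex = expo φ g (c 0)` is injective and `v ⊥ c' 0`.  `StIso` (`s = 1`) for `σ, c` and for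
`σ, c (-·)`: `cosh κd(σ S, c (± S)) ≥ 1 + (sinh κS / sinh κ)^2 η`, `η > 0`, so
`d(σ S, c (± S)) ≥ 2 S - C` for `S ≥ 1`.  For `R ≥ 1` and all `t`: `d(σ R, c t) ≥ |R - |t||` and
`d(σ R, c t) ≥ 2 R - C - |R - |t||` (compare with `c (± R)`), so `d(σ R, c t) ≥ R - C/2`. -/
def RUnb : Prop := ∀ (n : ℕ) (G : Type) [Group G] [MulAction G (E n)] (g : Form n) (κ : ℝ)
  (φ : ℝ → W n → W n) (M : ℝ → W n → W n →L[ℝ] W n) (lg : E n → E n → E n) (a : G) (c : ℝ → E n)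
  (l : ℝ) (V : Submodule ℝ (E n)), Per n G g κ φ M lg a c l V → (∃ v ∈ V, v ≠ 0) →
  ∀ D : ℝ, ∃ x, ∀ t, D ≤ gd g x (c t)

/-- Dimensions.  `V_i` is the kernel of the linear form `g_i.val (c_i 0) (c_i' 0)`, which takes the value `1`
at `c_i' 0`.  If `V₂ = 0` then this form is injective, so `n ≤ 1`, and `V₁ ≠ E n` is `0` too. -/
def RDim : Prop := ∀ (n : ℕ) (G : Type) [Group G] [MulAction G (E n)] (g1 g2 : Form n)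
  (κ₁ κ₂ : ℝ) (φ₁ φ₂ : ℝ → W n → W n) (M₁ M₂ : ℝ → W n → W n →L[ℝ] W n)
  (lg₁ lg₂ : E n → E n → E n) (a : G) (c₁ c₂ : ℝ → E n) (l : ℝ) (V₁ V₂ : Submodule ℝ (E n)),
  Per n G g1 κ₁ φ₁ M₁ lg₁ a c₁ l V₁ → Per n G g2 κ₂ φ₂ M₂ lg₂ a c₂ l V₂ → (∃ v ∈ V₁, v ≠ 0) →
  ∃ v ∈ V₂, v ≠ 0

/-- The pair of metrics (uses `RAct`, `RUnb`, `MNe`, `MFl`, `MRi`, `StCmp`, `StCvG`, `StCtsD`, `StInvD`).
`κ = min κ₁ κ₂`: `CurvLe g κ'` implies `CurvLe g κ` for `0 < κ ≤ κ'` (`Ar ≥ 0`, Cauchy-Schwarz).  `Clo` for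
`c_i`: `StCvG`.  `Fin4` for both metrics at `c_i 0`: `RUnb`, `MNe`, `MFl`.  `MRi` in both directions, with
`r' = A r` from `StCmp`.  The function `t ↦ d₂(c₁ t, c₂ t)` is continuous and periodic, hence bounded. -/
def RPr : Prop := ∀ (n : ℕ) (G : Type) [Group G] [MulAction G (E n)] (g1 g2 : Form n)
  (κ₁ κ₂ : ℝ) (φ₁ φ₂ : ℝ → W n → W n) (M₁ M₂ : ℝ → W n → W n →L[ℝ] W n)
  (lg₁ lg₂ : E n → E n → E n) (a : G) (c₁ c₂ : ℝ → E n) (l : ℝ) (V₁ V₂ : Submodule ℝ (E n)),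
  Per n G g1 κ₁ φ₁ M₁ lg₁ a c₁ l V₁ → Per n G g2 κ₂ φ₂ M₂ lg₂ a c₂ l V₂ → (∃ v ∈ V₁, v ≠ 0) →
  (∃ v ∈ V₂, v ≠ 0) → (∀ b : G, L g1 b = L g2 b) →
  ∃ D : ℝ, Pr2 n G g1 g2 (min κ₁ κ₂) a c₁ c₂ l D

/-- Compactness (compare `IKExA.limit` in `LX/I_KExA.lean`).  The vectors `(σ_i 0, op g (σ_i' 0))` are in a
compact set (`StProp`, `StBnd`, `|σ_i' 0| = 1`); pass to a convergent subsequence, with limit `z`;
`σ_i t = (φ t (σ_i 0, op g σ_i' 0)).1` (`NcGx`) tends to `τ t = (φ t z).1` for every `t` (`φ t` is continuous),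
a unit speed geodesic (`StGeo1`). -/
def RLim : Prop := ∀ (n : ℕ) (G : Type) [Group G] [MulAction G (E n)], Cocompact n G →
  ∀ g : Form n, Riem g → Inv G g → ∀ (σ : ℕ → ℝ → E n) (x₀ : E n) (r : ℝ), (∀ i, UG g (σ i)) →
  (∀ i, gd g x₀ (σ i 0) ≤ r) → ∃ (τ : ℝ → E n) (ψ : ℕ → ℕ), StrictMono ψ ∧ UG g τ ∧
    ∀ t, Tendsto (fun i => σ (ψ i) t) atTop (𝓝 (τ t))

/-- Shadows (uses `RLim`, `RCat`, `MMd`, `StCvG`, `StUG`, `StCtsD`).  Let `α` be a unit speed geodesic of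
`g1`, `i > D` a natural number, `T_i = d₂(α (-i), α i) ∈ [2 i - D, 2 i + D]`, `η_i` the geodesic of `g2` with
`η_i 0 = α (-i)`, `η_i T_i = α i`.  Let `|t| ≤ i`, `s = min (i + t) T_i`, `m = η_i s`, `p = α t`:
`d₂(α (-i), p) ≤ i + t + D ≤ s + 2 D`, `d₂(p, α i) ≤ i - t + D ≤ T_i - s + 2 D`.  `MMd` with `e = 2 D`:
`cosh κd₂(p, m) ≤ exp(2κD)`, so `d₂(p, m) ≤ C₁`; `|s - (i + t)| ≤ D`, so `d₂(α t, η_i (i + t)) ≤ C₁ + D`.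
`RLim` for `t ↦ η_i (i + t)` (at `t = 0` they are close to `α 0`), `StCtsD`. -/
def RSh : Prop := ∀ (n : ℕ) (G : Type) [Group G] [MulAction G (E n)] (g1 g2 : Form n) (κ : ℝ)
  (a : G) (c1 c2 : ℝ → E n) (l D : ℝ), Pr2 n G g1 g2 κ a c1 c2 l D → ∃ C : ℝ, ∀ α : ℝ → E n,
  UG g1 α → ∃ α2 : ℝ → E n, UG g2 α2 ∧ ∀ t, gd g2 (α t) (α2 t) ≤ C

/-- The past (uses `CTr`, `StUG`).  Induction on `N`; `N = 0`: `δ = ε`.  Step: `CTr` for `g1 = g2 = g`,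
`θ = MonoidHom.id G`, `Φ = id` (`Hc` is clear, `Cor id c c`) gives `δ₁` for `ε`; let `δ` be the number of the
induction hypothesis for `δ₁`.  Then `d(α t, c t) ≤ δ₁` for `t ≥ -N`; `CTr` for the shifted geodesics
`α (· - N)`, `c (· - N)`. -/
def RBk : Prop := ∀ (n : ℕ) (G : Type) [Group G] [MulAction G (E n)], Cocompact n G →
  ∀ (g : Form n) (κ : ℝ), Cv g κ → Inv G g → ∀ (N : ℕ) (ε : ℝ), 0 < ε → ∃ δ : ℝ, 0 < δ ∧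
  ∀ α c : ℝ → E n, UG g α → UG g c → (∀ t, 0 ≤ t → gd g (α t) (c t) ≤ δ) →
  ∀ t : ℝ, -N ≤ t → gd g (α t) (c t) ≤ ε

/-- Forward asymptotic geodesics (uses `RSh`, `RBk`, `RCat`, `MAs`, `MAe`, `StUG`, `StCvG`).  `C₀` from `RSh`,
`α'` the geodesic of `RSh`; `ρ₁ ≤ 1`.  For `t ≥ 0`:
`d₂(α' t, c2 t) ≤ C₀ + (ρ₁ + D) + D ≤ C₀ + 1 + 2 D =: D'`.  `MAs` (for `c2`, `α'`): `|s| ≤ D'`,
`α2 t = α' (t + s)`; `d₂(α t, α2 t) ≤ C₀ + D' =: C`.  Let `D'' = C + 1 + 2 D`, `N` a natural number with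
`exp(6 exp(κD''/2) exp(-κ(N - 1))) ≤ cosh κρ`, and `ρ₁` from `RBk` for `N`, `ε = 1` (and `≤ 1`):
`d₁(α (-N), c1 (-N)) ≤ 1`, so `d₂(α2 (-N), c2 (-N)) ≤ D''`, and `MAe` (for `c2`, `α2`) gives
`cosh κd₂(α2 t, c2 t) ≤ cosh κρ` for `t ≥ -1`. -/
def RT1 : Prop := ∀ (n : ℕ) (G : Type) [Group G] [MulAction G (E n)] (g1 g2 : Form n) (κ : ℝ)
  (a : G) (c1 c2 : ℝ → E n) (l D : ℝ), Pr2 n G g1 g2 κ a c1 c2 l D → ∃ C : ℝ, ∀ ρ : ℝ, 0 < ρ →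
  ∃ ρ₁ : ℝ, 0 < ρ₁ ∧ ∀ α : ℝ → E n, UG g1 α → (∀ t, 0 ≤ t → gd g1 (α t) (c1 t) ≤ ρ₁) →
  ∃ α2 : ℝ → E n, UG g2 α2 ∧ As g2 α2 c2 ∧ (∀ t, -1 ≤ t → gd g2 (α2 t) (c2 t) ≤ ρ) ∧
    ∀ t, gd g2 (α t) (α2 t) ≤ C

/-- Backward asymptotic geodesics (uses `RT1`, `StUG`).  The reversed data `a⁻¹`, `c1 (-t)`, `c2 (-t)` satisfy
`Pr2` (`Fin4` concerns the point `c1 0` only); `RT1` for `t ↦ β (-t)`. -/
def RT2 : Prop := ∀ (n : ℕ) (G : Type) [Group G] [MulAction G (E n)] (g1 g2 : Form n) (κ : ℝ)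
  (a : G) (c1 c2 : ℝ → E n) (l D : ℝ), Pr2 n G g1 g2 κ a c1 c2 l D → ∃ C : ℝ, ∀ ρ : ℝ, 0 < ρ →
  ∃ ρ₁ : ℝ, 0 < ρ₁ ∧ ∀ β : ℝ → E n, UG g1 β → (∀ t, t ≤ 0 → gd g1 (β t) (c1 t) ≤ ρ₁) →
  ∃ β2 : ℝ → E n, UG g2 β2 ∧ Ab g2 β2 c2 ∧ (∀ t, t ≤ 1 → gd g2 (β2 t) (c2 t) ≤ ρ) ∧
    ∀ t, gd g2 (β t) (β2 t) ≤ C

/-- Temporal displacements (uses `MTa`, `RAct`, `StCvG`).  `MTa` for `d₁`, `d₂`, `κ`, `ℓ b = L g1 b = L g2 b`, and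
`D` replaced by `max D C`. -/
def RTau : Prop := ∀ (n : ℕ) (G : Type) [Group G] [MulAction G (E n)] (g1 g2 : Form n) (κ : ℝ)
  (a : G) (c1 c2 : ℝ → E n) (l D : ℝ), Pr2 n G g1 g2 κ a c1 c2 l D → (∀ b : G, L g1 b = L g2 b) →
  ∀ (C : ℝ) (α β α2 β2 : ℝ → E n) (k : ℕ) (τ : ℝ), UG g1 α → UG g1 β → UG g2 α2 → UG g2 β2 →
  (∀ t, gd g2 (α t) (α2 t) ≤ C) → (∀ t, gd g2 (β t) (β2 t) ≤ C) → As g1 α c1 → Ab g1 β c1 →
  As g2 α2 c2 → Ab g2 β2 c2 → Tau g1 a α β k l τ → Tau g2 a α2 β2 k l τ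

/-- CONCLUSION (uses `BPos`, `XPosR`, `KUp`, `KLo`, `RDim`, `RPr`, `RT1`, `RT2`, `RTau`; compare `FMain` and its
proof in `LX/I_FMain.lean`).  Suppose `Gr H₁ s` fails.  Then `V₁` contains a vector `≠ 0` (otherwise all
values in `Gr` are `0`), and so does `V₂` (`RDim`); take `D` from `RPr`.  `Gr` is monotone: a rate below a
rate is a rate.  Let `s⋆` be the supremum of the rates of `H₁`: `0 < s⋆ ≤ s` (`XPosR`).  Let `ε > 0` be small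
(`15 ε < s⋆`, `11 ε < s₂ - s`, so `s₂ - ε > s⋆ + 9 ε`).  `KLo` for `g1` with the rate `s⋆ - ε`, `s' = s⋆ - 2 ε`,
`t = s⋆ + ε`, `η = 4 ε` (`t - s' = 3 ε < η`, `t + 2 η = s⋆ + 9 ε < 2 s⋆ - 4 ε = 2 s'`) gives for arbitrarily
large `k` geodesics `α, β` as close to `c₁` as we like and `|τ| ≥ exp(-(s⋆ + 9 ε) k) / 2`.  The geodesics
`α2, β2` of `RT1`, `RT2` (with the `ρ` of `KUp`) satisfy the hypotheses of `KUp` for `g2` (`RTau`), with the rate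
`s₂` and `s' = s₂ - ε`: `|τ| ≤ C exp(-(s₂ - ε) k)`, a contradiction for large `k`. -/
def RFin : Prop := ∀ (n : ℕ) (G : Type) [Group G] [MulAction G (E n)] (g1 g2 : Form n)
  (κ₁ κ₂ : ℝ) (φ₁ φ₂ : ℝ → W n → W n) (M₁ M₂ : ℝ → W n → W n →L[ℝ] W n)
  (lg₁ lg₂ : E n → E n → E n) (a : G) (c₁ c₂ : ℝ → E n) (l : ℝ) (V₁ V₂ : Submodule ℝ (E n)),
  Per n G g1 κ₁ φ₁ M₁ lg₁ a c₁ l V₁ → Per n G g2 κ₂ φ₂ M₂ lg₂ a c₂ l V₂ →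
  (∀ b : G, L g1 b = L g2 b) → ∀ s s₂ : ℝ, Gr (HH g2 φ₂ a (c₂ 0) l V₂) s₂ → 0 < s → s < s₂ →
  Gr (HH g1 φ₁ a (c₁ 0) l V₁) s

end Pool.Agent.LX
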