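import Pool.Agent.Work.MP_25cd3b_gt.LX.Fin
import Pool.Agent.Work.MP_25cd3b_gt.LX.StmtsR

set_option autoImplicit false

/-!
# MP_25cd3b_gt, block LX: the conclusion for equal marked length spectra
-/

open MeasureTheory Set Filter Topology
open scoped ContDiff ENNReal

namespace Pool.Agent.LX

open Pool.Agent.MLS (E W)
open Pool.Agent.GM (Frm toF UGeo UT vec)

namespace IFin2

/-- the length of a closed geodesic is the value of the marked length spectrum -/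
theorem len (hC : LR.StCvG) (hR : RLen) {n : ℕ} {G : Type} [Group G] [MulAction G (E n)]
    {g : Frm (E n)} {κ : ℝ} {φ : ℝ → W n → W n} {M : ℝ → W n → W n →L[ℝ] W n}
    {lg : E n → E n → E n} {a : G} {c : ℝ → E n} {l : ℝ} {V : Submodule ℝ (E n)}
    (P : Per n G (toF g) κ φ M lg a c l V) : GM.L g a = l := by
  have h1 := hR n G P.coc (toF g) κ P.riem P.inv P.kpos P.curv a (c 0)
  have hcv : LR.Cv (toF g) κ := ⟨P.riem, P.kpos, P.curv, ⟨φ, M, P.flow⟩⟩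
  have h2 := (hC n (toF g) κ hcv).2.1 c P.ug
  have h3 : ∀ i : ℕ, a ^ i • c 0 = c (i * l) := by
    intro i
    induction i with
    | zero => simp
    | succ i ih =>
      rw [pow_succ', mul_smul, ih, ← P.per]
      congr 1
      push_cast
      ring
  have h4 : Tendsto (fun i : ℕ => MLS.gd (toF g) (c 0) (a ^ i • c 0) / i) atTop (𝓝 l) := by
    refine tendsto_const_nhds.congr' ?_
    filter_upwards [eventually_gt_atTop 0] with i hi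
    have hi' : (0 : ℝ) < i := Nat.cast_pos.2 hi
    rw [h3, h2, zero_sub, abs_neg, abs_of_nonneg (mul_nonneg hi'.le P.pos.le)]
    field_simp
  have h5 := tendsto_nhds_unique h1 h4
  rw [← h5, GM.L_eq]

theorem le2 (hM : RFin) (hL : FLy) {n : ℕ} {G : Type} [Group G] [MulAction G (E n)]
    {g1 g2 : Frm (E n)} {κ₁ κ₂ : ℝ} {φ₁ φ₂ : ℝ → W n → W n}
    {M₁ M₂ : ℝ → W n → W n →L[ℝ] W n} {lg₁ lg₂ : E n → E n → E n} {a : G} {c₁ c₂ : ℝ → E n}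
    {l : ℝ} {V₁ V₂ : Submodule ℝ (E n)} (hB : BPos) (hX : XPosR)
    (P₁ : Per n G (toF g1) κ₁ φ₁ M₁ lg₁ a c₁ l V₁)
    (P₂ : Per n G (toF g2) κ₂ φ₂ M₂ lg₂ a c₂ l V₂)
    (hLL : ∀ b : G, MLS.L (toF g1) b = MLS.L (toF g2) b)
    (Γ1 Γ2 : E n → E n →L[ℝ] E n →L[ℝ] E n) (l1 : GM.LeviCivita g1 Γ1)
    (l2 : GM.LeviCivita g2 Γ2) : GM.lmin g2 Γ2 c₂ ≤ GM.lmin g1 Γ1 c₁ := by
  by_contra hcon
  rw [not_le] at hcon
  obtain ⟨q₁, h1, h2⟩ := EReal.lt_iff_exists_real_btwn.1 hcon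
  obtain ⟨q₂, h3, h4⟩ := EReal.lt_iff_exists_real_btwn.1 h2
  have h3' : q₁ < q₂ := EReal.coe_lt_coe_iff.1 h3
  have g1' : ¬ Gr (HH (toF g1) φ₁ a (c₁ 0) l V₁) (q₁ * l) := fun h =>
    absurd ((hL n G g1 κ₁ φ₁ M₁ lg₁ a c₁ l V₁ P₁ Γ1 l1).1 q₁ h) (not_le.2 h1)
  have g2' : Gr (HH (toF g2) φ₂ a (c₂ 0) l V₂) (q₂ * l) := by
    by_contra h
    exact absurd ((hL n G g2 κ₂ φ₂ M₂ lg₂ a c₂ l V₂ P₂ Γ2 l2).2 q₂ h) (not_le.2 h4)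
  have hpos : 0 < q₁ * l := by
    obtain ⟨_, lam, hlam, hp⟩ := hB n G (toF g1) κ₁ φ₁ M₁ lg₁ a c₁ l V₁ P₁
    obtain ⟨s, hs, C, hGr⟩ := hX V₁ lam _ hlam hp
    by_contra hle
    rw [not_lt] at hle
    refine g1' ⟨|C|, fun k Y z hS hY => (hGr k Y z hS hY).trans ?_⟩
    have e1 : Real.exp (-(s * k)) ≤ Real.exp (-(q₁ * l * k)) := by
      apply Real.exp_le_exp.2
      have : (0 : ℝ) ≤ k := Nat.cast_nonneg k
      nlinarith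
    have e2 : 0 ≤ ‖Y 0‖ * ‖z‖ := by positivity
    have e3 : C * Real.exp (-(s * k)) ≤ |C| * Real.exp (-(q₁ * l * k)) :=
      mul_le_mul (le_abs_self C) e1 (Real.exp_pos _).le (abs_nonneg C)
    calc C * Real.exp (-(s * k)) * ‖Y 0‖ * ‖z‖ = C * Real.exp (-(s * k)) * (‖Y 0‖ * ‖z‖) := by ring
      _ ≤ |C| * Real.exp (-(q₁ * l * k)) * (‖Y 0‖ * ‖z‖) := mul_le_mul_of_nonneg_right e3 e2
      _ = _ := by ring
  exact g1' (hM n G (toF g1) (toF g2) κ₁ κ₂ φ₁ φ₂ M₁ M₂ lg₁ lg₂ a c₁ c₂ l V₁ V₂ P₁ P₂ hLL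
    (q₁ * l) (q₂ * l) g2' hpos (mul_lt_mul_of_pos_right h3' P₁.pos))

end IFin2

theorem fin2 (hM : RFin) (hL : FLy) (hP : FPer) (hB : BPos) (hX : XPosR) (hC : LR.StCvG)
    (hR : RLen) (n : ℕ) (G : Type) [Group G] [MulAction G (E n)] (hG : GM.Cocompact (E n) G)
    (g1 g2 : Frm (E n)) (r1 : GM.Riem g1) (r2 : GM.Riem g2) (i1 : GM.Inv G g1) (i2 : GM.Inv G g2)
    (n1 : GM.NegCurv g1) (n2 : GM.NegCurv g2) (hLL : ∀ b : G, GM.L g1 b = GM.L g2 b)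
    (Γ1 Γ2 : E n → E n →L[ℝ] E n →L[ℝ] E n) (lc1 : GM.LeviCivita g1 Γ1)
    (lc2 : GM.LeviCivita g2 Γ2) (a : G) (c1 c2 : ℝ → E n) (h1 : UGeo g1 c1) (h2 : UGeo g2 c2)
    (l1 l2 : ℝ) (hl1 : 0 < l1) (hl2 : 0 < l2) (hp1 : ∀ t, c1 (t + l1) = a • c1 t)
    (hp2 : ∀ t, c2 (t + l2) = a • c2 t) : GM.lmin g1 Γ1 c1 = GM.lmin g2 Γ2 c2 := by
  obtain ⟨κ₁, φ₁, M₁, lg₁, V₁, P₁⟩ := hP n G hG g1 r1 i1 n1 a c1 l1 h1 hl1 hp1
  obtain ⟨κ₂, φ₂, M₂, lg₂, V₂, P₂⟩ := hP n G hG g2 r2 i2 n2 a c2 l2 h2 hl2 hp2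
  have e : l2 = l1 := by
    rw [← IFin2.len hC hR P₁, ← IFin2.len hC hR P₂, hLL]
  subst e
  have hLL' : ∀ b : G, MLS.L (toF g1) b = MLS.L (toF g2) b := fun b => by
    rw [GM.L_eq, GM.L_eq]; exact hLL b
  exact le_antisymm (IFin2.le2 hM hL hB hX P₂ P₁ (fun b => (hLL' b).symm) Γ2 Γ1 lc2 lc1)
    (IFin2.le2 hM hL hB hX P₁ P₂ hLL' Γ1 Γ2 lc1 lc2)

end Pool.Agent.LX
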