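import Pool.Agent.Work.MP_25cd3b_gt.LX.StmtsB
import Pool.Agent.Work.MP_25cd3b_gt.M.I_Gd

set_option autoImplicit false

/-!
# MP_25cd3b_gt, block LX (captain helper11), item BCL (helper42): closeness of geodesics
-/

open MeasureTheory Set Filter Topology
open scoped ContDiff ENNReal
open Pool.Agent.Work.MP_c9f990_an.Al (IsFlow)

namespace Pool.Agent.LX

open Pool.Agent.MLS Pool.Agent.STR Pool.Agent.LR

namespace IBCL

variable {n : ℕ} {g : Form n}

theorem nn (g : Form n) (x y : E n) : 0 ≤ gd g x y := (pr_Gd n g).2.1.nonneg x y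

theorem sy (g : Form n) (x y : E n) : gd g x y = gd g y x := (pr_Gd n g).2.1.symm x y

theorem tri (g : Form n) (x y z : E n) : gd g x z ≤ gd g x y + gd g y z :=
  (pr_Gd n g).2.1.tri x y z

theorem mono (hIso : StIso) {κ : ℝ} (hcv : Cv g κ) {σ σ' : ℝ → E n} (hσ : UG g σ)
    (hσ' : UG g σ') (h0 : σ 0 = σ' 0) {s S : ℝ} (hs : 0 ≤ s) (hS : s ≤ S) :
    gd g (σ s) (σ' s) ≤ gd g (σ S) (σ' S) := by
  rcases eq_or_lt_of_le (hs.trans hS) with hS0 | hS0
  · have : s = S := by linarith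
    rw [this]
  have h := hIso n g κ hcv σ σ' hσ hσ' h0 s S hs hS
  have hκ := hcv.pos
  have hsp : 0 < Real.sinh (κ * S) := Real.sinh_pos_iff.2 (by positivity)
  have hsn : 0 ≤ Real.sinh (κ * s) := Real.sinh_nonneg_iff.2 (by positivity)
  have hle : Real.sinh (κ * s) ≤ Real.sinh (κ * S) := by
    rw [Real.sinh_le_sinh]
    exact mul_le_mul_of_nonneg_left hS hκ.le
  have hsq : Real.sinh (κ * s) ^ 2 ≤ Real.sinh (κ * S) ^ 2 := by gcongr
  have hc : 0 ≤ Real.cosh (κ * gd g (σ S) (σ' S)) - 1 := by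
    linarith [Real.one_le_cosh (κ * gd g (σ S) (σ' S))]
  have h2 : Real.sinh (κ * S) ^ 2 * (Real.cosh (κ * gd g (σ s) (σ' s)) - 1) ≤
      Real.sinh (κ * S) ^ 2 * (Real.cosh (κ * gd g (σ S) (σ' S)) - 1) :=
    h.trans (mul_le_mul_of_nonneg_right hsq hc)
  have h3 := le_of_mul_le_mul_left h2 (by positivity)
  have h4 : Real.cosh (κ * gd g (σ s) (σ' s)) ≤ Real.cosh (κ * gd g (σ S) (σ' S)) := by linarith
  rw [Real.cosh_le_cosh, abs_of_nonneg (mul_nonneg hκ.le (nn g _ _)),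
    abs_of_nonneg (mul_nonneg hκ.le (nn g _ _))] at h4
  exact le_of_mul_le_mul_left h4 hκ

/-- Two geodesics from one point. -/
theorem two (hIso : StIso) (hCvG : StCvG) {κ : ℝ} (hcv : Cv g κ) {σ σ' : ℝ → E n} (hσ : UG g σ)
    (hσ' : UG g σ') (h0 : σ 0 = σ' 0) {T T' δ : ℝ} (hT : 0 ≤ T) (hT' : 0 ≤ T')
    (hd : gd g (σ T) (σ' T') ≤ δ) (t : ℝ) (ht : 0 ≤ t) (ht' : t ≤ max T T') :
    gd g (σ t) (σ' t) ≤ δ + |T - T'| := by
  obtain ⟨-, hu, -⟩ := hCvG n g κ hcv
  rcases le_or_gt t (min T T') with h | h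
  · have h1 := mono hIso hcv hσ hσ' h0 ht h
    have h2 := tri g (σ (min T T')) (σ T) (σ' (min T T'))
    have h3 := tri g (σ T) (σ' T') (σ' (min T T'))
    rw [hu σ hσ] at h2
    rw [hu σ' hσ'] at h3
    have h4 : |min T T' - T| + |T' - min T T'| = |T - T'| := by
      rcases le_total T T' with h5 | h5
      · rw [min_eq_left h5, sub_self, abs_zero, zero_add, abs_sub_comm]
      · rw [min_eq_right h5, sub_self, abs_zero, add_zero, abs_sub_comm]
    linarith
  · have h2 := tri g (σ t) (σ T) (σ' t)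
    have h3 := tri g (σ T) (σ' T') (σ' t)
    rw [hu σ hσ] at h2
    rw [hu σ' hσ'] at h3
    have h4 : |t - T| + |T' - t| = |T - T'| := by
      rcases le_total T T' with h5 | h5
      · rw [min_eq_left h5] at h
        rw [max_eq_right h5] at ht'
        rw [abs_of_nonneg (by linarith : 0 ≤ t - T), abs_of_nonneg (by linarith : 0 ≤ T' - t),
          abs_of_nonpos (by linarith : T - T' ≤ 0)]
        ring
      · rw [min_eq_right h5] at h
        rw [max_eq_left h5] at ht'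
        rw [abs_of_nonpos (by linarith : t - T ≤ 0), abs_of_nonpos (by linarith : T' - t ≤ 0),
          abs_of_nonneg (by linarith : 0 ≤ T - T')]
        ring
    linarith

end IBCL

open IBCL in
theorem pr_BCL (hCvG : StCvG) (hUG : StUG) (hIso : StIso) : BCL := by
  intro n g κ hcv c₁ c₂ hc₁ hc₂ T δ hT hδ h0 hTδ t ht
  obtain ⟨-, hu, hex⟩ := hCvG n g κ hcv
  have hu2 : gd g (c₂ 0) (c₂ T) = T := by
    rw [hu c₂ hc₂, zero_sub, abs_neg, abs_of_nonneg hT]
  by_cases hne : c₁ 0 = c₂ T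
  · have h1 : T ≤ δ := by
      rw [hne, sy, hu2] at h0
      exact h0
    have h2 := tri g (c₁ t) (c₁ 0) (c₂ t)
    have h3 := tri g (c₁ 0) (c₂ 0) (c₂ t)
    rw [hu c₁ hc₁, sub_zero, abs_of_nonneg ht.1] at h2
    rw [hu c₂ hc₂, zero_sub, abs_neg, abs_of_nonneg ht.1] at h3
    have := ht.2
    linarith
  · obtain ⟨c₃, hc₃, h30, h3T, hpos⟩ := hex _ _ hne
    obtain ⟨T', hT'⟩ : ∃ T', T' = gd g (c₁ 0) (c₂ T) := ⟨_, rfl⟩
    rw [← hT'] at h3T hpos
    have hTT : |T - T'| ≤ δ := by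
      have a1 := tri g (c₁ 0) (c₂ 0) (c₂ T)
      have a2 := tri g (c₂ 0) (c₁ 0) (c₂ T)
      rw [sy g (c₂ 0) (c₁ 0)] at a2
      rw [abs_le]
      constructor <;> linarith
    have k1 := two hIso hCvG hcv hc₁ hc₃ h30.symm hT hpos.le (δ := δ) (by rw [h3T]; exact hTδ) t
      ht.1 (ht.2.trans (le_max_left _ _))
    have hr3 : UG g (fun s => c₃ (T' - s)) := (hUG n g c₃ hc₃).2.1 T'
    have hr2 : UG g (fun s => c₂ (T - s)) := (hUG n g c₂ hc₂).2.1 T
    have k2 := two hIso hCvG hcv hr3 hr2 (by simp only [sub_zero]; exact h3T) hpos.le hT (δ := δ)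
      (by simp only [sub_self]; rw [h30]; exact h0) (T - t) (by linarith [ht.2])
      (le_trans (by linarith [ht.1]) (le_max_right _ _))
    simp only [sub_sub_cancel] at k2
    have k3 : gd g (c₃ t) (c₃ (T' - (T - t))) ≤ δ := by
      rw [hu c₃ hc₃]
      have : t - (T' - (T - t)) = T - T' := by ring
      rw [this]
      exact hTT
    have h2 := tri g (c₁ t) (c₃ t) (c₂ t)
    have h3 := tri g (c₃ t) (c₃ (T' - (T - t))) (c₂ t)
    rw [abs_sub_comm] at k2
    linarith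

end Pool.Agent.LX
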