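import Pool.Agent.Work.MP_25cd3b_gt.LX.StmtsB

set_option autoImplicit false

/-!
# MP_25cd3b_gt, block LX, item BCh (helper12): the structure `Ch` of the generating function
-/

open MeasureTheory Set Filter Topology
open scoped ContDiff ENNReal
open Pool.Agent.Work.MP_c9f990_an.Al (IsFlow)

namespace Pool.Agent.LX

open Pool.Agent.MLS Pool.Agent.STR Pool.Agent.LR

namespace IBCh

theorem le3 : (3 : WithTop ℕ∞) ≤ ((⊤ : ℕ∞) : WithTop ℕ∞) :=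
  (WithTop.coe_le_coe.2 le_top : ((3 : ℕ∞) : WithTop ℕ∞) ≤ ((⊤ : ℕ∞) : WithTop ℕ∞))

theorem le2 : (2 : WithTop ℕ∞) ≤ ((⊤ : ℕ∞) : WithTop ℕ∞) :=
  (WithTop.coe_le_coe.2 le_top : ((2 : ℕ∞) : WithTop ℕ∞) ≤ ((⊤ : ℕ∞) : WithTop ℕ∞))

theorem gen (V : Type) [NormedAddCommGroup V] [NormedSpace ℝ V] (L : V × V → ℝ) (lam r₀ r₁ : ℝ)
    (hr₀ : 0 < r₀) (hr₁ : 0 < r₁) (hlam : 0 < lam)
    (hsm : ∀ p : V × V, ‖p‖ < r₁ → ContDiffAt ℝ ∞ L p) (hz : L 0 = 0) (hc : fderiv ℝ L 0 = 0)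
    (hpos : Pos lam (fderiv ℝ (fderiv ℝ L) 0)) :
    ∃ K r : ℝ, r ≤ r₀ ∧ Ch lam K r L (fderiv ℝ L) (fderiv ℝ (fderiv ℝ L)) := by
  have hs0 : ContDiffAt ℝ ∞ L 0 := hsm 0 (by simpa using hr₁)
  have hs1 : ContDiffAt ℝ 2 (fderiv ℝ L) 0 :=
    (hs0.of_le (m := 3) le3).fderiv_right (by norm_num)
  have hs2 : ContDiffAt ℝ 1 (fderiv ℝ (fderiv ℝ L)) 0 :=
    hs1.fderiv_right (by norm_num)
  obtain ⟨K, t, ht, hK⟩ := hs2.exists_lipschitzOnWith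
  obtain ⟨ρ, hρ, hρt⟩ := Metric.mem_nhds_iff.1 ht
  refine ⟨K, min r₀ (min r₁ ρ), min_le_left _ _, ?_⟩
  have hr1 : ∀ p : V × V, ‖p‖ < min r₀ (min r₁ ρ) → ‖p‖ < r₁ := fun p hp =>
    lt_of_lt_of_le hp ((min_le_right _ _).trans (min_le_left _ _))
  have hr2 : ∀ p : V × V, ‖p‖ < min r₀ (min r₁ ρ) → p ∈ t := fun p hp =>
    hρt (by
      rw [mem_ball_zero_iff]
      exact lt_of_lt_of_le hp ((min_le_right _ _).trans (min_le_right _ _)))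
  have h0t : (0 : V × V) ∈ t := mem_of_mem_nhds ht
  exact
    { r_pos := lt_min hr₀ (lt_min hr₁ hρ)
      lam_pos := hlam
      K_nn := K.coe_nonneg
      d1 := fun p hp => ((hsm p (hr1 p hp)).differentiableAt (by simp)).hasFDerivAt
      d2 := fun p hp => by
        have h3 : ContDiffAt ℝ 1 (fderiv ℝ L) p :=
          ((hsm p (hr1 p hp)).of_le (m := 2) le2).fderiv_right (by norm_num)
        exact (h3.differentiableAt (by norm_num)).hasFDerivAt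
      pos := hpos
      lip := fun p hp => by
        have h3 := hK.dist_le_mul p (hr2 p hp) 0 h0t
        rwa [dist_eq_norm, dist_eq_norm, sub_zero] at h3
      zero := hz
      crit := hc }

end IBCh

theorem pr_BCh (h1 : BSm) (h2 : BPos) : BCh := by
  intro n G _ _ g κ φ M lg a c l V hP r₀ hr₀
  obtain ⟨hz, hc, ⟨r₁, hr₁, hsm⟩, -⟩ := h1 n G g κ φ M lg a c l V hP
  obtain ⟨-, lam, hlam, hpos⟩ := h2 n G g κ φ M lg a c l V hP
  obtain ⟨K, r, hr, hch⟩ := IBCh.gen V (Lk g φ a (c 0) l V) lam r₀ r₁ hr₀ hr₁ hlam hsm hz hc hpos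
  exact ⟨lam, K, r, hr, hch⟩

end Pool.Agent.LX
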