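import Pool.Agent.Work.MP_25cd3b_gt.LX.StmtsB
import Pool.Agent.Work.MP_25cd3b_gt.NG.All

set_option autoImplicit false

/-!
# MP_25cd3b_gt, block LX, item BCr: crossing the hypersurfaces
-/

open MeasureTheory Set Filter Topology
open scoped ContDiff ENNReal
open Pool.Agent.Work.MP_c9f990_an.Al (IsFlow)

namespace Pool.Agent.LX

open Pool.Agent.MLS Pool.Agent.STR Pool.Agent.LR

namespace IBCr

/-- the function which cuts out the hypersurface -/
noncomputable def FF {n : ℕ} (g : Form n) (lg : E n → E n → E n) (c : ℝ → E n) (y : E n) : ℝ :=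
  g.val (c 0) (deriv c 0) (lg (c 0) y)

/-- a smooth function is Lipschitz on compact sets for `gd` -/
theorem lip {n : ℕ} {g : Form n} (hg : Riem g) {F : E n → ℝ} (hF : ContDiff ℝ ∞ F)
    {K : Set (E n)} (hK : IsCompact K) :
    ∃ C, 0 ≤ C ∧ ∀ x ∈ K, ∀ y ∈ K, |F x - F y| ≤ C * gd g x y := by
  obtain ⟨R, hR⟩ := hK.isBounded.subset_closedBall (0 : E n)
  let R' : ℝ := max R 1
  have hR' : 0 < R' := lt_of_lt_of_le one_pos (le_max_right _ _)
  let f : ContDiffBump (0 : E n) := ⟨R', R' + 1, hR', by linarith⟩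
  have hf1 : ∀ x ∈ K, f x = 1 := fun x hx =>
    f.one_of_mem_closedBall (Metric.closedBall_subset_closedBall (le_max_left _ _) (hR hx))
  have hh : ContDiff ℝ 1 (fun y => f y * F y) :=
    (f.contDiff).mul (hF.of_le (by exact_mod_cast le_top))
  have hc : HasCompactSupport (fun y => f y * F y) := f.hasCompactSupport.mul_right
  obtain ⟨C, hC, h⟩ := p_Fun n g hg _ hh hc
  refine ⟨C, hC, fun x hx y hy => ?_⟩
  have h1 := h x y
  simp only [hf1 x hx, hf1 y hy, one_mul] at h1
  exact h1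

variable {n : ℕ} {G : Type} [Group G] [MulAction G (E n)] {g : Form n} {κ : ℝ}
  {φ : ℝ → W n → W n} {M : ℝ → W n → W n →L[ℝ] W n} {lg : E n → E n → E n} {a : G}
  {c : ℝ → E n} {l : ℝ} {V : Submodule ℝ (E n)}

theorem smF (hP : Per n G g κ φ M lg a c l V) : ContDiff ℝ ∞ (FF g lg c) := by
  have h1 : ContDiff ℝ ∞ (fun y : E n => lg (c 0) y) :=
    hP.log.smooth.comp (contDiff_const.prodMk contDiff_id)
  exact (g.val (c 0) (deriv c 0)).contDiff.comp h1

theorem lgc (hP : Per n G g κ φ M lg a c l V) (t : ℝ) : lg (c 0) (c t) = t • deriv c 0 := by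
  have h := (p_NcGx n g φ M hP.riem hP.flow c hP.ug.geo 0 t).2
  rw [sub_zero] at h
  rw [h]
  exact hP.log.log_exp _ _

theorem Fc (hP : Per n G g κ φ M lg a c l V) (t : ℝ) : FF g lg c (c t) = t := by
  rw [FF, lgc hP, map_smul, hP.ug.unit 0, smul_eq_mul, mul_one]

theorem dc (hP : Per n G g κ φ M lg a c l V) (t : ℝ) : gd g (c 0) (c t) = |t| := by
  rw [hP.log.dist, lgc hP, nrm, map_smul, map_smul, smul_apply, hP.ug.unit 0, smul_eq_mul,
    smul_eq_mul, mul_one, Real.sqrt_mul_self_eq_abs]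

theorem per' (hP : Per n G g κ φ M lg a c l V) (j : ℕ) (t : ℝ) :
    c (j * l + t) = a ^ j • c t := by
  induction j with
  | zero => simp
  | succ j ih =>
    have h1 : ((j + 1 : ℕ) : ℝ) * l + t = (j * l + t) + l := by
      push_cast
      ring
    rw [h1, hP.per, ih, pow_succ', mul_smul]

end IBCr

open IBCr in
/-- item BCr -/
theorem pr_BCr : BCr := by
  intro n G _ _ g κ φ M lg a c l V hP
  obtain ⟨K, hK, hKd⟩ := p_Prop n G hP.coc g hP.riem hP.inv {c 0} 2 isCompact_singleton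
  obtain ⟨CL, hCL, hLip⟩ := lip hP.riem (smF hP) hK
  obtain ⟨C1, hC1, h1⟩ := (pr_Bnd n g {c 0} isCompact_singleton).1
  obtain ⟨C2, hC2, h2⟩ := (pr_Bnd n g {c 0} isCompact_singleton).2 hP.riem
  have hpm := (pr_Gd n g).2.1
  have hinv := (pr_InvD n G hP.coc g hP.inv).2
  let A : ℝ := max 1 (max CL (max C1 C2))
  have hA1 : 1 ≤ A := le_max_left _ _
  have hAL : CL ≤ A := (le_max_left _ _).trans (le_max_right _ _)
  have hA2 : C1 ≤ A := ((le_max_left _ _).trans (le_max_right _ _)).trans (le_max_right _ _)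
  have hA3 : C2 ≤ A := ((le_max_right _ _).trans (le_max_right _ _)).trans (le_max_right _ _)
  have hA0 : 0 < A := by linarith
  have hC0 : 1 ≤ A * (2 * A + 1) := by nlinarith
  have hCA : A ≤ A * (2 * A + 1) := by nlinarith
  have hC2A : 2 * A ≤ A * (2 * A + 1) := by nlinarith
  have hnn : ∀ v : E n, 0 ≤ nrm g (c 0) v := fun v => Real.sqrt_nonneg _
  refine ⟨A * (2 * A + 1), (A * (2 * A + 1))⁻¹, hC0, by positivity, ?_, ?_⟩
  · intro v
    refine ⟨?_, ?_⟩
    · refine (h2 (c 0) rfl v).trans ?_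
      exact mul_le_mul_of_nonneg_right (hA3.trans hCA) (hnn _)
    · refine (h1 (c 0) rfl v).trans ?_
      exact mul_le_mul_of_nonneg_right (hA2.trans hCA) (norm_nonneg _)
  · intro η j δ hη hδ hδρ hd
    have hCδ : A * (2 * A + 1) * δ ≤ 1 := by
      have := mul_le_mul_of_nonneg_left hδρ (by positivity : 0 ≤ A * (2 * A + 1))
      rwa [mul_inv_cancel₀ (by positivity)] at this
    have hδ1 : δ ≤ 1 := by nlinarith
    have h2A : 2 * A * δ ≤ A * (2 * A + 1) * δ := mul_le_mul_of_nonneg_right hC2A hδ.le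
    -- the moved curve
    let y : ℝ → E n := fun t => (a ^ j)⁻¹ • η (j * l + t)
    have hy : Continuous y := by
      have h := (hP.coc.smooth (a ^ j)⁻¹).continuous
      exact h.comp (hη.comp (continuous_const.add continuous_id))
    have hyd : ∀ t, |t| ≤ 2 * A * δ → gd g (y t) (c t) ≤ δ := by
      intro t ht
      have h := hd t (ht.trans h2A)
      rw [per' hP] at h
      have h3 := hinv (a ^ j)⁻¹ (η (j * l + t)) (a ^ j • c t)
      rw [inv_smul_smul] at h3
      show gd g ((a ^ j)⁻¹ • η (j * l + t)) (c t) ≤ δ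
      rw [h3]
      exact h
    have hcK : ∀ t, |t| ≤ 2 * A * δ → c t ∈ K := by
      intro t ht
      refine hKd (c 0) rfl _ ?_
      rw [dc hP]
      linarith
    have hoy : ∀ t, |t| ≤ 2 * A * δ → gd g (c 0) (y t) ≤ |t| + δ := by
      intro t ht
      have h3 := hpm.tri (c 0) (c t) (y t)
      rw [dc hP, hpm.symm (c t)] at h3
      have := hyd t ht
      linarith
    have hyK : ∀ t, |t| ≤ 2 * A * δ → y t ∈ K := by
      intro t ht
      refine hKd (c 0) rfl _ ?_
      have := hoy t ht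
      linarith
    have hFt : ∀ t, |t| ≤ 2 * A * δ → |FF g lg c (y t) - t| ≤ A * δ := by
      intro t ht
      have h3 := hLip (y t) (hyK t ht) (c t) (hcK t ht)
      rw [Fc hP] at h3
      refine h3.trans ?_
      exact mul_le_mul hAL (hyd t ht) (hpm.nonneg _ _) hA0.le
    have hpos : 0 < 2 * A * δ := by positivity
    have hAδ : 0 < A * δ := by positivity
    have e1 : 0 ≤ FF g lg c (y (2 * A * δ)) := by
      have h3 := (abs_le.1 (hFt (2 * A * δ) (le_of_eq (abs_of_pos hpos)))).1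
      linarith
    have e2 : FF g lg c (y (-(2 * A * δ))) ≤ 0 := by
      have h3 := (abs_le.1 (hFt (-(2 * A * δ))
        (le_of_eq (by rw [abs_neg, abs_of_pos hpos])))).2
      linarith
    have hcont : ContinuousOn (fun t => FF g lg c (y t)) (Icc (-(2 * A * δ)) (2 * A * δ)) :=
      ((smF hP).continuous.comp hy).continuousOn
    obtain ⟨t, ht, ht0⟩ := intermediate_value_Icc (by linarith) hcont ⟨e2, e1⟩
    have hta : |t| ≤ 2 * A * δ := abs_le.2 ht
    have hm : lg (c 0) (y t) ∈ V := (hP.mem _).2 ht0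
    refine ⟨t, ⟨lg (c 0) (y t), hm⟩, hta.trans h2A, ?_, ?_⟩
    · show ‖lg (c 0) (y t)‖ ≤ A * (2 * A + 1) * δ
      calc ‖lg (c 0) (y t)‖ ≤ C2 * nrm g (c 0) (lg (c 0) (y t)) := h2 (c 0) rfl _
        _ ≤ A * nrm g (c 0) (lg (c 0) (y t)) := mul_le_mul_of_nonneg_right hA3 (hnn _)
        _ = A * gd g (c 0) (y t) := by rw [hP.log.dist]
        _ ≤ A * ((2 * A + 1) * δ) := mul_le_mul_of_nonneg_left
            ((hoy t hta).trans (by linarith)) hA0.le
        _ = A * (2 * A + 1) * δ := by ring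
    · show η (j * l + t) = a ^ j • expo φ g (c 0) (lg (c 0) (y t))
      rw [hP.log.exp_log]
      show η (j * l + t) = a ^ j • ((a ^ j)⁻¹ • η (j * l + t))
      rw [smul_inv_smul]

end Pool.Agent.LX
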