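import Pool.Agent.Work.MP_25cd3b_gt.LX.StmtsB
import Pool.Agent.Work.MP_25cd3b_gt.NG.All
import Pool.Agent.Work.MP_13b5d9_gt.ST.All93

set_option autoImplicit false

/-!
# Item BEx2: the exponential map at `0` up to the second order
-/

open MeasureTheory Set Filter Topology
open scoped ContDiff ENNReal
open Pool.Agent.Work.MP_c9f990_an.Al (IsFlow)

namespace Pool.Agent.LX

open Pool.Agent.MLS Pool.Agent.STR Pool.Agent.LR

namespace IBEx2

/-- The exponential map is smooth. -/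
theorem smooth {n : ℕ} {g : Form n} {φ : ℝ → W n → W n} {M : ℝ → W n → W n →L[ℝ] W n}
    (hg : Riem g) (hf : IsFlow (XH (Hm g)) φ M) (p : E n) : ContDiff ℝ ∞ (expo φ g p) := by
  have h := (p_ExS n g φ M hg hf).2
  exact h.comp (contDiff_const.prodMk contDiff_id)

/-- Derivative along a ray. -/
theorem ray {n : ℕ} (F : E n → E n) (hF : ContDiff ℝ ∞ F) (u : E n) (t : ℝ) :
    HasDerivAt (fun s : ℝ => F (s • u)) (fderiv ℝ F (t • u) u) t := by
  have h1 : HasDerivAt (fun s : ℝ => s • u) ((1 : ℝ) • u) t := (hasDerivAt_id t).smul_const u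
  rw [one_smul] at h1
  have h2 : HasFDerivAt F (fderiv ℝ F (t • u)) (t • u) :=
    ((hF.differentiable (by simp)) (t • u)).hasFDerivAt
  exact h2.comp_hasDerivAt t h1

/-- First and second derivative in a direction. -/
theorem dir {n : ℕ} {g : Form n} {φ : ℝ → W n → W n} {M : ℝ → W n → W n →L[ℝ] W n}
    (hg : Riem g) (hf : IsFlow (XH (Hm g)) φ M) (p u : E n) :
    fderiv ℝ (expo φ g p) 0 u = u ∧
      fderiv ℝ (fderiv ℝ (expo φ g p)) 0 u u = -(Ga g p u u) := by
  have hs := smooth hg hf p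
  obtain ⟨-, -, hexp, -, hz⟩ := p_NcExp n g φ M hg hf p
  have hode : ∀ t, HasDerivAt (fun s => φ s (p, op g p u)) (XH (Hm g) (φ t (p, op g p u))) t :=
    fun t => hf.ode _ t
  obtain ⟨hgeo, hder, -⟩ := p_Geo1 n g hg (fun t => φ t (p, op g p u)) hode
  have hc : (fun t => (φ t (p, op g p u)).1) = fun t : ℝ => expo φ g p (t • u) :=
    funext fun t => hexp t u
  simp only [hc] at hgeo hder
  have hd : ∀ t, deriv (fun s : ℝ => expo φ g p (s • u)) t = fderiv ℝ (expo φ g p) (t • u) u :=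
    fun t => (ray _ hs u t).deriv
  have h0 : fderiv ℝ (expo φ g p) 0 u = u := by
    have h1 := hd 0
    rw [zero_smul] at h1
    rw [← h1, hder 0, hf.zero]
    exact (pr_Op n g hg).2.2.1 p u
  refine ⟨h0, ?_⟩
  have h2 := ((p_NcGeo n g hg _).mp hgeo).2 0
  have h3 : deriv (fun s : ℝ => expo φ g p (s • u)) =
      fun t : ℝ => fderiv ℝ (expo φ g p) (t • u) u := funext hd
  rw [h3] at h2
  simp only [zero_smul] at h2
  rw [hz, h0] at h2
  have hs1 : ContDiff ℝ ∞ (fderiv ℝ (expo φ g p)) := hs.fderiv_right (by simp)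
  have h4 : HasDerivAt (fun t : ℝ => fderiv ℝ (expo φ g p) (t • u) u)
      (fderiv ℝ (fderiv ℝ (expo φ g p)) 0 u u) 0 := by
    have h5 : HasDerivAt (fun s : ℝ => s • u) ((1 : ℝ) • u) 0 := (hasDerivAt_id 0).smul_const u
    rw [one_smul] at h5
    have h6 : HasFDerivAt (fderiv ℝ (expo φ g p))
        (fderiv ℝ (fderiv ℝ (expo φ g p)) ((0 : ℝ) • u)) ((0 : ℝ) • u) :=
      ((hs1.differentiable (by simp)) _).hasFDerivAt
    have h7 := h6.comp_hasDerivAt (0 : ℝ) h5
    rw [zero_smul] at h7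
    have h8 := h7.clm_apply (hasDerivAt_const (0 : ℝ) u)
    simpa using h8
  exact h4.unique h2

end IBEx2

open IBEx2

theorem pr_BEx2 : BEx2 := by
  intro n g φ M hg hf p
  have hs := smooth hg hf p
  refine ⟨hs, (p_NcExp n g φ M hg hf p).2.2.2.2, fun u => (dir hg hf p u).1, fun v w => ?_⟩
  have h0 : minSmoothness ℝ 2 ≤ (∞ : WithTop ℕ∞) := by
    rw [minSmoothness_of_isRCLikeNormedField]
    exact WithTop.coe_le_coe.2 (le_top : (2 : ℕ∞) ≤ ⊤)
  have hsym : fderiv ℝ (fderiv ℝ (expo φ g p)) 0 v w = fderiv ℝ (fderiv ℝ (expo φ g p)) 0 w v :=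
    (hs.contDiffAt (x := 0)).isSymmSndFDerivAt h0 v w
  have hG : Ga g p v w = Ga g p w v := (p_NcGa n g hg).2.2.1 p v w
  have h1 := (dir hg hf p (v + w)).2
  have h2 := (dir hg hf p v).2
  have h3 := (dir hg hf p w).2
  simp only [map_add, add_apply] at h1
  rw [h2, h3, ← hsym, ← hG] at h1
  have h4 : (2 : ℝ) • fderiv ℝ (fderiv ℝ (expo φ g p)) 0 v w = (2 : ℝ) • (-(Ga g p v w)) := by
    rw [two_smul, two_smul]
    have h5 := h1
    have h6 : fderiv ℝ (fderiv ℝ (expo φ g p)) 0 v w + fderiv ℝ (fderiv ℝ (expo φ g p)) 0 v w =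
        (-(Ga g p v v) + fderiv ℝ (fderiv ℝ (expo φ g p)) 0 v w +
          (fderiv ℝ (fderiv ℝ (expo φ g p)) 0 v w + -(Ga g p w w))) +
          Ga g p v v + Ga g p w w := by abel
    rw [h6, h5]
    abel
  exact smul_right_injective (E n) (two_ne_zero) h4

end Pool.Agent.LX
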