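import Pool.Agent.Work.MP_25cd3b_gt.LX.StmtsB
import Pool.Agent.Work.MP_25cd3b_gt.NG.All
import Pool.Agent.Work.MP_13b5d9_gt.ST.All93

set_option autoImplicit false

/-!
# MP_25cd3b_gt, block LX, item BFv: first variation with both end points
-/

open MeasureTheory Set Filter Topology
open scoped ContDiff ENNReal
open Pool.Agent.Work.MP_c9f990_an.Al (IsFlow)

namespace Pool.Agent.LX

open Pool.Agent.MLS Pool.Agent.STR Pool.Agent.LR

namespace IBFv

/-- first variation for two maps -/
theorem var (h1 : StOp) (h2 : StAct) {n : ℕ} {g : Form n} {φ : ℝ → W n → W n}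
    {M : ℝ → W n → W n →L[ℝ] W n} {lg : E n → E n → E n} (hg : Riem g)
    (hφ : IsFlow (XH (Hm g)) φ M) (hl : IsLog g φ lg) {P : Type} [NormedAddCommGroup P]
    [NormedSpace ℝ P] (x y : P → E n) (hx : ContDiff ℝ ∞ x) (hy : ContDiff ℝ ∞ y) (p q : P) :
    fderiv ℝ (fun p => 1 / 2 * g.val (x p) (lg (x p) (y p)) (lg (x p) (y p))) p q =
      -g.val (x p) (lg (x p) (y p)) (fderiv ℝ x p q) +
        g.val (y p) (ev φ g (x p) (lg (x p) (y p))) (fderiv ℝ y p q) := by
  obtain ⟨-, hop, hio, hoi, -, hopS, -, hHs, hH⟩ := h1 n g hg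
  have hlS : ContDiff ℝ ∞ (fun p => lg (x p) (y p)) := hl.smooth.comp (hx.prodMk hy)
  have hpS : ContDiff ℝ ∞ (fun p => op g (x p) (lg (x p) (y p))) := (hopS.comp hx).clm_apply hlS
  have hζ : HasFDerivAt (fun p : P => ((x p, op g (x p) (lg (x p) (y p))) : W n))
      ((fderiv ℝ x p).prod (fderiv ℝ (fun p => op g (x p) (lg (x p) (y p))) p)) p :=
    ((hx.differentiable (by simp)) p).hasFDerivAt.prodMk
      ((hpS.differentiable (by simp)) p).hasFDerivAt
  have hfun : (fun p => 1 / 2 * g.val (x p) (lg (x p) (y p)) (lg (x p) (y p))) =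
      fun p => Hm g ((x p, op g (x p) (lg (x p) (y p))) : W n) := by
    funext p
    rw [hH]
    simp only [vel, hio]
  have hHd : HasFDerivAt (Hm g) (fderiv ℝ (Hm g) (x p, op g (x p) (lg (x p) (y p))))
      (x p, op g (x p) (lg (x p) (y p))) := ((hHs.differentiable (by simp)) _).hasFDerivAt
  have hcomp := hHd.comp p hζ
  have hL : fderiv ℝ (fun p => 1 / 2 * g.val (x p) (lg (x p) (y p)) (lg (x p) (y p))) p q =
      fderiv ℝ (Hm g) (x p, op g (x p) (lg (x p) (y p)))
        (fderiv ℝ x p q, fderiv ℝ (fun p => op g (x p) (lg (x p) (y p))) p q) := by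
    rw [hfun]
    have := hcomp.fderiv
    have h3 : (fun p => Hm g ((x p, op g (x p) (lg (x p) (y p))) : W n)) =
      (Hm g) ∘ (fun p : P => ((x p, op g (x p) (lg (x p) (y p))) : W n)) := rfl
    rw [h3, this]
    rfl
  have hφd := (hφ.diff 1 (x p, op g (x p) (lg (x p) (y p)))).comp p hζ
  have hfst : HasFDerivAt (fun p : P => (φ 1 ((x p, op g (x p) (lg (x p) (y p))) : W n)).1)
      ((ContinuousLinearMap.fst ℝ (E n) (E n)).comp
        ((M 1 (x p, op g (x p) (lg (x p) (y p)))).comp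
          ((fderiv ℝ x p).prod (fderiv ℝ (fun p => op g (x p) (lg (x p) (y p))) p)))) p :=
    (ContinuousLinearMap.fst ℝ (E n) (E n)).hasFDerivAt.comp p hφd
  have hYeq : (fun p : P => (φ 1 ((x p, op g (x p) (lg (x p) (y p))) : W n)).1) = y := by
    funext p
    exact hl.exp_log (x p) (y p)
  rw [hYeq] at hfst
  have hM1 : (M 1 (x p, op g (x p) (lg (x p) (y p)))
      (fderiv ℝ x p q, fderiv ℝ (fun p => op g (x p) (lg (x p) (y p))) p q)).1 =
      fderiv ℝ y p q := by
    rw [hfst.fderiv]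
    rfl
  have hact := h2 n g φ M hg hφ (x p, op g (x p) (lg (x p) (y p)))
    (fderiv ℝ x p q, fderiv ℝ (fun p => op g (x p) (lg (x p) (y p))) p q) 1
  rw [hL, ← one_mul (fderiv ℝ (Hm g) _ _), ← hact, hM1]
  have hP1 : (φ 1 ((x p, op g (x p) (lg (x p) (y p))) : W n)).1 = y p :=
    hl.exp_log (x p) (y p)
  have hP2 : inner ℝ (φ 1 ((x p, op g (x p) (lg (x p) (y p))) : W n)).2 (fderiv ℝ y p q) =
      g.val (y p) (ev φ g (x p) (lg (x p) (y p))) (fderiv ℝ y p q) := by
    have key : ∀ (P : W n) (b : E n), inner ℝ P.2 b = g.val P.1 (iop g P.1 P.2) b := by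
      intro P b
      rw [← hop, hoi]
    have e : g.val (y p) = g.val (φ 1 ((x p, op g (x p) (lg (x p) (y p))) : W n)).1 := by
      rw [hP1]
    rw [e]
    exact key _ _
  rw [hP2]
  simp only [hop]
  ring

theorem main (hOp : StOp) (hAct : StAct) (hE : NcExp) (hGx : NcGx) (h1 : BEx2) : BFv := by
  intro n G _ _ g κ φ M lg a c l V h
  obtain ⟨hexS, hex0, hexD, -⟩ := h1 n g φ M h.riem h.flow (c 0)
  obtain ⟨-, -, hE3, hE4, -⟩ := hE n g φ M h.riem h.flow (c 0)
  have haS := h.coc.smooth a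
  have hsub : ContDiff ℝ ∞ (fun p : V × V => ((p.1 : V) : E n)) :=
    V.subtypeL.contDiff.comp contDiff_fst
  have hsub2 : ContDiff ℝ ∞ (fun p : V × V => ((p.2 : V) : E n)) :=
    V.subtypeL.contDiff.comp contDiff_snd
  have hx : ContDiff ℝ ∞ (fun p : V × V => expo φ g (c 0) p.1) := hexS.comp hsub
  have hy : ContDiff ℝ ∞ (fun p : V × V => a • expo φ g (c 0) p.2) :=
    haS.comp (hexS.comp hsub2)
  have hexd : ∀ v, HasFDerivAt (expo φ g (c 0)) (fderiv ℝ (expo φ g (c 0)) v) v := fun v =>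
    ((hexS.differentiable (by simp)) v).hasFDerivAt
  have had : ∀ y : E n, HasFDerivAt (fun y : E n => a • y) (dac a y) y := fun y =>
    ((haS.differentiable (by simp)) y).hasFDerivAt
  have hDx : ∀ p q : V × V, fderiv ℝ (fun p : V × V => expo φ g (c 0) p.1) p q =
      fderiv ℝ (expo φ g (c 0)) p.1 q.1 := by
    intro p q
    have e1 : HasFDerivAt (fun p : V × V => ((p.1 : V) : E n))
        (V.subtypeL.comp (ContinuousLinearMap.fst ℝ V V)) p :=
      (V.subtypeL.comp (ContinuousLinearMap.fst ℝ V V)).hasFDerivAt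
    have e2 := (hexd p.1).comp p e1
    have e3 : fderiv ℝ (fun p : V × V => expo φ g (c 0) p.1) p =
        (fderiv ℝ (expo φ g (c 0)) p.1).comp (V.subtypeL.comp (ContinuousLinearMap.fst ℝ V V)) :=
      e2.fderiv
    rw [e3]
    rfl
  have hDy : ∀ p q : V × V, fderiv ℝ (fun p : V × V => a • expo φ g (c 0) p.2) p q =
      dac a (expo φ g (c 0) p.2) (fderiv ℝ (expo φ g (c 0)) p.2 q.2) := by
    intro p q
    have e1 : HasFDerivAt (fun p : V × V => ((p.2 : V) : E n))
        (V.subtypeL.comp (ContinuousLinearMap.snd ℝ V V)) p :=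
      (V.subtypeL.comp (ContinuousLinearMap.snd ℝ V V)).hasFDerivAt
    have e2 := (had (expo φ g (c 0) p.2)).comp p ((hexd p.2).comp p e1)
    have e3 : fderiv ℝ (fun p : V × V => a • expo φ g (c 0) p.2) p =
        (dac a (expo φ g (c 0) p.2)).comp ((fderiv ℝ (expo φ g (c 0)) p.2).comp
          (V.subtypeL.comp (ContinuousLinearMap.snd ℝ V V))) :=
      e2.fderiv
    rw [e3]
    rfl
  have hlS : ContDiff ℝ ∞ (fun p : V × V => lg (expo φ g (c 0) p.1) (a • expo φ g (c 0) p.2)) :=
    h.log.smooth.comp (hx.prodMk hy)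
  have hform : ∀ p q : V × V, fderiv ℝ (Ek g φ lg a (c 0) V) p q =
    -g.val (expo φ g (c 0) p.1) (lg (expo φ g (c 0) p.1) (a • expo φ g (c 0) p.2))
        (fderiv ℝ (expo φ g (c 0)) p.1 q.1) +
      g.val (a • expo φ g (c 0) p.2)
        (ev φ g (expo φ g (c 0) p.1) (lg (expo φ g (c 0) p.1) (a • expo φ g (c 0) p.2)))
        (dac a (expo φ g (c 0) p.2) (fderiv ℝ (expo φ g (c 0)) p.2 q.2)) := by
    intro p q
    have := var hOp hAct h.riem h.flow h.log (fun p : V × V => expo φ g (c 0) p.1)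
      (fun p : V × V => a • expo φ g (c 0) p.2) hx hy p q
    rw [hDx, hDy] at this
    exact this
  have hgeo : IsGeo g c := h.ug.geo
  have hcd : Differentiable ℝ c := hgeo.smooth.differentiable (by simp)
  have hcl : c l = a • c 0 := by
    have := h.per 0
    rwa [zero_add] at this
  have hcx : ∀ t, c t = expo φ g (c 0) (t • deriv c 0) := by
    intro t
    have := (hGx n g φ M h.riem h.flow c hgeo 0 t).2
    rwa [sub_zero] at this
  have hA : lg (c 0) (a • c 0) = l • deriv c 0 := by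
    rw [← hcl]
    conv_lhs => rw [hcx l]
    exact h.log.log_exp _ _
  have hB : ev φ g (c 0) (l • deriv c 0) = l • deriv c l := by
    have e1 : ev φ g (c 0) (l • deriv c 0) =
        fderiv ℝ (expo φ g (c 0)) (l • deriv c 0) (l • deriv c 0) := hE4 _
    rw [e1]
    have e2 : HasDerivAt (fun s : ℝ => c (s * l)) (l • deriv c l) 1 := by
      have e3 : HasDerivAt (fun s : ℝ => s * l) l 1 := by
        simpa using (hasDerivAt_id (1 : ℝ)).mul_const l
      have e4 : HasDerivAt c (deriv c l) ((fun s : ℝ => s * l) 1) := by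
        show HasDerivAt c (deriv c l) (1 * l)
        rw [one_mul]
        exact (hcd l).hasDerivAt
      exact e4.scomp 1 e3
    have e5 : HasDerivAt (fun s : ℝ => c (s * l))
        (fderiv ℝ (expo φ g (c 0)) (l • deriv c 0) (l • deriv c 0)) 1 := by
      have e6 : (fun s : ℝ => c (s * l)) = fun s : ℝ => expo φ g (c 0) (s • (l • deriv c 0)) := by
        funext s
        rw [hcx, smul_smul]
      rw [e6]
      have e7 : HasDerivAt (fun s : ℝ => s • (l • deriv c 0)) (l • deriv c 0) 1 := by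
        simpa using (hasDerivAt_id (1 : ℝ)).smul_const (l • deriv c 0)
      have e8 : HasFDerivAt (expo φ g (c 0)) (fderiv ℝ (expo φ g (c 0)) (l • deriv c 0))
          ((fun s : ℝ => s • (l • deriv c 0)) 1) := by
        show HasFDerivAt (expo φ g (c 0)) _ ((1 : ℝ) • (l • deriv c 0))
        rw [one_smul]
        exact hexd _
      exact e8.comp_hasDerivAt 1 e7
    exact e5.unique e2
  have hC : deriv c l = dac a (c 0) (deriv c 0) := by
    have e1 : HasDerivAt (fun t : ℝ => c (t + l)) (deriv c l) 0 := by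
      have e4 : HasDerivAt c (deriv c l) (0 + l) := by
        rw [zero_add]
        exact (hcd l).hasDerivAt
      exact e4.comp_add_const 0 l
    have e2 : HasDerivAt (fun t : ℝ => a • c t) (dac a (c 0) (deriv c 0)) 0 :=
      (had (c 0)).comp_hasDerivAt 0 (hcd 0).hasDerivAt
    have e3 : (fun t : ℝ => c (t + l)) = fun t : ℝ => a • c t := funext h.per
    rw [e3] at e1
    exact e1.unique e2
  refine ⟨?_, hform, hA, hB, hC, ?_⟩
  · exact contDiff_const.mul (((g.smooth.comp hx).clm_apply hlS).clm_apply hlS)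
  · refine ContinuousLinearMap.ext fun q => ?_
    rw [hform]
    have z1 : (((0 : V × V).1 : V) : E n) = 0 := rfl
    have z2 : (((0 : V × V).2 : V) : E n) = 0 := rfl
    rw [z1, z2, hex0, hA, hexD, hexD, hB, hC, map_smul, map_smul, _root_.smul_apply,
      _root_.smul_apply, h.inv, (h.mem _).1 q.1.2, (h.mem _).1 q.2.2]
    simp

end IBFv

theorem pr_BFv (h1 : BEx2) : BFv := IBFv.main pr_Op p_Act p_NcExp p_NcGx h1

end Pool.Agent.LX
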