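import Pool.Agent.Work.MP_25cd3b_gt.LX.StmtsB
import Pool.Agent.Work.MP_25cd3b_gt.M.I_Gd
import Pool.Agent.Work.MP_25cd3b_gt.M.I_InvD

set_option autoImplicit false

/-!
# MP_25cd3b_gt, block LX, item BGen (helper55): the structure of generating functions
-/

open MeasureTheory Set Filter Topology
open scoped ContDiff ENNReal
open Pool.Agent.Work.MP_c9f990_an.Al (IsFlow)

namespace Pool.Agent.LX

open Pool.Agent.MLS Pool.Agent.STR Pool.Agent.LR

namespace IBGen

variable {n : ℕ}

lemma per_pow {G : Type} [Group G] [MulAction G (E n)] (c : ℝ → E n) (a : G) (l : ℝ)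
    (h : ∀ t, c (t + l) = a • c t) (k : ℕ) (t : ℝ) : c (t + k * l) = a ^ k • c t := by
  induction k with
  | zero => simp
  | succ k ih =>
    have e : t + ((k + 1 : ℕ) : ℝ) * l = (t + k * l) + l := by
      push_cast
      ring
    rw [e, h, ih, pow_succ', mul_smul]

/-- the distance is differentiable where it does not vanish -/
lemma gd_diff {g : Form n} {φ : ℝ → W n → W n} {lg : E n → E n → E n} (hlog : IsLog g φ lg)
    (p : E n × E n) (h : 0 < gd g p.1 p.2) :
    DifferentiableAt ℝ (fun p : E n × E n => gd g p.1 p.2) p := by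
  have e : (fun p : E n × E n => gd g p.1 p.2) =
      fun p : E n × E n => Real.sqrt (g.val p.1 (lg p.1 p.2) (lg p.1 p.2)) := by
    funext p
    rw [hlog.dist]
    rfl
  have hs : ContDiff ℝ ∞ (fun p : E n × E n => g.val p.1 (lg p.1 p.2) (lg p.1 p.2)) :=
    ((g.smooth.comp contDiff_fst).clm_apply hlog.smooth).clm_apply hlog.smooth
  have hd : DifferentiableAt ℝ (fun p : E n × E n => g.val p.1 (lg p.1 p.2) (lg p.1 p.2)) p :=
    (hs.differentiable (by norm_num)) p
  have hne : g.val p.1 (lg p.1 p.2) (lg p.1 p.2) ≠ 0 := by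
    intro h0
    rw [hlog.dist] at h
    unfold nrm at h
    rw [h0, Real.sqrt_zero] at h
    exact lt_irrefl _ h
  rw [e]
  exact hd.sqrt hne

lemma gd_comp {g : Form n} {φ : ℝ → W n → W n} {lg : E n → E n → E n} (hlog : IsLog g φ lg)
    {V : Type} [NormedAddCommGroup V] [NormedSpace ℝ V] (f h : V → E n)
    (hf : Differentiable ℝ f) (hh : Differentiable ℝ h) (w : V) (hw : 0 < gd g (f w) (h w)) :
    DifferentiableAt ℝ (fun v => gd g (f v) (h v)) w := by
  have h1 : DifferentiableAt ℝ (fun v => (f v, h v)) w := (hf w).prodMk (hh w)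
  exact DifferentiableAt.comp (g := fun p : E n × E n => gd g p.1 p.2) w
    (gd_diff hlog (f w, h w) hw) h1

end IBGen

open IBGen

theorem pr_BGen (h1 : BCh) (h2 : BCL) (h3 : BCr) (h4 : BTi) (h5 : StCvG) (h6 : BEx2) :
    BGen := by
  intro n G _ _ g κ φ M lg a c l V hP
  have hCv : Cv g κ := ⟨hP.riem, hP.kpos, hP.curv, φ, M, hP.flow⟩
  obtain ⟨-, hmin, hex⟩ := h5 n g κ hCv
  have hpm : IsPM (gd g) := (pr_Gd n g).2.1
  have hinv : ∀ (b : G) (x y : E n), gd g (b • x) (b • y) = gd g x y :=
    (pr_InvD n G hP.coc g hP.inv).2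
  obtain ⟨C, ρ, hC, hρ, hCn, hcr⟩ := h3 n G g κ φ M lg a c l V hP
  obtain ⟨hes, he0, -, -⟩ := h6 n g φ M hP.riem hP.flow (c 0)
  have hl := hP.pos
  have hC0 : 0 < C := by linarith
  have hde : ∀ v : V, gd g (c 0) (expo φ g (c 0) v) ≤ C * ‖v‖ := fun v => by
    rw [hP.log.dist, hP.log.log_exp]
    exact (hCn v).2
  have hper0 : ∀ k : ℕ, a ^ k • c 0 = c (k * l) := fun k => by
    rw [← per_pow c a l hP.per k 0, zero_add]
  have hok : ∀ k : ℕ, gd g (c 0) (a ^ k • c 0) = k * l := by
    intro k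
    rw [hper0, hmin c hP.ug, zero_sub, abs_neg, abs_of_nonneg (by positivity)]
  have hnear : ∀ (k : ℕ) (x z : V),
      |gd g (expo φ g (c 0) x) (a ^ k • expo φ g (c 0) z) - k * l| ≤ C * ‖x‖ + C * ‖z‖ := by
    intro k x z
    have e1 := hpm.tri (c 0) (expo φ g (c 0) x) (a ^ k • c 0)
    have e2 := hpm.tri (expo φ g (c 0) x) (a ^ k • expo φ g (c 0) z) (a ^ k • c 0)
    have e3 := hpm.tri (expo φ g (c 0) x) (c 0) (a ^ k • expo φ g (c 0) z)
    have e4 := hpm.tri (c 0) (a ^ k • c 0) (a ^ k • expo φ g (c 0) z)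
    have p1 : gd g (expo φ g (c 0) x) (c 0) = gd g (c 0) (expo φ g (c 0) x) := hpm.symm _ _
    have p2 : gd g (a ^ k • expo φ g (c 0) z) (a ^ k • c 0) =
        gd g (c 0) (expo φ g (c 0) z) := by rw [hinv, hpm.symm]
    have p3 : gd g (a ^ k • c 0) (a ^ k • expo φ g (c 0) z) =
        gd g (c 0) (expo φ g (c 0) z) := hinv _ _ _
    have p4 := hok k
    have p5 := hde x
    have p6 := hde z
    rw [abs_le]
    constructor <;> linarith
  obtain ⟨lam, K, r, hr, hch⟩ := h1 n G g κ φ M lg a c l V hP (l / (4 * C)) (by positivity)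
  have hpos : ∀ k : ℕ, 1 ≤ k → ∀ x z : V, ‖x‖ < r → ‖z‖ < r →
      0 < gd g (expo φ g (c 0) x) (a ^ k • expo φ g (c 0) z) := by
    intro k hk x z hx hz
    have e1 := (abs_le.1 (hnear k x z)).1
    have e2 : C * (l / (4 * C)) = l / 4 := by field_simp
    have e3 : C * ‖x‖ ≤ l / 4 := by
      rw [← e2]
      exact mul_le_mul_of_nonneg_left (by linarith) hC0.le
    have e4 : C * ‖z‖ ≤ l / 4 := by
      rw [← e2]
      exact mul_le_mul_of_nonneg_left (by linarith) hC0.le
    have e5 : l ≤ k * l := by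
      have : (1 : ℝ) ≤ k := by exact_mod_cast hk
      nlinarith
    linarith
  have hzero : ∀ k : ℕ, Dk g φ a (c 0) l V k 0 0 = 0 := by
    intro k
    unfold Dk
    rw [Submodule.coe_zero, he0, hok, sub_self]
  have hsub : Differentiable ℝ (fun w : V => (w : E n)) := V.subtypeL.differentiable
  have hexp : Differentiable ℝ (fun w : V => expo φ g (c 0) w) :=
    (hes.differentiable (by norm_num)).comp hsub
  have hact : ∀ k : ℕ, Differentiable ℝ (fun w : V => a ^ k • expo φ g (c 0) w) := fun k =>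
    ((hP.coc.smooth (a ^ k)).differentiable (by norm_num)).comp hexp
  refine ⟨lam, K, r, hch, fun x z => rfl, ?_, fun k _ => hzero k, ?_, ?_, ?_⟩
  · intro j k _ _ x w z
    have e1 := hpm.tri (expo φ g (c 0) x) (a ^ j • expo φ g (c 0) w)
      (a ^ (j + k) • expo φ g (c 0) z)
    have e2 : gd g (a ^ j • expo φ g (c 0) w) (a ^ (j + k) • expo φ g (c 0) z) =
        gd g (expo φ g (c 0) w) (a ^ k • expo φ g (c 0) z) := by
      rw [pow_add, mul_smul, hinv]
    unfold Dk
    push_cast
    linarith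
  · intro k hk x z hx hz
    unfold Dk
    exact (gd_comp hP.log (fun _ : V => expo φ g (c 0) x) (fun w : V => a ^ k • expo φ g (c 0) w)
      (differentiable_const _) (hact k) z (hpos k hk x z hx hz)).sub_const _
  · intro k hk x z hx hz
    unfold Dk
    exact (gd_comp hP.log (fun w : V => expo φ g (c 0) w) (fun _ : V => a ^ k • expo φ g (c 0) z)
      hexp (differentiable_const _) x (hpos k hk x z hx hz)).sub_const _
  · refine ⟨30 * C ^ 2, min (ρ / (30 * C)) (l / (120 * C ^ 2)), by positivity, by nlinarith, ?_⟩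
    intro k hk x z hx hz
    obtain ⟨m, hm⟩ : ∃ m : ℝ, m = max ‖x‖ ‖z‖ := ⟨_, rfl⟩
    have hxm : ‖x‖ ≤ m := by rw [hm]; exact le_max_left _ _
    have hzm : ‖z‖ ≤ m := by rw [hm]; exact le_max_right _ _
    have hm1 : m ≤ ρ / (30 * C) := by
      rw [hm]
      exact (max_le hx hz).trans (min_le_left _ _)
    have hm2 : m ≤ l / (120 * C ^ 2) := by
      rw [hm]
      exact (max_le hx hz).trans (min_le_right _ _)
    rw [← hm]
    have hm0 : 0 ≤ m := (norm_nonneg x).trans hxm
    rcases hm0.eq_or_lt with h0 | h0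
    · have hx0 : x = 0 := by
        rw [← norm_le_zero_iff]
        linarith
      have hz0 : z = 0 := by
        rw [← norm_le_zero_iff]
        linarith
      refine ⟨fun _ => 0, hx0.symm, hz0.symm, fun j _ => ?_, ?_⟩
      · rw [norm_zero]
        positivity
      · have e : Lk g φ a (c 0) l V ((0 : V), (0 : V)) = 0 := hzero 1
        change Dk g φ a (c 0) l V k 0 0 =
          ∑ _j ∈ Finset.range k, Lk g φ a (c 0) l V ((0 : V), (0 : V))
        rw [hzero k, e, Finset.sum_const_zero]
    · -- the constants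
      have hm1' : 30 * (C * m) ≤ ρ := by
        rw [le_div_iff₀ (by positivity)] at hm1
        linarith
      have hm2' : C * (30 * (C * m)) ≤ l / 4 := by
        rw [le_div_iff₀ (by positivity)] at hm2
        nlinarith
      obtain ⟨δ₀, hδ₀⟩ : ∃ δ₀ : ℝ, δ₀ = C * m := ⟨_, rfl⟩
      rw [← hδ₀] at hm1' hm2'
      have hδ0 : 0 < δ₀ := by rw [hδ₀]; positivity
      have hmδ : m ≤ δ₀ := by rw [hδ₀]; nlinarith
      have hCδ : 30 * δ₀ ≤ C * (30 * δ₀) := by nlinarith
      have hxd : C * ‖x‖ ≤ δ₀ := by rw [hδ₀]; exact mul_le_mul_of_nonneg_left hxm hC0.le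
      have hzd : C * ‖z‖ ≤ δ₀ := by rw [hδ₀]; exact mul_le_mul_of_nonneg_left hzm hC0.le
      have hk1 : (1 : ℝ) ≤ k := by exact_mod_cast hk
      have hkl : l ≤ k * l := by nlinarith
      have hT := hnear k x z
      obtain ⟨T, hTdef⟩ : ∃ T : ℝ, T = gd g (expo φ g (c 0) x) (a ^ k • expo φ g (c 0) z) :=
        ⟨_, rfl⟩
      rw [← hTdef] at hT
      have hT2 : |T - k * l| ≤ 2 * δ₀ := by linarith
      have hne : expo φ g (c 0) x ≠ a ^ k • expo φ g (c 0) z := by
        intro h
        have e1 : T = 0 := by rw [hTdef, h, hpm.self]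
        rw [e1] at hT2
        have := (abs_le.1 hT2).1
        linarith
      obtain ⟨η, hη, hη0, hηT, -⟩ := hex _ _ hne
      rw [← hTdef] at hηT
      have b0 : gd g (η 0) (c 0) ≤ 3 * δ₀ := by
        rw [hη0, hpm.symm]
        have := hde x
        linarith
      have b1 : gd g (η (k * l)) (c (k * l)) ≤ 3 * δ₀ := by
        have e1 := hpm.tri (η (k * l)) (η T) (c (k * l))
        have e2 : gd g (η (k * l)) (η T) ≤ 2 * δ₀ := by
          rw [hmin η hη, abs_sub_comm]
          exact hT2
        have e3 : gd g (η T) (c (k * l)) ≤ δ₀ := by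
          rw [hηT, ← hper0, hinv, hpm.symm]
          exact (hde z).trans hzd
        linarith
      have hcl := h2 n g κ hCv η c hη hP.ug (k * l) (3 * δ₀) (by positivity) (by positivity) b0 b1
      have key : ∀ j : ℕ, j ≤ k → ∃ (s : ℝ) (u : V), |s - j * l| ≤ C * (30 * δ₀) ∧
          ‖u‖ ≤ C * (30 * δ₀) ∧ η s = a ^ j • expo φ g (c 0) u ∧ (j = 0 → u = x) ∧
          (j = k → u = z) := by
        intro j hj
        rcases Nat.eq_zero_or_pos j with hj0 | hj0
        · subst hj0
          refine ⟨0, x, ?_, by linarith, ?_, fun _ => rfl, fun h => by omega⟩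
          · simp only [Nat.cast_zero, zero_mul, sub_zero, abs_zero]
            positivity
          · rw [pow_zero, one_smul]
            exact hη0
        rcases hj.eq_or_lt with hjk | hjk
        · subst hjk
          exact ⟨T, z, by linarith, by linarith, hηT, fun h => by omega, fun _ => rfl⟩
        · have hj1 : (1 : ℝ) ≤ j := by exact_mod_cast hj0
          have hj2 : (j : ℝ) + 1 ≤ k := by exact_mod_cast hjk
          obtain ⟨t, u, ht, hu, htu⟩ := hcr η j (30 * δ₀) hη.geo.smooth.continuous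
            (by positivity) hm1' (fun t ht => by
              have ht' := abs_le.1 (ht.trans hm2')
              have := hcl (j * l + t) ⟨by nlinarith, by nlinarith⟩
              linarith)
          refine ⟨j * l + t, u, ?_, hu, htu, fun h => by omega, fun h => by omega⟩
          rw [add_sub_cancel_left]
          exact ht
      choose! s u hs1 hu1 hsu hu0 huk using key
      refine ⟨u, hu0 0 (Nat.zero_le k) rfl, huk k le_rfl rfl, ?_, ?_⟩
      · intro j hj
        refine (hu1 j hj).trans (le_of_eq ?_)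
        rw [hδ₀]
        ring
      · refine (h4 n G g κ φ M lg a c l V hP η k u s hη hk hsu ?_).1
        intro j hj
        have e1 := (abs_le.1 ((hs1 j (by omega)).trans hm2')).2
        have e2 := (abs_le.1 ((hs1 (j + 1) (by omega)).trans hm2')).1
        push_cast at e2
        linarith

end Pool.Agent.LX
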