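import Pool.Agent.Work.MP_25cd3b_gt.LX.StmtsB
import Pool.Agent.Work.MP_25cd3b_gt.NG.All

set_option autoImplicit false
set_option maxSynthPendingDepth 3

/-!
# MP_25cd3b_gt, block LX, item BHess: the second variation
-/

open MeasureTheory Set Filter Topology
open scoped ContDiff ENNReal
open Pool.Agent.Work.MP_c9f990_an.Al (IsFlow)

namespace Pool.Agent.LX

open Pool.Agent.MLS Pool.Agent.STR Pool.Agent.LR

namespace IBHess

/-- a line through the origin -/
theorem line {F : Type} [NormedAddCommGroup F] [NormedSpace ℝ F] (v : F) (t : ℝ) :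
    HasDerivAt (fun r : ℝ => r • v) v t := by
  have h := (hasDerivAt_id t).smul_const v
  simpa using h

/-- the exponential map along a line -/
theorem ex_line {n : ℕ} (e : E n → E n) (he : ContDiff ℝ ∞ e) (v : E n)
    (h1 : ∀ u, fderiv ℝ e 0 u = u) : HasDerivAt (fun r : ℝ => e (r • v)) v 0 := by
  have h0 : HasFDerivAt e (fderiv ℝ e ((0 : ℝ) • v)) ((0 : ℝ) • v) :=
    (he.differentiable (by simp) _).hasFDerivAt
  have h := h0.comp_hasDerivAt (0 : ℝ) (line v 0)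
  rw [zero_smul, h1] at h
  exact h

/-- the derivative of the exponential map along a line -/
theorem dex_line {n : ℕ} (e : E n → E n) (he : ContDiff ℝ ∞ e) (v w : E n) :
    HasDerivAt (fun r : ℝ => fderiv ℝ e (r • v) w) (fderiv ℝ (fderiv ℝ e) 0 v w) 0 := by
  have hs : ContDiff ℝ ∞ (fderiv ℝ e) := he.fderiv_right (by simp)
  have h0 : HasFDerivAt (fderiv ℝ e) (fderiv ℝ (fderiv ℝ e) ((0 : ℝ) • v)) ((0 : ℝ) • v) :=
    (hs.differentiable (by simp) _).hasFDerivAt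
  have h := h0.comp_hasDerivAt (0 : ℝ) (line v 0)
  rw [zero_smul] at h
  have h2 := h.clm_apply (hasDerivAt_const (0 : ℝ) w)
  rw [map_zero, add_zero] at h2
  exact h2

/-- the second derivative as a derivative along a line -/
theorem snd {F : Type} [NormedAddCommGroup F] [NormedSpace ℝ F] (f : F → ℝ)
    (hf : ContDiff ℝ ∞ f) (p q : F) :
    HasDerivAt (fun r : ℝ => fderiv ℝ f (r • p) q) (fderiv ℝ (fderiv ℝ f) 0 p q) 0 := by
  have hs : ContDiff ℝ ∞ (fderiv ℝ f) := hf.fderiv_right (by simp)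
  have h0 : HasFDerivAt (fderiv ℝ f) (fderiv ℝ (fderiv ℝ f) ((0 : ℝ) • p)) ((0 : ℝ) • p) :=
    (hs.differentiable (by simp) _).hasFDerivAt
  have h := h0.comp_hasDerivAt (0 : ℝ) (line p 0)
  rw [zero_smul] at h
  have h2 := h.clm_apply (hasDerivAt_const (0 : ℝ) q)
  rw [map_zero, add_zero] at h2
  exact h2

/-- differentiability of the velocity at time one -/
theorem ev_diff {n : ℕ} {g : Form n} (hg : Riem g) {φ : ℝ → W n → W n}
    {M : ℝ → W n → W n →L[ℝ] W n} (hφ : IsFlow (XH (Hm g)) φ M) (x X : ℝ → E n)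
    (hx : ContDiff ℝ ∞ x) (hX : ContDiff ℝ ∞ X) (t : ℝ) :
    DifferentiableAt ℝ (fun r => ev φ g (x r) (X r)) t := by
  obtain ⟨-, -, -, -, -, hop, hiop, -, -⟩ := pr_Op n g hg
  have h1 : ContDiff ℝ ∞ (fun r => (x r, op g (x r) (X r))) :=
    hx.prodMk ((hop.comp hx).clm_apply hX)
  have h2 : DifferentiableAt ℝ (fun r => φ 1 (x r, op g (x r) (X r))) t :=
    (hφ.diff 1 _).differentiableAt.comp t (h1.differentiable (by simp) t)
  have h3 : DifferentiableAt ℝ (fun r => iop g (φ 1 (x r, op g (x r) (X r))).1) t :=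
    (hiop.differentiable (by simp) _).comp t h2.fst
  exact h3.clm_apply h2.snd

/-- derivative of the image of a curve under the group -/
theorem act_deriv {n : ℕ} {G : Type} [Group G] [MulAction G (E n)] (hG : Cocompact n G) (a : G)
    (y : ℝ → E n) (y' : E n) (t : ℝ) (hy : HasDerivAt y y' t) :
    HasDerivAt (fun r => a • y r) (dac a (y t) y') t := by
  have h0 : HasFDerivAt (fun x : E n => a • x) (dac a (y t)) (y t) :=
    ((hG.smooth a).differentiable (by simp) _).hasFDerivAt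
  exact h0.comp_hasDerivAt t hy

/-- differentiability of the image of a field under the group -/
theorem dac_diff {n : ℕ} {G : Type} [Group G] [MulAction G (E n)] (hG : Cocompact n G) (a : G)
    (y Q : ℝ → E n) (t : ℝ) (hy : DifferentiableAt ℝ y t) (hQ : DifferentiableAt ℝ Q t) :
    DifferentiableAt ℝ (fun r => dac a (y r) (Q r)) t := by
  have hs : ContDiff ℝ ∞ (fun x : E n => dac a x) :=
    (hG.smooth a).fderiv_right (by simp)
  have h1 : DifferentiableAt ℝ (fun r => dac a (y r)) t :=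
    (hs.differentiable (by simp) _).comp t hy
  exact h1.clm_apply hQ

end IBHess

open IBHess in
/-- [BHess]: the second variation -/
theorem pr_BHess (h1 : BJm) (h2 : BJs) (h3 : BBv) (h4 : BEx2) (h5 : BVarG) (h6 : BFv) :
    BHess := by
  intro n G _ _ g κ φ M lg a c l V hP v v' w w' J hJ hJ0 hJl
  obtain ⟨hEk, hfv, hlg, -, -, -⟩ := h6 n G g κ φ M lg a c l V hP
  obtain ⟨hex, hex0, hex1, hex2⟩ := h4 n g φ M hP.riem hP.flow (c 0)
  obtain ⟨-, hmet, -⟩ := p_NgMet n g hP.riem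
  have hCv : Cv g κ := ⟨hP.riem, hP.kpos, hP.curv, ⟨φ, M, hP.flow⟩⟩
  -- the curves and fields
  obtain ⟨x, hx⟩ : ∃ x : ℝ → E n, x = fun r => expo φ g (c 0) (r • (v : E n)) := ⟨_, rfl⟩
  obtain ⟨y₀, hy₀⟩ : ∃ y₀ : ℝ → E n, y₀ = fun r => expo φ g (c 0) (r • (v' : E n)) := ⟨_, rfl⟩
  obtain ⟨y, hy⟩ : ∃ y : ℝ → E n, y = fun r => a • y₀ r := ⟨_, rfl⟩
  obtain ⟨P, hPd⟩ : ∃ P : ℝ → E n, P = fun r => fderiv ℝ (expo φ g (c 0)) (r • (v : E n)) w :=
    ⟨_, rfl⟩
  obtain ⟨Q₀, hQ₀⟩ : ∃ Q₀ : ℝ → E n,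
    Q₀ = fun r => fderiv ℝ (expo φ g (c 0)) (r • (v' : E n)) w' := ⟨_, rfl⟩
  obtain ⟨Q, hQ⟩ : ∃ Q : ℝ → E n, Q = fun r => dac a (y₀ r) (Q₀ r) := ⟨_, rfl⟩
  obtain ⟨X, hX⟩ : ∃ X : ℝ → E n, X = fun r => lg (x r) (y r) := ⟨_, rfl⟩
  obtain ⟨Y, hY⟩ : ∃ Y : ℝ → E n, Y = fun r => ev φ g (x r) (X r) := ⟨_, rfl⟩
  have hlin : ∀ u : E n, ContDiff ℝ ∞ (fun r : ℝ => r • u) := fun u =>
    contDiff_id.smul contDiff_const
  have hxs : ContDiff ℝ ∞ x := by rw [hx]; exact hex.comp (hlin _)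
  have hy₀s : ContDiff ℝ ∞ y₀ := by rw [hy₀]; exact hex.comp (hlin _)
  have hys : ContDiff ℝ ∞ y := by rw [hy]; exact (hP.coc.smooth a).comp hy₀s
  have hXs : ContDiff ℝ ∞ X := by
    rw [hX]
    exact hP.log.smooth.comp (hxs.prodMk hys)
  have hx' : HasDerivAt x v 0 := by rw [hx]; exact ex_line _ hex _ hex1
  have hy₀' : HasDerivAt y₀ v' 0 := by rw [hy₀]; exact ex_line _ hex _ hex1
  have hx0 : x 0 = c 0 := by rw [hx]; simp only [zero_smul]; exact hex0
  have hy₀0 : y₀ 0 = c 0 := by rw [hy₀]; simp only [zero_smul]; exact hex0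
  have hy0 : y 0 = a • c 0 := by rw [hy]; simp only; rw [hy₀0]
  have hcl : a • c 0 = c l := by
    have h := hP.per 0
    rw [zero_add] at h
    exact h.symm
  have hy' : HasDerivAt y (dac a (c 0) v') 0 := by
    have h := act_deriv hP.coc a y₀ v' 0 hy₀'
    rw [hy₀0] at h
    rw [hy]
    exact h
  have hP' : HasDerivAt P (-(Ga g (c 0) v w)) 0 := by
    rw [hPd, ← hex2]
    exact dex_line _ hex _ _
  have hQ₀' : HasDerivAt Q₀ (-(Ga g (c 0) v' w')) 0 := by
    rw [hQ₀, ← hex2]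
    exact dex_line _ hex _ _
  have hP0 : P 0 = w := by rw [hPd]; simp only [zero_smul]; exact hex1 _
  have hQ₀0 : Q₀ 0 = w' := by rw [hQ₀]; simp only [zero_smul]; exact hex1 _
  have hQ0 : Q 0 = dac a (c 0) w' := by rw [hQ]; simp only; rw [hy₀0, hQ₀0]
  have hYd : DifferentiableAt ℝ Y 0 := by
    rw [hY]
    exact ev_diff hP.riem hP.flow x X hxs hXs 0
  have hQdf : DifferentiableAt ℝ Q 0 := by
    rw [hQ]
    exact dac_diff hP.coc a y₀ Q₀ 0 hy₀'.differentiableAt hQ₀'.differentiableAt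
  -- covariant derivatives of `P`, `Q`
  have hcP : cov g x P 0 = 0 := by
    unfold cov
    rw [hP'.deriv, hx'.deriv, hx0, hP0]
    exact neg_add_cancel _
  have hcQ₀ : cov g y₀ Q₀ 0 = 0 := by
    unfold cov
    rw [hQ₀'.deriv, hy₀'.deriv, hy₀0, hQ₀0]
    exact neg_add_cancel _
  have hcQ : cov g y Q 0 = 0 := by
    rw [hy, hQ, (h1 n G hP.coc g hP.riem hP.inv a y₀ Q₀).1 0 hy₀'.differentiableAt
      hQ₀'.differentiableAt, hcQ₀, map_zero]
  -- the Jacobi field
  obtain ⟨J₁, -, hJ₁, hJ₁0, hJ₁1, hcX, hcY⟩ := h5 n g φ M lg hP.riem hP.flow hP.log x y hxs hys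
  have hγ : (fun t : ℝ => expo φ g (x 0) (t • lg (x 0) (y 0))) = fun t => c (l * t + 0) := by
    funext t
    have h := (p_NcGx n g φ M hP.riem hP.flow c hP.ug.geo 0 (l * t + 0)).2
    rw [hx0, hy0, hlg, smul_smul, h, sub_zero, add_zero, mul_comm]
  rw [hγ] at hJ₁ hcX hcY
  obtain ⟨hgl, hJl', hcov⟩ := h2 n g hP.riem c J l 0 hP.ug.geo hJ
  have hJJ : J₁ = fun t => J (l * t + 0) := by
    funext t
    refine (((h3 n g κ hCv (fun t => c (l * t + 0)) hgl).1 0 1 zero_ne_one).2 J₁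
      (fun t => J (l * t + 0)) hJ₁ hJl' ?_ ?_ t)
    · rw [hJ₁0, hx'.deriv, mul_zero, add_zero, hJ0]
    · rw [hJ₁1, hy'.deriv, mul_one, add_zero, hJl]
  rw [hJJ] at hcX hcY
  have hcX' : cov g x X 0 = l • cov g c J 0 := by
    rw [hX, hcX, hcov 0, mul_zero, add_zero]
  have hcY' : cov g y Y 0 = l • cov g c J l := by
    have h : Y = fun r => ev φ g (x r) (lg (x r) (y r)) := by rw [hY, hX]
    rw [h, hcY, hcov 1, mul_one, add_zero]
  -- the derivative of the first derivative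
  have hd1 := hmet x X P 0 hx'.differentiableAt (hXs.differentiable (by simp) 0)
    hP'.differentiableAt
  have hd2 := hmet y Y Q 0 hy'.differentiableAt hYd hQdf
  rw [hcP, hcX', hx0, hP0, map_zero, add_zero] at hd1
  rw [hcQ, hcY', hy0, hcl, hQ0, map_zero, add_zero] at hd2
  have hd := hd1.neg.add hd2
  have hF := snd (Ek g φ lg a (c 0) V) hEk ((v, v') : V × V) ((w, w') : V × V)
  have hFe : (fun r : ℝ => fderiv ℝ (Ek g φ lg a (c 0) V) (r • ((v, v') : V × V))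
      ((w, w') : V × V)) =
      fun r => -g.val (x r) (X r) (P r) + g.val (y r) (Y r) (Q r) := by
    funext r
    rw [hfv, hY, hX, hQ, hPd, hy, hx, hQ₀, hy₀]
    rfl
  rw [hFe] at hF
  have h := hF.unique hd
  rw [h, map_smul, map_smul]
  simp only [_root_.smul_apply, smul_eq_mul]
  ring

end Pool.Agent.LX
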