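import Pool.Agent.Work.MP_25cd3b_gt.LX.StmtsB
import Pool.Agent.Work.MP_25cd3b_gt.NG.All

set_option autoImplicit false
set_option maxSynthPendingDepth 3

/-!
# MP_25cd3b_gt, block LX, item BJm: isometries and covariant derivatives
-/

open MeasureTheory Set Filter Topology
open scoped ContDiff ENNReal
open Pool.Agent.Work.MP_c9f990_an.Al (IsFlow)

namespace Pool.Agent.LX

open Pool.Agent.MLS Pool.Agent.STR Pool.Agent.LR

namespace IBJm

/-- the derivative of the action is smooth -/
theorem dac_smooth {n : ℕ} {G : Type} [Group G] [MulAction G (E n)] (hG : Cocompact n G) (a : G) :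
    ContDiff ℝ ∞ (fun x : E n => dac a x) :=
  (hG.smooth a).fderiv_right (by simp)

/-- the velocity of the image of a curve -/
theorem act_deriv {n : ℕ} {G : Type} [Group G] [MulAction G (E n)] (hG : Cocompact n G) (a : G)
    (c : ℝ → E n) (t : ℝ) (hc : DifferentiableAt ℝ c t) :
    deriv (fun s => a • c s) t = dac a (c t) (deriv c t) := by
  have h0 : HasFDerivAt (fun x : E n => a • x) (dac a (c t)) (c t) :=
    ((hG.smooth a).differentiable (by simp) _).hasFDerivAt
  exact (h0.comp_hasDerivAt t hc.hasDerivAt).deriv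

/-- the covariant derivative of the image of a field -/
theorem cov_act {n : ℕ} {G : Type} [Group G] [MulAction G (E n)] (hG : Cocompact n G)
    (g : Form n) (hg : Riem g) (hI : Inv G g) (a : G) (c X : ℝ → E n) (t : ℝ)
    (hc : DifferentiableAt ℝ c t) (hX : DifferentiableAt ℝ X t) :
    cov g (fun s => a • c s) (fun s => dac a (c s) (X s)) t = dac a (c t) (cov g c X t) := by
  have h0 : HasFDerivAt (fun x : E n => dac a x) (fderiv ℝ (fun x : E n => dac a x) (c t))
      (c t) := ((dac_smooth hG a).differentiable (by simp) _).hasFDerivAt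
  have h1 := (h0.comp_hasDerivAt t hc.hasDerivAt).clm_apply hX.hasDerivAt
  have h2 : deriv (fun s => dac a (c s) (X s)) t =
      fderiv ℝ (fun x : E n => dac a x) (c t) (deriv c t) (X t) + dac a (c t) (deriv X t) :=
    h1.deriv
  have h3 : dac a (c t) (Ga g (c t) (deriv c t) (X t)) =
      fderiv ℝ (fun x : E n => dac a x) (c t) (deriv c t) (X t) +
        Ga g (a • c t) (dac a (c t) (deriv c t)) (dac a (c t) (X t)) :=
    p_NgGaN n g (fun x : E n => a • x) hg (hG.smooth a) (fun x u v => hI a x u v) (c t)
      (deriv c t) (X t)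
  unfold cov
  rw [h2, act_deriv hG a c t hc, map_add, h3]
  abel

end IBJm

open IBJm in
/-- [BJm]: isometries and covariant derivatives -/
theorem pr_BJm : BJm := by
  intro n G _ _ hG g hg hI a c X
  refine ⟨fun t hc hX => cov_act hG g hg hI a c X t hc hX, fun hc hX => ?_⟩
  have hcs : ContDiff ℝ 2 c := hc.smooth
  have hXs : ContDiff ℝ 2 X := hX.smooth
  have hcd : ∀ t, DifferentiableAt ℝ c t := fun t => hcs.differentiable (by simp) t
  have hXd : ∀ t, DifferentiableAt ℝ X t := fun t => hXs.differentiable (by simp) t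
  obtain ⟨hGa, -, -, -⟩ := p_NcGa n g hg
  have hd2 : ∀ f : ℝ → E n, ContDiff ℝ 2 f → ∀ t, DifferentiableAt ℝ (deriv f) t := by
    intro f hf t
    have h : ContDiff ℝ (1 + 1) f := by
      rw [one_add_one_eq_two]; exact hf
    exact (contDiff_succ_iff_deriv.1 h).2.2.differentiable (by simp) t
  have hcov : ∀ t, DifferentiableAt ℝ (cov g c X) t := by
    intro t
    have h1 : DifferentiableAt ℝ (fun s => Ga g (c s)) t :=
      (hGa.differentiable (by simp) _).comp t (hcd t)
    have h2 : DifferentiableAt ℝ (fun s => deriv X s + Ga g (c s) (deriv c s) (X s)) t :=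
      (hd2 X hXs t).add ((h1.clm_apply (hd2 c hcs t)).clm_apply (hXd t))
    exact h2
  refine ⟨?_, fun t => ?_⟩
  · have h := contDiff_infty.1 (dac_smooth hG a) 2
    exact ((h.comp hcs).clm_apply hXs)
  · have e1 : cov g (fun s => a • c s) (fun s => dac a (c s) (X s)) =
        fun s => dac a (c s) (cov g c X s) := by
      funext s
      exact cov_act hG g hg hI a c X s (hcd s) (hXd s)
    rw [e1, cov_act hG g hg hI a c (cov g c X) t (hcd t) (hcov t), act_deriv hG a c t (hcd t)]
    have e2 : dac a (c t) (Rm g (c t) (X t) (deriv c t) (deriv c t)) =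
        Rm g (a • c t) (dac a (c t) (X t)) (dac a (c t) (deriv c t))
          (dac a (c t) (deriv c t)) :=
      p_NgRN n g (fun x : E n => a • x) hg (hG.smooth a) (fun x u v => hI a x u v) (c t)
        (X t) (deriv c t) (deriv c t)
    rw [← e2, ← map_add, hX.jac t, map_zero]

end Pool.Agent.LX
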