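import Pool.Agent.Work.MP_25cd3b_gt.LX.StmtsB
import Pool.Agent.Work.MP_25cd3b_gt.NG.All

set_option autoImplicit false

/-!
# MP_25cd3b_gt, block LX, item BOrt: orthogonal Jacobi fields
-/

open MeasureTheory Set Filter Topology
open scoped ContDiff ENNReal

namespace Pool.Agent.LX

open Pool.Agent.MLS Pool.Agent.STR Pool.Agent.LR

namespace IBOrt

variable {n : ℕ}

theorem smooth_aux (g : Form n) (hg : Riem g) (c J : ℝ → E n) (hc : IsGeo g c)
    (hJ : IsJac g c J) : Differentiable ℝ c ∧ Differentiable ℝ J ∧ Differentiable ℝ (deriv c) ∧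
    Differentiable ℝ (cov g c J) := by
  obtain ⟨hGa, -, -, -⟩ := p_NcGa n g hg
  have hc1 : Differentiable ℝ c := hc.smooth.differentiable (by norm_num)
  have hJ1 : Differentiable ℝ J := hJ.smooth.differentiable (by norm_num)
  have hc2 : ContDiff ℝ 1 (deriv c) := by
    have := hc.smooth
    rw [show (2 : WithTop ℕ∞) = 1 + 1 by norm_num, contDiff_succ_iff_deriv] at this
    exact this.2.2
  have hJ2 : ContDiff ℝ 1 (deriv J) := by
    have := hJ.smooth
    rw [show (2 : WithTop ℕ∞) = 1 + 1 by norm_num, contDiff_succ_iff_deriv] at this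
    exact this.2.2
  have hY : ContDiff ℝ 1 (cov g c J) := by
    have k1 : ContDiff ℝ 1 fun t => Ga g (c t) :=
      (hGa.of_le (by norm_num)).comp (hc.smooth.of_le (by norm_num))
    exact hJ2.add ((k1.clm_apply hc2).clm_apply (hJ.smooth.of_le (by norm_num)))
  exact ⟨hc1, hJ1, hc2.differentiable (by norm_num), hY.differentiable (by norm_num)⟩

/-- the two derivatives of `g(c', J)` -/
theorem deriv_aux (g : Form n) (hg : Riem g) (c J : ℝ → E n) (hc : IsGeo g c)
    (hJ : IsJac g c J) :
    (∀ t, HasDerivAt (fun s => g.val (c s) (deriv c s) (J s))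
      (g.val (c t) (deriv c t) (cov g c J t)) t) ∧
    ∀ t, HasDerivAt (fun s => g.val (c s) (deriv c s) (cov g c J s)) 0 t := by
  obtain ⟨hc1, hJ1, hc2, hY⟩ := smooth_aux g hg c J hc hJ
  obtain ⟨-, hM, hM3⟩ := p_NgMet n g hg
  obtain ⟨-, hA, -⟩ := p_NgAlg n g hg
  constructor
  · intro t
    have := hM c (deriv c) J t (hc1 t) (hc2 t) (hJ1 t)
    rw [hM3 c hc t] at this
    simpa using this
  · intro t
    have := hM c (deriv c) (cov g c J) t (hc1 t) (hc2 t) (hY t)
    rw [hM3 c hc t] at this
    have k1 : cov g c (cov g c J) t = -Rm g (c t) (J t) (deriv c t) (deriv c t) :=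
      eq_neg_of_add_eq_zero_left (hJ.jac t)
    have k2 : g.val (c t) (deriv c t) (cov g c (cov g c J) t) = 0 := by
      rw [k1, map_neg, g.symm, hA, neg_zero]
    rw [k2] at this
    simpa using this

/-- `g(c', J)` is affine -/
theorem affine (g : Form n) (hg : Riem g) (c J : ℝ → E n) (hc : IsGeo g c)
    (hJ : IsJac g c J) (t₀ : ℝ) :
    (∀ t, g.val (c t) (deriv c t) (cov g c J t) =
      g.val (c t₀) (deriv c t₀) (cov g c J t₀)) ∧
    ∀ t, g.val (c t) (deriv c t) (J t) = g.val (c t₀) (deriv c t₀) (J t₀) +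
      g.val (c t₀) (deriv c t₀) (cov g c J t₀) * (t - t₀) := by
  obtain ⟨h1, h2⟩ := deriv_aux g hg c J hc hJ
  have h3 : ∀ t, g.val (c t) (deriv c t) (cov g c J t) =
      g.val (c t₀) (deriv c t₀) (cov g c J t₀) := fun t =>
    is_const_of_deriv_eq_zero (fun s => (h2 s).differentiableAt) (fun s => (h2 s).deriv) t t₀
  refine ⟨h3, fun t => ?_⟩
  set b : ℝ := g.val (c t₀) (deriv c t₀) (cov g c J t₀) with hb
  have h4 : ∀ s, HasDerivAt (fun s => g.val (c s) (deriv c s) (J s) - b * (s - t₀)) 0 s := by
    intro s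
    have k1 := (h1 s).sub (((hasDerivAt_id s).sub_const t₀).const_mul b)
    rw [h3 s] at k1
    have e : b - b * 1 = 0 := by ring
    rw [e] at k1
    exact k1
  have h5 := is_const_of_deriv_eq_zero (fun s => (h4 s).differentiableAt)
    (fun s => (h4 s).deriv) t t₀
  simp only [sub_self, mul_zero, sub_zero] at h5
  linarith

end IBOrt

open IBOrt in
/-- item BOrt -/
theorem pr_BOrt : BOrt := by
  intro n g κ hCv c J hc hJ
  have hg := hCv.riem
  refine ⟨?_, ?_, ?_⟩
  · intro t₀ t₁ hne h0 h1
    refine ⟨hJ, fun t => ?_⟩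
    obtain ⟨-, h2⟩ := affine g hg c J hc.geo hJ t₀
    have h3 := h2 t₁
    rw [h0, h1, zero_add] at h3
    have h4 : g.val (c t₀) (deriv c t₀) (cov g c J t₀) = 0 := by
      rcases mul_eq_zero.1 h3.symm with h | h
      · exact h
      · exact absurd (sub_eq_zero.1 h).symm hne
    rw [h2 t, h0, h4, zero_mul, add_zero]
  · intro t₀ h0 h1
    refine ⟨hJ, fun t => ?_⟩
    obtain ⟨-, h2⟩ := affine g hg c J hc.geo hJ t₀
    rw [h2 t, h0, h1, zero_mul, add_zero]
  · intro hN
    obtain ⟨hc1, hJ1, hc2, hY⟩ := smooth_aux g hg c J hc.geo hJ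
    obtain ⟨hd1, -⟩ := deriv_aux g hg c J hc.geo hJ
    obtain ⟨-, hM, -⟩ := p_NgMet n g hg
    refine ⟨fun t => ?_, ?_⟩
    · have k1 : HasDerivAt (fun s => g.val (c s) (deriv c s) (J s)) 0 t := by
        have e : (fun s => g.val (c s) (deriv c s) (J s)) = fun _ => (0 : ℝ) := by
          funext s
          exact hN.ort s
        rw [e]
        exact hasDerivAt_const t 0
      exact (hd1 t).unique k1
    · have hp : ∀ t, HasDerivAt (fun s => g.val (c s) (cov g c J s) (J s))
          (g.val (c t) (cov g c (cov g c J) t) (J t) +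
            g.val (c t) (cov g c J t) (cov g c J t)) t := fun t =>
        hM c (cov g c J) J t (hc1 t) (hY t) (hJ1 t)
      have hpn : ∀ t, κ ^ 2 * g.val (c t) (J t) (J t) ≤
          g.val (c t) (cov g c (cov g c J) t) (J t) +
          g.val (c t) (cov g c J t) (cov g c J t) := by
        intro t
        have k1 : cov g c (cov g c J) t = -Rm g (c t) (J t) (deriv c t) (deriv c t) :=
          eq_neg_of_add_eq_zero_left (hJ.jac t)
        have k2 : Kn g (c t) (J t) (deriv c t) ≤ -κ ^ 2 * Ar g (c t) (J t) (deriv c t) :=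
          hCv.curv _ _ _
        have k5 : Ar g (c t) (J t) (deriv c t) = g.val (c t) (J t) (J t) := by
          unfold Ar
          rw [hc.unit t, g.symm (c t) (J t) (deriv c t), hN.ort t]
          ring
        have k3 : g.val (c t) (cov g c (cov g c J) t) (J t) = -Kn g (c t) (J t) (deriv c t) := by
          rw [k1, map_neg]
          rfl
        rw [k5] at k2
        rw [k3]
        have k4 := g.nonneg (c t) (cov g c J t)
        linarith
      have hpos : ∀ t, 0 ≤ κ ^ 2 * g.val (c t) (J t) (J t) := fun t =>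
        mul_nonneg (sq_nonneg κ) (g.nonneg _ _)
      have hmono : Monotone fun s => g.val (c s) (cov g c J s) (J s) := by
        refine monotone_of_deriv_nonneg (fun t => (hp t).differentiableAt) fun t => ?_
        rw [(hp t).deriv]
        exact (hpos t).trans (hpn t)
      intro t₀ t₁ hlt
      refine ⟨hmono hlt.le, fun heq => ?_⟩
      have hzero : ∀ t ∈ Ioo t₀ t₁, J t = 0 := by
        intro t ht
        have k1 : (fun s => g.val (c s) (cov g c J s) (J s)) =ᶠ[𝓝 t]
            fun _ => g.val (c t₀) (cov g c J t₀) (J t₀) := by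
          filter_upwards [isOpen_Ioo.mem_nhds ht] with s hs
          refine le_antisymm ?_ (hmono hs.1.le)
          rw [heq]
          exact hmono hs.2.le
        have k2 := (hp t).deriv
        rw [k1.deriv_eq, deriv_const] at k2
        have k3 := hpn t
        rw [← k2] at k3
        by_contra hne
        have k4 := hg (c t) (J t) hne
        have k5 : 0 < κ ^ 2 := pow_pos hCv.pos 2
        have k6 := mul_pos k5 k4
        linarith
      intro t ht
      have hcl : IsClosed {s | J s = 0} := isClosed_eq hJ1.continuous continuous_const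
      have hsub : Icc t₀ t₁ ⊆ {s | J s = 0} := by
        rw [← closure_Ioo hlt.ne]
        exact hcl.closure_subset_iff.2 hzero
      exact hsub ht

end Pool.Agent.LX
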