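import Pool.Agent.Work.MP_25cd3b_gt.LX.StmtsB

set_option autoImplicit false

/-!
# MP_25cd3b_gt, block LX: item BPos (formula and positivity of the second derivative)
-/

open MeasureTheory Set Filter Topology
open scoped ContDiff ENNReal
open Pool.Agent.Work.MP_c9f990_an.Al (IsFlow)

namespace Pool.Agent.LX

open Pool.Agent.MLS Pool.Agent.STR Pool.Agent.LR

namespace IBPos

/-- the velocity at the other end of the period -/
theorem velo {n : ℕ} {G : Type} [Group G] [MulAction G (E n)] (hc : Cocompact n G) (a : G)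
    (c : ℝ → E n) (l : ℝ) (hs : ContDiff ℝ 2 c) (per : ∀ t, c (t + l) = a • c t) :
    deriv c l = dac a (c 0) (deriv c 0) := by
  have hd : ∀ t, HasDerivAt c (deriv c t) t := fun t =>
    ((hs.differentiable (by norm_num)) t).hasDerivAt
  have h1 : HasDerivAt (fun t => c (t + l)) (deriv c l) 0 := by
    have h := (hd (0 + l)).comp_add_const 0 l
    simpa using h
  have h2 : HasDerivAt (fun t => a • c t) (dac a (c 0) (deriv c 0)) 0 := by
    have h := ((hc.smooth a).differentiable (by norm_num) (c 0)).hasFDerivAt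
    exact h.comp_hasDerivAt 0 (hd 0)
  have h3 : (fun t => c (t + l)) = fun t => a • c t := funext per
  rw [h3] at h1
  exact h1.unique h2

/-- a positive bilinear form is bounded from below by a multiple of the square of the norm -/
theorem quad {V : Type} [NormedAddCommGroup V] [NormedSpace ℝ V] [FiniteDimensional ℝ V]
    (H : Bf V) (hp : ∀ p : V × V, p ≠ 0 → 0 < H p p) :
    ∃ lam : ℝ, 0 < lam ∧ ∀ v w : V, lam * (‖v‖ ^ 2 + ‖w‖ ^ 2) ≤ H (v, w) (v, w) := by
  have hc : Continuous fun p : V × V => H p p := H.continuous.clm_apply continuous_id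
  have hps : ProperSpace (V × V) := FiniteDimensional.proper ℝ (V × V)
  have hK : IsCompact (Metric.sphere (0 : V × V) 1) := isCompact_sphere 0 1
  have hunit : ∀ p : V × V, p ≠ 0 → (‖p‖⁻¹ • p) ∈ Metric.sphere (0 : V × V) 1 := by
    intro p hp0
    have hn : 0 < ‖p‖ := norm_pos_iff.mpr hp0
    rw [mem_sphere_zero_iff_norm, norm_smul, norm_inv, norm_norm, inv_mul_cancel₀ hn.ne']
  rcases (Metric.sphere (0 : V × V) 1).eq_empty_or_nonempty with he | hne
  · refine ⟨1, one_pos, fun v w => ?_⟩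
    have h0 : ((v, w) : V × V) = 0 := by
      by_contra hp0
      have h := hunit _ hp0
      rw [he] at h
      exact h
    have hv : v = 0 := congrArg Prod.fst h0
    have hw : w = 0 := congrArg Prod.snd h0
    subst hv
    subst hw
    have : ((0 : V), (0 : V)) = (0 : V × V) := rfl
    rw [this]
    simp
  · obtain ⟨p0, hp0, hmin⟩ := hK.exists_isMinOn hne hc.continuousOn
    have hp0' : p0 ≠ 0 := by
      rintro rfl
      simp at hp0
    have hpos := hp p0 hp0'
    have key : ∀ p : V × V, H p0 p0 * ‖p‖ ^ 2 ≤ H p p := by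
      intro p
      by_cases h : p = 0
      · simp [h]
      · have hn : 0 < ‖p‖ := norm_pos_iff.mpr h
        have hm : H p0 p0 ≤ H (‖p‖⁻¹ • p) (‖p‖⁻¹ • p) := hmin (hunit p h)
        have e : H (‖p‖⁻¹ • p) (‖p‖⁻¹ • p) = (‖p‖ ^ 2)⁻¹ * H p p := by
          rw [map_smul, map_smul, smul_apply, smul_eq_mul, smul_eq_mul,
            ← mul_assoc, ← mul_inv, sq]
        rw [e] at hm
        have h2 : H p0 p0 * ‖p‖ ^ 2 ≤ (‖p‖ ^ 2)⁻¹ * H p p * ‖p‖ ^ 2 :=
          mul_le_mul_of_nonneg_right hm (by positivity)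
        have h3 : (‖p‖ ^ 2)⁻¹ * H p p * ‖p‖ ^ 2 = H p p := by
          field_simp
        rw [h3] at h2
        exact h2
    refine ⟨H p0 p0 / 2, by positivity, fun v w => ?_⟩
    have h1 : ‖v‖ ≤ ‖((v, w) : V × V)‖ := norm_fst_le (v, w)
    have h2 : ‖w‖ ≤ ‖((v, w) : V × V)‖ := norm_snd_le (v, w)
    have h3 : ‖v‖ ^ 2 ≤ ‖((v, w) : V × V)‖ ^ 2 := pow_le_pow_left₀ (norm_nonneg _) h1 2
    have h4 : ‖w‖ ^ 2 ≤ ‖((v, w) : V × V)‖ ^ 2 := pow_le_pow_left₀ (norm_nonneg _) h2 2
    have h5 := key (v, w)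
    nlinarith

end IBPos

theorem pr_BPos (h1 : BSm) (h2 : BHess) (h3 : BBv) (h4 : BOrt) : BPos := by
  intro n G _ _ g κ φ M lg a c l V P
  have hform : ∀ (v v' w w' : V) (J : ℝ → E n), IsJac g c J → J 0 = v → J l = dac a (c 0) v' →
      HH g φ a (c 0) l V (v, v') (w, w') =
        g.val (c l) (cov g c J l) (dac a (c 0) w') - g.val (c 0) (cov g c J 0) w := by
    intro v v' w w' J hJ hJ0 hJl
    rw [(h1 n G g κ φ M lg a c l V P).2.2.2 (v, v') (w, w'),
      h2 n G g κ φ M lg a c l V P v v' w w' J hJ hJ0 hJl, ← mul_assoc, inv_mul_cancel₀ P.pos.ne',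
      one_mul]
  refine ⟨hform, ?_⟩
  have hCv : Cv g κ := ⟨P.riem, P.kpos, P.curv, φ, M, P.flow⟩
  have hvel : deriv c l = dac a (c 0) (deriv c 0) :=
    IBPos.velo P.coc a c l P.ug.geo.smooth P.per
  have hcl : c l = a • c 0 := by
    have h := P.per 0
    rwa [zero_add] at h
  have hpos : ∀ p : V × V, p ≠ 0 → 0 < HH g φ a (c 0) l V p p := by
    rintro ⟨v, v'⟩ hp
    obtain ⟨J, hJ, hJ0, hJl⟩ := ((h3 n g κ hCv c P.ug.geo).1 0 l P.pos.ne).1 (v : E n)
      (dac a (c 0) (v' : E n))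
    have hO := h4 n g κ hCv c J P.ug hJ
    have hNJ : NJ g c J := by
      refine hO.1 0 l P.pos.ne ?_ ?_
      · rw [hJ0]
        exact (P.mem v).1 v.2
      · rw [hJl, hvel, hcl, P.inv]
        exact (P.mem v').1 v'.2
    obtain ⟨hle, heq⟩ := (hO.2.2 hNJ).2 0 l P.pos
    rw [hform v v' v v' J hJ hJ0 hJl, ← hJl, ← hJ0, sub_pos]
    refine lt_of_le_of_ne hle fun he => hp ?_
    have hz := heq he
    have hv : (v : E n) = 0 := by
      rw [← hJ0]
      exact hz 0 ⟨le_rfl, P.pos.le⟩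
    have hv' : (v' : E n) = 0 := by
      by_contra hne
      have hr := P.riem (c 0) v' hne
      have hi := P.inv a (c 0) v' v'
      rw [← hJl, hz l ⟨P.pos.le, le_rfl⟩] at hi
      simp only [map_zero] at hi
      rw [← hi] at hr
      exact lt_irrefl _ hr
    rw [Prod.ext_iff]
    exact ⟨Subtype.ext hv, Subtype.ext hv'⟩
  obtain ⟨lam, hl, hq⟩ := IBPos.quad (HH g φ a (c 0) l V) hpos
  refine ⟨lam, hl, ⟨fun p q => ?_, hq⟩⟩
  obtain ⟨r, hr, hs⟩ := (h1 n G g κ φ M lg a c l V P).2.2.1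
  have hs0 := hs 0 (by rw [norm_zero]; exact hr)
  have hsym : IsSymmSndFDerivAt ℝ (Lk g φ a (c 0) l V) 0 :=
    hs0.isSymmSndFDerivAt
      (by
        rw [minSmoothness_of_isRCLikeNormedField]
        exact WithTop.coe_le_coe.2 (le_top : (2 : ℕ∞) ≤ ⊤))
  exact hsym p q

end Pool.Agent.LX

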