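import Pool.Agent.Work.MP_25cd3b_gt.LX.StmtsB
import Pool.Agent.Work.MP_25cd3b_gt.M.I_InvD
import Pool.Agent.Work.MP_25cd3b_gt.M.I_Gd

set_option autoImplicit false

/-!
# MP_25cd3b_gt, block LX, item BRev: reversal of a closed geodesic
-/

open MeasureTheory Set Filter Topology
open scoped ContDiff ENNReal
open Pool.Agent.Work.MP_c9f990_an.Al (IsFlow)

namespace Pool.Agent.LX

open Pool.Agent.MLS Pool.Agent.STR Pool.Agent.LR

namespace IBRev

theorem per_rev (h3 : StUG) {n : ℕ} {G : Type} [Group G] [MulAction G (E n)] {g : Form n}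
    {κ : ℝ} {φ : ℝ → W n → W n} {M : ℝ → W n → W n →L[ℝ] W n} {lg : E n → E n → E n} {a : G}
    {c : ℝ → E n} {l : ℝ} {V : Submodule ℝ (E n)} (hP : Per n G g κ φ M lg a c l V) :
    Per n G g κ φ M lg a⁻¹ (fun t => c (-t)) l V where
  coc := hP.coc
  riem := hP.riem
  inv := hP.inv
  kpos := hP.kpos
  curv := hP.curv
  flow := hP.flow
  log := hP.log
  ug := by
    have h := (h3 n g c hP.ug).2.1 0
    simp only [zero_sub] at h
    exact h
  pos := hP.pos
  per := by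
    intro t
    have h := hP.per (-(t + l))
    rw [show -(t + l) + l = -t by ring] at h
    rw [h, inv_smul_smul]
  mem := by
    intro v
    rw [hP.mem v, deriv_comp_neg, neg_zero, map_neg]
    show _ ↔ -(g.val (c 0) (deriv c 0) v) = 0
    rw [neg_eq_zero]

theorem dk_rev {n : ℕ} {G : Type} [Group G] [MulAction G (E n)] {g : Form n}
    {κ : ℝ} {φ : ℝ → W n → W n} {M : ℝ → W n → W n →L[ℝ] W n} {lg : E n → E n → E n} {a : G}
    {c : ℝ → E n} {l : ℝ} {V : Submodule ℝ (E n)} (hP : Per n G g κ φ M lg a c l V)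
    (k : ℕ) (x z : V) : Dk g φ a⁻¹ (c 0) l V k x z = Dk g φ a (c 0) l V k z x := by
  have h1 := (pr_InvD n G hP.coc g hP.inv).2 (a ^ k) (expo φ g (c 0) x)
    (a⁻¹ ^ k • expo φ g (c 0) z)
  rw [inv_pow, smul_inv_smul] at h1
  have h2 := (pr_Gd n g).2.1
  unfold Dk
  rw [inv_pow, ← h1, h2.symm]

end IBRev

open IBRev in
theorem pr_BRev (h1 : BGen) (h2 : YRev) (h3 : StUG) : BRev := by
  intro n G _ _ g κ φ M lg a c l V hP
  refine ⟨per_rev h3 hP, dk_rev hP, fun s hs => ?_⟩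
  obtain ⟨lam, K, r, hG⟩ := h1 n G g κ φ M lg a c l V hP
  obtain ⟨L1', L2', hG', hgr⟩ := h2 V lam K r _ _ _ _ hG
  have hL : Lk g φ a⁻¹ (c 0) l V = fun p : V × V => Lk g φ a (c 0) l V (p.2, p.1) := by
    funext p
    exact dk_rev hP 1 p.1 p.2
  have hr := hG'.ch.r_pos
  have hev : fderiv ℝ (Lk g φ a⁻¹ (c 0) l V) =ᶠ[𝓝 0] L1' := by
    rw [hL]
    filter_upwards [Metric.ball_mem_nhds (0 : V × V) hr] with p hp
    rw [mem_ball_zero_iff] at hp
    exact (hG'.ch.d1 p hp).fderiv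
  have hH : HH g φ a⁻¹ (c 0) l V = L2' 0 := by
    unfold HH
    rw [hev.fderiv_eq]
    exact (hG'.ch.d2 0 (by rw [norm_zero]; exact hr)).fderiv
  rw [hH]
  exact hgr s hs

end Pool.Agent.LX
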