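import Pool.Agent.Work.MP_25cd3b_gt.LX.StmtsB

set_option autoImplicit false

/-!
# MP_25cd3b_gt, block LX, item BSm: the generating function
-/

open MeasureTheory Set Filter Topology
open scoped ContDiff ENNReal
open Pool.Agent.Work.MP_c9f990_an.Al (IsFlow)

namespace Pool.Agent.LX

open Pool.Agent.MLS Pool.Agent.STR Pool.Agent.LR

namespace IBSm

/-- the square root of twice a smooth function at a critical point -/
theorem sqrtfun {P : Type} [NormedAddCommGroup P] [NormedSpace ℝ P] {f : P → ℝ} {l : ℝ}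
    (hf : ContDiff ℝ ∞ f) (hl : 0 < l) (h0 : f 0 = l ^ 2 / 2) (hd : fderiv ℝ f 0 = 0) :
    Real.sqrt (2 * f 0) - l = 0 ∧ fderiv ℝ (fun p => Real.sqrt (2 * f p) - l) 0 = 0 ∧
    (∃ r : ℝ, 0 < r ∧ ∀ p : P, ‖p‖ < r → ContDiffAt ℝ ∞ (fun p => Real.sqrt (2 * f p) - l) p) ∧
    ∀ p q : P, fderiv ℝ (fderiv ℝ (fun p => Real.sqrt (2 * f p) - l)) 0 p q =
      l⁻¹ * fderiv ℝ (fderiv ℝ f) 0 p q := by
  have hs0 : Real.sqrt (2 * f 0) = l := by
    rw [h0, mul_div_cancel₀ _ (two_ne_zero' ℝ), Real.sqrt_sq hl.le]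
  have hpos : ∀ᶠ p in 𝓝 (0 : P), 0 < f p := by
    have h1 : 0 < f 0 := by
      rw [h0]
      positivity
    exact hf.continuous.continuousAt.eventually (lt_mem_nhds h1)
  have hfd : Differentiable ℝ f := hf.differentiable (by simp)
  have hder : ∀ p, 0 < f p → HasFDerivAt (fun p => Real.sqrt (2 * f p) - l)
      ((1 / (2 * Real.sqrt (2 * f p))) • ((2 : ℝ) • fderiv ℝ f p)) p := by
    intro p hp
    have h1 : HasFDerivAt (fun p => 2 * f p) ((2 : ℝ) • fderiv ℝ f p) p :=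
      (hfd p).hasFDerivAt.const_mul 2
    exact (h1.sqrt (by positivity)).sub_const l
  have hev : fderiv ℝ (fun p => Real.sqrt (2 * f p) - l) =ᶠ[𝓝 0]
      fun p => (1 / (2 * Real.sqrt (2 * f p))) • ((2 : ℝ) • fderiv ℝ f p) := by
    filter_upwards [hpos] with p hp
    exact (hder p hp).fderiv
  refine ⟨by rw [hs0, sub_self], ?_, ?_, ?_⟩
  · have h1 := hev.self_of_nhds
    rw [h1]
    change (1 / (2 * Real.sqrt (2 * f 0))) • ((2 : ℝ) • fderiv ℝ f 0) = 0
    rw [hd, smul_zero, smul_zero]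
  · obtain ⟨r, hr, hrb⟩ := Metric.eventually_nhds_iff.1 hpos
    refine ⟨r, hr, fun p hp => ?_⟩
    have h1 : 0 < f p := hrb (by rwa [dist_zero_right])
    exact ((contDiffAt_const.mul hf.contDiffAt).sqrt (by positivity)).sub contDiffAt_const
  · intro p q
    have hu : DifferentiableAt ℝ (fun p => 1 / (2 * Real.sqrt (2 * f p))) 0 := by
      have h1 : DifferentiableAt ℝ (fun p => Real.sqrt (2 * f p)) 0 :=
        ((hfd 0).const_mul 2).sqrt (by rw [h0]; positivity)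
      have h2 : DifferentiableAt ℝ (fun p => 2 * Real.sqrt (2 * f p)) 0 := h1.const_mul 2
      simp only [one_div]
      exact h2.inv (by rw [hs0]; positivity)
    have hfd2 : ContDiff ℝ ∞ (fderiv ℝ f) := hf.fderiv_right (by simp)
    have hw : HasFDerivAt (fun p => (2 : ℝ) • fderiv ℝ f p) ((2 : ℝ) • fderiv ℝ (fderiv ℝ f) 0) 0 :=
      ((hfd2.differentiable (by simp)) 0).hasFDerivAt.fun_const_smul (2 : ℝ)
    have h3 := hu.hasFDerivAt.smul hw
    have h4 : fderiv ℝ (fderiv ℝ (fun p => Real.sqrt (2 * f p) - l)) 0 =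
        (1 / (2 * Real.sqrt (2 * f 0))) • ((2 : ℝ) • fderiv ℝ (fderiv ℝ f) 0) +
          (fderiv ℝ (fun p => 1 / (2 * Real.sqrt (2 * f p))) 0).smulRight
            ((2 : ℝ) • fderiv ℝ f 0) := by
      rw [hev.fderiv_eq]
      exact h3.fderiv
    rw [h4, hd, hs0, smul_zero]
    have h5 : (fderiv ℝ (fun p => 1 / (2 * Real.sqrt (2 * f p))) 0).smulRight
        (0 : P →L[ℝ] ℝ) = 0 := by
      ext
      simp
    rw [h5, add_zero, smul_smul]
    have h6 : 1 / (2 * l) * 2 = l⁻¹ := by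
      field_simp
    rw [h6]
    simp

end IBSm

/-- Item BSm. -/
theorem pr_BSm (hFv : BFv) (hEx : BEx2) : BSm := by
  intro n G _ _ g κ φ M lg a c l V hP
  obtain ⟨hEs, -, hlg, -, -, hEd⟩ := hFv n G g κ φ M lg a c l V hP
  obtain ⟨-, hex0, -, -⟩ := hEx n g φ M hP.riem hP.flow (c 0)
  have hE0 : Ek g φ lg a (c 0) V 0 = l ^ 2 / 2 := by
    have hu := hP.ug.unit 0
    unfold Ek
    simp only [Prod.fst_zero, Prod.snd_zero, ZeroMemClass.coe_zero, hex0, hlg, map_smul,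
      smul_apply, smul_eq_mul, hu]
    ring
  have hL : Lk g φ a (c 0) l V = fun p => Real.sqrt (2 * Ek g φ lg a (c 0) V p) - l := by
    funext p
    unfold Lk Dk Ek
    rw [pow_one, Nat.cast_one, one_mul, hP.log.dist]
    unfold nrm
    congr 2
    ring
  obtain ⟨h1, h2, h3, h4⟩ := IBSm.sqrtfun hEs hP.pos hE0 hEd
  rw [hL]
  refine ⟨h1, h2, h3, fun p q => ?_⟩
  unfold HH
  rw [hL]
  exact h4 p q

end Pool.Agent.LX
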