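import Pool.Agent.Work.MP_25cd3b_gt.LX.StmtsB
import Pool.Agent.Work.MP_25cd3b_gt.NG.All

set_option autoImplicit false

/-!
# MP_25cd3b_gt, block LX, item BTi: points of a geodesic form a tight chain
-/

open MeasureTheory Set Filter Topology
open scoped ContDiff ENNReal
open Pool.Agent.Work.MP_c9f990_an.Al (IsFlow)

namespace Pool.Agent.LX

open Pool.Agent.MLS Pool.Agent.STR Pool.Agent.LR

theorem pr_BTi (h1 : StCvG) : BTi := by
  intro n G _ _ g κ φ M lg a c l V h η k u t hη hk hpt hmono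
  have hCv : Cv g κ := ⟨h.riem, h.kpos, h.curv, φ, M, h.flow⟩
  have hd := (h1 n g κ hCv).2.1 η hη
  have hinv := (pr_InvD n G h.coc g h.inv).2
  have hLk : ∀ j, j < k → Lk g φ a (c 0) l V (u j, u (j + 1)) = t (j + 1) - t j - l := by
    intro j hj
    show gd g (expo φ g (c 0) (u j)) (a ^ 1 • expo φ g (c 0) (u (j + 1))) - ((1 : ℕ) : ℝ) * l = _
    rw [← hinv (a ^ j), smul_smul, ← pow_add, ← hpt j hj.le, ← hpt (j + 1) hj, hd,
      abs_sub_comm, abs_of_nonneg (sub_nonneg.2 (hmono j hj)), Nat.cast_one, one_mul]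
  have hmon : ∀ j, j ≤ k → t 0 ≤ t j := by
    intro j
    induction j with
    | zero => intro _; exact le_rfl
    | succ j ih => intro hj; exact (ih (by omega)).trans (hmono j (by omega))
  have hDk : Dk g φ a (c 0) l V k (u 0) (u k) = t k - t 0 - k * l := by
    show gd g (expo φ g (c 0) (u 0)) (a ^ k • expo φ g (c 0) (u k)) - (k : ℝ) * l = _
    have e0 := hpt 0 (Nat.zero_le k)
    rw [pow_zero, one_smul] at e0
    rw [← e0, ← hpt k le_rfl, hd, abs_sub_comm, abs_of_nonneg (sub_nonneg.2 (hmon k le_rfl))]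
  refine ⟨?_, hDk, hLk⟩
  show Dk g φ a (c 0) l V k (u 0) (u k) =
    ∑ j ∈ Finset.range k, Lk g φ a (c 0) l V (u j, u (j + 1))
  rw [hDk, Finset.sum_congr rfl (fun j hj => hLk j (Finset.mem_range.1 hj)),
    Finset.sum_sub_distrib, Finset.sum_range_sub, Finset.sum_const, Finset.card_range,
    nsmul_eq_mul]

end Pool.Agent.LX
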