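import Pool.Agent.Work.MP_25cd3b_gt.LX.StmtsB
import Pool.Agent.Work.MP_25cd3b_gt.NG.All

set_option autoImplicit false

/-!
# MP_25cd3b_gt, block LX, item BVarG: variation through geodesics
-/

open MeasureTheory Set Filter Topology
open scoped ContDiff ENNReal
open Pool.Agent.Work.MP_c9f990_an.Al (IsFlow)

namespace Pool.Agent.LX

open Pool.Agent.MLS Pool.Agent.STR Pool.Agent.LR

namespace IBVarG

theorem main (hOp : StOp) (hG1 : StGeo1) (hGa : NcGa) (hSpr : NcSpr) (hLin : NcLin)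
    (hCov : NcCov) (hExp : NcExp) : BVarG := by
  intro n g φ M lg hg hφ hl x y hx hy
  obtain ⟨-, -, hio, hoi, -, hopS, -, -, -⟩ := hOp n g hg
  obtain ⟨hvS, -⟩ := hSpr n g φ M hg hφ
  obtain ⟨-, -, hGsym, -⟩ := hGa n g hg
  have hlS : ContDiff ℝ ∞ (fun r => lg (x r) (y r)) := hl.smooth.comp (hx.prodMk hy)
  have hpS : ContDiff ℝ ∞ (fun r => op g (x r) (lg (x r) (y r))) :=
    (hopS.comp hx).clm_apply hlS
  obtain ⟨z, hz⟩ : ∃ z : ℝ → W n, z = fun r => (x r, op g (x r) (lg (x r) (y r))) := ⟨_, rfl⟩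
  have hzS : ContDiff ℝ ∞ z := by
    rw [hz]
    exact hx.prodMk hpS
  obtain ⟨δ, hδ⟩ : ∃ δ : W n, δ = deriv z 0 := ⟨_, rfl⟩
  have hzd : HasDerivAt z δ 0 := by
    rw [hδ]
    exact ((hzS.differentiable (by simp)) 0).hasDerivAt
  have hz1 : ∀ r, (z r).1 = x r := fun r => by rw [hz]
  have hzvel : ∀ r, vel g (z r) = lg (x r) (y r) := fun r => by
    rw [hz]
    exact hio _ _
  have hz0 : z 0 = (x 0, op g (x 0) (lg (x 0) (y 0))) := by rw [hz]
  have hδ1 : δ.1 = deriv x 0 := by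
    have e1 : HasDerivAt (fun r => (z r).1) δ.1 0 := by
      have := (ContinuousLinearMap.fst ℝ (E n) (E n)).hasFDerivAt.comp_hasDerivAt 0 hzd
      exact this
    have e2 : (fun r => (z r).1) = x := funext hz1
    rw [e2] at e1
    exact e1.deriv.symm
  -- the geodesic
  obtain ⟨hgeo, hcv, -⟩ := hG1 n g hg (fun t => φ t (z 0)) (fun t => hφ.ode (z 0) t)
  obtain ⟨hJ2, hJd, hJdd⟩ := hLin n g φ M hg hφ (z 0) δ
  have hjac : IsJac g (fun t => (φ t (z 0)).1) (fun t => (M t (z 0) δ).1) := by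
    refine hCov n g hg _ _ hgeo hJ2 fun t => ?_
    have := hJdd t
    rw [hcv]
    exact this
  have hceq : (fun t : ℝ => expo φ g (x 0) (t • lg (x 0) (y 0))) = fun t => (φ t (z 0)).1 := by
    funext t
    rw [hz0]
    exact ((hExp n g φ M hg hφ (x 0)).2.2.1 t (lg (x 0) (y 0))).symm
  rw [hceq]
  have hφ0 : φ 0 (z 0) = z 0 := hφ.zero _
  have hM0 : M 0 (z 0) δ = δ := by
    rw [hφ.M0]
    rfl
  have hφ1 : ∀ r, (φ 1 (z r)).1 = y r := fun r => by
    rw [hz]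
    exact hl.exp_log (x r) (y r)
  have hφ1d : HasDerivAt (fun r => φ 1 (z r)) (M 1 (z 0) δ) 0 :=
    (hφ.diff 1 (z 0)).comp_hasDerivAt 0 hzd
  have hJ1 : (M 1 (z 0) δ).1 = deriv y 0 := by
    have e1 : HasDerivAt (fun r => (φ 1 (z r)).1) (M 1 (z 0) δ).1 0 :=
      (ContinuousLinearMap.fst ℝ (E n) (E n)).hasFDerivAt.comp_hasDerivAt 0 hφ1d
    have e2 : (fun r => (φ 1 (z r)).1) = y := funext hφ1
    rw [e2] at e1
    exact e1.deriv.symm
  have hJ0 : (M 0 (z 0) δ).1 = deriv x 0 := by rw [hM0, hδ1]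
  have hvd : ∀ w : W n, HasFDerivAt (vel g) (fderiv ℝ (vel g) w) w := fun w =>
    ((hvS.differentiable (by simp)) w).hasFDerivAt
  refine ⟨fun t => (M t (z 0) δ).1, hgeo, hjac, hJ0, hJ1, ?_, ?_⟩
  · have e1 : deriv (fun r => lg (x r) (y r)) 0 = fderiv ℝ (vel g) (z 0) δ := by
      have e2 : HasDerivAt (fun r => vel g (z r)) (fderiv ℝ (vel g) (z 0) δ) 0 :=
        (hvd (z 0)).comp_hasDerivAt 0 hzd
      have e3 : (fun r => vel g (z r)) = fun r => lg (x r) (y r) := funext hzvel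
      rw [e3] at e2
      exact e2.deriv
    have e4 : deriv (fun s => (M s (z 0) δ).1) 0 = fderiv ℝ (vel g) (z 0) δ := by
      rw [hJd, hφ0, hM0]
    show deriv (fun r => lg (x r) (y r)) 0 + Ga g (x 0) (deriv x 0) (lg (x 0) (y 0)) =
      deriv (fun s => (M s (z 0) δ).1) 0 +
        Ga g (φ 0 (z 0)).1 (deriv (fun t => (φ t (z 0)).1) 0) (M 0 (z 0) δ).1
    rw [e1, e4, hcv, hφ0, hJ0, hz1, hzvel, hGsym]
  · have e1 : deriv (fun r => ev φ g (x r) (lg (x r) (y r))) 0 =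
        fderiv ℝ (vel g) (φ 1 (z 0)) (M 1 (z 0) δ) := by
      have e2 : HasDerivAt (fun r => vel g (φ 1 (z r)))
          (fderiv ℝ (vel g) (φ 1 (z 0)) (M 1 (z 0) δ)) 0 := by
        have e6 := HasFDerivAt.comp_hasDerivAt (f := fun r => φ 1 (z r)) 0
          (hvd (φ 1 (z 0))) hφ1d
        exact e6
      have e3 : (fun r => vel g (φ 1 (z r))) = fun r => ev φ g (x r) (lg (x r) (y r)) := by
        funext r
        rw [hz]
        rfl
      rw [e3] at e2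
      exact e2.deriv
    have e4 : deriv (fun s => (M s (z 0) δ).1) 1 =
        fderiv ℝ (vel g) (φ 1 (z 0)) (M 1 (z 0) δ) := hJd 1
    have e5 : ev φ g (x 0) (lg (x 0) (y 0)) = vel g (φ 1 (z 0)) := by
      rw [hz0]
      rfl
    show deriv (fun r => ev φ g (x r) (lg (x r) (y r))) 0 +
        Ga g (y 0) (deriv y 0) (ev φ g (x 0) (lg (x 0) (y 0))) =
      deriv (fun s => (M s (z 0) δ).1) 1 +
        Ga g (φ 1 (z 0)).1 (deriv (fun t => (φ t (z 0)).1) 1) (M 1 (z 0) δ).1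
    rw [e1, e4, hcv, hφ1, hJ1, e5, hGsym]

end IBVarG

theorem pr_BVarG : BVarG :=
  IBVarG.main pr_Op p_Geo1 p_NcGa p_NcSpr p_NcLin p_NcCov p_NcExp

end Pool.Agent.LX
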