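import Pool.Agent.Work.MP_25cd3b_gt.LX.StmtsK
import Pool.Agent.Work.MP_25cd3b_gt.NG.All

set_option autoImplicit false

/-!
# MP_25cd3b_gt, block LX: item CTau (a conjugacy preserves the temporal displacement)
-/

open MeasureTheory Set Filter Topology
open scoped ContDiff ENNReal
open Pool.Agent.Work.MP_c9f990_an.Al (IsFlow)

namespace Pool.Agent.LX

open Pool.Agent.MLS Pool.Agent.STR Pool.Agent.LR

namespace ICTau

theorem cor_shift {n : ℕ} {Φ : W n → W n} {c c2 : ℝ → E n} (h : Cor Φ c c2) (w : ℝ) :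
    Cor Φ (fun t => c (t + w)) (fun t => c2 (t + w)) := by
  intro t
  rw [deriv_comp_add_const, deriv_comp_add_const]
  exact h (t + w)

/-- two geodesics from one point with nearby points at distance about `R` are close near that
point. -/
theorem near (h2 : StIso) (h4 : StCvG) (κ D C' δ : ℝ) (hκ : 0 < κ) (hD : 0 ≤ D) (hC : 0 ≤ C')
    (hδ : 0 < δ) : ∃ R₀ : ℝ, 1 ≤ R₀ ∧ ∀ (n : ℕ) (g : Form n), Cv g κ → ∀ σ γ : ℝ → E n,
    UG g σ → UG g γ → σ 0 = γ 0 → ∀ R L : ℝ, R₀ ≤ R → R ≤ L → 2 * R - C' ≤ L →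
    gd g (γ L) (σ R) ≤ R + D → ∀ s ∈ Icc (0 : ℝ) 1, gd g (σ s) (γ s) ≤ δ := by
  set h : ℝ := 3 * (Real.log 4 / κ) with hh
  have hh0 : 0 ≤ h := by
    have : 0 ≤ Real.log 4 := Real.log_nonneg (by norm_num)
    positivity
  set M : ℝ := Real.sinh κ ^ 2 * Real.cosh (κ * (C' + D + h)) with hM
  set cc : ℝ := Real.cosh (κ * δ) - 1 with hcc
  have hc0 : 0 < cc := by
    have := Real.one_lt_cosh.2 (mul_pos hκ hδ).ne'
    rw [hcc]
    linarith
  have hM0 : 0 ≤ M := by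
    have := Real.cosh_pos (κ * (C' + D + h))
    positivity
  refine ⟨max 1 ((M / cc + 1) / κ), le_max_left _ _, fun n g hg σ γ hσ hγ h0 R L hR hRL hL hd s
    hs => ?_⟩
  have hR1 : 1 ≤ R := (le_max_left _ _).trans hR
  have hR2 : M / cc + 1 ≤ κ * R := by
    have h5 := (le_max_right _ _).trans hR
    rw [div_le_iff₀ hκ] at h5
    linarith
  have hPM : IsPM (gd g) := (pr_Gd n g).2.1
  obtain ⟨φ, Mf, hφ⟩ := hg.flow
  have hG := (h4 n g κ hg).2.1
  have h4p := p_NgPt n g φ Mf κ hg.riem hφ hκ hg.curv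
  -- the distance at time `R`
  have hE : gd g (σ R) (γ R) ≤ C' + D + h := by
    have a1 := h4p (σ 0) (γ L) (σ R) (γ R)
    have a2 : gd g (σ 0) (γ L) = L := by
      rw [h0, hG γ hγ 0 L, zero_sub, abs_neg, abs_of_nonneg (by linarith)]
    have a3 : gd g (σ 0) (σ R) = R := by
      rw [hG σ hσ 0 R, zero_sub, abs_neg, abs_of_nonneg (by linarith)]
    have a4 : gd g (γ L) (γ R) = L - R := by
      rw [hG γ hγ L R, abs_of_nonneg (by linarith)]
    have a5 : gd g (σ 0) (γ R) = R := by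
      rw [h0, hG γ hγ 0 R, zero_sub, abs_neg, abs_of_nonneg (by linarith)]
    rw [a2, a3, a4, a5] at a1
    rcases max_cases (R + (L - R)) (R + gd g (γ L) (σ R)) with h3 | h3
    · rw [h3.1] at a1
      linarith
    · rw [h3.1] at a1
      linarith
  by_contra hcon
  push Not at hcon
  have h6 := h2 n g κ hg σ γ hσ hγ h0 s R hs.1 (hs.2.trans hR1)
  have h7 : Real.cosh (κ * gd g (σ R) (γ R)) ≤ Real.cosh (κ * (C' + D + h)) := by
    rw [Real.cosh_le_cosh, abs_of_nonneg (mul_nonneg hκ.le (hPM.nonneg _ _)),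
      abs_of_nonneg (by positivity)]
    exact mul_le_mul_of_nonneg_left hE hκ.le
  have h8 : cc ≤ Real.cosh (κ * gd g (σ s) (γ s)) - 1 := by
    rw [hcc]
    have : Real.cosh (κ * δ) ≤ Real.cosh (κ * gd g (σ s) (γ s)) := by
      rw [Real.cosh_le_cosh, abs_of_nonneg (by positivity),
        abs_of_nonneg (mul_nonneg hκ.le (hPM.nonneg _ _))]
      exact mul_le_mul_of_nonneg_left hcon.le hκ.le
    linarith
  have h9 : κ * R ≤ Real.sinh (κ * R) := Real.self_le_sinh_iff.2 (by positivity)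
  have h10 : Real.sinh (κ * s) ≤ Real.sinh κ := by
    rw [Real.sinh_le_sinh]
    nlinarith [hs.2]
  have h11 : 0 ≤ Real.sinh (κ * s) := Real.sinh_nonneg_iff.2 (mul_nonneg hκ.le hs.1)
  have h12 : Real.sinh (κ * s) ^ 2 ≤ Real.sinh κ ^ 2 := pow_le_pow_left₀ h11 h10 2
  have h13 : 1 ≤ Real.cosh (κ * gd g (σ R) (γ R)) := Real.one_le_cosh _
  have h14 : Real.sinh (κ * s) ^ 2 * (Real.cosh (κ * gd g (σ R) (γ R)) - 1) ≤ M := by
    rw [hM]
    refine mul_le_mul h12 (by linarith) (by linarith) (by positivity)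
  have h15 : 0 ≤ M / cc := by positivity
  have h16 : (κ * R) ^ 2 ≤ Real.sinh (κ * R) ^ 2 := pow_le_pow_left₀ (by positivity) h9 2
  have h17 : (κ * R) * cc ≤ M := by
    have h18 : κ * R ≤ (κ * R) ^ 2 := by nlinarith
    calc (κ * R) * cc ≤ Real.sinh (κ * R) ^ 2 * cc :=
          mul_le_mul_of_nonneg_right (h18.trans h16) hc0.le
      _ ≤ Real.sinh (κ * R) ^ 2 * (Real.cosh (κ * gd g (σ s) (γ s)) - 1) :=
          mul_le_mul_of_nonneg_left h8 (by positivity)
      _ ≤ M := h6.trans h14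
  have h19 : (M / cc + 1) * cc ≤ (κ * R) * cc := mul_le_mul_of_nonneg_right hR2 hc0.le
  have h20 : (M / cc + 1) * cc = M + cc := by
    field_simp
  linarith

/-- images under the group correspond. -/
theorem cor_smul (h3 : StUG) {n : ℕ} {G : Type} [Group G] [MulAction G (E n)]
    (hG : Cocompact n G) {θ : G →* G} {g1 g2 : Form n} {Φ : W n → W n} (hr1 : Riem g1)
    (hi1 : Inv G g1) (hr2 : Riem g2) (hi2 : Inv G g2) (hH : Hc θ g1 g2 Φ) (b : G)
    {β β2 : ℝ → E n} (hβ : UG g1 β) (hβ2 : UG g2 β2) (hc : Cor Φ β β2) :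
    UG g1 (fun t => b • β t) ∧ UG g2 (fun t => θ b • β2 t) ∧
      Cor Φ (fun t => b • β t) (fun t => θ b • β2 t) := by
  obtain ⟨h4, h5⟩ := (h3 n g1 β hβ).2.2 G hG hr1 hi1 b
  obtain ⟨h6, h7⟩ := (h3 n g2 β2 hβ2).2.2 G hG hr2 hi2 (θ b)
  refine ⟨h4, h6, fun t => ?_⟩
  have e1 : deriv (fun t => b • β t) t = dac b (β t) (deriv β t) := h5 t
  have e2 : deriv (fun t => θ b • β2 t) t = dac (θ b) (β2 t) (deriv β2 t) := h7 t
  have f1 := hH.eqv b (β t, deriv β t) (hβ.unit t)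
  rw [hc t] at f1
  change Φ (b • β t, deriv (fun t => b • β t) t) = (θ b • β2 t, deriv (fun t => θ b • β2 t) t)
  rw [e1, e2]
  exact f1

end ICTau

open ICTau in
/-- item CTau -/
theorem pr_CTau (h1 : CUC) (h2 : StIso) (h3 : StUG) (h4 : StCvG) : CTau := by
  intro n G _ _ hG θ g1 g2 κ₁ κ₂ Φ hcv1 hi1 hcv2 hi2 hH a α β α2 β2 k l τ hα hβ hα2 hβ2 hcα hcβ
    hT
  obtain ⟨hB, hB2, hcB⟩ := cor_smul h3 hG hcv1.riem hi1 hcv2.riem hi2 hH (a ^ k) hβ hβ2 hcβ
  rw [map_pow] at hB2 hcB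
  have hPM1 : IsPM (gd g1) := (pr_Gd n g1).2.1
  have hPM2 : IsPM (gd g2) := (pr_Gd n g2).2.1
  obtain ⟨-, hG1, hE1⟩ := h4 n g1 κ₁ hcv1
  obtain ⟨-, hG2, -⟩ := h4 n g2 κ₂ hcv2
  set B : ℝ → E n := fun t => a ^ k • β t with hBdef
  set B2 : ℝ → E n := fun t => θ a ^ k • β2 t with hB2def
  -- it is enough that the difference of the distances tends to zero
  have key : Tendsto (fun R => gd g2 (α2 (-R)) (B2 R) - gd g1 (α (-R)) (B R)) atTop (𝓝 0) := by
    rw [Metric.tendsto_atTop]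
    intro ε hε
    obtain ⟨δ, hδ, hU⟩ := h1 n G hG θ g1 g2 κ₁ Φ hcv1 hi1 hcv2.riem hi2 hH (ε / 4) (by linarith)
    obtain ⟨R₀, hR₀, hN⟩ := near h2 h4 κ₁ (gd g1 (α 0) (B 0)) |k * l + τ - 1| δ hcv1.pos
      (hPM1.nonneg _ _) (abs_nonneg _) hδ
    have hT' : ∀ᶠ R in atTop, |gd g1 (α (-R)) (B R) - 2 * R - k * l - τ| < 1 := by
      have h5 := (Metric.tendsto_nhds.1 hT) 1 one_pos
      filter_upwards [h5] with R hR
      rwa [Real.dist_eq] at hR
    obtain ⟨R₁, hR₁⟩ := eventually_atTop.1 hT'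
    refine ⟨max R₀ (max R₁ |k * l + τ - 1|), fun R hR => ?_⟩
    have hRa : R₀ ≤ R := (le_max_left _ _).trans hR
    have hRb : R₁ ≤ R := (le_max_left _ _).trans ((le_max_right _ _).trans hR)
    have hRc : |k * l + τ - 1| ≤ R := (le_max_right _ _).trans ((le_max_right _ _).trans hR)
    have hR1 : 1 ≤ R := hR₀.trans hRa
    have h5 := abs_lt.1 (hR₁ R hRb)
    set L : ℝ := gd g1 (α (-R)) (B R) with hL
    have hL2 : 2 * R - |k * l + τ - 1| ≤ L := by
      linarith [neg_abs_le (k * l + τ - 1), h5.1]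
    have hRL : R ≤ L := by linarith
    have hne : α (-R) ≠ B R := by
      intro hc
      rw [hL, hc, hPM1.self] at hRL
      linarith
    obtain ⟨γ, hγ, hγ0, hγL, -⟩ := hE1 _ _ hne
    rw [← hL] at hγL
    obtain ⟨γ2, hγ2, hcγ⟩ := hH.flow γ hγ
    -- first end
    have hd1 : gd g2 (α2 (-R)) (γ2 0) ≤ ε / 4 := by
      have hσ := (h3 n g1 α hα).1 (-R)
      have h6 := hN n g1 hcv1 (fun t => α (t + -R)) γ hσ hγ (by simp [hγ0]) R L hRa hRL hL2
        (by
          rw [hγL, add_neg_cancel]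
          have b1 := hPM1.tri (B R) (B 0) (α 0)
          rw [hG1 B hB R 0, sub_zero, abs_of_nonneg (by linarith), hPM1.symm (B 0) (α 0)] at b1
          exact b1)
      have h7 := hU (fun t => α (t + -R)) γ (fun t => α2 (t + -R)) γ2 hσ hγ (cor_shift hcα (-R))
        hcγ h6 0 ⟨by norm_num, by norm_num⟩
      simpa using h7
    -- second end
    have hd2 : gd g2 (B2 R) (γ2 L) ≤ ε / 4 := by
      have hσ := (h3 n g1 B hB).2.1 R
      have hγ' := (h3 n g1 γ hγ).2.1 L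
      have h6 := hN n g1 hcv1 (fun t => B (R - t)) (fun t => γ (L - t)) hσ hγ' (by simp [hγL]) R L
        hRa hRL hL2
        (by
          rw [sub_self, sub_self, hγ0]
          have b1 := hPM1.tri (α (-R)) (α 0) (B 0)
          rw [hG1 α hα (-R) 0, sub_zero, abs_neg, abs_of_nonneg (by linarith)] at b1
          exact b1)
      have h7 := hU (fun t => B (t + (R - 1))) (fun t => γ (t + (L - 1)))
        (fun t => B2 (t + (R - 1))) (fun t => γ2 (t + (L - 1))) ((h3 n g1 B hB).1 (R - 1))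
        ((h3 n g1 γ hγ).1 (L - 1)) (cor_shift hcB (R - 1)) (cor_shift hcγ (L - 1))
        (fun t ht => by
          have h8 := h6 (1 - t) ⟨by linarith [ht.2], by linarith [ht.1]⟩
          have e1 : R - (1 - t) = t + (R - 1) := by ring
          have e2 : L - (1 - t) = t + (L - 1) := by ring
          change gd g1 (B (R - (1 - t))) (γ (L - (1 - t))) ≤ δ at h8
          rw [e1, e2] at h8
          exact h8) 1 ⟨by norm_num, by norm_num⟩
      have e1 : 1 + (R - 1) = R := by ring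
      have e2 : 1 + (L - 1) = L := by ring
      change gd g2 (B2 (1 + (R - 1))) (γ2 (1 + (L - 1))) ≤ ε / 4 at h7
      rw [e1, e2] at h7
      exact h7
    have hd3 : gd g2 (γ2 0) (γ2 L) = L := by
      rw [hG2 γ2 hγ2 0 L, zero_sub, abs_neg, abs_of_nonneg (by linarith)]
    rw [Real.dist_eq, sub_zero, abs_lt]
    have t1 := hPM2.tri (α2 (-R)) (γ2 0) (B2 R)
    have t2 := hPM2.tri (γ2 0) (γ2 L) (B2 R)
    have t3 := hPM2.tri (γ2 0) (α2 (-R)) (γ2 L)
    have t4 := hPM2.tri (α2 (-R)) (B2 R) (γ2 L)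
    rw [hPM2.symm (γ2 L) (B2 R)] at t2
    rw [hPM2.symm (γ2 0) (α2 (-R))] at t3
    constructor <;> linarith
  have h8 := hT.add key
  rw [add_zero] at h8
  unfold Tau
  refine h8.congr fun R => ?_
  ring

end Pool.Agent.LX
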