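import Pool.Agent.Work.MP_25cd3b_gt.LX.StmtsK
import Pool.Agent.Work.MP_25cd3b_gt.NG.All

set_option autoImplicit false

/-!
# MP_25cd3b_gt, block LX: item CTr (transport of closeness and asymptoticity by a conjugacy)
-/

open MeasureTheory Set Filter Topology
open scoped ContDiff ENNReal
open Pool.Agent.Work.MP_c9f990_an.Al (IsFlow)

namespace Pool.Agent.LX

open Pool.Agent.MLS Pool.Agent.STR Pool.Agent.LR

namespace ICTr

theorem cor_shift {n : ℕ} {Φ : W n → W n} {c c2 : ℝ → E n} (h : Cor Φ c c2) (w : ℝ) :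
    Cor Φ (fun t => c (t + w)) (fun t => c2 (t + w)) := by
  intro t
  rw [deriv_comp_add_const, deriv_comp_add_const]
  exact h (t + w)

/-- uniform continuity on a window. -/
theorem window (h1 : CUC) (h2 : StUG) (n : ℕ) (G : Type) [Group G] [MulAction G (E n)]
    (hG : Cocompact n G) (θ : G →* G) (g1 g2 : Form n) (κ₁ : ℝ) (Φ : W n → W n)
    (hcv : Cv g1 κ₁) (hi1 : Inv G g1) (hr2 : Riem g2) (hi2 : Inv G g2) (hH : Hc θ g1 g2 Φ)
    (ε : ℝ) (hε : 0 < ε) : ∃ δ : ℝ, 0 < δ ∧ ∀ α c α2 c2 : ℝ → E n, UG g1 α → UG g1 c →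
    Cor Φ α α2 → Cor Φ c c2 → ∀ w : ℝ, (∀ t ∈ Icc w (w + 1), gd g1 (α t) (c t) ≤ δ) →
    ∀ s ∈ Icc (w - 1) (w + 2), gd g2 (α2 s) (c2 s) ≤ ε := by
  obtain ⟨δ, hδ, H⟩ := h1 n G hG θ g1 g2 κ₁ Φ hcv hi1 hr2 hi2 hH ε hε
  refine ⟨δ, hδ, fun α c α2 c2 hα hc hα2 hc2 w hw s hs => ?_⟩
  have h3 := H (fun t => α (t + w)) (fun t => c (t + w)) (fun t => α2 (t + w))
    (fun t => c2 (t + w)) ((h2 n g1 α hα).1 w) ((h2 n g1 c hc).1 w) (cor_shift hα2 w)
    (cor_shift hc2 w) (fun t ht => hw (t + w) ⟨by linarith [ht.1], by linarith [ht.2]⟩)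
    (s - w) ⟨by linarith [hs.1], by linarith [hs.2]⟩
  simpa using h3

end ICTr

open ICTr in
/-- item CTr -/
theorem pr_CTr (h1 : CUC) (h2 : StUG) : CTr := by
  intro n G _ _ hG θ g1 g2 κ₁ Φ hcv hi1 hr2 hi2 hH
  have hPM : IsPM (gd g2) := (pr_Gd n g2).2.1
  have W := window h1 h2 n G hG θ g1 g2 κ₁ Φ hcv hi1 hr2 hi2 hH
  refine ⟨fun ε hε => ?_, fun α c α2 c2 hα hc hα2 hc2 => ⟨fun h => ?_, fun h => ?_⟩⟩
  · obtain ⟨δ, hδ, H⟩ := W ε hε
    refine ⟨δ, hδ, fun α c α2 c2 hα hc hα2 hc2 => ⟨fun h t ht => ?_, fun h t ht => ?_⟩⟩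
    · refine H α c α2 c2 hα hc hα2 hc2 (max t 0) (fun s hs => h s ?_) t ⟨?_, ?_⟩
      · exact (le_max_right t 0).trans hs.1
      · rcases max_cases t 0 with h3 | h3 <;> linarith [h3.1, h3.2]
      · linarith [le_max_left t 0]
    · refine H α c α2 c2 hα hc hα2 hc2 (min t 0 - 1) (fun s hs => h s ?_) t ⟨?_, ?_⟩
      · linarith [hs.2, min_le_right t 0]
      · linarith [min_le_left t 0]
      · rcases min_cases t 0 with h3 | h3 <;> linarith [h3.1, h3.2]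
  · unfold As at h ⊢
    rw [Metric.tendsto_atTop] at h ⊢
    intro ε hε
    obtain ⟨δ, hδ, H⟩ := W (ε / 2) (by linarith)
    obtain ⟨N, hN⟩ := h δ hδ
    refine ⟨N, fun t ht => ?_⟩
    have h3 := H α c α2 c2 hα hc hα2 hc2 t (fun s hs => ?_) t ⟨by linarith, by linarith⟩
    · rw [Real.dist_eq, sub_zero, abs_of_nonneg (hPM.nonneg _ _)]
      linarith
    · have h4 := hN s (ht.le.trans hs.1)
      rw [Real.dist_eq, sub_zero] at h4
      exact (le_abs_self _).trans h4.le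
  · unfold Ab at h ⊢
    rw [Metric.tendsto_atTop] at h ⊢
    intro ε hε
    obtain ⟨δ, hδ, H⟩ := W (ε / 2) (by linarith)
    obtain ⟨N, hN⟩ := h δ hδ
    refine ⟨N, fun t ht => ?_⟩
    have h3 := H α c α2 c2 hα hc hα2 hc2 (-t - 1) (fun s hs => ?_) (-t)
      ⟨by linarith, by linarith⟩
    · rw [Real.dist_eq, sub_zero, abs_of_nonneg (hPM.nonneg _ _)]
      linarith
    · have h4 := hN (-s) (by linarith [hs.2, ht])
      rw [Real.dist_eq, sub_zero, neg_neg] at h4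
      exact (le_abs_self _).trans h4.le

end Pool.Agent.LX
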