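import Pool.Agent.Work.MP_25cd3b_gt.LX.StmtsK
import Pool.Agent.Work.MP_25cd3b_gt.NG.All

set_option autoImplicit false

/-!
# MP_25cd3b_gt, block LX: item CUC (uniform continuity of a conjugacy along geodesics)
-/

open MeasureTheory Set Filter Topology
open scoped ContDiff ENNReal
open Pool.Agent.Work.MP_c9f990_an.Al (IsFlow)

namespace Pool.Agent.LX

open Pool.Agent.MLS Pool.Agent.STR Pool.Agent.LR

namespace ICUC

/-- point and velocity -/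
noncomputable def A {n : ℕ} (g : Form n) (z : W n) : W n := (z.1, vel g z)

theorem A_cont {n : ℕ} (g : Form n) (hg : Riem g) : Continuous (A g) := by
  obtain ⟨-, -, -, -, -, -, hiop, -, -⟩ := pr_Op n g hg
  have h1 : Continuous (fun z : W n => iop g z.1 z.2) :=
    (hiop.continuous.comp continuous_fst).clm_apply continuous_snd
  exact continuous_fst.prodMk h1

/-- a unit speed geodesic as an orbit of the flow -/
theorem orbit {n : ℕ} (g : Form n) (hg : Riem g) (φ : ℝ → W n → W n)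
    (M : ℝ → W n → W n →L[ℝ] W n) (hφ : IsFlow (XH (Hm g)) φ M) (c : ℝ → E n) (hc : UG g c) :
    Hm g (c 0, op g (c 0) (deriv c 0)) = 1 / 2 ∧
      ∀ t, (φ t (c 0, op g (c 0) (deriv c 0))).1 = c t ∧
        A g (φ t (c 0, op g (c 0) (deriv c 0))) = (c t, deriv c t) := by
  obtain ⟨-, -, hio, -, -, -, -, -, hHm⟩ := pr_Op n g hg
  have hv : ∀ t, vel g (c t, op g (c t) (deriv c t)) = deriv c t := fun t => hio _ _
  refine ⟨?_, fun t => ?_⟩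
  · rw [hHm, hv 0]
    have := hc.unit 0
    change 1 / 2 * g.val (c 0) (deriv c 0) (deriv c 0) = 1 / 2
    rw [this]
    norm_num
  · have h1 := (p_NcGx n g φ M hg hφ c hc.geo 0 t).1
    rw [sub_zero] at h1
    rw [← h1]
    refine ⟨rfl, ?_⟩
    unfold A
    rw [hv t]

/-- orbits whose projections agree on `[0, 1]` are equal -/
theorem orbit_eq {n : ℕ} (g : Form n) (hg : Riem g) (φ : ℝ → W n → W n)
    (M : ℝ → W n → W n →L[ℝ] W n) (hφ : IsFlow (XH (Hm g)) φ M) (x y : W n)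
    (h : ∀ t ∈ Icc (0 : ℝ) 1, (φ t x).1 = (φ t y).1) (s : ℝ) : φ s x = φ s y := by
  obtain ⟨-, -, -, hoi, -, -, -, -, -⟩ := pr_Op n g hg
  have hd : ∀ z : W n, HasDerivAt (fun s => (φ s z).1) (vel g (φ (1 / 2) z)) (1 / 2) := by
    intro z
    have h1 := hφ.ode z (1 / 2)
    have h2 := (hasFDerivAt_fst (𝕜 := ℝ) (p := φ (1 / 2) z)).comp_hasDerivAt (1 / 2 : ℝ) h1
    have h3 := (p_Hd n g hg (φ (1 / 2) z)).1
    simp only [ContinuousLinearMap.coe_fst'] at h2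
    rw [h3] at h2
    exact h2
  have he : (fun s => (φ s x).1) =ᶠ[𝓝 (1 / 2 : ℝ)] fun s => (φ s y).1 := by
    filter_upwards [Icc_mem_nhds (by norm_num : (0 : ℝ) < 1 / 2) (by norm_num : (1 / 2 : ℝ) < 1)]
      with t ht
    exact h t ht
  have h4 : vel g (φ (1 / 2) x) = vel g (φ (1 / 2) y) :=
    (hd x).unique ((hd y).congr_of_eventuallyEq he)
  have h5 : (φ (1 / 2) x).1 = (φ (1 / 2) y).1 := h _ ⟨by norm_num, by norm_num⟩
  have h6 : φ (1 / 2) x = φ (1 / 2) y := by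
    refine Prod.ext h5 ?_
    have h7 := hoi (φ (1 / 2) x).1 (φ (1 / 2) x).2
    have h8 := hoi (φ (1 / 2) y).1 (φ (1 / 2) y).2
    rw [← h7, ← h8]
    unfold vel at h4
    rw [h4, h5]
  have h9 : ∀ z, φ s z = φ (s - 1 / 2) (φ (1 / 2) z) := by
    intro z
    rw [← hφ.add]
    congr 1
    ring
  rw [h9 x, h9 y, h6]

/-- the data of a counterexample, moved to a compact set -/
theorem normal (h2 : StUG) (n : ℕ) (G : Type) [Group G] [MulAction G (E n)]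
    (hG : Cocompact n G) (θ : G →* G) (g1 g2 : Form n) (Φ : W n → W n) (hr1 : Riem g1)
    (hi1 : Inv G g1) (hi2 : Inv G g2) (hH : Hc θ g1 g2 Φ) (φ : ℝ → W n → W n)
    (M : ℝ → W n → W n →L[ℝ] W n) (hφ : IsFlow (XH (Hm g1)) φ M) (K : Set (E n))
    (hKG : ∀ x : E n, ∃ a : G, a • x ∈ K) (ε δ : ℝ) (c d c2 d2 : ℝ → E n) (hc : UG g1 c)
    (hd : UG g1 d) (hc2 : Cor Φ c c2) (hd2 : Cor Φ d d2)
    (hcd : ∀ t ∈ Icc (0 : ℝ) 1, gd g1 (c t) (d t) ≤ δ) (s : ℝ)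
    (hs : ε < gd g2 (c2 s) (d2 s)) :
    ∃ x y : W n, x.1 ∈ K ∧ Hm g1 x = 1 / 2 ∧ Hm g1 y = 1 / 2 ∧
      (∀ t ∈ Icc (0 : ℝ) 1, gd g1 (φ t x).1 (φ t y).1 ≤ δ) ∧
      ε < gd g2 (Φ (A g1 (φ s x))).1 (Φ (A g1 (φ s y))).1 := by
  obtain ⟨b, hb⟩ := hKG (c 0)
  have hI1 := (pr_InvD n G hG g1 hi1).2
  have hI2 := (pr_InvD n G hG g2 hi2).2
  obtain ⟨hbc, hbc'⟩ := (h2 n g1 c hc).2.2 G hG hr1 hi1 b
  obtain ⟨hbd, hbd'⟩ := (h2 n g1 d hd).2.2 G hG hr1 hi1 b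
  obtain ⟨hx1, hx2⟩ := orbit g1 hr1 φ M hφ (fun t => b • c t) hbc
  obtain ⟨hy1, hy2⟩ := orbit g1 hr1 φ M hφ (fun t => b • d t) hbd
  refine ⟨_, _, ?_, hx1, hy1, fun t ht => ?_, ?_⟩
  · exact hb
  · rw [(hx2 t).1, (hy2 t).1]
    rw [hI1]
    exact hcd t ht
  · rw [(hx2 s).2, (hy2 s).2]
    have e1 : deriv (fun t => b • c t) s = dac b (c s) (deriv c s) := hbc' s
    have e2 : deriv (fun t => b • d t) s = dac b (d s) (deriv d s) := hbd' s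
    rw [e1, e2]
    have f1 := hH.eqv b (c s, deriv c s) (hc.unit s)
    have f2 := hH.eqv b (d s, deriv d s) (hd.unit s)
    rw [hc2 s] at f1
    rw [hd2 s] at f2
    change ε < gd g2 (Φ (b • c s, dac b (c s) (deriv c s))).1
      (Φ (b • d s, dac b (d s) (deriv d s))).1
    rw [f1, f2]
    change ε < gd g2 (θ b • c2 s) (θ b • d2 s)
    rw [hI2]
    exact hs

end ICUC

open ICUC in
/-- item CUC -/
theorem pr_CUC (h1 : StCvG) (h2 : StUG) : CUC := by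
  intro n G _ _ hG θ g1 g2 κ₁ Φ hcv hi1 hr2 hi2 hH ε hε
  obtain ⟨φ, M, hφ⟩ := hcv.flow
  have hr1 := hcv.riem
  have hpos := (h1 n g1 κ₁ hcv).2.2
  obtain ⟨K, hK, hKG⟩ := hG.cocompact
  obtain ⟨K', hK', hK1⟩ := p_Prop n G hG g1 hr1 hi1 K 1 hK
  obtain ⟨-, -, -, -, -, -, -, hHc, hHm⟩ := pr_Op n g1 hr1
  have hPM : IsPM (gd g2) := (pr_Gd n g2).2.1
  by_contra hcon
  push Not at hcon
  have hseq : ∀ i : ℕ, ∃ p : W n × W n × ℝ, p.1.1 ∈ K ∧ Hm g1 p.1 = 1 / 2 ∧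
      Hm g1 p.2.1 = 1 / 2 ∧ p.2.2 ∈ Icc (-1 : ℝ) 2 ∧
      (∀ t ∈ Icc (0 : ℝ) 1, gd g1 (φ t p.1).1 (φ t p.2.1).1 ≤ 1 / ((i : ℝ) + 1)) ∧
      ε < gd g2 (Φ (A g1 (φ p.2.2 p.1))).1 (Φ (A g1 (φ p.2.2 p.2.1))).1 := by
    intro i
    obtain ⟨c, d, c2, d2, hc, hd, hc2, hd2, hcd, s, hs, hs2⟩ :=
      hcon (1 / ((i : ℝ) + 1)) (by positivity)
    obtain ⟨x, y, hx1, hx2, hy2, ht, hsε⟩ := normal h2 n G hG θ g1 g2 Φ hr1 hi1 hi2 hH φ M hφ K
      hKG ε (1 / ((i : ℝ) + 1)) c d c2 d2 hc hd hc2 hd2 hcd s hs2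
    exact ⟨(x, y, s), hx1, hx2, hy2, hs, ht, hsε⟩
  choose p hpK hpx hpy hps hpt hpε using hseq
  have hpK' : ∀ i, (p i).2.1.1 ∈ K' := by
    intro i
    refine hK1 _ (hpK i) _ ?_
    have h3 := hpt i 0 ⟨le_rfl, zero_le_one⟩
    rw [hφ.zero, hφ.zero] at h3
    refine h3.trans ?_
    rw [div_le_one (by positivity)]
    have : (0 : ℝ) ≤ i := Nat.cast_nonneg i
    linarith
  have hcomp : IsCompact ({z : W n | z.1 ∈ K ∧ Hm g1 z ≤ 1 / 2} ×ˢ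
      ({z : W n | z.1 ∈ K' ∧ Hm g1 z ≤ 1 / 2} ×ˢ Icc (-1 : ℝ) 2)) :=
    (p_Sub n g1 hr1 K (1 / 2) hK).prod ((p_Sub n g1 hr1 K' (1 / 2) hK').prod isCompact_Icc)
  obtain ⟨⟨x, y, s⟩, -, ψ, hψ, hlim⟩ := hcomp.tendsto_subseq (x := p) (fun i =>
    ⟨⟨hpK i, (hpx i).le⟩, ⟨hpK' i, (hpy i).le⟩, hps i⟩)
  have hlx : Tendsto (fun i => (p (ψ i)).1) atTop (𝓝 x) :=
    (continuous_fst.tendsto _).comp hlim
  have hly : Tendsto (fun i => (p (ψ i)).2.1) atTop (𝓝 y) :=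
    ((continuous_fst.comp continuous_snd).tendsto _).comp hlim
  have hls : Tendsto (fun i => (p (ψ i)).2.2) atTop (𝓝 s) :=
    ((continuous_snd.comp continuous_snd).tendsto _).comp hlim
  have hx : Hm g1 x = 1 / 2 := by
    have h3 := (hHc.continuous.tendsto x).comp hlx
    refine tendsto_nhds_unique h3 ?_
    simp only [Function.comp_def, hpx]
    exact tendsto_const_nhds
  have hy : Hm g1 y = 1 / 2 := by
    have h3 := (hHc.continuous.tendsto y).comp hly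
    refine tendsto_nhds_unique h3 ?_
    simp only [Function.comp_def, hpy]
    exact tendsto_const_nhds
  have hfl : ∀ (z : ℕ → W n) (z₀ : W n) (r : ℕ → ℝ) (r₀ : ℝ), Tendsto z atTop (𝓝 z₀) →
      Tendsto r atTop (𝓝 r₀) → Tendsto (fun i => φ (r i) (z i)) atTop (𝓝 (φ r₀ z₀)) := by
    intro z z₀ r r₀ hz hr
    exact (hφ.cont.tendsto (r₀, z₀)).comp (hr.prodMk_nhds hz)
  -- the limit orbits have equal projections on the unit interval
  have heq : ∀ t ∈ Icc (0 : ℝ) 1, (φ t x).1 = (φ t y).1 := by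
    intro t ht
    by_contra hne
    obtain ⟨σ, -, -, -, hgt⟩ := hpos _ _ hne
    have a1 : Tendsto (fun i => gd g1 (φ t (p (ψ i)).1).1 (φ t (p (ψ i)).2.1).1) atTop
        (𝓝 (gd g1 (φ t x).1 (φ t y).1)) := by
      have b1 := hfl _ x (fun _ => t) t hlx tendsto_const_nhds
      have b2 := hfl _ y (fun _ => t) t hly tendsto_const_nhds
      have b3 := (continuous_fst.tendsto _).comp b1
      have b4 := (continuous_fst.tendsto _).comp b2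
      exact ((p_CtsD n g1).tendsto ((φ t x).1, (φ t y).1)).comp (b3.prodMk_nhds b4)
    have a2 : Tendsto (fun i => 1 / (((ψ i : ℕ) : ℝ) + 1)) atTop (𝓝 0) :=
      tendsto_one_div_add_atTop_nhds_zero_nat.comp hψ.tendsto_atTop
    have a3 := le_of_tendsto_of_tendsto' a1 a2 (fun i => hpt (ψ i) t ht)
    linarith
  have hs : φ s x = φ s y := orbit_eq g1 hr1 φ M hφ x y heq s
  -- images
  have hen : ∀ (z : W n) (r : ℝ), Hm g1 z = 1 / 2 →
      g1.val (A g1 (φ r z)).1 (A g1 (φ r z)).2 (A g1 (φ r z)).2 = 1 := by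
    intro z r hz
    have b1 := (p_Geo1 n g1 hr1 (fun t => φ t z) (hφ.ode z)).2.2 r
    simp only [hφ.zero] at b1
    rw [hz, hHm] at b1
    change g1.val (φ r z).1 (vel g1 (φ r z)) (vel g1 (φ r z)) = 1
    linarith
  have himg : ∀ (z : ℕ → W n) (z₀ : W n) (r : ℕ → ℝ) (r₀ : ℝ), Tendsto z atTop (𝓝 z₀) →
      Tendsto r atTop (𝓝 r₀) → (∀ i, Hm g1 (z i) = 1 / 2) → Hm g1 z₀ = 1 / 2 →
      Tendsto (fun i => (Φ (A g1 (φ (r i) (z i)))).1) atTop (𝓝 (Φ (A g1 (φ r₀ z₀))).1) := by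
    intro z z₀ r r₀ hz hr hz1 hz0
    have b1 := ((A_cont g1 hr1).tendsto _).comp (hfl z z₀ r r₀ hz hr)
    have b2 : Tendsto (fun i => A g1 (φ (r i) (z i))) atTop
        (𝓝[{q : W n | g1.val q.1 q.2 q.2 = 1}] (A g1 (φ r₀ z₀))) :=
      tendsto_nhdsWithin_iff.2 ⟨b1, Eventually.of_forall fun i => hen _ _ (hz1 i)⟩
    have b3 := (hH.cont (A g1 (φ r₀ z₀)) (hen _ _ hz0)).tendsto.comp b2
    exact (continuous_fst.tendsto _).comp b3
  have c1 := himg _ x _ s hlx hls (fun i => hpx _) hx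
  have c2 := himg _ y _ s hly hls (fun i => hpy _) hy
  have c3 : Tendsto (fun i => gd g2 (Φ (A g1 (φ (p (ψ i)).2.2 (p (ψ i)).1))).1
      (Φ (A g1 (φ (p (ψ i)).2.2 (p (ψ i)).2.1))).1) atTop
      (𝓝 (gd g2 (Φ (A g1 (φ s x))).1 (Φ (A g1 (φ s y))).1)) :=
    ((p_CtsD n g2).tendsto ((Φ (A g1 (φ s x))).1, (Φ (A g1 (φ s y))).1)).comp
      (c1.prodMk_nhds c2)
  have c4 : ε ≤ gd g2 (Φ (A g1 (φ s x))).1 (Φ (A g1 (φ s y))).1 :=
    ge_of_tendsto' c3 (fun i => (hpε (ψ i)).le)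
  rw [hs, hPM.self] at c4
  linarith

end Pool.Agent.LX
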