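import Pool.Agent.Work.MP_25cd3b_gt.LX.StmtsF
import Pool.Agent.Work.MP_25cd3b_gt.NG.All

set_option autoImplicit false

/-!
# MP_25cd3b_gt, block LX, item FLy: the smallest Lyapunov exponent and the growth of chains
-/

open MeasureTheory Set Filter Topology
open scoped ContDiff ENNReal

namespace Pool.Agent.LX

open Pool.Agent.MLS (E W)
open Pool.Agent.GM (Frm toF UGeo UT vec)
open Pool.Agent.LR (Cv UG)

namespace IFLy

/-- a limit superior is at least `q` if arbitrarily large arguments have values at least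
`q + B / t` -/
theorem lower (f : ℝ → ℝ) (q B l : ℝ) (hl : 0 < l)
    (h : ∀ k : ℕ, q + B / ((k + 1) * l) ≤ f ((k + 1) * l)) :
    (q : EReal) ≤ limsup (fun t : ℝ => ((f t : ℝ) : EReal)) atTop := by
  by_contra hcon
  rw [not_le] at hcon
  obtain ⟨r, h1, h2⟩ := EReal.lt_iff_exists_real_btwn.1 hcon
  have h2' : r < q := EReal.coe_lt_coe_iff.1 h2
  have hT : Tendsto (fun k : ℕ => ((k : ℝ) + 1) * l) atTop atTop :=
    (tendsto_natCast_atTop_atTop.atTop_add tendsto_const_nhds).atTop_mul_const hl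
  have hlim : Tendsto (fun k : ℕ => q + B / (((k : ℝ) + 1) * l)) atTop (𝓝 (q + 0)) :=
    tendsto_const_nhds.add (tendsto_const_nhds.div_atTop hT)
  rw [add_zero] at hlim
  have hev : ∀ᶠ k : ℕ in atTop, ((r : ℝ) : EReal) ≤ ((f (((k : ℝ) + 1) * l) : ℝ) : EReal) := by
    filter_upwards [hlim.eventually (lt_mem_nhds h2')] with k hk
    exact EReal.coe_le_coe_iff.2 (hk.le.trans (h k))
  have hfr : ∃ᶠ t : ℝ in atTop, ((r : ℝ) : EReal) ≤ ((f t : ℝ) : EReal) :=
    hT.frequently hev.frequently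
  exact absurd (le_limsup_of_frequently_le hfr) (not_le.2 h1)

/-- a limit superior is at most `q` if the values are at most `q + B / t` -/
theorem upper (f : ℝ → ℝ) (q B : ℝ) (h : ∀ t : ℝ, 0 < t → f t ≤ q + B / t) :
    limsup (fun t : ℝ => ((f t : ℝ) : EReal)) atTop ≤ (q : EReal) := by
  have hlim : Tendsto (fun t : ℝ => q + B / t) atTop (𝓝 (q + 0)) :=
    tendsto_const_nhds.add (tendsto_const_nhds.div_atTop tendsto_id)
  rw [add_zero] at hlim
  have hlim2 : Tendsto (fun t : ℝ => ((q + B / t : ℝ) : EReal)) atTop (𝓝 (q : EReal)) :=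
    (continuous_coe_real_ereal.tendsto q).comp hlim
  rw [← hlim2.limsup_eq]
  refine limsup_le_limsup ?_
  filter_upwards [eventually_gt_atTop (0 : ℝ)] with t ht
  exact EReal.coe_le_coe_iff.2 (h t ht)

end IFLy

open IFLy in
/-- item FLy -/
theorem pr_FLy (h1 : JGr) (h2 : JSl) (h3 : BOrt) (h4 : BPos) (h5 : XPosR) : FLy := by
  intro n G _ _ g κ φ M lg a c l V hP Γ hΓ
  have hR : GM.Riem g := hP.riem
  rw [GM.leviCivita_iff MLS.p_NcGa g hR] at hΓ
  subst hΓ
  have hCv : Cv (toF g) κ := ⟨hP.riem, hP.kpos, hP.curv, φ, M, hP.flow⟩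
  have hl := hP.pos
  have hcov : ∀ J : ℝ → E n, J 0 = 0 → MLS.cov (toF g) c J 0 = deriv J 0 := by
    intro J hJ
    rw [MLS.cov, hJ, map_zero, add_zero]
  refine ⟨fun q hq => ?_, fun q hq => ?_⟩
  · refine le_iInf₂ fun J hJ => ?_
    obtain ⟨hJ1, hJ0, hJd, hJo⟩ := hJ
    have hJac : MLS.IsJac (toF g) c J := (GM.isJac_iff MLS.p_NcGa (toF g) hP.riem c J).2 hJ1
    have hNJ : NJ (toF g) c J := by
      refine (h3 n (toF g) κ hCv c J hP.ug hJac).2.1 0 ?_ ?_
      · rw [hJ0, map_zero]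
      · rw [hcov J hJ0, (toF g).symm]
        exact hJo
    obtain ⟨C, hC, hgr⟩ := h1 n G (toF g) κ φ M lg a c l V hP (q * l) hq
    have hN : 0 < MLS.nrm (toF g) (c 0) (deriv J 0) := Real.sqrt_pos.2 (hR _ _ hJd)
    refine lower (fun t => Real.log (GM.nrm g (c t) (J t)) / t) q
      (Real.log (C * MLS.nrm (toF g) (c 0) (deriv J 0)) - q * l) l hl ?_
    intro k
    have hk := hgr J hNJ hJ0 k
    have ht : 0 < ((k : ℝ) + 1) * l := by positivity
    have hlog : Real.log (C * MLS.nrm (toF g) (c 0) (deriv J 0)) + q * l * k ≤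
        Real.log (GM.nrm g (c (((k : ℝ) + 1) * l)) (J (((k : ℝ) + 1) * l))) := by
      have e : C * Real.exp (q * l * k) * MLS.nrm (toF g) (c 0) (deriv J 0) =
          (C * MLS.nrm (toF g) (c 0) (deriv J 0)) * Real.exp (q * l * k) := by ring
      rw [e] at hk
      have h6 := Real.log_le_log (by positivity) hk
      rwa [Real.log_mul (by positivity) (Real.exp_pos _).ne', Real.log_exp] at h6
    show _ ≤ _ / _
    rw [le_div_iff₀ ht, add_mul, div_mul_cancel₀ _ ht.ne']
    nlinarith [hlog]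
  · have hql : 0 < q * l := by
      obtain ⟨_, lam, hlam, hp⟩ := h4 n G (toF g) κ φ M lg a c l V hP
      obtain ⟨s, hs, C, hGr⟩ := h5 V lam _ hlam hp
      by_contra hle
      rw [not_lt] at hle
      refine hq ⟨|C|, fun k Y z hS hY => (hGr k Y z hS hY).trans ?_⟩
      have e1 : Real.exp (-(s * k)) ≤ Real.exp (-(q * l * k)) := by
        apply Real.exp_le_exp.2
        have : (0 : ℝ) ≤ k := Nat.cast_nonneg k
        nlinarith
      have e2 : 0 ≤ ‖Y 0‖ * ‖z‖ := by positivity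
      have e3 : C * Real.exp (-(s * k)) ≤ |C| * Real.exp (-(q * l * k)) :=
        mul_le_mul (le_abs_self C) e1 (Real.exp_pos _).le (abs_nonneg C)
      calc C * Real.exp (-(s * k)) * ‖Y 0‖ * ‖z‖
          = C * Real.exp (-(s * k)) * (‖Y 0‖ * ‖z‖) := by ring
        _ ≤ |C| * Real.exp (-(q * l * k)) * (‖Y 0‖ * ‖z‖) := mul_le_mul_of_nonneg_right e3 e2
        _ = _ := by ring
    have hq0 : 0 < q := pos_of_mul_pos_left hql hl.le
    by_contra hcon
    rw [not_le] at hcon
    obtain ⟨q', h6, h7⟩ := EReal.lt_iff_exists_real_btwn.1 hcon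
    have h6' : q < q' := EReal.coe_lt_coe_iff.1 h6
    obtain ⟨J, C, hNJ, hJ0, hJd, hJg⟩ := h2 n G (toF g) κ φ M lg a c l V hP (q * l) (q' * l) hq
      (mul_lt_mul_of_pos_right h6' hl)
    have hmem : GM.IsJac (MLS.Ga (toF g)) c J ∧ J 0 = 0 ∧ deriv J 0 ≠ 0 ∧
        g.val (c 0) (deriv J 0) (deriv c 0) = 0 := by
      refine ⟨(GM.isJac_iff MLS.p_NcGa (toF g) hP.riem c J).1 hNJ.jac, hJ0, hJd, ?_⟩
      have h8 := ((h3 n (toF g) κ hCv c J hP.ug hNJ.jac).2.2 hNJ).1 0
      rw [hcov J hJ0, (toF g).symm] at h8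
      exact h8
    have hle : GM.lmin g (MLS.Ga (toF g)) c ≤ GM.lyap g c J := iInf₂_le J hmem
    refine absurd (hle.trans ?_) (not_le.2 h7)
    refine upper (fun t => Real.log (GM.nrm g (c t) (J t)) / t) q' (Real.log (max C 1)) ?_
    intro t ht
    show _ / _ ≤ _
    have hq'0 : 0 < q' := hq0.trans h6'
    have hm : (1 : ℝ) ≤ max C 1 := le_max_right _ _
    have hlogm : 0 ≤ Real.log (max C 1) := Real.log_nonneg hm
    rw [div_le_iff₀ ht, add_mul, div_mul_cancel₀ _ ht.ne']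
    have h9 := hJg t ht.le
    have e1 : q' * l * t / l = q' * t := by
      field_simp
    rw [e1] at h9
    have h10 : GM.nrm g (c t) (J t) ≤ max C 1 * Real.exp (q' * t) :=
      h9.trans (mul_le_mul_of_nonneg_right (le_max_left _ _) (Real.exp_pos _).le)
    rcases eq_or_lt_of_le (show 0 ≤ GM.nrm g (c t) (J t) from Real.sqrt_nonneg _) with h11 | h11
    · rw [← h11, Real.log_zero]
      positivity
    · have h12 := Real.log_le_log h11 h10
      rw [Real.log_mul (by positivity) (Real.exp_pos _).ne', Real.log_exp] at h12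
      linarith

end Pool.Agent.LX
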