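import Pool.Agent.Work.MP_25cd3b_gt.LX.StmtsK

set_option autoImplicit false

open MeasureTheory Set Filter Topology
open scoped ContDiff ENNReal
open Pool.Agent.Work.MP_c9f990_an.Al (IsFlow)

namespace Pool.Agent.LX

open Pool.Agent.MLS Pool.Agent.STR Pool.Agent.LR

namespace IFMain

/-- A rate below a rate is a rate. -/
theorem gr_mono {V : Type} [NormedAddCommGroup V] [NormedSpace ℝ V] {H : Bf V} {s t : ℝ}
    (h : Gr H s) (hts : t ≤ s) : Gr H t := by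
  obtain ⟨C, hC⟩ := h
  refine ⟨|C|, fun k Y z hY hY0 => (hC k Y z hY hY0).trans ?_⟩
  have h1 : C * Real.exp (-(s * k)) ≤ |C| * Real.exp (-(t * k)) := by
    have hk : (0 : ℝ) ≤ k := Nat.cast_nonneg k
    have h2 : Real.exp (-(s * k)) ≤ Real.exp (-(t * k)) :=
      Real.exp_le_exp.mpr (neg_le_neg (mul_le_mul_of_nonneg_right hts hk))
    calc C * Real.exp (-(s * k)) ≤ |C| * Real.exp (-(s * k)) :=
          mul_le_mul_of_nonneg_right (le_abs_self C) (Real.exp_pos _).le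
      _ ≤ |C| * Real.exp (-(t * k)) := mul_le_mul_of_nonneg_left h2 (abs_nonneg C)
  exact mul_le_mul_of_nonneg_right (mul_le_mul_of_nonneg_right h1 (norm_nonneg _)) (norm_nonneg _)

/-- The supremum of the rates. -/
theorem exists_sup {V : Type} [NormedAddCommGroup V] [NormedSpace ℝ V] {H : Bf V} {s₀ s : ℝ}
    (h0 : 0 < s₀) (hs₀ : Gr H s₀) (hs : ¬ Gr H s) :
    ∃ S : ℝ, 0 < S ∧ S ≤ s ∧ ∀ ε : ℝ, 0 < ε → Gr H (S - ε) ∧ ¬ Gr H (S + ε) := by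
  have hne : {t : ℝ | Gr H t}.Nonempty := ⟨s₀, hs₀⟩
  have hub : ∀ t ∈ {t : ℝ | Gr H t}, t ≤ s := by
    intro t ht
    by_contra hlt
    exact hs (gr_mono ht (not_le.mp hlt).le)
  have hbdd : BddAbove {t : ℝ | Gr H t} := ⟨s, hub⟩
  refine ⟨sSup {t : ℝ | Gr H t}, lt_of_lt_of_le h0 (le_csSup hbdd hs₀), csSup_le hne hub,
    fun ε hε => ⟨?_, fun h => ?_⟩⟩
  · obtain ⟨t, ht, hlt⟩ := exists_lt_of_lt_csSup hne (sub_lt_self (sSup {t : ℝ | Gr H t}) hε)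
    exact gr_mono ht hlt.le
  · have := le_csSup hbdd h
    linarith

/-- The exponential beats a constant. -/
theorem exp_contra {C r : ℝ} (hr : 0 < r) :
    ∃ K : ℕ, ∀ k : ℕ, K ≤ k → ∀ p q τ : ℝ, r ≤ p - q → 1 / 2 * Real.exp (-(q * k)) ≤ |τ| →
      |τ| ≤ C * Real.exp (-(p * k)) → False := by
  obtain ⟨K, hK⟩ := exists_nat_gt (2 * C / r)
  refine ⟨K, fun k hk p q τ hpq h1 h2 => ?_⟩
  have hk0 : (0 : ℝ) ≤ k := Nat.cast_nonneg k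
  have hkK : (K : ℝ) ≤ k := by exact_mod_cast hk
  have h3 : 2 * C < r * k := by
    have h4 : 2 * C / r < k := lt_of_lt_of_le hK hkK
    rw [div_lt_iff₀ hr] at h4
    linarith
  have h5 : r * k ≤ (p - q) * k := mul_le_mul_of_nonneg_right hpq hk0
  have h6 : (p - q) * k + 1 ≤ Real.exp ((p - q) * k) := Real.add_one_le_exp _
  have h7 : Real.exp (-(q * k)) = Real.exp ((p - q) * k) * Real.exp (-(p * k)) := by
    rw [← Real.exp_add]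
    congr 1
    ring
  have h8 : 1 / 2 * Real.exp (-(q * k)) ≤ C * Real.exp (-(p * k)) := h1.trans h2
  rw [h7] at h8
  have h9 : 0 < Real.exp (-(p * k)) := Real.exp_pos _
  have h10 : 1 / 2 * Real.exp ((p - q) * k) ≤ C := by
    by_contra hlt
    have := mul_lt_mul_of_pos_right (not_le.mp hlt) h9
    linarith
  linarith

/-- `Cv` from `Per`. -/
theorem per_cv {n : ℕ} {G : Type} [Group G] [MulAction G (E n)] {g : Form n} {κ : ℝ}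
    {φ : ℝ → W n → W n} {M : ℝ → W n → W n →L[ℝ] W n} {lg : E n → E n → E n} {a : G}
    {c : ℝ → E n} {l : ℝ} {V : Submodule ℝ (E n)} (hP : Per n G g κ φ M lg a c l V) : Cv g κ :=
  ⟨hP.riem, hP.kpos, hP.curv, φ, M, hP.flow⟩

end IFMain

open IFMain

theorem pr_FMain (h1 : BPos) (h2 : XPosR) (h3 : KUp) (h4 : KLo) (h5 : CTr) (h6 : CTau) :
    FMain := by
  intro n G _ _ θ g1 g2 κ₁ κ₂ φ₁ φ₂ M₁ M₂ lg₁ lg₂ a c₁ c₂ l V₁ V₂ Φ hP1 hP2 hHc hcor s s₂ hGr2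
    hs0 hss
  by_contra hGr
  obtain ⟨lam, hlam, hpos⟩ := (h1 n G g1 κ₁ φ₁ M₁ lg₁ a c₁ l V₁ hP1).2
  obtain ⟨s₀, hs₀, hGs₀⟩ := h2 V₁ lam _ hlam hpos
  obtain ⟨S, hS, hSs, hSε⟩ := exists_sup hs₀ hGs₀ hGr
  obtain ⟨ε, hε, hε1, hε2⟩ : ∃ ε : ℝ, 0 < ε ∧ 15 * ε < S ∧ 11 * ε < s₂ - s := by
    refine ⟨min (S / 16) ((s₂ - s) / 12), lt_min (by linarith) (by linarith), ?_, ?_⟩
    · have := min_le_left (S / 16) ((s₂ - s) / 12)
      linarith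
    · have := min_le_right (S / 16) ((s₂ - s) / 12)
      linarith
  obtain ⟨hG1, hG2⟩ := hSε ε hε
  have cv1 : Cv g1 κ₁ := per_cv hP1
  have cv2 : Cv g2 κ₂ := per_cv hP2
  obtain ⟨C, ρ, k₀, -, hρ, hup⟩ := h3 n G g2 κ₂ φ₂ M₂ lg₂ (θ a) c₂ l V₂ hP2 s₂ (s₂ - ε) hGr2
    (by linarith) (by linarith)
  obtain ⟨htr1, htr2⟩ := h5 n G hP1.coc θ g1 g2 κ₁ Φ cv1 hP1.inv hP2.riem hP2.inv hHc
  obtain ⟨δ, hδ, htr⟩ := htr1 ρ hρ
  obtain ⟨K, hK⟩ := exp_contra (C := C) hε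
  obtain ⟨k, hk, α, β, τ, hα, hβ, hαc, hβc, hαA, hβA, hτ, hlow⟩ :=
    h4 n G g1 κ₁ φ₁ M₁ lg₁ a c₁ l V₁ hP1 (S - ε) (S - 2 * ε) (S + ε) (4 * ε) hG1 hG2
      (by linarith) (by linarith) (by linarith) (by linarith) (by linarith) δ (max k₀ K) hδ
  obtain ⟨α2, hα2, hcα⟩ := hHc.flow α hα
  obtain ⟨β2, hβ2, hcβ⟩ := hHc.flow β hβ
  have h8 := hup k α2 β2 τ (le_trans (le_max_left _ _) hk) hα2 hβ2
    ((htr α c₁ α2 c₂ hα hP1.ug hcα hcor).1 hαc) ((htr β c₁ β2 c₂ hβ hP1.ug hcβ hcor).2 hβc)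
    ((htr2 α c₁ α2 c₂ hα hP1.ug hcα hcor).1 hαA) ((htr2 β c₁ β2 c₂ hβ hP1.ug hcβ hcor).2 hβA)
    (h6 n G hP1.coc θ g1 g2 κ₁ κ₂ Φ cv1 hP1.inv cv2 hP2.inv hHc a α β α2 β2 k l τ hα hβ hα2 hβ2
      hcα hcβ hτ)
  exact hK k (le_trans (le_max_right _ _) hk) (s₂ - ε) (S + ε + 2 * (4 * ε)) τ (by linarith) hlow h8

end Pool.Agent.LX
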