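import Pool.Agent.Work.MP_25cd3b_gt.LX.StmtsF
import Pool.Agent.Work.MP_25cd3b_gt.NG.All
import Pool.Agent.Work.MP_13b5d9_gt.ST.All93

set_option autoImplicit false

/-!
# MP_25cd3b_gt, block LX, item FPer: the data of a closed geodesic
-/

open MeasureTheory Set Filter Topology
open scoped ContDiff ENNReal
open Pool.Agent.Work.MP_c9f990_an.Al (IsFlow)

namespace Pool.Agent.LX

open Pool.Agent.MLS (E W)
open Pool.Agent.GM (Frm toF UGeo UT vec)

theorem pr_FPer : FPer := by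
  intro n G _ _ hG g hg hi hs a c l hc hl hp
  have hG' : MLS.Cocompact n G := (GM.cocompact_iff G).2 hG
  obtain ⟨κ, hκ, hcv⟩ := MLS.p_NgSec n G hG' (toF g) hg hi (GM.KB.negSec g hg hs)
  obtain ⟨φ, M, hφ⟩ := MLS.p_Flow n G hG' (toF g) hg hi
  have h0 : MLS.CurvLe (toF g) 0 := by
    intro x u v
    have h1 := hcv x u v
    have h2 : 0 ≤ κ ^ 2 * MLS.Ar (toF g) x u v :=
      mul_nonneg (sq_nonneg κ) (MLS.INgPt.ar_nonneg (toF g) x u v)
    have h3 : -(0 : ℝ) ^ 2 * MLS.Ar (toF g) x u v = 0 := by ring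
    linarith
  obtain ⟨lg, hlg⟩ := STR.p_Log n (toF g) φ M hg hφ (MLS.p_NgNoC n (toF g) hg h0)
  refine ⟨κ, φ, M, lg, LinearMap.ker ((toF g).val (c 0) (deriv c 0)).toLinearMap, ?_⟩
  exact
    { coc := hG'
      riem := hg
      inv := hi
      kpos := hκ
      curv := hcv
      flow := hφ
      log := hlg
      ug := ⟨(GM.isGeo_iff g c).2 hc.1, hc.2⟩
      pos := hl
      per := hp
      mem := fun v => LinearMap.mem_ker }

end Pool.Agent.LX
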