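import Pool.Agent.Work.MP_25cd3b_gt.LX.StmtsK

set_option autoImplicit false

/-!
# MP_25cd3b_gt, block LX: item JChn (from Jacobi fields to chains)
-/

open MeasureTheory Set Filter Topology
open scoped ContDiff ENNReal
open Pool.Agent.Work.MP_c9f990_an.Al (IsFlow)

namespace Pool.Agent.LX

open Pool.Agent.MLS Pool.Agent.STR Pool.Agent.LR

namespace IJChn

variable {n : ℕ} {G : Type} [Group G] [MulAction G (E n)]

theorem diff_act (C : Cocompact n G) (b : G) (x : E n) :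
    DifferentiableAt ℝ (fun y : E n => b • y) x :=
  ((C.smooth b).differentiable (by norm_num)).differentiableAt

theorem dac_mul (C : Cocompact n G) (a b : G) (x v : E n) :
    dac (a * b) x v = dac a (b • x) (dac b x v) := by
  unfold dac
  have e : (fun y : E n => (a * b) • y) = (fun y : E n => a • y) ∘ (fun y : E n => b • y) := by
    funext y
    exact mul_smul a b y
  rw [e, fderiv_comp x (diff_act C a (b • x)) (diff_act C b x)]
  rfl

theorem dac_one (x v : E n) : dac (1 : G) x v = v := by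
  unfold dac
  have e : (fun y : E n => (1 : G) • y) = id := by
    funext y
    exact one_smul G y
  rw [e, fderiv_id]
  rfl

theorem dac_inv_left (C : Cocompact n G) (b : G) (x v : E n) :
    dac b⁻¹ (b • x) (dac b x v) = v := by
  rw [← dac_mul C, inv_mul_cancel, dac_one]

theorem dac_inv_right (C : Cocompact n G) (b : G) (x v : E n) :
    dac b x (dac b⁻¹ (b • x) v) = v := by
  have h := dac_mul C b b⁻¹ (b • x) v
  rw [inv_smul_smul, mul_inv_cancel, dac_one] at h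
  exact h.symm

variable {g : Form n} {κ : ℝ} {φ : ℝ → W n → W n} {M : ℝ → W n → W n →L[ℝ] W n}
  {lg : E n → E n → E n} {a : G} {c : ℝ → E n} {l : ℝ} {V : Submodule ℝ (E n)}

theorem per_pow (P : Per n G g κ φ M lg a c l V) (j : ℕ) :
    ∀ t, c (t + j * l) = a ^ j • c t := by
  induction j with
  | zero =>
    intro t
    simp
  | succ j ih =>
    intro t
    have e : t + ((j + 1 : ℕ) : ℝ) * l = (t + j * l) + l := by
      push_cast
      ring
    rw [e, P.per, ih, pow_succ', mul_smul]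

theorem deriv_pow (P : Per n G g κ φ M lg a c l V) (j : ℕ) (t : ℝ) :
    deriv c (t + j * l) = dac (a ^ j) (c t) (deriv c t) := by
  have hc : ContDiff ℝ 2 c := P.ug.geo.smooth
  have hd : Differentiable ℝ c := hc.differentiable (by norm_num)
  have e : (fun t => c (t + j * l)) = fun t => a ^ j • c t := funext (per_pow P j)
  have h1 : deriv (fun t => c (t + j * l)) t = deriv c (t + j * l) := by
    rw [deriv_comp_add_const]
  have h2 : deriv (fun t => a ^ j • c t) t = dac (a ^ j) (c t) (deriv c t) :=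
    ((diff_act P.coc (a ^ j) (c t)).hasFDerivAt.comp_hasDerivAt t (hd t).hasDerivAt).deriv
  rw [← h1, e, h2]

/-- the translates of the Jacobi field -/
noncomputable def Jf (a : G) (c J : ℝ → E n) (l : ℝ) (j : ℕ) (t : ℝ) : E n :=
  dac (a ^ j)⁻¹ (c (t + j * l)) (J (t + j * l))

theorem Jf_jac (h2 : BJm) (h3 : BJs) (P : Per n G g κ φ M lg a c l V) {J : ℝ → E n}
    (hJ : IsJac g c J) (j : ℕ) :
    IsJac g c (Jf a c J l j) ∧ ∀ t, cov g c (Jf a c J l j) t =
      dac (a ^ j)⁻¹ (c (t + j * l)) (cov g c J (t + j * l)) := by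
  obtain ⟨hg, hj, hc⟩ := h3 n g P.riem c J 1 (j * l) P.ug.geo hJ
  simp only [one_mul, one_smul] at hg hj hc
  have e : (fun s => (a ^ j)⁻¹ • c (s + j * l)) = c := by
    funext s
    rw [per_pow P, inv_smul_smul]
  have k := h2 n G P.coc g P.riem P.inv (a ^ j)⁻¹ (fun s => c (s + j * l))
    (fun s => J (s + j * l))
  simp only [e] at k
  refine ⟨k.2 hg hj, fun t => ?_⟩
  rw [← hc t]
  refine k.1 t ?_ ?_
  · exact (hg.smooth.differentiable (by norm_num)).differentiableAt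
  · exact (hj.smooth.differentiable (by norm_num)).differentiableAt

theorem eq_pow (P : Per n G g κ φ M lg a c l V) (j : ℕ) : c (j * l) = a ^ j • c 0 := by
  have h := per_pow P j 0
  rwa [zero_add] at h

theorem Jf_zero (a : G) (c J : ℝ → E n) (l : ℝ) (j : ℕ) :
    Jf a c J l j 0 = dac (a ^ j)⁻¹ (c (j * l)) (J (j * l)) := by
  unfold Jf
  rw [zero_add]

theorem act_Jf (P : Per n G g κ φ M lg a c l V) (J : ℝ → E n) (j : ℕ) :
    dac (a ^ j) (c 0) (Jf a c J l j 0) = J (j * l) := by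
  rw [Jf_zero, eq_pow P, dac_inv_right P.coc]

theorem Jf_mem (P : Per n G g κ φ M lg a c l V) {J : ℝ → E n} (hJ : NJ g c J) (j : ℕ) :
    Jf a c J l j 0 ∈ V := by
  rw [P.mem]
  have h := P.inv (a ^ j) (c 0) (deriv c 0) (Jf a c J l j 0)
  rw [act_Jf P J j, ← deriv_pow P j 0, zero_add, ← eq_pow P j, hJ.ort] at h
  exact h.symm

/-- transport of a vector at `c ((j + 1) l)` -/
theorem transp (P : Per n G g κ φ M lg a c l V) (j : ℕ) (X : E n) :
    dac a (c 0) (dac (a ^ (j + 1))⁻¹ (c (((j + 1 : ℕ) : ℝ) * l)) X) =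
      dac (a ^ j)⁻¹ (c (((j + 1 : ℕ) : ℝ) * l)) X := by
  have e : (a ^ (j + 1))⁻¹ • c (((j + 1 : ℕ) : ℝ) * l) = c 0 := by
    rw [eq_pow P, inv_smul_smul]
  have h := dac_mul P.coc a (a ^ (j + 1))⁻¹ (c (((j + 1 : ℕ) : ℝ) * l)) X
  rw [e] at h
  rw [← h]
  congr 2
  rw [pow_succ]
  group

theorem add_mul_succ (j : ℕ) (l : ℝ) : l + (j : ℝ) * l = ((j + 1 : ℕ) : ℝ) * l := by
  push_cast
  ring

theorem Jf_l (P : Per n G g κ φ M lg a c l V) (J : ℝ → E n) (j : ℕ) :
    Jf a c J l j l = dac a (c 0) (Jf a c J l (j + 1) 0) := by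
  rw [Jf_zero, transp P]
  unfold Jf
  rw [add_mul_succ]

theorem cov_l (h2 : BJm) (h3 : BJs) (P : Per n G g κ φ M lg a c l V) {J : ℝ → E n}
    (hJ : IsJac g c J) (j : ℕ) :
    cov g c (Jf a c J l j) l = dac a (c 0) (cov g c (Jf a c J l (j + 1)) 0) := by
  rw [(Jf_jac h2 h3 P hJ j).2 l, (Jf_jac h2 h3 P hJ (j + 1)).2 0, zero_add, transp P,
    add_mul_succ]

end IJChn

open IJChn in
/-- ITEM JChn. -/
theorem pr_JChn (h1 : BPos) (h2 : BJm) (h3 : BJs) : JChn := by
  intro n G _ _ g κ φ M lg a c l V P J hJ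
  refine ⟨fun j => ⟨Jf a c J l j 0, Jf_mem P hJ j⟩, fun j => (act_Jf P J j).symm, ?_⟩
  intro k j _ w
  have f1 := (h1 n G g κ φ M lg a c l V P).1 ⟨Jf a c J l j 0, Jf_mem P hJ j⟩
    ⟨Jf a c J l (j + 1) 0, Jf_mem P hJ (j + 1)⟩ 0 w (Jf a c J l j) (Jf_jac h2 h3 P hJ.jac j).1 rfl
    (Jf_l P J j)
  have f2 := (h1 n G g κ φ M lg a c l V P).1 ⟨Jf a c J l (j + 1) 0, Jf_mem P hJ (j + 1)⟩
    ⟨Jf a c J l (j + 2) 0, Jf_mem P hJ (j + 2)⟩ w 0 (Jf a c J l (j + 1))
    (Jf_jac h2 h3 P hJ.jac (j + 1)).1 rfl (Jf_l P J (j + 1))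
  have hl : c l = a • c 0 := by
    have := P.per 0
    rwa [zero_add] at this
  rw [cov_l h2 h3 P hJ.jac j, hl, P.inv] at f1
  refine (congrArg₂ (· + ·) f1 f2).trans ?_
  simp

end Pool.Agent.LX
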