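import Pool.Agent.Work.MP_25cd3b_gt.LX.StmtsK
import Pool.Agent.Work.MP_25cd3b_gt.NG.All

set_option autoImplicit false

/-!
# MP_25cd3b_gt, block LX, item JGr: uniform growth of Jacobi fields
-/

open MeasureTheory Set Filter Topology
open scoped ContDiff ENNReal
open Pool.Agent.Work.MP_c9f990_an.Al (IsFlow)

namespace Pool.Agent.LX

open Pool.Agent.MLS Pool.Agent.STR Pool.Agent.LR

namespace IJGr

/-- the two sides of Green's formula for two solutions -/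
theorem green2 (h1 : XGreen) {V : Type} [NormedAddCommGroup V] [NormedSpace ℝ V] {lam : ℝ}
    {H : Bf V} (hP : Pos lam H) (k : ℕ) (Y Z : ℕ → V)
    (hY : Sol (fun _ => H) (k + 1) Y) (hZ : Sol (fun _ => H) (k + 1) Z) :
    H (Y 0, Y 1) (Z 0, 0) + H (Y k, Y (k + 1)) (0, Z (k + 1)) =
      H (Z 0, Z 1) (Y 0, 0) + H (Z k, Z (k + 1)) (0, Y (k + 1)) := by
  have a := h1 V (fun _ => H) k Y Z hY
  have b := h1 V (fun _ => H) k Z Y hZ
  have e : En (fun _ => H) (k + 1) Y Z = En (fun _ => H) (k + 1) Z Y := by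
    unfold En
    exact Finset.sum_congr rfl fun j _ => hP.symm _ _
  rw [← e] at b
  exact a.symm.trans b

theorem zz {V : Type} [NormedAddCommGroup V] [NormedSpace ℝ V] (H : Bf V) (p : V × V) :
    H p ((0 : V), (0 : V)) = 0 := by
  have h : ((0 : V), (0 : V)) = (0 : V × V) := rfl
  rw [h, map_zero]

variable {n : ℕ} {G : Type} [Group G] [MulAction G (E n)] {g : Form n} {κ : ℝ}
  {φ : ℝ → W n → W n} {M : ℝ → W n → W n →L[ℝ] W n} {lg : E n → E n → E n} {a : G}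
  {c : ℝ → E n} {l : ℝ} {V : Submodule ℝ (E n)}

theorem per0 (hP : Per n G g κ φ M lg a c l V) (j : ℕ) : c (j * l) = a ^ j • c 0 := by
  induction j with
  | zero => simp
  | succ j ih =>
    have h1 : ((j + 1 : ℕ) : ℝ) * l = j * l + l := by
      push_cast
      ring
    rw [h1, hP.per, ih, pow_succ', mul_smul]

theorem nrm_dac (hP : Per n G g κ φ M lg a c l V) (b : G) (x v : E n) :
    nrm g (b • x) (dac b x v) = nrm g x v := by
  rw [nrm, nrm, hP.inv b x v v]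

end IJGr

open IJGr in
/-- item JGr -/
theorem pr_JGr (h1 : JChn) (h2 : XGreen) (h3 : XBvp) (h4 : BPos) (h5 : BOrt) : JGr := by
  intro n G _ _ g κ φ M lg a c l V hP s hG
  obtain ⟨hform, lam, hlam, hPos⟩ := h4 n G g κ φ M lg a c l V hP
  obtain ⟨C₀, hC₀⟩ := hG
  obtain ⟨A, hA, hAn⟩ := (pr_Bnd n g {c 0} isCompact_singleton).2 hP.riem
  refine ⟨(|C₀| * A ^ 2 + 1)⁻¹, by positivity, ?_⟩
  intro J hJ hJ0 k
  obtain ⟨Z, hZ, hZs⟩ := h1 n G g κ φ M lg a c l V hP J hJ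
  have hZ0 : Z 0 = 0 := by
    have h := hZ 0
    rw [Nat.cast_zero, zero_mul, hJ0, pow_zero] at h
    have hd : dac (1 : G) (c 0) = ContinuousLinearMap.id ℝ (E n) := by
      unfold dac
      simp only [one_smul]
      exact fderiv_fun_id
    rw [hd] at h
    exact Subtype.ext h.symm
  have hJl : J l = dac a (c 0) (Z 1) := by
    have h := hZ 1
    rwa [Nat.cast_one, one_mul, pow_one] at h
  have hCv : Cv g κ := ⟨hP.riem, hP.kpos, hP.curv, φ, M, hP.flow⟩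
  have hcov : cov g c J 0 = deriv J 0 := by
    rw [cov, hJ0, map_zero, add_zero]
  have hξV : deriv J 0 ∈ V := by
    rw [hP.mem, ← hcov]
    exact ((h5 n g κ hCv c J hP.ug hJ.jac).2.2 hJ).1 0
  obtain ⟨Y, hY0, hYk, hY⟩ := h3 V lam hlam (fun _ => HH g φ a (c 0) l V) (fun _ => hPos) k
    ⟨deriv J 0, hξV⟩ 0 (fun _ => 0)
  have hYs : Sol (fun _ => HH g φ a (c 0) l V) (k + 1) Y := fun j hj w => by
    simpa using hY j hj w
  have hg := green2 h2 hPos k Y Z hYs (hZs (k + 1))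
  rw [hZ0, hYk, hY0, zz, zz, zero_add, add_zero] at hg
  have hf := hform 0 (Z 1) ⟨deriv J 0, hξV⟩ 0 J hJ.jac hJ0 hJl
  rw [hg.symm, hcov] at hf
  have h0 : dac a (c 0) ((0 : V) : E n) = 0 := by
    rw [Submodule.coe_zero, map_zero]
  rw [h0, map_zero, zero_sub] at hf
  have hb := hC₀ k Y (Z (k + 1)) hYs hYk
  rw [hf, abs_neg, hY0, abs_of_nonneg (g.nonneg _ _)] at hb
  -- the square of the norm
  have hsq : g.val (c 0) (deriv J 0) (deriv J 0) = nrm g (c 0) (deriv J 0) ^ 2 := by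
    rw [nrm, Real.sq_sqrt (g.nonneg _ _)]
  have hn0 : 0 ≤ nrm g (c 0) (deriv J 0) := Real.sqrt_nonneg _
  have hn1 : 0 ≤ nrm g (c 0) (Z (k + 1)) := Real.sqrt_nonneg _
  have ha1 : ‖(⟨deriv J 0, hξV⟩ : V)‖ ≤ A * nrm g (c 0) (deriv J 0) := hAn (c 0) rfl _
  have ha2 : ‖Z (k + 1)‖ ≤ A * nrm g (c 0) (Z (k + 1)) := hAn (c 0) rfl _
  have hend : nrm g (c ((k + 1) * l)) (J ((k + 1) * l)) = nrm g (c 0) (Z (k + 1)) := by
    have e1 : ((k : ℝ) + 1) * l = ((k + 1 : ℕ) : ℝ) * l := by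
      push_cast
      ring
    rw [e1, hZ (k + 1), per0 hP, nrm_dac hP]
  rw [hend]
  have hexp : 0 < Real.exp (-(s * k)) := Real.exp_pos _
  have hmain : nrm g (c 0) (deriv J 0) ^ 2 ≤
      (|C₀| * A ^ 2 + 1) * Real.exp (-(s * k)) * nrm g (c 0) (Z (k + 1)) *
        nrm g (c 0) (deriv J 0) := by
    rw [← hsq]
    refine hb.trans ?_
    have q1 : ‖(⟨deriv J 0, hξV⟩ : V)‖ * ‖Z (k + 1)‖ ≤
        (A * nrm g (c 0) (deriv J 0)) * (A * nrm g (c 0) (Z (k + 1))) :=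
      mul_le_mul ha1 ha2 (norm_nonneg _) (by positivity)
    have q2 : C₀ * Real.exp (-(s * k)) ≤ |C₀| * Real.exp (-(s * k)) :=
      mul_le_mul_of_nonneg_right (le_abs_self _) hexp.le
    calc C₀ * Real.exp (-(s * k)) * ‖(⟨deriv J 0, hξV⟩ : V)‖ * ‖Z (k + 1)‖
        = C₀ * Real.exp (-(s * k)) * (‖(⟨deriv J 0, hξV⟩ : V)‖ * ‖Z (k + 1)‖) := by ring
      _ ≤ |C₀| * Real.exp (-(s * k)) *
          ((A * nrm g (c 0) (deriv J 0)) * (A * nrm g (c 0) (Z (k + 1)))) :=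
          mul_le_mul q2 q1 (by positivity) (by positivity)
      _ = (|C₀| * A ^ 2) * (Real.exp (-(s * k)) * nrm g (c 0) (Z (k + 1)) *
          nrm g (c 0) (deriv J 0)) := by ring
      _ ≤ (|C₀| * A ^ 2 + 1) * (Real.exp (-(s * k)) * nrm g (c 0) (Z (k + 1)) *
          nrm g (c 0) (deriv J 0)) :=
          mul_le_mul_of_nonneg_right (by linarith) (by positivity)
      _ = _ := by ring
  have hQ : 0 < |C₀| * A ^ 2 + 1 := by positivity
  have hmain2 : nrm g (c 0) (deriv J 0) ≤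
      (|C₀| * A ^ 2 + 1) * Real.exp (-(s * k)) * nrm g (c 0) (Z (k + 1)) := by
    rcases eq_or_lt_of_le hn0 with h | h
    · rw [← h]
      positivity
    · rw [sq] at hmain
      exact le_of_mul_le_mul_right hmain h
  rw [mul_assoc, inv_mul_le_iff₀ hQ]
  calc Real.exp (s * k) * nrm g (c 0) (deriv J 0)
      ≤ Real.exp (s * k) *
        ((|C₀| * A ^ 2 + 1) * Real.exp (-(s * k)) * nrm g (c 0) (Z (k + 1))) :=
        mul_le_mul_of_nonneg_left hmain2 (Real.exp_pos _).le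
    _ = (Real.exp (s * k) * Real.exp (-(s * k))) *
        ((|C₀| * A ^ 2 + 1) * nrm g (c 0) (Z (k + 1))) := by ring
    _ = (|C₀| * A ^ 2 + 1) * nrm g (c 0) (Z (k + 1)) := by
        rw [← Real.exp_add, add_neg_cancel, Real.exp_zero, one_mul]

end Pool.Agent.LX
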