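import Pool.Agent.Work.MP_25cd3b_gt.LX.StmtsK

set_option autoImplicit false

/-!
# MP_25cd3b_gt, block LX: item JInv (from chains to Jacobi fields)
-/

open MeasureTheory Set Filter Topology
open scoped ContDiff ENNReal
open Pool.Agent.Work.MP_c9f990_an.Al (IsFlow)

namespace Pool.Agent.LX

open Pool.Agent.MLS Pool.Agent.STR Pool.Agent.LR

namespace IJInv

variable {n : ℕ} {G : Type} [Group G] [MulAction G (E n)]

theorem dac_inj (g : Form n) (hR : Riem g) (hI : Inv G g) (b : G) (x u v : E n)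
    (h : dac b x u = dac b x v) : u = v := by
  by_contra hne
  have h0 : u - v ≠ 0 := sub_ne_zero.2 hne
  have h1 := hR x (u - v) h0
  have h2 := hI b x (u - v) (u - v)
  rw [map_sub, h, sub_self] at h2
  rw [map_zero] at h2
  rw [← h2] at h1
  exact lt_irrefl _ h1

variable {g : Form n} {κ : ℝ} {φ : ℝ → W n → W n} {M : ℝ → W n → W n →L[ℝ] W n}
  {lg : E n → E n → E n} {a : G} {c : ℝ → E n} {l : ℝ} {V : Submodule ℝ (E n)}

theorem per_zero (P : Per n G g κ φ M lg a c l V) : c l = a • c 0 := by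
  have := P.per 0
  rwa [zero_add] at this

theorem deriv_l (P : Per n G g κ φ M lg a c l V) :
    deriv c l = dac a (c 0) (deriv c 0) := by
  have hc : ContDiff ℝ 2 c := P.ug.geo.smooth
  have hd : Differentiable ℝ c := hc.differentiable (by norm_num)
  have e : (fun t => c (t + l)) = fun t => a • c t := funext P.per
  have h1 : deriv (fun t => c (t + l)) 0 = deriv c l := by
    rw [deriv_comp_add_const, zero_add]
  have ha : DifferentiableAt ℝ (fun y : E n => a • y) (c 0) :=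
    ((P.coc.smooth a).differentiable (by norm_num)).differentiableAt
  have h2 : deriv (fun t => a • c t) 0 = dac a (c 0) (deriv c 0) :=
    (ha.hasFDerivAt.comp_hasDerivAt (0 : ℝ) (hd 0).hasDerivAt).deriv
  rw [← h1, e, h2]

theorem orth_l (P : Per n G g κ φ M lg a c l V) (v : V) :
    g.val (c l) (deriv c l) (dac a (c 0) v) = 0 := by
  rw [per_zero P, deriv_l P, P.inv]
  exact (P.mem v).1 v.2

theorem cv (P : Per n G g κ φ M lg a c l V) : Cv g κ :=
  ⟨P.riem, P.kpos, P.curv, ⟨φ, M, P.flow⟩⟩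

/-- the Jacobi field which vanishes at `0` and has the value `dac a o v` at `l` -/
theorem exJ (h2 : BBv) (h3 : BOrt) (P : Per n G g κ φ M lg a c l V) (v : V) :
    ∃ J, NJ g c J ∧ J 0 = 0 ∧ J l = dac a (c 0) v := by
  obtain ⟨J, hJ, h0, hl⟩ := ((h2 n g κ (cv P) c P.ug.geo).1 0 l P.pos.ne).1 0 (dac a (c 0) v)
  refine ⟨J, ?_, h0, hl⟩
  refine (h3 n g κ (cv P) c J P.ug hJ).1 0 l P.pos.ne ?_ ?_
  · rw [h0, map_zero]
  · rw [hl]
    exact orth_l P v

theorem cov_zero {J : ℝ → E n} (h0 : J 0 = 0) : cov g c J 0 = deriv J 0 := by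
  unfold cov
  rw [h0, map_zero, add_zero]

theorem formula (h4 : BPos) (P : Per n G g κ φ M lg a c l V) (v : V) {J : ℝ → E n}
    (hJ : NJ g c J) (h0 : J 0 = 0) (hl : J l = dac a (c 0) v) (w : V) :
    HH g φ a (c 0) l V (0, v) (w, 0) = -g.val (c 0) (deriv J 0) w := by
  have := (h4 n G g κ φ M lg a c l V P).1 0 v w 0 J hJ.jac (by rw [h0]; rfl) hl
  rw [this, cov_zero h0]
  simp

theorem nondeg (h2 : BBv) (h3 : BOrt) (h4 : BPos) (P : Per n G g κ φ M lg a c l V) (v : V)
    (h : ∀ w : V, HH g φ a (c 0) l V (0, v) (w, 0) = 0) : v = 0 := by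
  obtain ⟨J, hJ, h0, hl⟩ := exJ h2 h3 P v
  have hm : deriv J 0 ∈ V := by
    rw [P.mem, ← cov_zero (g := g) (c := c) h0]
    exact ((h3 n g κ (cv P) c J P.ug hJ.jac).2.2 hJ).1 0
  have e := formula h4 P v hJ h0 hl ⟨deriv J 0, hm⟩
  rw [h] at e
  have hz : deriv J 0 = 0 := by
    by_contra hne
    have := P.riem (c 0) _ hne
    have e' : g.val (c 0) (deriv J 0) (deriv J 0) = 0 := by
      have := e
      simp only at this
      linarith
    linarith
  have hJ0 := (h2 n g κ (cv P) c P.ug.geo).2.1 J 0 hJ.jac h0 hz l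
  rw [hl] at hJ0
  have := dac_inj g P.riem P.inv a (c 0) v 0 (by rw [hJ0, map_zero])
  exact Subtype.ext this

end IJInv

open IJInv in
theorem pr_JInv (h1 : JChn) (h2 : BBv) (h3 : BOrt) (h4 : BPos) : JInv := by
  intro n G _ _ g κ φ M lg a c l V P k Z hZ hZ0
  obtain ⟨J, hJ, h0, hl⟩ := exJ h2 h3 P (Z 1)
  obtain ⟨Z', hZ'1, hZ'2⟩ := h1 n G g κ φ M lg a c l V P J hJ
  have e0 : Z' 0 = 0 := by
    have := hZ'1 0
    rw [Nat.cast_zero, zero_mul, h0] at this
    exact Subtype.ext (dac_inj g P.riem P.inv (a ^ 0) (c 0) (Z' 0) 0 (by rw [← this, map_zero]))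
  have e1 : Z' 1 = Z 1 := by
    have := hZ'1 1
    rw [Nat.cast_one, one_mul, hl, pow_one] at this
    exact Subtype.ext (dac_inj g P.riem P.inv a (c 0) (Z' 1) (Z 1) this.symm)
  have key : ∀ j, (j ≤ k + 1 → Z' j = Z j) ∧ (j + 1 ≤ k + 1 → Z' (j + 1) = Z (j + 1)) := by
    intro j
    induction j with
    | zero => exact ⟨fun _ => by rw [e0, hZ0], fun _ => e1⟩
    | succ j ih =>
      refine ⟨ih.2, ?_⟩
      intro hj
      have ha := ih.1 (by omega)
      have hb := ih.2 (by omega)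
      have q : Z' (j + 1 + 1) - Z (j + 1 + 1) = 0 := by
        apply nondeg h2 h3 h4 P
        intro w
        have s1 := hZ j (by omega) w
        have s2 := hZ'2 (k + 1) j (by omega) w
        rw [ha, hb] at s2
        have s3 : HH g φ a (c 0) l V (Z (j + 1), Z' (j + 2)) (w, 0) -
            HH g φ a (c 0) l V (Z (j + 1), Z (j + 2)) (w, 0) = 0 := by linarith
        have s4 : ((0 : V), Z' (j + 1 + 1) - Z (j + 1 + 1)) =
            (Z (j + 1), Z' (j + 2)) - (Z (j + 1), Z (j + 2)) := by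
          rw [Prod.mk_sub_mk, sub_self]
        rw [s4, map_sub]
        exact s3
      exact sub_eq_zero.1 q
  refine ⟨J, hJ, h0, ?_, fun w => formula h4 P (Z 1) hJ h0 hl w⟩
  intro j hj
  rw [hZ'1 j, (key j).1 hj]

end Pool.Agent.LX
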