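import Pool.Agent.Work.MP_25cd3b_gt.LX.StmtsK
import Pool.Agent.Work.MP_25cd3b_gt.M.I_Op
import Pool.Agent.Work.MP_25cd3b_gt.NC.I_Ga
import Pool.Agent.Work.MP_25cd3b_gt.NC.I_Geo
import Pool.Agent.Work.MP_25cd3b_gt.NG.I_Met

set_option autoImplicit false

/-!
# MP_25cd3b_gt, block LX, item JSl (helper55): a slow Jacobi field
-/

open MeasureTheory Set Filter Topology
open scoped ContDiff ENNReal
open Pool.Agent.Work.MP_c9f990_an.Al (IsFlow)

namespace Pool.Agent.LX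

open Pool.Agent.MLS Pool.Agent.STR Pool.Agent.LR

namespace IJSl

theorem met : NgMet := pr_NgMet (pr_NcGa pr_Op) (pr_NcGeo (pr_NcGa pr_Op))

variable {n : ℕ}

lemma nrm_dac {G : Type} [Group G] [MulAction G (E n)] {g : Form n} (hi : Inv G g) (b : G)
    (x v : E n) : nrm g (b • x) (dac b x v) = nrm g x v := by
  unfold nrm
  rw [hi]

lemma nrm_le (g : Form n) (x : E n) : ∃ C : ℝ, 0 ≤ C ∧ ∀ v, nrm g x v ≤ C * ‖v‖ := by
  refine ⟨Real.sqrt ‖g.val x‖, Real.sqrt_nonneg _, fun v => ?_⟩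
  unfold nrm
  have e : Real.sqrt ‖g.val x‖ * ‖v‖ = Real.sqrt (‖g.val x‖ * ‖v‖ ^ 2) := by
    rw [Real.sqrt_mul (norm_nonneg (g.val x)), Real.sqrt_sq (norm_nonneg v)]
  rw [e]
  refine Real.sqrt_le_sqrt ?_
  have h1 := (g.val x).le_opNorm₂ v v
  rw [Real.norm_eq_abs] at h1
  have h2 := le_abs_self (g.val x v v)
  nlinarith

lemma mono (hB : BOrt) {g : Form n} {κ : ℝ} (hCv : Cv g κ) (c J : ℝ → E n) (hc : UG g c)
    (hJ : NJ g c J) (h0 : J 0 = 0) (s t : ℝ) (hs : 0 ≤ s) (hst : s ≤ t) :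
    g.val (c s) (J s) (J s) ≤ g.val (c t) (J t) (J t) := by
  have hdc : Differentiable ℝ c := hc.geo.smooth.differentiable (by norm_num)
  have hdJ : Differentiable ℝ J := hJ.jac.smooth.differentiable (by norm_num)
  have hd : ∀ t, HasDerivAt (fun s => g.val (c s) (J s) (J s))
      (g.val (c t) (cov g c J t) (J t) + g.val (c t) (J t) (cov g c J t)) t := fun t =>
    (met n g hCv.riem).2.1 c J J t (hdc t) (hdJ t) (hdJ t)
  have hm := ((hB n g κ hCv c J hc hJ.jac).2.2 hJ).2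
  have hnn : ∀ t, 0 < t → 0 ≤ g.val (c t) (cov g c J t) (J t) := fun t ht => by
    have h := (hm 0 t ht).1
    rw [h0, map_zero] at h
    exact h
  have hmono : MonotoneOn (fun s => g.val (c s) (J s) (J s)) (Ici (0 : ℝ)) := by
    refine monotoneOn_of_deriv_nonneg (convex_Ici 0)
      (fun x _ => (hd x).continuousAt.continuousWithinAt)
      (fun x _ => (hd x).differentiableAt.differentiableWithinAt) ?_
    intro x hx
    rw [interior_Ici] at hx
    rw [(hd x).deriv, g.symm (c x) (J x) (cov g c J x)]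
    have := hnn x hx
    linarith
  exact hmono hs (hs.trans hst) hst

lemma per_pow {G : Type} [Group G] [MulAction G (E n)] (c : ℝ → E n) (a : G) (l : ℝ)
    (h : ∀ t, c (t + l) = a • c t) (k : ℕ) (t : ℝ) : c (t + k * l) = a ^ k • c t := by
  induction k with
  | zero => simp
  | succ k ih =>
    have e : t + ((k + 1 : ℕ) : ℝ) * l = (t + k * l) + l := by
      push_cast
      ring
    rw [e, h, ih, pow_succ', mul_smul]

end IJSl

open IJSl

theorem pr_JSl (h1 : XRec) (h2 : BPos) (h3 : JInv) (h4 : BBv) (h5 : BOrt) : JSl := by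
  intro n G _ _ g κ φ M lg a c l V hP s s' hs hss
  have hCv : Cv g κ := ⟨hP.riem, hP.kpos, hP.curv, φ, M, hP.flow⟩
  obtain ⟨-, lam, hlam, hpos⟩ := h2 n G g κ φ M lg a c l V hP
  obtain ⟨Z, C0, hZ0, hZ1, hSol, hZb⟩ := h1 V lam s s' _ hlam hpos hs hss
  have hJ := fun k : ℕ => h3 n G g κ φ M lg a c l V hP k Z (hSol (k + 1)) hZ0
  choose J hNJ hJ0 hJj _ using hJ
  have hl := hP.pos
  have hbv := h4 n g κ hCv c hP.ug.geo
  have hlast : ∀ k, J k l = dac a (c 0) (Z 1) := fun k => by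
    have h := hJj k 1 (by omega)
    rwa [Nat.cast_one, one_mul, pow_one] at h
  have heq : ∀ k t, J k t = J 0 t := fun k => (hbv.1 0 l hl.ne).2 (J k) (J 0) (hNJ k).jac
    (hNJ 0).jac ((hJ0 k).trans (hJ0 0).symm) ((hlast k).trans (hlast 0).symm)
  have hall : ∀ j : ℕ, J 0 (j * l) = dac (a ^ j) (c 0) (Z j) := fun j => by
    rw [← heq j, hJj j j (by omega)]
  obtain ⟨C2, hC2, hn⟩ := nrm_le g (c 0)
  have hper : ∀ j : ℕ, c (j * l) = a ^ j • c 0 := fun j => by
    rw [← per_pow c a l hP.per j 0, zero_add]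
  have hC0 : 0 ≤ C0 := by
    have h := hZb 0
    rwa [hZ0, norm_zero, Nat.cast_zero, mul_zero, Real.exp_zero, mul_one] at h
  refine ⟨J 0, C2 * C0 * Real.exp |s'|, hNJ 0, hJ0 0, ?_, ?_⟩
  · intro hd
    have hz : ∀ t, J 0 t = 0 := hbv.2.1 (J 0) 0 (hNJ 0).jac (hJ0 0) hd
    have h := hlast 0
    rw [hz] at h
    have h' := hP.inv a (c 0) (Z 1) (Z 1)
    rw [← h, map_zero] at h'
    have hne : ((Z 1 : V) : E n) ≠ 0 := fun h => hZ1 (Subtype.ext h)
    exact (hP.riem (c 0) _ hne).ne h'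
  · intro t ht
    obtain ⟨j, hj⟩ : ∃ j : ℕ, j = ⌈t / l⌉₊ := ⟨_, rfl⟩
    have hj1 : t / l ≤ j := by rw [hj]; exact Nat.le_ceil _
    have hj2 : (j : ℝ) < t / l + 1 := by rw [hj]; exact Nat.ceil_lt_add_one (by positivity)
    have hjl : t ≤ j * l := by rwa [div_le_iff₀ hl] at hj1
    have hexp : Real.exp (s' * j) ≤ Real.exp |s'| * Real.exp (s' * t / l) := by
      rw [← Real.exp_add]
      refine Real.exp_le_exp.2 ?_
      have e1 : s' * j = s' * (j - t / l) + s' * t / l := by ring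
      have e2 : s' * (j - t / l) ≤ |s'| * 1 := by
        refine (le_abs_self _).trans ?_
        rw [abs_mul]
        refine mul_le_mul_of_nonneg_left ?_ (abs_nonneg _)
        rw [abs_le]
        constructor <;> linarith
      rw [e1]
      linarith
    calc nrm g (c t) (J 0 t) ≤ nrm g (c (j * l)) (J 0 (j * l)) :=
          Real.sqrt_le_sqrt (mono h5 hCv c (J 0) hP.ug (hNJ 0) (hJ0 0) t _ ht hjl)
      _ = nrm g (c 0) (Z j) := by rw [hall, hper, nrm_dac hP.inv]
      _ ≤ C2 * ‖Z j‖ := hn _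
      _ ≤ C2 * (C0 * Real.exp (s' * j)) := mul_le_mul_of_nonneg_left (hZb j) hC2
      _ ≤ C2 * (C0 * (Real.exp |s'| * Real.exp (s' * t / l))) :=
          mul_le_mul_of_nonneg_left (mul_le_mul_of_nonneg_left hexp hC0) hC2
      _ = C2 * C0 * Real.exp |s'| * Real.exp (s' * t / l) := by ring

end Pool.Agent.LX
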