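import Pool.Agent.Work.MP_25cd3b_gt.LX.StmtsK

set_option autoImplicit false

/-!
# MP_25cd3b_gt, block LX: item KAl (infinite chains of forward asymptotic geodesics)
-/

open MeasureTheory Set Filter Topology
open scoped ContDiff ENNReal
open Pool.Agent.Work.MP_c9f990_an.Al (IsFlow)

namespace Pool.Agent.LX

open Pool.Agent.MLS Pool.Agent.STR Pool.Agent.LR

theorem pr_KAl (h1 : BCr) (h2 : BTi) (h3 : BGen) (h4 : YEL) : KAl := by
  intro n G _ _ g κ φ M lg a c l V P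
  obtain ⟨lam, K, r, hG⟩ := h3 n G g κ φ M lg a c l V P
  have hG' : Gen lam K r (Lk g φ a (c 0) l V) (fderiv ℝ (Lk g φ a (c 0) l V))
    (fderiv ℝ (fderiv ℝ (Lk g φ a (c 0) l V))) (Dk g φ a (c 0) l V) := hG
  obtain ⟨C, ρ₁, hC, hρ₁, -, hB⟩ := h1 n G g κ φ M lg a c l V P
  have hl := P.pos
  have hr := hG'.ch.r_pos
  have hC0 : 0 < C := by linarith
  obtain ⟨ρ, hρ⟩ : ∃ ρ : ℝ, ρ = min ρ₁ (min (l / (4 * C)) (r / (2 * C))) := ⟨_, rfl⟩
  have hρ0 : 0 < ρ := by rw [hρ]; positivity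
  have hρ1 : ρ ≤ ρ₁ := by rw [hρ]; exact min_le_left _ _
  have hρl : C * ρ ≤ l / 4 := by
    have h : ρ ≤ l / (4 * C) := by
      rw [hρ]; exact (min_le_right _ _).trans (min_le_left _ _)
    rw [le_div_iff₀ (by positivity)] at h
    linarith
  have hρr : C * ρ < r := by
    have h : ρ ≤ r / (2 * C) := by
      rw [hρ]; exact (min_le_right _ _).trans (min_le_right _ _)
    rw [le_div_iff₀ (by positivity)] at h
    linarith
  refine ⟨C, ρ, hC, hρ0, ?_⟩
  intro δ a₀ α x hδ0 hδ hα ha₀ hx hαx hαc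
  have hCδ : C * δ ≤ C * ρ := mul_le_mul_of_nonneg_left hδ hC0.le
  have hδC : δ ≤ C * δ := by
    have := mul_le_mul_of_nonneg_right hC hδ0.le
    linarith
  have hex : ∀ j : ℕ, ∃ (tt : ℝ) (uu : V), (j = 0 → tt = a₀ ∧ uu = x) ∧
      α tt = a ^ j • expo φ g (c 0) uu ∧ ‖uu‖ ≤ C * δ ∧ |tt - j * l| ≤ C * δ := by
    intro j
    rcases Nat.eq_zero_or_pos j with rfl | hj
    · refine ⟨a₀, x, fun _ => ⟨rfl, rfl⟩, ?_, hx.trans hδC, ?_⟩
      · rw [pow_zero, one_smul]; exact hαx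
      · rw [Nat.cast_zero, zero_mul, sub_zero]; exact ha₀.trans hδC
    · have hjl : l ≤ j * l := by
        have h : (1 : ℝ) ≤ j := by exact_mod_cast hj
        have := mul_le_mul_of_nonneg_right h hl.le
        linarith
      obtain ⟨t, u, ht, hu, hη⟩ := hB α j δ hα.geo.smooth.continuous hδ0 (hδ.trans hρ1)
        (fun t ht => hαc _ (by
          rw [abs_le] at ht
          linarith))
      refine ⟨j * l + t, u, fun h => absurd h (by omega), hη, hu, ?_⟩
      rw [add_sub_cancel_left]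
      exact ht
  choose t u hz hαt hun htn using hex
  have hmono : ∀ j : ℕ, t j ≤ t (j + 1) := by
    intro j
    have e1 := htn j
    have e2 := htn (j + 1)
    rw [abs_le] at e1 e2
    push_cast at e2
    linarith
  have hT := fun (k : ℕ) (hk : 1 ≤ k) => h2 n G g κ φ M lg a c l V P α k u t hα hk
    (fun j _ => hαt j) (fun j _ => hmono j)
  refine ⟨u, t, (hz 0 rfl).2, (hz 0 rfl).1, fun j => ⟨hαt j, hun j, htn j⟩,
    (hT 1 le_rfl).2.2 0 one_pos, fun k hk => ⟨(hT k hk).1, ?_, (hT k hk).2.1⟩⟩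
  exact h4 V lam K r _ _ _ _ hG' k hk u
    (fun j _ => lt_of_le_of_lt (hun j) (lt_of_le_of_lt hCδ hρr)) (hT k hk).1

end Pool.Agent.LX
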