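import Pool.Agent.Work.MP_25cd3b_gt.LX.StmtsK
import Pool.Agent.Work.MP_25cd3b_gt.NG.All

set_option autoImplicit false

/-!
# MP_25cd3b_gt, block LX: item KEst (the main estimate for the temporal displacement)
-/

open MeasureTheory Set Filter Topology
open scoped ContDiff ENNReal
open Pool.Agent.Work.MP_c9f990_an.Al (IsFlow)

namespace Pool.Agent.LX

open Pool.Agent.MLS Pool.Agent.STR Pool.Agent.LR

namespace IKEst

theorem lim_tau (F : ℝ → ℝ) (lo up R₀ : ℝ) (hF : Antitone F) (h1 : ∀ R, R₀ ≤ R → lo ≤ F R)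
    (h2 : ∀ R, R₀ ≤ R → F R ≤ up) : ∃ τ, Tendsto F atTop (𝓝 τ) ∧ lo ≤ τ ∧ τ ≤ up := by
  have hb : BddBelow (range F) := by
    refine ⟨lo, ?_⟩
    rintro _ ⟨R, rfl⟩
    exact (h1 (max R R₀) (le_max_right _ _)).trans (hF (le_max_left _ _))
  have ht := tendsto_atTop_ciInf hF hb
  refine ⟨_, ht, ge_of_tendsto ht ?_, le_of_tendsto ht ?_⟩
  · exact (eventually_ge_atTop R₀).mono fun R hR => h1 R hR
  · exact (eventually_ge_atTop R₀).mono fun R hR => h2 R hR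

theorem est {n : ℕ} {G : Type} [Group G] [MulAction G (E n)] {g : Form n} (hPM : IsPM (gd g))
    (hinv : ∀ (a : G) (x y : E n), gd g (a • x) (a • y) = gd g x y)
    (hd : ∀ σ, UG g σ → ∀ s t, gd g (σ s) (σ t) = |s - t|)
    (hsh : ∀ σ, UG g σ → ∀ s, UG g (fun t => σ (t + s)))
    (hrv : ∀ σ, UG g σ → ∀ s, UG g (fun t => σ (s - t)))
    (hac : ∀ σ, UG g σ → ∀ b : G, UG g (fun t => b • σ t))
    {b₁ C e₀ : ℝ} (hC : 0 < C)
    (hX : ∀ (σ : ℝ → E n) (y : E n) (b R e : ℝ), UG g σ → b₁ ≤ b → b ≤ 1 / b₁ → 0 ≤ R →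
      0 ≤ e → e ≤ e₀ → gd g y (σ b) ≤ gd g y (σ 0) - b + e →
      gd g y (σ 0) + R - C * e ≤ gd g y (σ (-R)))
    (a : G) (k : ℕ) (hk : 1 ≤ k) (α β : ℝ → E n) (hα : UG g α) (hβ : UG g β)
    (a₀ b₀ t1 s1 : ℝ) (X Z XA ZB : E n) (h1 : α a₀ = X) (h2 : β b₀ = Z) (h3 : α t1 = a • XA)
    (h4 : β (-s1) = a⁻¹ • ZB) (hb : b₁ ≤ t1 - a₀) (hb' : t1 - a₀ ≤ 1 / b₁)
    (hc : b₁ ≤ b₀ + s1) (hc' : b₀ + s1 ≤ 1 / b₁) (e : ℝ) (he : 0 ≤ e) (he' : (C + 1) * e ≤ e₀)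
    (q1 : (t1 - a₀) + gd g XA (a ^ (k - 1) • Z) ≤ gd g X (a ^ k • Z) + e)
    (q2 : gd g X (a ^ (k - 1) • ZB) + (b₀ + s1) ≤ gd g X (a ^ k • Z) + e)
    (R : ℝ) (hR : 0 ≤ R + a₀) (hR' : 0 ≤ R - b₀) :
    gd g X (a ^ k • Z) + a₀ - b₀ - (C + C * (C + 1)) * e ≤
      gd g (α (-R)) (a ^ k • β R) - 2 * R := by
  have hak : a ^ k = a * a ^ (k - 1) := by
    rw [← pow_succ']
    congr 1
    omega
  have hak' : a ^ k * a⁻¹ = a ^ (k - 1) := by
    rw [hak, ← pow_succ', pow_succ, mul_assoc, mul_inv_cancel, mul_one]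
  have he1 : e ≤ e₀ := by nlinarith
  -- first step
  have s1' : gd g (a ^ k • Z) X + (R + a₀) - C * e ≤ gd g (a ^ k • Z) (α (-R)) := by
    have hh := hX (fun t => α (t + a₀)) (a ^ k • Z) (t1 - a₀) (R + a₀) e (hsh α hα a₀) hb hb' hR
      he he1 (by
        have e1 : α (t1 - a₀ + a₀) = a • XA := by rw [sub_add_cancel]; exact h3
        have e2 : α (0 + a₀) = X := by rw [zero_add]; exact h1
        show gd g (a ^ k • Z) (α (t1 - a₀ + a₀)) ≤ gd g (a ^ k • Z) (α (0 + a₀)) - (t1 - a₀) + e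
        rw [e1, e2, hPM.symm _ (a • XA), hPM.symm _ X, hak, mul_smul, hinv]
        rw [hak, mul_smul] at q1
        linarith)
    have e3 : α (-(R + a₀) + a₀) = α (-R) := by congr 1; ring
    have e2 : α (0 + a₀) = X := by rw [zero_add]; exact h1
    have hh' : gd g (a ^ k • Z) (α (0 + a₀)) + (R + a₀) - C * e ≤
      gd g (a ^ k • Z) (α (-(R + a₀) + a₀)) := hh
    rw [e2, e3] at hh'
    exact hh'
  have hAX : gd g (α (-R)) X = R + a₀ := by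
    rw [← h1, hd α hα, show -R - a₀ = -(R + a₀) by ring, abs_neg, abs_of_nonneg hR]
  -- second step
  have s2' : gd g (α (-R)) (a ^ k • Z) + (R - b₀) - C * ((C + 1) * e) ≤
      gd g (α (-R)) (a ^ k • β R) := by
    have hu : UG g (fun t => a ^ k • β (b₀ - t)) := hac _ (hrv β hβ b₀) (a ^ k)
    have hh := hX (fun t => a ^ k • β (b₀ - t)) (α (-R)) (b₀ + s1) (R - b₀) ((C + 1) * e) hu hc hc'
      hR' (by positivity) he' (by
        have e1 : a ^ k • β (b₀ - (b₀ + s1)) = a ^ (k - 1) • ZB := by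
          rw [show b₀ - (b₀ + s1) = -s1 by ring, h4, ← mul_smul, hak']
        have e2 : a ^ k • β (b₀ - 0) = a ^ k • Z := by rw [sub_zero, h2]
        show gd g (α (-R)) (a ^ k • β (b₀ - (b₀ + s1))) ≤
          gd g (α (-R)) (a ^ k • β (b₀ - 0)) - (b₀ + s1) + (C + 1) * e
        rw [e1, e2]
        have t1' := hPM.tri (α (-R)) X (a ^ (k - 1) • ZB)
        rw [hAX] at t1'
        have t2' : gd g (a ^ k • Z) X + (R + a₀) - C * e ≤ gd g (α (-R)) (a ^ k • Z) := by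
          rw [hPM.symm (α (-R))]; exact s1'
        rw [hPM.symm (a ^ k • Z) X] at t2'
        linarith)
    have e2 : a ^ k • β (b₀ - 0) = a ^ k • Z := by rw [sub_zero, h2]
    have e3 : a ^ k • β (b₀ - -(R - b₀)) = a ^ k • β R := by
      rw [show b₀ - -(R - b₀) = R by ring]
    have hh' : gd g (α (-R)) (a ^ k • β (b₀ - 0)) + (R - b₀) - C * ((C + 1) * e) ≤
      gd g (α (-R)) (a ^ k • β (b₀ - -(R - b₀))) := hh
    rw [e2, e3] at hh'
    exact hh'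
  rw [hPM.symm (a ^ k • Z) X, hPM.symm (a ^ k • Z)] at s1'
  linarith

theorem anti {n : ℕ} {G : Type} [Group G] [MulAction G (E n)] {g : Form n} (hPM : IsPM (gd g))
    (hinv : ∀ (a : G) (x y : E n), gd g (a • x) (a • y) = gd g x y)
    (hd : ∀ σ, UG g σ → ∀ s t, gd g (σ s) (σ t) = |s - t|) (b : G) (α β : ℝ → E n)
    (hα : UG g α) (hβ : UG g β) (c : ℝ) :
    Antitone (fun R => gd g (α (-R)) (b • β R) - 2 * R - c) := by
  intro R R' h
  have h1 := hPM.tri (α (-R')) (α (-R)) (b • β R')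
  have h2 := hPM.tri (α (-R)) (b • β R) (b • β R')
  rw [hinv, hd β hβ, abs_sub_comm, abs_of_nonneg (sub_nonneg.2 h)] at h2
  rw [hd α hα, show -R' - -R = -(R' - R) by ring, abs_neg, abs_of_nonneg (sub_nonneg.2 h)] at h1
  show gd g (α (-R')) (b • β R') - 2 * R' - c ≤ gd g (α (-R)) (b • β R) - 2 * R - c
  linarith

theorem upp {n : ℕ} {G : Type} [Group G] [MulAction G (E n)] {g : Form n} (hPM : IsPM (gd g))
    (hinv : ∀ (a : G) (x y : E n), gd g (a • x) (a • y) = gd g x y)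
    (hd : ∀ σ, UG g σ → ∀ s t, gd g (σ s) (σ t) = |s - t|) (b : G) (α β : ℝ → E n)
    (hα : UG g α) (hβ : UG g β) (a₀ b₀ R : ℝ) (hR : 0 ≤ R + a₀) (hR' : 0 ≤ R - b₀) :
    gd g (α (-R)) (b • β R) - 2 * R ≤ gd g (α a₀) (b • β b₀) + a₀ - b₀ := by
  have h1 := hPM.tri (α (-R)) (α a₀) (b • β R)
  have h2 := hPM.tri (α a₀) (b • β b₀) (b • β R)
  rw [hinv, hd β hβ, abs_sub_comm, abs_of_nonneg hR'] at h2
  rw [hd α hα, show -R - a₀ = -(R + a₀) by ring, abs_neg, abs_of_nonneg hR] at h1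
  linarith

end IKEst

open IKEst in
theorem pr_KEst (h1 : KAl) (h2 : KX1) (h3 : BGen) (h4 : BRev) (h6 : YEL) (h7 : YAng) (h8 : YExc)
    (h9 : StCvG) (h10 : StUG) : KEst := by
  intro n G _ _ g κ φ M lg a c l V P s s' hGr hs' hss
  have hCv : Cv g κ := ⟨P.riem, P.kpos, P.curv, φ, M, P.flow⟩
  obtain ⟨-, hd, -⟩ := h9 n g κ hCv
  have hPM : IsPM (gd g) := (pr_Gd n g).2.1
  have hinv : ∀ (a : G) (x y : E n), gd g (a • x) (a • y) = gd g x y :=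
    (pr_InvD n G P.coc g P.inv).2
  have hsh : ∀ σ, UG g σ → ∀ s, UG g (fun t => σ (t + s)) := fun σ hσ => (h10 n g σ hσ).1
  have hrv : ∀ σ, UG g σ → ∀ s, UG g (fun t => σ (s - t)) := fun σ hσ => (h10 n g σ hσ).2.1
  have hac : ∀ σ, UG g σ → ∀ b : G, UG g (fun t => b • σ t) := fun σ hσ b =>
    ((h10 n g σ hσ).2.2 G P.coc P.riem P.inv b).1
  obtain ⟨lam, K, r, hG⟩ := h3 n G g κ φ M lg a c l V P
  have hG' : Gen lam K r (Lk g φ a (c 0) l V) (fderiv ℝ (Lk g φ a (c 0) l V))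
    (fderiv ℝ (fderiv ℝ (Lk g φ a (c 0) l V))) (Dk g φ a (c 0) l V) := hG
  obtain ⟨C₁, ρ₁, hC₁, hρ₁, hρ₁r, hAng⟩ := h7 V lam K r _ _ _ hG'.ch s s' hGr hs' hss
  obtain ⟨C₂, ρ₂, hC₂, hρ₂, hExc⟩ := h8 V lam K r _ _ _ _ hG'
  obtain ⟨C₃, ρ₃, hC₃, hρ₃, hA⟩ := h1 n G g κ φ M lg a c l V P
  obtain ⟨P', hDr, -⟩ := h4 n G g κ φ M lg a c l V P
  obtain ⟨C₄, ρ₄, hC₄, hρ₄, hB⟩ := h1 n G g κ φ M lg a⁻¹ (fun t => c (-t)) l V P'
  obtain ⟨C₅, ρ₅, hρ₅, hC₅, hE⟩ := hG'.ex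
  have hl := P.pos
  obtain ⟨b₁, hb₁⟩ : ∃ b₁ : ℝ, b₁ = min 1 (min (l / 2) (1 / (2 * l))) := ⟨_, rfl⟩
  have hb0 : 0 < b₁ := by rw [hb₁]; positivity
  have hb1 : b₁ ≤ 1 := by rw [hb₁]; exact min_le_left _ _
  have hbl : b₁ ≤ l / 2 := by
    rw [hb₁]; exact (min_le_right _ _).trans (min_le_left _ _)
  have hbu : 2 * l ≤ 1 / b₁ := by
    have h : b₁ ≤ 1 / (2 * l) := by
      rw [hb₁]; exact (min_le_right _ _).trans (min_le_right _ _)
    rw [le_div_iff₀ hb0]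
    calc 2 * l * b₁ ≤ 2 * l * (1 / (2 * l)) := mul_le_mul_of_nonneg_left h (by positivity)
      _ = 1 := by field_simp
  obtain ⟨C₆, e₀, hC₆, he₀, hX⟩ := h2 κ b₁ P.kpos hb0 hb1
  have hX' := hX n g hCv
  -- constants
  obtain ⟨m, hm⟩ : ∃ m : ℝ, m = min ρ₁ ρ₂ := ⟨_, rfl⟩
  have hm0 : 0 < m := by rw [hm]; positivity
  have hm1 : m ≤ ρ₁ := by rw [hm]; exact min_le_left _ _
  have hm2 : m ≤ ρ₂ := by rw [hm]; exact min_le_right _ _
  obtain ⟨Q, hQ⟩ : ∃ Q : ℝ, Q = C₃ + C₄ + C₅ := ⟨_, rfl⟩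
  have hQ0 : 0 < Q := by rw [hQ]; linarith
  obtain ⟨ρ, hρ⟩ : ∃ ρ : ℝ, ρ = min (min ρ₃ ρ₄) (min ρ₅ (min (m / Q) (l / (4 * Q)))) := ⟨_, rfl⟩
  have hρ0 : 0 < ρ := by rw [hρ]; positivity
  have hρ3 : ρ ≤ ρ₃ := by rw [hρ]; exact (min_le_left _ _).trans (min_le_left _ _)
  have hρ4 : ρ ≤ ρ₄ := by rw [hρ]; exact (min_le_left _ _).trans (min_le_right _ _)
  have hρ5 : ρ ≤ ρ₅ := by rw [hρ]; exact (min_le_right _ _).trans (min_le_left _ _)
  have hρm : Q * ρ ≤ m := by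
    have h : ρ ≤ m / Q := by
      rw [hρ]
      exact (min_le_right _ _).trans ((min_le_right _ _).trans (min_le_left _ _))
    rw [le_div_iff₀ hQ0] at h
    linarith
  have hρl : Q * ρ ≤ l / 4 := by
    have h : ρ ≤ l / (4 * Q) := by
      rw [hρ]
      exact (min_le_right _ _).trans ((min_le_right _ _).trans (min_le_right _ _))
    rw [le_div_iff₀ (by positivity)] at h
    linarith
  have hq3 : C₃ * ρ ≤ Q * ρ := mul_le_mul_of_nonneg_right (by rw [hQ]; linarith) hρ0.le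
  have hq4 : C₄ * ρ ≤ Q * ρ := mul_le_mul_of_nonneg_right (by rw [hQ]; linarith) hρ0.le
  have hq5 : C₅ * ρ ≤ Q * ρ := mul_le_mul_of_nonneg_right (by rw [hQ]; linarith) hρ0.le
  have hqρ : ρ ≤ Q * ρ := by
    have : 1 * ρ ≤ Q * ρ := mul_le_mul_of_nonneg_right (by rw [hQ]; linarith) hρ0.le
    linarith
  -- the exponential bound is small for large `k`
  obtain ⟨k₁, hk₁⟩ : ∃ k₁ : ℕ, ∀ k : ℕ, k₁ ≤ k →
      (C₆ + 1) * (C₂ * C₁ ^ 2 * Real.exp (-(2 * s' * k))) ≤ e₀ := by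
    have ht : Tendsto (fun k : ℕ => (C₆ + 1) * (C₂ * C₁ ^ 2 * Real.exp (-(2 * s' * (k : ℝ)))))
        atTop (𝓝 ((C₆ + 1) * (C₂ * C₁ ^ 2 * 0))) := by
      refine Tendsto.const_mul _ (Tendsto.const_mul _ ?_)
      refine Real.tendsto_exp_neg_atTop_nhds_zero.comp ?_
      exact tendsto_natCast_atTop_atTop.const_mul_atTop (by positivity)
    rw [mul_zero, mul_zero] at ht
    obtain ⟨k₁, h⟩ := eventually_atTop.1 (ht.eventually (ge_mem_nhds he₀))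
    exact ⟨k₁, h⟩
  refine ⟨(C₆ + C₆ * (C₆ + 1)) * (C₂ * C₁ ^ 2), ρ, max k₁ 2, by positivity, hρ0, ?_⟩
  intro k α β x z a₀ b₀ hk hα hβ ha₀ hb₀ hx hz hαx hβz hαc hβc
  have hk1 : k₁ ≤ k := (le_max_left _ _).trans hk
  have hk2 : 2 ≤ k := (le_max_right _ _).trans hk
  have hk1' : 1 ≤ k := by omega
  -- the chains
  obtain ⟨u, hu0, huk, hun, huT⟩ := hE k hk1' x z (hx.trans hρ5) (hz.trans hρ5)
  have hmax : max ‖x‖ ‖z‖ ≤ ρ := max_le hx hz
  have hun' : ∀ j, j ≤ k → ‖u j‖ ≤ m := fun j hj => by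
    refine (hun j hj).trans ?_
    have : C₅ * max ‖x‖ ‖z‖ ≤ C₅ * ρ := mul_le_mul_of_nonneg_left hmax (by linarith)
    linarith
  obtain ⟨uα, t, huα0, ht0, huα, hLα, hTα⟩ := hA ρ a₀ α x hρ0 hρ3 hα ha₀ hx hαx hαc
  have hβ' : UG g (fun t => β (0 - t)) := hrv β hβ 0
  obtain ⟨v, sv, hv0, hs0, hv, hLv, hTv⟩ := hB ρ (-b₀) (fun t => β (0 - t)) z hρ0 hρ4 hβ'
    (by rw [abs_neg]; exact hb₀) hz (by
      show β (0 - -b₀) = expo φ g (c (-0)) z
      rw [zero_sub, neg_neg, neg_zero]; exact hβz) (by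
      intro t ht
      show gd g (β (0 - t)) (c (-t)) ≤ ρ
      rw [zero_sub]
      exact hβc (-t) (by linarith))
  simp only [neg_zero] at hv hLv hTv
  -- the reversed chain
  have hLr : ∀ p q : V, Lk g φ a⁻¹ (c 0) l V (p, q) = Lk g φ a (c 0) l V (q, p) := fun p q =>
    hDr 1 p q
  obtain ⟨w, hw⟩ : ∃ w : ℕ → V, w = fun j => v (k - j) := ⟨_, rfl⟩
  have hwT : Tight (Lk g φ a (c 0) l V) (Dk g φ a (c 0) l V) k w := by
    have h := (hTv k hk1').1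
    unfold Tight at h ⊢
    rw [hDr] at h
    have e0 : w 0 = v k := by rw [hw]; simp
    have ek : w k = v 0 := by rw [hw]; simp
    rw [e0, ek, h, ← Finset.sum_range_reflect]
    refine Finset.sum_congr rfl fun j hj => ?_
    rw [Finset.mem_range] at hj
    rw [hLr, hw]
    have e1 : k - 1 - j + 1 = k - j := by omega
    have e2 : k - 1 - j = k - (j + 1) := by omega
    rw [e1, e2]
  have hwn : ∀ j, j ≤ k → ‖w j‖ ≤ m := fun j _ => by
    rw [hw]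
    exact ((hv (k - j)).2.1).trans (by linarith)
  have huαn : ∀ j, j ≤ k → ‖uα j‖ ≤ m := fun j _ => ((huα j).2.1).trans (by linarith)
  have hELu := h6 V lam K r _ _ _ _ hG' k hk1' u
    (fun j hj => lt_of_le_of_lt (hun' j hj) (lt_of_le_of_lt hm1 hρ₁r)) huT
  have hELw := h6 V lam K r _ _ _ _ hG' k hk1' w
    (fun j hj => lt_of_le_of_lt (hwn j hj) (lt_of_le_of_lt hm1 hρ₁r)) hwT
  have hELα := (hTα k hk1').2.1
  have hA1 := (hAng k u uα hk1' (fun j hj => (hun' j hj).trans hm1)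
    (fun j hj => (huαn j hj).trans hm1) hELu hELα).1 (by rw [hu0, huα0])
  have hA2 := (hAng k u w hk1' (fun j hj => (hun' j hj).trans hm1)
    (fun j hj => (hwn j hj).trans hm1) hELu hELw).2 (by
      rw [huk, hw]; show z = v (k - k); rw [Nat.sub_self, hv0])
  have hw1 : w (k - 1) = v 1 := by
    rw [hw]; show v (k - (k - 1)) = v 1; congr 1; omega
  rw [hw1] at hA2
  -- the excesses
  obtain ⟨e, he⟩ : ∃ e : ℝ, e = C₂ * C₁ ^ 2 * Real.exp (-(2 * s' * k)) := ⟨_, rfl⟩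
  have he0 : 0 ≤ e := by rw [he]; positivity
  have hsq : ∀ y : ℝ, 0 ≤ y → y ≤ C₁ * Real.exp (-(s' * k)) → C₂ * y ^ 2 ≤ e := by
    intro y hy0 hy
    have h : y ^ 2 ≤ (C₁ * Real.exp (-(s' * k))) ^ 2 := pow_le_pow_left₀ hy0 hy 2
    have h' : (C₁ * Real.exp (-(s' * k))) ^ 2 = C₁ ^ 2 * Real.exp (-(2 * s' * k)) := by
      rw [mul_pow, ← Real.exp_nat_mul]
      congr 2
      push_cast
      ring
    rw [h'] at h
    rw [he, mul_assoc]
    exact mul_le_mul_of_nonneg_left h hC₂.le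
  have hx1 := (hExc k u hk2 (fun j hj => (hun' j hj).trans hm2) huT (uα 1)
    ((huαn 1 hk1').trans hm2)).1
  have hx2 := (hExc k u hk2 (fun j hj => (hun' j hj).trans hm2) huT (v 1)
    (((hv 1).2.1).trans (by linarith))).2
  have hy1 := hsq ‖uα 1 - u 1‖ (norm_nonneg _) (by rw [norm_sub_rev]; exact hA1)
  have hy2 := hsq ‖v 1 - u (k - 1)‖ (norm_nonneg _) (by rw [norm_sub_rev]; exact hA2)
  rw [huk, hu0] at hx1 hx2
  -- times
  have ht1 := (huα 1).2.2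
  have hs1 := (hv 1).2.2
  rw [ht0, huα0] at hLα
  rw [hs0, hv0, hLr] at hLv
  rw [Nat.cast_one, one_mul] at ht1 hs1
  rw [abs_le] at ht1 hs1 ha₀ hb₀
  have hk1c : ((k - 1 : ℕ) : ℝ) = (k : ℝ) - 1 := by rw [Nat.cast_sub hk1', Nat.cast_one]
  have hlow : ∀ R : ℝ, ρ ≤ R → Dk g φ a (c 0) l V k x z + a₀ - b₀ -
      (C₆ + C₆ * (C₆ + 1)) * (C₂ * C₁ ^ 2) * Real.exp (-(2 * s' * k)) ≤
      gd g (α (-R)) (a ^ k • β R) - 2 * R - k * l := by
    intro R hR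
    have h := est hPM hinv hd hsh hrv hac hC₆ hX' a k hk1' α β hα hβ a₀ b₀ (t 1) (sv 1)
      (expo φ g (c 0) x) (expo φ g (c 0) z) (expo φ g (c 0) (uα 1)) (expo φ g (c 0) (v 1))
      hαx hβz (by rw [(huα 1).1, pow_one])
      (by
        have h := (hv 1).1
        rw [zero_sub, pow_one] at h
        exact h)
      (by linarith) (by linarith) (by linarith) (by linarith) e he0 (by rw [he]; exact hk₁ k hk1)
      (by
        unfold Dk at hx1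
        rw [hk1c] at hx1
        linarith)
      (by
        unfold Dk at hx2
        rw [hk1c] at hx2
        linarith) R (by linarith) (by linarith)
    unfold Dk
    rw [he] at h
    linarith
  have hupp : ∀ R : ℝ, ρ ≤ R → gd g (α (-R)) (a ^ k • β R) - 2 * R - k * l ≤
      Dk g φ a (c 0) l V k x z + a₀ - b₀ := by
    intro R hR
    have h := upp hPM hinv hd (a ^ k) α β hα hβ a₀ b₀ R (by linarith) (by linarith)
    rw [hαx, hβz] at h
    unfold Dk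
    linarith
  exact lim_tau _ _ _ ρ (anti hPM hinv hd (a ^ k) α β hα hβ (k * l)) hlow hupp

end Pool.Agent.LX
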