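import Pool.Agent.Work.MP_25cd3b_gt.LX.StmtsK

set_option autoImplicit false

/-!
# MP_25cd3b_gt, block LX, item KExB: existence of backward asymptotic geodesics
-/

open MeasureTheory Set Filter Topology
open scoped ContDiff ENNReal
open Pool.Agent.Work.MP_c9f990_an.Al (IsFlow)

namespace Pool.Agent.LX

open Pool.Agent.MLS Pool.Agent.STR Pool.Agent.LR

theorem pr_KExB (h1 : KExA) (h2 : BRev) (h3 : StUG) : KExB := by
  intro n G _ _ g κ φ M lg a c l V hP ρ hρ
  obtain ⟨hP', -, -⟩ := h2 n G g κ φ M lg a c l V hP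
  obtain ⟨ρ₀, hρ₀, hA⟩ := h1 n G g κ φ M lg a⁻¹ (fun t => c (-t)) l V hP' ρ hρ
  refine ⟨ρ₀, hρ₀, fun z hz => ?_⟩
  obtain ⟨α, a₀, hug, ha₀, hex, hd, has⟩ := hA z hz
  have hug' := (h3 n g α hug).2.1 0
  refine ⟨fun t => α (0 - t), -a₀, hug', ?_, ?_, ?_, ?_⟩
  · rw [abs_neg]
    exact ha₀
  · show α (0 - -a₀) = expo φ g (c 0) z
    have e1 : (0 : ℝ) - -a₀ = a₀ := by ring
    have e2 : c (-(0 : ℝ)) = c 0 := by rw [neg_zero]
    rw [e1, hex, e2]
  · intro t ht
    have h := hd (-t) (by linarith)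
    rw [neg_neg] at h
    show gd g (α (0 - t)) (c t) ≤ ρ
    rw [zero_sub]
    exact h
  · have e : (fun t : ℝ => gd g ((fun t => α (0 - t)) (-t)) (c (-t))) =
        fun t => gd g (α t) ((fun t => c (-t)) t) := by
      funext t
      show gd g (α (0 - -t)) (c (-t)) = gd g (α t) (c (-t))
      rw [zero_sub, neg_neg]
    show Tendsto (fun t : ℝ => gd g ((fun t => α (0 - t)) (-t)) (c (-t))) atTop (𝓝 0)
    rw [e]
    exact has

end Pool.Agent.LX
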