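import Pool.Agent.Work.MP_25cd3b_gt.LX.StmtsK

set_option autoImplicit false

/-!
# MP_25cd3b_gt, block LX, item KLo: the lower bound
-/

open MeasureTheory Set Filter Topology
open scoped ContDiff ENNReal
open Pool.Agent.Work.MP_c9f990_an.Al (IsFlow)

namespace Pool.Agent.LX

open Pool.Agent.MLS Pool.Agent.STR Pool.Agent.LR

theorem IKLo.small (b ε : ℝ) (hb : 0 < b) (hε : 0 < ε) :
    ∃ N : ℕ, ∀ k : ℕ, N ≤ k → Real.exp (-(b * k)) ≤ ε := by
  have h1 : Tendsto (fun k : ℕ => b * (k : ℝ)) atTop atTop :=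
    tendsto_natCast_atTop_atTop.const_mul_atTop hb
  have h2 : Tendsto (fun k : ℕ => Real.exp (-(b * (k : ℝ)))) atTop (𝓝 0) :=
    Real.tendsto_exp_neg_atTop_nhds_zero.comp h1
  have h3 := h2.eventually (Iio_mem_nhds hε)
  obtain ⟨N, hN⟩ := eventually_atTop.1 h3
  exact ⟨N, fun k hk => (hN k hk).le⟩

theorem pr_KLo (h1 : KMain) (h2 : KExA) (h3 : KExB) (h4 : BGen) (h5 : YInf) : KLo := by
  intro n G _ _ g κ φ M lg a c l V hPer s s' t η hGr hnGr hs' hss hη htη htη2 ρ k₀ hρ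
  obtain ⟨C, ρ', k₁, hC, hρ', hmain⟩ := h1 n G g κ φ M lg a c l V hPer s s' hGr hs' hss
  have hρ'' : 0 < min ρ ρ' := lt_min hρ hρ'
  obtain ⟨ρA, hρA, hA⟩ := h2 n G g κ φ M lg a c l V hPer (min ρ ρ') hρ''
  obtain ⟨ρB, hρB, hB⟩ := h3 n G g κ φ M lg a c l V hPer (min ρ ρ') hρ''
  obtain ⟨lam, K, r, hGen⟩ := h4 n G g κ φ M lg a c l V hPer
  obtain ⟨N₁, hN₁⟩ := IKLo.small η (min ρ' (min ρA ρB)) hη (lt_min hρ' (lt_min hρA hρB))
  obtain ⟨N₂, hN₂⟩ := IKLo.small (2 * s' - (t + 2 * η)) (1 / (2 * C)) (by linarith)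
    (by positivity)
  obtain ⟨k, hk, x, z, hx, hz, hM⟩ := h5 V lam K r _ _ _ _ hGen s s' t η hGr hnGr hs' hss hη htη
    (max (max k₀ k₁) (max N₁ N₂))
  have hk0 : k₀ ≤ k := le_trans (le_trans (le_max_left _ _) (le_max_left _ _)) hk
  have hk1 : k₁ ≤ k := le_trans (le_trans (le_max_right _ _) (le_max_left _ _)) hk
  have hkN1 : N₁ ≤ k := le_trans (le_trans (le_max_left _ _) (le_max_right _ _)) hk
  have hkN2 : N₂ ≤ k := le_trans (le_trans (le_max_right _ _) (le_max_right _ _)) hk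
  have hx' := hx.trans (hN₁ k hkN1)
  have hz' := hz.trans (hN₁ k hkN1)
  obtain ⟨α, a₀, hα, ha₀, hαx, hαc, hαA⟩ :=
    hA x (hx'.trans ((min_le_right _ _).trans (min_le_left _ _)))
  obtain ⟨β, b₀, hβ, hb₀, hβz, hβc, hβA⟩ :=
    hB z (hz'.trans ((min_le_right _ _).trans (min_le_right _ _)))
  obtain ⟨τ, hτ, hτM⟩ := hmain k α β x z a₀ b₀ hk1 hα hβ (ha₀.trans (min_le_right _ _))
    (hb₀.trans (min_le_right _ _)) (hx'.trans (min_le_left _ _)) (hz'.trans (min_le_left _ _))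
    hαx hβz (fun t ht => (hαc t ht).trans (min_le_right _ _))
    (fun t ht => (hβc t ht).trans (min_le_right _ _)) hαA hβA
  refine ⟨k, hk0, α, β, τ, hα, hβ, fun t ht => (hαc t ht).trans (min_le_left _ _),
    fun t ht => (hβc t ht).trans (min_le_left _ _), hαA, hβA, hτ, ?_⟩
  have h6 : C * Real.exp (-(2 * s' * k)) ≤ 1 / 2 * Real.exp (-((t + 2 * η) * k)) := by
    have h7 : Real.exp (-(2 * s' * k)) = Real.exp (-((2 * s' - (t + 2 * η)) * k)) *
        Real.exp (-((t + 2 * η) * k)) := by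
      rw [← Real.exp_add]
      congr 1
      ring
    rw [h7]
    have h8 := hN₂ k hkN2
    have h9 : C * Real.exp (-((2 * s' - (t + 2 * η)) * k)) ≤ 1 / 2 := by
      calc C * Real.exp (-((2 * s' - (t + 2 * η)) * k)) ≤ C * (1 / (2 * C)) :=
            mul_le_mul_of_nonneg_left h8 hC.le
        _ = 1 / 2 := by field_simp
    calc C * (Real.exp (-((2 * s' - (t + 2 * η)) * k)) * Real.exp (-((t + 2 * η) * k))) =
          (C * Real.exp (-((2 * s' - (t + 2 * η)) * k))) * Real.exp (-((t + 2 * η) * k)) := by ring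
      _ ≤ 1 / 2 * Real.exp (-((t + 2 * η) * k)) :=
          mul_le_mul_of_nonneg_right h9 (Real.exp_pos _).le
  have h10 : |Mx (Dk g φ a (c 0) l V) k x z| ≤ |τ| + |τ - Mx (Dk g φ a (c 0) l V) k x z| := by
    have h11 := abs_sub_abs_le_abs_sub (Mx (Dk g φ a (c 0) l V) k x z) τ
    rw [abs_sub_comm] at h11
    linarith
  linarith [h10, h6, hτM, hM]

end Pool.Agent.LX
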