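import Pool.Agent.Work.MP_25cd3b_gt.LX.StmtsK
import Pool.Agent.Work.MP_25cd3b_gt.NG.All

set_option autoImplicit false

/-!
# MP_25cd3b_gt, block LX, item KMain: temporal displacement and second difference
-/

open MeasureTheory Set Filter Topology
open scoped ContDiff ENNReal
open Pool.Agent.Work.MP_c9f990_an.Al (IsFlow)

namespace Pool.Agent.LX

open Pool.Agent.MLS Pool.Agent.STR Pool.Agent.LR

namespace IKMain

variable {n : ℕ} {G : Type} [Group G] [MulAction G (E n)] {g : Form n} {κ : ℝ}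
  {φ : ℝ → W n → W n} {M : ℝ → W n → W n →L[ℝ] W n} {lg : E n → E n → E n} {a : G}
  {c : ℝ → E n} {l : ℝ} {V : Submodule ℝ (E n)}

theorem per' (hP : Per n G g κ φ M lg a c l V) (j : ℕ) (t : ℝ) :
    c (j * l + t) = a ^ j • c t := by
  induction j with
  | zero => simp
  | succ j ih =>
    have h1 : ((j + 1 : ℕ) : ℝ) * l + t = (j * l + t) + l := by
      push_cast
      ring
    rw [h1, hP.per, ih, pow_succ', mul_smul]

/-- displacement of a forward asymptotic geodesic and `c` -/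
theorem tauA (hP : Per n G g κ φ M lg a c l V)
    (hd : ∀ σ, UG g σ → ∀ s t, gd g (σ s) (σ t) = |s - t|) (k : ℕ) {α : ℝ → E n}
    (hα : UG g α) (hA : As g α c) : Tau g a α c k l 0 := by
  have hpm := (pr_Gd n g).2.1
  have hkl : 0 ≤ (k : ℝ) * l := mul_nonneg (Nat.cast_nonneg k) hP.pos.le
  have hlim : Tendsto (fun R : ℝ => gd g (α (k * l + R)) (c (k * l + R))) atTop (𝓝 0) :=
    hA.comp (tendsto_atTop_add_const_left _ _ tendsto_id)
  refine squeeze_zero_norm' ?_ hlim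
  filter_upwards [eventually_ge_atTop (0 : ℝ)] with R hR
  have h1 := hd α hα (-R) (k * l + R)
  have h2 : |-R - (k * l + R)| = 2 * R + k * l := by
    rw [abs_of_nonpos (by linarith)]
    ring
  rw [h2] at h1
  have t1 := hpm.tri (α (-R)) (α (k * l + R)) (c (k * l + R))
  have t2 := hpm.tri (α (-R)) (c (k * l + R)) (α (k * l + R))
  rw [hpm.symm (c (k * l + R)) (α (k * l + R))] at t2
  rw [← per' hP, Real.norm_eq_abs, abs_le]
  constructor <;> linarith

/-- displacement of `c` and a backward asymptotic geodesic -/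
theorem tauB (hP : Per n G g κ φ M lg a c l V)
    (hd : ∀ σ, UG g σ → ∀ s t, gd g (σ s) (σ t) = |s - t|) (k : ℕ) {β : ℝ → E n}
    (hβ : UG g β) (hB : Ab g β c) : Tau g a c β k l 0 := by
  have hpm := (pr_Gd n g).2.1
  have hinv := (pr_InvD n G hP.coc g hP.inv).2
  have hkl : 0 ≤ (k : ℝ) * l := mul_nonneg (Nat.cast_nonneg k) hP.pos.le
  have hlim : Tendsto (fun R : ℝ => gd g (β (-(k * l + R))) (c (-(k * l + R)))) atTop (𝓝 0) :=
    hB.comp (tendsto_atTop_add_const_left _ _ tendsto_id)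
  refine squeeze_zero_norm' ?_ hlim
  filter_upwards [eventually_ge_atTop (0 : ℝ)] with R hR
  have h1 := hd β hβ (-(k * l + R)) R
  have h2 : |-(k * l + R) - R| = 2 * R + k * l := by
    rw [abs_of_nonpos (by linarith)]
    ring
  rw [h2] at h1
  have h3 : c (-R) = a ^ k • c (-(k * l + R)) := by
    rw [← per' hP]
    congr 1
    ring
  have t1 := hpm.tri (c (-(k * l + R))) (β (-(k * l + R))) (β R)
  have t2 := hpm.tri (β (-(k * l + R))) (c (-(k * l + R))) (β R)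
  rw [hpm.symm (c (-(k * l + R))) (β (-(k * l + R)))] at t1
  rw [h3, hinv, Real.norm_eq_abs, abs_le]
  constructor <;> linarith

end IKMain

open IKMain in
/-- item KMain -/
theorem pr_KMain (h1 : KEst) (h2 : StCvG) : KMain := by
  intro n G _ _ g κ φ M lg a c l V hP s s' hG hs' hss
  obtain ⟨C, ρ, k₀, hC, hρ, hE⟩ := h1 n G g κ φ M lg a c l V hP s s' hG hs' hss
  have hCv : Cv g κ := ⟨hP.riem, hP.kpos, hP.curv, φ, M, hP.flow⟩
  have hd := (h2 n g κ hCv).2.1
  have hpm := (pr_Gd n g).2.1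
  have hex : expo φ g (c 0) ((0 : V) : E n) = c 0 := by
    rw [Submodule.coe_zero]
    exact (p_NcExp n g φ M hP.riem hP.flow (c 0)).2.2.2.2
  have hcc : ∀ t, gd g (c t) (c t) ≤ ρ := fun t => by
    rw [hpm.self]
    exact hρ.le
  refine ⟨2 * C, ρ, k₀, by positivity, hρ, ?_⟩
  intro k α β x z a₀ b₀ hk hα hβ ha₀ hb₀ hx hz hαx hβz hαc hβc hA hB
  obtain ⟨τ, hτ, hτ1, hτ2⟩ := hE k α β x z a₀ b₀ hk hα hβ ha₀ hb₀ hx hz hαx hβz hαc hβc
  obtain ⟨τ₁, hτ₁, hp1, hp2⟩ := hE k α c x 0 a₀ 0 hk hα hP.ug ha₀ (by simpa using hρ.le) hx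
    (by simpa using hρ.le) hαx hex.symm hαc (fun t _ => hcc t)
  obtain ⟨τ₂, hτ₂, hq1, hq2⟩ := hE k c β 0 z 0 b₀ hk hP.ug hβ (by simpa using hρ.le) hb₀
    (by simpa using hρ.le) hz hex.symm hβz (fun t _ => hcc t) hβc
  have e1 : τ₁ = 0 := tendsto_nhds_unique hτ₁ (tauA hP hd k hα hA)
  have e2 : τ₂ = 0 := tendsto_nhds_unique hτ₂ (tauB hP hd k hβ hB)
  rw [e1] at hp1 hp2
  rw [e2] at hq1 hq2
  have he : 0 < C * Real.exp (-(2 * s' * k)) := mul_pos hC (Real.exp_pos _)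
  refine ⟨τ, hτ, ?_⟩
  rw [Mx, abs_le]
  constructor <;> linarith

end Pool.Agent.LX
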