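import Pool.Agent.Work.MP_25cd3b_gt.LX.StmtsK

set_option autoImplicit false

/-!
# MP_25cd3b_gt, block LX, item KNum (elementary hyperbolic estimate)
-/

open Set Filter Topology

namespace Pool.Agent.LX

namespace IKNum

theorem cosh_le {h : ℝ} (h0 : 0 ≤ h) (h1 : h ≤ 1) : Real.cosh h ≤ 1 + h ^ 2 := by
  have e1 := (abs_le.1 (Real.abs_exp_sub_one_sub_id_le (x := h) (by rw [abs_of_nonneg h0]; exact h1))).2
  have e2 := (abs_le.1 (Real.abs_exp_sub_one_sub_id_le (x := -h)
    (by rw [abs_neg, abs_of_nonneg h0]; exact h1))).2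
  rw [Real.cosh_eq]
  nlinarith

theorem sinh_le {h : ℝ} (h0 : 0 ≤ h) (h1 : h ≤ 1) : Real.sinh h ≤ 2 * h := by
  have e1 := (abs_le.1 (Real.abs_exp_sub_one_sub_id_le (x := h) (by rw [abs_of_nonneg h0]; exact h1))).2
  have e2 := Real.add_one_le_exp (-h)
  rw [Real.sinh_eq]
  nlinarith

theorem cosh_le_exp {u v : ℝ} (h : |u| ≤ v) : Real.cosh u ≤ Real.exp v := by
  have h1 := Real.exp_le_exp.2 (le_trans (le_abs_self u) h)
  have h2 := Real.exp_le_exp.2 (le_trans (neg_le_abs u) h)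
  rw [Real.cosh_eq]
  linarith

theorem sinh_le_exp {u v : ℝ} (h : |u| ≤ v) : Real.sinh u ≤ Real.exp v := by
  have h1 := cosh_le_exp h
  have h2 := Real.sinh_lt_cosh u
  linarith

theorem step {u v h : ℝ} (h0 : 0 ≤ h) (h1 : h ≤ 1) (hu : |u| ≤ v) :
    Real.cosh (u + h) ≤ Real.cosh u + 3 * h * Real.exp v := by
  rw [Real.cosh_add]
  have a1 := cosh_le h0 h1
  have a2 := sinh_le h0 h1
  have a3 := cosh_le_exp hu
  have a4 := sinh_le_exp hu
  have a5 : 0 ≤ Real.sinh h := Real.sinh_nonneg_iff.2 h0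
  have a6 := Real.cosh_pos u
  have a7 := Real.exp_pos v
  have a8 : h ^ 2 ≤ h := by nlinarith
  have b1 : Real.cosh u * Real.cosh h ≤ Real.cosh u * (1 + h) :=
    mul_le_mul_of_nonneg_left (by linarith) a6.le
  have b2 : Real.cosh u * h ≤ Real.exp v * h := mul_le_mul_of_nonneg_right a3 h0
  have b3 : Real.sinh u * Real.sinh h ≤ Real.exp v * Real.sinh h :=
    mul_le_mul_of_nonneg_right a4 a5
  have b4 : Real.exp v * Real.sinh h ≤ Real.exp v * (2 * h) := mul_le_mul_of_nonneg_left a2 a7.le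
  nlinarith

theorem ident (r b x : ℝ) : Real.sinh (r + b) * Real.cosh x =
    Real.sinh r * Real.cosh (x - b) + Real.sinh b * Real.cosh (x + r) := by
  rw [Real.sinh_add, Real.cosh_sub, Real.cosh_add]
  have h1 := Real.cosh_sq b
  ring

end IKNum

open IKNum in
theorem pr_KNum : KNum := by
  intro κ b₁ hκ hb₁ hb₁1
  have hu0 : 0 < κ * (b₁ / 2) := by positivity
  have hs0 : 0 < Real.sinh (κ * (b₁ / 2)) := Real.sinh_pos_iff.2 hu0
  have hc0 : 0 < Real.cosh (κ * (b₁ / 2)) := Real.cosh_pos _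
  obtain ⟨τ, hτdef⟩ : ∃ τ, τ = Real.sinh (κ * (b₁ / 2)) / Real.cosh (κ * (b₁ / 2)) := ⟨_, rfl⟩
  have hτ : 0 < τ := by rw [hτdef]; positivity
  have hτ1 : τ < 1 := by
    rw [hτdef, div_lt_one hc0]
    exact Real.sinh_lt_cosh _
  have hτc : τ * Real.cosh (κ * (b₁ / 2)) = Real.sinh (κ * (b₁ / 2)) := by
    rw [hτdef]
    field_simp
  have hsb : 0 < Real.sinh (κ * b₁) := Real.sinh_pos_iff.2 (by positivity)
  obtain ⟨C₁, hC₁def⟩ : ∃ C₁, C₁ = 6 * κ * Real.exp (κ / b₁) / Real.sinh (κ * b₁) := ⟨_, rfl⟩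
  have hC₁ : 0 < C₁ := by rw [hC₁def]; positivity
  have hC₁s : C₁ * Real.sinh (κ * b₁) = 6 * κ * Real.exp (κ / b₁) := by
    rw [hC₁def]
    field_simp
  obtain ⟨C, hCdef⟩ : ∃ C, C = 4 * C₁ / (κ * τ) := ⟨_, rfl⟩
  have hC : 0 < C := by rw [hCdef]; positivity
  have hCC : κ * C * τ = 4 * C₁ := by
    rw [hCdef]
    field_simp
  refine ⟨C, min (b₁ / 2) (min (τ / (2 * (κ * C))) (1 / κ)), hC, by positivity, ?_⟩
  intro b R x e A B hb hb' hR hx he he0 hA hB hBx hmain
  have he1 : e ≤ b₁ / 2 := le_trans he0 (min_le_left _ _)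
  have he2 : e ≤ τ / (2 * (κ * C)) := le_trans he0 (le_trans (min_le_right _ _) (min_le_left _ _))
  have he3 : e ≤ 1 / κ := le_trans he0 (le_trans (min_le_right _ _) (min_le_right _ _))
  have hh1 : κ * e ≤ 1 := by
    rw [le_div_iff₀ hκ] at he3
    linarith
  have hh2 : κ * C * e ≤ τ / 2 := by
    rw [le_div_iff₀ (by positivity)] at he2
    linarith
  have hb0 : 0 < b := lt_of_lt_of_le hb₁ hb
  -- first part
  have k1 : Real.cosh (κ * B) ≤ Real.cosh (κ * (x - b) + κ * e) := by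
    rw [← mul_add]
    refine Real.cosh_le_cosh.2 ?_
    rw [abs_of_nonneg (by positivity), abs_of_nonneg (mul_nonneg hκ.le (by linarith))]
    exact mul_le_mul_of_nonneg_left hBx hκ.le
  have k2 : |κ * (x - b)| ≤ κ * x + κ / b₁ := by
    have e1 : κ * b ≤ κ / b₁ := by
      rw [div_eq_mul_one_div]
      exact mul_le_mul_of_nonneg_left hb' hκ.le
    have e2 : 0 ≤ κ * x := by positivity
    have e3 : 0 ≤ κ * b := by positivity
    rw [abs_le]
    constructor <;> nlinarith
  have k3 := step (u := κ * (x - b)) (v := κ * x + κ / b₁) (h := κ * e) (by positivity) hh1 k2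
  have k4 : Real.cosh (κ * B) ≤ Real.cosh (κ * (x - b)) +
      3 * (κ * e) * Real.exp (κ * x + κ / b₁) := le_trans k1 k3
  have k5 : 0 ≤ Real.sinh (κ * R) := Real.sinh_nonneg_iff.2 (by positivity)
  have k6 : Real.sinh (κ * R) * Real.cosh (κ * B) ≤ Real.sinh (κ * R) * Real.cosh (κ * (x - b)) +
      Real.sinh (κ * R) * (3 * (κ * e) * Real.exp (κ * x + κ / b₁)) := by
    rw [← mul_add]
    exact mul_le_mul_of_nonneg_left k4 k5
  have k7 : Real.sinh (κ * (R + b)) * Real.cosh (κ * x) =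
      Real.sinh (κ * R) * Real.cosh (κ * (x - b)) + Real.sinh (κ * b) * Real.cosh (κ * (x + R)) := by
    have := ident (κ * R) (κ * b) (κ * x)
    rw [mul_add, mul_sub, mul_add]
    exact this
  have k8 : Real.sinh (κ * b₁) ≤ Real.sinh (κ * b) :=
    Real.sinh_le_sinh.2 (mul_le_mul_of_nonneg_left hb hκ.le)
  -- the error term
  have k9 : Real.sinh (κ * R) * (3 * (κ * e) * Real.exp (κ * x + κ / b₁)) ≤
      Real.sinh (κ * b) * (C₁ * e * Real.cosh (κ * (x + R))) := by
    have e1 : Real.sinh (κ * R) ≤ Real.exp (κ * R) :=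
      sinh_le_exp (by rw [abs_of_nonneg (by positivity)])
    have e2 : Real.exp (κ * (x + R)) ≤ 2 * Real.cosh (κ * (x + R)) := by
      rw [Real.cosh_eq]
      have := Real.exp_pos (-(κ * (x + R)))
      linarith
    have e3 : Real.exp (κ * R) * Real.exp (κ * x + κ / b₁) =
        Real.exp (κ * (x + R)) * Real.exp (κ / b₁) := by
      rw [← Real.exp_add, ← Real.exp_add]
      congr 1
      ring
    calc Real.sinh (κ * R) * (3 * (κ * e) * Real.exp (κ * x + κ / b₁)) ≤
        Real.exp (κ * R) * (3 * (κ * e) * Real.exp (κ * x + κ / b₁)) :=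
          mul_le_mul_of_nonneg_right e1 (by positivity)
      _ = 3 * (κ * e) * Real.exp (κ / b₁) * Real.exp (κ * (x + R)) := by
          linear_combination (3 * (κ * e)) * e3
      _ ≤ 3 * (κ * e) * Real.exp (κ / b₁) * (2 * Real.cosh (κ * (x + R))) :=
          mul_le_mul_of_nonneg_left e2 (by positivity)
      _ = Real.sinh (κ * b₁) * (C₁ * e * Real.cosh (κ * (x + R))) := by
          linear_combination (-(e * Real.cosh (κ * (x + R)))) * hC₁s
      _ ≤ Real.sinh (κ * b) * (C₁ * e * Real.cosh (κ * (x + R))) :=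
          mul_le_mul_of_nonneg_right k8 (by positivity)
  have hsb' : 0 < Real.sinh (κ * b) := lt_of_lt_of_le hsb k8
  have k10 : Real.cosh (κ * (x + R)) - C₁ * e * Real.cosh (κ * (x + R)) ≤ Real.cosh (κ * A) := by
    refine le_of_mul_le_mul_left ?_ hsb'
    nlinarith
  -- second part
  by_contra hcon
  push Not at hcon
  have hCe : 0 ≤ κ * C * e := by positivity
  have m0 : 0 ≤ x + R - C * e := by linarith
  have m1 : Real.cosh (κ * A) < Real.cosh (κ * (x + R) - κ * C * e) := by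
    rw [show κ * (x + R) - κ * C * e = κ * (x + R - C * e) by ring]
    refine Real.cosh_lt_cosh.2 ?_
    rw [abs_of_nonneg (by positivity), abs_of_nonneg (by positivity)]
    exact mul_lt_mul_of_pos_left hcon hκ
  have m2 : τ * Real.cosh (κ * (x + R)) ≤ Real.sinh (κ * (x + R)) := by
    have e1 : 0 ≤ Real.sinh (κ * (x + R) - κ * (b₁ / 2)) := by
      refine Real.sinh_nonneg_iff.2 ?_
      rw [← mul_sub]
      exact mul_nonneg hκ.le (by linarith)
    rw [Real.sinh_sub, ← hτc] at e1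
    have e2 : 0 ≤ (Real.sinh (κ * (x + R)) - τ * Real.cosh (κ * (x + R))) *
        Real.cosh (κ * (b₁ / 2)) := by linarith
    have e3 := nonneg_of_mul_nonneg_left e2 hc0
    linarith
  have m3 : Real.cosh (κ * (x + R) - κ * C * e) ≤
      Real.cosh (κ * (x + R)) * (1 - τ / 2 * (κ * C * e)) := by
    rw [Real.cosh_sub]
    have e1 := cosh_le hCe (by linarith)
    have e2 : κ * C * e ≤ Real.sinh (κ * C * e) := Real.self_le_sinh_iff.2 hCe
    have e3 : 0 < Real.cosh (κ * (x + R)) := Real.cosh_pos _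
    have e4 : Real.cosh (κ * (x + R)) * Real.cosh (κ * C * e) ≤
        Real.cosh (κ * (x + R)) * (1 + (κ * C * e) ^ 2) := mul_le_mul_of_nonneg_left e1 e3.le
    have e5 : τ * Real.cosh (κ * (x + R)) * (κ * C * e) ≤
        Real.sinh (κ * (x + R)) * Real.sinh (κ * C * e) :=
      mul_le_mul m2 e2 hCe (le_trans (by positivity) m2)
    have e6 : (κ * C * e) ^ 2 ≤ τ / 2 * (κ * C * e) := by
      rw [pow_two]
      exact mul_le_mul_of_nonneg_right hh2 hCe
    nlinarith
  have m4 : τ / 2 * (κ * C * e) = 2 * (C₁ * e) := by linear_combination (e / 2) * hCC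
  rw [m4] at m3
  have m5 : 0 ≤ C₁ * e * Real.cosh (κ * (x + R)) := by positivity
  nlinarith

end Pool.Agent.LX
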