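import Pool.Agent.Work.MP_25cd3b_gt.LX.StmtsK

set_option autoImplicit false

/-!
# MP_25cd3b_gt, block LX: item KUp (upper bound of the temporal displacement)
-/

open MeasureTheory Set Filter Topology
open scoped ContDiff ENNReal
open Pool.Agent.Work.MP_c9f990_an.Al (IsFlow)

namespace Pool.Agent.LX

open Pool.Agent.MLS Pool.Agent.STR Pool.Agent.LR

theorem pr_KUp (h1 : KMain) (h2 : BCr) (h3 : BGen) (h4 : YUp) : KUp := by
  intro n G _ _ g κ φ M lg a c l V hP s s' hGr hs' hss'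
  obtain ⟨C1, ρ1, k1, hC1, hρ1, hmain⟩ := h1 n G g κ φ M lg a c l V hP s s' hGr hs' hss'
  obtain ⟨Cr, ρr, hCr, hρr, -, hcr⟩ := h2 n G g κ φ M lg a c l V hP
  obtain ⟨lam, K, r, hgen⟩ := h3 n G g κ φ M lg a c l V hP
  obtain ⟨C2, ρ2, hC2, hρ2, hup⟩ := h4 V lam K r _ _ _ _ hgen s s' hGr hs' hss'
  have hCr0 : 0 < Cr := by linarith
  obtain ⟨ρ, hρ⟩ : ∃ ρ : ℝ, ρ = min ρr (min (1 / Cr) (min (ρ1 / Cr) (ρ2 / Cr))) := ⟨_, rfl⟩
  have hρ0 : 0 < ρ := by
    rw [hρ]
    refine lt_min hρr (lt_min (by positivity) (lt_min (by positivity) (by positivity)))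
  have e1 : ρ ≤ ρr := by rw [hρ]; exact min_le_left _ _
  have e2 : Cr * ρ ≤ 1 := by
    have : ρ ≤ 1 / Cr := by rw [hρ]; exact (min_le_right _ _).trans (min_le_left _ _)
    rw [le_div_iff₀ hCr0] at this
    linarith
  have e3 : Cr * ρ ≤ ρ1 := by
    have : ρ ≤ ρ1 / Cr := by
      rw [hρ]; exact (min_le_right _ _).trans ((min_le_right _ _).trans (min_le_left _ _))
    rw [le_div_iff₀ hCr0] at this
    linarith
  have e4 : Cr * ρ ≤ ρ2 := by
    have : ρ ≤ ρ2 / Cr := by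
      rw [hρ]; exact (min_le_right _ _).trans ((min_le_right _ _).trans (min_le_right _ _))
    rw [le_div_iff₀ hCr0] at this
    linarith
  have e5 : ρ ≤ ρ1 := by nlinarith
  refine ⟨C1 + C2, ρ, max k1 1, by positivity, hρ0, ?_⟩
  intro k α β τ hk hα hβ hαc hβc hAs hAb hτ
  have hk1 : k1 ≤ k := (le_max_left _ _).trans hk
  have hk2 : 1 ≤ k := (le_max_right _ _).trans hk
  obtain ⟨a₀, x, ha₀, hx, hax⟩ := hcr α 0 ρ hα.geo.smooth.continuous hρ0 e1 (by
    intro t ht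
    rw [Nat.cast_zero, zero_mul, zero_add]
    apply hαc
    have := neg_abs_le t
    linarith)
  obtain ⟨b₀, z, hb₀, hz, hbz⟩ := hcr β 0 ρ hβ.geo.smooth.continuous hρ0 e1 (by
    intro t ht
    rw [Nat.cast_zero, zero_mul, zero_add]
    apply hβc
    have := le_abs_self t
    linarith)
  rw [Nat.cast_zero, zero_mul, zero_add, pow_zero, one_smul] at hax hbz
  obtain ⟨τ', hτ', hle⟩ := hmain k α β x z a₀ b₀ hk1 hα hβ (ha₀.trans e3) (hb₀.trans e3)
    (hx.trans e3) (hz.trans e3) hax hbz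
    (fun t ht => (hαc t (by linarith)).trans e5) (fun t ht => (hβc t (by linarith)).trans e5)
    hAs hAb
  have hττ : τ = τ' := tendsto_nhds_unique hτ hτ'
  have hb := hup k hk2 x z (hx.trans e4) (hz.trans e4)
  have hexp : Real.exp (-(2 * s' * k)) ≤ Real.exp (-(s' * k)) := by
    apply Real.exp_le_exp.2
    have : (0 : ℝ) ≤ s' * k := by positivity
    linarith
  rw [hττ]
  calc |τ'| = |(τ' - Mx (Dk g φ a (c 0) l V) k x z) + Mx (Dk g φ a (c 0) l V) k x z| := by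
        rw [sub_add_cancel]
    _ ≤ |τ' - Mx (Dk g φ a (c 0) l V) k x z| + |Mx (Dk g φ a (c 0) l V) k x z| :=
        abs_add_le _ _
    _ ≤ C1 * Real.exp (-(2 * s' * k)) + C2 * Real.exp (-(s' * k)) := add_le_add hle hb
    _ ≤ C1 * Real.exp (-(s' * k)) + C2 * Real.exp (-(s' * k)) := by gcongr
    _ = (C1 + C2) * Real.exp (-(s' * k)) := by ring

end Pool.Agent.LX
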