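import Pool.Agent.Work.MP_25cd3b_gt.LX.StmtsB

set_option autoImplicit false

/-!
# MP_25cd3b_gt, block LX: parts J (Jacobi fields and linear chains), K (temporal displacement), C
(conjugacies), F (conclusion): statements with proofs

What may be used: as in StmtsB (in particular `NG.All` and `ST.All93`), and every statement of StmtsA,
StmtsB and every earlier statement of this file as a hypothesis.  Notation as in StmtsB; `o = c 0`,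
`σ u = ex_o u` for `u ∈ V`, `H = HH g φ a o l V`, `D k = Dk g φ a o l V k`, `L = Lk g φ a o l V`.
-/

open MeasureTheory Set Filter Topology
open scoped ContDiff ENNReal
open Pool.Agent.Work.MP_c9f990_an.Al (IsFlow)

namespace Pool.Agent.LX

open Pool.Agent.MLS Pool.Agent.STR Pool.Agent.LR

/-! ### J. Jacobi fields and linear chains -/

/-- From Jacobi fields to chains (uses `BPos`, `BJm`, `BJs`, `BOrt`).  `a^j c t = c (t + j l)`, so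
`dac (a^j) (c 0)` maps `V` onto the orthogonal complement of `c' (j l)` at `c (j l)` (`Inv`; `dac (b⁻¹) (b x)` is
the inverse of `dac b x`); this defines `Z j ∈ V`.  `J_j t = dac (a^j)⁻¹ (c (t + j l)) (J (t + j l))` is a
Jacobi field along `c` (`BJs` with `p = 1`, `BJm` for `(a^j)⁻¹`), orthogonal, `J_j 0 = Z j`,
`J_j l = dac a (c 0) (Z (j+1))` (chain rule for `(a^j)⁻¹ a^(j+1) = a`).  The formula of `BPos` for `J_j` and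
`J_(j+1)`: `H(Z j, Z (j+1))(0, w) = g(c l)(cov J_j l, dac a o w)` and
`H(Z (j+1), Z (j+2))(w, 0) = - g(c 0)(cov J_(j+1) 0, w)`; `J_j (t + l) = dac a (c t) (J_(j+1) t)`, so
`cov J_j l = dac a o (cov J_(j+1) 0)` (`BJm`, first part, `BJs`), and by `Inv` the sum is `0`. -/
def JChn : Prop := ∀ (n : ℕ) (G : Type) [Group G] [MulAction G (E n)] (g : Form n) (κ : ℝ)
  (φ : ℝ → W n → W n) (M : ℝ → W n → W n →L[ℝ] W n) (lg : E n → E n → E n) (a : G) (c : ℝ → E n)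
  (l : ℝ) (V : Submodule ℝ (E n)), Per n G g κ φ M lg a c l V → ∀ J : ℝ → E n, NJ g c J →
  ∃ Z : ℕ → V, (∀ j : ℕ, J (j * l) = dac (a ^ j) (c 0) (Z j)) ∧
    ∀ k, Sol (fun _ => HH g φ a (c 0) l V) k Z

/-- From chains to Jacobi fields (uses `JChn`, `BBv`, `BOrt`, `BPos`).  Let `J` be the Jacobi field with
`J 0 = 0`, `J l = dac a (c 0) (Z 1)` (`BBv`); it is orthogonal (`BOrt`).  `cov g c J 0 = J' 0` as `J 0 = 0`;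
the formula of `BPos` gives the last claim.  Let `Z'` be the chain of `J` (`JChn`); `Z' 0 = 0`, `Z' 1 = Z 1`
(`dac` is injective).  Nondegeneracy: if `v' ∈ V` and `H(0, v')(w, 0) = 0` for all `w ∈ V`, then for the
Jacobi field `J₁` with `J₁ 0 = 0`, `J₁ l = dac a (c 0) v'` we get `g(c 0)(J₁' 0, w) = 0` for all `w ∈ V`,
and `J₁' 0 ∈ V` (`BOrt`), so `J₁' 0 = 0` and `J₁ = 0` (`BBv`, third part), `v' = 0`.  So in the chain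
equation at `j + 1` the vector `Z (j+2)` is determined by `Z j, Z (j+1)`, and `Z j = Z' j` for `j ≤ k + 1`
by induction. -/
def JInv : Prop := ∀ (n : ℕ) (G : Type) [Group G] [MulAction G (E n)] (g : Form n) (κ : ℝ)
  (φ : ℝ → W n → W n) (M : ℝ → W n → W n →L[ℝ] W n) (lg : E n → E n → E n) (a : G) (c : ℝ → E n)
  (l : ℝ) (V : Submodule ℝ (E n)), Per n G g κ φ M lg a c l V → ∀ (k : ℕ) (Z : ℕ → V),
  Sol (fun _ => HH g φ a (c 0) l V) (k + 1) Z → Z 0 = 0 →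
  ∃ J : ℝ → E n, NJ g c J ∧ J 0 = 0 ∧
    (∀ j : ℕ, j ≤ k + 1 → J (j * l) = dac (a ^ j) (c 0) (Z j)) ∧
    ∀ w : V, HH g φ a (c 0) l V (0, Z 1) (w, 0) = -g.val (c 0) (deriv J 0) w

/-- Uniform growth (uses `JChn`, `JInv`, `XGreen`, `XBvp`, `BPos`).  Let `Z` be the chain of `J`
(`JChn`), `Z 0 = 0`, `ξ = J' 0 ∈ V` (`BOrt`: `g(c', D J) = 0`, `D J 0 = J' 0`).  By `BPos`
`H(0, Z 1)(w, 0) = - g(c 0)(ξ, w)`.  Let `Y` be the solution on `[0, k+1]` with `Y 0 = ξ`, `Y (k+1) = 0`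
(`XBvp`); `XGreen` twice (and symmetry): `H(Y k, 0)(0, Z (k+1)) = H(0, Z 1)(ξ, 0) = - g(c 0)(ξ, ξ)`.  So
`nrm g (c 0) ξ ^ 2 ≤ C exp(-s k) ‖ξ‖ ‖Z (k+1)‖`, and `‖·‖` and `nrm g (c 0)` are equivalent (`BCr` or
`StBnd`), `nrm g (c ((k+1) l)) (dac (a^(k+1)) (c 0) z) = nrm g (c 0) z` (`Inv`). -/
def JGr : Prop := ∀ (n : ℕ) (G : Type) [Group G] [MulAction G (E n)] (g : Form n) (κ : ℝ)
  (φ : ℝ → W n → W n) (M : ℝ → W n → W n →L[ℝ] W n) (lg : E n → E n → E n) (a : G) (c : ℝ → E n)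
  (l : ℝ) (V : Submodule ℝ (E n)), Per n G g κ φ M lg a c l V → ∀ s : ℝ,
  Gr (HH g φ a (c 0) l V) s → ∃ C : ℝ, 0 < C ∧ ∀ J : ℝ → E n, NJ g c J → J 0 = 0 → ∀ k : ℕ,
  C * Real.exp (s * k) * nrm g (c 0) (deriv J 0) ≤ nrm g (c ((k + 1) * l)) (J ((k + 1) * l))

/-- A slow Jacobi field (uses `XRec`, `BPos`, `JInv`, `BBv`, `BOrt`).  Take `Z` from `XRec` for `H`.  For
every `k` the field `J` of `JInv` (for `Z` on `[0, k+1]`) has `J 0 = 0`, `J l = dac a (c 0) (Z 1)`, so it does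
not depend on `k` (`BBv`), and `J (j l) = dac (a^j) (c 0) (Z j)` for all `j`; `J ≠ 0` as `Z 1 ≠ 0`, so
`J' 0 ≠ 0`.  `|J (j l)| = nrm g (c 0) (Z j) ≤ C exp(s' j)`.  For `t ≥ 0` the square `|J|^2` has the derivative
`2 g(D J, J) ≥ 0` (`BOrt`: monotone and `0` at `0`), so `|J t| ≤ |J (j l)|` with `j = ⌈t / l⌉`. -/
def JSl : Prop := ∀ (n : ℕ) (G : Type) [Group G] [MulAction G (E n)] (g : Form n) (κ : ℝ)
  (φ : ℝ → W n → W n) (M : ℝ → W n → W n →L[ℝ] W n) (lg : E n → E n → E n) (a : G) (c : ℝ → E n)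
  (l : ℝ) (V : Submodule ℝ (E n)), Per n G g κ φ M lg a c l V → ∀ s s' : ℝ,
  ¬ Gr (HH g φ a (c 0) l V) s → s < s' → ∃ (J : ℝ → E n) (C : ℝ), NJ g c J ∧ J 0 = 0 ∧
  deriv J 0 ≠ 0 ∧ ∀ t : ℝ, 0 ≤ t → nrm g (c t) (J t) ≤ C * Real.exp (s' * t / l)

/-! ### K. temporal displacement -/

/-- Elementary.  WLOG `S = R + x > 0`, `S - A =: t > 0`.  Identity
`sinh κ(R + b) cosh κx - sinh κR cosh κ(x - b) = sinh κb cosh κS`.  So with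
`cosh κB ≤ cosh κ(x - b + e)` (`0 ≤ B ≤ x - b + e`) and
`cosh κ(x - b + e) - cosh κ(x - b) ≤ κ e exp(κ(x + 1))` (mean value theorem; `|x - b|, |x - b + e| ≤ x + 1`
for `e ≤ b₁ ≤ b`, `e ≤ 1`, `b ≤ 1/b₁`... use `exp(κ(x + 1/b₁ + 1))`) the hypothesis gives
`cosh κA ≥ cosh κS - (sinh κR / sinh κb) κ e exp(κ(x + C)) ≥ (1 - C e) cosh κS`.  `S ≥ x ≥ b - e ≥ b₁/2` for
`e ≤ b₁/2`.  Let `m = min 1 S`; `cosh κ(S - m) ≤ (1 - c₁) cosh κS` with `c₁ > 0` depending on `κ, b₁` only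
(for `S ≥ 1`: `cosh κ(S-1) ≤ cosh κS / cosh κ`, since
`cosh κS = cosh κ(S-1) cosh κ + sinh κ(S-1) sinh κ ≥ cosh κ(S-1) cosh κ`; for `b₁/2 ≤ S ≤ 1`:
`1 ≤ cosh κS / cosh (κ b₁/2)`).  By convexity of `cosh` on `[S - m, S]`, if `t ≤ m`:
`cosh κA ≤ cosh κS - (t/m) c₁ cosh κS`, so `t ≤ C e`; if `t > m`: `cosh κA ≤ (1 - c₁) cosh κS`,
impossible if `C e < c₁`. -/
def KNum : Prop := ∀ κ b₁ : ℝ, 0 < κ → 0 < b₁ → b₁ ≤ 1 → ∃ C e₀ : ℝ, 0 < C ∧ 0 < e₀ ∧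
  ∀ b R x e A B : ℝ, b₁ ≤ b → b ≤ 1 / b₁ → 0 ≤ R → 0 ≤ x → 0 ≤ e → e ≤ e₀ → 0 ≤ A → 0 ≤ B →
  B ≤ x - b + e →
  Real.sinh (κ * (R + b)) * Real.cosh (κ * x) ≤
    Real.sinh (κ * b) * Real.cosh (κ * A) + Real.sinh (κ * R) * Real.cosh (κ * B) →
  x + R - C * e ≤ A

/-- Excess propagates (uses `KNum`, `StStew`).  Stewart for `y`, `σ`, at the point `σ 0` with `σ (-R)`
and `σ b` (in `StStew`: `t = 0`, `a = R`). -/
def KX1 : Prop := ∀ κ b₁ : ℝ, 0 < κ → 0 < b₁ → b₁ ≤ 1 → ∃ C e₀ : ℝ, 0 < C ∧ 0 < e₀ ∧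
  ∀ (n : ℕ) (g : Form n), Cv g κ → ∀ (σ : ℝ → E n) (y : E n) (b R e : ℝ), UG g σ → b₁ ≤ b →
  b ≤ 1 / b₁ → 0 ≤ R → 0 ≤ e → e ≤ e₀ → gd g y (σ b) ≤ gd g y (σ 0) - b + e →
  gd g y (σ 0) + R - C * e ≤ gd g y (σ (-R))

/-- Infinite chains of forward asymptotic geodesics (uses `BCr`, `BTi`, `BGen`, `YEL`).  For `j ≥ 1`
`BCr` (with `C δ < l / 4`, so the times `j l + t` are positive) gives a time `t j`, `|t j - j l| ≤ C δ`, and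
`u j`; put `t 0 = a₀`, `u 0 = x`.  The times increase.  `BTi` for every `k`; `YEL` if `C ρ < r`. -/
def KAl : Prop := ∀ (n : ℕ) (G : Type) [Group G] [MulAction G (E n)] (g : Form n) (κ : ℝ)
  (φ : ℝ → W n → W n) (M : ℝ → W n → W n →L[ℝ] W n) (lg : E n → E n → E n) (a : G) (c : ℝ → E n)
  (l : ℝ) (V : Submodule ℝ (E n)), Per n G g κ φ M lg a c l V →
  ∃ C ρ : ℝ, 1 ≤ C ∧ 0 < ρ ∧ ∀ (δ a₀ : ℝ) (α : ℝ → E n) (x : V), 0 < δ → δ ≤ ρ → UG g α →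
  |a₀| ≤ δ → ‖x‖ ≤ δ → α a₀ = expo φ g (c 0) x → (∀ t, 0 ≤ t → gd g (α t) (c t) ≤ δ) →
  ∃ (u : ℕ → V) (t : ℕ → ℝ), u 0 = x ∧ t 0 = a₀ ∧ (∀ j : ℕ, α (t j) = a ^ j • expo φ g (c 0) (u j) ∧
    ‖u j‖ ≤ C * δ ∧ |t j - j * l| ≤ C * δ) ∧
  Lk g φ a (c 0) l V (u 0, u 1) = t 1 - t 0 - l ∧
  ∀ k : ℕ, 1 ≤ k → Tight (Lk g φ a (c 0) l V) (Dk g φ a (c 0) l V) k u ∧
    EL (fderiv ℝ (Lk g φ a (c 0) l V)) k u ∧
    Dk g φ a (c 0) l V k (u 0) (u k) = t k - t 0 - k * l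

/-- MAIN ESTIMATE (uses `KAl`, `KX1`, `BGen`, `BRev`, `YTri`, `YEL`, `YAng`, `YExc`, `XPosR`, `StCvG`,
`StUG`, `StInvD`, `StGd`).  All constants depend on the data of `Per`, `s`, `s'` only; `ρ` is small.
(1) Existence of the limit: `f R = d(α (-R), a^k β R) - 2 R` is nonincreasing (triangle inequality), so it
converges if it is bounded below, which follows from (4).  Upper bound: `d(α (-R), a^k β R) ≤
(R + a₀) + d(σ x, a^k σ z) + (R - b₀)`, and `d(σ x, a^k σ z) = D k x z + k l`.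
(2) Chains: `u` the chain of `Gen.ex` for `x, z` (`u 0 = x`, `u k = z`); `uα`, times `t` the chain of `α`
(`KAl`); `v`, times `s` the chain of `β(-t)` for the reversed data (`BRev`, `KAl`): `v 0 = z`, `s 0 = - b₀`,
`β(- s 1) = a⁻¹ σ (v 1)`, `s 1 - s 0 = l + L(v 1, z)` (`Lk` for `a⁻¹` is `p ↦ L p.swap`).  The sequence
`j ↦ v (k - j)` on `[0, k]` is a tight chain for `D`, `L` (`BRev`), so it satisfies `EL` (`YEL`).  `YAng`: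
`‖u 1 - uα 1‖ ≤ C exp(-s' k)`, `‖u (k-1) - v 1‖ ≤ C exp(-s' k)`.  `YExc` (`k ≥ 2`):
`e := L(x, uα 1) + D (k-1) (uα 1) z - D k x z ≤ C exp(-2 s' k)`,
`e' := D (k-1) x (v 1) + L(v 1, z) - D k x z ≤ C exp(-2 s' k)`, both `≥ 0` (`YTri` or `tri`).
(3) `KX1` for `t ↦ α (a₀ + t)`, `y = a^k σ z`, `b = t 1 - a₀ = l + L(x, uα 1) ∈ [l/2, 2 l]` (take
`b₁ = min 1 (min (l/2) (1/(2 l)))`): `d(y, α (t 1)) = D (k-1) (uα 1) z + (k-1) l` (`StInvD`),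
`d(y, α a₀) = D k x z + k l`, so the hypothesis holds with equality; hence
`d(y, α (-R)) ≥ (R + a₀) + D k x z + k l - C e` for `R ≥ |a₀|`.
(4) `KX1` for `t ↦ a^k β (b₀ - t)`, `y = A = α (-R)`, `b = b₀ + s 1 = l + L(v 1, z)`: the point at `b` is
`a^(k-1) σ (v 1)`, `d(A, it) ≤ (R + a₀) + D (k-1) x (v 1) + (k-1) l`, and by (3)
`d(A, a^k σ z) ≥ (R + a₀) + D k x z + k l - C e`; so the hypothesis holds with the excess `e' + C e`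
(`≤ e₀` for `k ≥ k₀`), and `d(A, a^k β R) ≥ d(A, a^k σ z) + (R - b₀) - C (e' + C e)`.  So
`f R - k l ≥ D k x z + a₀ - b₀ - C exp(-2 s' k)` for all large `R`. -/
def KEst : Prop := ∀ (n : ℕ) (G : Type) [Group G] [MulAction G (E n)] (g : Form n) (κ : ℝ)
  (φ : ℝ → W n → W n) (M : ℝ → W n → W n →L[ℝ] W n) (lg : E n → E n → E n) (a : G) (c : ℝ → E n)
  (l : ℝ) (V : Submodule ℝ (E n)), Per n G g κ φ M lg a c l V → ∀ s s' : ℝ,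
  Gr (HH g φ a (c 0) l V) s → 0 < s' → s' < s → ∃ (C ρ : ℝ) (k₀ : ℕ), 0 < C ∧ 0 < ρ ∧
  ∀ (k : ℕ) (α β : ℝ → E n) (x z : V) (a₀ b₀ : ℝ), k₀ ≤ k → UG g α → UG g β → |a₀| ≤ ρ →
  |b₀| ≤ ρ → ‖x‖ ≤ ρ → ‖z‖ ≤ ρ → α a₀ = expo φ g (c 0) x → β b₀ = expo φ g (c 0) z →
  (∀ t, 0 ≤ t → gd g (α t) (c t) ≤ ρ) → (∀ t, t ≤ 0 → gd g (β t) (c t) ≤ ρ) →
  ∃ τ : ℝ, Tau g a α β k l τ ∧
    Dk g φ a (c 0) l V k x z + a₀ - b₀ - C * Real.exp (-(2 * s' * k)) ≤ τ ∧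
    τ ≤ Dk g φ a (c 0) l V k x z + a₀ - b₀

/-- Temporal displacement and second difference (uses `KEst`, `StCvG`, `StInvD`, `StGd`).
`Tau g a α c k l 0`: `a^k c R = c (R + k l)`, `|d(α (-R), c (R + k l)) - d(α (-R), α (R + k l))| ≤
d(α (R + k l), c (R + k l)) → 0`.  `Tau g a c β k l 0`: `d(c (-R), a^k β R) = d(c (-R - k l), β R)`, and
`d(c (-R - k l), β (-R - k l)) → 0`.  Apply `KEst` to `(α, β)`, to `(α, c)` (with `z = 0`, `b₀ = 0`) and to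
`(c, β)` (with `x = 0`, `a₀ = 0`); limits are unique, so `0 ≤ D k x 0 + a₀ ≤ C exp(-2 s' k)`,
`0 ≤ D k 0 z - b₀ ≤ C exp(-2 s' k)`. -/
def KMain : Prop := ∀ (n : ℕ) (G : Type) [Group G] [MulAction G (E n)] (g : Form n) (κ : ℝ)
  (φ : ℝ → W n → W n) (M : ℝ → W n → W n →L[ℝ] W n) (lg : E n → E n → E n) (a : G) (c : ℝ → E n)
  (l : ℝ) (V : Submodule ℝ (E n)), Per n G g κ φ M lg a c l V → ∀ s s' : ℝ,
  Gr (HH g φ a (c 0) l V) s → 0 < s' → s' < s → ∃ (C ρ : ℝ) (k₀ : ℕ), 0 < C ∧ 0 < ρ ∧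
  ∀ (k : ℕ) (α β : ℝ → E n) (x z : V) (a₀ b₀ : ℝ), k₀ ≤ k → UG g α → UG g β → |a₀| ≤ ρ →
  |b₀| ≤ ρ → ‖x‖ ≤ ρ → ‖z‖ ≤ ρ → α a₀ = expo φ g (c 0) x → β b₀ = expo φ g (c 0) z →
  (∀ t, 0 ≤ t → gd g (α t) (c t) ≤ ρ) → (∀ t, t ≤ 0 → gd g (β t) (c t) ≤ ρ) →
  As g α c → Ab g β c → ∃ τ : ℝ, Tau g a α β k l τ ∧
    |τ - Mx (Dk g φ a (c 0) l V) k x z| ≤ C * Real.exp (-(2 * s' * k))

/-- Existence of forward asymptotic geodesics (uses `BCL`, `KAl`, `BPos`, `XPosR`, `YDec`, `BGen`,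
`StCvG`, `BCr`).  Let `p = σ x`, `δ = nrm g o x = d(o, p)` (`IsLog.dist`), `C` denotes constants; if `δ = 0`
take `α = c`.  For `i ≥ 1` let `η_i` be the geodesic from `p` to `c (i l)`, `T_i = d(..)`, `|T_i - i l| ≤ δ`;
`BCL` on `[0, i l]`: `d(η_i t, c t) ≤ 10 δ`.  The initial vectors of the `η_i` are unit vectors at `p`, a
compact set; let `η` be the geodesic for a limit vector (`η t = ex_p (t v)`); by continuity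
`d(η t, c t) ≤ 10 δ` for `t ≥ 0`.  `KAl` for `η`, `a₀ = 0`: chain `u`, times `t j`, `|t j - j l| ≤ C δ`,
`t (j+1) - t j - l = L(u j, u (j+1))` (from the formula for `D k` and `Tight`, or `BTi`).  By `YDec` (with a
rate `s > 0` from `XPosR`) `‖u j‖ ≤ C exp(-s' j)` and `∑ |L(u j, u (j+1))| < ∞`, so `t j - j l` converges to
some `t_∞`, `|t_∞| ≤ C δ`.  `α t = η (t + t_∞)`, `a₀ = - t_∞`; `d(α t, c t) ≤ |t_∞| + 10 δ` for `t ≥ 0` (for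
`t + t_∞ < 0` too: `|t_∞|`-Lipschitz).  `As`: `d(α (j l), c (j l)) ≤ |j l + t_∞ - t j| + d(a^j σ (u j), a^j o) → 0`;
for `t ∈ [j l, (j+1) l]` use `BCL` for the geodesics shifted by `j l`, `T = l`. -/
def KExA : Prop := ∀ (n : ℕ) (G : Type) [Group G] [MulAction G (E n)] (g : Form n) (κ : ℝ)
  (φ : ℝ → W n → W n) (M : ℝ → W n → W n →L[ℝ] W n) (lg : E n → E n → E n) (a : G) (c : ℝ → E n)
  (l : ℝ) (V : Submodule ℝ (E n)), Per n G g κ φ M lg a c l V → ∀ ρ : ℝ, 0 < ρ →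
  ∃ ρ₀ : ℝ, 0 < ρ₀ ∧ ∀ x : V, ‖x‖ ≤ ρ₀ → ∃ (α : ℝ → E n) (a₀ : ℝ), UG g α ∧ |a₀| ≤ ρ ∧
    α a₀ = expo φ g (c 0) x ∧ (∀ t, 0 ≤ t → gd g (α t) (c t) ≤ ρ) ∧ As g α c

/-- Existence of backward asymptotic geodesics: `KExA` for the reversed data (`BRev`), `β t = α (-t)`,
`b₀ = - a₀`. -/
def KExB : Prop := ∀ (n : ℕ) (G : Type) [Group G] [MulAction G (E n)] (g : Form n) (κ : ℝ)
  (φ : ℝ → W n → W n) (M : ℝ → W n → W n →L[ℝ] W n) (lg : E n → E n → E n) (a : G) (c : ℝ → E n)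
  (l : ℝ) (V : Submodule ℝ (E n)), Per n G g κ φ M lg a c l V → ∀ ρ : ℝ, 0 < ρ →
  ∃ ρ₀ : ℝ, 0 < ρ₀ ∧ ∀ z : V, ‖z‖ ≤ ρ₀ → ∃ (β : ℝ → E n) (b₀ : ℝ), UG g β ∧ |b₀| ≤ ρ ∧
    β b₀ = expo φ g (c 0) z ∧ (∀ t, t ≤ 0 → gd g (β t) (c t) ≤ ρ) ∧ Ab g β c

/-- Upper bound (uses `KMain`, `BCr`, `BGen`, `YUp`).  `BCr` with `j = 0` (`C ρ ≤ 1`) gives `a₀`, `x` with
`α a₀ = σ x`, and `b₀`, `z` for `β`, all at most `C ρ`.  Then `KMain` and `YUp` (with `2 s' > s'`), and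
uniqueness of limits. -/
def KUp : Prop := ∀ (n : ℕ) (G : Type) [Group G] [MulAction G (E n)] (g : Form n) (κ : ℝ)
  (φ : ℝ → W n → W n) (M : ℝ → W n → W n →L[ℝ] W n) (lg : E n → E n → E n) (a : G) (c : ℝ → E n)
  (l : ℝ) (V : Submodule ℝ (E n)), Per n G g κ φ M lg a c l V → ∀ s s' : ℝ,
  Gr (HH g φ a (c 0) l V) s → 0 < s' → s' < s → ∃ (C ρ : ℝ) (k₀ : ℕ), 0 < C ∧ 0 < ρ ∧
  ∀ (k : ℕ) (α β : ℝ → E n) (τ : ℝ), k₀ ≤ k → UG g α → UG g β →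
  (∀ t, -1 ≤ t → gd g (α t) (c t) ≤ ρ) → (∀ t, t ≤ 1 → gd g (β t) (c t) ≤ ρ) →
  As g α c → Ab g β c → Tau g a α β k l τ → |τ| ≤ C * Real.exp (-(s' * k))

/-- Lower bound (uses `KMain`, `KExA`, `KExB`, `BGen`, `YInf`).  Take `k, x, z` from `YInf` with `k` large
(so `‖x‖, ‖z‖ ≤ exp(-η k) ≤ ρ₀`), `α, β` from `KExA`, `KExB` (with `min ρ ρ'`, `ρ'` from `KMain`), and
`|τ| ≥ exp(-(t + 2 η) k) - C exp(-2 s' k) ≥ exp(-(t + 2 η) k) / 2` for `k` large. -/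
def KLo : Prop := ∀ (n : ℕ) (G : Type) [Group G] [MulAction G (E n)] (g : Form n) (κ : ℝ)
  (φ : ℝ → W n → W n) (M : ℝ → W n → W n →L[ℝ] W n) (lg : E n → E n → E n) (a : G) (c : ℝ → E n)
  (l : ℝ) (V : Submodule ℝ (E n)), Per n G g κ φ M lg a c l V → ∀ s s' t η : ℝ,
  Gr (HH g φ a (c 0) l V) s → ¬ Gr (HH g φ a (c 0) l V) t → 0 < s' → s' < s → 0 < η →
  t - s' < η → t + 2 * η < 2 * s' → ∀ (ρ : ℝ) (k₀ : ℕ), 0 < ρ → ∃ k ≥ k₀, ∃ (α β : ℝ → E n) (τ : ℝ),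
  UG g α ∧ UG g β ∧ (∀ t, 0 ≤ t → gd g (α t) (c t) ≤ ρ) ∧ (∀ t, t ≤ 0 → gd g (β t) (c t) ≤ ρ) ∧
  As g α c ∧ Ab g β c ∧ Tau g a α β k l τ ∧ 1 / 2 * Real.exp (-((t + 2 * η) * k)) ≤ |τ|

/-! ### C. conjugacies -/

/-- Uniform continuity (uses `StProp`, `StUG`, `StCtsD`, `StInvD`, `StFlow`, `NcGx`).  Otherwise there
are `ε > 0` and geodesics `c_i, d_i` with `d(c_i t, d_i t) ≤ 1/(i+1)` on `[0, 1]` and `s_i ∈ [-1, 2]` with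
`d(c2_i s_i, d2_i s_i) > ε`.  Move by elements `b_i` with `b_i c_i 0 ∈ K` (`K` compact, `G K = R^n`; `Hc.eqv`
shows that `θ b_i c2_i` corresponds to `b_i c_i`, and `StInvD` for both metrics).  The initial vectors of
`c_i` are unit vectors over `K`, a compact set (`StBnd`); `d_i 0` is in a compact set (`StProp`); pass to
a subsequence with `(c_i 0, c_i' 0) → p`, `(d_i 0, d_i' 0) → q`, `s_i → s`.  Geodesics depend continuously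
on the initial vector (`c t = (φ t (c 0, op g c' 0)).1`, `c' t = vel g (φ t ..)`), so the limit geodesics
`c, d` have `d(c t, d t) = 0` on `[0, 1]`, hence `c = d` there (`NcDist` or `StGe`: distinct points have
positive distance) and `p = q`.  So `(c_i s_i, c_i' s_i)` and `(d_i s_i, d_i' s_i)` have the same limit, a
unit vector, and by `Hc.cont` so have `(c2_i s_i, c2_i' s_i)` and `(d2_i s_i, d2_i' s_i)`: a
contradiction (`StCtsD`). -/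
def CUC : Prop := ∀ (n : ℕ) (G : Type) [Group G] [MulAction G (E n)], Cocompact n G →
  ∀ (θ : G →* G) (g1 g2 : Form n) (κ₁ : ℝ) (Φ : W n → W n), Cv g1 κ₁ → Inv G g1 → Riem g2 →
  Inv G g2 → Hc θ g1 g2 Φ → ∀ ε : ℝ, 0 < ε → ∃ δ : ℝ, 0 < δ ∧ ∀ c d c2 d2 : ℝ → E n, UG g1 c →
  UG g1 d → Cor Φ c c2 → Cor Φ d d2 → (∀ t ∈ Icc (0 : ℝ) 1, gd g1 (c t) (d t) ≤ δ) →
  ∀ s ∈ Icc (-1 : ℝ) 2, gd g2 (c2 s) (d2 s) ≤ ε

/-- Transport (uses `CUC`, `StUG`).  Apply `CUC` to the shifted geodesics `t ↦ α (w + t)`, `t ↦ c (w + t)`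
(they correspond to the shifted `α2`, `c2`; for derivatives use `deriv_comp_const_add`): for `t ≥ -1` with
the window `[w, w + 1]`, `w = max t 0`; for `t ≤ 1` with `w + 1 = min t 0`. -/
def CTr : Prop := ∀ (n : ℕ) (G : Type) [Group G] [MulAction G (E n)], Cocompact n G →
  ∀ (θ : G →* G) (g1 g2 : Form n) (κ₁ : ℝ) (Φ : W n → W n), Cv g1 κ₁ → Inv G g1 → Riem g2 →
  Inv G g2 → Hc θ g1 g2 Φ →
  (∀ ε : ℝ, 0 < ε → ∃ δ : ℝ, 0 < δ ∧ ∀ α c α2 c2 : ℝ → E n, UG g1 α → UG g1 c → Cor Φ α α2 →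
    Cor Φ c c2 → ((∀ t, 0 ≤ t → gd g1 (α t) (c t) ≤ δ) → ∀ t, -1 ≤ t → gd g2 (α2 t) (c2 t) ≤ ε) ∧
    ((∀ t, t ≤ 0 → gd g1 (α t) (c t) ≤ δ) → ∀ t, t ≤ 1 → gd g2 (α2 t) (c2 t) ≤ ε)) ∧
  ∀ α c α2 c2 : ℝ → E n, UG g1 α → UG g1 c → Cor Φ α α2 → Cor Φ c c2 →
    (As g1 α c → As g2 α2 c2) ∧ (Ab g1 α c → Ab g2 α2 c2)

/-- Invariance of the temporal displacement (uses `CUC`, `StIso`, `StUG`, `StCvG`, `StInvD`, `NgPt`).  Let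
`B t = a^k β t`, `B2 t = (θ a)^k β2 t` (corresponds to `B` by `Hc.eqv`, `θ (a^k) = (θ a)^k`, `StUG`), and
for large `R` let `l_R = d₁(α (-R), B R) > 0`, `δ_R` the unit speed geodesic of `g1` with
`δ_R 0 = α (-R)`, `δ_R l_R = B R`.  `l_R - 2 R - k l → τ`, so `|l_R - 2 R| ≤ C`.  Four point condition
(`NgPt`) for `α (-R), B R; α 0, δ_R R`: `l_R + d(α 0, δ_R R) ≤ max (R + (l_R - R)) (R + d(B R, α 0)) + h`,
`d(B R, α 0) ≤ R + d(B 0, α 0)`, so `d(α 0, δ_R R) ≤ C`.  `StIso` for `δ_R` and `t ↦ α (t - R)` with `S = R`: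
`cosh (κ d(δ_R s, α (s - R))) - 1 ≤ (sinh κs / sinh κR)^2 C → 0` uniformly for `s ∈ [0, 1]`.  By `CUC`
`d₂(δ2_R 0, α2 (-R)) → 0`, `δ2_R` corresponding to `δ_R` (`Hc.flow`).  Likewise for the reversed
geodesics `t ↦ δ_R (l_R - t)`, `t ↦ B (R - t)`: `d₁(δ_R (l_R - s), B (R - s)) → 0` uniformly for `s ∈ [0, 1]`,
so by `CUC` for the window `[l_R - 1, l_R]` `d₂(δ2_R l_R, B2 R) → 0`.  As `d₂(δ2_R 0, δ2_R l_R) = l_R`
(`StCvG` for `g2`), `d₂(α2 (-R), B2 R) - l_R → 0`. -/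
def CTau : Prop := ∀ (n : ℕ) (G : Type) [Group G] [MulAction G (E n)], Cocompact n G →
  ∀ (θ : G →* G) (g1 g2 : Form n) (κ₁ κ₂ : ℝ) (Φ : W n → W n), Cv g1 κ₁ → Inv G g1 → Cv g2 κ₂ →
  Inv G g2 → Hc θ g1 g2 Φ → ∀ (a : G) (α β α2 β2 : ℝ → E n) (k : ℕ) (l τ : ℝ), UG g1 α →
  UG g1 β → UG g2 α2 → UG g2 β2 → Cor Φ α α2 → Cor Φ β β2 → Tau g1 a α β k l τ →
  Tau g2 (θ a) α2 β2 k l τ

/-! ### F. conclusion -/

/-- CONCLUSION (uses `BPos`, `XPosR`, `KUp`, `KLo`, `CTr`, `CTau`).  Suppose `Gr H₁ s` fails.  `Gr` is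
monotone: a rate below a rate is a rate.  Let `s⋆` be the supremum of the rates of `H₁`: `0 < s⋆ ≤ s`
(`XPosR`).  Let `ε > 0` be small (`15 ε < s⋆`, `11 ε < s₂ - s`, so `s₂ - ε > s⋆ + 9 ε`).  `KLo` for `g1` with
the rate `s⋆ - ε`, `s' = s⋆ - 2 ε`, `t = s⋆ + ε`, `η = 4 ε` (`t - s' = 3 ε < η`, `t + 2 η = s⋆ + 9 ε <
2 s⋆ - 4 ε = 2 s'`) gives for arbitrarily large `k` geodesics `α, β` as close to `c₁` as we like and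
`|τ| ≥ exp(-(s⋆ + 9 ε) k) / 2`.  The corresponding `α2, β2` (`Hc.flow`) satisfy the hypotheses of `KUp` for
`g2`, `θ a`, `c₂` (`CTr`, `CTau`), with the rate `s₂` and `s' = s₂ - ε`: `|τ| ≤ C exp(-(s₂ - ε) k)`, a
contradiction for large `k`. -/
def FMain : Prop := ∀ (n : ℕ) (G : Type) [Group G] [MulAction G (E n)] (θ : G →* G)
  (g1 g2 : Form n) (κ₁ κ₂ : ℝ) (φ₁ φ₂ : ℝ → W n → W n) (M₁ M₂ : ℝ → W n → W n →L[ℝ] W n)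
  (lg₁ lg₂ : E n → E n → E n) (a : G) (c₁ c₂ : ℝ → E n) (l : ℝ) (V₁ V₂ : Submodule ℝ (E n))
  (Φ : W n → W n), Per n G g1 κ₁ φ₁ M₁ lg₁ a c₁ l V₁ → Per n G g2 κ₂ φ₂ M₂ lg₂ (θ a) c₂ l V₂ →
  Hc θ g1 g2 Φ → Cor Φ c₁ c₂ → ∀ s s₂ : ℝ, Gr (HH g2 φ₂ (θ a) (c₂ 0) l V₂) s₂ → 0 < s → s < s₂ →
  Gr (HH g1 φ₁ a (c₁ 0) l V₁) s

end Pool.Agent.LX
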