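import Pool.Agent.Work.MP_25cd3b_gt.M.I_Gd
import Pool.Agent.Work.MP_25cd3b_gt.LX.StmtsK

set_option autoImplicit false

/-!
# MP_25cd3b_gt, block LX, item KX1: excess propagates
-/

open MeasureTheory Set Filter Topology
open scoped ContDiff ENNReal

namespace Pool.Agent.LX

open Pool.Agent.MLS Pool.Agent.STR Pool.Agent.LR

namespace IKX1

theorem gd_nn {n : ℕ} (g : Form n) (x y : E n) : 0 ≤ gd g x y :=
  Real.sInf_nonneg fun _ h => IGd.len_nonneg h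

end IKX1

theorem pr_KX1 (h1 : KNum) (h2 : StStew) : KX1 := by
  intro κ b₁ hκ hb₁ hb₁'
  obtain ⟨C, e₀, hC, he₀, hm⟩ := h1 κ b₁ hκ hb₁ hb₁'
  refine ⟨C, e₀, hC, he₀, ?_⟩
  intro n g hg σ y b R e hσ hb hb' hR he he' hB
  have hb0 : 0 ≤ b := hb₁.le.trans hb
  have hs := h2 n g κ hg σ hσ y 0 R b hR hb0
  rw [zero_sub, zero_add] at hs
  exact hm b R (gd g y (σ 0)) e (gd g y (σ (-R))) (gd g y (σ b)) hb hb' hR
    (IKX1.gd_nn g _ _) he he' (IKX1.gd_nn g _ _) (IKX1.gd_nn g _ _) hB hs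

end Pool.Agent.LX
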