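import Pool.Agent.Work.MP_25cd3b_gt.LX.StmtsM

set_option autoImplicit false

/-!
# MP_25cd3b_gt, block LX, item MAe: asymptotic lines approach exponentially
-/

open Set Filter Topology

namespace Pool.Agent.LX

open Pool.Agent.MLS (IsPM)

namespace IMAe

theorem step (h1 : MF1) (h2 : MMd) {X : Type} {d : X → X → ℝ} {κ : ℝ} (hC : Cat d κ)
    {c c' : ℝ → X} (hc : Ln d c) (hc' : Ln d c') {N D : ℝ} (hD : d (c (-N)) (c' (-N)) ≤ D)
    {t : ℝ} (ht : -N ≤ t) {T : ℝ} (hT : t ≤ T) :
    Real.cosh (κ * d (c' t) (c t)) ≤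
      Real.exp (κ * d (c T) (c' T) +
        6 * Real.exp (κ * (D + d (c T) (c' T)) / 2) * Real.exp (-(κ * (t + N)))) := by
  have hκ := hC.pos
  obtain ⟨ε, hε⟩ : ∃ ε, ε = d (c T) (c' T) := ⟨_, rfl⟩
  have hε0 : 0 ≤ ε := by rw [hε]; exact hC.pm.nonneg _ _
  have e1 : d (c' (-N)) (c' T) = T + N := by
    rw [hc', abs_of_nonpos (by linarith)]
    ring
  have e2 : d (c' (-N)) (c' t) = t + N := by
    rw [hc', abs_of_nonpos (by linarith)]
    ring
  have e3 : d (c' t) (c' T) = T - t := by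
    rw [hc', abs_of_nonpos (by linarith)]
    ring
  have e4 : d (c (-N)) (c T) = T + N := by
    rw [hc, abs_of_nonpos (by linarith)]
    ring
  have e5 : d (c (-N)) (c t) = t + N := by
    rw [hc, abs_of_nonpos (by linarith)]
    ring
  have e6 : d (c t) (c T) = T - t := by
    rw [hc, abs_of_nonpos (by linarith)]
    ring
  have l1 : T + N - ε ≤ d (c (-N)) (c' T) := by
    have := hC.pm.tri (c (-N)) (c' T) (c T)
    rw [e4, hC.pm.symm (c' T) (c T), ← hε] at this
    linarith
  have l2 : d (c (-N)) (c' T) ≤ T + N + ε := by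
    have := hC.pm.tri (c (-N)) (c T) (c' T)
    rw [e4, ← hε] at this
    linarith
  have l3 : d (c' t) (c T) ≤ T - t + ε := by
    have := hC.pm.tri (c' t) (c' T) (c T)
    rw [e3, hC.pm.symm (c' T) (c T), ← hε] at this
    linarith
  have f1 := h1 X d κ hC (c (-N)) (c' (-N)) (c' t) (c' T)
  unfold crd at f1
  rw [e1, e2, e3] at f1
  have f2 : Real.exp (-(κ * (d (c (-N)) (c' T) + (t + N) - d (c (-N)) (c' (-N)) - (T - t)) / 2)) ≤
      Real.exp (κ * (D + ε) / 2) * Real.exp (-(κ * (t + N))) := by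
    rw [← Real.exp_add]
    apply Real.exp_le_exp.2
    have g1 : 2 * (t + N) - D - ε ≤
        d (c (-N)) (c' T) + (t + N) - d (c (-N)) (c' (-N)) - (T - t) := by linarith
    have g2 := mul_le_mul_of_nonneg_left g1 hκ.le
    linarith
  have f3 : 6 / κ * Real.exp (-(κ * (d (c (-N)) (c' T) + (t + N) - d (c (-N)) (c' (-N)) -
      (T - t)) / 2)) ≤ 6 / κ * (Real.exp (κ * (D + ε) / 2) * Real.exp (-(κ * (t + N)))) :=
    mul_le_mul_of_nonneg_left f2 (by positivity)
  have m1 := h2 X d κ hC (c (-N)) (c T) (c t) (c' t)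
    (ε + 6 / κ * (Real.exp (κ * (D + ε) / 2) * Real.exp (-(κ * (t + N)))))
    (by rw [e4, e5, e6]; ring) (by positivity) (by rw [e5]; linarith)
    (by
      rw [e6]
      have : 0 ≤ 6 / κ * (Real.exp (κ * (D + ε) / 2) * Real.exp (-(κ * (t + N)))) := by
        positivity
      linarith)
  rw [← hε]
  refine m1.trans (le_of_eq ?_)
  congr 1
  field_simp

end IMAe

open IMAe in
theorem pr_MAe (h1 : MF1) (h2 : MMd) : MAe := by
  intro X d κ hC c c' hc hc' has N D hD t ht
  have hlim : Tendsto (fun T => Real.exp (κ * d (c T) (c' T) +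
      6 * Real.exp (κ * (D + d (c T) (c' T)) / 2) * Real.exp (-(κ * (t + N))))) atTop
      (𝓝 (Real.exp (κ * 0 + 6 * Real.exp (κ * (D + 0) / 2) * Real.exp (-(κ * (t + N)))))) := by
    have has' : Tendsto (fun T => d (c T) (c' T)) atTop (𝓝 0) := has
    have a1 : Tendsto (fun T => κ * d (c T) (c' T)) atTop (𝓝 (κ * 0)) := has'.const_mul κ
    have a2 : Tendsto (fun T => κ * (D + d (c T) (c' T)) / 2) atTop (𝓝 (κ * (D + 0) / 2)) :=
      ((has'.const_add D).const_mul κ).div_const 2
    have a3 := ((Real.continuous_exp.tendsto _).comp a2)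
    have a4 := (a1.add ((a3.const_mul 6).mul_const (Real.exp (-(κ * (t + N))))))
    exact (Real.continuous_exp.tendsto _).comp a4
  have h := ge_of_tendsto hlim (by
    filter_upwards [eventually_ge_atTop t] with T hT
    exact step h1 h2 hC hc hc' hD ht hT)
  rw [mul_zero, zero_add, add_zero] at h
  exact h

end Pool.Agent.LX
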