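import Pool.Agent.Work.MP_25cd3b_gt.LX.StmtsM

set_option autoImplicit false

/-!
# MP_25cd3b_gt, block LX, item MAs: rays at bounded distance are asymptotic after a shift
-/

open Set Filter Topology

namespace Pool.Agent.LX

open Pool.Agent.MLS (IsPM)

namespace IMAs

/-- the height of the point `c' 0` over the line `c` -/
noncomputable def ff {X : Type} (d : X → X → ℝ) (c c' : ℝ → X) (T : ℝ) : ℝ := d (c' 0) (c T) - T

theorem ff_anti {X : Type} {d : X → X → ℝ} (pm : IsPM d) {c c' : ℝ → X} (hl : Ln d c) :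
    Antitone (ff d c c') := by
  intro T T' h
  have h1 := pm.tri (c' 0) (c T) (c T')
  have h2 := hl T T'
  rw [abs_of_nonpos (by linarith)] at h2
  unfold ff
  linarith

theorem ff_lo {X : Type} {d : X → X → ℝ} (pm : IsPM d) {c c' : ℝ → X} (hl : Ln d c)
    {D : ℝ} (hD : d (c 0) (c' 0) ≤ D) (T : ℝ) : -D ≤ ff d c c' T := by
  have h0 : -D ≤ ff d c c' (max T 0) := by
    have h1 := pm.tri (c 0) (c' 0) (c (max T 0))
    have h2 := hl 0 (max T 0)
    rw [abs_of_nonpos (by linarith [le_max_right T 0])] at h2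
    unfold ff
    linarith
  exact h0.trans (ff_anti pm hl (le_max_left T 0))

theorem ff_up {X : Type} {d : X → X → ℝ} (pm : IsPM d) {c c' : ℝ → X} (hl : Ln d c)
    {D : ℝ} (hD : d (c 0) (c' 0) ≤ D) {T : ℝ} (hT : 0 ≤ T) : ff d c c' T ≤ D := by
  have h1 := ff_anti (c' := c') pm hl hT
  have h2 : ff d c c' 0 ≤ D := by
    unfold ff
    rw [pm.symm]
    linarith
  linarith

theorem exp_aux {κ a b : ℝ} (hκ : 0 < κ) (h : b ≤ a) :
    6 / κ * Real.exp (-(κ * a)) ≤ 6 / κ * Real.exp (-(κ * b)) := by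
  have h1 : (0 : ℝ) ≤ 6 / κ := by positivity
  refine mul_le_mul_of_nonneg_left (Real.exp_le_exp.2 ?_) h1
  nlinarith

/-- first step -/
theorem stepA (h1 : MF1) {X : Type} {d : X → X → ℝ} {κ : ℝ} (hc : Cat d κ) {c c' : ℝ → X}
    (hl' : Ln d c') {D : ℝ} {t T : ℝ} (hD : d (c T) (c' T) ≤ D) (ht : 0 ≤ t)
    (hT : t ≤ T) :
    |d (c' t) (c T) - (T - t) - ff d c c' T| ≤ 6 / κ * Real.exp (-(κ * (T - t - D))) := by
  have pm := hc.pm
  have e1 : d (c' 0) (c' T) = T := by
    rw [hl' 0 T, abs_of_nonpos (by linarith)]; ring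
  have e2 : d (c' 0) (c' t) = t := by
    rw [hl' 0 t, abs_of_nonpos (by linarith)]; ring
  have e3 : d (c' t) (c' T) = T - t := by
    rw [hl' t T, abs_of_nonpos (by linarith)]; ring
  have hDs : d (c' T) (c T) ≤ D := by rw [pm.symm]; exact hD
  rw [abs_le]
  constructor
  · have h := h1 X d κ hc (c' 0) (c' t) (c T) (c' T)
    unfold crd at h
    rw [mul_div_assoc, e1, e2, e3] at h
    have h3 := pm.tri (c' t) (c T) (c' T)
    rw [e3] at h3
    have h4 := exp_aux (a := (T + d (c' t) (c T) - t - d (c T) (c' T)) / 2) (b := T - t - D)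
      hc.pos (by linarith)
    unfold ff
    linarith
  · have h := h1 X d κ hc (c' 0) (c' t) (c' T) (c T)
    unfold crd at h
    rw [mul_div_assoc, e1, e2, e3] at h
    have h3 := pm.tri (c' 0) (c T) (c' T)
    rw [e1] at h3
    have h4 := exp_aux (a := (d (c' 0) (c T) + (T - t) - t - d (c' T) (c T)) / 2)
      (b := T - t - D) hc.pos (by linarith)
    unfold ff
    linarith

/-- the error -/
noncomputable def er (κ D t : ℝ) : ℝ := 6 / κ * Real.exp (-(κ * (t - (D + 1))))

theorem er_pos {κ : ℝ} (hκ : 0 < κ) (D t : ℝ) : 0 < er κ D t := by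
  unfold er
  positivity

theorem er_tendsto {κ : ℝ} (hκ : 0 < κ) (D : ℝ) : Tendsto (er κ D) atTop (𝓝 0) := by
  have h1 : Tendsto (fun t : ℝ => κ * (t - (D + 1))) atTop atTop := by
    refine Tendsto.const_mul_atTop hκ ?_
    exact tendsto_atTop_add_const_right atTop (-(D + 1)) tendsto_id
  have h2 : Tendsto (fun t : ℝ => Real.exp (-(κ * (t - (D + 1))))) atTop (𝓝 0) :=
    Real.tendsto_exp_neg_atTop_nhds_zero.comp h1
  have h3 := h2.const_mul (6 / κ)
  rw [mul_zero] at h3
  exact h3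

/-- second step -/
theorem stepB (h1 : MF1) {X : Type} {d : X → X → ℝ} {κ : ℝ} (hc : Cat d κ) {c c' : ℝ → X}
    (hl : Ln d c) (hl' : Ln d c') {D : ℝ} {t T : ℝ} (hD0 : d (c 0) (c' 0) ≤ D)
    (hD : d (c T) (c' T) ≤ D) (ht : 0 ≤ t) (hT : t ≤ T)
    (hε : 6 / κ * Real.exp (-(κ * (T - t - D))) ≤ 1) :
    d (c 0) (c' t) ≤ t - ff d c c' T + er κ D t := by
  have pm := hc.pm
  have h := h1 X d κ hc (c 0) (c' 0) (c' t) (c T)
  unfold crd at h
  have e1 : d (c 0) (c T) = T := by
    rw [hl 0 T, abs_of_nonpos (by linarith)]; ring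
  have e2 : d (c' 0) (c' t) = t := by
    rw [hl' 0 t, abs_of_nonpos (by linarith)]; ring
  rw [mul_div_assoc, e1, e2] at h
  have h2 := (abs_le.1 (stepA h1 hc hl' hD ht hT)).2
  have h3 := ff_up (c' := c') pm hl hD0 (ht.trans hT)
  have h4 := exp_aux (a := (T + t - d (c 0) (c' 0) - d (c' t) (c T)) / 2)
    (b := t - (D + 1)) hc.pos (by linarith)
  unfold er ff
  linarith

theorem sq_bound {x y : ℝ} (hx : 0 ≤ x) (h : Real.cosh x ≤ Real.exp y) :
    x ≤ Real.sqrt (Real.exp (2 * y) - 1) := by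
  refine Real.le_sqrt_of_sq_le ?_
  have h1 : x ≤ Real.sinh x := Real.self_le_sinh_iff.2 hx
  have h2 := Real.cosh_sq x
  have h3 : Real.exp (2 * y) = Real.exp y ^ 2 := by
    rw [← Real.exp_nat_mul]
    norm_num
  have h4 : Real.cosh x ^ 2 ≤ Real.exp y ^ 2 :=
    pow_le_pow_left₀ (Real.cosh_pos x).le h 2
  have h5 : x ^ 2 ≤ Real.sinh x ^ 2 := pow_le_pow_left₀ hx h1 2
  rw [h3]
  linarith

end IMAs

open IMAs in
theorem pr_MAs (h1 : MF1) (h2 : MMd) : MAs := by
  intro X d κ hc c c' hl hl' D hD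
  have hκ := hc.pos
  have pm := hc.pm
  have hD0 : d (c 0) (c' 0) ≤ D := hD 0 le_rfl
  have hbdd : BddBelow (Set.range (ff d c c')) := by
    refine ⟨-D, ?_⟩
    rintro _ ⟨T, rfl⟩
    exact ff_lo pm hl hD0 T
  have hlim := tendsto_atTop_ciInf (ff_anti (c' := c') pm hl) hbdd
  have hule : ∀ T, (⨅ i, ff d c c' i) ≤ ff d c c' T := fun T => ciInf_le hbdd T
  have hulo : -D ≤ ⨅ i, ff d c c' i := le_ciInf fun T => ff_lo pm hl hD0 T
  generalize (⨅ i, ff d c c' i) = u at hlim hule hulo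
  have huup : u ≤ D := (hule 0).trans (ff_up pm hl hD0 le_rfl)
  refine ⟨u, abs_le.2 ⟨hulo, huup⟩, ?_⟩
  -- the estimate for the time `t`
  have key : ∀ t, 0 ≤ t → u ≤ t →
      Real.cosh (κ * d (c' t) (c (t - u))) ≤ Real.exp (κ * er κ D t) := by
    intro t ht htu
    have hepos := er_pos hκ D t
    have hε : Tendsto (fun T : ℝ => 6 / κ * Real.exp (-(κ * (T - t - D)))) atTop (𝓝 0) := by
      have g1 : Tendsto (fun T : ℝ => κ * (T - t - D)) atTop atTop := by
        refine Tendsto.const_mul_atTop hκ ?_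
        have g0 := tendsto_atTop_add_const_right (atTop : Filter ℝ) (-t - D) tendsto_id
        refine g0.congr fun T => ?_
        show T + (-t - D) = T - t - D
        ring
      have g2 := (Real.tendsto_exp_neg_atTop_nhds_zero.comp g1).const_mul (6 / κ)
      rw [mul_zero] at g2
      exact g2
    have hev1 := hε.eventually_lt_const (show (0 : ℝ) < min 1 (er κ D t / 2) from
      lt_min one_pos (by positivity))
    have hev2 := hlim.eventually_lt_const (show u < u + er κ D t / 2 by linarith)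
    obtain ⟨T, h3, h4, h5⟩ := (hev1.and (hev2.and (eventually_ge_atTop (max t (t - u))))).exists
    have h6 : t ≤ T := (le_max_left _ _).trans h5
    have h7 : t - u ≤ T := (le_max_right _ _).trans h5
    have h8 := h3.trans_le (min_le_left _ _)
    have h9 := h3.trans_le (min_le_right _ _)
    have hDT := hD T (ht.trans h6)
    have hA := (abs_le.1 (stepA h1 hc hl' hDT ht h6)).2
    have hB := stepB h1 hc hl hl' hD0 hDT ht h6 h8.le
    have e1 : d (c 0) (c (t - u)) = t - u := by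
      rw [hl 0 (t - u), abs_of_nonpos (by linarith)]; ring
    have e2 : d (c (t - u)) (c T) = T - (t - u) := by
      rw [hl (t - u) T, abs_of_nonpos (by linarith)]; ring
    have e3 : d (c 0) (c T) = T := by
      rw [hl 0 T, abs_of_nonpos (by linarith)]; ring
    refine h2 X d κ hc (c 0) (c T) (c (t - u)) (c' t) (er κ D t) ?_ hepos.le ?_ ?_
    · rw [e1, e2, e3]; ring
    · rw [e1]
      have := hule T
      linarith
    · rw [e2]
      linarith
  -- the limit
  have hsh : Tendsto (fun t : ℝ => t + u) atTop atTop :=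
    tendsto_atTop_add_const_right atTop u tendsto_id
  have he := (er_tendsto hκ D).comp hsh
  have hcont : Continuous fun y : ℝ => Real.sqrt (Real.exp (2 * (κ * y)) - 1) / κ := by
    fun_prop
  have hg := (hcont.tendsto 0).comp he
  have hg0 : Real.sqrt (Real.exp (2 * (κ * 0)) - 1) / κ = 0 := by
    rw [mul_zero, mul_zero, Real.exp_zero, sub_self, Real.sqrt_zero, zero_div]
  rw [hg0] at hg
  unfold Asy
  refine squeeze_zero' (Eventually.of_forall fun t => pm.nonneg _ _) ?_ hg
  filter_upwards [eventually_ge_atTop (D + D)] with t ht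
  have hD00 : 0 ≤ D := (pm.nonneg _ _).trans hD0
  have h3 := key (t + u) (by linarith) (by linarith)
  rw [show t + u - u = t by ring, pm.symm] at h3
  have h4 := sq_bound (mul_nonneg hκ.le (pm.nonneg _ _)) h3
  show d (c t) (c' (t + u)) ≤ Real.sqrt (Real.exp (2 * (κ * er κ D (t + u))) - 1) / κ
  rw [le_div_iff₀ hκ, mul_comm]
  exact h4

end Pool.Agent.LX
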