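import Pool.Agent.Work.MP_25cd3b_gt.LX.StmtsM

/-!
# MP_25cd3b_gt, block LX, part M, item MChn: from local to global
-/

set_option autoImplicit false

open Set Filter Topology

namespace Pool.Agent.LX

open Pool.Agent.MLS (IsPM)

/-- Item MChn. -/
theorem pr_MChn (h1 : MF1) : MChn := by
  intro κ K hκ
  obtain ⟨C, hC⟩ : ∃ C : ℝ, C = 6 / κ * Real.exp (3 + κ * (2 * K + 1 / 2)) := ⟨_, rfl⟩
  have h6 : 0 < 6 / κ := by positivity
  have hCpos : 0 < C := by rw [hC]; positivity
  refine ⟨max (Real.log C / κ) ((6 / κ + 4 * K + 2) / 2), C, hCpos, ?_⟩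
  intro X d hd R y hR hstep hgp
  have hR1 : Real.log C / κ ≤ R := (le_max_left _ _).trans hR
  have hR2 : (6 / κ + 4 * K + 2) / 2 ≤ R := (le_max_right _ _).trans hR
  have hpm := hd.pm
  have hCR : C * Real.exp (-(κ * R)) ≤ 1 := by
    have e1 : Real.log C ≤ κ * R := by
      rw [div_le_iff₀ hκ] at hR1
      linarith
    have e2 : Real.exp (-(κ * R)) ≤ C⁻¹ := by
      rw [← Real.exp_log hCpos, ← Real.exp_neg]
      exact Real.exp_le_exp.2 (by linarith)
    calc C * Real.exp (-(κ * R)) ≤ C * C⁻¹ := mul_le_mul_of_nonneg_left e2 hCpos.le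
      _ = 1 := mul_inv_cancel₀ hCpos.ne'
  have hK : 0 ≤ K := by
    refine le_trans ?_ (hgp 0)
    unfold gp
    have := hpm.tri (y 0) (y (0 + 1)) (y (0 + 2))
    have e := hpm.symm (y 0) (y (0 + 1))
    linarith
  have key : ∀ j, R - 2 * K - 1 ≤ d (y 0) (y (j + 1)) - d (y 0) (y j) →
      |d (y 0) (y (j + 2)) - d (y 0) (y (j + 1)) - (d (y j) (y (j + 2)) - d (y j) (y (j + 1)))| ≤
        C * Real.exp (-(κ * R)) ∧ R - 2 * K - 1 ≤ d (y 0) (y (j + 2)) - d (y 0) (y (j + 1)) := by
    intro j hP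
    have hg := hgp j
    unfold gp at hg
    have hs1 := hpm.symm (y (j + 1)) (y j)
    have hs2 := hpm.symm (y (j + 2)) (y (j + 1))
    have hs3 := hpm.symm (y (j + 2)) (y j)
    have hst := hstep j
    have hst2 : R ≤ d (y (j + 1)) (y (j + 2)) := hstep (j + 1)
    have f1 := h1 X d κ hd (y 0) (y j) (y (j + 2)) (y (j + 1))
    have f2 := h1 X d κ hd (y 0) (y (j + 2)) (y (j + 1)) (y j)
    have f3 := h1 X d κ hd (y 0) (y j) (y (j + 1)) (y (j + 2))
    unfold crd at f1 f2 f3
    rw [hs2] at f1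
    rw [hs3, hs2, hs1] at f2
    generalize d (y 0) (y (j + 2)) = xz at *
    generalize d (y 0) (y (j + 1)) = xw at *
    generalize d (y 0) (y j) = xy at *
    generalize d (y j) (y (j + 2)) = yz at *
    generalize d (y j) (y (j + 1)) = yw at *
    generalize d (y (j + 1)) (y (j + 2)) = wz at *
    have hBE : 2 * R - 4 * K - 1 ≤ xw + yz - xy - wz := by linarith
    have hexp : ∀ t u : ℝ, t ≤ u → 6 / κ * Real.exp t ≤ 6 / κ * Real.exp u := fun t u h =>
      mul_le_mul_of_nonneg_left (Real.exp_le_exp.2 h) h6.le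
    have hCe : C * Real.exp (-(κ * R)) =
        6 / κ * Real.exp (3 + κ * (2 * K + 1 / 2) + -(κ * R)) := by
      rw [hC, Real.exp_add (3 + κ * (2 * K + 1 / 2)) (-(κ * R))]
      ring
    have g1 : xz + yw - xw - yz ≤ C * Real.exp (-(κ * R)) := by
      rw [hCe]
      refine f1.trans (hexp _ _ ?_)
      have := mul_le_mul_of_nonneg_left hBE hκ.le
      linarith
    have hEA : xy + wz < xz + yw := by
      by_contra hcon
      push Not at hcon
      have e1 : 6 / κ * Real.exp (-(κ * (xy + wz - xz - yw) / 2)) ≤ 6 / κ * Real.exp 0 := by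
        refine hexp _ _ ?_
        have := mul_nonneg hκ.le (show 0 ≤ xy + wz - xz - yw by linarith)
        linarith
      rw [Real.exp_zero, mul_one] at e1
      linarith
    have g2 : xw + yz - xz - yw ≤ 6 / κ := by
      have e1 : 6 / κ * Real.exp (-(κ * (xz + yw - xy - wz) / 2)) ≤ 6 / κ * Real.exp 0 := by
        refine hexp _ _ ?_
        have := mul_nonneg hκ.le (show 0 ≤ xz + yw - xy - wz by linarith)
        linarith
      rw [Real.exp_zero, mul_one] at e1
      linarith
    have g3 : xw + yz - xz - yw ≤ C * Real.exp (-(κ * R)) := by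
      rw [hCe]
      refine f3.trans (hexp _ _ ?_)
      have e1 : 2 * R - 4 * K - 1 - 6 / κ ≤ xz + yw - xy - wz := by linarith
      have e2 := mul_le_mul_of_nonneg_left e1 hκ.le
      have e3 : κ * (6 / κ) = 6 := by field_simp
      have e4 : κ * (2 * R - 4 * K - 1 - 6 / κ) = 2 * (κ * R) - 4 * (κ * K) - κ - 6 := by
        rw [mul_sub, e3]
        ring
      linarith
    refine ⟨?_, ?_⟩
    · rw [abs_le]
      constructor <;> linarith
    · linarith
  have hP : ∀ j, R - 2 * K - 1 ≤ d (y 0) (y (j + 1)) - d (y 0) (y j) := by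
    intro j
    induction j with
    | zero =>
      have e1 := hstep 0
      have e2 := hpm.self (y 0)
      linarith
    | succ j ih => exact (key j ih).2
  exact fun j => ⟨(key j (hP j)).1, hP j⟩

end Pool.Agent.LX
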