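import Pool.Agent.Work.MP_25cd3b_gt.LX.StmtsM

set_option autoImplicit false

/-!
# MP_25cd3b_gt, block LX, item MEq: same translation lengths, same cross differences
-/

open Set Filter Topology

namespace Pool.Agent.LX

open Pool.Agent.MLS (IsPM)

namespace IMEq

theorem gp_le_right {X : Type} {d : X → X → ℝ} (h : IsPM d) (o x y : X) : gp d o x y ≤ d o y := by
  have h1 := h.tri o y x
  have h2 := h.symm y x
  unfold gp
  linarith

theorem gp_comm {X : Type} {d : X → X → ℝ} (h : IsPM d) (o x y : X) : gp d o x y = gp d o y x := by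
  have h1 := h.symm x y
  unfold gp
  linarith

/-- hyperbolicity: the products with the new points -/
theorem prods {X : Type} {d : X → X → ℝ} {κ : ℝ} (hHy : MHy) (hC : Cat d κ) (o x x' z z' : X)
    (K T : ℝ) (h1 : gp d o x z ≤ K) (h2 : T ≤ gp d o x x') (h3 : T ≤ gp d o z z')
    (hT : K + 2 * (3 / κ) < T) : gp d o x z ≤ K + 2 * (3 / κ) ∧ gp d o x' z ≤ K + 2 * (3 / κ) ∧
      gp d o x z' ≤ K + 2 * (3 / κ) ∧ gp d o x' z' ≤ K + 2 * (3 / κ) := by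
  have hδ : 0 < 3 / κ := div_pos (by norm_num) hC.pos
  have a1 := hHy X d κ hC o x x' z
  have a2 : gp d o x' z ≤ K + 3 / κ := by
    rcases min_le_iff.1 (by linarith : min (gp d o x x') (gp d o x' z) ≤ K + 3 / κ) with h | h
    · linarith
    · exact h
  have b1 := hHy X d κ hC o x z' z
  have b2 : gp d o x z' ≤ K + 3 / κ := by
    rcases min_le_iff.1 (by linarith : min (gp d o x z') (gp d o z' z) ≤ K + 3 / κ) with h | h
    · exact h
    · rw [gp_comm hC.pm] at h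
      linarith
  have c1 := hHy X d κ hC o x' z' z
  have c2 : gp d o x' z' ≤ K + 2 * (3 / κ) := by
    rcases min_le_iff.1 (by linarith :
      min (gp d o x' z') (gp d o z' z) ≤ K + 2 * (3 / κ)) with h | h
    · exact h
    · rw [gp_comm hC.pm] at h
      linarith
  exact ⟨by linarith, by linarith, by linarith, c2⟩

/-- the four replacements -/
theorem repl {X : Type} {d : X → X → ℝ} {κ : ℝ} (hCt : MCt) (hC : Cat d κ) (o : X)
    (x x' y y' z z' w w' : X) (K T : ℝ)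
    (hx : T ≤ gp d o x x') (hy : T ≤ gp d o y y') (hz : T ≤ gp d o z z') (hw : T ≤ gp d o w w')
    (xz : gp d o x z ≤ K) (xw : gp d o x w ≤ K) (x'z : gp d o x' z ≤ K) (x'w : gp d o x' w ≤ K)
    (yz : gp d o y z ≤ K) (yw : gp d o y w ≤ K) (y'z : gp d o y' z ≤ K) (y'w : gp d o y' w ≤ K)
    (x'z' : gp d o x' z' ≤ K) (y'z' : gp d o y' z' ≤ K)
    (x'w' : gp d o x' w' ≤ K) (y'w' : gp d o y' w' ≤ K) :
    |crd d x y z w - crd d x' y' z' w'| ≤ 4 * (6 / κ * Real.exp (-(κ * (T - 2 * K)))) := by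
  have s := hC.pm
  have r1 := hCt X d κ hC o x x' z w K T hx xz xw x'z x'w
  have r2 := hCt X d κ hC o y y' w z K T hy yw yz y'w y'z
  have r3 := hCt X d κ hC o z z' x' y' K T hz (by rw [gp_comm s]; exact x'z)
    (by rw [gp_comm s]; exact y'z) (by rw [gp_comm s]; exact x'z') (by rw [gp_comm s]; exact y'z')
  have r4 := hCt X d κ hC o w w' y' x' K T hw (by rw [gp_comm s]; exact y'w)
    (by rw [gp_comm s]; exact x'w) (by rw [gp_comm s]; exact y'w') (by rw [gp_comm s]; exact x'w')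
  have e : crd d x y z w - crd d x' y' z' w' = crd d x x' z w + crd d y y' w z +
      crd d z z' x' y' + crd d w w' y' x' := by
    unfold crd
    have := s.symm z x'
    have := s.symm z' y'
    have := s.symm z y'
    have := s.symm z' x'
    have := s.symm w y'
    have := s.symm w' x'
    have := s.symm w x'
    have := s.symm w' y'
    linarith
  rw [e]
  set E := 6 / κ * Real.exp (-(κ * (T - 2 * K)))
  rw [abs_le] at r1 r2 r3 r4 ⊢
  constructor <;> linarith [r1.1, r1.2, r2.1, r2.2, r3.1, r3.2, r4.1, r4.2]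

theorem gp_near {X : Type} {d1 d2 : X → X → ℝ} {D : ℝ} (h : ∀ x y, |d1 x y - d2 x y| ≤ D)
    (o x y : X) : |gp d1 o x y - gp d2 o x y| ≤ 3 * D / 2 := by
  have h1 := abs_le.1 (h o x)
  have h2 := abs_le.1 (h o y)
  have h3 := abs_le.1 (h x y)
  unfold gp
  rw [abs_le]
  constructor <;> linarith [h1.1, h1.2, h2.1, h2.2, h3.1, h3.2]

/-- one metric: `d` is within `D` of a metric `d1` for which everything is known -/
theorem one {G X : Type} [Group G] [MulAction G X] {d1 d : X → X → ℝ} {κ : ℝ} {ℓ : G → ℝ}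
    (hCt : MCt) (hA : Act G d κ ℓ) {D : ℝ} (hD : ∀ x y, |d1 x y - d x y| ≤ D) (o : X)
    (K T C Rt : ℝ) (x y z w : X) (p q : G)
    (hx : T ≤ gp d1 o x (p⁻¹ • o)) (hy : T ≤ gp d1 o y (q⁻¹ • o)) (hz : T ≤ gp d1 o z (p • o))
    (hw : T ≤ gp d1 o w (q • o)) (hpm : IsPM d1) (hRt : Rt + D ≤ T)
    (xz : gp d1 o x z ≤ K) (xw : gp d1 o x w ≤ K)
    (x'z : gp d1 o (p⁻¹ • o) z ≤ K) (x'w : gp d1 o (p⁻¹ • o) w ≤ K)
    (yz : gp d1 o y z ≤ K) (yw : gp d1 o y w ≤ K)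
    (y'z : gp d1 o (q⁻¹ • o) z ≤ K) (y'w : gp d1 o (q⁻¹ • o) w ≤ K)
    (x'z' : gp d1 o (p⁻¹ • o) (p • o) ≤ K) (y'z' : gp d1 o (q⁻¹ • o) (p • o) ≤ K)
    (x'w' : gp d1 o (p⁻¹ • o) (q • o) ≤ K) (y'w' : gp d1 o (q⁻¹ • o) (q • o) ≤ K)
    (hTl : Rt ≤ d o (p • o) → gp d o (p⁻¹ • o) (p • o) ≤ K + 3 * D / 2 →
      Rt ≤ d o (q • o) → gp d o (q⁻¹ • o) (q • o) ≤ K + 3 * D / 2 →
      gp d o (p⁻¹ • o) (q • o) ≤ K + 3 * D / 2 → gp d o (q⁻¹ • o) (p • o) ≤ K + 3 * D / 2 →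
      |crd d (p⁻¹ • o) (q⁻¹ • o) (p • o) (q • o) - (ℓ p + ℓ q - ℓ (p * q))| ≤
        C * Real.exp (-(κ * Rt))) :
    |crd d x y z w - (ℓ p + ℓ q - ℓ (p * q))| ≤
      4 * (6 / κ * Real.exp (-(κ * (T - 3 * D / 2 - 2 * (K + 3 * D / 2))))) +
        C * Real.exp (-(κ * Rt)) := by
  have hup : ∀ u v, gp d1 o u v ≤ K → gp d o u v ≤ K + 3 * D / 2 := fun u v h => by
    have := (abs_le.1 (gp_near hD o u v)).1
    linarith
  have hlo : ∀ u v, T ≤ gp d1 o u v → T - 3 * D / 2 ≤ gp d o u v := fun u v h => by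
    have := (abs_le.1 (gp_near hD o u v)).2
    linarith
  have h1 := repl hCt hA.cat o x (p⁻¹ • o) y (q⁻¹ • o) z (p • o) w (q • o) (K + 3 * D / 2)
    (T - 3 * D / 2) (hlo _ _ hx) (hlo _ _ hy) (hlo _ _ hz) (hlo _ _ hw) (hup _ _ xz) (hup _ _ xw)
    (hup _ _ x'z) (hup _ _ x'w) (hup _ _ yz) (hup _ _ yw) (hup _ _ y'z) (hup _ _ y'w)
    (hup _ _ x'z') (hup _ _ y'z') (hup _ _ x'w') (hup _ _ y'w')
  have hdp : Rt ≤ d o (p • o) := by
    have a1 := gp_le_right hpm o z (p • o)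
    have a2 := (abs_le.1 (hD o (p • o))).2
    linarith
  have hdq : Rt ≤ d o (q • o) := by
    have a1 := gp_le_right hpm o w (q • o)
    have a2 := (abs_le.1 (hD o (q • o))).2
    linarith
  have h2 := hTl hdp (hup _ _ x'z') hdq (hup _ _ y'w') (hup _ _ x'w') (hup _ _ y'z')
  rw [abs_le] at h1 h2 ⊢
  constructor <;> linarith [h1.1, h1.2, h2.1, h2.2]

end IMEq

open IMEq in
theorem pr_MEq (h1 : MTl) (h2 : MPl) (h3 : MHy) (h4 : MCt) : MEq := by
  intro G X _ _ d1 d2 κ ℓ hA1 hA2 o hF D hD K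
  have hκ := hA1.cat.pos
  have hδ : 0 < 3 / κ := div_pos (by norm_num) hκ
  have hD0 : 0 ≤ D := (abs_nonneg _).trans (hD o o)
  have hD1 : ∀ x y, |d1 x y - d1 x y| ≤ D := fun x y => by rw [sub_self, abs_zero]; exact hD0
  obtain ⟨C₁, hC₁⟩ := h2 G X d1 κ ℓ hA1 o hF
  set K' : ℝ := K + 2 * (3 / κ) with hK'
  obtain ⟨Rt, C, hC, hTl⟩ := h1 κ (K' + 3 * D / 2) hκ
  refine ⟨max (Rt + C₁ + D) (K' + C₁ + 1),
    2 * (4 * (6 / κ * Real.exp (κ * (C₁ + 3 * D / 2 + 2 * (K' + 3 * D / 2)))) +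
      C * Real.exp (κ * (C₁ + D))), ?_⟩
  intro R x y z w hR hx hy hz hw xz xw yz yw
  have hR1 : Rt + C₁ + D ≤ R := (le_max_left _ _).trans hR
  have hR2 : K' + C₁ + 1 ≤ R := (le_max_right _ _).trans hR
  obtain ⟨p, hp1, hp2⟩ := hC₁ x z
  obtain ⟨q, hq1, hq2⟩ := hC₁ y w
  set T : ℝ := R - C₁ with hT
  have hTK : K + 2 * (3 / κ) < T := by
    have : K' < T := by linarith
    exact this
  have tx : T ≤ gp d1 o x (p⁻¹ • o) := by linarith
  have ty : T ≤ gp d1 o y (q⁻¹ • o) := by linarith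
  have tz : T ≤ gp d1 o z (p • o) := by linarith
  have tw : T ≤ gp d1 o w (q • o) := by linarith
  obtain ⟨a1, a2, a3, a4⟩ := prods h3 hA1.cat o x (p⁻¹ • o) z (p • o) K T xz tx tz hTK
  obtain ⟨b1, b2, b3, b4⟩ := prods h3 hA1.cat o x (p⁻¹ • o) w (q • o) K T xw tx tw hTK
  obtain ⟨c1, c2, c3, c4⟩ := prods h3 hA1.cat o y (q⁻¹ • o) z (p • o) K T yz ty tz hTK
  obtain ⟨e1, e2, e3, e4⟩ := prods h3 hA1.cat o y (q⁻¹ • o) w (q • o) K T yw ty tw hTK
  have m1 := one h4 hA1 hD1 o K' T C (R - C₁ - D) x y z w p q tx ty tz tw hA1.cat.pm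
    (by linarith) a1 b1 a2 b2 c1 e1 c2 e2 a4 c4 b4 e4
    (fun g1 g2 g3 g4 g5 g6 => (hTl G X d1 ℓ hA1 (R - C₁ - D) o p q (by linarith) g1 g2).2
      g3 g4 g5 g6)
  have m2 := one h4 hA2 hD o K' T C (R - C₁ - D) x y z w p q tx ty tz tw hA1.cat.pm
    (by linarith) a1 b1 a2 b2 c1 e1 c2 e2 a4 c4 b4 e4
    (fun g1 g2 g3 g4 g5 g6 => (hTl G X d2 ℓ hA2 (R - C₁ - D) o p q (by linarith) g1 g2).2
      g3 g4 g5 g6)
  have x1 : Real.exp (-(κ * (T - 3 * D / 2 - 2 * (K' + 3 * D / 2)))) =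
      Real.exp (κ * (C₁ + 3 * D / 2 + 2 * (K' + 3 * D / 2))) * Real.exp (-(κ * R)) := by
    rw [← Real.exp_add]
    congr 1
    rw [hT]
    ring
  have x2 : Real.exp (-(κ * (R - C₁ - D))) =
      Real.exp (κ * (C₁ + D)) * Real.exp (-(κ * R)) := by
    rw [← Real.exp_add]
    congr 1
    ring
  rw [x1, x2] at m1 m2
  rw [abs_le] at m1 m2 ⊢
  constructor <;> linarith [m1.1, m1.2, m2.1, m2.2]

end Pool.Agent.LX
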