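import Pool.Agent.Work.MP_25cd3b_gt.LX.StmtsM

set_option autoImplicit false

/-!
# MP_25cd3b_gt, block LX (captain helper11), part M, item MEx (helper42): the excess
-/

open Set Filter Topology

namespace Pool.Agent.LX

open Pool.Agent.MLS (IsPM)

namespace IMEx

theorem sinh_le {u D : ℝ} (hu : 0 ≤ u) (D_eq : ∃ v, 0 ≤ v ∧ u + v = D) :
    Real.sinh (D - u) ≤ Real.exp (-u) * Real.sinh D := by
  obtain ⟨v, hv, rfl⟩ := D_eq
  rw [Real.sinh_eq, Real.sinh_eq]
  have e1 : Real.exp (-u) * Real.exp (u + v) = Real.exp (u + v - u) := by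
    rw [← Real.exp_add]; congr 1; ring
  have e2 : Real.exp (-u) * Real.exp (-(u + v)) = Real.exp (-(u + v + u)) := by
    rw [← Real.exp_add]; congr 1; ring
  have e3 : Real.exp (-(u + v + u)) ≤ Real.exp (-(u + v - u)) := by
    apply Real.exp_le_exp.2; linarith
  have e4 : Real.exp (-u) * ((Real.exp (u + v) - Real.exp (-(u + v))) / 2) =
      (Real.exp (-u) * Real.exp (u + v) - Real.exp (-u) * Real.exp (-(u + v))) / 2 := by ring
  rw [e4, e1, e2]
  linarith

theorem excess (κ s r A B e : ℝ) (hκ : 0 < κ) (hs : 0 ≤ s) (hr : 0 ≤ r)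
    (hD : 0 < s + r) (hB : 0 ≤ B) (hT : s + r ≤ A + B)
    (h : Real.sinh (κ * (s + r)) * Real.cosh (κ * e) ≤
      Real.sinh (κ * r) * Real.cosh (κ * A) + Real.sinh (κ * s) * Real.cosh (κ * B)) :
    s + e - A ≤ 3 / κ * Real.exp (κ * (s - r - A + B)) := by
  have hks : 0 ≤ κ * s := by positivity
  have hkr : 0 ≤ κ * r := by positivity
  have hSp : 0 < Real.sinh (κ * (s + r)) := Real.sinh_pos_iff.2 (by positivity)
  have h1 : Real.sinh (κ * r) ≤ Real.exp (-(κ * s)) * Real.sinh (κ * (s + r)) := by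
    have := sinh_le hks ⟨κ * r, hkr, (mul_add κ s r).symm⟩
    rwa [show κ * (s + r) - κ * s = κ * r by ring] at this
  have h2 : Real.sinh (κ * s) ≤ Real.exp (-(κ * r)) * Real.sinh (κ * (s + r)) := by
    have := sinh_le hkr ⟨κ * s, hks, (by ring : κ * r + κ * s = κ * (s + r))⟩
    rwa [show κ * (s + r) - κ * r = κ * s by ring] at this
  have hcA : 0 < Real.cosh (κ * A) := Real.cosh_pos _
  have hcB : 0 < Real.cosh (κ * B) := Real.cosh_pos _
  have h3 : Real.sinh (κ * (s + r)) * Real.cosh (κ * e) ≤ Real.sinh (κ * (s + r)) *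
      (Real.exp (-(κ * s)) * Real.cosh (κ * A) + Real.exp (-(κ * r)) * Real.cosh (κ * B)) := by
    have a1 := mul_le_mul_of_nonneg_right h1 hcA.le
    have a2 := mul_le_mul_of_nonneg_right h2 hcB.le
    calc _ ≤ _ := h
      _ ≤ Real.exp (-(κ * s)) * Real.sinh (κ * (s + r)) * Real.cosh (κ * A) +
          Real.exp (-(κ * r)) * Real.sinh (κ * (s + r)) * Real.cosh (κ * B) := add_le_add a1 a2
      _ = _ := by ring
  have h4 := le_of_mul_le_mul_left h3 hSp
  set Y := Real.exp (κ * (s - r - A + B)) with hY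
  have hYp : 0 < Y := Real.exp_pos _
  have h5 : Real.exp (κ * (s + e - A)) ≤ 1 + 3 * Y := by
    have b1 : Real.exp (κ * e) ≤ 2 * Real.cosh (κ * e) := by
      rw [Real.cosh_eq]
      have := Real.exp_pos (-(κ * e))
      linarith
    have b2 : Real.exp (κ * (s + e - A)) = Real.exp (κ * (s - A)) * Real.exp (κ * e) := by
      rw [← Real.exp_add]; congr 1; ring
    have b3 : Real.exp (κ * (s - A)) * (2 * (Real.exp (-(κ * s)) * Real.cosh (κ * A) +
        Real.exp (-(κ * r)) * Real.cosh (κ * B))) =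
        1 + Real.exp (-(2 * (κ * A))) + Y + Real.exp (κ * (s - r - A - B)) := by
      rw [Real.cosh_eq, Real.cosh_eq, hY]
      have c1 : Real.exp (κ * (s - A)) * Real.exp (-(κ * s)) * Real.exp (κ * A) = 1 := by
        rw [← Real.exp_add, ← Real.exp_add, ← Real.exp_zero]; congr 1; ring
      have c2 : Real.exp (κ * (s - A)) * Real.exp (-(κ * s)) * Real.exp (-(κ * A)) =
          Real.exp (-(2 * (κ * A))) := by
        rw [← Real.exp_add, ← Real.exp_add]; congr 1; ring
      have c3 : Real.exp (κ * (s - A)) * Real.exp (-(κ * r)) * Real.exp (κ * B) =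
          Real.exp (κ * (s - r - A + B)) := by
        rw [← Real.exp_add, ← Real.exp_add]; congr 1; ring
      have c4 : Real.exp (κ * (s - A)) * Real.exp (-(κ * r)) * Real.exp (-(κ * B)) =
          Real.exp (κ * (s - r - A - B)) := by
        rw [← Real.exp_add, ← Real.exp_add]; congr 1; ring
      rw [← c1, ← c2, ← c3, ← c4]
      ring
    have b4 : Real.exp (-(2 * (κ * A))) ≤ Y := by
      apply Real.exp_le_exp.2
      nlinarith
    have b5 : Real.exp (κ * (s - r - A - B)) ≤ Y := by
      apply Real.exp_le_exp.2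
      nlinarith
    calc Real.exp (κ * (s + e - A)) = Real.exp (κ * (s - A)) * Real.exp (κ * e) := b2
      _ ≤ Real.exp (κ * (s - A)) * (2 * (Real.exp (-(κ * s)) * Real.cosh (κ * A) +
        Real.exp (-(κ * r)) * Real.cosh (κ * B))) := by
          apply mul_le_mul_of_nonneg_left _ (Real.exp_pos _).le
          linarith
      _ = _ := b3
      _ ≤ 1 + 3 * Y := by linarith
  have h6 : Real.exp (κ * (s + e - A)) ≤ Real.exp (3 * Y) := by
    refine h5.trans ?_
    have := Real.add_one_le_exp (3 * Y)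
    linarith
  have h7 : κ * (s + e - A) ≤ 3 * Y := Real.exp_le_exp.1 h6
  rw [div_mul_eq_mul_div, le_div_iff₀ hκ]
  linarith

end IMEx

open IMEx in
theorem pr_MEx (h1 : MStw) : MEx := by
  intro X d κ hC x z m w hm
  have hpm := hC.pm
  have hκ := hC.pos
  have hs := hpm.nonneg x m
  have hr := hpm.nonneg m z
  rcases eq_or_lt_of_le (hpm.nonneg x z) with hD | hD
  · have hs0 : d x m = 0 := by linarith
    have h2 := hpm.tri m x w
    rw [hpm.symm m x] at h2
    have h3 : 0 ≤ 3 / κ * Real.exp (κ * (d x m - d m z - d x w + d z w)) := by positivity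
    linarith
  · have h2 := h1 X d κ hC x z m w hm
    have h3 := excess κ (d x m) (d m z) (d x w) (d z w) (d m w) hκ hs hr (by rw [hm]; exact hD)
      (hpm.nonneg z w) (by
        rw [hm, hpm.symm z w]; exact hpm.tri x w z) (by
        rw [hm, hpm.symm m w, hpm.symm x w, hpm.symm z w]
        exact h2)
    exact h3

end Pool.Agent.LX
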