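import Pool.Agent.Work.MP_25cd3b_gt.LX.StmtsM

set_option autoImplicit false

/-!
# MP_25cd3b_gt, block LX, item MF1: the four point inequality

Author: helper81.
-/

open Set Filter Topology

namespace Pool.Agent.LX

open Pool.Agent.MLS (IsPM)

theorem pr_MF1 (h1 : MEx) : MF1 := by
  intro X d κ hC x y z w
  have hpm := hC.pm
  have hxz := hpm.tri x z w
  have t1 := hpm.tri x w z
  have t2 := hpm.tri x z w
  have t3 := hpm.tri x y z
  have t4 := hpm.tri x z y
  have t5 := hpm.tri z x w
  have t6 := hpm.tri z x y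
  have t7 := hpm.tri z w x
  have t8 := hpm.tri z y x
  have s1 := hpm.symm z x
  have s2 := hpm.symm z w
  have s3 := hpm.symm z y
  have s4 := hpm.symm w x
  have s5 := hpm.symm y x
  set s : ℝ := (2 * d x z + d x w - d z w - d z y + d x y) / 4 with hs
  have hs0 : 0 ≤ s := by rw [hs]; linarith
  have hs1 : 0 ≤ d x z - s := by rw [hs]; linarith
  obtain ⟨m, hm1, hm2, -⟩ := hC.btw x z s (d x z - s) hs0 hs1 (by ring)
  have e1 := h1 X d κ hC x z m w (by rw [hm1, hm2]; ring)
  have e2 := h1 X d κ hC z x m y (by rw [hpm.symm z m, hpm.symm m x, hm1, hm2, s1]; ring)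
  rw [hpm.symm z m, hpm.symm m x] at e2
  have a1 : κ * (d x m - d m z - d x w + d z w) = -(κ * (d x w + d y z - d x y - d z w) / 2) := by
    rw [hm1, hm2, hs, s3]; ring
  have a2 : κ * (d m z - d x m - d z y + d x y) = -(κ * (d x w + d y z - d x y - d z w) / 2) := by
    rw [hm1, hm2, hs, s3]; ring
  rw [a1] at e1
  rw [a2] at e2
  have t := hpm.tri y m w
  rw [hpm.symm y m] at t
  have e3 : 6 / κ * Real.exp (-(κ * (d x w + d y z - d x y - d z w) / 2)) =
      3 / κ * Real.exp (-(κ * (d x w + d y z - d x y - d z w) / 2)) +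
      3 / κ * Real.exp (-(κ * (d x w + d y z - d x y - d z w) / 2)) := by ring
  rw [e3]
  unfold crd
  linarith

end Pool.Agent.LX
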