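import Pool.Agent.Work.MP_25cd3b_gt.LX.StmtsM

set_option autoImplicit false

/-!
# MP_25cd3b_gt, block LX, item MFl: finitely many elements
-/

open Set Filter Topology

namespace Pool.Agent.LX

open Pool.Agent.MLS (IsPM)

namespace IMFl

lemma gp_symm {X : Type} {d : X → X → ℝ} (hd : IsPM d) (o x y : X) : gp d o x y = gp d o y x := by
  unfold gp
  rw [hd.symm x y]
  ring

/-- Cases 1 and 2. -/
lemma near {G X : Type} [Group G] [MulAction G X] {d : X → X → ℝ} (hd : IsPM d)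
    (iso : ∀ (a : G) (x y : X), d (a • x) (a • y) = d x y) {δ : ℝ}
    (hy : ∀ o x y z : X, min (gp d o x y) (gp d o y z) - δ ≤ gp d o x z) (e : G) (o q u : X)
    (K : ℝ) (h1 : 2 * d o q - K ≤ d q (e • q)) (hK : 0 ≤ d o (e • o) + K) (hδ : 0 < δ)
    (h2 : (d o (e • o) + K) / 2 + 2 * δ + 1 + d o (e • o) ≤ gp d o q u) :
    gp d o u (e • u) ≤ (d o (e • o) + K) / 2 + 2 * δ + 1 := by
  by_contra hcon
  push Not at hcon
  have hb : 0 ≤ d o (e • o) := hd.nonneg _ _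
  have h3 : gp d o q u - d o (e • o) ≤ gp d o (e • u) (e • q) := by
    have h4 := hd.tri (e • o) o (e • q)
    have h5 := hd.tri (e • o) o (e • u)
    rw [iso, hd.symm (e • o) o] at h4 h5
    unfold gp
    rw [iso, hd.symm u q]
    linarith
  have h4 := hy o q u (e • u)
  have h5 : (d o (e • o) + K) / 2 + 2 * δ + 1 ≤ min (gp d o q u) (gp d o u (e • u)) :=
    le_min (by linarith) hcon.le
  have h6 := hy o q (e • u) (e • q)
  have h7 : (d o (e • o) + K) / 2 + δ + 1 ≤ min (gp d o q (e • u)) (gp d o (e • u) (e • q)) :=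
    le_min (by linarith) (by linarith)
  have h8 : gp d o q (e • q) ≤ (d o (e • o) + K) / 2 := by
    have h9 := hd.tri o (e • o) (e • q)
    rw [iso] at h9
    unfold gp
    linarith
  linarith

lemma pow_line {G X : Type} [Group G] [MulAction G X] {d : X → X → ℝ} {a : G} {c : ℝ → X} {l : ℝ}
    (h : Clo d a c l) (m : ℕ) (t : ℝ) : a ^ m • c t = c (t + m * l) := by
  induction m with
  | zero => simp
  | succ m ih =>
    rw [pow_succ', mul_smul, ih, ← h.per]
    congr 1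
    push_cast
    ring

end IMFl

open IMFl in
theorem pr_MFl (h1 : MHy) : MFl := by
  classical
  intro G X _ _ d κ ℓ hA a e c l K hc hK
  have hd := hA.cat.pm
  have hκ := hA.cat.pos
  have hδ : 0 < 3 / κ := by positivity
  have hy := h1 X d κ hA.cat
  obtain ⟨δ, hδe⟩ : ∃ δ : ℝ, δ = 3 / κ := ⟨_, rfl⟩
  rw [← hδe] at hδ hy
  obtain ⟨o, ho⟩ : ∃ o : X, o = c 0 := ⟨_, rfl⟩
  rw [← ho]
  obtain ⟨b, hb⟩ : ∃ b : ℝ, b = d o (e • o) := ⟨_, rfl⟩
  have hb0 : 0 ≤ b := hb ▸ hd.nonneg _ _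
  have hbK : 0 ≤ b + K := by
    have h2 := (hK 0 0 le_rfl le_rfl).1
    rw [← ho, ← hb] at h2
    linarith
  obtain ⟨K₁, hK₁⟩ : ∃ K₁ : ℝ, K₁ = (b + K) / 2 + 2 * δ + 1 := ⟨_, rfl⟩
  obtain ⟨m, hm⟩ : ∃ m : ℕ, K₁ + b + 2 * δ < m * l := by
    obtain ⟨m, hm⟩ := exists_nat_gt ((K₁ + b + 2 * δ) / l)
    exact ⟨m, (div_lt_iff₀ hc.pos).1 hm⟩
  have hml : 0 ≤ (m : ℝ) * l := mul_nonneg (Nat.cast_nonneg _) hc.pos.le
  refine ⟨{1, e, a ^ m, (a ^ m)⁻¹}, K₁ + δ, fun u v => ?_⟩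
  -- the cases 1 and 2
  have near' : ∀ q : X, 2 * d o q - K ≤ d q (e • q) → K₁ + b ≤ gp d o q u →
      ∃ f ∈ ({1, e, a ^ m, (a ^ m)⁻¹} : Finset G), gp d o v (f • u) ≤ K₁ + δ := by
    intro q hq1 hq2
    have h3 : gp d o u (e • u) ≤ K₁ := by
      rw [hK₁, hb]
      refine near hd hA.iso hy e o q u K hq1 (by rw [← hb]; exact hbK) hδ ?_
      rw [← hb, ← hK₁]
      exact hq2
    have h4 := hy o u v (e • u)
    have h5 : min (gp d o u v) (gp d o v (e • u)) ≤ K₁ + δ := by linarith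
    rcases min_le_iff.1 h5 with h6 | h6
    · refine ⟨1, by simp, ?_⟩
      rw [one_smul, gp_symm hd]
      exact h6
    · exact ⟨e, by simp, h6⟩
  by_cases hcase1 : K₁ + b ≤ gp d o (c (m * l)) u
  · refine near' (c (m * l)) ?_ hcase1
    have h3 := (hK (m * l) (m * l) hml hml).1
    have h4 : d o (c (m * l)) = m * l := by
      rw [ho, hc.ln, zero_sub, abs_neg, abs_of_nonneg hml]
    rw [h4]
    linarith
  by_cases hcase2 : K₁ + b ≤ gp d o (c (-(m * l))) u
  · refine near' (c (-(m * l))) ?_ hcase2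
    have h3 := (hK (m * l) (m * l) hml hml).2
    have h4 : d o (c (-(m * l))) = m * l := by
      rw [ho, hc.ln, zero_sub, neg_neg, abs_of_nonneg hml]
    rw [h4]
    linarith
  -- case 3
  push Not at hcase1 hcase2
  have e1 : d o (c (m * l)) = m * l := by
    rw [ho, hc.ln, zero_sub, abs_neg, abs_of_nonneg hml]
  have e2 : d o (c (-(m * l))) = m * l := by
    rw [ho, hc.ln, zero_sub, neg_neg, abs_of_nonneg hml]
  have e3 : d (c (m * l)) (c (-(m * l))) = m * l + m * l := by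
    rw [hc.ln, sub_neg_eq_add, abs_of_nonneg (add_nonneg hml hml)]
  have p1 : a ^ m • o = c (m * l) := by
    rw [ho, pow_line hc, zero_add]
  have p2 : a ^ m • c (-(m * l)) = o := by
    rw [ho, pow_line hc, neg_add_cancel]
  have p3 : (a ^ m)⁻¹ • c (m * l) = o := by
    rw [← p1, inv_smul_smul]
  have p4 : (a ^ m)⁻¹ • o = c (-(m * l)) := by
    rw [← p2, inv_smul_smul]
  have q1 : d o (a ^ m • u) = d (c (-(m * l))) u := by
    conv_lhs => rw [← p2]
    exact hA.iso _ _ _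
  have q2 : d (c (m * l)) (a ^ m • u) = d o u := by
    rw [← p1]
    exact hA.iso _ _ _
  have q3 : d o ((a ^ m)⁻¹ • u) = d (c (m * l)) u := by
    conv_lhs => rw [← p3]
    exact hA.iso _ _ _
  have q4 : d (c (-(m * l))) ((a ^ m)⁻¹ • u) = d o u := by
    rw [← p4]
    exact hA.iso _ _ _
  have r1 : m * l - (K₁ + b) < gp d o (c (m * l)) (a ^ m • u) := by
    unfold gp at hcase2 ⊢
    rw [e2] at hcase2
    rw [e1, q1, q2]
    linarith
  have r2 : m * l - (K₁ + b) < gp d o ((a ^ m)⁻¹ • u) (c (-(m * l))) := by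
    rw [gp_symm hd]
    unfold gp at hcase1 ⊢
    rw [e1] at hcase1
    rw [e2, q3, q4]
    linarith
  have r3 : gp d o (c (m * l)) (c (-(m * l))) = 0 := by
    unfold gp
    rw [e1, e2, e3]
    ring
  have s1 := hy o (c (m * l)) (a ^ m • u) (c (-(m * l)))
  rw [r3] at s1
  have s2 : gp d o (a ^ m • u) (c (-(m * l))) ≤ δ := by
    have : min (gp d o (c (m * l)) (a ^ m • u)) (gp d o (a ^ m • u) (c (-(m * l)))) ≤ δ := by
      linarith
    rcases min_le_iff.1 this with h6 | h6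
    · linarith
    · exact h6
  have s3 := hy o (a ^ m • u) ((a ^ m)⁻¹ • u) (c (-(m * l)))
  have s4 : gp d o (a ^ m • u) ((a ^ m)⁻¹ • u) ≤ 2 * δ := by
    have : min (gp d o (a ^ m • u) ((a ^ m)⁻¹ • u))
        (gp d o ((a ^ m)⁻¹ • u) (c (-(m * l)))) ≤ 2 * δ := by
      linarith
    rcases min_le_iff.1 this with h6 | h6
    · exact h6
    · linarith
  have s5 := hy o (a ^ m • u) v ((a ^ m)⁻¹ • u)
  have s6 : min (gp d o (a ^ m • u) v) (gp d o v ((a ^ m)⁻¹ • u)) ≤ K₁ + δ := by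
    rw [hK₁]
    linarith
  rcases min_le_iff.1 s6 with h6 | h6
  · refine ⟨a ^ m, by simp, ?_⟩
    rw [gp_symm hd]
    exact h6
  · exact ⟨(a ^ m)⁻¹, by simp, h6⟩

end Pool.Agent.LX
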