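import Pool.Agent.Work.MP_25cd3b_gt.LX.StmtsM

set_option autoImplicit false

/-!
# MP_25cd3b_gt, block LX, part M, item MHy: hyperbolicity
-/

open Set Filter Topology

namespace Pool.Agent.LX

namespace IMHy

theorem aux {κ t : ℝ} (hκ : 0 < κ) (ht : 0 ≤ t) :
    6 / κ * Real.exp (-(κ * t / 2)) ≤ 6 / κ := by
  have h1 : Real.exp (-(κ * t / 2)) ≤ 1 := by
    rw [Real.exp_le_one_iff]
    have := mul_nonneg hκ.le ht
    linarith
  have h2 : 0 ≤ 6 / κ := by positivity
  calc 6 / κ * Real.exp (-(κ * t / 2)) ≤ 6 / κ * 1 := mul_le_mul_of_nonneg_left h1 h2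
    _ = 6 / κ := mul_one _

end IMHy

theorem pr_MHy (h1 : MF1) : MHy := by
  intro X d κ hC o x y z
  have hs := hC.pm.symm
  have hκ := hC.pos
  have e6 : 6 / κ = 2 * (3 / κ) := by ring
  rcases le_total (d y z + d o x) (d x y + d o z) with h | h
  · have h2 := h1 X d κ hC x o z y
    have h3 := IMHy.aux hκ (show 0 ≤ d x y + d o z - d x o - d z y by rw [hs x o, hs z y]; linarith)
    unfold crd at h2
    have h4 : gp d o x y ≤ gp d o x z + 3 / κ := by
      unfold gp
      linarith
    have h5 := min_le_left (gp d o x y) (gp d o y z)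
    linarith
  · have h2 := h1 X d κ hC z o x y
    have h3 := IMHy.aux hκ (show 0 ≤ d z y + d o x - d z o - d x y by rw [hs z y, hs z o]; linarith)
    unfold crd at h2
    rw [hs z x, hs z y] at h2
    rw [hs z y] at h3
    have h4 : gp d o y z ≤ gp d o x z + 3 / κ := by
      unfold gp
      linarith
    have h5 := min_le_right (gp d o x y) (gp d o y z)
    linarith

end Pool.Agent.LX
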