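import Pool.Agent.Work.MP_25cd3b_gt.LX.StmtsM

set_option autoImplicit false

/-!
# MP_25cd3b_gt, block LX, item MLn: lines at bounded distance coincide
-/

open Set Filter Topology

namespace Pool.Agent.LX

open Pool.Agent.MLS (IsPM)

namespace IMLn

theorem near (h1 : MF1) (h2 : MMd) {X : Type} {d : X → X → ℝ} {κ : ℝ} (hC : Cat d κ)
    {c c' : ℝ → X} (hc : Ln d c) (hc' : Ln d c') (D : ℝ) (hD : ∀ t, d (c t) (c' t) ≤ D) (R : ℝ)
    (hR : D < R) : ∃ s, |s| ≤ D ∧
      Real.cosh (κ * d (c' 0) (c s)) ≤ Real.exp (12 * Real.exp (-(κ * (R - D)))) := by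
  have hκ := hC.pos
  have hD0 : 0 ≤ D := (hC.pm.nonneg _ _).trans (hD 0)
  have hR0 : 0 < R := lt_of_le_of_lt hD0 hR
  have e1 : d (c (-R)) (c R) = 2 * R := by
    rw [hc, show -R - R = -(2 * R) by ring, abs_neg, abs_of_nonneg (by linarith)]
  have e2 : d (c' (-R)) (c' 0) = R := by
    rw [hc', sub_zero, abs_neg, abs_of_pos hR0]
  have e3 : d (c' 0) (c' R) = R := by
    rw [hc', zero_sub, abs_neg, abs_of_pos hR0]
  have e4 : d (c' (-R)) (c' R) = 2 * R := by
    rw [hc', show -R - R = -(2 * R) by ring, abs_neg, abs_of_nonneg (by linarith)]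
  have e5 : d (c' 0) (c' (-R)) = R := by
    rw [hC.pm.symm]; exact e2
  have e6 : d (c (-R)) (c 0) = R := by
    rw [hc, sub_zero, abs_neg, abs_of_pos hR0]
  have t0 := hD (-R)
  have t0' := hD R
  have t0'' := hD 0
  have t1 : d (c' 0) (c R) ≤ R + D := by
    have h := hC.pm.tri (c' 0) (c' R) (c R)
    rw [hC.pm.symm (c' R) (c R)] at h
    linarith
  have t2 : 2 * R - D ≤ d (c' (-R)) (c R) := by
    have h := hC.pm.tri (c' (-R)) (c R) (c' R)
    linarith
  have t3 : d (c (-R)) (c' 0) ≤ R + D := by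
    have h := hC.pm.tri (c (-R)) (c 0) (c' 0)
    linarith
  have t4 : R - D ≤ d (c (-R)) (c' 0) := by
    have h := hC.pm.tri (c (-R)) (c' 0) (c 0)
    rw [hC.pm.symm (c' 0) (c 0)] at h
    linarith
  have hk6 : 0 < 6 / κ := by positivity
  have m1 := h1 X d κ hC (c (-R)) (c' (-R)) (c' 0) (c R)
  have x1 : Real.exp (-(κ * (d (c (-R)) (c R) + d (c' (-R)) (c' 0) - d (c (-R)) (c' (-R)) -
      d (c' 0) (c R)) / 2)) ≤ Real.exp (-(κ * (R - D))) := by
    rw [Real.exp_le_exp]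
    have h3 : κ * (R - D) ≤ κ * ((d (c (-R)) (c R) + d (c' (-R)) (c' 0) - d (c (-R)) (c' (-R)) -
      d (c' 0) (c R)) / 2) := mul_le_mul_of_nonneg_left (by linarith) hκ.le
    linarith
  have m1' : d (c (-R)) (c' 0) + d (c' (-R)) (c R) ≤ 3 * R +
      6 / κ * Real.exp (-(κ * (R - D))) := by
    have h3 := mul_le_mul_of_nonneg_left x1 hk6.le
    unfold crd at m1
    linarith
  have m2 := h1 X d κ hC (c' 0) (c' (-R)) (c R) (c' R)
  have x2 : Real.exp (-(κ * (d (c' 0) (c' R) + d (c' (-R)) (c R) - d (c' 0) (c' (-R)) -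
      d (c R) (c' R)) / 2)) ≤ Real.exp (-(κ * (R - D))) := by
    rw [Real.exp_le_exp]
    have h3 : κ * (R - D) ≤ κ * ((d (c' 0) (c' R) + d (c' (-R)) (c R) - d (c' 0) (c' (-R)) -
      d (c R) (c' R)) / 2) := mul_le_mul_of_nonneg_left (by linarith) hκ.le
    linarith
  have m2' : d (c' 0) (c R) + R ≤ d (c' (-R)) (c R) + 6 / κ * Real.exp (-(κ * (R - D))) := by
    have h3 := mul_le_mul_of_nonneg_left x2 hk6.le
    unfold crd at m2
    linarith
  have hs1 : |d (c (-R)) (c' 0) - R| ≤ D := by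
    rw [abs_le]
    constructor <;> linarith
  have hs2 := abs_le.mp hs1
  have f1 : d (c (-R)) (c (d (c (-R)) (c' 0) - R)) = d (c (-R)) (c' 0) := by
    rw [hc, show -R - (d (c (-R)) (c' 0) - R) = -(d (c (-R)) (c' 0)) by ring, abs_neg,
      abs_of_nonneg (hC.pm.nonneg _ _)]
  have f2 : d (c (d (c (-R)) (c' 0) - R)) (c R) = 2 * R - d (c (-R)) (c' 0) := by
    rw [hc, show d (c (-R)) (c' 0) - R - R = -(2 * R - d (c (-R)) (c' 0)) by ring, abs_neg,
      abs_of_nonneg (by linarith)]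
  have he : 0 ≤ 12 / κ * Real.exp (-(κ * (R - D))) := by positivity
  have h12 : 12 / κ * Real.exp (-(κ * (R - D))) =
      6 / κ * Real.exp (-(κ * (R - D))) + 6 / κ * Real.exp (-(κ * (R - D))) := by
    ring
  have hm := h2 X d κ hC (c (-R)) (c R) (c (d (c (-R)) (c' 0) - R)) (c' 0)
    (12 / κ * Real.exp (-(κ * (R - D)))) (by rw [f1, f2, e1]; ring) he
    (by rw [f1]; linarith) (by rw [f2]; linarith)
  have hke : κ * (12 / κ * Real.exp (-(κ * (R - D)))) = 12 * Real.exp (-(κ * (R - D))) := by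
    rw [← mul_assoc, mul_div_cancel₀ _ hκ.ne']
  rw [hke] at hm
  exact ⟨_, hs1, hm⟩

theorem zero (h1 : MF1) (h2 : MMd) {X : Type} {d : X → X → ℝ} {κ : ℝ} (hC : Cat d κ)
    {c c' : ℝ → X} (hc : Ln d c) (hc' : Ln d c') (D : ℝ) (hD : ∀ t, d (c t) (c' t) ≤ D) :
    ∃ s, d (c' 0) (c s) = 0 := by
  have hκ := hC.pos
  have hD0 : 0 ≤ D := (hC.pm.nonneg _ _).trans (hD 0)
  have hlip : ∀ s t, d (c' 0) (c s) - d (c' 0) (c t) ≤ |s - t| := by
    intro s t
    have h := hC.pm.tri (c' 0) (c t) (c s)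
    rw [hC.pm.symm (c t) (c s), hc s t] at h
    linarith
  have hcont : Continuous (fun s => d (c' 0) (c s)) := by
    have h3 : LipschitzWith 1 (fun s => d (c' 0) (c s)) := by
      refine LipschitzWith.of_le_add (fun s t => ?_)
      rw [Real.dist_eq]
      have := hlip s t
      linarith
    exact h3.continuous
  obtain ⟨s0, hs0, hmin⟩ := (isCompact_Icc (a := -D) (b := D)).exists_isMinOn
    ⟨0, by constructor <;> linarith⟩ hcont.continuousOn
  refine ⟨s0, ?_⟩
  have hbd : ∀ᶠ R in atTop, Real.cosh (κ * d (c' 0) (c s0)) ≤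
      Real.exp (12 * Real.exp (-(κ * (R - D)))) := by
    filter_upwards [eventually_gt_atTop D] with R hR
    obtain ⟨s, hs, hs'⟩ := near h1 h2 hC hc hc' D hD R hR
    refine le_trans ?_ hs'
    have h4 : d (c' 0) (c s0) ≤ d (c' 0) (c s) := hmin (abs_le.mp hs)
    rw [Real.cosh_le_cosh, abs_of_nonneg (mul_nonneg hκ.le (hC.pm.nonneg _ _)),
      abs_of_nonneg (mul_nonneg hκ.le (hC.pm.nonneg _ _))]
    exact mul_le_mul_of_nonneg_left h4 hκ.le
  have hlim : Tendsto (fun R : ℝ => Real.exp (12 * Real.exp (-(κ * (R - D))))) atTop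
      (𝓝 (Real.exp (12 * 0))) := by
    have h5 : Tendsto (fun R : ℝ => κ * (R - D)) atTop atTop :=
      Tendsto.const_mul_atTop hκ (tendsto_atTop_add_const_right atTop (-D) tendsto_id)
    have h6 : Tendsto (fun R : ℝ => Real.exp (-(κ * (R - D)))) atTop (𝓝 0) :=
      Real.tendsto_exp_neg_atTop_nhds_zero.comp h5
    exact (Real.continuous_exp.tendsto _).comp (h6.const_mul 12)
  have hle := ge_of_tendsto hlim hbd
  rw [mul_zero, Real.exp_zero] at hle
  by_contra hne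
  have h7 : κ * d (c' 0) (c s0) ≠ 0 := mul_ne_zero hκ.ne' hne
  have h8 := Real.one_lt_cosh.mpr h7
  linarith

end IMLn

theorem pr_MLn (h1 : MF1) (h2 : MMd) : MLn := by
  intro X d κ hC c c' hc hc' hD t
  obtain ⟨D, hD⟩ := hD
  have hs : Ln d (fun u => c (u + t)) := by
    intro s u
    show d (c (s + t)) (c (u + t)) = |s - u|
    rw [hc, add_sub_add_right_eq_sub]
  have hs' : Ln d (fun u => c' (u + t)) := by
    intro s u
    show d (c' (s + t)) (c' (u + t)) = |s - u|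
    rw [hc', add_sub_add_right_eq_sub]
  obtain ⟨s, h⟩ := IMLn.zero h1 h2 hC hs hs' D (fun u => hD (u + t))
  refine ⟨s + t, ?_⟩
  rw [zero_add] at h
  exact h

end Pool.Agent.LX
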