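import Pool.Agent.Work.MP_25cd3b_gt.LX.StmtsM

set_option autoImplicit false

/-!
# MP_25cd3b_gt, block LX, part M: item MMd (points close to a geodesic)
-/

open Set Filter Topology

namespace Pool.Agent.LX

open Pool.Agent.MLS (IsPM)

namespace IMMd

theorem cosh_add_le (u v : ℝ) (hv : 0 ≤ v) : Real.cosh (u + v) ≤ Real.exp v * Real.cosh u := by
  rw [Real.cosh_add, ← Real.cosh_add_sinh v]
  have h1 : Real.sinh u ≤ Real.cosh u := (Real.sinh_lt_cosh u).le
  have h2 : 0 ≤ Real.sinh v := Real.sinh_nonneg_iff.2 hv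
  nlinarith [mul_le_mul_of_nonneg_right h1 h2]

theorem cosh_le (u v e : ℝ) (hu : 0 ≤ u) (he : 0 ≤ e) (hv : 0 ≤ v) (h : v ≤ u + e) :
    Real.cosh v ≤ Real.exp e * Real.cosh u := by
  refine le_trans ?_ (cosh_add_le u e he)
  rw [Real.cosh_le_cosh, abs_of_nonneg hv, abs_of_nonneg (add_nonneg hu he)]
  exact h

end IMMd

open IMMd in
/-- item MMd -/
theorem pr_MMd (h1 : MStw) : MMd := by
  intro X d κ hC x z m p e hm he hx hz
  have hκ := hC.pos
  have hn := hC.pm.nonneg
  have hs := hC.pm.symm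
  have hpx : Real.cosh (κ * d p x) ≤ Real.exp (κ * e) * Real.cosh (κ * d x m) := by
    refine cosh_le _ _ _ (mul_nonneg hκ.le (hn _ _)) (mul_nonneg hκ.le he)
      (mul_nonneg hκ.le (hn _ _)) ?_
    rw [← mul_add, hs p x]
    exact mul_le_mul_of_nonneg_left hx hκ.le
  have hpz : Real.cosh (κ * d p z) ≤ Real.exp (κ * e) * Real.cosh (κ * d m z) := by
    refine cosh_le _ _ _ (mul_nonneg hκ.le (hn _ _)) (mul_nonneg hκ.le he)
      (mul_nonneg hκ.le (hn _ _)) ?_
    rw [← mul_add]
    exact mul_le_mul_of_nonneg_left hz hκ.le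
  rcases (hn x z).eq_or_lt with h0 | h0
  · have ha : d x m = 0 := by linarith [hn x m, hn m z]
    have h2 : d p m ≤ 0 + e := by
      have := hC.pm.tri p x m
      rw [hs p x] at this
      linarith
    have h3 := cosh_le 0 (κ * d p m) (κ * e) le_rfl (mul_nonneg hκ.le he)
      (mul_nonneg hκ.le (hn _ _)) (by
        rw [zero_add]
        exact mul_le_mul_of_nonneg_left (by linarith) hκ.le)
    rwa [Real.cosh_zero, mul_one] at h3
  · have h2 := h1 X d κ hC x z m p hm
    have h3 : 0 < Real.sinh (κ * d x z) := Real.sinh_pos_iff.2 (mul_pos hκ h0)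
    have h4 : 0 ≤ Real.sinh (κ * d m z) := Real.sinh_nonneg_iff.2 (mul_nonneg hκ.le (hn _ _))
    have h5 : 0 ≤ Real.sinh (κ * d x m) := Real.sinh_nonneg_iff.2 (mul_nonneg hκ.le (hn _ _))
    have h6 : Real.sinh (κ * d x z) = Real.sinh (κ * d m z) * Real.cosh (κ * d x m) +
        Real.sinh (κ * d x m) * Real.cosh (κ * d m z) := by
      rw [← hm, mul_add, Real.sinh_add]
      ring
    have h7 : Real.sinh (κ * d x z) * Real.cosh (κ * d p m) ≤
        Real.sinh (κ * d x z) * Real.exp (κ * e) := by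
      calc Real.sinh (κ * d x z) * Real.cosh (κ * d p m)
          ≤ Real.sinh (κ * d m z) * Real.cosh (κ * d p x) +
            Real.sinh (κ * d x m) * Real.cosh (κ * d p z) := h2
        _ ≤ Real.sinh (κ * d m z) * (Real.exp (κ * e) * Real.cosh (κ * d x m)) +
            Real.sinh (κ * d x m) * (Real.exp (κ * e) * Real.cosh (κ * d m z)) :=
          add_le_add (mul_le_mul_of_nonneg_left hpx h4) (mul_le_mul_of_nonneg_left hpz h5)
        _ = Real.sinh (κ * d x z) * Real.exp (κ * e) := by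
          rw [h6]
          ring
    exact le_of_mul_le_mul_left h7 h3

end Pool.Agent.LX
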