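import Pool.Agent.Work.MP_25cd3b_gt.LX.StmtsM

set_option autoImplicit false

/-!
# MP_25cd3b_gt, block LX, part M: item MNe (an independent axis)
-/

open Set Filter Topology

namespace Pool.Agent.LX

open Pool.Agent.MLS (IsPM)

namespace IMNe

variable {G X : Type} [Group G] [MulAction G X] {d : X → X → ℝ} {κ : ℝ} {ℓ : G → ℝ}

theorem per_nat {a : G} {c : ℝ → X} {l : ℝ} (h : Clo d a c l) (k : ℕ) (t : ℝ) :
    c (t + k * l) = a ^ k • c t := by
  induction k with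
  | zero => simp
  | succ k ih =>
    have e : t + ((k + 1 : ℕ) : ℝ) * l = (t + k * l) + l := by push_cast; ring
    rw [e, h.per, ih, pow_succ', mul_smul]

theorem per_nat' {a : G} {c : ℝ → X} {L : ℝ} (h : ∀ t, c (t + L) = a • c t) (k : ℕ) (t : ℝ) :
    c (t + k * L) = a ^ k • c t := by
  induction k with
  | zero => simp
  | succ k ih =>
    have e : t + ((k + 1 : ℕ) : ℝ) * L = (t + k * L) + L := by push_cast; ring
    rw [e, h, ih, pow_succ', mul_smul]

theorem per_int {a : G} {c : ℝ → X} {L : ℝ} (h : ∀ t, c (t + L) = a • c t) (j : ℤ) (t : ℝ) :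
    c (t + j * L) = a ^ j • c t := by
  obtain ⟨n, rfl | rfl⟩ := j.eq_nat_or_neg
  · have := per_nat' h n t
    rw [zpow_natCast]
    simpa using this
  · have h1 := per_nat' h n (t + ((-(n : ℤ) : ℤ) : ℝ) * L)
    have e : t + ((-(n : ℤ) : ℤ) : ℝ) * L + n * L = t := by push_cast; ring
    rw [e] at h1
    rw [zpow_neg, zpow_natCast, h1, smul_smul, inv_mul_cancel, one_smul]

/-- the reversed closed geodesic -/
theorem rev {a : G} {c : ℝ → X} {l : ℝ} (h : Clo d a c l) :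
    Clo d a⁻¹ (fun t => c (-t)) l where
  ln := fun s t => by
    rw [h.ln (-s) (-t)]
    have e : -s - -t = -(s - t) := by ring
    rw [e, abs_neg]
  pos := h.pos
  per := fun t => by
    change c (-(t + l)) = a⁻¹ • c (-t)
    have h1 := h.per (-(t + l))
    have e : -(t + l) + l = -t := by ring
    rw [e] at h1
    rw [h1, smul_smul, inv_mul_cancel, one_smul]

/-- step 1: bounded distance on the positive half line -/
theorem step1 (h1 : MHy) (hA : Act G d κ ℓ) (e : G) (c : ℝ → X) (hc : Ln d c)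
    (hcon : ∀ K : ℝ, ∃ s t : ℝ, 0 ≤ s ∧ 0 ≤ t ∧ d (c s) (e • c t) < s + t - K) (r : ℝ)
    (hr : 0 ≤ r) : d (c r) (e • c r) ≤ 3 * d (c 0) (e • c 0) + 12 / κ := by
  obtain ⟨s, t, hs, ht, hst⟩ := hcon (2 * r + d (c 0) (e • c 0))
  have hpm := hA.cat.pm
  have hκ := hA.cat.pos
  have hb0 : 0 ≤ d (c 0) (e • c 0) := hpm.nonneg _ _
  have hd0 : ∀ u, 0 ≤ u → d (c 0) (c u) = u := by
    intro u hu
    rw [hc, zero_sub, abs_neg, abs_of_nonneg hu]
  have hlow : ∀ u, 0 ≤ u → u - d (c 0) (e • c 0) ≤ d (c 0) (e • c u) ∧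
      d (c 0) (e • c u) ≤ u + d (c 0) (e • c 0) := by
    intro u hu
    have h2 := hpm.tri (c 0) (e • c 0) (e • c u)
    have h3 := hpm.tri (e • c 0) (c 0) (e • c u)
    rw [hA.iso, hd0 u hu] at h2 h3
    rw [hpm.symm (e • c 0) (c 0)] at h3
    constructor <;> linarith
  -- both parameters are at least `r`
  have h4 := hpm.tri (c 0) (c s) (e • c t)
  have h5 := hpm.tri (c 0) (e • c t) (c s)
  rw [hpm.symm (e • c t) (c s)] at h5
  rw [hd0 s hs] at h4 h5
  have hs2 := hlow t ht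
  have hsr : r ≤ s := by linarith
  have htr : r ≤ t := by linarith
  -- products
  have g1 : gp d (c 0) (c r) (c s) = r := by
    unfold gp
    rw [hd0 r hr, hd0 s hs, hc, abs_sub_comm, abs_of_nonneg (by linarith)]
    ring
  have g2 : r ≤ gp d (c 0) (c s) (e • c t) := by
    unfold gp
    rw [hd0 s hs]
    linarith
  have g3 : r - d (c 0) (e • c 0) ≤ gp d (c 0) (e • c t) (e • c r) := by
    unfold gp
    rw [hA.iso, hc, abs_of_nonneg (by linarith : (0 : ℝ) ≤ t - r)]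
    have := hlow r hr
    linarith
  have m1 := h1 X d κ hA.cat (c 0) (c r) (c s) (e • c t)
  have m2 := h1 X d κ hA.cat (c 0) (c r) (e • c t) (e • c r)
  have hk : 0 < 3 / κ := by positivity
  have m3 : r - 3 / κ ≤ gp d (c 0) (c r) (e • c t) := by
    have : r ≤ min (gp d (c 0) (c r) (c s)) (gp d (c 0) (c s) (e • c t)) :=
      le_min g1.ge g2
    linarith
  have m4 : r - d (c 0) (e • c 0) - 3 / κ ≤
      min (gp d (c 0) (c r) (e • c t)) (gp d (c 0) (e • c t) (e • c r)) :=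
    le_min (by linarith) (by linarith)
  have m5 : r - d (c 0) (e • c 0) - 6 / κ ≤ gp d (c 0) (c r) (e • c r) := by
    have e1 : (6 : ℝ) / κ = 3 / κ + 3 / κ := by ring
    linarith
  unfold gp at m5
  rw [hd0 r hr] at m5
  have e2 : (12 : ℝ) / κ = 2 * (6 / κ) := by ring
  have := hlow r hr
  linarith

/-- one half of the claim -/
theorem half (h1 : MHy) (h2 : MLn) (hA : Act G d κ ℓ) (a : G) (c : ℝ → X) (l : ℝ)
    (hc : Clo d a c l) (e : G) (he : ∀ t, 1 ≤ d (e • c 0) (c t)) :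
    ∃ K : ℝ, ∀ s t : ℝ, 0 ≤ s → 0 ≤ t → s + t - K ≤ d (c s) (e • c t) := by
  by_contra hcon
  push Not at hcon
  have hpm := hA.cat.pm
  have hb := step1 h1 hA e c hc.ln hcon
  -- the conjugates
  set C : ℝ := 3 * d (c 0) (e • c 0) + 12 / κ with hC
  have hmem : ∀ m : ℕ, (a ^ m)⁻¹ * e * a ^ m ∈ {g : G | d (c 0) (g • c 0) ≤ C} := by
    intro m
    change d (c 0) (((a ^ m)⁻¹ * e * a ^ m) • c 0) ≤ C
    have e1 : d (c 0) (((a ^ m)⁻¹ * e * a ^ m) • c 0) = d (a ^ m • c 0) (e • a ^ m • c 0) := by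
      rw [← hA.iso (a ^ m) (c 0), smul_smul, smul_smul]
      congr 2
      group
    rw [e1]
    have e2 := per_nat hc m 0
    rw [zero_add] at e2
    rw [← e2]
    exact hb _ (by have := hc.pos; positivity)
  have hfin := hA.prp (c 0) C
  obtain ⟨m, m', hne, hmm⟩ : ∃ m m' : ℕ, m < m' ∧
      (a ^ m)⁻¹ * e * a ^ m = (a ^ m')⁻¹ * e * a ^ m' := by
    obtain ⟨m, -, m', -, hlt, heq⟩ := Set.infinite_univ.exists_lt_map_eq_of_mapsTo
      (f := fun m : ℕ => (a ^ m)⁻¹ * e * a ^ m) (fun m _ => hmem m) hfin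
    exact ⟨m, m', hlt, heq⟩
  obtain ⟨k, hk0, rfl⟩ : ∃ k : ℕ, 0 < k ∧ m' = m + k := ⟨m' - m, by omega, by omega⟩
  have hcomm : Commute e (a ^ k) := by
    unfold Commute SemiconjBy
    have e1 : (a ^ m) * ((a ^ m)⁻¹ * e * a ^ m) * (a ^ m)⁻¹ = e := by group
    have e2 : (a ^ m) * ((a ^ (m + k))⁻¹ * e * a ^ (m + k)) * (a ^ m)⁻¹ =
        (a ^ k)⁻¹ * e * a ^ k := by
      rw [pow_add]
      have e3 : a ^ m * a ^ k = a ^ k * a ^ m := by rw [← pow_add, ← pow_add, add_comm]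
      calc (a ^ m) * ((a ^ m * a ^ k)⁻¹ * e * (a ^ m * a ^ k)) * (a ^ m)⁻¹
          = (a ^ m) * ((a ^ k * a ^ m)⁻¹ * e * (a ^ k * a ^ m)) * (a ^ m)⁻¹ := by rw [e3]
        _ = (a ^ k)⁻¹ * e * a ^ k := by group
    have e4 : e = (a ^ k)⁻¹ * e * a ^ k := by
      calc e = (a ^ m) * ((a ^ m)⁻¹ * e * a ^ m) * (a ^ m)⁻¹ := e1.symm
        _ = (a ^ m) * ((a ^ (m + k))⁻¹ * e * a ^ (m + k)) * (a ^ m)⁻¹ := by rw [hmm]
        _ = _ := e2
    calc e * a ^ k = a ^ k * ((a ^ k)⁻¹ * e * a ^ k) := by group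
      _ = a ^ k * e := by rw [← e4]
  have hL : 0 < (k : ℝ) * l := by
    have h3 : (0 : ℝ) < k := by exact_mod_cast hk0
    exact mul_pos h3 hc.pos
  -- bounded distance of the two lines
  have hbd : ∀ t, d (c t) (e • c t) ≤ 2 * (k * l) + d (c 0) (e • c 0) := by
    intro t
    set j : ℤ := ⌊t / (k * l)⌋ with hj
    have hj1 : (j : ℝ) * (k * l) ≤ t := by
      have := Int.floor_le (t / (k * l))
      rwa [← hj, le_div_iff₀ hL] at this
    have hj2 : t < ((j : ℝ) + 1) * (k * l) := by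
      have := Int.lt_floor_add_one (t / (k * l))
      rwa [← hj, div_lt_iff₀ hL] at this
    set t₀ : ℝ := t - j * (k * l) with ht0
    have ht1 : 0 ≤ t₀ := by linarith
    have ht2 : t₀ ≤ k * l := by
      have : ((j : ℝ) + 1) * (k * l) = j * (k * l) + k * l := by ring
      linarith
    have e1 : c t = (a ^ k) ^ j • c t₀ := by
      rw [← per_int (fun t => per_nat hc k t) j t₀]
      congr 1
      linarith
    have e2 : e • c t = (a ^ k) ^ j • e • c t₀ := by
      rw [e1, smul_smul, smul_smul, (hcomm.zpow_right j).eq]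
    rw [e2, e1, hA.iso]
    have h3 := hpm.tri (c t₀) (c 0) (e • c t₀)
    have h4 := hpm.tri (c 0) (e • c 0) (e • c t₀)
    rw [hA.iso] at h4
    have h5 : d (c t₀) (c 0) = t₀ := by rw [hc.ln, sub_zero, abs_of_nonneg ht1]
    have h6 : d (c 0) (c t₀) = t₀ := by rw [hpm.symm, h5]
    linarith
  obtain ⟨s, hs⟩ := h2 X d κ hA.cat c (fun t => e • c t) hc.ln
    (fun s t => by
      change d (e • c s) (e • c t) = |s - t|
      rw [hA.iso]
      exact hc.ln s t) ⟨_, hbd⟩ 0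
  have := he s
  change d (e • c 0) (c s) = 0 at hs
  linarith

end IMNe

open IMNe in
/-- item MNe -/
theorem pr_MNe (h1 : MHy) (h2 : MLn) : MNe := by
  intro G X _ _ d κ ℓ hA a c l hc hfar
  obtain ⟨D₀, hD⟩ := hA.cob
  obtain ⟨x, hx⟩ := hfar (D₀ + 1)
  obtain ⟨e, he⟩ := hD (c 0) x
  have hpm := hA.cat.pm
  have hone : ∀ t, 1 ≤ d (e • c 0) (c t) := by
    intro t
    have h3 := hx t
    have h4 := hpm.tri x (e • c 0) (c t)
    rw [hpm.symm x (e • c 0)] at h4
    linarith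
  obtain ⟨K1, hK1⟩ := half h1 h2 hA a c l hc e hone
  obtain ⟨K2, hK2⟩ := half h1 h2 hA a⁻¹ (fun t => c (-t)) l (rev hc) e (fun t => by
    change 1 ≤ d (e • c (-0)) (c (-t))
    rw [neg_zero]
    exact hone (-t))
  refine ⟨e, max K1 K2, fun s t hs ht => ⟨?_, ?_⟩⟩
  · have := hK1 s t hs ht
    have := le_max_left K1 K2
    linarith
  · have h3 : s + t - K2 ≤ d (c (-s)) (e • c (-t)) := hK2 s t hs ht
    have := le_max_right K1 K2
    linarith

end Pool.Agent.LX
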