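import Pool.Agent.Work.MP_25cd3b_gt.LX.StmtsM

set_option autoImplicit false

/-!
# MP_25cd3b_gt, block LX, part M: item MPl (elements with given directions)
-/

open Set Filter Topology

namespace Pool.Agent.LX

open Pool.Agent.MLS (IsPM)

namespace IMPl

variable {G X : Type} [Group G] [MulAction G X] {d : X → X → ℝ}

/-- moving an element to the other side -/
theorem mv (iso : ∀ (a : G) (x y : X), d (a • x) (a • y) = d x y) (a : G) (x y : X) :
    d (a • x) y = d x (a⁻¹ • y) := by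
  have h := iso a⁻¹ (a • x) y
  rw [smul_smul, inv_mul_cancel, one_smul] at h
  exact h.symm

theorem mv' (iso : ∀ (a : G) (x y : X), d (a • x) (a • y) = d x y) (a : G) (x y : X) :
    d x (a • y) = d (a⁻¹ • x) y := by
  have h := mv iso a⁻¹ x y
  rw [inv_inv] at h
  exact h.symm

end IMPl

theorem pr_MPl : MPl := by
  intro G X _ _ d κ ℓ hA o hF
  obtain ⟨F, K, hF⟩ := hF
  obtain ⟨D, hD⟩ := hA.cob
  have pm := hA.cat.pm
  have iso := hA.iso
  obtain ⟨D', hD'⟩ : ∃ D' : ℝ, D' = ∑ f ∈ F, d o (f • o) := ⟨_, rfl⟩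
  have hD'0 : 0 ≤ D' := by
    rw [hD']
    exact Finset.sum_nonneg fun f _ => pm.nonneg _ _
  have hfD : ∀ f ∈ F, d o (f • o) ≤ D' := by
    intro f hf
    rw [hD']
    exact Finset.single_le_sum (fun f _ => pm.nonneg o (f • o)) hf
  refine ⟨K + D + D', ?_⟩
  intro x z
  obtain ⟨γ, hγ⟩ := hD o z
  obtain ⟨η, hη⟩ := hD o x
  obtain ⟨f, hf, hfK⟩ := hF (η⁻¹ • o) (γ⁻¹ • o)
  have hfd := hfD f hf
  have hD0 : 0 ≤ D := (pm.nonneg _ _).trans hγ
  refine ⟨γ * f * η⁻¹, ?_⟩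
  unfold gp at hfK ⊢
  -- abbreviations
  have e1 : d o (γ⁻¹ • o) = d o (γ • o) := by
    rw [IMPl.mv' iso, inv_inv, pm.symm]
  have e2 : d o (f • η⁻¹ • o) = d (γ • o) ((γ * f * η⁻¹) • o) := by
    rw [mul_smul, mul_smul, iso]
  have e3 : d (γ⁻¹ • o) (f • η⁻¹ • o) = d o ((γ * f * η⁻¹) • o) := by
    rw [mul_smul, mul_smul, IMPl.mv' iso γ]
  rw [e1, e2, e3] at hfK
  have e4 : d o ((γ * f * η⁻¹)⁻¹ • o) = d o ((γ * f * η⁻¹) • o) := by
    rw [IMPl.mv' iso, inv_inv, pm.symm]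
  have t1 : d x ((γ * f * η⁻¹)⁻¹ • o) ≤ D + (D' + d o (γ • o)) := by
    have s1 := pm.tri x (η • o) ((γ * f * η⁻¹)⁻¹ • o)
    have s2 : d (η • o) ((γ * f * η⁻¹)⁻¹ • o) = d (f • o) (γ⁻¹ • o) := by
      have s3 : (γ * f * η⁻¹)⁻¹ • o = η • f⁻¹ • γ⁻¹ • o := by
        rw [smul_smul, smul_smul]
        congr 1
        group
      rw [s3, iso, IMPl.mv' iso, inv_inv]
    have s4 := pm.tri (f • o) o (γ⁻¹ • o)
    rw [e1, pm.symm (f • o) o] at s4
    rw [s2, pm.symm x (η • o)] at s1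
    linarith
  have t2 : d o x ≤ D + (D' + d (γ • o) ((γ * f * η⁻¹) • o)) := by
    have s1 := pm.tri o (η • o) x
    have s2 : d o (η • o) = d (f • η⁻¹ • o) (f • o) := by
      rw [iso, IMPl.mv' iso]
    have s3 := pm.tri (f • η⁻¹ • o) o (f • o)
    rw [pm.symm (f • η⁻¹ • o) o, e2] at s3
    linarith
  have t3 : d z ((γ * f * η⁻¹) • o) ≤ D + d (γ • o) ((γ * f * η⁻¹) • o) := by
    have s1 := pm.tri z (γ • o) ((γ * f * η⁻¹) • o)
    rw [pm.symm z (γ • o)] at s1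
    linarith
  have t4 : d o z ≤ d o (γ • o) + D := by
    have s1 := pm.tri o (γ • o) z
    linarith
  constructor
  · rw [e4]
    linarith
  · linarith

end Pool.Agent.LX
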