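import Pool.Agent.Work.MP_25cd3b_gt.LX.StmtsM

set_option autoImplicit false

/-!
# MP_25cd3b_gt, block LX (captain helper11), part M, item MStw (helper95): Stewart for every point
-/

open Set Filter Topology

namespace Pool.Agent.LX

open Pool.Agent.MLS (IsPM)

theorem pr_MStw : MStw := by
  intro X d κ hC x y z p hz
  have ha : 0 ≤ d x z := hC.pm.nonneg x z
  have hb : 0 ≤ d z y := hC.pm.nonneg z y
  obtain ⟨z', h1, h2, h3⟩ := hC.btw x y (d x z) (d z y) ha hb hz
  rcases eq_or_lt_of_le (add_nonneg ha hb) with h0 | h0
  · have ea : d x z = 0 := by linarith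
    have eb : d z y = 0 := by linarith
    rw [← hz, ea, eb]
    simp
  · have hS : 0 < Real.sinh (κ * (d x z + d z y)) := Real.sinh_pos_iff.2 (mul_pos hC.pos h0)
    have h4 := h3 z
    rw [hC.pm.symm z x] at h4
    have h5 : Real.sinh (κ * (d x z + d z y)) =
        Real.sinh (κ * d z y) * Real.cosh (κ * d x z) +
          Real.sinh (κ * d x z) * Real.cosh (κ * d z y) := by
      rw [mul_add, Real.sinh_add]; ring
    rw [← h5] at h4
    have h6 : Real.cosh (κ * d z z') ≤ 1 := by
      have : Real.sinh (κ * (d x z + d z y)) * Real.cosh (κ * d z z') ≤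
          Real.sinh (κ * (d x z + d z y)) * 1 := by rw [mul_one]; exact h4
      exact le_of_mul_le_mul_left this hS
    have h7 : d z z' = 0 := by
      by_contra hne
      have hk : κ * d z z' ≠ 0 := mul_ne_zero hC.pos.ne' hne
      have := Real.one_lt_cosh.2 hk
      linarith
    have h8 : d p z = d p z' := by
      have t1 := hC.pm.tri p z z'
      have t2 := hC.pm.tri p z' z
      have t3 := hC.pm.symm z' z
      linarith
    rw [h8, ← hz]
    exact h3 p

end Pool.Agent.LX
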