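import Pool.Agent.Work.MP_25cd3b_gt.LX.StmtsM

set_option autoImplicit false

/-!
# MP_25cd3b_gt, block LX (captain helper11), item MTa (helper59): same temporal displacement
-/

open Set Filter Topology

namespace Pool.Agent.LX

open Pool.Agent.MLS (IsPM)

namespace IMTa

variable {X : Type} {d : X → X → ℝ}

theorem gp_comm (hd : IsPM d) (o p q : X) : gp d o p q = gp d o q p := by
  unfold gp
  rw [hd.symm p q]
  ring

theorem gp_le (hd : IsPM d) (o p p' q : X) (r : ℝ) (h : d p p' ≤ r) :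
    gp d o p' q ≤ gp d o p q + r := by
  have h1 := hd.tri o p p'
  have h2 := hd.tri p p' q
  unfold gp
  linarith

theorem gp_le2 (hd : IsPM d) (o p p' q q' : X) (r : ℝ) (h : d p p' ≤ r) (h' : d q q' ≤ r) :
    gp d o p' q' ≤ gp d o p q + 2 * r := by
  have h1 := gp_le hd o p p' q' r h
  have h2 := gp_le hd o q q' p r h'
  rw [gp_comm hd o q' p, gp_comm hd o q p] at h2
  linarith

/-- four replacements -/
theorem four (hCt : MCt) {κ : ℝ} (hc : Cat d κ) (o x y z w x' y' z' w' : X) (T K r : ℝ)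
    (hr : 0 ≤ r) (h1 : T ≤ gp d o x x') (h2 : T ≤ gp d o y y') (h3 : T ≤ gp d o z z')
    (h4 : T ≤ gp d o w w') (k1 : gp d o x z ≤ K) (k2 : gp d o x w ≤ K) (k3 : gp d o y z ≤ K)
    (k4 : gp d o y w ≤ K) (r1 : d x x' ≤ r) (r2 : d y y' ≤ r) (r3 : d z z' ≤ r)
    (r4 : d w w' ≤ r) :
    |crd d x y z w - crd d x' y' z' w'| ≤
      4 * (6 / κ * Real.exp (-(κ * (T - 2 * (K + 2 * r))))) := by
  have hd := hc.pm
  have s : ∀ p : X, d p p ≤ r := fun p => by rw [hd.self]; exact hr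
  have g1 : ∀ p p' q q' : X, gp d o p q ≤ K → d p p' ≤ r → d q q' ≤ r →
      gp d o p' q' ≤ K + 2 * r := fun p p' q q' hk hp hq =>
    (gp_le2 hd o p p' q q' r hp hq).trans (by linarith)
  have g2 : ∀ p p' q q' : X, gp d o p q ≤ K → d p p' ≤ r → d q q' ≤ r →
      gp d o q' p' ≤ K + 2 * r := fun p p' q q' hk hp hq => by
    rw [gp_comm hd]
    exact g1 p p' q q' hk hp hq
  have A := hCt X d κ hc o x x' z w (K + 2 * r) T h1 (g1 x x z z k1 (s _) (s _))
    (g1 x x w w k2 (s _) (s _)) (g1 x x' z z k1 r1 (s _)) (g1 x x' w w k2 r1 (s _))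
  have B := hCt X d κ hc o y y' w z (K + 2 * r) T h2 (g1 y y w w k4 (s _) (s _))
    (g1 y y z z k3 (s _) (s _)) (g1 y y' w w k4 r2 (s _)) (g1 y y' z z k3 r2 (s _))
  have C := hCt X d κ hc o z z' x' y' (K + 2 * r) T h3 (g2 x x' z z k1 r1 (s _))
    (g2 y y' z z k3 r2 (s _)) (g2 x x' z z' k1 r1 r3) (g2 y y' z z' k3 r2 r3)
  have E := hCt X d κ hc o w w' y' x' (K + 2 * r) T h4 (g2 y y' w w k4 r2 (s _))
    (g2 x x' w w k2 r1 (s _)) (g2 y y' w w' k4 r2 r4) (g2 x x' w w' k2 r1 r4)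
  have e : crd d x y z w - crd d x' y' z' w' =
      crd d x x' z w + crd d y y' w z + crd d z z' x' y' + crd d w w' y' x' := by
    unfold crd
    rw [hd.symm z x', hd.symm z y', hd.symm w y', hd.symm w x', hd.symm z' y', hd.symm z' x',
      hd.symm w' x', hd.symm w' y']
    ring
  rw [e]
  have t1 := abs_add_le (crd d x x' z w + crd d y y' w z + crd d z z' x' y') (crd d w w' y' x')
  have t2 := abs_add_le (crd d x x' z w + crd d y y' w z) (crd d z z' x' y')
  have t3 := abs_add_le (crd d x x' z w) (crd d y y' w z)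
  linarith

theorem texp (κ s : ℝ) (hκ : 0 < κ) :
    Tendsto (fun R : ℝ => Real.exp (-(κ * (R - s)))) atTop (𝓝 0) := by
  have h1 : Tendsto (fun R : ℝ => R - s) atTop atTop := by
    have h2 : Tendsto (fun R : ℝ => R + -s) atTop atTop :=
      tendsto_atTop_add_const_right atTop (-s) tendsto_id
    simpa only [sub_eq_add_neg] using h2
  exact Real.tendsto_exp_neg_atTop_nhds_zero.comp (h1.const_mul_atTop hκ)

end IMTa

theorem pr_MTa (hEq : MEq) (hCt : MCt) (hTc : MTc) : MTa := by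
  intro G X _ _ d1 d2 κ ℓ hA1 hA2 a c c2 l hc hc2 hF D hD hcc α β α2 β2 k τ hα hβ hα2 hβ2 hαα hββ
    hαc hβc hα2c hβ2c hT
  have p1 := hA1.cat.pm
  have p2 := hA2.cat.pm
  have hκ := hA1.cat.pos
  have hD0 : 0 ≤ D := (abs_nonneg _).trans (hD (c 0) (c 0))
  have hl := hc.pos
  have hkl : 0 ≤ (k : ℝ) * l := by positivity
  -- constants
  obtain ⟨b1, hb1⟩ : ∃ b1, b1 = d1 (c 0) (α 0) := ⟨_, rfl⟩
  obtain ⟨b2, hb2⟩ : ∃ b2, b2 = d1 (c 0) (a ^ k • β 0) := ⟨_, rfl⟩
  have hb10 : 0 ≤ b1 := hb1 ▸ p1.nonneg _ _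
  have hb20 : 0 ≤ b2 := hb2 ▸ p1.nonneg _ _
  obtain ⟨K, hK⟩ : ∃ K, K = (b1 + b2 + |τ| + 1) / 2 := ⟨_, rfl⟩
  obtain ⟨R₀, C, hE⟩ := hEq G X d1 d2 κ ℓ hA1 hA2 (c 0) hF D hD K
  have hper : ∀ (j : ℕ) (t : ℝ), c (t + j * l) = a ^ j • c t := by
    intro j
    induction j with
    | zero => intro t; simp
    | succ j ih =>
      intro t
      have e1 : t + ((j + 1 : ℕ) : ℝ) * l = (t + j * l) + l := by
        push_cast
        ring
      rw [e1, hc.per, ih, pow_succ', mul_smul]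
  -- eventual estimates
  have ev1 : ∀ᶠ R in atTop, τ - 1 < d1 (α (-R)) (a ^ k • β R) - 2 * R - k * l :=
    hT.eventually (lt_mem_nhds (by linarith))
  have ev2 : ∀ᶠ R in atTop, d1 (α R) (c R) < 1 := hαc.eventually (gt_mem_nhds one_pos)
  have ev3 : ∀ᶠ R in atTop, d1 (β (-(R + k * l))) (c (-(R + k * l))) < 1 :=
    (hβc.comp (tendsto_atTop_add_const_right atTop ((k : ℝ) * l) tendsto_id)).eventually
      (gt_mem_nhds one_pos)
  have hbound : ∀ᶠ R in atTop,
      ‖crd d1 (α (-R)) (c (-R)) (a ^ k • β R) (c R) -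
        crd d2 (α2 (-R)) (c2 (-R)) (a ^ k • β2 R) (c2 R)‖ ≤
      C * Real.exp (-(κ * (R - (b1 + b2)))) +
        4 * (6 / κ * Real.exp (-(κ * (R - (b1 + b2 + 2 * D + 2 * (K + 3 / 2 * D + 2 * D)))))) := by
    filter_upwards [ev1, ev2, ev3, eventually_ge_atTop (max 0 (R₀ + (b1 + b2)))] with R e1 e2 e3 e4
    have hR0 : 0 ≤ R := (le_max_left _ _).trans e4
    have hR1 : R₀ ≤ R - (b1 + b2) := by
      have := (le_max_right _ _).trans e4
      linarith
    -- distances from o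
    have hoy : d1 (c 0) (c (-R)) = R := by
      rw [hc.ln, zero_sub, neg_neg, abs_of_nonneg hR0]
    have how : d1 (c 0) (c R) = R := by
      rw [hc.ln, zero_sub, abs_neg, abs_of_nonneg hR0]
    have hαR : d1 (α 0) (α (-R)) = R := by
      rw [hα, zero_sub, neg_neg, abs_of_nonneg hR0]
    have hβR : d1 (a ^ k • β 0) (a ^ k • β R) = R := by
      rw [hA1.iso, hβ, zero_sub, abs_neg, abs_of_nonneg hR0]
    have hox1 : d1 (c 0) (α (-R)) ≤ b1 + R := by
      have := p1.tri (c 0) (α 0) (α (-R))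
      rw [hαR, ← hb1] at this
      exact this
    have hox2 : R - b1 ≤ d1 (c 0) (α (-R)) := by
      have := p1.tri (α 0) (c 0) (α (-R))
      rw [hαR, p1.symm (α 0) (c 0), ← hb1] at this
      linarith
    have hoz1 : d1 (c 0) (a ^ k • β R) ≤ b2 + R := by
      have := p1.tri (c 0) (a ^ k • β 0) (a ^ k • β R)
      rw [hβR, ← hb2] at this
      exact this
    have hoz2 : R - b2 ≤ d1 (c 0) (a ^ k • β R) := by
      have := p1.tri (a ^ k • β 0) (c 0) (a ^ k • β R)
      rw [hβR, p1.symm (a ^ k • β 0) (c 0), ← hb2] at this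
      linarith
    -- products for d1
    have hτ := neg_abs_le τ
    have k1 : gp d1 (c 0) (α (-R)) (a ^ k • β R) ≤ K := by
      unfold gp
      rw [hK]
      linarith
    have k2 : gp d1 (c 0) (α (-R)) (c R) ≤ K := by
      have h1 := p1.tri (α (-R)) (c R) (α R)
      have h2 : d1 (α (-R)) (α R) = 2 * R := by
        rw [hα, abs_sub_comm, sub_neg_eq_add, abs_of_nonneg (by linarith)]
        ring
      rw [h2, p1.symm (c R) (α R)] at h1
      have h3 := abs_nonneg τ
      unfold gp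
      rw [hK, how]
      linarith
    have k3 : gp d1 (c 0) (c (-R)) (a ^ k • β R) ≤ K := by
      have h0 : c (-R) = a ^ k • c (-(R + k * l)) := by
        rw [← hper]
        congr 1
        ring
      have h1 := p1.tri (β (-(R + k * l))) (c (-(R + k * l))) (β R)
      have h2 : d1 (β (-(R + k * l))) (β R) = 2 * R + k * l := by
        rw [hβ, abs_sub_comm, sub_neg_eq_add, abs_of_nonneg (by linarith)]
        ring
      have h4 : d1 (c (-R)) (a ^ k • β R) = d1 (c (-(R + k * l))) (β R) := by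
        rw [h0, hA1.iso]
      rw [h2] at h1
      have h3 := abs_nonneg τ
      unfold gp
      rw [hK, hoy, h4]
      linarith
    have k4 : gp d1 (c 0) (c (-R)) (c R) ≤ K := by
      have h2 : d1 (c (-R)) (c R) = 2 * R := by
        rw [hc.ln, abs_sub_comm, sub_neg_eq_add, abs_of_nonneg (by linarith)]
        ring
      have h3 := abs_nonneg τ
      unfold gp
      rw [hK, hoy, how, h2]
      linarith
    have m1 := hE (R - (b1 + b2)) (α (-R)) (c (-R)) (a ^ k • β R) (c R) hR1 (by linarith)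
      (by linarith) (by linarith) (by linarith) k1 k2 k3 k4
    -- products for d2
    have gg : ∀ p q : X, gp d2 (c 0) p q ≤ gp d1 (c 0) p q + 3 / 2 * D := by
      intro p q
      have h1 := (abs_le.1 (hD (c 0) p)).1
      have h2 := (abs_le.1 (hD (c 0) q)).1
      have h3 := (abs_le.1 (hD p q)).2
      unfold gp
      linarith
    have tt : ∀ p p' : X, R - (b1 + b2) ≤ d1 (c 0) p → d2 p p' ≤ D →
        R - (b1 + b2 + 2 * D) ≤ gp d2 (c 0) p p' := by
      intro p p' hp hpp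
      have h1 := (abs_le.1 (hD (c 0) p)).2
      have h2 := p2.tri (c 0) p' p
      rw [p2.symm p' p] at h2
      unfold gp
      linarith
    have hzz : d2 (a ^ k • β R) (a ^ k • β2 R) ≤ D := by
      rw [hA2.iso]
      exact hββ R
    have m2 := IMTa.four hCt hA2.cat (c 0) (α (-R)) (c (-R)) (a ^ k • β R) (c R) (α2 (-R))
      (c2 (-R)) (a ^ k • β2 R) (c2 R) (R - (b1 + b2 + 2 * D)) (K + 3 / 2 * D) D hD0
      (tt _ _ (by linarith) (hαα _)) (tt _ _ (by linarith) (hcc _)) (tt _ _ (by linarith) hzz)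
      (tt _ _ (by linarith) (hcc _)) ((gg _ _).trans (by linarith)) ((gg _ _).trans (by linarith))
      ((gg _ _).trans (by linarith)) ((gg _ _).trans (by linarith)) (hαα _) (hcc _) hzz (hcc _)
    have e5 : R - (b1 + b2 + 2 * D) - 2 * (K + 3 / 2 * D + 2 * D) =
        R - (b1 + b2 + 2 * D + 2 * (K + 3 / 2 * D + 2 * D)) := by ring
    rw [e5] at m2
    rw [Real.norm_eq_abs]
    have t1 := abs_sub_le (crd d1 (α (-R)) (c (-R)) (a ^ k • β R) (c R))
      (crd d2 (α (-R)) (c (-R)) (a ^ k • β R) (c R))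
      (crd d2 (α2 (-R)) (c2 (-R)) (a ^ k • β2 R) (c2 R))
    exact t1.trans (add_le_add m1 m2)
  have hlim : Tendsto (fun R => C * Real.exp (-(κ * (R - (b1 + b2)))) +
      4 * (6 / κ * Real.exp (-(κ * (R - (b1 + b2 + 2 * D + 2 * (K + 3 / 2 * D + 2 * D)))))))
      atTop (𝓝 0) := by
    have h1 := (IMTa.texp κ (b1 + b2) hκ).const_mul C
    have h2 := ((IMTa.texp κ (b1 + b2 + 2 * D + 2 * (K + 3 / 2 * D + 2 * D)) hκ).const_mul
      (6 / κ)).const_mul 4
    have h3 := h1.add h2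
    rwa [mul_zero, mul_zero, mul_zero, add_zero] at h3
  have hδ := squeeze_zero_norm' hbound hlim
  have c1 := hTc G X d1 p1 hA1.iso a α β c k l hα hβ hc.ln hc.per hαc hβc
  have c2' := hTc G X d2 p2 hA2.iso a α2 β2 c2 k l hα2 hβ2 hc2.ln hc2.per hα2c hβ2c
  unfold Tdi at hT ⊢
  have h1 := ((hT.add c1).sub hδ).sub c2'
  rw [add_zero, sub_zero, sub_zero] at h1
  refine h1.congr fun R => ?_
  ring

end Pool.Agent.LX
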