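import Pool.Agent.Work.MP_25cd3b_gt.LX.StmtsM

set_option autoImplicit false

/-!
# MP_25cd3b_gt, block LX (captain helper11), part M, item MTc (helper42): the temporal displacement
as a limit of cross differences
-/

open Set Filter Topology

namespace Pool.Agent.LX

open Pool.Agent.MLS (IsPM)

namespace IMTc

theorem per_pow {G X : Type} [Group G] [MulAction G X] {a : G} {c : ℝ → X} {l : ℝ}
    (h : ∀ t, c (t + l) = a • c t) (k : ℕ) : ∀ t, c (t + k * l) = a ^ k • c t := by
  induction k with
  | zero => intro t; simp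
  | succ k ih =>
    intro t
    have h1 : t + ((k + 1 : ℕ) : ℝ) * l = (t + l) + k * l := by push_cast; ring
    rw [h1, ih (t + l), h t, smul_smul, pow_succ]

theorem abs_sub_le' {X : Type} {d : X → X → ℝ} (h : IsPM d) (x y z : X) :
    |d x y - d x z| ≤ d y z := by
  rw [abs_le]
  have h1 := h.tri x y z
  have h2 := h.tri x z y
  rw [h.symm z y] at h2
  constructor <;> linarith

end IMTc

open IMTc in
theorem pr_MTc : MTc := by
  intro G X _ _ d hd hiso a α β c k l hα hβ hc hper hA hB
  have hper' := per_pow hper k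
  have hB' : Tendsto (fun R : ℝ => d (β (-(R + k * l))) (c (-(R + k * l)))) atTop (𝓝 0) :=
    hB.comp (tendsto_atTop_add_const_right atTop ((k : ℝ) * l) tendsto_id)
  have hsum : Tendsto (fun R : ℝ => d (α R) (c R) + d (β (-(R + k * l))) (c (-(R + k * l))))
      atTop (𝓝 0) := by
    have := Tendsto.add hA hB'
    rwa [add_zero] at this
  refine squeeze_zero_norm' ?_ hsum
  filter_upwards [eventually_ge_atTop |(k : ℝ) * l|] with R hR
  have hR0 : 0 ≤ R := (abs_nonneg _).trans hR
  have hR1 : 0 ≤ 2 * R + k * l := by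
    have := neg_abs_le ((k : ℝ) * l)
    linarith
  have e1 : d (c (-R)) (c R) = 2 * R := by
    rw [hc, abs_sub_comm, abs_of_nonneg (by linarith)]; ring
  have e2 : d (α (-R)) (α R) = 2 * R := by
    rw [hα, abs_sub_comm, abs_of_nonneg (by linarith)]; ring
  have e3 : d (β (-(R + k * l))) (β R) = 2 * R + k * l := by
    rw [hβ, abs_sub_comm]
    have : R - -(R + (k : ℝ) * l) = 2 * R + k * l := by ring
    rw [this, abs_of_nonneg hR1]
  have e4 : d (c (-R)) (a ^ k • β R) = d (c (-(R + k * l))) (β R) := by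
    have h1 : c (-R) = a ^ k • c (-(R + k * l)) := by
      rw [← hper']
      congr 1
      ring
    rw [h1, hiso]
  have b1 := abs_sub_le' hd (α (-R)) (α R) (c R)
  have b2 := abs_sub_le' hd (β R) (β (-(R + k * l))) (c (-(R + k * l)))
  rw [e2] at b1
  rw [hd.symm (β R) (β (-(R + k * l))), e3, hd.symm (β R) (c (-(R + k * l)))] at b2
  rw [Real.norm_eq_abs]
  have e5 : crd d (α (-R)) (c (-R)) (a ^ k • β R) (c R) -
      (d (α (-R)) (a ^ k • β R) - 2 * R - k * l) =
      (2 * R - d (α (-R)) (c R)) + (2 * R + k * l - d (c (-(R + k * l))) (β R)) := by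
    unfold crd
    rw [e1, e4]
    ring
  rw [e5]
  exact (abs_add_le _ _).trans (add_le_add b1 b2)

end Pool.Agent.LX
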