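import Pool.Agent.Work.MP_25cd3b_gt.LX.StmtsM

set_option autoImplicit false

/-!
# MP_25cd3b_gt, block LX, part M, item MTl: translation lengths and cross differences
-/

open Set Filter Topology

namespace Pool.Agent.LX

open Pool.Agent.MLS (IsPM)

namespace IMTl

/-- A sequence whose increments are almost `D` grows with the rate `D`. -/
theorem lim_bound (f : ℕ → ℝ) (D E l : ℝ) (h : ∀ j, |f (j + 2) - f (j + 1) - D| ≤ E)
    (hl : Tendsto (fun i : ℕ => f i / i) atTop (𝓝 l)) : |l - D| ≤ E := by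
  have h1 : ∀ n : ℕ, |f (n + 1) - f 1 - n * D| ≤ n * E := by
    intro n
    induction n with
    | zero => simp
    | succ n ih =>
      have h2 := h n
      rw [abs_le] at ih h2 ⊢
      push_cast
      constructor <;> linarith [ih.1, ih.2, h2.1, h2.2]
  have h3 : Tendsto (fun n : ℕ => (n : ℝ) / ((n : ℝ) + 1)) atTop (𝓝 1) :=
    tendsto_natCast_div_add_atTop 1
  have h4 : Tendsto (fun n : ℕ => f 1 / ((n : ℝ) + 1)) atTop (𝓝 0) := by
    have := (tendsto_one_div_add_atTop_nhds_zero_nat (𝕜 := ℝ)).const_mul (f 1)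
    rw [mul_zero] at this
    exact this.congr (fun n => by rw [mul_one_div])
  have h5 : Tendsto (fun n : ℕ => f (n + 1) / ((n : ℝ) + 1)) atTop (𝓝 l) := by
    have := (tendsto_add_atTop_iff_nat 1).2 hl
    simpa using this
  have h6 : Tendsto (fun n : ℕ => |f (n + 1) / ((n : ℝ) + 1) - f 1 / ((n : ℝ) + 1) -
      (n : ℝ) / ((n : ℝ) + 1) * D|) atTop (𝓝 |l - 0 - 1 * D|) :=
    ((h5.sub h4).sub (h3.mul_const D)).abs
  have h7 := h3.mul_const E
  have h8 : |l - 0 - 1 * D| ≤ 1 * E := by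
    refine le_of_tendsto_of_tendsto' h6 h7 (fun n => ?_)
    have hn : (0 : ℝ) < (n : ℝ) + 1 := by positivity
    have e1 : f (n + 1) / ((n : ℝ) + 1) - f 1 / ((n : ℝ) + 1) - (n : ℝ) / ((n : ℝ) + 1) * D =
        (f (n + 1) - f 1 - n * D) / ((n : ℝ) + 1) := by
      field_simp
    have e2 : (n : ℝ) / ((n : ℝ) + 1) * E = (n * E) / ((n : ℝ) + 1) := by ring
    rw [e1, e2, abs_div, abs_of_pos hn]
    exact div_le_div_of_nonneg_right (h1 n) hn.le
  rw [sub_zero, one_mul, one_mul] at h8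
  exact h8

section

variable {G X : Type} [Group G] [MulAction G X] {d : X → X → ℝ} {κ : ℝ} {ℓ : G → ℝ}

theorem gp_smul (iso : ∀ (a : G) (x y : X), d (a • x) (a • y) = d x y) (a : G) (o x y : X) :
    gp d (a • o) (a • x) (a • y) = gp d o x y := by
  unfold gp
  rw [iso, iso, iso]

theorem inv_dist (iso : ∀ (a : G) (x y : X), d (a • x) (a • y) = d x y) (p : G) (o : X) :
    d (p⁻¹ • o) o = d o (p • o) := by
  have h := iso p (p⁻¹ • o) o
  rw [smul_inv_smul] at h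
  exact h.symm

theorem single (act : Act G d κ ℓ) (K R E : ℝ)
    (h : ∀ y : ℕ → X, (∀ j, R ≤ d (y j) (y (j + 1))) →
      (∀ j, gp d (y (j + 1)) (y j) (y (j + 2)) ≤ K) → ∀ j,
      |d (y 0) (y (j + 2)) - d (y 0) (y (j + 1)) - (d (y j) (y (j + 2)) - d (y j) (y (j + 1)))| ≤ E)
    (o : X) (p : G) (hp : R ≤ d o (p • o)) (hgp : gp d o (p⁻¹ • o) (p • o) ≤ K) :
    |ℓ p - (d (p⁻¹ • o) (p • o) - d o (p • o))| ≤ E := by
  have iso := act.iso
  have e1 : ∀ j : ℕ, p ^ j • o = p ^ (j + 1) • (p⁻¹ • o) := by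
    intro j
    rw [smul_smul, pow_succ, mul_assoc, mul_inv_cancel, mul_one]
  have e2 : ∀ j : ℕ, p ^ (j + 1) • o = p ^ j • (p • o) := by
    intro j
    rw [pow_succ, mul_smul]
  have hy := h (fun j => p ^ j • o)
    (fun j => by
      show R ≤ d (p ^ j • o) (p ^ (j + 1) • o)
      rw [e2 j, iso]
      exact hp)
    (fun j => by
      show gp d (p ^ (j + 1) • o) (p ^ j • o) (p ^ (j + 2) • o) ≤ K
      rw [e1 j, e2 (j + 1), gp_smul iso]
      exact hgp)
  refine lim_bound (fun j => d o (p ^ j • o)) _ E (ℓ p) (fun j => ?_) (act.len p o)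
  have hj := hy j
  simp only [pow_zero, one_smul] at hj
  have f1 : d (p ^ j • o) (p ^ (j + 2) • o) = d (p⁻¹ • o) (p • o) := by
    rw [e1 j, e2 (j + 1), iso]
  have f2 : d (p ^ j • o) (p ^ (j + 1) • o) = d o (p • o) := by
    rw [e2 j, iso]
  rw [f1, f2] at hj
  exact hj

/-- The sequence for the product. -/
def seq (p q : G) (o : X) (j : ℕ) : X :=
  if j % 2 = 0 then (p * q) ^ (j / 2) • o else ((p * q) ^ (j / 2) * p) • o

theorem seq_even (p q : G) (o : X) (i : ℕ) : seq p q o (2 * i) = (p * q) ^ i • o := by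
  unfold seq
  rw [if_pos (by omega), show 2 * i / 2 = i by omega]

theorem seq_odd (p q : G) (o : X) (i : ℕ) : seq p q o (2 * i + 1) = ((p * q) ^ i * p) • o := by
  unfold seq
  rw [if_neg (by omega), show (2 * i + 1) / 2 = i by omega]

theorem prod_case (act : Act G d κ ℓ) (K R E : ℝ)
    (h : ∀ y : ℕ → X, (∀ j, R ≤ d (y j) (y (j + 1))) →
      (∀ j, gp d (y (j + 1)) (y j) (y (j + 2)) ≤ K) → ∀ j,
      |d (y 0) (y (j + 2)) - d (y 0) (y (j + 1)) - (d (y j) (y (j + 2)) - d (y j) (y (j + 1)))| ≤ E)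
    (o : X) (p q : G) (hp : R ≤ d o (p • o)) (hq : R ≤ d o (q • o))
    (hg1 : gp d o (p⁻¹ • o) (q • o) ≤ K) (hg2 : gp d o (q⁻¹ • o) (p • o) ≤ K) :
    |ℓ (p * q) - (d (p⁻¹ • o) (q • o) - d o (p • o) + (d (q⁻¹ • o) (p • o) - d o (q • o)))| ≤
      2 * E := by
  have iso := act.iso
  have e1 : ∀ i : ℕ, (p * q) ^ i • o = ((p * q) ^ i * p) • (p⁻¹ • o) := by
    intro i
    rw [smul_smul, mul_assoc, mul_inv_cancel, mul_one]
  have e2 : ∀ i : ℕ, (p * q) ^ (i + 1) • o = ((p * q) ^ i * p) • (q • o) := by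
    intro i
    rw [smul_smul, pow_succ, mul_assoc]
  have e3 : ∀ i : ℕ, ((p * q) ^ i * p) • o = (p * q) ^ (i + 1) • (q⁻¹ • o) := by
    intro i
    rw [smul_smul, pow_succ, mul_assoc, mul_assoc, mul_inv_cancel, mul_one]
  have e4 : ∀ i : ℕ, ((p * q) ^ i * p) • o = (p * q) ^ i • (p • o) := by
    intro i
    rw [mul_smul]
  have s0 : ∀ i, seq p q o (2 * i) = (p * q) ^ i • o := seq_even p q o
  have s1 : ∀ i, seq p q o (2 * i + 1) = ((p * q) ^ i * p) • o := seq_odd p q o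
  have s2 : ∀ i, seq p q o (2 * i + 2) = (p * q) ^ (i + 1) • o := fun i => seq_even p q o (i + 1)
  have s3 : ∀ i, seq p q o (2 * i + 3) = ((p * q) ^ (i + 1) * p) • o := fun i =>
    seq_odd p q o (i + 1)
  -- distances
  have d01 : ∀ i, d (seq p q o (2 * i)) (seq p q o (2 * i + 1)) = d o (p • o) := by
    intro i
    rw [s0, s1, e4, iso]
  have d12 : ∀ i, d (seq p q o (2 * i + 1)) (seq p q o (2 * i + 2)) = d o (q • o) := by
    intro i
    rw [s1, s2, e2, iso]
  have d02 : ∀ i, d (seq p q o (2 * i)) (seq p q o (2 * i + 2)) = d (p⁻¹ • o) (q • o) := by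
    intro i
    rw [s0, s2, e1, e2, iso]
  have d13 : ∀ i, d (seq p q o (2 * i + 1)) (seq p q o (2 * i + 3)) = d (q⁻¹ • o) (p • o) := by
    intro i
    rw [s1, s3, e3, e4, iso]
  have hy := h (seq p q o)
    (fun j => by
      obtain ⟨i, rfl | rfl⟩ := Nat.even_or_odd' j
      · rw [d01]
        exact hp
      · rw [show 2 * i + 1 + 1 = 2 * i + 2 by ring, d12]
        exact hq)
    (fun j => by
      obtain ⟨i, rfl | rfl⟩ := Nat.even_or_odd' j
      · rw [s1, s0, s2, e1, e2, gp_smul iso]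
        exact hg1
      · rw [show 2 * i + 1 + 1 = 2 * i + 2 by ring, show 2 * i + 1 + 2 = 2 * i + 3 by ring, s1, s2,
          s3, e3, e4, gp_smul iso]
        exact hg2)
  have hs0 : seq p q o 0 = o := by
    have := seq_even p q o 0
    rw [pow_zero, one_smul] at this
    exact this
  refine lim_bound (fun j => d o ((p * q) ^ j • o)) _ (2 * E) (ℓ (p * q)) (fun n => ?_)
    (act.len (p * q) o)
  have h1 := hy (2 * n + 1)
  have h2 := hy (2 * (n + 1))
  rw [show 2 * n + 1 + 2 = 2 * n + 3 by ring, show 2 * n + 1 + 1 = 2 * n + 2 by ring, d13, d12,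
    hs0] at h1
  rw [d02, d01, hs0] at h2
  have t1 : seq p q o (2 * (n + 1) + 2) = (p * q) ^ (n + 2) • o := s2 (n + 1)
  have t2 : seq p q o (2 * (n + 1) + 1) = seq p q o (2 * n + 3) := by
    rw [show 2 * (n + 1) + 1 = 2 * n + 3 by ring]
  rw [t1, t2] at h2
  rw [s2 n] at h1
  show |d o ((p * q) ^ (n + 2) • o) - d o ((p * q) ^ (n + 1) • o) - _| ≤ 2 * E
  rw [abs_le] at h1 h2 ⊢
  constructor <;> linarith [h1.1, h1.2, h2.1, h2.2]

end

end IMTl

open IMTl in
theorem pr_MTl (h1 : MChn) : MTl := by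
  intro κ K hκ
  obtain ⟨R₀, C, hC, h⟩ := h1 κ K hκ
  refine ⟨R₀, 4 * C, by positivity, ?_⟩
  intro G X _ _ d ℓ act R o p q hR hp hgp
  have hE : 0 < C * Real.exp (-(κ * R)) := mul_pos hC (Real.exp_pos _)
  have hch : ∀ y : ℕ → X, (∀ j, R ≤ d (y j) (y (j + 1))) →
      (∀ j, gp d (y (j + 1)) (y j) (y (j + 2)) ≤ K) → ∀ j,
      |d (y 0) (y (j + 2)) - d (y 0) (y (j + 1)) - (d (y j) (y (j + 2)) - d (y j) (y (j + 1)))| ≤
        C * Real.exp (-(κ * R)) :=
    fun y hy1 hy2 j => (h X d act.cat R y hR hy1 hy2 j).1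
  have hs1 := single act K R _ hch o p hp hgp
  refine ⟨?_, ?_⟩
  · refine hs1.trans ?_
    rw [mul_assoc]
    linarith
  · intro hq hgq hg1 hg2
    have hs2 := single act K R _ hch o q hq hgq
    have hs3 := prod_case act K R _ hch o p q hp hq hg1 hg2
    unfold crd
    rw [mul_assoc]
    rw [abs_le] at hs1 hs2 hs3 ⊢
    constructor <;> linarith [hs1.1, hs1.2, hs2.1, hs2.2, hs3.1, hs3.2]

end Pool.Agent.LX
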