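import Pool.Agent.Work.MP_25cd3b_gt.LX.StmtsR

set_option autoImplicit false

/-!
# Item RAct: the action
-/

open MeasureTheory Set Filter Topology
open scoped ContDiff ENNReal
open Pool.Agent.Work.MP_c9f990_an.Al (IsFlow)

namespace Pool.Agent.LX

open Pool.Agent.MLS Pool.Agent.STR Pool.Agent.LR

theorem pr_RAct (h1 : RCat) (h2 : RLen) (h3 : StInvD) (h4 : StProp) (h5 : StCtsD)
    (h6 : StFlow) : RAct := by
  intro n G _ _ hC g κ hR hI hκ hcurv
  have hiso : ∀ (a : G) (x y : E n), gd g (a • x) (a • y) = gd g x y := (h3 n G hC g hI).2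
  refine ⟨h1 n g κ ⟨hR, hκ, hcurv, h6 n G hC g hR hI⟩, hiso, ?_, ?_, ?_⟩
  · obtain ⟨K, hK, hGK⟩ := hC.cocompact
    obtain ⟨D, hD⟩ := (hK.prod hK).exists_bound_of_continuousOn (h5 n g).continuousOn
    refine ⟨D, fun x y => ?_⟩
    obtain ⟨a, ha⟩ := hGK x
    obtain ⟨b, hb⟩ := hGK y
    refine ⟨b⁻¹ * a, ?_⟩
    have e1 : gd g ((b⁻¹ * a) • x) y = gd g (a • x) (b • y) := by
      have e2 := hiso b⁻¹ (a • x) (b • y)
      rwa [inv_smul_smul, smul_smul] at e2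
    rw [e1]
    exact (le_abs_self _).trans (hD (a • x, b • y) ⟨ha, hb⟩)
  · intro x r
    obtain ⟨K', hK', hx⟩ := h4 n G hC g hR hI {x} r isCompact_singleton
    refine (hC.proper (K' ∪ {x}) (hK'.union isCompact_singleton)).subset ?_
    intro a ha
    exact ⟨a • x, ⟨x, Or.inr rfl, rfl⟩, Or.inl (hx x rfl _ ha)⟩
  · exact h2 n G hC g κ hR hI hκ hcurv

end Pool.Agent.LX
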