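import Pool.Agent.Work.MP_25cd3b_gt.LX.StmtsR

set_option autoImplicit false

/-!
# Item RBk: the past of two forward asymptotic geodesics
-/

open MeasureTheory Set Filter Topology
open scoped ContDiff ENNReal
open Pool.Agent.Work.MP_c9f990_an.Al (IsFlow)

namespace Pool.Agent.LX

open Pool.Agent.MLS Pool.Agent.STR Pool.Agent.LR

namespace IRBk

theorem hc_id (n : ℕ) (G : Type) [Group G] [MulAction G (E n)] (g : Form n) :
    Hc (MonoidHom.id G) g g (id : W n → W n) :=
  ⟨fun _ hp => hp, continuousOn_id, fun c hc => ⟨c, hc, fun _ => rfl⟩, fun _ _ _ => rfl⟩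

end IRBk

theorem pr_RBk (h1 : CTr) (h2 : StUG) : RBk := by
  intro n G _ _ hco g κ hcv hinv N
  induction N with
  | zero =>
    intro ε hε
    refine ⟨ε, hε, fun α c _ _ h t ht => h t ?_⟩
    simpa using ht
  | succ N ih =>
    intro ε hε
    obtain ⟨δ₁, hδ₁, htr⟩ := (h1 n G hco (MonoidHom.id G) g g κ id hcv hinv hcv.riem hinv
      (IRBk.hc_id n G g)).1 ε hε
    obtain ⟨δ, hδ, hN⟩ := ih δ₁ hδ₁
    refine ⟨δ, hδ, fun α c hα hc h t ht => ?_⟩
    have hα' : UG g fun t => α (t + -(N : ℝ)) := (h2 n g α hα).1 _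
    have hc' : UG g fun t => c (t + -(N : ℝ)) := (h2 n g c hc).1 _
    have h3 := (htr _ _ (fun t => α (t + -(N : ℝ))) (fun t => c (t + -(N : ℝ))) hα' hc'
      (fun _ => rfl) (fun _ => rfl)).1 (fun s hs => hN α c hα hc h (s + -(N : ℝ)) (by linarith))
      (t + N) (by push_cast at ht; linarith)
    simpa using h3

end Pool.Agent.LX
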