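import Pool.Agent.Work.MP_25cd3b_gt.LX.StmtsR
import Pool.Agent.Work.MP_25cd3b_gt.NG.All

set_option autoImplicit false

/-!
# MP_25cd3b_gt, block LX, item RCat: the metric space of a metric of negative curvature
-/

open MeasureTheory Set Filter Topology
open scoped ContDiff ENNReal
open Pool.Agent.Work.MP_c9f990_an.Al (IsFlow)

namespace Pool.Agent.LX

open Pool.Agent.MLS Pool.Agent.STR Pool.Agent.LR

theorem pr_RCat (h1 : StCvG) (h2 : StStew) : RCat := by
  intro n g κ hC
  have hpm := (pr_Gd n g).2.1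
  refine ⟨hpm, hC.pos, ?_⟩
  intro x y a b ha hb hab
  by_cases hxy : x = y
  · rw [← hxy, hpm.self] at hab
    have ha0 : a = 0 := by linarith
    have hb0 : b = 0 := by linarith
    refine ⟨x, ?_, ?_, ?_⟩
    · rw [hpm.self, ha0]
    · rw [← hxy, hpm.self, hb0]
    · intro p
      rw [ha0, hb0, add_zero, mul_zero, Real.sinh_zero, zero_mul, zero_mul, add_zero]
  · obtain ⟨-, h3, h4⟩ := h1 n g κ hC
    obtain ⟨σ, hσ, hσ0, hσ1, -⟩ := h4 x y hxy
    have hy : σ (a + b) = y := by rw [hab, hσ1]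
    refine ⟨σ a, ?_, ?_, ?_⟩
    · rw [← hσ0, h3 σ hσ, zero_sub, abs_neg, abs_of_nonneg ha]
    · rw [← hy, h3 σ hσ, sub_add_cancel_left, abs_neg, abs_of_nonneg hb]
    · intro p
      have := h2 n g κ hC σ hσ p a a b ha hb
      rwa [sub_self, hσ0, hy] at this

end Pool.Agent.LX
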