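import Pool.Agent.Work.MP_25cd3b_gt.LX.StmtsR

set_option autoImplicit false

/-!
# MP_25cd3b_gt, block LX (captain helper11), part R, item RDim (helper42): dimensions
-/

open MeasureTheory Set Filter Topology
open scoped ContDiff ENNReal
open Pool.Agent.Work.MP_c9f990_an.Al (IsFlow)

namespace Pool.Agent.LX

open Pool.Agent.MLS Pool.Agent.STR Pool.Agent.LR

theorem pr_RDim : RDim := by
  intro n G _ _ g1 g2 κ₁ κ₂ φ₁ φ₂ M₁ M₂ lg₁ lg₂ a c₁ c₂ l V₁ V₂ h1 h2 hv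
  obtain ⟨v, hv, hv0⟩ := hv
  have hf1 : g1.val (c₁ 0) (deriv c₁ 0) v = 0 := (h1.mem v).1 hv
  have hu1 : g1.val (c₁ 0) (deriv c₁ 0) (deriv c₁ 0) = 1 := h1.ug.unit 0
  by_cases hz : g2.val (c₂ 0) (deriv c₂ 0) v = 0
  · exact ⟨v, (h2.mem v).2 hz, hv0⟩
  · refine ⟨deriv c₁ 0 - (g2.val (c₂ 0) (deriv c₂ 0) (deriv c₁ 0) /
      g2.val (c₂ 0) (deriv c₂ 0) v) • v, (h2.mem _).2 ?_, ?_⟩
    · rw [map_sub, map_smul, smul_eq_mul, div_mul_cancel₀ _ hz, sub_self]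
    · intro h
      have h3 := congrArg (g1.val (c₁ 0) (deriv c₁ 0)) h
      rw [map_sub, map_smul, hf1, hu1, smul_zero, sub_zero, map_zero] at h3
      exact one_ne_zero h3

end Pool.Agent.LX
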