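import Pool.Agent.Work.MP_25cd3b_gt.LX.StmtsR

set_option autoImplicit false

/-!
# MP_25cd3b_gt, block LX, item RFin: the conclusion for equal marked length spectra
(the auxiliary lemmas are copied from `I_FMain.lean`)
-/

open MeasureTheory Set Filter Topology
open scoped ContDiff ENNReal
open Pool.Agent.Work.MP_c9f990_an.Al (IsFlow)

namespace Pool.Agent.LX

open Pool.Agent.MLS Pool.Agent.STR Pool.Agent.LR

namespace IRFin

/-- A rate below a rate is a rate. -/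
theorem gr_mono {V : Type} [NormedAddCommGroup V] [NormedSpace ℝ V] {H : Bf V} {s t : ℝ}
    (h : Gr H s) (hts : t ≤ s) : Gr H t := by
  obtain ⟨C, hC⟩ := h
  refine ⟨|C|, fun k Y z hY hY0 => (hC k Y z hY hY0).trans ?_⟩
  have h1 : C * Real.exp (-(s * k)) ≤ |C| * Real.exp (-(t * k)) := by
    have hk : (0 : ℝ) ≤ k := Nat.cast_nonneg k
    have h2 : Real.exp (-(s * k)) ≤ Real.exp (-(t * k)) :=
      Real.exp_le_exp.mpr (neg_le_neg (mul_le_mul_of_nonneg_right hts hk))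
    calc C * Real.exp (-(s * k)) ≤ |C| * Real.exp (-(s * k)) :=
          mul_le_mul_of_nonneg_right (le_abs_self C) (Real.exp_pos _).le
      _ ≤ |C| * Real.exp (-(t * k)) := mul_le_mul_of_nonneg_left h2 (abs_nonneg C)
  exact mul_le_mul_of_nonneg_right (mul_le_mul_of_nonneg_right h1 (norm_nonneg _)) (norm_nonneg _)

/-- The supremum of the rates. -/
theorem exists_sup {V : Type} [NormedAddCommGroup V] [NormedSpace ℝ V] {H : Bf V} {s₀ s : ℝ}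
    (h0 : 0 < s₀) (hs₀ : Gr H s₀) (hs : ¬ Gr H s) :
    ∃ S : ℝ, 0 < S ∧ S ≤ s ∧ ∀ ε : ℝ, 0 < ε → Gr H (S - ε) ∧ ¬ Gr H (S + ε) := by
  have hne : {t : ℝ | Gr H t}.Nonempty := ⟨s₀, hs₀⟩
  have hub : ∀ t ∈ {t : ℝ | Gr H t}, t ≤ s := by
    intro t ht
    by_contra hlt
    exact hs (gr_mono ht (not_le.mp hlt).le)
  have hbdd : BddAbove {t : ℝ | Gr H t} := ⟨s, hub⟩
  refine ⟨sSup {t : ℝ | Gr H t}, lt_of_lt_of_le h0 (le_csSup hbdd hs₀), csSup_le hne hub,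
    fun ε hε => ⟨?_, fun h => ?_⟩⟩
  · obtain ⟨t, ht, hlt⟩ := exists_lt_of_lt_csSup hne (sub_lt_self (sSup {t : ℝ | Gr H t}) hε)
    exact gr_mono ht hlt.le
  · have := le_csSup hbdd h
    linarith

/-- The exponential beats a constant. -/
theorem exp_contra {C r : ℝ} (hr : 0 < r) :
    ∃ K : ℕ, ∀ k : ℕ, K ≤ k → ∀ p q τ : ℝ, r ≤ p - q → 1 / 2 * Real.exp (-(q * k)) ≤ |τ| →
      |τ| ≤ C * Real.exp (-(p * k)) → False := by
  obtain ⟨K, hK⟩ := exists_nat_gt (2 * C / r)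
  refine ⟨K, fun k hk p q τ hpq h1 h2 => ?_⟩
  have hk0 : (0 : ℝ) ≤ k := Nat.cast_nonneg k
  have hkK : (K : ℝ) ≤ k := by exact_mod_cast hk
  have h3 : 2 * C < r * k := by
    have h4 : 2 * C / r < k := lt_of_lt_of_le hK hkK
    rw [div_lt_iff₀ hr] at h4
    linarith
  have h5 : r * k ≤ (p - q) * k := mul_le_mul_of_nonneg_right hpq hk0
  have h6 : (p - q) * k + 1 ≤ Real.exp ((p - q) * k) := Real.add_one_le_exp _
  have h7 : Real.exp (-(q * k)) = Real.exp ((p - q) * k) * Real.exp (-(p * k)) := by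
    rw [← Real.exp_add]
    congr 1
    ring
  have h8 : 1 / 2 * Real.exp (-(q * k)) ≤ C * Real.exp (-(p * k)) := h1.trans h2
  rw [h7] at h8
  have h9 : 0 < Real.exp (-(p * k)) := Real.exp_pos _
  have h10 : 1 / 2 * Real.exp ((p - q) * k) ≤ C := by
    by_contra hlt
    have := mul_lt_mul_of_pos_right (not_le.mp hlt) h9
    linarith
  linarith

/-- On the zero space every number is a rate. -/
theorem gr_zero {V : Type} [NormedAddCommGroup V] [NormedSpace ℝ V] (H : Bf V) (s : ℝ)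
    (hV : ∀ v : V, v = 0) : Gr H s := by
  refine ⟨0, fun k Y z _ _ => ?_⟩
  have h1 : ((0, z) : V × V) = 0 := by rw [hV z]; rfl
  rw [h1, map_zero, abs_zero, zero_mul, zero_mul, zero_mul]

end IRFin

open IRFin

theorem pr_RFin (h1 : BPos) (h2 : XPosR) (h3 : KUp) (h4 : KLo) (h5 : RDim) (h6 : RPr) (h7 : RT1)
    (h8 : RT2) (h9 : RTau) : RFin := by
  intro n G _ _ g1 g2 κ₁ κ₂ φ₁ φ₂ M₁ M₂ lg₁ lg₂ a c₁ c₂ l V₁ V₂ hP1 hP2 hL s s₂ hGr2 hs0 hss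
  by_contra hGr
  have hV1 : ∃ v ∈ V₁, v ≠ 0 := by
    by_contra hno
    apply hGr
    apply gr_zero
    intro v
    by_contra hv
    exact hno ⟨v, v.2, fun h => hv (Subtype.ext h)⟩
  have hV2 := h5 n G g1 g2 κ₁ κ₂ φ₁ φ₂ M₁ M₂ lg₁ lg₂ a c₁ c₂ l V₁ V₂ hP1 hP2 hV1
  obtain ⟨D, hD⟩ := h6 n G g1 g2 κ₁ κ₂ φ₁ φ₂ M₁ M₂ lg₁ lg₂ a c₁ c₂ l V₁ V₂ hP1 hP2 hV1 hV2 hL
  obtain ⟨lam, hlam, hpos⟩ := (h1 n G g1 κ₁ φ₁ M₁ lg₁ a c₁ l V₁ hP1).2
  obtain ⟨s₀, hs₀, hGs₀⟩ := h2 V₁ lam _ hlam hpos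
  obtain ⟨S, hS, hSs, hSε⟩ := exists_sup hs₀ hGs₀ hGr
  obtain ⟨ε, hε, hε1, hε2⟩ : ∃ ε : ℝ, 0 < ε ∧ 15 * ε < S ∧ 11 * ε < s₂ - s := by
    refine ⟨min (S / 16) ((s₂ - s) / 12), lt_min (by linarith) (by linarith), ?_, ?_⟩
    · have := min_le_left (S / 16) ((s₂ - s) / 12)
      linarith
    · have := min_le_right (S / 16) ((s₂ - s) / 12)
      linarith
  obtain ⟨hG1, hG2⟩ := hSε ε hε
  obtain ⟨C, ρ, k₀, -, hρ, hup⟩ := h3 n G g2 κ₂ φ₂ M₂ lg₂ a c₂ l V₂ hP2 s₂ (s₂ - ε) hGr2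
    (by linarith) (by linarith)
  obtain ⟨CA, hCA⟩ := h7 n G g1 g2 (min κ₁ κ₂) a c₁ c₂ l D hD
  obtain ⟨CB, hCB⟩ := h8 n G g1 g2 (min κ₁ κ₂) a c₁ c₂ l D hD
  obtain ⟨δA, hδA, hA⟩ := hCA ρ hρ
  obtain ⟨δB, hδB, hB⟩ := hCB ρ hρ
  obtain ⟨K, hK⟩ := exp_contra (C := C) hε
  obtain ⟨k, hk, α, β, τ, hα, hβ, hαc, hβc, hαA, hβA, hτ, hlow⟩ :=
    h4 n G g1 κ₁ φ₁ M₁ lg₁ a c₁ l V₁ hP1 (S - ε) (S - 2 * ε) (S + ε) (4 * ε) hG1 hG2
      (by linarith) (by linarith) (by linarith) (by linarith) (by linarith) (min δA δB)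
      (max k₀ K) (lt_min hδA hδB)
  obtain ⟨α2, hα2, hα2A, hα2c, hα2C⟩ := hA α hα fun t ht => (hαc t ht).trans (min_le_left _ _)
  obtain ⟨β2, hβ2, hβ2A, hβ2c, hβ2C⟩ := hB β hβ fun t ht => (hβc t ht).trans (min_le_right _ _)
  have h10 := hup k α2 β2 τ (le_trans (le_max_left _ _) hk) hα2 hβ2 hα2c hβ2c hα2A hβ2A
    (h9 n G g1 g2 (min κ₁ κ₂) a c₁ c₂ l D hD hL (max CA CB) α β α2 β2 k τ hα hβ hα2 hβ2
      (fun t => (hα2C t).trans (le_max_left _ _)) (fun t => (hβ2C t).trans (le_max_right _ _))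
      hαA hβA hα2A hβ2A hτ)
  exact hK k (le_trans (le_max_right _ _) hk) (s₂ - ε) (S + ε + 2 * (4 * ε)) τ (by linarith)
    hlow h10

end Pool.Agent.LX
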