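import Pool.Agent.Work.MP_25cd3b_gt.LX.StmtsK
import Pool.Agent.Work.MP_25cd3b_gt.NG.All

set_option autoImplicit false

/-!
# MP_25cd3b_gt, block LX (captain helper11), item KExA (helper59): forward asymptotic geodesics
-/

open MeasureTheory Set Filter Topology
open scoped ContDiff ENNReal
open Pool.Agent.Work.MP_c9f990_an.Al (IsFlow)

namespace Pool.Agent.LX

open Pool.Agent.MLS Pool.Agent.STR Pool.Agent.LR

namespace IKExA

theorem ug_expo {n : ℕ} {g : Form n} {φ : ℝ → W n → W n} {M : ℝ → W n → W n →L[ℝ] W n}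
    (hg : Riem g) (hφ : IsFlow (XH (Hm g)) φ M) (x w : E n) (hww : g.val x w w = 1) :
    UG g (fun t => expo φ g x (t • w)) := by
  obtain ⟨-, -, hexp, -, -⟩ := p_NcExp n g φ M hg hφ x
  obtain ⟨-, -, hiop, -, -, -, -, -, hHm⟩ := pr_Op n g hg
  obtain ⟨hG, hder, hE⟩ := p_Geo1 n g hg (fun t => φ t (x, op g x w))
    (fun t => hφ.ode (x, op g x w) t)
  have hfe : (fun t : ℝ => expo φ g x (t • w)) = fun t => (φ t (x, op g x w)).1 := by
    funext t
    exact (hexp t w).symm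
  rw [hfe]
  refine ⟨hG, ?_⟩
  intro t
  have h1 := hE t
  simp only [hφ.zero] at h1
  rw [hHm, hHm] at h1
  have h2 : vel g (x, op g x w) = w := hiop x w
  rw [h2] at h1
  simp only [hww] at h1
  rw [hder t]
  linarith

/-- a limit of geodesics from `p` -/
theorem limit {n : ℕ} {g : Form n} {φ : ℝ → W n → W n} {M : ℝ → W n → W n →L[ℝ] W n}
    (hg : Riem g) (hφ : IsFlow (XH (Hm g)) φ M) (p : E n) (c : ℝ → E n) (l D : ℝ) (hl : 0 < l)
    (h : ∀ i : ℕ, 1 ≤ i → ∃ η : ℝ → E n, UG g η ∧ η 0 = p ∧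
      ∀ t ∈ Icc (0 : ℝ) (i * l), gd g (η t) (c t) ≤ D) :
    ∃ η : ℝ → E n, UG g η ∧ η 0 = p ∧ ∀ t, 0 ≤ t → gd g (η t) (c t) ≤ D := by
  choose! η hη h0 hcl using h
  have hunit : ∀ i : ℕ, deriv (η (i + 1)) 0 ∈ {v : E n | g.val p v v = 1} := by
    intro i
    have h1 := (hη (i + 1) (by omega)).unit 0
    rw [h0 (i + 1) (by omega)] at h1
    exact h1
  have hK : IsCompact {v : E n | g.val p v v = 1} := by
    obtain ⟨C, hC, hb⟩ := (pr_Bnd n g {p} isCompact_singleton).2 hg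
    refine (isCompact_closedBall (0 : E n) C).of_isClosed_subset ?_ ?_
    · exact isClosed_eq (by fun_prop) continuous_const
    · intro v hv
      rw [mem_closedBall_zero_iff]
      have h1 := hb p rfl v
      have h2 : nrm g p v = 1 := by
        unfold nrm
        rw [show g.val p v v = 1 from hv, Real.sqrt_one]
      rw [h2, mul_one] at h1
      exact h1
  obtain ⟨v, hv, ψ, hψ, hlim⟩ := hK.tendsto_subseq hunit
  refine ⟨fun t => expo φ g p (t • v), ug_expo hg hφ p v hv, ?_, ?_⟩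
  · show expo φ g p ((0 : ℝ) • v) = p
    rw [zero_smul]
    exact (p_NcExp n g φ M hg hφ p).2.2.2.2
  · intro t ht
    have hcont : Continuous (fun w : E n => gd g (expo φ g p (t • w)) (c t)) := by
      have h1 : Continuous (expo φ g p) := (p_NcExp n g φ M hg hφ p).1.continuous
      have h2 := p_CtsD n g
      exact h2.comp ((h1.comp (continuous_const_smul t)).prodMk continuous_const)
    have h3 : Tendsto (fun i => gd g (expo φ g p (t • deriv (η (ψ i + 1)) 0)) (c t)) atTop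
        (𝓝 (gd g (expo φ g p (t • v)) (c t))) := (hcont.tendsto v).comp hlim
    refine le_of_tendsto h3 ?_
    obtain ⟨N, hN⟩ := exists_nat_ge (t / l)
    filter_upwards [eventually_ge_atTop N] with i hi
    have h4 : N ≤ ψ i + 1 := hi.trans ((hψ.id_le i).trans (Nat.le_succ _))
    have h5 : t ≤ ((ψ i + 1 : ℕ) : ℝ) * l := by
      rw [← div_le_iff₀ hl]
      exact hN.trans (by exact_mod_cast h4)
    have h6 := (p_NcGx n g φ M hg hφ (η (ψ i + 1)) (hη _ (by omega)).geo 0 t).2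
    rw [sub_zero, h0 _ (by omega)] at h6
    rw [← h6]
    exact hcl _ (by omega) t ⟨ht, h5⟩

/-- the geodesic from `p` to `c (i l)` stays near `c` -/
theorem near {n : ℕ} {g : Form n} {κ : ℝ} (hBCL : BCL) (hCvG : StCvG) (hcv : Cv g κ)
    {c : ℝ → E n} (hc : UG g c) {l : ℝ} (hl : 0 < l) (p : E n) (δ : ℝ) (hδ : δ < l)
    (hp : gd g p (c 0) ≤ δ) (i : ℕ) (hi : 1 ≤ i) :
    ∃ η : ℝ → E n, UG g η ∧ η 0 = p ∧ ∀ t ∈ Icc (0 : ℝ) (i * l), gd g (η t) (c t) ≤ 10 * δ := by
  obtain ⟨-, hmin, hex⟩ := hCvG n g κ hcv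
  have hPM := (pr_Gd n g).2.1
  have hi' : (1 : ℝ) ≤ i := by exact_mod_cast hi
  have hil : l ≤ i * l := by nlinarith
  have hc0 : gd g (c 0) (c (i * l)) = i * l := by
    rw [hmin c hc, zero_sub, abs_neg, abs_of_nonneg (by positivity)]
  have hne : p ≠ c (i * l) := by
    intro h
    have h1 : gd g (c (i * l)) (c 0) ≤ δ := h ▸ hp
    rw [hPM.symm, hc0] at h1
    linarith
  obtain ⟨σ, hσ, hσ0, hσT, -⟩ := hex p (c (i * l)) hne
  have hδ0 : 0 ≤ δ := (hPM.nonneg _ _).trans hp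
  have h1 := hPM.tri p (c 0) (c (i * l))
  have h2 := hPM.tri (c 0) p (c (i * l))
  rw [hPM.symm (c 0) p] at h2
  have h3 : gd g (σ (i * l)) (c (i * l)) ≤ δ := by
    have h4 : gd g (σ (i * l)) (σ (gd g p (c (i * l)))) ≤ δ := by
      rw [hmin σ hσ, abs_le]
      constructor <;> linarith
    rwa [hσT] at h4
  exact ⟨σ, hσ, hσ0, hBCL n g κ hcv σ c hσ hc (i * l) δ (by positivity) hδ0
    (by rw [hσ0]; exact hp) h3⟩

/-- closeness at the points `j l` is enough -/
theorem as_of {n : ℕ} {g : Form n} {κ : ℝ} (hBCL : BCL) (hUG : StUG) (hcv : Cv g κ)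
    {α c : ℝ → E n} (hα : UG g α) (hc : UG g c) {l : ℝ} (hl : 0 < l)
    (h : Tendsto (fun j : ℕ => gd g (α (j * l)) (c (j * l))) atTop (𝓝 0)) : As g α c := by
  have hPM := (pr_Gd n g).2.1
  unfold As
  rw [Metric.tendsto_atTop] at h ⊢
  intro e he
  obtain ⟨N, hN⟩ := h (e / 20) (by positivity)
  have hN' : ∀ j : ℕ, N ≤ j → gd g (α (j * l)) (c (j * l)) ≤ e / 20 := by
    intro j hj
    have h1 := hN j hj
    rw [Real.dist_eq, sub_zero, abs_of_nonneg (hPM.nonneg _ _)] at h1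
    exact h1.le
  refine ⟨N * l, fun t ht => ?_⟩
  have ht0 : 0 ≤ t := le_trans (by positivity) ht
  obtain ⟨j, hj⟩ : ∃ j : ℕ, j = ⌊t / l⌋₊ := ⟨_, rfl⟩
  have hjN : N ≤ j := by
    rw [hj]
    exact Nat.le_floor (by rwa [le_div_iff₀ hl])
  have h1 : (j : ℝ) ≤ t / l := by
    rw [hj]
    exact Nat.floor_le (by positivity)
  have h2 : t / l < j + 1 := by
    rw [hj]
    exact Nat.lt_floor_add_one _
  rw [le_div_iff₀ hl] at h1
  rw [div_lt_iff₀ hl] at h2
  have hA : gd g (α (0 + j * l)) (c (0 + j * l)) ≤ e / 20 := by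
    rw [zero_add]
    exact hN' j hjN
  have hB : gd g (α (l + j * l)) (c (l + j * l)) ≤ e / 20 := by
    have h3 := hN' (j + 1) (by omega)
    have e1 : ((j + 1 : ℕ) : ℝ) * l = l + j * l := by
      push_cast
      ring
    rwa [e1] at h3
  have key := hBCL n g κ hcv (fun s => α (s + j * l)) (fun s => c (s + j * l))
    ((hUG n g α hα).1 _) ((hUG n g c hc).1 _) l (e / 20) hl.le (by positivity) hA hB
    (t - j * l) ⟨by linarith, by linarith⟩
  simp only [sub_add_cancel] at key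
  rw [Real.dist_eq, sub_zero, abs_of_nonneg (hPM.nonneg _ _)]
  linarith

end IKExA

theorem pr_KExA (hBCL : BCL) (hKAl : KAl) (hXPosR : XPosR) (hYDec : YDec) (hBGen : BGen)
    (hCvG : StCvG) (hUG : StUG) : KExA := by
  intro n G _ _ g κ φ M lg a c l V hP ρ hρ
  have hcv : Cv g κ := ⟨hP.riem, hP.kpos, hP.curv, φ, M, hP.flow⟩
  have hl := hP.pos
  have hPM := (pr_Gd n g).2.1
  obtain ⟨-, hmin, -⟩ := hCvG n g κ hcv
  have hinv := (pr_InvD n G hP.coc g hP.inv).2
  obtain ⟨C, ρK, hC1, hρK, hK⟩ := hKAl n G g κ φ M lg a c l V hP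
  obtain ⟨lam, K, r, hG⟩ := hBGen n G g κ φ M lg a c l V hP
  obtain ⟨s, hs, hGr⟩ := hXPosR V lam _ hG.ch.lam_pos hG.ch.pos
  obtain ⟨CY, ρY, hCY, hρY, -, hY⟩ := hYDec V lam K r _ _ _ hG.ch s (s / 2) hGr (by positivity)
    (by linarith)
  obtain ⟨Cb, hCb, hb⟩ := (pr_Bnd n g {c 0} isCompact_singleton).1
  have hC0 : 0 < C := by linarith
  have hdo : ∀ v : E n, gd g (c 0) (expo φ g (c 0) v) = nrm g (c 0) v := fun v => by
    rw [hP.log.dist, hP.log.log_exp]
  have hcj : ∀ j : ℕ, c (j * l) = a ^ j • c 0 := by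
    intro j
    induction j with
    | zero => simp
    | succ j ih =>
      have e1 : ((j + 1 : ℕ) : ℝ) * l = j * l + l := by
        push_cast
        ring
      rw [e1, hP.per, ih, pow_succ', mul_smul]
  obtain ⟨δ, hδ, hδ1, hδ2, hδ3⟩ : ∃ δ : ℝ, 0 < δ ∧ δ ≤ ρK ∧ C * δ ≤ ρY ∧ (C + 1) * δ ≤ ρ := by
    refine ⟨min ρK (min (ρY / C) (ρ / (C + 1))), ?_, min_le_left _ _, ?_, ?_⟩
    · exact lt_min hρK (lt_min (by positivity) (by positivity))
    · have h1 : min ρK (min (ρY / C) (ρ / (C + 1))) ≤ ρY / C :=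
        (min_le_right _ _).trans (min_le_left _ _)
      rw [le_div_iff₀ hC0] at h1
      linarith
    · have h1 : min ρK (min (ρY / C) (ρ / (C + 1))) ≤ ρ / (C + 1) :=
        (min_le_right _ _).trans (min_le_right _ _)
      rw [le_div_iff₀ (by linarith)] at h1
      linarith
  obtain ⟨δ', hδ', hδ'1, hδ'2⟩ : ∃ δ' : ℝ, 0 < δ' ∧ 10 * δ' ≤ δ ∧ δ' < l := by
    refine ⟨min (δ / 10) (l / 2), lt_min (by positivity) (by positivity), ?_, ?_⟩
    · have h1 : min (δ / 10) (l / 2) ≤ δ / 10 := min_le_left _ _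
      linarith
    · have h1 : min (δ / 10) (l / 2) ≤ l / 2 := min_le_right _ _
      linarith
  refine ⟨min δ (δ' / Cb), lt_min hδ (div_pos hδ' hCb), ?_⟩
  intro x hx
  have hx1 : ‖x‖ ≤ δ := hx.trans (min_le_left _ _)
  have hx2 : Cb * ‖x‖ ≤ δ' := by
    have h1 : ‖x‖ ≤ δ' / Cb := hx.trans (min_le_right _ _)
    rw [le_div_iff₀ hCb] at h1
    linarith
  have hpo : gd g (expo φ g (c 0) x) (c 0) ≤ δ' := by
    rw [hPM.symm, hdo]
    exact (hb (c 0) rfl x).trans hx2
  obtain ⟨η, hη, hη0, hηc⟩ := IKExA.limit hP.riem hP.flow (expo φ g (c 0) x) c l (10 * δ') hl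
    (fun i hi => IKExA.near hBCL hCvG hcv hP.ug hl _ δ' hδ'2 hpo i hi)
  obtain ⟨u, t, hu0, ht0, hch, -, hk⟩ := hK δ 0 η x hδ hδ1 hη (by rw [abs_zero]; exact hδ.le) hx1
    hη0 (fun t ht => (hηc t ht).trans hδ'1)
  have hsmall : ∀ j, ‖u j‖ ≤ ρY := fun j => (hch j).2.1.trans hδ2
  have hEL : ∀ k, EL (fderiv ℝ (Lk g φ a (c 0) l V)) k u := by
    intro k
    rcases Nat.eq_zero_or_pos k with rfl | hk0
    · intro j hj
      omega
    · exact (hk k hk0).2.1
  have hdec := hY u hsmall hEL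
  have hT : ∀ k : ℕ, 1 ≤ k → ∑ i ∈ Finset.range k, Lk g φ a (c 0) l V (u i, u (i + 1)) =
      t k - t 0 - k * l := fun k hk1 => by
    rw [← (hk k hk1).2.2]
    exact (hk k hk1).1.symm
  have hstep : ∀ j : ℕ, Lk g φ a (c 0) l V (u j, u (j + 1)) =
      (t (j + 1) - ((j + 1 : ℕ) : ℝ) * l) - (t j - j * l) := by
    intro j
    rcases Nat.eq_zero_or_pos j with rfl | hj
    · have h1 := hT 1 le_rfl
      rw [Finset.sum_range_one] at h1
      rw [h1]
      push_cast
      ring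
    · have h1 := hT (j + 1) (by omega)
      have h2 := hT j hj
      rw [Finset.sum_range_succ, h2] at h1
      linarith
  have hcau : CauchySeq (fun j : ℕ => t j - j * l) := by
    refine cauchySeq_of_le_geometric (Real.exp (-s)) CY (by rw [Real.exp_lt_one_iff]; linarith) ?_
    intro j
    have h1 := (hdec j).2
    rw [hstep j] at h1
    rw [Real.dist_eq, abs_sub_comm, ← Real.exp_nat_mul]
    refine h1.trans_eq ?_
    congr 2
    ring
  obtain ⟨τ, hτ⟩ := cauchySeq_tendsto_of_complete hcau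
  have hτ1 : |τ| ≤ C * δ := le_of_tendsto hτ.abs (Eventually.of_forall fun j => (hch j).2.2)
  refine ⟨fun t => η (t + τ), -τ, (hUG n g η hη).1 τ, ?_, ?_, ?_, ?_⟩
  · rw [abs_neg]
    nlinarith
  · show η (-τ + τ) = _
    rw [neg_add_cancel, hη0]
  · intro t ht
    have h1 := hPM.tri (η (t + τ)) (η t) (c t)
    rw [hmin η hη, add_sub_cancel_left] at h1
    have h2 := hηc t ht
    nlinarith
  · refine IKExA.as_of hBCL hUG hcv ((hUG n g η hη).1 τ) hP.ug hl ?_
    have hlim : Tendsto (fun j : ℕ => |τ - (t j - j * l)| +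
        Cb * (CY * Real.exp (-(s / 2 * j)))) atTop (𝓝 0) := by
      have h1 : Tendsto (fun j : ℕ => |τ - (t j - j * l)|) atTop (𝓝 0) := by
        have h2 := (tendsto_const_nhds (x := τ)).sub hτ
        rw [sub_self] at h2
        have h3 := h2.abs
        rwa [abs_zero] at h3
      have h4 : Tendsto (fun j : ℕ => Real.exp (-(s / 2 * j))) atTop (𝓝 0) := by
        refine Real.tendsto_exp_neg_atTop_nhds_zero.comp ?_
        exact (tendsto_natCast_atTop_atTop).const_mul_atTop (by positivity)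
      have h5 := h1.add ((h4.const_mul CY).const_mul Cb)
      rwa [mul_zero, mul_zero, add_zero] at h5
    refine squeeze_zero (fun j => hPM.nonneg _ _) (fun j => ?_) hlim
    have h1 := hPM.tri (η (j * l + τ)) (η (t j)) (c (j * l))
    rw [hmin η hη] at h1
    have h2 : gd g (η (t j)) (c (j * l)) ≤ Cb * (CY * Real.exp (-(s / 2 * j))) := by
      rw [(hch j).1, hcj j, hinv, hPM.symm, hdo]
      exact (hb (c 0) rfl (u j)).trans (mul_le_mul_of_nonneg_left (hdec j).1 hCb.le)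
    have h3 : (j : ℝ) * l + τ - t j = τ - (t j - j * l) := by ring
    rw [h3] at h1
    exact h1.trans (by linarith)

end Pool.Agent.LX
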