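import Pool.Agent.Work.MP_25cd3b_gt.LX.StmtsR
import Pool.Agent.Work.MP_25cd3b_gt.NG.All
import Pool.Agent.Work.MP_25cd3b_gt.LX.I_KExA

set_option autoImplicit false

/-!
# MP_25cd3b_gt, block LX part R (captain helper11), item RLim (helper31): compactness of geodesics
-/

open MeasureTheory Set Filter Topology
open scoped ContDiff ENNReal
open Pool.Agent.Work.MP_c9f990_an.Al (IsFlow)

namespace Pool.Agent.LX

open Pool.Agent.MLS Pool.Agent.STR Pool.Agent.LR

theorem pr_RLim : RLim := by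
  intro n G _ _ hG g hg hinv σ x₀ r hσ hr
  obtain ⟨φ, M, hφ⟩ := p_Flow n G hG g hg hinv
  obtain ⟨K', hK', hK⟩ := p_Prop n G hG g hg hinv {x₀} r isCompact_singleton
  have h0 : ∀ i, σ i 0 ∈ K' := fun i => hK x₀ rfl _ (hr i)
  obtain ⟨C, hC, hb⟩ := (pr_Bnd n g K' hK').2 hg
  have h1 : ∀ i, deriv (σ i) 0 ∈ Metric.closedBall (0 : E n) C := by
    intro i
    rw [mem_closedBall_zero_iff]
    have h2 := hb _ (h0 i) (deriv (σ i) 0)
    have h3 : nrm g (σ i 0) (deriv (σ i) 0) = 1 := by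
      unfold nrm
      rw [(hσ i).unit 0, Real.sqrt_one]
    rwa [h3, mul_one] at h2
  have hmem : ∀ i, (σ i 0, deriv (σ i) 0) ∈ K' ×ˢ Metric.closedBall (0 : E n) C :=
    fun i => ⟨h0 i, h1 i⟩
  obtain ⟨⟨x, v⟩, -, ψ, hψ, hlim⟩ :=
    (hK'.prod (isCompact_closedBall (0 : E n) C)).tendsto_subseq hmem
  have hx : Tendsto (fun i => σ (ψ i) 0) atTop (𝓝 x) :=
    (continuous_fst.tendsto (x, v)).comp hlim
  have hv : Tendsto (fun i => deriv (σ (ψ i)) 0) atTop (𝓝 v) :=
    (continuous_snd.tendsto (x, v)).comp hlim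
  obtain ⟨-, -, hiop, -, -, hop, -, -, hHm⟩ := pr_Op n g hg
  have hval : Continuous g.val := g.smooth.continuous
  have hone : g.val x v v = 1 := by
    have h2 : Tendsto (fun i => g.val (σ (ψ i) 0) (deriv (σ (ψ i)) 0) (deriv (σ (ψ i)) 0)) atTop
        (𝓝 (g.val x v v)) := by
      have h3 : Continuous (fun p : E n × E n => g.val p.1 p.2 p.2) := by fun_prop
      exact (h3.tendsto (x, v)).comp hlim
    have h4 : (fun i => g.val (σ (ψ i) 0) (deriv (σ (ψ i)) 0) (deriv (σ (ψ i)) 0)) =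
        fun _ => (1 : ℝ) := by
      funext i
      exact (hσ (ψ i)).unit 0
    rw [h4] at h2
    exact tendsto_nhds_unique h2 tendsto_const_nhds
  refine ⟨fun t => expo φ g x (t • v), ψ, hψ, IKExA.ug_expo hg hφ x v hone, ?_⟩
  intro t
  have hexp := (p_NcExp n g φ M hg hφ x).2.2.1
  have hc : Continuous (fun p : E n × E n => (φ t (p.1, op g p.1 p.2)).1) := by
    have h2 : Continuous (op g) := hop.continuous
    have h3 : Continuous (φ t) := continuous_iff_continuousAt.2 fun z => (hφ.diff t z).continuousAt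
    have h4 : Continuous (fun p : E n × E n => (p.1, op g p.1 p.2)) := by fun_prop
    exact continuous_fst.comp (h3.comp h4)
  have h5 := (hc.tendsto (x, v)).comp hlim
  have h6 : (φ t (x, op g x v)).1 = expo φ g x (t • v) := hexp t v
  simp only [h6] at h5
  refine h5.congr fun i => ?_
  have h7 := (p_NcGx n g φ M hg hφ (σ (ψ i)) (hσ _).geo 0 t).1
  rw [sub_zero] at h7
  simp only [Function.comp]
  rw [← h7]

end Pool.Agent.LX
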