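import Pool.Agent.Work.MP_25cd3b_gt.LX.StmtsR
import Pool.Agent.Work.MP_25cd3b_gt.NG.All

set_option autoImplicit false

/-!
# MP_25cd3b_gt, block LX, part R: item RPr (the pair of metrics)
-/

open MeasureTheory Set Filter Topology
open scoped ContDiff ENNReal
open Pool.Agent.Work.MP_c9f990_an.Al (IsFlow)

namespace Pool.Agent.LX

open Pool.Agent.MLS Pool.Agent.STR Pool.Agent.LR

namespace IRPr

theorem curv_mono {n : ℕ} {g : Form n} {κ κ' : ℝ} (h0 : 0 < κ) (h : κ ≤ κ') (hc : CurvLe g κ') :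
    CurvLe g κ := by
  intro x u v
  have h1 := hc x u v
  have h2 := INgPt.ar_nonneg g x u v
  have h3 : κ ^ 2 ≤ κ' ^ 2 := pow_le_pow_left₀ h0.le h 2
  have h4 : κ ^ 2 * Ar g x u v ≤ κ' ^ 2 * Ar g x u v := mul_le_mul_of_nonneg_right h3 h2
  linarith

/-- the closed geodesic as a line, and the condition `Fin4` -/
theorem fin4 (h1 : RAct) (h2 : RUnb) (h3 : MNe) (h4 : MFl) (h6 : StCvG) {n : ℕ} {G : Type}
    [Group G] [MulAction G (E n)] {g : Form n} {κ : ℝ} {φ : ℝ → W n → W n}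
    {M : ℝ → W n → W n →L[ℝ] W n} {lg : E n → E n → E n} {a : G} {c : ℝ → E n} {l : ℝ}
    {V : Submodule ℝ (E n)} (hP : Per n G g κ φ M lg a c l V) (hV : ∃ v ∈ V, v ≠ 0) :
    Fin4 G (gd g) (c 0) := by
  have hcv : Cv g κ := ⟨hP.riem, hP.kpos, hP.curv, φ, M, hP.flow⟩
  have hln : Ln (gd g) c := (h6 n g κ hcv).2.1 c hP.ug
  have hclo : Clo (gd g) a c l := ⟨hln, hP.pos, hP.per⟩
  have hA := h1 n G hP.coc g κ hP.riem hP.inv hP.kpos hP.curv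
  have hun := h2 n G g κ φ M lg a c l V hP hV
  obtain ⟨e, K, heK⟩ := h3 G (E n) (gd g) κ _ hA a c l hclo hun
  exact h4 G (E n) (gd g) κ _ hA a e c l K hclo heK

/-- the distance of two periodic curves is bounded -/
theorem bdd {n : ℕ} {G : Type} [Group G] [MulAction G (E n)] (hG : Cocompact n G) (g : Form n)
    (hi : Inv G g) (a : G) (c₁ c₂ : ℝ → E n) (l : ℝ) (hl : 0 < l) (h1 : Continuous c₁)
    (h2 : Continuous c₂) (p1 : ∀ t, c₁ (t + l) = a • c₁ t) (p2 : ∀ t, c₂ (t + l) = a • c₂ t) :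
    ∃ D, ∀ t, gd g (c₁ t) (c₂ t) ≤ D := by
  have hper : Function.Periodic (fun t => gd g (c₁ t) (c₂ t)) l := by
    intro t
    change gd g (c₁ (t + l)) (c₂ (t + l)) = gd g (c₁ t) (c₂ t)
    rw [p1, p2, (pr_InvD n G hG g hi).2]
  have hcont : Continuous (fun t => gd g (c₁ t) (c₂ t)) :=
    (p_CtsD n g).comp (h1.prodMk h2)
  obtain ⟨t₀, -, ht₀⟩ := isCompact_Icc.exists_isMaxOn (nonempty_Icc.2 hl.le)
    hcont.continuousOn (s := Icc 0 l)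
  refine ⟨gd g (c₁ t₀) (c₂ t₀), fun t => ?_⟩
  obtain ⟨y, hy, hty⟩ := hper.exists_mem_Ico₀ hl t
  have h3 : gd g (c₁ t) (c₂ t) = gd g (c₁ y) (c₂ y) := hty
  rw [h3]
  exact ht₀ ⟨hy.1, hy.2.le⟩

end IRPr

open IRPr in
/-- item RPr -/
theorem pr_RPr (h1 : RAct) (h2 : RUnb) (h3 : MNe) (h4 : MFl) (h5 : MRi) (h6 : StCvG) : RPr := by
  intro n G _ _ g1 g2 κ₁ κ₂ φ₁ φ₂ M₁ M₂ lg₁ lg₂ a c₁ c₂ l V₁ V₂ hP1 hP2 hV1 hV2 hL
  have hκ : 0 < min κ₁ κ₂ := lt_min hP1.kpos hP2.kpos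
  have hk1 : CurvLe g1 (min κ₁ κ₂) := curv_mono hκ (min_le_left _ _) hP1.curv
  have hk2 : CurvLe g2 (min κ₁ κ₂) := curv_mono hκ (min_le_right _ _) hP2.curv
  have hf1 := fin4 h1 h2 h3 h4 h6 hP1 hV1
  have hf2 := fin4 h1 h2 h3 h4 h6 hP2 hV2
  have hA1 := h1 n G hP1.coc g1 _ hP1.riem hP1.inv hκ hk1
  have hA2 := h1 n G hP2.coc g2 _ hP2.riem hP2.inv hκ hk2
  have hLe : (fun b : G => L g2 b) = fun b : G => L g1 b := by
    funext b
    exact (hL b).symm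
  rw [hLe] at hA2
  obtain ⟨A, hA0, -, hA⟩ := p_Cmp n G hP1.coc g1 g2 hP1.riem hP1.inv hP2.inv
  obtain ⟨B, hB0, -, hB⟩ := p_Cmp n G hP1.coc g2 g1 hP2.riem hP2.inv hP1.inv
  obtain ⟨D1, hD1⟩ := h5 G (E n) (gd g1) (gd g2) _ _ hA1 hA2 (c₁ 0) hf1
    (fun r => ⟨A * r, fun x y hxy => (hA x y).trans (mul_le_mul_of_nonneg_left hxy hA0.le)⟩)
  obtain ⟨D2, hD2⟩ := h5 G (E n) (gd g2) (gd g1) _ _ hA2 hA1 (c₂ 0) hf2
    (fun r => ⟨B * r, fun x y hxy => (hB x y).trans (mul_le_mul_of_nonneg_left hxy hB0.le)⟩)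
  obtain ⟨D3, hD3⟩ := bdd hP1.coc g2 hP2.inv a c₁ c₂ l hP1.pos hP1.ug.geo.smooth.continuous
    hP2.ug.geo.smooth.continuous hP1.per hP2.per
  refine ⟨max (max D1 D2) D3, hP1.coc, hP1.riem, hP2.riem, hP1.inv, hP2.inv, hκ, hk1, hk2,
    hP1.ug, hP2.ug, hP1.pos, hP1.per, hP2.per, fun x y => ?_, fun t => ?_, hf1⟩
  · have e1 := hD1 x y
    have e2 := hD2 x y
    have e3 : D1 ≤ max (max D1 D2) D3 := (le_max_left _ _).trans (le_max_left _ _)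
    have e4 : D2 ≤ max (max D1 D2) D3 := (le_max_right _ _).trans (le_max_left _ _)
    rw [abs_le]
    constructor <;> linarith
  · exact (hD3 t).trans (le_max_right _ _)

end Pool.Agent.LX
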