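import Pool.Agent.Work.MP_25cd3b_gt.LX.StmtsR

set_option autoImplicit false

/-!
# MP_25cd3b_gt, block LX (captain helper11), item RSh (helper32): shadows of geodesics
-/

open MeasureTheory Set Filter Topology
open scoped ContDiff ENNReal
open Pool.Agent.Work.MP_c9f990_an.Al (IsFlow)

namespace Pool.Agent.LX

open Pool.Agent.MLS Pool.Agent.STR Pool.Agent.LR

namespace IRSh

theorem of_cosh {κ x D : ℝ} (hκ : 0 < κ) (h : Real.cosh (κ * x) ≤ Real.exp (κ * (2 * D))) :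
    x ≤ 2 * D + 1 / κ := by
  have h1 : Real.exp (κ * x) ≤ 2 * Real.cosh (κ * x) := by
    rw [Real.cosh_eq]
    have := Real.exp_pos (-(κ * x))
    linarith
  have h2 : (2 : ℝ) ≤ Real.exp 1 := by
    have := Real.add_one_le_exp (1 : ℝ)
    linarith
  have h3 : Real.exp (κ * x) ≤ Real.exp (1 + κ * (2 * D)) := by
    rw [Real.exp_add]
    calc Real.exp (κ * x) ≤ 2 * Real.cosh (κ * x) := h1
      _ ≤ 2 * Real.exp (κ * (2 * D)) := by linarith
      _ ≤ Real.exp 1 * Real.exp (κ * (2 * D)) :=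
        mul_le_mul_of_nonneg_right h2 (Real.exp_pos _).le
  have h4 : κ * x ≤ 1 + κ * (2 * D) := Real.exp_le_exp.1 h3
  have h5 : κ * x ≤ κ * (2 * D + 1 / κ) := by
    rw [mul_add, mul_one_div_cancel hκ.ne']
    linarith
  exact le_of_mul_le_mul_left h5 hκ

/-- the geodesic of the second metric between two points of a geodesic of the first one -/
theorem seg {n : ℕ} {g1 g2 : Form n} {κ D : ℝ} (hcat : Cat (gd g2) κ) (h3 : MMd)
    (hln1 : ∀ σ, UG g1 σ → ∀ s t, gd g1 (σ s) (σ t) = |s - t|)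
    (hln2 : ∀ σ, UG g2 σ → ∀ s t, gd g2 (σ s) (σ t) = |s - t|)
    (hex : ∀ x y, x ≠ y → ∃ σ, UG g2 σ ∧ σ 0 = x ∧ σ (gd g2 x y) = y ∧ 0 < gd g2 x y)
    (hD : 0 ≤ D) (hcmp : ∀ x y, |gd g1 x y - gd g2 x y| ≤ D) {α : ℝ → E n} (hα : UG g1 α)
    {r : ℝ} (hr : D < r) :
    ∃ σ, UG g2 σ ∧ ∀ t, |t| ≤ r → gd g2 (α t) (σ (t + r)) ≤ 2 * D + 1 / κ + D := by
  have hr0 : 0 < r := lt_of_le_of_lt hD hr
  have e1 : gd g1 (α (-r)) (α r) = 2 * r := by
    rw [hln1 α hα, show -r - r = -(2 * r) by ring, abs_neg, abs_of_pos (by linarith)]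
  have c1 := abs_le.1 (hcmp (α (-r)) (α r))
  rw [e1] at c1
  have hne : α (-r) ≠ α r := by
    intro h
    rw [h, hcat.pm.self] at c1
    linarith
  obtain ⟨σ, hσ, s0, s1, -⟩ := hex _ _ hne
  set T := gd g2 (α (-r)) (α r) with hT
  refine ⟨σ, hσ, ?_⟩
  intro t ht
  obtain ⟨ht1, ht2⟩ := abs_le.1 ht
  have c2 := abs_le.1 (hcmp (α (-r)) (α t))
  have c3 := abs_le.1 (hcmp (α t) (α r))
  rw [hln1 α hα, show -r - t = -(t + r) by ring, abs_neg, abs_of_nonneg (by linarith)] at c2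
  rw [hln1 α hα, show t - r = -(r - t) by ring, abs_neg, abs_of_nonneg (by linarith)] at c3
  obtain ⟨s, hs0, hsT, hs1, hs2, hs3⟩ : ∃ s : ℝ, 0 ≤ s ∧ s ≤ T ∧ t + r + D ≤ s + 2 * D ∧
      r - t + D ≤ T - s + 2 * D ∧ |s - (t + r)| ≤ D := by
    rcases le_total (t + r) T with h | h
    · refine ⟨t + r, by linarith, h, by linarith, by linarith, ?_⟩
      rw [sub_self, abs_zero]
      exact hD
    · refine ⟨T, by linarith, le_refl _, by linarith, by linarith, ?_⟩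
      rw [abs_le]
      constructor <;> linarith
  have d1 : gd g2 (α (-r)) (σ s) = s := by
    rw [← s0, hln2 σ hσ, zero_sub, abs_neg, abs_of_nonneg hs0]
  have d2 : gd g2 (σ s) (α r) = T - s := by
    have h := hln2 σ hσ s T
    rw [s1] at h
    rw [h, show s - T = -(T - s) by ring, abs_neg, abs_of_nonneg (by linarith)]
  have key := h3 (E n) (gd g2) κ hcat (α (-r)) (α r) (σ s) (α t) (2 * D)
    (by rw [d1, d2, ← hT]; ring) (by linarith) (by rw [d1]; linarith) (by rw [d2]; linarith)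
  have d3 := of_cosh hcat.pos key
  have d4 : gd g2 (σ s) (σ (t + r)) ≤ D := by
    rw [hln2 σ hσ]
    exact hs3
  have d5 := hcat.pm.tri (α t) (σ s) (σ (t + r))
  linarith

end IRSh

open IRSh in
theorem pr_RSh (h1 : RLim) (h2 : RCat) (h3 : MMd) (h4 : StCvG) (h5 : StUG) (h6 : StCtsD)
    (h7 : StFlow) : RSh := by
  intro n G _ _ g1 g2 κ a c1 c2 l D hP
  have cv1 : Cv g1 κ := ⟨hP.r1, hP.kpos, hP.k1, h7 n G hP.coc g1 hP.r1 hP.i1⟩
  have cv2 : Cv g2 κ := ⟨hP.r2, hP.kpos, hP.k2, h7 n G hP.coc g2 hP.r2 hP.i2⟩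
  have hcat := h2 n g2 κ cv2
  obtain ⟨-, hln1, -⟩ := h4 n g1 κ cv1
  obtain ⟨-, hln2, hex⟩ := h4 n g2 κ cv2
  have hD : 0 ≤ D := le_trans (abs_nonneg _) (hP.cmp 0 0)
  refine ⟨2 * D + 1 / κ + D, ?_⟩
  intro α hα
  obtain ⟨N, hN⟩ := exists_nat_gt D
  have hseg : ∀ i : ℕ, ∃ σ, UG g2 σ ∧ ∀ t, |t| ≤ ((i + N : ℕ) : ℝ) →
      gd g2 (α t) (σ (t + ((i + N : ℕ) : ℝ))) ≤ 2 * D + 1 / κ + D := by
    intro i
    refine seg hcat h3 hln1 hln2 hex hD hP.cmp hα ?_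
    push_cast
    have : (0 : ℝ) ≤ i := Nat.cast_nonneg i
    linarith
  choose σ hσ hσt using hseg
  obtain ⟨τ, ψ, hψ, hτ, hlim⟩ := h1 n G hP.coc g2 hP.r2 hP.i2
    (fun i t => σ i (t + ((i + N : ℕ) : ℝ))) (α 0) (2 * D + 1 / κ + D)
    (fun i => (h5 n g2 (σ i) (hσ i)).1 _)
    (fun i => hσt i 0 (by rw [abs_zero]; exact Nat.cast_nonneg _))
  refine ⟨τ, hτ, ?_⟩
  intro t
  have hcont : Tendsto (fun i => gd g2 (α t) (σ (ψ i) (t + ((ψ i + N : ℕ) : ℝ)))) atTop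
      (𝓝 (gd g2 (α t) (τ t))) := by
    have hc := (h6 n g2).tendsto (α t, τ t)
    exact hc.comp (Tendsto.prodMk_nhds tendsto_const_nhds (hlim t))
  refine le_of_tendsto hcont ?_
  obtain ⟨m, hm⟩ := exists_nat_ge |t|
  filter_upwards [eventually_ge_atTop m] with i hi
  apply hσt
  refine le_trans hm ?_
  have h8 : i ≤ ψ i := hψ.id_le i
  exact_mod_cast (by omega : m ≤ ψ i + N)

end Pool.Agent.LX
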