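import Pool.Agent.Work.MP_25cd3b_gt.LX.StmtsR

set_option autoImplicit false

/-!
# MP_25cd3b_gt, block LX, part R, item RT1: forward asymptotic geodesics
-/

open MeasureTheory Set Filter Topology
open scoped ContDiff ENNReal
open Pool.Agent.Work.MP_c9f990_an.Al (IsFlow)

namespace Pool.Agent.LX

open Pool.Agent.MLS Pool.Agent.STR Pool.Agent.LR

namespace IRT1

/-- the number `N` -/
theorem exN {κ ρ A : ℝ} (hκ : 0 < κ) (hρ : 0 < ρ) (hA : 0 < A) : ∃ N : ℕ, 1 ≤ N ∧ ∀ t : ℝ,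
    -1 ≤ t → Real.exp (6 * A * Real.exp (-(κ * (t + N)))) ≤ Real.cosh (κ * ρ) := by
  have h1 : 1 < Real.cosh (κ * ρ) := Real.one_lt_cosh.2 (mul_pos hκ hρ).ne'
  set η : ℝ := Real.log (Real.cosh (κ * ρ)) with hη
  have hη0 : 0 < η := Real.log_pos h1
  obtain ⟨N, hN⟩ := exists_nat_ge (max 1 (1 + Real.log (6 * A / η) / κ))
  refine ⟨N, by exact_mod_cast (le_max_left _ _).trans hN, ?_⟩
  intro t ht
  have h2 : 1 + Real.log (6 * A / η) / κ ≤ N := (le_max_right _ _).trans hN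
  have h3 : Real.log (6 * A / η) ≤ κ * (t + N) := by
    have h4 : Real.log (6 * A / η) / κ ≤ N - 1 := by linarith
    rw [div_le_iff₀ hκ] at h4
    nlinarith
  have hq : 0 < 6 * A / η := by positivity
  have h5 : Real.exp (-(κ * (t + N))) ≤ η / (6 * A) := by
    calc Real.exp (-(κ * (t + N))) ≤ Real.exp (-Real.log (6 * A / η)) :=
          Real.exp_le_exp.2 (by linarith)
      _ = η / (6 * A) := by
          rw [Real.exp_neg, Real.exp_log hq, inv_div]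
  have h6 : 6 * A * Real.exp (-(κ * (t + N))) ≤ η := by
    calc 6 * A * Real.exp (-(κ * (t + N))) ≤ 6 * A * (η / (6 * A)) :=
          mul_le_mul_of_nonneg_left h5 (by positivity)
      _ = η := by field_simp
  calc Real.exp (6 * A * Real.exp (-(κ * (t + N)))) ≤ Real.exp η := Real.exp_le_exp.2 h6
    _ = Real.cosh (κ * ρ) := by rw [hη, Real.exp_log (by linarith)]

theorem le_of_cosh {κ ρ x : ℝ} (hκ : 0 < κ) (hρ : 0 < ρ)
    (h : Real.cosh (κ * x) ≤ Real.cosh (κ * ρ)) : x ≤ ρ := by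
  rw [Real.cosh_le_cosh, abs_of_pos (mul_pos hκ hρ)] at h
  have h1 : κ * x ≤ κ * ρ := (le_abs_self _).trans h
  exact le_of_mul_le_mul_left h1 hκ

end IRT1

theorem pr_RT1 (h1 : RSh) (h2 : RBk) (h3 : RCat) (h4 : MAs) (h5 : MAe) (h6 : StUG) (h7 : StCvG)
    (h8 : StFlow) : RT1 := by
  intro n G _ _ g1 g2 κ a c1 c2 l D P
  obtain ⟨C₀, hC₀⟩ := h1 n G g1 g2 κ a c1 c2 l D P
  have cv1 : Cv g1 κ := ⟨P.r1, P.kpos, P.k1, h8 n G P.coc g1 P.r1 P.i1⟩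
  have cv2 : Cv g2 κ := ⟨P.r2, P.kpos, P.k2, h8 n G P.coc g2 P.r2 P.i2⟩
  have cat2 := h3 n g2 κ cv2
  have pm2 := cat2.pm
  have ln2 : ∀ σ, UG g2 σ → Ln (gd g2) σ := (h7 n g2 κ cv2).2.1
  have hcmp : ∀ x y, gd g2 x y ≤ gd g1 x y + D := by
    intro x y
    have := abs_le.1 (P.cmp x y)
    linarith [this.1]
  set D' : ℝ := C₀ + 1 + 2 * D with hD'
  set C : ℝ := C₀ + D' with hC
  refine ⟨C, ?_⟩
  intro ρ hρ
  set D'' : ℝ := C + 1 + 2 * D with hD''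
  obtain ⟨N, hN1, hN⟩ := IRT1.exN P.kpos hρ (Real.exp_pos (κ * D'' / 2))
  obtain ⟨δ, hδ, hbk⟩ := h2 n G P.coc g1 κ cv1 P.i1 N 1 one_pos
  refine ⟨min δ 1, lt_min hδ one_pos, ?_⟩
  intro α hα hαc
  obtain ⟨α', hα', hsh⟩ := hC₀ α hα
  -- the shift
  have b1 : ∀ t, 0 ≤ t → gd g2 (c2 t) (α' t) ≤ D' := by
    intro t ht
    have e1 : gd g2 (α t) (c1 t) ≤ 1 + D :=
      (hcmp _ _).trans (by linarith [(hαc t ht).trans (min_le_right δ 1)])
    have e2 := P.clo t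
    have e3 := hsh t
    have e4 := pm2.tri (c2 t) (c1 t) (α' t)
    have e5 := pm2.tri (c1 t) (α t) (α' t)
    rw [pm2.symm (c2 t) (c1 t)] at e4
    rw [pm2.symm (c1 t) (α t)] at e5
    linarith
  obtain ⟨s, hs, has⟩ := h4 (E n) (gd g2) κ cat2 c2 α' (ln2 c2 P.u2) (ln2 α' hα') D' b1
  have hu : UG g2 (fun t => α' (t + s)) := (h6 n g2 α' hα').1 s
  have bC : ∀ t, gd g2 (α t) (α' (t + s)) ≤ C := by
    intro t
    have e1 := pm2.tri (α t) (α' t) (α' (t + s))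
    have e2 := hsh t
    have e3 : gd g2 (α' t) (α' (t + s)) = |s| := by
      rw [ln2 α' hα' t (t + s)]
      rw [show t - (t + s) = -s by ring, abs_neg]
    rw [e3] at e1
    linarith
  refine ⟨fun t => α' (t + s), hu, ?_, ?_, bC⟩
  · have e1 : Tendsto (fun t => gd g2 (c2 t) (α' (t + s))) atTop (𝓝 0) := has
    show Tendsto (fun t => gd g2 (α' (t + s)) (c2 t)) atTop (𝓝 0)
    refine e1.congr fun t => ?_
    exact pm2.symm _ _
  · intro t ht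
    have hNr : (1 : ℝ) ≤ N := by exact_mod_cast hN1
    have e1 : gd g1 (α (-(N : ℝ))) (c1 (-(N : ℝ))) ≤ 1 :=
      hbk α c1 hα P.u1 (fun t ht => (hαc t ht).trans (min_le_left δ 1)) _ le_rfl
    have e2 : gd g2 (c2 (-(N : ℝ))) (α' (-(N : ℝ) + s)) ≤ D'' := by
      have f1 := hcmp (α (-(N : ℝ))) (c1 (-(N : ℝ)))
      have f2 := P.clo (-(N : ℝ))
      have f3 := bC (-(N : ℝ))
      have f4 := pm2.tri (c2 (-(N : ℝ))) (c1 (-(N : ℝ))) (α' (-(N : ℝ) + s))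
      have f5 := pm2.tri (c1 (-(N : ℝ))) (α (-(N : ℝ))) (α' (-(N : ℝ) + s))
      rw [pm2.symm (c2 (-(N : ℝ))) (c1 (-(N : ℝ)))] at f4
      rw [pm2.symm (c1 (-(N : ℝ))) (α (-(N : ℝ)))] at f5
      linarith
    have e3 := h5 (E n) (gd g2) κ cat2 c2 (fun t => α' (t + s)) (ln2 c2 P.u2) (ln2 _ hu) has N D''
      e2 t (by linarith)
    exact IRT1.le_of_cosh P.kpos hρ (e3.trans (hN t ht))

end Pool.Agent.LX
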