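import Pool.Agent.Work.MP_25cd3b_gt.LX.StmtsR

set_option autoImplicit false

/-! # Item RT2: backward asymptotic geodesics -/

open MeasureTheory Set Filter Topology
open scoped ContDiff ENNReal

namespace Pool.Agent.LX

open Pool.Agent.MLS Pool.Agent.STR Pool.Agent.LR

namespace IRT2

/-- reversal of a unit speed geodesic -/
theorem ug_neg (h2 : StUG) {n : ℕ} {g : Form n} {c : ℝ → E n} (h : UG g c) :
    UG g (fun t => c (-t)) := by
  have := (h2 n g c h).2.1 0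
  simpa [zero_sub] using this

/-- the reversed data -/
theorem rev (h2 : StUG) {n : ℕ} {G : Type} [Group G] [MulAction G (E n)] {g1 g2 : Form n} {κ : ℝ}
    {a : G} {c1 c2 : ℝ → E n} {l D : ℝ} (P : Pr2 n G g1 g2 κ a c1 c2 l D) :
    Pr2 n G g1 g2 κ a⁻¹ (fun t => c1 (-t)) (fun t => c2 (-t)) l D where
  coc := P.coc
  r1 := P.r1
  r2 := P.r2
  i1 := P.i1
  i2 := P.i2
  kpos := P.kpos
  k1 := P.k1
  k2 := P.k2
  u1 := ug_neg h2 P.u1
  u2 := ug_neg h2 P.u2
  pos := P.pos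
  p1 := by
    intro t
    have h := P.p1 (-(t + l))
    have e : -(t + l) + l = -t := by ring
    rw [e] at h
    show c1 (-(t + l)) = a⁻¹ • c1 (-t)
    rw [h, inv_smul_smul]
  p2 := by
    intro t
    have h := P.p2 (-(t + l))
    have e : -(t + l) + l = -t := by ring
    rw [e] at h
    show c2 (-(t + l)) = a⁻¹ • c2 (-t)
    rw [h, inv_smul_smul]
  cmp := P.cmp
  clo := fun t => P.clo (-t)
  fin := by
    have h := P.fin
    show Fin4 G (gd g1) (c1 (-0))
    rw [neg_zero]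
    exact h

end IRT2

open IRT2 in
theorem pr_RT2 (h1 : RT1) (h2 : StUG) : RT2 := by
  intro n G _ _ g1 g2 κ a c1 c2 l D P
  obtain ⟨C, hC⟩ := h1 n G g1 g2 κ a⁻¹ (fun t => c1 (-t)) (fun t => c2 (-t)) l D (rev h2 P)
  refine ⟨C, fun ρ hρ => ?_⟩
  obtain ⟨ρ₁, hρ₁, H⟩ := hC ρ hρ
  refine ⟨ρ₁, hρ₁, fun β hβ hc => ?_⟩
  obtain ⟨α2, hu, ha, hr, hb⟩ := H (fun t => β (-t)) (ug_neg h2 hβ)
    (fun t ht => hc (-t) (by linarith))
  refine ⟨fun t => α2 (-t), ug_neg h2 hu, ?_, ?_, ?_⟩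
  · show Tendsto (fun t => gd g2 (α2 (- -t)) (c2 (-t))) atTop (𝓝 0)
    have h : Tendsto (fun t => gd g2 (α2 t) (c2 (-t))) atTop (𝓝 0) := ha
    simpa only [neg_neg] using h
  · intro t ht
    have h := hr (-t) (by linarith)
    simpa only [neg_neg] using h
  · intro t
    have h := hb (-t)
    simpa only [neg_neg] using h

end Pool.Agent.LX
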