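import Pool.Agent.Work.MP_25cd3b_gt.LX.StmtsR

set_option autoImplicit false

/-!
# MP_25cd3b_gt, block LX: item RTau (temporal displacements)
-/

open MeasureTheory Set Filter Topology
open scoped ContDiff ENNReal
open Pool.Agent.Work.MP_c9f990_an.Al (IsFlow)

namespace Pool.Agent.LX

open Pool.Agent.MLS Pool.Agent.STR Pool.Agent.LR

namespace IRTau

theorem cv {n : ℕ} {G : Type} [Group G] [MulAction G (E n)] (C : Cocompact n G) (g : Form n)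
    (κ : ℝ) (hR : Riem g) (hI : Inv G g) (hk : 0 < κ) (hC : CurvLe g κ) (h4 : StFlow) :
    Cv g κ := by
  obtain ⟨φ, M, h⟩ := h4 n G C g hR hI
  exact ⟨hR, hk, hC, φ, M, h⟩

end IRTau

open IRTau in
/-- ITEM RTau. -/
theorem pr_RTau (h1 : MTa) (h2 : RAct) (h3 : StCvG) (h4 : StFlow) : RTau := by
  intro n G _ _ g1 g2 κ a c1 c2 l D P hL C α β α2 β2 k τ uα uβ uα2 uβ2 dα dβ aα bβ aα2 bβ2 hT
  have A1 := h2 n G P.coc g1 κ P.r1 P.i1 P.kpos P.k1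
  have A2 := h2 n G P.coc g2 κ P.r2 P.i2 P.kpos P.k2
  have e : (fun b : G => L g1 b) = fun b => L g2 b := funext hL
  rw [e] at A1
  have l1 := (h3 n g1 κ (cv P.coc g1 κ P.r1 P.i1 P.kpos P.k1 h4)).2.1
  have l2 := (h3 n g2 κ (cv P.coc g2 κ P.r2 P.i2 P.kpos P.k2 h4)).2.1
  have K := h1 G (E n) (gd g1) (gd g2) κ (fun b => L g2 b) A1 A2 a c1 c2 l
    ⟨l1 c1 P.u1, P.pos, P.p1⟩ ⟨l2 c2 P.u2, P.pos, P.p2⟩ P.fin (max D C)
    (fun x y => (P.cmp x y).trans (le_max_left _ _))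
    (fun t => (P.clo t).trans (le_max_left _ _)) α β α2 β2 k τ (l1 α uα) (l1 β uβ)
    (l2 α2 uα2) (l2 β2 uβ2) (fun t => (dα t).trans (le_max_right _ _))
    (fun t => (dβ t).trans (le_max_right _ _)) aα bβ aα2 bβ2 hT
  exact K

end Pool.Agent.LX
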