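import Pool.Agent.Work.MP_25cd3b_gt.LX.StmtsR
import Pool.Agent.Work.MP_25cd3b_gt.NG.All

set_option autoImplicit false

/-!
# MP_25cd3b_gt, block LX, item RUnb: the closed geodesic is not everything
-/

open MeasureTheory Set Filter Topology
open scoped ContDiff ENNReal
open Pool.Agent.Work.MP_c9f990_an.Al (IsFlow)

namespace Pool.Agent.LX

open Pool.Agent.MLS Pool.Agent.STR Pool.Agent.LR

namespace IRUnb

theorem ug_expo {n : ℕ} {g : Form n} {φ : ℝ → W n → W n} {M : ℝ → W n → W n →L[ℝ] W n}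
    (hg : Riem g) (hφ : IsFlow (XH (Hm g)) φ M) (x w : E n) (hww : g.val x w w = 1) :
    UG g (fun t => expo φ g x (t • w)) := by
  obtain ⟨-, -, hexp, -, -⟩ := p_NcExp n g φ M hg hφ x
  obtain ⟨-, -, hiop, -, -, -, -, -, hHm⟩ := pr_Op n g hg
  obtain ⟨hG, hder, hE⟩ := p_Geo1 n g hg (fun t => φ t (x, op g x w))
    (fun t => hφ.ode (x, op g x w) t)
  have hfe : (fun t : ℝ => expo φ g x (t • w)) = fun t => (φ t (x, op g x w)).1 := by
    funext t
    exact (hexp t w).symm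
  rw [hfe]
  refine ⟨hG, ?_⟩
  intro t
  have h1 := hE t
  simp only [hφ.zero] at h1
  rw [hHm, hHm] at h1
  have h2 : vel g (x, op g x w) = w := hiop x w
  rw [h2] at h1
  simp only [hww] at h1
  rw [hder t]
  linarith

theorem sinh_big {κ S : ℝ} (hκ : 0 < κ) (hS : 1 ≤ S) :
    Real.sinh κ * Real.exp (κ * (S - 1)) ≤ Real.sinh (κ * S) := by
  have h1 : κ * S = κ + κ * (S - 1) := by ring
  rw [h1, Real.sinh_add, ← Real.cosh_add_sinh (κ * (S - 1)), mul_add]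
  have h2 : 0 ≤ Real.sinh (κ * (S - 1)) := Real.sinh_nonneg_iff.mpr (mul_nonneg hκ.le (by linarith))
  have h3 : Real.sinh κ ≤ Real.cosh κ := (Real.sinh_lt_cosh κ).le
  have h4 := mul_le_mul_of_nonneg_right h3 h2
  linarith

theorem cosh_le_exp {x : ℝ} (hx : 0 ≤ x) : Real.cosh x ≤ Real.exp x := by
  rw [Real.cosh_eq]
  have h1 : Real.exp (-x) ≤ Real.exp x := Real.exp_le_exp.mpr (by linarith)
  linarith

theorem far {κ d1 dS S : ℝ} (hκ : 0 < κ) (hd1 : 0 < d1) (hdS : 0 ≤ dS) (hS : 1 ≤ S)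
    (h : Real.sinh (κ * S) ^ 2 * (Real.cosh (κ * d1) - 1) ≤
      Real.sinh (κ * 1) ^ 2 * (Real.cosh (κ * dS) - 1)) :
    2 * (S - 1) + Real.log (Real.cosh (κ * d1) - 1) / κ ≤ dS := by
  have hη : 0 < Real.cosh (κ * d1) - 1 := by
    have h1 := Real.one_lt_cosh.mpr (mul_pos hκ hd1).ne'
    linarith
  rw [mul_one] at h
  have hsh : 0 < Real.sinh κ := Real.sinh_pos_iff.mpr hκ
  have h2 := sinh_big hκ hS
  have h3 : (Real.sinh κ * Real.exp (κ * (S - 1))) ^ 2 ≤ Real.sinh (κ * S) ^ 2 :=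
    pow_le_pow_left₀ (mul_nonneg hsh.le (Real.exp_pos _).le) h2 2
  have h4 := mul_le_mul_of_nonneg_right h3 hη.le
  have h5 : Real.sinh κ ^ 2 * (Real.exp (κ * (S - 1)) ^ 2 * (Real.cosh (κ * d1) - 1)) ≤
      Real.sinh κ ^ 2 * (Real.cosh (κ * dS) - 1) := by
    calc _ = (Real.sinh κ * Real.exp (κ * (S - 1))) ^ 2 * (Real.cosh (κ * d1) - 1) := by ring
      _ ≤ _ := h4
      _ ≤ _ := h
  have h6 := le_of_mul_le_mul_left h5 (pow_pos hsh 2)
  have h7 := cosh_le_exp (mul_nonneg hκ.le hdS)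
  have h8 : Real.exp (κ * (S - 1)) ^ 2 * (Real.cosh (κ * d1) - 1) ≤ Real.exp (κ * dS) := by
    linarith
  have h9 : Real.exp (κ * (S - 1)) ^ 2 * (Real.cosh (κ * d1) - 1) =
      Real.exp (2 * κ * (S - 1) + Real.log (Real.cosh (κ * d1) - 1)) := by
    rw [Real.exp_add, Real.exp_log hη, ← Real.exp_nat_mul]
    congr 2
    push_cast
    ring
  rw [h9, Real.exp_le_exp] at h8
  have h10 : κ * (2 * (S - 1) + Real.log (Real.cosh (κ * d1) - 1) / κ) =
      2 * κ * (S - 1) + Real.log (Real.cosh (κ * d1) - 1) := by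
    field_simp
  have h11 : κ * (2 * (S - 1) + Real.log (Real.cosh (κ * d1) - 1) / κ) ≤ κ * dS := by
    rw [h10]; exact h8
  exact le_of_mul_le_mul_left h11 hκ

end IRUnb

open IRUnb in
theorem pr_RUnb (h1 : StCvG) (h2 : StIso) (h3 : StUG) : RUnb := by
  intro n G _ _ g κ φ M lg a c l V hP hv D
  obtain ⟨v, hvV, hv0⟩ := hv
  have hcv : Cv g κ := ⟨hP.riem, hP.kpos, hP.curv, φ, M, hP.flow⟩
  have hκ := hP.kpos
  obtain ⟨hNC, hmin, hex⟩ := h1 n g κ hcv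
  have hPM := (pr_Gd n g).2.1
  have hvv : 0 < g.val (c 0) v v := hP.riem (c 0) v hv0
  have hr : 0 < Real.sqrt (g.val (c 0) v v) := Real.sqrt_pos.mpr hvv
  obtain ⟨w, hw⟩ : ∃ w : E n, w = (Real.sqrt (g.val (c 0) v v))⁻¹ • v := ⟨_, rfl⟩
  have hww : g.val (c 0) w w = 1 := by
    rw [hw, map_smul, map_smul, ContinuousLinearMap.smul_apply, smul_eq_mul, smul_eq_mul]
    have h4 := Real.mul_self_sqrt hvv.le
    field_simp
    rw [← sq] at h4
    exact h4.symm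
  have hcw : g.val (c 0) (deriv c 0) w = 0 := by
    rw [hw, map_smul, (hP.mem v).mp hvV, smul_zero]
  have hσ := ug_expo hP.riem hP.flow (c 0) w hww
  obtain ⟨σ, hσe⟩ : ∃ σ : ℝ → E n, σ = fun t => expo φ g (c 0) (t • w) := ⟨_, rfl⟩
  rw [← hσe] at hσ
  have hinj : Function.Injective (expo φ g (c 0)) :=
    (p_NcDist n g φ M hP.riem hP.flow (c 0)
      (fun v w => p_NcInj n g φ M hP.riem hP.flow hNC (c 0) v w)).1.1
  have hc : ∀ t, c t = expo φ g (c 0) (t • deriv c 0) := by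
    intro t
    have h4 := (p_NcGx n g φ M hP.riem hP.flow c hP.ug.geo 0 t).2
    rwa [sub_zero] at h4
  have hσ0 : σ 0 = c 0 := by
    rw [hσe]
    show expo φ g (c 0) ((0 : ℝ) • w) = c 0
    rw [zero_smul]
    exact (p_NcExp n g φ M hP.riem hP.flow (c 0)).2.2.2.2
  have hcc : g.val (c 0) (deriv c 0) (deriv c 0) = 1 := hP.ug.unit 0
  have hσ1 : σ 1 = expo φ g (c 0) w := by
    rw [hσe]
    show expo φ g (c 0) ((1 : ℝ) • w) = _
    rw [one_smul]
  have hne1 : σ 1 ≠ c 1 := by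
    intro h
    rw [hσ1, hc 1, one_smul] at h
    have h4 := hinj h
    rw [h4, hcc] at hcw
    exact one_ne_zero hcw
  have hne2 : σ 1 ≠ c (0 - 1) := by
    intro h
    rw [hσ1, hc (0 - 1)] at h
    have h4 := hinj h
    rw [h4, map_smul, hcc] at hcw
    norm_num at hcw
  obtain ⟨-, -, -, -, hd1⟩ := hex _ _ hne1
  obtain ⟨-, -, -, -, hd2⟩ := hex _ _ hne2
  have hrev : UG g (fun t => c (0 - t)) := (h3 n g c hP.ug).2.1 0
  have hI1 := h2 n g κ hcv σ c hσ hP.ug hσ0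
  have hI2 := h2 n g κ hcv σ (fun t => c (0 - t)) hσ hrev (by
    show σ 0 = c (0 - 0)
    rw [hσ0, sub_zero])
  obtain ⟨A1, hA1⟩ : ∃ A1, A1 = Real.log (Real.cosh (κ * gd g (σ 1) (c 1)) - 1) / κ := ⟨_, rfl⟩
  obtain ⟨A2, hA2⟩ : ∃ A2, A2 = Real.log (Real.cosh (κ * gd g (σ 1) (c (0 - 1))) - 1) / κ :=
    ⟨_, rfl⟩
  obtain ⟨R, hR⟩ : ∃ R, R = max 1 (D + 1 + |A1| + |A2|) := ⟨_, rfl⟩
  have hR1 : 1 ≤ R := by rw [hR]; exact le_max_left _ _
  have hR2 : D + 1 + |A1| + |A2| ≤ R := by rw [hR]; exact le_max_right _ _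
  have hF1 := far hκ hd1 (hPM.nonneg (σ R) (c R)) hR1 (hI1 1 R zero_le_one hR1)
  have hF2 := far hκ hd2 (hPM.nonneg (σ R) (c (0 - R))) hR1 (hI2 1 R zero_le_one hR1)
  rw [← hA1] at hF1
  rw [← hA2] at hF2
  have ha1 := neg_abs_le A1
  have ha2 := neg_abs_le A2
  have hb1 := abs_nonneg A1
  have hb2 := abs_nonneg A2
  have hσR : gd g (σ R) (c 0) = R := by
    rw [← hσ0, hmin σ hσ, sub_zero, abs_of_nonneg (by linarith)]
  refine ⟨σ R, fun t => ?_⟩
  have hct : gd g (c 0) (c t) = |t| := by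
    rw [hmin c hP.ug, zero_sub, abs_neg]
  have t1 := hPM.tri (σ R) (c t) (c 0)
  rw [hPM.symm (c t) (c 0), hct, hσR] at t1
  have t2 := hPM.tri (c 0) (σ R) (c t)
  rw [hct, hPM.symm (c 0) (σ R), hσR] at t2
  rcases le_total 0 t with ht | ht
  · rw [abs_of_nonneg ht] at t1 t2
    have t3 := hPM.tri (σ R) (c t) (c R)
    rw [hmin c hP.ug t R] at t3
    have t4 : |t - R| ≤ gd g (σ R) (c t) := by
      rw [abs_le]
      constructor <;> linarith
    linarith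
  · rw [abs_of_nonpos ht] at t1 t2
    have t3 := hPM.tri (σ R) (c t) (c (0 - R))
    rw [hmin c hP.ug t (0 - R)] at t3
    have t4 : |t - (0 - R)| ≤ gd g (σ R) (c t) := by
      rw [abs_le]
      constructor <;> linarith
    linarith

end Pool.Agent.LX
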