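import Pool.Agent.Work.MP_25cd3b_gt.LX.StmtsA

set_option autoImplicit false

/-!
# Block LX, item XBvp: boundary value problem with sources
-/

open Set Filter Topology
open scoped ContDiff

namespace Pool.Agent.LX

namespace IXBvp

variable {V : Type} [NormedAddCommGroup V] [NormedSpace ℝ V]

/-- extension by zero -/
def ext (V : Type) [NormedAddCommGroup V] [NormedSpace ℝ V] (k : ℕ) :
    (Fin k → V) →ₗ[ℝ] (ℕ → V) where
  toFun v := fun j => if h : 1 ≤ j ∧ j ≤ k then v ⟨j - 1, by omega⟩ else 0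
  map_add' := by
    intro v w
    funext j
    by_cases h : 1 ≤ j ∧ j ≤ k
    · simp [h]
    · simp [h]
  map_smul' := by
    intro c v
    funext j
    by_cases h : 1 ≤ j ∧ j ≤ k
    · simp [h]
    · simp [h]

theorem ext_zero (k : ℕ) (v : Fin k → V) : ext V k v 0 = 0 := by
  show (if h : 1 ≤ 0 ∧ 0 ≤ k then v ⟨0 - 1, by omega⟩ else 0) = 0
  rw [dif_neg (by omega)]

theorem ext_top (k : ℕ) (v : Fin k → V) : ext V k v (k + 1) = 0 := by
  show (if h : 1 ≤ k + 1 ∧ k + 1 ≤ k then v ⟨k + 1 - 1, by omega⟩ else 0) = 0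
  rw [dif_neg (by omega)]

theorem ext_mid (k : ℕ) (v : Fin k → V) (i : Fin k) : ext V k v (i + 1) = v i := by
  show (if h : 1 ≤ (i : ℕ) + 1 ∧ (i : ℕ) + 1 ≤ k then v ⟨(i : ℕ) + 1 - 1, by omega⟩ else 0) = v i
  rw [dif_pos ⟨by omega, by omega⟩]
  rfl

/-- the left side of the equation at the point `j + 1` -/
noncomputable def Lf (H : ℕ → Bf V) (j : ℕ) : (ℕ → V) →ₗ[ℝ] Module.Dual ℝ V where
  toFun Y := (H j (Y j, Y (j + 1))).toLinearMap.comp (LinearMap.inr ℝ V V) +
    (H (j + 1) (Y (j + 1), Y (j + 2))).toLinearMap.comp (LinearMap.inl ℝ V V)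
  map_add' := by
    intro Y Z
    ext w
    have e1 : ((Y + Z) j, (Y + Z) (j + 1)) = (Y j, Y (j + 1)) + (Z j, Z (j + 1)) := rfl
    have e2 : ((Y + Z) (j + 1), (Y + Z) (j + 2)) =
      (Y (j + 1), Y (j + 2)) + (Z (j + 1), Z (j + 2)) := rfl
    rw [e1, e2, map_add, map_add]
    simp only [LinearMap.add_apply, LinearMap.comp_apply, ContinuousLinearMap.coe_coe,
      ContinuousLinearMap.add_apply]
    ring
  map_smul' := by
    intro c Y
    ext w
    have e1 : ((c • Y) j, (c • Y) (j + 1)) = c • (Y j, Y (j + 1)) := rfl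
    have e2 : ((c • Y) (j + 1), (c • Y) (j + 2)) = c • (Y (j + 1), Y (j + 2)) := rfl
    rw [e1, e2, map_smul, map_smul]
    simp only [LinearMap.add_apply, LinearMap.comp_apply, ContinuousLinearMap.coe_coe,
      ContinuousLinearMap.smul_apply, LinearMap.smul_apply, RingHom.id_apply, smul_eq_mul]
    ring

theorem Lf_apply (H : ℕ → Bf V) (j : ℕ) (Y : ℕ → V) (w : V) :
    Lf H j Y w = H j (Y j, Y (j + 1)) (0, w) + H (j + 1) (Y (j + 1), Y (j + 2)) (w, 0) := rfl

/-- the linear map of the boundary value problem -/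
noncomputable def T (H : ℕ → Bf V) (k : ℕ) : (Fin k → V) →ₗ[ℝ] (Fin k → Module.Dual ℝ V) :=
  LinearMap.pi (fun i : Fin k => (Lf H i).comp (ext V k))

theorem T_apply (H : ℕ → Bf V) (k : ℕ) (v : Fin k → V) (i : Fin k) :
    T H k v i = Lf H i (ext V k v) := rfl

theorem T_inj (h1 : XGreen) (lam : ℝ) (hlam : 0 < lam) (H : ℕ → Bf V)
    (hH : ∀ j, Pos lam (H j)) (k : ℕ) : Function.Injective (T H k) := by
  rw [injective_iff_map_eq_zero]
  intro v hv
  have hsol : Sol H (k + 1) (ext V k v) := by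
    intro j hj w
    have hjk : j < k := by omega
    have e1 := congrFun hv ⟨j, hjk⟩
    have e2 := LinearMap.congr_fun e1 w
    rw [T_apply, Lf_apply] at e2
    exact e2
  have hE := h1 V H k (ext V k v) (ext V k v) hsol
  rw [ext_zero, ext_top] at hE
  have hz : ((0 : V), (0 : V)) = 0 := rfl
  rw [hz, map_zero, map_zero, add_zero] at hE
  have hpos : ∀ j ∈ Finset.range (k + 1), 0 ≤ H j (ext V k v j, ext V k v (j + 1))
      (ext V k v j, ext V k v (j + 1)) := by
    intro j _
    refine le_trans ?_ ((hH j).pos _ _)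
    positivity
  have hall := (Finset.sum_eq_zero_iff_of_nonneg hpos).1 hE
  funext i
  have hi : (i : ℕ) ∈ Finset.range (k + 1) := by
    rw [Finset.mem_range]
    have := i.2
    omega
  have h2 := hall i hi
  have h3 := (hH i).pos (ext V k v i) (ext V k v (i + 1))
  rw [h2] at h3
  rw [ext_mid] at h3
  have h4 : ‖v i‖ ^ 2 ≤ 0 := by
    have h5 : 0 ≤ ‖ext V k v i‖ ^ 2 := by positivity
    have h6 : 0 ≤ ‖v i‖ ^ 2 := by positivity
    by_contra hcon
    have h7 : 0 < ‖v i‖ ^ 2 := not_le.1 hcon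
    have h8 : 0 < lam * (‖ext V k v i‖ ^ 2 + ‖v i‖ ^ 2) := mul_pos hlam (by linarith)
    linarith
  have h5 : ‖v i‖ = 0 := by
    have h6 : 0 ≤ ‖v i‖ ^ 2 := by positivity
    exact pow_eq_zero_iff (two_ne_zero) |>.1 (le_antisymm h4 h6)
  exact norm_eq_zero.1 h5

end IXBvp

open IXBvp in
/-- Item XBvp. -/
theorem pr_XBvp (h1 : XGreen) : XBvp := by
  intro V _ _ _ lam hlam H hH k x z f
  have hsurj : Function.Surjective (T H k) := by
    have hfr : Module.finrank ℝ (Fin k → V) = Module.finrank ℝ (Fin k → Module.Dual ℝ V) := by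
      rw [Module.finrank_pi_fintype, Module.finrank_pi_fintype]
      simp only [Subspace.dual_finrank_eq]
    exact (LinearMap.injective_iff_surjective_of_finrank_eq_finrank hfr).1
      (T_inj h1 lam hlam H hH k)
  let Y0 : ℕ → V := fun j => if j = 0 then x else if j = k + 1 then z else 0
  obtain ⟨v, hv⟩ := hsurj (fun i : Fin k => (f (i + 1)).toLinearMap - Lf H i Y0)
  refine ⟨Y0 + ext V k v, ?_, ?_, ?_⟩
  · rw [Pi.add_apply, ext_zero, add_zero]
    exact if_pos rfl
  · rw [Pi.add_apply, ext_top, add_zero]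
    show (if k + 1 = 0 then x else if k + 1 = k + 1 then z else 0) = z
    rw [if_neg (by omega), if_pos rfl]
  · intro j hj w
    have hjk : j < k := by omega
    have e1 := congrFun hv ⟨j, hjk⟩
    rw [T_apply] at e1
    have e2 := LinearMap.congr_fun e1 w
    rw [LinearMap.sub_apply] at e2
    rw [← Lf_apply, map_add, LinearMap.add_apply, e2]
    simp

end Pool.Agent.LX
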