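import Pool.Agent.Work.MP_25cd3b_gt.LX.StmtsA

set_option autoImplicit false

/-!
# MP_25cd3b_gt, block LX, item XCmp: comparison of the mixed boundary forms
-/

open Set Filter Topology
open scoped ContDiff

namespace Pool.Agent.LX

namespace IXCmp

variable {V : Type} [NormedAddCommGroup V] [NormedSpace ℝ V]

lemma En_symm {lam : ℝ} {H : Bf V} (hH : Pos lam H) (k : ℕ) (Y W : ℕ → V) :
    En (fun _ => H) k Y W = En (fun _ => H) k W Y :=
  Finset.sum_congr rfl fun _ _ => hH.symm _ _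

lemma bf_bound (H : Bf V) (p q : V × V) {a b θ : ℝ} (hθ : ‖H‖ ≤ θ) (hp : ‖p‖ ≤ a) (hq : ‖q‖ ≤ b) :
    |H p q| ≤ θ * a * b := by
  have h0 : 0 ≤ a := (norm_nonneg p).trans hp
  have hθ0 : 0 ≤ θ := (norm_nonneg H).trans hθ
  calc |H p q| ≤ ‖H p‖ * ‖q‖ := (H p).le_opNorm q
    _ ≤ (θ * a) * b := by
        refine mul_le_mul ?_ hq (norm_nonneg q) (mul_nonneg hθ0 h0)
        exact (H.le_opNorm p).trans (mul_le_mul hθ hp (norm_nonneg p) hθ0)

end IXCmp

open IXCmp in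
theorem pr_XCmp (h1 : XGreen) (h2 : XBvp) (h3 : XDec) (h4 : XPer) : XCmp := by
  intro V _ _ _ lam s s' H hlam hpos hGr hs' hs
  obtain ⟨C1, hC1, hdec, -⟩ := h3 V lam s H hlam hpos hGr
  obtain ⟨ρ, C2, hρ, hC2, hper⟩ := h4 V lam s s' H hlam hpos hGr hs' hs
  refine ⟨ρ, C1 * C2, hρ, ?_, ?_⟩
  · nlinarith
  intro k H' θ hθ0 hθ hH' Y' Y hY' hY hY'k hYk hY0 z
  obtain ⟨Z, hZ0, hZk, hZ⟩ := h2 V lam hlam (fun _ => H) (fun _ => hpos) k 0 z (fun _ => 0)
  have hZs : Sol (fun _ => H) (k + 1) Z := fun j hj w => by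
    rw [hZ j hj w]
    rfl
  -- Green
  have g1 : En H' (k + 1) Y' Z = H' k (Y' k, 0) (0, z) := by
    rw [h1 V H' k Y' Z hY', hZ0, hZk, hY'k]
    have : ((0 : V), (0 : V)) = 0 := rfl
    rw [this, map_zero, zero_add]
  have g2 : En (fun _ => H) (k + 1) Y Z = H (Y k, 0) (0, z) := by
    rw [h1 V (fun _ => H) k Y Z hY, hZ0, hZk, hYk]
    have : ((0 : V), (0 : V)) = 0 := rfl
    rw [this, map_zero, zero_add]
  have g3 : ∀ W : ℕ → V, W (k + 1) = 0 → En (fun _ => H) (k + 1) Z W = H (Z 0, Z 1) (W 0, 0) := by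
    intro W hW
    rw [h1 V (fun _ => H) k Z W hZs, hW]
    have : ((0 : V), (0 : V)) = 0 := rfl
    rw [this, map_zero, add_zero]
  have g4 : En (fun _ => H) (k + 1) Y' Z = H (Y k, 0) (0, z) := by
    rw [En_symm hpos, g3 Y' hY'k, hY0, ← g3 Y hYk, ← En_symm hpos, g2]
  have g5 : H' k (Y' k, 0) (0, z) - H (Y k, 0) (0, z) =
      ∑ j ∈ Finset.range (k + 1), (H' j - H) (Y' j, Y' (j + 1)) (Z j, Z (j + 1)) := by
    rw [← g1, ← g4]
    unfold En
    rw [← Finset.sum_sub_distrib]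
    rfl
  -- bounds
  have b1 : ∀ j, j ≤ k + 1 → ‖Y' j‖ ≤ C2 * Real.exp (-(s' * j)) * ‖Y 0‖ := by
    intro j hj
    have := hper (k + 1) H' (fun i hi => (hH' i (by omega)).trans hθ) Y' hY' j hj
    rw [hY'k, norm_zero, mul_zero, add_zero, hY0, ← mul_assoc] at this
    exact this
  have b2 : ∀ j, j ≤ k + 1 → ‖Z j‖ ≤ C1 * Real.exp (-(s' * ((k : ℝ) + 1 - j))) * ‖z‖ := by
    intro j hj
    have := hdec (k + 1) Z hZs hZ0 j hj
    rw [hZk] at this
    refine this.trans ?_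
    have hj' : (j : ℝ) ≤ (k : ℝ) + 1 := by exact_mod_cast hj
    refine mul_le_mul_of_nonneg_right (mul_le_mul_of_nonneg_left ?_ (by linarith)) (norm_nonneg z)
    apply Real.exp_le_exp.2
    push_cast
    nlinarith
  have hY00 : 0 ≤ ‖Y 0‖ := norm_nonneg _
  have hz0 : 0 ≤ ‖z‖ := norm_nonneg _
  have b3 : ∀ j ∈ Finset.range (k + 1), |(H' j - H) (Y' j, Y' (j + 1)) (Z j, Z (j + 1))| ≤
      C1 * C2 * θ * Real.exp (-(s' * k)) * ‖Y 0‖ * ‖z‖ := by
    intro j hj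
    have hj' : j < k + 1 := Finset.mem_range.1 hj
    have c1 : ‖(Y' j, Y' (j + 1))‖ ≤ C2 * Real.exp (-(s' * j)) * ‖Y 0‖ := by
      refine norm_prod_le_iff.2 ⟨b1 j (by omega), (b1 (j + 1) (by omega)).trans ?_⟩
      refine mul_le_mul_of_nonneg_right (mul_le_mul_of_nonneg_left ?_ (by linarith)) hY00
      apply Real.exp_le_exp.2
      push_cast
      nlinarith
    have c2 : ‖(Z j, Z (j + 1))‖ ≤ C1 * Real.exp (-(s' * ((k : ℝ) - j))) * ‖z‖ := by
      refine norm_prod_le_iff.2 ⟨(b2 j (by omega)).trans ?_, (b2 (j + 1) (by omega)).trans (le_of_eq ?_)⟩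
      · refine mul_le_mul_of_nonneg_right (mul_le_mul_of_nonneg_left ?_ (by linarith)) hz0
        apply Real.exp_le_exp.2
        nlinarith
      · congr 3
        push_cast
        ring
    refine (bf_bound (H' j - H) _ _ (hH' j (by omega)) c1 c2).trans (le_of_eq ?_)
    have he : Real.exp (-(s' * k)) = Real.exp (-(s' * j)) * Real.exp (-(s' * ((k : ℝ) - j))) := by
      rw [← Real.exp_add]
      congr 1
      ring
    rw [he]
    ring
  rw [g5]
  refine (Finset.abs_sum_le_sum_abs _ _).trans ((Finset.sum_le_sum b3).trans (le_of_eq ?_))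
  rw [Finset.sum_const, Finset.card_range, nsmul_eq_mul]
  push_cast
  ring

end Pool.Agent.LX
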