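import Pool.Agent.Work.MP_25cd3b_gt.LX.StmtsA

set_option autoImplicit false

/-!
# MP_25cd3b_gt, block LX, item XGreen: Green's formula for chains
-/

open Set Filter Topology
open scoped ContDiff

namespace Pool.Agent.LX

namespace IXGreen

variable {V : Type} [NormedAddCommGroup V] [NormedSpace ℝ V]

theorem split (f : V × V →L[ℝ] ℝ) (a b : V) : f (a, b) = f (a, 0) + f (0, b) := by
  rw [← map_add, Prod.mk_add_mk, add_zero, zero_add]

end IXGreen

theorem pr_XGreen : XGreen := by
  intro V _ _ H k Y W
  induction k with
  | zero =>
    intro _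
    unfold En
    rw [zero_add, Finset.sum_range_one]
    exact IXGreen.split _ _ _
  | succ k ih =>
    intro h
    have h1 : Sol H (k + 1) Y := fun j hj w => h j (by omega) w
    have h2 := ih h1
    have h3 := h k (by omega) (W (k + 1))
    unfold En at h2 ⊢
    rw [Finset.sum_range_succ, h2, IXGreen.split _ (W (k + 1))]
    linarith

end Pool.Agent.LX
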