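import Pool.Agent.Work.MP_25cd3b_gt.LX.StmtsA

set_option autoImplicit false

/-!
# MP_25cd3b_gt, block LX, item XPer: solutions of perturbed linear chains
-/

open Set Filter Topology
open scoped ContDiff

namespace Pool.Agent.LX

namespace IXPer

section

variable {V : Type} [NormedAddCommGroup V] [NormedSpace ℝ V]

theorem split (B : V × V →L[ℝ] ℝ) (v w : V) : B (v, w) = B (v, 0) + B (0, w) := by
  rw [← map_add, Prod.mk_add_mk, add_zero, zero_add]

theorem zero' (B : V × V →L[ℝ] ℝ) : B (0, 0) = 0 := by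
  have : ((0 : V), (0 : V)) = 0 := rfl
  rw [this, map_zero]

/-- Green's formula with sources -/
theorem green (H : ℕ → Bf V) (Y W : ℕ → V) (k : ℕ) :
    En H (k + 1) Y W = H 0 (Y 0, Y 1) (W 0, 0) + H k (Y k, Y (k + 1)) (0, W (k + 1)) +
      ∑ i ∈ Finset.range k, (H i (Y i, Y (i + 1)) (0, W (i + 1)) +
        H (i + 1) (Y (i + 1), Y (i + 2)) (W (i + 1), 0)) := by
  induction k with
  | zero =>
    unfold En
    rw [Finset.sum_range_one, Finset.sum_range_zero, add_zero, split]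
  | succ k ih =>
    have e1 : En H (k + 1 + 1) Y W = En H (k + 1) Y W +
        H (k + 1) (Y (k + 1), Y (k + 2)) (W (k + 1), W (k + 2)) := by
      unfold En
      rw [Finset.sum_range_succ]
    rw [e1, ih, Finset.sum_range_succ, split (H (k + 1) (Y (k + 1), Y (k + 2)))]
    show _ = H 0 (Y 0, Y 1) (W 0, 0) + H (k + 1) (Y (k + 1), Y (k + 2)) (0, W (k + 2)) + _
    ring

theorem sol_green (H : ℕ → Bf V) (Y W : ℕ → V) (k : ℕ) (hk : 0 < k) (hY : Sol H k Y)
    (h0 : W 0 = 0) (h1 : W k = 0) : En H k Y W = 0 := by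
  obtain ⟨m, rfl⟩ : ∃ m, k = m + 1 := ⟨k - 1, by omega⟩
  rw [green, h0, h1, zero', zero', Finset.sum_eq_zero, add_zero, add_zero]
  intro i hi
  rw [Finset.mem_range] at hi
  exact hY i (by omega) _

theorem src_green (H : Bf V) (Y W : ℕ → V) (k j : ℕ) (hj : 0 < j) (hjk : j < k)
    (f : V →L[ℝ] ℝ) (hY : ∀ i, i + 1 < k → ∀ w : V,
      H (Y i, Y (i + 1)) (0, w) + H (Y (i + 1), Y (i + 2)) (w, 0) = if i + 1 = j then f w else 0)
    (h0 : W 0 = 0) (h1 : W k = 0) : En (fun _ => H) k Y W = f (W j) := by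
  obtain ⟨m, rfl⟩ : ∃ m, k = m + 1 := ⟨k - 1, by omega⟩
  rw [green, h0, h1, zero', zero', add_zero, zero_add]
  rw [Finset.sum_eq_single_of_mem (j - 1) (Finset.mem_range.2 (by omega))]
  · rw [hY (j - 1) (by omega), if_pos (by omega), show j - 1 + 1 = j by omega]
  · intro i hi hij
    rw [Finset.mem_range] at hi
    rw [hY i (by omega), if_neg (by omega)]

theorem en_symm (H : Bf V) (hs : ∀ p q, H p q = H q p) (k : ℕ) (Y W : ℕ → V) :
    En (fun _ => H) k Y W = En (fun _ => H) k W Y := by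
  unfold En
  exact Finset.sum_congr rfl fun i _ => hs _ _

theorem en_sub (H : ℕ → Bf V) (k : ℕ) (Y W W' : ℕ → V) :
    En H k Y (fun i => W i - W' i) = En H k Y W - En H k Y W' := by
  unfold En
  rw [← Finset.sum_sub_distrib]
  refine Finset.sum_congr rfl fun i _ => ?_
  rw [← map_sub, Prod.mk_sub_mk]

/-- Green chains -/
theorem exG [FiniteDimensional ℝ V] (h2 : XBvp) {lam s C₀ : ℝ} {H : Bf V} (hlam : 0 < lam)
    (hH : Pos lam H) (hC₀ : 1 ≤ C₀)
    (d1 : ∀ (k : ℕ) (Z : ℕ → V), Sol (fun _ => H) k Z → Z 0 = 0 → ∀ j ≤ k,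
      ‖Z j‖ ≤ C₀ * Real.exp (-(s * ((k : ℝ) - j))) * ‖Z k‖)
    (d2 : ∀ (k : ℕ) (Y : ℕ → V), Sol (fun _ => H) k Y → Y k = 0 → ∀ j ≤ k,
      ‖Y j‖ ≤ C₀ * Real.exp (-(s * j)) * ‖Y 0‖)
    (k j : ℕ) (hj : 0 < j) (hjk : j < k) (f : V →L[ℝ] ℝ) (hf : ‖f‖ ≤ 1) :
    ∃ G : ℕ → V, G 0 = 0 ∧ G k = 0 ∧
      (∀ W : ℕ → V, W 0 = 0 → W k = 0 → En (fun _ => H) k G W = f (W j)) ∧
      ∀ i ≤ k, ‖G i‖ ≤ C₀ / lam * Real.exp (-(s * |(i : ℝ) - j|)) := by
  obtain ⟨m, rfl⟩ : ∃ m, k = m + 1 := ⟨k - 1, by omega⟩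
  obtain ⟨G, g0, g1, g2⟩ := h2 V lam hlam (fun _ => H) (fun _ => hH) m 0 0
    (fun i => if i = j then f else 0)
  have g3 : ∀ i, i + 1 < m + 1 → ∀ w : V,
      H (G i, G (i + 1)) (0, w) + H (G (i + 1), G (i + 2)) (w, 0) =
        if i + 1 = j then f w else 0 := by
    intro i hi w
    rw [g2 i hi w]
    split_ifs
    · rfl
    · rfl
  have g4 : ∀ W : ℕ → V, W 0 = 0 → W (m + 1) = 0 → En (fun _ => H) (m + 1) G W = f (W j) :=
    fun W w0 w1 => src_green H G W (m + 1) j hj hjk f g3 w0 w1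
  -- the norm at `j`
  have g5 : ‖G j‖ ≤ 1 / lam := by
    have e1 := g4 G g0 g1
    have e2 : lam * ‖G j‖ ^ 2 ≤ En (fun _ => H) (m + 1) G G := by
      have e3 : ∀ i, 0 ≤ H (G i, G (i + 1)) (G i, G (i + 1)) := fun i => by
        have := hH.pos (G i) (G (i + 1))
        have : 0 ≤ lam * (‖G i‖ ^ 2 + ‖G (i + 1)‖ ^ 2) := by positivity
        linarith
      have e4 : H (G j, G (j + 1)) (G j, G (j + 1)) ≤ En (fun _ => H) (m + 1) G G := by
        unfold En
        exact Finset.single_le_sum (f := fun i => H (G i, G (i + 1)) (G i, G (i + 1)))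
          (fun i _ => e3 i) (Finset.mem_range.2 hjk)
      have e5 := hH.pos (G j) (G (j + 1))
      have e6 : 0 ≤ lam * ‖G (j + 1)‖ ^ 2 := by positivity
      linarith
    have e3 : f (G j) ≤ ‖G j‖ := by
      have e4 := f.le_opNorm (G j)
      have e5 : ‖f‖ * ‖G j‖ ≤ 1 * ‖G j‖ := mul_le_mul_of_nonneg_right hf (norm_nonneg _)
      have e6 := le_abs_self (f (G j))
      rw [Real.norm_eq_abs] at e4
      linarith
    rcases eq_or_lt_of_le (norm_nonneg (G j)) with h0 | h0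
    · rw [← h0]
      positivity
    · rw [le_div_iff₀ hlam]
      have e7 : (‖G j‖ * lam) * ‖G j‖ ≤ 1 * ‖G j‖ := by
        calc (‖G j‖ * lam) * ‖G j‖ = lam * ‖G j‖ ^ 2 := by ring
          _ ≤ 1 * ‖G j‖ := by linarith
      exact le_of_mul_le_mul_right e7 h0
  refine ⟨G, g0, g1, g4, fun i hi => ?_⟩
  have hb : ∀ e : ℝ, C₀ * Real.exp e * ‖G j‖ ≤ C₀ / lam * Real.exp e := by
    intro e
    have : 0 ≤ C₀ * Real.exp e := by positivity
    calc C₀ * Real.exp e * ‖G j‖ ≤ C₀ * Real.exp e * (1 / lam) :=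
          mul_le_mul_of_nonneg_left g5 this
      _ = C₀ / lam * Real.exp e := by ring
  rcases le_total i j with hij | hij
  · have e1 : Sol (fun _ => H) j G := by
      intro a ha w
      rw [g3 a (by omega) w, if_neg (by omega)]
    have e2 := d1 j G e1 g0 i hij
    have e3 : |(i : ℝ) - j| = (j : ℝ) - i := by
      have : (i : ℝ) ≤ j := by exact_mod_cast hij
      rw [abs_sub_comm, abs_of_nonneg (by linarith)]
    rw [e3]
    exact e2.trans (hb _)
  · have e1 : Sol (fun _ => H) (m + 1 - j) (fun i => G (j + i)) := by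
      intro a ha w
      have e4 := g3 (j + a) (by omega) w
      rw [if_neg (by omega)] at e4
      exact e4
    have e2 := d2 (m + 1 - j) (fun i => G (j + i)) e1
      (by show G (j + (m + 1 - j)) = 0; rw [show j + (m + 1 - j) = m + 1 by omega, g1])
      (i - j) (by omega)
    have e3 : |(i : ℝ) - j| = ((i - j : ℕ) : ℝ) := by
      rw [Nat.cast_sub hij]
      have : (j : ℝ) ≤ i := by exact_mod_cast hij
      rw [abs_of_nonneg (by linarith)]
    rw [e3]
    simp only [add_zero] at e2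
    rw [show j + (i - j) = i by omega] at e2
    exact e2.trans (hb _)

/-- the solution of the constant chain with given boundary values -/
theorem exW [FiniteDimensional ℝ V] (h2 : XBvp) {lam s C₀ : ℝ} {H : Bf V} (hlam : 0 < lam)
    (hH : Pos lam H)
    (d1 : ∀ (k : ℕ) (Z : ℕ → V), Sol (fun _ => H) k Z → Z 0 = 0 → ∀ j ≤ k,
      ‖Z j‖ ≤ C₀ * Real.exp (-(s * ((k : ℝ) - j))) * ‖Z k‖)
    (d2 : ∀ (k : ℕ) (Y : ℕ → V), Sol (fun _ => H) k Y → Y k = 0 → ∀ j ≤ k,
      ‖Y j‖ ≤ C₀ * Real.exp (-(s * j)) * ‖Y 0‖)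
    (k : ℕ) (hk : 0 < k) (x z : V) :
    ∃ W : ℕ → V, W 0 = x ∧ W k = z ∧ Sol (fun _ => H) k W ∧
      ∀ j ≤ k, ‖W j‖ ≤ C₀ * Real.exp (-(s * j)) * ‖x‖ +
        C₀ * Real.exp (-(s * ((k : ℝ) - j))) * ‖z‖ := by
  obtain ⟨m, rfl⟩ : ∃ m, k = m + 1 := ⟨k - 1, by omega⟩
  obtain ⟨A, a0, a1, a2⟩ := h2 V lam hlam (fun _ => H) (fun _ => hH) m x 0 (fun _ => 0)
  obtain ⟨B, b0, b1, b2⟩ := h2 V lam hlam (fun _ => H) (fun _ => hH) m 0 z (fun _ => 0)
  have a3 : Sol (fun _ => H) (m + 1) A := fun i hi w => by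
    rw [a2 i hi w]
    rfl
  have b3 : Sol (fun _ => H) (m + 1) B := fun i hi w => by
    rw [b2 i hi w]
    rfl
  refine ⟨fun i => A i + B i, ?_, ?_, ?_, fun j hj => ?_⟩
  · show A 0 + B 0 = x
    rw [a0, b0, add_zero]
  · show A (m + 1) + B (m + 1) = z
    rw [a1, b1, zero_add]
  · intro i hi w
    have e1 := a3 i hi w
    have e2 := b3 i hi w
    show H (A i + B i, A (i + 1) + B (i + 1)) (0, w) +
      H (A (i + 1) + B (i + 1), A (i + 2) + B (i + 2)) (w, 0) = 0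
    rw [← Prod.mk_add_mk, ← Prod.mk_add_mk, map_add, map_add, ContinuousLinearMap.add_apply,
      ContinuousLinearMap.add_apply]
    linarith
  · have e1 := d2 (m + 1) A a3 a1 j hj
    have e2 := d1 (m + 1) B b3 b0 j hj
    rw [a0] at e1
    rw [b1] at e2
    exact (norm_add_le _ _).trans (add_le_add e1 e2)

end

/-- two-sided geometric sums -/
theorem geo {t : ℝ} (ht : 0 < t) (k j : ℕ) :
    ∑ i ∈ Finset.range k, Real.exp (-(t * |(i : ℝ) - j|)) ≤ 2 / (1 - Real.exp (-t)) := by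
  set q : ℝ := Real.exp (-t) with hq
  have hq0 : 0 < q := Real.exp_pos _
  have hq1 : q < 1 := by
    rw [hq, ← Real.exp_zero]
    exact Real.exp_lt_exp.2 (by linarith)
  have hg : ∀ n : ℕ, ∑ i ∈ Finset.range n, q ^ i ≤ 1 / (1 - q) := by
    intro n
    rw [le_div_iff₀ (by linarith), geom_sum_mul_neg]
    have := pow_pos hq0 n
    linarith
  have hE : ∀ n : ℕ, Real.exp (-(t * n)) = q ^ n := by
    intro n
    rw [hq, ← Real.exp_nat_mul]
    congr 1
    ring
  have h1 : ∑ i ∈ Finset.range k, Real.exp (-(t * |(i : ℝ) - j|)) ≤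
      ∑ i ∈ Finset.range (j + k), Real.exp (-(t * |(i : ℝ) - j|)) :=
    Finset.sum_le_sum_of_subset_of_nonneg (Finset.range_subset_range.2 (by omega))
      fun _ _ _ => (Real.exp_pos _).le
  refine h1.trans ?_
  rw [Finset.sum_range_add]
  have h2 : ∑ i ∈ Finset.range k, Real.exp (-(t * |((j + i : ℕ) : ℝ) - j|)) ≤ 1 / (1 - q) := by
    refine le_trans (le_of_eq ?_) (hg k)
    refine Finset.sum_congr rfl fun i _ => ?_
    rw [← hE]
    congr 3
    push_cast
    rw [add_sub_cancel_left, abs_of_nonneg (Nat.cast_nonneg _)]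
  have h3 : ∑ i ∈ Finset.range j, Real.exp (-(t * |(i : ℝ) - j|)) ≤ 1 / (1 - q) := by
    refine le_trans ?_ (hg j)
    rw [← Finset.sum_range_reflect (fun i => q ^ i)]
    refine Finset.sum_le_sum fun i hi => ?_
    rw [Finset.mem_range] at hi
    rw [← hE, Real.exp_le_exp]
    have h4 : ((j - 1 - i : ℕ) : ℝ) ≤ |(i : ℝ) - j| := by
      have h5 : ((j - 1 - i : ℕ) : ℝ) + 1 + i = j := by
        have : j - 1 - i + 1 + i = j := by omega
        exact_mod_cast this
      have h6 := neg_abs_le ((i : ℝ) - j)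
      linarith
    have := mul_le_mul_of_nonneg_left h4 ht.le
    linarith
  have h4 : 2 / (1 - q) = 1 / (1 - q) + 1 / (1 - q) := by ring
  linarith

theorem step {s : ℝ} (hs : 0 ≤ s) (i j : ℕ) :
    Real.exp (-(s * |(i : ℝ) - j|)) ≤ Real.exp s * Real.exp (-(s * |((i + 1 : ℕ) : ℝ) - j|)) ∧
    Real.exp (-(s * |((i + 1 : ℕ) : ℝ) - j|)) ≤ Real.exp s * Real.exp (-(s * |(i : ℝ) - j|)) := by
  have h1 : |((i + 1 : ℕ) : ℝ) - j| ≤ |(i : ℝ) - j| + 1 := by
    push_cast
    have := abs_add_le ((i : ℝ) - j) 1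
    rw [abs_one] at this
    rw [show (i : ℝ) + 1 - j = (i : ℝ) - j + 1 by ring]
    exact this
  have h2 : |(i : ℝ) - j| ≤ |((i + 1 : ℕ) : ℝ) - j| + 1 := by
    push_cast
    have := abs_add_le ((i : ℝ) + 1 - j) (-1)
    rw [abs_neg, abs_one] at this
    rw [show (i : ℝ) - j = (i : ℝ) + 1 - j + -1 by ring]
    exact this
  constructor
  · rw [← Real.exp_add, Real.exp_le_exp]
    have := mul_le_mul_of_nonneg_left h1 hs
    linarith
  · rw [← Real.exp_add, Real.exp_le_exp]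
    have := mul_le_mul_of_nonneg_left h2 hs
    linarith

theorem wgt {s s' a b : ℝ} (hs' : 0 ≤ s') (ha : 0 ≤ a) (hb : 0 ≤ b) (k i j : ℕ) :
    (Real.exp (-(s' * i)) * a + Real.exp (-(s' * ((k : ℝ) - i))) * b) *
        Real.exp (-(s * |(i : ℝ) - j|)) ≤
      (Real.exp (-(s' * j)) * a + Real.exp (-(s' * ((k : ℝ) - j))) * b) *
        Real.exp (-((s - s') * |(i : ℝ) - j|)) := by
  have h1 : s' * ((j : ℝ) - i) ≤ s' * |(i : ℝ) - j| := by
    refine mul_le_mul_of_nonneg_left ?_ hs'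
    rw [abs_sub_comm]
    exact le_abs_self _
  have h2 : s' * ((i : ℝ) - j) ≤ s' * |(i : ℝ) - j| :=
    mul_le_mul_of_nonneg_left (le_abs_self _) hs'
  have h3 : Real.exp (-(s' * i)) * Real.exp (-(s * |(i : ℝ) - j|)) ≤
      Real.exp (-(s' * j)) * Real.exp (-((s - s') * |(i : ℝ) - j|)) := by
    rw [← Real.exp_add, ← Real.exp_add, Real.exp_le_exp]
    linarith
  have h4 : Real.exp (-(s' * ((k : ℝ) - i))) * Real.exp (-(s * |(i : ℝ) - j|)) ≤
      Real.exp (-(s' * ((k : ℝ) - j))) * Real.exp (-((s - s') * |(i : ℝ) - j|)) := by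
    rw [← Real.exp_add, ← Real.exp_add, Real.exp_le_exp]
    linarith
  have h5 := mul_le_mul_of_nonneg_right h3 ha
  have h6 := mul_le_mul_of_nonneg_right h4 hb
  linarith

end IXPer

open IXPer in
/-- item XPer -/
theorem pr_XPer (h2 : XBvp) (h3 : XDec) : XPer := by
  intro V _ _ _ lam s s' H hlam hH hG hs' hss
  obtain ⟨C₀, hC₀, d1, d2⟩ := h3 V lam s H hlam hH hG
  set D : ℝ := C₀ / lam with hD
  have hD0 : 0 < D := by positivity
  set S : ℝ := 2 / (1 - Real.exp (-(s - s'))) with hS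
  have hS0 : 0 < S := by
    have : Real.exp (-(s - s')) < 1 := by
      rw [← Real.exp_zero]
      exact Real.exp_lt_exp.2 (by linarith)
    have : 0 < 1 - Real.exp (-(s - s')) := by linarith
    positivity
  set ρ : ℝ := 1 / (4 * D * Real.exp s * S) with hρ
  have hρ0 : 0 < ρ := by positivity
  have hρ1 : ρ * (D * Real.exp s) * (2 * S) = 1 / 2 := by
    rw [hρ]
    field_simp
    norm_num
  refine ⟨ρ, 2 * C₀, hρ0, by linarith, ?_⟩
  intro k H' hH' Z hZ j hj
  -- it suffices to have the estimate with positive boundary values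
  suffices hmain : ∀ ε : ℝ, 0 < ε → ‖Z j‖ ≤ 2 * C₀ * (Real.exp (-(s' * j)) * (‖Z 0‖ + ε) +
      Real.exp (-(s' * ((k : ℝ) - j))) * (‖Z k‖ + ε)) by
    refine le_of_forall_pos_le_add fun δ hδ => ?_
    set c : ℝ := 2 * C₀ * (Real.exp (-(s' * j)) + Real.exp (-(s' * ((k : ℝ) - j)))) with hc
    have hc0 : 0 < c := by positivity
    have h5 := hmain (δ / c) (by positivity)
    have h6 : 2 * C₀ * (Real.exp (-(s' * j)) * (‖Z 0‖ + δ / c) +
      Real.exp (-(s' * ((k : ℝ) - j))) * (‖Z k‖ + δ / c)) =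
      2 * C₀ * (Real.exp (-(s' * j)) * ‖Z 0‖ + Real.exp (-(s' * ((k : ℝ) - j))) * ‖Z k‖) +
        c * (δ / c) := by
      rw [hc]
      ring
    rw [h6, mul_div_cancel₀ _ hc0.ne'] at h5
    exact h5
  intro ε hε
  set a : ℝ := ‖Z 0‖ + ε with ha
  set b : ℝ := ‖Z k‖ + ε with hb
  have ha0 : 0 < a := by positivity
  have hb0 : 0 < b := by positivity
  set Ω : ℕ → ℝ := fun i => Real.exp (-(s' * i)) * a + Real.exp (-(s' * ((k : ℝ) - i))) * b with hΩ
  have hΩ0 : ∀ i, 0 < Ω i := fun i => by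
    rw [hΩ]
    positivity
  obtain ⟨j₀, hj₀, hmax⟩ := Finset.exists_max_image (Finset.range (k + 1))
    (fun i => ‖Z i‖ / Ω i) ⟨0, Finset.mem_range.2 (by omega)⟩
  rw [Finset.mem_range] at hj₀
  set M : ℝ := ‖Z j₀‖ / Ω j₀ with hM
  have hM0 : 0 ≤ M := div_nonneg (norm_nonneg _) (hΩ0 _).le
  have hMi : ∀ i ≤ k, ‖Z i‖ ≤ M * Ω i := by
    intro i hi
    rw [← div_le_iff₀ (hΩ0 i)]
    exact hmax i (Finset.mem_range.2 (by omega))
  suffices hM2 : M ≤ 2 * C₀ by
    exact (hMi j hj).trans (mul_le_mul_of_nonneg_right hM2 (hΩ0 j).le)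
  -- the estimate at `j₀`
  have key : ‖Z j₀‖ ≤ C₀ * Ω j₀ + M * Ω j₀ / 2 := by
    have hMΩ : 0 ≤ M * Ω j₀ / 2 := by
      have := hΩ0 j₀
      positivity
    rcases Nat.eq_zero_or_pos j₀ with h0 | h0
    · have e1 : ‖Z j₀‖ ≤ Ω j₀ := by
        rw [h0]
        show ‖Z 0‖ ≤ Real.exp (-(s' * ((0 : ℕ) : ℝ))) * a +
          Real.exp (-(s' * ((k : ℝ) - ((0 : ℕ) : ℝ)))) * b
        rw [Nat.cast_zero, mul_zero, neg_zero, Real.exp_zero, one_mul, ha]
        have : 0 < Real.exp (-(s' * ((k : ℝ) - 0))) * b := by positivity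
        linarith
      have e2 : Ω j₀ ≤ C₀ * Ω j₀ := le_mul_of_one_le_left (hΩ0 _).le hC₀
      linarith
    rcases Nat.lt_or_ge j₀ k with h1 | h1
    · -- the main case
      obtain ⟨W, w0, w1, w2, w3⟩ := exW h2 hlam hH d1 d2 k (by omega) (Z 0) (Z k)
      obtain ⟨f, hf1, hf2⟩ := exists_dual_vector'' ℝ (Z j₀ - W j₀)
      obtain ⟨G, g0, g1, g2, g3⟩ := exG h2 hlam hH hC₀ d1 d2 k j₀ h0 h1 f hf1
      have e1 : ‖Z j₀ - W j₀‖ = ∑ i ∈ Finset.range k,
          (H - H' i) (Z i, Z (i + 1)) (G i, G (i + 1)) := by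
        have c1 := g2 (fun i => Z i - W i) (by rw [w0, sub_self]) (by rw [w1, sub_self])
        have c2 : f (Z j₀ - W j₀) = ‖Z j₀ - W j₀‖ := hf2
        rw [c2, en_sub, en_symm H hH.symm k G Z, en_symm H hH.symm k G W,
          sol_green (fun _ => H) W G k (by omega) w2 g0 g1, sub_zero] at c1
        have c3 := sol_green H' Z G k (by omega) hZ g0 g1
        rw [← c1, ← sub_zero (En (fun _ => H) k Z G), ← c3]
        unfold En
        rw [← Finset.sum_sub_distrib]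
        rfl
      have e2 : ∀ i ∈ Finset.range k, (H - H' i) (Z i, Z (i + 1)) (G i, G (i + 1)) ≤
          ρ * (D * Real.exp s) * (M * Ω j₀ * (Real.exp (-((s - s') * |(i : ℝ) - j₀|)) +
            Real.exp (-((s - s') * |((i + 1 : ℕ) : ℝ) - j₀|)))) := by
        intro i hi
        rw [Finset.mem_range] at hi
        have c1 : (H - H' i) (Z i, Z (i + 1)) (G i, G (i + 1)) ≤
            ρ * ‖(Z i, Z (i + 1))‖ * ‖(G i, G (i + 1))‖ := by
          have d3 := (H - H' i).le_opNorm₂ (Z i, Z (i + 1)) (G i, G (i + 1))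
          have d4 : ‖H - H' i‖ ≤ ρ := (norm_sub_rev H (H' i)).trans_le (hH' i hi)
          rw [Real.norm_eq_abs] at d3
          refine (le_abs_self _).trans (d3.trans ?_)
          gcongr
        have c2 : ‖(Z i, Z (i + 1))‖ ≤ ‖Z i‖ + ‖Z (i + 1)‖ := by
          rw [Prod.norm_mk]
          exact max_le (by linarith [norm_nonneg (Z (i + 1))]) (by linarith [norm_nonneg (Z i)])
        set x : ℝ := Real.exp (-(s * |(i : ℝ) - j₀|)) with hx
        set y : ℝ := Real.exp (-(s * |((i + 1 : ℕ) : ℝ) - j₀|)) with hy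
        obtain ⟨s1, s2⟩ := step (by linarith : (0 : ℝ) ≤ s) i j₀
        rw [← hx, ← hy] at s1 s2
        have hx0 : 0 < x := Real.exp_pos _
        have hy0 : 0 < y := Real.exp_pos _
        have hes : 1 ≤ Real.exp s := Real.one_le_exp (by linarith)
        have t1 : ‖G i‖ ≤ D * x := g3 i (by omega)
        have t2 : ‖G (i + 1)‖ ≤ D * y := g3 (i + 1) (by omega)
        have c3 : ‖(G i, G (i + 1))‖ ≤ D * Real.exp s * x := by
          rw [Prod.norm_mk]
          refine max_le (t1.trans ?_) (t2.trans ?_)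
          · rw [mul_assoc]
            exact mul_le_mul_of_nonneg_left (le_mul_of_one_le_left hx0.le hes) hD0.le
          · rw [mul_assoc]
            exact mul_le_mul_of_nonneg_left s2 hD0.le
        have c4 : ‖(G i, G (i + 1))‖ ≤ D * Real.exp s * y := by
          rw [Prod.norm_mk]
          refine max_le (t1.trans ?_) (t2.trans ?_)
          · rw [mul_assoc]
            exact mul_le_mul_of_nonneg_left s1 hD0.le
          · rw [mul_assoc]
            exact mul_le_mul_of_nonneg_left (le_mul_of_one_le_left hy0.le hes) hD0.le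
        have c5 : ‖Z i‖ * x ≤ M * (Ω j₀ * Real.exp (-((s - s') * |(i : ℝ) - j₀|))) := by
          calc ‖Z i‖ * x ≤ M * Ω i * x := by
                have := hMi i (by omega)
                gcongr
            _ = M * (Ω i * x) := by ring
            _ ≤ M * (Ω j₀ * Real.exp (-((s - s') * |(i : ℝ) - j₀|))) :=
                mul_le_mul_of_nonneg_left (wgt hs'.le ha0.le hb0.le k i j₀) hM0
        have c6 : ‖Z (i + 1)‖ * y ≤
            M * (Ω j₀ * Real.exp (-((s - s') * |((i + 1 : ℕ) : ℝ) - j₀|))) := by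
          calc ‖Z (i + 1)‖ * y ≤ M * Ω (i + 1) * y := by
                have := hMi (i + 1) (by omega)
                gcongr
            _ = M * (Ω (i + 1) * y) := by ring
            _ ≤ M * (Ω j₀ * Real.exp (-((s - s') * |((i + 1 : ℕ) : ℝ) - j₀|))) :=
                mul_le_mul_of_nonneg_left (wgt hs'.le ha0.le hb0.le k (i + 1) j₀) hM0
        have hDe : 0 ≤ D * Real.exp s := by positivity
        calc (H - H' i) (Z i, Z (i + 1)) (G i, G (i + 1))
            ≤ ρ * ‖(Z i, Z (i + 1))‖ * ‖(G i, G (i + 1))‖ := c1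
          _ ≤ ρ * (‖Z i‖ + ‖Z (i + 1)‖) * ‖(G i, G (i + 1))‖ := by gcongr
          _ = ρ * (‖Z i‖ * ‖(G i, G (i + 1))‖ + ‖Z (i + 1)‖ * ‖(G i, G (i + 1))‖) := by ring
          _ ≤ ρ * (‖Z i‖ * (D * Real.exp s * x) + ‖Z (i + 1)‖ * (D * Real.exp s * y)) := by
              gcongr
          _ = ρ * (D * Real.exp s) * (‖Z i‖ * x + ‖Z (i + 1)‖ * y) := by ring
          _ ≤ ρ * (D * Real.exp s) * (M * (Ω j₀ * Real.exp (-((s - s') * |(i : ℝ) - j₀|))) +
              M * (Ω j₀ * Real.exp (-((s - s') * |((i + 1 : ℕ) : ℝ) - j₀|)))) := by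
              gcongr
          _ = _ := by ring
      have e3 : ‖Z j₀ - W j₀‖ ≤ M * Ω j₀ / 2 := by
        rw [e1]
        refine (Finset.sum_le_sum e2).trans ?_
        rw [← Finset.mul_sum, ← Finset.mul_sum, Finset.sum_add_distrib]
        have q1 := geo (by linarith : 0 < s - s') k j₀
        have q2 : ∑ i ∈ Finset.range k, Real.exp (-((s - s') * |((i + 1 : ℕ) : ℝ) - j₀|)) ≤ S := by
          refine le_trans ?_ (geo (by linarith : 0 < s - s') (k + 1) j₀)
          rw [Finset.sum_range_succ' _ k]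
          have := Real.exp_pos (-((s - s') * |((0 : ℕ) : ℝ) - j₀|))
          linarith
        have q3 : 0 ≤ M * Ω j₀ := mul_nonneg hM0 (hΩ0 _).le
        have q4 : 0 ≤ ρ * (D * Real.exp s) := by positivity
        calc ρ * (D * Real.exp s) * (M * Ω j₀ *
            (∑ i ∈ Finset.range k, Real.exp (-((s - s') * |(i : ℝ) - j₀|)) +
              ∑ i ∈ Finset.range k, Real.exp (-((s - s') * |((i + 1 : ℕ) : ℝ) - j₀|)))) ≤
            ρ * (D * Real.exp s) * (M * Ω j₀ * (S + S)) := by gcongr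
          _ = (ρ * (D * Real.exp s) * (2 * S)) * (M * Ω j₀) := by ring
          _ = M * Ω j₀ / 2 := by
              rw [hρ1]
              ring
      have e4 : ‖W j₀‖ ≤ C₀ * Ω j₀ := by
        have c1 := w3 j₀ (by omega)
        have c2 : Real.exp (-(s * j₀)) ≤ Real.exp (-(s' * j₀)) := by
          rw [Real.exp_le_exp]
          have : s' * (j₀ : ℝ) ≤ s * j₀ := mul_le_mul_of_nonneg_right hss.le (Nat.cast_nonneg _)
          linarith
        have c3 : Real.exp (-(s * ((k : ℝ) - j₀))) ≤ Real.exp (-(s' * ((k : ℝ) - j₀))) := by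
          rw [Real.exp_le_exp]
          have h5 : (j₀ : ℝ) ≤ k := by exact_mod_cast h1.le
          have : s' * ((k : ℝ) - j₀) ≤ s * ((k : ℝ) - j₀) :=
            mul_le_mul_of_nonneg_right hss.le (by linarith)
          linarith
        have c4 : ‖Z 0‖ ≤ a := by rw [ha]; linarith
        have c5 : ‖Z k‖ ≤ b := by rw [hb]; linarith
        have hC : 0 ≤ C₀ := by linarith
        calc ‖W j₀‖ ≤ C₀ * Real.exp (-(s * j₀)) * ‖Z 0‖ +
              C₀ * Real.exp (-(s * ((k : ℝ) - j₀))) * ‖Z k‖ := c1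
          _ ≤ C₀ * Real.exp (-(s' * j₀)) * a + C₀ * Real.exp (-(s' * ((k : ℝ) - j₀))) * b := by
              gcongr
          _ = C₀ * Ω j₀ := by
              rw [hΩ]
              ring
      calc ‖Z j₀‖ = ‖W j₀ + (Z j₀ - W j₀)‖ := by rw [add_sub_cancel]
        _ ≤ ‖W j₀‖ + ‖Z j₀ - W j₀‖ := norm_add_le _ _
        _ ≤ C₀ * Ω j₀ + M * Ω j₀ / 2 := add_le_add e4 e3
    · have h5 : j₀ = k := by omega
      have e1 : ‖Z j₀‖ ≤ Ω j₀ := by
        rw [h5]
        show ‖Z k‖ ≤ Real.exp (-(s' * (k : ℝ))) * a + Real.exp (-(s' * ((k : ℝ) - (k : ℝ)))) * b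
        rw [sub_self, mul_zero, neg_zero, Real.exp_zero, one_mul, hb]
        have : 0 < Real.exp (-(s' * (k : ℝ))) * a := by positivity
        linarith
      have e2 : Ω j₀ ≤ C₀ * Ω j₀ := le_mul_of_one_le_left (hΩ0 _).le hC₀
      linarith
  have k1 : ‖Z j₀‖ = M * Ω j₀ := by
    rw [hM, div_mul_cancel₀ _ (hΩ0 j₀).ne']
  rw [k1] at key
  have k2 : (M / 2) * Ω j₀ ≤ C₀ * Ω j₀ := by linarith
  have k3 := le_of_mul_le_mul_right k2 (hΩ0 j₀)
  linarith

end Pool.Agent.LX
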