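import Pool.Agent.Work.MP_25cd3b_gt.LX.StmtsA

set_option autoImplicit false

/-!
# MP_25cd3b_gt, block LX: item XPosR (a positive rate)
-/

open Set Filter Topology
open scoped ContDiff

namespace Pool.Agent.LX

namespace IXPosR

variable {V : Type} [NormedAddCommGroup V] [NormedSpace ℝ V]

theorem bound (H : Bf V) (c : ℝ) (hc : ‖H‖ ≤ c) (p q : V × V) : |H p q| ≤ c * ‖p‖ * ‖q‖ := by
  have h1 : ‖H p q‖ ≤ ‖H‖ * ‖p‖ * ‖q‖ := H.le_opNorm₂ p q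
  rw [Real.norm_eq_abs] at h1
  refine h1.trans ?_
  gcongr

/-- the energy of the links from `j` on -/
noncomputable def e (H : Bf V) (Y : ℕ → V) (j : ℕ) : ℝ := H (Y j, Y (j + 1)) (Y j, 0)

theorem e_sub (H : Bf V) (k : ℕ) (Y : ℕ → V) (hY : Sol (fun _ => H) (k + 1) Y) (j : ℕ)
    (hj : j < k) : e H Y j - e H Y (j + 1) = H (Y j, Y (j + 1)) (Y j, Y (j + 1)) := by
  have h1 := hY j (by omega) (Y (j + 1))
  simp only at h1
  have h2 : ((Y j, Y (j + 1)) : V × V) = (Y j, 0) + (0, Y (j + 1)) := by simp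
  have h3 : H (Y j, Y (j + 1)) (Y j, Y (j + 1)) =
      H (Y j, Y (j + 1)) (Y j, 0) + H (Y j, Y (j + 1)) (0, Y (j + 1)) := by
    conv_lhs => rw [show H (Y j, Y (j + 1)) (Y j, Y (j + 1)) =
      H (Y j, Y (j + 1)) ((Y j, 0) + (0, Y (j + 1))) by rw [← h2]]
    rw [map_add]
  rw [h3]
  unfold e
  linarith

theorem e_step (lam : ℝ) (H : Bf V) (hH : Pos lam H) (k : ℕ) (Y : ℕ → V)
    (hY : Sol (fun _ => H) (k + 1) Y) (j : ℕ) (hj : j < k) :
    lam * (‖Y j‖ ^ 2 + ‖Y (j + 1)‖ ^ 2) ≤ e H Y j - e H Y (j + 1) := by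
  rw [e_sub H k Y hY j hj]
  exact hH.pos _ _

theorem e_last (lam : ℝ) (H : Bf V) (hH : Pos lam H) (k : ℕ) (Y : ℕ → V)
    (h0 : Y (k + 1) = 0) : lam * ‖Y k‖ ^ 2 ≤ e H Y k := by
  have h1 := hH.pos (Y k) 0
  unfold e
  rw [h0]
  simpa using h1

theorem e_nonneg (lam : ℝ) (hlam : 0 < lam) (H : Bf V) (hH : Pos lam H) (k : ℕ) (Y : ℕ → V)
    (hY : Sol (fun _ => H) (k + 1) Y) (h0 : Y (k + 1) = 0) :
    ∀ m j : ℕ, j + m = k → 0 ≤ e H Y j := by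
  intro m
  induction m with
  | zero =>
    intro j hj
    have h1 : j = k := by omega
    rw [h1]
    exact le_trans (by positivity) (e_last lam H hH k Y h0)
  | succ m ih =>
    intro j hj
    have h1 := ih (j + 1) (by omega)
    have h2 := e_step lam H hH k Y hY j (by omega)
    have h3 : 0 ≤ lam * (‖Y j‖ ^ 2 + ‖Y (j + 1)‖ ^ 2) := by positivity
    linarith

theorem e_decay (lam : ℝ) (hlam : 0 < lam) (H : Bf V) (hH : Pos lam H) (c : ℝ) (hc : ‖H‖ ≤ c)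
    (k : ℕ) (Y : ℕ → V)
    (hY : Sol (fun _ => H) (k + 1) Y) (j : ℕ) (hj : j < k) :
    (c + lam) * e H Y (j + 1) ≤ c * e H Y j := by
  have hc0 : 0 ≤ c := le_trans (norm_nonneg H) hc
  have h1 := hY j (by omega) (Y (j + 1))
  simp only at h1
  have h2 : e H Y (j + 1) = - H (Y j, Y (j + 1)) (0, Y (j + 1)) := by
    unfold e
    linarith
  have h3 : e H Y (j + 1) ≤ c * ‖((Y j, Y (j + 1)) : V × V)‖ * ‖((0, Y (j + 1)) : V × V)‖ := by
    rw [h2]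
    exact (neg_le_abs _).trans (bound H c hc _ _)
  have h4 : ‖((0, Y (j + 1)) : V × V)‖ = ‖Y (j + 1)‖ := by
    rw [Prod.norm_mk, norm_zero]
    exact max_eq_right (norm_nonneg _)
  rw [h4, Prod.norm_mk] at h3
  have h5 : max ‖Y j‖ ‖Y (j + 1)‖ * ‖Y (j + 1)‖ ≤ ‖Y j‖ ^ 2 + ‖Y (j + 1)‖ ^ 2 := by
    rcases le_total ‖Y j‖ ‖Y (j + 1)‖ with h | h
    · rw [max_eq_right h]
      nlinarith [sq_nonneg ‖Y j‖]
    · rw [max_eq_left h]
      nlinarith [sq_nonneg ‖Y (j + 1)‖, norm_nonneg (Y j), norm_nonneg (Y (j + 1))]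
  have h6 : e H Y (j + 1) ≤ c * (‖Y j‖ ^ 2 + ‖Y (j + 1)‖ ^ 2) := by
    refine h3.trans ?_
    rw [mul_assoc]
    exact mul_le_mul_of_nonneg_left h5 hc0
  have h7 := e_step lam H hH k Y hY j hj
  have h8 : lam * e H Y (j + 1) ≤ c * (e H Y j - e H Y (j + 1)) := by
    calc lam * e H Y (j + 1) ≤ lam * (c * (‖Y j‖ ^ 2 + ‖Y (j + 1)‖ ^ 2)) :=
          mul_le_mul_of_nonneg_left h6 hlam.le
      _ = c * (lam * (‖Y j‖ ^ 2 + ‖Y (j + 1)‖ ^ 2)) := by ring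
      _ ≤ _ := mul_le_mul_of_nonneg_left h7 hc0
  linarith

theorem e_pow (lam : ℝ) (hlam : 0 < lam) (H : Bf V) (hH : Pos lam H) (c : ℝ) (hc : ‖H‖ ≤ c)
    (k : ℕ) (Y : ℕ → V)
    (hY : Sol (fun _ => H) (k + 1) Y) (j : ℕ) (hj : j ≤ k) :
    e H Y j ≤ (c / (c + lam)) ^ j * e H Y 0 := by
  have hc0 : 0 ≤ c := le_trans (norm_nonneg H) hc
  have hcl : 0 < c + lam := by linarith
  induction j with
  | zero => simp
  | succ j ih =>
    have h1 := ih (by omega)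
    have h2 := e_decay lam hlam H hH c hc k Y hY j (by omega)
    have h3 : e H Y (j + 1) ≤ c / (c + lam) * e H Y j := by
      rw [div_mul_eq_mul_div, le_div_iff₀ hcl]
      linarith
    calc e H Y (j + 1) ≤ c / (c + lam) * e H Y j := h3
      _ ≤ c / (c + lam) * ((c / (c + lam)) ^ j * e H Y 0) := by
          apply mul_le_mul_of_nonneg_left h1
          positivity
      _ = _ := by rw [pow_succ]; ring

theorem e_zero (lam : ℝ) (hlam : 0 < lam) (H : Bf V) (hH : Pos lam H) (c : ℝ) (hc : ‖H‖ ≤ c)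
    (k : ℕ) (Y : ℕ → V)
    (hY : Sol (fun _ => H) (k + 1) Y) (h0 : Y (k + 1) = 0) :
    e H Y 0 ≤ (2 * c + c ^ 2 / lam) * ‖Y 0‖ ^ 2 := by
  have hc0 : 0 ≤ c := le_trans (norm_nonneg H) hc
  have h1 : lam * ‖Y 1‖ ^ 2 ≤ e H Y 0 := by
    rcases Nat.eq_zero_or_pos k with hk | hk
    · subst hk
      rw [show Y 1 = 0 from h0, norm_zero]
      have := e_nonneg lam hlam H hH 0 Y hY h0 0 0 rfl
      simpa using this
    · have h2 := e_step lam H hH k Y hY 0 hk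
      have h3 := e_nonneg lam hlam H hH k Y hY h0 (k - 1) 1 (by omega)
      have h4 : 0 ≤ lam * ‖Y 0‖ ^ 2 := by positivity
      rw [zero_add] at h2
      nlinarith
  have h2 : e H Y 0 ≤ c * ‖((Y 0, Y 1) : V × V)‖ * ‖((Y 0, 0) : V × V)‖ :=
    (le_abs_self _).trans (bound H c hc _ _)
  have h4 : ‖((Y 0, 0) : V × V)‖ = ‖Y 0‖ := by
    rw [Prod.norm_mk, norm_zero]
    exact max_eq_left (norm_nonneg _)
  rw [h4, Prod.norm_mk] at h2
  have h5 : max ‖Y 0‖ ‖Y 1‖ ≤ ‖Y 0‖ + ‖Y 1‖ :=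
    max_le (by linarith [norm_nonneg (Y 1)]) (by linarith [norm_nonneg (Y 0)])
  have h6 : e H Y 0 ≤ c * (‖Y 0‖ + ‖Y 1‖) * ‖Y 0‖ := by
    refine h2.trans ?_
    gcongr
  have h7 : c * ‖Y 1‖ * ‖Y 0‖ ≤ lam / 2 * ‖Y 1‖ ^ 2 + c ^ 2 / (2 * lam) * ‖Y 0‖ ^ 2 := by
    have h8 : 0 ≤ (lam * ‖Y 1‖ - c * ‖Y 0‖) ^ 2 / (2 * lam) := by positivity
    have h9 : (lam * ‖Y 1‖ - c * ‖Y 0‖) ^ 2 / (2 * lam) =
        lam / 2 * ‖Y 1‖ ^ 2 + c ^ 2 / (2 * lam) * ‖Y 0‖ ^ 2 - c * ‖Y 1‖ * ‖Y 0‖ := by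
      field_simp
      ring
    linarith
  have h10 : c ^ 2 / (2 * lam) = c ^ 2 / lam / 2 := by field_simp
  rw [h10] at h7
  nlinarith

end IXPosR

open IXPosR in
theorem pr_XPosR : XPosR := by
  intro V _ _ lam H hlam hH
  obtain ⟨c, hcdef⟩ : ∃ c : ℝ, c = ‖H‖ + 1 := ⟨_, rfl⟩
  have hc : ‖H‖ ≤ c := by linarith
  have hc0 : 0 < c := by linarith [norm_nonneg H]
  obtain ⟨q, hq⟩ : ∃ q : ℝ, q = c / (c + lam) := ⟨_, rfl⟩
  have hq0 : 0 < q := by rw [hq]; positivity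
  have hq1 : q < 1 := by
    rw [hq, div_lt_one (by positivity)]
    linarith
  obtain ⟨C0, hC0⟩ : ∃ C0 : ℝ, C0 = 2 * c + c ^ 2 / lam := ⟨_, rfl⟩
  have hC0p : 0 < C0 := by rw [hC0]; positivity
  refine ⟨-(Real.log q) / 2, ?_, c * Real.sqrt (C0 / lam), ?_⟩
  · have := Real.log_neg hq0 hq1
    linarith
  · intro k Y z hY h0
    have h1 := e_last lam H hH k Y h0
    have h2 := e_pow lam hlam H hH c hc k Y hY k le_rfl
    have h3 := e_zero lam hlam H hH c hc k Y hY h0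
    rw [← hq] at h2
    rw [← hC0] at h3
    have h4 : ‖Y k‖ ^ 2 ≤ C0 / lam * q ^ k * ‖Y 0‖ ^ 2 := by
      have h5 : lam * ‖Y k‖ ^ 2 ≤ q ^ k * (C0 * ‖Y 0‖ ^ 2) :=
        h1.trans (h2.trans (mul_le_mul_of_nonneg_left h3 (by positivity)))
      have h6 : C0 / lam * q ^ k * ‖Y 0‖ ^ 2 = (q ^ k * (C0 * ‖Y 0‖ ^ 2)) / lam := by
        field_simp
      rw [h6, le_div_iff₀ hlam]
      linarith
    have h5 : Real.exp (-(-(Real.log q) / 2 * k)) ^ 2 = q ^ k := by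
      rw [← Real.exp_nat_mul]
      have h6 : ((2 : ℕ) : ℝ) * (-(-(Real.log q) / 2 * k)) = (k : ℝ) * Real.log q := by
        push_cast
        ring
      rw [h6, Real.exp_nat_mul, Real.exp_log hq0]
    have h6 : ‖Y k‖ ≤ Real.sqrt (C0 / lam) * Real.exp (-(-(Real.log q) / 2 * k)) * ‖Y 0‖ := by
      apply le_of_sq_le_sq _ (by positivity)
      rw [mul_pow, mul_pow, h5, Real.sq_sqrt (by positivity)]
      exact h4
    have h7 := bound H c hc (Y k, 0) (0, z)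
    have h8 : ‖((Y k, 0) : V × V)‖ = ‖Y k‖ := by
      rw [Prod.norm_mk, norm_zero]
      exact max_eq_left (norm_nonneg _)
    have h9 : ‖((0, z) : V × V)‖ = ‖z‖ := by
      rw [Prod.norm_mk, norm_zero]
      exact max_eq_right (norm_nonneg _)
    rw [h8, h9] at h7
    refine h7.trans ?_
    have h10 : c * ‖Y k‖ * ‖z‖ ≤
        c * (Real.sqrt (C0 / lam) * Real.exp (-(-(Real.log q) / 2 * k)) * ‖Y 0‖) * ‖z‖ := by
      gcongr
    refine h10.trans (le_of_eq ?_)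
    ring

end Pool.Agent.LX
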