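import Pool.Agent.Work.MP_25cd3b_gt.LX.StmtsA

set_option autoImplicit false

/-!
# Item XRec of MP_25cd3b_gt, block LX: a slow solution of the chain
-/

open Set Filter Topology

namespace Pool.Agent.LX

namespace IXRec

variable {V : Type} [NormedAddCommGroup V] [NormedSpace ℝ V]

theorem zz (H : Bf V) (p : V × V) : H p ((0 : V), (0 : V)) = 0 := by
  have h : ((0 : V), (0 : V)) = (0 : V × V) := rfl
  rw [h, map_zero]

theorem zz' (H : Bf V) (p : V × V) : H ((0 : V), (0 : V)) p = 0 := by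
  have h : ((0 : V), (0 : V)) = (0 : V × V) := rfl
  rw [h, map_zero, zero_apply]

theorem en_symm {lam : ℝ} {H : Bf V} (hP : Pos lam H) (k : ℕ) (Y W : ℕ → V) :
    En (fun _ => H) k Y W = En (fun _ => H) k W Y := by
  unfold En
  exact Finset.sum_congr rfl fun j _ => hP.symm _ _

/-- the two sides of Green's formula for two solutions -/
theorem green2 (h1 : XGreen) {lam : ℝ} {H : Bf V} (hP : Pos lam H) (k : ℕ) (Y Z : ℕ → V)
    (hY : Sol (fun _ => H) (k + 1) Y) (hZ : Sol (fun _ => H) (k + 1) Z) :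
    H (Y 0, Y 1) (Z 0, 0) + H (Y k, Y (k + 1)) (0, Z (k + 1)) =
      H (Z 0, Z 1) (Y 0, 0) + H (Z k, Z (k + 1)) (0, Y (k + 1)) := by
  have a := h1 V (fun _ => H) k Y Z hY
  have b := h1 V (fun _ => H) k Z Y hZ
  rw [en_symm hP] at b
  exact a.symm.trans b

theorem term_nn {lam : ℝ} {H : Bf V} (hl : 0 < lam) (hP : Pos lam H) (v w : V) :
    0 ≤ H (v, w) (v, w) :=
  le_trans (by positivity) (hP.pos v w)

/-- the energy is at least the energy of the first link -/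
theorem en_first {lam : ℝ} {H : Bf V} (hl : 0 < lam) (hP : Pos lam H) (k : ℕ) (Y : ℕ → V) :
    lam * ‖Y 0‖ ^ 2 ≤ En (fun _ => H) (k + 1) Y Y := by
  unfold En
  have h1 : H (Y 0, Y (0 + 1)) (Y 0, Y (0 + 1)) ≤
      ∑ j ∈ Finset.range (k + 1), H (Y j, Y (j + 1)) (Y j, Y (j + 1)) :=
    Finset.single_le_sum (f := fun j => H (Y j, Y (j + 1)) (Y j, Y (j + 1)))
      (fun j _ => term_nn hl hP _ _) (Finset.mem_range.2 (Nat.succ_pos k))
  have h2 := hP.pos (Y 0) (Y (0 + 1))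
  have h3 : 0 ≤ lam * ‖Y (0 + 1)‖ ^ 2 := by positivity
  linarith

/-- the energy is at least the energy of the last link -/
theorem en_last {lam : ℝ} {H : Bf V} (hl : 0 < lam) (hP : Pos lam H) (k : ℕ) (Y : ℕ → V) :
    lam * ‖Y (k + 1)‖ ^ 2 ≤ En (fun _ => H) (k + 1) Y Y := by
  unfold En
  have h1 : H (Y k, Y (k + 1)) (Y k, Y (k + 1)) ≤
      ∑ j ∈ Finset.range (k + 1), H (Y j, Y (j + 1)) (Y j, Y (j + 1)) :=
    Finset.single_le_sum (f := fun j => H (Y j, Y (j + 1)) (Y j, Y (j + 1)))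
      (fun j _ => term_nn hl hP _ _) (Finset.mem_range.2 (Nat.lt_succ_self k))
  have h2 := hP.pos (Y k) (Y (k + 1))
  have h3 : 0 ≤ lam * ‖Y k‖ ^ 2 := by positivity
  linarith

/-- the basic estimate -/
theorem key (h1 : XGreen) (h2 : XBvp) [FiniteDimensional ℝ V] {lam : ℝ} {H : Bf V}
    (hl : 0 < lam) (hP : Pos lam H) (c : ℕ → ℝ) (hc0 : ∀ m, 0 ≤ c m)
    (hc : ∀ (m : ℕ) (Y : ℕ → V) (z : V), Sol (fun _ => H) (m + 1) Y → Y (m + 1) = 0 →
      |H (Y m, 0) (0, z)| ≤ c m * ‖Y 0‖ * ‖z‖)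
    (i m : ℕ) (Z : ℕ → V) (hZ : Sol (fun _ => H) (i + 1 + m + 1) Z) (hZ0 : Z 0 = 0) :
    2 * lam * ‖Z (i + 1)‖ ≤ c m * ‖Z (i + 1 + m + 1)‖ := by
  obtain ⟨Y, hY0, hYm, hY⟩ := h2 V lam hl (fun _ => H) (fun _ => hP) m (Z (i + 1)) 0
    (fun _ => 0)
  have hYs : Sol (fun _ => H) (m + 1) Y := fun j hj w => by
    simpa using hY j hj w
  have hZ' : Sol (fun _ => H) (m + 1) (fun l => Z (i + 1 + l)) := fun j hj w => by
    have h := hZ (i + 1 + j) (by omega) w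
    exact h
  have hg := green2 h1 hP m Y (fun l => Z (i + 1 + l)) hYs hZ'
  have e1 : i + 1 + (m + 1) = i + 1 + m + 1 := by omega
  have e0 : i + 1 + 0 = i + 1 := by omega
  simp only [e1, e0, hY0, hYm, zz, add_zero] at hg
  have ha := h1 V (fun _ => H) m Y Y hYs
  simp only [hY0, hYm, zz, add_zero] at ha
  have ha' := en_first hl hP m Y
  rw [hY0] at ha'
  have hZi : Sol (fun _ => H) (i + 1) Z := fun j hj w => hZ j (by omega) w
  have hb := h1 V (fun _ => H) i Z Z hZi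
  simp only [hZ0, zz, zero_add] at hb
  have hb' := en_last hl hP i Z
  have hs := hZ i (by omega) (Z (i + 1))
  have hcm := hc m Y (Z (i + 1 + m + 1)) hYs hYm
  rw [hY0] at hcm
  have hcm' := (abs_le.1 hcm).1
  have hs' : H (Z i, Z (i + 1)) (0, Z (i + 1)) + H (Z (i + 1), Z (i + 2)) (Z (i + 1), 0) = 0 :=
    hs
  have hg' : H (Z (i + 1), Y 1) (Z (i + 1), 0) + H (Y m, 0) (0, Z (i + 1 + m + 1)) =
      H (Z (i + 1), Z (i + 2)) (Z (i + 1), 0) := hg
  have hf : 2 * lam * ‖Z (i + 1)‖ ^ 2 ≤ c m * ‖Z (i + 1)‖ * ‖Z (i + 1 + m + 1)‖ := by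
    have q1 : lam * ‖Z (i + 1)‖ ^ 2 ≤ H (Z (i + 1), Y 1) (Z (i + 1), 0) := by
      rw [← ha]; exact ha'
    have q2 : lam * ‖Z (i + 1)‖ ^ 2 ≤ H (Z i, Z (i + 1)) (0, Z (i + 1)) := by
      rw [← hb]; exact hb'
    linarith
  rcases eq_or_lt_of_le (norm_nonneg (Z (i + 1))) with h0 | h0
  · rw [← h0, mul_zero]
    exact mul_nonneg (hc0 m) (norm_nonneg _)
  · have : (2 * lam * ‖Z (i + 1)‖) * ‖Z (i + 1)‖ ≤
        (c m * ‖Z (i + 1 + m + 1)‖) * ‖Z (i + 1)‖ := by linarith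
    exact le_of_mul_le_mul_right this h0

/-- the best constants -/
theorem best {lam : ℝ} {H : Bf V} (hl : 0 < lam) (hP : Pos lam H) (h3 : XPosR) :
    ∃ b : ℕ → ℝ, (∀ m, 0 ≤ b m) ∧
      (∀ (m : ℕ) (Y : ℕ → V) (z : V), Sol (fun _ => H) (m + 1) Y → Y (m + 1) = 0 →
        |H (Y m, 0) (0, z)| ≤ b m * ‖Y 0‖ * ‖z‖) ∧
      ∀ (m : ℕ) (c : ℝ), 0 ≤ c → c < b m → ∃ (Y : ℕ → V) (z : V),
        Sol (fun _ => H) (m + 1) Y ∧ Y (m + 1) = 0 ∧ c * ‖Y 0‖ * ‖z‖ < |H (Y m, 0) (0, z)| := by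
  obtain ⟨s, hs, C, hC⟩ := h3 V lam H hl hP
  let T : ℕ → Set ℝ := fun m => {c | 0 ≤ c ∧ ∀ (Y : ℕ → V) (z : V),
    Sol (fun _ => H) (m + 1) Y → Y (m + 1) = 0 → |H (Y m, 0) (0, z)| ≤ c * ‖Y 0‖ * ‖z‖}
  have hT : ∀ m, (T m).Nonempty := by
    intro m
    refine ⟨|C| * Real.exp (-(s * m)), by positivity, fun Y z hY hY0 => ?_⟩
    refine (hC m Y z hY hY0).trans ?_
    have : C * Real.exp (-(s * m)) ≤ |C| * Real.exp (-(s * m)) :=
      mul_le_mul_of_nonneg_right (le_abs_self C) (Real.exp_pos _).le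
    exact mul_le_mul_of_nonneg_right (mul_le_mul_of_nonneg_right this (norm_nonneg _))
      (norm_nonneg _)
  have hB : ∀ m, BddBelow (T m) := fun m => ⟨0, fun c hc => hc.1⟩
  refine ⟨fun m => sInf (T m), fun m => le_csInf (hT m) fun c hc => hc.1, ?_, ?_⟩
  · intro m Y z hY hY0
    rcases eq_or_lt_of_le (mul_nonneg (norm_nonneg (Y 0)) (norm_nonneg z)) with h0 | h0
    · obtain ⟨c, hc⟩ := hT m
      have h := hc.2 Y z hY hY0
      rw [mul_assoc, ← h0, mul_zero] at h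
      rw [mul_assoc, ← h0, mul_zero]
      exact h
    · rw [mul_assoc, ← div_le_iff₀ h0]
      refine le_csInf (hT m) fun c hc => ?_
      rw [div_le_iff₀ h0, ← mul_assoc]
      exact hc.2 Y z hY hY0
  · intro m c hc hcb
    have hn : c ∉ T m := fun h => absurd (csInf_le (hB m) h) (not_le.2 hcb)
    by_contra hcon
    push Not at hcon
    exact hn ⟨hc, fun Y z hY hY0 => hcon Y z hY hY0⟩

/-- records of an unbounded sequence -/
theorem records (a : ℕ → ℝ) (h0 : ∀ m, 0 ≤ a m) (hu : ∀ N, ∃ k, N < a k) (i : ℕ) :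
    ∃ k, i < k ∧ 0 < a k ∧ ∀ m, m ≤ k → a m ≤ a k := by
  obtain ⟨k₁, hk₁⟩ := hu (∑ m ∈ Finset.range (i + 1), a m)
  obtain ⟨k, hk, hm⟩ := Finset.exists_max_image (Finset.range (k₁ + 1)) a
    ⟨k₁, Finset.mem_range.2 (Nat.lt_succ_self _)⟩
  have hS : 0 ≤ ∑ m ∈ Finset.range (i + 1), a m := Finset.sum_nonneg fun m _ => h0 m
  have h1 := hm k₁ (Finset.mem_range.2 (Nat.lt_succ_self _))
  refine ⟨k, ?_, by linarith, fun m hmk => hm m ?_⟩
  · by_contra hik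
    have h2 : a k ≤ ∑ m ∈ Finset.range (i + 1), a m :=
      Finset.single_le_sum (f := a) (fun m _ => h0 m) (Finset.mem_range.2 (by omega))
    linarith
  · have := Finset.mem_range.1 hk
    exact Finset.mem_range.2 (by omega)

/-- a solution on a long interval -/
theorem fin (h1 : XGreen) (h2 : XBvp) (h3 : XPosR) [FiniteDimensional ℝ V] {lam s s' : ℝ}
    {H : Bf V} (hl : 0 < lam) (hP : Pos lam H) (hG : ¬ Gr H s) (hss : s < s') (i : ℕ) :
    ∃ W : ℕ → V, W 0 = 0 ∧ ‖W 1‖ = 1 ∧ Sol (fun _ => H) (i + 1) W ∧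
      ∀ j, j ≤ i → ‖W j‖ ≤ ‖H‖ / lam * Real.exp (s' * j) := by
  obtain ⟨b, hb0, hb, hb'⟩ := best hl hP h3
  have hu : ∀ N, ∃ k : ℕ, N < b k * Real.exp (s' * k) := by
    intro N
    by_contra hcon
    push Not at hcon
    apply hG
    have hN : 0 ≤ N := le_trans (mul_nonneg (hb0 0) (Real.exp_pos _).le) (hcon 0)
    refine ⟨N, fun k Y z hY hY0 => ?_⟩
    refine (hb k Y z hY hY0).trans ?_
    have hbk : b k ≤ N * Real.exp (-(s * k)) := by
      have e1 : b k = (b k * Real.exp (s' * k)) * Real.exp (-(s' * k)) := by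
        rw [mul_assoc, ← Real.exp_add, add_neg_cancel, Real.exp_zero, mul_one]
      rw [e1]
      refine mul_le_mul (hcon k) ?_ (Real.exp_pos _).le hN
      refine Real.exp_le_exp.2 (neg_le_neg ?_)
      exact mul_le_mul_of_nonneg_right hss.le (Nat.cast_nonneg k)
    exact mul_le_mul_of_nonneg_right (mul_le_mul_of_nonneg_right hbk (norm_nonneg _))
      (norm_nonneg _)
  obtain ⟨k, hik, hak, hrec⟩ := records (fun m => b m * Real.exp (s' * m))
    (fun m => mul_nonneg (hb0 m) (Real.exp_pos _).le) hu i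
  have hbk : 0 < b k := pos_of_mul_pos_left hak (Real.exp_pos _).le
  obtain ⟨Y, z, hY, hY0, hYz⟩ := hb' k (b k / 2) (by linarith) (by linarith)
  obtain ⟨Z, hZ0, hZk, hZ⟩ := h2 V lam hl (fun _ => H) (fun _ => hP) k 0 z (fun _ => 0)
  have hZs : Sol (fun _ => H) (k + 1) Z := fun j hj w => by
    simpa using hZ j hj w
  have hg := green2 h1 hP k Y Z hY hZs
  simp only [hZ0, hZk, hY0, zz, zero_add, add_zero] at hg
  have hn1 : |H (0, Z 1) (Y 0, 0)| ≤ ‖H‖ * ‖Z 1‖ * ‖Y 0‖ := by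
    have h := H.le_opNorm₂ ((0 : V), Z 1) (Y 0, (0 : V))
    have e1 : ‖((0 : V), Z 1)‖ = ‖Z 1‖ := by simp [Prod.norm_def]
    have e2 : ‖(Y 0, (0 : V))‖ = ‖Y 0‖ := by simp [Prod.norm_def]
    rw [e1, e2, Real.norm_eq_abs] at h
    exact h
  rw [hg] at hYz
  have h4 : b k / 2 * ‖Y 0‖ * ‖z‖ < ‖H‖ * ‖Z 1‖ * ‖Y 0‖ := lt_of_lt_of_le hYz hn1
  have h5 : 0 < ‖Y 0‖ := by
    rcases eq_or_lt_of_le (norm_nonneg (Y 0)) with h0 | h0
    · rw [← h0] at h4
      simp at h4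
    · exact h0
  have h6 : b k / 2 * ‖z‖ < ‖H‖ * ‖Z 1‖ := by
    have : (b k / 2 * ‖z‖) * ‖Y 0‖ < (‖H‖ * ‖Z 1‖) * ‖Y 0‖ := by linarith
    exact lt_of_mul_lt_mul_right this h5.le
  have h7 : 0 < ‖Z 1‖ := by
    rcases eq_or_lt_of_le (norm_nonneg (Z 1)) with h0 | h0
    · rw [← h0, mul_zero] at h6
      have : 0 ≤ b k / 2 * ‖z‖ := by positivity
      linarith
    · exact h0
  have h8 : ∀ j, j ≤ k → ‖Z j‖ ≤ ‖H‖ / lam * Real.exp (s' * j) * ‖Z 1‖ := by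
    intro j hj
    rcases Nat.eq_zero_or_pos j with rfl | hj0
    · rw [hZ0, norm_zero]
      positivity
    · obtain ⟨l, rfl⟩ : ∃ l, j = l + 1 := ⟨j - 1, by omega⟩
      obtain ⟨m, rfl⟩ : ∃ m, k = l + 1 + m := ⟨k - (l + 1), by omega⟩
      have hk := key h1 h2 hl hP b hb0 hb l m Z hZs hZ0
      rw [hZk] at hk
      have hr : b m ≤ b (l + 1 + m) * Real.exp (s' * ((l + 1 : ℕ) : ℝ)) := by
        have h : b m * Real.exp (s' * (m : ℝ)) ≤
            b (l + 1 + m) * Real.exp (s' * ((l + 1 + m : ℕ) : ℝ)) := hrec m (by omega)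
        have e1 : Real.exp (s' * ((l + 1 + m : ℕ) : ℝ)) =
            Real.exp (s' * ((l + 1 : ℕ) : ℝ)) * Real.exp (s' * (m : ℝ)) := by
          rw [← Real.exp_add]
          congr 1
          push_cast
          ring
        rw [e1, ← mul_assoc] at h
        exact le_of_mul_le_mul_right h (Real.exp_pos _)
      have h9 : 2 * lam * ‖Z (l + 1)‖ ≤
          2 * (‖H‖ * Real.exp (s' * ((l + 1 : ℕ) : ℝ)) * ‖Z 1‖) := by
        calc 2 * lam * ‖Z (l + 1)‖ ≤ b m * ‖z‖ := hk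
          _ ≤ b (l + 1 + m) * Real.exp (s' * ((l + 1 : ℕ) : ℝ)) * ‖z‖ :=
              mul_le_mul_of_nonneg_right hr (norm_nonneg _)
          _ = 2 * Real.exp (s' * ((l + 1 : ℕ) : ℝ)) * (b (l + 1 + m) / 2 * ‖z‖) := by ring
          _ ≤ 2 * Real.exp (s' * ((l + 1 : ℕ) : ℝ)) * (‖H‖ * ‖Z 1‖) :=
              mul_le_mul_of_nonneg_left h6.le (by positivity)
          _ = 2 * (‖H‖ * Real.exp (s' * ((l + 1 : ℕ) : ℝ)) * ‖Z 1‖) := by ring
      have h10 : ‖Z (l + 1)‖ * lam ≤ ‖H‖ * Real.exp (s' * ((l + 1 : ℕ) : ℝ)) * ‖Z 1‖ := by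
        linarith
      have h11 := (le_div_iff₀ hl).2 h10
      calc ‖Z (l + 1)‖ ≤ ‖H‖ * Real.exp (s' * ((l + 1 : ℕ) : ℝ)) * ‖Z 1‖ / lam := h11
        _ = ‖H‖ / lam * Real.exp (s' * ((l + 1 : ℕ) : ℝ)) * ‖Z 1‖ := by ring
  refine ⟨fun j => ‖Z 1‖⁻¹ • Z j, ?_, ?_, ?_, ?_⟩
  · simp only [hZ0, smul_zero]
  · rw [norm_smul, norm_inv, norm_norm, inv_mul_cancel₀ h7.ne']
  · intro j hj w
    have h := hZs j (by omega) w
    have e1 : (‖Z 1‖⁻¹ • Z j, ‖Z 1‖⁻¹ • Z (j + 1)) = ‖Z 1‖⁻¹ • (Z j, Z (j + 1)) := rfl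
    have e2 : (‖Z 1‖⁻¹ • Z (j + 1), ‖Z 1‖⁻¹ • Z (j + 2)) =
      ‖Z 1‖⁻¹ • (Z (j + 1), Z (j + 2)) := rfl
    show H (‖Z 1‖⁻¹ • Z j, ‖Z 1‖⁻¹ • Z (j + 1)) (0, w) +
      H (‖Z 1‖⁻¹ • Z (j + 1), ‖Z 1‖⁻¹ • Z (j + 2)) (w, 0) = 0
    rw [e1, e2, map_smul, map_smul, smul_apply,
      smul_apply, ← smul_add]
    have h' : H (Z j, Z (j + 1)) (0, w) + H (Z (j + 1), Z (j + 2)) (w, 0) = 0 := h
    rw [h', smul_zero]
  · intro j hj
    rw [norm_smul, norm_inv, norm_norm, inv_mul_le_iff₀ h7]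
    refine (h8 j (by omega)).trans (le_of_eq ?_)
    ring

end IXRec

/-- item XRec -/
theorem pr_XRec (h1 : XGreen) (h2 : XBvp) (h3 : XPosR) : XRec := by
  intro V _ _ _ lam s s' H hl hP hG hss
  choose W hW0 hW1 hWs hWn using fun i : ℕ => IXRec.fin h1 h2 h3 hl hP hG hss i
  let U : ℕ → ℕ → V := fun i j => if j ≤ i then W i j else 0
  have hK : IsCompact (Set.univ.pi fun j : ℕ =>
      Metric.closedBall (0 : V) (‖H‖ / lam * Real.exp (s' * j))) :=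
    isCompact_univ_pi fun j => isCompact_closedBall _ _
  have hU : ∀ i, U i ∈ Set.univ.pi fun j : ℕ =>
      Metric.closedBall (0 : V) (‖H‖ / lam * Real.exp (s' * j)) := by
    intro i j _
    rw [mem_closedBall_zero_iff]
    show ‖if j ≤ i then W i j else 0‖ ≤ _
    split_ifs with hj
    · exact hWn i j hj
    · rw [norm_zero]
      positivity
  obtain ⟨Z, hZ, φ, hφ, hlim⟩ := hK.tendsto_subseq hU
  have hl' : ∀ j, Tendsto (fun i => U (φ i) j) atTop (𝓝 (Z j)) := fun j =>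
    (tendsto_pi_nhds.1 hlim) j
  have hge : ∀ j, ∀ᶠ i in atTop, j ≤ φ i := fun j => by
    filter_upwards [eventually_ge_atTop j] with i hi
    exact hi.trans (hφ.id_le i)
  have hl'' : ∀ j, Tendsto (fun i => W (φ i) j) atTop (𝓝 (Z j)) := fun j => by
    refine (hl' j).congr' ?_
    filter_upwards [hge j] with i hi
    show (if j ≤ φ i then W (φ i) j else 0) = W (φ i) j
    rw [if_pos hi]
  refine ⟨Z, ‖H‖ / lam, ?_, ?_, ?_, ?_⟩
  · refine tendsto_nhds_unique (hl'' 0) ?_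
    simp only [hW0]
    exact tendsto_const_nhds
  · have h := (hl'' 1).norm
    simp only [hW1] at h
    have h5 := tendsto_nhds_unique h tendsto_const_nhds
    intro h0
    rw [h0, norm_zero] at h5
    exact zero_ne_one h5
  · intro k j hj w
    have hc1 : Tendsto (fun i => H (W (φ i) j, W (φ i) (j + 1)) (0, w) +
        H (W (φ i) (j + 1), W (φ i) (j + 2)) (w, 0)) atTop
        (𝓝 (H (Z j, Z (j + 1)) (0, w) + H (Z (j + 1), Z (j + 2)) (w, 0))) := by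
      have ht : ∀ (a c : ℕ) (p : V × V), Tendsto (fun i => H (W (φ i) a, W (φ i) c) p) atTop
          (𝓝 (H (Z a, Z c) p)) := by
        intro a c p
        have hcont : Continuous fun q : V × V => H q p :=
          (ContinuousLinearMap.apply ℝ ℝ p).continuous.comp H.continuous
        exact (hcont.tendsto (Z a, Z c)).comp ((hl'' a).prodMk_nhds (hl'' c))
      exact (ht _ _ _).add (ht _ _ _)
    have hc2 : Tendsto (fun i => H (W (φ i) j, W (φ i) (j + 1)) (0, w) +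
        H (W (φ i) (j + 1), W (φ i) (j + 2)) (w, 0)) atTop (𝓝 0) := by
      refine Tendsto.congr' ?_ tendsto_const_nhds
      filter_upwards [hge (j + 1)] with i hi
      exact (hWs (φ i) j (by omega) w).symm
    exact tendsto_nhds_unique hc1 hc2
  · intro j
    have := hZ j (Set.mem_univ j)
    rwa [mem_closedBall_zero_iff] at this

end Pool.Agent.LX
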