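import Pool.Agent.Work.MP_25cd3b_gt.LX.StmtsA

set_option autoImplicit false

/-!
# Item XUnb: large values occur for large `k`
-/

open Set Filter Topology
open scoped ContDiff

namespace Pool.Agent.LX

namespace IXUnb

variable {V : Type} [NormedAddCommGroup V] [NormedSpace ℝ V]

theorem scale (H : Bf V) (k : ℕ) (Y : ℕ → V) (h : Sol (fun _ => H) k Y) (a : ℝ) :
    Sol (fun _ => H) k (fun j => a • Y j) := by
  intro j hj w
  have h1 := h j hj w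
  simp only at h1 ⊢
  have e1 : ((a • Y j, a • Y (j + 1)) : V × V) = a • (Y j, Y (j + 1)) := rfl
  have e2 : ((a • Y (j + 1), a • Y (j + 2)) : V × V) = a • (Y (j + 1), Y (j + 2)) := rfl
  rw [e1, e2, map_smul, map_smul, _root_.smul_apply, _root_.smul_apply,
    ← smul_add, h1, smul_zero]

theorem bound (H : Bf V) (y z : V) : |H (y, 0) (0, z)| ≤ ‖H‖ * ‖y‖ * ‖z‖ := by
  have h1 : ‖H (y, 0) (0, z)‖ ≤ ‖H (y, 0)‖ * ‖((0 : V), z)‖ := (H (y, 0)).le_opNorm _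
  have h2 : ‖H (y, 0)‖ ≤ ‖H‖ * ‖(y, (0 : V))‖ := H.le_opNorm _
  have e1 : ‖((0 : V), z)‖ = ‖z‖ := by simp [Prod.norm_def]
  have e2 : ‖(y, (0 : V))‖ = ‖y‖ := by simp [Prod.norm_def]
  rw [e1] at h1
  rw [e2] at h2
  calc |H (y, 0) (0, z)| = ‖H (y, 0) (0, z)‖ := (Real.norm_eq_abs _).symm
    _ ≤ ‖H (y, 0)‖ * ‖z‖ := h1
    _ ≤ ‖H‖ * ‖y‖ * ‖z‖ := mul_le_mul_of_nonneg_right h2 (norm_nonneg _)

end IXUnb

theorem pr_XUnb (h1 : XPosR) (h2 : XDec) : XUnb := by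
  intro V _ _ _ lam t H hlam hpos hGr N k₀
  obtain ⟨s, hs, hGs⟩ := h1 V lam H hlam hpos
  obtain ⟨C₁, hC₁, -, hdec⟩ := h2 V lam s H hlam hpos hGs
  by_contra hne
  push Not at hne
  apply hGr
  refine ⟨|N| + ‖H‖ * C₁ * Real.exp (|t| * k₀), ?_⟩
  intro k Y z hY hk
  have hYk : ‖Y k‖ ≤ C₁ * ‖Y 0‖ := by
    have h3 := hdec (k + 1) Y hY hk k (Nat.le_succ k)
    have h4 : Real.exp (-(s * k)) ≤ 1 := by
      rw [Real.exp_le_one_iff]
      have : 0 ≤ s * k := mul_nonneg hs.le (Nat.cast_nonneg k)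
      linarith
    calc ‖Y k‖ ≤ C₁ * Real.exp (-(s * k)) * ‖Y 0‖ := h3
      _ ≤ C₁ * 1 * ‖Y 0‖ := by
        refine mul_le_mul_of_nonneg_right ?_ (norm_nonneg _)
        exact mul_le_mul_of_nonneg_left h4 (by linarith)
      _ = C₁ * ‖Y 0‖ := by ring
  have hE : 0 < Real.exp (-(t * k)) := Real.exp_pos _
  have hab : 0 ≤ ‖Y 0‖ * ‖z‖ := mul_nonneg (norm_nonneg _) (norm_nonneg _)
  have hH : 0 ≤ ‖H‖ * C₁ := mul_nonneg (norm_nonneg H) (by linarith)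
  have hN : 0 ≤ |N| := abs_nonneg N
  have hEt : 0 < Real.exp (|t| * k₀) := Real.exp_pos _
  by_cases hkk : k₀ ≤ k
  · by_cases ha : ‖Y 0‖ = 0
    · have h5 : ‖Y k‖ = 0 := le_antisymm (by rw [ha, mul_zero] at hYk; exact hYk) (norm_nonneg _)
      have h6 := IXUnb.bound H (Y k) z
      rw [h5, mul_zero, zero_mul] at h6
      rw [ha, mul_zero, zero_mul]
      exact h6
    by_cases hb : ‖z‖ = 0
    · have h6 := IXUnb.bound H (Y k) z
      rw [hb, mul_zero] at h6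
      rw [hb, mul_zero]
      exact h6
    have ha' : 0 < ‖Y 0‖ := lt_of_le_of_ne (norm_nonneg _) (Ne.symm ha)
    have hb' : 0 < ‖z‖ := lt_of_le_of_ne (norm_nonneg _) (Ne.symm hb)
    have h7 := hne k hkk (fun j => ‖Y 0‖⁻¹ • Y j) (‖z‖⁻¹ • z)
      (IXUnb.scale H (k + 1) Y hY _) (by rw [hk, smul_zero])
      (by rw [norm_smul, norm_inv, norm_norm, inv_mul_cancel₀ ha])
      (by rw [norm_smul, norm_inv, norm_norm, inv_mul_cancel₀ hb])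
    have e1 : ((‖Y 0‖⁻¹ • Y k, (0 : V)) : V × V) = ‖Y 0‖⁻¹ • (Y k, 0) := by
      rw [Prod.smul_mk, smul_zero]
    have e2 : (((0 : V), ‖z‖⁻¹ • z) : V × V) = ‖z‖⁻¹ • (0, z) := by
      rw [Prod.smul_mk, smul_zero]
    rw [e1, e2, map_smul, map_smul, _root_.smul_apply, smul_eq_mul, smul_eq_mul,
      abs_mul, abs_mul, abs_inv, abs_inv, abs_norm, abs_norm] at h7
    have h8 : |H (Y k, 0) (0, z)| =
        (‖z‖⁻¹ * (‖Y 0‖⁻¹ * |H (Y k, 0) (0, z)|)) * (‖Y 0‖ * ‖z‖) := by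
      field_simp
    rw [h8]
    calc (‖z‖⁻¹ * (‖Y 0‖⁻¹ * |H (Y k, 0) (0, z)|)) * (‖Y 0‖ * ‖z‖)
        ≤ (N * Real.exp (-(t * k))) * (‖Y 0‖ * ‖z‖) := mul_le_mul_of_nonneg_right h7 hab
      _ ≤ ((|N| + ‖H‖ * C₁ * Real.exp (|t| * k₀)) * Real.exp (-(t * k))) * (‖Y 0‖ * ‖z‖) := by
        refine mul_le_mul_of_nonneg_right (mul_le_mul_of_nonneg_right ?_ hE.le) hab
        have := le_abs_self N
        have h9 : 0 ≤ ‖H‖ * C₁ * Real.exp (|t| * k₀) := mul_nonneg hH hEt.le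
        linarith
      _ = _ := by ring
  · push Not at hkk
    have h10 : 1 ≤ Real.exp (|t| * k₀) * Real.exp (-(t * k)) := by
      rw [← Real.exp_add, Real.one_le_exp_iff]
      have h11 : t * k ≤ |t| * k := mul_le_mul_of_nonneg_right (le_abs_self t) (Nat.cast_nonneg k)
      have h12 : |t| * k ≤ |t| * k₀ :=
        mul_le_mul_of_nonneg_left (by exact_mod_cast hkk.le) (abs_nonneg t)
      linarith
    calc |H (Y k, 0) (0, z)| ≤ ‖H‖ * ‖Y k‖ * ‖z‖ := IXUnb.bound H (Y k) z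
      _ ≤ ‖H‖ * (C₁ * ‖Y 0‖) * ‖z‖ := by
        refine mul_le_mul_of_nonneg_right ?_ (norm_nonneg _)
        exact mul_le_mul_of_nonneg_left hYk (norm_nonneg H)
      _ = (‖H‖ * C₁ * (‖Y 0‖ * ‖z‖)) * 1 := by ring
      _ ≤ (‖H‖ * C₁ * (‖Y 0‖ * ‖z‖)) * (Real.exp (|t| * k₀) * Real.exp (-(t * k))) :=
        mul_le_mul_of_nonneg_left h10 (mul_nonneg hH hab)
      _ = (‖H‖ * C₁ * Real.exp (|t| * k₀)) * (Real.exp (-(t * k)) * (‖Y 0‖ * ‖z‖)) := by ring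
      _ ≤ (|N| + ‖H‖ * C₁ * Real.exp (|t| * k₀)) * (Real.exp (-(t * k)) * (‖Y 0‖ * ‖z‖)) := by
        refine mul_le_mul_of_nonneg_right (by linarith) (mul_nonneg hE.le hab)
      _ = _ := by ring

end Pool.Agent.LX
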