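import Pool.Agent.Work.MP_25cd3b_gt.LX.StmtsA

set_option autoImplicit false

/-!
# MP_25cd3b_gt, block LX, item YAng: chains with a common end
-/

open Set Filter Topology
open scoped ContDiff

namespace Pool.Agent.LX

theorem pr_YAng (h1 : YDif) (h2 : XPer) : YAng := by
  intro V _ _ _ lam K r L L1 L2 hCh s s' hGr hs' hs
  obtain ⟨ρ₀, C₀, hρ₀, hC₀, hper⟩ := h2 V lam s s' (L2 0) hCh.lam_pos hCh.pos hGr hs' hs
  have hK := hCh.K_nn
  have hr := hCh.r_pos
  refine ⟨C₀ * (2 * min (r / 2) (ρ₀ / (K + 1))) * Real.exp s', min (r / 2) (ρ₀ / (K + 1)), ?_,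
    ?_, ?_, ?_⟩
  · have : 0 < min (r / 2) (ρ₀ / (K + 1)) := lt_min (by positivity) (by positivity)
    positivity
  · exact lt_min (by positivity) (by positivity)
  · exact (min_le_left _ _).trans_lt (by linarith)
  have hρ : 0 < min (r / 2) (ρ₀ / (K + 1)) := lt_min (by positivity) (by positivity)
  have hρr : min (r / 2) (ρ₀ / (K + 1)) < r := (min_le_left _ _).trans_lt (by linarith)
  have hKρ : K * min (r / 2) (ρ₀ / (K + 1)) ≤ ρ₀ := by
    have h3 : min (r / 2) (ρ₀ / (K + 1)) ≤ ρ₀ / (K + 1) := min_le_right _ _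
    rw [le_div_iff₀ (by positivity)] at h3
    nlinarith
  generalize min (r / 2) (ρ₀ / (K + 1)) = ρ at hρ hρr hKρ ⊢
  intro k u u' hk hu hu' he he'
  obtain ⟨H', hH1, hH2, -⟩ := h1 V lam K r L L1 L2 hCh k u u' ρ hρr hu hu' he he'
  have hb := hper k H' (fun j hj => (hH1 j hj).trans hKρ) (fun j => u' j - u j) hH2
  have hd : ∀ j ≤ k, ‖u' j - u j‖ ≤ 2 * ρ := by
    intro j hj
    refine (norm_sub_le _ _).trans ?_
    linarith [hu j hj, hu' j hj]
  have hexp : Real.exp (-(s' * ((k : ℝ) - 1))) = Real.exp s' * Real.exp (-(s' * k)) := by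
    rw [← Real.exp_add]
    congr 1
    ring
  constructor
  · intro h0
    have h3 := hb 1 hk
    simp only [h0, sub_self, norm_zero, mul_zero, zero_add, Nat.cast_one, hexp] at h3
    rw [norm_sub_rev]
    refine h3.trans ?_
    have h4 : Real.exp s' * Real.exp (-(s' * k)) * ‖u' k - u k‖ ≤
        Real.exp s' * Real.exp (-(s' * k)) * (2 * ρ) :=
      mul_le_mul_of_nonneg_left (hd k le_rfl) (by positivity)
    calc C₀ * (Real.exp s' * Real.exp (-(s' * k)) * ‖u' k - u k‖) ≤
        C₀ * (Real.exp s' * Real.exp (-(s' * k)) * (2 * ρ)) :=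
          mul_le_mul_of_nonneg_left h4 (by linarith)
      _ = _ := by ring
  · intro h0
    have h3 := hb (k - 1) (Nat.sub_le _ _)
    simp only [h0, sub_self, norm_zero, mul_zero, add_zero, Nat.cast_sub hk, Nat.cast_one,
      hexp] at h3
    rw [norm_sub_rev]
    refine h3.trans ?_
    have h4 : Real.exp s' * Real.exp (-(s' * k)) * ‖u' 0 - u 0‖ ≤
        Real.exp s' * Real.exp (-(s' * k)) * (2 * ρ) :=
      mul_le_mul_of_nonneg_left (hd 0 (Nat.zero_le _)) (by positivity)
    calc C₀ * (Real.exp s' * Real.exp (-(s' * k)) * ‖u' 0 - u 0‖) ≤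
        C₀ * (Real.exp s' * Real.exp (-(s' * k)) * (2 * ρ)) :=
          mul_le_mul_of_nonneg_left h4 (by linarith)
      _ = _ := by ring

end Pool.Agent.LX
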