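import Pool.Agent.Work.MP_25cd3b_gt.LX.StmtsA

set_option autoImplicit false

/-!
# MP_25cd3b_gt, block LX: decay of infinite chains (item YDec)
-/

open Set Filter Topology
open scoped ContDiff

namespace Pool.Agent.LX

namespace IYDec

/-- `L` is at most quadratic near `0` -/
theorem quad {V : Type} [NormedAddCommGroup V] [NormedSpace ℝ V] {lam K r : ℝ}
    {L : V × V → ℝ} {L1 : V × V → V × V →L[ℝ] ℝ} {L2 : V × V → Bf V}
    (h : Ch lam K r L L1 L2) {ρ : ℝ} (hρr : ρ < r) {p : V × V} (hp : ‖p‖ ≤ ρ) :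
    |L p| ≤ (‖L2 0‖ + K * ρ) * ‖p‖ ^ 2 := by
  have hρ0 : 0 ≤ ρ := (norm_nonneg p).trans hp
  set M : ℝ := ‖L2 0‖ + K * ρ with hM
  have hM0 : 0 ≤ M := add_nonneg (norm_nonneg (L2 0)) (mul_nonneg h.K_nn hρ0)
  have hL2 : ∀ q ∈ Metric.closedBall (0 : V × V) ρ, ‖L2 q‖ ≤ M := by
    intro q hq
    rw [mem_closedBall_zero_iff] at hq
    have h1 := h.lip q (lt_of_le_of_lt hq hρr)
    have h2 : L2 q = L2 0 + (L2 q - L2 0) := by abel
    calc ‖L2 q‖ = ‖L2 0 + (L2 q - L2 0)‖ := by rw [← h2]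
      _ ≤ ‖L2 0‖ + ‖L2 q - L2 0‖ := norm_add_le (L2 0) (L2 q - L2 0)
      _ ≤ ‖L2 0‖ + K * ‖q‖ := by linarith
      _ ≤ M := by
        have := mul_le_mul_of_nonneg_left hq h.K_nn
        linarith
  have hL1 : ∀ q, ‖q‖ ≤ ρ → ‖L1 q‖ ≤ M * ‖q‖ := by
    intro q hq
    have h3 := Convex.norm_image_sub_le_of_norm_hasFDerivWithin_le (𝕜 := ℝ)
      (f := L1) (f' := L2) (s := Metric.closedBall (0 : V × V) ρ) (C := M)
      (x := 0) (y := q)
      (fun x hx => (h.d2 x (lt_of_le_of_lt (mem_closedBall_zero_iff.1 hx) hρr)).hasFDerivWithinAt)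
      hL2 (convex_closedBall _ _) (mem_closedBall_zero_iff.2 (by simpa using hρ0))
      (mem_closedBall_zero_iff.2 hq)
    rw [h.crit, sub_zero, sub_zero] at h3
    exact h3
  have h4 := Convex.norm_image_sub_le_of_norm_hasFDerivWithin_le (𝕜 := ℝ)
    (f := L) (f' := L1) (s := Metric.closedBall (0 : V × V) ‖p‖) (C := M * ‖p‖)
    (x := 0) (y := p)
    (fun x hx => (h.d1 x (lt_of_le_of_lt ((mem_closedBall_zero_iff.1 hx).trans hp)
      hρr)).hasFDerivWithinAt)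
    (fun x hx => (hL1 x ((mem_closedBall_zero_iff.1 hx).trans hp)).trans
      (mul_le_mul_of_nonneg_left (mem_closedBall_zero_iff.1 hx) hM0))
    (convex_closedBall _ _) (mem_closedBall_zero_iff.2 (by simp))
    (mem_closedBall_zero_iff.2 le_rfl)
  rw [h.zero, sub_zero, sub_zero, Real.norm_eq_abs] at h4
  calc |L p| ≤ M * ‖p‖ * ‖p‖ := h4
    _ = M * ‖p‖ ^ 2 := by ring

end IYDec

theorem pr_YDec (h1 : YDif) (h2 : XPer) : YDec := by
  intro V _ _ _ lam K r L L1 L2 hCh s s' hGr hs' hss'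
  obtain ⟨ρ0, C0, hρ0, hC0, hper⟩ := h2 V lam s s' (L2 0) hCh.lam_pos hCh.pos hGr hs' hss'
  have hr := hCh.r_pos
  have hK := hCh.K_nn
  have hK1 : 0 < K + 1 := by linarith
  set ρ : ℝ := min (r / 2) (ρ0 / (K + 1)) with hρdef
  have hρ : 0 < ρ := lt_min (by linarith) (by positivity)
  have hρr : ρ < r := lt_of_le_of_lt (min_le_left _ _) (by linarith)
  have hKρ : K * ρ ≤ ρ0 := by
    have h3 : ρ ≤ ρ0 / (K + 1) := min_le_right _ _
    rw [le_div_iff₀ hK1] at h3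
    nlinarith
  set M : ℝ := ‖L2 0‖ + K * ρ with hM
  have hM0 : 0 ≤ M := add_nonneg (norm_nonneg (L2 0)) (mul_nonneg hK hρ.le)
  have hC0ρ : 0 < C0 * ρ := by positivity
  refine ⟨C0 * ρ + M * (C0 * ρ) ^ 2, ρ, by positivity, hρ, hρr, ?_⟩
  intro u hu hEL
  -- decay
  have hdec : ∀ j : ℕ, ‖u j‖ ≤ C0 * ρ * Real.exp (-(s' * j)) := by
    intro j
    have hk : ∀ᶠ k : ℕ in atTop, ‖u j‖ ≤ C0 * (Real.exp (-(s' * j)) * ρ +
        Real.exp (-(s' * ((k : ℝ) - j))) * ρ) := by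
      filter_upwards [eventually_ge_atTop j] with k hkj
      have hz : EL L1 k (fun _ => (0 : V)) := by
        intro i _ w
        have h0 : L1 ((0 : V), (0 : V)) = 0 := hCh.crit
        change L1 ((0 : V), (0 : V)) (0, w) + L1 ((0 : V), (0 : V)) (w, 0) = 0
        rw [h0]
        simp
      obtain ⟨H', hH', hSol, -⟩ := h1 V lam K r L L1 L2 hCh k (fun _ => 0) u ρ hρr
        (fun i _ => by simpa using hρ.le) (fun i _ => hu i) hz (hEL k)
      have h3 := hper k H' (fun i hi => (hH' i hi).trans hKρ) _ hSol j hkj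
      simp only [sub_zero] at h3
      refine h3.trans ?_
      have hC00 : 0 ≤ C0 := by linarith
      refine mul_le_mul_of_nonneg_left ?_ hC00
      exact add_le_add (mul_le_mul_of_nonneg_left (hu 0) (Real.exp_pos _).le)
        (mul_le_mul_of_nonneg_left (hu k) (Real.exp_pos _).le)
    have hlim : Tendsto (fun k : ℕ => C0 * (Real.exp (-(s' * j)) * ρ +
        Real.exp (-(s' * ((k : ℝ) - j))) * ρ)) atTop
        (𝓝 (C0 * (Real.exp (-(s' * j)) * ρ + 0 * ρ))) := by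
      refine Tendsto.const_mul _ (Tendsto.add tendsto_const_nhds (Tendsto.mul_const _ ?_))
      refine Real.tendsto_exp_atBot.comp ?_
      refine tendsto_neg_atTop_atBot.comp ?_
      refine Tendsto.const_mul_atTop hs' ?_
      exact tendsto_atTop_add_const_right _ (-(j : ℝ)) tendsto_natCast_atTop_atTop
    have h4 := ge_of_tendsto hlim hk
    calc ‖u j‖ ≤ C0 * (Real.exp (-(s' * j)) * ρ + 0 * ρ) := h4
      _ = C0 * ρ * Real.exp (-(s' * j)) := by ring
  intro j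
  have hexp0 : 0 < Real.exp (-(s' * (j : ℝ))) := Real.exp_pos _
  refine ⟨(hdec j).trans (mul_le_mul_of_nonneg_right (by nlinarith [sq_nonneg (C0 * ρ)])
    hexp0.le), ?_⟩
  have hp1 : ‖(u j, u (j + 1))‖ ≤ C0 * ρ * Real.exp (-(s' * j)) := by
    rw [Prod.norm_mk]
    refine max_le (hdec j) ((hdec (j + 1)).trans ?_)
    refine mul_le_mul_of_nonneg_left (Real.exp_le_exp.2 ?_) hC0ρ.le
    push_cast
    linarith
  have hp2 : ‖(u j, u (j + 1))‖ ≤ ρ := by
    rw [Prod.norm_mk]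
    exact max_le (hu j) (hu (j + 1))
  have h5 := IYDec.quad hCh hρr hp2
  refine h5.trans ?_
  have h6 : ‖(u j, u (j + 1))‖ ^ 2 ≤ (C0 * ρ * Real.exp (-(s' * j))) ^ 2 :=
    pow_le_pow_left₀ (norm_nonneg _) hp1 2
  have h7 : Real.exp (-(s' * (j : ℝ))) ^ 2 = Real.exp (-(2 * s' * j)) := by
    rw [← Real.exp_nat_mul]
    congr 1
    push_cast
    ring
  calc M * ‖(u j, u (j + 1))‖ ^ 2 ≤ M * (C0 * ρ * Real.exp (-(s' * j))) ^ 2 :=
        mul_le_mul_of_nonneg_left h6 hM0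
    _ = M * (C0 * ρ) ^ 2 * Real.exp (-(2 * s' * j)) := by rw [mul_pow, h7]; ring
    _ ≤ (C0 * ρ + M * (C0 * ρ) ^ 2) * Real.exp (-(2 * s' * j)) :=
        mul_le_mul_of_nonneg_right (by linarith) (Real.exp_pos _).le

end Pool.Agent.LX
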