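import Pool.Agent.Work.MP_25cd3b_gt.LX.StmtsA

set_option autoImplicit false

open Set Filter Topology

namespace Pool.Agent.LX

namespace IYDif

variable {V : Type} [NormedAddCommGroup V] [NormedSpace ℝ V]

theorem step {lam K r : ℝ} {L : V × V → ℝ} {L1 : V × V → V × V →L[ℝ] ℝ} {L2 : V × V → Bf V}
    (hC : Ch lam K r L L1 L2) {ρ : ℝ} (hρ : ρ < r) (p p' : V × V) (hp : ‖p‖ ≤ ρ) (hp' : ‖p'‖ ≤ ρ) :
    ∃ H : Bf V, ‖H - L2 0‖ ≤ K * ρ ∧ H (p' - p) = L1 p' - L1 p := by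
  have hρ0 : 0 ≤ ρ := le_trans (norm_nonneg _) hp
  obtain ⟨ψ, hψ1, hψ2⟩ := exists_dual_vector'' ℝ (p' - p)
  set e := L1 p' - L1 p - L2 0 (p' - p) with he
  have hmv : ‖e‖ ≤ K * ρ * ‖p' - p‖ := by
    have h1 : ∀ q ∈ Metric.closedBall (0 : V × V) ρ,
        HasFDerivWithinAt (fun q => L1 q - L2 0 q) (L2 q - L2 0) (Metric.closedBall (0 : V × V) ρ) q := by
      intro q hq
      rw [mem_closedBall_zero_iff] at hq
      have h2 := hC.d2 q (lt_of_le_of_lt hq hρ)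
      exact (h2.sub (L2 0).hasFDerivAt).hasFDerivWithinAt
    have h2 : ∀ q ∈ Metric.closedBall (0 : V × V) ρ, ‖L2 q - L2 0‖ ≤ K * ρ := by
      intro q hq
      rw [mem_closedBall_zero_iff] at hq
      exact le_trans (hC.lip q (lt_of_le_of_lt hq hρ)) (mul_le_mul_of_nonneg_left hq hC.K_nn)
    have h3 := (convex_closedBall (0 : V × V) ρ).norm_image_sub_le_of_norm_hasFDerivWithin_le h1 h2
      (mem_closedBall_zero_iff.2 hp) (mem_closedBall_zero_iff.2 hp')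
    have h4 : e = L1 p' - L2 0 p' - (L1 p - L2 0 p) := by
      rw [he, map_sub]; abel
    rw [h4]
    exact h3
  by_cases hδ : p' - p = 0
  · refine ⟨L2 0, ?_, ?_⟩
    · have h0 : L2 0 - L2 0 = 0 := sub_self (L2 0)
      rw [h0]
      have h1 : ‖(0 : Bf V)‖ = 0 := ContinuousLinearMap.opNorm_zero
      exact h1.le.trans (mul_nonneg hC.K_nn hρ0)
    · have : p' = p := sub_eq_zero.1 hδ
      rw [this]; simp
  · have hn : 0 < ‖p' - p‖ := norm_pos_iff.2 hδ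
    refine ⟨L2 0 + (‖p' - p‖⁻¹ • ψ).smulRight e, ?_, ?_⟩
    · have h0 : L2 0 + (‖p' - p‖⁻¹ • ψ).smulRight e - L2 0 = (‖p' - p‖⁻¹ • ψ).smulRight e :=
        add_sub_cancel_left (L2 0) _
      rw [h0, ContinuousLinearMap.norm_smulRight_apply, norm_smul, norm_inv, norm_norm]
      calc ‖p' - p‖⁻¹ * ‖ψ‖ * ‖e‖ ≤ ‖p' - p‖⁻¹ * 1 * (K * ρ * ‖p' - p‖) := by
            apply mul_le_mul _ hmv (norm_nonneg _) (by positivity)
            exact mul_le_mul_of_nonneg_left hψ1 (by positivity)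
        _ = K * ρ := by field_simp
    · have h5 : ((‖p' - p‖⁻¹ • ψ).smulRight e) (p' - p) = e := by
        rw [ContinuousLinearMap.smulRight_apply]
        have : (‖p' - p‖⁻¹ • ψ) (p' - p) = 1 := by
          show ‖p' - p‖⁻¹ * ψ (p' - p) = 1
          rw [hψ2]
          exact inv_mul_cancel₀ hn.ne'
        rw [this, one_smul]
      show L2 0 (p' - p) + ((‖p' - p‖⁻¹ • ψ).smulRight e) (p' - p) = _
      rw [h5, he]; abel

end IYDif

theorem pr_YDif : YDif := by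
  intro V iV nV lam K r L L1 L2 hC k u u' ρ hρ hu hu' hE hE'
  have key : ∀ j : ℕ, ∃ H : Bf V, j < k → ‖H - L2 0‖ ≤ K * ρ ∧
      H (u' j - u j, u' (j + 1) - u (j + 1)) = L1 (u' j, u' (j + 1)) - L1 (u j, u (j + 1)) := by
    intro j
    by_cases hj : j < k
    · have h1 : ‖(u j, u (j + 1))‖ ≤ ρ := by
        rw [Prod.norm_def]
        exact max_le (hu j hj.le) (hu (j + 1) hj)
      have h2 : ‖(u' j, u' (j + 1))‖ ≤ ρ := by
        rw [Prod.norm_def]
        exact max_le (hu' j hj.le) (hu' (j + 1) hj)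
      obtain ⟨H, h3, h4⟩ := IYDif.step hC hρ _ _ h1 h2
      exact ⟨H, fun _ => ⟨h3, h4⟩⟩
    · exact ⟨0, fun h => absurd h hj⟩
  choose H' hH' using key
  refine ⟨H', fun j hj => (hH' j hj).1, ?_, ?_⟩
  · intro j hj w
    show H' j (u' j - u j, u' (j + 1) - u (j + 1)) (0, w) +
      H' (j + 1) (u' (j + 1) - u (j + 1), u' (j + 1 + 1) - u (j + 1 + 1)) (w, 0) = 0
    rw [(hH' j (by omega)).2, (hH' (j + 1) hj).2]
    have h1 := hE j hj w
    have h2 := hE' j hj w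
    simp only [sub_apply]
    have h3 : L1 (u (j + 1), u (j + 2)) (w, 0) = L1 (u (j + 1), u (j + 1 + 1)) (w, 0) := rfl
    have h4 : L1 (u' (j + 1), u' (j + 2)) (w, 0) = L1 (u' (j + 1), u' (j + 1 + 1)) (w, 0) := rfl
    rw [h3] at h1
    rw [h4] at h2
    linarith
  · intro j hj p
    rw [(hH' j hj).2]
    rfl

end Pool.Agent.LX
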