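import Pool.Agent.Work.MP_25cd3b_gt.LX.StmtsA

set_option autoImplicit false

/-!
# MP_25cd3b_gt, block LX: item YEL (minimising chains satisfy the chain equation)
-/

open Set Filter Topology
open scoped ContDiff

namespace Pool.Agent.LX

namespace IYEL

variable {V : Type} [NormedAddCommGroup V] [NormedSpace ℝ V]

theorem sum_upd (L : V × V → ℝ) (u : ℕ → V) (k j : ℕ) (hj : j + 1 < k) (v : V) :
    ∑ i ∈ Finset.range k, L (Function.update u (j + 1) v i, Function.update u (j + 1) v (i + 1)) -
      ∑ i ∈ Finset.range k, L (u i, u (i + 1)) =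
    (L (u j, v) - L (u j, u (j + 1))) + (L (v, u (j + 2)) - L (u (j + 1), u (j + 2))) := by
  rw [← Finset.sum_sub_distrib]
  have h1 : ∑ i ∈ ({j, j + 1} : Finset ℕ),
      (L (Function.update u (j + 1) v i, Function.update u (j + 1) v (i + 1)) - L (u i, u (i + 1))) =
      ∑ i ∈ Finset.range k,
      (L (Function.update u (j + 1) v i, Function.update u (j + 1) v (i + 1)) - L (u i, u (i + 1))) := by
    refine Finset.sum_subset ?_ ?_
    · intro i hi
      rw [Finset.mem_insert, Finset.mem_singleton] at hi
      rw [Finset.mem_range]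
      omega
    · intro i _ hi
      rw [Finset.mem_insert, Finset.mem_singleton, not_or] at hi
      have e1 : Function.update u (j + 1) v i = u i := Function.update_of_ne (by omega) _ _
      have e2 : Function.update u (j + 1) v (i + 1) = u (i + 1) :=
        Function.update_of_ne (by omega) _ _
      rw [e1, e2, sub_self]
  rw [← h1, Finset.sum_pair (by omega)]
  have e1 : Function.update u (j + 1) v j = u j := Function.update_of_ne (by omega) _ _
  have e2 : Function.update u (j + 1) v (j + 1) = v := Function.update_self _ _ _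
  have e3 : Function.update u (j + 1) v (j + 1 + 1) = u (j + 1 + 1) :=
    Function.update_of_ne (by omega) _ _
  rw [e1, e2, e3]

end IYEL

theorem pr_YEL (h1 : YTri) : YEL := by
  intro V _ _ lam K r L L1 L2 D hG k hk u hu hT j hj w
  have hmin : ∀ v : V, L (u j, u (j + 1)) + L (u (j + 1), u (j + 2)) ≤
      L (u j, v) + L (v, u (j + 2)) := by
    intro v
    have h2 := (h1 V lam K r L L1 L2 D hG k hk (Function.update u (j + 1) v)).1
    have e1 : Function.update u (j + 1) v 0 = u 0 := Function.update_of_ne (by omega) _ _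
    have e2 : Function.update u (j + 1) v k = u k := Function.update_of_ne (by omega) _ _
    rw [e1, e2, hT] at h2
    have h3 := IYEL.sum_upd L u k j hj v
    linarith
  have hj0 := hu j (by omega)
  have hj1 := hu (j + 1) (by omega)
  have hj2 := hu (j + 2) (by omega)
  have d1 : HasFDerivAt L (L1 (u j, u (j + 1))) (u j, u (j + 1)) :=
    hG.ch.d1 _ (by rw [Prod.norm_def]; exact max_lt hj0 hj1)
  have d2 : HasFDerivAt L (L1 (u (j + 1), u (j + 2))) (u (j + 1), u (j + 2)) :=
    hG.ch.d1 _ (by rw [Prod.norm_def]; exact max_lt hj1 hj2)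
  have c1 := d1.comp (u (j + 1)) (hasFDerivAt_prodMk_right (𝕜 := ℝ) (u j) (u (j + 1)))
  have c2 := d2.comp (u (j + 1)) (hasFDerivAt_prodMk_left (𝕜 := ℝ) (u (j + 1)) (u (j + 2)))
  have c3 := c1.add c2
  have hloc : IsLocalMin (fun v : V => (L ∘ fun f => (u j, f)) v + (L ∘ fun e => (e, u (j + 2))) v)
      (u (j + 1)) := Filter.Eventually.of_forall hmin
  have h0 := hloc.hasFDerivAt_eq_zero c3
  have h4 := congrArg (fun A : V →L[ℝ] ℝ => A w) h0
  exact h4

end Pool.Agent.LX
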