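import Pool.Agent.Work.MP_25cd3b_gt.LX.StmtsA

set_option autoImplicit false

open Set Filter Topology
open scoped ContDiff

namespace Pool.Agent.LX

namespace IYInf

theorem tend_exp (η : ℝ) (hη : 0 < η) :
    Tendsto (fun m : ℕ => Real.exp (-(η * ((m : ℝ) + 1)))) atTop (𝓝 0) := by
  have h1 : Tendsto (fun m : ℕ => η * ((m : ℝ) + 1)) atTop atTop :=
    Tendsto.const_mul_atTop hη (tendsto_atTop_add_const_right _ _ tendsto_natCast_atTop_atTop)
  exact Real.tendsto_exp_neg_atTop_nhds_zero.comp h1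

theorem tend_mul (δ : ℝ) (hδ : 0 < δ) :
    Tendsto (fun m : ℕ => ((m : ℝ) + 1) * Real.exp (-(δ * m))) atTop (𝓝 0) := by
  have h1 : Tendsto (fun m : ℕ => δ * ((m : ℝ) + 1)) atTop atTop :=
    Tendsto.const_mul_atTop hδ (tendsto_atTop_add_const_right _ _ tendsto_natCast_atTop_atTop)
  have h2 := (Real.tendsto_pow_mul_exp_neg_atTop_nhds_zero 1).comp h1
  have h3 := h2.const_mul (Real.exp δ / δ)
  rw [mul_zero] at h3
  refine h3.congr (fun m => ?_)
  simp only [Function.comp, pow_one]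
  have e1 : Real.exp (-(δ * ((m : ℝ) + 1))) = Real.exp (-(δ * m)) * Real.exp (-δ) := by
    rw [← Real.exp_add]
    congr 1
    ring
  have e2 : Real.exp δ * Real.exp (-δ) = 1 := by
    rw [← Real.exp_add, add_neg_cancel, Real.exp_zero]
  rw [e1]
  calc Real.exp δ / δ * (δ * ((m : ℝ) + 1) * (Real.exp (-(δ * m)) * Real.exp (-δ)))
      = (Real.exp δ * Real.exp (-δ)) * (δ / δ) * (((m : ℝ) + 1) * Real.exp (-(δ * m))) := by ring
    _ = _ := by rw [e2, div_self hδ.ne', one_mul, one_mul]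

/-- Scaling of the mixed boundary form. -/
theorem scale_mix {V : Type} [NormedAddCommGroup V] [NormedSpace ℝ V] (H : Bf V) (θ : ℝ)
    (a z : V) : H (θ • a, 0) (0, θ • z) = θ ^ 2 * H (a, 0) (0, z) := by
  have e1 : ((θ • a, (0 : V)) : V × V) = θ • (a, 0) := by simp
  have e2 : (((0 : V), θ • z) : V × V) = θ • (0, z) := by simp
  rw [e1, e2, map_smul, map_smul]
  simp only [smul_eq_mul, smul_apply]
  ring

theorem sol_smul {V : Type} [NormedAddCommGroup V] [NormedSpace ℝ V] (H : Bf V) (θ : ℝ) (k : ℕ)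
    (Y : ℕ → V) (hY : Sol (fun _ => H) k Y) : Sol (fun _ => H) k (fun j => θ • Y j) := by
  intro j hj w
  have h := hY j hj w
  have e : ∀ a b : V, ((θ • a, θ • b) : V × V) = θ • (a, b) := fun a b => rfl
  simp only [e, map_smul, smul_apply, smul_eq_mul]
  rw [← mul_add]
  simp only at h
  rw [h, mul_zero]

end IYInf

open IYInf in
theorem pr_YInf (h1 : YM) (h2 : XCmp) (h3 : XUnb) : YInf := by
  intro V _ _ _ lam K r L L1 L2 D hGen s s' t η hs ht hs' hss hη htη k₀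
  set H : Bf V := L2 0 with hH
  have hlam : 0 < lam := hGen.ch.lam_pos
  have hpos : Pos lam H := hGen.ch.pos
  obtain ⟨C₁, ρ₁, hC₁, hρ₁, hM⟩ := h1 V lam K r L L1 L2 D hGen
  obtain ⟨ρ₂, C₂, hρ₂, hC₂, hX⟩ := h2 V lam s s' H hlam hpos hs hs' hss
  set δ : ℝ := η + s' - t with hδ
  have hδ0 : 0 < δ := by rw [hδ]; linarith
  -- the largeness conditions
  have c1 : ∀ᶠ m : ℕ in atTop, Real.exp (-(η * ((m : ℝ) + 1))) ≤ ρ₁ :=
    (tend_exp η hη).eventually (Iic_mem_nhds hρ₁)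
  have c2 : ∀ᶠ m : ℕ in atTop, C₁ * Real.exp (-(η * ((m : ℝ) + 1))) ≤ ρ₂ := by
    have := (tend_exp η hη).const_mul C₁
    rw [mul_zero] at this
    exact this.eventually (Iic_mem_nhds hρ₂)
  have c3 : ∀ᶠ m : ℕ in atTop, ((m : ℝ) + 1) * Real.exp (-(δ * m)) ≤ 1 :=
    (tend_mul δ hδ0).eventually (Iic_mem_nhds one_pos)
  obtain ⟨m₀, hm₀⟩ := eventually_atTop.1 ((c1.and c2).and c3)
  obtain ⟨m, hm, Y, z, hY, hYk, hY0, hz, hbig⟩ :=
    h3 V lam t H hlam hpos ht (C₂ * C₁ + Real.exp (-t)) (max m₀ k₀)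
  obtain ⟨⟨d1, d2⟩, d3⟩ := hm₀ m (le_trans (le_max_left _ _) hm)
  set θ : ℝ := Real.exp (-(η * ((m : ℝ) + 1))) with hθ
  have hθ0 : 0 < θ := Real.exp_pos _
  have hx : ‖θ • Y 0‖ ≤ θ := by
    rw [norm_smul, Real.norm_of_nonneg hθ0.le]
    calc θ * ‖Y 0‖ ≤ θ * 1 := mul_le_mul_of_nonneg_left hY0 hθ0.le
      _ = θ := mul_one _
  have hz' : ‖θ • z‖ ≤ θ := by
    rw [norm_smul, Real.norm_of_nonneg hθ0.le]
    calc θ * ‖z‖ ≤ θ * 1 := mul_le_mul_of_nonneg_left hz hθ0.le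
      _ = θ := mul_one _
  obtain ⟨H', Y', hH', hY', hY'0, hY'k, hMx⟩ := hM m (θ • Y 0) (θ • z) (hx.trans d1) (hz'.trans d1)
  have hH'' : ∀ j, j ≤ m → ‖H' j - H‖ ≤ C₁ * θ := fun j hj =>
    (hH' j hj).trans (mul_le_mul_of_nonneg_left (max_le hx hz') hC₁)
  have hcmp := hX m H' (C₁ * θ) (mul_nonneg hC₁ hθ0.le) d2 hH'' Y' (fun j => θ • Y j) hY'
    (sol_smul H θ (m + 1) Y hY) hY'k (by simp only [hYk, smul_zero]) hY'0 (θ • z)
  rw [← hMx, scale_mix] at hcmp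
  -- the error
  have herr : C₂ * (C₁ * θ) * ((m : ℝ) + 1) * Real.exp (-(s' * m)) * ‖θ • Y 0‖ * ‖θ • z‖ ≤
      C₂ * C₁ * Real.exp (-(t * m)) * θ ^ 2 := by
    have e1 : θ * Real.exp (-(s' * m)) = Real.exp (-η) * Real.exp (-(δ * m)) *
        Real.exp (-(t * m)) := by
      rw [hθ, ← Real.exp_add, ← Real.exp_add, ← Real.exp_add]
      congr 1
      rw [hδ]
      ring
    have e2 : θ * ((m : ℝ) + 1) * Real.exp (-(s' * m)) ≤ Real.exp (-(t * m)) := by
      have e3 : Real.exp (-η) ≤ 1 := by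
        rw [Real.exp_le_one_iff]
        linarith
      have e4 : 0 < Real.exp (-(t * m)) := Real.exp_pos _
      have e5 : 0 ≤ ((m : ℝ) + 1) * Real.exp (-(δ * m)) := by positivity
      calc θ * ((m : ℝ) + 1) * Real.exp (-(s' * m))
          = (θ * Real.exp (-(s' * m))) * ((m : ℝ) + 1) := by ring
        _ = Real.exp (-η) * (((m : ℝ) + 1) * Real.exp (-(δ * m))) * Real.exp (-(t * m)) := by
            rw [e1]
            ring
        _ ≤ 1 * 1 * Real.exp (-(t * m)) := by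
            refine mul_le_mul_of_nonneg_right ?_ e4.le
            exact mul_le_mul e3 d3 e5 zero_le_one
        _ = Real.exp (-(t * m)) := by ring
    have e6 : 0 ≤ C₂ * C₁ := mul_nonneg (by linarith) hC₁
    have e7 : ‖θ • Y 0‖ * ‖θ • z‖ ≤ θ ^ 2 := by
      rw [pow_two]
      exact mul_le_mul hx hz' (norm_nonneg _) hθ0.le
    have e8 : 0 ≤ θ * ((m : ℝ) + 1) * Real.exp (-(s' * m)) := by positivity
    calc C₂ * (C₁ * θ) * ((m : ℝ) + 1) * Real.exp (-(s' * m)) * ‖θ • Y 0‖ * ‖θ • z‖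
        = (C₂ * C₁) * (θ * ((m : ℝ) + 1) * Real.exp (-(s' * m))) * (‖θ • Y 0‖ * ‖θ • z‖) := by
          ring
      _ ≤ (C₂ * C₁) * Real.exp (-(t * m)) * θ ^ 2 := by
          refine mul_le_mul (mul_le_mul_of_nonneg_left e2 e6) e7 (by positivity)
            (mul_nonneg e6 (Real.exp_pos _).le)
  have hlow : Real.exp (-(t * m)) * Real.exp (-t) * θ ^ 2 ≤ |Mx D (m + 1) (θ • Y 0) (θ • z)| := by
    have f1 := hcmp.trans herr
    have f2 : |θ ^ 2 * H (Y m, 0) (0, z)| = θ ^ 2 * |H (Y m, 0) (0, z)| := by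
      rw [abs_mul, abs_of_nonneg (by positivity)]
    have f3 := abs_sub_abs_le_abs_sub (θ ^ 2 * H (Y m, 0) (0, z)) (Mx D (m + 1) (θ • Y 0) (θ • z))
    rw [abs_sub_comm] at f3
    have f4 : θ ^ 2 * ((C₂ * C₁ + Real.exp (-t)) * Real.exp (-(t * m))) ≤
        θ ^ 2 * |H (Y m, 0) (0, z)| := mul_le_mul_of_nonneg_left hbig.le (by positivity)
    rw [f2] at f3
    nlinarith [f1, f3, f4]
  refine ⟨m + 1, ?_, θ • Y 0, θ • z, ?_, ?_, ?_⟩
  · have := le_trans (le_max_right m₀ k₀) hm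
    omega
  · rw [Nat.cast_add, Nat.cast_one]
    exact hx
  · rw [Nat.cast_add, Nat.cast_one]
    exact hz'
  · refine le_trans (le_of_eq ?_) hlow
    rw [hθ, pow_two, ← Real.exp_add, ← Real.exp_add, ← Real.exp_add, Nat.cast_add, Nat.cast_one]
    congr 1
    ring

end Pool.Agent.LX
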