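import Pool.Agent.Work.MP_25cd3b_gt.LX.StmtsA

/-!
# Item YM: the mixed second difference is the mixed boundary form of a linear chain
-/

set_option autoImplicit false

open Set Filter Topology
open scoped ContDiff

namespace Pool.Agent.LX

namespace IYM

variable {V : Type} [NormedAddCommGroup V] [NormedSpace ℝ V]

theorem norm_pair_lt {a b : V} {r : ℝ} (ha : ‖a‖ < r) (hb : ‖b‖ < r) : ‖(a, b)‖ < r := by
  rw [Prod.norm_mk]
  exact max_lt ha hb

/-- The derivative of `D (m + 1) x'` at the end of a chain. -/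
theorem der (h1 : YTri) {lam K r : ℝ} {L : V × V → ℝ} {L1 : V × V → V × V →L[ℝ] ℝ}
    {L2 : V × V → Bf V} {D : ℕ → V → V → ℝ} (hG : Gen lam K r L L1 L2 D) (m : ℕ) (u : ℕ → V)
    (hu : ∀ j, j ≤ m + 1 → ‖u j‖ < r) (hT : Tight L D (m + 1) u) :
    HasFDerivAt (fun w => D (m + 1) (u 0) w)
      ((L1 (u m, u (m + 1))).comp (ContinuousLinearMap.inr ℝ V V)) (u (m + 1)) := by
  -- the comparison
  obtain ⟨c, hc1, hc2⟩ : ∃ c : ℝ, (∀ w, D (m + 1) (u 0) w ≤ c + L (u m, w)) ∧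
      D (m + 1) (u 0) (u (m + 1)) = c + L (u m, u (m + 1)) := by
    rcases Nat.eq_zero_or_pos m with hm | hm
    · subst hm
      refine ⟨0, fun w => ?_, ?_⟩
      · rw [zero_add, zero_add, hG.one]
      · rw [zero_add, zero_add, hG.one]
    · refine ⟨D m (u 0) (u m), fun w => ?_, ?_⟩
      · have h2 := hG.tri m 1 hm le_rfl (u 0) (u m) w
        rw [hG.one] at h2
        exact h2
      · have h3 := ((h1 V lam K r L L1 L2 D hG (m + 1) (by omega) u).2 hT m hm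
          (Nat.lt_succ_self m)).1
        have h4 : D (m + 1) (u 0) (u (m + 1)) =
            ∑ j ∈ Finset.range (m + 1), L (u j, u (j + 1)) := hT
        have h5 : D m (u 0) (u m) = ∑ j ∈ Finset.range m, L (u j, u (j + 1)) := h3
        rw [h4, h5, Finset.sum_range_succ]
  have hd : DifferentiableAt ℝ (fun w => D (m + 1) (u 0) w) (u (m + 1)) :=
    hG.diffr (m + 1) (by omega) (u 0) (u (m + 1)) (hu 0 (by omega)) (hu (m + 1) le_rfl)
  have hL : HasFDerivAt (fun w => L (u m, w))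
      ((L1 (u m, u (m + 1))).comp (ContinuousLinearMap.inr ℝ V V)) (u (m + 1)) := by
    have h2 := hG.ch.d1 (u m, u (m + 1))
      (norm_pair_lt (hu m (Nat.le_succ m)) (hu (m + 1) le_rfl))
    have h3 : HasFDerivAt (fun w : V => (u m, w)) (ContinuousLinearMap.inr ℝ V V) (u (m + 1)) :=
      hasFDerivAt_prodMk_right (u m) (u (m + 1))
    exact h2.comp (u (m + 1)) h3
  have hmin : IsLocalMin (fun w => c + L (u m, w) - D (m + 1) (u 0) w) (u (m + 1)) := by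
    refine Filter.Eventually.of_forall fun w => ?_
    show c + L (u m, u (m + 1)) - D (m + 1) (u 0) (u (m + 1)) ≤
      c + L (u m, w) - D (m + 1) (u 0) w
    have h2 := hc1 w
    rw [hc2]
    linarith
  have hF : HasFDerivAt (fun w => c + L (u m, w) - D (m + 1) (u 0) w)
      ((L1 (u m, u (m + 1))).comp (ContinuousLinearMap.inr ℝ V V) -
        fderiv ℝ (fun w => D (m + 1) (u 0) w) (u (m + 1))) (u (m + 1)) :=
    (hL.const_add c).sub hd.hasFDerivAt
  have h0 := hmin.hasFDerivAt_eq_zero hF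
  rw [sub_eq_zero] at h0
  rw [h0]
  exact hd.hasFDerivAt

end IYM

theorem pr_YM (h1 : YTri) (h2 : YEL) (h3 : YDif) : YM := by
  intro V _ _ lam K r L L1 L2 D hG
  obtain ⟨C₁, ρ₁, hρ₁, hC₁, hex⟩ := hG.ex
  have hr : 0 < r := hG.ch.r_pos
  have hC₁0 : 0 < C₁ := by linarith
  set ρ : ℝ := min ρ₁ (r / (2 * C₁)) with hρ
  have hρ0 : 0 < ρ := lt_min hρ₁ (by positivity)
  have hρle : ρ ≤ ρ₁ := min_le_left _ _
  have hCρ : C₁ * ρ ≤ r / 2 := by
    have h4 : ρ ≤ r / (2 * C₁) := min_le_right _ _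
    have h5 : C₁ * ρ ≤ C₁ * (r / (2 * C₁)) := mul_le_mul_of_nonneg_left h4 hC₁0.le
    have h6 : C₁ * (r / (2 * C₁)) = r / 2 := by
      field_simp
    linarith
  refine ⟨K * C₁, ρ, mul_nonneg hG.ch.K_nn hC₁0.le, hρ0, ?_⟩
  intro m x z hx hz
  -- chains to the points of the segment
  have hch : ∀ (y : V) (t : ℝ), t ∈ Icc (0 : ℝ) 1 → ‖y‖ ≤ ‖x‖ → ∃ u : ℕ → V, u 0 = y ∧
      u (m + 1) = t • z ∧ (∀ j, j ≤ m + 1 → ‖u j‖ ≤ C₁ * max ‖x‖ ‖z‖) ∧ Tight L D (m + 1) u := by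
    intro y t ht hy
    have htz : ‖t • z‖ ≤ ‖z‖ := by
      rw [norm_smul, Real.norm_of_nonneg ht.1]
      exact mul_le_of_le_one_left (norm_nonneg _) ht.2
    obtain ⟨u, hu0, hu1, hub, huT⟩ := hex (m + 1) (by omega) y (t • z)
      ((hy.trans hx).trans hρle) ((htz.trans hz).trans hρle)
    exact ⟨u, hu0, hu1, fun j hj => (hub j hj).trans
      (mul_le_mul_of_nonneg_left (max_le_max hy htz) hC₁0.le), huT⟩
  have hmax : C₁ * max ‖x‖ ‖z‖ ≤ r / 2 :=
    (mul_le_mul_of_nonneg_left (max_le hx hz) hC₁0.le).trans hCρ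
  have hmaxr : C₁ * max ‖x‖ ‖z‖ < r := by linarith
  have hder : ∀ (y : V) (t : ℝ), t ∈ Icc (0 : ℝ) 1 → ‖y‖ ≤ ‖x‖ → ∀ u : ℕ → V, u 0 = y →
      u (m + 1) = t • z → (∀ j, j ≤ m + 1 → ‖u j‖ ≤ C₁ * max ‖x‖ ‖z‖) → Tight L D (m + 1) u →
      HasDerivAt (fun s : ℝ => D (m + 1) y (s • z)) (L1 (u m, u (m + 1)) (0, z)) t := by
    intro y t _ _ u hu0 hu1 hub huT
    have h4 := IYM.der h1 hG m u (fun j hj => lt_of_le_of_lt (hub j hj) hmaxr) huT
    rw [hu0] at h4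
    have h5 : HasDerivAt (fun s : ℝ => s • z) z t := by
      have h6 := (hasDerivAt_id t).smul_const z
      rw [one_smul] at h6
      exact h6
    have h7 : HasFDerivAt (fun w => D (m + 1) y w)
        ((L1 (u m, u (m + 1))).comp (ContinuousLinearMap.inr ℝ V V)) (t • z) := by
      rw [← hu1]
      exact h4
    exact h7.comp_hasDerivAt t h5
  -- the function of one variable
  set f : ℝ → ℝ := fun t => D (m + 1) x (t • z) - D (m + 1) 0 (t • z) with hf
  have hx0 : ‖(0 : V)‖ ≤ ‖x‖ := by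
    rw [norm_zero]
    exact norm_nonneg _
  have hfd : ∀ t ∈ Icc (0 : ℝ) 1, DifferentiableAt ℝ f t := by
    intro t ht
    obtain ⟨u', hu'0, hu'1, hu'b, hu'T⟩ := hch x t ht le_rfl
    obtain ⟨u, hu0, hu1, hub, huT⟩ := hch 0 t ht hx0
    exact ((hder x t ht le_rfl u' hu'0 hu'1 hu'b hu'T).sub
      (hder 0 t ht hx0 u hu0 hu1 hub huT)).differentiableAt
  obtain ⟨t, ht, hslope⟩ := exists_deriv_eq_slope f (zero_lt_one' ℝ)
    (fun t ht => (hfd t ht).continuousAt.continuousWithinAt)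
    (fun t ht => (hfd t (Ioo_subset_Icc_self ht)).differentiableWithinAt)
  have htI : t ∈ Icc (0 : ℝ) 1 := Ioo_subset_Icc_self ht
  obtain ⟨u', hu'0, hu'1, hu'b, hu'T⟩ := hch x t htI le_rfl
  obtain ⟨u, hu0, hu1, hub, huT⟩ := hch 0 t htI hx0
  have hdf := ((hder x t htI le_rfl u' hu'0 hu'1 hu'b hu'T).sub
    (hder 0 t htI hx0 u hu0 hu1 hub huT)).deriv
  have hEL' := h2 V lam K r L L1 L2 D hG (m + 1) (by omega) u'
    (fun j hj => lt_of_le_of_lt (hu'b j hj) hmaxr) hu'T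
  have hEL := h2 V lam K r L L1 L2 D hG (m + 1) (by omega) u
    (fun j hj => lt_of_le_of_lt (hub j hj) hmaxr) huT
  obtain ⟨H', hH1, hH2, hH3⟩ := h3 V lam K r L L1 L2 hG.ch (m + 1) u u'
    (C₁ * max ‖x‖ ‖z‖) hmaxr hub hu'b hEL hEL'
  refine ⟨H', fun j => u' j - u j, ?_, hH2, ?_, ?_, ?_⟩
  · intro j hj
    have h4 := hH1 j (by omega)
    rw [mul_assoc]
    exact h4
  · show u' 0 - u 0 = x
    rw [hu'0, hu0, sub_zero]
  · show u' (m + 1) - u (m + 1) = 0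
    rw [hu'1, hu1, sub_self]
  · have h4 := hH3 m (Nat.lt_succ_self m) (0, z)
    rw [hu'1, hu1, sub_self] at h4
    show Mx D (m + 1) x z = H' m (u' m - u m, 0) (0, z)
    rw [← h4]
    rw [hu'1, hu1] at hdf
    have h5 : deriv f t = L1 (u' m, t • z) (0, z) - L1 (u m, t • z) (0, z) := hdf
    rw [← h5, hslope, sub_zero, div_one]
    show Mx D (m + 1) x z = (D (m + 1) x ((1 : ℝ) • z) - D (m + 1) 0 ((1 : ℝ) • z)) -
      (D (m + 1) x ((0 : ℝ) • z) - D (m + 1) 0 ((0 : ℝ) • z))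
    rw [one_smul, zero_smul, hG.zero (m + 1) (by omega)]
    unfold Mx
    ring

end Pool.Agent.LX
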