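import Pool.Agent.Work.MP_25cd3b_gt.LX.StmtsA

set_option autoImplicit false

/-!
# MP_25cd3b_gt, block LX, item YRev: reversal of chains
-/

open Set Filter Topology
open scoped ContDiff

namespace Pool.Agent.LX.IYRev

variable {V : Type} [NormedAddCommGroup V] [NormedSpace ℝ V]

/-- the swap -/
noncomputable def sg : V × V →L[ℝ] V × V :=
  (ContinuousLinearMap.snd ℝ V V).prod (ContinuousLinearMap.fst ℝ V V)

theorem sg_apply (p : V × V) : sg p = (p.2, p.1) := rfl

theorem norm_sg (p : V × V) : ‖sg p‖ = ‖p‖ := by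
  rw [sg_apply, Prod.norm_def, Prod.norm_def]
  exact max_comm _ _

/-- composition of linear forms with the swap -/
noncomputable def rs : (V × V →L[ℝ] ℝ) →L[ℝ] (V × V →L[ℝ] ℝ) :=
  (ContinuousLinearMap.compL ℝ (V × V) (V × V) ℝ).flip sg

theorem rs_apply (f : V × V →L[ℝ] ℝ) (p : V × V) : rs f p = f (sg p) := rfl

/-- the swapped bilinear form -/
noncomputable def sw (H : Bf V) : Bf V := rs.comp (H.comp sg)

theorem sw_apply (H : Bf V) (p q : V × V) : sw H p q = H (sg p) (sg q) := rfl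

theorem sg_zero : sg (0 : V × V) = 0 := map_zero _

theorem ch_rev {lam K r : ℝ} {L : V × V → ℝ} {L1 : V × V → V × V →L[ℝ] ℝ} {L2 : V × V → Bf V}
    (h : Ch lam K r L L1 L2) :
    Ch lam K r (fun p => L (p.2, p.1)) (fun p => rs (L1 (sg p))) (fun p => sw (L2 (sg p))) where
  r_pos := h.r_pos
  lam_pos := h.lam_pos
  K_nn := h.K_nn
  d1 := by
    intro p hp
    have h1 := h.d1 (sg p) (by rw [norm_sg]; exact hp)
    exact h1.comp p (sg (V := V)).hasFDerivAt
  d2 := by
    intro p hp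
    have h1 := h.d2 (sg p) (by rw [norm_sg]; exact hp)
    have h2 := h1.comp p (sg (V := V)).hasFDerivAt
    exact (rs (V := V)).hasFDerivAt.comp p h2
  pos := by
    constructor
    · intro p q
      rw [sw_apply, sw_apply, sg_zero]
      exact h.pos.symm _ _
    · intro v w
      rw [sw_apply, sg_zero, sg_apply]
      have := h.pos.pos w v
      linarith [mul_comm lam (‖v‖ ^ 2), add_comm (‖v‖ ^ 2) (‖w‖ ^ 2), this,
        congrArg (fun t => lam * t) (add_comm (‖v‖ ^ 2) (‖w‖ ^ 2))]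
  lip := by
    intro p hp
    have h1 := h.lip (sg p) (by rw [norm_sg]; exact hp)
    rw [norm_sg] at h1
    refine ContinuousLinearMap.opNorm_le_bound₂ _ (mul_nonneg h.K_nn (norm_nonneg _)) ?_
    intro q q'
    have h2 : (sw (L2 (sg p)) - sw (L2 (sg 0))) q q' =
        (L2 (sg p) - L2 0) (sg q) (sg q') := by
      rw [ContinuousLinearMap.sub_apply, ContinuousLinearMap.sub_apply, sw_apply, sw_apply,
        sg_zero]
      rfl
    rw [h2]
    refine ((L2 (sg p) - L2 0).le_opNorm₂ (sg q) (sg q')).trans ?_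
    rw [norm_sg, norm_sg]
    gcongr
  zero := h.zero
  crit := by
    ext1
    · ext v
      show (L1 (sg 0)) (sg (v, 0)) = 0
      rw [sg_zero, h.crit]; rfl
    · ext v
      show (L1 (sg 0)) (sg (0, v)) = 0
      rw [sg_zero, h.crit]; rfl

theorem gen_rev {lam K r : ℝ} {L : V × V → ℝ} {L1 : V × V → V × V →L[ℝ] ℝ} {L2 : V × V → Bf V}
    {D : ℕ → V → V → ℝ} (h : Gen lam K r L L1 L2 D) :
    Gen lam K r (fun p => L (p.2, p.1)) (fun p => rs (L1 (sg p))) (fun p => sw (L2 (sg p)))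
      (fun k x z => D k z x) where
  ch := ch_rev h.ch
  one := fun x z => h.one z x
  tri := by
    intro j k hj hk x w z
    have h1 := h.tri k j hk hj z w x
    show D (j + k) z x ≤ D j w x + D k z w
    rw [add_comm j k, add_comm (D j w x)]
    exact h1
  zero := h.zero
  diffr := fun k hk x z hx hz => h.diffl k hk z x hz hx
  diffl := fun k hk x z hx hz => h.diffr k hk z x hz hx
  ex := by
    obtain ⟨C, ρ, hρ, hC, hex⟩ := h.ex
    refine ⟨C, ρ, hρ, hC, ?_⟩
    intro k hk x z hx hz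
    obtain ⟨u, hu0, huk, hub, hT⟩ := hex k hk z x hz hx
    refine ⟨fun j => u (k - j), by simpa using huk, by simpa using hu0, ?_, ?_⟩
    · intro j _
      rw [max_comm]
      exact hub (k - j) (Nat.sub_le _ _)
    · unfold Tight at hT ⊢
      show D k (u (k - k)) (u (k - 0)) = ∑ j ∈ Finset.range k, L (u (k - (j + 1)), u (k - j))
      rw [Nat.sub_self, Nat.sub_zero, hT, ← Finset.sum_range_reflect]
      refine Finset.sum_congr rfl fun j hj => ?_
      have hj' := Finset.mem_range.1 hj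
      have e1 : k - 1 - j = k - (j + 1) := by omega
      have e2 : k - (j + 1) + 1 = k - j := by omega
      rw [e1, e2]

theorem en_symm {lam : ℝ} {H : Bf V} (hH : Pos lam H) (k : ℕ) (Y W : ℕ → V) :
    En (fun _ => H) k Y W = En (fun _ => H) k W Y := by
  unfold En
  exact Finset.sum_congr rfl fun j _ => hH.symm _ _

end Pool.Agent.LX.IYRev

namespace Pool.Agent.LX

open IYRev

theorem pr_YRev (h1 : XGreen) (h2 : XBvp) : YRev := by
  intro V _ _ _ lam K r L L1 L2 D hG
  refine ⟨fun p => rs (L1 (sg p)), fun p => sw (L2 (sg p)), gen_rev hG, ?_⟩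
  rintro s ⟨C, hC⟩
  refine ⟨C, ?_⟩
  intro k Y z hY hYk
  have hP : Pos lam (L2 0) := hG.ch.pos
  have e0 : ∀ p q : V × V, sw (L2 (sg 0)) p q = L2 0 (p.2, p.1) (q.2, q.1) := by
    intro p q
    rw [sw_apply, sg_zero]; rfl
  obtain ⟨Y'', hY0, hYk', hS⟩ := h2 V lam hG.ch.lam_pos (fun _ => L2 0) (fun _ => hP) k z 0
    (fun _ => 0)
  have hS' : Sol (fun _ => L2 0) (k + 1) Y'' := by
    intro j hj w
    exact hS j hj w
  have hZ : Sol (fun _ => L2 0) (k + 1) (fun j => Y (k + 1 - j)) := by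
    intro j hj w
    have h3 := hY (k + 1 - (j + 2)) (by omega) w
    have e1 : k + 1 - (j + 2) + 1 = k + 1 - (j + 1) := by omega
    have e2 : k + 1 - (j + 2) + 2 = k + 1 - j := by omega
    simp only [e0, e1, e2] at h3
    show L2 0 (Y (k + 1 - j), Y (k + 1 - (j + 1))) (0, w) +
      L2 0 (Y (k + 1 - (j + 1)), Y (k + 1 - (j + 2))) (w, 0) = 0
    rw [add_comm]
    exact h3
  have g1 := h1 V (fun _ => L2 0) k (fun j => Y (k + 1 - j)) Y'' hZ
  have g2 := h1 V (fun _ => L2 0) k Y'' (fun j => Y (k + 1 - j)) hS'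
  rw [en_symm hP] at g1
  have e3 : k + 1 - k = 1 := by omega
  simp only [Nat.sub_zero, Nat.sub_self, Nat.add_sub_cancel, hYk, hYk', hY0, e3,
    Prod.mk_zero_zero, map_zero, add_zero, zero_add] at g1 g2
  have e4 : sw (L2 (sg 0)) (Y k, 0) (0, z) = L2 0 (0, Y k) (z, 0) := e0 _ _
  rw [e4, ← g1, g2]
  have h5 := hC k Y'' (Y 0) hS' hYk'
  rw [hY0] at h5
  calc |L2 0 (Y'' k, 0) (0, Y 0)| ≤ C * Real.exp (-(s * k)) * ‖z‖ * ‖Y 0‖ := h5
    _ = C * Real.exp (-(s * k)) * ‖Y 0‖ * ‖z‖ := by ring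

end Pool.Agent.LX
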