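import Pool.Agent.Work.MP_25cd3b_gt.LX.StmtsA

set_option autoImplicit false

/-!
# MP_25cd3b_gt, block LX, item YTri (helper12): chains and triangle inequality
-/

open Set Filter Topology
open scoped ContDiff

namespace Pool.Agent.LX

namespace IYTri

theorem le {V : Type} [NormedAddCommGroup V] [NormedSpace ℝ V] {lam K r : ℝ}
    {L : V × V → ℝ} {L1 : V × V → V × V →L[ℝ] ℝ} {L2 : V × V → Bf V} {D : ℕ → V → V → ℝ}
    (hG : Gen lam K r L L1 L2 D) (u : ℕ → V) (k : ℕ) :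
    D (k + 1) (u 0) (u (k + 1)) ≤ ∑ j ∈ Finset.range (k + 1), L (u j, u (j + 1)) := by
  induction k with
  | zero => simp [hG.one]
  | succ k ih =>
    rw [Finset.sum_range_succ]
    have h1 := hG.tri (k + 1) 1 (by omega) le_rfl (u 0) (u (k + 1)) (u (k + 1 + 1))
    rw [hG.one] at h1
    linarith

end IYTri

theorem pr_YTri : YTri := by
  intro V _ _ lam K r L L1 L2 D hG k hk u
  have key : ∀ (k : ℕ), 1 ≤ k → ∀ u : ℕ → V,
      D k (u 0) (u k) ≤ ∑ j ∈ Finset.range k, L (u j, u (j + 1)) := by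
    intro k hk u
    obtain ⟨m, rfl⟩ : ∃ m, k = m + 1 := ⟨k - 1, by omega⟩
    exact IYTri.le hG u m
  refine ⟨key k hk u, ?_⟩
  intro hT j h1 hj
  obtain ⟨i, rfl⟩ : ∃ i, k = j + i := ⟨k - j, by omega⟩
  have hi : 1 ≤ i := by omega
  unfold Tight at hT ⊢
  rw [Nat.add_sub_cancel_left]
  have h2 := key j h1 u
  have h3 := key i hi (fun l => u (j + l))
  have h4 := hG.tri j i h1 hi (u 0) (u j) (u (j + i))
  rw [hT, Finset.sum_range_add] at h4
  simp only [Nat.add_zero] at h3 ⊢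
  have h5 : ∑ x ∈ Finset.range i, L (u (j + x), u (j + (x + 1))) =
      ∑ x ∈ Finset.range i, L (u (j + x), u (j + x + 1)) := rfl
  rw [h5] at h3 ⊢
  constructor <;> linarith

end Pool.Agent.LX
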