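import Pool.Agent.Work.MP_25cd3b_gt.LX.StmtsA

set_option autoImplicit false

/-!
# MP_25cd3b_gt, block LX, item YUp: upper bound for the mixed second difference
-/

open Set Filter Topology
open scoped ContDiff

namespace Pool.Agent.LX

namespace IYUp

theorem bound {V : Type} [NormedAddCommGroup V] [NormedSpace ℝ V] (H : Bf V) (y z : V) :
    |H (y, 0) (0, z)| ≤ ‖H‖ * ‖y‖ * ‖z‖ := by
  have h1 := (H (y, 0)).le_opNorm (0, z)
  have h2 := H.le_opNorm (y, 0)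
  have h3 : ‖((0 : V), z)‖ = ‖z‖ := by
    rw [Prod.norm_def]
    simp
  have h4 : ‖(y, (0 : V))‖ = ‖y‖ := by
    rw [Prod.norm_def]
    simp
  rw [h3] at h1
  rw [h4] at h2
  rw [← Real.norm_eq_abs]
  exact h1.trans (mul_le_mul_of_nonneg_right h2 (norm_nonneg _))

end IYUp

theorem pr_YUp (h1 : YM) (h2 : XPer) : YUp := by
  intro V _ _ _ lam K r L L1 L2 D hG s s' hGr hs' hss
  obtain ⟨C₁, ρ₁, hC₁, hρ₁, hM⟩ := h1 V lam K r L L1 L2 D hG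
  obtain ⟨ρ₂, C₂, hρ₂, hC₂, hP⟩ := h2 V lam s s' (L2 0) hG.ch.lam_pos hG.ch.pos hGr hs' hss
  have hC₁' : (0 : ℝ) < C₁ + 1 := by linarith
  refine ⟨(‖L2 0‖ + ρ₂) * C₂ * Real.exp s', min ρ₁ (min (ρ₂ / (C₁ + 1)) 1), ?_, ?_, ?_⟩
  · have : (0 : ℝ) < ‖L2 0‖ + ρ₂ := by
      have := norm_nonneg (L2 0)
      linarith
    positivity
  · have : 0 < ρ₂ / (C₁ + 1) := div_pos hρ₂ hC₁'
    exact lt_min hρ₁ (lt_min this one_pos)
  · intro k hk x z hx hz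
    obtain ⟨m, rfl⟩ : ∃ m, k = m + 1 := ⟨k - 1, by omega⟩
    obtain ⟨H', Y, hH', hSol, hY0, hYe, hMx⟩ :=
      hM m x z (hx.trans (min_le_left _ _)) (hz.trans (min_le_left _ _))
    have hx2 : ‖x‖ ≤ ρ₂ / (C₁ + 1) := hx.trans ((min_le_right _ _).trans (min_le_left _ _))
    have hz2 : ‖z‖ ≤ ρ₂ / (C₁ + 1) := hz.trans ((min_le_right _ _).trans (min_le_left _ _))
    have hx3 : ‖x‖ ≤ 1 := hx.trans ((min_le_right _ _).trans (min_le_right _ _))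
    have hz3 : ‖z‖ ≤ 1 := hz.trans ((min_le_right _ _).trans (min_le_right _ _))
    have hH2 : ∀ j, j < m + 1 → ‖H' j - L2 0‖ ≤ ρ₂ := by
      intro j hj
      have h5 := hH' j (by omega)
      have h6 : max ‖x‖ ‖z‖ ≤ ρ₂ / (C₁ + 1) := max_le hx2 hz2
      have h7 : 0 ≤ max ‖x‖ ‖z‖ := (norm_nonneg x).trans (le_max_left _ _)
      calc ‖H' j - L2 0‖ ≤ C₁ * max ‖x‖ ‖z‖ := h5
        _ ≤ (C₁ + 1) * max ‖x‖ ‖z‖ := mul_le_mul_of_nonneg_right (by linarith) h7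
        _ ≤ (C₁ + 1) * (ρ₂ / (C₁ + 1)) := mul_le_mul_of_nonneg_left h6 hC₁'.le
        _ = ρ₂ := by field_simp
    have h8 := hP (m + 1) H' hH2 Y hSol m (by omega)
    rw [hY0, hYe, norm_zero, mul_zero, add_zero] at h8
    have h9 : ‖H' m‖ ≤ ‖L2 0‖ + ρ₂ := by
      have h10 := hH2 m (by omega)
      have h11 : H' m = L2 0 + (H' m - L2 0) := by abel
      calc ‖H' m‖ = ‖L2 0 + (H' m - L2 0)‖ := by rw [← h11]
        _ ≤ ‖L2 0‖ + ‖H' m - L2 0‖ := norm_add_le (L2 0) (H' m - L2 0)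
        _ ≤ ‖L2 0‖ + ρ₂ := by linarith
    rw [hMx]
    have h12 : Real.exp s' * Real.exp (-(s' * ((m + 1 : ℕ) : ℝ))) = Real.exp (-(s' * m)) := by
      rw [← Real.exp_add]
      congr 1
      push_cast
      ring
    have hC₂' : 0 ≤ C₂ := by linarith
    have hY : ‖Y m‖ ≤ C₂ * Real.exp (-(s' * m)) := by
      refine h8.trans ?_
      refine mul_le_mul_of_nonneg_left ?_ hC₂'
      exact mul_le_of_le_one_right (Real.exp_pos _).le hx3
    have hnn : (0 : ℝ) ≤ ‖L2 0‖ + ρ₂ := by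
      have := norm_nonneg (L2 0)
      linarith
    calc |H' m (Y m, 0) (0, z)| ≤ ‖H' m‖ * ‖Y m‖ * ‖z‖ := IYUp.bound _ _ _
      _ ≤ ‖H' m‖ * ‖Y m‖ :=
          mul_le_of_le_one_right (mul_nonneg (norm_nonneg (H' m)) (norm_nonneg (Y m))) hz3
      _ ≤ (‖L2 0‖ + ρ₂) * (C₂ * Real.exp (-(s' * m))) :=
          mul_le_mul h9 hY (norm_nonneg _) hnn
      _ = (‖L2 0‖ + ρ₂) * C₂ * Real.exp s' * Real.exp (-(s' * ((m + 1 : ℕ) : ℝ))) := by
          rw [← h12]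
          ring

end Pool.Agent.LX
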