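import Pool.Agent.Work.MP_25cd3b_gt.LX.I_BBv
import Pool.Agent.Work.MP_25cd3b_gt.LX.I_BCL
import Pool.Agent.Work.MP_25cd3b_gt.LX.I_BCh
import Pool.Agent.Work.MP_25cd3b_gt.LX.I_BCr
import Pool.Agent.Work.MP_25cd3b_gt.LX.I_BEx2
import Pool.Agent.Work.MP_25cd3b_gt.LX.I_BFv
import Pool.Agent.Work.MP_25cd3b_gt.LX.I_BGen
import Pool.Agent.Work.MP_25cd3b_gt.LX.I_BHess
import Pool.Agent.Work.MP_25cd3b_gt.LX.I_BJm
import Pool.Agent.Work.MP_25cd3b_gt.LX.I_BJs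
import Pool.Agent.Work.MP_25cd3b_gt.LX.I_BOrt
import Pool.Agent.Work.MP_25cd3b_gt.LX.I_BPos
import Pool.Agent.Work.MP_25cd3b_gt.LX.I_BRev
import Pool.Agent.Work.MP_25cd3b_gt.LX.I_BSm
import Pool.Agent.Work.MP_25cd3b_gt.LX.I_BTi
import Pool.Agent.Work.MP_25cd3b_gt.LX.I_BVarG
import Pool.Agent.Work.MP_25cd3b_gt.LX.I_CTau
import Pool.Agent.Work.MP_25cd3b_gt.LX.I_CTr
import Pool.Agent.Work.MP_25cd3b_gt.LX.I_CUC
import Pool.Agent.Work.MP_25cd3b_gt.LX.I_FHc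
import Pool.Agent.Work.MP_25cd3b_gt.LX.I_FLy
import Pool.Agent.Work.MP_25cd3b_gt.LX.I_FMain
import Pool.Agent.Work.MP_25cd3b_gt.LX.I_FPer
import Pool.Agent.Work.MP_25cd3b_gt.LX.I_JChn
import Pool.Agent.Work.MP_25cd3b_gt.LX.I_JGr
import Pool.Agent.Work.MP_25cd3b_gt.LX.I_JInv
import Pool.Agent.Work.MP_25cd3b_gt.LX.I_JSl
import Pool.Agent.Work.MP_25cd3b_gt.LX.I_KAl
import Pool.Agent.Work.MP_25cd3b_gt.LX.I_KEst
import Pool.Agent.Work.MP_25cd3b_gt.LX.I_KExA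
import Pool.Agent.Work.MP_25cd3b_gt.LX.I_KExB
import Pool.Agent.Work.MP_25cd3b_gt.LX.I_KLo
import Pool.Agent.Work.MP_25cd3b_gt.LX.I_KMain
import Pool.Agent.Work.MP_25cd3b_gt.LX.I_KNum
import Pool.Agent.Work.MP_25cd3b_gt.LX.I_KUp
import Pool.Agent.Work.MP_25cd3b_gt.LX.I_KX1
import Pool.Agent.Work.MP_25cd3b_gt.LX.I_MAe
import Pool.Agent.Work.MP_25cd3b_gt.LX.I_MAs
import Pool.Agent.Work.MP_25cd3b_gt.LX.I_MChn
import Pool.Agent.Work.MP_25cd3b_gt.LX.I_MCt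
import Pool.Agent.Work.MP_25cd3b_gt.LX.I_MEq
import Pool.Agent.Work.MP_25cd3b_gt.LX.I_MEx
import Pool.Agent.Work.MP_25cd3b_gt.LX.I_MF1
import Pool.Agent.Work.MP_25cd3b_gt.LX.I_MFl
import Pool.Agent.Work.MP_25cd3b_gt.LX.I_MHy
import Pool.Agent.Work.MP_25cd3b_gt.LX.I_MLn
import Pool.Agent.Work.MP_25cd3b_gt.LX.I_MMd
import Pool.Agent.Work.MP_25cd3b_gt.LX.I_MNe
import Pool.Agent.Work.MP_25cd3b_gt.LX.I_MPl
import Pool.Agent.Work.MP_25cd3b_gt.LX.I_MRi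
import Pool.Agent.Work.MP_25cd3b_gt.LX.I_MStw
import Pool.Agent.Work.MP_25cd3b_gt.LX.I_MTa
import Pool.Agent.Work.MP_25cd3b_gt.LX.I_MTc
import Pool.Agent.Work.MP_25cd3b_gt.LX.I_MTl
import Pool.Agent.Work.MP_25cd3b_gt.LX.I_RAct
import Pool.Agent.Work.MP_25cd3b_gt.LX.I_RBk
import Pool.Agent.Work.MP_25cd3b_gt.LX.I_RCat
import Pool.Agent.Work.MP_25cd3b_gt.LX.I_RDim
import Pool.Agent.Work.MP_25cd3b_gt.LX.I_RFin
import Pool.Agent.Work.MP_25cd3b_gt.LX.I_RLen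
import Pool.Agent.Work.MP_25cd3b_gt.LX.I_RLim
import Pool.Agent.Work.MP_25cd3b_gt.LX.I_RPr
import Pool.Agent.Work.MP_25cd3b_gt.LX.I_RSh
import Pool.Agent.Work.MP_25cd3b_gt.LX.I_RT1
import Pool.Agent.Work.MP_25cd3b_gt.LX.I_RT2
import Pool.Agent.Work.MP_25cd3b_gt.LX.I_RTau
import Pool.Agent.Work.MP_25cd3b_gt.LX.I_RUnb
import Pool.Agent.Work.MP_25cd3b_gt.LX.I_XBvp
import Pool.Agent.Work.MP_25cd3b_gt.LX.I_XCmp
import Pool.Agent.Work.MP_25cd3b_gt.LX.I_XDec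
import Pool.Agent.Work.MP_25cd3b_gt.LX.I_XGreen
import Pool.Agent.Work.MP_25cd3b_gt.LX.I_XPer
import Pool.Agent.Work.MP_25cd3b_gt.LX.I_XPosR
import Pool.Agent.Work.MP_25cd3b_gt.LX.I_XRec
import Pool.Agent.Work.MP_25cd3b_gt.LX.I_XUnb
import Pool.Agent.Work.MP_25cd3b_gt.LX.I_YAng
import Pool.Agent.Work.MP_25cd3b_gt.LX.I_YDec
import Pool.Agent.Work.MP_25cd3b_gt.LX.I_YDif
import Pool.Agent.Work.MP_25cd3b_gt.LX.I_YEL
import Pool.Agent.Work.MP_25cd3b_gt.LX.I_YExc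
import Pool.Agent.Work.MP_25cd3b_gt.LX.I_YInf
import Pool.Agent.Work.MP_25cd3b_gt.LX.I_YM
import Pool.Agent.Work.MP_25cd3b_gt.LX.I_YRev
import Pool.Agent.Work.MP_25cd3b_gt.LX.I_YTri
import Pool.Agent.Work.MP_25cd3b_gt.LX.I_YUp
import Pool.Agent.Work.MP_25cd3b_gt.LX.Fin
import Pool.Agent.Work.MP_25cd3b_gt.LX.Fin2
import Pool.Agent.Work.MP_25cd3b_gt.NG.All
import Pool.Agent.Work.MP_13b5d9_gt.ST.All93
import Pool.Agent.Work.MP_13b5d9_gt.LR.I_UG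
import Pool.Agent.Work.MP_13b5d9_gt.LR.I_Stew
import Pool.Agent.Work.MP_13b5d9_gt.LR.I_Iso
import Pool.Agent.Work.MP_13b5d9_gt.LR.I_CvG
import Pool.Agent.Work.MP_13b5d9_gt.LR.I_Ge
import Pool.Agent.Work.MP_13b5d9_gt.LR.I_Axis

set_option autoImplicit false

/-!
# MP_25cd3b_gt, block LX: all items assembled
-/

open MeasureTheory Set Filter Topology

namespace Pool.Agent.LX

open Pool.Agent.MLS Pool.Agent.STR Pool.Agent.LR

theorem x_UG : StUG := pr_UG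
theorem x_CvG : StCvG := pr_CvG pr_Ge
theorem x_Stew : StStew := pr_Stew x_CvG
theorem x_Iso : StIso := pr_Iso x_CvG x_Stew
theorem x_Axis : StAxis := pr_Axis STR.p_Log STR.p_Crit STR.p_Iter

theorem x_BBv : BBv := pr_BBv x_CvG
theorem x_BCL : BCL := pr_BCL x_CvG x_UG x_Iso
theorem x_BEx2 : BEx2 := pr_BEx2
theorem x_BFv : BFv := pr_BFv x_BEx2
theorem x_BSm : BSm := pr_BSm x_BFv x_BEx2
theorem x_BJm : BJm := pr_BJm
theorem x_BJs : BJs := pr_BJs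
theorem x_BVarG : BVarG := pr_BVarG
theorem x_BHess : BHess := pr_BHess x_BJm x_BJs x_BBv x_BEx2 x_BVarG x_BFv
theorem x_BOrt : BOrt := pr_BOrt
theorem x_BPos : BPos := pr_BPos x_BSm x_BHess x_BBv x_BOrt
theorem x_BCh : BCh := pr_BCh x_BSm x_BPos
theorem x_BCr : BCr := pr_BCr
theorem x_BTi : BTi := pr_BTi x_CvG
theorem x_BGen : BGen := pr_BGen x_BCh x_BCL x_BCr x_BTi x_CvG x_BEx2
theorem x_XGreen : XGreen := pr_XGreen
theorem x_XBvp : XBvp := pr_XBvp x_XGreen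
theorem x_YRev : YRev := pr_YRev x_XGreen x_XBvp
theorem x_BRev : BRev := pr_BRev x_BGen x_YRev x_UG
theorem x_CUC : CUC := pr_CUC x_CvG x_UG
theorem x_CTau : CTau := pr_CTau x_CUC x_Iso x_UG x_CvG
theorem x_CTr : CTr := pr_CTr x_CUC x_UG
theorem x_FHc : FHc := pr_FHc
theorem x_JChn : JChn := pr_JChn x_BPos x_BJm x_BJs
theorem x_JGr : JGr := pr_JGr x_JChn x_XGreen x_XBvp x_BPos x_BOrt
theorem x_XPosR : XPosR := pr_XPosR
theorem x_XRec : XRec := pr_XRec x_XGreen x_XBvp x_XPosR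
theorem x_JInv : JInv := pr_JInv x_JChn x_BBv x_BOrt x_BPos
theorem x_JSl : JSl := pr_JSl x_XRec x_BPos x_JInv x_BBv x_BOrt
theorem x_FLy : FLy := pr_FLy x_JGr x_JSl x_BOrt x_BPos x_XPosR
theorem x_YTri : YTri := pr_YTri
theorem x_YEL : YEL := pr_YEL x_YTri
theorem x_KAl : KAl := pr_KAl x_BCr x_BTi x_BGen x_YEL
theorem x_KNum : KNum := pr_KNum
theorem x_KX1 : KX1 := pr_KX1 x_KNum x_Stew
theorem x_YDif : YDif := pr_YDif
theorem x_XDec : XDec := pr_XDec x_XGreen x_XBvp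
theorem x_XPer : XPer := pr_XPer x_XBvp x_XDec
theorem x_YAng : YAng := pr_YAng x_YDif x_XPer
theorem x_YExc : YExc := pr_YExc x_YTri x_YEL
theorem x_KEst : KEst := pr_KEst x_KAl x_KX1 x_BGen x_BRev x_YEL x_YAng x_YExc x_CvG x_UG
theorem x_KMain : KMain := pr_KMain x_KEst x_CvG
theorem x_YM : YM := pr_YM x_YTri x_YEL x_YDif
theorem x_YUp : YUp := pr_YUp x_YM x_XPer
theorem x_KUp : KUp := pr_KUp x_KMain x_BCr x_BGen x_YUp
theorem x_YDec : YDec := pr_YDec x_YDif x_XPer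
theorem x_KExA : KExA := pr_KExA x_BCL x_KAl x_XPosR x_YDec x_BGen x_CvG x_UG
theorem x_KExB : KExB := pr_KExB x_KExA x_BRev x_UG
theorem x_XCmp : XCmp := pr_XCmp x_XGreen x_XBvp x_XDec x_XPer
theorem x_XUnb : XUnb := pr_XUnb x_XPosR x_XDec
theorem x_YInf : YInf := pr_YInf x_YM x_XCmp x_XUnb
theorem x_KLo : KLo := pr_KLo x_KMain x_KExA x_KExB x_BGen x_YInf
theorem x_FMain : FMain := pr_FMain x_BPos x_XPosR x_KUp x_KLo x_CTr x_CTau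
theorem x_FPer : FPer := pr_FPer
theorem x_MStw : MStw := pr_MStw
theorem x_MEx : MEx := pr_MEx x_MStw
theorem x_MF1 : MF1 := pr_MF1 x_MEx
theorem x_MMd : MMd := pr_MMd x_MStw
theorem x_MAe : MAe := pr_MAe x_MF1 x_MMd
theorem x_MAs : MAs := pr_MAs x_MF1 x_MMd
theorem x_MChn : MChn := pr_MChn x_MF1
theorem x_MCt : MCt := pr_MCt x_MF1
theorem x_MTl : MTl := pr_MTl x_MChn
theorem x_MPl : MPl := pr_MPl
theorem x_MHy : MHy := pr_MHy x_MF1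
theorem x_MEq : MEq := pr_MEq x_MTl x_MPl x_MHy x_MCt
theorem x_MFl : MFl := pr_MFl x_MHy
theorem x_MLn : MLn := pr_MLn x_MF1 x_MMd
theorem x_MNe : MNe := pr_MNe x_MHy x_MLn
theorem x_MRi : MRi := pr_MRi x_MTl
theorem x_MTc : MTc := pr_MTc
theorem x_MTa : MTa := pr_MTa x_MEq x_MCt x_MTc
theorem x_RCat : RCat := pr_RCat x_CvG x_Stew
theorem x_RLen : RLen := pr_RLen x_CvG x_Axis
theorem x_RAct : RAct := pr_RAct x_RCat x_RLen pr_InvD p_Prop p_CtsD p_Flow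
theorem x_RBk : RBk := pr_RBk x_CTr x_UG
theorem x_RDim : RDim := pr_RDim
theorem x_RUnb : RUnb := pr_RUnb x_CvG x_Iso x_UG
theorem x_RPr : RPr := pr_RPr x_RAct x_RUnb x_MNe x_MFl x_MRi x_CvG
theorem x_RLim : RLim := pr_RLim
theorem x_RSh : RSh := pr_RSh x_RLim x_RCat x_MMd x_CvG x_UG p_CtsD p_Flow
theorem x_RT1 : RT1 := pr_RT1 x_RSh x_RBk x_RCat x_MAs x_MAe x_UG x_CvG p_Flow
theorem x_RT2 : RT2 := pr_RT2 x_RT1 x_UG
theorem x_RTau : RTau := pr_RTau x_MTa x_RAct x_CvG p_Flow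
theorem x_RFin : RFin := pr_RFin x_BPos x_XPosR x_KUp x_KLo x_RDim x_RPr x_RT1 x_RT2 x_RTau

end Pool.Agent.LX
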