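import Pool.Agent.Work.MP_25cd3b_gt.LX.StmtsZ

set_option autoImplicit false

open Set Filter Topology
open scoped ContDiff

namespace Pool.Agent.LX

namespace ISGr

variable {S : Type} [NormedAddCommGroup S] [NormedSpace ℝ S]

theorem iter_sub (T : S ≃L[ℝ] S) (k : ℕ) (a b : S) :
    (⇑T)^[k] (a - b) = (⇑T)^[k] a - (⇑T)^[k] b := by
  induction k generalizing a b with
  | zero => rfl
  | succ n ih => rw [Function.iterate_succ_apply, Function.iterate_succ_apply,
      Function.iterate_succ_apply, map_sub, ih]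

theorem iter_comm (T : S ≃L[ℝ] S) (P : S →L[ℝ] S) (h : ∀ w, P (T w) = T (P w)) (k : ℕ) (a : S) :
    (⇑T)^[k] (P a) = P ((⇑T)^[k] a) := by
  induction k generalizing a with
  | zero => rfl
  | succ n ih => rw [Function.iterate_succ_apply, Function.iterate_succ_apply, ← h, ih]

theorem symm_iter (T : S ≃L[ℝ] S) (k : ℕ) (a : S) : (⇑T.symm)^[k] ((⇑T)^[k] a) = a :=
  (Function.LeftInverse.iterate (g := ⇑T.symm) (f := ⇑T) T.symm_apply_apply k) a

theorem tws {V : Type} [NormedAddCommGroup V] [NormedSpace ℝ V] [FiniteDimensional ℝ V]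
    (lam : ℝ) (H : Bf V) (T : (V × V) ≃L[ℝ] (V × V)) (h0 : 0 < lam) (hP : Pos lam H)
    (hT : IsTr H T) (v : V) (hv : ∀ w : V, H (0, v) (w, 0) = 0) : v = 0 := by
  let J : V →ₗ[ℝ] (V →ₗ[ℝ] ℝ) :=
    { toFun := fun v =>
        { toFun := fun w => H (0, v) (w, 0)
          map_add' := by
            intro a b
            rw [← map_add]
            congr 1
            ext <;> simp
          map_smul' := by
            intro c a
            rw [RingHom.id_apply, ← map_smul]
            congr 1
            ext <;> simp }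
      map_add' := by
        intro a b
        apply LinearMap.ext
        intro w
        show H (0, a + b) (w, 0) = H (0, a) (w, 0) + H (0, b) (w, 0)
        have h1 : ((0 : V), a + b) = (0, a) + (0, b) := by ext <;> simp
        rw [h1, map_add]
        rfl
      map_smul' := by
        intro c a
        apply LinearMap.ext
        intro w
        show H (0, c • a) (w, 0) = c • H (0, a) (w, 0)
        have h1 : ((0 : V), c • a) = c • (0, a) := by ext <;> simp
        rw [h1, map_smul]
        rfl }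
  let Q : V →ₗ[ℝ] (V →ₗ[ℝ] ℝ) :=
    { toFun := fun b =>
        { toFun := fun w => H (0, b) (0, w) + H (b, 0) (w, 0)
          map_add' := by
            intro x y
            have h1 : ((0 : V), x + y) = (0, x) + (0, y) := by ext <;> simp
            have h2 : (x + y, (0 : V)) = (x, 0) + (y, 0) := by ext <;> simp
            rw [h1, h2, map_add, map_add]
            ring
          map_smul' := by
            intro c x
            have h1 : ((0 : V), c • x) = c • (0, x) := by ext <;> simp
            have h2 : (c • x, (0 : V)) = c • (x, 0) := by ext <;> simp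
            rw [h1, h2, map_smul, map_smul, RingHom.id_apply, smul_add] }
      map_add' := by
        intro x y
        apply LinearMap.ext
        intro w
        show H (0, x + y) (0, w) + H (x + y, 0) (w, 0) =
          (H (0, x) (0, w) + H (x, 0) (w, 0)) + (H (0, y) (0, w) + H (y, 0) (w, 0))
        have h1 : ((0 : V), x + y) = (0, x) + (0, y) := by ext <;> simp
        have h2 : (x + y, (0 : V)) = (x, 0) + (y, 0) := by ext <;> simp
        rw [h1, h2, map_add, map_add]
        simp only [ContinuousLinearMap.add_apply]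
        ring
      map_smul' := by
        intro c x
        apply LinearMap.ext
        intro w
        show H (0, c • x) (0, w) + H (c • x, 0) (w, 0) =
          c • (H (0, x) (0, w) + H (x, 0) (w, 0))
        have h1 : ((0 : V), c • x) = c • (0, x) := by ext <;> simp
        have h2 : (c • x, (0 : V)) = c • (x, 0) := by ext <;> simp
        rw [h1, h2, map_smul, map_smul, smul_add]
        rfl }
  have hfr : Module.finrank ℝ V = Module.finrank ℝ (V →ₗ[ℝ] ℝ) :=
    (Subspace.dual_finrank_eq (K := ℝ) (V := V)).symm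
  have hQ : Function.Injective Q := by
    rw [injective_iff_map_eq_zero]
    intro b hb
    have h1 : H (0, b) (0, b) + H (b, 0) (b, 0) = 0 := by
      have := LinearMap.congr_fun hb b
      exact this
    have h2 := hP.pos 0 b
    have h3 := hP.pos b 0
    rw [norm_zero] at h2 h3
    have h4 : lam * ‖b‖ ^ 2 ≤ 0 := by nlinarith
    have h5 : ‖b‖ ^ 2 ≤ 0 := by
      by_contra hc
      push Not at hc
      have := mul_pos h0 hc
      linarith
    have h6 : ‖b‖ = 0 := by
      have := sq_nonneg ‖b‖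
      exact pow_eq_zero_iff (two_ne_zero) |>.1 (le_antisymm h5 this)
    exact norm_eq_zero.1 h6
  have hQs : Function.Surjective Q :=
    (LinearMap.injective_iff_surjective_of_finrank_eq_finrank hfr).1 hQ
  have hJs : Function.Surjective J := by
    intro l
    obtain ⟨b, hb⟩ := hQs (-l)
    refine ⟨(T (0, b)).2, ?_⟩
    apply LinearMap.ext
    intro w
    show H (0, (T (0, b)).2) (w, 0) = l w
    have h1 := (hT 0 b).2 w
    have h2 : (b, (T (0, b)).2) = (b, (0 : V)) + (0, (T (0, b)).2) := by ext <;> simp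
    rw [h2, map_add] at h1
    have h3 : H (0, b) (0, w) + H (b, 0) (w, 0) = -(l w) := by
      have := LinearMap.congr_fun hb w
      exact this
    simp only [ContinuousLinearMap.add_apply] at h1
    linarith
  have hJ : Function.Injective J :=
    (LinearMap.injective_iff_surjective_of_finrank_eq_finrank hfr).2 hJs
  apply hJ
  rw [map_zero]
  apply LinearMap.ext
  intro w
  exact hv w

theorem orbit {V : Type} [NormedAddCommGroup V] [NormedSpace ℝ V] [FiniteDimensional ℝ V]
    (lam : ℝ) (H : Bf V) (T : (V × V) ≃L[ℝ] (V × V)) (h0 : 0 < lam) (hP : Pos lam H)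
    (hT : IsTr H T) (Z : ℕ → V) (hZ : ∀ k, Sol (fun _ => H) k Z) (k : ℕ) :
    (⇑T)^[k] (Z 0, Z 1) = (Z k, Z (k + 1)) := by
  induction k with
  | zero => rfl
  | succ n ih =>
    rw [Function.iterate_succ_apply', ih]
    obtain ⟨h1, h2⟩ := hT (Z n) (Z (n + 1))
    have h3 := hZ (n + 2) n (by omega)
    have h4 : (T (Z n, Z (n + 1))).2 - Z (n + 2) = 0 := by
      apply tws lam H T h0 hP hT
      intro w
      have h5 := h2 w
      have h6 := h3 w
      have h7 : ((0 : V), (T (Z n, Z (n + 1))).2 - Z (n + 2)) =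
          (Z (n + 1), (T (Z n, Z (n + 1))).2) - (Z (n + 1), Z (n + 2)) := by ext <;> simp
      rw [h7, map_sub]
      simp only [ContinuousLinearMap.sub_apply]
      linarith
    exact Prod.ext h1 (sub_eq_zero.1 h4)

end ISGr

open ISGr in
theorem pr_SGr (h1 : XPosR) (h2 : SHs) (h3 : SPr) (h4 : XRec) : SGr := by
  intro V _ _ _ lam s H T h0 hP hT hs hsl
  by_contra hG
  obtain ⟨s0, hs0, hG0⟩ := h1 V lam H h0 hP
  obtain ⟨Ps, B, Bu, C0, ips, cps, b1, b2, g1, g2, g3, g4⟩ := h2 V lam s0 H T h0 hP hT hG0 hs0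
  obtain ⟨Pr, hPr⟩ := h3 (V × V) T (Real.exp s) (Real.exp_pos s)
  obtain ⟨ρ2, C2, hρ, lo⟩ := hPr.lo
  have hρ0 : 0 < ρ2 := (Real.exp_pos s).trans hρ
  have hlog : s < Real.log ρ2 := (Real.lt_log_iff_exp_lt hρ0).2 hρ
  obtain ⟨s', hs1, hs2⟩ := exists_between hlog
  have hs3 : Real.exp s' < ρ2 := (Real.lt_log_iff_exp_lt hρ0).1 hs2
  have hs'0 : 0 < s' := hs.trans hs1
  obtain ⟨Z, C, Z0, Z1, hZ, bZ⟩ := h4 V lam s s' H h0 hP hG hs1
  have hC : 0 ≤ C := by
    have := bZ 0
    rw [Z0, norm_zero] at this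
    simpa using this
  set w : V × V := (Z 0, Z 1) with hw
  have horb : ∀ k, (⇑T)^[k] w = (Z k, Z (k + 1)) := orbit lam H T h0 hP hT Z hZ
  have hbd : ∀ k : ℕ, ‖(⇑T)^[k] w‖ ≤ C * Real.exp s' * Real.exp s' ^ k := by
    intro k
    rw [horb, Prod.norm_def, ← Real.exp_nat_mul]
    apply max_le
    · refine (bZ k).trans ?_
      have e1 : Real.exp (s' * k) = Real.exp (k * s') := by rw [mul_comm]
      rw [e1]
      have e2 : 1 ≤ Real.exp s' := Real.one_le_exp hs'0.le
      nlinarith [mul_nonneg hC (Real.exp_pos (k * s')).le]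
    · refine (bZ (k + 1)).trans (le_of_eq ?_)
      rw [mul_assoc, ← Real.exp_add]
      congr 2
      push_cast
      ring
  have hu : w - Pr w = 0 := by
    have hlim : Tendsto (fun k : ℕ => |C2| * (C * Real.exp s') * (ρ2⁻¹ * Real.exp s') ^ k)
        atTop (𝓝 (|C2| * (C * Real.exp s') * 0)) := by
      apply Tendsto.const_mul
      apply tendsto_pow_atTop_nhds_zero_of_lt_one
      · positivity
      · rw [inv_mul_lt_iff₀ hρ0, mul_one]
        exact hs3
    rw [mul_zero] at hlim
    have hle : ∀ k : ℕ, ‖w - Pr w‖ ≤ |C2| * (C * Real.exp s') * (ρ2⁻¹ * Real.exp s') ^ k := by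
      intro k
      have e1 : w - Pr w = (⇑T.symm)^[k] ((⇑T)^[k] w - Pr ((⇑T)^[k] w)) := by
        rw [← iter_comm T Pr hPr.comm k w, ← iter_sub, symm_iter]
      calc ‖w - Pr w‖ = ‖(⇑T.symm)^[k] ((⇑T)^[k] w - Pr ((⇑T)^[k] w))‖ := by rw [← e1]
        _ ≤ C2 * ρ2⁻¹ ^ k * ‖(⇑T)^[k] w‖ := lo k _
        _ ≤ |C2| * ρ2⁻¹ ^ k * ‖(⇑T)^[k] w‖ := by
            gcongr
            exact le_abs_self C2
        _ ≤ |C2| * ρ2⁻¹ ^ k * (C * Real.exp s' * Real.exp s' ^ k) := by
            gcongr
            exact hbd k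
        _ = |C2| * (C * Real.exp s') * (ρ2⁻¹ * Real.exp s') ^ k := by
            rw [mul_pow]; ring
    have := ge_of_tendsto' hlim hle
    exact norm_le_zero_iff.1 this
  have hPw : Pr w = w := (sub_eq_zero.1 hu).symm
  have hz : w - Ps w = 0 := by
    apply hsl
    constructor
    · refine ⟨|C0| * ‖w‖, fun k => ?_⟩
      refine (b2 k w).trans ?_
      have e1 : Real.exp (-(s0 * k)) ≤ 1 := by
        apply Real.exp_le_one_iff.2
        have : 0 ≤ s0 * (k : ℝ) := by positivity
        linarith
      calc C0 * Real.exp (-(s0 * k)) * ‖w‖ ≤ |C0| * 1 * ‖w‖ := by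
            gcongr
            exact le_abs_self C0
        _ = |C0| * ‖w‖ := by ring
    · intro q' hq'
      obtain ⟨C3, hC3⟩ := hPr.up (Real.exp q') (Real.exp_lt_exp.2 hq')
      refine ⟨(|C3| + |C0|) * ‖w‖, fun k => ?_⟩
      rw [iter_sub]
      have e0 : 0 ≤ q' * (k : ℝ) := by
        have : 0 < q' := hs.trans hq'
        positivity
      have e1 : Real.exp (-(s0 * k)) ≤ Real.exp (q' * k) := by
        apply Real.exp_le_exp.2
        have : 0 ≤ s0 * (k : ℝ) := by positivity
        linarith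
      have e2 : ‖(⇑T)^[k] w‖ ≤ |C3| * Real.exp (q' * k) * ‖w‖ := by
        have e3 := hC3 k w
        rw [hPw, ← Real.exp_nat_mul, mul_comm (k : ℝ) q'] at e3
        refine e3.trans ?_
        gcongr
        exact le_abs_self C3
      have e4 : ‖(⇑T)^[k] (Ps w)‖ ≤ |C0| * Real.exp (q' * k) * ‖w‖ := by
        refine (b1 k w).trans ?_
        gcongr
        exact le_abs_self C0
      calc ‖(⇑T)^[k] w - (⇑T)^[k] (Ps w)‖ ≤ ‖(⇑T)^[k] w‖ + ‖(⇑T)^[k] (Ps w)‖ := norm_sub_le _ _
        _ ≤ |C3| * Real.exp (q' * k) * ‖w‖ + |C0| * Real.exp (q' * k) * ‖w‖ := add_le_add e2 e4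
        _ = (|C3| + |C0|) * ‖w‖ * Real.exp (q' * k) := by ring
  have hPs : Ps w = w := (sub_eq_zero.1 hz).symm
  have h5 := g3 w hPs
  apply Z1
  have h6 : w.2 = Z 1 := rfl
  have h7 : w.1 = 0 := Z0
  rw [h7, map_zero, h6] at h5
  exact h5

end Pool.Agent.LX
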