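import Pool.Agent.Work.MP_25cd3b_gt.LX.StmtsZ

set_option autoImplicit false

/-! # Block LX, item SHs: the hyperbolic splitting of a linear chain -/

open Set Filter Topology
open scoped ContDiff

namespace Pool.Agent.LX

namespace ISHs

variable {V : Type} [NormedAddCommGroup V] [NormedSpace ℝ V]

theorem inj [FiniteDimensional ℝ V] {lam : ℝ} (hl : 0 < lam) {H : Bf V} (hH : Pos lam H)
    {T : (V × V) ≃L[ℝ] (V × V)} (hT : IsTr H T) (v : V)
    (hv : ∀ w : V, H (0, v) (w, 0) = 0) : v = 0 := by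
  let K : V →ₗ[ℝ] V :=
    (LinearMap.snd ℝ V V) ∘ₗ T.toLinearEquiv.toLinearMap ∘ₗ (LinearMap.inl ℝ V V)
  have hK : ∀ a, K a = (T (a, 0)).2 := fun _ => rfl
  have hKi : Function.Injective K := by
    rw [injective_iff_map_eq_zero]
    intro a ha
    rw [hK] at ha
    have h1 : T (a, 0) = 0 := Prod.ext (hT a 0).1 ha
    have h2 : ((a, 0) : V × V) = 0 := T.injective (h1.trans (map_zero T).symm)
    exact congrArg Prod.fst h2
  have hKs : Function.Surjective K := LinearMap.surjective_of_injective hKi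
  obtain ⟨a, rfl⟩ := hKs v
  have h1 : ∀ w, H (a, 0) (0, w) = 0 := by
    intro w
    have := (hT a 0).2 w
    rw [← hK a, hv w, add_zero] at this
    exact this
  have h3 := (hT 0 a).2 a
  have e1 : ((a, (T (0, a)).2) : V × V) = (a, 0) + (0, (T (0, a)).2) := by ext <;> simp
  have e2 : H (0, (T (0, a)).2) (a, 0) = 0 := by
    rw [hH.symm]
    exact h1 _
  rw [e1, map_add, ContinuousLinearMap.add_apply, e2, add_zero] at h3
  have p1 := hH.pos 0 a
  have p2 := hH.pos a 0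
  simp only [norm_zero] at p1 p2
  have h4 : ‖a‖ ^ 2 ≤ 0 := by nlinarith
  have h5 : a = 0 := by
    have := pow_eq_zero_iff (two_ne_zero) |>.1 (le_antisymm h4 (sq_nonneg _))
    exact norm_eq_zero.1 this
  rw [h5, map_zero]

theorem step [FiniteDimensional ℝ V] {lam : ℝ} (hl : 0 < lam) {H : Bf V} (hH : Pos lam H)
    {T : (V × V) ≃L[ℝ] (V × V)} (hT : IsTr H T) (a b c : V)
    (h : ∀ w : V, H (a, b) (0, w) + H (b, c) (w, 0) = 0) : T (a, b) = (b, c) := by
  obtain ⟨h1, h2⟩ := hT a b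
  have h3 : (T (a, b)).2 - c = 0 := by
    apply inj hl hH hT
    intro w
    have e : ((0, (T (a, b)).2 - c) : V × V) = (b, (T (a, b)).2) - (b, c) := by ext <;> simp
    rw [e, map_sub, ContinuousLinearMap.sub_apply]
    have g1 := h w
    have g2 := h2 w
    linarith
  exact Prod.ext h1 (sub_eq_zero.1 h3)

theorem fwd [FiniteDimensional ℝ V] {lam : ℝ} (hl : 0 < lam) {H : Bf V} (hH : Pos lam H)
    {T : (V × V) ≃L[ℝ] (V × V)} (hT : IsTr H T) (k : ℕ) (Y : ℕ → V)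
    (hY : Sol (fun _ => H) (k + 1) Y) :
    ∀ j : ℕ, j ≤ k → (⇑T)^[j] (Y 0, Y 1) = (Y j, Y (j + 1)) := by
  intro j
  induction j with
  | zero => intro _; rfl
  | succ j ih =>
    intro hj
    rw [Function.iterate_succ_apply', ih (by omega)]
    exact step hl hH hT _ _ _ (hY j (by omega))

theorem bwd [FiniteDimensional ℝ V] {lam : ℝ} (hl : 0 < lam) {H : Bf V} (hH : Pos lam H)
    {T : (V × V) ≃L[ℝ] (V × V)} (hT : IsTr H T) (k : ℕ) (Y : ℕ → V)
    (hY : Sol (fun _ => H) (k + 1) Y) :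
    ∀ j : ℕ, j ≤ k → (⇑T.symm)^[j] (Y k, Y (k + 1)) = (Y (k - j), Y (k - j + 1)) := by
  intro j
  induction j with
  | zero => intro _; rfl
  | succ j ih =>
    intro hj
    rw [Function.iterate_succ_apply', ih (by omega), ContinuousLinearEquiv.symm_apply_eq]
    have h1 := step hl hH hT _ _ _ (hY (k - (j + 1)) (by omega))
    have e1 : k - (j + 1) + 1 = k - j := by omega
    have e2 : k - (j + 1) + 2 = k - j + 1 := by omega
    rw [e1, e2] at h1
    rw [e1]
    exact h1.symm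

/-- the vectors with bounded orbit -/
def bd (L : (V × V) ≃L[ℝ] (V × V)) : Submodule ℝ (V × V) where
  carrier := {w | ∃ C : ℝ, ∀ k : ℕ, ‖(⇑L)^[k] w‖ ≤ C}
  add_mem' := by
    rintro a b ⟨C1, h1⟩ ⟨C2, h2⟩
    exact ⟨C1 + C2, fun k => by
      rw [iterate_map_add]
      exact (norm_add_le _ _).trans (add_le_add (h1 k) (h2 k))⟩
  zero_mem' := ⟨0, fun k => by
    rw [iterate_map_zero]
    simp⟩
  smul_mem' := by
    rintro c a ⟨C, h⟩
    refine ⟨‖c‖ * C, fun k => ?_⟩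
    have : (⇑L)^[k] (c • a) = c • (⇑L)^[k] a := by
      induction k with
      | zero => rfl
      | succ k ih =>
        rw [Function.iterate_succ_apply', Function.iterate_succ_apply', ih, map_smul]
    rw [this, norm_smul]
    exact mul_le_mul_of_nonneg_left (h k) (norm_nonneg _)

theorem mem_bd (L : (V × V) ≃L[ℝ] (V × V)) (w : V × V) :
    w ∈ bd L ↔ ∃ C : ℝ, ∀ k : ℕ, ‖(⇑L)^[k] w‖ ≤ C := Iff.rfl

theorem bd_fwd (L : (V × V) ≃L[ℝ] (V × V)) (w : V × V) (hw : w ∈ bd L) : L w ∈ bd L := by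
  obtain ⟨C, hC⟩ := hw
  refine ⟨C, fun k => ?_⟩
  have := hC (k + 1)
  rwa [Function.iterate_succ_apply] at this

theorem bd_bwd (L : (V × V) ≃L[ℝ] (V × V)) (w : V × V) (hw : w ∈ bd L) : L.symm w ∈ bd L := by
  obtain ⟨C, hC⟩ := hw
  refine ⟨max C ‖L.symm w‖, fun k => ?_⟩
  cases k with
  | zero => exact le_max_right _ _
  | succ k =>
    rw [Function.iterate_succ_apply, ContinuousLinearEquiv.apply_symm_apply]
    exact (hC k).trans (le_max_left _ _)

theorem bd_iter (T : (V × V) ≃L[ℝ] (V × V)) (w : V × V) (hw : w ∈ bd T.symm) (k : ℕ) :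
    (⇑T)^[k] w ∈ bd T.symm := by
  induction k with
  | zero => exact hw
  | succ k ih =>
    rw [Function.iterate_succ_apply']
    have := bd_bwd T.symm _ ih
    rwa [ContinuousLinearEquiv.symm_symm] at this

theorem ex1 [FiniteDimensional ℝ V] (h2 : XBvp) {lam s C : ℝ} (hl : 0 < lam) (hs : 0 < s)
    (hC : 0 ≤ C) {H : Bf V} (hH : Pos lam H) {T : (V × V) ≃L[ℝ] (V × V)} (hT : IsTr H T)
    (hY : ∀ (k : ℕ) (Y : ℕ → V), Sol (fun _ => H) k Y → Y k = 0 → ∀ j ≤ k,
      ‖Y j‖ ≤ C * Real.exp (-(s * j)) * ‖Y 0‖) (x : V) : ∃ w ∈ bd T, w.1 = x := by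
  haveI : ProperSpace V := FiniteDimensional.proper_real V
  choose Y hY0 hYk hYs using fun k : ℕ =>
    h2 V lam hl (fun _ => H) (fun _ => hH) k x 0 (fun _ => 0)
  have hS : ∀ k, Sol (fun _ => H) (k + 1) (Y k) := fun k i hi w => hYs k i hi w
  have hb : ∀ k j, j ≤ k + 1 → ‖Y k j‖ ≤ C * ‖x‖ := by
    intro k j hj
    have h3 := hY (k + 1) (Y k) (hS k) (hYk k) j hj
    rw [hY0 k] at h3
    refine h3.trans ?_
    have h4 : Real.exp (-(s * j)) ≤ 1 := by
      rw [Real.exp_le_one_iff]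
      have : 0 ≤ s * (j : ℝ) := by positivity
      linarith
    have h5 : C * Real.exp (-(s * j)) ≤ C * 1 := mul_le_mul_of_nonneg_left h4 hC
    rw [mul_one] at h5
    exact mul_le_mul_of_nonneg_right h5 (norm_nonneg _)
  obtain ⟨y, _, φ, hφ, hlim⟩ := (isCompact_closedBall (0 : V) (C * ‖x‖)).tendsto_subseq
    (x := fun k => Y k 1) (fun k => by simpa using hb k 1 (by omega))
  refine ⟨(x, y), ⟨C * ‖x‖, fun j => ?_⟩, rfl⟩
  have hc : Tendsto (fun k => (⇑T)^[j] (x, Y (φ k) 1)) atTop (𝓝 ((⇑T)^[j] (x, y))) :=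
    ((T.continuous.iterate j).tendsto (x, y)).comp (tendsto_const_nhds.prodMk_nhds hlim)
  refine le_of_tendsto hc.norm ?_
  filter_upwards [eventually_ge_atTop j] with k hk
  have hk' : j ≤ φ k := hk.trans (hφ.le_apply)
  have h6 := fwd hl hH hT (φ k) (Y (φ k)) (hS _) j hk'
  rw [hY0] at h6
  rw [h6, Prod.norm_mk]
  exact max_le (hb _ _ (by omega)) (hb _ _ (by omega))

theorem ex2 [FiniteDimensional ℝ V] (h2 : XBvp) {lam s C : ℝ} (hl : 0 < lam) (hs : 0 < s)
    (hC : 0 ≤ C) {H : Bf V} (hH : Pos lam H) {T : (V × V) ≃L[ℝ] (V × V)} (hT : IsTr H T)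
    (hZ : ∀ (k : ℕ) (Z : ℕ → V), Sol (fun _ => H) k Z → Z 0 = 0 → ∀ j ≤ k,
      ‖Z j‖ ≤ C * Real.exp (-(s * ((k : ℝ) - j))) * ‖Z k‖) (x : V) :
    ∃ w ∈ bd T.symm, w.2 = x := by
  haveI : ProperSpace V := FiniteDimensional.proper_real V
  choose Y hY0 hYk hYs using fun k : ℕ =>
    h2 V lam hl (fun _ => H) (fun _ => hH) k 0 x (fun _ => 0)
  have hS : ∀ k, Sol (fun _ => H) (k + 1) (Y k) := fun k i hi w => hYs k i hi w
  have hb : ∀ k j, j ≤ k + 1 → ‖Y k j‖ ≤ C * ‖x‖ := by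
    intro k j hj
    have h3 := hZ (k + 1) (Y k) (hS k) (hY0 k) j hj
    rw [hYk k] at h3
    refine h3.trans ?_
    have hj' : (j : ℝ) ≤ ((k + 1 : ℕ) : ℝ) := by exact_mod_cast hj
    have h4 : Real.exp (-(s * (((k + 1 : ℕ) : ℝ) - j))) ≤ 1 := by
      rw [Real.exp_le_one_iff]
      have : 0 ≤ s * (((k + 1 : ℕ) : ℝ) - j) := mul_nonneg hs.le (by linarith)
      linarith
    have h5 : C * Real.exp (-(s * (((k + 1 : ℕ) : ℝ) - j))) ≤ C * 1 :=
      mul_le_mul_of_nonneg_left h4 hC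
    rw [mul_one] at h5
    exact mul_le_mul_of_nonneg_right h5 (norm_nonneg _)
  obtain ⟨y, _, φ, hφ, hlim⟩ := (isCompact_closedBall (0 : V) (C * ‖x‖)).tendsto_subseq
    (x := fun k => Y k k) (fun k => by simpa using hb k k (by omega))
  refine ⟨(y, x), ⟨C * ‖x‖, fun j => ?_⟩, rfl⟩
  have hc : Tendsto (fun k => (⇑T.symm)^[j] (Y (φ k) (φ k), x)) atTop
      (𝓝 ((⇑T.symm)^[j] (y, x))) :=
    ((T.symm.continuous.iterate j).tendsto (y, x)).comp (hlim.prodMk_nhds tendsto_const_nhds)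
  refine le_of_tendsto hc.norm ?_
  filter_upwards [eventually_ge_atTop j] with k hk
  have hk' : j ≤ φ k := hk.trans (hφ.le_apply)
  have h6 := bwd hl hH hT (φ k) (Y (φ k)) (hS _) j hk'
  rw [hYk] at h6
  rw [h6, Prod.norm_mk]
  exact max_le (hb _ _ (by omega)) (hb _ _ (by omega))

end ISHs

open ISHs in
theorem pr_SHs (h1 : SHy) (h2 : XBvp) (h3 : XDec) : SHs := by
  intro V _ _ _ lam s H T hl hH hT hG hs
  obtain ⟨C0, hC0, hZ, hY⟩ := h3 V lam s H hl hH hG
  have hC0' : 0 ≤ C0 := by linarith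
  obtain ⟨C1, hC1⟩ := h1 V lam s H T hl hH hT hG hs
  obtain ⟨C, hCnn, hf, hb⟩ : ∃ C : ℝ, 0 ≤ C ∧
      (∀ w ∈ bd T, ∀ k : ℕ, ‖(⇑T)^[k] w‖ ≤ C * Real.exp (-(s * k)) * ‖w.1‖) ∧
      (∀ w ∈ bd T.symm, ∀ k : ℕ, ‖(⇑T.symm)^[k] w‖ ≤ C * Real.exp (-(s * k)) * ‖w.2‖) := by
    refine ⟨|C1|, abs_nonneg _, ?_, ?_⟩
    · intro w hw k
      refine ((hC1 w).1 hw k).trans ?_
      have := mul_le_mul_of_nonneg_right (le_abs_self C1)
        (mul_nonneg (Real.exp_pos (-(s * (k : ℝ)))).le (norm_nonneg w.1))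
      linarith
    · intro w hw k
      refine ((hC1 w).2 hw k).trans ?_
      have := mul_le_mul_of_nonneg_right (le_abs_self C1)
        (mul_nonneg (Real.exp_pos (-(s * (k : ℝ)))).le (norm_nonneg w.2))
      linarith
  -- graphs
  let ps : bd T →ₗ[ℝ] V := (LinearMap.fst ℝ V V) ∘ₗ (bd T).subtype
  let pu : bd T.symm →ₗ[ℝ] V := (LinearMap.snd ℝ V V) ∘ₗ (bd T.symm).subtype
  have hps : Function.Bijective ps := by
    constructor
    · rw [injective_iff_map_eq_zero]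
      intro w hw
      have h4 := hf w.1 w.2 0
      have h5 : (w.1 : V × V).1 = 0 := hw
      rw [h5, norm_zero, mul_zero] at h4
      have h6 : ‖(w.1 : V × V)‖ ≤ 0 := h4
      exact Subtype.ext (norm_le_zero_iff.1 h6)
    · intro x
      obtain ⟨w, hw, hx⟩ := ex1 h2 hl hs hC0' hH hT hY x
      exact ⟨⟨w, hw⟩, hx⟩
  have hpu : Function.Bijective pu := by
    constructor
    · rw [injective_iff_map_eq_zero]
      intro w hw
      have h4 := hb w.1 w.2 0
      have h5 : (w.1 : V × V).2 = 0 := hw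
      rw [h5, norm_zero, mul_zero] at h4
      have h6 : ‖(w.1 : V × V)‖ ≤ 0 := h4
      exact Subtype.ext (norm_le_zero_iff.1 h6)
    · intro x
      obtain ⟨w, hw, hx⟩ := ex2 h2 hl hs hC0' hH hT hZ x
      exact ⟨⟨w, hw⟩, hx⟩
  let es : bd T ≃ₗ[ℝ] V := LinearEquiv.ofBijective ps hps
  let eu : bd T.symm ≃ₗ[ℝ] V := LinearEquiv.ofBijective pu hpu
  have hes : ∀ x : V, ((es.symm x : bd T) : V × V).1 = x := fun x => es.apply_symm_apply x
  have heu : ∀ x : V, ((eu.symm x : bd T.symm) : V × V).2 = x := fun x => eu.apply_symm_apply x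
  have hdisj : Disjoint (bd T) (bd T.symm) := by
    rw [Submodule.disjoint_def]
    intro w hw1 hw2
    have h4 : ∀ k : ℕ, ‖w‖ ≤ C * C * ‖w.1‖ * Real.exp (-(s * k)) := by
      intro k
      have h5 := hb _ (bd_iter T w hw2 k) k
      have h6 : (⇑T.symm)^[k] ((⇑T)^[k] w) = w :=
        (Function.LeftInverse.iterate T.symm_apply_apply k) w
      rw [h6] at h5
      have h7 := hf w hw1 k
      have h8 : ‖((⇑T)^[k] w).2‖ ≤ ‖(⇑T)^[k] w‖ := norm_snd_le _
      have h9 : Real.exp (-(s * (k : ℝ))) ≤ 1 := by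
        rw [Real.exp_le_one_iff]
        have : 0 ≤ s * (k : ℝ) := by positivity
        linarith
      have h10 : 0 ≤ C * Real.exp (-(s * (k : ℝ))) := by positivity
      calc ‖w‖ ≤ C * Real.exp (-(s * k)) * ‖((⇑T)^[k] w).2‖ := h5
        _ ≤ C * Real.exp (-(s * k)) * (C * Real.exp (-(s * k)) * ‖w.1‖) :=
            mul_le_mul_of_nonneg_left (h8.trans h7) h10
        _ ≤ C * Real.exp (-(s * k)) * (C * 1 * ‖w.1‖) := by gcongr
        _ = C * C * ‖w.1‖ * Real.exp (-(s * k)) := by ring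
    have h11 : Tendsto (fun k : ℕ => C * C * ‖w.1‖ * Real.exp (-(s * (k : ℝ)))) atTop (𝓝 0) := by
      have g1 : Tendsto (fun k : ℕ => s * (k : ℝ)) atTop atTop :=
        Tendsto.const_mul_atTop hs tendsto_natCast_atTop_atTop
      have g2 := (Real.tendsto_exp_neg_atTop_nhds_zero.comp g1).const_mul (C * C * ‖w.1‖)
      rw [mul_zero] at g2
      exact g2
    have h12 : ‖w‖ ≤ 0 := ge_of_tendsto' h11 h4
    exact norm_le_zero_iff.1 h12
  have hcompl : IsCompl (bd T) (bd T.symm) := by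
    refine ⟨hdisj, codisjoint_iff.2 ?_⟩
    refine Submodule.eq_top_of_disjoint _ _ ?_ hdisj
    rw [LinearEquiv.finrank_eq es, LinearEquiv.finrank_eq eu, Module.finrank_prod]
  let Pl : (V × V) →ₗ[ℝ] (V × V) :=
    (bd T).subtype ∘ₗ (Submodule.linearProjOfIsCompl (bd T) (bd T.symm) hcompl)
  have hP1 : ∀ w ∈ bd T, Pl w = w := by
    intro w hw
    have := Submodule.linearProjOfIsCompl_apply_left hcompl ⟨w, hw⟩
    exact congrArg Subtype.val this
  have hP2 : ∀ w ∈ bd T.symm, Pl w = 0 := by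
    intro w hw
    have := (Submodule.linearProjOfIsCompl_apply_eq_zero_iff hcompl).2 hw
    exact congrArg Subtype.val this
  have hP3 : ∀ w, Pl w ∈ bd T := fun w => Subtype.mem _
  have hP4 : ∀ w, w - Pl w ∈ bd T.symm := by
    intro w
    rw [← Submodule.linearProjOfIsCompl_apply_eq_zero_iff hcompl]
    apply Subtype.ext
    have e : Pl (w - Pl w) = 0 := by rw [map_sub, hP1 _ (hP3 w), sub_self]
    exact e
  have hP5 : ∀ a ∈ bd T, ∀ b ∈ bd T.symm, Pl (a + b) = a := by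
    intro a ha b hb'
    rw [map_add, hP1 a ha, hP2 b hb', add_zero]
  let Ps : (V × V) →L[ℝ] (V × V) := LinearMap.toContinuousLinearMap Pl
  have hPs : ∀ w, Ps w = Pl w := fun _ => rfl
  let B : V →L[ℝ] V := LinearMap.toContinuousLinearMap
    ((LinearMap.snd ℝ V V) ∘ₗ (bd T).subtype ∘ₗ es.symm.toLinearMap)
  let Bu : V →L[ℝ] V := LinearMap.toContinuousLinearMap
    ((LinearMap.fst ℝ V V) ∘ₗ (bd T.symm).subtype ∘ₗ eu.symm.toLinearMap)
  have hB : ∀ v, B v = ((es.symm v : bd T) : V × V).2 := fun _ => rfl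
  have hBu : ∀ v, Bu v = ((eu.symm v : bd T.symm) : V × V).1 := fun _ => rfl
  have hBm : ∀ v, ((v, B v) : V × V) ∈ bd T := by
    intro v
    have : ((v, B v) : V × V) = ((es.symm v : bd T) : V × V) := Prod.ext (hes v).symm (hB v)
    rw [this]
    exact Subtype.mem _
  have hBum : ∀ v, ((Bu v, v) : V × V) ∈ bd T.symm := by
    intro v
    have : ((Bu v, v) : V × V) = ((eu.symm v : bd T.symm) : V × V) :=
      Prod.ext (hBu v) (heu v).symm
    rw [this]
    exact Subtype.mem _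
  have hN : 0 ≤ ‖Ps‖ := norm_nonneg _
  refine ⟨Ps, B, Bu, C * (1 + ‖Ps‖), ?_, ?_, ?_, ?_, ?_, ?_, ?_, ?_⟩
  · intro w
    rw [hPs, hPs]
    exact hP1 _ (hP3 w)
  · intro w
    rw [hPs, hPs]
    have e : T w = T (Pl w) + T (w - Pl w) := by
      rw [← map_add]
      congr 1
      abel
    rw [e]
    refine hP5 _ (bd_fwd T _ (hP3 w)) _ ?_
    have := bd_bwd T.symm _ (hP4 w)
    rwa [ContinuousLinearEquiv.symm_symm] at this
  · intro k w
    have h4 := hf (Ps w) (hP3 w) k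
    have h5 : ‖(Ps w).1‖ ≤ ‖Ps‖ * ‖w‖ := (norm_fst_le _).trans (Ps.le_opNorm w)
    have h6 : 0 ≤ C * Real.exp (-(s * (k : ℝ))) := by positivity
    calc ‖(⇑T)^[k] (Ps w)‖ ≤ C * Real.exp (-(s * k)) * ‖(Ps w).1‖ := h4
      _ ≤ C * Real.exp (-(s * k)) * ((1 + ‖Ps‖) * ‖w‖) := by
          refine mul_le_mul_of_nonneg_left (h5.trans ?_) h6
          exact mul_le_mul_of_nonneg_right (by linarith) (norm_nonneg _)
      _ = C * (1 + ‖Ps‖) * Real.exp (-(s * k)) * ‖w‖ := by ring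
  · intro k w
    have h4 := hb (w - Ps w) (hP4 w) k
    have h5 : ‖(w - Ps w).2‖ ≤ (1 + ‖Ps‖) * ‖w‖ := by
      refine (norm_snd_le _).trans ((norm_sub_le _ _).trans ?_)
      have := Ps.le_opNorm w
      linarith
    have h6 : 0 ≤ C * Real.exp (-(s * (k : ℝ))) := by positivity
    calc ‖(⇑T.symm)^[k] (w - Ps w)‖ ≤ C * Real.exp (-(s * k)) * ‖(w - Ps w).2‖ := h4
      _ ≤ C * Real.exp (-(s * k)) * ((1 + ‖Ps‖) * ‖w‖) := mul_le_mul_of_nonneg_left h5 h6
      _ = C * (1 + ‖Ps‖) * Real.exp (-(s * k)) * ‖w‖ := by ring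
  · intro v
    rw [hPs]
    exact hP1 _ (hBm v)
  · intro v
    rw [hPs]
    exact hP2 _ (hBum v)
  · intro w hw
    have hwm : w ∈ bd T := by
      rw [← hw]
      exact hP3 w
    have h4 : w - (w.1, B w.1) ∈ bd T := Submodule.sub_mem _ hwm (hBm _)
    have h5 := hf _ h4 0
    have h6 : (w - (w.1, B w.1)).1 = 0 := by simp
    rw [h6, norm_zero, mul_zero] at h5
    have h7 : w - (w.1, B w.1) = 0 := norm_le_zero_iff.1 h5
    have h8 := congrArg Prod.snd (sub_eq_zero.1 h7)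
    exact h8
  · intro w hw
    have hwm : w ∈ bd T.symm := by
      have := hP4 w
      have e : Pl w = 0 := hw
      rwa [e, sub_zero] at this
    have h4 : w - (Bu w.2, w.2) ∈ bd T.symm := Submodule.sub_mem _ hwm (hBum _)
    have h5 := hb _ h4 0
    have h6 : (w - (Bu w.2, w.2)).2 = 0 := by simp
    rw [h6, norm_zero, mul_zero] at h5
    have h7 : w - (Bu w.2, w.2) = 0 := norm_le_zero_iff.1 h5
    have h8 := congrArg Prod.fst (sub_eq_zero.1 h7)
    exact h8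

end Pool.Agent.LX
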