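import Pool.Agent.Work.MP_25cd3b_gt.LX.StmtsZ

set_option autoImplicit false

/-!
# MP_25cd3b_gt, block LX, item SHy: bounded orbits of the transfer map decay
-/

open Set Filter Topology
open scoped ContDiff

namespace Pool.Agent.LX

namespace ISHy

variable {V : Type} [NormedAddCommGroup V] [NormedSpace ℝ V]

theorem sol_sub {H : Bf V} {k : ℕ} {Y W : ℕ → V} (hY : Sol (fun _ => H) k Y)
    (hW : Sol (fun _ => H) k W) : Sol (fun _ => H) k (fun j => Y j - W j) := by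
  intro j hj w
  have h1 := hY j hj w
  have h2 := hW j hj w
  have e1 : (Y j - W j, Y (j + 1) - W (j + 1)) = (Y j, Y (j + 1)) - (W j, W (j + 1)) := rfl
  have e2 : (Y (j + 1) - W (j + 1), Y (j + 2) - W (j + 2)) =
      (Y (j + 1), Y (j + 2)) - (W (j + 1), W (j + 2)) := rfl
  show H (Y j - W j, Y (j + 1) - W (j + 1)) (0, w) +
    H (Y (j + 1) - W (j + 1), Y (j + 2) - W (j + 2)) (w, 0) = 0
  rw [e1, e2, map_sub, map_sub, sub_apply, sub_apply]
  linarith

/-- a solution is the sum of a solution vanishing at the right end and one vanishing at the left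
end -/
theorem split (h1 : XBvp) [FiniteDimensional ℝ V] {lam s C : ℝ} (hl : 0 < lam)
    {H : Bf V} (hH : Pos lam H)
    (hZ : ∀ (k : ℕ) (Z : ℕ → V), Sol (fun _ => H) k Z → Z 0 = 0 → ∀ j ≤ k,
      ‖Z j‖ ≤ C * Real.exp (-(s * ((k : ℝ) - j))) * ‖Z k‖)
    (hY : ∀ (k : ℕ) (Y : ℕ → V), Sol (fun _ => H) k Y → Y k = 0 → ∀ j ≤ k,
      ‖Y j‖ ≤ C * Real.exp (-(s * j)) * ‖Y 0‖)
    (m : ℕ) (U : ℕ → V) (hU : Sol (fun _ => H) (m + 1) U) (j : ℕ) (hj : j ≤ m + 1) :
    ‖U j‖ ≤ C * Real.exp (-(s * j)) * ‖U 0‖ +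
      C * Real.exp (-(s * (((m + 1 : ℕ) : ℝ) - j))) * ‖U (m + 1)‖ := by
  obtain ⟨Y, y0, y1, y2⟩ := h1 V lam hl (fun _ => H) (fun _ => hH) m (U 0) 0 (fun _ => 0)
  have y3 : Sol (fun _ => H) (m + 1) Y := fun i hi w => y2 i hi w
  have h3 := hY (m + 1) Y y3 y1 j hj
  have h4 := hZ (m + 1) (fun i => U i - Y i) (sol_sub hU y3) (by simp [y0]) j hj
  simp only [y1, sub_zero] at h4
  rw [y0] at h3
  have h5 : ‖U j‖ ≤ ‖Y j‖ + ‖U j - Y j‖ := by
    have h6 : U j = Y j + (U j - Y j) := by abel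
    calc ‖U j‖ = ‖Y j + (U j - Y j)‖ := by rw [← h6]
      _ ≤ _ := norm_add_le _ _
  linarith

theorem lim {a b c s : ℝ} (hs : 0 < s) (j : ℕ)
    (h : ∀ m : ℕ, j ≤ m + 1 → a ≤ b + c * Real.exp (-(s * (((m + 1 : ℕ) : ℝ) - j)))) :
    a ≤ b := by
  have h1 : Tendsto (fun m : ℕ => ((m + 1 : ℕ) : ℝ)) atTop atTop :=
    tendsto_natCast_atTop_atTop.comp (tendsto_add_atTop_nat 1)
  have h2 : Tendsto (fun m : ℕ => s * (((m + 1 : ℕ) : ℝ) - j)) atTop atTop :=
    Tendsto.const_mul_atTop hs (tendsto_atTop_add_const_right _ _ h1)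
  have h3 : Tendsto (fun m : ℕ => Real.exp (-(s * (((m + 1 : ℕ) : ℝ) - j)))) atTop (𝓝 0) :=
    Real.tendsto_exp_neg_atTop_nhds_zero.comp h2
  have h4 : Tendsto (fun m : ℕ => b + c * Real.exp (-(s * (((m + 1 : ℕ) : ℝ) - j)))) atTop
      (𝓝 (b + c * 0)) := (h3.const_mul c).const_add b
  rw [mul_zero, add_zero] at h4
  refine ge_of_tendsto h4 ?_
  filter_upwards [eventually_ge_atTop j] with m hm
  exact h m (by omega)

theorem norm_le_max {C s : ℝ} {x y : V} {k : ℕ} {b : ℝ} (hC : 0 ≤ C) (hs : 0 < s) (hb : 0 ≤ b)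
    (h1 : ‖x‖ ≤ C * Real.exp (-(s * k)) * b)
    (h2 : ‖y‖ ≤ C * Real.exp (-(s * ((k + 1 : ℕ) : ℝ))) * b) :
    ‖(x, y)‖ ≤ C * Real.exp (-(s * k)) * b ∧ ‖(y, x)‖ ≤ C * Real.exp (-(s * k)) * b := by
  have h3 : Real.exp (-(s * ((k + 1 : ℕ) : ℝ))) ≤ Real.exp (-(s * k)) := by
    apply Real.exp_le_exp.mpr
    push_cast
    nlinarith
  have h4 : C * Real.exp (-(s * ((k + 1 : ℕ) : ℝ))) * b ≤ C * Real.exp (-(s * k)) * b := by
    gcongr
  rw [Prod.norm_mk, Prod.norm_mk]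
  exact ⟨max_le h1 (h2.trans h4), max_le (h2.trans h4) h1⟩

end ISHy

open ISHy in
/-- item SHy -/
theorem pr_SHy (h1 : XBvp) (h2 : XDec) : SHy := by
  intro V _ _ _ lam s H T hl hH hT hG hs
  obtain ⟨C, hC1, hZ, hY⟩ := h2 V lam s H hl hH hG
  have hC0 : 0 ≤ C := by linarith
  refine ⟨C, fun w => ⟨?_, ?_⟩⟩
  · rintro ⟨C', hC'⟩
    obtain ⟨Y, hYd⟩ : ∃ Y : ℕ → V, ∀ j, Y j = ((⇑T)^[j] w).1 := ⟨_, fun _ => rfl⟩
    have hY2 : ∀ j, Y (j + 1) = ((⇑T)^[j] w).2 := by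
      intro j
      rw [hYd, Function.iterate_succ_apply']
      exact (hT _ _).1
    have hYp : ∀ j, (⇑T)^[j] w = (Y j, Y (j + 1)) := by
      intro j
      rw [hYd j, hY2 j]
    have hS : ∀ k, Sol (fun _ => H) k Y := by
      intro k j _ v
      have h3 := (hT (Y j) (Y (j + 1))).2 v
      have h4 : (T (Y j, Y (j + 1))).2 = Y (j + 2) := by
        rw [← hYp j, ← Function.iterate_succ_apply' (⇑T) j w]
        exact (hY2 (j + 1)).symm
      rw [h4] at h3
      exact h3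
    have hYb : ∀ j, ‖Y j‖ ≤ C' := by
      intro j
      have h5 := hC' j
      rw [hYp j, Prod.norm_mk] at h5
      exact (le_max_left _ _).trans h5
    have hdec : ∀ j, ‖Y j‖ ≤ C * Real.exp (-(s * j)) * ‖w.1‖ := by
      intro j
      refine lim (c := C * C') hs j fun m hm => ?_
      have h6 := split h1 hl hH hZ hY m Y (hS _) j hm
      have h7 : Y 0 = w.1 := hYd 0
      rw [h7] at h6
      refine h6.trans ?_
      have h8 : C * Real.exp (-(s * (((m + 1 : ℕ) : ℝ) - j))) * ‖Y (m + 1)‖ ≤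
          C * Real.exp (-(s * (((m + 1 : ℕ) : ℝ) - j))) * C' :=
        mul_le_mul_of_nonneg_left (hYb _) (by positivity)
      linarith
    intro k
    rw [hYp k]
    exact (norm_le_max hC0 hs (norm_nonneg _) (hdec k) (hdec (k + 1))).1
  · rintro ⟨C', hC'⟩
    obtain ⟨x, hxd⟩ : ∃ x : ℕ → V, ∀ j, x j = ((⇑T.symm)^[j] w).2 := ⟨_, fun _ => rfl⟩
    have hTs : ∀ j, T ((⇑T.symm)^[j + 1] w) = (⇑T.symm)^[j] w := by
      intro j
      rw [Function.iterate_succ_apply']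
      exact T.apply_symm_apply _
    have hx1 : ∀ j, x (j + 1) = ((⇑T.symm)^[j] w).1 := by
      intro j
      rw [hxd, ← hTs j]
      exact ((hT _ _).1).symm
    have hxp : ∀ j, (⇑T.symm)^[j] w = (x (j + 1), x j) := by
      intro j
      rw [hxd j, hx1 j]
    have hrel : ∀ i, ∀ v : V, H (x (i + 2), x (i + 1)) (0, v) + H (x (i + 1), x i) (v, 0) = 0 := by
      intro i v
      have h3 := (hT (x (i + 2)) (x (i + 1))).2 v
      have h4 : (T (x (i + 2), x (i + 1))).2 = x i := by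
        have h5 := hTs i
        rw [hxp (i + 1), hxp i] at h5
        rw [h5]
      rw [h4] at h3
      exact h3
    have hxb : ∀ j, ‖x j‖ ≤ C' := by
      intro j
      have h5 := hC' j
      rw [hxp j, Prod.norm_mk] at h5
      exact (le_max_right _ _).trans h5
    have hdec : ∀ j, ‖x j‖ ≤ C * Real.exp (-(s * j)) * ‖w.2‖ := by
      intro j
      refine lim (c := C * C') hs j fun m hm => ?_
      have hS : Sol (fun _ => H) (m + 1) (fun i => x (m + 1 - i)) := by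
        intro i hi v
        have h6 := hrel (m + 1 - (i + 2)) v
        have e1 : m + 1 - (i + 2) + 2 = m + 1 - i := by omega
        have e2 : m + 1 - (i + 2) + 1 = m + 1 - (i + 1) := by omega
        rw [e1, e2] at h6
        exact h6
      have h7 := split h1 hl hH hZ hY m (fun i => x (m + 1 - i)) hS (m + 1 - j) (by omega)
      simp only [Nat.sub_zero, Nat.sub_self] at h7
      have e3 : m + 1 - (m + 1 - j) = j := by omega
      rw [e3] at h7
      have h8 : x 0 = w.2 := hxd 0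
      rw [h8] at h7
      have e4 : (((m + 1 - j : ℕ)) : ℝ) = ((m + 1 : ℕ) : ℝ) - j := by
        rw [Nat.cast_sub hm]
      rw [e4] at h7
      have e5 : ((m + 1 : ℕ) : ℝ) - (((m + 1 : ℕ) : ℝ) - j) = j := by ring
      rw [e5] at h7
      have h9 : C * Real.exp (-(s * (((m + 1 : ℕ) : ℝ) - j))) * ‖x (m + 1)‖ ≤
          C * Real.exp (-(s * (((m + 1 : ℕ) : ℝ) - j))) * C' :=
        mul_le_mul_of_nonneg_left (hxb _) (by positivity)
      linarith
    intro k
    rw [hxp k]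
    exact (norm_le_max hC0 hs (norm_nonneg _) (hdec k) (hdec (k + 1))).2

end Pool.Agent.LX
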