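import Pool.Agent.Work.MP_25cd3b_gt.LX.StmtsZ

set_option autoImplicit false

/-!
# MP_25cd3b_gt, block LX, part Z: item SPr (spectral projection of a real isomorphism)
-/

open Set Filter Topology

namespace Pool.Agent.LX

namespace ISPr

section general

variable {𝕜 : Type} [NontriviallyNormedField 𝕜] {E : Type} [NormedAddCommGroup E]
  [NormedSpace 𝕜 E]

/-- vectors whose orbit grows at most like `r ^ k` -/
def G (B : Module.End 𝕜 E) (r : ℝ) : Submodule 𝕜 E where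
  carrier := {z | ∃ C : ℝ, ∀ k : ℕ, ‖(B ^ k) z‖ ≤ C * r ^ k}
  add_mem' := by
    rintro a b ⟨C, hC⟩ ⟨D, hD⟩
    refine ⟨C + D, fun k => ?_⟩
    rw [map_add]
    calc ‖(B ^ k) a + (B ^ k) b‖ ≤ ‖(B ^ k) a‖ + ‖(B ^ k) b‖ := norm_add_le _ _
      _ ≤ C * r ^ k + D * r ^ k := add_le_add (hC k) (hD k)
      _ = (C + D) * r ^ k := by ring
  zero_mem' := ⟨0, fun k => by simp⟩
  smul_mem' := by
    rintro c a ⟨C, hC⟩
    refine ⟨‖c‖ * C, fun k => ?_⟩
    rw [map_smul, norm_smul, mul_assoc]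
    exact mul_le_mul_of_nonneg_left (hC k) (norm_nonneg _)

theorem mem_G {B : Module.End 𝕜 E} {r : ℝ} {z : E} :
    z ∈ G B r ↔ ∃ C : ℝ, ∀ k : ℕ, ‖(B ^ k) z‖ ≤ C * r ^ k := Iff.rfl

theorem G_mono (B : Module.End 𝕜 E) {r r' : ℝ} (h0 : 0 ≤ r) (h : r ≤ r') : G B r ≤ G B r' := by
  intro z hz
  obtain ⟨C, hC⟩ := mem_G.1 hz
  have hC0 : 0 ≤ C := by
    have := hC 0
    simp only [pow_zero, mul_one] at this
    exact (norm_nonneg _).trans this
  exact mem_G.2 ⟨C, fun k => (hC k).trans (mul_le_mul_of_nonneg_left (pow_le_pow_left₀ h0 h k) hC0)⟩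

/-- vectors with decay rate of the backward orbit better than `ρ` -/
def K (B : Module.End 𝕜 E) (ρ : ℝ) (hρ : 0 < ρ) : Submodule 𝕜 E where
  carrier := {z | ∃ r : ℝ, ρ < r ∧ z ∈ G B r⁻¹}
  add_mem' := by
    rintro a b ⟨r, hr, ha⟩ ⟨r', hr', hb⟩
    have hm : ρ < min r r' := lt_min hr hr'
    refine ⟨min r r', hm, Submodule.add_mem _ ?_ ?_⟩
    · exact G_mono B (inv_nonneg.2 (hρ.trans hr).le)
        (inv_anti₀ (hρ.trans hm) (min_le_left _ _)) ha
    · exact G_mono B (inv_nonneg.2 (hρ.trans hr').le)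
        (inv_anti₀ (hρ.trans hm) (min_le_right _ _)) hb
  zero_mem' := ⟨ρ + 1, by linarith, Submodule.zero_mem _⟩
  smul_mem' := by
    rintro c a ⟨r, hr, ha⟩
    exact ⟨r, hr, Submodule.smul_mem _ c ha⟩

theorem mem_K {B : Module.End 𝕜 E} {ρ : ℝ} {hρ : 0 < ρ} {z : E} :
    z ∈ K B ρ hρ ↔ ∃ r : ℝ, ρ < r ∧ z ∈ G B r⁻¹ := Iff.rfl

/-- vectors with growth at most `r` for all `r > ρ` -/
def F (B : Module.End 𝕜 E) (ρ : ℝ) : Submodule 𝕜 E := ⨅ (r : ℝ) (_ : ρ < r), G B r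

theorem mem_F {B : Module.End 𝕜 E} {ρ : ℝ} {z : E} :
    z ∈ F B ρ ↔ ∀ r : ℝ, ρ < r → z ∈ G B r := by
  simp only [F, Submodule.mem_iInf]

theorem uni (B : Module.End 𝕜 E) (ρ : ℝ) (hρ : 0 < ρ) (s : Finset E) :
    (∀ x ∈ s, x ∈ K B ρ hρ) → ∃ r : ℝ, ρ < r ∧ ∀ x ∈ s, x ∈ G B r⁻¹ := by
  classical
  induction s using Finset.induction_on with
  | empty => intro _; exact ⟨ρ + 1, by linarith, by simp⟩
  | insert a s ha ih =>
    intro h
    obtain ⟨r, hr, h1⟩ := ih (fun x hx => h x (Finset.mem_insert_of_mem hx))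
    obtain ⟨r', hr', h2⟩ := mem_K.1 (h a (Finset.mem_insert_self _ _))
    have hm : ρ < min r r' := lt_min hr hr'
    refine ⟨min r r', hm, fun x hx => ?_⟩
    rcases Finset.mem_insert.1 hx with rfl | hx
    · exact G_mono B (inv_nonneg.2 (hρ.trans hr').le)
        (inv_anti₀ (hρ.trans hm) (min_le_right _ _)) h2
    · exact G_mono B (inv_nonneg.2 (hρ.trans hr).le)
        (inv_anti₀ (hρ.trans hm) (min_le_left _ _)) (h1 x hx)

theorem uniK (B : Module.End 𝕜 E) (ρ : ℝ) (hρ : 0 < ρ) (hfg : (K B ρ hρ).FG) :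
    ∃ r : ℝ, ρ < r ∧ K B ρ hρ ≤ G B r⁻¹ := by
  obtain ⟨s, hs⟩ := hfg
  obtain ⟨r, hr, h⟩ := uni B ρ hρ s (fun x hx => by
    rw [← hs]; exact Submodule.subset_span hx)
  refine ⟨r, hr, ?_⟩
  rw [← hs]
  exact Submodule.span_le.2 (fun x hx => h x hx)

/-- invariance under the map -/
theorem G_self (B : Module.End 𝕜 E) {r : ℝ} {z : E} (hz : z ∈ G B r) : B z ∈ G B r := by
  obtain ⟨C, hC⟩ := mem_G.1 hz
  refine mem_G.2 ⟨C * r, fun k => ?_⟩
  have h := hC (k + 1)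
  rw [pow_succ, Module.End.mul_apply] at h
  calc ‖(B ^ k) (B z)‖ ≤ C * r ^ (k + 1) := h
    _ = C * r * r ^ k := by ring

/-- invariance under the inverse map -/
theorem G_inv (B B' : Module.End 𝕜 E) (h1 : B * B' = 1) {r : ℝ} (hr : 0 < r) {z : E}
    (hz : z ∈ G B r) : B' z ∈ G B r := by
  obtain ⟨C, hC⟩ := mem_G.1 hz
  have hC0 : 0 ≤ C := by
    have := hC 0
    simp only [pow_zero, mul_one] at this
    exact (norm_nonneg _).trans this
  refine mem_G.2 ⟨‖B' z‖ + C * r⁻¹, fun k => ?_⟩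
  rcases k with _ | k
  · simp only [pow_zero, mul_one, Module.End.one_apply]
    have : 0 ≤ C * r⁻¹ := mul_nonneg hC0 (inv_nonneg.2 hr.le)
    linarith
  · have e : (B ^ (k + 1)) (B' z) = (B ^ k) z := by
      rw [pow_succ, Module.End.mul_apply]
      have : B (B' z) = (B * B') z := rfl
      rw [this, h1, Module.End.one_apply]
    rw [e]
    calc ‖(B ^ k) z‖ ≤ C * r ^ k := hC k
      _ = C * r⁻¹ * r ^ (k + 1) := by field_simp; try ring
      _ ≤ (‖B' z‖ + C * r⁻¹) * r ^ (k + 1) :=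
        mul_le_mul_of_nonneg_right (by linarith [norm_nonneg (B' z)]) (pow_nonneg hr.le _)

end general

section cplx

variable {E : Type} [NormedAddCommGroup E] [NormedSpace ℂ E]

theorem grow (B : Module.End ℂ E) (ν : ℂ) (r : ℝ) (hr : ‖ν‖ < r) :
    ∀ (m : ℕ) (v : E), ((B - ν • (1 : Module.End ℂ E)) ^ m) v = 0 → v ∈ G B r := by
  intro m
  induction m with
  | zero =>
    intro v hv
    rw [pow_zero, Module.End.one_apply] at hv
    rw [hv]; exact Submodule.zero_mem _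
  | succ m ih =>
    intro v hv
    rw [pow_succ, Module.End.mul_apply] at hv
    obtain ⟨C, hC⟩ := mem_G.1 (ih _ hv)
    set w := (B - ν • (1 : Module.End ℂ E)) v with hw
    have hBv : B v = ν • v + w := by
      rw [hw, LinearMap.sub_apply, LinearMap.smul_apply, Module.End.one_apply]; abel
    have hr0 : 0 < r := (norm_nonneg ν).trans_lt hr
    have hd : 0 < r - ‖ν‖ := sub_pos.2 hr
    set C' := max ‖v‖ (C / (r - ‖ν‖)) with hC'
    have h1 : C ≤ (r - ‖ν‖) * C' := by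
      have : C / (r - ‖ν‖) ≤ C' := le_max_right _ _
      rw [div_le_iff₀ hd] at this
      linarith
    refine mem_G.2 ⟨C', fun k => ?_⟩
    induction k with
    | zero =>
      simp only [pow_zero, mul_one, Module.End.one_apply]
      exact le_max_left _ _
    | succ k ihk =>
      rw [pow_succ, Module.End.mul_apply, hBv, map_add, map_smul]
      calc ‖ν • (B ^ k) v + (B ^ k) w‖ ≤ ‖ν • (B ^ k) v‖ + ‖(B ^ k) w‖ := norm_add_le _ _
        _ ≤ ‖ν‖ * (C' * r ^ k) + C * r ^ k := by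
          rw [norm_smul]
          exact add_le_add (mul_le_mul_of_nonneg_left ihk (norm_nonneg _)) (hC k)
        _ ≤ ‖ν‖ * (C' * r ^ k) + (r - ‖ν‖) * C' * r ^ k :=
          add_le_add le_rfl (mul_le_mul_of_nonneg_right h1 (pow_nonneg hr0.le _))
        _ = C' * r ^ (k + 1) := by ring

theorem top_le [FiniteDimensional ℂ E] (B B' : Module.End ℂ E) (h1 : B * B' = 1) (h2 : B' * B = 1)
    (ρ : ℝ) (hρ : 0 < ρ) : ⊤ ≤ F B ρ ⊔ K B' ρ hρ := by
  rw [← Module.End.iSup_maxGenEigenspace_eq_top B]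
  refine iSup_le fun μ => ?_
  by_cases hμ : ‖μ‖ ≤ ρ
  · refine le_sup_of_le_left fun v hv => mem_F.2 fun r hr => ?_
    obtain ⟨m, hm⟩ := (Module.End.mem_maxGenEigenspace B μ v).1 hv
    exact grow B μ r (hμ.trans_lt hr) m v hm
  · push Not at hμ
    refine le_sup_of_le_right fun v hv => ?_
    obtain ⟨m, hm⟩ := (Module.End.mem_maxGenEigenspace B μ v).1 hv
    obtain ⟨r, hr1, hr2⟩ := exists_between hμ
    have hr0 : 0 < r := hρ.trans hr1
    have hμ0 : μ ≠ 0 := by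
      intro h; rw [h, norm_zero] at hr2; linarith
    refine mem_K.2 ⟨r, hr1, grow B' μ⁻¹ r⁻¹ ?_ m v ?_⟩
    · rw [norm_inv]
      exact inv_strictAnti₀ hr0 hr2
    · have hc : Commute (-(μ⁻¹ • B')) (B - μ • (1 : Module.End ℂ E)) := by
        have hBB : Commute B' B := by rw [Commute, SemiconjBy, h1, h2]
        have h3 : Commute B' (B - μ • (1 : Module.End ℂ E)) :=
          hBB.sub_right ((Commute.one_right B').smul_right μ)
        exact (h3.smul_left μ⁻¹).neg_left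
      have e : B' - μ⁻¹ • (1 : Module.End ℂ E) = -(μ⁻¹ • B') * (B - μ • (1 : Module.End ℂ E)) := by
        rw [mul_sub, neg_mul, smul_mul_assoc, h2, neg_mul, mul_smul_comm, mul_one, smul_smul,
          mul_inv_cancel₀ hμ0, one_smul]
        abel
      rw [e, hc.mul_pow, Module.End.mul_apply, hm, map_zero]

end cplx

set_option linter.unusedSectionVars false

section real

variable {S : Type} [NormedAddCommGroup S] [NormedSpace ℝ S] [FiniteDimensional ℝ S]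

/-- complexification in a basis -/
noncomputable def Cx {n : ℕ} (b : Module.Basis (Fin n) ℝ S) (f : Module.End ℝ S) :
    Module.End ℂ (Fin n → ℂ) :=
  Matrix.toLin' ((LinearMap.toMatrix b b f).map (algebraMap ℝ ℂ))

theorem Cx_mul {n : ℕ} (b : Module.Basis (Fin n) ℝ S) (f g : Module.End ℝ S) :
    Cx b (f * g) = Cx b f * Cx b g := by
  unfold Cx
  rw [LinearMap.toMatrix_mul, Matrix.map_mul, Matrix.toLin'_mul]
  rfl

theorem Cx_one {n : ℕ} (b : Module.Basis (Fin n) ℝ S) : Cx b 1 = 1 := by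
  unfold Cx
  rw [LinearMap.toMatrix_one, Matrix.map_one _ (map_zero _) (map_one _), Matrix.toLin'_one]
  rfl

/-- real part in a basis -/
noncomputable def RR {n : ℕ} (b : Module.Basis (Fin n) ℝ S) : (Fin n → ℂ) →ₗ[ℝ] S where
  toFun z := ∑ i, (z i).re • b i
  map_add' z w := by
    simp only [Pi.add_apply, Complex.add_re, add_smul, Finset.sum_add_distrib]
  map_smul' c z := by
    simp only [Pi.smul_apply, Complex.real_smul, Complex.re_ofReal_mul, RingHom.id_apply,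
      Finset.smul_sum, smul_smul]

theorem RR_apply {n : ℕ} (b : Module.Basis (Fin n) ℝ S) (z : Fin n → ℂ) :
    RR b z = ∑ i, (z i).re • b i := rfl

theorem RR_Cx {n : ℕ} (b : Module.Basis (Fin n) ℝ S) (f : Module.End ℝ S) (z : Fin n → ℂ) :
    RR b (Cx b f z) = f (RR b z) := by
  have hf : ∀ j, f (b j) = ∑ i, (LinearMap.toMatrix b b f) i j • b i := by
    intro j
    simp only [LinearMap.toMatrix_apply]
    exact (b.sum_repr (f (b j))).symm
  rw [RR_apply, RR_apply, map_sum]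
  simp only [map_smul, hf, Finset.smul_sum, smul_smul]
  rw [Finset.sum_comm]
  refine Finset.sum_congr rfl fun i _ => ?_
  rw [← Finset.sum_smul]
  congr 1
  unfold Cx
  rw [Matrix.toLin'_apply, Matrix.mulVec, dotProduct, Complex.re_sum]
  refine Finset.sum_congr rfl fun j _ => ?_
  rw [Matrix.map_apply, Complex.coe_algebraMap, Complex.re_ofReal_mul, mul_comm]

theorem RR_pow {n : ℕ} (b : Module.Basis (Fin n) ℝ S) (f : Module.End ℝ S) (k : ℕ)
    (z : Fin n → ℂ) : RR b ((Cx b f ^ k) z) = (f ^ k) (RR b z) := by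
  induction k generalizing z with
  | zero => simp
  | succ k ih =>
    rw [pow_succ, pow_succ, Module.End.mul_apply, Module.End.mul_apply, ih, RR_Cx]

theorem RR_G {n : ℕ} (b : Module.Basis (Fin n) ℝ S) (f : Module.End ℝ S) (r : ℝ)
    (z : Fin n → ℂ) (hz : z ∈ G (Cx b f) r) : RR b z ∈ G f r := by
  obtain ⟨C, hC⟩ := mem_G.1 hz
  set R' : (Fin n → ℂ) →L[ℝ] S := LinearMap.toContinuousLinearMap (RR b) with hR'
  refine mem_G.2 ⟨‖R'‖ * C, fun k => ?_⟩
  rw [← RR_pow]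
  calc ‖RR b ((Cx b f ^ k) z)‖ = ‖R' ((Cx b f ^ k) z)‖ := rfl
    _ ≤ ‖R'‖ * ‖(Cx b f ^ k) z‖ := R'.le_opNorm _
    _ ≤ ‖R'‖ * (C * r ^ k) := mul_le_mul_of_nonneg_left (hC k) (norm_nonneg _)
    _ = ‖R'‖ * C * r ^ k := by ring

theorem top_le_real (T T' : Module.End ℝ S) (h1 : T * T' = 1) (h2 : T' * T = 1)
    (ρ : ℝ) (hρ : 0 < ρ) : F T ρ ⊔ K T' ρ hρ = ⊤ := by
  rw [eq_top_iff]
  intro w _
  set b := Module.finBasis ℝ S with hb
  have h := top_le (Cx b T) (Cx b T') (by rw [← Cx_mul, h1, Cx_one]) (by rw [← Cx_mul, h2, Cx_one])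
    ρ hρ
  obtain ⟨f, hf, g, hg, hfg⟩ := Submodule.mem_sup.1
    (h (Submodule.mem_top (x := fun i => ((b.repr w i : ℝ) : ℂ))))
  have hw : w = RR b f + RR b g := by
    rw [← map_add, hfg, RR_apply]
    simp only [Complex.ofReal_re]
    exact (b.sum_repr w).symm
  rw [hw]
  refine Submodule.add_mem_sup ?_ ?_
  · exact mem_F.2 fun r hr => RR_G b T r f (mem_F.1 hf r hr)
  · obtain ⟨r, hr, hg'⟩ := mem_K.1 hg
    exact mem_K.2 ⟨r, hr, RR_G b T' r⁻¹ g hg'⟩

theorem G_unif (T : Module.End ℝ S) (r : ℝ) (hr : 0 < r) :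
    ∃ C : ℝ, ∀ z ∈ G T r, ∀ k : ℕ, ‖(T ^ k) z‖ ≤ C * r ^ k * ‖z‖ := by
  have hS : CompleteSpace (G T r) := FiniteDimensional.complete ℝ _
  set g : ℕ → (G T r) →L[ℝ] S := fun k =>
    LinearMap.toContinuousLinearMap ((r ^ k)⁻¹ • ((T ^ k) ∘ₗ (G T r).subtype)) with hg
  have hg' : ∀ k z, g k z = (r ^ k)⁻¹ • (T ^ k) (z : S) := fun k z => rfl
  obtain ⟨C, hC⟩ := banach_steinhaus (g := g) (by
    intro z
    obtain ⟨C, hC⟩ := mem_G.1 z.2
    refine ⟨C, fun k => ?_⟩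
    rw [hg', norm_smul, Real.norm_of_nonneg (inv_nonneg.2 (pow_nonneg hr.le _)),
      inv_mul_le_iff₀ (pow_pos hr _)]
    linarith [hC k])
  refine ⟨C, fun z hz k => ?_⟩
  have h := (g k).le_of_opNorm_le (hC k) ⟨z, hz⟩
  rw [hg', norm_smul, Real.norm_of_nonneg (inv_nonneg.2 (pow_nonneg hr.le _)),
      inv_mul_le_iff₀ (pow_pos hr _)] at h
  calc ‖(T ^ k) z‖ ≤ r ^ k * (C * ‖(⟨z, hz⟩ : G T r)‖) := h
    _ = C * r ^ k * ‖z‖ := by rw [Submodule.coe_norm]; ring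

theorem disj (T T' : Module.End ℝ S) (h1 : T * T' = 1) (h2 : T' * T = 1)
    (ρ : ℝ) (hρ : 0 < ρ) : Disjoint (F T ρ) (K T' ρ hρ) := by
  rw [Submodule.disjoint_def]
  intro w hF hK
  obtain ⟨r₂, hr₂, hw⟩ := mem_K.1 hK
  obtain ⟨r, hr, hr'⟩ := exists_between hr₂
  have hr0 : 0 < r := hρ.trans hr
  have hr20 : 0 < r₂ := hρ.trans hr₂
  obtain ⟨C1, hC1⟩ := mem_G.1 (mem_F.1 hF r hr)
  obtain ⟨C2, hC2⟩ := G_unif T' r₂⁻¹ (inv_pos.2 hr20)
  have hmem : ∀ k : ℕ, (T ^ k) w ∈ G T' r₂⁻¹ := by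
    intro k
    induction k with
    | zero => simpa using hw
    | succ k ih =>
      rw [pow_succ', Module.End.mul_apply]
      exact G_inv T' T h2 (inv_pos.2 hr20) ih
  have hback : ∀ k : ℕ, (T' ^ k) ((T ^ k) w) = w := by
    intro k
    have hc : Commute T' T := by rw [Commute, SemiconjBy, h1, h2]
    rw [← Module.End.mul_apply, ← hc.mul_pow, h2, one_pow, Module.End.one_apply]
  have hC20 : ∀ k : ℕ, ‖w‖ ≤ |C2| * |C1| * (r / r₂) ^ k := by
    intro k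
    have h3 := hC2 _ (hmem k) k
    rw [hback k] at h3
    have h4 := hC1 k
    calc ‖w‖ ≤ C2 * r₂⁻¹ ^ k * ‖(T ^ k) w‖ := h3
      _ ≤ |C2| * r₂⁻¹ ^ k * (|C1| * r ^ k) := by
        refine mul_le_mul (mul_le_mul_of_nonneg_right (le_abs_self _)
          (pow_nonneg (inv_nonneg.2 hr20.le) _)) (h4.trans (mul_le_mul_of_nonneg_right
          (le_abs_self _) (pow_nonneg hr0.le _))) (norm_nonneg _)
          (mul_nonneg (abs_nonneg _) (pow_nonneg (inv_nonneg.2 hr20.le) _))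
      _ = |C2| * |C1| * (r / r₂) ^ k := by
        rw [div_eq_mul_inv, mul_pow]; ring
  have hlim : Tendsto (fun k : ℕ => |C2| * |C1| * (r / r₂) ^ k) atTop (𝓝 0) := by
    have := (tendsto_pow_atTop_nhds_zero_of_lt_one (div_nonneg hr0.le hr20.le)
      ((div_lt_one hr20).2 hr')).const_mul (|C2| * |C1|)
    simpa using this
  have : ‖w‖ ≤ 0 := ge_of_tendsto' hlim hC20
  exact norm_le_zero_iff.1 this

end real

end ISPr

open ISPr in
theorem pr_SPr : SPr := by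
  intro S _ _ _ T ρ hρ
  set A : Module.End ℝ S := (T : S ≃L[ℝ] S).toLinearEquiv.toLinearMap with hA
  set A' : Module.End ℝ S := (T.symm : S ≃L[ℝ] S).toLinearEquiv.toLinearMap with hA'
  have hAv : ∀ w, A w = T w := fun w => rfl
  have hAv' : ∀ w, A' w = T.symm w := fun w => rfl
  have h1 : A * A' = 1 := by
    ext w; rw [Module.End.mul_apply, hAv, hAv', T.apply_symm_apply, Module.End.one_apply]
  have h2 : A' * A = 1 := by
    ext w; rw [Module.End.mul_apply, hAv, hAv', T.symm_apply_apply, Module.End.one_apply]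
  have hcompl : IsCompl (F A ρ) (K A' ρ hρ) :=
    ⟨disj A A' h1 h2 ρ hρ, codisjoint_iff.2 (top_le_real A A' h1 h2 ρ hρ)⟩
  have hpow : ∀ (k : ℕ) (w : S), (⇑T)^[k] w = (A ^ k) w := fun k w => by
    rw [Module.End.pow_apply]; rfl
  have hpow' : ∀ (k : ℕ) (w : S), (⇑T.symm)^[k] w = (A' ^ k) w := fun k w => by
    rw [Module.End.pow_apply]; rfl
  set P0 : S →ₗ[ℝ] S := (F A ρ).subtype ∘ₗ (F A ρ).projectionOnto (K A' ρ hρ) hcompl with hP0
  have hPF : ∀ w, P0 w ∈ F A ρ := fun w => Submodule.coe_mem _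
  have hPf : ∀ w ∈ F A ρ, P0 w = w := by
    intro w hw
    have := Submodule.projectionOnto_apply_left hcompl ⟨w, hw⟩
    simp only [hP0, LinearMap.comp_apply, Submodule.subtype_apply]
    rw [this]
  have hPk : ∀ w ∈ K A' ρ hρ, P0 w = 0 := by
    intro w hw
    have := (Submodule.projectionOnto_apply_eq_zero_iff hcompl (x := w)).2 hw
    simp only [hP0, LinearMap.comp_apply, Submodule.subtype_apply]
    rw [this]; rfl
  have hdec : ∀ w, w - P0 w ∈ K A' ρ hρ := by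
    intro w
    rw [← Submodule.projectionOnto_apply_eq_zero_iff hcompl, map_sub]
    have := Submodule.projectionOnto_apply_left hcompl
      ((F A ρ).projectionOnto (K A' ρ hρ) hcompl w)
    rw [sub_eq_zero]
    exact this.symm
  have hFinv : ∀ w ∈ F A ρ, A w ∈ F A ρ := fun w hw =>
    mem_F.2 fun r hr => G_self A (mem_F.1 hw r hr)
  have hKinv : ∀ w ∈ K A' ρ hρ, A w ∈ K A' ρ hρ := by
    intro w hw
    obtain ⟨r, hr, h⟩ := mem_K.1 hw
    exact mem_K.2 ⟨r, hr, G_inv A' A h2 (inv_pos.2 (hρ.trans hr)) h⟩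
  refine ⟨LinearMap.toContinuousLinearMap P0, ?_, ?_, ?_, ?_⟩
  · intro w
    exact hPf _ (hPF w)
  · intro w
    change P0 (A w) = A (P0 w)
    have e : A w = A (P0 w) + A (w - P0 w) := by rw [← map_add]; congr 1; abel
    rw [e, map_add, hPf _ (hFinv _ (hPF w)), hPk _ (hKinv _ (hdec w)), add_zero]
  · intro ρ' hρ'
    obtain ⟨C, hC⟩ := G_unif A ρ' (hρ.trans hρ')
    set P1 : S →L[ℝ] S := LinearMap.toContinuousLinearMap P0 with hP1
    refine ⟨|C| * ‖P1‖, fun k w => ?_⟩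
    rw [hpow]
    have h3 := hC (P0 w) (mem_F.1 (hPF w) ρ' hρ') k
    have h4 : ‖P0 w‖ ≤ ‖P1‖ * ‖w‖ := P1.le_opNorm w
    calc ‖(A ^ k) (P1 w)‖ ≤ C * ρ' ^ k * ‖P0 w‖ := h3
      _ ≤ |C| * ρ' ^ k * (‖P1‖ * ‖w‖) :=
        mul_le_mul (mul_le_mul_of_nonneg_right (le_abs_self _) (pow_nonneg (hρ.trans hρ').le _))
          h4 (norm_nonneg _) (mul_nonneg (abs_nonneg _) (pow_nonneg (hρ.trans hρ').le _))
      _ = |C| * ‖P1‖ * ρ' ^ k * ‖w‖ := by ring
  · obtain ⟨r, hr, hK⟩ := uniK A' ρ hρ (IsNoetherian.noetherian _)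
    have hr0 : 0 < r := hρ.trans hr
    obtain ⟨C, hC⟩ := G_unif A' r⁻¹ (inv_pos.2 hr0)
    set P1 : S →L[ℝ] S := LinearMap.toContinuousLinearMap P0 with hP1
    refine ⟨r, |C| * (1 + ‖P1‖), hr, fun k w => ?_⟩
    rw [hpow']
    have h3 := hC (w - P0 w) (hK (hdec w)) k
    have h4 : ‖P0 w‖ ≤ ‖P1‖ * ‖w‖ := P1.le_opNorm w
    have h5 : ‖w - P0 w‖ ≤ (1 + ‖P1‖) * ‖w‖ := by
      calc ‖w - P0 w‖ ≤ ‖w‖ + ‖P0 w‖ := norm_sub_le _ _
        _ ≤ (1 + ‖P1‖) * ‖w‖ := by linarith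
    calc ‖(A' ^ k) (w - P1 w)‖ ≤ C * r⁻¹ ^ k * ‖w - P0 w‖ := h3
      _ ≤ |C| * r⁻¹ ^ k * ((1 + ‖P1‖) * ‖w‖) :=
        mul_le_mul (mul_le_mul_of_nonneg_right (le_abs_self _)
          (pow_nonneg (inv_nonneg.2 hr0.le) _))
          h5 (norm_nonneg _) (mul_nonneg (abs_nonneg _) (pow_nonneg (inv_nonneg.2 hr0.le) _))
      _ = |C| * (1 + ‖P1‖) * r⁻¹ ^ k * ‖w‖ := by ring

end Pool.Agent.LX
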