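import Pool.Agent.Work.MP_25cd3b_gt.LX.StmtsV

set_option autoImplicit false

open MeasureTheory Set Filter Topology
open scoped ContDiff ENNReal

namespace Pool.Agent.LX

namespace ISRr

theorem pw {S : Type} [NormedAddCommGroup S] [NormedSpace ℝ S] (T : S ≃L[ℝ] S) (k : ℕ) :
    ∃ G : S →L[ℝ] S, ∀ w, G w = (⇑T)^[k] w := by
  induction k with
  | zero => exact ⟨ContinuousLinearMap.id ℝ S, fun w => rfl⟩
  | succ k ih =>
    obtain ⟨G, hG⟩ := ih
    refine ⟨G.comp (T : S →L[ℝ] S), fun w => ?_⟩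
    rw [Function.iterate_succ_apply, ← hG]
    rfl

theorem unif {S : Type} [NormedAddCommGroup S] [NormedSpace ℝ S] [FiniteDimensional ℝ S]
    (T : S ≃L[ℝ] S) (P : S →L[ℝ] S) (r : ℝ)
    (h : ∀ w, ∃ C : ℝ, ∀ k : ℕ, ‖(⇑T)^[k] (P w)‖ ≤ C * Real.exp (r * k)) :
    ∃ C : ℝ, ∀ (k : ℕ) (w : S), ‖(⇑T)^[k] (P w)‖ ≤ C * Real.exp (r * k) * ‖w‖ := by
  have : CompleteSpace S := FiniteDimensional.complete ℝ S
  choose G hG using fun k => pw T k
  have hb := banach_steinhaus (g := fun k : ℕ => Real.exp (-(r * k)) • ((G k).comp P))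
    (by
      intro w
      obtain ⟨C, hC⟩ := h w
      refine ⟨C, fun k => ?_⟩
      have e1 : ((Real.exp (-(r * k)) • ((G k).comp P) : S →L[ℝ] S)) w =
          Real.exp (-(r * k)) • ((⇑T)^[k] (P w)) := by
        rw [← hG]; rfl
      rw [e1, norm_smul, Real.norm_eq_abs, abs_of_pos (Real.exp_pos _)]
      calc Real.exp (-(r * k)) * ‖(⇑T)^[k] (P w)‖
          ≤ Real.exp (-(r * k)) * (C * Real.exp (r * k)) :=
            mul_le_mul_of_nonneg_left (hC k) (Real.exp_pos _).le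
        _ = C * (Real.exp (-(r * k)) * Real.exp (r * k)) := by ring
        _ = C := by rw [← Real.exp_add]; simp)
  obtain ⟨C, hC⟩ := hb
  refine ⟨C, fun k w => ?_⟩
  have e1 : ((Real.exp (-(r * k)) • ((G k).comp P) : S →L[ℝ] S)) w =
      Real.exp (-(r * k)) • ((⇑T)^[k] (P w)) := by
    rw [← hG]; rfl
  have e2 := (Real.exp (-(r * k)) • ((G k).comp P) : S →L[ℝ] S).le_opNorm w
  rw [e1, norm_smul, Real.norm_eq_abs, abs_of_pos (Real.exp_pos _)] at e2
  have e3 : Real.exp (-(r * k)) * ‖(⇑T)^[k] (P w)‖ ≤ C * ‖w‖ :=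
    e2.trans (mul_le_mul_of_nonneg_right (hC k) (norm_nonneg _))
  have e4 : Real.exp (r * k) * Real.exp (-(r * k)) = 1 := by rw [← Real.exp_add]; simp
  calc ‖(⇑T)^[k] (P w)‖ = Real.exp (r * k) * (Real.exp (-(r * k)) * ‖(⇑T)^[k] (P w)‖) := by
        rw [← mul_assoc, e4, one_mul]
    _ ≤ Real.exp (r * k) * (C * ‖w‖) := mul_le_mul_of_nonneg_left e3 (Real.exp_pos _).le
    _ = C * Real.exp (r * k) * ‖w‖ := by ring

end ISRr

theorem pr_SRr : SRr := by
  intro V _ _ _ H T s q t₁ t Ps P B Bu h r hr1 hr2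
  have hb2 : ∃ C : ℝ, ∀ (k : ℕ) (w : V × V), ‖(⇑T)^[k] (P w)‖ ≤ C * Real.exp (r * k) * ‖w‖ := by
    refine ISRr.unif T P r (fun w => ?_)
    exact ((h.slw (P w)).mp (h.spl.ip w)).2 r hr1
  exact
    { tr := h.tr
      spl :=
        { is := h.spl.is
          ip := h.spl.ip
          sp := h.spl.sp
          ps := h.spl.ps
          cs := h.spl.cs
          cp := h.spl.cp
          bs := h.spl.bs
          b1 := h.spl.b1
          b2 := hb2
          bu := h.spl.bu }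
      s_pos := h.s_pos
      lt1 := hr1
      lt2 := hr2
      slw := h.slw
      gs := h.gs
      gu := h.gu
      ks := h.ks
      ku := h.ku }

end Pool.Agent.LX
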