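import Pool.Agent.Work.MP_25cd3b_gt.LX.StmtsZ

set_option autoImplicit false

open Set Filter Topology
open scoped ContDiff

namespace Pool.Agent.LX

namespace ISSp

variable {S : Type} [NormedAddCommGroup S] [NormedSpace ℝ S]

theorem comm_iter (T : S ≃L[ℝ] S) (F : S →L[ℝ] S) (h : ∀ w, F (T w) = T (F w)) (k : ℕ) (w : S) :
    F ((⇑T)^[k] w) = (⇑T)^[k] (F w) := by
  induction k generalizing w with
  | zero => rfl
  | succ n ih => rw [Function.iterate_succ_apply, Function.iterate_succ_apply, ih, h]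

theorem comm_symm (T : S ≃L[ℝ] S) (F : S →L[ℝ] S) (h : ∀ w, F (T w) = T (F w)) (w : S) :
    F (T.symm w) = T.symm (F w) := by
  have h1 := h (T.symm w)
  rw [T.apply_symm_apply] at h1
  rw [h1, T.symm_apply_apply]

theorem iter_symm (T : S ≃L[ℝ] S) (k : ℕ) (w : S) : (⇑T)^[k] ((⇑T.symm)^[k] w) = w :=
  (Function.RightInverse.iterate (f := ⇑T) (g := ⇑T.symm) (fun x => T.apply_symm_apply x) k) w

theorem symm_iter (T : S ≃L[ℝ] S) (k : ℕ) (w : S) : (⇑T.symm)^[k] ((⇑T)^[k] w) = w :=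
  (Function.LeftInverse.iterate (f := ⇑T) (g := ⇑T.symm) (fun x => T.symm_apply_apply x) k) w

omit [NormedSpace ℝ S] in
/-- a vector whose norm is at most `A * r ^ k` for all `k`, `0 ≤ r < 1`, is zero -/
theorem eq_zero_of_geom (w : S) (A r : ℝ) (hr0 : 0 ≤ r) (hr1 : r < 1)
    (h : ∀ k : ℕ, ‖w‖ ≤ A * r ^ k) : w = 0 := by
  have h1 : Tendsto (fun k : ℕ => A * r ^ k) atTop (𝓝 (A * 0)) :=
    (tendsto_pow_atTop_nhds_zero_of_lt_one hr0 hr1).const_mul A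
  have h2 : ‖w‖ ≤ A * 0 := ge_of_tendsto' h1 h
  rw [mul_zero] at h2
  exact norm_le_zero_iff.1 h2

/-- slow forward orbits belong to the range of `Pr` -/
theorem fix_of_growth (T : S ≃L[ℝ] S) (Pr : S →L[ℝ] S) (hc : ∀ w, Pr (T w) = T (Pr w))
    (ρ₂ C₂ : ℝ) (hρ₂ : 0 < ρ₂)
    (hlo : ∀ (k : ℕ) (w : S), ‖(⇑T.symm)^[k] (w - Pr w)‖ ≤ C₂ * ρ₂⁻¹ ^ k * ‖w‖)
    (w : S) (ρ' C : ℝ) (hρ' : 0 ≤ ρ') (hlt : ρ' < ρ₂) (hw : ∀ k : ℕ, ‖(⇑T)^[k] w‖ ≤ C * ρ' ^ k) :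
    Pr w = w := by
  have key : w - Pr w = 0 := by
    refine eq_zero_of_geom (w - Pr w) (|C₂| * C) (ρ' / ρ₂) (div_nonneg hρ' hρ₂.le)
      ((div_lt_one hρ₂).2 hlt) ?_
    intro k
    have e1 : (⇑T)^[k] w - Pr ((⇑T)^[k] w) = (⇑T)^[k] (w - Pr w) := by
      rw [comm_iter T Pr hc k w, iterate_map_sub]
    have e2 := hlo k ((⇑T)^[k] w)
    rw [e1, symm_iter] at e2
    have hinv : 0 ≤ ρ₂⁻¹ ^ k := pow_nonneg (inv_nonneg.2 hρ₂.le) k
    calc ‖w - Pr w‖ ≤ C₂ * ρ₂⁻¹ ^ k * ‖(⇑T)^[k] w‖ := e2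
      _ ≤ |C₂| * ρ₂⁻¹ ^ k * ‖(⇑T)^[k] w‖ :=
          mul_le_mul_of_nonneg_right (mul_le_mul_of_nonneg_right (le_abs_self _) hinv)
            (norm_nonneg _)
      _ ≤ |C₂| * ρ₂⁻¹ ^ k * (C * ρ' ^ k) :=
          mul_le_mul_of_nonneg_left (hw k) (mul_nonneg (abs_nonneg _) hinv)
      _ = |C₂| * C * (ρ' / ρ₂) ^ k := by
          rw [div_eq_mul_inv, mul_pow]; ring
  exact (sub_eq_zero.1 key).symm

/-- bounded backward orbits are killed by `Ps` -/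
theorem kill_of_bdd (T : S ≃L[ℝ] S) (Ps : S →L[ℝ] S) (hc : ∀ w, Ps (T w) = T (Ps w))
    (s C : ℝ) (hs : 0 < s)
    (hb : ∀ (k : ℕ) (w : S), ‖(⇑T)^[k] (Ps w)‖ ≤ C * Real.exp (-(s * k)) * ‖w‖)
    (w : S) (C' : ℝ) (hw : ∀ k : ℕ, ‖(⇑T.symm)^[k] w‖ ≤ C') : Ps w = 0 := by
  have hC' : 0 ≤ C' := (norm_nonneg _).trans (hw 0)
  refine eq_zero_of_geom (Ps w) (|C| * C') (Real.exp (-s)) (Real.exp_pos _).le
    (Real.exp_lt_one_iff.2 (by linarith)) ?_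
  intro k
  have e1 : (⇑T)^[k] (Ps ((⇑T.symm)^[k] w)) = Ps w := by
    rw [← comm_iter T Ps hc k, iter_symm]
  have e2 := hb k ((⇑T.symm)^[k] w)
  rw [e1] at e2
  have e3 : Real.exp (-(s * k)) = Real.exp (-s) ^ k := by
    rw [← Real.exp_nat_mul]; congr 1; ring
  calc ‖Ps w‖ ≤ C * Real.exp (-(s * k)) * ‖(⇑T.symm)^[k] w‖ := e2
    _ ≤ |C| * Real.exp (-(s * k)) * ‖(⇑T.symm)^[k] w‖ :=
        mul_le_mul_of_nonneg_right
          (mul_le_mul_of_nonneg_right (le_abs_self _) (Real.exp_pos _).le) (norm_nonneg _)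
    _ ≤ |C| * Real.exp (-(s * k)) * C' :=
        mul_le_mul_of_nonneg_left (hw k) (mul_nonneg (abs_nonneg _) (Real.exp_pos _).le)
    _ = |C| * C' * Real.exp (-s) ^ k := by rw [e3]; ring

end ISSp

open ISSp

theorem pr_SSp (h1 : STr) (h2 : SHs) (h3 : SPr) : SSp := by
  intro V _ _ _ lam s q ε H hlam hpos htws hgr hs hq hε
  obtain ⟨T, hT⟩ := h1 V lam H hpos htws
  obtain ⟨Ps, B, Bu, C₁, hi, hcs, hbs, hbu, hgs, hgu, hks, hku⟩ :=
    h2 V lam s H T hlam hpos hT hgr hs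
  obtain ⟨Pr, hPr⟩ := h3 (V × V) T (Real.exp q) (Real.exp_pos q)
  obtain ⟨ρ₂, C₂, hρlt, hlo⟩ := hPr.lo
  have hρ₂ : 0 < ρ₂ := (Real.exp_pos q).trans hρlt
  have hqlog : q < Real.log ρ₂ := (Real.lt_log_iff_exp_lt hρ₂).2 hρlt
  have h1ρ : (1 : ℝ) < ρ₂ := lt_of_le_of_lt (Real.one_le_exp hq) hρlt
  set t : ℝ := min (q + ε / 2) (Real.log ρ₂) with ht
  have htq : q < t := lt_min (by linarith) hqlog
  have hte : t ≤ q + ε / 2 := min_le_left _ _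
  have htl : t ≤ Real.log ρ₂ := min_le_right _ _
  set t₁ : ℝ := (q + t) / 2 with ht₁
  have hq1 : q < t₁ := by rw [ht₁]; linarith
  have h1t : t₁ < t := by rw [ht₁]; linarith
  -- facts
  have F2 : ∀ w, Pr (Ps w) = Ps w := by
    intro w
    refine fix_of_growth T Pr hPr.comm ρ₂ C₂ hρ₂ hlo (Ps w) 1 (|C₁| * ‖w‖) zero_le_one h1ρ ?_
    intro k
    have e1 : Real.exp (-(s * k)) ≤ 1 := by
      apply Real.exp_le_one_iff.2
      have : 0 ≤ s * (k : ℝ) := mul_nonneg hs.le (Nat.cast_nonneg k)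
      linarith
    calc ‖(⇑T)^[k] (Ps w)‖ ≤ C₁ * Real.exp (-(s * k)) * ‖w‖ := hbs k w
      _ ≤ |C₁| * Real.exp (-(s * k)) * ‖w‖ :=
          mul_le_mul_of_nonneg_right
            (mul_le_mul_of_nonneg_right (le_abs_self _) (Real.exp_pos _).le) (norm_nonneg _)
      _ ≤ |C₁| * 1 * ‖w‖ :=
          mul_le_mul_of_nonneg_right (mul_le_mul_of_nonneg_left e1 (abs_nonneg _))
            (norm_nonneg _)
      _ = |C₁| * ‖w‖ * 1 ^ k := by rw [one_pow]; ring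
  have F3 : ∀ w, ∀ k : ℕ, ‖(⇑T.symm)^[k] (w - Pr w)‖ ≤ |C₂| * ‖w‖ := by
    intro w k
    have hinv0 : 0 ≤ ρ₂⁻¹ ^ k := pow_nonneg (inv_nonneg.2 hρ₂.le) k
    have hinv1 : ρ₂⁻¹ ^ k ≤ 1 :=
      pow_le_one₀ (inv_nonneg.2 hρ₂.le) (inv_le_one_of_one_le₀ h1ρ.le)
    calc ‖(⇑T.symm)^[k] (w - Pr w)‖ ≤ C₂ * ρ₂⁻¹ ^ k * ‖w‖ := hlo k w
      _ ≤ |C₂| * ρ₂⁻¹ ^ k * ‖w‖ :=
          mul_le_mul_of_nonneg_right (mul_le_mul_of_nonneg_right (le_abs_self _) hinv0)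
            (norm_nonneg _)
      _ ≤ |C₂| * 1 * ‖w‖ :=
          mul_le_mul_of_nonneg_right (mul_le_mul_of_nonneg_left hinv1 (abs_nonneg _))
            (norm_nonneg _)
      _ = |C₂| * ‖w‖ := by ring
  have F5 : ∀ w, Ps (Pr w) = Ps w := by
    intro w
    have e1 : Ps (w - Pr w) = 0 :=
      kill_of_bdd T Ps hcs s C₁ hs hbs (w - Pr w) (|C₂| * ‖w‖) (F3 w)
    rw [map_sub, sub_eq_zero] at e1
    exact e1.symm
  have hP : ∀ w, (Pr - Ps) w = Pr w - Ps w := fun w => rfl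
  have FP : ∀ w, Pr (Pr w - Ps w) = Pr w - Ps w := by
    intro w
    rw [map_sub, hPr.idem, F2]
  have FS : ∀ w, Ps (Pr w - Ps w) = 0 := by
    intro w
    rw [map_sub, F5, hi, sub_self]
  have hexpk : ∀ (x : ℝ) (k : ℕ), Real.exp x ^ k = Real.exp (x * k) := by
    intro x k
    rw [← Real.exp_nat_mul]; congr 1; ring
  have hspl : Spl T s t₁ t Ps (Pr - Ps) := by
    refine ⟨hi, ?_, ?_, ?_, hcs, ?_, ⟨C₁, hbs⟩, ?_, ?_, ?_⟩
    · intro w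
      rw [hP, hP, FP, FS, sub_zero]
    · intro w
      rw [hP, FS]
    · intro w
      rw [hP, F2, hi, sub_self]
    · intro w
      rw [hP, hP, hPr.comm, hcs, map_sub]
    · refine ⟨|C₁| * ‖Pr - Ps‖, fun k w => ?_⟩
      have e1 := hbu k ((Pr - Ps) w)
      rw [hP, FS, sub_zero] at e1
      calc ‖(⇑T.symm)^[k] ((Pr - Ps) w)‖ ≤ C₁ * Real.exp (-(s * k)) * ‖Pr w - Ps w‖ := e1
        _ ≤ |C₁| * Real.exp (-(s * k)) * ‖Pr w - Ps w‖ :=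
            mul_le_mul_of_nonneg_right
              (mul_le_mul_of_nonneg_right (le_abs_self _) (Real.exp_pos _).le) (norm_nonneg _)
        _ ≤ |C₁| * Real.exp (-(s * k)) * (‖Pr - Ps‖ * ‖w‖) :=
            mul_le_mul_of_nonneg_left ((Pr - Ps).le_opNorm w)
              (mul_nonneg (abs_nonneg _) (Real.exp_pos _).le)
        _ = |C₁| * ‖Pr - Ps‖ * Real.exp (-(s * k)) * ‖w‖ := by ring
    · obtain ⟨C₃, hC₃⟩ := hPr.up (Real.exp t₁) (Real.exp_lt_exp.2 hq1)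
      refine ⟨|C₃| * ‖Pr - Ps‖, fun k w => ?_⟩
      have e1 := hC₃ k (Pr w - Ps w)
      rw [FP, hexpk] at e1
      calc ‖(⇑T)^[k] ((Pr - Ps) w)‖ ≤ C₃ * Real.exp (t₁ * k) * ‖Pr w - Ps w‖ := e1
        _ ≤ |C₃| * Real.exp (t₁ * k) * ‖Pr w - Ps w‖ :=
            mul_le_mul_of_nonneg_right
              (mul_le_mul_of_nonneg_right (le_abs_self _) (Real.exp_pos _).le) (norm_nonneg _)
        _ ≤ |C₃| * Real.exp (t₁ * k) * (‖Pr - Ps‖ * ‖w‖) :=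
            mul_le_mul_of_nonneg_left ((Pr - Ps).le_opNorm w)
              (mul_nonneg (abs_nonneg _) (Real.exp_pos _).le)
        _ = |C₃| * ‖Pr - Ps‖ * Real.exp (t₁ * k) * ‖w‖ := by ring
    · refine ⟨|C₂|, fun k w => ?_⟩
      have e1 : w - Ps w - (Pr - Ps) w = w - Pr w := by rw [hP]; abel
      have hinv0 : 0 ≤ ρ₂⁻¹ ^ k := pow_nonneg (inv_nonneg.2 hρ₂.le) k
      have e2 : ρ₂⁻¹ ^ k ≤ Real.exp (-(t * k)) := by
        have e3 : ρ₂⁻¹ ≤ Real.exp (-t) := by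
          rw [Real.exp_neg]
          exact inv_anti₀ (Real.exp_pos t) ((Real.le_log_iff_exp_le hρ₂).1 htl)
        calc ρ₂⁻¹ ^ k ≤ Real.exp (-t) ^ k := pow_le_pow_left₀ (inv_nonneg.2 hρ₂.le) e3 k
          _ = Real.exp (-(t * k)) := by rw [hexpk]; congr 1; ring
      rw [e1]
      calc ‖(⇑T.symm)^[k] (w - Pr w)‖ ≤ C₂ * ρ₂⁻¹ ^ k * ‖w‖ := hlo k w
        _ ≤ |C₂| * ρ₂⁻¹ ^ k * ‖w‖ :=
            mul_le_mul_of_nonneg_right (mul_le_mul_of_nonneg_right (le_abs_self _) hinv0)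
              (norm_nonneg _)
        _ ≤ |C₂| * Real.exp (-(t * k)) * ‖w‖ :=
            mul_le_mul_of_nonneg_right (mul_le_mul_of_nonneg_left e2 (abs_nonneg _))
              (norm_nonneg _)
  refine ⟨t₁, t, T, Ps, Pr - Ps, B, Bu, by linarith, hT, hspl, hs, hq1, h1t, ?_, hgs, hgu, hks,
    hku⟩
  intro w
  constructor
  · intro hw
    have hPw : Pr w = w := by
      have e1 := FP w
      have e2 : Pr w - Ps w = w := hw
      rw [e2] at e1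
      exact e1
    refine ⟨?_, ?_⟩
    · obtain ⟨C₃, hC₃⟩ := hspl.b1
      refine ⟨|C₃| * ‖w‖, fun k => ?_⟩
      have e1 := hC₃ k w
      rw [hw] at e1
      have e4 : Real.exp (-(s * k)) ≤ 1 := by
        apply Real.exp_le_one_iff.2
        have : 0 ≤ s * (k : ℝ) := mul_nonneg hs.le (Nat.cast_nonneg k)
        linarith
      calc ‖(⇑T.symm)^[k] w‖ ≤ C₃ * Real.exp (-(s * k)) * ‖w‖ := e1
        _ ≤ |C₃| * Real.exp (-(s * k)) * ‖w‖ :=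
            mul_le_mul_of_nonneg_right
              (mul_le_mul_of_nonneg_right (le_abs_self _) (Real.exp_pos _).le) (norm_nonneg _)
        _ ≤ |C₃| * 1 * ‖w‖ :=
            mul_le_mul_of_nonneg_right (mul_le_mul_of_nonneg_left e4 (abs_nonneg _))
              (norm_nonneg _)
        _ = |C₃| * ‖w‖ := by ring
    · intro q' hq'
      obtain ⟨C₃, hC₃⟩ := hPr.up (Real.exp q') (Real.exp_lt_exp.2 hq')
      refine ⟨C₃ * ‖w‖, fun k => ?_⟩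
      have e1 := hC₃ k w
      rw [hPw, hexpk] at e1
      calc ‖(⇑T)^[k] w‖ ≤ C₃ * Real.exp (q' * k) * ‖w‖ := e1
        _ = C₃ * ‖w‖ * Real.exp (q' * k) := by ring
  · rintro ⟨⟨C', hC'⟩, hg⟩
    have e1 : Ps w = 0 := kill_of_bdd T Ps hcs s C₁ hs hbs w C' hC'
    obtain ⟨C₃, hC₃⟩ := hg t₁ hq1
    have e2 : Pr w = w := by
      refine fix_of_growth T Pr hPr.comm ρ₂ C₂ hρ₂ hlo w (Real.exp t₁) C₃ (Real.exp_pos _).le
        ((Real.lt_log_iff_exp_lt hρ₂).1 (lt_of_lt_of_le h1t htl)) ?_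
      intro k
      rw [hexpk]
      exact hC₃ k
    rw [hP, e1, e2, sub_zero]

end Pool.Agent.LX
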