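import Pool.Agent.Work.MP_25cd3b_gt.LX.StmtsZ

set_option autoImplicit false

/-!
# MP_25cd3b_gt, block LX, item STr: the transfer map of a linear chain
-/

namespace Pool.Agent.LX

namespace ISTr

variable {V : Type} [NormedAddCommGroup V] [NormedSpace ℝ V]

/-- the twist form as a linear map to the dual -/
noncomputable def J (H : Bf V) : V →ₗ[ℝ] Module.Dual ℝ V :=
  LinearMap.mk₂ ℝ (fun c w => H (0, c) (w, 0))
    (fun c c' w => by
      have : ((0, c + c') : V × V) = (0, c) + (0, c') := by simp
      rw [this, map_add, add_apply])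
    (fun r c w => by
      have : ((0, r • c) : V × V) = r • (0, c) := by simp
      rw [this, map_smul, smul_apply])
    (fun c w w' => by
      have : ((w + w', 0) : V × V) = (w, 0) + (w', 0) := by simp
      rw [this, map_add])
    (fun r c w => by
      have : ((r • w, 0) : V × V) = r • (w, 0) := by simp
      rw [this, map_smul])

theorem J_apply (H : Bf V) (c w : V) : J H c w = H (0, c) (w, 0) := rfl

/-- the right side -/
noncomputable def R (H : Bf V) : V × V →ₗ[ℝ] Module.Dual ℝ V :=
  LinearMap.mk₂ ℝ (fun p w => -H p (0, w) - H (p.2, 0) (w, 0))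
    (fun p p' w => by
      have : (((p + p').2, 0) : V × V) = (p.2, 0) + (p'.2, 0) := by simp
      rw [this, map_add, map_add, add_apply, add_apply]
      ring)
    (fun r p w => by
      have : (((r • p).2, 0) : V × V) = r • (p.2, 0) := by simp
      rw [this, map_smul, map_smul, smul_apply,
        smul_apply, smul_eq_mul, smul_eq_mul, smul_eq_mul]
      ring)
    (fun p w w' => by
      have h1 : ((0, w + w') : V × V) = (0, w) + (0, w') := by simp
      have h2 : ((w + w', 0) : V × V) = (w, 0) + (w', 0) := by simp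
      rw [h1, h2, map_add, map_add]
      ring)
    (fun r p w => by
      have h1 : ((0, r • w) : V × V) = r • (0, w) := by simp
      have h2 : ((r • w, 0) : V × V) = r • (w, 0) := by simp
      rw [h1, h2, map_smul, map_smul, smul_eq_mul, smul_eq_mul, smul_eq_mul]
      ring)

theorem Rr_apply (H : Bf V) (p : V × V) (w : V) :
    R H p w = -H p (0, w) - H (p.2, 0) (w, 0) := rfl

theorem J_inj {H : Bf V} (hT : Tws H) : Function.Injective (J H) := by
  rw [injective_iff_map_eq_zero]
  intro c hc
  apply hT
  intro w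
  have := LinearMap.congr_fun hc w
  rwa [J_apply, LinearMap.zero_apply] at this

end ISTr

open ISTr in
theorem pr_STr : STr := by
  intro V _ _ _ lam H hP hT
  let Je : V ≃ₗ[ℝ] Module.Dual ℝ V :=
    LinearMap.linearEquivOfInjective (J H) (J_inj hT) Subspace.dual_finrank_eq.symm
  have hJe : ∀ c w, Je c w = H (0, c) (w, 0) := fun c w => rfl
  let T0 : V × V →ₗ[ℝ] V × V :=
    LinearMap.prod (LinearMap.snd ℝ V V) (Je.symm.toLinearMap ∘ₗ R H)
  have hT1 : ∀ p, (T0 p).1 = p.2 := fun p => rfl
  have hT2 : ∀ p, Je (T0 p).2 = R H p := fun p => Je.apply_symm_apply _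
  have hinj : Function.Injective T0 := by
    rw [injective_iff_map_eq_zero]
    rintro ⟨a, b⟩ h
    have hb : b = 0 := by
      have := hT1 (a, b)
      rw [h] at this
      exact this.symm
    have hc : R H (a, b) = 0 := by
      rw [← hT2, h]
      exact map_zero Je
    have ha : ∀ w, H (0, w) (a, 0) = 0 := by
      intro w
      have h1 := LinearMap.congr_fun hc w
      rw [ISTr.Rr_apply, LinearMap.zero_apply, hb] at h1
      have h2 : H ((0 : V), (0 : V)) (w, 0) = 0 := by
        have : ((0 : V), (0 : V)) = 0 := rfl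
        rw [this, map_zero, ContinuousLinearMap.zero_apply]
      rw [h2] at h1
      rw [hP.symm]
      linarith
    have ha' : ∀ φ : Module.Dual ℝ V, φ a = 0 := by
      intro φ
      have := hJe (Je.symm φ) a
      rw [Je.apply_symm_apply] at this
      rw [this]
      exact ha _
    have : a = 0 := (Module.forall_dual_apply_eq_zero_iff ℝ a).1 ha'
    rw [this, hb]
    rfl
  let e : (V × V) ≃ₗ[ℝ] (V × V) := LinearEquiv.ofInjectiveEndo T0 hinj
  refine ⟨e.toContinuousLinearEquiv, fun a b => ⟨rfl, fun w => ?_⟩⟩
  have h1 : Je (T0 (a, b)).2 w = R H (a, b) w := LinearMap.congr_fun (hT2 (a, b)) w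
  rw [hJe, ISTr.Rr_apply] at h1
  have h2 : (e.toContinuousLinearEquiv (a, b)).2 = (T0 (a, b)).2 := rfl
  rw [h2]
  have h3 : ((b, (T0 (a, b)).2) : V × V) = (b, 0) + (0, (T0 (a, b)).2) := by simp
  rw [h3, map_add, add_apply, h1]
  ring

end Pool.Agent.LX
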