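import Pool.Agent.Work.MP_25cd3b_gt.LX.StmtsV
import Pool.Agent.Work.MP_25cd3b_gt.M.I_Gd

set_option autoImplicit false

/-!
# MP_25cd3b_gt, block LX, item VCon: conjugacy of the slow parts (assembly)
-/

open MeasureTheory Set Filter Topology
open scoped ContDiff ENNReal
open Pool.Agent.Work.MP_c9f990_an.Al (IsFlow)

namespace Pool.Agent.LX

open Pool.Agent.MLS Pool.Agent.STR Pool.Agent.LR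

namespace IVCon

variable {n : ℕ} {G : Type} [Group G] [MulAction G (E n)]

theorem fwMono {g : Form n} {φ : ℝ → W n → W n} {a : G} {c : ℝ → E n} {l : ℝ}
    {V : Submodule ℝ (E n)} {ρ ρ' : ℝ} {α : ℝ → E n} {p : ℕ → V} (h : Fw g φ a c l V ρ α p)
    (hρ : ρ ≤ ρ') : Fw g φ a c l V ρ' α p where
  ug := h.ug
  as := h.as
  near := fun t ht => (h.near t ht).trans hρ
  ch := ⟨fun j => (h.ch.small j).trans hρ, h.ch.el⟩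
  st := by
    obtain ⟨a₀, h1, h2⟩ := h.st
    exact ⟨a₀, h1.trans hρ, h2⟩

theorem bwMono {g : Form n} {φ : ℝ → W n → W n} {a : G} {c : ℝ → E n} {l : ℝ}
    {V : Submodule ℝ (E n)} {ρ ρ' : ℝ} {α : ℝ → E n} {p : ℕ → V} (h : Bw g φ a c l V ρ α p)
    (hρ : ρ ≤ ρ') : Bw g φ a c l V ρ' α p where
  ug := h.ug
  as := h.as
  near := fun t ht => (h.near t ht).trans hρ
  ch := ⟨fun j => (h.ch.small j).trans hρ, h.ch.el⟩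
  st := by
    obtain ⟨a₀, h1, h2⟩ := h.st
    exact ⟨a₀, h1.trans hρ, h2⟩

/-- forward pairs starting from the first metric -/
theorem fwd (h2 : VEx) (h3 : VGv) (h6 : RT1) {g1 g2 : Form n} {κ κ₁ κ₂ : ℝ}
    {φ₁ φ₂ : ℝ → W n → W n} {M₁ M₂ : ℝ → W n → W n →L[ℝ] W n} {lg₁ lg₂ : E n → E n → E n} {a : G}
    {c₁ c₂ : ℝ → E n} {l D : ℝ} {V₁ V₂ : Submodule ℝ (E n)}
    (hp₁ : Per n G g1 κ₁ φ₁ M₁ lg₁ a c₁ l V₁) (hp₂ : Per n G g2 κ₂ φ₂ M₂ lg₂ a c₂ l V₂)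
    (hD : Pr2 n G g1 g2 κ a c₁ c₂ l D) : ∃ C : ℝ, ∀ ρ₁ ρ₂ : ℝ, 0 < ρ₁ → 0 < ρ₂ →
    ∃ ρ₀ : ℝ, 0 < ρ₀ ∧ ∀ x : V₁, ‖x‖ ≤ ρ₀ → ∃ (α : ℝ → E n) (p : ℕ → V₁) (α2 : ℝ → E n)
      (p2 : ℕ → V₂), Fw g1 φ₁ a c₁ l V₁ ρ₁ α p ∧ Fw g2 φ₂ a c₂ l V₂ ρ₂ α2 p2 ∧
      (∀ t, gd g2 (α t) (α2 t) ≤ C) ∧ p 0 = x := by
  obtain ⟨C, hC⟩ := h6 n G g1 g2 κ a c₁ c₂ l D hD
  refine ⟨C, ?_⟩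
  intro ρ₁ ρ₂ hρ₁ hρ₂
  obtain ⟨ρv, hρv, hv, -⟩ := h3 n G g2 κ₂ φ₂ M₂ lg₂ a c₂ l V₂ hp₂ ρ₂ hρ₂
  obtain ⟨ρR, hρR, hR⟩ := hC ρv hρv
  obtain ⟨ρ₀, hρ₀, hE, -⟩ := h2 n G g1 κ₁ φ₁ M₁ lg₁ a c₁ l V₁ hp₁ (min ρ₁ ρR) (lt_min hρ₁ hρR)
  refine ⟨ρ₀, hρ₀, ?_⟩
  intro x hx
  obtain ⟨α, p, hα, hp0⟩ := hE x hx
  obtain ⟨α2, u2, as2, near2, bdd2⟩ := hR α hα.ug
    (fun t ht => (hα.near t ht).trans (min_le_right _ _))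
  obtain ⟨p2, hp2⟩ := hv α2 u2 as2 near2
  exact ⟨α, p, α2, p2, fwMono hα (min_le_left _ _), hp2, bdd2, hp0⟩

/-- backward pairs starting from the first metric -/
theorem bwd (h2 : VEx) (h3 : VGv) (h7 : RT2) {g1 g2 : Form n} {κ κ₁ κ₂ : ℝ}
    {φ₁ φ₂ : ℝ → W n → W n} {M₁ M₂ : ℝ → W n → W n →L[ℝ] W n} {lg₁ lg₂ : E n → E n → E n} {a : G}
    {c₁ c₂ : ℝ → E n} {l D : ℝ} {V₁ V₂ : Submodule ℝ (E n)}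
    (hp₁ : Per n G g1 κ₁ φ₁ M₁ lg₁ a c₁ l V₁) (hp₂ : Per n G g2 κ₂ φ₂ M₂ lg₂ a c₂ l V₂)
    (hD : Pr2 n G g1 g2 κ a c₁ c₂ l D) : ∃ C : ℝ, ∀ ρ₁ ρ₂ : ℝ, 0 < ρ₁ → 0 < ρ₂ →
    ∃ ρ₀ : ℝ, 0 < ρ₀ ∧ ∀ x : V₁, ‖x‖ ≤ ρ₀ → ∃ (α : ℝ → E n) (p : ℕ → V₁) (α2 : ℝ → E n)
      (p2 : ℕ → V₂), Bw g1 φ₁ a c₁ l V₁ ρ₁ α p ∧ Bw g2 φ₂ a c₂ l V₂ ρ₂ α2 p2 ∧
      (∀ t, gd g2 (α t) (α2 t) ≤ C) ∧ p 0 = x := by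
  obtain ⟨C, hC⟩ := h7 n G g1 g2 κ a c₁ c₂ l D hD
  refine ⟨C, ?_⟩
  intro ρ₁ ρ₂ hρ₁ hρ₂
  obtain ⟨ρv, hρv, -, hv⟩ := h3 n G g2 κ₂ φ₂ M₂ lg₂ a c₂ l V₂ hp₂ ρ₂ hρ₂
  obtain ⟨ρR, hρR, hR⟩ := hC ρv hρv
  obtain ⟨ρ₀, hρ₀, -, hE⟩ := h2 n G g1 κ₁ φ₁ M₁ lg₁ a c₁ l V₁ hp₁ (min ρ₁ ρR) (lt_min hρ₁ hρR)
  refine ⟨ρ₀, hρ₀, ?_⟩
  intro x hx
  obtain ⟨α, p, hα, hp0⟩ := hE x hx
  obtain ⟨α2, u2, as2, near2, bdd2⟩ := hR α hα.ug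
    (fun t ht => (hα.near t ht).trans (min_le_right _ _))
  obtain ⟨p2, hp2⟩ := hv α2 u2 as2 near2
  exact ⟨α, p, α2, p2, bwMono hα (min_le_left _ _), hp2, bdd2, hp0⟩

/-- the bound for `g2` from the bound for `g1` -/
theorem swapBd {g1 g2 : Form n} {D C : ℝ} (hcmp : ∀ x y, |gd g1 x y - gd g2 x y| ≤ D)
    {x y : E n} (h : gd g1 x y ≤ C) : gd g2 y x ≤ C + D := by
  have hs := (pr_Gd n g2).2.1.symm y x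
  rw [hs]
  have := abs_le.1 (hcmp x y)
  linarith [this.1, this.2]

end IVCon

open IVCon

theorem pr_VCon (h1 : VTa) (h2 : VEx) (h3 : VGv) (h4 : VTw) (h5 : RPr) (h6 : RT1) (h7 : RT2)
    (h8 : RTau) (h9 : SRr) (h10 : ZSp) (h11 : ZRe) : VCon := by
  intro n G _ _ g1 g2 κ₁ κ₂ φ₁ φ₂ M₁ M₂ lg₁ lg₂ a c₁ c₂ l V₁ V₂ hp₁ hp₂ hL hV₁ hV₂ T₁ T₂ s s' q
    r₁ r₂ t₁ t₂ Ps₁ P₁ Ps₂ P₂ B₁ Bu₁ B₂ Bu₂ hg₁ hg₂ hs' hs's hq hS₁ hS₂ ht₁ ht₂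
  obtain ⟨D, hD⟩ := h5 n G g1 g2 κ₁ κ₂ φ₁ φ₂ M₁ M₂ lg₁ lg₂ a c₁ c₂ l V₁ V₂ hp₁ hp₂ hV₁ hV₂ hL
  obtain ⟨D', hD'⟩ := h5 n G g2 g1 κ₂ κ₁ φ₂ φ₁ M₂ M₁ lg₂ lg₁ a c₂ c₁ l V₂ V₁ hp₂ hp₁ hV₂ hV₁
    (fun b => (hL b).symm)
  obtain ⟨C₁, ρ₁, k₁, Q₁, f₁, hρ₁, hQ₁, hf₁, hτ₁⟩ := h1 n G g1 κ₁ φ₁ M₁ lg₁ a c₁ l V₁ hp₁ T₁ s s'
    q r₁ t₁ Ps₁ P₁ B₁ Bu₁ hg₁ hs' hs's hS₁ hq ht₁
  obtain ⟨C₂, ρ₂, k₂, Q₂, f₂, hρ₂, hQ₂, hf₂, hτ₂⟩ := h1 n G g2 κ₂ φ₂ M₂ lg₂ a c₂ l V₂ hp₂ T₂ s s'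
    q r₂ t₂ Ps₂ P₂ B₂ Bu₂ hg₂ hs' hs's hS₂ hq ht₂
  obtain ⟨CF, hCF⟩ := fwd h2 h3 h6 hp₁ hp₂ hD
  obtain ⟨CF', hCF'⟩ := fwd h2 h3 h6 hp₂ hp₁ hD'
  obtain ⟨CB, hCB⟩ := bwd h2 h3 h7 hp₁ hp₂ hD
  obtain ⟨CB', hCB'⟩ := bwd h2 h3 h7 hp₂ hp₁ hD'
  obtain ⟨σF, hσF, hF⟩ := hCF ρ₁ ρ₂ hρ₁ hρ₂
  obtain ⟨σF', hσF', hF'⟩ := hCF' ρ₂ ρ₁ hρ₂ hρ₁
  obtain ⟨σB, hσB, hB⟩ := hCB ρ₁ ρ₂ hρ₁ hρ₂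
  obtain ⟨σB', hσB', hB'⟩ := hCB' ρ₂ ρ₁ hρ₂ hρ₁
  obtain ⟨C', hC'⟩ : ∃ C' : ℝ, C' = max (max CF (CF' + D)) (max CB (CB' + D)) := ⟨_, rfl⟩
  have hC1 : CF ≤ C' := hC' ▸ (le_max_left _ _).trans (le_max_left _ _)
  have hC2 : CF' + D ≤ C' := hC' ▸ (le_max_right _ _).trans (le_max_left _ _)
  have hC3 : CB ≤ C' := hC' ▸ (le_max_left _ _).trans (le_max_right _ _)
  have hC4 : CB' + D ≤ C' := hC' ▸ (le_max_right _ _).trans (le_max_right _ _)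
  -- the index types
  let 𝒜 : Type := {x : (ℝ → E n) × (ℕ → V₁) × (ℝ → E n) × (ℕ → V₂) //
    Fw g1 φ₁ a c₁ l V₁ ρ₁ x.1 x.2.1 ∧ Fw g2 φ₂ a c₂ l V₂ ρ₂ x.2.2.1 x.2.2.2 ∧
      ∀ t, gd g2 (x.1 t) (x.2.2.1 t) ≤ C'}
  let ℬ : Type := {x : (ℝ → E n) × (ℕ → V₁) × (ℝ → E n) × (ℕ → V₂) //
    Bw g1 φ₁ a c₁ l V₁ ρ₁ x.1 x.2.1 ∧ Bw g2 φ₂ a c₂ l V₂ ρ₂ x.2.2.1 x.2.2.2 ∧
      ∀ t, gd g2 (x.1 t) (x.2.2.1 t) ≤ C'}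
  have hlt : q < min t₁ t₂ := lt_min (hS₁.lt1.trans hS₁.lt2) (hS₂.lt1.trans hS₂.lt2)
  obtain ⟨r, hr1, hr2⟩ := exists_between hlt
  have hS₁' := h9 V₁ (HH g1 φ₁ a (c₁ 0) l V₁) T₁ s q r₁ t₁ Ps₁ P₁ B₁ Bu₁ hS₁ r hr1
    (hr2.trans_le (min_le_left _ _))
  have hS₂' := h9 V₂ (HH g2 φ₂ a (c₂ 0) l V₂) T₂ s q r₂ t₂ Ps₂ P₂ B₂ Bu₂ hS₂ r hr1
    (hr2.trans_le (min_le_right _ _))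
  have hTw₁ := h4 n G g1 κ₁ φ₁ M₁ lg₁ a c₁ l V₁ hp₁
  have hTw₂ := h4 n G g2 κ₂ φ₂ M₂ lg₂ a c₂ l V₂ hp₂
  obtain ⟨spB₁, -⟩ := h10 V₁ (HH g1 φ₁ a (c₁ 0) l V₁) T₁ s q r₁ t₁ Ps₁ P₁ B₁ Bu₁ hTw₁ hS₁ C₁ σB hσB
  obtain ⟨spB₂, -⟩ := h10 V₂ (HH g2 φ₂ a (c₂ 0) l V₂) T₂ s q r₂ t₂ Ps₂ P₂ B₂ Bu₂ hTw₂ hS₂ C₂ σB' hσB'
  obtain ⟨-, spF₁⟩ := h10 V₁ (HH g1 φ₁ a (c₁ 0) l V₁) T₁ s q r₁ t₁ Ps₁ P₁ B₁ Bu₁ hTw₁ hS₁ C₁ σF hσF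
  obtain ⟨-, spF₂⟩ := h10 V₂ (HH g2 φ₂ a (c₂ 0) l V₂) T₂ s q r₂ t₂ Ps₂ P₂ B₂ Bu₂ hTw₂ hS₂ C₂ σF' hσF'
  refine h11 (V₁ × V₁) (V₂ × V₂) T₁ T₂ s r r t₁ t₂ (min t₁ t₂) Ps₁ P₁ Ps₂ P₂ hS₁'.spl hS₂'.spl
    hr2 hr2 𝒜 ℬ (fun x => f₁ x.1.2.1) (fun x => f₂ x.1.2.2.2) (fun x => Q₁ x.1.2.1)
    (fun x => Q₂ x.1.2.2.2) (fun x => (hQ₁ _ x.2.1.ch).1) (fun x => (hQ₂ _ x.2.2.1.ch).1)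
    ?_ ?_ ?_ ?_ ?_
  · intro w hw
    have := spB₁ {v | ∃ x : ℬ, x.1.2.1 = v} Q₁
      (by rintro v ⟨x, rfl⟩; exact hQ₁ _ x.2.1.ch)
      (by
        intro z hz
        obtain ⟨β, v, β2, v2, hb1, hb2, hb3, hb4⟩ := hB z hz
        exact ⟨v, ⟨⟨(β, v, β2, v2), hb1, hb2, fun t => (hb3 t).trans hC3⟩, rfl⟩, hb4⟩) w hw
    refine Submodule.span_mono ?_ this
    rintro _ ⟨v, ⟨x, rfl⟩, rfl⟩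
    exact ⟨x, rfl⟩
  · intro w hw
    have := spB₂ {v | ∃ x : ℬ, x.1.2.2.2 = v} Q₂
      (by rintro v ⟨x, rfl⟩; exact hQ₂ _ x.2.2.1.ch)
      (by
        intro z hz
        obtain ⟨β2, v2, β, v, hb1, hb2, hb3, hb4⟩ := hB' z hz
        exact ⟨v2, ⟨⟨(β, v, β2, v2), hb2, hb1,
          fun t => (swapBd hD.cmp (hb3 t)).trans hC4⟩, rfl⟩, hb4⟩) w hw
    refine Submodule.span_mono ?_ this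
    rintro _ ⟨v, ⟨x, rfl⟩, rfl⟩
    exact ⟨x, rfl⟩
  · intro w hw hall
    refine spF₁ {p | ∃ x : 𝒜, x.1.2.1 = p} f₁
      (by rintro p ⟨x, rfl⟩; exact hf₁ _ x.2.1.ch)
      (by
        intro z hz
        obtain ⟨β, v, β2, v2, hb1, hb2, hb3, hb4⟩ := hF z hz
        exact ⟨v, ⟨⟨(β, v, β2, v2), hb1, hb2, fun t => (hb3 t).trans hC1⟩, rfl⟩, hb4⟩) w hw ?_
    rintro p ⟨x, rfl⟩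
    exact hall x
  · intro w hw hall
    refine spF₂ {p | ∃ x : 𝒜, x.1.2.2.2 = p} f₂
      (by rintro p ⟨x, rfl⟩; exact hf₂ _ x.2.2.1.ch)
      (by
        intro z hz
        obtain ⟨β2, v2, β, v, hb1, hb2, hb3, hb4⟩ := hF' z hz
        exact ⟨v2, ⟨⟨(β, v, β2, v2), hb2, hb1,
          fun t => (swapBd hD.cmp (hb3 t)).trans hC2⟩, rfl⟩, hb4⟩) w hw ?_
    rintro p ⟨x, rfl⟩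
    exact hall x
  · rintro ⟨⟨α, p, α2, p2⟩, hα, hα2, hαb⟩ ⟨⟨β, v, β2, v2⟩, hβ, hβ2, hβb⟩
    refine ⟨|C₁| + |C₂|, max k₁ k₂, ?_⟩
    intro k hk
    obtain ⟨τ, hτ, e1⟩ := hτ₁ α β p v k hα hβ ((le_max_left _ _).trans hk)
    obtain ⟨τ', hτ', e2⟩ := hτ₂ α2 β2 p2 v2 k hα2 hβ2 ((le_max_right _ _).trans hk)
    have hτ2 : Tau g2 a α2 β2 k l τ := h8 n G g1 g2 (min κ₁ κ₂) a c₁ c₂ l D hD hL C' α β α2 β2 k τ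
      hα.ug hβ.ug hα2.ug hβ2.ug hαb hβb hα.as hβ.as hα2.as hβ2.as hτ
    have hττ : τ = τ' := tendsto_nhds_unique hτ2 hτ'
    rw [← hττ] at e2
    have hk0 : (0 : ℝ) ≤ k := Nat.cast_nonneg k
    have b1 : C₁ * Real.exp (-(t₁ * k)) ≤ |C₁| * Real.exp (-(min t₁ t₂ * k)) := by
      refine mul_le_mul (le_abs_self _) (Real.exp_le_exp.2 ?_) (Real.exp_pos _).le (abs_nonneg _)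
      have := mul_le_mul_of_nonneg_right (min_le_left t₁ t₂) hk0
      linarith
    have b2 : C₂ * Real.exp (-(t₂ * k)) ≤ |C₂| * Real.exp (-(min t₁ t₂ * k)) := by
      refine mul_le_mul (le_abs_self _) (Real.exp_le_exp.2 ?_) (Real.exp_pos _).le (abs_nonneg _)
      have := mul_le_mul_of_nonneg_right (min_le_right t₁ t₂) hk0
      linarith
    have e1' := abs_le.1 (e1.trans b1)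
    have e2' := abs_le.1 (e2.trans b2)
    show |f₁ p ((⇑T₁.symm)^[k] (Q₁ v)) - f₂ p2 ((⇑T₂.symm)^[k] (Q₂ v2))| ≤ _
    rw [abs_le, add_mul]
    constructor <;> linarith [e1'.1, e1'.2, e2'.1, e2'.2]

end Pool.Agent.LX
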