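import Pool.Agent.Work.MP_25cd3b_gt.LX.StmtsV

set_option autoImplicit false

/-!
# MP_25cd3b_gt, block LX, item VFi: the conclusion

The code of an orthogonal Jacobi field is a linear isomorphism; the conjugacy of the slow parts of the
transfer maps is transported to the Jacobi fields.
-/

open MeasureTheory Set Filter Topology
open scoped ContDiff ENNReal
open Pool.Agent.Work.MP_c9f990_an.Al (IsFlow)

namespace Pool.Agent.LX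

open Pool.Agent.MLS Pool.Agent.STR Pool.Agent.LR

namespace IVFi

/-- the field with a given code, as a linear map -/
theorem exF (h2 : VJ1) {n : ℕ} {G : Type} [Group G] [MulAction G (E n)] {g : Form n} {κ : ℝ}
    {φ : ℝ → W n → W n} {M : ℝ → W n → W n →L[ℝ] W n} {lg : E n → E n → E n} {a : G}
    {c : ℝ → E n} {l : ℝ} {V : Submodule ℝ (E n)} (hp : Per n G g κ φ M lg a c l V) :
    ∃ F : (V × V) →ₗ[ℝ] (ℝ → E n), (∀ w, NJ g c (F w) ∧ F w 0 = w.1 ∧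
      F w l = dac a (c 0) w.2) ∧ (∀ J, NJ g c J → ∃ w, F w = J) ∧ Function.Injective F := by
  obtain ⟨j1, j2, j3, j4⟩ := h2 n G g κ φ M lg a c l V hp
  choose f hf using j2
  let F : (V × V) →ₗ[ℝ] (ℝ → E n) :=
    { toFun := f
      map_add' := by
        intro w w'
        refine j3 _ _ (hf _).1 ?_ ?_ ?_
        · have := j4 (f w) (f w') 1 1 (hf _).1 (hf _).1
          simpa using this
        · rw [(hf _).2.1, Pi.add_apply, (hf _).2.1, (hf _).2.1]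
          simp
        · rw [(hf _).2.2, Pi.add_apply, (hf _).2.2, (hf _).2.2]
          simp
      map_smul' := by
        intro x w
        refine j3 _ _ (hf _).1 ?_ ?_ ?_
        · have := j4 (f w) (f w) x 0 (hf _).1 (hf _).1
          simpa using this
        · rw [(hf _).2.1, RingHom.id_apply, Pi.smul_apply, (hf _).2.1]
          simp
        · rw [(hf _).2.2, RingHom.id_apply, Pi.smul_apply, (hf _).2.2]
          simp }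
  have hF : ∀ w, F w = f w := fun w => rfl
  refine ⟨F, fun w => by rw [hF]; exact hf w, ?_, ?_⟩
  · intro J hJ
    obtain ⟨w, hw1, hw2⟩ := j1 J hJ
    refine ⟨w, ?_⟩
    rw [hF]
    refine j3 _ _ (hf _).1 hJ ?_ ?_
    · rw [(hf _).2.1, hw1]
    · rw [(hf _).2.2, hw2]
  · rw [injective_iff_map_eq_zero]
    intro w hw
    rw [hF] at hw
    have e1 : (w.1 : E n) = 0 := by
      rw [← (hf w).2.1, hw]; rfl
    have e2 : dac a (c 0) (w.2 : E n) = 0 := by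
      rw [← (hf w).2.2, hw]; rfl
    have e3 : (w.2 : E n) = 0 := by
      by_contra hne
      have h1 := hp.riem (c 0) (w.2 : E n) hne
      have h2' := hp.inv a (c 0) (w.2 : E n) (w.2 : E n)
      rw [e2] at h2'
      simp only [map_zero] at h2'
      linarith
    refine Prod.ext ?_ ?_
    · exact Subtype.ext e1
    · exact Subtype.ext e3

/-- the zero field -/
theorem zero_slo {n : ℕ} {g : Form n} {c : ℝ → E n} (hz : NJ g c 0) (q : ℝ) :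
    (0 : ℝ → E n) ∈ slo g c q := by
  have hn : ∀ x : E n, nrm g x 0 = 0 := by
    intro x
    unfold nrm
    simp
  refine ⟨hz, ⟨0, fun t _ => ?_⟩, fun q' _ => ⟨0, fun t _ => ?_⟩⟩
  · simp [hn]
  · simp [hn]

end IVFi

theorem pr_VFi (h1 : VCon) (h2 : VJ1) (h3 : VJ3) (h4 : VJ5) (h5 : VTw) (h6 : BPos) (h7 : SGr)
    (h8 : SSp) (h9 : STr) (h10 : RFin) (h11 : RDim) : VFi := by
  intro n G _ _ g1 g2 κ₁ κ₂ φ₁ φ₂ M₁ M₂ lg₁ lg₂ a c₁ c₂ l V₁ V₂ p1 p2 hL q₀ q hq hqq hsl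
  obtain ⟨F₁, hF₁, sF₁, iF₁⟩ := IVFi.exF h2 p1
  obtain ⟨F₂, hF₂, sF₂, iF₂⟩ := IVFi.exF h2 p2
  by_cases hV : ∃ v ∈ V₁, v ≠ 0
  · have hV2 : ∃ v ∈ V₂, v ≠ 0 :=
      h11 n G g1 g2 κ₁ κ₂ φ₁ φ₂ M₁ M₂ lg₁ lg₂ a c₁ c₂ l V₁ V₂ p1 p2 hV
    have hl : 0 < l := p1.pos
    have hq0 : 0 < q₀ := by linarith
    obtain ⟨-, lam₁, hlam₁, hP₁⟩ := h6 n G g1 κ₁ φ₁ M₁ lg₁ a c₁ l V₁ p1
    obtain ⟨-, lam₂, hlam₂, hP₂⟩ := h6 n G g2 κ₂ φ₂ M₂ lg₂ a c₂ l V₂ p2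
    have hT₁ := h5 n G g1 κ₁ φ₁ M₁ lg₁ a c₁ l V₁ p1
    have hT₂ := h5 n G g2 κ₂ φ₂ M₂ lg₂ a c₂ l V₂ p2
    obtain ⟨T₀, hT₀⟩ := h9 V₁ lam₁ _ hP₁ hT₁
    have hG : Gr (HH g1 φ₁ a (c₁ 0) l V₁) (q₀ * l) := by
      refine h7 V₁ lam₁ (q₀ * l) _ T₀ hlam₁ hP₁ hT₀ (by positivity) ?_
      intro w hw
      have hm := (h4 n G g1 κ₁ φ₁ M₁ lg₁ a c₁ l V₁ p1 T₀ hT₀ (F₁ w) w q₀ (hF₁ w).1 (hF₁ w).2.1
        (hF₁ w).2.2).2 hw
      have hz := hsl _ hm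
      exact iF₁ (by rw [hz, map_zero])
    have hlt : q * l < 2 * (q₀ * l) := by nlinarith
    have hql : 0 ≤ q * l := by positivity
    obtain ⟨s', hs'1, hs'2⟩ : ∃ s', q * l / 2 < s' ∧ s' < q₀ * l := exists_between (by linarith)
    obtain ⟨s, hs1, hs2⟩ : ∃ s, s' < s ∧ s < q₀ * l := exists_between hs'2
    have hs'0 : 0 < s' := by linarith
    have hs0 : 0 < s := by linarith
    have G₁ : Gr (HH g1 φ₁ a (c₁ 0) l V₁) s :=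
      h10 n G g1 g1 κ₁ κ₁ φ₁ φ₁ M₁ M₁ lg₁ lg₁ a c₁ c₁ l V₁ V₁ p1 p1 (fun _ => rfl) s (q₀ * l) hG
        hs0 hs2
    have G₂ : Gr (HH g2 φ₂ a (c₂ 0) l V₂) s :=
      h10 n G g2 g1 κ₂ κ₁ φ₂ φ₁ M₂ M₁ lg₂ lg₁ a c₂ c₁ l V₂ V₁ p2 p1 (fun b => (hL b).symm) s
        (q₀ * l) hG hs0 hs2
    obtain ⟨r₁, t₁, T₁, Ps₁, P₁, B₁, Bu₁, ht₁, S₁⟩ :=
      h8 V₁ lam₁ s (q * l) (2 * s' - q * l) _ hlam₁ hP₁ hT₁ G₁ hs0 hql (by linarith)
    obtain ⟨r₂, t₂, T₂, Ps₂, P₂, B₂, Bu₂, ht₂, S₂⟩ :=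
      h8 V₂ lam₂ s (q * l) (2 * s' - q * l) _ hlam₂ hP₂ hT₂ G₂ hs0 hql (by linarith)
    obtain ⟨Ψ₀, a1, a2, a3, a4⟩ := h1 n G g1 g2 κ₁ κ₂ φ₁ φ₂ M₁ M₂ lg₁ lg₂ a c₁ c₂ l V₁ V₂ p1 p2
      hL hV hV2 T₁ T₂ s s' (q * l) r₁ r₂ t₁ t₂ Ps₁ P₁ Ps₂ P₂ B₁ Bu₁ B₂ Bu₂ G₁ G₂ hs'0 hs1 hql
      S₁ S₂ (by linarith) (by linarith)
    have m1 : ∀ w, F₁ w ∈ slo g1 c₁ q ↔ P₁ w = w := by
      intro w
      rw [S₁.slw w]
      exact h4 n G g1 κ₁ φ₁ M₁ lg₁ a c₁ l V₁ p1 T₁ S₁.tr (F₁ w) w q (hF₁ w).1 (hF₁ w).2.1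
        (hF₁ w).2.2
    have m2 : ∀ w, F₂ w ∈ slo g2 c₂ q ↔ P₂ w = w := by
      intro w
      rw [S₂.slw w]
      exact h4 n G g2 κ₂ φ₂ M₂ lg₂ a c₂ l V₂ p2 T₂ S₂.tr (F₂ w) w q (hF₂ w).1 (hF₂ w).2.1
        (hF₂ w).2.2
    obtain ⟨G₀, hG₀⟩ := LinearMap.exists_leftInverse_of_injective F₁ (LinearMap.ker_eq_bot.2 iF₁)
    have hG₀' : ∀ w, G₀ (F₁ w) = w := fun w => by
      have := LinearMap.congr_fun hG₀ w
      simpa using this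
    refine ⟨F₂ ∘ₗ (Ψ₀ : (V₁ × V₁) →ₗ[ℝ] (V₂ × V₂)) ∘ₗ G₀, ⟨?_, ?_, ?_⟩, ?_⟩
    · intro J hJ
      obtain ⟨w, rfl⟩ := sF₁ J hJ.1
      simp only [LinearMap.comp_apply, hG₀', ContinuousLinearMap.coe_coe]
      exact (m2 _).2 (a1 w ((m1 w).1 hJ))
    · intro J hJ J' hJ' he
      obtain ⟨w, rfl⟩ := sF₁ J hJ.1
      obtain ⟨w', rfl⟩ := sF₁ J' hJ'.1
      simp only [LinearMap.comp_apply, hG₀', ContinuousLinearMap.coe_coe] at he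
      have he2 := iF₂ he
      have hw := (m1 w).1 hJ
      have hw' := (m1 w').1 hJ'
      have : w - w' = 0 := by
        refine a2 _ ?_ ?_
        · rw [map_sub, hw, hw']
        · rw [map_sub, he2, sub_self]
      rw [sub_eq_zero.1 this]
    · intro J hJ
      obtain ⟨w', rfl⟩ := sF₂ J hJ.1
      obtain ⟨w, hw, hw'⟩ := a3 w' ((m2 w').1 hJ)
      refine ⟨F₁ w, (m1 w).2 hw, ?_⟩
      simp only [LinearMap.comp_apply, hG₀', ContinuousLinearMap.coe_coe, hw']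
    · intro J hJ J' hJ' hr
      obtain ⟨w, rfl⟩ := sF₁ J hJ.1
      obtain ⟨w', rfl⟩ := sF₁ J' hJ'.1
      have hw := (m1 w).1 hJ
      have e1 : w' = T₁ w := (h3 n G g1 κ₁ φ₁ M₁ lg₁ a c₁ l V₁ p1 T₁ S₁.tr (F₁ w) (F₁ w') w w'
        (hF₁ w).1 (hF₁ w').1 (hF₁ w).2.1 (hF₁ w).2.2 (hF₁ w').2.1 (hF₁ w').2.2).1 hr
      simp only [LinearMap.comp_apply, hG₀', ContinuousLinearMap.coe_coe]
      refine (h3 n G g2 κ₂ φ₂ M₂ lg₂ a c₂ l V₂ p2 T₂ S₂.tr (F₂ (Ψ₀ w)) (F₂ (Ψ₀ w')) (Ψ₀ w)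
        (Ψ₀ w') (hF₂ _).1 (hF₂ _).1 (hF₂ _).2.1 (hF₂ _).2.2 (hF₂ _).2.1 (hF₂ _).2.2).2 ?_
      rw [e1, a4 w hw]
  · have hV2 : ¬ ∃ v ∈ V₂, v ≠ 0 := fun h =>
      hV (h11 n G g2 g1 κ₂ κ₁ φ₂ φ₁ M₂ M₁ lg₂ lg₁ a c₂ c₁ l V₂ V₁ p2 p1 h)
    have z1 : ∀ J, NJ g1 c₁ J → J = 0 := by
      intro J hJ
      obtain ⟨w, rfl⟩ := sF₁ J hJ
      have : w = 0 := by
        refine Prod.ext (Subtype.ext ?_) (Subtype.ext ?_)
        · by_contra hne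
          exact hV ⟨_, w.1.2, hne⟩
        · by_contra hne
          exact hV ⟨_, w.2.2, hne⟩
      rw [this, map_zero]
    have z2 : ∀ J, NJ g2 c₂ J → J = 0 := by
      intro J hJ
      obtain ⟨w, rfl⟩ := sF₂ J hJ
      have : w = 0 := by
        refine Prod.ext (Subtype.ext ?_) (Subtype.ext ?_)
        · by_contra hne
          exact hV2 ⟨_, w.1.2, hne⟩
        · by_contra hne
          exact hV2 ⟨_, w.2.2, hne⟩
      rw [this, map_zero]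
    have n1 : NJ g1 c₁ 0 := by
      have := (hF₁ 0).1
      rwa [map_zero] at this
    have n2 : NJ g2 c₂ 0 := by
      have := (hF₂ 0).1
      rwa [map_zero] at this
    refine ⟨0, ⟨?_, ?_, ?_⟩, ?_⟩
    · intro J _
      exact IVFi.zero_slo n2 q
    · intro J hJ J' hJ' _
      rw [z1 J hJ.1, z1 J' hJ'.1]
    · intro J hJ
      exact ⟨0, IVFi.zero_slo n1 q, by rw [z2 J hJ.1]; rfl⟩
    · intro J _ J' _ _ t
      simp

end Pool.Agent.LX
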