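import Pool.Agent.Work.MP_25cd3b_gt.LX.StmtsV

set_option autoImplicit false

/-!
# MP_25cd3b_gt, block LX: item VGv (chains of given asymptotic geodesics)
-/

open MeasureTheory Set Filter Topology
open scoped ContDiff ENNReal
open Pool.Agent.Work.MP_c9f990_an.Al (IsFlow)

namespace Pool.Agent.LX

open Pool.Agent.MLS Pool.Agent.STR Pool.Agent.LR

namespace IVGv

/-- forward chains, without the convergence -/
theorem fwd (h1 : BCr) (h2 : KAl) (n : ℕ) (G : Type) [Group G] [MulAction G (E n)] (g : Form n)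
    (κ : ℝ) (φ : ℝ → W n → W n) (M : ℝ → W n → W n →L[ℝ] W n) (lg : E n → E n → E n) (a : G)
    (c : ℝ → E n) (l : ℝ) (V : Submodule ℝ (E n)) (P : Per n G g κ φ M lg a c l V) (ρ : ℝ)
    (hρ : 0 < ρ) : ∃ ρ₁ : ℝ, 0 < ρ₁ ∧ ρ₁ ≤ ρ ∧ ∀ α : ℝ → E n, UG g α →
      (∀ t, -1 ≤ t → gd g (α t) (c t) ≤ ρ₁) → ∃ (p : ℕ → V) (a₀ : ℝ), (∀ j, ‖p j‖ ≤ ρ) ∧
        (∀ k, EL (fderiv ℝ (Lk g φ a (c 0) l V)) k p) ∧ |a₀| ≤ ρ ∧
        α a₀ = expo φ g (c 0) (p 0) := by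
  obtain ⟨C₁, r₁, hC₁, hr₁, -, hB⟩ := h1 n G g κ φ M lg a c l V P
  obtain ⟨C₂, r₂, hC₂, hr₂, hK⟩ := h2 n G g κ φ M lg a c l V P
  have hC₁0 : 0 < C₁ := by linarith
  have hC₂0 : 0 < C₂ := by linarith
  obtain ⟨δ, hδ⟩ : ∃ δ : ℝ, δ = min r₂ (min (ρ / C₂) 1) := ⟨_, rfl⟩
  have hδ0 : 0 < δ := by rw [hδ]; positivity
  have hδ1 : δ ≤ r₂ := by rw [hδ]; exact min_le_left _ _
  have hδ2 : C₂ * δ ≤ ρ := by
    have h : δ ≤ ρ / C₂ := by
      rw [hδ]; exact (min_le_right _ _).trans (min_le_left _ _)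
    rw [le_div_iff₀ hC₂0] at h
    linarith
  have hδ3 : δ ≤ 1 := by rw [hδ]; exact (min_le_right _ _).trans (min_le_right _ _)
  have hδρ : δ ≤ ρ := by
    have := mul_le_mul_of_nonneg_right hC₂ hδ0.le
    linarith
  obtain ⟨ρ₁, hρ₁⟩ : ∃ ρ₁ : ℝ, ρ₁ = min r₁ (δ / C₁) := ⟨_, rfl⟩
  have hρ₁0 : 0 < ρ₁ := by rw [hρ₁]; positivity
  have hρ₁1 : ρ₁ ≤ r₁ := by rw [hρ₁]; exact min_le_left _ _
  have hρ₁2 : C₁ * ρ₁ ≤ δ := by
    have h : ρ₁ ≤ δ / C₁ := by rw [hρ₁]; exact min_le_right _ _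
    rw [le_div_iff₀ hC₁0] at h
    linarith
  have hρ₁δ : ρ₁ ≤ δ := by
    have := mul_le_mul_of_nonneg_right hC₁ hρ₁0.le
    linarith
  refine ⟨ρ₁, hρ₁0, hρ₁δ.trans hδρ, fun α hα hn => ?_⟩
  obtain ⟨t, u, ht, hu, he⟩ := hB α 0 ρ₁ hα.geo.smooth.continuous hρ₁0 hρ₁1 (fun t ht => by
    rw [Nat.cast_zero, zero_mul, zero_add]
    refine hn t ?_
    rw [abs_le] at ht
    linarith)
  rw [Nat.cast_zero, zero_mul, zero_add, pow_zero, one_smul] at he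
  obtain ⟨p, s, hp0, hs0, hp, -, hE⟩ := hK δ t α u hδ0 hδ1 hα (ht.trans hρ₁2) (hu.trans hρ₁2) he
    (fun t ht => (hn t (by linarith)).trans hρ₁δ)
  refine ⟨p, t, fun j => (hp j).2.1.trans hδ2, fun k => ?_, (ht.trans hρ₁2).trans hδρ, ?_⟩
  · rcases Nat.eq_zero_or_pos k with rfl | hk
    · intro j hj
      omega
    · exact (hE k hk).2.1
  · rw [hp0]; exact he

end IVGv

theorem pr_VGv (h1 : BCr) (h2 : KAl) (h3 : BRev) (h4 : StUG) : VGv := by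
  intro n G _ _ g κ φ M lg a c l V P ρ hρ
  obtain ⟨P', hD, -⟩ := h3 n G g κ φ M lg a c l V P
  obtain ⟨ρ₁, hρ₁, hρ₁ρ, hF⟩ := IVGv.fwd h1 h2 n G g κ φ M lg a c l V P ρ hρ
  obtain ⟨ρ₂, hρ₂, hρ₂ρ, hB⟩ := IVGv.fwd h1 h2 n G g κ φ M lg a⁻¹ (fun t => c (-t)) l V P' ρ hρ
  refine ⟨min ρ₁ ρ₂, lt_min hρ₁ hρ₂, fun α hα has hn => ?_, fun β hβ hbs hn => ?_⟩
  · obtain ⟨p, a₀, hp, hE, ha₀, he⟩ := hF α hα (fun t ht => (hn t ht).trans (min_le_left _ _))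
    exact ⟨p, hα, has, fun t ht => ((hn t (by linarith)).trans (min_le_left _ _)).trans hρ₁ρ,
      ⟨hp, hE⟩, a₀, ha₀, he⟩
  · have hβ' : UG g (fun t => β (-t)) := by
      have := (h4 n g β hβ).2.1 0
      simpa using this
    obtain ⟨v, b₀, hv, hE, hb₀, he⟩ := hB (fun t => β (-t)) hβ' (fun t ht =>
      (hn (-t) (by linarith)).trans (min_le_right _ _))
    have hL : Lk g φ a⁻¹ (c 0) l V = fun p => Lk g φ a (c 0) l V p.swap := by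
      funext p
      exact hD 1 p.1 p.2
    have hL1 : ∀ p q : V × V, fderiv ℝ (Lk g φ a⁻¹ (c 0) l V) p q =
        fderiv ℝ (Lk g φ a (c 0) l V) p.swap q.swap := by
      intro p q
      have h : Lk g φ a⁻¹ (c 0) l V =
          Lk g φ a (c 0) l V ∘ (ContinuousLinearEquiv.prodComm ℝ V V) := by
        rw [hL]; rfl
      rw [h, ContinuousLinearEquiv.comp_right_fderiv]
      rfl
    simp only [neg_zero] at hE he
    refine ⟨v, hβ, hbs, fun t ht => ((hn t (by linarith)).trans (min_le_right _ _)).trans hρ₂ρ,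
      ⟨hv, fun k j hj w => ?_⟩, -b₀, by rw [abs_neg]; exact hb₀, he⟩
    have h := hE k (k - (j + 2)) (by omega) w
    rw [hL1, hL1] at h
    have e1 : k - (j + 2) + 1 = k - (j + 1) := by omega
    have e2 : k - (j + 2) + 2 = k - j := by omega
    simp only [e1, e2, Prod.swap_prod_mk] at h
    rw [add_comm]
    exact h

end Pool.Agent.LX
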