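import Pool.Agent.Work.MP_25cd3b_gt.LX.StmtsV
import Pool.Agent.Work.MP_25cd3b_gt.LX.I_JChn

set_option autoImplicit false

/-!
# MP_25cd3b_gt, block LX: item VJ1 (codes of orthogonal Jacobi fields)
-/

open MeasureTheory Set Filter Topology
open scoped ContDiff ENNReal
open Pool.Agent.Work.MP_c9f990_an.Al (IsFlow)

namespace Pool.Agent.LX

open Pool.Agent.MLS Pool.Agent.STR Pool.Agent.LR

namespace IVJ1

variable {n : ℕ} {G : Type} [Group G] [MulAction G (E n)]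
variable {g : Form n} {κ : ℝ} {φ : ℝ → W n → W n} {M : ℝ → W n → W n →L[ℝ] W n}
  {lg : E n → E n → E n} {a : G} {c : ℝ → E n} {l : ℝ} {V : Submodule ℝ (E n)}

theorem toCv (P : Per n G g κ φ M lg a c l V) : Cv g κ :=
  ⟨P.riem, P.kpos, P.curv, φ, M, P.flow⟩

/-- `dac a (c 0)` maps `V` to the orthogonal complement of `c' l` -/
theorem ort_l (P : Per n G g κ φ M lg a c l V) (v : V) :
    g.val (c l) (deriv c l) (dac a (c 0) v) = 0 := by
  have h1 : c l = a • c 0 := by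
    have := P.per 0
    rwa [zero_add] at this
  have h2 : deriv c l = dac a (c 0) (deriv c 0) := by
    have := IJChn.deriv_pow P 1 0
    simpa using this
  rw [h1, h2, P.inv]
  exact (P.mem v).1 v.2

end IVJ1

open IVJ1 in
/-- ITEM VJ1. -/
theorem pr_VJ1 (h1 : BBv) (h2 : BOrt) (h3 : JChn) : VJ1 := by
  intro n G _ _ g κ φ M lg a c l V P
  have hC := toCv P
  have hg : IsGeo g c := P.ug.geo
  obtain ⟨b1, b2, b3⟩ := h1 n g κ hC c hg
  have hl : (0 : ℝ) ≠ l := P.pos.ne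
  refine ⟨fun J hJ => ?_, fun w => ?_, fun J J' hJ hJ' e0 el => ?_, fun J J' x y hJ hJ' => ?_⟩
  · obtain ⟨Z, hZ, -⟩ := h3 n G g κ φ M lg a c l V P J hJ
    refine ⟨(Z 0, Z 1), ?_, ?_⟩
    · have := hZ 0
      rw [pow_zero, IJChn.dac_one] at this
      simpa using this
    · have := hZ 1
      simpa using this
  · obtain ⟨J, hJ, e0, el⟩ := (b1 0 l hl).1 (w.1 : E n) (dac a (c 0) w.2)
    refine ⟨J, (h2 n g κ hC c J P.ug hJ).1 0 l hl ?_ ?_, e0, el⟩
    · rw [e0]; exact (P.mem _).1 w.1.2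
    · rw [el]; exact ort_l P w.2
  · exact funext ((b1 0 l hl).2 J J' hJ.jac hJ'.jac e0 el)
  · refine ⟨b3 J J' x y hJ.jac hJ'.jac, fun t => ?_⟩
    simp only [Pi.add_apply, Pi.smul_apply, map_add, map_smul, hJ.ort t, hJ'.ort t, smul_zero,
      add_zero]

end Pool.Agent.LX
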