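import Pool.Agent.Work.MP_25cd3b_gt.LX.StmtsV
import Pool.Agent.Work.MP_25cd3b_gt.LX.I_JChn

set_option autoImplicit false

/-!
# MP_25cd3b_gt, block LX: item VJ3 (the Poincare map is the transfer map)
-/

open MeasureTheory Set Filter Topology
open scoped ContDiff ENNReal
open Pool.Agent.Work.MP_c9f990_an.Al (IsFlow)

namespace Pool.Agent.LX

open Pool.Agent.MLS Pool.Agent.STR Pool.Agent.LR

namespace IVJ3

variable {n : ℕ} {G : Type} [Group G] [MulAction G (E n)]
  {g : Form n} {κ : ℝ} {φ : ℝ → W n → W n} {M : ℝ → W n → W n →L[ℝ] W n}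
  {lg : E n → E n → E n} {a : G} {c : ℝ → E n} {l : ℝ} {V : Submodule ℝ (E n)}

/-- `dac b x` is injective -/
theorem dac_inj (C : Cocompact n G) (b : G) (x : E n) {v w : E n} (h : dac b x v = dac b x w) :
    v = w := by
  rw [← IJChn.dac_inv_left C b x v, h, IJChn.dac_inv_left C b x w]

/-- the translate by one period, mapped by `a` -/
theorem act_one (P : Per n G g κ φ M lg a c l V) (J : ℝ → E n) (t : ℝ) :
    dac a (c t) (IJChn.Jf a c J l 1 t) = J (t + l) := by
  have h1 : t + ((1 : ℕ) : ℝ) * l = t + l := by push_cast; ring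
  have h2 : c (t + l) = a • c t := P.per t
  unfold IJChn.Jf
  rw [h1, h2, pow_one, IJChn.dac_inv_right P.coc]

/-- the translate is orthogonal -/
theorem nj (h4 : BJm) (h5 : BJs) (P : Per n G g κ φ M lg a c l V) {J : ℝ → E n} (hJ : NJ g c J) :
    NJ g c (IJChn.Jf a c J l 1) := by
  refine ⟨(IJChn.Jf_jac h4 h5 P hJ.jac 1).1, fun t => ?_⟩
  have h := P.inv a (c t) (deriv c t) (IJChn.Jf a c J l 1 t)
  have h1 : deriv c (t + l) = dac a (c t) (deriv c t) := by
    have := IJChn.deriv_pow P 1 t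
    rwa [pow_one, Nat.cast_one, one_mul] at this
  rw [act_one P, ← h1, ← P.per t, hJ.ort] at h
  exact h.symm

end IVJ3

open IVJ3 in
/-- ITEM VJ3. -/
theorem pr_VJ3 (h1 : JChn) (h2 : VTw) (h4 : BJm) (h5 : BJs) (h7 : VJ1) : VJ3 := by
  intro n G _ _ g κ φ M lg a c l V P T hT J J' w w' hJ hJ' hJ0 hJl hJ0' hJl'
  obtain ⟨Z, hZ, hS⟩ := h1 n G g κ φ M lg a c l V P J hJ
  have hZ0 : (Z 0 : E n) = w.1 := by
    have := hZ 0
    rw [pow_zero, IJChn.dac_one, Nat.cast_zero, zero_mul, hJ0] at this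
    exact this.symm
  have hZ1 : (Z 1 : E n) = w.2 := by
    have := hZ 1
    rw [pow_one, Nat.cast_one, one_mul, hJl] at this
    exact (dac_inj P.coc a (c 0) this).symm
  have eZ0 : Z 0 = w.1 := Subtype.ext hZ0
  have eZ1 : Z 1 = w.2 := Subtype.ext hZ1
  have hTw := hT w.1 w.2
  have hTw1 : (T w).1 = w.2 := hTw.1
  have hTw2 : (T w).2 = Z 2 := by
    have hz : (T w).2 - Z 2 = 0 := by
      refine h2 n G g κ φ M lg a c l V P _ fun v => ?_
      have e1 := hTw.2 v
      have e2 := hS 2 0 (by norm_num) v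
      rw [zero_add, show (0 : ℕ) + 2 = 2 from rfl, eZ0, eZ1] at e2
      have e3 : ((0 : V), (T w).2 - Z 2) = (w.2, (T (w.1, w.2)).2) - (w.2, Z 2) := by
        ext <;> simp
      rw [e3, map_sub, ContinuousLinearMap.sub_apply]
      linarith
    exact sub_eq_zero.1 hz
  have k1 : IJChn.Jf a c J l 1 0 = (Z 1 : E n) := by
    refine dac_inj P.coc (a ^ 1) (c 0) ?_
    rw [IJChn.act_Jf P J 1, hZ 1]
  have k2 : IJChn.Jf a c J l 2 0 = (Z 2 : E n) := by
    refine dac_inj P.coc (a ^ 2) (c 0) ?_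
    rw [IJChn.act_Jf P J 2, hZ 2]
  have k3 : IJChn.Jf a c J l 1 l = dac a (c 0) (Z 2 : E n) := by
    rw [IJChn.Jf_l P J 1, k2]
  constructor
  · intro h
    have e : J' = IJChn.Jf a c J l 1 := by
      funext t
      refine dac_inj P.coc a (c t) ?_
      rw [← h t, act_one P]
    refine Prod.ext ?_ ?_
    · refine Subtype.ext ?_
      rw [hTw1, ← hJ0', e, k1, hZ1]
    · refine Subtype.ext ?_
      rw [hTw2]
      refine dac_inj P.coc a (c 0) ?_
      rw [← hJl', e, k3]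
  · intro h t
    have e : J' = IJChn.Jf a c J l 1 := by
      refine (h7 n G g κ φ M lg a c l V P).2.2.1 J' _ hJ' (nj h4 h5 P hJ) ?_ ?_
      · rw [hJ0', k1, h, hTw1, hZ1]
      · rw [hJl', k3, h, hTw2]
    rw [e, act_one P]

end Pool.Agent.LX
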