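import Pool.Agent.Work.MP_25cd3b_gt.LX.StmtsV
import Pool.Agent.Work.MP_25cd3b_gt.NG.All

set_option autoImplicit false

/-!
# MP_25cd3b_gt, block LX, item VJ5: growth of Jacobi fields and of orbits
-/

open MeasureTheory Set Filter Topology
open scoped ContDiff ENNReal

namespace Pool.Agent.LX

open Pool.Agent.MLS Pool.Agent.STR Pool.Agent.LR

namespace IVJ5

variable {n : ℕ} {G : Type} [Group G] [MulAction G (E n)]

theorem cv_of_per {g : Form n} {κ : ℝ} {φ : ℝ → W n → W n} {M : ℝ → W n → W n →L[ℝ] W n}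
    {lg : E n → E n → E n} {a : G} {c : ℝ → E n} {l : ℝ} {V : Submodule ℝ (E n)}
    (hP : Per n G g κ φ M lg a c l V) : Cv g κ := ⟨hP.riem, hP.kpos, hP.curv, φ, M, hP.flow⟩

/-- the norm of an orthogonal Jacobi field between two times is at most its maximum at them -/
theorem max_bd (hO : BOrt) {g : Form n} {κ : ℝ} (hC : Cv g κ) {c J : ℝ → E n} (hu : UG g c)
    (hJ : NJ g c J) {t₀ t₁ t K : ℝ} (h0 : t₀ ≤ t) (h1 : t ≤ t₁)
    (hK0 : nrm g (c t₀) (J t₀) ≤ K) (hK1 : nrm g (c t₁) (J t₁) ≤ K) : nrm g (c t) (J t) ≤ K := by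
  have hc1 : Differentiable ℝ c := hu.geo.smooth.differentiable (by norm_num)
  have hJ1 : Differentiable ℝ J := hJ.jac.smooth.differentiable (by norm_num)
  obtain ⟨-, hM, -⟩ := p_NgMet n g hC.riem
  have hF : ∀ s, HasDerivAt (fun s => g.val (c s) (J s) (J s))
      (2 * g.val (c s) (cov g c J s) (J s)) s := by
    intro s
    have := hM c J J s (hc1 s) (hJ1 s) (hJ1 s)
    rw [g.symm (c s) (J s) (cov g c J s)] at this
    convert this using 1
    ring
  have hmono : Monotone (deriv (fun s => g.val (c s) (J s) (J s))) := by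
    intro x y hxy
    rw [(hF x).deriv, (hF y).deriv]
    rcases hxy.lt_or_eq with h | h
    · have := (((hO n g κ hC c J hu hJ.jac).2.2 hJ).2 x y h).1
      linarith
    · rw [h]
  have hconv : ConvexOn ℝ univ (fun s => g.val (c s) (J s) (J s)) :=
    Monotone.convexOn_univ_of_deriv (fun s => (hF s).differentiableAt) hmono
  have hK : 0 ≤ K := (Real.sqrt_nonneg _).trans hK0
  have hle : g.val (c t) (J t) (J t) ≤
      max (g.val (c t₀) (J t₀) (J t₀)) (g.val (c t₁) (J t₁) (J t₁)) := by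
    rcases (h0.trans h1).lt_or_eq with h | h
    · exact hconv.le_max_of_mem_Icc (mem_univ t₀) (mem_univ t₁) ⟨h0, h1⟩
    · have e : t = t₀ := le_antisymm (h ▸ h1) h0
      rw [e]; exact le_max_left _ _
  have s0 : g.val (c t₀) (J t₀) (J t₀) ≤ K ^ 2 := by
    have := Real.sqrt_le_left hK |>.1 hK0
    exact this
  have s1 : g.val (c t₁) (J t₁) (J t₁) ≤ K ^ 2 := by
    have := Real.sqrt_le_left hK |>.1 hK1
    exact this
  exact (Real.sqrt_le_left hK).2 (hle.trans (max_le s0 s1))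

/-- the code of `J` is `w` -/
def Cod (g : Form n) (c : ℝ → E n) (a : G) (l : ℝ) {V : Submodule ℝ (E n)} (J : ℝ → E n)
    (w : V × V) : Prop := NJ g c J ∧ J 0 = w.1 ∧ J l = dac a (c 0) w.2

/-- one step: the norm of `J` at `t + l` is the norm of `J'` at `t`, if `J'` has the code `T w` -/
theorem step (h3 : VJ3) {g : Form n} {κ : ℝ} {φ : ℝ → W n → W n} {M : ℝ → W n → W n →L[ℝ] W n}
    {lg : E n → E n → E n} {a : G} {c : ℝ → E n} {l : ℝ} {V : Submodule ℝ (E n)}
    (hP : Per n G g κ φ M lg a c l V) {T : (V × V) ≃L[ℝ] (V × V)}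
    (hT : IsTr (HH g φ a (c 0) l V) T) {J J' : ℝ → E n} {w : V × V}
    (hJ : Cod g c a l J w) (hJ' : Cod g c a l J' (T w)) (t : ℝ) :
    nrm g (c (t + l)) (J (t + l)) = nrm g (c t) (J' t) := by
  have h := (h3 n G g κ φ M lg a c l V hP T hT J J' w (T w) hJ.1 hJ'.1 hJ.2.1 hJ.2.2 hJ'.2.1
    hJ'.2.2).2 rfl t
  rw [nrm, nrm, h, hP.per t, hP.inv]

theorem fwd (h1 : VJ1) (h3 : VJ3) {g : Form n} {κ : ℝ} {φ : ℝ → W n → W n}
    {M : ℝ → W n → W n →L[ℝ] W n}
    {lg : E n → E n → E n} {a : G} {c : ℝ → E n} {l : ℝ} {V : Submodule ℝ (E n)}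
    (hP : Per n G g κ φ M lg a c l V) {T : (V × V) ≃L[ℝ] (V × V)}
    (hT : IsTr (HH g φ a (c 0) l V) T) (k : ℕ) : ∀ {J : ℝ → E n} {w : V × V},
    Cod g c a l J w → nrm g (c (k * l)) (J (k * l)) = nrm g (c 0) (((⇑T)^[k] w).1 : E n) := by
  have key : ∀ k : ℕ, ∀ {J : ℝ → E n} {w : V × V}, Cod g c a l J w →
      ∃ J', Cod g c a l J' ((⇑T)^[k] w) ∧
        ∀ t, nrm g (c (t + k * l)) (J (t + k * l)) = nrm g (c t) (J' t) := by
    intro k
    induction k with
    | zero =>
      intro J w hJ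
      refine ⟨J, hJ, fun t => ?_⟩
      simp
    | succ k ih =>
      intro J w hJ
      obtain ⟨J', hJ', hn⟩ := ih hJ
      obtain ⟨J'', hJ'', e1, e2⟩ := (h1 n G g κ φ M lg a c l V hP).2.1 (T ((⇑T)^[k] w))
      refine ⟨J'', ?_, fun t => ?_⟩
      · rw [Function.iterate_succ_apply']
        exact ⟨hJ'', e1, e2⟩
      · have e : t + ((k + 1 : ℕ) : ℝ) * l = (t + l) + k * l := by push_cast; ring
        rw [e, hn (t + l)]
        exact step h3 hP hT hJ' ⟨hJ'', e1, e2⟩ t
  intro J w hJ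
  obtain ⟨J', hJ', hn⟩ := key k hJ
  have := hn 0
  rw [zero_add] at this
  rw [this, hJ'.2.1]

theorem bwd (h1 : VJ1) (h3 : VJ3) {g : Form n} {κ : ℝ} {φ : ℝ → W n → W n}
    {M : ℝ → W n → W n →L[ℝ] W n}
    {lg : E n → E n → E n} {a : G} {c : ℝ → E n} {l : ℝ} {V : Submodule ℝ (E n)}
    (hP : Per n G g κ φ M lg a c l V) {T : (V × V) ≃L[ℝ] (V × V)}
    (hT : IsTr (HH g φ a (c 0) l V) T) (k : ℕ) : ∀ {J : ℝ → E n} {w : V × V},
    Cod g c a l J w →
    nrm g (c (-(k * l))) (J (-(k * l))) = nrm g (c 0) (((⇑T.symm)^[k] w).1 : E n) := by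
  have key : ∀ k : ℕ, ∀ {J : ℝ → E n} {w : V × V}, Cod g c a l J w →
      ∃ J', Cod g c a l J' ((⇑T.symm)^[k] w) ∧
        ∀ t, nrm g (c (t - k * l)) (J (t - k * l)) = nrm g (c t) (J' t) := by
    intro k
    induction k with
    | zero =>
      intro J w hJ
      refine ⟨J, hJ, fun t => ?_⟩
      simp
    | succ k ih =>
      intro J w hJ
      obtain ⟨J', hJ', hn⟩ := ih hJ
      obtain ⟨J'', hJ'', e1, e2⟩ := (h1 n G g κ φ M lg a c l V hP).2.1 (T.symm ((⇑T.symm)^[k] w))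
      refine ⟨J'', ?_, fun t => ?_⟩
      · rw [Function.iterate_succ_apply']
        exact ⟨hJ'', e1, e2⟩
      · have e : t - ((k + 1 : ℕ) : ℝ) * l = (t - l) - k * l := by push_cast; ring
        rw [e, hn (t - l)]
        have hst := step h3 hP hT (J := J'') (J' := J') (w := T.symm ((⇑T.symm)^[k] w))
          ⟨hJ'', e1, e2⟩ (by rw [T.apply_symm_apply]; exact hJ') (t - l)
        rw [sub_add_cancel] at hst
        exact hst.symm
  intro J w hJ
  obtain ⟨J', hJ', hn⟩ := key k hJ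
  have := hn 0
  rw [zero_sub] at this
  rw [this, hJ'.2.1]

end IVJ5

open IVJ5 in
theorem pr_VJ5 (h1 : VJ1) (h2 : VJ3) (h3 : BOrt) (h4 : BCr) : VJ5 := by
  intro n G _ _ g κ φ M lg a c l V hP T hT J w q hJ e1 e2
  have hcod : Cod g c a l J w := ⟨hJ, e1, e2⟩
  have hl := hP.pos
  have hfw := fun k => fwd h1 h2 hP hT k hcod
  have hbw := fun k => bwd h1 h2 hP hT k hcod
  obtain ⟨K, -, hK1, -, hK, -⟩ := h4 n G g κ φ M lg a c l V hP
  have hK0 : 0 ≤ K := by linarith
  have hT1 : ∀ x : V × V, (T x).1 = x.2 := fun x => (hT x.1 x.2).1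
  have hFW : ∀ k : ℕ, ‖((⇑T)^[k] w).1‖ ≤ K * nrm g (c (k * l)) (J (k * l)) := fun k => by
    rw [hfw k]; exact (hK _).1
  have hFW' : ∀ k : ℕ, nrm g (c (k * l)) (J (k * l)) ≤ K * ‖(⇑T)^[k] w‖ := fun k => by
    rw [hfw k]
    exact (hK _).2.trans (mul_le_mul_of_nonneg_left (norm_fst_le _) hK0)
  have hBW : ∀ k : ℕ, ‖((⇑T.symm)^[k] w).1‖ ≤ K * nrm g (c (-(k * l))) (J (-(k * l))) := fun k => by
    rw [hbw k]; exact (hK _).1
  have hBW' : ∀ k : ℕ, nrm g (c (-(k * l))) (J (-(k * l))) ≤ K * ‖(⇑T.symm)^[k] w‖ := fun k => by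
    rw [hbw k]
    exact (hK _).2.trans (mul_le_mul_of_nonneg_left (norm_fst_le _) hK0)
  have hFW2 : ∀ k : ℕ, ((⇑T)^[k] w).2 = ((⇑T)^[k + 1] w).1 := fun k => by
    rw [Function.iterate_succ_apply', hT1]
  have hBW2 : ∀ k : ℕ, ((⇑T.symm)^[k + 1] w).2 = ((⇑T.symm)^[k] w).1 := fun k => by
    rw [Function.iterate_succ_apply', ← hT1, T.apply_symm_apply]
  constructor
  · rintro ⟨-, ⟨C, hC⟩, hg⟩
    refine ⟨⟨max (K * C) ‖w.2‖, fun k => ?_⟩, fun Q hQ => ?_⟩
    · have a1 : ∀ k : ℕ, ‖((⇑T.symm)^[k] w).1‖ ≤ K * C := fun k =>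
        (hBW k).trans (mul_le_mul_of_nonneg_left (hC _ (by
          have : (0 : ℝ) ≤ k * l := by positivity
          linarith)) hK0)
      rw [Prod.norm_def]
      apply max_le ((a1 k).trans (le_max_left _ _))
      cases k with
      | zero => exact le_max_right _ _
      | succ k => rw [hBW2]; exact (a1 k).trans (le_max_left _ _)
    · obtain ⟨C', hC'⟩ := hg (Q / l) (by rw [lt_div_iff₀ hl]; exact hQ)
      have a1 : ∀ k : ℕ, ‖((⇑T)^[k] w).1‖ ≤ K * (C' * Real.exp (Q * k)) := fun k => by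
        refine (hFW k).trans (mul_le_mul_of_nonneg_left ?_ hK0)
        have := hC' (k * l) (by positivity)
        have e : Q / l * (k * l) = Q * k := by field_simp
        rwa [e] at this
      have hC0 : 0 ≤ C' := by
        have := (Real.sqrt_nonneg _).trans (hC' 0 le_rfl)
        simpa using this
      refine ⟨K * C' * max 1 (Real.exp Q), fun k => ?_⟩
      rw [Prod.norm_def]
      have hp : 0 ≤ K * C' := by positivity
      apply max_le
      · refine (a1 k).trans ?_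
        have : K * (C' * Real.exp (Q * k)) = K * C' * 1 * Real.exp (Q * k) := by ring
        rw [this]
        gcongr
        exact le_max_left _ _
      · rw [hFW2]
        refine (a1 (k + 1)).trans ?_
        have : K * (C' * Real.exp (Q * ((k + 1 : ℕ) : ℝ))) = K * C' * Real.exp Q * Real.exp (Q * k) := by
          rw [show Q * ((k + 1 : ℕ) : ℝ) = Q + Q * k by push_cast; ring, Real.exp_add]; ring
        rw [this]
        gcongr
        exact le_max_right _ _
  · rintro ⟨⟨C, hC⟩, hg⟩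
    have hCn : 0 ≤ C := (norm_nonneg _).trans (hC 0)
    refine ⟨hJ, ⟨K * C, fun t ht => ?_⟩, fun q' hq' => ?_⟩
    · set k : ℕ := ⌊-t / l⌋₊ with hk
      have h0 : 0 ≤ -t / l := by apply div_nonneg _ hl.le; linarith
      have b1 : (k : ℝ) * l ≤ -t := by
        rw [← le_div_iff₀ hl]; exact Nat.floor_le h0
      have b2 : -t < ((k + 1 : ℕ) : ℝ) * l := by
        rw [← div_lt_iff₀ hl]; push_cast; exact Nat.lt_floor_add_one _
      refine max_bd h3 (cv_of_per hP) hP.ug hJ (t₀ := -(((k + 1 : ℕ) : ℝ) * l)) (t₁ := -((k : ℝ) * l))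
        (by linarith) (by linarith) ?_ ?_
      · exact (hBW' (k + 1)).trans (mul_le_mul_of_nonneg_left (hC _) hK0)
      · exact (hBW' k).trans (mul_le_mul_of_nonneg_left (hC _) hK0)
    · obtain ⟨C', hC'⟩ := hg (q' * l) (by nlinarith)
      have hCn' : 0 ≤ C' := by
        have := (norm_nonneg _).trans (hC' 0)
        simpa using this
      refine ⟨K * (C' * Real.exp (|q'| * l)), fun t ht => ?_⟩
      set k : ℕ := ⌊t / l⌋₊ with hk
      have h0 : 0 ≤ t / l := div_nonneg ht hl.le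
      have b1 : (k : ℝ) * l ≤ t := by
        rw [← le_div_iff₀ hl]; exact Nat.floor_le h0
      have b2 : t < ((k + 1 : ℕ) : ℝ) * l := by
        rw [← div_lt_iff₀ hl]; push_cast; exact Nat.lt_floor_add_one _
      have b2' : t < (k : ℝ) * l + l := by push_cast at b2; linarith
      have hab := neg_abs_le q'
      have hab2 := le_abs_self q'
      have hab0 := abs_nonneg q'
      refine max_bd h3 (cv_of_per hP) hP.ug hJ (t₀ := (k : ℝ) * l) (t₁ := ((k + 1 : ℕ) : ℝ) * l)
        b1 b2.le ?_ ?_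
      · refine (hFW' k).trans ?_
        rw [mul_assoc]
        refine mul_le_mul_of_nonneg_left ((hC' k).trans ?_) hK0
        rw [mul_assoc C' (Real.exp (|q'| * l)) (Real.exp (q' * t))]
        refine mul_le_mul_of_nonneg_left ?_ hCn'
        rw [← Real.exp_add]
        apply Real.exp_le_exp.2
        nlinarith
      · refine (hFW' (k + 1)).trans ?_
        rw [mul_assoc]
        refine mul_le_mul_of_nonneg_left ((hC' (k + 1)).trans ?_) hK0
        rw [mul_assoc C' (Real.exp (|q'| * l)) (Real.exp (q' * t))]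
        refine mul_le_mul_of_nonneg_left ?_ hCn'
        rw [← Real.exp_add]
        apply Real.exp_le_exp.2
        push_cast
        nlinarith

end Pool.Agent.LX
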