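import Pool.Agent.Work.MP_25cd3b_gt.LX.StmtsV

set_option autoImplicit false

/-!
# MP_25cd3b_gt, block LX: item VTa (temporal displacements and the slow part)
-/

open MeasureTheory Set Filter Topology
open scoped ContDiff ENNReal
open Pool.Agent.Work.MP_c9f990_an.Al (IsFlow)

namespace Pool.Agent.LX

open Pool.Agent.MLS Pool.Agent.STR Pool.Agent.LR

namespace IVTa

theorem fc_mono {V : Type} [NormedAddCommGroup V] [NormedSpace ℝ V]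
    {L1 : V × V → V × V →L[ℝ] ℝ} {ρ ρ' : ℝ} (h : ρ ≤ ρ') {p : ℕ → V} (hp : Fc L1 ρ p) :
    Fc L1 ρ' p := ⟨fun j => (hp.small j).trans h, hp.el⟩

theorem bc_mono {V : Type} [NormedAddCommGroup V] [NormedSpace ℝ V]
    {L1 : V × V → V × V →L[ℝ] ℝ} {ρ ρ' : ℝ} (h : ρ ≤ ρ') {p : ℕ → V} (hp : Bc L1 ρ p) :
    Bc L1 ρ' p := ⟨fun j => (hp.small j).trans h, hp.el⟩

end IVTa

theorem pr_VTa (h1 : BGen) (h2 : BSm) (h3 : ZC4) (h4 : VTw) (h5 : KMain) (h6 : ZF) : VTa := by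
  intro n G _ _ g κ φ M lg a c l V hP T s s' q t₁ t Ps P B Bu hGr hs' hss hSpc hq ht
  obtain ⟨lam, K, r, hG⟩ := h1 n G g κ φ M lg a c l V hP
  obtain ⟨hL0, hL1, ⟨r₀, hr₀, hsm⟩, -⟩ := h2 n G g κ φ M lg a c l V hP
  obtain ⟨K', r', hC4⟩ := h3 V (Lk g φ a (c 0) l V) r₀ hr₀ hsm hL0 hL1
  have hTw := h4 n G g κ φ M lg a c l V hP
  obtain ⟨C₁, ρ₁, Q, f, hρ₁, hQ, hf, hM⟩ := h6 V lam K r K' r' (Lk g φ a (c 0) l V)
    (fderiv ℝ (Lk g φ a (c 0) l V)) (fderiv ℝ (fderiv ℝ (Lk g φ a (c 0) l V)))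
    (Dk g φ a (c 0) l V) T s s' q t₁ t Ps P B Bu hG hC4 hTw hGr hs' hss hSpc hq ht
  obtain ⟨C₂, ρ₂, k₀, hC₂, hρ₂, hK⟩ := h5 n G g κ φ M lg a c l V hP s s' hGr hs' hss
  have hC : C₁ ≤ |C₁| + C₂ := (le_abs_self C₁).trans (by linarith)
  refine ⟨|C₁| + C₂, min ρ₁ ρ₂, max k₀ 1, Q, f, lt_min hρ₁ hρ₂, ?_, ?_, ?_⟩
  · intro v hv
    obtain ⟨e1, e2⟩ := hQ v (IVTa.bc_mono (min_le_left _ _) hv)
    exact ⟨e1, e2.trans (mul_le_mul_of_nonneg_right hC (by positivity))⟩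
  · intro p hp w hw
    have e := hf p (IVTa.fc_mono (min_le_left _ _) hp) w hw
    refine e.trans ?_
    have h0 : 0 ≤ ‖p 0‖ ^ 2 * ‖w‖ := by positivity
    have := mul_le_mul_of_nonneg_right hC h0
    linarith
  · intro α β p v k hF hB hk
    obtain ⟨a₀, ha₀, hα⟩ := hF.st
    obtain ⟨b₀, hb₀, hβ⟩ := hB.st
    have hk0 : k₀ ≤ k := (le_max_left _ _).trans hk
    have hk1 : 1 ≤ k := (le_max_right _ _).trans hk
    have hle : min ρ₁ ρ₂ ≤ ρ₂ := min_le_right _ _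
    obtain ⟨τ, hτ, hτM⟩ := hK k α β (p 0) (v 0) a₀ b₀ hk0 hF.ug hB.ug (ha₀.trans hle)
      (hb₀.trans hle) ((hF.ch.small 0).trans hle) ((hB.ch.small 0).trans hle) hα hβ
      (fun x hx => (hF.near x hx).trans hle) (fun x hx => (hB.near x hx).trans hle) hF.as hB.as
    refine ⟨τ, hτ, ?_⟩
    have hZ := hM p v k (IVTa.fc_mono (min_le_left _ _) hF.ch)
      (IVTa.bc_mono (min_le_left _ _) hB.ch) hk1
    have hexp : Real.exp (-(2 * s' * k)) ≤ Real.exp (-(t * k)) := by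
      apply Real.exp_le_exp.2
      have : t * (k : ℝ) ≤ 2 * s' * k := mul_le_mul_of_nonneg_right ht.le (Nat.cast_nonneg k)
      linarith
    have hpos : 0 < Real.exp (-(t * (k : ℝ))) := Real.exp_pos _
    have e1 : |τ - f p ((⇑T.symm)^[k] (Q v))| ≤
        |τ - Mx (Dk g φ a (c 0) l V) k (p 0) (v 0)| +
          |Mx (Dk g φ a (c 0) l V) k (p 0) (v 0) - f p ((⇑T.symm)^[k] (Q v))| :=
      abs_sub_le _ _ _
    have e2 : C₂ * Real.exp (-(2 * s' * k)) ≤ C₂ * Real.exp (-(t * k)) :=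
      mul_le_mul_of_nonneg_left hexp hC₂.le
    have e3 : C₁ * Real.exp (-(t * k)) ≤ |C₁| * Real.exp (-(t * k)) :=
      mul_le_mul_of_nonneg_right (le_abs_self C₁) hpos.le
    calc |τ - f p ((⇑T.symm)^[k] (Q v))| ≤ _ := e1
      _ ≤ C₂ * Real.exp (-(t * k)) + |C₁| * Real.exp (-(t * k)) :=
        add_le_add (hτM.trans e2) (hZ.trans e3)
      _ = (|C₁| + C₂) * Real.exp (-(t * k)) := by ring

end Pool.Agent.LX

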