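import Pool.Agent.Work.MP_25cd3b_gt.LX.StmtsV
import Pool.Agent.Work.MP_25cd3b_gt.LX.I_JInv

set_option autoImplicit false

/-!
# MP_25cd3b_gt, block LX: item VTw (nondegeneracy of the mixed part of the second derivative)
-/

open MeasureTheory Set Filter Topology
open scoped ContDiff ENNReal
open Pool.Agent.Work.MP_c9f990_an.Al (IsFlow)

namespace Pool.Agent.LX

open Pool.Agent.MLS Pool.Agent.STR Pool.Agent.LR

theorem pr_VTw (h1 : BPos) (h2 : BBv) (h3 : BOrt) : VTw := by
  intro n G _ _ g κ φ M lg a c l V P v hv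
  exact IJInv.nondeg h2 h3 h1 P v hv

end Pool.Agent.LX
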