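import Pool.Agent.Work.MP_25cd3b_gt.LX.StmtsZ

set_option autoImplicit false

/-!
# MP_25cd3b_gt, block LX, part Z: asymptotics of perturbed linear orbits
-/

open Set Filter Topology
open scoped ContDiff

namespace Pool.Agent.LX

namespace IZAs

variable {S : Type} [NormedAddCommGroup S] [NormedSpace ℝ S]

theorem symm_comm (T : S ≃L[ℝ] S) (R : S →L[ℝ] S) (h : ∀ w, R (T w) = T (R w)) (w : S) :
    R (T.symm w) = T.symm (R w) := by
  apply T.injective
  rw [← h, T.apply_symm_apply, T.apply_symm_apply]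

theorem it_comm (T : S ≃L[ℝ] S) (R : S →L[ℝ] S) (h : ∀ w, R (T w) = T (R w)) (k : ℕ) (w : S) :
    R ((⇑T)^[k] w) = (⇑T)^[k] (R w) := by
  have hc : Function.Commute (⇑R) (⇑T) := h
  exact (hc.iterate_right k) w

theorem back (T : S ≃L[ℝ] S) (i j : ℕ) (w : S) :
    (⇑T.symm)^[i] ((⇑T)^[i + j] w) = (⇑T)^[j] w := by
  rw [Function.iterate_add_apply]
  have h : Function.LeftInverse (⇑T.symm) (⇑T) := fun x => T.symm_apply_apply x
  exact (h.iterate i) _

theorem geo_le {x : ℝ} (h0 : 0 ≤ x) (h1 : x < 1) (n : ℕ) :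
    ∑ m ∈ Finset.range n, x ^ m ≤ (1 - x)⁻¹ := by
  rw [← tsum_geometric_of_lt_one h0 h1]
  exact (summable_geometric_of_lt_one h0 h1).sum_le_tsum _ (fun i _ => by positivity)

theorem fast (T : S ≃L[ℝ] S) (Ps P : S →L[ℝ] S) (s t : ℝ)
    (cs : ∀ w, Ps (T w) = T (Ps w)) (cp : ∀ w, P (T w) = T (P w))
    (Cu : ℝ) (hCu : 0 ≤ Cu)
    (hu : ∀ (k : ℕ) (w : S), ‖(⇑T.symm)^[k] (w - Ps w - P w)‖ ≤ Cu * Real.exp (-(t * k)) * ‖w‖)
    (A ρ : ℝ) (θ : ℕ → S) (h0 : ‖θ 0‖ ≤ A * ρ)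
    (he : ∀ i : ℕ, ‖θ (i + 1) - T.symm (θ i)‖ ≤ A * ρ ^ 2 * Real.exp (-(2 * s * i))) (i : ℕ) :
    ∀ k : ℕ, ‖(⇑T.symm)^[k] (θ i - Ps (θ i) - P (θ i))‖ ≤
      Cu * A * Real.exp (-(t * (k + i))) *
        (ρ + Real.exp t * ρ ^ 2 * ∑ m ∈ Finset.range i, Real.exp (-(2 * s - t)) ^ m) := by
  induction i with
  | zero =>
    intro k
    have h1 := hu k (θ 0)
    have h2 : Cu * Real.exp (-(t * k)) * ‖θ 0‖ ≤ Cu * Real.exp (-(t * k)) * (A * ρ) :=
      mul_le_mul_of_nonneg_left h0 (by positivity)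
    simp only [Finset.range_zero, Finset.sum_empty, mul_zero, add_zero, Nat.cast_zero]
    calc _ ≤ _ := h1
      _ ≤ _ := h2
      _ = _ := by ring
  | succ i ih =>
    intro k
    obtain ⟨e, hedef⟩ : ∃ e : S, e = θ (i + 1) - T.symm (θ i) := ⟨_, rfl⟩
    have hee : ‖e‖ ≤ A * ρ ^ 2 * Real.exp (-(2 * s * i)) := by rw [hedef]; exact he i
    have hθ : θ (i + 1) = T.symm (θ i) + e := by rw [hedef]; abel
    have hdec : θ (i + 1) - Ps (θ (i + 1)) - P (θ (i + 1)) =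
        T.symm (θ i - Ps (θ i) - P (θ i)) + (e - Ps e - P e) := by
      rw [hθ, map_add Ps, map_add P, symm_comm T Ps cs, symm_comm T P cp, map_sub T.symm,
        map_sub T.symm]
      abel
    have h1 : ‖(⇑T.symm)^[k] (θ (i + 1) - Ps (θ (i + 1)) - P (θ (i + 1)))‖ ≤
        ‖(⇑T.symm)^[k + 1] (θ i - Ps (θ i) - P (θ i))‖ + ‖(⇑T.symm)^[k] (e - Ps e - P e)‖ := by
      rw [hdec, iterate_map_add, Function.iterate_succ_apply]
      exact norm_add_le _ _
    have h2 := ih (k + 1)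
    have h3 := hu k e
    have h4 : Cu * Real.exp (-(t * k)) * ‖e‖ ≤
        Cu * Real.exp (-(t * k)) * (A * ρ ^ 2 * Real.exp (-(2 * s * i))) :=
      mul_le_mul_of_nonneg_left hee (by positivity)
    have h5 : Real.exp (-(t * k)) * Real.exp (-(2 * s * i)) =
        Real.exp (-(t * (k + (i + 1)))) * Real.exp t * Real.exp (-(2 * s - t)) ^ i := by
      rw [← Real.exp_nat_mul, ← Real.exp_add, ← Real.exp_add, ← Real.exp_add]
      congr 1
      ring
    have h6 : Real.exp (-(t * ((k : ℝ) + 1 + i))) = Real.exp (-(t * (k + (i + 1)))) := by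
      congr 1
      ring
    push_cast at h2 ⊢
    rw [h6] at h2
    rw [Finset.sum_range_succ]
    have h7 : Cu * Real.exp (-(t * k)) * (A * ρ ^ 2 * Real.exp (-(2 * s * i))) =
        Cu * A * Real.exp (-(t * (k + (i + 1)))) *
          (Real.exp t * ρ ^ 2 * Real.exp (-(2 * s - t)) ^ i) := by
      calc _ = Cu * A * ρ ^ 2 * (Real.exp (-(t * k)) * Real.exp (-(2 * s * i))) := by ring
        _ = _ := by rw [h5]; ring
    calc _ ≤ _ := h1
      _ ≤ _ := add_le_add h2 (h3.trans (h4.trans h7.le))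
      _ = _ := by ring

theorem stab (T : S ≃L[ℝ] S) (Ps : S →L[ℝ] S) (s₀ s : ℝ) (hs₀ : 0 ≤ s₀)
    (cs : ∀ w, Ps (T w) = T (Ps w))
    (Cs : ℝ) (hCs : 0 ≤ Cs)
    (hb : ∀ (k : ℕ) (w : S), ‖(⇑T)^[k] (Ps w)‖ ≤ Cs * Real.exp (-(s₀ * k)) * ‖w‖)
    (A ρ : ℝ) (θ : ℕ → S)
    (he : ∀ i : ℕ, ‖θ (i + 1) - T.symm (θ i)‖ ≤ A * ρ ^ 2 * Real.exp (-(2 * s * i))) (i : ℕ)
    (n : ℕ) :
    ‖Ps (θ i)‖ ≤ ‖(⇑T)^[n] (Ps (θ (i + n)))‖ + Cs * A * ρ ^ 2 * Real.exp (-(2 * s * i)) *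
        ∑ m ∈ Finset.range n, Real.exp (-(2 * s)) ^ m := by
  induction n with
  | zero => simp
  | succ n ih =>
    set e : S := θ (i + n + 1) - T.symm (θ (i + n)) with hedef
    have hθ : θ (i + n) = T (θ (i + n + 1) - e) := by
      rw [hedef]
      rw [sub_sub_cancel, T.apply_symm_apply]
    have hdec : (⇑T)^[n] (Ps (θ (i + n))) =
        (⇑T)^[n + 1] (Ps (θ (i + n + 1))) - (⇑T)^[n + 1] (Ps e) := by
      rw [hθ, cs, map_sub, Function.iterate_succ_apply, Function.iterate_succ_apply, map_sub,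
        iterate_map_sub]
    have h1 : ‖(⇑T)^[n] (Ps (θ (i + n)))‖ ≤
        ‖(⇑T)^[n + 1] (Ps (θ (i + n + 1)))‖ + ‖(⇑T)^[n + 1] (Ps e)‖ := by
      rw [hdec]
      exact norm_sub_le _ _
    have h3 := hb (n + 1) e
    have h4 : Cs * Real.exp (-(s₀ * ((n + 1 : ℕ) : ℝ))) * ‖e‖ ≤
        Cs * 1 * (A * ρ ^ 2 * Real.exp (-(2 * s * ((i + n : ℕ) : ℝ)))) := by
      apply mul_le_mul _ (he (i + n)) (norm_nonneg _) (by positivity)
      apply mul_le_mul_of_nonneg_left _ hCs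
      rw [Real.exp_le_one_iff]
      have : (0 : ℝ) ≤ s₀ * ((n + 1 : ℕ) : ℝ) := by positivity
      linarith
    have h5 : Real.exp (-(2 * s * ((i + n : ℕ) : ℝ))) =
        Real.exp (-(2 * s * i)) * Real.exp (-(2 * s)) ^ n := by
      rw [← Real.exp_nat_mul, ← Real.exp_add]
      congr 1
      push_cast
      ring
    rw [h5] at h4
    rw [Finset.sum_range_succ]
    have h6 : i + (n + 1) = i + n + 1 := by ring
    rw [h6]
    calc _ ≤ _ := ih
      _ ≤ (‖(⇑T)^[n + 1] (Ps (θ (i + n + 1)))‖ +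
          Cs * 1 * (A * ρ ^ 2 * (Real.exp (-(2 * s * i)) * Real.exp (-(2 * s)) ^ n))) + _ :=
        add_le_add (h1.trans (add_le_add le_rfl (h3.trans h4))) le_rfl
      _ = _ := by ring

end IZAs

open IZAs in
/-- asymptotics of perturbed linear orbits -/
theorem pr_ZAs : ZAs := by
  intro S _ _ _ T s₀ s t₁ t Ps P h hs hss ht₁ htt ht A hA
  obtain ⟨Cs0, hbs0⟩ := h.bs
  obtain ⟨C20, hb20⟩ := h.b2
  obtain ⟨Cu0, hbu0⟩ := h.bu
  have fix : ∀ (c X Y : ℝ), 0 ≤ X → 0 ≤ Y → c * X * Y ≤ |c| * X * Y := by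
    intro c X Y hX hY
    exact mul_le_mul_of_nonneg_right (mul_le_mul_of_nonneg_right (le_abs_self c) hX) hY
  set Cs := |Cs0| with hCs
  set C2 := |C20| with hC2
  set Cu := |Cu0| with hCu
  have hCs0 : 0 ≤ Cs := abs_nonneg _
  have hC20 : 0 ≤ C2 := abs_nonneg _
  have hCu0 : 0 ≤ Cu := abs_nonneg _
  have hbs : ∀ (k : ℕ) (w : S), ‖(⇑T)^[k] (Ps w)‖ ≤ Cs * Real.exp (-(s₀ * k)) * ‖w‖ :=
    fun k w => (hbs0 k w).trans (fix _ _ _ (Real.exp_nonneg _) (norm_nonneg _))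
  have hb2 : ∀ (k : ℕ) (w : S), ‖(⇑T)^[k] (P w)‖ ≤ C2 * Real.exp (t₁ * k) * ‖w‖ :=
    fun k w => (hb20 k w).trans (fix _ _ _ (Real.exp_nonneg _) (norm_nonneg _))
  have hbu : ∀ (k : ℕ) (w : S),
      ‖(⇑T.symm)^[k] (w - Ps w - P w)‖ ≤ Cu * Real.exp (-(t * k)) * ‖w‖ :=
    fun k w => (hbu0 k w).trans (fix _ _ _ (Real.exp_nonneg _) (norm_nonneg _))
  set x := Real.exp (-(2 * s - t)) with hx
  set y := Real.exp (-(2 * s - t₁)) with hy
  set z := Real.exp (-(2 * s)) with hz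
  have hx0 : 0 ≤ x := Real.exp_nonneg _
  have hy0 : 0 ≤ y := Real.exp_nonneg _
  have hz0 : 0 ≤ z := Real.exp_nonneg _
  have hx1 : x < 1 := by rw [hx, Real.exp_lt_one_iff]; linarith
  have hy1 : y < 1 := by rw [hy, Real.exp_lt_one_iff]; linarith
  have hz1 : z < 1 := by rw [hz, Real.exp_lt_one_iff]; linarith
  have hxi : 0 ≤ (1 - x)⁻¹ := inv_nonneg.mpr (by linarith)
  have hyi : 0 ≤ (1 - y)⁻¹ := inv_nonneg.mpr (by linarith)
  have hzi : 0 ≤ (1 - z)⁻¹ := inv_nonneg.mpr (by linarith)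
  set F := Cu * A * (1 + Real.exp t * (1 - x)⁻¹) with hF
  set G := Cs * A * (1 - z)⁻¹ with hG
  set M := C2 * A * Real.exp t₁ * (1 - y)⁻¹ with hM
  have hF0 : 0 ≤ F := by positivity
  have hG0 : 0 ≤ G := by positivity
  have hM0 : 0 ≤ M := by positivity
  refine ⟨F + G + M, by positivity, ?_⟩
  intro ρ θ hρ hρ1 hθ he
  have h0 : ‖θ 0‖ ≤ A * ρ := by
    have := hθ 0
    simpa using this
  have hρ2 : ρ ^ 2 ≤ ρ := by nlinarith
  -- fast part
  have hfast : ∀ i : ℕ, ‖θ i - Ps (θ i) - P (θ i)‖ ≤ F * ρ * Real.exp (-(t * i)) := by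
    intro i
    have h1 := fast T Ps P s t h.cs h.cp Cu hCu0 hbu A ρ θ h0 he i 0
    simp only [Function.iterate_zero, id_eq, Nat.cast_zero, zero_add] at h1
    have h2 : ρ + Real.exp t * ρ ^ 2 * ∑ m ∈ Finset.range i, Real.exp (-(2 * s - t)) ^ m ≤
        ρ * (1 + Real.exp t * (1 - x)⁻¹) := by
      have h3 : Real.exp t * ρ ^ 2 * ∑ m ∈ Finset.range i, Real.exp (-(2 * s - t)) ^ m ≤
          Real.exp t * ρ * (1 - x)⁻¹ := by
        apply mul_le_mul
        · exact mul_le_mul_of_nonneg_left hρ2 (Real.exp_nonneg _)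
        · exact geo_le hx0 hx1 i
        · exact Finset.sum_nonneg (fun m _ => by positivity)
        · positivity
      linarith
    calc _ ≤ _ := h1
      _ ≤ Cu * A * Real.exp (-(t * i)) * (ρ * (1 + Real.exp t * (1 - x)⁻¹)) :=
        mul_le_mul_of_nonneg_left h2 (by positivity)
      _ = _ := by rw [hF]; ring
  -- stable part
  have hstab : ∀ i : ℕ, ‖Ps (θ i)‖ ≤ G * ρ ^ 2 * Real.exp (-(2 * s * i)) := by
    intro i
    have h1 : ∀ n : ℕ, ‖Ps (θ i)‖ ≤ Cs * A * ρ * z ^ n + G * ρ ^ 2 * Real.exp (-(2 * s * i)) := by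
      intro n
      have h2 := stab T Ps s₀ s (by linarith) h.cs Cs hCs0 hbs A ρ θ he i n
      have h3 := hbs n (θ (i + n))
      have h4 : Cs * Real.exp (-(s₀ * n)) * ‖θ (i + n)‖ ≤
          Cs * Real.exp (-(s₀ * n)) * (A * ρ * Real.exp (-(s * ((i + n : ℕ) : ℝ)))) :=
        mul_le_mul_of_nonneg_left (hθ _) (by positivity)
      have h5 : Real.exp (-(s₀ * n)) * Real.exp (-(s * ((i + n : ℕ) : ℝ))) ≤ z ^ n := by
        rw [hz, ← Real.exp_nat_mul, ← Real.exp_add, Real.exp_le_exp]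
        push_cast
        have h6 : s * n ≤ s₀ * n := mul_le_mul_of_nonneg_right hss (Nat.cast_nonneg _)
        have h7 : 0 ≤ s * i := by positivity
        nlinarith
      have h6 : Cs * Real.exp (-(s₀ * n)) * (A * ρ * Real.exp (-(s * ((i + n : ℕ) : ℝ)))) ≤
          Cs * A * ρ * z ^ n := by
        calc _ = Cs * A * ρ * (Real.exp (-(s₀ * n)) * Real.exp (-(s * ((i + n : ℕ) : ℝ)))) := by
              ring
          _ ≤ _ := mul_le_mul_of_nonneg_left h5 (by positivity)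
      have h7 : Cs * A * ρ ^ 2 * Real.exp (-(2 * s * i)) *
          ∑ m ∈ Finset.range n, Real.exp (-(2 * s)) ^ m ≤ G * ρ ^ 2 * Real.exp (-(2 * s * i)) := by
        calc _ ≤ Cs * A * ρ ^ 2 * Real.exp (-(2 * s * i)) * (1 - z)⁻¹ :=
              mul_le_mul_of_nonneg_left (geo_le hz0 hz1 n) (by positivity)
          _ = _ := by rw [hG]; ring
      calc _ ≤ _ := h2
        _ ≤ _ := add_le_add (h3.trans (h4.trans h6)) h7
    have hlim : Tendsto (fun n : ℕ => Cs * A * ρ * z ^ n + G * ρ ^ 2 * Real.exp (-(2 * s * i)))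
        atTop (𝓝 (Cs * A * ρ * 0 + G * ρ ^ 2 * Real.exp (-(2 * s * i)))) :=
      ((tendsto_pow_atTop_nhds_zero_of_lt_one hz0 hz1).const_mul _).add_const _
    have := ge_of_tendsto' hlim h1
    linarith
  -- slow part
  set q : ℕ → S := fun i => (⇑T)^[i] (P (θ i)) with hq
  have hstep : ∀ i j : ℕ, dist ((⇑T.symm)^[i] (q (i + j))) ((⇑T.symm)^[i] (q (i + (j + 1)))) ≤
      C2 * A * Real.exp t₁ * ρ ^ 2 * Real.exp (-(2 * s * i)) * y ^ j := by
    intro i j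
    set e : S := θ (i + j + 1) - T.symm (θ (i + j)) with hedef
    have hθe : θ (i + j + 1) = T.symm (θ (i + j)) + e := by rw [hedef]; abel
    have h1 : (⇑T.symm)^[i] (q (i + (j + 1))) = (⇑T.symm)^[i] (q (i + j)) + (⇑T)^[j + 1] (P e) := by
      have h2 : (⇑T.symm)^[i] (q (i + (j + 1))) = (⇑T)^[j + 1] (P (θ (i + j + 1))) := by
        simp only [hq]
        rw [back]
        rfl
      have h3 : (⇑T.symm)^[i] (q (i + j)) = (⇑T)^[j] (P (θ (i + j))) := by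
        simp only [hq]
        rw [back]
      rw [h2, h3, hθe, map_add, iterate_map_add, symm_comm T P h.cp,
        Function.iterate_succ_apply, T.apply_symm_apply]
    rw [h1, dist_eq_norm, sub_add_cancel_left, norm_neg]
    have h4 := hb2 (j + 1) e
    have h5 : C2 * Real.exp (t₁ * ((j + 1 : ℕ) : ℝ)) * ‖e‖ ≤
        C2 * Real.exp (t₁ * ((j + 1 : ℕ) : ℝ)) *
          (A * ρ ^ 2 * Real.exp (-(2 * s * ((i + j : ℕ) : ℝ)))) :=
      mul_le_mul_of_nonneg_left (he _) (by positivity)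
    have h6 : Real.exp (t₁ * ((j + 1 : ℕ) : ℝ)) * Real.exp (-(2 * s * ((i + j : ℕ) : ℝ))) =
        Real.exp t₁ * Real.exp (-(2 * s * i)) * y ^ j := by
      rw [hy, ← Real.exp_nat_mul, ← Real.exp_add, ← Real.exp_add, ← Real.exp_add]
      congr 1
      push_cast
      ring
    calc _ ≤ _ := h4
      _ ≤ _ := h5
      _ = C2 * A * ρ ^ 2 * (Real.exp (t₁ * ((j + 1 : ℕ) : ℝ)) *
          Real.exp (-(2 * s * ((i + j : ℕ) : ℝ)))) := by ring
      _ = _ := by rw [h6]; ring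
  have hcau : CauchySeq q := by
    apply cauchySeq_of_le_geometric y (C2 * A * Real.exp t₁ * ρ ^ 2) hy1
    intro n
    have := hstep 0 n
    simpa using this
  obtain ⟨Q, hQ⟩ := cauchySeq_tendsto_of_complete hcau
  have hPq : ∀ i, P (q i) = q i := by
    intro i
    simp only [hq]
    rw [it_comm T P h.cp, h.ip]
  have hPQ : P Q = Q := by
    have h1 : Tendsto (fun i => P (q i)) atTop (𝓝 (P Q)) :=
      (P.continuous.tendsto Q).comp hQ
    simp only [hPq] at h1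
    exact tendsto_nhds_unique h1 hQ
  have hslow : ∀ i : ℕ, ‖P (θ i) - (⇑T.symm)^[i] Q‖ ≤ M * ρ ^ 2 * Real.exp (-(2 * s * i)) := by
    intro i
    have hg : Tendsto (fun j : ℕ => (⇑T.symm)^[i] (q (i + j))) atTop (𝓝 ((⇑T.symm)^[i] Q)) := by
      have hc : Continuous ((⇑T.symm)^[i]) := T.symm.continuous.iterate i
      have h1 : Tendsto (fun j : ℕ => q (i + j)) atTop (𝓝 Q) := by
        have h2 : Tendsto (fun j : ℕ => i + j) atTop atTop := 
          tendsto_atTop_mono (fun j => Nat.le_add_left j i) tendsto_id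
        exact hQ.comp h2
      exact (hc.tendsto Q).comp h1
    have h2 := dist_le_of_le_geometric_of_tendsto₀ y
      (C2 * A * Real.exp t₁ * ρ ^ 2 * Real.exp (-(2 * s * i))) hy1 (hstep i) hg
    have h3 : (⇑T.symm)^[i] (q (i + 0)) = P (θ i) := by
      simp only [hq]
      rw [back]
      rfl
    rw [h3, dist_eq_norm] at h2
    calc _ ≤ _ := h2
      _ = _ := by rw [hM, div_eq_mul_inv]; ring
  have hCρ : ∀ c : ℝ, 0 ≤ c → c ≤ F + G + M → c * ρ ^ 2 ≤ (F + G + M) * ρ ^ 2 :=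
    fun c _ hc => mul_le_mul_of_nonneg_right hc (by positivity)
  refine ⟨Q, hPQ, ?_, ?_, ?_⟩
  · have h1 := hslow 0
    simp only [Function.iterate_zero, id_eq, Nat.cast_zero, mul_zero, neg_zero, Real.exp_zero,
      mul_one] at h1
    rw [norm_sub_rev]
    exact h1.trans (hCρ M hM0 (by linarith))
  · have h1 := hstab 0
    simp only [Nat.cast_zero, mul_zero, neg_zero, Real.exp_zero, mul_one] at h1
    exact h1.trans (hCρ G hG0 (by linarith))
  · intro i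
    have hexp : Real.exp (-(2 * s * i)) ≤ Real.exp (-(t * i)) := by
      rw [Real.exp_le_exp]
      have : t * i ≤ 2 * s * i := mul_le_mul_of_nonneg_right ht.le (Nat.cast_nonneg _)
      linarith
    have hb : ∀ c : ℝ, 0 ≤ c → c * ρ ^ 2 * Real.exp (-(2 * s * i)) ≤
        c * ρ * Real.exp (-(t * i)) := by
      intro c hc
      apply mul_le_mul (mul_le_mul_of_nonneg_left hρ2 hc) hexp (Real.exp_nonneg _)
      positivity
    have hdec : θ i - (⇑T.symm)^[i] Q =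
        (θ i - Ps (θ i) - P (θ i)) + Ps (θ i) + (P (θ i) - (⇑T.symm)^[i] Q) := by abel
    rw [hdec]
    calc _ ≤ ‖θ i - Ps (θ i) - P (θ i)‖ + ‖Ps (θ i)‖ + ‖P (θ i) - (⇑T.symm)^[i] Q‖ :=
          norm_add₃_le
      _ ≤ F * ρ * Real.exp (-(t * i)) + G * ρ * Real.exp (-(t * i)) +
          M * ρ * Real.exp (-(t * i)) :=
        add_le_add (add_le_add (hfast i) ((hstab i).trans (hb G hG0)))
          ((hslow i).trans (hb M hM0))
      _ = _ := by ring

end Pool.Agent.LX
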