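import Pool.Agent.Work.MP_25cd3b_gt.LX.StmtsV

set_option autoImplicit false
set_option maxSynthPendingDepth 3

open scoped ContDiff
open Set Metric

namespace Pool.Agent.LX

namespace IZC4

/-- Taylor formula of order one with an error bound for the derivative. -/
theorem taylor1 {h h' : ℝ → ℝ} {M : ℝ} (hd : ∀ s ∈ Icc (0 : ℝ) 1, HasDerivAt h (h' s) s)
    (hb : ∀ s ∈ Icc (0 : ℝ) 1, |h' s - h' 0| ≤ M) : |h 1 - h 0 - h' 0| ≤ M := by
  have h1 := norm_image_sub_le_of_norm_deriv_le_segment' (a := (0 : ℝ)) (b := 1)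
    (f := fun s => h s - s * h' 0) (f' := fun s => h' s - h' 0) (C := M)
    (fun s hs => by
      have h2 := (hd s hs).sub ((hasDerivAt_id s).mul_const (h' 0))
      rw [one_mul] at h2
      exact h2.hasDerivWithinAt)
    (fun s hs => by
      rw [Real.norm_eq_abs]
      exact hb s ⟨hs.1, hs.2.le⟩) 1 ⟨zero_le_one, le_refl _⟩
  rw [Real.norm_eq_abs] at h1
  have e : h 1 - 1 * h' 0 - (h 0 - 0 * h' 0) = h 1 - h 0 - h' 0 := by ring
  simp only [e] at h1
  linarith

variable {X : Type} [NormedAddCommGroup X] [NormedSpace ℝ X]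

/-- mixed differences of a function with Lipschitz derivative -/
theorem mixed {F : Type} [NormedAddCommGroup F] [NormedSpace ℝ F] {f : X → F} {f' : X → X →L[ℝ] F}
    {ρ K : ℝ} (hd : ∀ p, ‖p‖ < ρ → HasFDerivAt f (f' p) p)
    (hl : ∀ p q, ‖p‖ < ρ → ‖q‖ < ρ → ‖f' p - f' q‖ ≤ K * ‖p - q‖)
    {x x' u : X} (hx : ‖x‖ + ‖u‖ < ρ) (hx' : ‖x'‖ + ‖u‖ < ρ) :
    ‖(f (x + u) - f (x' + u)) - (f x - f x')‖ ≤ K * ‖x - x'‖ * ‖u‖ := by
  have h1 : Convex ℝ (closedBall (0 : X) ‖u‖) := convex_closedBall _ _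
  have h2 := h1.norm_image_sub_le_of_norm_hasFDerivWithin_le (𝕜 := ℝ)
    (f := fun w => f (x + w) - f (x' + w)) (f' := fun w => f' (x + w) - f' (x' + w))
    (C := K * ‖x - x'‖) (x := 0) (y := u)
    (fun w hw => by
      rw [mem_closedBall, dist_zero_right] at hw
      have a1 : ‖x + w‖ < ρ := (norm_add_le _ _).trans_lt (by linarith)
      have a2 : ‖x' + w‖ < ρ := (norm_add_le _ _).trans_lt (by linarith)
      have b1 : HasFDerivAt (fun w => f (x + w)) (f' (x + w)) w :=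
        (hd _ a1).comp w ((hasFDerivAt_id w).const_add x)
      have b2 : HasFDerivAt (fun w => f (x' + w)) (f' (x' + w)) w :=
        (hd _ a2).comp w ((hasFDerivAt_id w).const_add x')
      exact (b1.sub b2).hasFDerivWithinAt)
    (fun w hw => by
      rw [mem_closedBall, dist_zero_right] at hw
      have a1 : ‖x + w‖ < ρ := (norm_add_le _ _).trans_lt (by linarith)
      have a2 : ‖x' + w‖ < ρ := (norm_add_le _ _).trans_lt (by linarith)
      have := hl _ _ a1 a2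
      simpa using this)
    (by simp) (by simp)
  simpa using h2

theorem main (L : X → ℝ) (r₀ : ℝ) (hr₀ : 0 < r₀) (hL : ∀ p : X, ‖p‖ < r₀ → ContDiffAt ℝ ∞ L p)
    (h0 : L 0 = 0) (h1 : fderiv ℝ L 0 = 0) : ∃ K r : ℝ, 0 < r ∧ 0 ≤ K ∧
      (∀ p p', ‖p‖ < r → ‖p'‖ < r →
        ‖fderiv ℝ (fderiv ℝ L) p - fderiv ℝ (fderiv ℝ L) p'‖ ≤ K * ‖p - p'‖) ∧
      ∀ a b, ‖a‖ < r → ‖b‖ < r →
        |L (a + b) - L a - L b - fderiv ℝ L a b - fderiv ℝ L b a + fderiv ℝ (fderiv ℝ L) 0 a b| ≤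
          K * ‖a‖ ^ 2 * ‖b‖ ^ 2 := by
  set L1 := fderiv ℝ L with hL1
  set L2 := fderiv ℝ L1 with hL2
  set L3 := fderiv ℝ L2 with hL3
  have s1 : ∀ p : X, ‖p‖ < r₀ → ContDiffAt ℝ ∞ L1 p := fun p hp =>
    (hL p hp).fderiv_right (by simp)
  have s2 : ∀ p : X, ‖p‖ < r₀ → ContDiffAt ℝ ∞ L2 p := fun p hp =>
    (s1 p hp).fderiv_right (by simp)
  have s3 : ∀ p : X, ‖p‖ < r₀ → ContDiffAt ℝ ∞ L3 p := fun p hp =>
    (s2 p hp).fderiv_right (by simp)
  have d0 : ∀ p : X, ‖p‖ < r₀ → HasFDerivAt L (L1 p) p := fun p hp =>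
    ((hL p hp).differentiableAt (by simp)).hasFDerivAt
  have d1 : ∀ p : X, ‖p‖ < r₀ → HasFDerivAt L1 (L2 p) p := fun p hp =>
    ((s1 p hp).differentiableAt (by simp)).hasFDerivAt
  have d2 : ∀ p : X, ‖p‖ < r₀ → HasFDerivAt L2 (L3 p) p := fun p hp =>
    ((s2 p hp).differentiableAt (by simp)).hasFDerivAt
  have sy : ∀ p : X, ‖p‖ < r₀ → ∀ v w, L2 p v w = L2 p w v := fun p hp v w =>
    (hL p hp).isSymmSndFDerivAt (by
      simp only [minSmoothness_of_isRCLikeNormedField]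
      exact WithTop.coe_le_coe.2 le_top) v w
  obtain ⟨K2, t2, ht2, hK2⟩ := ((s2 0 (by simpa using hr₀)).of_le (m := 1) (by simp)).exists_lipschitzOnWith
  obtain ⟨K3, t3, ht3, hK3⟩ := ((s3 0 (by simpa using hr₀)).of_le (m := 1) (by simp)).exists_lipschitzOnWith
  obtain ⟨ρ2, hρ2, hb2⟩ := Metric.mem_nhds_iff.1 ht2
  obtain ⟨ρ3, hρ3, hb3⟩ := Metric.mem_nhds_iff.1 ht3
  obtain ⟨ρ, hρ, hρ0, hρ2', hρ3'⟩ : ∃ ρ : ℝ, 0 < ρ ∧ ρ ≤ r₀ ∧ ρ ≤ ρ2 ∧ ρ ≤ ρ3 :=
    ⟨min r₀ (min ρ2 ρ3), lt_min hr₀ (lt_min hρ2 hρ3), min_le_left _ _,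
      (min_le_right _ _).trans (min_le_left _ _), (min_le_right _ _).trans (min_le_right _ _)⟩
  have l2 : ∀ p q : X, ‖p‖ < ρ → ‖q‖ < ρ → ‖L2 p - L2 q‖ ≤ K2 * ‖p - q‖ := fun p q hp hq =>
    hK2.norm_sub_le (hb2 (by rw [mem_ball, dist_zero_right]; linarith))
      (hb2 (by rw [mem_ball, dist_zero_right]; linarith))
  have l3 : ∀ p q : X, ‖p‖ < ρ → ‖q‖ < ρ → ‖L3 p - L3 q‖ ≤ K3 * ‖p - q‖ := fun p q hp hq =>
    hK3.norm_sub_le (hb3 (by rw [mem_ball, dist_zero_right]; linarith))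
      (hb3 (by rw [mem_ball, dist_zero_right]; linarith))
  -- first application
  have A1 : ∀ x x' b y : X, ‖x‖ + ‖b‖ < ρ → ‖x'‖ + ‖b‖ < ρ →
      |(L1 (x + b) y - L1 (x' + b) y) - (L1 x y - L1 x' y) - (L2 x b y - L2 x' b y)| ≤
        K3 * ‖x - x'‖ * ‖b‖ ^ 2 * ‖y‖ := by
    intro x x' b y hx hx'
    have nb : ∀ s ∈ Icc (0 : ℝ) 1, ‖s • b‖ ≤ ‖b‖ := fun s hs => by
      rw [norm_smul, Real.norm_of_nonneg hs.1]
      exact mul_le_of_le_one_left (norm_nonneg _) hs.2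
    have key := taylor1 (h := fun s => L1 (x + s • b) y - L1 (x' + s • b) y)
      (h' := fun s => L2 (x + s • b) b y - L2 (x' + s • b) b y)
      (M := K3 * ‖x - x'‖ * ‖b‖ ^ 2 * ‖y‖)
      (fun s hs => by
        have e : ∀ z : X, ‖z‖ + ‖b‖ < ρ →
            HasDerivAt (fun s : ℝ => L1 (z + s • b) y) (L2 (z + s • b) b y) s := by
          intro z hz
          have hz' : ‖z + s • b‖ < r₀ := (norm_add_le _ _).trans_lt (by linarith [nb s hs])
          have g1 : HasDerivAt (fun s : ℝ => z + s • b) b s := by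
            simpa using ((hasDerivAt_id s).smul_const b).const_add z
          have g2 := (d1 _ hz').comp_hasDerivAt s g1
          have g3 := g2.clm_apply (hasDerivAt_const s y)
          simpa using g3
        exact (e x hx).sub (e x' hx'))
      (fun s hs => by
        have m := mixed (f := L2) (f' := L3) (ρ := ρ) (K := K3) (fun p hp => d2 p (by linarith)) l3
          (x := x) (x' := x') (u := s • b) (by linarith [nb s hs]) (by linarith [nb s hs])
        have e : (L2 (x + s • b) b y - L2 (x' + s • b) b y) -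
            (L2 (x + (0 : ℝ) • b) b y - L2 (x' + (0 : ℝ) • b) b y) =
            (((L2 (x + s • b) - L2 (x' + s • b)) - (L2 x - L2 x')) b) y := by
          simp
        show |(L2 (x + s • b) b y - L2 (x' + s • b) b y) -
            (L2 (x + (0 : ℝ) • b) b y - L2 (x' + (0 : ℝ) • b) b y)| ≤ _
        rw [e, ← Real.norm_eq_abs]
        refine (ContinuousLinearMap.le_opNorm₂ _ _ _).trans ?_
        have n1 := mul_le_mul_of_nonneg_left (nb s hs)
          (mul_nonneg K3.coe_nonneg (norm_nonneg (x - x')))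
        have n2 := m.trans n1
        calc _ ≤ (K3 * ‖x - x'‖ * ‖b‖) * ‖b‖ * ‖y‖ := by gcongr
          _ = _ := by ring)
    simpa using key
  refine ⟨max (K2 : ℝ) K3, ρ / 2, by linarith, le_max_of_le_left K2.coe_nonneg, ?_, ?_⟩
  · intro p p' hp hp'
    exact (l2 p p' (by linarith) (by linarith)).trans
      (mul_le_mul_of_nonneg_right (le_max_left _ _) (norm_nonneg _))
  · intro a b ha hb
    have na : ∀ s ∈ Icc (0 : ℝ) 1, ‖s • a‖ ≤ ‖a‖ := fun s hs => by
      rw [norm_smul, Real.norm_of_nonneg hs.1]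
      exact mul_le_of_le_one_left (norm_nonneg _) hs.2
    have key := taylor1 (h := fun s => L (s • a + b) - L (s • a) - L1 (s • a) b)
      (h' := fun s => L1 (s • a + b) a - L1 (s • a) a - L2 (s • a) a b)
      (M := K3 * ‖a‖ ^ 2 * ‖b‖ ^ 2)
      (fun s hs => by
        have hz1 : ‖s • a + b‖ < r₀ := (norm_add_le _ _).trans_lt (by linarith [na s hs])
        have hz2 : ‖s • a‖ < r₀ := by linarith [na s hs]
        have g0 : HasDerivAt (fun s : ℝ => s • a) a s := by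
          simpa using (hasDerivAt_id s).smul_const a
        have g1 : HasDerivAt (fun s : ℝ => L (s • a + b)) (L1 (s • a + b) a) s :=
          (d0 _ hz1).comp_hasDerivAt s (g0.add_const b)
        have g2 : HasDerivAt (fun s : ℝ => L (s • a)) (L1 (s • a) a) s :=
          (d0 _ hz2).comp_hasDerivAt s g0
        have g3 : HasDerivAt (fun s : ℝ => L1 (s • a) b) (L2 (s • a) a b) s := by
          have g5 : HasDerivAt (fun s : ℝ => L1 (s • a)) (L2 (s • a) a) s :=
            (d1 _ hz2).comp_hasDerivAt s g0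
          have g6 := g5.clm_apply (hasDerivAt_const s b)
          rw [map_zero, add_zero] at g6
          exact g6
        exact (g1.sub g2).sub g3)
      (fun s hs => by
        have m := A1 (s • a) 0 b a (by linarith [na s hs]) (by rw [norm_zero]; linarith)
        have hz2 : ‖s • a‖ < r₀ := by linarith [na s hs]
        rw [sy _ hz2 a b]
        have z0 : L2 0 a b = L2 0 b a := sy 0 (by simpa using hr₀) a b
        have e : (L1 (s • a + b) a - L1 (s • a) a - L2 (s • a) b a) -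
            (L1 ((0 : ℝ) • a + b) a - L1 ((0 : ℝ) • a) a - L2 ((0 : ℝ) • a) a b) =
            (L1 (s • a + b) a - L1 (0 + b) a) - (L1 (s • a) a - L1 0 a) -
              (L2 (s • a) b a - L2 0 b a) := by
          rw [zero_smul, z0]; ring
        rw [e]
        refine m.trans ?_
        rw [sub_zero]
        have n1 := na s hs
        calc (K3 : ℝ) * ‖s • a‖ * ‖b‖ ^ 2 * ‖a‖ ≤ K3 * ‖a‖ * ‖b‖ ^ 2 * ‖a‖ := by gcongr
          _ = _ := by ring)
    have e : L (a + b) - L a - L b - L1 a b - L1 b a + L2 0 a b =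
        (L ((1 : ℝ) • a + b) - L ((1 : ℝ) • a) - L1 ((1 : ℝ) • a) b) -
          (L ((0 : ℝ) • a + b) - L ((0 : ℝ) • a) - L1 ((0 : ℝ) • a) b) -
          (L1 ((0 : ℝ) • a + b) a - L1 ((0 : ℝ) • a) a - L2 ((0 : ℝ) • a) a b) := by
      rw [zero_smul, one_smul, zero_add, h0, h1]
      simp
      ring
    rw [e]
    refine key.trans ?_
    gcongr
    exact le_max_right _ _

end IZC4

theorem pr_ZC4 : ZC4 := by
  intro V _ _ _ L r₀ hr₀ hL h0 h1
  obtain ⟨K, r, e1, e2, e3, e4⟩ := IZC4.main L r₀ hr₀ hL h0 h1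
  exact ⟨K, r, ⟨e1, e2, e3, e4⟩⟩

end Pool.Agent.LX
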