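import Pool.Agent.Work.MP_25cd3b_gt.LX.StmtsZ

set_option autoImplicit false

/-!
# MP_25cd3b_gt, block LX, item ZDc: decay of infinite chains
-/

open Set Filter Topology
open scoped ContDiff

namespace Pool.Agent.LX.IZDc

/-- the limit `k → ∞` -/
theorem lim {x a C ρ s' : ℝ} (hs' : 0 < s') (j : ℕ)
    (h : ∀ k : ℕ, j ≤ k → x ≤ C * (a + Real.exp (-(s' * ((k : ℝ) - j))) * ρ)) : x ≤ C * a := by
  have h1 : Tendsto (fun k : ℕ => Real.exp (-(s' * ((k : ℝ) - j)))) atTop (𝓝 0) := by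
    refine Real.tendsto_exp_atBot.comp ?_
    refine tendsto_neg_atTop_atBot.comp ?_
    refine Tendsto.const_mul_atTop hs' ?_
    exact tendsto_atTop_add_const_right atTop (-(j : ℝ)) tendsto_natCast_atTop_atTop
  have h2 : Tendsto (fun k : ℕ => C * (a + Real.exp (-(s' * ((k : ℝ) - j))) * ρ)) atTop
      (𝓝 (C * (a + 0 * ρ))) := ((h1.mul_const ρ).const_add a).const_mul C
  rw [zero_mul, add_zero] at h2
  refine ge_of_tendsto h2 ?_
  filter_upwards [eventually_ge_atTop j] with k hk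
  exact h k hk

end Pool.Agent.LX.IZDc

namespace Pool.Agent.LX

theorem pr_ZDc (h1 : YDif) (h2 : XPer) : ZDc := by
  intro V _ _ _ lam K r L L1 L2 hC s s' hG hs' hss
  obtain ⟨ρ₀, C, hρ₀, hC1, hX⟩ := h2 V lam s s' (L2 0) hC.lam_pos hC.pos hG hs' hss
  have hK1 : 0 < K + 1 := by linarith [hC.K_nn]
  have hr := hC.r_pos
  have hρpos : 0 < min (r / 2) (ρ₀ / (K + 1)) := lt_min (by linarith) (by positivity)
  have hρr : min (r / 2) (ρ₀ / (K + 1)) < r := lt_of_le_of_lt (min_le_left _ _) (by linarith)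
  have hKρ : K * min (r / 2) (ρ₀ / (K + 1)) ≤ ρ₀ := by
    calc K * min (r / 2) (ρ₀ / (K + 1)) ≤ (K + 1) * (ρ₀ / (K + 1)) :=
          mul_le_mul (by linarith) (min_le_right _ _) hρpos.le hK1.le
      _ = ρ₀ := mul_div_cancel₀ _ hK1.ne'
  set ρ := min (r / 2) (ρ₀ / (K + 1)) with hρ
  have hEL0 : ∀ k, EL L1 k (fun _ => (0 : V)) := by
    intro k j _ w
    have e : ((0 : V), (0 : V)) = 0 := rfl
    simp only [e, hC.crit, ContinuousLinearMap.zero_apply, add_zero]
  have key : ∀ (k : ℕ) (q : ℕ → V), (∀ j, j ≤ k → ‖q j‖ ≤ ρ) → EL L1 k q → ∀ j ≤ k,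
      ‖q j‖ ≤ C * (Real.exp (-(s' * j)) * ‖q 0‖ + Real.exp (-(s' * ((k : ℝ) - j))) * ‖q k‖) := by
    intro k q hq hE j hj
    obtain ⟨H', hH', hS, -⟩ := h1 V lam K r L L1 L2 hC k (fun _ => 0) q ρ hρr
      (fun j _ => by simpa using hρpos.le) hq (hEL0 k) hE
    have := hX k H' (fun j hj => (hH' j hj).trans hKρ) _ hS j hj
    simpa only [sub_zero] using this
  refine ⟨C, ρ, hC1, hρpos, hρr, ?_, ?_⟩
  · intro p hp j
    have h3 : ‖p j‖ ≤ C * (Real.exp (-(s' * j)) * ‖p 0‖) := by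
      refine IZDc.lim (ρ := ρ) hs' j fun k hk => ?_
      refine (key k p (fun i _ => hp.small i) (hp.el k) j hk).trans ?_
      have := hp.small k
      gcongr
    calc ‖p j‖ ≤ C * (Real.exp (-(s' * j)) * ‖p 0‖) := h3
      _ = C * ‖p 0‖ * Real.exp (-(s' * j)) := by ring
  · intro v hv j
    have h3 : ‖v j‖ ≤ C * (Real.exp (-(s' * j)) * ‖v 0‖) := by
      refine IZDc.lim (ρ := ρ) hs' j fun k hk => ?_
      have h4 := key k (fun i => v (k - i)) (fun i _ => hv.small _) (hv.el k) (k - j)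
        (Nat.sub_le _ _)
      have e1 : k - (k - j) = j := by omega
      have e2 : ((k - j : ℕ) : ℝ) = (k : ℝ) - j := by
        rw [Nat.cast_sub hk]
      simp only [e1, Nat.sub_zero, Nat.sub_self] at h4
      rw [e2] at h4
      have e3 : (k : ℝ) - ((k : ℝ) - j) = j := by ring
      rw [e3] at h4
      refine h4.trans ?_
      have := hv.small k
      rw [add_comm]
      gcongr
    calc ‖v j‖ ≤ C * (Real.exp (-(s' * j)) * ‖v 0‖) := h3
      _ = C * ‖v 0‖ * Real.exp (-(s' * j)) := by ring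

end Pool.Agent.LX
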