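import Pool.Agent.Work.MP_25cd3b_gt.LX.StmtsZ

set_option autoImplicit false

/-! MP_25cd3b_gt, block LX, part Z, item ZF -/

open Set Filter Topology
open scoped ContDiff

namespace Pool.Agent.LX

namespace IZF

/-- the polynomial factor is absorbed -/
lemma poly (δ : ℝ) (hδ : 0 < δ) (k : ℕ) : ((k : ℝ) + 1) ≤ (1 + δ⁻¹) * Real.exp (δ * k) := by
  have h1 : δ * k + 1 ≤ Real.exp (δ * k) := Real.add_one_le_exp _
  have h2 : (1 : ℝ) ≤ Real.exp (δ * k) := by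
    have : 0 ≤ δ * (k : ℝ) := by positivity
    linarith
  have h3 : (k : ℝ) ≤ δ⁻¹ * Real.exp (δ * k) := by
    have : (k : ℝ) = δ⁻¹ * (δ * k) := by field_simp
    rw [this]
    have : δ * (k : ℝ) ≤ Real.exp (δ * (δ⁻¹ * (δ * k))) := by
      have e : δ * (δ⁻¹ * (δ * (k : ℝ))) = δ * k := by field_simp
      rw [e]; linarith
    exact mul_le_mul_of_nonneg_left this (by positivity)
  nlinarith

/-- existence of linear chains with given ends -/
lemma bvp (h5 : XBvp) (V : Type) [NormedAddCommGroup V] [NormedSpace ℝ V] [FiniteDimensional ℝ V]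
    (lam : ℝ) (hl : 0 < lam) (H : Bf V) (hH : Pos lam H) (k : ℕ) (hk : 1 ≤ k) (x z : V) :
    ∃ Y : ℕ → V, Sol (fun _ => H) k Y ∧ Y 0 = x ∧ Y k = z := by
  obtain ⟨m, rfl⟩ : ∃ m, k = m + 1 := ⟨k - 1, by omega⟩
  obtain ⟨Y, hY0, hYk, hY⟩ := h5 V lam hl (fun _ => H) (fun _ => hH) m x z (fun _ => 0)
  refine ⟨Y, ?_, hY0, hYk⟩
  intro j hj w
  simpa using hY j hj w

lemma fc_mono {V : Type} [NormedAddCommGroup V] [NormedSpace ℝ V]
    {L1 : V × V → V × V →L[ℝ] ℝ} {ρ ρ' : ℝ} (h : ρ ≤ ρ') {p : ℕ → V} (hp : Fc L1 ρ p) :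
    Fc L1 ρ' p := ⟨fun j => (hp.small j).trans h, hp.el⟩

lemma bc_mono {V : Type} [NormedAddCommGroup V] [NormedSpace ℝ V]
    {L1 : V × V → V × V →L[ℝ] ℝ} {ρ ρ' : ℝ} (h : ρ ≤ ρ') {p : ℕ → V} (hp : Bc L1 ρ p) :
    Bc L1 ρ' p := ⟨fun j => (hp.small j).trans h, hp.el⟩

end IZF

open IZF in
/-- item ZF -/
theorem pr_ZF (h1 : ZMb) (h2 : ZMc) (h3 : ZFf) (h4 : ZQv) (h5 : XBvp) : ZF := by
  classical
  intro V _ _ _ lam K r K' r' L L1 L2 D T s s' q t₁ t Ps P B Bu hg h4c htw hgr hs' hss hspc hq ht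
  obtain ⟨C1, ρ1, hρ1, H1⟩ := h1 V lam K r K' r' L L1 L2 D hg h4c s s' hgr hs' hss
  obtain ⟨C2, ρ2, hρ2, H2⟩ := h2 V lam K r L L1 L2 hg.ch s s' hgr hs' hss
  obtain ⟨C3, ρ3, hρ3, H3⟩ := h3 V lam K r L L1 L2 T s s' q t₁ t Ps P B Bu hg.ch htw hgr hs' hss
    hspc hq ht
  obtain ⟨C4, ρ4, hρ4, H4⟩ := h4 V lam K r L L1 L2 T s s' q t₁ t Ps P B Bu hg.ch htw hgr hs' hss
    hspc hq ht
  set ρ : ℝ := min (min ρ1 ρ2) (min ρ3 ρ4) with hρ
  have hρ0 : 0 < ρ := lt_min (lt_min hρ1 hρ2) (lt_min hρ3 hρ4)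
  have l1 : ρ ≤ ρ1 := (min_le_left _ _).trans (min_le_left _ _)
  have l2 : ρ ≤ ρ2 := (min_le_left _ _).trans (min_le_right _ _)
  have l3 : ρ ≤ ρ3 := (min_le_right _ _).trans (min_le_left _ _)
  have l4 : ρ ≤ ρ4 := (min_le_right _ _).trans (min_le_right _ _)
  choose! Q₀ hQ₀ using H4
  choose! f hf using H3
  set δ : ℝ := 2 * s' - t with hδ
  have hδ0 : 0 < δ := by linarith
  set C' : ℝ := |C4| * Real.exp t with hC'
  have hC'0 : 0 ≤ C' := by positivity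
  set nT : ℝ := ‖(T : (V × V) →L[ℝ] (V × V))‖ with hnT
  have hnT0 : 0 ≤ nT := norm_nonneg _
  set CC : ℝ := nT * |C4| + |C3| + (|C1| + |C2|) * (1 + δ⁻¹) + |C3| * (1 + C') with hCC
  have hδi : 0 ≤ δ⁻¹ := by positivity
  have c1 : nT * |C4| ≤ CC := by
    have : 0 ≤ |C3| + (|C1| + |C2|) * (1 + δ⁻¹) + |C3| * (1 + C') := by positivity
    linarith
  have c2 : C3 ≤ CC := by
    have : 0 ≤ nT * |C4| + (|C1| + |C2|) * (1 + δ⁻¹) + |C3| * (1 + C') := by positivity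
    have := le_abs_self C3
    linarith
  have c3 : (|C1| + |C2|) * (1 + δ⁻¹) + |C3| * (1 + C') ≤ CC := by
    have : 0 ≤ nT * |C4| + |C3| := by positivity
    linarith
  refine ⟨CC, ρ, fun v => T (Q₀ v), f, hρ0, ?_, ?_, ?_⟩
  · intro v hv
    obtain ⟨a1, -, a3, -⟩ := hQ₀ v (bc_mono l4 hv)
    refine ⟨?_, ?_⟩
    · show P (T (Q₀ v)) = T (Q₀ v)
      rw [hspc.spl.cp, a1]
    · show ‖T (Q₀ v) - T (P (Bu (v 0), v 0))‖ ≤ _
      rw [← map_sub]
      calc ‖T (Q₀ v - P (Bu (v 0), v 0))‖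
          ≤ nT * ‖Q₀ v - P (Bu (v 0), v 0)‖ :=
            (T : (V × V) →L[ℝ] (V × V)).le_opNorm _
        _ ≤ nT * (|C4| * ‖v 0‖ ^ 2) := by
            refine mul_le_mul_of_nonneg_left (a3.trans ?_) hnT0
            exact mul_le_mul_of_nonneg_right (le_abs_self _) (by positivity)
        _ = (nT * |C4|) * ‖v 0‖ ^ 2 := by ring
        _ ≤ CC * ‖v 0‖ ^ 2 := mul_le_mul_of_nonneg_right c1 (by positivity)
  · intro p hp w hw
    refine ((hf p (fc_mono l3 hp)).1 w hw).trans ?_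
    have : C3 * ‖p 0‖ ^ 2 ≤ CC * ‖p 0‖ ^ 2 := mul_le_mul_of_nonneg_right c2 (by positivity)
    exact mul_le_mul_of_nonneg_right this (norm_nonneg _)
  · intro p v k hp hv hk
    obtain ⟨Rx, hRx, hRx0, hRxk⟩ := bvp h5 V lam hg.ch.lam_pos (L2 0) hg.ch.pos k hk 0 (p k)
    obtain ⟨Rz, hRz, hRz0, hRzk⟩ := bvp h5 V lam hg.ch.lam_pos (L2 0) hg.ch.pos k hk (v k) 0
    have e1 := H1 k p v Rx Rz hk (fc_mono l1 hp) (bc_mono l1 hv) hRx hRx0 hRxk hRz hRz0 hRzk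
    have e2 := H2 k p v Rx Rz hk (fc_mono l2 hp) (bc_mono l2 hv) hRx hRx0 hRxk hRz hRz0 hRzk
    obtain ⟨a1, a2, -, a4⟩ := hQ₀ v (bc_mono l4 hv)
    have e3 := (hf p (fc_mono l3 hp)).2 k (Q₀ v) (fun j => v (k - j)) Rz C' hk a1 a2 hC'0 hRz
      (by simpa using hRz0) hRzk (by
        intro j hj
        have ha := a4 (k - (j + 1))
        have i1 : k - (j + 1) + 1 = k - j := by omega
        rw [i1] at ha
        refine ha.trans ?_
        have i2 : ((k - (j + 1) : ℕ) : ℝ) = (k : ℝ) - j - 1 := by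
          rw [Nat.cast_sub hj]; push_cast; ring
        rw [i2, hC', mul_assoc, ← Real.exp_add]
        have i3 : t + -(t * ((k : ℝ) - j)) = -(t * ((k : ℝ) - j - 1)) := by ring
        rw [i3]
        exact mul_le_mul_of_nonneg_right (le_abs_self _) (Real.exp_pos _).le)
    show |Mx D k (p 0) (v 0) - f p ((⇑T.symm)^[k] (T (Q₀ v)))| ≤ CC * Real.exp (-(t * k))
    set SS := ∑ j ∈ Finset.range k,
      (L1 (p j - Rx j, p (j + 1) - Rx (j + 1)) (v (k - j) - Rz j, v (k - (j + 1)) - Rz (j + 1)) +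
      L1 (v (k - j) - Rz j, v (k - (j + 1)) - Rz (j + 1)) (p j - Rx j, p (j + 1) - Rx (j + 1)) -
      L2 0 (p j - Rx j, p (j + 1) - Rx (j + 1)) (v (k - j) - Rz j, v (k - (j + 1)) - Rz (j + 1)))
      with hSS
    set F := Fk (L2 0) L1 p k (fun j => v (k - j)) Rz with hF
    set M := Mx D k (p 0) (v 0) with hM
    set X := f p ((⇑T.symm)^[k] (T (Q₀ v))) with hX
    have tri : |M - X| ≤ |M - SS| + |SS - F| + |F - X| := by
      have e : M - X = (M - SS) + (SS - F) + (F - X) := by ring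
      rw [e]
      exact abs_add_three _ _ _
    have hE : ((k : ℝ) + 1) * Real.exp (-(2 * s' * k)) ≤ (1 + δ⁻¹) * Real.exp (-(t * k)) := by
      have hp := poly δ hδ0 k
      have e : Real.exp (-(2 * s' * k)) * Real.exp (δ * k) = Real.exp (-(t * k)) := by
        rw [← Real.exp_add]; congr 1; rw [hδ]; ring
      calc ((k : ℝ) + 1) * Real.exp (-(2 * s' * k))
          ≤ ((1 + δ⁻¹) * Real.exp (δ * k)) * Real.exp (-(2 * s' * k)) :=
            mul_le_mul_of_nonneg_right hp (Real.exp_pos _).le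
        _ = (1 + δ⁻¹) * (Real.exp (-(2 * s' * k)) * Real.exp (δ * k)) := by ring
        _ = _ := by rw [e]
    have b1 : |M - SS| ≤ |C1| * ((1 + δ⁻¹) * Real.exp (-(t * k))) := by
      refine e1.trans ?_
      rw [mul_assoc]
      refine (mul_le_mul_of_nonneg_right (le_abs_self C1) (by positivity)).trans ?_
      exact mul_le_mul_of_nonneg_left hE (abs_nonneg _)
    have b2 : |SS - F| ≤ |C2| * ((1 + δ⁻¹) * Real.exp (-(t * k))) := by
      refine e2.trans ?_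
      rw [mul_assoc]
      refine (mul_le_mul_of_nonneg_right (le_abs_self C2) (by positivity)).trans ?_
      exact mul_le_mul_of_nonneg_left hE (abs_nonneg _)
    have b3 : |F - X| ≤ |C3| * (1 + C') * Real.exp (-(t * k)) := by
      refine e3.trans ?_
      have : C3 * (1 + C') ≤ |C3| * (1 + C') :=
        mul_le_mul_of_nonneg_right (le_abs_self _) (by positivity)
      exact mul_le_mul_of_nonneg_right this (Real.exp_pos _).le
    calc |M - X| ≤ |M - SS| + |SS - F| + |F - X| := tri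
      _ ≤ |C1| * ((1 + δ⁻¹) * Real.exp (-(t * k))) + |C2| * ((1 + δ⁻¹) * Real.exp (-(t * k))) +
          |C3| * (1 + C') * Real.exp (-(t * k)) := by linarith
      _ = ((|C1| + |C2|) * (1 + δ⁻¹) + |C3| * (1 + C')) * Real.exp (-(t * k)) := by ring
      _ ≤ CC * Real.exp (-(t * k)) := mul_le_mul_of_nonneg_right c3 (Real.exp_pos _).le

end Pool.Agent.LX
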