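import Pool.Agent.Work.MP_25cd3b_gt.LX.StmtsZ

set_option autoImplicit false

/-!
# MP_25cd3b_gt, block LX, part Z: the functional of a forward chain
-/

open Set Filter Topology
open scoped ContDiff

namespace Pool.Agent.LX
namespace IZFf

variable {V : Type} [NormedAddCommGroup V] [NormedSpace ℝ V]

/-- remainder bound -/
theorem c_bd {lam K r : ℝ} {L : V × V → ℝ} {L1 : V × V → V × V →L[ℝ] ℝ} {L2 : V × V → Bf V}
    (h : Ch lam K r L L1 L2) (a : V × V) (ha : ‖a‖ < r) : ‖L1 a - L2 0 a‖ ≤ K * ‖a‖ ^ 2 := by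
  have hd : ∀ x ∈ Metric.closedBall (0 : V × V) ‖a‖,
      HasFDerivWithinAt (fun x => L1 x - L2 0 x) (L2 x - L2 0) (Metric.closedBall 0 ‖a‖) x := by
    intro x hx
    have hx' : ‖x‖ < r := lt_of_le_of_lt (by simpa using hx) ha
    exact ((h.d2 x hx').sub (L2 0).hasFDerivAt).hasFDerivWithinAt
  have hb : ∀ x ∈ Metric.closedBall (0 : V × V) ‖a‖, ‖L2 x - L2 0‖ ≤ K * ‖a‖ := by
    intro x hx
    have hx1 : ‖x‖ ≤ ‖a‖ := by simpa using hx
    exact (h.lip x (lt_of_le_of_lt hx1 ha)).trans (mul_le_mul_of_nonneg_left hx1 h.K_nn)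
  have := (convex_closedBall (0 : V × V) ‖a‖).norm_image_sub_le_of_norm_hasFDerivWithin_le hd hb
    (Metric.mem_closedBall_self (norm_nonneg _)) (by simp : a ∈ Metric.closedBall (0 : V × V) ‖a‖)
  simpa [h.crit, pow_two, mul_assoc] using this

theorem orb_snd {H : Bf V} {T : (V × V) ≃L[ℝ] (V × V)} (hT : IsTr H T) (w : V × V) (j : ℕ) :
    ((⇑T)^[j] w).2 = ((⇑T)^[j + 1] w).1 := by
  rw [Function.iterate_succ_apply']
  exact ((hT _ _).1).symm

theorem orb_sol {H : Bf V} {T : (V × V) ≃L[ℝ] (V × V)} (hT : IsTr H T) (w : V × V) (k : ℕ) :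
    Sol (fun _ => H) k (fun j => ((⇑T)^[j] w).1) := by
  intro j _ w'
  have h := (hT ((⇑T)^[j] w).1 ((⇑T)^[j] w).2).2 w'
  have e : (T (((⇑T)^[j] w).1, ((⇑T)^[j] w).2)) = (⇑T)^[j + 1] w := by
    rw [Function.iterate_succ_apply']
  rw [e] at h
  show H (((⇑T)^[j] w).1, ((⇑T)^[j + 1] w).1) (0, w') +
    H (((⇑T)^[j + 1] w).1, ((⇑T)^[j + 1 + 1] w).1) (w', 0) = 0
  rw [← orb_snd hT w j, ← orb_snd hT w (j + 1)]
  exact h

theorem sol_sub {H : Bf V} {k : ℕ} {Y Z : ℕ → V} (hY : Sol (fun _ => H) k Y)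
    (hZ : Sol (fun _ => H) k Z) : Sol (fun _ => H) k (fun j => Y j - Z j) := by
  intro j hj w
  have h1 : H (Y j, Y (j + 1)) (0, w) + H (Y (j + 1), Y (j + 2)) (w, 0) = 0 := hY j hj w
  have h2 : H (Z j, Z (j + 1)) (0, w) + H (Z (j + 1), Z (j + 2)) (w, 0) = 0 := hZ j hj w
  have e1 : (Y j - Z j, Y (j + 1) - Z (j + 1)) = (Y j, Y (j + 1)) - (Z j, Z (j + 1)) := rfl
  have e2 : (Y (j + 1) - Z (j + 1), Y (j + 2) - Z (j + 2)) =
    (Y (j + 1), Y (j + 2)) - (Z (j + 1), Z (j + 2)) := rfl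
  show H (Y j - Z j, Y (j + 1) - Z (j + 1)) (0, w) +
    H (Y (j + 1) - Z (j + 1), Y (j + 2) - Z (j + 2)) (w, 0) = 0
  rw [e1, e2, map_sub, map_sub]
  simp only [sub_apply]
  linarith

theorem pow_it (T : (V × V) ≃L[ℝ] (V × V)) (j : ℕ) (x : V × V) :
    ((T : V × V →L[ℝ] V × V) ^ j) x = (⇑T)^[j] x := by
  induction j generalizing x with
  | zero => simp
  | succ n ih =>
    rw [pow_succ, mul_apply_eq_comp, ih, Function.iterate_succ_apply]
    rfl

theorem it_sub (T : (V × V) ≃L[ℝ] (V × V)) (j : ℕ) (x y : V × V) :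
    (⇑T)^[j] (x - y) = (⇑T)^[j] x - (⇑T)^[j] y := by
  rw [← pow_it, ← pow_it, ← pow_it, map_sub]

theorem hs_apply {f : ℕ → (V × V →L[ℝ] ℝ)} (h : Summable f) (w : V × V) :
    HasSum (fun j => f j w) ((∑' j, f j) w) := by
  have := (ContinuousLinearMap.apply ℝ ℝ w).hasSum h.hasSum
  simpa only [ContinuousLinearMap.apply_apply] using this

/-- comparison of two solutions, the first one vanishing at the end -/
theorem RY [FiniteDimensional ℝ V] {lam s : ℝ} {H : Bf V} (hl : 0 < lam) (hp : Pos lam H)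
    (hB : XBvp) {Cd : ℝ} (hCd : 0 ≤ Cd)
    (hd1 : ∀ (k : ℕ) (Z : ℕ → V), Sol (fun _ => H) k Z → Z 0 = 0 → ∀ j ≤ k,
      ‖Z j‖ ≤ Cd * Real.exp (-(s * ((k : ℝ) - j))) * ‖Z k‖)
    (hd2 : ∀ (k : ℕ) (Y : ℕ → V), Sol (fun _ => H) k Y → Y k = 0 → ∀ j ≤ k,
      ‖Y j‖ ≤ Cd * Real.exp (-(s * j)) * ‖Y 0‖)
    (hs : 0 < s) {k : ℕ} (hk : 1 ≤ k) {R Y : ℕ → V} (hR : Sol (fun _ => H) k R) (hRk : R k = 0)
    (hY : Sol (fun _ => H) k Y) (i : ℕ) (hi : i ≤ k) :
    ‖R i - Y i‖ ≤ Cd * ‖R 0 - Y 0‖ + Cd * Real.exp (-(s * ((k : ℝ) - i))) * ‖Y k‖ := by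
  obtain ⟨m, rfl⟩ : ∃ m, k = m + 1 := ⟨k - 1, by omega⟩
  obtain ⟨R', hR0, hRe, hRs⟩ := hB V lam hl (fun _ => H) (fun _ => hp) m (Y 0) 0 (fun _ => 0)
  have hRsol : Sol (fun _ => H) (m + 1) R' := fun j hj w => by simpa using hRs j hj w
  have ha := hd2 (m + 1) (fun j => R j - R' j) (sol_sub hR hRsol) (by simp [hRk, hRe]) i hi
  have hb := hd1 (m + 1) (fun j => R' j - Y j) (sol_sub hRsol hY) (by simp [hR0]) i hi
  simp only [hR0] at ha
  simp only [hRe, zero_sub, norm_neg] at hb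
  have he : Real.exp (-(s * i)) ≤ 1 := by
    rw [Real.exp_le_one_iff]
    have : 0 ≤ s * (i : ℝ) := by positivity
    linarith
  have ha' : ‖R i - R' i‖ ≤ Cd * ‖R 0 - Y 0‖ := by
    refine ha.trans ?_
    have : Cd * Real.exp (-(s * i)) ≤ Cd * 1 := mul_le_mul_of_nonneg_left he hCd
    calc Cd * Real.exp (-(s * i)) * ‖R 0 - Y 0‖ ≤ Cd * 1 * ‖R 0 - Y 0‖ :=
          mul_le_mul_of_nonneg_right this (norm_nonneg _)
      _ = Cd * ‖R 0 - Y 0‖ := by ring
  calc ‖R i - Y i‖ = ‖(R i - R' i) + (R' i - Y i)‖ := by congr 1; abel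
    _ ≤ ‖R i - R' i‖ + ‖R' i - Y i‖ := norm_add_le _ _
    _ ≤ _ := add_le_add ha' hb

end IZFf

open IZFf in
theorem pr_ZFf (h1 : ZDc) (h2 : XDec) (h3 : XBvp) : ZFf := by
  intro V _ _ _ lam K r L L1 L2 T s s' q₀ t₁ t Ps P B Bu hCh hTw hGr hs' hss' hSpc hq ht
  obtain ⟨C0, ρ, hC0, hρ, hρr, hfc, -⟩ := h1 V lam K r L L1 L2 hCh s s' hGr hs' hss'
  obtain ⟨Cd, hCd1, hd1, hd2⟩ := h2 V lam s (L2 0) hCh.lam_pos hCh.pos hGr
  have hCd : 0 ≤ Cd := by linarith
  have hs : 0 < s := hSpc.s_pos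
  have ht1 : 0 < t₁ := lt_of_le_of_lt hq hSpc.lt1
  have ht0 : 0 < t := ht1.trans hSpc.lt2
  -- constants
  obtain ⟨C2, hC2, hb2⟩ : ∃ C : ℝ, 0 ≤ C ∧ ∀ (k : ℕ) (w : V × V),
      ‖(⇑T)^[k] (P w)‖ ≤ C * Real.exp (t₁ * k) * ‖w‖ := by
    obtain ⟨C, hC⟩ := hSpc.spl.b2
    refine ⟨|C|, abs_nonneg _, fun k w => (hC k w).trans ?_⟩
    gcongr
    exact le_abs_self C
  obtain ⟨C3, hC3, hb3⟩ : ∃ C : ℝ, 0 ≤ C ∧ ∀ (k : ℕ) (x : V × V),
      ‖(⇑T)^[k] (x.1, B x.1)‖ ≤ C * Real.exp (-(s * k)) * ‖x‖ := by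
    obtain ⟨C, hC⟩ := hSpc.spl.bs
    refine ⟨|C| * (1 + ‖B‖), by positivity, fun k x => ?_⟩
    have h := hC k (x.1, B x.1)
    rw [hSpc.gs] at h
    have hx : ‖(x.1, B x.1)‖ ≤ (1 + ‖B‖) * ‖x‖ := by
      rw [Prod.norm_def]
      have hx1 : ‖x.1‖ ≤ ‖x‖ := norm_fst_le x
      have hB1 : ‖B x.1‖ ≤ ‖B‖ * ‖x‖ :=
        (B.le_opNorm _).trans (mul_le_mul_of_nonneg_left hx1 (norm_nonneg _))
      have hxn : 0 ≤ ‖x‖ := norm_nonneg x
      have hBn : 0 ≤ ‖B‖ * ‖x‖ := by positivity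
      refine max_le ?_ ?_ <;> simp only <;> nlinarith
    calc ‖(⇑T)^[k] (x.1, B x.1)‖ ≤ C * Real.exp (-(s * k)) * ‖(x.1, B x.1)‖ := h
      _ ≤ |C| * Real.exp (-(s * k)) * ‖(x.1, B x.1)‖ := by
          gcongr
          exact le_abs_self C
      _ ≤ |C| * Real.exp (-(s * k)) * ((1 + ‖B‖) * ‖x‖) := by gcongr
      _ = |C| * (1 + ‖B‖) * Real.exp (-(s * k)) * ‖x‖ := by ring
  obtain ⟨C5, hC5, hb5⟩ : ∃ C : ℝ, 0 ≤ C ∧ ∀ (k : ℕ) (w : V × V),
      ‖(⇑T.symm)^[k] (P w)‖ ≤ C * ‖w‖ := by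
    obtain ⟨C, hC⟩ := hSpc.spl.b1
    refine ⟨|C|, abs_nonneg _, fun k w => (hC k w).trans ?_⟩
    have he : Real.exp (-(s * k)) ≤ 1 := by
      rw [Real.exp_le_one_iff]
      have : 0 ≤ s * (k : ℝ) := by positivity
      linarith
    calc C * Real.exp (-(s * k)) * ‖w‖ ≤ |C| * Real.exp (-(s * k)) * ‖w‖ := by
          gcongr
          exact le_abs_self C
      _ ≤ |C| * 1 * ‖w‖ := by gcongr
      _ = |C| * ‖w‖ := by ring
  set a : ℝ := min (2 * s' - t) s' with ha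
  have ha0 : 0 < a := lt_min (by linarith) hs'
  have ha1 : a ≤ 2 * s' - t := min_le_left _ _
  have ha2 : a ≤ s' := min_le_right _ _
  set G : ℝ := (1 - Real.exp (-a))⁻¹ with hG
  have hx1 : Real.exp (-a) < 1 := by
    rw [Real.exp_lt_one_iff]
    linarith
  have hG0 : 0 ≤ G := inv_nonneg.2 (by linarith)
  have hgeo : HasSum (fun j : ℕ => Real.exp (-(a * j))) G := by
    have h := hasSum_geometric_of_lt_one (Real.exp_pos (-a)).le hx1
    have e : (fun j : ℕ => Real.exp (-(a * j))) = fun j : ℕ => Real.exp (-a) ^ j := by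
      funext j
      rw [← Real.exp_nat_mul]
      congr 1
      ring
    rw [e]
    exact h
  set M : ℝ := K * C0 ^ 2 with hM
  have hM0 : 0 ≤ M := mul_nonneg hCh.K_nn (sq_nonneg _)
  set E : V × V →L[ℝ] V × V := (ContinuousLinearMap.fst ℝ V V).prod
    (B.comp (ContinuousLinearMap.fst ℝ V V)) with hE
  have hEx : ∀ x : V × V, E x = (x.1, B x.1) := fun x => rfl
  let U : ℕ → (V × V →L[ℝ] V × V) := fun j => ((T : V × V →L[ℝ] V × V) ^ j).comp (P - E.comp P)
  have hU : ∀ j w, U j w = (⇑T)^[j] (P w) - (⇑T)^[j] ((P w).1, B (P w).1) := by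
    intro j w
    show ((T : V × V →L[ℝ] V × V) ^ j) (P w - E (P w)) = _
    rw [pow_it, it_sub, hEx]
  set C1 : ℝ := C2 + C3 * ‖P‖ with hC1
  have hC10 : 0 ≤ C1 := by positivity
  have hUb : ∀ j w, ‖U j w‖ ≤ C1 * Real.exp (t₁ * j) * ‖w‖ := by
    intro j w
    rw [hU]
    have he : Real.exp (-(s * j)) ≤ Real.exp (t₁ * j) := by
      rw [Real.exp_le_exp]
      have h1 : 0 ≤ s * (j : ℝ) := by positivity
      have h2 : 0 ≤ t₁ * (j : ℝ) := by positivity
      linarith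
    have hPw : ‖P w‖ ≤ ‖P‖ * ‖w‖ := P.le_opNorm w
    calc _ ≤ ‖(⇑T)^[j] (P w)‖ + ‖(⇑T)^[j] ((P w).1, B (P w).1)‖ := norm_sub_le _ _
      _ ≤ C2 * Real.exp (t₁ * j) * ‖w‖ + C3 * Real.exp (-(s * j)) * ‖P w‖ :=
          add_le_add (hb2 j w) (hb3 j (P w))
      _ ≤ C2 * Real.exp (t₁ * j) * ‖w‖ + C3 * Real.exp (t₁ * j) * (‖P‖ * ‖w‖) := by gcongr
      _ = C1 * Real.exp (t₁ * j) * ‖w‖ := by rw [hC1]; ring
  set C4 : ℝ := C2 * Real.exp t₁ + C3 * C5 with hC4
  have hC40 : 0 ≤ C4 := by positivity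
  set C7 : ℝ := Cd * (C3 * C5) * Real.exp s with hC7
  have hC70 : 0 ≤ C7 := by positivity
  set N : ℝ := 1 + Cd + C7 with hN
  have hN0 : 0 ≤ N := by positivity
  set Cf : ℝ := M * C1 * G + ‖L2 0‖ * ρ * N + M * ρ ^ 2 * N * G + M * ρ ^ 2 * C4 * G with hCf
  have hCf1 : M * C1 * G ≤ Cf := by
    have h1 : 0 ≤ ‖L2 0‖ * ρ * N := by positivity
    have h2 : 0 ≤ M * ρ ^ 2 * N * G := by positivity
    have h3 : 0 ≤ M * ρ ^ 2 * C4 * G := by positivity
    rw [hCf]
    linarith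
  have hCf2 : ‖L2 0‖ * ρ * N + M * ρ ^ 2 * N * G + M * ρ ^ 2 * C4 * G ≤ Cf := by
    have h1 : 0 ≤ M * C1 * G := by positivity
    rw [hCf]
    linarith
  refine ⟨Cf, ρ, hρ, fun p hp => ?_⟩
  have hp0 : ‖p 0‖ ≤ ρ := hp.small 0
  let c : ℕ → (V × V →L[ℝ] ℝ) := fun j => L1 (p j, p (j + 1)) - L2 0 (p j, p (j + 1))
  have hc : ∀ j, ‖c j‖ ≤ M * ‖p 0‖ ^ 2 * Real.exp (-(2 * s' * j)) := by
    intro j
    have hpj : ‖(p j, p (j + 1))‖ ≤ C0 * ‖p 0‖ * Real.exp (-(s' * j)) := by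
      rw [Prod.norm_def]
      refine max_le (hfc p hp j) ((hfc p hp (j + 1)).trans ?_)
      have : Real.exp (-(s' * ((j + 1 : ℕ) : ℝ))) ≤ Real.exp (-(s' * j)) := by
        rw [Real.exp_le_exp]
        push_cast
        nlinarith
      gcongr
    have hlt : ‖(p j, p (j + 1))‖ < r := by
      rw [Prod.norm_def]
      exact lt_of_le_of_lt (max_le (hp.small j) (hp.small (j + 1))) hρr
    have he : Real.exp (-(s' * j)) ^ 2 = Real.exp (-(2 * s' * j)) := by
      rw [← Real.exp_nat_mul]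
      congr 1
      push_cast
      ring
    refine (c_bd hCh _ hlt).trans ?_
    calc K * ‖(p j, p (j + 1))‖ ^ 2 ≤ K * (C0 * ‖p 0‖ * Real.exp (-(s' * j))) ^ 2 := by
          have := hCh.K_nn
          gcongr
      _ = M * ‖p 0‖ ^ 2 * Real.exp (-(s' * j)) ^ 2 := by rw [hM]; ring
      _ = M * ‖p 0‖ ^ 2 * Real.exp (-(2 * s' * j)) := by rw [he]
  have hcρ : ∀ j, ‖c j‖ ≤ M * ρ ^ 2 * Real.exp (-(2 * s' * j)) := by
    intro j
    refine (hc j).trans ?_
    gcongr
  have hcU : ∀ j, ‖(c j).comp (U j)‖ ≤ M * ‖p 0‖ ^ 2 * C1 * Real.exp (-(a * j)) := by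
    intro j
    have hUn : ‖U j‖ ≤ C1 * Real.exp (t₁ * j) :=
      ContinuousLinearMap.opNorm_le_bound _ (by positivity) (hUb j)
    have he : Real.exp (-(2 * s' * j)) * Real.exp (t₁ * j) ≤ Real.exp (-(a * j)) := by
      rw [← Real.exp_add, Real.exp_le_exp]
      have hj : (0 : ℝ) ≤ j := Nat.cast_nonneg j
      have : a * j ≤ (2 * s' - t₁) * j :=
        mul_le_mul_of_nonneg_right (by linarith [hSpc.lt2]) hj
      linarith
    calc ‖(c j).comp (U j)‖ ≤ ‖c j‖ * ‖U j‖ := ContinuousLinearMap.opNorm_comp_le _ _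
      _ ≤ (M * ‖p 0‖ ^ 2 * Real.exp (-(2 * s' * j))) * (C1 * Real.exp (t₁ * j)) :=
          mul_le_mul (hc j) hUn (norm_nonneg _) (by positivity)
      _ = M * ‖p 0‖ ^ 2 * C1 * (Real.exp (-(2 * s' * j)) * Real.exp (t₁ * j)) := by ring
      _ ≤ _ := by gcongr
  have hsum : Summable (fun j => (c j).comp (U j)) :=
    Summable.of_norm_bounded (hgeo.summable.mul_left _) hcU
  set F : V × V →L[ℝ] ℝ := ∑' j, (c j).comp (U j) with hF
  have hFw : ∀ w, HasSum (fun j => c j (U j w)) (F w) := by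
    intro w
    exact hs_apply hsum w
  let f0 : V × V →L[ℝ] ℝ := (((L2 0).flip (p 0, 0)).comp (ContinuousLinearMap.inr ℝ V V)).comp
    ((ContinuousLinearMap.snd ℝ V V - B.comp (ContinuousLinearMap.fst ℝ V V)).comp P)
  have hf0 : ∀ w, P w = w → f0 w = L2 0 (0, w.2 - B w.1) (p 0, 0) := by
    intro w hw
    show L2 0 (0, (P w).2 - B (P w).1) (p 0, 0) = _
    rw [hw]
  refine ⟨f0 + F, ?_, ?_⟩
  · intro w hw
    have e : (f0 + F) w - L2 0 (0, w.2 - B w.1) (p 0, 0) = F w := by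
      rw [← hf0 w hw]
      show f0 w + F w - f0 w = F w
      ring
    rw [e]
    have hb : |F w| ≤ M * ‖p 0‖ ^ 2 * C1 * ‖w‖ * G := by
      refine (hFw w).norm_le_of_bounded (hgeo.mul_left (M * ‖p 0‖ ^ 2 * C1 * ‖w‖)) (fun j => ?_)
      calc ‖c j (U j w)‖ = ‖((c j).comp (U j)) w‖ := rfl
        _ ≤ ‖(c j).comp (U j)‖ * ‖w‖ := ContinuousLinearMap.le_opNorm _ _
        _ ≤ M * ‖p 0‖ ^ 2 * C1 * Real.exp (-(a * j)) * ‖w‖ :=
            mul_le_mul_of_nonneg_right (hcU j) (norm_nonneg _)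
        _ = M * ‖p 0‖ ^ 2 * C1 * ‖w‖ * Real.exp (-(a * j)) := by ring
    calc |F w| ≤ _ := hb
      _ = (M * C1 * G) * ‖p 0‖ ^ 2 * ‖w‖ := by ring
      _ ≤ Cf * ‖p 0‖ ^ 2 * ‖w‖ := by gcongr
  · intro k Q q R C' hk hPQ hQ hC' hR hR0 hRk hqQ
    obtain ⟨m, rfl⟩ : ∃ m, k = m + 1 := ⟨k - 1, by omega⟩
    set w : V × V := (⇑T.symm)^[m + 1] (T Q) with hwdef
    have hw : w = (⇑T.symm)^[m] Q := by
      rw [hwdef, Function.iterate_succ_apply, T.symm_apply_apply]
    have hPsy : ∀ x, P (T.symm x) = T.symm (P x) := by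
      intro x
      have := hSpc.spl.cp (T.symm x)
      rw [T.apply_symm_apply] at this
      rw [this, T.symm_apply_apply]
    have hPn : ∀ n, P ((⇑T.symm)^[n] Q) = (⇑T.symm)^[n] Q := by
      intro n
      induction n with
      | zero => exact hPQ
      | succ n ih => rw [Function.iterate_succ_apply', hPsy, ih]
    have hPw : P w = w := by rw [hw]; exact hPn m
    have hinv : ∀ (j : ℕ) (x : V × V), (⇑T)^[j] ((⇑T.symm)^[j] x) = x := fun j x =>
      (Function.LeftInverse.iterate (g := ⇑T) (f := ⇑T.symm) (fun y => T.apply_symm_apply y) j) x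
    have hTw1 : ∀ j ≤ m, (⇑T)^[j] w = (⇑T.symm)^[m - j] Q := by
      intro j hj
      rw [hw]
      have e : (⇑T.symm)^[m] Q = (⇑T.symm)^[j] ((⇑T.symm)^[m - j] Q) := by
        rw [← Function.iterate_add_apply]
        congr 1
        omega
      rw [e, hinv]
    have hTw2 : ∀ i, (⇑T)^[i + (m + 1)] w = (⇑T)^[i + 1] Q := by
      intro i
      have e : i + (m + 1) = (i + 1) + m := by ring
      rw [e, Function.iterate_add_apply, hTw1 m le_rfl]
      simp
    have hwn : ‖w‖ ≤ C5 := by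
      rw [hw]
      have h := hb5 m Q
      rw [hPQ] at h
      calc _ ≤ C5 * ‖Q‖ := h
        _ ≤ C5 * 1 := by gcongr
        _ = C5 := by ring
    set kk : ℝ := ((m + 1 : ℕ) : ℝ) with hkk
    have hkk0 : 0 ≤ kk := Nat.cast_nonneg _
    let Y : ℕ → V := fun j => ((⇑T)^[j] (w.1, B w.1)).1
    have hYs : Sol (fun _ => L2 0) (m + 1) Y := orb_sol hSpc.tr _ _
    have hYp : ∀ j, (⇑T)^[j] (w.1, B w.1) = (Y j, Y (j + 1)) := fun j =>
      Prod.ext rfl (orb_snd hSpc.tr _ j)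
    have hYk : ‖Y (m + 1)‖ ≤ C3 * C5 * Real.exp (-(s * kk)) := by
      have h := hb3 (m + 1) w
      calc ‖Y (m + 1)‖ ≤ ‖(⇑T)^[m + 1] (w.1, B w.1)‖ := norm_fst_le _
        _ ≤ C3 * Real.exp (-(s * kk)) * ‖w‖ := h
        _ ≤ C3 * Real.exp (-(s * kk)) * C5 := by gcongr
        _ = C3 * C5 * Real.exp (-(s * kk)) := by ring
    have hδ : ‖R 0 - Y 0‖ ≤ C' * Real.exp (-(t * kk)) := by
      have h := hqQ 0 (by omega)
      have e : m + 1 - (0 + 1) = m := by omega
      rw [e, ← hw] at h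
      have h' : ‖(q 0, q (0 + 1)) - w‖ ≤ C' * Real.exp (-(t * kk)) := by
        refine h.trans (le_of_eq ?_)
        simp [hkk]
      have e2 : R 0 - Y 0 = ((q 0, q (0 + 1)) - w).1 := by
        rw [hR0]
        rfl
      rw [e2]
      exact (norm_fst_le _).trans h'
    have hRYi : ∀ i ≤ m + 1, ‖R i - Y i‖ ≤ Cd * (C' * Real.exp (-(t * kk))) +
        Cd * Real.exp (-(s * (kk - i))) * (C3 * C5 * Real.exp (-(s * kk))) := by
      intro i hi
      refine (RY hCh.lam_pos hCh.pos h3 hCd hd1 hd2 hs (by omega) hR hRk hYs i hi).trans ?_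
      gcongr
    let d : ℕ → V × V := fun j => (q j - R j, q (j + 1) - R (j + 1)) - U j w
    have hd : ∀ j ≤ m, ‖d j‖ ≤ C' * Real.exp (-(t * (kk - j))) +
        (Cd * (C' * Real.exp (-(t * kk))) + C7 * Real.exp (-(s' * (2 * kk - j)))) := by
      intro j hj
      have hjm : (j : ℝ) ≤ m := by exact_mod_cast hj
      have hjk : (j : ℝ) + 1 ≤ kk := by
        rw [hkk]
        push_cast
        linarith
      have e : d j = ((q j, q (j + 1)) - (⇑T.symm)^[m + 1 - (j + 1)] Q) -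
          (R j - Y j, R (j + 1) - Y (j + 1)) := by
        have e1 : m + 1 - (j + 1) = m - j := by omega
        show (q j - R j, q (j + 1) - R (j + 1)) - U j w = _
        rw [hU, hPw, hYp, hTw1 j hj, e1]
        ext <;> simp <;> abel
      have hi : ∀ i, i ≤ j + 1 → j ≤ i → ‖R i - Y i‖ ≤ Cd * (C' * Real.exp (-(t * kk))) +
          C7 * Real.exp (-(s' * (2 * kk - j))) := by
        intro i hi1 hi2
        refine (hRYi i (by omega)).trans ?_
        have hi1' : (i : ℝ) ≤ j + 1 := by exact_mod_cast hi1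
        have he : Real.exp (-(s * (kk - i))) * Real.exp (-(s * kk)) ≤
            Real.exp s * Real.exp (-(s' * (2 * kk - j))) := by
          rw [← Real.exp_add, ← Real.exp_add, Real.exp_le_exp]
          nlinarith
        have : Cd * Real.exp (-(s * (kk - i))) * (C3 * C5 * Real.exp (-(s * kk))) ≤
            C7 * Real.exp (-(s' * (2 * kk - j))) := by
          calc _ = Cd * (C3 * C5) * (Real.exp (-(s * (kk - i))) * Real.exp (-(s * kk))) := by ring
            _ ≤ Cd * (C3 * C5) * (Real.exp s * Real.exp (-(s' * (2 * kk - j)))) := by gcongr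
            _ = C7 * Real.exp (-(s' * (2 * kk - j))) := by rw [hC7]; ring
        linarith
      rw [e]
      refine (norm_sub_le _ _).trans (add_le_add (hqQ j (by omega)) ?_)
      rw [Prod.norm_def]
      exact max_le (hi j (by omega) le_rfl) (hi (j + 1) le_rfl (by omega))
    have hterm : ∀ j ≤ m, Real.exp (-(2 * s' * j)) * ‖d j‖ ≤
        N * (1 + C') * Real.exp (-(t * kk)) * Real.exp (-(a * j)) := by
      intro j hj
      have hj0 : (0 : ℝ) ≤ j := Nat.cast_nonneg j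
      have haj1 : a * j ≤ (2 * s' - t) * j := mul_le_mul_of_nonneg_right ha1 hj0
      have haj2 : a * j ≤ s' * j := mul_le_mul_of_nonneg_right ha2 hj0
      have hsj : 0 ≤ s' * j := by positivity
      have htk : t * kk ≤ 2 * s' * kk := mul_le_mul_of_nonneg_right ht.le hkk0
      have e1 : Real.exp (-(2 * s' * j)) * Real.exp (-(t * (kk - j))) ≤
          Real.exp (-(t * kk)) * Real.exp (-(a * j)) := by
        rw [← Real.exp_add, ← Real.exp_add, Real.exp_le_exp]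
        nlinarith
      have e2 : Real.exp (-(2 * s' * j)) * Real.exp (-(t * kk)) ≤
          Real.exp (-(t * kk)) * Real.exp (-(a * j)) := by
        rw [← Real.exp_add, ← Real.exp_add, Real.exp_le_exp]
        nlinarith
      have e3 : Real.exp (-(2 * s' * j)) * Real.exp (-(s' * (2 * kk - j))) ≤
          Real.exp (-(t * kk)) * Real.exp (-(a * j)) := by
        rw [← Real.exp_add, ← Real.exp_add, Real.exp_le_exp]
        nlinarith
      set X : ℝ := Real.exp (-(t * kk)) * Real.exp (-(a * j)) with hX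
      have hX0 : 0 ≤ X := by positivity
      calc Real.exp (-(2 * s' * j)) * ‖d j‖ ≤ Real.exp (-(2 * s' * j)) *
            (C' * Real.exp (-(t * (kk - j))) +
            (Cd * (C' * Real.exp (-(t * kk))) + C7 * Real.exp (-(s' * (2 * kk - j))))) :=
            mul_le_mul_of_nonneg_left (hd j hj) (Real.exp_pos _).le
        _ = C' * (Real.exp (-(2 * s' * j)) * Real.exp (-(t * (kk - j)))) +
            Cd * C' * (Real.exp (-(2 * s' * j)) * Real.exp (-(t * kk))) +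
            C7 * (Real.exp (-(2 * s' * j)) * Real.exp (-(s' * (2 * kk - j)))) := by ring
        _ ≤ C' * X + Cd * C' * X + C7 * X := by gcongr
        _ ≤ N * (1 + C') * X := by
            have h1 : 0 ≤ X * C7 * C' := by positivity
            have h2 : 0 ≤ X * Cd := by positivity
            rw [hN]
            nlinarith
        _ = _ := by rw [hX]; ring
    -- the three differences
    have hfirst : |L2 0 (0, q 1 - R 1) (p 0, 0) - f0 w| ≤
        ‖L2 0‖ * ρ * N * ((1 + C') * Real.exp (-(t * kk))) := by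
      have e0 : (d 0).2 = (q 1 - R 1) - (w.2 - B w.1) := by
        show ((q 0 - R 0, q (0 + 1) - R (0 + 1)) - U 0 w).2 = _
        rw [hU, hPw]
        simp
      have e : L2 0 (0, q 1 - R 1) (p 0, 0) - f0 w = L2 0 (0, (d 0).2) (p 0, 0) := by
        rw [hf0 w hPw, e0]
        have e1 : ((0 : V), q 1 - R 1 - (w.2 - B w.1)) = (0, q 1 - R 1) - (0, w.2 - B w.1) := by
          simp
        rw [e1, map_sub]
        rfl
      rw [e]
      have h0 := hterm 0 (Nat.zero_le _)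
      simp only [Nat.cast_zero, mul_zero, neg_zero, Real.exp_zero, one_mul, mul_one] at h0
      have hd2' : ‖((0 : V), (d 0).2)‖ ≤ ‖d 0‖ := by
        rw [Prod.norm_def]
        simp only [norm_zero]
        exact max_le (norm_nonneg _) (norm_snd_le _)
      have hp0' : ‖(p 0, (0 : V))‖ ≤ ρ := by
        rw [Prod.norm_def]
        simp only [norm_zero]
        exact max_le hp0 hρ.le
      calc |L2 0 (0, (d 0).2) (p 0, 0)| ≤ ‖L2 0‖ * ‖((0 : V), (d 0).2)‖ * ‖(p 0, (0 : V))‖ :=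
            (L2 0).le_opNorm₂ _ _
        _ ≤ ‖L2 0‖ * ‖d 0‖ * ρ := by gcongr
        _ ≤ ‖L2 0‖ * (N * (1 + C') * Real.exp (-(t * kk))) * ρ := by gcongr
        _ = _ := by ring
    have hmid : |∑ j ∈ Finset.range (m + 1), c j (d j)| ≤
        M * ρ ^ 2 * N * G * ((1 + C') * Real.exp (-(t * kk))) := by
      calc |∑ j ∈ Finset.range (m + 1), c j (d j)|
          ≤ ∑ j ∈ Finset.range (m + 1), |c j (d j)| := Finset.abs_sum_le_sum_abs _ _
        _ ≤ ∑ j ∈ Finset.range (m + 1),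
            (M * ρ ^ 2 * (N * (1 + C') * Real.exp (-(t * kk)))) * Real.exp (-(a * j)) := by
            refine Finset.sum_le_sum (fun j hj => ?_)
            have hj' : j ≤ m := Nat.lt_succ_iff.1 (Finset.mem_range.1 hj)
            calc |c j (d j)| ≤ ‖c j‖ * ‖d j‖ := (c j).le_opNorm _
              _ ≤ M * ρ ^ 2 * Real.exp (-(2 * s' * j)) * ‖d j‖ :=
                  mul_le_mul_of_nonneg_right (hcρ j) (norm_nonneg _)
              _ = M * ρ ^ 2 * (Real.exp (-(2 * s' * j)) * ‖d j‖) := by ring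
              _ ≤ M * ρ ^ 2 * (N * (1 + C') * Real.exp (-(t * kk)) * Real.exp (-(a * j))) :=
                  mul_le_mul_of_nonneg_left (hterm j hj') (by positivity)
              _ = _ := by ring
        _ = (M * ρ ^ 2 * (N * (1 + C') * Real.exp (-(t * kk)))) *
            ∑ j ∈ Finset.range (m + 1), Real.exp (-(a * j)) := by rw [Finset.mul_sum]
        _ ≤ (M * ρ ^ 2 * (N * (1 + C') * Real.exp (-(t * kk)))) * G := by
            refine mul_le_mul_of_nonneg_left ?_ (by positivity)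
            exact sum_le_hasSum _ (fun j _ => (Real.exp_pos _).le) hgeo
        _ = _ := by ring
    have htail : |F w - ∑ j ∈ Finset.range (m + 1), c j (U j w)| ≤
        M * ρ ^ 2 * C4 * G * ((1 + C') * Real.exp (-(t * kk))) := by
      have hs2 : HasSum (fun i => c (i + (m + 1)) (U (i + (m + 1)) w))
          (F w - ∑ j ∈ Finset.range (m + 1), c j (U j w)) :=
        (hasSum_nat_add_iff' (m + 1)).2 (hFw w)
      have hb := hs2.norm_le_of_bounded
        (hgeo.mul_left (M * ρ ^ 2 * C4 * Real.exp (-(t * kk)))) (fun i => ?_)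
      · refine hb.trans ?_
        have : 0 ≤ M * ρ ^ 2 * C4 * G * Real.exp (-(t * kk)) * C' := by positivity
        nlinarith
      · have hi0 : (0 : ℝ) ≤ i := Nat.cast_nonneg i
        have hUi : ‖U (i + (m + 1)) w‖ ≤ C4 * Real.exp (t₁ * i) := by
          rw [hU, hPw, hTw2]
          have h2' : ‖(⇑T)^[i + 1] Q‖ ≤ C2 * Real.exp t₁ * Real.exp (t₁ * i) := by
            have h := hb2 (i + 1) Q
            rw [hPQ] at h
            have e : Real.exp (t₁ * ((i + 1 : ℕ) : ℝ)) = Real.exp t₁ * Real.exp (t₁ * i) := by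
              rw [← Real.exp_add]
              congr 1
              push_cast
              ring
            rw [e] at h
            calc _ ≤ C2 * (Real.exp t₁ * Real.exp (t₁ * i)) * ‖Q‖ := h
              _ ≤ C2 * (Real.exp t₁ * Real.exp (t₁ * i)) * 1 := by gcongr
              _ = _ := by ring
          have h3' : ‖(⇑T)^[i + (m + 1)] (w.1, B w.1)‖ ≤ C3 * C5 * Real.exp (t₁ * i) := by
            have h := hb3 (i + (m + 1)) w
            have e : Real.exp (-(s * ((i + (m + 1) : ℕ) : ℝ))) ≤ Real.exp (t₁ * i) := by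
              rw [Real.exp_le_exp]
              have h1 : 0 ≤ s * ((i + (m + 1) : ℕ) : ℝ) := by positivity
              have h2 : 0 ≤ t₁ * (i : ℝ) := by positivity
              linarith
            calc _ ≤ C3 * Real.exp (-(s * ((i + (m + 1) : ℕ) : ℝ))) * ‖w‖ := h
              _ ≤ C3 * Real.exp (t₁ * i) * C5 := by gcongr
              _ = _ := by ring
          calc _ ≤ ‖(⇑T)^[i + 1] Q‖ + ‖(⇑T)^[i + (m + 1)] (w.1, B w.1)‖ := norm_sub_le _ _
            _ ≤ C2 * Real.exp t₁ * Real.exp (t₁ * i) + C3 * C5 * Real.exp (t₁ * i) :=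
                add_le_add h2' h3'
            _ = C4 * Real.exp (t₁ * i) := by rw [hC4]; ring
        have he : Real.exp (-(2 * s' * ((i + (m + 1) : ℕ) : ℝ))) * Real.exp (t₁ * i) ≤
            Real.exp (-(t * kk)) * Real.exp (-(a * i)) := by
          rw [← Real.exp_add, ← Real.exp_add, Real.exp_le_exp]
          have hc1 : ((i + (m + 1) : ℕ) : ℝ) = i + kk := by
            rw [hkk]
            push_cast
            ring
          rw [hc1]
          have haj1 : a * i ≤ (2 * s' - t) * i := mul_le_mul_of_nonneg_right ha1 hi0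
          have htk : t * kk ≤ 2 * s' * kk := mul_le_mul_of_nonneg_right ht.le hkk0
          have ht1i : t₁ * i ≤ t * i := mul_le_mul_of_nonneg_right hSpc.lt2.le hi0
          nlinarith
        calc ‖c (i + (m + 1)) (U (i + (m + 1)) w)‖
            ≤ ‖c (i + (m + 1))‖ * ‖U (i + (m + 1)) w‖ := (c _).le_opNorm _
          _ ≤ (M * ρ ^ 2 * Real.exp (-(2 * s' * ((i + (m + 1) : ℕ) : ℝ)))) *
              (C4 * Real.exp (t₁ * i)) :=
              mul_le_mul (hcρ _) hUi (norm_nonneg _) (by positivity)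
          _ = M * ρ ^ 2 * C4 * (Real.exp (-(2 * s' * ((i + (m + 1) : ℕ) : ℝ))) *
              Real.exp (t₁ * i)) := by ring
          _ ≤ M * ρ ^ 2 * C4 * (Real.exp (-(t * kk)) * Real.exp (-(a * i))) := by gcongr
          _ = _ := by ring
    have efin : Fk (L2 0) L1 p (m + 1) q R - (f0 + F) w =
        (L2 0 (0, q 1 - R 1) (p 0, 0) - f0 w) + ∑ j ∈ Finset.range (m + 1), c j (d j) -
        (F w - ∑ j ∈ Finset.range (m + 1), c j (U j w)) := by
      have e1 : ∑ j ∈ Finset.range (m + 1), c j (d j) =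
          ∑ j ∈ Finset.range (m + 1), c j (q j - R j, q (j + 1) - R (j + 1)) -
          ∑ j ∈ Finset.range (m + 1), c j (U j w) := by
        rw [← Finset.sum_sub_distrib]
        refine Finset.sum_congr rfl (fun j _ => ?_)
        exact map_sub (c j) _ _
      have e2 : Fk (L2 0) L1 p (m + 1) q R = L2 0 (0, q 1 - R 1) (p 0, 0) +
          ∑ j ∈ Finset.range (m + 1), c j (q j - R j, q (j + 1) - R (j + 1)) := rfl
      have e3 : (f0 + F) w = f0 w + F w := rfl
      rw [e1, e2, e3]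
      ring
    rw [efin]
    set Z : ℝ := (1 + C') * Real.exp (-(t * kk)) with hZ
    have hZ0 : 0 ≤ Z := by positivity
    calc _ ≤ |L2 0 (0, q 1 - R 1) (p 0, 0) - f0 w| + |∑ j ∈ Finset.range (m + 1), c j (d j)| +
          |F w - ∑ j ∈ Finset.range (m + 1), c j (U j w)| := by
          refine (abs_sub _ _).trans ?_
          exact add_le_add (abs_add_le _ _) le_rfl
      _ ≤ ‖L2 0‖ * ρ * N * Z + M * ρ ^ 2 * N * G * Z + M * ρ ^ 2 * C4 * G * Z :=
          add_le_add (add_le_add hfirst hmid) htail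
      _ = (‖L2 0‖ * ρ * N + M * ρ ^ 2 * N * G + M * ρ ^ 2 * C4 * G) * Z := by ring
      _ ≤ Cf * Z := mul_le_mul_of_nonneg_right hCf2 hZ0
      _ = _ := by rw [hZ]; ring

end Pool.Agent.LX
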