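import Pool.Agent.Work.MP_25cd3b_gt.LX.StmtsZ

set_option autoImplicit false

/-!
# MP_25cd3b_gt, block LX, item ZMa: sizes
-/

open Set Filter Topology
open scoped ContDiff

namespace Pool.Agent.LX

/-- item ZMa -/
theorem pr_ZMa (h1 : ZDc) (h2 : XPer) : ZMa := by
  intro V _ _ _ lam K r L L1 L2 hCh s s' hGr hs' hss ρ₀ hρ₀
  obtain ⟨C, ρ₁, hC, hρ₁, -, hF, hB⟩ := h1 V lam K r L L1 L2 hCh s s' hGr hs' hss
  obtain ⟨ρ₂, C₂, hρ₂, hC₂, hP⟩ := h2 V lam s s' (L2 0) hCh.lam_pos hCh.pos hGr hs' hss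
  have hC0 : 0 < C := by linarith
  have hC20 : 0 < C₂ := by linarith
  have hCC : 0 < C * C₂ := mul_pos hC0 hC20
  refine ⟨min ρ₁ (ρ₀ / (C * C₂)), lt_min hρ₁ (div_pos hρ₀ hCC), ?_⟩
  intro k p v Rx Rz hp hv hRx hRx0 hRxk hRz hRz0 hRzk j hj
  set ρ := min ρ₁ (ρ₀ / (C * C₂)) with hρ
  have hρ0 : 0 < ρ := lt_min hρ₁ (div_pos hρ₀ hCC)
  have hb : C * C₂ * ρ ≤ ρ₀ := by
    have h3 : ρ ≤ ρ₀ / (C * C₂) := min_le_right _ _
    rw [le_div_iff₀ hCC] at h3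
    linarith
  have hb' : C * ρ ≤ ρ₀ := by
    have h3 : C * ρ * 1 ≤ C * ρ * C₂ := mul_le_mul_of_nonneg_left hC₂ (by positivity)
    nlinarith
  have hp1 : Fc L1 ρ₁ p := ⟨fun i => (hp.small i).trans (min_le_left _ _), hp.el⟩
  have hv1 : Bc L1 ρ₁ v := ⟨fun i => (hv.small i).trans (min_le_left _ _), hv.el⟩
  have hpj : ∀ i : ℕ, ‖p i‖ ≤ C * ρ * Real.exp (-(s' * i)) := fun i =>
    (hF p hp1 i).trans (mul_le_mul_of_nonneg_right
      (mul_le_mul_of_nonneg_left (hp.small 0) hC0.le) (Real.exp_pos _).le)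
  have hvj : ∀ i : ℕ, ‖v i‖ ≤ C * ρ * Real.exp (-(s' * i)) := fun i =>
    (hB v hv1 i).trans (mul_le_mul_of_nonneg_right
      (mul_le_mul_of_nonneg_left (hv.small 0) hC0.le) (Real.exp_pos _).le)
  have hA : ∀ A : Bf V, ‖A - A‖ ≤ ρ₂ := fun A => by
    have h3 : A - A = 0 := sub_self A
    rw [h3]
    exact (le_of_eq ContinuousLinearMap.opNorm_zero).trans hρ₂.le
  have hH' : ∀ i, i < k → ‖(fun _ : ℕ => L2 0) i - L2 0‖ ≤ ρ₂ := fun i _ => hA (L2 0)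
  refine ⟨?_, ?_, ?_, ?_⟩
  · exact (hpj j).trans (mul_le_mul_of_nonneg_right hb' (Real.exp_pos _).le)
  · have h3 := hvj (k - j)
    rw [Nat.cast_sub hj] at h3
    exact h3.trans (mul_le_mul_of_nonneg_right hb' (Real.exp_pos _).le)
  · have h3 := hP k (fun _ => L2 0) hH' Rx hRx j hj
    rw [hRx0, hRxk, norm_zero, mul_zero, zero_add] at h3
    have h4 : Real.exp (-(s' * ((k : ℝ) - j))) * ‖p k‖ ≤
        Real.exp (-(s' * ((k : ℝ) - j))) * (C * ρ * Real.exp (-(s' * k))) :=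
      mul_le_mul_of_nonneg_left (hpj k) (Real.exp_pos _).le
    have h5 : Real.exp (-(s' * (2 * (k : ℝ) - j))) =
        Real.exp (-(s' * ((k : ℝ) - j))) * Real.exp (-(s' * k)) := by
      rw [← Real.exp_add]
      congr 1
      ring
    rw [h5]
    calc ‖Rx j‖ ≤ C₂ * (Real.exp (-(s' * ((k : ℝ) - j))) * ‖p k‖) := h3
      _ ≤ C₂ * (Real.exp (-(s' * ((k : ℝ) - j))) * (C * ρ * Real.exp (-(s' * k)))) :=
          mul_le_mul_of_nonneg_left h4 hC20.le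
      _ = (C * C₂ * ρ) * (Real.exp (-(s' * ((k : ℝ) - j))) * Real.exp (-(s' * k))) := by ring
      _ ≤ ρ₀ * (Real.exp (-(s' * ((k : ℝ) - j))) * Real.exp (-(s' * k))) :=
          mul_le_mul_of_nonneg_right hb (by positivity)
  · have h3 := hP k (fun _ => L2 0) hH' Rz hRz j hj
    rw [hRz0, hRzk, norm_zero, mul_zero, add_zero] at h3
    have h4 : Real.exp (-(s' * j)) * ‖v k‖ ≤
        Real.exp (-(s' * j)) * (C * ρ * Real.exp (-(s' * k))) :=
      mul_le_mul_of_nonneg_left (hvj k) (Real.exp_pos _).le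
    have h5 : Real.exp (-(s' * ((k : ℝ) + j))) =
        Real.exp (-(s' * j)) * Real.exp (-(s' * k)) := by
      rw [← Real.exp_add]
      congr 1
      ring
    rw [h5]
    calc ‖Rz j‖ ≤ C₂ * (Real.exp (-(s' * j)) * ‖v k‖) := h3
      _ ≤ C₂ * (Real.exp (-(s' * j)) * (C * ρ * Real.exp (-(s' * k)))) :=
          mul_le_mul_of_nonneg_left h4 hC20.le
      _ = (C * C₂ * ρ) * (Real.exp (-(s' * j)) * Real.exp (-(s' * k))) := by ring
      _ ≤ ρ₀ * (Real.exp (-(s' * j)) * Real.exp (-(s' * k))) :=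
          mul_le_mul_of_nonneg_right hb (by positivity)

end Pool.Agent.LX
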