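import Pool.Agent.Work.MP_25cd3b_gt.LX.StmtsZ

set_option autoImplicit false

/-!
# MP_25cd3b_gt, block LX, item ZMb: mixed second difference, first step
-/

open Set Filter Topology
open scoped ContDiff

namespace Pool.Agent.LX

namespace IZMb

variable {V : Type} [NormedAddCommGroup V] [NormedSpace ℝ V]

theorem tay1 {lam K r : ℝ} {L : V × V → ℝ} {L1 : V × V → V × V →L[ℝ] ℝ} {L2 : V × V → Bf V}
    (h : Ch lam K r L L1 L2) (a b : V × V) (hab : ‖a‖ + ‖b‖ < r) :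
    ‖L1 (a - b) - L1 a + L2 0 b‖ ≤ K * (‖a‖ + ‖b‖) * ‖b‖ := by
  have hc : Convex ℝ (Metric.closedBall (0 : V × V) (‖a‖ + ‖b‖)) := convex_closedBall _ _
  have key := hc.norm_image_sub_le_of_norm_hasFDerivWithin_le (f := fun x => L1 x - L2 0 x)
    (f' := fun x => L2 x - L2 0) (C := K * (‖a‖ + ‖b‖)) (x := a) (y := a - b)
    (fun x hx => by
      have hx' : ‖x‖ < r := lt_of_le_of_lt (mem_closedBall_zero_iff.1 hx) hab
      exact ((h.d2 x hx').sub (L2 0).hasFDerivAt).hasFDerivWithinAt)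
    (fun x hx => by
      have hx1 := mem_closedBall_zero_iff.1 hx
      have hx' : ‖x‖ < r := lt_of_le_of_lt hx1 hab
      exact (h.lip x hx').trans (mul_le_mul_of_nonneg_left hx1 h.K_nn))
    (mem_closedBall_zero_iff.2 (by linarith [norm_nonneg b]))
    (mem_closedBall_zero_iff.2 (norm_sub_le a b))
  have e : (fun x => L1 x - L2 0 x) (a - b) - (fun x => L1 x - L2 0 x) a
      = L1 (a - b) - L1 a + L2 0 b := by
    simp only [map_sub]; abel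
  have e2 : ‖a - b - a‖ = ‖b‖ := by
    rw [show a - b - a = -b by abel, norm_neg]
  rw [e, e2] at key
  exact key

theorem tay2 {lam K r K' r' : ℝ} {L : V × V → ℝ} {L1 : V × V → V × V →L[ℝ] ℝ}
    {L2 : V × V → Bf V} (h : Ch lam K r L L1 L2) (h4 : Ch4 K' r' L L1 L2) (a b : V × V)
    (hab : ‖a‖ + ‖b‖ < r) (hab' : ‖a‖ + ‖b‖ < r') :
    ‖L1 (a + b) - L1 a - L1 b‖ ≤ K' * ‖b‖ * ‖a‖ := by
  have hc : Convex ℝ (Metric.closedBall (0 : V × V) ‖a‖) := convex_closedBall _ _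
  have hn : ∀ x ∈ Metric.closedBall (0 : V × V) ‖a‖, ‖x‖ ≤ ‖a‖ ∧ ‖x + b‖ ≤ ‖a‖ + ‖b‖ := by
    intro x hx
    have hx1 := mem_closedBall_zero_iff.1 hx
    exact ⟨hx1, (norm_add_le x b).trans (by linarith)⟩
  have hb := norm_nonneg b
  have key := hc.norm_image_sub_le_of_norm_hasFDerivWithin_le (f := fun x => L1 (x + b) - L1 x)
    (f' := fun x => L2 (x + b) - L2 x) (C := K' * ‖b‖) (x := 0) (y := a)
    (fun x hx => by
      obtain ⟨hx1, hx2⟩ := hn x hx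
      have e1 := h.d2 x (by linarith)
      have e2 := (h.d2 (x + b) (by linarith)).comp x ((hasFDerivAt_id x).add_const b)
      exact (HasFDerivAt.sub (f := fun x => L1 (x + b)) (by simpa [Function.comp_def] using e2) e1).hasFDerivWithinAt)
    (fun x hx => by
      obtain ⟨hx1, hx2⟩ := hn x hx
      have := h4.lip2 (x + b) x (by linarith) (by linarith)
      rwa [add_sub_cancel_left] at this)
    (mem_closedBall_zero_iff.2 (by simp))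
    (mem_closedBall_zero_iff.2 le_rfl)
  have e : (fun x => L1 (x + b) - L1 x) a - (fun x => L1 (x + b) - L1 x) 0
      = L1 (a + b) - L1 a - L1 b := by
    simp only [zero_add, h.crit, sub_zero]
  rw [e, sub_zero] at key
  exact key

theorem app_le (f : V × V →L[ℝ] ℝ) (x : V × V) (c n : ℝ) (hf : ‖f‖ ≤ c) (hx : ‖x‖ ≤ n) :
    |f x| ≤ c * n := by
  have h0 : |f x| ≤ ‖f‖ * ‖x‖ := by
    have := f.le_opNorm x
    rwa [Real.norm_eq_abs] at this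
  exact h0.trans (mul_le_mul hf hx (norm_nonneg _) ((norm_nonneg _).trans hf))

omit [NormedSpace ℝ V] in
theorem n0w (w : V) : ‖((0 : V), w)‖ ≤ ‖w‖ := by
  rw [Prod.norm_def]; simp

omit [NormedSpace ℝ V] in
theorem nw0 (w : V) : ‖(w, (0 : V))‖ ≤ ‖w‖ := by
  rw [Prod.norm_def]; simp

/-- residual of a corrected chain -/
theorem resSub {lam K r : ℝ} {L : V × V → ℝ} {L1 : V × V → V × V →L[ℝ] ℝ} {L2 : V × V → Bf V}
    (h : Ch lam K r L L1 L2) (a b c d : V × V) (η : ℝ) (hab : ‖a‖ + ‖b‖ < r)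
    (hcd : ‖c‖ + ‖d‖ < r) (hab' : K * ((‖a‖ + ‖b‖) * ‖b‖) ≤ η)
    (hcd' : K * ((‖c‖ + ‖d‖) * ‖d‖) ≤ η) (w : V)
    (he : L1 a (0, w) + L1 c (w, 0) = 0) (hl : L2 0 b (0, w) + L2 0 d (w, 0) = 0) :
    |L1 (a - b) (0, w) + L1 (c - d) (w, 0)| ≤ 2 * η * ‖w‖ := by
  have h1 := app_le (L1 (a - b) - L1 a + L2 0 b) (0, w) η ‖w‖
    ((tay1 h a b hab).trans (by rw [mul_assoc]; exact hab')) (n0w w)
  have h2 := app_le (L1 (c - d) - L1 c + L2 0 d) (w, 0) η ‖w‖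
    ((tay1 h c d hcd).trans (by rw [mul_assoc]; exact hcd')) (nw0 w)
  have e1 : (L1 (a - b) - L1 a + L2 0 b) (0, w)
      = L1 (a - b) (0, w) - L1 a (0, w) + L2 0 b (0, w) := rfl
  have e2 : (L1 (c - d) - L1 c + L2 0 d) (w, 0)
      = L1 (c - d) (w, 0) - L1 c (w, 0) + L2 0 d (w, 0) := rfl
  rw [e1] at h1
  rw [e2] at h2
  have h1' := abs_le.1 h1
  have h2' := abs_le.1 h2
  rw [abs_le]
  constructor <;> linarith [h1'.1, h1'.2, h2'.1, h2'.2]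

theorem resAdd {lam K r K' r' : ℝ} {L : V × V → ℝ} {L1 : V × V → V × V →L[ℝ] ℝ}
    {L2 : V × V → Bf V} (h : Ch lam K r L L1 L2) (h4 : Ch4 K' r' L L1 L2) (a b c d : V × V)
    (η θ : ℝ) (hab : ‖a‖ + ‖b‖ < r) (hab1 : ‖a‖ + ‖b‖ < r')
    (hcd : ‖c‖ + ‖d‖ < r) (hcd1 : ‖c‖ + ‖d‖ < r') (hab' : K' * (‖b‖ * ‖a‖) ≤ η)
    (hcd' : K' * (‖d‖ * ‖c‖) ≤ η) (w : V)
    (h1 : |L1 a (0, w) + L1 c (w, 0)| ≤ θ * ‖w‖) (h2 : |L1 b (0, w) + L1 d (w, 0)| ≤ θ * ‖w‖) :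
    |L1 (a + b) (0, w) + L1 (c + d) (w, 0)| ≤ (2 * η + 2 * θ) * ‖w‖ := by
  have h3 := app_le (L1 (a + b) - L1 a - L1 b) (0, w) η ‖w‖
    ((tay2 h h4 a b hab hab1).trans (by rw [mul_assoc]; exact hab')) (n0w w)
  have h4' := app_le (L1 (c + d) - L1 c - L1 d) (w, 0) η ‖w‖
    ((tay2 h h4 c d hcd hcd1).trans (by rw [mul_assoc]; exact hcd')) (nw0 w)
  have e1 : (L1 (a + b) - L1 a - L1 b) (0, w)
      = L1 (a + b) (0, w) - L1 a (0, w) - L1 b (0, w) := rfl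
  have e2 : (L1 (c + d) - L1 c - L1 d) (w, 0)
      = L1 (c + d) (w, 0) - L1 c (w, 0) - L1 d (w, 0) := rfl
  rw [e1] at h3
  rw [e2] at h4'
  have h1' := abs_le.1 h1
  have h2' := abs_le.1 h2
  have h3' := abs_le.1 h3
  have h4'' := abs_le.1 h4'
  rw [abs_le]
  constructor <;> linarith [h1'.1, h1'.2, h2'.1, h2'.2, h3'.1, h3'.2, h4''.1, h4''.2]

omit [NormedSpace ℝ V] in
theorem pr_le (x y : V) (c : ℝ) (hx : ‖x‖ ≤ c) (hy : ‖y‖ ≤ c) : ‖(x, y)‖ ≤ c := by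
  rw [Prod.norm_def]; exact max_le hx hy

omit [NormedSpace ℝ V] in
/-- sizes of the links -/
theorem bd (s' ρ₀ : ℝ) (hs' : 0 < s') (hρ₀ : 0 < ρ₀) (k : ℕ) (p q Rx Rz : ℕ → V)
    (hb : ∀ j ≤ k, ‖p j‖ ≤ ρ₀ * Real.exp (-(s' * j)) ∧
      ‖q j‖ ≤ ρ₀ * Real.exp (-(s' * ((k : ℝ) - j))) ∧
      ‖Rx j‖ ≤ ρ₀ * Real.exp (-(s' * (2 * (k : ℝ) - j))) ∧
      ‖Rz j‖ ≤ ρ₀ * Real.exp (-(s' * ((k : ℝ) + j)))) (j : ℕ) (hj : j + 1 ≤ k) :
    ∃ α β : ℝ, 0 ≤ α ∧ 0 ≤ β ∧ α ≤ 1 ∧ β ≤ 1 ∧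
      α * β = Real.exp s' * Real.exp (-(s' * k)) ∧
      β * Real.exp (-(s' * k)) ≤ α ∧ α * Real.exp (-(s' * k)) ≤ β ∧
      ‖(p j, p (j + 1))‖ ≤ ρ₀ * α ∧ ‖(q j, q (j + 1))‖ ≤ ρ₀ * β ∧
      ‖(Rx j, Rx (j + 1))‖ ≤ ρ₀ * (β * Real.exp (-(s' * k))) ∧
      ‖(Rz j, Rz (j + 1))‖ ≤ ρ₀ * (α * Real.exp (-(s' * k))) := by
  have hjk : (j : ℝ) + 1 ≤ k := by exact_mod_cast hj
  have hj0 : (0 : ℝ) ≤ j := Nat.cast_nonneg j
  obtain ⟨a1, a2, a3, a4⟩ := hb j (by omega)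
  obtain ⟨b1, b2, b3, b4⟩ := hb (j + 1) hj
  push_cast at b1 b2 b3 b4
  have hex : ∀ x y : ℝ, x ≤ y → ρ₀ * Real.exp x ≤ ρ₀ * Real.exp y := fun x y hxy =>
    mul_le_mul_of_nonneg_left (Real.exp_le_exp.2 hxy) hρ₀.le
  refine ⟨Real.exp (-(s' * j)), Real.exp (-(s' * ((k : ℝ) - (j + 1)))), (Real.exp_pos _).le,
    (Real.exp_pos _).le, ?_, ?_, ?_, ?_, ?_, ?_, ?_, ?_, ?_⟩
  · rw [Real.exp_le_one_iff]
    have := mul_nonneg hs'.le hj0
    linarith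
  · rw [Real.exp_le_one_iff]
    have := mul_nonneg hs'.le (show (0 : ℝ) ≤ (k : ℝ) - (j + 1) by linarith)
    linarith
  · rw [← Real.exp_add, ← Real.exp_add]
    congr 1
    ring
  · rw [← Real.exp_add]
    apply Real.exp_le_exp.2
    nlinarith
  · rw [← Real.exp_add]
    apply Real.exp_le_exp.2
    nlinarith
  · exact pr_le _ _ _ a1 (b1.trans (hex _ _ (by nlinarith)))
  · exact pr_le _ _ _ (a2.trans (hex _ _ (by nlinarith))) b2
  · rw [← Real.exp_add]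
    exact pr_le _ _ _ (a3.trans (hex _ _ (by nlinarith))) (b3.trans (hex _ _ (by nlinarith)))
  · rw [← Real.exp_add]
    exact pr_le _ _ _ (a4.trans (hex _ _ (by nlinarith))) (b4.trans (hex _ _ (by nlinarith)))

end IZMb

open IZMb

theorem pr_ZMb (h1 : ZMa) (h2 : ZCv) : ZMb := by
  intro V _ _ _ lam K r K' r' L L1 L2 D hG h4 s s' hgr hs' hs's
  obtain ⟨Cc, ρc, hCc, hρc, hcv⟩ := h2 V lam K r L L1 L2 D hG
  have hr := hG.ch.r_pos
  have hr' := h4.r_pos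
  have hK := hG.ch.K_nn
  have hK' := h4.K_nn
  obtain ⟨ρ₀, hρ₀, hρ1, hρ2, hρ3, hρ4⟩ : ∃ ρ₀ : ℝ, 0 < ρ₀ ∧ 4 * ρ₀ ≤ ρc ∧ 8 * ρ₀ ≤ r ∧
      8 * ρ₀ ≤ r' ∧ ρ₀ ≤ 1 := by
    refine ⟨min (min (ρc / 4) (r / 8)) (min (r' / 8) 1), ?_, ?_, ?_, ?_, ?_⟩
    · positivity
    · have : min (min (ρc / 4) (r / 8)) (min (r' / 8) 1) ≤ ρc / 4 :=
        (min_le_left _ _).trans (min_le_left _ _)
      linarith
    · have : min (min (ρc / 4) (r / 8)) (min (r' / 8) 1) ≤ r / 8 :=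
        (min_le_left _ _).trans (min_le_right _ _)
      linarith
    · have : min (min (ρc / 4) (r / 8)) (min (r' / 8) 1) ≤ r' / 8 :=
        (min_le_right _ _).trans (min_le_left _ _)
      linarith
    · exact (min_le_right _ _).trans (min_le_right _ _)
  obtain ⟨ρ, hρ, hma⟩ := h1 V lam K r L L1 L2 hG.ch s s' hgr hs' hs's ρ₀ hρ₀
  obtain ⟨G, hGdef⟩ : ∃ G : ℝ, G = Real.exp s' := ⟨_, rfl⟩
  have hG0 : 0 < G := hGdef ▸ Real.exp_pos _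
  obtain ⟨M, hM⟩ : ∃ M : ℝ, M = 8 * K * G + 8 * K' * G := ⟨_, rfl⟩
  have hM0 : 0 ≤ M := by rw [hM]; positivity
  refine ⟨2 * Cc * M ^ 2 + 16 * K' * G ^ 2, ρ, hρ, ?_⟩
  intro k p v Rx Rz hk hp hv hRx hRx0 hRxk hRz hRz0 hRzk
  obtain ⟨q, hq⟩ : ∃ q : ℕ → V, q = fun j => v (k - j) := ⟨_, rfl⟩
  obtain ⟨E, hE⟩ : ∃ E : ℝ, E = Real.exp (-(s' * k)) := ⟨_, rfl⟩
  have hE0 : 0 < E := hE ▸ Real.exp_pos _
  have hE1 : E ≤ 1 := by
    rw [hE, Real.exp_le_one_iff]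
    have := mul_nonneg hs'.le (Nat.cast_nonneg (α := ℝ) k)
    linarith
  have hb : ∀ j ≤ k, ‖p j‖ ≤ ρ₀ * Real.exp (-(s' * j)) ∧
      ‖q j‖ ≤ ρ₀ * Real.exp (-(s' * ((k : ℝ) - j))) ∧
      ‖Rx j‖ ≤ ρ₀ * Real.exp (-(s' * (2 * (k : ℝ) - j))) ∧
      ‖Rz j‖ ≤ ρ₀ * Real.exp (-(s' * ((k : ℝ) + j))) := by
    intro j hj
    rw [hq]
    exact hma k p v Rx Rz hp hv hRx hRx0 hRxk hRz hRz0 hRzk j hj
  have hbd := bd s' ρ₀ hs' hρ₀ k p q Rx Rz hb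
  rw [← hGdef, ← hE] at hbd
  have hELq : EL L1 k q := by rw [hq]; exact hv.el k
  have hELp : EL L1 k p := hp.el k
  -- the two corrected chains
  obtain ⟨A, hA⟩ : ∃ A : ℕ → V, A = fun j => p j - Rx j := ⟨_, rfl⟩
  obtain ⟨B, hB⟩ : ∃ B : ℕ → V, B = fun j => q j - Rz j := ⟨_, rfl⟩
  have hA0 : A 0 = p 0 := by rw [hA]; simp [hRx0]
  have hAk : A k = 0 := by rw [hA]; simp [hRxk]
  have hB0 : B 0 = 0 := by rw [hB, hq]; simp [hRz0]
  have hBk : B k = v 0 := by rw [hB, hq]; simp [hRzk]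
  have hAp : ∀ j, (A j, A (j + 1)) = (p j, p (j + 1)) - (Rx j, Rx (j + 1)) := by
    intro j; rw [hA]; rfl
  have hBp : ∀ j, (B j, B (j + 1)) = (q j, q (j + 1)) - (Rz j, Rz (j + 1)) := by
    intro j; rw [hB]; rfl
  -- products
  have hprod : ∀ α β c d : ℝ, 0 ≤ α → 0 ≤ β → 0 ≤ c → 0 ≤ d → α * β = G * E → ρ₀ * α * (ρ₀ * β) ≤ G * E := by
    intro α β c d hα hβ _ _ hαβ
    have h1 : ρ₀ * α * (ρ₀ * β) = ρ₀ ^ 2 * (G * E) := by rw [← hαβ]; ring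
    rw [h1]
    have h2 : ρ₀ ^ 2 ≤ 1 := by nlinarith
    have h3 : 0 ≤ G * E := by positivity
    nlinarith
  -- data of the links
  have hlink : ∀ j, j + 1 ≤ k →
      (‖(p j, p (j + 1))‖ + ‖(Rx j, Rx (j + 1))‖ < r ∧
        (‖(p j, p (j + 1))‖ + ‖(Rx j, Rx (j + 1))‖) * ‖(Rx j, Rx (j + 1))‖ ≤ 2 * (G * E) * E) ∧
      (‖(q j, q (j + 1))‖ + ‖(Rz j, Rz (j + 1))‖ < r ∧
        (‖(q j, q (j + 1))‖ + ‖(Rz j, Rz (j + 1))‖) * ‖(Rz j, Rz (j + 1))‖ ≤ 2 * (G * E) * E) ∧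
      ‖(A j, A (j + 1))‖ ≤ 2 * ρ₀ ∧ ‖(B j, B (j + 1))‖ ≤ 2 * ρ₀ ∧
      ‖(A j, A (j + 1))‖ * ‖(B j, B (j + 1))‖ ≤ 4 * (G * E) := by
    intro j hj
    obtain ⟨α, β, hα, hβ, hα1, hβ1, hαβ, hβE, hαE, e1, e2, e3, e4⟩ := hbd j hj
    have hGE := hprod α β 0 0 hα hβ le_rfl le_rfl hαβ
    have nn : ∀ x : V × V, 0 ≤ ‖x‖ := fun x => norm_nonneg x
    have s1 : ‖(p j, p (j + 1))‖ + ‖(Rx j, Rx (j + 1))‖ ≤ 2 * (ρ₀ * α) := by
      have := mul_le_mul_of_nonneg_left hβE hρ₀.le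
      linarith
    have s2 : ‖(q j, q (j + 1))‖ + ‖(Rz j, Rz (j + 1))‖ ≤ 2 * (ρ₀ * β) := by
      have := mul_le_mul_of_nonneg_left hαE hρ₀.le
      linarith
    have hρα : ρ₀ * α ≤ ρ₀ := by nlinarith
    have hρβ : ρ₀ * β ≤ ρ₀ := by nlinarith
    have sA : ‖(A j, A (j + 1))‖ ≤ 2 * (ρ₀ * α) := by
      rw [hAp]; exact (norm_sub_le _ _).trans s1
    have sB : ‖(B j, B (j + 1))‖ ≤ 2 * (ρ₀ * β) := by
      rw [hBp]; exact (norm_sub_le _ _).trans s2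
    refine ⟨⟨by linarith, ?_⟩, ⟨by linarith, ?_⟩, by linarith, by linarith, ?_⟩
    · have := mul_le_mul s1 e3 (nn _) (by positivity)
      refine this.trans ?_
      have h5 : 2 * (ρ₀ * α) * (ρ₀ * (β * E)) = 2 * (ρ₀ * α * (ρ₀ * β)) * E := by ring
      rw [h5]
      exact mul_le_mul_of_nonneg_right (by linarith) hE0.le
    · have := mul_le_mul s2 e4 (nn _) (by positivity)
      refine this.trans ?_
      have h5 : 2 * (ρ₀ * β) * (ρ₀ * (α * E)) = 2 * (ρ₀ * α * (ρ₀ * β)) * E := by ring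
      rw [h5]
      exact mul_le_mul_of_nonneg_right (by linarith) hE0.le
    · have := mul_le_mul sA sB (nn _) (by positivity)
      refine this.trans ?_
      have h5 : 2 * (ρ₀ * α) * (2 * (ρ₀ * β)) = 4 * (ρ₀ * α * (ρ₀ * β)) := by ring
      rw [h5]
      linarith
  -- residuals
  have hresA : ∀ j, j + 1 < k → ∀ w : V,
      |L1 (A j, A (j + 1)) (0, w) + L1 (A (j + 1), A (j + 2)) (w, 0)| ≤
        2 * (K * (2 * (G * E) * E)) * ‖w‖ := by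
    intro j hj w
    obtain ⟨⟨t1, t2⟩, -, -, -, -⟩ := hlink j (by omega)
    obtain ⟨⟨t3, t4⟩, -, -, -, -⟩ := hlink (j + 1) (by omega)
    rw [hAp j, hAp (j + 1)]
    exact resSub hG.ch _ _ _ _ _ t1 t3 (mul_le_mul_of_nonneg_left t2 hK)
      (mul_le_mul_of_nonneg_left t4 hK) w (hELp j hj w) (hRx j hj w)
  have hresB : ∀ j, j + 1 < k → ∀ w : V,
      |L1 (B j, B (j + 1)) (0, w) + L1 (B (j + 1), B (j + 2)) (w, 0)| ≤
        2 * (K * (2 * (G * E) * E)) * ‖w‖ := by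
    intro j hj w
    obtain ⟨-, ⟨t1, t2⟩, -, -, -⟩ := hlink j (by omega)
    obtain ⟨-, ⟨t3, t4⟩, -, -, -⟩ := hlink (j + 1) (by omega)
    rw [hBp j, hBp (j + 1)]
    exact resSub hG.ch _ _ _ _ _ t1 t3 (mul_le_mul_of_nonneg_left t2 hK)
      (mul_le_mul_of_nonneg_left t4 hK) w (hELq j hj w) (hRz j hj w)
  have hresAB : ∀ j, j + 1 < k → ∀ w : V,
      |L1 (A j + B j, A (j + 1) + B (j + 1)) (0, w) +
        L1 (A (j + 1) + B (j + 1), A (j + 2) + B (j + 2)) (w, 0)| ≤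
        (2 * (K' * (4 * (G * E))) + 2 * (2 * (K * (2 * (G * E) * E)))) * ‖w‖ := by
    intro j hj w
    obtain ⟨-, -, u1, u2, u3⟩ := hlink j (by omega)
    obtain ⟨-, -, u4, u5, u6⟩ := hlink (j + 1) (by omega)
    exact resAdd hG.ch h4 (A j, A (j + 1)) (B j, B (j + 1)) (A (j + 1), A (j + 2))
      (B (j + 1), B (j + 2)) _ _ (by linarith) (by linarith) (by linarith) (by linarith)
      (mul_le_mul_of_nonneg_left (by rw [mul_comm]; exact u3) hK')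
      (mul_le_mul_of_nonneg_left (by rw [mul_comm]; exact u6) hK') w (hresA j hj w) (hresB j hj w)
  have hKGE : 0 ≤ K * G * E := by positivity
  have hKGE' : 0 ≤ K' * G * E := by positivity
  have hKEE : K * G * E * E ≤ K * G * E := by nlinarith
  have hbig1 : 2 * (K * (2 * (G * E) * E)) ≤ M * E := by
    rw [hM]; nlinarith
  have hbig2 : 2 * (K' * (4 * (G * E))) + 2 * (2 * (K * (2 * (G * E) * E))) ≤ M * E := by
    rw [hM]; nlinarith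
  -- pointwise sizes
  have hsA : ∀ j ≤ k, ‖A j‖ ≤ 2 * ρ₀ := by
    intro j hj
    rcases Nat.lt_or_ge j k with h | h
    · exact (norm_fst_le (A j, A (j + 1))).trans (hlink j h).2.2.1
    · have : j = k := le_antisymm hj h
      rw [this, hAk, norm_zero]; positivity
  have hsB : ∀ j ≤ k, ‖B j‖ ≤ 2 * ρ₀ := by
    intro j hj
    rcases Nat.eq_zero_or_pos j with h | h
    · rw [h, hB0, norm_zero]; positivity
    · obtain ⟨i, rfl⟩ : ∃ i, j = i + 1 := ⟨j - 1, by omega⟩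
      exact (norm_snd_le (B i, B (i + 1))).trans (hlink i hj).2.2.2.1
  -- application of ZCv
  have hME : 0 ≤ M * E := mul_nonneg hM0 hE0.le
  have cA := hcv k A (fun _ => M * E) hk (fun j hj => (hsA j hj).trans (by linarith))
    (fun _ => hME) (fun j hj w => (hresA j hj w).trans
      (mul_le_mul_of_nonneg_right hbig1 (norm_nonneg w)))
  have cB := hcv k B (fun _ => M * E) hk (fun j hj => (hsB j hj).trans (by linarith))
    (fun _ => hME) (fun j hj w => (hresB j hj w).trans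
      (mul_le_mul_of_nonneg_right hbig1 (norm_nonneg w)))
  have cAB := hcv k (fun j => A j + B j) (fun _ => M * E) hk
    (fun j hj => (norm_add_le _ _).trans (by linarith [hsA j hj, hsB j hj]))
    (fun _ => hME) (fun j hj w => (hresAB j hj w).trans
      (mul_le_mul_of_nonneg_right hbig2 (norm_nonneg w)))
  have hconst : ∑ j ∈ Finset.range k, (fun _ => M * E) j ^ 2 = k * (M * E) ^ 2 := by
    simp
  rw [hconst] at cA cB cAB
  rw [hA0, hAk] at cA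
  rw [hB0, hBk] at cB
  simp only [hA0, hAk, hB0, hBk, add_zero, zero_add] at cAB
  -- second differences
  have hdd : ∀ j ∈ Finset.range k,
      |L (A j + B j, A (j + 1) + B (j + 1)) - L (A j, A (j + 1)) - L (B j, B (j + 1)) -
        L1 (A j, A (j + 1)) (B j, B (j + 1)) - L1 (B j, B (j + 1)) (A j, A (j + 1)) +
        L2 0 (A j, A (j + 1)) (B j, B (j + 1))| ≤ 16 * K' * G ^ 2 * E ^ 2 := by
    intro j hj
    obtain ⟨-, -, u1, u2, u3⟩ := hlink j (Finset.mem_range.1 hj)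
    have h5 := h4.dd (A j, A (j + 1)) (B j, B (j + 1)) (by linarith) (by linarith)
    refine h5.trans ?_
    have h6 : (‖(A j, A (j + 1))‖ * ‖(B j, B (j + 1))‖) ^ 2 ≤ (4 * (G * E)) ^ 2 :=
      pow_le_pow_left₀ (by positivity) u3 2
    have h7 := mul_le_mul_of_nonneg_left h6 hK'
    calc K' * ‖(A j, A (j + 1))‖ ^ 2 * ‖(B j, B (j + 1))‖ ^ 2
        = K' * (‖(A j, A (j + 1))‖ * ‖(B j, B (j + 1))‖) ^ 2 := by ring
      _ ≤ K' * (4 * (G * E)) ^ 2 := h7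
      _ = 16 * K' * G ^ 2 * E ^ 2 := by ring
  have hsum : |∑ j ∈ Finset.range k,
      (L (A j + B j, A (j + 1) + B (j + 1)) - L (A j, A (j + 1)) - L (B j, B (j + 1)) -
        L1 (A j, A (j + 1)) (B j, B (j + 1)) - L1 (B j, B (j + 1)) (A j, A (j + 1)) +
        L2 0 (A j, A (j + 1)) (B j, B (j + 1)))| ≤ k * (16 * K' * G ^ 2 * E ^ 2) := by
    refine (Finset.abs_sum_le_sum_abs _ _).trans ?_
    refine (Finset.sum_le_sum hdd).trans ?_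
    simp
  have hsplit : ∑ j ∈ Finset.range k,
      (L (A j + B j, A (j + 1) + B (j + 1)) - L (A j, A (j + 1)) - L (B j, B (j + 1)) -
        L1 (A j, A (j + 1)) (B j, B (j + 1)) - L1 (B j, B (j + 1)) (A j, A (j + 1)) +
        L2 0 (A j, A (j + 1)) (B j, B (j + 1))) =
      (∑ j ∈ Finset.range k, L (A j + B j, A (j + 1) + B (j + 1))) -
      (∑ j ∈ Finset.range k, L (A j, A (j + 1))) - (∑ j ∈ Finset.range k, L (B j, B (j + 1))) -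
      ∑ j ∈ Finset.range k, (L1 (A j, A (j + 1)) (B j, B (j + 1)) +
        L1 (B j, B (j + 1)) (A j, A (j + 1)) - L2 0 (A j, A (j + 1)) (B j, B (j + 1))) := by
    rw [← Finset.sum_sub_distrib, ← Finset.sum_sub_distrib, ← Finset.sum_sub_distrib]
    exact Finset.sum_congr rfl fun j _ => by ring
  rw [hsplit] at hsum
  have htarget : ∑ j ∈ Finset.range k,
    (L1 (p j - Rx j, p (j + 1) - Rx (j + 1)) (v (k - j) - Rz j, v (k - (j + 1)) - Rz (j + 1)) +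
    L1 (v (k - j) - Rz j, v (k - (j + 1)) - Rz (j + 1)) (p j - Rx j, p (j + 1) - Rx (j + 1)) -
    L2 0 (p j - Rx j, p (j + 1) - Rx (j + 1)) (v (k - j) - Rz j, v (k - (j + 1)) - Rz (j + 1))) =
      ∑ j ∈ Finset.range k, (L1 (A j, A (j + 1)) (B j, B (j + 1)) +
        L1 (B j, B (j + 1)) (A j, A (j + 1)) - L2 0 (A j, A (j + 1)) (B j, B (j + 1))) := by
    rw [hA, hB, hq]
  rw [htarget]
  have hEE : Real.exp (-(2 * s' * k)) = E ^ 2 := by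
    rw [hE, sq, ← Real.exp_add]; congr 1; ring
  rw [hEE]
  unfold Mx
  obtain ⟨S1, hS1⟩ : ∃ S1, S1 = ∑ j ∈ Finset.range k, L (A j + B j, A (j + 1) + B (j + 1)) :=
    ⟨_, rfl⟩
  obtain ⟨S2, hS2⟩ : ∃ S2, S2 = ∑ j ∈ Finset.range k, L (A j, A (j + 1)) := ⟨_, rfl⟩
  obtain ⟨S3, hS3⟩ : ∃ S3, S3 = ∑ j ∈ Finset.range k, L (B j, B (j + 1)) := ⟨_, rfl⟩
  obtain ⟨S4, hS4⟩ : ∃ S4, S4 = ∑ j ∈ Finset.range k, (L1 (A j, A (j + 1)) (B j, B (j + 1)) +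
        L1 (B j, B (j + 1)) (A j, A (j + 1)) - L2 0 (A j, A (j + 1)) (B j, B (j + 1))) := ⟨_, rfl⟩
  rw [← hS1] at cAB hsum
  rw [← hS2] at cA hsum
  rw [← hS3] at cB hsum
  rw [← hS4] at hsum ⊢
  have hfin : (2 * Cc * M ^ 2 + 16 * K' * G ^ 2) * (k + 1) * E ^ 2 =
      2 * (Cc * (k * (M * E) ^ 2)) + k * (16 * K' * G ^ 2 * E ^ 2) +
      (2 * Cc * M ^ 2 + 16 * K' * G ^ 2) * E ^ 2 := by ring
  have hpos : 0 ≤ (2 * Cc * M ^ 2 + 16 * K' * G ^ 2) * E ^ 2 := by positivity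
  rw [hfin]
  have hs1 := abs_le.1 hsum
  have hδ : 0 ≤ Cc * (k * (M * E) ^ 2) := by positivity
  rw [abs_le]
  constructor
  · linarith [cA.1, cA.2, cB.1, cB.2, cAB.1, cAB.2, hs1.1, hs1.2]
  · linarith [cA.1, cA.2, cB.1, cB.2, cAB.1, cAB.2, hs1.1, hs1.2]

end Pool.Agent.LX
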