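import Pool.Agent.Work.MP_25cd3b_gt.LX.StmtsZ

set_option autoImplicit false

/-!
# MP_25cd3b_gt, block LX (captain helper11), part Z, item ZMc (helper95): the second step
-/

open Set Filter Topology
open scoped ContDiff

namespace Pool.Agent.LX

namespace IZMc

variable {V : Type} [NormedAddCommGroup V] [NormedSpace ℝ V]

/-- summation by parts -/
theorem parts (F : ℕ → V × V →L[ℝ] ℝ) (A : ℕ → V) (k : ℕ)
    (h : ∀ j, j + 1 < k + 1 → ∀ w : V, F j (0, w) + F (j + 1) (w, 0) = 0) :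
    ∑ j ∈ Finset.range (k + 1), F j (A j, A (j + 1)) = F 0 (A 0, 0) + F k (0, A (k + 1)) := by
  induction k with
  | zero =>
    simp only [zero_add, Finset.sum_range_one]
    rw [← map_add]; simp
  | succ k ih =>
    rw [Finset.sum_range_succ, ih (fun j hj w => h j (by omega) w)]
    have h1 : F (k + 1) (A (k + 1), A (k + 1 + 1)) =
        F (k + 1) (A (k + 1), 0) + F (k + 1) (0, A (k + 1 + 1)) := by
      rw [← map_add]; simp
    have h2 := h k (by omega) (A (k + 1))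
    rw [h1]; linarith

theorem c1_lip {lam K r : ℝ} {L : V × V → ℝ} {L1 : V × V → V × V →L[ℝ] ℝ} {L2 : V × V → Bf V}
    (hC : Ch lam K r L L1 L2) {m : ℝ} (hm : m < r) {a b : V × V} (ha : ‖a‖ ≤ m) (hb : ‖b‖ ≤ m) :
    ‖(L1 a - L2 0 a) - (L1 b - L2 0 b)‖ ≤ K * m * ‖a - b‖ := by
  have hconv : Convex ℝ (Metric.closedBall (0 : V × V) m) := convex_closedBall 0 m
  have h := hconv.norm_image_sub_le_of_norm_hasFDerivWithin_le (f := fun x => L1 x - L2 0 x)
    (f' := fun x => L2 x - L2 0) (C := K * m) (x := b) (y := a) ?_ ?_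
    (by simpa using hb) (by simpa using ha)
  · exact h
  · intro x hx
    have hx' : ‖x‖ ≤ m := by simpa using hx
    exact ((hC.d2 x (lt_of_le_of_lt hx' hm)).sub (L2 0).hasFDerivAt).hasFDerivWithinAt
  · intro x hx
    have hx' : ‖x‖ ≤ m := by simpa using hx
    exact (hC.lip x (lt_of_le_of_lt hx' hm)).trans (mul_le_mul_of_nonneg_left hx' hC.K_nn)

/-- a product of the size we need -/
theorem app_le {lam K r : ℝ} {L : V × V → ℝ} {L1 : V × V → V × V →L[ℝ] ℝ} {L2 : V × V → Bf V}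
    (hC : Ch lam K r L L1 L2) {m d t : ℝ} (hm : m < r) {a b c : V × V} (ha : ‖a‖ ≤ m)
    (hb : ‖b‖ ≤ m) (hd : ‖a - b‖ ≤ d) (hc : ‖c‖ ≤ t) :
    |(L1 a - L2 0 a) c - (L1 b - L2 0 b) c| ≤ K * m * d * t := by
  have h1 := c1_lip hC hm ha hb
  have hm0 : 0 ≤ m := (norm_nonneg _).trans ha
  have h2 : |(L1 a - L2 0 a) c - (L1 b - L2 0 b) c| ≤
      ‖(L1 a - L2 0 a) - (L1 b - L2 0 b)‖ * ‖c‖ := by
    rw [← sub_apply, ← Real.norm_eq_abs]
    exact ContinuousLinearMap.le_opNorm _ _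
  have h3 : ‖(L1 a - L2 0 a) - (L1 b - L2 0 b)‖ ≤ K * m * d :=
    h1.trans (mul_le_mul_of_nonneg_left hd (mul_nonneg hC.K_nn hm0))
  exact h2.trans (mul_le_mul h3 hc (norm_nonneg _) ((norm_nonneg _).trans h3))

end IZMc

open IZMc in
theorem pr_ZMc (h1 : ZMa) : ZMc := by
  intro V _ _ _ lam K r L L1 L2 hC s s' hG hs0 hss
  have hr := hC.r_pos
  have hK := hC.K_nn
  set ρ₀ : ℝ := min 1 (r / 4) with hρ₀
  have hρp : 0 < ρ₀ := lt_min one_pos (by positivity)
  have hρ1 : ρ₀ ≤ 1 := min_le_left _ _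
  have hρr : 2 * ρ₀ < r := by
    have : ρ₀ ≤ r / 4 := min_le_right _ _
    linarith
  obtain ⟨ρ, hρ, H⟩ := h1 V lam K r L L1 L2 hC s s' hG hs0 hss ρ₀ hρp
  refine ⟨8 * K * Real.exp (2 * s'), ρ, hρ, ?_⟩
  intro k p v Rx Rz hk hp hv hRx hRx0 hRxk hRz hRz0 hRzk
  have Hs := H k p v Rx Rz hp hv hRx hRx0 hRxk hRz hRz0 hRzk
  obtain ⟨n, rfl⟩ : ∃ n, k = n + 1 := ⟨k - 1, by omega⟩
  set k := n + 1 with hkn
  -- notation
  set q : ℕ → V := fun j => v (k - j) with hq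
  set A : ℕ → V := fun j => p j - Rx j with hA
  set B : ℕ → V := fun j => q j - Rz j with hB
  set c1 : V × V → V × V →L[ℝ] ℝ := fun a => L1 a - L2 0 a with hc1
  -- exponentials
  have E1 : ∀ x y : ℝ, x ≤ y → Real.exp (-(s' * y)) ≤ Real.exp (-(s' * x)) := by
    intro x y hxy
    apply Real.exp_le_exp.2
    have := mul_le_mul_of_nonneg_left hxy hs0.le
    linarith
  have E0 : ∀ x : ℝ, 0 ≤ x → Real.exp (-(s' * x)) ≤ 1 := by
    intro x hx
    have := E1 0 x hx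
    simpa using this
  -- sizes
  have sp : ∀ j, j < k → ‖(p j, p (j + 1))‖ ≤ ρ₀ * Real.exp (-(s' * j)) := by
    intro j hj
    rw [norm_prod_le_iff]
    refine ⟨(Hs j hj.le).1, (Hs (j + 1) hj).1.trans ?_⟩
    exact mul_le_mul_of_nonneg_left (E1 _ _ (by push_cast; linarith)) hρp.le
  have sq : ∀ j, j < k → ‖(q j, q (j + 1))‖ ≤ ρ₀ * Real.exp (-(s' * ((k : ℝ) - j - 1))) := by
    intro j hj
    rw [norm_prod_le_iff]
    refine ⟨(Hs j hj.le).2.1.trans ?_, (Hs (j + 1) hj).2.1.trans ?_⟩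
    · exact mul_le_mul_of_nonneg_left (E1 _ _ (by linarith)) hρp.le
    · exact mul_le_mul_of_nonneg_left (E1 _ _ (by push_cast; linarith)) hρp.le
  have sRx : ∀ j, j < k → ‖(Rx j, Rx (j + 1))‖ ≤ ρ₀ * Real.exp (-(s' * (2 * (k : ℝ) - j - 1))) := by
    intro j hj
    rw [norm_prod_le_iff]
    refine ⟨(Hs j hj.le).2.2.1.trans ?_, (Hs (j + 1) hj).2.2.1.trans ?_⟩
    · exact mul_le_mul_of_nonneg_left (E1 _ _ (by linarith)) hρp.le
    · exact mul_le_mul_of_nonneg_left (E1 _ _ (by push_cast; linarith)) hρp.le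
  have sRz : ∀ j, j < k → ‖(Rz j, Rz (j + 1))‖ ≤ ρ₀ * Real.exp (-(s' * ((k : ℝ) + j))) := by
    intro j hj
    rw [norm_prod_le_iff]
    refine ⟨(Hs j hj.le).2.2.2, (Hs (j + 1) hj).2.2.2.trans ?_⟩
    exact mul_le_mul_of_nonneg_left (E1 _ _ (by push_cast; linarith)) hρp.le
  have hjk : ∀ j, j < k → (j : ℝ) + 1 ≤ k := by
    intro j hj; exact_mod_cast hj
  have hA' : ∀ j, (A j, A (j + 1)) = (p j, p (j + 1)) - (Rx j, Rx (j + 1)) := fun j => rfl
  have hB' : ∀ j, (B j, B (j + 1)) = (q j, q (j + 1)) - (Rz j, Rz (j + 1)) := fun j => rfl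
  have sA : ∀ j, j < k → ‖(A j, A (j + 1))‖ ≤ 2 * ρ₀ * Real.exp (-(s' * j)) := by
    intro j hj
    have hj' := hjk j hj
    have h2 := (sRx j hj).trans (mul_le_mul_of_nonneg_left
      (E1 (j : ℝ) (2 * (k : ℝ) - j - 1) (by linarith)) hρp.le)
    rw [hA' j]
    refine (norm_sub_le _ _).trans ?_
    have := sp j hj
    linarith
  have sB : ∀ j, j < k → ‖(B j, B (j + 1))‖ ≤ 2 * ρ₀ * Real.exp (-(s' * ((k : ℝ) - j - 1))) := by
    intro j hj
    have hj' := hjk j hj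
    have hj0 : (0 : ℝ) ≤ j := Nat.cast_nonneg j
    have h2 := (sRz j hj).trans (mul_le_mul_of_nonneg_left
      (E1 ((k : ℝ) - j - 1) ((k : ℝ) + j) (by linarith)) hρp.le)
    rw [hB' j]
    refine (norm_sub_le _ _).trans ?_
    have := sq j hj
    linarith
  have sA1 : ∀ j, j < k → ‖(A j, A (j + 1))‖ ≤ 2 * ρ₀ := by
    intro j hj
    refine (sA j hj).trans ?_
    have := E0 j (Nat.cast_nonneg j)
    nlinarith
  have sB1 : ∀ j, j < k → ‖(B j, B (j + 1))‖ ≤ 2 * ρ₀ := by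
    intro j hj
    refine (sB j hj).trans ?_
    have := E0 ((k : ℝ) - j - 1) (by linarith [hjk j hj])
    nlinarith
  have hEk : ∀ a b : ℝ, a + b = 2 * (k : ℝ) - 1 → Real.exp (-(s' * a)) * Real.exp (-(s' * b)) =
      Real.exp s' * Real.exp (-(2 * s' * k)) := by
    intro a b hab
    rw [← Real.exp_add, ← Real.exp_add]
    congr 1
    have : s' * a + s' * b = s' * (2 * (k : ℝ) - 1) := by rw [← mul_add, hab]
    linarith
  have hρ3 : ρ₀ * ρ₀ * ρ₀ ≤ 1 := by
    have : ρ₀ * ρ₀ ≤ 1 := by nlinarith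
    nlinarith
  have hρ3' : 0 ≤ ρ₀ * ρ₀ * ρ₀ := by positivity
  have hX : 0 ≤ K * (Real.exp s' * Real.exp (-(2 * s' * k))) := by positivity
  -- first error term
  have T1 : ∀ j, j < k → |c1 (A j, A (j + 1)) (B j, B (j + 1)) -
      c1 (p j, p (j + 1)) (B j, B (j + 1))| ≤ 4 * (K * (Real.exp s' * Real.exp (-(2 * s' * k)))) := by
    intro j hj
    have hm : 2 * ρ₀ * Real.exp (-(s' * j)) < r := by
      have := E0 j (Nat.cast_nonneg j)
      nlinarith
    have hpj : ‖(p j, p (j + 1))‖ ≤ 2 * ρ₀ * Real.exp (-(s' * j)) := by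
      refine (sp j hj).trans ?_
      have := Real.exp_pos (-(s' * (j : ℝ)))
      nlinarith
    have hd : ‖(A j, A (j + 1)) - (p j, p (j + 1))‖ ≤
        ρ₀ * Real.exp (-(s' * (2 * (k : ℝ) - j - 1))) := by
      rw [hA' j, sub_sub_cancel_left, norm_neg]; exact sRx j hj
    have h := app_le hC hm (sA j hj) hpj hd (sB1 j hj)
    refine h.trans ?_
    have e := hEk j (2 * (k : ℝ) - j - 1) (by ring)
    calc K * (2 * ρ₀ * Real.exp (-(s' * j))) * (ρ₀ * Real.exp (-(s' * (2 * (k : ℝ) - j - 1)))) *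
          (2 * ρ₀) = (ρ₀ * ρ₀ * ρ₀) * (4 * (K * (Real.exp (-(s' * j)) *
            Real.exp (-(s' * (2 * (k : ℝ) - j - 1)))))) := by ring
      _ = (ρ₀ * ρ₀ * ρ₀) * (4 * (K * (Real.exp s' * Real.exp (-(2 * s' * k))))) := by rw [e]
      _ ≤ 1 * (4 * (K * (Real.exp s' * Real.exp (-(2 * s' * k))))) :=
          mul_le_mul_of_nonneg_right hρ3 (by positivity)
      _ = _ := one_mul _
  -- second error term
  have T2 : ∀ j, j < k → |c1 (B j, B (j + 1)) (A j, A (j + 1)) -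
      c1 (q j, q (j + 1)) (A j, A (j + 1))| ≤ 4 * (K * (Real.exp s' * Real.exp (-(2 * s' * k)))) := by
    intro j hj
    have h0 : 0 ≤ (k : ℝ) - j - 1 := by linarith [hjk j hj]
    have hm : 2 * ρ₀ * Real.exp (-(s' * ((k : ℝ) - j - 1))) < r := by
      have := E0 _ h0
      nlinarith
    have hqj : ‖(q j, q (j + 1))‖ ≤ 2 * ρ₀ * Real.exp (-(s' * ((k : ℝ) - j - 1))) := by
      refine (sq j hj).trans ?_
      have := Real.exp_pos (-(s' * ((k : ℝ) - j - 1)))
      nlinarith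
    have hd : ‖(B j, B (j + 1)) - (q j, q (j + 1))‖ ≤
        ρ₀ * Real.exp (-(s' * ((k : ℝ) + j))) := by
      rw [hB' j, sub_sub_cancel_left, norm_neg]; exact sRz j hj
    have h := app_le hC hm (sB j hj) hqj hd (sA1 j hj)
    refine h.trans ?_
    have e := hEk ((k : ℝ) - j - 1) ((k : ℝ) + j) (by ring)
    calc K * (2 * ρ₀ * Real.exp (-(s' * ((k : ℝ) - j - 1)))) *
          (ρ₀ * Real.exp (-(s' * ((k : ℝ) + j)))) *
          (2 * ρ₀) = (ρ₀ * ρ₀ * ρ₀) * (4 * (K * (Real.exp (-(s' * ((k : ℝ) - j - 1))) *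
            Real.exp (-(s' * ((k : ℝ) + j)))))) := by ring
      _ = (ρ₀ * ρ₀ * ρ₀) * (4 * (K * (Real.exp s' * Real.exp (-(2 * s' * k))))) := by rw [e]
      _ ≤ 1 * (4 * (K * (Real.exp s' * Real.exp (-(2 * s' * k))))) :=
          mul_le_mul_of_nonneg_right hρ3 (by positivity)
      _ = _ := one_mul _
  -- third error term
  have hk0 : 0 < k := by omega
  have T3 : |c1 (q 0, q 1) (p 0, 0)| ≤ K * (Real.exp (2 * s') * Real.exp (-(2 * s' * k))) := by
    have hq0 : ‖(q 0, q 1)‖ ≤ ρ₀ * Real.exp (-(s' * ((k : ℝ) - 1))) := by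
      have := sq 0 hk0
      simpa using this
    have h0 : (0 : ℝ) ≤ (k : ℝ) - 1 := by
      have := hjk 0 hk0
      push_cast at this
      linarith
    have hm : ρ₀ * Real.exp (-(s' * ((k : ℝ) - 1))) < r := by
      have := E0 _ h0
      nlinarith
    have hc : ‖((p 0, 0) : V × V)‖ ≤ ρ₀ := by
      rw [norm_prod_le_iff]
      refine ⟨?_, by simpa using hρp.le⟩
      have := (Hs 0 (Nat.zero_le _)).1
      simpa using this
    have h := app_le hC hm hq0 (b := 0) (by simpa using by positivity)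
      (d := ρ₀ * Real.exp (-(s' * ((k : ℝ) - 1)))) (by simpa using hq0) hc
    have hz : (L1 0 - L2 0 0) ((p 0, 0) : V × V) = 0 := by
      rw [hC.crit]; simp
    rw [hz, sub_zero] at h
    refine h.trans ?_
    have e : Real.exp (-(s' * ((k : ℝ) - 1))) * Real.exp (-(s' * ((k : ℝ) - 1))) =
        Real.exp (2 * s') * Real.exp (-(2 * s' * k)) := by
      rw [← Real.exp_add, ← Real.exp_add]; congr 1; ring
    calc K * (ρ₀ * Real.exp (-(s' * ((k : ℝ) - 1)))) * (ρ₀ * Real.exp (-(s' * ((k : ℝ) - 1)))) * ρ₀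
        = (ρ₀ * ρ₀ * ρ₀) * (K * (Real.exp (-(s' * ((k : ℝ) - 1))) *
            Real.exp (-(s' * ((k : ℝ) - 1))))) := by ring
      _ = (ρ₀ * ρ₀ * ρ₀) * (K * (Real.exp (2 * s') * Real.exp (-(2 * s' * k)))) := by rw [e]
      _ ≤ 1 * (K * (Real.exp (2 * s') * Real.exp (-(2 * s' * k)))) :=
          mul_le_mul_of_nonneg_right hρ3 (by positivity)
      _ = _ := one_mul _
  -- summation by parts
  have hAk : A k = 0 := by simp [hA, hRxk]
  have hA0 : A 0 = p 0 := by simp [hA, hRx0]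
  have P1 : ∑ j ∈ Finset.range k, L1 (q j, q (j + 1)) (A j, A (j + 1)) = L1 (q 0, q 1) (p 0, 0) := by
    have h := parts (fun j => L1 (q j, q (j + 1))) A n (fun j hj w => hv.el k j hj w)
    rw [← hkn] at h
    rw [h, hAk, hA0]
    have : L1 (q n, q (n + 1)) ((0, 0) : V × V) = 0 := map_zero _
    rw [this, add_zero]
  have P2 : ∑ j ∈ Finset.range k, L2 0 (Rz j, Rz (j + 1)) (A j, A (j + 1)) =
      L2 0 (Rz 0, Rz 1) (p 0, 0) := by
    have h := parts (fun j => L2 0 (Rz j, Rz (j + 1))) A n (fun j hj w => hRz j hj w)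
    rw [← hkn] at h
    rw [h, hAk, hA0]
    have : L2 0 (Rz n, Rz (n + 1)) ((0, 0) : V × V) = 0 := map_zero _
    rw [this, add_zero]
  have hq0 : Rz 0 = q 0 := by rw [hRz0]; simp [hq]
  have P3 : L2 0 (Rz 0, Rz 1) (p 0, 0) + L2 0 (0, q 1 - Rz 1) (p 0, 0) =
      L2 0 (q 0, q 1) (p 0, 0) := by
    rw [← add_apply, ← map_add, hq0]
    simp
  -- the identity
  have key : ∑ j ∈ Finset.range k,
      (L1 (A j, A (j + 1)) (B j, B (j + 1)) + L1 (B j, B (j + 1)) (A j, A (j + 1)) -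
      L2 0 (A j, A (j + 1)) (B j, B (j + 1))) -
      (L2 0 (0, q 1 - Rz 1) (p 0, 0) + ∑ j ∈ Finset.range k,
        (L1 (p j, p (j + 1)) - L2 0 (p j, p (j + 1))) (B j, B (j + 1))) =
      ∑ j ∈ Finset.range k, ((c1 (A j, A (j + 1)) (B j, B (j + 1)) -
        c1 (p j, p (j + 1)) (B j, B (j + 1))) + (c1 (B j, B (j + 1)) (A j, A (j + 1)) -
      c1 (q j, q (j + 1)) (A j, A (j + 1)))) + c1 (q 0, q 1) (p 0, 0) := by
    have e1 : ∀ j, L1 (B j, B (j + 1)) (A j, A (j + 1)) =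
        (c1 (B j, B (j + 1)) (A j, A (j + 1)) - c1 (q j, q (j + 1)) (A j, A (j + 1))) +
        (L1 (q j, q (j + 1)) (A j, A (j + 1)) - L2 0 (Rz j, Rz (j + 1)) (A j, A (j + 1))) := by
      intro j
      have e2 : L2 0 (B j, B (j + 1)) (A j, A (j + 1)) =
          L2 0 (q j, q (j + 1)) (A j, A (j + 1)) - L2 0 (Rz j, Rz (j + 1)) (A j, A (j + 1)) := by
        rw [hB' j, map_sub]; rfl
      simp only [hc1, sub_apply]
      rw [e2]; ring
    have e3 : ∑ j ∈ Finset.range k,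
        (L1 (A j, A (j + 1)) (B j, B (j + 1)) + L1 (B j, B (j + 1)) (A j, A (j + 1)) -
        L2 0 (A j, A (j + 1)) (B j, B (j + 1))) =
        ∑ j ∈ Finset.range k, (c1 (A j, A (j + 1)) (B j, B (j + 1)) +
          (c1 (B j, B (j + 1)) (A j, A (j + 1)) - c1 (q j, q (j + 1)) (A j, A (j + 1)))) +
        (∑ j ∈ Finset.range k, L1 (q j, q (j + 1)) (A j, A (j + 1)) -
          ∑ j ∈ Finset.range k, L2 0 (Rz j, Rz (j + 1)) (A j, A (j + 1))) := by
      rw [← Finset.sum_sub_distrib, ← Finset.sum_add_distrib]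
      refine Finset.sum_congr rfl (fun j _ => ?_)
      rw [e1 j]
      simp only [hc1, sub_apply]
      ring
    rw [e3, P1, P2]
    have e4 : ∑ j ∈ Finset.range k, ((c1 (A j, A (j + 1)) (B j, B (j + 1)) -
        c1 (p j, p (j + 1)) (B j, B (j + 1))) + (c1 (B j, B (j + 1)) (A j, A (j + 1)) -
        c1 (q j, q (j + 1)) (A j, A (j + 1)))) =
        ∑ j ∈ Finset.range k, (c1 (A j, A (j + 1)) (B j, B (j + 1)) +
          (c1 (B j, B (j + 1)) (A j, A (j + 1)) - c1 (q j, q (j + 1)) (A j, A (j + 1)))) -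
        ∑ j ∈ Finset.range k, (L1 (p j, p (j + 1)) - L2 0 (p j, p (j + 1))) (B j, B (j + 1)) := by
      rw [← Finset.sum_sub_distrib]
      refine Finset.sum_congr rfl (fun j _ => ?_)
      simp only [hc1]
      ring
    rw [e4]
    have e5 : c1 (q 0, q 1) (p 0, 0) = L1 (q 0, q 1) (p 0, 0) - L2 0 (q 0, q 1) (p 0, 0) := by
      simp only [hc1, sub_apply]
    rw [e5, ← P3]
    ring
  have goal_eq : (∑ j ∈ Finset.range k,
      (L1 (p j - Rx j, p (j + 1) - Rx (j + 1)) (v (k - j) - Rz j, v (k - (j + 1)) - Rz (j + 1)) +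
      L1 (v (k - j) - Rz j, v (k - (j + 1)) - Rz (j + 1)) (p j - Rx j, p (j + 1) - Rx (j + 1)) -
      L2 0 (p j - Rx j, p (j + 1) - Rx (j + 1))
        (v (k - j) - Rz j, v (k - (j + 1)) - Rz (j + 1))) -
      Fk (L2 0) L1 p k (fun j => v (k - j)) Rz) =
      ∑ j ∈ Finset.range k, ((c1 (A j, A (j + 1)) (B j, B (j + 1)) -
        c1 (p j, p (j + 1)) (B j, B (j + 1))) + (c1 (B j, B (j + 1)) (A j, A (j + 1)) -
      c1 (q j, q (j + 1)) (A j, A (j + 1)))) + c1 (q 0, q 1) (p 0, 0) := key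
  rw [goal_eq]
  have S1 : |∑ j ∈ Finset.range k, ((c1 (A j, A (j + 1)) (B j, B (j + 1)) -
        c1 (p j, p (j + 1)) (B j, B (j + 1))) + (c1 (B j, B (j + 1)) (A j, A (j + 1)) -
      c1 (q j, q (j + 1)) (A j, A (j + 1))))| ≤
      ∑ _j ∈ Finset.range k, 8 * (K * (Real.exp s' * Real.exp (-(2 * s' * k)))) := by
    refine (Finset.abs_sum_le_sum_abs _ _).trans (Finset.sum_le_sum (fun j hj => ?_))
    have hj' := Finset.mem_range.1 hj
    refine (abs_add_le _ _).trans ?_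
    have a1 := T1 j hj'
    have a2 := T2 j hj'
    linarith
  rw [Finset.sum_const, Finset.card_range, nsmul_eq_mul] at S1
  refine (abs_add_le _ _).trans ((add_le_add S1 T3).trans ?_)
  have hee : Real.exp s' ≤ Real.exp (2 * s') := Real.exp_le_exp.2 (by linarith)
  have hE : 0 ≤ Real.exp (-(2 * s' * (k : ℝ))) := (Real.exp_pos _).le
  have hkR : (0 : ℝ) ≤ k := Nat.cast_nonneg k
  have b1 : (k : ℝ) * (8 * (K * (Real.exp s' * Real.exp (-(2 * s' * k))))) ≤
      k * (8 * (K * (Real.exp (2 * s') * Real.exp (-(2 * s' * k))))) := by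
    apply mul_le_mul_of_nonneg_left _ hkR
    apply mul_le_mul_of_nonneg_left _ (by norm_num)
    apply mul_le_mul_of_nonneg_left _ hK
    exact mul_le_mul_of_nonneg_right hee hE
  have b2 : 0 ≤ K * (Real.exp (2 * s') * Real.exp (-(2 * s' * (k : ℝ)))) := by positivity
  calc (k : ℝ) * (8 * (K * (Real.exp s' * Real.exp (-(2 * s' * k))))) +
        K * (Real.exp (2 * s') * Real.exp (-(2 * s' * k)))
      ≤ k * (8 * (K * (Real.exp (2 * s') * Real.exp (-(2 * s' * k))))) +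
        8 * (K * (Real.exp (2 * s') * Real.exp (-(2 * s' * k)))) := by linarith
    _ = 8 * K * Real.exp (2 * s') * (k + 1) * Real.exp (-(2 * s' * k)) := by ring

end Pool.Agent.LX
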