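import Pool.Agent.Work.MP_25cd3b_gt.LX.StmtsZ

set_option autoImplicit false

open Set Filter Topology
open scoped ContDiff

namespace Pool.Agent.LX

namespace IZQv

theorem below {V : Type} [NormedAddCommGroup V] [NormedSpace ℝ V] [FiniteDimensional ℝ V]
    (Ps : (V × V) →L[ℝ] (V × V)) (Bu : V →L[ℝ] V)
    (ku : ∀ w, Ps w = 0 → w.1 = Bu w.2) :
    ∃ c : ℝ, 0 ≤ c ∧ ∀ a : V, ‖a‖ ≤ c * ‖Ps (a, 0)‖ := by
  let g : V →ₗ[ℝ] (V × V) := Ps.toLinearMap ∘ₗ (LinearMap.inl ℝ V V)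
  have hg : ∀ a : V, g a = Ps (a, 0) := fun a => rfl
  have hker : LinearMap.ker g = ⊥ := by
    rw [LinearMap.ker_eq_bot']
    intro a ha
    rw [hg] at ha
    have := ku _ ha
    simpa using this
  obtain ⟨c, _, hc⟩ := LinearMap.exists_antilipschitzWith g hker
  refine ⟨c, c.2, fun a => ?_⟩
  have h := hc.le_mul_dist a 0
  rw [dist_zero_right, map_zero, dist_zero_right] at h
  exact h

end IZQv

theorem pr_ZQv (h1 : ZDc) (h2 : ZTh) (h3 : ZAs) : ZQv := by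
  intro V _ _ _ lam K r L L1 L2 T s s' q t₁ t Ps P B Bu hCh hTws hGr hs' hss' hSpc hq ht
  obtain ⟨C1, ρ1, hC1, hρ1, _, _, hD⟩ := h1 V lam K r L L1 L2 hCh s s' hGr hs' hss'
  obtain ⟨C2, ρ2, hρ2, hT⟩ := h2 V lam K r L L1 L2 T hCh hTws hSpc.tr
  have ht1 : 0 < t₁ := lt_of_le_of_lt hq hSpc.lt1
  have hC1nn : 0 ≤ C1 := le_trans zero_le_one hC1
  obtain ⟨C3, hC3, hA⟩ := h3 (V × V) T s s' t₁ t Ps P hSpc.spl hs' hss'.le ht1 hSpc.lt2 ht
    (C1 + 9 * |C2| * C1 ^ 2) (by positivity)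
  obtain ⟨c, hc, hbel⟩ := IZQv.below Ps Bu hSpc.ku
  set D : ℝ := C3 + ‖P‖ * (c * C3) with hDdef
  have hDnn : 0 ≤ D := by positivity
  set M : ℝ := D + ‖P‖ * (‖Bu‖ + 1) + 1 with hMdef
  have hM1 : 1 ≤ M := by
    have : 0 ≤ ‖P‖ * (‖Bu‖ + 1) := by positivity
    linarith
  have hMpos : 0 < M := lt_of_lt_of_le one_pos hM1
  refine ⟨D, min (min ρ1 ρ2) (1 / M), by positivity, fun v hv => ?_⟩
  have hle1 : min (min ρ1 ρ2) (1 / M) ≤ ρ1 := (min_le_left _ _).trans (min_le_left _ _)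
  have hle2 : min (min ρ1 ρ2) (1 / M) ≤ ρ2 := (min_le_left _ _).trans (min_le_right _ _)
  have hle3 : min (min ρ1 ρ2) (1 / M) ≤ 1 / M := min_le_right _ _
  have hv1 : Bc L1 ρ1 v := ⟨fun j => (hv.small j).trans hle1, hv.el⟩
  have hv2 : Bc L1 ρ2 v := ⟨fun j => (hv.small j).trans hle2, hv.el⟩
  have hv0 : ‖v 0‖ ≤ 1 / M := (hv.small 0).trans hle3
  have hv0' : ‖v 0‖ ≤ 1 := by
    refine hv0.trans ?_
    rw [div_le_one hMpos]
    exact hM1
  have hdec := hD v hv1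
  have hexp : ∀ i : ℕ, ∀ m : ℕ, Real.exp (-(s' * ((i + m : ℕ) : ℝ))) ≤ Real.exp (-(s' * i)) := by
    intro i m
    apply Real.exp_le_exp.mpr
    push_cast
    nlinarith [mul_nonneg hs'.le (Nat.cast_nonneg (α := ℝ) m)]
  have hdec' : ∀ i m : ℕ, ‖v (i + m)‖ ≤ C1 * ‖v 0‖ * Real.exp (-(s' * i)) := by
    intro i m
    exact (hdec (i + m)).trans (mul_le_mul_of_nonneg_left (hexp i m) (by positivity))
  obtain ⟨Q, hPQ, hQ1, hQ2, hQ3⟩ := hA ‖v 0‖ (fun i => (v (i + 1), v i)) (norm_nonneg _) hv0'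
    (by
      intro i
      rw [Prod.norm_mk]
      have e1 : C1 * ‖v 0‖ * Real.exp (-(s' * i)) ≤
          (C1 + 9 * |C2| * C1 ^ 2) * ‖v 0‖ * Real.exp (-(s' * i)) := by
        apply mul_le_mul_of_nonneg_right _ (Real.exp_pos _).le
        apply mul_le_mul_of_nonneg_right _ (norm_nonneg _)
        have : 0 ≤ 9 * |C2| * C1 ^ 2 := by positivity
        linarith
      exact (max_le (hdec' i 1) (hdec' i 0)).trans e1)
    (by
      intro i
      have e2 := hT v hv2 i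
      have e3 : (‖v i‖ + ‖v (i + 1)‖ + ‖v (i + 2)‖) ^ 2 ≤
          (3 * (C1 * ‖v 0‖ * Real.exp (-(s' * i)))) ^ 2 := by
        apply pow_le_pow_left₀ (by positivity)
        have a0 := hdec' i 0
        have a1 := hdec' i 1
        have a2 := hdec' i 2
        simp only [add_zero] at a0
        linarith
      have e4 : Real.exp (-(2 * s' * i)) = Real.exp (-(s' * i)) ^ 2 := by
        rw [← Real.exp_nat_mul]
        congr 1
        push_cast
        ring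
      refine e2.trans ?_
      calc C2 * (‖v i‖ + ‖v (i + 1)‖ + ‖v (i + 2)‖) ^ 2
          ≤ |C2| * (3 * (C1 * ‖v 0‖ * Real.exp (-(s' * i)))) ^ 2 :=
            mul_le_mul (le_abs_self _) e3 (by positivity) (abs_nonneg _)
        _ = (9 * |C2| * C1 ^ 2) * ‖v 0‖ ^ 2 * Real.exp (-(2 * s' * i)) := by
            rw [e4]; ring
        _ ≤ (C1 + 9 * |C2| * C1 ^ 2) * ‖v 0‖ ^ 2 * Real.exp (-(2 * s' * i)) := by
            apply mul_le_mul_of_nonneg_right _ (Real.exp_pos _).le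
            apply mul_le_mul_of_nonneg_right _ (by positivity)
            linarith)
  simp only [zero_add] at hQ1 hQ2
  have hdiff : ((v 1, v 0) : V × V) - (Bu (v 0), v 0) = (v 1 - Bu (v 0), 0) := by
    ext <;> simp
  have hPs : Ps (v 1 - Bu (v 0), 0) = Ps (v 1, v 0) := by
    rw [← hdiff, map_sub, hSpc.gu, sub_zero]
  have hb1 : ‖v 1 - Bu (v 0)‖ ≤ c * (C3 * ‖v 0‖ ^ 2) := by
    refine (hbel _).trans (mul_le_mul_of_nonneg_left ?_ hc)
    rw [hPs]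
    exact hQ2
  have hb2 : ‖P (v 1, v 0) - P (Bu (v 0), v 0)‖ ≤ ‖P‖ * (c * (C3 * ‖v 0‖ ^ 2)) := by
    rw [← map_sub, hdiff]
    refine (P.le_opNorm _).trans (mul_le_mul_of_nonneg_left ?_ (norm_nonneg _))
    rw [Prod.norm_mk, norm_zero, max_eq_left (norm_nonneg _)]
    exact hb1
  have hb3 : ‖Q - P (Bu (v 0), v 0)‖ ≤ D * ‖v 0‖ ^ 2 := by
    have := norm_add_le (Q - P (v 1, v 0)) (P (v 1, v 0) - P (Bu (v 0), v 0))
    rw [sub_add_sub_cancel] at this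
    calc ‖Q - P (Bu (v 0), v 0)‖ ≤ C3 * ‖v 0‖ ^ 2 + ‖P‖ * (c * (C3 * ‖v 0‖ ^ 2)) :=
          this.trans (add_le_add hQ1 hb2)
      _ = D * ‖v 0‖ ^ 2 := by rw [hDdef]; ring
  refine ⟨Q, hPQ, ?_, hb3, ?_⟩
  · have e5 : ‖P (Bu (v 0), v 0)‖ ≤ ‖P‖ * (‖Bu‖ + 1) * ‖v 0‖ := by
      refine (P.le_opNorm _).trans ?_
      rw [mul_assoc]
      refine mul_le_mul_of_nonneg_left ?_ (norm_nonneg _)
      rw [Prod.norm_mk]
      refine max_le ?_ ?_
      · refine (Bu.le_opNorm _).trans (mul_le_mul_of_nonneg_right ?_ (norm_nonneg _))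
        linarith
      · nlinarith [norm_nonneg (v 0), norm_nonneg Bu]
    have e6 : ‖Q‖ ≤ ‖Q - P (Bu (v 0), v 0)‖ + ‖P (Bu (v 0), v 0)‖ := by
      have := norm_add_le (Q - P (Bu (v 0), v 0)) (P (Bu (v 0), v 0))
      rwa [sub_add_cancel] at this
    have e7 : D * ‖v 0‖ ^ 2 ≤ D * ‖v 0‖ := by
      apply mul_le_mul_of_nonneg_left _ hDnn
      rw [pow_two]
      exact mul_le_of_le_one_left (norm_nonneg _) hv0'
    calc ‖Q‖ ≤ D * ‖v 0‖ + ‖P‖ * (‖Bu‖ + 1) * ‖v 0‖ := by linarith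
      _ ≤ M * ‖v 0‖ := by
          rw [hMdef]
          nlinarith [norm_nonneg (v 0)]
      _ ≤ M * (1 / M) := mul_le_mul_of_nonneg_left hv0 hMpos.le
      _ = 1 := by field_simp
  · intro i
    refine (hQ3 i).trans ?_
    apply mul_le_mul_of_nonneg_right _ (Real.exp_pos _).le
    calc C3 * ‖v 0‖ ≤ C3 * 1 := mul_le_mul_of_nonneg_left hv0' hC3
      _ ≤ D := by
          rw [hDdef, mul_one]
          have : 0 ≤ ‖P‖ * (c * C3) := by positivity
          linarith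

end Pool.Agent.LX
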