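import Pool.Agent.Work.MP_25cd3b_gt.LX.StmtsZ

set_option autoImplicit false

/-!
# MP_25cd3b_gt, block LX, item ZRe: uniqueness of realisations
-/

open Set Filter Topology
open scoped ContDiff

namespace Pool.Agent.LX

namespace IZRe

section key

theorem surjF {D : Type} [AddCommGroup D] [Module ℝ D] [FiniteDimensional ℝ D]
    (F : Submodule ℝ D) (τ : D →ₗ[ℝ] D) (hle : F ≤ F.comap τ) (hinj : Function.Injective τ) :
    ∀ ξ ∈ F, ∃ η ∈ F, τ η = ξ := by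
  let τF : F →ₗ[ℝ] F := τ.restrict hle
  have hinj' : Function.Injective τF := by
    intro a b hab
    exact Subtype.ext (hinj (congrArg Subtype.val hab))
  have hs : Function.Surjective τF := LinearMap.surjective_of_injective hinj'
  intro ξ hξ
  obtain ⟨η, hη⟩ := hs ⟨ξ, hξ⟩
  exact ⟨η, η.2, congrArg Subtype.val hη⟩

theorem bsF {D : Type} [NormedAddCommGroup D] [NormedSpace ℝ D] [FiniteDimensional ℝ D]
    (F : Submodule ℝ D) (e : ℕ → D →L[ℝ] ℝ) (h : ∀ ξ ∈ F, ∃ K : ℝ, ∀ j, |e j ξ| ≤ K) :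
    ∃ K : ℝ, ∀ ξ ∈ F, ∀ j, |e j ξ| ≤ K * ‖ξ‖ := by
  have : CompleteSpace F := FiniteDimensional.complete ℝ F
  let g : ℕ → F →L[ℝ] ℝ := fun j => (e j).comp F.subtypeL
  have hg : ∀ (j : ℕ) (ξ : F), g j ξ = e j ξ := fun j ξ => rfl
  have hbs : ∀ ξ : F, ∃ K : ℝ, ∀ j : ℕ, ‖g j ξ‖ ≤ K := by
    intro ξ
    obtain ⟨K, hK⟩ := h ξ ξ.2
    exact ⟨K, fun j => by rw [hg, Real.norm_eq_abs]; exact hK j⟩
  obtain ⟨K, hK⟩ := banach_steinhaus hbs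
  refine ⟨K, ?_⟩
  intro ξ hξ j
  have h3 := (g j).le_of_opNorm_le (hK j) ⟨ξ, hξ⟩
  rw [hg, Real.norm_eq_abs] at h3
  exact h3

theorem iter_cancel {S : Type} [NormedAddCommGroup S] [NormedSpace ℝ S] (T : S ≃L[ℝ] S) (k : ℕ)
    (x : S) : (⇑T)^[k] ((⇑T.symm)^[k] x) = x := by
  induction k generalizing x with
  | zero => rfl
  | succ k ih =>
    rw [Function.iterate_succ_apply', Function.iterate_succ_apply, ih, T.apply_symm_apply]

theorem keyD {S D : Type} [NormedAddCommGroup S] [NormedSpace ℝ S] [NormedAddCommGroup D]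
    [NormedSpace ℝ D] [FiniteDimensional ℝ D] (T : S ≃L[ℝ] S) (ev : S → D →L[ℝ] ℝ)
    (τ : D →ₗ[ℝ] D) (hτ : ∀ x ξ, ev x (τ ξ) = ev (T.symm x) ξ)
    (hext : ∀ ξ η, (∀ x, ev x ξ = ev x η) → ξ = η)
    (hnorm : ∀ (ξ : D) (c : ℝ), 0 ≤ c → (∀ x, |ev x ξ| ≤ c * ‖x‖) → ‖ξ‖ ≤ c) (φ : D) (ψ : S)
    (r t C₁ C' : ℝ) (k₀ : ℕ) (hrt : r < t) (hC₁ : 0 ≤ C₁)
    (h1 : ∀ (j : ℕ) (w : S), |ev ((⇑T)^[j] w) φ| ≤ C₁ * Real.exp (r * j) * ‖w‖)
    (h2 : ∀ k : ℕ, k₀ ≤ k → |ev ((⇑T.symm)^[k] ψ) φ| ≤ C' * Real.exp (-(t * k))) :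
    ev ψ φ = 0 := by
  have hτk : ∀ (k : ℕ) (x : S), ev x ((⇑τ)^[k] φ) = ev ((⇑T.symm)^[k] x) φ := by
    intro k
    induction k with
    | zero => intro x; rfl
    | succ k ih =>
      intro x
      rw [Function.iterate_succ_apply', hτ, ih, Function.iterate_succ_apply]
  obtain ⟨F, hF⟩ : ∃ F : Submodule ℝ D,
    F = Submodule.span ℝ (Set.range fun k : ℕ => (⇑τ)^[k] φ) := ⟨_, rfl⟩
  have hle : F ≤ F.comap τ := by
    conv_lhs => rw [hF]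
    refine Submodule.span_le.2 ?_
    rintro _ ⟨k, rfl⟩
    show τ ((⇑τ)^[k] φ) ∈ F
    rw [← Function.iterate_succ_apply' (⇑τ) k φ, hF]
    exact Submodule.subset_span ⟨k + 1, rfl⟩
  have hφ : φ ∈ F := by
    rw [hF]; exact Submodule.subset_span ⟨0, rfl⟩
  have hinj : Function.Injective τ := by
    intro a b hab
    apply hext
    intro x
    have := congrArg (ev (T x)) hab
    rw [hτ, hτ, T.symm_apply_apply] at this
    exact this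
  have hsurj := surjF F τ hle hinj
  have hiter : ∀ j : ℕ, ∃ ξ ∈ F, ∀ w, ev w ξ = ev ((⇑T)^[j] w) φ := by
    intro j
    induction j with
    | zero => exact ⟨φ, hφ, fun _ => rfl⟩
    | succ j ih =>
      obtain ⟨ξ, hξ, e⟩ := ih
      obtain ⟨η, hη, e'⟩ := hsurj ξ hξ
      refine ⟨η, hη, ?_⟩
      intro w
      rw [Function.iterate_succ_apply, ← e, ← e', hτ, T.symm_apply_apply]
  -- pointwise bounds
  have hpt : ∀ ξ ∈ F, ∃ K : ℝ, ∀ j : ℕ, k₀ ≤ j →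
      |ev ((⇑T.symm)^[j] ψ) ξ| ≤ K * Real.exp (-(t * j)) := by
    intro ξ hξ
    rw [hF] at hξ
    induction hξ using Submodule.span_induction with
    | mem x hx =>
      obtain ⟨k, rfl⟩ := hx
      refine ⟨C' * Real.exp (-(t * k)), ?_⟩
      intro j hj
      show |ev ((⇑T.symm)^[j] ψ) ((⇑τ)^[k] φ)| ≤ _
      rw [hτk, ← Function.iterate_add_apply]
      refine (h2 (k + j) (by omega)).trans (le_of_eq ?_)
      rw [mul_assoc, ← Real.exp_add]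
      push_cast
      congr 2
      ring
    | zero => exact ⟨0, fun j _ => by simp⟩
    | add x y _ _ hx hy =>
      obtain ⟨K, hK⟩ := hx
      obtain ⟨K', hK'⟩ := hy
      refine ⟨K + K', fun j hj => ?_⟩
      rw [map_add, add_mul]
      exact (abs_add_le _ _).trans (add_le_add (hK j hj) (hK' j hj))
    | smul a x _ hx =>
      obtain ⟨K, hK⟩ := hx
      refine ⟨|a| * K, fun j hj => ?_⟩
      rw [map_smul, smul_eq_mul, abs_mul, mul_assoc]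
      exact mul_le_mul_of_nonneg_left (hK j hj) (abs_nonneg a)
  -- uniform bound
  obtain ⟨K, hK⟩ := bsF F (fun j => Real.exp (t * ((k₀ + j : ℕ) : ℝ)) •
      ev ((⇑T.symm)^[k₀ + j] ψ)) (by
    intro ξ hξ
    obtain ⟨K, hK⟩ := hpt ξ hξ
    refine ⟨K, fun j => ?_⟩
    show |Real.exp (t * ((k₀ + j : ℕ) : ℝ)) * ev ((⇑T.symm)^[k₀ + j] ψ) ξ| ≤ K
    rw [abs_mul, abs_of_pos (Real.exp_pos _)]
    have := mul_le_mul_of_nonneg_left (hK (k₀ + j) (by omega))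
      (Real.exp_pos (t * ((k₀ + j : ℕ) : ℝ))).le
    refine this.trans (le_of_eq ?_)
    rw [mul_comm K, ← mul_assoc, ← Real.exp_add, add_neg_cancel, Real.exp_zero, one_mul])
  have hfin : ∀ j : ℕ, |ev ψ φ| ≤ |K| * C₁ * Real.exp ((r - t) * ((k₀ + j : ℕ) : ℝ)) := by
    intro j
    obtain ⟨ξ, hξ, e⟩ := hiter (k₀ + j)
    have hn : ‖ξ‖ ≤ C₁ * Real.exp (r * ((k₀ + j : ℕ) : ℝ)) := by
      refine hnorm ξ _ (by positivity) ?_
      intro w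
      rw [e]
      exact h1 (k₀ + j) w
    have h3 : |Real.exp (t * ((k₀ + j : ℕ) : ℝ)) * ev ((⇑T.symm)^[k₀ + j] ψ) ξ| ≤ K * ‖ξ‖ :=
      hK ξ hξ j
    rw [e, iter_cancel, abs_mul, abs_of_pos (Real.exp_pos _)] at h3
    have h4 : K * ‖ξ‖ ≤ |K| * (C₁ * Real.exp (r * ((k₀ + j : ℕ) : ℝ))) :=
      mul_le_mul (le_abs_self K) hn (norm_nonneg _) (abs_nonneg _)
    have h5 := mul_le_mul_of_nonneg_left (h3.trans h4)
      (Real.exp_pos (-(t * ((k₀ + j : ℕ) : ℝ)))).le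
    rw [← mul_assoc, ← Real.exp_add, neg_add_cancel, Real.exp_zero, one_mul] at h5
    refine h5.trans (le_of_eq ?_)
    rw [show Real.exp (-(t * ((k₀ + j : ℕ) : ℝ))) * (|K| * (C₁ * Real.exp (r * ((k₀ + j : ℕ) : ℝ))))
      = |K| * C₁ * (Real.exp (r * ((k₀ + j : ℕ) : ℝ)) * Real.exp (-(t * ((k₀ + j : ℕ) : ℝ)))) by ring,
      ← Real.exp_add]
    congr 2
    ring
  have hlim : Tendsto (fun j : ℕ => |K| * C₁ * Real.exp ((r - t) * ((k₀ + j : ℕ) : ℝ))) atTop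
      (𝓝 (|K| * C₁ * 0)) := by
    refine Tendsto.const_mul _ ?_
    refine Real.tendsto_exp_atBot.comp ?_
    refine Tendsto.const_mul_atTop_of_neg (by linarith) ?_
    refine tendsto_natCast_atTop_atTop.comp ?_
    exact tendsto_atTop_mono (fun j => Nat.le_add_left j k₀) tendsto_id
  have h0 : |ev ψ φ| ≤ |K| * C₁ * 0 := ge_of_tendsto' hlim hfin
  rw [mul_zero] at h0
  exact abs_nonpos_iff.1 h0

/-- composition with the inverse -/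
noncomputable def tau {S : Type} [NormedAddCommGroup S] [NormedSpace ℝ S] (T : S ≃L[ℝ] S) :
    (S →L[ℝ] ℝ) →ₗ[ℝ] (S →L[ℝ] ℝ) where
  toFun ξ := ξ.comp (T.symm : S →L[ℝ] S)
  map_add' ξ η := by ext x; rfl
  map_smul' c ξ := by ext x; rfl

theorem key {S : Type} [NormedAddCommGroup S] [NormedSpace ℝ S] [FiniteDimensional ℝ S]
    (T : S ≃L[ℝ] S) (φ : S →L[ℝ] ℝ) (ψ : S)
    (r t C₁ C' : ℝ) (k₀ : ℕ) (hrt : r < t) (hC₁ : 0 ≤ C₁)
    (h1 : ∀ (j : ℕ) (w : S), |φ ((⇑T)^[j] w)| ≤ C₁ * Real.exp (r * j) * ‖w‖)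
    (h2 : ∀ k : ℕ, k₀ ≤ k → |φ ((⇑T.symm)^[k] ψ)| ≤ C' * Real.exp (-(t * k))) : φ ψ = 0 :=
  keyD (D := S →L[ℝ] ℝ) T (fun x => ContinuousLinearMap.apply ℝ ℝ x) (tau T) (fun _ _ => rfl)
    (fun ξ η h => ContinuousLinearMap.ext h)
    (fun ξ c hc h => ξ.opNorm_le_bound hc (fun x => by rw [Real.norm_eq_abs]; exact h x))
    φ ψ r t C₁ C' k₀ hrt hC₁ h1 h2

end key

section com

variable {S : Type} [NormedAddCommGroup S] [NormedSpace ℝ S]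

theorem com_iter (T : S ≃L[ℝ] S) (P : S →L[ℝ] S) (h : ∀ w, P (T w) = T (P w)) (k : ℕ) (w : S) :
    P ((⇑T)^[k] w) = (⇑T)^[k] (P w) := by
  induction k generalizing w with
  | zero => rfl
  | succ k ih => rw [Function.iterate_succ_apply, ih, h, Function.iterate_succ_apply]

theorem com_symm (T : S ≃L[ℝ] S) (P : S →L[ℝ] S) (h : ∀ w, P (T w) = T (P w)) (w : S) :
    P (T.symm w) = T.symm (P w) := by
  apply T.injective
  rw [← h, T.apply_symm_apply, T.apply_symm_apply]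

end com

section prod

variable {S₁ S₂ : Type} [NormedAddCommGroup S₁] [NormedSpace ℝ S₁]
  [NormedAddCommGroup S₂] [NormedSpace ℝ S₂]

theorem prod_iter (T₁ : S₁ ≃L[ℝ] S₁) (T₂ : S₂ ≃L[ℝ] S₂) (k : ℕ) (x : S₁) (y : S₂) :
    (⇑(T₁.prodCongr T₂))^[k] (x, y) = ((⇑T₁)^[k] x, (⇑T₂)^[k] y) := by
  induction k generalizing x y with
  | zero => rfl
  | succ k ih =>
    rw [Function.iterate_succ_apply, Function.iterate_succ_apply, Function.iterate_succ_apply]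
    exact ih (T₁ x) (T₂ y)

theorem prod_symm_iter (T₁ : S₁ ≃L[ℝ] S₁) (T₂ : S₂ ≃L[ℝ] S₂) (k : ℕ) (x : S₁) (y : S₂) :
    (⇑(T₁.prodCongr T₂).symm)^[k] (x, y) = ((⇑T₁.symm)^[k] x, (⇑T₂.symm)^[k] y) := by
  induction k generalizing x y with
  | zero => rfl
  | succ k ih =>
    rw [Function.iterate_succ_apply, Function.iterate_succ_apply, Function.iterate_succ_apply]
    exact ih (T₁.symm x) (T₂.symm y)

end prod

end IZRe

open IZRe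

theorem pr_ZRe : ZRe := by
  intro S₁ S₂ _ _ _ _ _ _ T₁ T₂ s r₁ r₂ t₁ t₂ t Ps₁ P₁ Ps₂ P₂ hS₁ hS₂ hr₁ hr₂ 𝒜 ℬ f₁ f₂ Q₁ Q₂
    hQ₁ hQ₂ hsp₁ hsp₂ hse₁ hse₂ hest
  obtain ⟨c₁, hc₁⟩ := hS₁.b2
  obtain ⟨c₂, hc₂⟩ := hS₂.b2
  -- (1) the two realisations have the same coefficients
  have hzero : ∀ (α : 𝒜) (β : ℬ) (i : ℕ),
      f₁ α ((⇑T₁.symm)^[i] (Q₁ β)) = f₂ α ((⇑T₂.symm)^[i] (Q₂ β)) := by
    intro α β i
    obtain ⟨C, k₀, hC⟩ := hest α β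
    have hsy₁ : ∀ k, P₁ ((⇑T₁.symm)^[k] (Q₁ β)) = (⇑T₁.symm)^[k] (Q₁ β) := fun k => by
      rw [com_iter T₁.symm P₁ (com_symm T₁ P₁ hS₁.cp), hQ₁]
    have hsy₂ : ∀ k, P₂ ((⇑T₂.symm)^[k] (Q₂ β)) = (⇑T₂.symm)^[k] (Q₂ β) := fun k => by
      rw [com_iter T₂.symm P₂ (com_symm T₂ P₂ hS₂.cp), hQ₂]
    let φ : S₁ × S₂ →L[ℝ] ℝ := ((f₁ α).comp P₁).comp (ContinuousLinearMap.fst ℝ S₁ S₂) -
      ((f₂ α).comp P₂).comp (ContinuousLinearMap.snd ℝ S₁ S₂)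
    have hφ : ∀ (x : S₁) (y : S₂), φ (x, y) = f₁ α (P₁ x) - f₂ α (P₂ y) := fun x y => rfl
    have hk := key (T₁.prodCongr T₂) φ ((⇑T₁.symm)^[i] (Q₁ β), (⇑T₂.symm)^[i] (Q₂ β))
      (max r₁ r₂) t (‖f₁ α‖ * |c₁| + ‖f₂ α‖ * |c₂|) (C * Real.exp (-(t * i))) k₀
      (max_lt hr₁ hr₂) (by positivity) ?_ ?_
    · rw [hφ, hsy₁, hsy₂] at hk
      linarith
    · rintro j ⟨x, y⟩
      rw [prod_iter, hφ, com_iter T₁ P₁ hS₁.cp, com_iter T₂ P₂ hS₂.cp]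
      have hj : (0 : ℝ) ≤ j := Nat.cast_nonneg j
      have e1 : |f₁ α ((⇑T₁)^[j] (P₁ x))| ≤ ‖f₁ α‖ * |c₁| * Real.exp (max r₁ r₂ * j) * ‖(x, y)‖ := by
        have a1 := (f₁ α).le_opNorm ((⇑T₁)^[j] (P₁ x))
        rw [Real.norm_eq_abs] at a1
        have a2 : ‖(⇑T₁)^[j] (P₁ x)‖ ≤ |c₁| * Real.exp (max r₁ r₂ * j) * ‖(x, y)‖ := by
          refine (hc₁ j x).trans ?_
          have a3 : c₁ * Real.exp (r₁ * j) ≤ |c₁| * Real.exp (max r₁ r₂ * j) :=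
            mul_le_mul (le_abs_self _)
              (Real.exp_le_exp.2 (mul_le_mul_of_nonneg_right (le_max_left _ _) hj))
              (Real.exp_pos _).le (abs_nonneg _)
          exact mul_le_mul a3 (norm_fst_le (x, y)) (norm_nonneg _) (by positivity)
        have a4 := mul_le_mul_of_nonneg_left a2 (norm_nonneg (f₁ α))
        calc |f₁ α ((⇑T₁)^[j] (P₁ x))| ≤ ‖f₁ α‖ * ‖(⇑T₁)^[j] (P₁ x)‖ := a1
          _ ≤ ‖f₁ α‖ * (|c₁| * Real.exp (max r₁ r₂ * j) * ‖(x, y)‖) := a4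
          _ = ‖f₁ α‖ * |c₁| * Real.exp (max r₁ r₂ * j) * ‖(x, y)‖ := by ring
      have e2 : |f₂ α ((⇑T₂)^[j] (P₂ y))| ≤ ‖f₂ α‖ * |c₂| * Real.exp (max r₁ r₂ * j) * ‖(x, y)‖ := by
        have a1 := (f₂ α).le_opNorm ((⇑T₂)^[j] (P₂ y))
        rw [Real.norm_eq_abs] at a1
        have a2 : ‖(⇑T₂)^[j] (P₂ y)‖ ≤ |c₂| * Real.exp (max r₁ r₂ * j) * ‖(x, y)‖ := by
          refine (hc₂ j y).trans ?_
          have a3 : c₂ * Real.exp (r₂ * j) ≤ |c₂| * Real.exp (max r₁ r₂ * j) :=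
            mul_le_mul (le_abs_self _)
              (Real.exp_le_exp.2 (mul_le_mul_of_nonneg_right (le_max_right _ _) hj))
              (Real.exp_pos _).le (abs_nonneg _)
          exact mul_le_mul a3 (norm_snd_le (x, y)) (norm_nonneg _) (by positivity)
        have a4 := mul_le_mul_of_nonneg_left a2 (norm_nonneg (f₂ α))
        calc |f₂ α ((⇑T₂)^[j] (P₂ y))| ≤ ‖f₂ α‖ * ‖(⇑T₂)^[j] (P₂ y)‖ := a1
          _ ≤ ‖f₂ α‖ * (|c₂| * Real.exp (max r₁ r₂ * j) * ‖(x, y)‖) := a4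
          _ = ‖f₂ α‖ * |c₂| * Real.exp (max r₁ r₂ * j) * ‖(x, y)‖ := by ring
      refine (abs_sub _ _).trans ?_
      rw [add_mul, add_mul]
      exact add_le_add e1 e2
    · intro k hk
      rw [prod_symm_iter, hφ, ← Function.iterate_add_apply, ← Function.iterate_add_apply,
        hsy₁, hsy₂]
      refine (hC (k + i) (by omega)).trans (le_of_eq ?_)
      rw [mul_assoc, ← Real.exp_add]
      push_cast
      congr 2
      ring
  -- (2) the graph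
  obtain ⟨𝒢, h𝒢⟩ : ∃ 𝒢 : Submodule ℝ (S₁ × S₂),
    𝒢 = Submodule.span ℝ (Set.range fun β : ℬ => (Q₁ β, Q₂ β)) := ⟨_, rfl⟩
  have hg : ∀ z ∈ 𝒢, P₁ z.1 = z.1 ∧ P₂ z.2 = z.2 ∧ ∀ α, f₁ α z.1 = f₂ α z.2 ∧
      f₁ α (T₁.symm z.1) = f₂ α (T₂.symm z.2) := by
    intro z hz
    rw [h𝒢] at hz
    induction hz using Submodule.span_induction with
    | mem x hx =>
      obtain ⟨β, rfl⟩ := hx
      exact ⟨hQ₁ β, hQ₂ β, fun α => ⟨hzero α β 0, hzero α β 1⟩⟩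
    | zero => simp
    | add x y _ _ hx hy =>
      refine ⟨?_, ?_, ?_⟩
      · rw [Prod.fst_add, map_add, hx.1, hy.1]
      · rw [Prod.snd_add, map_add, hx.2.1, hy.2.1]
      · intro α
        rw [Prod.fst_add, Prod.snd_add, map_add, map_add, map_add, map_add, map_add, map_add,
          (hx.2.2 α).1, (hy.2.2 α).1, (hx.2.2 α).2, (hy.2.2 α).2]
        exact ⟨rfl, rfl⟩
    | smul a x _ hx =>
      refine ⟨?_, ?_, ?_⟩
      · rw [Prod.smul_fst, map_smul, hx.1]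
      · rw [Prod.smul_snd, map_smul, hx.2.1]
      · intro α
        rw [Prod.smul_fst, Prod.smul_snd, map_smul, map_smul, map_smul, map_smul, map_smul,
          map_smul, (hx.2.2 α).1, (hx.2.2 α).2]
        exact ⟨rfl, rfl⟩
  have hin₁ : ∀ z ∈ 𝒢, z.1 = 0 → z = 0 := by
    intro z hz h0
    obtain ⟨-, b, c⟩ := hg z hz
    have : z.2 = 0 := hse₂ z.2 b (fun α => by rw [← (c α).1, h0, map_zero])
    exact Prod.ext h0 this
  have hin₂ : ∀ z ∈ 𝒢, z.2 = 0 → z = 0 := by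
    intro z hz h0
    obtain ⟨a, -, c⟩ := hg z hz
    have : z.1 = 0 := hse₁ z.1 a (fun α => by rw [(c α).1, h0, map_zero])
    exact Prod.ext this h0
  have hex₁ : ∀ w, P₁ w = w → ∃ y, (w, y) ∈ 𝒢 := by
    intro w hw
    have h1 := hsp₁ w hw
    have h2 : Submodule.span ℝ (range Q₁) ≤ 𝒢.map (LinearMap.fst ℝ S₁ S₂) := by
      refine Submodule.span_le.2 ?_
      rintro _ ⟨β, rfl⟩
      exact ⟨(Q₁ β, Q₂ β), by rw [h𝒢]; exact Submodule.subset_span ⟨β, rfl⟩, rfl⟩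
    obtain ⟨⟨x, y⟩, hz, e⟩ := h2 h1
    have e' : x = w := e
    subst e'
    exact ⟨y, hz⟩
  have hex₂ : ∀ w, P₂ w = w → ∃ x, (x, w) ∈ 𝒢 := by
    intro w hw
    have h1 := hsp₂ w hw
    have h2 : Submodule.span ℝ (range Q₂) ≤ 𝒢.map (LinearMap.snd ℝ S₁ S₂) := by
      refine Submodule.span_le.2 ?_
      rintro _ ⟨β, rfl⟩
      exact ⟨(Q₁ β, Q₂ β), by rw [h𝒢]; exact Submodule.subset_span ⟨β, rfl⟩, rfl⟩
    obtain ⟨⟨x, y⟩, hz, e⟩ := h2 h1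
    have e' : y = w := e
    subst e'
    exact ⟨x, hz⟩
  obtain ⟨g, hgl⟩ := LinearMap.exists_leftInverse_of_injective
    ((LinearMap.fst ℝ S₁ S₂).comp 𝒢.subtype) (by
      rw [LinearMap.ker_eq_bot']
      intro z hz
      exact Subtype.ext (hin₁ z.1 z.2 hz))
  let Ψ : S₁ →L[ℝ] S₂ :=
    LinearMap.toContinuousLinearMap (((LinearMap.snd ℝ S₁ S₂).comp 𝒢.subtype).comp g)
  have hΨ : ∀ x y, (x, y) ∈ 𝒢 → Ψ x = y := by
    intro x y hxy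
    have h1 := LinearMap.congr_fun hgl ⟨(x, y), hxy⟩
    have h2 : g x = ⟨(x, y), hxy⟩ := h1
    show (g x : S₁ × S₂).2 = y
    rw [h2]
  refine ⟨Ψ, ?_, ?_, ?_, ?_⟩
  · intro w hw
    obtain ⟨y, hy⟩ := hex₁ w hw
    rw [hΨ w y hy]
    exact (hg _ hy).2.1
  · intro w hw h0
    obtain ⟨y, hy⟩ := hex₁ w hw
    rw [hΨ w y hy] at h0
    exact congrArg Prod.fst (hin₂ _ hy h0)
  · intro w' hw'
    obtain ⟨x, hx⟩ := hex₂ w' hw'
    exact ⟨x, (hg _ hx).1, hΨ x w' hx⟩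
  · intro w hw
    obtain ⟨y, hy⟩ := hex₁ w hw
    have hTw : P₁ (T₁ w) = T₁ w := by rw [hS₁.cp, hw]
    obtain ⟨y₁, hy₁⟩ := hex₁ (T₁ w) hTw
    rw [hΨ w y hy, hΨ _ y₁ hy₁]
    obtain ⟨-, b, c⟩ := hg _ hy
    obtain ⟨-, b₁, d⟩ := hg _ hy₁
    have hE : P₂ (T₂.symm y₁ - y) = T₂.symm y₁ - y := by
      rw [map_sub, com_symm T₂ P₂ hS₂.cp]
      have b' : P₂ y = y := b
      have b₁' : P₂ y₁ = y₁ := b₁
      rw [b', b₁']
    have h0 : T₂.symm y₁ - y = 0 := by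
      refine hse₂ _ hE ?_
      intro α
      have d1 : f₁ α (T₁.symm (T₁ w)) = f₂ α (T₂.symm y₁) := (d α).2
      have c1 : f₁ α w = f₂ α y := (c α).1
      rw [T₁.symm_apply_apply] at d1
      rw [map_sub, ← d1, c1, sub_self]
    have h3 : T₂.symm y₁ = y := sub_eq_zero.1 h0
    rw [← h3, T₂.apply_symm_apply]

end Pool.Agent.LX
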