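import Pool.Agent.Work.MP_25cd3b_gt.LX.StmtsZ

set_option autoImplicit false

/-!
# MP_25cd3b_gt, block LX, part Z, item ZSp: spanning
-/

open Set Filter Topology

namespace Pool.Agent.LX

namespace IZSp

/-- a real number bounded by `M * θ` for all small `θ > 0` is at most `0` -/
theorem le_zero_of_small {a M ρ : ℝ} (hρ : 0 < ρ)
    (h : ∀ θ : ℝ, 0 < θ → θ ≤ ρ → a ≤ M * θ) : a ≤ 0 := by
  by_contra hcon
  have ha : 0 < a := not_le.mp hcon
  have hM : 0 < M := by
    by_contra hM
    have hM' : M ≤ 0 := not_lt.mp hM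
    have h1 := h ρ hρ le_rfl
    have h2 : M * ρ ≤ 0 := mul_nonpos_of_nonpos_of_nonneg hM' hρ.le
    linarith
  have hθ : 0 < min ρ (a / (2 * M)) := lt_min hρ (by positivity)
  have h1 := h _ hθ (min_le_left _ _)
  have h2 : M * min ρ (a / (2 * M)) ≤ M * (a / (2 * M)) :=
    mul_le_mul_of_nonneg_left (min_le_right _ _) hM.le
  have h3 : M * (a / (2 * M)) = a / 2 := by field_simp
  linarith

variable {V : Type} [NormedAddCommGroup V] [NormedSpace ℝ V]

theorem small_scale {ρ₁ : ℝ} (z : V) {θ : ℝ} (hθ : 0 < θ)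
    (hθ1 : θ ≤ ρ₁ / (‖z‖ + 1)) : ‖θ • z‖ ≤ ρ₁ := by
  have hz : 0 < ‖z‖ + 1 := by positivity
  rw [norm_smul, Real.norm_of_nonneg hθ.le]
  calc θ * ‖z‖ ≤ θ * (‖z‖ + 1) := by
        apply mul_le_mul_of_nonneg_left _ hθ.le
        linarith
    _ ≤ (ρ₁ / (‖z‖ + 1)) * (‖z‖ + 1) := mul_le_mul_of_nonneg_right hθ1 hz.le
    _ = ρ₁ := div_mul_cancel₀ _ hz.ne'

end IZSp

open IZSp in
theorem pr_ZSp : ZSp := by
  intro V _ _ _ H T s q t₁ t Ps P B Bu hTws hS C ρ₁ hρ₁
  refine ⟨?_, ?_⟩
  · intro VV Q hQ hVV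
    -- T w lies in the span
    have key : ∀ w, P w = w → T w ∈ Submodule.span ℝ (Q '' VV) := by
      intro w hw
      have hPs : Ps w = 0 := by
        rw [← hw]; exact hS.spl.sp w
      have hw1 : w.1 = Bu w.2 := hS.ku w hPs
      have hwz : w = (Bu w.2, w.2) := by
        ext
        · exact hw1
        · rfl
      set U : Submodule ℝ (V × V) := Submodule.span ℝ (Q '' VV) with hU
      have hclosed : IsClosed (U : Set (V × V)) := U.closed_of_finiteDimensional
      have hmem : T w ∈ closure (U : Set (V × V)) := by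
        rw [Metric.mem_closure_iff]
        intro ε hε
        -- choose θ
        have hz : 0 < ‖w.2‖ + 1 := by positivity
        set M : ℝ := |C| * ‖w.2‖ ^ 2 + 1 with hM
        have hMpos : 0 < M := by positivity
        set θ : ℝ := min (ρ₁ / (‖w.2‖ + 1)) (ε / (2 * M)) with hθdef
        have hθ : 0 < θ := lt_min (by positivity) (by positivity)
        obtain ⟨v, hv, hv0⟩ := hVV (θ • w.2) (small_scale w.2 hθ (min_le_left _ _))
        obtain ⟨_, hq⟩ := hQ v hv
        refine ⟨θ⁻¹ • Q v, U.smul_mem _ (Submodule.subset_span ⟨v, hv, rfl⟩), ?_⟩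
        have h1 : (Bu (v 0), v 0) = θ • w := by
          rw [hv0, map_smul]
          conv_rhs => rw [hwz]
          rfl
        rw [h1, map_smul, hw, map_smul, hv0] at hq
        have h2 : T w - θ⁻¹ • Q v = -(θ⁻¹ • (Q v - θ • T w)) := by
          rw [smul_sub, smul_smul, inv_mul_cancel₀ hθ.ne', one_smul, neg_sub]
        rw [dist_eq_norm, h2, norm_neg, norm_smul, norm_inv, Real.norm_of_nonneg hθ.le]
        rw [norm_smul, Real.norm_of_nonneg hθ.le] at hq
        have h3 : θ⁻¹ * ‖Q v - θ • T w‖ ≤ θ⁻¹ * (C * (θ * ‖w.2‖) ^ 2) :=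
          mul_le_mul_of_nonneg_left hq (by positivity)
        have h4 : θ⁻¹ * (C * (θ * ‖w.2‖) ^ 2) = θ * (C * ‖w.2‖ ^ 2) := by
          field_simp
        have h5 : θ * (C * ‖w.2‖ ^ 2) ≤ θ * M := by
          apply mul_le_mul_of_nonneg_left _ hθ.le
          have : C * ‖w.2‖ ^ 2 ≤ |C| * ‖w.2‖ ^ 2 :=
            mul_le_mul_of_nonneg_right (le_abs_self C) (by positivity)
          linarith
        have h6 : θ * M ≤ (ε / (2 * M)) * M :=
          mul_le_mul_of_nonneg_right (min_le_right _ _) hMpos.le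
        have h7 : (ε / (2 * M)) * M = ε / 2 := by field_simp
        linarith
      rw [hclosed.closure_eq] at hmem
      exact hmem
    intro w hw
    have hsymm : P (T.symm w) = T.symm w := by
      apply T.injective
      rw [← hS.spl.cp, T.apply_symm_apply, hw]
    have := key (T.symm w) hsymm
    rwa [T.apply_symm_apply] at this
  · intro PP f hf hPP w hw hfw
    have hPs : Ps w = 0 := by
      rw [← hw]; exact hS.spl.sp w
    have hzero : w.2 - B w.1 = 0 := by
      apply hTws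
      intro x
      have hle : |H (0, w.2 - B w.1) (x, 0)| ≤ 0 := by
        apply le_zero_of_small (M := C * ‖x‖ ^ 2 * ‖w‖) (ρ := ρ₁ / (‖x‖ + 1)) (by positivity)
        intro θ hθ hθ1
        obtain ⟨p, hp, hp0⟩ := hPP (θ • x) (small_scale x hθ hθ1)
        have h1 := hf p hp w hw
        rw [hfw p hp, hp0] at h1
        have h2 : ((θ • x, 0) : V × V) = θ • (x, 0) := by
          rw [Prod.smul_mk, smul_zero]
        rw [h2, map_smul, zero_sub, abs_neg, smul_eq_mul, abs_mul, abs_of_pos hθ, norm_smul,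
          Real.norm_of_nonneg hθ.le] at h1
        have h3 : θ * |H (0, w.2 - B w.1) (x, 0)| ≤ θ * (C * ‖x‖ ^ 2 * ‖w‖ * θ) := by
          calc θ * |H (0, w.2 - B w.1) (x, 0)| ≤ C * (θ * ‖x‖) ^ 2 * ‖w‖ := h1
            _ = θ * (C * ‖x‖ ^ 2 * ‖w‖ * θ) := by ring
        exact le_of_mul_le_mul_left h3 hθ
      exact abs_eq_zero.mp (le_antisymm hle (abs_nonneg _))
    have hwB : w = (w.1, B w.1) := by
      ext
      · rfl
      · exact sub_eq_zero.mp hzero
    have h1 : Ps w = w := by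
      conv_lhs => rw [hwB]
      rw [hS.gs]
      exact hwB.symm
    rw [← h1, hPs]

end Pool.Agent.LX
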