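import Pool.Agent.Work.MP_25cd3b_gt.LX.All
import Pool.Agent.Work.MP_25cd3b_gt.LX.I_SGr
import Pool.Agent.Work.MP_25cd3b_gt.LX.I_SHs
import Pool.Agent.Work.MP_25cd3b_gt.LX.I_SHy
import Pool.Agent.Work.MP_25cd3b_gt.LX.I_SPr
import Pool.Agent.Work.MP_25cd3b_gt.LX.I_SRr
import Pool.Agent.Work.MP_25cd3b_gt.LX.I_SSp
import Pool.Agent.Work.MP_25cd3b_gt.LX.I_STr
import Pool.Agent.Work.MP_25cd3b_gt.LX.I_VCon
import Pool.Agent.Work.MP_25cd3b_gt.LX.I_VEx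
import Pool.Agent.Work.MP_25cd3b_gt.LX.I_VFi
import Pool.Agent.Work.MP_25cd3b_gt.LX.I_VGv
import Pool.Agent.Work.MP_25cd3b_gt.LX.I_VJ1
import Pool.Agent.Work.MP_25cd3b_gt.LX.I_VJ3
import Pool.Agent.Work.MP_25cd3b_gt.LX.I_VJ5
import Pool.Agent.Work.MP_25cd3b_gt.LX.I_VTa
import Pool.Agent.Work.MP_25cd3b_gt.LX.I_VTw
import Pool.Agent.Work.MP_25cd3b_gt.LX.I_ZAs
import Pool.Agent.Work.MP_25cd3b_gt.LX.I_ZC4
import Pool.Agent.Work.MP_25cd3b_gt.LX.I_ZCv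
import Pool.Agent.Work.MP_25cd3b_gt.LX.I_ZDc
import Pool.Agent.Work.MP_25cd3b_gt.LX.I_ZF
import Pool.Agent.Work.MP_25cd3b_gt.LX.I_ZFf
import Pool.Agent.Work.MP_25cd3b_gt.LX.I_ZMa
import Pool.Agent.Work.MP_25cd3b_gt.LX.I_ZMb
import Pool.Agent.Work.MP_25cd3b_gt.LX.I_ZMc
import Pool.Agent.Work.MP_25cd3b_gt.LX.I_ZQv
import Pool.Agent.Work.MP_25cd3b_gt.LX.I_ZRe
import Pool.Agent.Work.MP_25cd3b_gt.LX.I_ZSp
import Pool.Agent.Work.MP_25cd3b_gt.LX.I_ZTh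

set_option autoImplicit false

/-!
# MP_25cd3b_gt, block LX, parts Z and V: all items
-/

namespace Pool.Agent.LX

theorem x_SPr : SPr := pr_SPr

theorem x_STr : STr := pr_STr

theorem x_SHy : SHy := pr_SHy x_XBvp x_XDec

theorem x_SHs : SHs := pr_SHs x_SHy x_XBvp x_XDec

theorem x_SSp : SSp := pr_SSp x_STr x_SHs x_SPr

theorem x_SGr : SGr := pr_SGr x_XPosR x_SHs x_SPr x_XRec

theorem x_ZDc : ZDc := pr_ZDc x_YDif x_XPer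

theorem x_ZTh : ZTh := pr_ZTh

theorem x_ZAs : ZAs := pr_ZAs

theorem x_ZQv : ZQv := pr_ZQv x_ZDc x_ZTh x_ZAs

theorem x_ZCv : ZCv := pr_ZCv x_YTri

theorem x_ZMa : ZMa := pr_ZMa x_ZDc x_XPer

theorem x_ZMb : ZMb := pr_ZMb x_ZMa x_ZCv

theorem x_ZMc : ZMc := pr_ZMc x_ZMa

theorem x_ZFf : ZFf := pr_ZFf x_ZDc x_XDec x_XBvp

theorem x_ZF : ZF := pr_ZF x_ZMb x_ZMc x_ZFf x_ZQv x_XBvp

theorem x_ZSp : ZSp := pr_ZSp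

theorem x_ZRe : ZRe := pr_ZRe

theorem x_ZC4 : ZC4 := pr_ZC4

theorem x_SRr : SRr := pr_SRr

theorem x_VTw : VTw := pr_VTw x_BPos x_BBv x_BOrt

theorem x_VEx : VEx := pr_VEx x_KExA x_KExB x_KAl x_BRev x_UG

theorem x_VGv : VGv := pr_VGv x_BCr x_KAl x_BRev x_UG

theorem x_VTa : VTa := pr_VTa x_BGen x_BSm x_ZC4 x_VTw x_KMain x_ZF

theorem x_VCon : VCon := pr_VCon x_VTa x_VEx x_VGv x_VTw x_RPr x_RT1 x_RT2 x_RTau x_SRr x_ZSp x_ZRe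

theorem x_VJ1 : VJ1 := pr_VJ1 x_BBv x_BOrt x_JChn

theorem x_VJ3 : VJ3 := pr_VJ3 x_JChn x_VTw x_BJm x_BJs x_VJ1

theorem x_VJ5 : VJ5 := pr_VJ5 x_VJ1 x_VJ3 x_BOrt x_BCr

theorem x_VFi : VFi := pr_VFi x_VCon x_VJ1 x_VJ3 x_VJ5 x_VTw x_BPos x_SGr x_SSp x_STr x_RFin x_RDim

end Pool.Agent.LX
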