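import Pool.Agent.Work.MP_25cd3b_gt.LX.StmtsU

set_option autoImplicit false

/-!
# MP_25cd3b_gt, block LX, part U, item UAb: the level step (helper41)
-/

open Set Filter Topology
open scoped ContDiff

namespace Pool.Agent.LX

namespace IUAb

section lin

variable {S : Type} [NormedAddCommGroup S] [NormedSpace ℝ S]

theorem iter_comm (T : S ≃L[ℝ] S) (k : ℕ) (w : S) :
    (⇑T.symm)^[k] (T w) = T ((⇑T.symm)^[k] w) := by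
  induction k generalizing w with
  | zero => rfl
  | succ k ih =>
    rw [Function.iterate_succ_apply', ih, Function.iterate_succ_apply', T.symm_apply_apply,
      T.apply_symm_apply]

theorem iter_comm' (T : S ≃L[ℝ] S) (k : ℕ) (w : S) :
    (⇑T.symm)^[k] (T.symm w) = T.symm ((⇑T.symm)^[k] w) := by
  rw [← Function.iterate_succ_apply, Function.iterate_succ_apply']

theorem comm_symm {T : S ≃L[ℝ] S} {r : ℝ} {P : S →L[ℝ] S} (h : Gap T r P) (w : S) :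
    P (T.symm w) = T.symm (P w) := by
  have h1 := h.comm (T.symm w)
  rw [T.apply_symm_apply] at h1
  rw [h1, T.symm_apply_apply]

theorem iter_smul (T : S ≃L[ℝ] S) (k : ℕ) (c : ℝ) (w : S) : (⇑T)^[k] (c • w) = c • (⇑T)^[k] w := by
  induction k generalizing w with
  | zero => rfl
  | succ k ih => rw [Function.iterate_succ_apply, map_smul, ih, Function.iterate_succ_apply]

/-- the space of the level -/
def Ev (T : S ≃L[ℝ] S) (r : ℝ) (P : S →L[ℝ] S) : Submodule ℝ S where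
  carrier := {w | InL T r P w}
  zero_mem' := by
    refine ⟨map_zero P, 0, fun k => ?_⟩
    rw [iterate_map_zero, norm_zero, zero_mul]
  add_mem' := by
    rintro a b ⟨ha, C, hC⟩ ⟨hb, D, hD⟩
    refine ⟨by rw [map_add, ha, hb], C + D, fun k => ?_⟩
    rw [iterate_map_add, add_mul]
    exact (norm_add_le _ _).trans (add_le_add (hC k) (hD k))
  smul_mem' := by
    rintro c a ⟨ha, C, hC⟩
    refine ⟨by rw [map_smul, ha], |c| * C, fun k => ?_⟩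
    rw [iter_smul, norm_smul, Real.norm_eq_abs, mul_assoc]
    exact mul_le_mul_of_nonneg_left (hC k) (abs_nonneg c)

theorem inL_T {T : S ≃L[ℝ] S} {r s : ℝ} {P : S →L[ℝ] S} (h : Gap T s P) {w : S}
    (hw : InL T r P w) : InL T r P (T w) := by
  obtain ⟨h1, C, hC⟩ := hw
  refine ⟨by rw [h.comm, h1], ‖(T : S →L[ℝ] S)‖ * C, fun k => ?_⟩
  rw [iter_comm, mul_assoc]
  exact ((T : S →L[ℝ] S).le_opNorm _).trans (mul_le_mul_of_nonneg_left (hC k) (norm_nonneg _))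

theorem inL_Ts {T : S ≃L[ℝ] S} {r s : ℝ} {P : S →L[ℝ] S} (h : Gap T s P) {w : S}
    (hw : InL T r P w) : InL T r P (T.symm w) := by
  obtain ⟨h1, C, hC⟩ := hw
  refine ⟨by rw [comm_symm h, h1], ‖(T.symm : S →L[ℝ] S)‖ * C, fun k => ?_⟩
  rw [iter_comm', mul_assoc]
  exact ((T.symm : S →L[ℝ] S).le_opNorm _).trans (mul_le_mul_of_nonneg_left (hC k) (norm_nonneg _))

/-- the restriction of `T` to the space of the level -/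
noncomputable def TE [FiniteDimensional ℝ S] {T : S ≃L[ℝ] S} {r s : ℝ} {P : S →L[ℝ] S} (h : Gap T s P) :
    Ev T r P ≃L[ℝ] Ev T r P :=
  LinearEquiv.toContinuousLinearEquiv
    { toFun := fun w => ⟨T w, inL_T h w.2⟩
      invFun := fun w => ⟨T.symm w, inL_Ts h w.2⟩
      map_add' := fun a b => Subtype.ext (map_add T _ _)
      map_smul' := fun c a => Subtype.ext (map_smul T _ _)
      left_inv := fun w => Subtype.ext (T.symm_apply_apply _)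
      right_inv := fun w => Subtype.ext (T.apply_symm_apply _) }

theorem TE_iter [FiniteDimensional ℝ S] {T : S ≃L[ℝ] S} {r s : ℝ} {P : S →L[ℝ] S} (h : Gap T s P)
    (k : ℕ) (w : Ev T r P) : (((⇑(TE (r := r) h))^[k] w : Ev T r P) : S) = (⇑T)^[k] (w : S) := by
  induction k generalizing w with
  | zero => rfl
  | succ k ih => rw [Function.iterate_succ_apply, ih, Function.iterate_succ_apply]; rfl

theorem TE_iter_symm [FiniteDimensional ℝ S] {T : S ≃L[ℝ] S} {r s : ℝ} {P : S →L[ℝ] S} (h : Gap T s P)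
    (k : ℕ) (w : Ev T r P) :
    (((⇑(TE (r := r) h).symm)^[k] w : Ev T r P) : S) = (⇑T.symm)^[k] (w : S) := by
  induction k generalizing w with
  | zero => rfl
  | succ k ih => rw [Function.iterate_succ_apply, ih, Function.iterate_succ_apply]; rfl

theorem TE_grow [FiniteDimensional ℝ S] {T : S ≃L[ℝ] S} {r s : ℝ} {P : S →L[ℝ] S} (h : Gap T s P) :
    ∃ r₀ C : ℝ, r₀ < s ∧ 0 ≤ C ∧ ∀ (k : ℕ) (w : Ev T r P),
      ‖(⇑(TE (r := r) h))^[k] w‖ ≤ C * Real.exp (r₀ * k) * ‖w‖ := by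
  obtain ⟨r₀, C, hr, hC⟩ := h.up
  refine ⟨r₀, |C|, hr, abs_nonneg C, fun k w => ?_⟩
  have h1 : ‖(⇑(TE (r := r) h))^[k] w‖ = ‖(⇑T)^[k] (w : S)‖ := by
    rw [← TE_iter h k w]; rfl
  have h2 : P (w : S) = w := w.2.1
  have h3 := hC k (w : S)
  rw [h2] at h3
  rw [h1]
  refine h3.trans ?_
  apply mul_le_mul_of_nonneg_right _ (norm_nonneg _)
  exact mul_le_mul_of_nonneg_right (le_abs_self C) (Real.exp_pos _).le

end lin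

section chains

variable {V : Type} [NormedAddCommGroup V] [NormedSpace ℝ V]

theorem exp_le {s t : ℝ} (h : s ≤ t) (j : ℕ) : Real.exp (-(t * j)) ≤ Real.exp (-(s * j)) := by
  apply Real.exp_le_exp.2
  have := mul_le_mul_of_nonneg_right h (Nat.cast_nonneg (α := ℝ) j)
  linarith

omit [NormedSpace ℝ V] in
theorem rt_nn {r : ℝ} {p : ℕ → V} (h : Rt r p) :
    ∃ A : ℝ, 0 ≤ A ∧ ∀ j : ℕ, ‖p j‖ ≤ A * Real.exp (-(r * j)) := by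
  obtain ⟨A, hA⟩ := h
  refine ⟨A, ?_, hA⟩
  have h1 := (norm_nonneg _).trans (hA 0)
  simpa using h1

omit [NormedSpace ℝ V] in
theorem rt_mono {r t : ℝ} (hrt : r ≤ t) {p : ℕ → V} (h : Rt t p) : Rt r p := by
  obtain ⟨A, hA0, hA⟩ := rt_nn h
  exact ⟨A, fun j => (hA j).trans (mul_le_mul_of_nonneg_left (exp_le hrt j) hA0)⟩

theorem exp_succ {s : ℝ} (hs : 0 ≤ s) (j : ℕ) :
    Real.exp (-(s * ((j + 1 : ℕ) : ℝ))) ≤ Real.exp (-(s * j)) := by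
  apply Real.exp_le_exp.2
  push_cast
  nlinarith

theorem cob_bd {T : (V × V) ≃L[ℝ] (V × V)} {s t : ℝ} (hs : 0 ≤ s) (hst : s ≤ t) {v : ℕ → V}
    {Q : V × V} (h : CoB T t v Q) (hv : Rt s v) :
    ∃ C : ℝ, ∀ k : ℕ, ‖(⇑T.symm)^[k] Q‖ ≤ C * Real.exp (-(s * k)) := by
  obtain ⟨A, hA0, hA⟩ := rt_nn hv
  obtain ⟨C, hC⟩ := h
  have hC0 : 0 ≤ C := by
    have h1 := (norm_nonneg _).trans (hC 0)
    simpa using h1
  refine ⟨A + C, fun k => ?_⟩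
  have h1 : ‖(v (k + 1), v k)‖ ≤ A * Real.exp (-(s * k)) := by
    rw [Prod.norm_def]
    exact max_le ((hA (k + 1)).trans (mul_le_mul_of_nonneg_left (exp_succ hs k) hA0)) (hA k)
  have h2 : ‖(v (k + 1), v k) - (⇑T.symm)^[k] Q‖ ≤ C * Real.exp (-(s * k)) :=
    (hC k).trans (mul_le_mul_of_nonneg_left (exp_le hst k) hC0)
  have h3 : (⇑T.symm)^[k] Q = (v (k + 1), v k) - ((v (k + 1), v k) - (⇑T.symm)^[k] Q) := by abel
  rw [h3, add_mul]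
  exact (norm_sub_le _ _).trans (add_le_add h1 h2)

theorem cof_bd {T : (V × V) ≃L[ℝ] (V × V)} {s t : ℝ} (hs : 0 ≤ s) (hst : s ≤ t) {p : ℕ → V}
    {R : V × V} (h : CoF T t p R) (hp : Rt s p) :
    ∃ C : ℝ, ∀ k : ℕ, ‖(⇑T.symm.symm)^[k] R‖ ≤ C * Real.exp (-(s * k)) := by
  obtain ⟨A, hA0, hA⟩ := rt_nn hp
  obtain ⟨C, hC⟩ := h
  have hC0 : 0 ≤ C := by
    have h1 := (norm_nonneg _).trans (hC 0)
    simpa using h1
  refine ⟨A + C, fun k => ?_⟩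
  have h1 : ‖(p k, p (k + 1))‖ ≤ A * Real.exp (-(s * k)) := by
    rw [Prod.norm_def]
    exact max_le (hA k) ((hA (k + 1)).trans (mul_le_mul_of_nonneg_left (exp_succ hs k) hA0))
  have h2 : ‖(p k, p (k + 1)) - (⇑T)^[k] R‖ ≤ C * Real.exp (-(s * k)) :=
    (hC k).trans (mul_le_mul_of_nonneg_left (exp_le hst k) hC0)
  have h3 : (⇑T.symm.symm)^[k] R = (p k, p (k + 1)) - ((p k, p (k + 1)) - (⇑T)^[k] R) := by
    rw [ContinuousLinearEquiv.symm_symm]; abel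
  rw [h3, add_mul]
  exact (norm_sub_le _ _).trans (add_le_add h1 h2)

theorem cob_zero {T : (V × V) ≃L[ℝ] (V × V)} {t : ℝ} {v : ℕ → V} (h : CoB T t v 0) : Rt t v := by
  obtain ⟨C, hC⟩ := h
  refine ⟨C, fun j => ?_⟩
  have h1 := hC j
  rw [iterate_map_zero, sub_zero, Prod.norm_def] at h1
  exact (le_max_right _ _).trans h1

theorem cof_zero {T : (V × V) ≃L[ℝ] (V × V)} {t : ℝ} {p : ℕ → V} (h : CoF T t p 0) : Rt t p := by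
  obtain ⟨C, hC⟩ := h
  refine ⟨C, fun j => ?_⟩
  have h1 := hC j
  rw [iterate_map_zero, sub_zero, Prod.norm_def] at h1
  exact (le_max_left _ _).trans h1

theorem bc_mono {L1 : V × V → V × V →L[ℝ] ℝ} {ρ ρ' : ℝ} (h : ρ ≤ ρ') {v : ℕ → V} (hv : Bc L1 ρ v) :
    Bc L1 ρ' v := ⟨fun j => (hv.small j).trans h, hv.el⟩

theorem fc_mono {L1 : V × V → V × V →L[ℝ] ℝ} {ρ ρ' : ℝ} (h : ρ ≤ ρ') {v : ℕ → V} (hv : Fc L1 ρ v) :
    Fc L1 ρ' v := ⟨fun j => (hv.small j).trans h, hv.el⟩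

/-- approximation: enough small multiples -/
theorem span_of {S : Type} [NormedAddCommGroup S] [NormedSpace ℝ S] [FiniteDimensional ℝ S]
    (𝒬 : Set S) (w : S) (D ρ : ℝ) (hρ : 0 < ρ)
    (h : ∀ θ : ℝ, 0 < θ → ‖θ • w‖ ≤ ρ → ∃ Q ∈ 𝒬, ‖Q - θ • w‖ ≤ D * θ ^ 2) :
    w ∈ Submodule.span ℝ 𝒬 := by
  have hcl : IsClosed ((Submodule.span ℝ 𝒬 : Submodule ℝ S) : Set S) :=
    Submodule.closed_of_finiteDimensional _
  have hmem : w ∈ closure ((Submodule.span ℝ 𝒬 : Submodule ℝ S) : Set S) := by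
    rw [Metric.mem_closure_iff]
    intro ε hε
    obtain ⟨θ, hθ⟩ : ∃ θ, θ = min (ρ / (‖w‖ + 1)) (ε / (|D| + 1)) := ⟨_, rfl⟩
    have hw0 : 0 ≤ ‖w‖ := norm_nonneg w
    have hD0 : 0 ≤ |D| := abs_nonneg D
    have hθ0 : 0 < θ := by rw [hθ]; exact lt_min (by positivity) (by positivity)
    have hθ1 : θ * (‖w‖ + 1) ≤ ρ := by
      rw [← le_div_iff₀ (by positivity), hθ]; exact min_le_left _ _
    have hθ2 : θ * (|D| + 1) ≤ ε := by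
      rw [← le_div_iff₀ (by positivity), hθ]; exact min_le_right _ _
    obtain ⟨Q, hQ, hQ2⟩ := h θ hθ0 (by
      rw [norm_smul, Real.norm_eq_abs, abs_of_pos hθ0]
      linarith)
    refine ⟨θ⁻¹ • Q, Submodule.smul_mem _ _ (Submodule.subset_span hQ), ?_⟩
    have e1 : θ⁻¹ • Q - w = θ⁻¹ • (Q - θ • w) := by
      rw [smul_sub, smul_smul, inv_mul_cancel₀ hθ0.ne', one_smul]
    rw [dist_comm, dist_eq_norm, e1, norm_smul, Real.norm_eq_abs, abs_of_pos (inv_pos.2 hθ0)]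
    calc θ⁻¹ * ‖Q - θ • w‖ ≤ θ⁻¹ * (D * θ ^ 2) := mul_le_mul_of_nonneg_left hQ2 (inv_pos.2 hθ0).le
      _ = θ * D := by field_simp
      _ ≤ θ * |D| := mul_le_mul_of_nonneg_left (le_abs_self D) hθ0.le
      _ < ε := by linarith
  rwa [hcl.closure_eq] at hmem

variable [FiniteDimensional ℝ V]

/-- one system, backward chains -/
theorem sysB (h1 : UQv) (h3 : UXb) (h6 : UGa) (lam K r₀ : ℝ) (L : V × V → ℝ)
    (L1 : V × V → V × V →L[ℝ] ℝ) (L2 : V × V → Bf V) (T : (V × V) ≃L[ℝ] (V × V))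
    (hCh : Ch lam K r₀ L L1 L2) (hTw : Tws (L2 0)) (hTr : IsTr (L2 0) T) (r t : ℝ)
    (A B : (V × V) →L[ℝ] (V × V)) (hr : 0 < r) (hrt : r < t) (ht : t < 2 * r) (hA : Gap T r A)
    (hB : Gap T t B) : ∃ ρ : ℝ, 0 < ρ ∧
    (∀ v, Bc L1 ρ v → Rt r v → ∃ Q, InL T r B Q ∧ CoB T t v Q) ∧
    ∀ (𝒬 : Set (V × V)) (ρ₁ : ℝ), 0 < ρ₁ →
      (∀ v Q, Bc L1 ρ₁ v → Rt r v → InL T r B Q → CoB T t v Q → Q ∈ 𝒬) →
      ∀ w, InL T r B w → w ∈ Submodule.span ℝ 𝒬 := by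
  obtain ⟨Cq, ρq, hρq, hq⟩ := h1 V lam K r₀ L L1 L2 T hCh hTw hTr r t B hr ht hB
  refine ⟨ρq, hρq, ?_, ?_⟩
  · intro v hv hvr
    obtain ⟨a, ha0, ha⟩ := rt_nn hvr
    obtain ⟨Q, hQ1, hQ2, -⟩ := hq v hv a ha0 ha
    exact ⟨Q, ⟨hQ1, cob_bd hr.le hrt.le hQ2 hvr⟩, hQ2⟩
  · intro 𝒬 ρ₁ hρ₁ h𝒬 w hw
    obtain ⟨Cx, ρx, hCx, hρx, hx⟩ := h3 V lam K r₀ L L1 L2 T hCh hTw hTr r A hr hA (min ρq ρ₁)
      (lt_min hρq hρ₁)
    have hAw : A w = 0 := (h6 (V × V) T r t A B hA hB hrt.le).2.1 w hw.2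
    refine span_of 𝒬 w ((Cq * Cx ^ 2 + ‖B‖ * Cx) * ‖w‖ ^ 2) ρx hρx ?_
    intro θ hθ hθw
    obtain ⟨v, hv1, hv2, hv3⟩ := hx (θ • w) (by rw [map_smul, hAw, smul_zero]) hθw
    have hvr : Rt r v := ⟨_, hv2⟩
    obtain ⟨Q, hQ1, hQ2, hQ3⟩ := hq v (bc_mono (min_le_left _ _) hv1) (Cx * ‖θ • w‖) (by positivity) hv2
    refine ⟨Q, h𝒬 v Q (bc_mono (min_le_right _ _) hv1) hvr ⟨hQ1, cob_bd hr.le hrt.le hQ2 hvr⟩ hQ2, ?_⟩
    have e1 : Q - θ • w = (Q - B (v 1, v 0)) + B ((v 1, v 0) - θ • w) := by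
      rw [map_sub, map_smul, hw.1]; abel
    have e2 : ‖θ • w‖ = θ * ‖w‖ := by rw [norm_smul, Real.norm_eq_abs, abs_of_pos hθ]
    rw [e1]
    refine (norm_add_le _ _).trans ?_
    have e3 : ‖B ((v 1, v 0) - θ • w)‖ ≤ ‖B‖ * (Cx * ‖θ • w‖ ^ 2) :=
      (B.le_opNorm _).trans (mul_le_mul_of_nonneg_left hv3 (norm_nonneg _))
    rw [e2] at hQ3 e3
    refine (add_le_add hQ3 e3).trans (le_of_eq ?_)
    ring

/-- one system, forward chains -/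
theorem sysF (h2 : UQf) (h4 : UXf) (h6 : UGa) (lam K r₀ : ℝ) (L : V × V → ℝ)
    (L1 : V × V → V × V →L[ℝ] ℝ) (L2 : V × V → Bf V) (T : (V × V) ≃L[ℝ] (V × V))
    (hCh : Ch lam K r₀ L L1 L2) (hTw : Tws (L2 0)) (hTr : IsTr (L2 0) T) (r t : ℝ)
    (A B : (V × V) →L[ℝ] (V × V)) (hr : 0 < r) (hrt : r < t) (ht : t < 2 * r) (hA : Gap T.symm r A)
    (hB : Gap T.symm t B) : ∃ ρ : ℝ, 0 < ρ ∧
    (∀ p, Fc L1 ρ p → Rt r p → ∃ R, InL T.symm r B R ∧ CoF T t p R) ∧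
    ∀ (𝒬 : Set (V × V)) (ρ₁ : ℝ), 0 < ρ₁ →
      (∀ p R, Fc L1 ρ₁ p → Rt r p → InL T.symm r B R → CoF T t p R → R ∈ 𝒬) →
      ∀ w, InL T.symm r B w → w ∈ Submodule.span ℝ 𝒬 := by
  obtain ⟨Cq, ρq, hρq, hq⟩ := h2 V lam K r₀ L L1 L2 T hCh hTw hTr r t B hr ht hB
  refine ⟨ρq, hρq, ?_, ?_⟩
  · intro v hv hvr
    obtain ⟨a, ha0, ha⟩ := rt_nn hvr
    obtain ⟨Q, hQ1, hQ2, -⟩ := hq v hv a ha0 ha
    exact ⟨Q, ⟨hQ1, cof_bd hr.le hrt.le hQ2 hvr⟩, hQ2⟩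
  · intro 𝒬 ρ₁ hρ₁ h𝒬 w hw
    obtain ⟨Cx, ρx, hCx, hρx, hx⟩ := h4 V lam K r₀ L L1 L2 T hCh hTw hTr r A hr hA (min ρq ρ₁)
      (lt_min hρq hρ₁)
    have hAw : A w = 0 := (h6 (V × V) T.symm r t A B hA hB hrt.le).2.1 w hw.2
    refine span_of 𝒬 w ((Cq * Cx ^ 2 + ‖B‖ * Cx) * ‖w‖ ^ 2) ρx hρx ?_
    intro θ hθ hθw
    obtain ⟨v, hv1, hv2, hv3⟩ := hx (θ • w) (by rw [map_smul, hAw, smul_zero]) hθw
    have hvr : Rt r v := ⟨_, hv2⟩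
    obtain ⟨Q, hQ1, hQ2, hQ3⟩ := hq v (fc_mono (min_le_left _ _) hv1) (Cx * ‖θ • w‖) (by positivity) hv2
    refine ⟨Q, h𝒬 v Q (fc_mono (min_le_right _ _) hv1) hvr ⟨hQ1, cof_bd hr.le hrt.le hQ2 hvr⟩ hQ2, ?_⟩
    have e1 : Q - θ • w = (Q - B (v 0, v 1)) + B ((v 0, v 1) - θ • w) := by
      rw [map_sub, map_smul, hw.1]; abel
    have e2 : ‖θ • w‖ = θ * ‖w‖ := by rw [norm_smul, Real.norm_eq_abs, abs_of_pos hθ]
    rw [e1]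
    refine (norm_add_le _ _).trans ?_
    have e3 : ‖B ((v 0, v 1) - θ • w)‖ ≤ ‖B‖ * (Cx * ‖θ • w‖ ^ 2) :=
      (B.le_opNorm _).trans (mul_le_mul_of_nonneg_left hv3 (norm_nonneg _))
    rw [e2] at hQ3 e3
    refine (add_le_add hQ3 e3).trans (le_of_eq ?_)
    ring

end chains

section om

variable {V : Type} [NormedAddCommGroup V] [NormedSpace ℝ V]

theorem pair_left (a b : V) : ((a + b, 0) : V × V) = (a, 0) + (b, 0) := by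
  rw [Prod.mk_add_mk, add_zero]

theorem pair_right (a b : V) : ((0, a + b) : V × V) = (0, a) + (0, b) := by
  rw [Prod.mk_add_mk, add_zero]

theorem pair_sl (c : ℝ) (a : V) : ((c • a, 0) : V × V) = c • (a, 0) := by
  rw [Prod.smul_mk, smul_zero]

theorem pair_sr (c : ℝ) (a : V) : ((0, c • a) : V × V) = c • (0, a) := by
  rw [Prod.smul_mk, smul_zero]

/-- `Om` as a linear map of the first argument -/
noncomputable def OmL (H : Bf V) (w : V × V) : (V × V) →ₗ[ℝ] ℝ where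
  toFun R := Om H R w
  map_add' a b := by
    unfold Om
    rw [Prod.snd_add, Prod.fst_add, pair_right, pair_left, map_add, map_add]
    rw [ContinuousLinearMap.add_apply]
    ring
  map_smul' c a := by
    unfold Om
    rw [Prod.smul_snd, Prod.smul_fst, pair_sr, pair_sl, map_smul, map_smul]
    rw [ContinuousLinearMap.smul_apply]
    simp only [smul_eq_mul, RingHom.id_apply]
    ring

/-- `Om` as a linear map of the second argument -/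
noncomputable def OmR (H : Bf V) (R : V × V) : (V × V) →ₗ[ℝ] ℝ where
  toFun w := Om H R w
  map_add' a b := by
    unfold Om
    rw [Prod.snd_add, Prod.fst_add, pair_right, pair_left, map_add, map_add]
    rw [ContinuousLinearMap.add_apply]
    ring
  map_smul' c a := by
    unfold Om
    rw [Prod.smul_snd, Prod.smul_fst, pair_sr, pair_sl, map_smul, map_smul]
    rw [ContinuousLinearMap.smul_apply]
    simp only [smul_eq_mul, RingHom.id_apply]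
    ring

theorem Om_zero_left (H : Bf V) (w : V × V) : Om H 0 w = 0 := map_zero (OmL H w)

theorem span_sub {S : Type} [NormedAddCommGroup S] [NormedSpace ℝ S] (E : Submodule ℝ S) (s : Set E)
    (w : E) (h : (w : S) ∈ Submodule.span ℝ (Subtype.val '' s)) : w ∈ Submodule.span ℝ s := by
  have h1 : Submodule.span ℝ (Subtype.val '' s) = (Submodule.span ℝ s).map E.subtype :=
    Submodule.span_image E.subtype
  rw [h1] at h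
  obtain ⟨w', hw', he⟩ := h
  have : w' = w := Subtype.ext he
  rwa [← this]

theorem om_span {H : Bf V} {w : V × V} {𝒬 : Set (V × V)} (h : ∀ R ∈ 𝒬, Om H R w = 0) :
    ∀ R ∈ Submodule.span ℝ 𝒬, Om H R w = 0 := by
  have h1 : Submodule.span ℝ 𝒬 ≤ LinearMap.ker (OmL H w) := Submodule.span_le.2 fun R hR => h R hR
  exact fun R hR => h1 hR

theorem om_spanR {H : Bf V} {R : V × V} {𝒬 : Set (V × V)} (h : ∀ w ∈ 𝒬, Om H R w = 0) :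
    ∀ w ∈ Submodule.span ℝ 𝒬, Om H R w = 0 := by
  have h1 : Submodule.span ℝ 𝒬 ≤ LinearMap.ker (OmR H R) := Submodule.span_le.2 fun R hR => h R hR
  exact fun R hR => h1 hR

end om

end IUAb

open IUAb in
/-- UAb -/
theorem pr_UAb (h1 : UQv) (h2 : UQf) (h3 : UXb) (h4 : UXf) (h5 : UCh) (h6 : UGa) (h8 : URe) :
    UAb := by
  intro V₁ V₂ _ _ _ _ _ _ lam₁ K₁ r₁ lam₂ K₂ r₂ L₁ L1₁ L2₁ L₂ L1₂ L2₂ T₁ T₂ hCh₁ hCh₂ hTw₁ hTw₂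
    hTr₁ hTr₂ r t A₁ B₁ A₁' B₁' A₂ B₂ A₂' B₂' hr hrt ht gA₁ gB₁ gA₁' gB₁' gA₂ gB₂ gA₂' gB₂'
  obtain ⟨ρ1, hρ1, b1, c1⟩ := sysB h1 h3 h6 lam₁ K₁ r₁ L₁ L1₁ L2₁ T₁ hCh₁ hTw₁ hTr₁ r t A₁ B₁ hr
    hrt ht gA₁ gB₁
  obtain ⟨ρ2, hρ2, b2, c2⟩ := sysB h1 h3 h6 lam₂ K₂ r₂ L₂ L1₂ L2₂ T₂ hCh₂ hTw₂ hTr₂ r t A₂ B₂ hr
    hrt ht gA₂ gB₂
  obtain ⟨ρ3, hρ3, b3, c3⟩ := sysF h2 h4 h6 lam₁ K₁ r₁ L₁ L1₁ L2₁ T₁ hCh₁ hTw₁ hTr₁ r t A₁' B₁' hr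
    hrt ht gA₁' gB₁'
  obtain ⟨ρ4, hρ4, b4, c4⟩ := sysF h2 h4 h6 lam₂ K₂ r₂ L₂ L1₂ L2₂ T₂ hCh₂ hTw₂ hTr₂ r t A₂' B₂' hr
    hrt ht gA₂' gB₂'
  obtain ⟨ρ₀, hρ₀⟩ : ∃ ρ₀, ρ₀ = min (min ρ1 ρ2) (min ρ3 ρ4) := ⟨_, rfl⟩
  have m1 : ρ₀ ≤ ρ1 := by rw [hρ₀]; exact (min_le_left _ _).trans (min_le_left _ _)
  have m2 : ρ₀ ≤ ρ2 := by rw [hρ₀]; exact (min_le_left _ _).trans (min_le_right _ _)
  have m3 : ρ₀ ≤ ρ3 := by rw [hρ₀]; exact (min_le_right _ _).trans (min_le_left _ _)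
  have m4 : ρ₀ ≤ ρ4 := by rw [hρ₀]; exact (min_le_right _ _).trans (min_le_right _ _)
  refine ⟨ρ₀, by rw [hρ₀]; exact lt_min (lt_min hρ1 hρ2) (lt_min hρ3 hρ4), ?_⟩
  intro RF RB hRF hRB hex eF eB hAs
  obtain ⟨ρ₁, hρ₁, x1, x2, y1, y2⟩ := hex
  -- the index sets
  let ℬ : Type := {x : (ℕ → V₁) × (ℕ → V₂) × (V₁ × V₁) × (V₂ × V₂) //
    (RB x.1 x.2.1 ∧ Rt r x.1 ∧ Rt r x.2.1) ∧ (InL T₁ r B₁ x.2.2.1 ∧ CoB T₁ t x.1 x.2.2.1) ∧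
      InL T₂ r B₂ x.2.2.2 ∧ CoB T₂ t x.2.1 x.2.2.2}
  let 𝒜 : Type := {x : (ℕ → V₁) × (ℕ → V₂) × (V₁ × V₁) × (V₂ × V₂) //
    (RF x.1 x.2.1 ∧ Rt r x.1 ∧ Rt r x.2.1) ∧ (InL T₁.symm r B₁' x.2.2.1 ∧ CoF T₁ t x.1 x.2.2.1) ∧
      InL T₂.symm r B₂' x.2.2.2 ∧ CoF T₂ t x.2.1 x.2.2.2}
  let Q₁ : ℬ → Ev T₁ r B₁ := fun x => ⟨x.1.2.2.1, x.2.2.1.1⟩
  let Q₂ : ℬ → Ev T₂ r B₂ := fun x => ⟨x.1.2.2.2, x.2.2.2.1⟩
  let R₁ : 𝒜 → V₁ × V₁ := fun x => x.1.2.2.1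
  let R₂ : 𝒜 → V₂ × V₂ := fun x => x.1.2.2.2
  -- coordinates
  have coB : ∀ v1 v2, RB v1 v2 → Rt r v1 → Rt r v2 → ∃ β : ℬ, β.1.1 = v1 ∧ β.1.2.1 = v2 := by
    intro v1 v2 h g1 g2
    obtain ⟨q1, hq1⟩ := b1 v1 (bc_mono m1 (hRB v1 v2 h).1) g1
    obtain ⟨q2, hq2⟩ := b2 v2 (bc_mono m2 (hRB v1 v2 h).2) g2
    exact ⟨⟨(v1, v2, q1, q2), ⟨h, g1, g2⟩, hq1, hq2⟩, rfl, rfl⟩
  have coF : ∀ p1 p2, RF p1 p2 → Rt r p1 → Rt r p2 → ∃ α : 𝒜, α.1.1 = p1 ∧ α.1.2.1 = p2 := by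
    intro v1 v2 h g1 g2
    obtain ⟨q1, hq1⟩ := b3 v1 (fc_mono m3 (hRF v1 v2 h).1) g1
    obtain ⟨q2, hq2⟩ := b4 v2 (fc_mono m4 (hRF v1 v2 h).2) g2
    exact ⟨⟨(v1, v2, q1, q2), ⟨h, g1, g2⟩, hq1, hq2⟩, rfl, rfl⟩
  -- spanning
  have s1 : ∀ w : Ev T₁ r B₁, w ∈ Submodule.span ℝ (range Q₁) := by
    intro w
    refine span_sub _ _ _ (c1 _ ρ₁ hρ₁ ?_ w w.2)
    intro v Q hv hvr hQ hQc
    obtain ⟨v2, hv2⟩ := y1 v hv
    have hr2 := (eB v v2 hv2).1 hvr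
    obtain ⟨q2, hq2⟩ := b2 v2 (bc_mono m2 (hRB v v2 hv2).2) hr2
    exact ⟨Q₁ ⟨(v, v2, Q, q2), ⟨hv2, hvr, hr2⟩, ⟨hQ, hQc⟩, hq2⟩, ⟨_, rfl⟩, rfl⟩
  have s2 : ∀ w : Ev T₂ r B₂, w ∈ Submodule.span ℝ (range Q₂) := by
    intro w
    refine span_sub _ _ _ (c2 _ ρ₁ hρ₁ ?_ w w.2)
    intro v Q hv hvr hQ hQc
    obtain ⟨v1, hv1⟩ := y2 v hv
    have hr1 := (eB v1 v hv1).2 hvr
    obtain ⟨q1, hq1⟩ := b1 v1 (bc_mono m1 (hRB v1 v hv1).1) hr1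
    exact ⟨Q₂ ⟨(v1, v, q1, Q), ⟨hv1, hr1, hvr⟩, hq1, ⟨hQ, hQc⟩⟩, ⟨_, rfl⟩, rfl⟩
  have s3 : ∀ R, InL T₁.symm r B₁' R → R ∈ Submodule.span ℝ (range R₁) := by
    intro w hw
    refine c3 _ ρ₁ hρ₁ ?_ w hw
    intro v Q hv hvr hQ hQc
    obtain ⟨v2, hv2⟩ := x1 v hv
    have hr2 := (eF v v2 hv2).1 hvr
    obtain ⟨q2, hq2⟩ := b4 v2 (fc_mono m4 (hRF v v2 hv2).2) hr2
    exact ⟨⟨(v, v2, Q, q2), ⟨hv2, hvr, hr2⟩, ⟨hQ, hQc⟩, hq2⟩, rfl⟩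
  have s4 : ∀ R, InL T₂.symm r B₂' R → R ∈ Submodule.span ℝ (range R₂) := by
    intro w hw
    refine c4 _ ρ₁ hρ₁ ?_ w hw
    intro v Q hv hvr hQ hQc
    obtain ⟨v1, hv1⟩ := x2 v hv
    have hr1 := (eF v1 v hv1).2 hvr
    obtain ⟨q1, hq1⟩ := b3 v1 (fc_mono m3 (hRF v1 v hv1).1) hr1
    exact ⟨⟨(v1, v, q1, Q), ⟨hv1, hr1, hvr⟩, hq1, ⟨hQ, hQc⟩⟩, rfl⟩
  -- separation
  obtain ⟨u1, u1'⟩ := h5 V₁ lam₁ (L2₁ 0) T₁ r t A₁ B₁ A₁' B₁' hCh₁.pos hTw₁ hTr₁ hrt gA₁ gB₁ gA₁' gB₁'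
  obtain ⟨u2, u2'⟩ := h5 V₂ lam₂ (L2₂ 0) T₂ r t A₂ B₂ A₂' B₂' hCh₂.pos hTw₂ hTr₂ hrt gA₂ gB₂ gA₂' gB₂'
  let f₁ : 𝒜 → Ev T₁ r B₁ →L[ℝ] ℝ := fun α =>
    LinearMap.toContinuousLinearMap ((OmR (L2₁ 0) (R₁ α)).comp (Ev T₁ r B₁).subtype)
  let f₂ : 𝒜 → Ev T₂ r B₂ →L[ℝ] ℝ := fun α =>
    LinearMap.toContinuousLinearMap ((OmR (L2₂ 0) (R₂ α)).comp (Ev T₂ r B₂).subtype)
  have f₁e : ∀ α w, f₁ α w = Om (L2₁ 0) (R₁ α) w := fun α w => rfl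
  have f₂e : ∀ α w, f₂ α w = Om (L2₂ 0) (R₂ α) w := fun α w => rfl
  have d1 : ∀ w, (∀ α, f₁ α w = 0) → w = 0 := by
    intro w hw
    refine Subtype.ext (u1 w w.2 fun R hR => om_span ?_ R (s3 R hR))
    rintro _ ⟨α, rfl⟩
    exact hw α
  have d2 : ∀ w, (∀ α, f₂ α w = 0) → w = 0 := by
    intro w hw
    refine Subtype.ext (u2 w w.2 fun R hR => om_span ?_ R (s4 R hR))
    rintro _ ⟨α, rfl⟩
    exact hw α
  obtain ⟨ra, Ca, hra, hCa0, hCa⟩ := TE_grow (r := r) gB₁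
  obtain ⟨rb, Cb, hrb, hCb0, hCb⟩ := TE_grow (r := r) gB₂
  have hexp : ∀ x y : ℝ, x ≤ y → ∀ k : ℕ, Real.exp (x * k) ≤ Real.exp (y * k) := fun x y h k =>
    Real.exp_le_exp.2 (mul_le_mul_of_nonneg_right h (Nat.cast_nonneg k))
  obtain ⟨Ψ, hΨT, hΨQ, hΨf⟩ := h8 (Ev T₁ r B₁) (Ev T₂ r B₂) (TE gB₁) (TE gB₂) (max ra rb) t
    (max_lt hra hrb)
    ⟨Ca, fun k w => (hCa k w).trans (mul_le_mul_of_nonneg_right
      (mul_le_mul_of_nonneg_left (hexp _ _ (le_max_left _ _) k) hCa0) (norm_nonneg _))⟩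
    ⟨Cb, fun k w => (hCb k w).trans (mul_le_mul_of_nonneg_right
      (mul_le_mul_of_nonneg_left (hexp _ _ (le_max_right _ _) k) hCb0) (norm_nonneg _))⟩
    𝒜 ℬ f₁ f₂ Q₁ Q₂ s1 s2 d1 d2 (by
      intro α β
      obtain ⟨C, k₀, hC⟩ := hAs α.1.1 α.1.2.1 β.1.1 β.1.2.1 β.1.2.2.1 β.1.2.2.2 α.1.2.2.1 α.1.2.2.2
        α.2.1.1 β.2.1.1 α.2.1.2.1 α.2.1.2.2 β.2.1.2.1 β.2.1.2.2 β.2.2.1.2 β.2.2.2.2 α.2.2.1.2
        α.2.2.2.2
      refine ⟨C, k₀, fun k hk => ?_⟩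
      rw [f₁e, f₂e, TE_iter_symm, TE_iter_symm]
      exact hC k hk)
  -- the equivalences for `t`
  have zF1 : ∀ (p : ℕ → V₁) (R : V₁ × V₁), InL T₁.symm r B₁' R → CoF T₁ t p R → Rt t p → R = 0 := by
    intro p R hR hc hp
    have := (h6 (V₁ × V₁) T₁.symm t t B₁' B₁' gB₁' gB₁' le_rfl).2.1 R (cof_bd (hr.trans hrt).le le_rfl hc hp)
    rw [hR.1] at this
    exact this
  have zF2 : ∀ (p : ℕ → V₂) (R : V₂ × V₂), InL T₂.symm r B₂' R → CoF T₂ t p R → Rt t p → R = 0 := by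
    intro p R hR hc hp
    have := (h6 (V₂ × V₂) T₂.symm t t B₂' B₂' gB₂' gB₂' le_rfl).2.1 R (cof_bd (hr.trans hrt).le le_rfl hc hp)
    rw [hR.1] at this
    exact this
  have zB1 : ∀ (p : ℕ → V₁) (R : V₁ × V₁), InL T₁ r B₁ R → CoB T₁ t p R → Rt t p → R = 0 := by
    intro p R hR hc hp
    have := (h6 (V₁ × V₁) T₁ t t B₁ B₁ gB₁ gB₁ le_rfl).2.1 R (cob_bd (hr.trans hrt).le le_rfl hc hp)
    rw [hR.1] at this
    exact this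
  have zB2 : ∀ (p : ℕ → V₂) (R : V₂ × V₂), InL T₂ r B₂ R → CoB T₂ t p R → Rt t p → R = 0 := by
    intro p R hR hc hp
    have := (h6 (V₂ × V₂) T₂ t t B₂ B₂ gB₂ gB₂ le_rfl).2.1 R (cob_bd (hr.trans hrt).le le_rfl hc hp)
    rw [hR.1] at this
    exact this
  refine ⟨?_, ?_, ?_⟩
  · intro p1 p2 hp
    constructor
    · intro ht1
      have hr1 := rt_mono hrt.le ht1
      have hr2 := (eF p1 p2 hp).1 hr1
      obtain ⟨α, rfl, rfl⟩ := coF p1 p2 hp hr1 hr2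
      have hz : R₁ α = 0 := zF1 _ _ α.2.2.1.1 α.2.2.1.2 ht1
      have hz2 : R₂ α = 0 := by
        refine u2' _ α.2.2.2.1 fun w hw => ?_
        have e1 := hΨf α (Ψ.symm ⟨w, hw⟩)
        rw [Ψ.apply_symm_apply, f₁e, hz, Om_zero_left] at e1
        exact e1
      have hc : CoF T₂ t α.1.2.1 (R₂ α) := α.2.2.2.2
      rw [hz2] at hc
      exact cof_zero hc
    · intro ht2
      have hr2 := rt_mono hrt.le ht2
      have hr1 := (eF p1 p2 hp).2 hr2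
      obtain ⟨α, rfl, rfl⟩ := coF p1 p2 hp hr1 hr2
      have hz : R₂ α = 0 := zF2 _ _ α.2.2.2.1 α.2.2.2.2 ht2
      have hz2 : R₁ α = 0 := by
        refine u1' _ α.2.2.1.1 fun w hw => ?_
        have e1 := hΨf α ⟨w, hw⟩
        rw [f₂e, hz, Om_zero_left] at e1
        exact e1.symm
      have hc : CoF T₁ t α.1.1 (R₁ α) := α.2.2.1.2
      rw [hz2] at hc
      exact cof_zero hc
  · intro v1 v2 hv
    constructor
    · intro ht1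
      have hr1 := rt_mono hrt.le ht1
      have hr2 := (eB v1 v2 hv).1 hr1
      obtain ⟨β, rfl, rfl⟩ := coB v1 v2 hv hr1 hr2
      have hz : β.1.2.2.1 = 0 := zB1 _ _ β.2.2.1.1 β.2.2.1.2 ht1
      have hz1 : Q₁ β = 0 := Subtype.ext hz
      have hz2 : Q₂ β = 0 := by rw [← hΨQ β, hz1, map_zero]
      have hc : CoB T₂ t β.1.2.1 (Q₂ β : V₂ × V₂) := β.2.2.2.2
      rw [hz2] at hc
      exact cob_zero hc
    · intro ht2
      have hr2 := rt_mono hrt.le ht2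
      have hr1 := (eB v1 v2 hv).2 hr2
      obtain ⟨β, rfl, rfl⟩ := coB v1 v2 hv hr1 hr2
      have hz : β.1.2.2.2 = 0 := zB2 _ _ β.2.2.2.1 β.2.2.2.2 ht2
      have hz1 : Q₂ β = 0 := Subtype.ext hz
      have hz2 : Q₁ β = 0 := by
        have e1 := hΨQ β
        rw [hz1] at e1
        exact (map_eq_zero_iff Ψ Ψ.injective).1 e1
      have hc : CoB T₁ t β.1.1 (Q₁ β : V₁ × V₁) := β.2.2.1.2
      rw [hz2] at hc
      exact cob_zero hc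
  · obtain ⟨g, hg⟩ := LinearMap.exists_leftInverse_of_injective (Ev T₁ r B₁).subtype
      (Submodule.ker_subtype _)
    have hg' : ∀ w (hw : InL T₁ r B₁ w), g w = ⟨w, hw⟩ := by
      intro w hw
      exact LinearMap.congr_fun hg ⟨w, hw⟩
    refine ⟨LinearMap.toContinuousLinearMap
      ((Ev T₂ r B₂).subtype.comp ((Ψ : Ev T₁ r B₁ →ₗ[ℝ] Ev T₂ r B₂).comp g)), ?_, ?_, ?_, ?_⟩
    · intro w hw
      exact (Ψ (g w)).2
    · intro w hw h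
      have e1 : Ψ (g w) = 0 := Subtype.ext h
      have e2 := (map_eq_zero_iff Ψ Ψ.injective).1 e1
      rw [hg' w hw] at e2
      exact congrArg Subtype.val e2
    · intro w' hw'
      refine ⟨(Ψ.symm ⟨w', hw'⟩ : Ev T₁ r B₁), (Ψ.symm ⟨w', hw'⟩).2, ?_⟩
      show ((Ψ (g (Ψ.symm ⟨w', hw'⟩ : Ev T₁ r B₁)) : Ev T₂ r B₂) : V₂ × V₂) = w'
      rw [hg' _ (Ψ.symm ⟨w', hw'⟩).2, Subtype.coe_eta, Ψ.apply_symm_apply]
    · intro w hw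
      show ((Ψ (g (T₁ w)) : Ev T₂ r B₂) : V₂ × V₂) = T₂ ((Ψ (g w) : Ev T₂ r B₂) : V₂ × V₂)
      rw [hg' _ (inL_T gB₁ hw), hg' w hw]
      have e1 := congrArg Subtype.val (hΨT ⟨w, hw⟩)
      exact e1

end Pool.Agent.LX
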