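import Pool.Agent.Work.MP_25cd3b_gt.LX.StmtsU
import Pool.Agent.Work.MP_25cd3b_gt.LX.I_ZAs

set_option autoImplicit false

/-!
# MP_25cd3b_gt, block LX, part U: asymptotics of perturbed linear orbits
-/

open Set Filter Topology
open scoped ContDiff

namespace Pool.Agent.LX

namespace IUAs

variable {S : Type} [NormedAddCommGroup S] [NormedSpace ℝ S]

theorem fast (T : S ≃L[ℝ] S) (P : S →L[ℝ] S) (r t : ℝ)
    (cp : ∀ w, P (T w) = T (P w))
    (Cu : ℝ) (hCu : 0 ≤ Cu)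
    (hu : ∀ (k : ℕ) (w : S), ‖(⇑T.symm)^[k] (w - P w)‖ ≤ Cu * Real.exp (-(t * k)) * ‖w‖)
    (M₁ M₂ : ℝ) (θ : ℕ → S) (h0 : ‖θ 0‖ ≤ M₁)
    (he : ∀ i : ℕ, ‖θ (i + 1) - T.symm (θ i)‖ ≤ M₂ * Real.exp (-(2 * r * i))) (i : ℕ) :
    ∀ k : ℕ, ‖(⇑T.symm)^[k] (θ i - P (θ i))‖ ≤
      Cu * Real.exp (-(t * (k + i))) *
        (M₁ + Real.exp t * M₂ * ∑ m ∈ Finset.range i, Real.exp (-(2 * r - t)) ^ m) := by
  induction i with
  | zero =>
    intro k
    have h1 := hu k (θ 0)
    have h2 : Cu * Real.exp (-(t * k)) * ‖θ 0‖ ≤ Cu * Real.exp (-(t * k)) * M₁ :=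
      mul_le_mul_of_nonneg_left h0 (by positivity)
    simp only [Finset.range_zero, Finset.sum_empty, mul_zero, add_zero, Nat.cast_zero]
    exact h1.trans h2
  | succ i ih =>
    intro k
    obtain ⟨e, hedef⟩ : ∃ e : S, e = θ (i + 1) - T.symm (θ i) := ⟨_, rfl⟩
    have hee : ‖e‖ ≤ M₂ * Real.exp (-(2 * r * i)) := by rw [hedef]; exact he i
    have hθ : θ (i + 1) = T.symm (θ i) + e := by rw [hedef]; abel
    have hdec : θ (i + 1) - P (θ (i + 1)) =
        T.symm (θ i - P (θ i)) + (e - P e) := by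
      rw [hθ, map_add P, IZAs.symm_comm T P cp, map_sub T.symm]
      abel
    have h1 : ‖(⇑T.symm)^[k] (θ (i + 1) - P (θ (i + 1)))‖ ≤
        ‖(⇑T.symm)^[k + 1] (θ i - P (θ i))‖ + ‖(⇑T.symm)^[k] (e - P e)‖ := by
      rw [hdec, iterate_map_add, Function.iterate_succ_apply]
      exact norm_add_le _ _
    have h2 := ih (k + 1)
    have h3 := hu k e
    have h4 : Cu * Real.exp (-(t * k)) * ‖e‖ ≤
        Cu * Real.exp (-(t * k)) * (M₂ * Real.exp (-(2 * r * i))) :=
      mul_le_mul_of_nonneg_left hee (by positivity)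
    have h5 : Real.exp (-(t * k)) * Real.exp (-(2 * r * i)) =
        Real.exp (-(t * (k + (i + 1)))) * Real.exp t * Real.exp (-(2 * r - t)) ^ i := by
      rw [← Real.exp_nat_mul, ← Real.exp_add, ← Real.exp_add, ← Real.exp_add]
      congr 1
      ring
    have h6 : Real.exp (-(t * ((k : ℝ) + 1 + i))) = Real.exp (-(t * (k + (i + 1)))) := by
      congr 1
      ring
    push_cast at h2 ⊢
    rw [h6] at h2
    rw [Finset.sum_range_succ]
    have h7 : Cu * Real.exp (-(t * k)) * (M₂ * Real.exp (-(2 * r * i))) =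
        Cu * Real.exp (-(t * (k + (i + 1)))) *
          (Real.exp t * M₂ * Real.exp (-(2 * r - t)) ^ i) := by
      calc _ = Cu * M₂ * (Real.exp (-(t * k)) * Real.exp (-(2 * r * i))) := by ring
        _ = _ := by rw [h5]; ring
    calc _ ≤ _ := h1
      _ ≤ _ := add_le_add h2 (h3.trans (h4.trans h7.le))
      _ = _ := by ring

end IUAs

open IUAs in
/-- asymptotics of perturbed linear orbits, general exponents -/
theorem pr_UAs : UAs := by
  intro S _ _ _ T r t P hr ht h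
  obtain ⟨r₀, C20, hr₀, hb20⟩ := h.up
  obtain ⟨r₁, Cu0, hr₁, hbu0⟩ := h.lo
  have fix : ∀ (c X Y : ℝ), 0 ≤ X → 0 ≤ Y → c * X * Y ≤ |c| * X * Y := by
    intro c X Y hX hY
    exact mul_le_mul_of_nonneg_right (mul_le_mul_of_nonneg_right (le_abs_self c) hX) hY
  set C2 := |C20| with hC2
  set Cu := |Cu0| with hCu
  have hC20 : 0 ≤ C2 := abs_nonneg _
  have hCu0 : 0 ≤ Cu := abs_nonneg _
  have hb2 : ∀ (k : ℕ) (w : S), ‖(⇑T)^[k] (P w)‖ ≤ C2 * Real.exp (r₀ * k) * ‖w‖ :=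
    fun k w => (hb20 k w).trans (fix _ _ _ (Real.exp_nonneg _) (norm_nonneg _))
  have hbu : ∀ (k : ℕ) (w : S),
      ‖(⇑T.symm)^[k] (w - P w)‖ ≤ Cu * Real.exp (-(t * k)) * ‖w‖ := by
    intro k w
    refine ((hbu0 k w).trans (fix _ _ _ (Real.exp_nonneg _) (norm_nonneg _))).trans ?_
    apply mul_le_mul_of_nonneg_right _ (norm_nonneg _)
    apply mul_le_mul_of_nonneg_left _ hCu0
    rw [Real.exp_le_exp]
    have : t * k ≤ r₁ * k := mul_le_mul_of_nonneg_right hr₁.le (Nat.cast_nonneg _)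
    linarith
  set x := Real.exp (-(2 * r - t)) with hx
  set y := Real.exp (-(2 * r - r₀)) with hy
  have hx0 : 0 ≤ x := Real.exp_nonneg _
  have hy0 : 0 ≤ y := Real.exp_nonneg _
  have hx1 : x < 1 := by rw [hx, Real.exp_lt_one_iff]; linarith
  have hy1 : y < 1 := by rw [hy, Real.exp_lt_one_iff]; linarith
  have hxi : 0 ≤ (1 - x)⁻¹ := inv_nonneg.mpr (by linarith)
  have hyi : 0 ≤ (1 - y)⁻¹ := inv_nonneg.mpr (by linarith)
  set F := Cu * (1 + Real.exp t * (1 - x)⁻¹) with hF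
  set M := C2 * Real.exp r₀ * (1 - y)⁻¹ with hM
  have hF0 : 0 ≤ F := by positivity
  have hM0 : 0 ≤ M := by positivity
  refine ⟨F + M, by positivity, ?_⟩
  intro M₁ M₂ θ hM₁ hM₂ hθ he
  have h0 : ‖θ 0‖ ≤ M₁ := by
    have := hθ 0
    simpa using this
  -- fast part
  have hfast : ∀ i : ℕ, ‖θ i - P (θ i)‖ ≤ F * (M₁ + M₂) * Real.exp (-(t * i)) := by
    intro i
    have h1 := fast T P r t h.comm Cu hCu0 hbu M₁ M₂ θ h0 he i 0
    simp only [Function.iterate_zero, id_eq, Nat.cast_zero, zero_add] at h1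
    have h2 : M₁ + Real.exp t * M₂ * ∑ m ∈ Finset.range i, Real.exp (-(2 * r - t)) ^ m ≤
        (M₁ + M₂) * (1 + Real.exp t * (1 - x)⁻¹) := by
      have h3 : Real.exp t * M₂ * ∑ m ∈ Finset.range i, Real.exp (-(2 * r - t)) ^ m ≤
          Real.exp t * M₂ * (1 - x)⁻¹ := by
        apply mul_le_mul_of_nonneg_left (IZAs.geo_le hx0 hx1 i) (by positivity)
      have h4 : 0 ≤ Real.exp t * M₁ * (1 - x)⁻¹ := by positivity
      nlinarith
    calc _ ≤ _ := h1
      _ ≤ Cu * Real.exp (-(t * i)) * ((M₁ + M₂) * (1 + Real.exp t * (1 - x)⁻¹)) :=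
        mul_le_mul_of_nonneg_left h2 (by positivity)
      _ = _ := by rw [hF]; ring
  -- slow part
  set q : ℕ → S := fun i => (⇑T)^[i] (P (θ i)) with hq
  have hstep : ∀ i j : ℕ, dist ((⇑T.symm)^[i] (q (i + j))) ((⇑T.symm)^[i] (q (i + (j + 1)))) ≤
      C2 * Real.exp r₀ * M₂ * Real.exp (-(2 * r * i)) * y ^ j := by
    intro i j
    set e : S := θ (i + j + 1) - T.symm (θ (i + j)) with hedef
    have hθe : θ (i + j + 1) = T.symm (θ (i + j)) + e := by rw [hedef]; abel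
    have h1 : (⇑T.symm)^[i] (q (i + (j + 1))) = (⇑T.symm)^[i] (q (i + j)) + (⇑T)^[j + 1] (P e) := by
      have h2 : (⇑T.symm)^[i] (q (i + (j + 1))) = (⇑T)^[j + 1] (P (θ (i + j + 1))) := by
        simp only [hq]
        rw [IZAs.back]
        rfl
      have h3 : (⇑T.symm)^[i] (q (i + j)) = (⇑T)^[j] (P (θ (i + j))) := by
        simp only [hq]
        rw [IZAs.back]
      rw [h2, h3, hθe, map_add, iterate_map_add, IZAs.symm_comm T P h.comm,
        Function.iterate_succ_apply, T.apply_symm_apply]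
    rw [h1, dist_eq_norm, sub_add_cancel_left, norm_neg]
    have h4 := hb2 (j + 1) e
    have h5 : C2 * Real.exp (r₀ * ((j + 1 : ℕ) : ℝ)) * ‖e‖ ≤
        C2 * Real.exp (r₀ * ((j + 1 : ℕ) : ℝ)) *
          (M₂ * Real.exp (-(2 * r * ((i + j : ℕ) : ℝ)))) :=
      mul_le_mul_of_nonneg_left (he _) (by positivity)
    have h6 : Real.exp (r₀ * ((j + 1 : ℕ) : ℝ)) * Real.exp (-(2 * r * ((i + j : ℕ) : ℝ))) =
        Real.exp r₀ * Real.exp (-(2 * r * i)) * y ^ j := by
      rw [hy, ← Real.exp_nat_mul, ← Real.exp_add, ← Real.exp_add, ← Real.exp_add]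
      congr 1
      push_cast
      ring
    calc _ ≤ _ := h4
      _ ≤ _ := h5
      _ = C2 * M₂ * (Real.exp (r₀ * ((j + 1 : ℕ) : ℝ)) *
          Real.exp (-(2 * r * ((i + j : ℕ) : ℝ)))) := by ring
      _ = _ := by rw [h6]; ring
  have hcau : CauchySeq q := by
    apply cauchySeq_of_le_geometric y (C2 * Real.exp r₀ * M₂) hy1
    intro n
    have := hstep 0 n
    simpa using this
  obtain ⟨Q, hQ⟩ := cauchySeq_tendsto_of_complete hcau
  have hPq : ∀ i, P (q i) = q i := by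
    intro i
    simp only [hq]
    rw [IZAs.it_comm T P h.comm, h.idem]
  have hPQ : P Q = Q := by
    have h1 : Tendsto (fun i => P (q i)) atTop (𝓝 (P Q)) :=
      (P.continuous.tendsto Q).comp hQ
    simp only [hPq] at h1
    exact tendsto_nhds_unique h1 hQ
  have hslow : ∀ i : ℕ, ‖P (θ i) - (⇑T.symm)^[i] Q‖ ≤ M * M₂ * Real.exp (-(2 * r * i)) := by
    intro i
    have hg : Tendsto (fun j : ℕ => (⇑T.symm)^[i] (q (i + j))) atTop (𝓝 ((⇑T.symm)^[i] Q)) := by
      have hc : Continuous ((⇑T.symm)^[i]) := T.symm.continuous.iterate i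
      have h1 : Tendsto (fun j : ℕ => q (i + j)) atTop (𝓝 Q) := by
        have h2 : Tendsto (fun j : ℕ => i + j) atTop atTop :=
          tendsto_atTop_mono (fun j => Nat.le_add_left j i) tendsto_id
        exact hQ.comp h2
      exact (hc.tendsto Q).comp h1
    have h2 := dist_le_of_le_geometric_of_tendsto₀ y
      (C2 * Real.exp r₀ * M₂ * Real.exp (-(2 * r * i))) hy1 (hstep i) hg
    have h3 : (⇑T.symm)^[i] (q (i + 0)) = P (θ i) := by
      simp only [hq]
      rw [IZAs.back]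
      rfl
    rw [h3, dist_eq_norm] at h2
    calc _ ≤ _ := h2
      _ = _ := by rw [hM, div_eq_mul_inv]; ring
  refine ⟨Q, hPQ, ?_, ?_⟩
  · have h1 := hslow 0
    simp only [Function.iterate_zero, id_eq, Nat.cast_zero, mul_zero, neg_zero, Real.exp_zero,
      mul_one] at h1
    rw [norm_sub_rev]
    refine h1.trans (mul_le_mul_of_nonneg_right ?_ hM₂)
    linarith
  · intro i
    have hexp : Real.exp (-(2 * r * i)) ≤ Real.exp (-(t * i)) := by
      rw [Real.exp_le_exp]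
      have : t * i ≤ 2 * r * i := mul_le_mul_of_nonneg_right ht.le (Nat.cast_nonneg _)
      linarith
    have hb : M * M₂ * Real.exp (-(2 * r * i)) ≤ M * (M₁ + M₂) * Real.exp (-(t * i)) := by
      apply mul_le_mul (mul_le_mul_of_nonneg_left (by linarith) hM0) hexp (Real.exp_nonneg _)
      positivity
    have hdec : θ i - (⇑T.symm)^[i] Q =
        (θ i - P (θ i)) + (P (θ i) - (⇑T.symm)^[i] Q) := by abel
    rw [hdec]
    calc _ ≤ ‖θ i - P (θ i)‖ + ‖P (θ i) - (⇑T.symm)^[i] Q‖ := norm_add_le _ _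
      _ ≤ F * (M₁ + M₂) * Real.exp (-(t * i)) + M * (M₁ + M₂) * Real.exp (-(t * i)) :=
        add_le_add (hfast i) ((hslow i).trans hb)
      _ = _ := by ring

end Pool.Agent.LX
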