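import Pool.Agent.Work.MP_25cd3b_gt.LX.StmtsU

set_option autoImplicit false

/-!
# MP_25cd3b_gt, block LX, item UCh: duality of the levels
-/

open Set Filter Topology
open scoped ContDiff

namespace Pool.Agent.LX

namespace IUCh

theorem zero_of_le {z C a : ℝ} (ha : a < 0) (h : ∀ k : ℕ, |z| ≤ C * Real.exp (a * k)) : z = 0 := by
  have h1 : Tendsto (fun k : ℕ => C * Real.exp (a * k)) atTop (𝓝 (C * 0)) := by
    refine Tendsto.const_mul _ ?_
    refine Real.tendsto_exp_atBot.comp ?_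
    exact Tendsto.const_mul_atTop_of_neg ha tendsto_natCast_atTop_atTop
  rw [mul_zero] at h1
  have h2 : |z| ≤ 0 := ge_of_tendsto' h1 h
  exact abs_nonpos_iff.mp h2

theorem iter_inv {S : Type} (f : S → S) (om : S → S → ℝ) (h : ∀ x y, om (f x) (f y) = om x y) (k : ℕ) :
    ∀ x y, om (f^[k] x) (f^[k] y) = om x y := by
  induction k with
  | zero => intro x y; rfl
  | succ n ih =>
    intro x y
    rw [Function.iterate_succ_apply', Function.iterate_succ_apply', h, ih]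

theorem pair_zero {S : Type} [NormedAddCommGroup S] (f : S → S) (om : S → S → ℝ)
    (h : ∀ x y, om (f x) (f y) = om x y) (C : ℝ) (hC : ∀ x y, |om x y| ≤ C * ‖x‖ * ‖y‖) (x y : S)
    (a b C₁ C₂ : ℝ) (hx : ∀ k : ℕ, ‖f^[k] x‖ ≤ C₁ * Real.exp (a * k))
    (hy : ∀ k : ℕ, ‖f^[k] y‖ ≤ C₂ * Real.exp (b * k)) (hab : a + b < 0) : om x y = 0 := by
  refine zero_of_le (C := |C| * (C₁ * C₂)) hab fun k => ?_
  rw [← iter_inv f om h k x y]
  have h1 : ‖f^[k] x‖ * ‖f^[k] y‖ ≤ (C₁ * Real.exp (a * k)) * (C₂ * Real.exp (b * k)) :=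
    mul_le_mul (hx k) (hy k) (norm_nonneg _) (le_trans (norm_nonneg _) (hx k))
  have h2 : Real.exp ((a + b) * k) = Real.exp (a * k) * Real.exp (b * k) := by
    rw [← Real.exp_add, add_mul]
  calc |om (f^[k] x) (f^[k] y)| ≤ C * ‖f^[k] x‖ * ‖f^[k] y‖ := hC _ _
    _ = C * (‖f^[k] x‖ * ‖f^[k] y‖) := by ring
    _ ≤ |C| * (‖f^[k] x‖ * ‖f^[k] y‖) :=
        mul_le_mul_of_nonneg_right (le_abs_self C) (mul_nonneg (norm_nonneg _) (norm_nonneg _))
    _ ≤ |C| * ((C₁ * Real.exp (a * k)) * (C₂ * Real.exp (b * k))) :=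
        mul_le_mul_of_nonneg_left h1 (abs_nonneg C)
    _ = |C| * (C₁ * C₂) * Real.exp ((a + b) * k) := by rw [h2]; ring

theorem core (hG : UGa) {S : Type} [NormedAddCommGroup S] [NormedSpace ℝ S] (T : S ≃L[ℝ] S) (r t : ℝ)
    (A' B B' : S →L[ℝ] S) (hrt : r < t) (hB : Gap T t B) (hA' : Gap T.symm r A')
    (hB' : Gap T.symm t B') (om : S → S → ℝ) (hadd : ∀ x y w, om (x + y) w = om x w + om y w)
    (hT : ∀ x y, om (T x) (T y) = om x y) (C : ℝ) (hC : ∀ x y, |om x y| ≤ C * ‖x‖ * ‖y‖)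
    (hnd : ∀ w, (∀ x, om x w = 0) → w = 0) (w : S) (hw : InL T r B w)
    (h0 : ∀ R, InL T.symm r B' R → om R w = 0) : w = 0 := by
  have hTs : ∀ x y, om (T.symm x) (T.symm y) = om x y := by
    intro x y
    rw [← hT (T.symm x) (T.symm y), T.apply_symm_apply, T.apply_symm_apply]
  obtain ⟨hw1, Cw, hw2⟩ := hw
  obtain ⟨t₀, C₁, ht₀, hup⟩ := hB.up
  obtain ⟨t₁, C₂, ht₁, hlo⟩ := hB'.lo
  obtain ⟨r₀, C₃, hr₀, hup'⟩ := hA'.up
  obtain ⟨r₁, C₄, hr₁, hlo'⟩ := hA'.lo
  have hss : (T.symm).symm = T := T.symm_symm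
  rw [hss] at hlo hlo'
  apply hnd
  intro x
  -- the three parts
  have e1 : om (x - B' x) w = 0 := by
    refine pair_zero (⇑T) om hT C hC _ _ (-t₁) t₀ (C₂ * ‖x‖) (C₁ * ‖w‖) (fun k => ?_) (fun k => ?_)
      (by linarith)
    · have h := hlo k x
      rw [show -t₁ * (k : ℝ) = -(t₁ * k) by ring]
      linarith [h, show C₂ * Real.exp (-(t₁ * k)) * ‖x‖ = C₂ * ‖x‖ * Real.exp (-(t₁ * k)) by ring]
    · have h := hup k w
      rw [hw1] at h
      linarith [h, show C₁ * Real.exp (t₀ * k) * ‖w‖ = C₁ * ‖w‖ * Real.exp (t₀ * k) by ring]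
  have e3 : om (A' x) w = 0 := by
    refine pair_zero (⇑T.symm) om hTs C hC _ _ r₀ (-r) (C₃ * ‖x‖) Cw (fun k => ?_) (fun k => ?_)
      (by linarith)
    · have h := hup' k x
      linarith [h, show C₃ * Real.exp (r₀ * k) * ‖x‖ = C₃ * ‖x‖ * Real.exp (r₀ * k) by ring]
    · have h := hw2 k
      rw [show -r * (k : ℝ) = -(r * k) by ring]
      exact h
  have e2 : om (B' x - A' x) w = 0 := by
    apply h0
    refine ⟨?_, |C₄ * ‖x‖| + |C₂ * ‖x‖|, fun k => ?_⟩
    · rw [map_sub, hB'.idem, (hG S T.symm r t A' B' hA' hB' hrt.le).2.2.1]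
    · rw [hss]
      have hlin : (⇑T)^[k] (B' x - A' x) = (⇑T)^[k] (x - A' x) - (⇑T)^[k] (x - B' x) := by
        have hs : ∀ (n : ℕ) (a b : S), (⇑T)^[n] (a - b) = (⇑T)^[n] a - (⇑T)^[n] b := by
          intro n
          induction n with
          | zero => intro a b; rfl
          | succ m ih =>
            intro a b
            rw [Function.iterate_succ_apply', Function.iterate_succ_apply',
              Function.iterate_succ_apply', ih, map_sub]
        rw [← hs]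
        congr 1
        abel
      rw [hlin]
      have hk : (0 : ℝ) ≤ k := Nat.cast_nonneg k
      have g1 : ‖(⇑T)^[k] (x - A' x)‖ ≤ |C₄ * ‖x‖| * Real.exp (-(r * k)) := by
        have h := hlo' k x
        have hexp : Real.exp (-(r₁ * k)) ≤ Real.exp (-(r * k)) :=
          Real.exp_le_exp.mpr (by nlinarith)
        calc ‖(⇑T)^[k] (x - A' x)‖ ≤ C₄ * Real.exp (-(r₁ * k)) * ‖x‖ := h
          _ = (C₄ * ‖x‖) * Real.exp (-(r₁ * k)) := by ring
          _ ≤ |C₄ * ‖x‖| * Real.exp (-(r₁ * k)) :=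
            mul_le_mul_of_nonneg_right (le_abs_self _) (Real.exp_nonneg _)
          _ ≤ |C₄ * ‖x‖| * Real.exp (-(r * k)) :=
            mul_le_mul_of_nonneg_left hexp (abs_nonneg _)
      have g2 : ‖(⇑T)^[k] (x - B' x)‖ ≤ |C₂ * ‖x‖| * Real.exp (-(r * k)) := by
        have h := hlo k x
        have hexp : Real.exp (-(t₁ * k)) ≤ Real.exp (-(r * k)) :=
          Real.exp_le_exp.mpr (by nlinarith)
        calc ‖(⇑T)^[k] (x - B' x)‖ ≤ C₂ * Real.exp (-(t₁ * k)) * ‖x‖ := h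
          _ = (C₂ * ‖x‖) * Real.exp (-(t₁ * k)) := by ring
          _ ≤ |C₂ * ‖x‖| * Real.exp (-(t₁ * k)) :=
            mul_le_mul_of_nonneg_right (le_abs_self _) (Real.exp_nonneg _)
          _ ≤ |C₂ * ‖x‖| * Real.exp (-(r * k)) :=
            mul_le_mul_of_nonneg_left hexp (abs_nonneg _)
      calc ‖(⇑T)^[k] (x - A' x) - (⇑T)^[k] (x - B' x)‖
          ≤ ‖(⇑T)^[k] (x - A' x)‖ + ‖(⇑T)^[k] (x - B' x)‖ := norm_sub_le _ _
        _ ≤ (|C₄ * ‖x‖| + |C₂ * ‖x‖|) * Real.exp (-(r * k)) := by rw [add_mul]; exact add_le_add g1 g2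
  have hx : x = (x - B' x) + (B' x - A' x) + A' x := by abel
  rw [hx, hadd, hadd, e1, e2, e3]
  norm_num

end IUCh

open IUCh

theorem pr_UCh (h1 : UOm) (h2 : UGa) : UCh := by
  intro V _ _ _ lam H T r t A B A' B' hP hTw hTr hrt hA hB hA' hB'
  obtain ⟨hinv, hnd1, hnd2, C, hC⟩ := h1 V lam H T hP hTw hTr
  have hadd1 : ∀ x y w, Om H (x + y) w = Om H x w + Om H y w := by
    intro x y w
    have e1 : H (0, (x + y).2) = H (0, x.2) + H (0, y.2) := by
      rw [← map_add]; congr 1; simp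
    have e2 : (((x + y).1, (0 : V)) : V × V) = (x.1, 0) + (y.1, 0) := by simp
    unfold Om
    rw [e1, e2, map_add]
    simp only [ContinuousLinearMap.add_apply]
    ring
  have hadd2 : ∀ x y w, Om H w (x + y) = Om H w x + Om H w y := by
    intro x y w
    have e1 : H (0, (x + y).2) = H (0, x.2) + H (0, y.2) := by
      rw [← map_add]; congr 1; simp
    have e2 : (((x + y).1, (0 : V)) : V × V) = (x.1, 0) + (y.1, 0) := by simp
    unfold Om
    rw [e1, e2, map_add]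
    simp only [ContinuousLinearMap.add_apply]
    ring
  refine ⟨fun w hw h0 => ?_, fun R hR h0 => ?_⟩
  · exact core h2 T r t A' B B' hrt hB hA' hB' (Om H) hadd1 hinv C hC hnd1 w hw h0
  · have hss : (T.symm).symm = T := T.symm_symm
    refine core h2 T.symm r t A B' B hrt hB' (by rw [hss]; exact hA) (by rw [hss]; exact hB)
      (fun x y => Om H y x) (fun x y w => hadd2 x y w) ?_ C ?_ ?_ R hR ?_
    · intro x y
      change Om H (T.symm y) (T.symm x) = Om H y x
      rw [← hinv (T.symm y) (T.symm x), T.apply_symm_apply, T.apply_symm_apply]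
    · intro x y
      have h := hC y x
      have e : C * ‖y‖ * ‖x‖ = C * ‖x‖ * ‖y‖ := by ring
      rw [e] at h
      exact h
    · intro w hw
      exact hnd2 w hw
    · intro w hw
      rw [hss] at hw
      exact h0 w hw

end Pool.Agent.LX
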