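import Pool.Agent.Work.MP_25cd3b_gt.LX.StmtsZ

/-!
# MP_25cd3b_gt, block LX, item ZCv (helper60): almost critical chains have almost minimal action
-/

set_option autoImplicit false

open Set Filter Topology
open scoped ContDiff

namespace Pool.Agent.LX

namespace IZCv

variable {V : Type} [NormedAddCommGroup V] [NormedSpace ℝ V]

/-- the segment stays in the ball -/
theorem seg {a b : V × V} {R : ℝ} (ha : ‖a‖ ≤ R) (hb : ‖b‖ ≤ R) {t : ℝ} (h0 : 0 ≤ t) (h1 : t ≤ 1) :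
    ‖a + t • (b - a)‖ ≤ R := by
  have e : a + t • (b - a) = (1 - t) • a + t • b := by
    rw [smul_sub, sub_smul, one_smul]; abel
  rw [e]
  calc ‖(1 - t) • a + t • b‖ ≤ ‖(1 - t) • a‖ + ‖t • b‖ := norm_add_le _ _
    _ = (1 - t) * ‖a‖ + t * ‖b‖ := by
        rw [norm_smul, norm_smul, Real.norm_of_nonneg (by linarith), Real.norm_of_nonneg h0]
    _ ≤ (1 - t) * R + t * R := by
        have := mul_le_mul_of_nonneg_left ha (by linarith : (0 : ℝ) ≤ 1 - t)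
        have := mul_le_mul_of_nonneg_left hb h0
        linarith
    _ = R := by ring

/-- second derivative in the ball -/
theorem lowb {lam K r : ℝ} {L : V × V → ℝ} {L1 : V × V → V × V →L[ℝ] ℝ} {L2 : V × V → Bf V}
    (hc : Ch lam K r L L1 L2) {R : ℝ} (hR : R < r) (hK : K * R ≤ lam / 2) {p : V × V}
    (hp : ‖p‖ ≤ R) (d : V × V) :
    lam / 2 * (‖d.1‖ ^ 2 + ‖d.2‖ ^ 2) ≤ L2 p d d := by
  have h1 : ‖L2 p - L2 0‖ ≤ lam / 2 := by
    have := hc.lip p (lt_of_le_of_lt hp hR)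
    have h2 : K * ‖p‖ ≤ K * R := mul_le_mul_of_nonneg_left hp hc.K_nn
    linarith
  have h2 : |(L2 p - L2 0) d d| ≤ lam / 2 * ‖d‖ ^ 2 := by
    have h3 := (L2 p - L2 0).le_opNorm₂ d d
    rw [Real.norm_eq_abs] at h3
    have h4 : ‖L2 p - L2 0‖ * ‖d‖ * ‖d‖ ≤ lam / 2 * ‖d‖ * ‖d‖ := by gcongr
    calc |(L2 p - L2 0) d d| ≤ ‖L2 p - L2 0‖ * ‖d‖ * ‖d‖ := h3
      _ ≤ lam / 2 * ‖d‖ * ‖d‖ := h4
      _ = lam / 2 * ‖d‖ ^ 2 := by ring
  have h3 : ‖d‖ ^ 2 ≤ ‖d.1‖ ^ 2 + ‖d.2‖ ^ 2 := by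
    rw [Prod.norm_def]
    rcases max_cases ‖d.1‖ ‖d.2‖ with ⟨h, _⟩ | ⟨h, _⟩ <;> rw [h] <;> nlinarith [sq_nonneg ‖d.1‖, sq_nonneg ‖d.2‖]
  have h4 := hc.pos.pos d.1 d.2
  have h5 : (L2 p - L2 0) d d = L2 p d d - L2 0 d d := by
    simp
  rw [h5] at h2
  have h6 := (abs_le.mp h2).1
  have h7 : lam / 2 * ‖d‖ ^ 2 ≤ lam / 2 * (‖d.1‖ ^ 2 + ‖d.2‖ ^ 2) :=
    mul_le_mul_of_nonneg_left h3 (by have := hc.lam_pos; linarith)
  have h8 : lam * (‖d.1‖ ^ 2 + ‖d.2‖ ^ 2) ≤ L2 0 d d := h4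
  linarith

/-- Taylor inequality -/
theorem tay {lam K r : ℝ} {L : V × V → ℝ} {L1 : V × V → V × V →L[ℝ] ℝ} {L2 : V × V → Bf V}
    (hc : Ch lam K r L L1 L2) {R : ℝ} (hR : R < r) (hK : K * R ≤ lam / 2) {a b : V × V}
    (ha : ‖a‖ ≤ R) (hb : ‖b‖ ≤ R) :
    L a + L1 a (b - a) + lam / 4 * (‖(b - a).1‖ ^ 2 + ‖(b - a).2‖ ^ 2) ≤ L b := by
  set d := b - a with hd
  set m := lam / 4 * (‖d.1‖ ^ 2 + ‖d.2‖ ^ 2) with hm
  have hseg : ∀ t ∈ Icc (0 : ℝ) 1, ‖a + t • d‖ ≤ R := fun t ht => seg ha hb ht.1 ht.2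
  have hline : ∀ t : ℝ, HasDerivAt (fun s : ℝ => a + s • d) d t := by
    intro t
    have := ((hasDerivAt_id t).smul_const d).const_add a
    simpa using this
  -- derivative of `t ↦ L1 (a + t d) d`
  have hd2 : ∀ t ∈ Icc (0 : ℝ) 1,
      HasDerivAt (fun s : ℝ => L1 (a + s • d) d - L1 a d - 2 * m * s) (L2 (a + t • d) d d - 2 * m) t := by
    intro t ht
    have h1 := hc.d2 (a + t • d) (lt_of_le_of_lt (hseg t ht) hR)
    have h2 : HasDerivAt (fun s : ℝ => L1 (a + s • d)) (L2 (a + t • d) d) t :=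
      h1.comp_hasDerivAt t (hline t)
    have h3 : HasDerivAt (fun s : ℝ => L1 (a + s • d) d) (L2 (a + t • d) d d) t := by
      have := h2.clm_apply (hasDerivAt_const t d)
      simpa using this
    have h4 : HasDerivAt (fun s : ℝ => 2 * m * s) (2 * m) t := by
      simpa using (hasDerivAt_id t).const_mul (2 * m)
    exact (h3.sub_const _).sub h4
  have hd1 : ∀ t ∈ Icc (0 : ℝ) 1,
      HasDerivAt (fun s : ℝ => L (a + s • d) - L a - L1 a d * s - m * s ^ 2)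
        (L1 (a + t • d) d - L1 a d - 2 * m * t) t := by
    intro t ht
    have h1 := hc.d1 (a + t • d) (lt_of_le_of_lt (hseg t ht) hR)
    have h2 : HasDerivAt (fun s : ℝ => L (a + s • d)) (L1 (a + t • d) d) t :=
      h1.comp_hasDerivAt t (hline t)
    have h3 : HasDerivAt (fun s : ℝ => L1 a d * s) (L1 a d) t := by
      simpa using (hasDerivAt_id t).const_mul (L1 a d)
    have h4 : HasDerivAt (fun s : ℝ => m * s ^ 2) (2 * m * t) t := by
      have h5 := (hasDerivAt_pow 2 t).const_mul m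
      have e5 : m * (((2 : ℕ) : ℝ) * t ^ (2 - 1)) = 2 * m * t := by
        norm_num
        ring
      rw [e5] at h5
      exact h5
    exact ((h2.sub_const _).sub h3).sub h4
  have hmono1 : MonotoneOn (fun s : ℝ => L1 (a + s • d) d - L1 a d - 2 * m * s) (Icc 0 1) := by
    refine monotoneOn_of_deriv_nonneg (convex_Icc 0 1) ?_ ?_ ?_
    · exact fun t ht => (hd2 t ht).continuousAt.continuousWithinAt
    · intro t ht
      rw [interior_Icc] at ht
      exact (hd2 t ⟨ht.1.le, ht.2.le⟩).differentiableAt.differentiableWithinAt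
    · intro t ht
      rw [interior_Icc] at ht
      have ht' : t ∈ Icc (0 : ℝ) 1 := ⟨ht.1.le, ht.2.le⟩
      rw [(hd2 t ht').deriv]
      have := lowb hc hR hK (hseg t ht') d
      rw [hm]
      linarith
  have hpos1 : ∀ t ∈ Icc (0 : ℝ) 1, 0 ≤ L1 (a + t • d) d - L1 a d - 2 * m * t := by
    intro t ht
    have := hmono1 (left_mem_Icc.mpr zero_le_one) ht ht.1
    simpa using this
  have hmono2 : MonotoneOn (fun s : ℝ => L (a + s • d) - L a - L1 a d * s - m * s ^ 2) (Icc 0 1) := by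
    refine monotoneOn_of_deriv_nonneg (convex_Icc 0 1) ?_ ?_ ?_
    · exact fun t ht => (hd1 t ht).continuousAt.continuousWithinAt
    · intro t ht
      rw [interior_Icc] at ht
      exact (hd1 t ⟨ht.1.le, ht.2.le⟩).differentiableAt.differentiableWithinAt
    · intro t ht
      rw [interior_Icc] at ht
      have ht' : t ∈ Icc (0 : ℝ) 1 := ⟨ht.1.le, ht.2.le⟩
      rw [(hd1 t ht').deriv]
      exact hpos1 t ht'
  have hfin := hmono2 (left_mem_Icc.mpr zero_le_one) (right_mem_Icc.mpr zero_le_one) zero_le_one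
  have e1 : a + (1 : ℝ) • d = b := by rw [one_smul, hd]; abel
  simp only [zero_smul, add_zero, e1] at hfin
  linarith

end IZCv

open IZCv in
theorem pr_ZCv (h1 : YTri) : ZCv := by
  intro V _ _ lam K r L L1 L2 D hG
  have hc := hG.ch
  obtain ⟨C₁, ρ₁, hρ₁, hC₁, hex⟩ := hG.ex
  have hlam := hc.lam_pos
  have hr := hc.r_pos
  have hK := hc.K_nn
  have hC0 : 0 < C₁ := by linarith
  set ρ : ℝ := min ρ₁ (min (r / (2 * C₁)) (lam / (2 * C₁ * (K + 1)))) with hρdef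
  have hρ : 0 < ρ := by
    rw [hρdef]
    refine lt_min hρ₁ (lt_min (by positivity) (by positivity))
  have hρ1 : ρ ≤ ρ₁ := min_le_left _ _
  have hρ2 : ρ ≤ r / (2 * C₁) := le_trans (min_le_right _ _) (min_le_left _ _)
  have hρ3 : ρ ≤ lam / (2 * C₁ * (K + 1)) := le_trans (min_le_right _ _) (min_le_right _ _)
  have hRr : C₁ * ρ < r := by
    have : C₁ * ρ ≤ C₁ * (r / (2 * C₁)) := mul_le_mul_of_nonneg_left hρ2 hC0.le
    have e : C₁ * (r / (2 * C₁)) = r / 2 := by field_simp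
    linarith
  have hKR : K * (C₁ * ρ) ≤ lam / 2 := by
    have e : (K + 1) * (C₁ * (lam / (2 * C₁ * (K + 1)))) = lam / 2 := by
      have : K + 1 ≠ 0 := by linarith
      field_simp
    have h2 : (K + 1) * (C₁ * ρ) ≤ (K + 1) * (C₁ * (lam / (2 * C₁ * (K + 1)))) := by
      have : 0 ≤ K + 1 := by linarith
      gcongr
    have h3 : 0 ≤ C₁ * ρ := by positivity
    nlinarith
  have hρR : ρ ≤ C₁ * ρ := by nlinarith
  refine ⟨1 / lam, ρ, by positivity, hρ, ?_⟩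
  intro k y ε hk hy hε hres
  refine ⟨(h1 V lam K r L L1 L2 D hG k hk y).1, ?_⟩
  obtain ⟨u, hu0, huk, hub, htight⟩ := hex k hk (y 0) (y k) ((hy 0 (Nat.zero_le _)).trans hρ1)
    ((hy k le_rfl).trans hρ1)
  have hub' : ∀ j, j ≤ k → ‖u j‖ ≤ C₁ * ρ := by
    intro j hj
    refine (hub j hj).trans ?_
    have : max ‖y 0‖ ‖y k‖ ≤ ρ := max_le (hy 0 (Nat.zero_le _)) (hy k le_rfl)
    gcongr
  have hyb' : ∀ j, j ≤ k → ‖y j‖ ≤ C₁ * ρ := fun j hj => (hy j hj).trans hρR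
  have hD : D k (y 0) (y k) = ∑ j ∈ Finset.range k, L (u j, u (j + 1)) := by
    have := htight
    unfold Tight at this
    rw [hu0, huk] at this
    exact this
  obtain ⟨m, rfl⟩ : ∃ m, k = m + 1 := ⟨k - 1, by omega⟩
  set δ : ℕ → V := fun j => u j - y j with hδ
  have hδ0 : δ 0 = 0 := by simp [hδ, hu0]
  have hδk : δ (m + 1) = 0 := by simp [hδ, huk]
  -- Taylor for each link
  have hT : ∀ j ∈ Finset.range (m + 1), L (y j, y (j + 1)) + L1 (y j, y (j + 1)) (δ j, δ (j + 1)) +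
      lam / 4 * (‖δ j‖ ^ 2 + ‖δ (j + 1)‖ ^ 2) ≤ L (u j, u (j + 1)) := by
    intro j hj
    have hj' : j < m + 1 := Finset.mem_range.mp hj
    have ha : ‖(y j, y (j + 1))‖ ≤ C₁ * ρ := by
      rw [Prod.norm_mk]
      exact max_le (hyb' j hj'.le) (hyb' (j + 1) hj')
    have hb : ‖(u j, u (j + 1))‖ ≤ C₁ * ρ := by
      rw [Prod.norm_mk]
      exact max_le (hub' j hj'.le) (hub' (j + 1) hj')
    have := tay hc hRr hKR ha hb
    simpa [hδ] using this
  have hsum := Finset.sum_le_sum hT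
  rw [Finset.sum_add_distrib, Finset.sum_add_distrib] at hsum
  -- summation by parts
  have hsplit : ∀ j, L1 (y j, y (j + 1)) (δ j, δ (j + 1)) =
      L1 (y j, y (j + 1)) (δ j, 0) + L1 (y j, y (j + 1)) (0, δ (j + 1)) := by
    intro j
    rw [← map_add]
    simp
  have hparts : ∑ j ∈ Finset.range (m + 1), L1 (y j, y (j + 1)) (δ j, δ (j + 1)) =
      ∑ j ∈ Finset.range m, (L1 (y j, y (j + 1)) (0, δ (j + 1)) +
        L1 (y (j + 1), y (j + 2)) (δ (j + 1), 0)) := by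
    simp_rw [hsplit]
    rw [Finset.sum_add_distrib, Finset.sum_add_distrib, Finset.sum_range_succ' (fun j =>
      L1 (y j, y (j + 1)) (δ j, 0)), Finset.sum_range_succ (fun j =>
      L1 (y j, y (j + 1)) (0, δ (j + 1))), hδ0, hδk]
    simp only [Prod.mk_zero_zero, map_zero, add_zero]
    ring
  have hlow : -∑ j ∈ Finset.range m, (lam / 4 * ‖δ (j + 1)‖ ^ 2 + 1 / lam * ε (j + 1) ^ 2) ≤
      ∑ j ∈ Finset.range m, (L1 (y j, y (j + 1)) (0, δ (j + 1)) +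
        L1 (y (j + 1), y (j + 2)) (δ (j + 1), 0)) := by
    rw [← Finset.sum_neg_distrib]
    refine Finset.sum_le_sum fun j hj => ?_
    have hj' : j + 1 < m + 1 := by have := Finset.mem_range.mp hj; omega
    have h2 := (abs_le.mp (hres j hj' (δ (j + 1)))).1
    have h3 : ε (j + 1) * ‖δ (j + 1)‖ ≤ lam / 4 * ‖δ (j + 1)‖ ^ 2 + 1 / lam * ε (j + 1) ^ 2 := by
      have e : lam / 4 * ‖δ (j + 1)‖ ^ 2 + 1 / lam * ε (j + 1) ^ 2 - ε (j + 1) * ‖δ (j + 1)‖ =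
          1 / lam * (lam / 2 * ‖δ (j + 1)‖ - ε (j + 1)) ^ 2 := by
        field_simp
        ring
      have : 0 ≤ 1 / lam * (lam / 2 * ‖δ (j + 1)‖ - ε (j + 1)) ^ 2 := by positivity
      linarith
    linarith
  have hδsum : lam / 4 * ∑ j ∈ Finset.range m, ‖δ (j + 1)‖ ^ 2 ≤
      ∑ j ∈ Finset.range (m + 1), lam / 4 * (‖δ j‖ ^ 2 + ‖δ (j + 1)‖ ^ 2) := by
    rw [← Finset.mul_sum]
    refine mul_le_mul_of_nonneg_left ?_ (by linarith)
    rw [Finset.sum_add_distrib, Finset.sum_range_succ (fun j => ‖δ (j + 1)‖ ^ 2)]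
    have : 0 ≤ ∑ j ∈ Finset.range (m + 1), ‖δ j‖ ^ 2 := Finset.sum_nonneg fun _ _ => sq_nonneg _
    nlinarith [sq_nonneg ‖δ (m + 1)‖]
  have hεsum : ∑ j ∈ Finset.range m, ε (j + 1) ^ 2 ≤ ∑ j ∈ Finset.range (m + 1), ε j ^ 2 := by
    rw [Finset.sum_range_succ']
    nlinarith [sq_nonneg (ε 0)]
  rw [Finset.sum_add_distrib, ← Finset.mul_sum, ← Finset.mul_sum] at hlow
  have hε2 : 1 / lam * ∑ j ∈ Finset.range m, ε (j + 1) ^ 2 ≤
      1 / lam * ∑ j ∈ Finset.range (m + 1), ε j ^ 2 :=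
    mul_le_mul_of_nonneg_left hεsum (by positivity)
  rw [hD]
  rw [hparts] at hsum
  linarith

end Pool.Agent.LX
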