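import Pool.Agent.Work.MP_25cd3b_gt.LX.StmtsU
import Pool.Agent.Work.MP_25cd3b_gt.LX.I_ZCv

/-!
# MP_25cd3b_gt, block LX, item UCv (helper96): tight chains are close to almost critical chains
-/

set_option autoImplicit false

open Set Filter Topology
open scoped ContDiff

namespace Pool.Agent.LX

open IZCv in
theorem pr_UCv (h1 : YTri) : UCv := by
  intro V _ _ lam K r L L1 L2 D hG
  have hc := hG.ch
  have hlam := hc.lam_pos
  have hr := hc.r_pos
  have hK := hc.K_nn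
  obtain ⟨ρ, hρdef⟩ : ∃ ρ : ℝ, ρ = min (r / 2) (lam / (2 * (K + 1))) := ⟨_, rfl⟩
  have hρ : 0 < ρ := by
    rw [hρdef]
    exact lt_min (by positivity) (by positivity)
  have hρ1 : ρ ≤ r / 2 := by rw [hρdef]; exact min_le_left _ _
  have hρ2 : ρ ≤ lam / (2 * (K + 1)) := by rw [hρdef]; exact min_le_right _ _
  have hRr : ρ < r := by linarith
  have hKR : K * ρ ≤ lam / 2 := by
    have e : (K + 1) * (lam / (2 * (K + 1))) = lam / 2 := by
      have : K + 1 ≠ 0 := by linarith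
      field_simp
    have h2 : (K + 1) * ρ ≤ (K + 1) * (lam / (2 * (K + 1))) :=
      mul_le_mul_of_nonneg_left hρ2 (by linarith)
    nlinarith
  refine ⟨8 / lam ^ 2, ρ, by positivity, hρ, ?_⟩
  intro k y u ε hk hy hu hε hres htight hu0 huk
  have hD : ∑ j ∈ Finset.range k, L (u j, u (j + 1)) ≤ ∑ j ∈ Finset.range k, L (y j, y (j + 1)) := by
    have h2 := (h1 V lam K r L L1 L2 D hG k hk y).1
    have h3 : D k (u 0) (u k) = ∑ j ∈ Finset.range k, L (u j, u (j + 1)) := htight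
    rw [hu0, huk] at h3
    rw [← h3]
    exact h2
  obtain ⟨m, rfl⟩ : ∃ m, k = m + 1 := ⟨k - 1, by omega⟩
  obtain ⟨δ, hδ⟩ : ∃ δ : ℕ → V, ∀ j, δ j = u j - y j := ⟨_, fun _ => rfl⟩
  have hδ0 : δ 0 = 0 := by rw [hδ, hu0, sub_self]
  have hδk : δ (m + 1) = 0 := by rw [hδ, huk, sub_self]
  -- Taylor for each link
  have hT : ∀ j ∈ Finset.range (m + 1), L (y j, y (j + 1)) + L1 (y j, y (j + 1)) (δ j, δ (j + 1)) +
      lam / 4 * (‖δ j‖ ^ 2 + ‖δ (j + 1)‖ ^ 2) ≤ L (u j, u (j + 1)) := by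
    intro j hj
    have hj' : j < m + 1 := Finset.mem_range.mp hj
    have ha : ‖(y j, y (j + 1))‖ ≤ ρ := by
      rw [Prod.norm_mk]
      exact max_le (hy j hj'.le) (hy (j + 1) hj')
    have hb : ‖(u j, u (j + 1))‖ ≤ ρ := by
      rw [Prod.norm_mk]
      exact max_le (hu j hj'.le) (hu (j + 1) hj')
    have h2 := tay hc hRr hKR ha hb
    have h3 : ((u j, u (j + 1)) : V × V) - (y j, y (j + 1)) = (δ j, δ (j + 1)) := by
      rw [hδ, hδ]
      rfl
    rw [h3] at h2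
    exact h2
  have hsum := Finset.sum_le_sum hT
  rw [Finset.sum_add_distrib, Finset.sum_add_distrib] at hsum
  -- summation by parts
  have hsplit : ∀ j, L1 (y j, y (j + 1)) (δ j, δ (j + 1)) =
      L1 (y j, y (j + 1)) (δ j, 0) + L1 (y j, y (j + 1)) (0, δ (j + 1)) := by
    intro j
    rw [← map_add]
    simp
  have hparts : ∑ j ∈ Finset.range (m + 1), L1 (y j, y (j + 1)) (δ j, δ (j + 1)) =
      ∑ j ∈ Finset.range m, (L1 (y j, y (j + 1)) (0, δ (j + 1)) +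
        L1 (y (j + 1), y (j + 2)) (δ (j + 1), 0)) := by
    simp_rw [hsplit]
    rw [Finset.sum_add_distrib, Finset.sum_add_distrib, Finset.sum_range_succ' (fun j =>
      L1 (y j, y (j + 1)) (δ j, 0)), Finset.sum_range_succ (fun j =>
      L1 (y j, y (j + 1)) (0, δ (j + 1))), hδ0, hδk]
    simp only [Prod.mk_zero_zero, map_zero, add_zero]
    ring
  have hlow : -∑ j ∈ Finset.range m, (lam / 4 * ‖δ (j + 1)‖ ^ 2 + 1 / lam * ε ^ 2) ≤
      ∑ j ∈ Finset.range m, (L1 (y j, y (j + 1)) (0, δ (j + 1)) +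
        L1 (y (j + 1), y (j + 2)) (δ (j + 1), 0)) := by
    rw [← Finset.sum_neg_distrib]
    refine Finset.sum_le_sum fun j hj => ?_
    have hj' : j + 1 < m + 1 := by have := Finset.mem_range.mp hj; omega
    have h2 := (abs_le.mp (hres j hj' (δ (j + 1)))).1
    have h3 : ε * ‖δ (j + 1)‖ ≤ lam / 4 * ‖δ (j + 1)‖ ^ 2 + 1 / lam * ε ^ 2 := by
      have e : lam / 4 * ‖δ (j + 1)‖ ^ 2 + 1 / lam * ε ^ 2 - ε * ‖δ (j + 1)‖ =
          1 / lam * (lam / 2 * ‖δ (j + 1)‖ - ε) ^ 2 := by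
        field_simp
        ring
      have : 0 ≤ 1 / lam * (lam / 2 * ‖δ (j + 1)‖ - ε) ^ 2 := by positivity
      linarith
    linarith
  rw [Finset.sum_add_distrib, ← Finset.mul_sum, Finset.sum_const, Finset.card_range,
    nsmul_eq_mul] at hlow
  obtain ⟨S, hS⟩ : ∃ S : ℝ, S = ∑ j ∈ Finset.range (m + 1), (‖δ j‖ ^ 2 + ‖δ (j + 1)‖ ^ 2) :=
    ⟨_, rfl⟩
  have hS1 : ∑ j ∈ Finset.range (m + 1), lam / 4 * (‖δ j‖ ^ 2 + ‖δ (j + 1)‖ ^ 2) = lam / 4 * S := by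
    rw [hS, Finset.mul_sum]
  have hS2 : S = 2 * ∑ j ∈ Finset.range m, ‖δ (j + 1)‖ ^ 2 := by
    rw [hS, Finset.sum_add_distrib, Finset.sum_range_succ' (fun j => ‖δ j‖ ^ 2),
      Finset.sum_range_succ (fun j => ‖δ (j + 1)‖ ^ 2), hδ0, hδk, norm_zero]
    ring
  rw [hparts, hS1] at hsum
  have hm0 : (0 : ℝ) ≤ m := Nat.cast_nonneg m
  have hfin : lam / 8 * S ≤ (m : ℝ) * (1 / lam * ε ^ 2) := by
    rw [hS2] at hsum ⊢
    linarith
  have hS3 : S ≤ 8 / lam ^ 2 * ((m + 1 : ℕ) : ℝ) * ε ^ 2 := by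
    have h2 : S = 8 / lam * (lam / 8 * S) := by field_simp
    rw [h2]
    calc 8 / lam * (lam / 8 * S) ≤ 8 / lam * ((m : ℝ) * (1 / lam * ε ^ 2)) :=
          mul_le_mul_of_nonneg_left hfin (by positivity)
      _ = 8 / lam ^ 2 * (m : ℝ) * ε ^ 2 := by field_simp
      _ ≤ 8 / lam ^ 2 * ((m + 1 : ℕ) : ℝ) * ε ^ 2 := by
          refine mul_le_mul_of_nonneg_right (mul_le_mul_of_nonneg_left ?_ (by positivity))
            (sq_nonneg ε)
          push_cast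
          linarith
  intro j hj
  rw [← hδ]
  refine le_trans ?_ hS3
  rcases Nat.lt_or_ge j (m + 1) with hjm | hjm
  · rw [hS]
    have h2 : ‖δ j‖ ^ 2 ≤ ‖δ j‖ ^ 2 + ‖δ (j + 1)‖ ^ 2 := by
      have := sq_nonneg ‖δ (j + 1)‖
      linarith
    refine h2.trans (Finset.single_le_sum (f := fun j => ‖δ j‖ ^ 2 + ‖δ (j + 1)‖ ^ 2)
      (fun i _ => by positivity) (Finset.mem_range.mpr hjm))
  · have : j = m + 1 := by omega
    rw [this, hδk, norm_zero, hS]
    have : 0 ≤ ∑ j ∈ Finset.range (m + 1), (‖δ j‖ ^ 2 + ‖δ (j + 1)‖ ^ 2) :=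
      Finset.sum_nonneg fun _ _ => by positivity
    simpa using this

end Pool.Agent.LX
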