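import Pool.Agent.Work.MP_25cd3b_gt.LX.StmtsU

set_option autoImplicit false

/-!
# MP_25cd3b_gt, block LX, item UGa: algebra of gaps
-/

open Set Filter Topology
open scoped ContDiff

namespace Pool.Agent.LX

namespace IUGa

/-- a nonnegative number bounded by a decaying sequence -/
theorem le_zero_of_decay {a D δ : ℝ} (hδ : 0 < δ) (h : ∀ k : ℕ, a ≤ D * Real.exp (-(δ * k))) :
    a ≤ 0 := by
  have h1 : Tendsto (fun k : ℕ => D * Real.exp (-(δ * k))) atTop (𝓝 0) := by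
    have h2 : Tendsto (fun k : ℕ => δ * (k : ℝ)) atTop atTop :=
      tendsto_natCast_atTop_atTop.const_mul_atTop hδ
    have h3 := (Real.tendsto_exp_neg_atTop_nhds_zero.comp h2).const_mul D
    rw [mul_zero] at h3
    exact h3
  exact ge_of_tendsto' h1 h

variable {S : Type} [NormedAddCommGroup S] [NormedSpace ℝ S]

theorem it_comm {T : S ≃L[ℝ] S} {P : S →L[ℝ] S} (h : ∀ w, P (T w) = T (P w)) (k : ℕ) (w : S) :
    P ((⇑T)^[k] w) = (⇑T)^[k] (P w) := by
  induction k generalizing w with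
  | zero => rfl
  | succ k ih => rw [Function.iterate_succ_apply, Function.iterate_succ_apply, ih, h]

theorem it_symm_comm {T : S ≃L[ℝ] S} {P : S →L[ℝ] S} (h : ∀ w, P (T w) = T (P w)) (k : ℕ)
    (w : S) : P ((⇑T.symm)^[k] w) = (⇑T.symm)^[k] (P w) := by
  have h1 : ∀ w, P (T.symm w) = T.symm (P w) := by
    intro w
    apply T.injective
    rw [← h, T.apply_symm_apply, T.apply_symm_apply]
  induction k generalizing w with
  | zero => rfl
  | succ k ih => rw [Function.iterate_succ_apply, Function.iterate_succ_apply, ih, h1]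

theorem it_sub (T : S →L[ℝ] S) (k : ℕ) (a b : S) : (⇑T)^[k] (a - b) = (⇑T)^[k] a - (⇑T)^[k] b := by
  induction k generalizing a b with
  | zero => rfl
  | succ k ih => rw [Function.iterate_succ_apply, map_sub, ih, ← Function.iterate_succ_apply,
      ← Function.iterate_succ_apply]

theorem it_sub' (T : S ≃L[ℝ] S) (k : ℕ) (a b : S) :
    (⇑T)^[k] (a - b) = (⇑T)^[k] a - (⇑T)^[k] b := it_sub (T : S →L[ℝ] S) k a b

theorem symm_it (T : S ≃L[ℝ] S) (k : ℕ) (w : S) : (⇑T.symm)^[k] ((⇑T)^[k] w) = w :=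
  (Function.LeftInverse.iterate T.symm_apply_apply k) w

theorem it_symm (T : S ≃L[ℝ] S) (k : ℕ) (w : S) : (⇑T)^[k] ((⇑T.symm)^[k] w) = w :=
  (Function.LeftInverse.iterate T.apply_symm_apply k) w

theorem one {T : S ≃L[ℝ] S} {r : ℝ} {P : S →L[ℝ] S} (hP : Gap T r P) (w : S)
    (hw : ∃ C : ℝ, ∀ k : ℕ, ‖(⇑T)^[k] w‖ ≤ C * Real.exp (r * k)) : P w = w := by
  obtain ⟨C, hC⟩ := hw
  obtain ⟨r₁, D, hr, hD⟩ := hP.lo
  have hD0 : 0 ≤ |D| := abs_nonneg _
  have hC0 : 0 ≤ C := by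
    have := hC 0
    simp at this
    exact (norm_nonneg _).trans this
  have h1 : ∀ k : ℕ, ‖w - P w‖ ≤ (|D| * C) * Real.exp (-((r₁ - r) * k)) := by
    intro k
    have e1 : w - P w = (⇑T.symm)^[k] ((⇑T)^[k] w - P ((⇑T)^[k] w)) := by
      rw [it_comm hP.comm, ← it_sub', symm_it]
    calc ‖w - P w‖ = ‖(⇑T.symm)^[k] ((⇑T)^[k] w - P ((⇑T)^[k] w))‖ := by rw [← e1]
      _ ≤ D * Real.exp (-(r₁ * k)) * ‖(⇑T)^[k] w‖ := hD k _
      _ ≤ |D| * Real.exp (-(r₁ * k)) * (C * Real.exp (r * k)) :=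
          mul_le_mul (mul_le_mul_of_nonneg_right (le_abs_self D) (Real.exp_pos _).le) (hC k)
            (norm_nonneg _) (by positivity)
      _ = (|D| * C) * (Real.exp (-(r₁ * k)) * Real.exp (r * k)) := by ring
      _ = (|D| * C) * Real.exp (-((r₁ - r) * k)) := by
          rw [← Real.exp_add]
          congr 2
          ring
  have h2 := le_zero_of_decay (by linarith) h1
  have h3 : w - P w = 0 := norm_le_zero_iff.1 h2
  exact (sub_eq_zero.1 h3).symm

theorem two {T : S ≃L[ℝ] S} {r : ℝ} {P : S →L[ℝ] S} (hP : Gap T r P) (w : S)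
    (hw : ∃ C : ℝ, ∀ k : ℕ, ‖(⇑T.symm)^[k] w‖ ≤ C * Real.exp (-(r * k))) : P w = 0 := by
  obtain ⟨C, hC⟩ := hw
  obtain ⟨r₀, D, hr, hD⟩ := hP.up
  have hC0 : 0 ≤ C := by
    have := hC 0
    simp at this
    exact (norm_nonneg _).trans this
  have h1 : ∀ k : ℕ, ‖P w‖ ≤ (|D| * C) * Real.exp (-((r - r₀) * k)) := by
    intro k
    have e1 : P w = (⇑T)^[k] (P ((⇑T.symm)^[k] w)) := by
      rw [it_symm_comm hP.comm, it_symm]
    calc ‖P w‖ = ‖(⇑T)^[k] (P ((⇑T.symm)^[k] w))‖ := by rw [← e1]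
      _ ≤ D * Real.exp (r₀ * k) * ‖(⇑T.symm)^[k] w‖ := hD k _
      _ ≤ |D| * Real.exp (r₀ * k) * (C * Real.exp (-(r * k))) :=
          mul_le_mul (mul_le_mul_of_nonneg_right (le_abs_self D) (Real.exp_pos _).le) (hC k)
            (norm_nonneg _) (by positivity)
      _ = (|D| * C) * (Real.exp (r₀ * k) * Real.exp (-(r * k))) := by ring
      _ = (|D| * C) * Real.exp (-((r - r₀) * k)) := by
          rw [← Real.exp_add]
          congr 2
          ring
  exact norm_le_zero_iff.1 (le_zero_of_decay (by linarith) h1)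

end IUGa

open IUGa in
/-- UGa: algebra of gaps. -/
theorem pr_UGa : UGa := by
  intro S _ _ T r t P Q hP hQ hrt
  refine ⟨fun w hw => one hP w hw, fun w hw => two hP w hw, fun w => ?_, fun w => ?_⟩
  · refine one hQ (P w) ?_
    obtain ⟨r₀, D, hr, hD⟩ := hP.up
    refine ⟨|D| * ‖w‖, fun k => (hD k w).trans ?_⟩
    have e1 : Real.exp (r₀ * k) ≤ Real.exp (t * k) :=
      Real.exp_le_exp.2 (mul_le_mul_of_nonneg_right (by linarith) (Nat.cast_nonneg k))
    calc D * Real.exp (r₀ * k) * ‖w‖ ≤ |D| * Real.exp (t * k) * ‖w‖ :=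
          mul_le_mul_of_nonneg_right (mul_le_mul (le_abs_self D) e1 (Real.exp_pos _).le
            (abs_nonneg _)) (norm_nonneg _)
      _ = |D| * ‖w‖ * Real.exp (t * k) := by ring
  · have h1 : P (w - Q w) = 0 := by
      refine two hP (w - Q w) ?_
      obtain ⟨r₁, D, hr, hD⟩ := hQ.lo
      refine ⟨|D| * ‖w‖, fun k => (hD k w).trans ?_⟩
      have e1 : Real.exp (-(r₁ * k)) ≤ Real.exp (-(r * k)) :=
        Real.exp_le_exp.2 (neg_le_neg (mul_le_mul_of_nonneg_right (by linarith)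
          (Nat.cast_nonneg k)))
      calc D * Real.exp (-(r₁ * k)) * ‖w‖ ≤ |D| * Real.exp (-(r * k)) * ‖w‖ :=
            mul_le_mul_of_nonneg_right (mul_le_mul (le_abs_self D) e1 (Real.exp_pos _).le
              (abs_nonneg _)) (norm_nonneg _)
        _ = |D| * ‖w‖ * Real.exp (-(r * k)) := by ring
    rw [map_sub] at h1
    exact (sub_eq_zero.1 h1).symm

end Pool.Agent.LX
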