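import Pool.Agent.Work.MP_25cd3b_gt.LX.StmtsU

set_option autoImplicit false

/-!
# MP_25cd3b_gt, block LX, item UGk: the pairing
-/

open Set Filter Topology
open scoped ContDiff

namespace Pool.Agent.LX

namespace IUGk

variable {V : Type} [NormedAddCommGroup V] [NormedSpace ℝ V]

theorem quad {lam K r₀ : ℝ} {L : V × V → ℝ} {L1 : V × V → V × V →L[ℝ] ℝ} {L2 : V × V → Bf V}
    (h : Ch lam K r₀ L L1 L2) (x : V × V) (hx : ‖x‖ < r₀) :
    ‖L1 x - L2 0 x‖ ≤ K * ‖x‖ ^ 2 := by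
  have hm : ∀ y ∈ Metric.closedBall (0 : V × V) ‖x‖, ‖y‖ ≤ ‖x‖ := by
    intro y hy
    rwa [mem_closedBall_zero_iff] at hy
  have h1 := Convex.norm_image_sub_le_of_norm_hasFDerivWithin_le (𝕜 := ℝ)
    (f := fun y => L1 y - L2 0 y) (C := K * ‖x‖) (s := Metric.closedBall (0 : V × V) ‖x‖)
    (x := 0) (y := x) (f' := fun y => L2 y - L2 0)
    (fun y hy => ((h.d2 y (lt_of_le_of_lt (hm y hy) hx)).sub
      (L2 0).hasFDerivAt).hasFDerivWithinAt)
    (fun y hy => (h.lip y (lt_of_le_of_lt (hm y hy) hx)).trans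
      (mul_le_mul_of_nonneg_left (hm y hy) h.K_nn))
    (convex_closedBall _ _) (by simp) (by simp)
  have h2 : L1 0 - L2 0 0 = 0 := by rw [h.crit, map_zero, sub_zero]
  simp only [h2, sub_zero] at h1
  calc ‖L1 x - L2 0 x‖ ≤ K * ‖x‖ * ‖x‖ := h1
    _ = K * ‖x‖ ^ 2 := by ring

theorem spl (f : V × V →L[ℝ] ℝ) (x : V × V) : f x = f (x.1, 0) + f (0, x.2) := by
  rw [← map_add]
  congr 1
  ext <;> simp

theorem pair_norm (a : V) : ‖((a, 0) : V × V)‖ = ‖a‖ := by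
  rw [Prod.norm_def]
  simp

theorem fst_norm (x : V × V) : ‖((x.1, 0) : V × V)‖ ≤ ‖x‖ := by
  rw [pair_norm]
  exact norm_fst_le x

section chain

variable {H : Bf V} {T : (V × V) ≃L[ℝ] (V × V)}

theorem ofst (hT : IsTr H T) (w : V × V) : (T w).1 = w.2 := (hT w.1 w.2).1

theorem ochain (hT : IsTr H T) (w : V × V) (u : V) : H w (0, u) + H (T w) (u, 0) = 0 := by
  have h1 := (hT w.1 w.2).2 u
  have h2 : (w.2, (T (w.1, w.2)).2) = T w := Prod.ext (ofst hT w).symm rfl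
  rw [h2] at h1
  exact h1

theorem om_add (w w' x : V × V) : Om H (w + w') x = Om H w x + Om H w' x := by
  unfold Om
  have h1 : ((0 : V), (w + w').2) = (0, w.2) + (0, w'.2) := by
    ext <;> simp
  have h2 : ((w + w').1, (0 : V)) = (w.1, 0) + (w'.1, 0) := by
    ext <;> simp
  rw [h1, h2, map_add, map_add, ContinuousLinearMap.add_apply]
  ring

theorem om_iter (hO : ∀ w w', Om H (T w) (T w') = Om H w w') (k : ℕ) (w w' : V × V) :
    Om H ((⇑T)^[k] w) ((⇑T)^[k] w') = Om H w w' := by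
  induction k with
  | zero => rfl
  | succ k ih =>
    rw [Function.iterate_succ_apply', Function.iterate_succ_apply', hO, ih]

theorem it_symm (m j : ℕ) (hj : j ≤ m) (Q : V × V) :
    (⇑T)^[j] ((⇑T.symm)^[m] Q) = (⇑T.symm)^[m - j] Q := by
  induction j with
  | zero => rfl
  | succ j ih =>
    rw [Function.iterate_succ_apply', ih (by omega)]
    have h1 : m - j = (m - (j + 1)) + 1 := by omega
    rw [h1, Function.iterate_succ_apply', ContinuousLinearEquiv.apply_symm_apply]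

end chain

end IUGk

/-- item UGk -/
theorem pr_UGk (h1 : UOm) : UGk := by
  intro V _ _ _ lam K r₀ L L1 L2 T hC hTw hT
  obtain ⟨hO, -, -, CO, hCO⟩ := h1 V lam (L2 0) T hC.pos hTw hT
  refine ⟨r₀ / 2, by linarith [hC.r_pos], ?_⟩
  intro r t p v Q R hr ht htr hp hRt hB hF
  obtain ⟨A, hA⟩ := hRt
  obtain ⟨CB, hCB⟩ := hB
  obtain ⟨CF, hCF⟩ := hF
  have hA0 : 0 ≤ A := by
    have h2 := hA 0
    simp only [Nat.cast_zero, mul_zero, neg_zero, Real.exp_zero, mul_one] at h2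
    exact (norm_nonneg _).trans h2
  have hCB0 : 0 ≤ CB := by
    have h2 := hCB 0
    simp only [Nat.cast_zero, mul_zero, neg_zero, Real.exp_zero, mul_one] at h2
    exact (norm_nonneg _).trans h2
  have hCF0 : 0 ≤ CF := by
    have h2 := hCF 0
    simp only [Nat.cast_zero, mul_zero, neg_zero, Real.exp_zero, mul_one] at h2
    exact (norm_nonneg _).trans h2
  -- the quadratic part
  obtain ⟨c, hc⟩ : ∃ c : ℕ → V × V →L[ℝ] ℝ,
      ∀ j, c j = L1 (p j, p (j + 1)) - L2 0 (p j, p (j + 1)) := ⟨_, fun _ => rfl⟩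
  have hpn : ∀ j, ‖((p j, p (j + 1)) : V × V)‖ ≤ A * Real.exp (-(r * j)) := by
    intro j
    rw [Prod.norm_mk]
    refine max_le (hA j) ((hA (j + 1)).trans ?_)
    refine mul_le_mul_of_nonneg_left (Real.exp_le_exp.2 ?_) hA0
    push_cast
    nlinarith
  have hcn : ∀ j, ‖c j‖ ≤ K * A ^ 2 * Real.exp (-(2 * r * j)) := by
    intro j
    have h2 : ‖((p j, p (j + 1)) : V × V)‖ < r₀ := by
      have h3 : ‖((p j, p (j + 1)) : V × V)‖ ≤ r₀ / 2 := by
        rw [Prod.norm_mk]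
        exact max_le (hp.small j) (hp.small (j + 1))
      linarith [hC.r_pos]
    rw [hc]
    refine (IUGk.quad hC _ h2).trans ?_
    have h4 : ‖((p j, p (j + 1)) : V × V)‖ ^ 2 ≤ (A * Real.exp (-(r * j))) ^ 2 :=
      pow_le_pow_left₀ (norm_nonneg _) (hpn j) 2
    have h5 : (A * Real.exp (-(r * j))) ^ 2 = A ^ 2 * Real.exp (-(2 * r * j)) := by
      rw [mul_pow, ← Real.exp_nat_mul]
      congr 2
      push_cast
      ring
    calc K * ‖((p j, p (j + 1)) : V × V)‖ ^ 2 ≤ K * (A * Real.exp (-(r * j))) ^ 2 :=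
          mul_le_mul_of_nonneg_left h4 hC.K_nn
      _ = K * A ^ 2 * Real.exp (-(2 * r * j)) := by rw [h5]; ring
  -- the chain equation of p
  have hel : ∀ j (u : V), L1 (p j, p (j + 1)) (0, u) + L1 (p (j + 1), p (j + 2)) (u, 0) = 0 :=
    fun j u => hp.el (j + 2) j (by omega) u
  -- the geometric series
  have hq1 : Real.exp (-(2 * r - t)) < 1 := by
    rw [Real.exp_lt_one_iff]
    linarith
  have hq0 : 0 ≤ Real.exp (-(2 * r - t)) := (Real.exp_pos _).le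
  have hgeo : ∀ k : ℕ, ∑ j ∈ Finset.range k, Real.exp (-(2 * r - t)) ^ j ≤
      (1 - Real.exp (-(2 * r - t)))⁻¹ := by
    intro k
    rw [← tsum_geometric_of_lt_one hq0 hq1]
    exact (summable_geometric_of_lt_one hq0 hq1).sum_le_tsum _ fun j _ => pow_nonneg hq0 j
  refine ⟨(‖L2 0‖ * A + ‖L1 (p 0, p 1)‖) * (CB * Real.exp t) +
    K * A ^ 2 * CB * Real.exp t * (1 - Real.exp (-(2 * r - t)))⁻¹ +
    K * A ^ 2 * ‖T Q‖ + |CO| * CF * ‖T Q‖, ?_⟩
  intro k hk
  obtain ⟨E, hE⟩ : ∃ E : ℝ, E = Real.exp (-(t * k)) := ⟨_, rfl⟩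
  have hE0 : 0 < E := hE ▸ Real.exp_pos _
  obtain ⟨w, hw⟩ : ∃ w : V × V, w = (⇑T.symm)^[k - 1] Q := ⟨_, rfl⟩
  obtain ⟨X, hX⟩ : ∃ X : ℕ → V × V, ∀ j, X j = (⇑T)^[j] w := ⟨_, fun _ => rfl⟩
  have hXs : ∀ j, X (j + 1) = T (X j) := fun j => by
    rw [hX, hX, Function.iterate_succ_apply']
  have hXb : ∀ j, j < k → X j = (⇑T.symm)^[k - (j + 1)] Q := by
    intro j hj
    rw [hX, hw, IUGk.it_symm (k - 1) j (by omega)]
    congr 1
    omega
  have hXk : X k = T Q := by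
    obtain ⟨m, rfl⟩ : ∃ m, k = m + 1 := ⟨k - 1, by omega⟩
    rw [hXs, hXb m (by omega)]
    simp
  have hX1 : ∀ j, (X (j + 1)).1 = (X j).2 := fun j => by
    rw [hXs]
    exact IUGk.ofst hT (X j)
  have hXc : ∀ j (u : V), L2 0 (X j) (0, u) + L2 0 (X (j + 1)) (u, 0) = 0 := fun j u => by
    rw [hXs]
    exact IUGk.ochain hT (X j) u
  obtain ⟨b, hb⟩ : ∃ b : ℕ → ℝ, ∀ j, b j = L2 0 (X j) (p j, 0) -
      L1 (p j, p (j + 1)) ((X j).1, 0) := ⟨_, fun _ => rfl⟩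
  have htel : ∀ j, c j (X j) = b (j + 1) - b j := by
    intro j
    rw [hc, ContinuousLinearMap.sub_apply, hC.pos.symm (p j, p (j + 1)) (X j),
      IUGk.spl (L1 (p j, p (j + 1))) (X j), IUGk.spl (L2 0 (X j)) (p j, p (j + 1)), hb, hb]
    have e1 := hel j (X j).2
    have e2 := hXc j (p (j + 1))
    rw [hX1]
    show L1 (p j, p (j + 1)) ((X j).1, 0) + L1 (p j, p (j + 1)) (0, (X j).2) -
      (L2 0 (X j) (p j, 0) + L2 0 (X j) (0, p (j + 1))) =
      L2 0 (X (j + 1)) (p (j + 1), 0) - L1 (p (j + 1), p (j + 1 + 1)) ((X j).2, 0) -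
        (L2 0 (X j) (p j, 0) - L1 (p j, p (j + 1)) ((X j).1, 0))
    linear_combination e1 - e2
  have hsum : ∑ j ∈ Finset.range k, c j (X j) = b k - b 0 := by
    rw [Finset.sum_congr rfl fun j _ => htel j, Finset.sum_range_sub]
  -- the errors
  obtain ⟨e, he⟩ : ∃ e : ℕ → V × V, ∀ j, e j = (v (k - j), v (k - (j + 1))) - X j :=
    ⟨_, fun _ => rfl⟩
  have hen : ∀ j, j < k → ‖e j‖ ≤ CB * Real.exp t * E * Real.exp (t * j) := by
    intro j hj
    have h2 := hCB (k - (j + 1))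
    have h3 : k - (j + 1) + 1 = k - j := by omega
    rw [h3, ← hXb j hj, ← he] at h2
    refine h2.trans (le_of_eq ?_)
    rw [hE, mul_assoc, mul_assoc, ← Real.exp_add, ← Real.exp_add]
    congr 2
    rw [Nat.cast_sub (by omega)]
    push_cast
    ring
  have hG : Gk (L2 0) L1 p v k = b k + (L2 0 (e 0) (p 0, 0) - L1 (p 0, p 1) ((e 0).1, 0) +
      ∑ j ∈ Finset.range k, c j (e j)) := by
    unfold Gk
    have h2 : ∀ j, ((v (k - j), v (k - (j + 1))) : V × V) = X j + e j := fun j => by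
      rw [he]
      abel
    have h3 : ∑ j ∈ Finset.range k, (L1 (p j, p (j + 1)) - L2 0 (p j, p (j + 1)))
        (v (k - j), v (k - (j + 1))) = (b k - b 0) + ∑ j ∈ Finset.range k, c j (e j) := by
      rw [← hsum, ← Finset.sum_add_distrib]
      refine Finset.sum_congr rfl fun j _ => ?_
      rw [← hc, h2, map_add]
    have h4 : ((v k, v (k - 1)) : V × V) = X 0 + e 0 := h2 0
    have h5 : ((v k, 0) : V × V) = ((X 0).1, 0) + ((e 0).1, 0) := by
      have h6 : v k = (X 0).1 + (e 0).1 := congrArg Prod.fst h4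
      rw [h6]
      ext <;> simp
    rw [h3, h4, h5, map_add, map_add, ContinuousLinearMap.add_apply, hb 0]
    ring
  have hbk : b k + Om (L2 0) R w = -(c k ((T Q).1, 0)) -
      Om (L2 0) ((p k, p (k + 1)) - (⇑T)^[k] R) (T Q) := by
    have h2 : Om (L2 0) (p k, p (k + 1)) (T Q) = Om (L2 0) R w +
        Om (L2 0) ((p k, p (k + 1)) - (⇑T)^[k] R) (T Q) := by
      have h3 : ((p k, p (k + 1)) : V × V) = (⇑T)^[k] R + ((p k, p (k + 1)) - (⇑T)^[k] R) := by
        abel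
      have h4 : Om (L2 0) ((⇑T)^[k] R) (T Q) = Om (L2 0) R w := by
        rw [← hXk, hX, IUGk.om_iter hO]
      conv_lhs => rw [h3]
      rw [IUGk.om_add, h4]
    have h5 : b k = -Om (L2 0) (p k, p (k + 1)) (T Q) - c k ((T Q).1, 0) := by
      rw [hb, hc, hXk, ContinuousLinearMap.sub_apply]
      unfold Om
      have e1 : L2 0 (T Q) (p k, 0) = L2 0 ((T Q).1, 0) (p k, 0) +
          L2 0 (0, (T Q).2) (p k, 0) := by
        rw [← ContinuousLinearMap.add_apply, ← map_add]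
        congr 2
        ext <;> simp
      have e2 : L2 0 (p k, p (k + 1)) ((T Q).1, 0) = L2 0 (p k, 0) ((T Q).1, 0) +
          L2 0 (0, p (k + 1)) ((T Q).1, 0) := by
        rw [← ContinuousLinearMap.add_apply, ← map_add]
        congr 2
        ext <;> simp
      have e3 := hC.pos.symm ((T Q).1, 0) (p k, 0)
      rw [e1, e2, e3]
      ring
    rw [h5, h2]
    ring
  rw [hG, ← hw, ← hE]
  have hmain : b k + (L2 0 (e 0) (p 0, 0) - L1 (p 0, p 1) ((e 0).1, 0) +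
      ∑ j ∈ Finset.range k, c j (e j)) + Om (L2 0) R w =
      L2 0 (e 0) (p 0, 0) - L1 (p 0, p 1) ((e 0).1, 0) + ∑ j ∈ Finset.range k, c j (e j) -
      c k ((T Q).1, 0) - Om (L2 0) ((p k, p (k + 1)) - (⇑T)^[k] R) (T Q) := by
    linear_combination hbk
  rw [hmain]
  -- estimates
  have he0 : ‖e 0‖ ≤ CB * Real.exp t * E := by
    have h2 := hen 0 (by omega)
    simpa using h2
  have t1 : |L2 0 (e 0) (p 0, 0)| ≤ ‖L2 0‖ * A * (CB * Real.exp t * E) := by
    have h2 : ‖L2 0 (e 0) (p 0, 0)‖ ≤ ‖L2 0‖ * ‖e 0‖ * ‖((p 0, 0) : V × V)‖ :=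
      (L2 0).le_opNorm₂ _ _
    rw [Real.norm_eq_abs, IUGk.pair_norm] at h2
    have h3 : ‖p 0‖ ≤ A := by
      have h4 := hA 0
      simpa using h4
    have h5 : ‖e 0‖ * ‖p 0‖ ≤ (CB * Real.exp t * E) * A :=
      mul_le_mul he0 h3 (norm_nonneg _) ((norm_nonneg _).trans he0)
    calc |L2 0 (e 0) (p 0, 0)| ≤ ‖L2 0‖ * (‖e 0‖ * ‖p 0‖) := by rw [← mul_assoc]; exact h2
      _ ≤ ‖L2 0‖ * ((CB * Real.exp t * E) * A) :=
          mul_le_mul_of_nonneg_left h5 (L2 0).opNorm_nonneg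
      _ = _ := by ring
  have t2 : |L1 (p 0, p 1) ((e 0).1, 0)| ≤ ‖L1 (p 0, p 1)‖ * (CB * Real.exp t * E) := by
    have h2 := (L1 (p 0, p 1)).le_opNorm ((e 0).1, 0)
    rw [Real.norm_eq_abs] at h2
    exact h2.trans (mul_le_mul_of_nonneg_left ((IUGk.fst_norm (e 0)).trans he0) (norm_nonneg _))
  have t3 : |∑ j ∈ Finset.range k, c j (e j)| ≤
      K * A ^ 2 * CB * Real.exp t * (1 - Real.exp (-(2 * r - t)))⁻¹ * E := by
    refine (Finset.abs_sum_le_sum_abs _ _).trans ?_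
    have h2 : ∀ j ∈ Finset.range k, |c j (e j)| ≤
        (K * A ^ 2 * CB * Real.exp t * E) * Real.exp (-(2 * r - t)) ^ j := by
      intro j hj
      have h3 := (c j).le_opNorm (e j)
      rw [Real.norm_eq_abs] at h3
      have h4 : ‖c j‖ * ‖e j‖ ≤ (K * A ^ 2 * Real.exp (-(2 * r * j))) *
          (CB * Real.exp t * E * Real.exp (t * j)) :=
        mul_le_mul (hcn j) (hen j (Finset.mem_range.1 hj)) (norm_nonneg _)
          ((norm_nonneg _).trans (hcn j))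
      have h5 : Real.exp (-(2 * r - t)) ^ j = Real.exp (-(2 * r * j)) * Real.exp (t * j) := by
        rw [← Real.exp_nat_mul, ← Real.exp_add]
        congr 1
        ring
      refine (h3.trans h4).trans (le_of_eq ?_)
      rw [h5]
      ring
    refine (Finset.sum_le_sum h2).trans ?_
    rw [← Finset.mul_sum]
    have h6 : 0 ≤ K * A ^ 2 * CB * Real.exp t * E := by
      have := hC.K_nn
      positivity
    calc (K * A ^ 2 * CB * Real.exp t * E) * ∑ j ∈ Finset.range k, Real.exp (-(2 * r - t)) ^ j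
        ≤ (K * A ^ 2 * CB * Real.exp t * E) * (1 - Real.exp (-(2 * r - t)))⁻¹ :=
          mul_le_mul_of_nonneg_left (hgeo k) h6
      _ = _ := by ring
  have t4 : |c k ((T Q).1, 0)| ≤ K * A ^ 2 * ‖T Q‖ * E := by
    have h2 := (c k).le_opNorm ((T Q).1, 0)
    rw [Real.norm_eq_abs] at h2
    have h3 : Real.exp (-(2 * r * k)) ≤ E := by
      rw [hE]
      refine Real.exp_le_exp.2 ?_
      have h4 : (0 : ℝ) ≤ k := Nat.cast_nonneg k
      nlinarith
    have h5 : ‖c k‖ ≤ K * A ^ 2 * E := (hcn k).trans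
      (mul_le_mul_of_nonneg_left h3 (mul_nonneg hC.K_nn (sq_nonneg A)))
    calc |c k ((T Q).1, 0)| ≤ ‖c k‖ * ‖(((T Q).1, 0) : V × V)‖ := h2
      _ ≤ (K * A ^ 2 * E) * ‖T Q‖ :=
          mul_le_mul h5 (IUGk.fst_norm _) (norm_nonneg _) ((norm_nonneg _).trans h5)
      _ = _ := by ring
  have t5 : |Om (L2 0) ((p k, p (k + 1)) - (⇑T)^[k] R) (T Q)| ≤ |CO| * CF * ‖T Q‖ * E := by
    have h2 := hCO ((p k, p (k + 1)) - (⇑T)^[k] R) (T Q)
    have h3 := hCF k
    rw [← hE] at h3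
    have h4 : CO * ‖(p k, p (k + 1)) - (⇑T)^[k] R‖ ≤ |CO| * (CF * E) :=
      mul_le_mul (le_abs_self _) h3 (norm_nonneg _) (abs_nonneg _)
    calc |Om (L2 0) ((p k, p (k + 1)) - (⇑T)^[k] R) (T Q)|
        ≤ CO * ‖(p k, p (k + 1)) - (⇑T)^[k] R‖ * ‖T Q‖ := h2
      _ ≤ |CO| * (CF * E) * ‖T Q‖ := mul_le_mul_of_nonneg_right h4 (norm_nonneg _)
      _ = _ := by ring
  have hfin : ∀ a b c d e A B C D F : ℝ, |a| ≤ A → |b| ≤ B → |c| ≤ C → |d| ≤ D → |e| ≤ F →
      |a - b + c - d - e| ≤ A + B + C + D + F := by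
    intro a b c d e A B C D F ha hb hc hd he
    rw [abs_le] at *
    constructor <;> linarith [ha.1, ha.2, hb.1, hb.2, hc.1, hc.2, hd.1, hd.2, he.1, he.2]
  refine (hfin _ _ _ _ _ _ _ _ _ _ t1 t2 t3 t4 t5).trans (le_of_eq ?_)
  ring

end Pool.Agent.LX
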