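import Pool.Agent.Work.MP_25cd3b_gt.LX.StmtsU

set_option autoImplicit false

/-! # MP_25cd3b_gt, block LX, item UGl (helper4): gluing of conjugacies -/

open Set Filter Topology

namespace Pool.Agent.LX

namespace IUGl

variable {S : Type} [NormedAddCommGroup S] [NormedSpace ℝ S]

theorem symm_iter_comm {T : S ≃L[ℝ] S} {P : S →L[ℝ] S} (hc : ∀ w, P (T w) = T (P w)) (k : ℕ) (w : S) :
    (⇑T.symm)^[k] (P w) = P ((⇑T.symm)^[k] w) := by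
  have h1 : ∀ w, T.symm (P w) = P (T.symm w) := by
    intro w
    have := hc (T.symm w)
    rw [T.apply_symm_apply] at this
    rw [this, T.symm_apply_apply]
  induction k generalizing w with
  | zero => rfl
  | succ k ih => rw [Function.iterate_succ_apply, Function.iterate_succ_apply, h1, ih]

theorem symm_iter_add (T : S ≃L[ℝ] S) (k : ℕ) (w w' : S) :
    (⇑T.symm)^[k] (w + w') = (⇑T.symm)^[k] w + (⇑T.symm)^[k] w' := by
  induction k generalizing w w' with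
  | zero => rfl
  | succ k ih => rw [Function.iterate_succ_apply, Function.iterate_succ_apply, Function.iterate_succ_apply, map_add, ih]

theorem exp_le {a b : ℝ} (h : a ≤ b) (C : ℝ) (k : ℕ) : C * Real.exp (-(b * k)) ≤ |C| * Real.exp (-(a * k)) := by
  have h1 : Real.exp (-(b * k)) ≤ Real.exp (-(a * k)) := by
    apply Real.exp_le_exp.2
    have : a * k ≤ b * k := mul_le_mul_of_nonneg_right h (Nat.cast_nonneg k)
    linarith
  calc C * Real.exp (-(b * k)) ≤ |C| * Real.exp (-(b * k)) :=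
        mul_le_mul_of_nonneg_right (le_abs_self C) (Real.exp_pos _).le
    _ ≤ |C| * Real.exp (-(a * k)) := mul_le_mul_of_nonneg_left h1 (abs_nonneg C)

theorem add {T : S ≃L[ℝ] S} {r : ℝ} {P : S →L[ℝ] S} {x y : S} (hx : InL T r P x) (hy : InL T r P y) :
    InL T r P (x + y) := by
  obtain ⟨h1, C1, h2⟩ := hx
  obtain ⟨h3, C2, h4⟩ := hy
  refine ⟨by rw [map_add, h1, h3], C1 + C2, fun k => ?_⟩
  rw [symm_iter_add, add_mul]
  exact (norm_add_le _ _).trans (add_le_add (h2 k) (h4 k))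

/-- the first component -/
theorem fst {T : S ≃L[ℝ] S} {r₀ r : ℝ} {A B : S →L[ℝ] S} (hA : Gap T r A) {w : S} (hw : InL T r₀ B w) :
    InL T r₀ A (A w) := by
  obtain ⟨_, C, h2⟩ := hw
  refine ⟨hA.idem w, ‖A‖ * C, fun k => ?_⟩
  rw [symm_iter_comm hA.comm, mul_assoc]
  exact (A.le_opNorm _).trans (mul_le_mul_of_nonneg_left (h2 k) (norm_nonneg _))

/-- the second component -/
theorem snd {T : S ≃L[ℝ] S} {r₀ r : ℝ} {A B : S →L[ℝ] S} (hA : Gap T r A)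
    (h3 : ∀ w, B (A w) = A w) {w : S} (hw : InL T r₀ B w) : InL T r B (w - A w) := by
  obtain ⟨r₁, C, hr, h⟩ := hA.lo
  refine ⟨by rw [map_sub, hw.1, h3], |C| * ‖w‖, fun k => ?_⟩
  calc ‖(⇑T.symm)^[k] (w - A w)‖ ≤ C * Real.exp (-(r₁ * k)) * ‖w‖ := h k w
    _ ≤ |C| * Real.exp (-(r * k)) * ‖w‖ := mul_le_mul_of_nonneg_right (exp_le hr.le C k) (norm_nonneg w)
    _ = |C| * ‖w‖ * Real.exp (-(r * k)) := by ring

theorem of_fst {T : S ≃L[ℝ] S} {r₀ : ℝ} {A B : S →L[ℝ] S} (h3 : ∀ w, B (A w) = A w) {x : S}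
    (hx : InL T r₀ A x) : InL T r₀ B x := by
  refine ⟨?_, hx.2⟩
  have := h3 x
  rw [hx.1] at this
  exact this

theorem of_snd {T : S ≃L[ℝ] S} {r₀ r : ℝ} {B : S →L[ℝ] S} (hr : r₀ ≤ r) {y : S}
    (hy : InL T r B y) : InL T r₀ B y := by
  obtain ⟨h1, C, h2⟩ := hy
  exact ⟨h1, |C|, fun k => (h2 k).trans (exp_le hr C k)⟩

end IUGl

theorem pr_UGl (h1 : UGa) : UGl := by
  intro S₁ S₂ _ _ _ _ _ _ T₁ T₂ r₀ r t A₁ B₁ A₂ B₂ hr₀ hrt hA₁ hA₂ hB₁ hB₂ Ψa Ψb a1 a2 a3 a4 b1 b2 b3 b4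
  obtain ⟨_, u2, u3, _⟩ := h1 S₁ T₁ r t A₁ B₁ hA₁ hB₁ hrt.le
  obtain ⟨_, v2, v3, _⟩ := h1 S₂ T₂ r t A₂ B₂ hA₂ hB₂ hrt.le
  refine ⟨Ψa.comp A₁ + Ψb.comp (ContinuousLinearMap.id ℝ S₁ - A₁), ?_, ?_, ?_, ?_⟩
  · intro w hw
    exact IUGl.add (IUGl.of_fst v3 (a1 _ (IUGl.fst hA₁ hw))) (IUGl.of_snd hr₀ (b1 _ (IUGl.snd hA₁ u3 hw)))
  · intro w hw h0
    have h0' : Ψa (A₁ w) + Ψb (w - A₁ w) = 0 := h0
    have hx := IUGl.fst hA₁ hw
    have hy := IUGl.snd hA₁ u3 hw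
    have e1 : A₂ (Ψa (A₁ w)) = Ψa (A₁ w) := (a1 _ hx).1
    have e2 : A₂ (Ψb (w - A₁ w)) = 0 := v2 _ (b1 _ hy).2
    have e3 : Ψa (A₁ w) = 0 := by
      have := congrArg A₂ h0'
      rw [map_add, e1, e2, add_zero, map_zero] at this
      exact this
    have e4 : Ψb (w - A₁ w) = 0 := by rw [e3, zero_add] at h0'; exact h0'
    have e5 := a2 _ hx e3
    have e6 := b2 _ hy e4
    rw [e5, sub_zero] at e6
    exact e6
  · intro w' hw'
    obtain ⟨x, hx, hx'⟩ := a3 _ (IUGl.fst hA₂ hw')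
    obtain ⟨y, hy, hy'⟩ := b3 _ (IUGl.snd hA₂ v3 hw')
    refine ⟨x + y, IUGl.add (IUGl.of_fst u3 hx) (IUGl.of_snd hr₀ hy), ?_⟩
    change Ψa (A₁ (x + y)) + Ψb (x + y - A₁ (x + y)) = w'
    rw [map_add, hx.1, u2 y hy.2, add_zero, add_sub_cancel_left, hx', hy', add_sub_cancel]
  · intro w hw
    change Ψa (A₁ (T₁ w)) + Ψb (T₁ w - A₁ (T₁ w)) = T₂ (Ψa (A₁ w) + Ψb (w - A₁ w))
    rw [hA₁.comm, ← map_sub T₁, a4 _ (IUGl.fst hA₁ hw), b4 _ (IUGl.snd hA₁ u3 hw), map_add]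

end Pool.Agent.LX
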