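import Pool.Agent.Work.MP_25cd3b_gt.LX.StmtsU

set_option autoImplicit false

/-!
# MP_25cd3b_gt, block LX, item UGp: gaps
-/

open Set Filter Topology
open scoped ContDiff

namespace Pool.Agent.LX

theorem pr_UGp (h1 : SPr) : UGp := by
  intro S _ _ _ T r
  obtain ⟨P, hP⟩ := h1 S T (Real.exp r) (Real.exp_pos r)
  obtain ⟨ρ₂, C₂, hρ, hlo⟩ := hP.lo
  have hρ0 : 0 < ρ₂ := (Real.exp_pos r).trans hρ
  have hlog : r < Real.log ρ₂ := by
    rw [Real.lt_log_iff_exp_lt hρ0]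
    exact hρ
  refine ⟨Real.log ρ₂ - r, P, by linarith, fun r' hr hr' => ⟨hP.idem, hP.comm, ?_, ?_⟩⟩
  · obtain ⟨C, hC⟩ := hP.up (Real.exp ((r + r') / 2)) (Real.exp_lt_exp.2 (by linarith))
    refine ⟨(r + r') / 2, C, by linarith, fun k w => ?_⟩
    have h := hC k w
    rw [← Real.exp_nat_mul, mul_comm (k : ℝ)] at h
    exact h
  · refine ⟨Real.log ρ₂, C₂, by linarith, fun k w => ?_⟩
    have h := hlo k w
    have h2 : ρ₂⁻¹ ^ k = Real.exp (-(Real.log ρ₂ * k)) := by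
      have h3 : ρ₂⁻¹ = Real.exp (-Real.log ρ₂) := by
        rw [Real.exp_neg, Real.exp_log hρ0]
      rw [h3, ← Real.exp_nat_mul]
      congr 1
      ring
    rw [h2] at h
    exact h

end Pool.Agent.LX

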