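import Pool.Agent.Work.MP_25cd3b_gt.LX.StmtsU

set_option autoImplicit false

/-!
# MP_25cd3b_gt, block LX, item UOm: the invariant symplectic form
-/

open Set Filter Topology
open scoped ContDiff

namespace Pool.Agent.LX

namespace IUOm

variable {V : Type} [NormedAddCommGroup V] [NormedSpace ℝ V]

theorem split (H : Bf V) (a b : V) (q : V × V) : H (a, b) q = H (a, 0) q + H (0, b) q := by
  rw [← ContinuousLinearMap.add_apply, ← map_add, Prod.mk_add_mk, add_zero, zero_add]

theorem anti (H : Bf V) (w w' : V × V) : Om H w w' = - Om H w' w := by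
  unfold Om
  ring

/-- the mixed part as a map to the dual space -/
noncomputable def mix (H : Bf V) : V →ₗ[ℝ] Module.Dual ℝ V :=
  LinearMap.mk₂ ℝ (fun y x => H (0, y) (x, 0))
    (by
      intro y y' x
      have h : ((0 : V), y + y') = (0, y) + (0, y') := by rw [Prod.mk_add_mk, add_zero]
      rw [h, map_add, ContinuousLinearMap.add_apply])
    (by
      intro c y x
      have h : ((0 : V), c • y) = c • (0, y) := by rw [Prod.smul_mk, smul_zero]
      rw [h, map_smul, ContinuousLinearMap.smul_apply])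
    (by
      intro y x x'
      have h : (x + x', (0 : V)) = (x, 0) + (x', 0) := by rw [Prod.mk_add_mk, add_zero]
      rw [h, map_add])
    (by
      intro c y x
      have h : (c • x, (0 : V)) = c • (x, 0) := by rw [Prod.smul_mk, smul_zero]
      rw [h, map_smul])

theorem nondeg [FiniteDimensional ℝ V] (H : Bf V) (hH : Tws H) (v : V)
    (h : ∀ y : V, H (0, y) (v, 0) = 0) : v = 0 := by
  have hinj : Function.Injective (mix H) := by
    rw [injective_iff_map_eq_zero]
    intro y hy
    refine hH y fun x => ?_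
    exact LinearMap.congr_fun hy x
  have hsur : Function.Surjective (mix H) :=
    (LinearMap.injective_iff_surjective_of_finrank_eq_finrank
      (Subspace.dual_finrank_eq (K := ℝ) (V := V)).symm).1 hinj
  refine (Module.forall_dual_apply_eq_zero_iff ℝ v).1 fun f => ?_
  obtain ⟨y, rfl⟩ := hsur f
  exact h y

end IUOm

theorem pr_UOm : UOm := by
  intro V _ _ _ lam H T hP hT hI
  have hr : ∀ w, (∀ w', Om H w w' = 0) → w = 0 := by
    intro w hw
    have h2 : w.2 = 0 := by
      refine hT w.2 fun x => ?_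
      have h := hw (x, 0)
      unfold Om at h
      have h0 : H ((0 : V), (0 : V)) (w.1, 0) = 0 := by
        rw [Prod.mk_zero_zero, map_zero, ContinuousLinearMap.zero_apply]
      simp only at h
      rw [h0, sub_zero] at h
      exact h
    have h1 : w.1 = 0 := by
      refine IUOm.nondeg H hT w.1 fun y => ?_
      have h := hw (0, y)
      unfold Om at h
      have h0 : H ((0 : V), w.2) ((0 : V), (0 : V)) = 0 := by
        rw [Prod.mk_zero_zero, map_zero]
      simp only at h
      rw [h0, zero_sub, neg_eq_zero] at h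
      exact h
    exact Prod.ext h1 h2
  refine ⟨?_, ?_, hr, ?_⟩
  · rintro ⟨a, b⟩ ⟨a', b'⟩
    obtain ⟨e1, e2⟩ := hI a b
    obtain ⟨e1', e2'⟩ := hI a' b'
    unfold Om
    rw [e1, e1']
    have f1 := e2 b'
    have f2 := e2' b
    rw [IUOm.split H a b, IUOm.split H b] at f1
    rw [IUOm.split H a' b', IUOm.split H b'] at f2
    have s1 := hP.symm (b, 0) (b', 0)
    have s2 := hP.symm (0, b) (0, b')
    have s3 := hP.symm (a, 0) (0, b')
    have s4 := hP.symm (a', 0) (0, b)
    simp only
    linarith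
  · intro w hw
    refine hr w fun w' => ?_
    rw [IUOm.anti, hw w', neg_zero]
  · refine ⟨2 * ‖H‖, fun w w' => ?_⟩
    have hb : ∀ u u' : V × V, |H (0, u.2) (u'.1, 0)| ≤ ‖H‖ * ‖u‖ * ‖u'‖ := by
      intro u u'
      have h1 := H.le_opNorm₂ (0, u.2) (u'.1, 0)
      rw [Real.norm_eq_abs] at h1
      refine h1.trans ?_
      have h2 : ‖((0 : V), u.2)‖ ≤ ‖u‖ := by
        rw [Prod.norm_mk, norm_zero]
        exact max_le (norm_nonneg _) (norm_snd_le u)
      have h3 : ‖(u'.1, (0 : V))‖ ≤ ‖u'‖ := by
        rw [Prod.norm_mk, norm_zero]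
        exact max_le (norm_fst_le u') (norm_nonneg _)
      gcongr
    unfold Om
    have h1 := hb w w'
    have h2 := hb w' w
    calc |H (0, w.2) (w'.1, 0) - H (0, w'.2) (w.1, 0)|
        ≤ |H (0, w.2) (w'.1, 0)| + |H (0, w'.2) (w.1, 0)| := abs_sub _ _
      _ ≤ ‖H‖ * ‖w‖ * ‖w'‖ + ‖H‖ * ‖w'‖ * ‖w‖ := add_le_add h1 h2
      _ = 2 * ‖H‖ * ‖w‖ * ‖w'‖ := by ring

end Pool.Agent.LX
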