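import Pool.Agent.Work.MP_25cd3b_gt.LX.StmtsU

set_option autoImplicit false

/-!
# Item UPe of block LX, part U: the method of Perron
-/

open Set Filter Topology
open scoped ContDiff

namespace Pool.Agent.LX

namespace IUPe

section
variable {S : Type} [NormedAddCommGroup S] [NormedSpace ℝ S]

/-- the sum over the past and the future -/
noncomputable def G (T : S ≃L[ℝ] S) (P : S →L[ℝ] S) (e : ℕ → S) (i : ℕ) : S :=
  (∑ m ∈ Finset.range i, (⇑T.symm)^[i - 1 - m] (e m - P (e m))) -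
    ∑' l : ℕ, (⇑T)^[l + 1] (P (e (i + l)))

/-- the constants -/
structure Cs (T : S ≃L[ℝ] S) (P : S →L[ℝ] S) (r r₀ r₁ C₀ : ℝ) : Prop where
  hr : 0 < r
  h0 : r₀ < r
  h1 : r < r₁
  hC : 1 ≤ C₀
  up : ∀ (k : ℕ) (w : S), ‖(⇑T)^[k] (P w)‖ ≤ C₀ * Real.exp (r₀ * k) * ‖w‖
  lo : ∀ (k : ℕ) (w : S), ‖(⇑T.symm)^[k] (w - P w)‖ ≤ C₀ * Real.exp (-(r₁ * k)) * ‖w‖

lemma exists_cs {T : S ≃L[ℝ] S} {P : S →L[ℝ] S} {r : ℝ} (hr : 0 < r) (h : Gap T r P) :
    ∃ r₀ r₁ C₀ : ℝ, Cs T P r r₀ r₁ C₀ := by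
  obtain ⟨r₀, C, h0, hup⟩ := h.up
  obtain ⟨r₁, C', h1, hlo⟩ := h.lo
  refine ⟨r₀, r₁, max (max C C') 1, hr, h0, h1, le_max_right _ _, fun k w => ?_, fun k w => ?_⟩
  · refine (hup k w).trans ?_
    refine mul_le_mul_of_nonneg_right (mul_le_mul_of_nonneg_right ?_ (Real.exp_pos _).le)
      (norm_nonneg _)
    exact (le_max_left C C').trans (le_max_left _ _)
  · refine (hlo k w).trans ?_
    refine mul_le_mul_of_nonneg_right (mul_le_mul_of_nonneg_right ?_ (Real.exp_pos _).le)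
      (norm_nonneg _)
    exact (le_max_right C C').trans (le_max_left _ _)

variable {T : S ≃L[ℝ] S} {P : S →L[ℝ] S} {r r₀ r₁ C₀ : ℝ}

lemma s_lt (h : Cs T P r r₀ r₁ C₀) : Real.exp (r₀ - 2 * r) < 1 := by
  rw [Real.exp_lt_one_iff]
  have := h.h0
  have := h.hr
  linarith

lemma q_lt (h : Cs T P r r₀ r₁ C₀) : Real.exp (-(r₁ - r)) < 1 := by
  rw [Real.exp_lt_one_iff]
  have := h.h1
  linarith

lemma term2 (h : Cs T P r r₀ r₁ C₀) {e : ℕ → S} {E : ℝ}
    (he : ∀ m : ℕ, ‖e m‖ ≤ E * Real.exp (-(2 * r * m))) (i l : ℕ) :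
    ‖(⇑T)^[l + 1] (P (e (i + l)))‖ ≤
      C₀ * E * Real.exp r₀ * Real.exp (-(2 * r * i)) * Real.exp (r₀ - 2 * r) ^ l := by
  have hC : 0 ≤ C₀ := by linarith [h.hC]
  have h1 := h.up (l + 1) (e (i + l))
  have h2 := he (i + l)
  have h3 : Real.exp (r₀ * ((l + 1 : ℕ) : ℝ)) * Real.exp (-(2 * r * ((i + l : ℕ) : ℝ))) =
      Real.exp r₀ * Real.exp (-(2 * r * i)) * Real.exp (r₀ - 2 * r) ^ l := by
    rw [← Real.exp_nat_mul, ← Real.exp_add, ← Real.exp_add, ← Real.exp_add]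
    congr 1
    push_cast
    ring
  calc ‖(⇑T)^[l + 1] (P (e (i + l)))‖
      ≤ C₀ * Real.exp (r₀ * ((l + 1 : ℕ) : ℝ)) * ‖e (i + l)‖ := h1
    _ ≤ C₀ * Real.exp (r₀ * ((l + 1 : ℕ) : ℝ)) * (E * Real.exp (-(2 * r * ((i + l : ℕ) : ℝ)))) :=
        mul_le_mul_of_nonneg_left h2 (mul_nonneg hC (Real.exp_pos _).le)
    _ = C₀ * E * (Real.exp (r₀ * ((l + 1 : ℕ) : ℝ)) * Real.exp (-(2 * r * ((i + l : ℕ) : ℝ)))) := by
        ring
    _ = _ := by rw [h3]; ring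

lemma hs2 (h : Cs T P r r₀ r₁ C₀) (E : ℝ) (i : ℕ) :
    HasSum (fun l : ℕ => C₀ * E * Real.exp r₀ * Real.exp (-(2 * r * i)) *
      Real.exp (r₀ - 2 * r) ^ l)
      (C₀ * E * Real.exp r₀ * Real.exp (-(2 * r * i)) * (1 - Real.exp (r₀ - 2 * r))⁻¹) :=
  (hasSum_geometric_of_lt_one (Real.exp_pos _).le (s_lt h)).mul_left _

variable [FiniteDimensional ℝ S]

lemma summ (h : Cs T P r r₀ r₁ C₀) {e : ℕ → S} {E : ℝ}
    (he : ∀ m : ℕ, ‖e m‖ ≤ E * Real.exp (-(2 * r * m))) (i : ℕ) :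
    Summable fun l : ℕ => (⇑T)^[l + 1] (P (e (i + l))) := by
  have : CompleteSpace S := FiniteDimensional.complete ℝ S
  exact Summable.of_norm_bounded (hs2 h E i).summable fun l => term2 h he i l

/-- the constant of the linear estimate -/
noncomputable def C1 (r r₀ r₁ C₀ : ℝ) : ℝ :=
  C₀ * Real.exp r * (1 - Real.exp (-(r₁ - r)))⁻¹ + C₀ * Real.exp r₀ * (1 - Real.exp (r₀ - 2 * r))⁻¹

omit [FiniteDimensional ℝ S] in
lemma C1_pos (h : Cs T P r r₀ r₁ C₀) : 0 < C1 r r₀ r₁ C₀ := by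
  have hC : 0 < C₀ := by linarith [h.hC]
  have h1 : 0 < 1 - Real.exp (-(r₁ - r)) := by linarith [q_lt h]
  have h2 : 0 < 1 - Real.exp (r₀ - 2 * r) := by linarith [s_lt h]
  unfold C1
  positivity

omit [FiniteDimensional ℝ S] in
lemma sum1 (h : Cs T P r r₀ r₁ C₀) {e : ℕ → S} {E : ℝ} (hE : 0 ≤ E)
    (he : ∀ m : ℕ, ‖e m‖ ≤ E * Real.exp (-(2 * r * m))) (i : ℕ) :
    ‖∑ m ∈ Finset.range i, (⇑T.symm)^[i - 1 - m] (e m - P (e m))‖ ≤
      C₀ * E * Real.exp r * (1 - Real.exp (-(r₁ - r)))⁻¹ * Real.exp (-(r * i)) := by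
  have hC : 0 ≤ C₀ := by linarith [h.hC]
  set q : ℝ := Real.exp (-(r₁ - r)) with hq
  have hq0 : 0 ≤ q := (Real.exp_pos _).le
  have hterm : ∀ m ∈ Finset.range i, ‖(⇑T.symm)^[i - 1 - m] (e m - P (e m))‖ ≤
      C₀ * E * Real.exp r * Real.exp (-(r * i)) * q ^ (i - 1 - m) := by
    intro m hm
    have hmi : m < i := Finset.mem_range.1 hm
    have h1 := h.lo (i - 1 - m) (e m)
    have h2 := he m
    have hcast : (i : ℝ) = m + ((i - 1 - m : ℕ) : ℝ) + 1 := by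
      have : i = m + (i - 1 - m) + 1 := by omega
      exact_mod_cast this
    have h3 : Real.exp (-(r₁ * ((i - 1 - m : ℕ) : ℝ))) * Real.exp (-(2 * r * m)) ≤
        Real.exp r * Real.exp (-(r * i)) * q ^ (i - 1 - m) := by
      rw [hq, ← Real.exp_nat_mul, ← Real.exp_add, ← Real.exp_add, ← Real.exp_add]
      apply Real.exp_le_exp.2
      rw [hcast]
      have : 0 ≤ r * m := mul_nonneg h.hr.le (Nat.cast_nonneg _)
      nlinarith
    calc ‖(⇑T.symm)^[i - 1 - m] (e m - P (e m))‖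
        ≤ C₀ * Real.exp (-(r₁ * ((i - 1 - m : ℕ) : ℝ))) * ‖e m‖ := h1
      _ ≤ C₀ * Real.exp (-(r₁ * ((i - 1 - m : ℕ) : ℝ))) * (E * Real.exp (-(2 * r * m))) :=
          mul_le_mul_of_nonneg_left h2 (mul_nonneg hC (Real.exp_pos _).le)
      _ = C₀ * E * (Real.exp (-(r₁ * ((i - 1 - m : ℕ) : ℝ))) * Real.exp (-(2 * r * m))) := by ring
      _ ≤ C₀ * E * (Real.exp r * Real.exp (-(r * i)) * q ^ (i - 1 - m)) :=
          mul_le_mul_of_nonneg_left h3 (mul_nonneg hC hE)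
      _ = _ := by ring
  have hgeo : ∑ m ∈ Finset.range i, q ^ (i - 1 - m) ≤ (1 - q)⁻¹ := by
    rw [Finset.sum_range_reflect (fun j => q ^ j) i]
    have hsum := hasSum_geometric_of_lt_one hq0 (q_lt h)
    rw [← hsum.tsum_eq]
    exact hsum.summable.sum_le_tsum _ fun j _ => pow_nonneg hq0 j
  calc ‖∑ m ∈ Finset.range i, (⇑T.symm)^[i - 1 - m] (e m - P (e m))‖
      ≤ ∑ m ∈ Finset.range i, C₀ * E * Real.exp r * Real.exp (-(r * i)) * q ^ (i - 1 - m) :=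
        (norm_sum_le _ _).trans (Finset.sum_le_sum hterm)
    _ = C₀ * E * Real.exp r * Real.exp (-(r * i)) * ∑ m ∈ Finset.range i, q ^ (i - 1 - m) := by
        rw [Finset.mul_sum]
    _ ≤ C₀ * E * Real.exp r * Real.exp (-(r * i)) * (1 - q)⁻¹ :=
        mul_le_mul_of_nonneg_left hgeo (by positivity)
    _ = _ := by ring

omit [FiniteDimensional ℝ S] in
lemma sum2 (h : Cs T P r r₀ r₁ C₀) {e : ℕ → S} {E : ℝ} (hE : 0 ≤ E)
    (he : ∀ m : ℕ, ‖e m‖ ≤ E * Real.exp (-(2 * r * m))) (i : ℕ) :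
    ‖∑' l : ℕ, (⇑T)^[l + 1] (P (e (i + l)))‖ ≤
      C₀ * E * Real.exp r₀ * (1 - Real.exp (r₀ - 2 * r))⁻¹ * Real.exp (-(r * i)) := by
  have hC : 0 ≤ C₀ := by linarith [h.hC]
  have h2 : 0 < 1 - Real.exp (r₀ - 2 * r) := by linarith [s_lt h]
  refine (tsum_of_norm_bounded (hs2 h E i) fun l => term2 h he i l).trans ?_
  have h3 : Real.exp (-(2 * r * i)) ≤ Real.exp (-(r * i)) := by
    apply Real.exp_le_exp.2
    have : 0 ≤ r * i := mul_nonneg h.hr.le (Nat.cast_nonneg _)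
    nlinarith
  calc C₀ * E * Real.exp r₀ * Real.exp (-(2 * r * i)) * (1 - Real.exp (r₀ - 2 * r))⁻¹
      = C₀ * E * Real.exp r₀ * (1 - Real.exp (r₀ - 2 * r))⁻¹ * Real.exp (-(2 * r * i)) := by ring
    _ ≤ _ := mul_le_mul_of_nonneg_left h3 (by positivity)

omit [FiniteDimensional ℝ S] in
lemma G_le (h : Cs T P r r₀ r₁ C₀) {e : ℕ → S} {E : ℝ} (hE : 0 ≤ E)
    (he : ∀ m : ℕ, ‖e m‖ ≤ E * Real.exp (-(2 * r * m))) (i : ℕ) :
    ‖G T P e i‖ ≤ C1 r r₀ r₁ C₀ * E * Real.exp (-(r * i)) := by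
  unfold G
  refine (norm_sub_le _ _).trans ?_
  have h1 := sum1 h hE he i
  have h2 := sum2 h hE he i
  unfold C1
  linarith

lemma G_rec (h : Cs T P r r₀ r₁ C₀) {e : ℕ → S} {E : ℝ}
    (he : ∀ m : ℕ, ‖e m‖ ≤ E * Real.exp (-(2 * r * m))) (i : ℕ) :
    G T P e (i + 1) = T.symm (G T P e i) + e i := by
  have hS := summ h he i
  unfold G
  rw [map_sub, map_sum, Finset.sum_range_succ]
  have h1 : ∀ m ∈ Finset.range i, T.symm ((⇑T.symm)^[i - 1 - m] (e m - P (e m))) =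
      (⇑T.symm)^[i + 1 - 1 - m] (e m - P (e m)) := by
    intro m hm
    have hmi : m < i := Finset.mem_range.1 hm
    rw [show i + 1 - 1 - m = (i - 1 - m) + 1 by omega, Function.iterate_succ_apply']
  rw [Finset.sum_congr rfl h1]
  have h2 : T.symm (∑' l : ℕ, (⇑T)^[l + 1] (P (e (i + l)))) =
      ∑' l : ℕ, (⇑T)^[l] (P (e (i + l))) := by
    rw [ContinuousLinearEquiv.map_tsum]
    congr 1
    funext l
    rw [Function.iterate_succ_apply', T.symm_apply_apply]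
  have hS2 : Summable fun l : ℕ => (⇑T)^[l] (P (e (i + l))) := by
    have := hS.map (T.symm : S →+ S) T.symm.continuous
    refine this.congr fun l => ?_
    show T.symm ((⇑T)^[l + 1] (P (e (i + l)))) = (⇑T)^[l] (P (e (i + l)))
    rw [Function.iterate_succ_apply', T.symm_apply_apply]
  have h3 : ∑' l : ℕ, (⇑T)^[l] (P (e (i + l))) =
      P (e i) + ∑' l : ℕ, (⇑T)^[l + 1] (P (e (i + 1 + l))) := by
    rw [hS2.tsum_eq_zero_add]
    congr 1
    congr 1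
    funext l
    rw [show i + (l + 1) = i + 1 + l by ring]
  rw [h2, h3]
  have h4 : i + 1 - 1 - i = 0 := by omega
  rw [h4, Function.iterate_zero_apply]
  abel

lemma G_sub (h : Cs T P r r₀ r₁ C₀) {e e' : ℕ → S} {E : ℝ}
    (he : ∀ m : ℕ, ‖e m‖ ≤ E * Real.exp (-(2 * r * m)))
    (he' : ∀ m : ℕ, ‖e' m‖ ≤ E * Real.exp (-(2 * r * m))) (i : ℕ) :
    G T P e i - G T P e' i = G T P (fun m => e m - e' m) i := by
  have hS := summ h he i
  have hS' := summ h he' i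
  unfold G
  have h1 : ∀ m, (⇑T.symm)^[i - 1 - m] (e m - e' m - P (e m - e' m)) =
      (⇑T.symm)^[i - 1 - m] (e m - P (e m)) - (⇑T.symm)^[i - 1 - m] (e' m - P (e' m)) := by
    intro m
    rw [← iterate_map_sub, map_sub]
    congr 1
    abel
  have h2 : ∀ l, (⇑T)^[l + 1] (P (e (i + l) - e' (i + l))) =
      (⇑T)^[l + 1] (P (e (i + l))) - (⇑T)^[l + 1] (P (e' (i + l))) := by
    intro l
    rw [← iterate_map_sub, map_sub]
  simp only [h1, h2]
  rw [Finset.sum_sub_distrib, hS.tsum_sub hS']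
  abel

omit [NormedSpace ℝ S] [FiniteDimensional ℝ S] in
/-- the Lipschitz estimate for the nonlinear term -/
lemma eLip {K ρ₀ B d : ℝ} (hr : 0 < r) (hK : 0 ≤ K) (hB : 0 ≤ B) (hBρ : B ≤ ρ₀) (hd : 0 ≤ d)
    {N : S → S → S}
    (hN : ∀ x y x' y' : S, ‖x‖ ≤ ρ₀ → ‖y‖ ≤ ρ₀ → ‖x'‖ ≤ ρ₀ → ‖y'‖ ≤ ρ₀ →
      ‖N x y - N x' y'‖ ≤ K * (‖x‖ + ‖y‖ + ‖x'‖ + ‖y'‖) * (‖x - x'‖ + ‖y - y'‖))
    {θ θ' : ℕ → S} (h : ∀ m : ℕ, ‖θ m‖ ≤ B * Real.exp (-(r * m)))
    (h' : ∀ m : ℕ, ‖θ' m‖ ≤ B * Real.exp (-(r * m)))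
    (hd' : ∀ m : ℕ, ‖θ m - θ' m‖ ≤ d * Real.exp (-(r * m))) (m : ℕ) :
    ‖N (θ m) (θ (m + 1)) - N (θ' m) (θ' (m + 1))‖ ≤
      8 * K * B * d * Real.exp (-(2 * r * m)) := by
  have hexp1 : ∀ m : ℕ, Real.exp (-(r * m)) ≤ 1 := by
    intro m
    rw [Real.exp_le_one_iff]
    have : 0 ≤ r * m := mul_nonneg hr.le (Nat.cast_nonneg _)
    linarith
  have hρ : ∀ (t : ℕ → S), (∀ m : ℕ, ‖t m‖ ≤ B * Real.exp (-(r * m))) → ∀ m, ‖t m‖ ≤ ρ₀ := by
    intro t ht m
    refine (ht m).trans (le_trans ?_ hBρ)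
    exact mul_le_of_le_one_right hB (hexp1 m)
  have hstep : Real.exp (-(r * ((m + 1 : ℕ) : ℝ))) ≤ Real.exp (-(r * m)) := by
    apply Real.exp_le_exp.2
    push_cast
    nlinarith
  set x : ℝ := Real.exp (-(r * m)) with hx
  have hx0 : 0 < x := Real.exp_pos _
  have e2 : Real.exp (-(2 * r * m)) = x * x := by
    rw [hx, ← Real.exp_add]
    congr 1
    ring
  have a1 := h m
  have a2 : ‖θ (m + 1)‖ ≤ B * x := (h (m + 1)).trans (mul_le_mul_of_nonneg_left hstep hB)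
  have a3 := h' m
  have a4 : ‖θ' (m + 1)‖ ≤ B * x := (h' (m + 1)).trans (mul_le_mul_of_nonneg_left hstep hB)
  have a5 := hd' m
  have a6 : ‖θ (m + 1) - θ' (m + 1)‖ ≤ d * x :=
    (hd' (m + 1)).trans (mul_le_mul_of_nonneg_left hstep hd)
  have key := hN (θ m) (θ (m + 1)) (θ' m) (θ' (m + 1)) (hρ θ h m) (hρ θ h (m + 1)) (hρ θ' h' m)
    (hρ θ' h' (m + 1))
  refine key.trans ?_
  rw [e2]
  have b1 : ‖θ m‖ + ‖θ (m + 1)‖ + ‖θ' m‖ + ‖θ' (m + 1)‖ ≤ 4 * (B * x) := by linarith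
  have b2 : ‖θ m - θ' m‖ + ‖θ (m + 1) - θ' (m + 1)‖ ≤ 2 * (d * x) := by linarith
  calc K * (‖θ m‖ + ‖θ (m + 1)‖ + ‖θ' m‖ + ‖θ' (m + 1)‖) *
        (‖θ m - θ' m‖ + ‖θ (m + 1) - θ' (m + 1)‖)
      ≤ K * (4 * (B * x)) * (2 * (d * x)) :=
        mul_le_mul (mul_le_mul_of_nonneg_left b1 hK) b2 (by positivity) (by positivity)
    _ = 8 * K * B * d * (x * x) := by ring

/-- the iteration -/
noncomputable def th (T : S ≃L[ℝ] S) (P : S →L[ℝ] S) (N : S → S → S) (w : S) : ℕ → ℕ → S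
  | 0 => fun _ => 0
  | n + 1 => fun i => (⇑T.symm)^[i] w +
      G T P (fun m => N (th T P N w n m) (th T P N w n (m + 1))) i

end

end IUPe

open IUPe in
theorem pr_UPe : UPe := by
  intro S _ _ _ T r P hr hGap K ρ₀ hK hρ₀
  have : CompleteSpace S := FiniteDimensional.complete ℝ S
  obtain ⟨r₀, r₁, C₀, h⟩ := exists_cs hr hGap
  set c₁ : ℝ := C1 r r₀ r₁ C₀ with hc₁
  have hc₁0 : 0 < c₁ := C1_pos h
  have hC₀ : 0 < C₀ := by linarith [h.hC]
  refine ⟨2 * C₀ + 32 * c₁ * K * C₀ ^ 2, min (ρ₀ / (2 * C₀)) (1 / (32 * K * c₁ * C₀ + 1)),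
    by positivity, lt_min (by positivity) (by positivity), ?_⟩
  intro N hN0 hN w hPw hw
  set B : ℝ := 2 * C₀ * ‖w‖ with hB
  have hB0 : 0 ≤ B := by positivity
  have hBρ : B ≤ ρ₀ := by
    have := hw.trans (min_le_left _ _)
    rw [le_div_iff₀ (by positivity)] at this
    rw [hB]; linarith
  have hBs : 8 * K * c₁ * B ≤ 1 / 2 := by
    have h1 := hw.trans (min_le_right _ _)
    rw [le_div_iff₀ (by positivity)] at h1
    have h2 : 0 ≤ ‖w‖ := norm_nonneg w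
    rw [hB]
    nlinarith
  have hTw : ∀ i : ℕ, ‖(⇑T.symm)^[i] w‖ ≤ B / 2 * Real.exp (-(r * i)) := by
    intro i
    have h1 := h.lo i w
    rw [hPw, sub_zero] at h1
    refine h1.trans ?_
    have h2 : Real.exp (-(r₁ * i)) ≤ Real.exp (-(r * i)) := by
      apply Real.exp_le_exp.2
      have : 0 ≤ (r₁ - r) * i := mul_nonneg (by linarith [h.h1]) (Nat.cast_nonneg _)
      nlinarith
    calc C₀ * Real.exp (-(r₁ * i)) * ‖w‖ = C₀ * ‖w‖ * Real.exp (-(r₁ * i)) := by ring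
      _ ≤ C₀ * ‖w‖ * Real.exp (-(r * i)) := mul_le_mul_of_nonneg_left h2 (by positivity)
      _ = _ := by rw [hB]; ring
  -- the nonlinear term
  have hEn : ∀ θ : ℕ → S, (∀ m : ℕ, ‖θ m‖ ≤ B * Real.exp (-(r * m))) → ∀ m : ℕ,
      ‖N (θ m) (θ (m + 1))‖ ≤ 8 * K * B * B * Real.exp (-(2 * r * m)) := by
    intro θ hθ m
    have := eLip (θ := θ) (θ' := fun _ => 0) hr hK hB0 hBρ hB0 hN hθ
      (fun m => by rw [norm_zero]; positivity) (fun m => by rw [sub_zero]; exact hθ m) m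
    rwa [hN0, sub_zero] at this
  have hI : ∀ n i : ℕ, ‖th T P N w n i‖ ≤ B * Real.exp (-(r * i)) := by
    intro n
    induction n with
    | zero => intro i; show ‖(0 : S)‖ ≤ _; rw [norm_zero]; positivity
    | succ n ih =>
      intro i
      show ‖(⇑T.symm)^[i] w + G T P (fun m => N (th T P N w n m) (th T P N w n (m + 1))) i‖ ≤ _
      have h1 := G_le h (by positivity : 0 ≤ 8 * K * B * B) (hEn _ ih) i
      rw [← hc₁] at h1
      refine (norm_add_le _ _).trans ((add_le_add (hTw i) h1).trans ?_)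
      have h2 : c₁ * (8 * K * B * B) ≤ B / 2 := by
        calc c₁ * (8 * K * B * B) = (8 * K * c₁ * B) * B := by ring
          _ ≤ 1 / 2 * B := mul_le_mul_of_nonneg_right hBs hB0
          _ = B / 2 := by ring
      have h3 := mul_le_mul_of_nonneg_right h2 (Real.exp_pos (-(r * (i : ℝ)))).le
      linarith
  have hII : ∀ n i : ℕ, ‖th T P N w (n + 1) i - th T P N w n i‖ ≤
      B * (1 / 2) ^ n * Real.exp (-(r * i)) := by
    intro n
    induction n with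
    | zero =>
      intro i
      have h1 := hI 1 i
      show ‖th T P N w 1 i - 0‖ ≤ _
      rw [sub_zero, pow_zero, mul_one]
      exact h1
    | succ n ih =>
      intro i
      have e1 : th T P N w (n + 1 + 1) i - th T P N w (n + 1) i =
          G T P (fun m => N (th T P N w (n + 1) m) (th T P N w (n + 1) (m + 1)) -
            N (th T P N w n m) (th T P N w n (m + 1))) i := by
        rw [← G_sub h (hEn _ (hI (n + 1))) (hEn _ (hI n)) i]
        show (⇑T.symm)^[i] w + G T P (fun m => N (th T P N w (n + 1) m)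
          (th T P N w (n + 1) (m + 1))) i - ((⇑T.symm)^[i] w +
          G T P (fun m => N (th T P N w n m) (th T P N w n (m + 1))) i) = _
        abel
      rw [e1]
      have h1 := G_le h (by positivity : 0 ≤ 8 * K * B * (B * (1 / 2) ^ n))
        (eLip hr hK hB0 hBρ (by positivity : 0 ≤ B * (1 / 2 : ℝ) ^ n) hN (hI (n + 1)) (hI n) ih) i
      rw [← hc₁] at h1
      refine h1.trans (mul_le_mul_of_nonneg_right ?_ (Real.exp_pos _).le)
      calc c₁ * (8 * K * B * (B * (1 / 2) ^ n)) = (8 * K * c₁ * B) * (B * (1 / 2) ^ n) := by ring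
        _ ≤ 1 / 2 * (B * (1 / 2) ^ n) := mul_le_mul_of_nonneg_right hBs (by positivity)
        _ = B * (1 / 2) ^ (n + 1) := by ring
  have hcau : ∀ i : ℕ, CauchySeq fun n => th T P N w n i := by
    intro i
    refine cauchySeq_of_le_geometric (1 / 2) (B * Real.exp (-(r * i))) (by norm_num) fun n => ?_
    rw [dist_comm, dist_eq_norm]
    refine (hII n i).trans (le_of_eq ?_)
    ring
  choose θ hθ using fun i => cauchySeq_tendsto_of_complete (hcau i)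
  have hθB : ∀ i : ℕ, ‖θ i‖ ≤ B * Real.exp (-(r * i)) := fun i =>
    le_of_tendsto (hθ i).norm (Eventually.of_forall fun n => hI n i)
  have hdist : ∀ n i : ℕ, ‖th T P N w n i - θ i‖ ≤
      2 * B * (1 / 2) ^ n * Real.exp (-(r * i)) := by
    intro n i
    have := dist_le_of_le_geometric_of_tendsto (1 / 2) (B * Real.exp (-(r * i)))
      (by norm_num) (fun n => by
        rw [dist_comm, dist_eq_norm]
        refine (hII n i).trans (le_of_eq ?_)
        ring) (hθ i) n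
    rw [dist_eq_norm] at this
    refine this.trans (le_of_eq ?_)
    ring
  refine ⟨θ, fun i => ?_, fun i => ?_, ?_⟩
  · -- the recurrence
    have hrec : ∀ n : ℕ, th T P N w (n + 1) (i + 1) =
        T.symm (th T P N w (n + 1) i) + N (th T P N w n i) (th T P N w n (i + 1)) := by
      intro n
      show (⇑T.symm)^[i + 1] w + G T P (fun m => N (th T P N w n m) (th T P N w n (m + 1)))
        (i + 1) = T.symm ((⇑T.symm)^[i] w +
          G T P (fun m => N (th T P N w n m) (th T P N w n (m + 1))) i) + _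
      rw [G_rec h (hEn _ (hI n)) i, map_add, Function.iterate_succ_apply']
      abel
    have hNlim : Tendsto (fun n => N (th T P N w n i) (th T P N w n (i + 1))) atTop
        (𝓝 (N (θ i) (θ (i + 1)))) := by
      rw [tendsto_iff_norm_sub_tendsto_zero]
      refine squeeze_zero (fun n => norm_nonneg _) (fun n => eLip hr hK hB0 hBρ
        (by positivity : 0 ≤ 2 * B * (1 / 2 : ℝ) ^ n) hN (hI n) hθB (hdist n) i) ?_
      have hp : Tendsto (fun n : ℕ => (1 / 2 : ℝ) ^ n) atTop (𝓝 0) :=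
        tendsto_pow_atTop_nhds_zero_of_lt_one (by norm_num) (by norm_num)
      have := hp.const_mul (8 * K * B * (2 * B) * Real.exp (-(2 * r * i)))
      rw [mul_zero] at this
      refine this.congr fun n => ?_
      ring
    have hL := (hθ (i + 1)).comp (tendsto_add_atTop_nat 1)
    have hR := ((T.symm.continuous.tendsto (θ i)).comp ((hθ i).comp
      (tendsto_add_atTop_nat 1))).add hNlim
    refine tendsto_nhds_unique hL (hR.congr fun n => ?_)
    exact (hrec n).symm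
  · refine (hθB i).trans (mul_le_mul_of_nonneg_right ?_ (Real.exp_pos _).le)
    rw [hB]
    refine mul_le_mul_of_nonneg_right ?_ (norm_nonneg _)
    have : 0 ≤ 32 * c₁ * K * C₀ ^ 2 := by positivity
    linarith
  · have hlim : Tendsto (fun n => ‖th T P N w (n + 1) 0 - w‖) atTop (𝓝 ‖θ 0 - w‖) :=
      (((hθ 0).comp (tendsto_add_atTop_nat 1)).sub_const w).norm
    refine le_of_tendsto hlim (Eventually.of_forall fun n => ?_)
    have e1 : th T P N w (n + 1) 0 - w =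
        G T P (fun m => N (th T P N w n m) (th T P N w n (m + 1))) 0 := by
      show (⇑T.symm)^[0] w + G T P (fun m => N (th T P N w n m) (th T P N w n (m + 1))) 0 - w = _
      rw [Function.iterate_zero_apply]
      abel
    rw [e1]
    have h1 := G_le h (by positivity : 0 ≤ 8 * K * B * B) (hEn _ (hI n)) 0
    rw [← hc₁] at h1
    refine h1.trans ?_
    have h2 : Real.exp (-(r * ((0 : ℕ) : ℝ))) = 1 := by simp
    rw [h2, mul_one, hB]
    have h3 : 0 ≤ 2 * C₀ * ‖w‖ ^ 2 := by positivity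
    calc c₁ * (8 * K * (2 * C₀ * ‖w‖) * (2 * C₀ * ‖w‖)) = 32 * c₁ * K * C₀ ^ 2 * ‖w‖ ^ 2 := by ring
      _ ≤ (2 * C₀ + 32 * c₁ * K * C₀ ^ 2) * ‖w‖ ^ 2 := by
          rw [add_mul]
          linarith

end Pool.Agent.LX
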