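import Pool.Agent.Work.MP_25cd3b_gt.LX.StmtsU

set_option autoImplicit false

/-!
# Item UQf of block LX: the coordinate of a forward chain
-/

open Set Filter Topology
open scoped ContDiff

namespace Pool.Agent.LX

namespace IUQf

variable {V : Type} [NormedAddCommGroup V] [NormedSpace ℝ V]

omit [NormedSpace ℝ V] in
theorem norm_sw (w : V × V) : ‖w.swap‖ = ‖w‖ := by
  rw [Prod.norm_def, Prod.norm_def, Prod.fst_swap, Prod.snd_swap, max_comm]

omit [NormedSpace ℝ V] in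
theorem sw_sub (a b : V × V) : (a - b).swap = a.swap - b.swap := rfl

/-- conjugation with the swap -/
noncomputable def cs (P : (V × V) →L[ℝ] (V × V)) : (V × V) →L[ℝ] (V × V) :=
  ((ContinuousLinearEquiv.prodComm ℝ V V : (V × V) ≃L[ℝ] (V × V)) : (V × V) →L[ℝ] (V × V)).comp
    (P.comp ((ContinuousLinearEquiv.prodComm ℝ V V : (V × V) ≃L[ℝ] (V × V)) :
      (V × V) →L[ℝ] (V × V)))

theorem cs_apply (P : (V × V) →L[ℝ] (V × V)) (w : V × V) : cs P w = (P w.swap).swap := rfl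

omit [NormedAddCommGroup V] [NormedSpace ℝ V] in
theorem it (f g : V × V → V × V) (h : ∀ w, g w = (f w.swap).swap) (k : ℕ) (w : V × V) :
    g^[k] w = (f^[k] w.swap).swap := by
  induction k generalizing w with
  | zero => rw [Function.iterate_zero, Function.iterate_zero, id, id, Prod.swap_swap]
  | succ k ih =>
    rw [Function.iterate_succ_apply, Function.iterate_succ_apply, ih, h, Prod.swap_swap]

theorem gap (T T' : (V × V) ≃L[ℝ] (V × V)) (h : ∀ w, T' w = (T.symm w.swap).swap) (t : ℝ)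
    (P : (V × V) →L[ℝ] (V × V)) (hs : ∀ w, T'.symm w = (T w.swap).swap)
    (hP : Gap T.symm t P) : Gap T' t (cs P) := by
  obtain ⟨hi, hc, ⟨r₀, C, hr, hup⟩, ⟨r₁, D, hr1, hlo⟩⟩ := hP
  refine ⟨?_, ?_, ⟨r₀, C, hr, ?_⟩, ⟨r₁, D, hr1, ?_⟩⟩
  · intro w
    rw [cs_apply, cs_apply, Prod.swap_swap, hi]
  · intro w
    rw [cs_apply, cs_apply, h, h, Prod.swap_swap, Prod.swap_swap, hc]
  · intro k w
    rw [it _ _ h, cs_apply, Prod.swap_swap, norm_sw, ← norm_sw w]
    exact hup k w.swap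
  · intro k w
    rw [it _ _ hs, cs_apply, sw_sub, Prod.swap_swap, norm_sw, ← norm_sw w]
    exact hlo k w.swap

end IUQf

open IUQf in
theorem pr_UQf (h1 : UQv) (h2 : URv) : UQf := by
  intro V _ _ _ lam K r₀ L L1 L2 T hCh hTws hTr r t P hr ht hP
  obtain ⟨L1', L2', T', hCh', hTws', hTr', hT', hFB⟩ := h2 V lam K r₀ L L1 L2 T hCh hTws hTr
  have hs : ∀ w, T'.symm w = (T w.swap).swap := by
    intro w
    rw [ContinuousLinearEquiv.symm_apply_eq, hT', Prod.swap_swap, ContinuousLinearEquiv.symm_apply_apply,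
      Prod.swap_swap]
  obtain ⟨C, ρ, hρ, hQ⟩ := h1 V lam K r₀ (fun p => L p.swap) L1' L2' T' hCh' hTws' hTr' r t (cs P) hr ht
    (gap T T' hT' t P hs hP)
  refine ⟨C, ρ, hρ, ?_⟩
  intro p hp A hA hpA
  obtain ⟨Q, hQ1, ⟨D, hD⟩, hQ3⟩ := hQ p ((hFB ρ p).1 hp) A hA hpA
  refine ⟨Q.swap, ?_, ⟨D, ?_⟩, ?_⟩
  · have h3 := congrArg Prod.swap hQ1
    rw [cs_apply, Prod.swap_swap] at h3
    exact h3
  · intro j
    have h3 := hD j
    rw [it _ _ hs, ← norm_sw, sw_sub, Prod.swap_swap] at h3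
    exact h3
  · rw [cs_apply, ← norm_sw, sw_sub, Prod.swap_swap] at hQ3
    exact hQ3

end Pool.Agent.LX
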