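import Pool.Agent.Work.MP_25cd3b_gt.LX.StmtsU

set_option autoImplicit false

/-!
# MP_25cd3b_gt, block LX: item UQv (the coordinate of a backward chain)
-/

open Set Filter Topology
open scoped ContDiff

namespace Pool.Agent.LX

theorem pr_UQv (h1 : ZTh) (h2 : UAs) : UQv := by
  intro V _ _ _ lam K r₀ L L1 L2 T hCh hTws hTr r t P hr ht hG
  obtain ⟨C2, ρ2, hρ2, hT⟩ := h1 V lam K r₀ L L1 L2 T hCh hTws hTr
  obtain ⟨C3, hC3, hA⟩ := h2 (V × V) T r t P hr ht hG
  refine ⟨C3 * (9 * |C2|), ρ2, hρ2, fun v hv A hA0 hdec => ?_⟩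
  have hexp : ∀ i : ℕ, ∀ m : ℕ, Real.exp (-(r * ((i + m : ℕ) : ℝ))) ≤ Real.exp (-(r * i)) := by
    intro i m
    apply Real.exp_le_exp.mpr
    push_cast
    nlinarith [mul_nonneg hr.le (Nat.cast_nonneg (α := ℝ) m)]
  have hdec' : ∀ i m : ℕ, ‖v (i + m)‖ ≤ A * Real.exp (-(r * i)) := by
    intro i m
    exact (hdec (i + m)).trans (mul_le_mul_of_nonneg_left (hexp i m) hA0)
  obtain ⟨Q, hPQ, hQ1, hQ3⟩ := hA A (9 * |C2| * A ^ 2) (fun i => (v (i + 1), v i)) hA0
    (by positivity)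
    (by
      intro i
      rw [Prod.norm_mk]
      exact max_le (hdec' i 1) (hdec' i 0))
    (by
      intro i
      have e2 := hT v hv i
      have e3 : (‖v i‖ + ‖v (i + 1)‖ + ‖v (i + 2)‖) ^ 2 ≤
          (3 * (A * Real.exp (-(r * i)))) ^ 2 := by
        apply pow_le_pow_left₀ (by positivity)
        have a0 := hdec' i 0
        have a1 := hdec' i 1
        have a2 := hdec' i 2
        simp only [add_zero] at a0
        linarith
      have e4 : Real.exp (-(2 * r * i)) = Real.exp (-(r * i)) ^ 2 := by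
        rw [← Real.exp_nat_mul]
        congr 1
        push_cast
        ring
      refine e2.trans ?_
      calc C2 * (‖v i‖ + ‖v (i + 1)‖ + ‖v (i + 2)‖) ^ 2
          ≤ |C2| * (3 * (A * Real.exp (-(r * i)))) ^ 2 :=
            mul_le_mul (le_abs_self _) e3 (by positivity) (abs_nonneg _)
        _ = 9 * |C2| * A ^ 2 * Real.exp (-(2 * r * i)) := by
            rw [e4]; ring)
  simp only [zero_add] at hQ1
  refine ⟨Q, hPQ, ⟨C3 * (A + 9 * |C2| * A ^ 2), hQ3⟩, ?_⟩
  calc ‖Q - P (v 1, v 0)‖ ≤ C3 * (9 * |C2| * A ^ 2) := hQ1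
    _ = C3 * (9 * |C2|) * A ^ 2 := by ring

end Pool.Agent.LX
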