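import Pool.Agent.Work.MP_25cd3b_gt.LX.StmtsU
import Pool.Agent.Work.MP_25cd3b_gt.LX.I_ZRe

set_option autoImplicit false

/-!
# MP_25cd3b_gt, block LX, item URe: uniqueness of realisations, second version
-/

open Set Filter Topology
open scoped ContDiff

namespace Pool.Agent.LX

namespace IURe

/-- the bound for one coordinate -/
theorem coord {S X : Type} [NormedAddCommGroup S] [NormedSpace ℝ S] [NormedAddCommGroup X]
    (T : S ≃L[ℝ] S) (f : S →L[ℝ] ℝ) (c t₀ : ℝ)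
    (hc : ∀ (k : ℕ) (w : S), ‖(⇑T)^[k] w‖ ≤ c * Real.exp (t₀ * k) * ‖w‖) (j : ℕ) (w : S) (x : X)
    (hx : ‖w‖ ≤ ‖x‖) : |f ((⇑T)^[j] w)| ≤ ‖f‖ * |c| * Real.exp (t₀ * j) * ‖x‖ := by
  have a1 := f.le_opNorm ((⇑T)^[j] w)
  rw [Real.norm_eq_abs] at a1
  have a2 : ‖(⇑T)^[j] w‖ ≤ |c| * Real.exp (t₀ * j) * ‖x‖ := by
    refine (hc j w).trans ?_
    have a3 : c * Real.exp (t₀ * j) ≤ |c| * Real.exp (t₀ * j) :=
      mul_le_mul_of_nonneg_right (le_abs_self _) (Real.exp_pos _).le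
    exact mul_le_mul a3 hx (norm_nonneg _) (by positivity)
  have a4 := mul_le_mul_of_nonneg_left a2 (norm_nonneg f)
  calc |f ((⇑T)^[j] w)| ≤ ‖f‖ * ‖(⇑T)^[j] w‖ := a1
    _ ≤ ‖f‖ * (|c| * Real.exp (t₀ * j) * ‖x‖) := a4
    _ = ‖f‖ * |c| * Real.exp (t₀ * j) * ‖x‖ := by ring

end IURe

open IZRe IURe

theorem pr_URe : URe := by
  intro S₁ S₂ _ _ _ _ _ _ T₁ T₂ t₀ t ht hb₁ hb₂ 𝒜 ℬ f₁ f₂ Q₁ Q₂ hsp₁ hsp₂ hse₁ hse₂ hest
  obtain ⟨c₁, hc₁⟩ := hb₁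
  obtain ⟨c₂, hc₂⟩ := hb₂
  -- (1) the two realisations have the same coefficients
  have hzero : ∀ (α : 𝒜) (β : ℬ) (i : ℕ),
      f₁ α ((⇑T₁.symm)^[i] (Q₁ β)) = f₂ α ((⇑T₂.symm)^[i] (Q₂ β)) := by
    intro α β i
    obtain ⟨C, k₀, hC⟩ := hest α β
    let φ : S₁ × S₂ →L[ℝ] ℝ := (f₁ α).comp (ContinuousLinearMap.fst ℝ S₁ S₂) -
      (f₂ α).comp (ContinuousLinearMap.snd ℝ S₁ S₂)
    have hφ : ∀ (x : S₁) (y : S₂), φ (x, y) = f₁ α x - f₂ α y := fun x y => rfl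
    have hk := key (T₁.prodCongr T₂) φ ((⇑T₁.symm)^[i] (Q₁ β), (⇑T₂.symm)^[i] (Q₂ β))
      t₀ t (‖f₁ α‖ * |c₁| + ‖f₂ α‖ * |c₂|) (C * Real.exp (-(t * i))) k₀
      ht (by positivity) ?_ ?_
    · rw [hφ] at hk
      linarith
    · rintro j ⟨x, y⟩
      rw [prod_iter, hφ]
      refine (abs_sub _ _).trans ?_
      rw [add_mul, add_mul]
      exact add_le_add (coord T₁ (f₁ α) c₁ t₀ hc₁ j x (x, y) (norm_fst_le (x, y)))
        (coord T₂ (f₂ α) c₂ t₀ hc₂ j y (x, y) (norm_snd_le (x, y)))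
    · intro k hk
      rw [prod_symm_iter, hφ, ← Function.iterate_add_apply, ← Function.iterate_add_apply]
      refine (hC (k + i) (by omega)).trans (le_of_eq ?_)
      rw [mul_assoc, ← Real.exp_add]
      push_cast
      congr 2
      ring
  -- (2) the graph
  obtain ⟨𝒢, h𝒢⟩ : ∃ 𝒢 : Submodule ℝ (S₁ × S₂),
    𝒢 = Submodule.span ℝ (Set.range fun β : ℬ => (Q₁ β, Q₂ β)) := ⟨_, rfl⟩
  have hQ : ∀ β, (Q₁ β, Q₂ β) ∈ 𝒢 := fun β => by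
    rw [h𝒢]; exact Submodule.subset_span ⟨β, rfl⟩
  have hg : ∀ z ∈ 𝒢, ∀ α, f₁ α z.1 = f₂ α z.2 ∧
      f₁ α (T₁.symm z.1) = f₂ α (T₂.symm z.2) := by
    intro z hz
    rw [h𝒢] at hz
    induction hz using Submodule.span_induction with
    | mem x hx =>
      obtain ⟨β, rfl⟩ := hx
      exact fun α => ⟨hzero α β 0, hzero α β 1⟩
    | zero => simp
    | add x y _ _ hx hy =>
      intro α
      rw [Prod.fst_add, Prod.snd_add, map_add, map_add, map_add, map_add, map_add, map_add,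
        (hx α).1, (hy α).1, (hx α).2, (hy α).2]
      exact ⟨rfl, rfl⟩
    | smul a x _ hx =>
      intro α
      rw [Prod.smul_fst, Prod.smul_snd, map_smul, map_smul, map_smul, map_smul, map_smul,
        map_smul, (hx α).1, (hx α).2]
      exact ⟨rfl, rfl⟩
  have hin₁ : ∀ z ∈ 𝒢, z.1 = 0 → z = 0 := by
    intro z hz h0
    have c := hg z hz
    have : z.2 = 0 := hse₂ z.2 (fun α => by rw [← (c α).1, h0, map_zero])
    exact Prod.ext h0 this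
  have hin₂ : ∀ z ∈ 𝒢, z.2 = 0 → z = 0 := by
    intro z hz h0
    have c := hg z hz
    have : z.1 = 0 := hse₁ z.1 (fun α => by rw [(c α).1, h0, map_zero])
    exact Prod.ext this h0
  have hex₁ : ∀ w, ∃ y, (w, y) ∈ 𝒢 := by
    intro w
    have h1 := hsp₁ w
    have h2 : Submodule.span ℝ (range Q₁) ≤ 𝒢.map (LinearMap.fst ℝ S₁ S₂) := by
      refine Submodule.span_le.2 ?_
      rintro _ ⟨β, rfl⟩
      exact ⟨(Q₁ β, Q₂ β), hQ β, rfl⟩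
    obtain ⟨⟨x, y⟩, hz, e⟩ := h2 h1
    have e' : x = w := e
    subst e'
    exact ⟨y, hz⟩
  have hex₂ : ∀ w, ∃ x, (x, w) ∈ 𝒢 := by
    intro w
    have h1 := hsp₂ w
    have h2 : Submodule.span ℝ (range Q₂) ≤ 𝒢.map (LinearMap.snd ℝ S₁ S₂) := by
      refine Submodule.span_le.2 ?_
      rintro _ ⟨β, rfl⟩
      exact ⟨(Q₁ β, Q₂ β), hQ β, rfl⟩
    obtain ⟨⟨x, y⟩, hz, e⟩ := h2 h1
    have e' : y = w := e
    subst e'
    exact ⟨x, hz⟩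
  let p₁ : 𝒢 →ₗ[ℝ] S₁ := (LinearMap.fst ℝ S₁ S₂).comp 𝒢.subtype
  let p₂ : 𝒢 →ₗ[ℝ] S₂ := (LinearMap.snd ℝ S₁ S₂).comp 𝒢.subtype
  have hb₁' : Function.Bijective p₁ := by
    refine ⟨?_, fun w => ?_⟩
    · rw [← LinearMap.ker_eq_bot, LinearMap.ker_eq_bot']
      intro z hz
      exact Subtype.ext (hin₁ z.1 z.2 hz)
    · obtain ⟨y, hy⟩ := hex₁ w
      exact ⟨⟨(w, y), hy⟩, rfl⟩
  have hb₂' : Function.Bijective p₂ := by
    refine ⟨?_, fun w => ?_⟩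
    · rw [← LinearMap.ker_eq_bot, LinearMap.ker_eq_bot']
      intro z hz
      exact Subtype.ext (hin₂ z.1 z.2 hz)
    · obtain ⟨x, hx⟩ := hex₂ w
      exact ⟨⟨(x, w), hx⟩, rfl⟩
  let e₁ : 𝒢 ≃ₗ[ℝ] S₁ := LinearEquiv.ofBijective p₁ hb₁'
  let e₂ : 𝒢 ≃ₗ[ℝ] S₂ := LinearEquiv.ofBijective p₂ hb₂'
  let Ψ : S₁ ≃L[ℝ] S₂ := (e₁.symm.trans e₂).toContinuousLinearEquiv
  have hΨ : ∀ x y, (x, y) ∈ 𝒢 → Ψ x = y := by
    intro x y hxy
    have h1 : e₁ ⟨(x, y), hxy⟩ = x := rfl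
    have h2 : e₁.symm x = ⟨(x, y), hxy⟩ := by
      rw [LinearEquiv.symm_apply_eq]
      exact h1.symm
    show e₂ (e₁.symm x) = y
    rw [h2]
    rfl
  refine ⟨Ψ, ?_, fun β => hΨ _ _ (hQ β), ?_⟩
  · intro w
    obtain ⟨y, hy⟩ := hex₁ w
    obtain ⟨y₁, hy₁⟩ := hex₁ (T₁ w)
    rw [hΨ w y hy, hΨ _ y₁ hy₁]
    have c := hg _ hy
    have d := hg _ hy₁
    have h0 : T₂.symm y₁ - y = 0 := by
      refine hse₂ _ ?_
      intro α
      have d1 : f₁ α (T₁.symm (T₁ w)) = f₂ α (T₂.symm y₁) := (d α).2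
      have c1 : f₁ α w = f₂ α y := (c α).1
      rw [T₁.symm_apply_apply] at d1
      rw [map_sub, ← d1, c1, sub_self]
    have h3 : T₂.symm y₁ = y := sub_eq_zero.1 h0
    rw [← h3, T₂.apply_symm_apply]
  · intro α w
    obtain ⟨y, hy⟩ := hex₁ w
    rw [hΨ w y hy]
    exact (hg _ hy α).1.symm

end Pool.Agent.LX
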