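import Pool.Agent.Work.MP_25cd3b_gt.LX.StmtsU

set_option autoImplicit false

/-!
# MP_25cd3b_gt, block LX, item URs: residuals of the cut chains
-/

open Set Filter Topology
open scoped ContDiff

namespace Pool.Agent.LX

namespace IURs

variable {V : Type} [NormedAddCommGroup V] [NormedSpace ℝ V]

theorem lip1 {lam K r₀ : ℝ} {L : V × V → ℝ} {L1 : V × V → V × V →L[ℝ] ℝ} {L2 : V × V → Bf V}
    (h : Ch lam K r₀ L L1 L2) {a b : V × V} (ha : ‖a‖ < r₀) (hb : ‖b‖ < r₀) :
    ‖L1 a - L1 b‖ ≤ (‖L2 0‖ + K * r₀) * ‖a - b‖ := by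
  have hconv : Convex ℝ (Metric.ball (0 : V × V) r₀) := convex_ball _ _
  refine hconv.norm_image_sub_le_of_norm_hasFDerivWithin_le (f := L1) (f' := L2)
    (fun x hx => (h.d2 x (by simpa using hx)).hasFDerivWithinAt) (fun x hx => ?_)
    (by simpa using hb) (by simpa using ha)
  have hx' : ‖x‖ < r₀ := by simpa using hx
  have h1 := h.lip x hx'
  have h2 : ‖L2 x‖ ≤ ‖L2 0‖ + ‖L2 x - L2 0‖ := by
    have := norm_sub_norm_le (L2 x) (L2 0)
    linarith
  have h3 : K * ‖x‖ ≤ K * r₀ := mul_le_mul_of_nonneg_left hx'.le h.K_nn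
  linarith

theorem add1 {lam K r₀ K' r' : ℝ} {L : V × V → ℝ} {L1 : V × V → V × V →L[ℝ] ℝ}
    {L2 : V × V → Bf V} (h : Ch lam K r₀ L L1 L2) (h4 : Ch4 K' r' L L1 L2) {ρ : ℝ}
    (h1 : 2 * ρ < r₀) (h2 : 2 * ρ < r') {a b : V × V} (ha : ‖a‖ ≤ ρ) (hb : ‖b‖ ≤ ρ) :
    ‖L1 (a + b) - L1 a - L1 b‖ ≤ K' * ‖a‖ * ‖b‖ := by
  have hρ : 0 ≤ ρ := (norm_nonneg a).trans ha
  have hconv : Convex ℝ (Metric.closedBall (0 : V × V) ρ) := convex_closedBall _ _
  have hder : ∀ x ∈ Metric.closedBall (0 : V × V) ρ,
      HasFDerivWithinAt (fun x => L1 (x + b) - L1 x) (L2 (x + b) - L2 x)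
        (Metric.closedBall (0 : V × V) ρ) x := by
    intro x hx
    have hx' : ‖x‖ ≤ ρ := by simpa using hx
    have hxb : ‖x + b‖ < r₀ := (norm_add_le x b).trans_lt (by linarith)
    have e1 : HasFDerivAt (fun x => L1 (x + b)) (L2 (x + b)) x := by
      have := (h.d2 (x + b) hxb).comp x ((hasFDerivAt_id x).add_const b)
      exact this
    exact (e1.sub (h.d2 x (by linarith))).hasFDerivWithinAt
  have hbd : ∀ x ∈ Metric.closedBall (0 : V × V) ρ, ‖L2 (x + b) - L2 x‖ ≤ K' * ‖b‖ := by
    intro x hx
    have hx' : ‖x‖ ≤ ρ := by simpa using hx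
    have hxb : ‖x + b‖ < r' := (norm_add_le x b).trans_lt (by linarith)
    have := h4.lip2 (x + b) x hxb (by linarith)
    rwa [add_sub_cancel_left] at this
  have key := hconv.norm_image_sub_le_of_norm_hasFDerivWithin_le hder hbd
    (x := 0) (y := a) (by simpa using hρ) (by simpa using ha)
  simp only [zero_add, h.crit, sub_zero] at key
  calc ‖L1 (a + b) - L1 a - L1 b‖ ≤ K' * ‖b‖ * ‖a‖ := key
    _ = K' * ‖a‖ * ‖b‖ := by ring

omit [NormedSpace ℝ V] in
theorem norm_inl (w : V) : ‖((w, 0) : V × V)‖ = ‖w‖ := by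
  simp [Prod.norm_def]

omit [NormedSpace ℝ V] in
theorem norm_inr (w : V) : ‖((0, w) : V × V)‖ = ‖w‖ := by
  simp [Prod.norm_def]

theorem app (f : V × V →L[ℝ] ℝ) {M : ℝ} (h : ‖f‖ ≤ M) (x : V × V) {n : ℝ} (hx : ‖x‖ = n) :
    |f x| ≤ M * n := by
  rw [← Real.norm_eq_abs, ← hx]
  exact (f.le_opNorm x).trans (mul_le_mul_of_nonneg_right h (norm_nonneg _))

end IURs

open IURs in
theorem pr_URs : URs := by
  intro V _ _ lam K r₀ K' r' L L1 L2 hC h4
  refine ⟨min r₀ r' / 4, by have := lt_min hC.r_pos h4.r_pos; positivity, ?_⟩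
  intro r p v hr hp hv hRp hRv
  set ρ := min r₀ r' / 4 with hρdef
  have hmin : 0 < min r₀ r' := lt_min hC.r_pos h4.r_pos
  have hρ : 0 < ρ := by positivity
  have hρ0 : 2 * ρ < r₀ := by
    have := min_le_left r₀ r'
    rw [hρdef]
    linarith
  have hρ1 : 2 * ρ < r' := by
    have := min_le_right r₀ r'
    rw [hρdef]
    linarith
  obtain ⟨A, hA⟩ := hRp
  obtain ⟨B, hB⟩ := hRv
  have hA0 : 0 ≤ A := by
    have := (norm_nonneg _).trans (hA 0)
    simpa using this
  have hB0 : 0 ≤ B := by
    have := (norm_nonneg _).trans (hB 0)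
    simpa using this
  set M := ‖L2 0‖ + K * r₀ with hM
  have hM0 : 0 ≤ M := by
    have := mul_nonneg hC.K_nn hC.r_pos.le
    positivity
  have hK' := h4.K_nn
  -- the cut chains
  have hAs : ∀ k j, ‖CA k p j‖ ≤ ρ := by
    intro k j
    unfold CA
    split_ifs
    · exact hp.small j
    · rw [norm_zero]
      exact hρ.le
  have hBs : ∀ k j, ‖CB k v j‖ ≤ ρ := by
    intro k j
    unfold CB
    split_ifs
    · exact hv.small _
    · rw [norm_zero]
      exact hρ.le
  have hAr : ∀ k j, ‖CA k p j‖ ≤ A * Real.exp (-(r * j)) := by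
    intro k j
    unfold CA
    split_ifs
    · exact hA j
    · rw [norm_zero]
      positivity
  have hBr : ∀ k j, j ≤ k → ‖CB k v j‖ ≤ B * Real.exp (-(r * (k - j))) := by
    intro k j hj
    unfold CB
    split_ifs
    · have := hB (k - j)
      rw [Nat.cast_sub hj] at this
      exact this
    · rw [norm_zero]
      positivity
  set C : ℝ := M * A + M * B + 2 * (K' * (A * B * Real.exp r)) with hCdef
  have hC0 : 0 ≤ C := by positivity
  have resA : ∀ k, Res L1 k (CA k p) (M * A * Real.exp (-(r * k))) := by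
    intro k j hj w
    have e0 : CA k p j = p j := by
      unfold CA
      rw [if_pos (by omega)]
    have e1 : CA k p (j + 1) = p (j + 1) := by
      unfold CA
      rw [if_pos hj]
    have hel := hp.el (j + 2) j (by omega) w
    rw [e0, e1]
    by_cases h2 : j + 2 < k
    · have e2 : CA k p (j + 2) = p (j + 2) := by
        unfold CA
        rw [if_pos h2]
      rw [e2, hel, abs_zero]
      positivity
    · have e2 : CA k p (j + 2) = 0 := by
        unfold CA
        rw [if_neg h2]
      have hk : k = j + 2 := by omega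
      rw [e2]
      have e3 : L1 (p j, p (j + 1)) (0, w) + L1 (p (j + 1), 0) (w, 0) =
          (L1 (p (j + 1), 0) - L1 (p (j + 1), p (j + 2))) (w, 0) := by
        rw [sub_apply]
        linarith
      rw [e3]
      refine app _ ?_ _ (norm_inl w)
      have n1 : ‖((p (j + 1), 0) : V × V)‖ < r₀ := by
        rw [norm_inl]
        have := hp.small (j + 1)
        linarith
      have n2 : ‖((p (j + 1), p (j + 2)) : V × V)‖ < r₀ := by
        rw [Prod.norm_def]
        have := hp.small (j + 1)
        have := hp.small (j + 2)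
        exact max_lt (by simp only; linarith) (by simp only; linarith)
      refine (lip1 hC n1 n2).trans ?_
      have e4 : ((p (j + 1), 0) : V × V) - (p (j + 1), p (j + 2)) = (0, -p (j + 2)) := by
        simp
      rw [e4, norm_inr, norm_neg, mul_assoc]
      refine mul_le_mul_of_nonneg_left ?_ hM0
      have := hA (j + 2)
      rw [hk]
      exact this
  have resB : ∀ k, Res L1 k (CB k v) (M * B * Real.exp (-(r * k))) := by
    intro k j hj w
    have e1 : CB k v (j + 1) = v (k - (j + 1)) := by
      unfold CB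
      rw [if_pos (by omega)]
    have e2 : CB k v (j + 2) = v (k - (j + 2)) := by
      unfold CB
      rw [if_pos (by omega)]
    have hel := hv.el k j hj w
    simp only at hel
    rw [e1, e2]
    by_cases h2 : 0 < j
    · have e0 : CB k v j = v (k - j) := by
        unfold CB
        rw [if_pos h2]
      rw [e0, hel, abs_zero]
      positivity
    · have e0 : CB k v j = 0 := by
        unfold CB
        rw [if_neg h2]
      have hj0 : j = 0 := by omega
      subst hj0
      rw [e0]
      simp only [Nat.sub_zero, zero_add] at hel ⊢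
      have e3 : L1 (0, v (k - 1)) (0, w) + L1 (v (k - 1), v (k - 2)) (w, 0) =
          (L1 (0, v (k - 1)) - L1 (v k, v (k - 1))) (0, w) := by
        rw [sub_apply]
        linarith
      rw [e3]
      refine app _ ?_ _ (norm_inr w)
      have n1 : ‖((0, v (k - 1)) : V × V)‖ < r₀ := by
        rw [norm_inr]
        have := hv.small (k - 1)
        linarith
      have n2 : ‖((v k, v (k - 1)) : V × V)‖ < r₀ := by
        rw [Prod.norm_def]
        have := hv.small k
        have := hv.small (k - 1)
        exact max_lt (by simp only; linarith) (by simp only; linarith)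
      refine (lip1 hC n1 n2).trans ?_
      have e4 : ((0, v (k - 1)) : V × V) - (v k, v (k - 1)) = (-v k, 0) := by
        simp
      rw [e4, norm_inl, norm_neg, mul_assoc]
      exact mul_le_mul_of_nonneg_left (hB k) hM0
  have resAB : ∀ k, Res L1 k (CA k p + CB k v) (C * Real.exp (-(r * k))) := by
    intro k j hj w
    have hE : ∀ i, i + 1 ≤ k → ∀ x : V × V, ‖x‖ = ‖w‖ →
        |L1 ((CA k p + CB k v) i, (CA k p + CB k v) (i + 1)) x -
          L1 (CA k p i, CA k p (i + 1)) x - L1 (CB k v i, CB k v (i + 1)) x| ≤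
        K' * (A * B * Real.exp r) * Real.exp (-(r * k)) * ‖w‖ := by
      intro i hi x hx
      have e5 : (((CA k p + CB k v) i, (CA k p + CB k v) (i + 1)) : V × V) =
          (CA k p i, CA k p (i + 1)) + (CB k v i, CB k v (i + 1)) := rfl
      rw [e5, ← sub_apply, ← sub_apply]
      refine app _ ?_ _ hx
      have na : ‖((CA k p i, CA k p (i + 1)) : V × V)‖ ≤ A * Real.exp (-(r * i)) := by
        rw [Prod.norm_def]
        refine max_le (hAr k i) ((hAr k (i + 1)).trans ?_)
        refine mul_le_mul_of_nonneg_left ?_ hA0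
        rw [Real.exp_le_exp]
        push_cast
        nlinarith
      have nb : ‖((CB k v i, CB k v (i + 1)) : V × V)‖ ≤
          B * (Real.exp r * Real.exp (-(r * (k - i)))) := by
        rw [Prod.norm_def]
        refine max_le ((hBr k i (by omega)).trans ?_) ((hBr k (i + 1) hi).trans ?_)
        · refine mul_le_mul_of_nonneg_left ?_ hB0
          rw [← Real.exp_add, Real.exp_le_exp]
          linarith
        · refine mul_le_mul_of_nonneg_left ?_ hB0
          rw [← Real.exp_add, Real.exp_le_exp]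
          push_cast
          nlinarith
      have sa : ‖((CA k p i, CA k p (i + 1)) : V × V)‖ ≤ ρ := by
        rw [Prod.norm_def]
        exact max_le (hAs k i) (hAs k (i + 1))
      have sb : ‖((CB k v i, CB k v (i + 1)) : V × V)‖ ≤ ρ := by
        rw [Prod.norm_def]
        exact max_le (hBs k i) (hBs k (i + 1))
      refine (add1 hC h4 hρ0 hρ1 sa sb).trans ?_
      calc K' * ‖((CA k p i, CA k p (i + 1)) : V × V)‖ * ‖((CB k v i, CB k v (i + 1)) : V × V)‖
          ≤ K' * (A * Real.exp (-(r * i))) * (B * (Real.exp r * Real.exp (-(r * (k - i))))) := by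
            gcongr
        _ = K' * (A * B * Real.exp r) * (Real.exp (-(r * i)) * Real.exp (-(r * (k - i)))) := by
            ring
        _ = K' * (A * B * Real.exp r) * Real.exp (-(r * k)) := by
            rw [← Real.exp_add]
            congr 2
            ring
    have h1 := hE j (by omega) (0, w) (norm_inr w)
    have h2 := hE (j + 1) (by omega) (w, 0) (norm_inl w)
    have h3 := resA k j hj w
    have h5 := resB k j hj w
    have hw : 0 ≤ ‖w‖ := norm_nonneg w
    rw [abs_le] at h1 h2 h3 h5 ⊢
    have hCe : C * Real.exp (-(r * k)) * ‖w‖ = M * A * Real.exp (-(r * k)) * ‖w‖ +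
        M * B * Real.exp (-(r * k)) * ‖w‖ +
        2 * (K' * (A * B * Real.exp r) * Real.exp (-(r * k)) * ‖w‖) := by
      rw [hCdef]
      ring
    rw [hCe]
    constructor <;> linarith [h1.1, h1.2, h2.1, h2.2, h3.1, h3.2, h5.1, h5.2]
  refine ⟨C, hC0, fun k _ => ⟨?_, ?_, resAB k⟩⟩
  · intro j hj w
    refine (resA k j hj w).trans ?_
    refine mul_le_mul_of_nonneg_right (mul_le_mul_of_nonneg_right ?_ (Real.exp_pos _).le)
      (norm_nonneg w)
    have t1 : 0 ≤ M * B := by positivity
    have t2 : 0 ≤ 2 * (K' * (A * B * Real.exp r)) := by positivity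
    rw [hCdef]
    linarith
  · intro j hj w
    refine (resB k j hj w).trans ?_
    refine mul_le_mul_of_nonneg_right (mul_le_mul_of_nonneg_right ?_ (Real.exp_pos _).le)
      (norm_nonneg w)
    have t1 : 0 ≤ M * A := by positivity
    have t2 : 0 ≤ 2 * (K' * (A * B * Real.exp r)) := by positivity
    rw [hCdef]
    linarith

end Pool.Agent.LX
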