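import Pool.Agent.Work.MP_25cd3b_gt.LX.StmtsU

set_option autoImplicit false

/-!
# MP_25cd3b_gt, block LX, part U: reversal of chains
-/

open Set Filter Topology
open scoped ContDiff

namespace Pool.Agent.LX

namespace IURv

variable {V : Type} [NormedAddCommGroup V] [NormedSpace ℝ V]

/-- the exchange of the two factors -/
noncomputable def sw (V : Type) [NormedAddCommGroup V] [NormedSpace ℝ V] :
    (V × V) ≃L[ℝ] (V × V) := ContinuousLinearEquiv.prodComm ℝ V V

theorem sw_apply (w : V × V) : sw V w = w.swap := rfl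

omit [NormedSpace ℝ V] in
theorem norm_swap (w : V × V) : ‖w.swap‖ = ‖w‖ := by
  rw [Prod.norm_def, Prod.norm_def, Prod.fst_swap, Prod.snd_swap, max_comm]

/-- composition with the exchange -/
noncomputable def Ph (V : Type) [NormedAddCommGroup V] [NormedSpace ℝ V] :
    (V × V →L[ℝ] ℝ) →L[ℝ] (V × V →L[ℝ] ℝ) :=
  (ContinuousLinearMap.compL ℝ (V × V) (V × V) ℝ).flip (sw V : V × V →L[ℝ] V × V)

theorem Ph_apply (l : V × V →L[ℝ] ℝ) (x : V × V) : Ph V l x = l x.swap := rfl

/-- the reversed first derivative -/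
noncomputable def R1 (L1 : V × V → V × V →L[ℝ] ℝ) (p : V × V) : V × V →L[ℝ] ℝ :=
  Ph V (L1 (sw V p))

/-- the reversed second derivative -/
noncomputable def R2 (L2 : V × V → Bf V) (p : V × V) : Bf V :=
  (Ph V).comp ((L2 (sw V p)).comp (sw V : V × V →L[ℝ] V × V))

theorem R1_apply (L1 : V × V → V × V →L[ℝ] ℝ) (p x : V × V) : R1 L1 p x = L1 p.swap x.swap := rfl

theorem R2_apply (L2 : V × V → Bf V) (p x y : V × V) : R2 L2 p x y = L2 p.swap x.swap y.swap :=
  rfl

theorem R2_zero (L2 : V × V → Bf V) (x y : V × V) : R2 L2 0 x y = L2 0 x.swap y.swap := rfl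

theorem ch {lam K r₀ : ℝ} {L : V × V → ℝ} {L1 : V × V → V × V →L[ℝ] ℝ} {L2 : V × V → Bf V}
    (h : Ch lam K r₀ L L1 L2) : Ch lam K r₀ (fun p => L p.swap) (R1 L1) (R2 L2) where
  r_pos := h.r_pos
  lam_pos := h.lam_pos
  K_nn := h.K_nn
  d1 := by
    intro p hp
    have h1 : HasFDerivAt L (L1 (sw V p)) (sw V p) := h.d1 _ (by rw [sw_apply, norm_swap]; exact hp)
    exact h1.comp p (sw V).hasFDerivAt
  d2 := by
    intro p hp
    have h1 : HasFDerivAt L1 (L2 (sw V p)) (sw V p) :=
      h.d2 _ (by rw [sw_apply, norm_swap]; exact hp)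
    have h2 := h1.comp p (sw V).hasFDerivAt
    exact (Ph V).hasFDerivAt.comp p h2
  pos := by
    constructor
    · intro p q
      rw [R2_zero, R2_zero]
      exact h.pos.symm _ _
    · intro v w
      rw [R2_zero]
      have h1 := h.pos.pos w v
      rw [add_comm (‖v‖ ^ 2)]
      exact h1
  lip := by
    intro p hp
    have h1 : ‖L2 p.swap - L2 0‖ ≤ K * ‖p‖ := by
      have := h.lip p.swap (by rw [norm_swap]; exact hp)
      rwa [norm_swap] at this
    have hK : 0 ≤ K * ‖p‖ := mul_nonneg h.K_nn (norm_nonneg _)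
    refine ContinuousLinearMap.opNorm_le_bound₂ _ hK ?_
    intro x y
    have h2 : (R2 L2 p - R2 L2 0) x y = (L2 p.swap - L2 0) x.swap y.swap := rfl
    rw [h2]
    refine ((L2 p.swap - L2 0).le_opNorm₂ x.swap y.swap).trans ?_
    rw [norm_swap, norm_swap]
    gcongr
  zero := h.zero
  crit := by
    have h1 : R1 L1 0 = Ph V (L1 0) := rfl
    rw [h1, h.crit, map_zero]

end IURv

open IURv in
/-- reversal -/
theorem pr_URv : URv := by
  intro V _ _ _ lam K r₀ L L1 L2 T hch htw htr
  refine ⟨R1 L1, R2 L2, (sw V).trans (T.symm.trans (sw V)), ch hch, ?_, ?_, ?_, ?_⟩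
  · -- Tws
    intro v hv
    have h1 : ∀ w : V, L2 0 (v, 0) (0, w) = 0 := fun w => hv w
    obtain ⟨ha, hb⟩ := htr v 0
    have hc : (T (v, 0)).2 = 0 := by
      apply htw
      intro w
      have h2 := hb w
      rw [h1, zero_add] at h2
      exact h2
    have h3 : T (v, 0) = 0 := Prod.ext ha hc
    have h4 : (v, (0 : V)) = 0 := by
      apply T.injective
      rw [h3, map_zero]
    exact congrArg Prod.fst h4
  · -- IsTr
    intro a b
    obtain ⟨z, hz⟩ : ∃ z : V × V, z = T.symm (b, a) := ⟨_, rfl⟩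
    have hT : T z = (b, a) := by rw [hz, T.apply_symm_apply]
    have h0 : ((sw V).trans (T.symm.trans (sw V))) (a, b) = z.swap := by
      rw [hz]
      rfl
    obtain ⟨h1, h2⟩ := htr z.1 z.2
    have hz' : ((z.1, z.2) : V × V) = z := rfl
    rw [hz', hT] at h1
    have h3 : z.2 = b := h1.symm
    rw [h0]
    refine ⟨h3, fun w => ?_⟩
    have h4 := h2 w
    rw [hz', hT, h3] at h4
    have h5 : z = (z.1, b) := by rw [← h3]
    have h6 : R2 L2 0 (a, b) (0, w) = L2 0 (b, a) (w, 0) := rfl
    have h7 : R2 L2 0 (b, z.swap.2) (w, 0) = L2 0 (z.1, b) (0, w) := rfl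
    rw [h6, h7, ← h5, add_comm]
    exact h4
  · intro w
    rfl
  · intro ρ p
    constructor
    · intro hp
      refine ⟨hp.small, fun k j hj w => ?_⟩
      obtain ⟨i, hi⟩ : ∃ i, k = i + j + 2 := ⟨k - (j + 2), by omega⟩
      have h1 := hp.el (i + 2) i (by omega) w
      have e1 : k - j = i + 2 := by omega
      have e2 : k - (j + 1) = i + 1 := by omega
      have e3 : k - (j + 2) = i := by omega
      simp only [e1, e2, e3]
      rw [R1_apply, R1_apply, add_comm]
      exact h1
    · intro hp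
      refine ⟨hp.small, fun k j hj w => ?_⟩
      have h1 := hp.el (j + 2) 0 (by omega) w
      have e1 : j + 2 - 0 = j + 2 := rfl
      have e2 : j + 2 - (0 + 1) = j + 1 := by omega
      have e3 : j + 2 - (0 + 2) = j := by omega
      simp only [e1, e2, e3] at h1
      rw [R1_apply, R1_apply, add_comm] at h1
      exact h1

end Pool.Agent.LX
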