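import Pool.Agent.Work.MP_25cd3b_gt.LX.StmtsU

set_option autoImplicit false

/-!
# MP_25cd3b_gt, block LX, part U: item UTi, tight chains between `p 0` and `v 0`
-/

open Set Filter Topology
open scoped ContDiff

namespace Pool.Agent.LX

namespace IUTi

theorem sq_bound {V : Type} [NormedAddCommGroup V] (a b c : V) (M N : ℝ)
    (h1 : ‖a - (b + c)‖ ^ 2 ≤ M) (h2 : ‖c‖ ^ 2 ≤ N) : ‖a - b‖ ^ 2 ≤ 2 * M + 2 * N := by
  have e : a - b = (a - (b + c)) + c := by abel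
  have h3 : ‖a - b‖ ≤ ‖a - (b + c)‖ + ‖c‖ := by
    rw [e]
    exact norm_add_le _ _
  have h4 : ‖a - b‖ ^ 2 ≤ (‖a - (b + c)‖ + ‖c‖) ^ 2 := pow_le_pow_left₀ (norm_nonneg _) h3 2
  nlinarith [sq_nonneg (‖a - (b + c)‖ - ‖c‖)]

theorem exp_bound {V : Type} [NormedAddCommGroup V] (v : ℕ → V) (A r : ℝ)
    (h : ∀ j : ℕ, ‖v j‖ ≤ A * Real.exp (-(r * j))) (k : ℕ) (hk : 2 ≤ k) :
    ‖v (k - 1)‖ ^ 2 ≤ A ^ 2 * Real.exp (2 * r) * Real.exp (-(2 * r * k)) := by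
  have h1 := pow_le_pow_left₀ (norm_nonneg _) (h (k - 1)) 2
  refine h1.trans (le_of_eq ?_)
  rw [mul_pow, mul_assoc, ← Real.exp_nat_mul, ← Real.exp_add]
  congr 2
  rw [Nat.cast_sub (by omega)]
  push_cast
  ring

end IUTi

theorem pr_UTi (h1 : URs) (h2 : UCv) : UTi := by
  intro V _ _ lam K r₀ K' r' L L1 L2 D hG h4
  obtain ⟨ρ₁, hρ₁, hR⟩ := h1 V lam K r₀ K' r' L L1 L2 hG.ch h4
  obtain ⟨C₁, ρ₂, hC₁, hρ₂, hU⟩ := h2 V lam K r₀ L L1 L2 D hG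
  refine ⟨min ρ₁ (ρ₂ / 2), lt_min hρ₁ (by positivity), ?_⟩
  intro r p v hr hp hv hrp hrv
  have hp1 : Fc L1 ρ₁ p := ⟨fun j => (hp.small j).trans (min_le_left _ _), hp.el⟩
  have hv1 : Bc L1 ρ₁ v := ⟨fun j => (hv.small j).trans (min_le_left _ _), hv.el⟩
  obtain ⟨C₀, hC₀, hRes⟩ := hR r p v hr hp1 hv1 hrp hrv
  obtain ⟨A, hA⟩ := hrp
  obtain ⟨A', hA'⟩ := hrv
  refine ⟨4 * C₁ * C₀ ^ 2 + 2 * (A ^ 2 + A' ^ 2) * Real.exp (2 * r), by positivity, ?_⟩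
  intro k u hk hT hu0 huk hus
  have hk1 : 1 ≤ k := by omega
  have hCA : ∀ j, ‖CA k p j‖ ≤ ρ₂ / 2 := by
    intro j
    unfold CA
    split_ifs
    · exact (hp.small j).trans (min_le_right _ _)
    · rw [norm_zero]
      positivity
  have hCB : ∀ j, ‖CB k v j‖ ≤ ρ₂ / 2 := by
    intro j
    unfold CB
    split_ifs
    · exact (hv.small _).trans (min_le_right _ _)
    · rw [norm_zero]
      positivity
  have hy : ∀ j ≤ k, ‖(CA k p + CB k v) j‖ ≤ ρ₂ := by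
    intro j _
    rw [Pi.add_apply]
    refine (norm_add_le _ _).trans ?_
    linarith [hCA j, hCB j]
  have hu2 : ∀ j ≤ k, ‖u j‖ ≤ ρ₂ := by
    intro j hj
    have := (hus j hj).trans (min_le_right _ _)
    linarith
  have hy0 : u 0 = (CA k p + CB k v) 0 := by
    rw [Pi.add_apply, CA, CB, if_pos (by omega), if_neg (lt_irrefl 0), add_zero, hu0]
  have hyk : u k = (CA k p + CB k v) k := by
    rw [Pi.add_apply, CA, CB, if_neg (lt_irrefl k), if_pos (by omega), zero_add, Nat.sub_self, huk]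
  have hmain := hU k (CA k p + CB k v) u (C₀ * Real.exp (-(r * k))) hk1 hy hu2
    (mul_nonneg hC₀ (Real.exp_pos _).le) (hRes k hk1).2.2 hT hy0 hyk
  have e1 : (CA k p + CB k v) 1 = p 1 + v (k - 1) := by
    rw [Pi.add_apply, CA, CB, if_pos (by omega), if_pos (by omega)]
  have e2 : (CA k p + CB k v) (k - 1) = v 1 + p (k - 1) := by
    rw [Pi.add_apply, CA, CB, if_pos (by omega), if_pos (by omega)]
    have : k - (k - 1) = 1 := by omega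
    rw [this, add_comm]
  have m1 := hmain 1 hk1
  have m2 := hmain (k - 1) (by omega)
  rw [e1] at m1
  rw [e2] at m2
  have b1 := IUTi.exp_bound v A' r hA' k hk
  have b2 := IUTi.exp_bound p A r hA k hk
  have c1 := IUTi.sq_bound _ _ _ _ _ m1 b1
  have c2 := IUTi.sq_bound _ _ _ _ _ m2 b2
  have e3 : (C₀ * Real.exp (-(r * k))) ^ 2 = C₀ ^ 2 * Real.exp (-(2 * r * k)) := by
    rw [mul_pow, ← Real.exp_nat_mul]
    congr 2
    push_cast
    ring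
  rw [e3] at c1 c2
  set E := Real.exp (-(2 * r * k)) with hE
  have hE0 : 0 < E := Real.exp_pos _
  have hk0 : (0 : ℝ) ≤ k := Nat.cast_nonneg k
  set F := Real.exp (2 * r) with hF
  have hF0 : 0 < F := Real.exp_pos _
  have t1 : 0 ≤ 4 * C₁ * C₀ ^ 2 * E := by positivity
  have t2 : 0 ≤ 2 * (A ^ 2 + A' ^ 2) * F * E * k := by positivity
  calc ‖u 1 - p 1‖ ^ 2 + ‖u (k - 1) - v 1‖ ^ 2
      ≤ (2 * (C₁ * k * (C₀ ^ 2 * E)) + 2 * (A' ^ 2 * F * E)) +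
        (2 * (C₁ * k * (C₀ ^ 2 * E)) + 2 * (A ^ 2 * F * E)) := add_le_add c1 c2
    _ ≤ (4 * C₁ * C₀ ^ 2 + 2 * (A ^ 2 + A' ^ 2) * F) * (k + 1) * E := by
        have e4 : (4 * C₁ * C₀ ^ 2 + 2 * (A ^ 2 + A' ^ 2) * F) * (k + 1) * E =
          ((2 * (C₁ * k * (C₀ ^ 2 * E)) + 2 * (A' ^ 2 * F * E)) +
            (2 * (C₁ * k * (C₀ ^ 2 * E)) + 2 * (A ^ 2 * F * E))) + 4 * C₁ * C₀ ^ 2 * E +
            2 * (A ^ 2 + A' ^ 2) * F * E * k := by ring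
        rw [e4]
        linarith

end Pool.Agent.LX
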