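import Pool.Agent.Work.MP_25cd3b_gt.LX.StmtsU

set_option autoImplicit false

open Set Filter Topology

namespace Pool.Agent.LX

namespace IUUn

theorem lim (C s ρ x : ℝ) (i : ℕ) (hs : 0 < s)
    (h : ∀ k : ℕ, i ≤ k → x ≤ C * (Real.exp (-(s * ((k : ℝ) - i))) * (2 * ρ))) : x ≤ 0 := by
  have h1 : Tendsto (fun k : ℕ => C * (Real.exp (-(s * ((k : ℝ) - i))) * (2 * ρ))) atTop
      (𝓝 (C * (0 * (2 * ρ)))) := by
    refine Tendsto.const_mul _ (Tendsto.mul_const _ ?_)
    refine Real.tendsto_exp_atBot.comp ?_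
    refine tendsto_neg_atTop_atBot.comp ?_
    refine Tendsto.const_mul_atTop hs ?_
    exact tendsto_atTop_add_const_right _ _ tendsto_natCast_atTop_atTop
  have h2 : C * (0 * (2 * ρ)) = 0 := by ring
  rw [h2] at h1
  exact ge_of_tendsto h1 (eventually_atTop.2 ⟨i, h⟩)

end IUUn

theorem pr_UUn (h1 : YDif) (h2 : XPer) (h3 : XPosR) : UUn := by
  intro V _ _ _ lam K r₀ L L1 L2 hc
  obtain ⟨s, hs, hg⟩ := h3 V lam (L2 0) hc.lam_pos hc.pos
  have hs2 : 0 < s / 2 := by linarith
  obtain ⟨ρ0, C, hρ0, hC, hP⟩ := h2 V lam s (s / 2) (L2 0) hc.lam_pos hc.pos hg hs2 (by linarith)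
  have hK := hc.K_nn
  have hr := hc.r_pos
  have hK1 : 0 < K + 1 := by linarith
  refine ⟨min (r₀ / 2) (ρ0 / (K + 1)), lt_min (by linarith) (div_pos hρ0 hK1), ?_, ?_⟩
  · intro p p' hp hp' h0
    set ρ := min (r₀ / 2) (ρ0 / (K + 1)) with hρ
    have hρr : ρ < r₀ := lt_of_le_of_lt (min_le_left _ _) (by linarith)
    have hKρ : K * ρ ≤ ρ0 := by
      have e1 : ρ ≤ ρ0 / (K + 1) := min_le_right _ _
      have e2 : 0 < ρ := lt_min (by linarith) (div_pos hρ0 hK1)
      rw [le_div_iff₀ hK1] at e1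
      nlinarith
    funext i
    have hle : ‖p' i - p i‖ ≤ 0 := by
      refine IUUn.lim C (s / 2) ρ _ i hs2 ?_
      intro k hk
      obtain ⟨H', hH, hS, -⟩ := h1 V lam K r₀ L L1 L2 hc k p p' ρ hρr (fun j _ => hp.small j)
        (fun j _ => hp'.small j) (hp.el k) (hp'.el k)
      have h4 := hP k H' (fun j hj => (hH j hj).trans hKρ) _ hS i hk
      have h5 : ‖p' 0 - p 0‖ = 0 := by rw [h0]; simp
      have h6 : ‖p' k - p k‖ ≤ 2 * ρ := by
        refine (norm_sub_le _ _).trans ?_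
        linarith [hp.small k, hp'.small k]
      refine h4.trans ?_
      simp only [h5, mul_zero, zero_add]
      have h7 : 0 ≤ C := by linarith
      exact mul_le_mul_of_nonneg_left (mul_le_mul_of_nonneg_left h6 (Real.exp_pos _).le) h7
    have h8 : p' i - p i = 0 := norm_le_zero_iff.1 hle
    exact (sub_eq_zero.1 h8).symm
  · intro v v' hv hv' h0
    set ρ := min (r₀ / 2) (ρ0 / (K + 1)) with hρ
    have hρr : ρ < r₀ := lt_of_le_of_lt (min_le_left _ _) (by linarith)
    have hKρ : K * ρ ≤ ρ0 := by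
      have e1 : ρ ≤ ρ0 / (K + 1) := min_le_right _ _
      have e2 : 0 < ρ := lt_min (by linarith) (div_pos hρ0 hK1)
      rw [le_div_iff₀ hK1] at e1
      nlinarith
    funext i
    have hle : ‖v' i - v i‖ ≤ 0 := by
      refine IUUn.lim C (s / 2) ρ _ i hs2 ?_
      intro k hk
      obtain ⟨H', hH, hS, -⟩ := h1 V lam K r₀ L L1 L2 hc k (fun j => v (k - j))
        (fun j => v' (k - j)) ρ hρr (fun j _ => hv.small (k - j))
        (fun j _ => hv'.small (k - j)) (hv.el k) (hv'.el k)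
      have h4 := hP k H' (fun j hj => (hH j hj).trans hKρ) _ hS (k - i) (Nat.sub_le _ _)
      have e3 : k - (k - i) = i := by omega
      have e4 : ((k - i : ℕ) : ℝ) = (k : ℝ) - i := by push_cast [hk]; ring
      simp only [e3, e4, Nat.sub_zero, Nat.sub_self] at h4
      have h5 : ‖v' 0 - v 0‖ = 0 := by rw [h0]; simp
      have h6 : ‖v' k - v k‖ ≤ 2 * ρ := by
        refine (norm_sub_le _ _).trans ?_
        linarith [hv.small k, hv'.small k]
      refine h4.trans ?_
      simp only [h5, mul_zero, add_zero]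
      have h7 : 0 ≤ C := by linarith
      exact mul_le_mul_of_nonneg_left (mul_le_mul_of_nonneg_left h6 (Real.exp_pos _).le) h7
    have h8 : v' i - v i = 0 := norm_le_zero_iff.1 hle
    exact (sub_eq_zero.1 h8).symm

end Pool.Agent.LX
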