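import Pool.Agent.Work.MP_25cd3b_gt.LX.StmtsU

set_option autoImplicit false

/-!
# MP_25cd3b_gt, block LX, item UXf: fast forward chains
-/

open Set Filter Topology
open scoped ContDiff

namespace Pool.Agent.LX

namespace IUXf

variable {V : Type} [NormedAddCommGroup V] [NormedSpace ℝ V]

theorem norm_swap (w : V × V) : ‖w.swap‖ = ‖w‖ := by
  rw [Prod.norm_def, Prod.norm_def, Prod.fst_swap, Prod.snd_swap, max_comm]

/-- the exchange of the two factors -/
noncomputable def sw : (V × V) ≃L[ℝ] (V × V) := ContinuousLinearEquiv.prodComm ℝ V V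

/-- conjugation with the exchange -/
noncomputable def rev (P : (V × V) →L[ℝ] (V × V)) : (V × V) →L[ℝ] (V × V) :=
  ((sw : (V × V) ≃L[ℝ] (V × V)) : (V × V) →L[ℝ] (V × V)).comp
    (P.comp ((sw : (V × V) ≃L[ℝ] (V × V)) : (V × V) →L[ℝ] (V × V)))

theorem rev_apply (P : (V × V) →L[ℝ] (V × V)) (w : V × V) : rev P w = (P w.swap).swap := rfl

theorem symm_eq (T T' : (V × V) ≃L[ℝ] (V × V)) (hT : ∀ w, T' w = (T.symm w.swap).swap)
    (w : V × V) : T'.symm w = (T w.swap).swap := by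
  rw [ContinuousLinearEquiv.symm_apply_eq, hT, Prod.swap_swap, T.symm_apply_apply, Prod.swap_swap]

theorem iter (f g : V × V → V × V) (h : ∀ w, f w = (g w.swap).swap) (k : ℕ) (w : V × V) :
    f^[k] w = (g^[k] w.swap).swap := by
  induction k with
  | zero => simp
  | succ k ih =>
    rw [Function.iterate_succ_apply', Function.iterate_succ_apply', h, ih, Prod.swap_swap]

theorem gap (T T' : (V × V) ≃L[ℝ] (V × V)) (hT : ∀ w, T' w = (T.symm w.swap).swap) (r : ℝ)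
    (P : (V × V) →L[ℝ] (V × V)) (h : Gap T.symm r P) : Gap T' r (rev P) where
  idem w := by
    rw [rev_apply, rev_apply, Prod.swap_swap, h.idem]
  comm w := by
    rw [rev_apply, hT, Prod.swap_swap, h.comm, hT, rev_apply, Prod.swap_swap]
  up := by
    obtain ⟨r₀, C, h1, h2⟩ := h.up
    refine ⟨r₀, C, h1, fun k w => ?_⟩
    rw [iter (⇑T') (⇑T.symm) hT, norm_swap, rev_apply, Prod.swap_swap, ← norm_swap w]
    exact h2 k w.swap
  lo := by
    obtain ⟨r₁, C, h1, h2⟩ := h.lo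
    refine ⟨r₁, C, h1, fun k w => ?_⟩
    rw [iter (⇑T'.symm) (⇑T.symm.symm) (fun w => symm_eq T T' hT w), norm_swap, ← norm_swap w,
      Prod.swap_sub, rev_apply, Prod.swap_swap]
    exact h2 k w.swap

end IUXf

/-- Item UXf. -/
theorem pr_UXf (h1 : UXb) (h2 : URv) : UXf := by
  intro V _ _ _ lam K r₀ L L1 L2 T hCh hTw hTr r P hr hG ρ₀ hρ₀
  obtain ⟨L1', L2', T', k1, k2, k3, k4, k5⟩ := h2 V lam K r₀ L L1 L2 T hCh hTw hTr
  obtain ⟨C, ρ, hC, hρ, h⟩ := h1 V lam K r₀ (fun p => L p.swap) L1' L2' T' k1 k2 k3 r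
    (IUXf.rev P) hr (IUXf.gap T T' k4 r P hG) ρ₀ hρ₀
  refine ⟨C, ρ, hC, hρ, fun w hw hwn => ?_⟩
  obtain ⟨v, a1, a2, a3⟩ := h w.swap (by rw [IUXf.rev_apply, Prod.swap_swap, hw]; rfl)
    (by rw [IUXf.norm_swap]; exact hwn)
  rw [IUXf.norm_swap] at a3
  refine ⟨v, (k5 ρ₀ v).2 a1, fun j => ?_, ?_⟩
  · have := a2 j
    rwa [IUXf.norm_swap] at this
  · rw [← IUXf.norm_swap, Prod.swap_sub]
    exact a3

end Pool.Agent.LX
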