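import Pool.Agent.Work.MP_25cd3b_gt.LX.StmtsW

set_option autoImplicit false

/-!
# MP_25cd3b_gt, block LX, item WEs: the estimate for partners
-/

open MeasureTheory Set Filter Topology
open scoped ContDiff ENNReal
open Pool.Agent.Work.MP_c9f990_an.Al (IsFlow)

namespace Pool.Agent.LX

open Pool.Agent.MLS Pool.Agent.STR Pool.Agent.LR

namespace IWEs

variable {n : ℕ} {G : Type} [Group G] [MulAction G (E n)]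

theorem fwMono {g : Form n} {φ : ℝ → W n → W n} {a : G} {c : ℝ → E n} {l : ℝ}
    {V : Submodule ℝ (E n)} {ρ ρ' : ℝ} {α : ℝ → E n} {p : ℕ → V} (h : Fw g φ a c l V ρ α p)
    (hρ : ρ ≤ ρ') : Fw g φ a c l V ρ' α p where
  ug := h.ug
  as := h.as
  near := fun t ht => (h.near t ht).trans hρ
  ch := ⟨fun j => (h.ch.small j).trans hρ, h.ch.el⟩
  st := by
    obtain ⟨a₀, h1, h2⟩ := h.st
    exact ⟨a₀, h1.trans hρ, h2⟩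

theorem bwMono {g : Form n} {φ : ℝ → W n → W n} {a : G} {c : ℝ → E n} {l : ℝ}
    {V : Submodule ℝ (E n)} {ρ ρ' : ℝ} {α : ℝ → E n} {p : ℕ → V} (h : Bw g φ a c l V ρ α p)
    (hρ : ρ ≤ ρ') : Bw g φ a c l V ρ' α p where
  ug := h.ug
  as := h.as
  near := fun t ht => (h.near t ht).trans hρ
  ch := ⟨fun j => (h.ch.small j).trans hρ, h.ch.el⟩
  st := by
    obtain ⟨a₀, h1, h2⟩ := h.st
    exact ⟨a₀, h1.trans hρ, h2⟩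

theorem expLe (C t : ℝ) (k : ℕ) (ht : 0 < t) :
    C * Real.exp (-(t * ((k + 1 : ℕ) : ℝ))) ≤ |C| * Real.exp (-(t * k)) := by
  refine mul_le_mul (le_abs_self _) (Real.exp_le_exp.2 ?_) (Real.exp_pos _).le (abs_nonneg _)
  push_cast
  nlinarith

end IWEs

open IWEs in
/-- item WEs -/
theorem pr_WEs (h1 : WTa) (h2 : RPr) (h3 : RTau) : WEs := by
  intro n G _ _ g1 g2 κ₁ κ₂ φ₁ φ₂ M₁ M₂ lg₁ lg₂ a c₁ c₂ l V₁ V₂ hD T₁ T₂ hT₁ hT₂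
  obtain ⟨D, hPr⟩ := h2 n G g1 g2 κ₁ κ₂ φ₁ φ₂ M₁ M₂ lg₁ lg₂ a c₁ c₂ l V₁ V₂ hD.P1 hD.P2 hD.n1
    hD.n2 hD.eqL
  obtain ⟨ρ₁, hρ₁, w1⟩ := h1 n G g1 κ₁ φ₁ M₁ lg₁ a c₁ l V₁ hD.P1 T₁ hT₁
  obtain ⟨ρ₂, hρ₂, w2⟩ := h1 n G g2 κ₂ φ₂ M₂ lg₂ a c₂ l V₂ hD.P2 T₂ hT₂
  refine ⟨min ρ₁ ρ₂, lt_min hρ₁ hρ₂, ?_⟩
  intro r t hr ht htr p1 p2 v1 v2 Q₁ Q₂ R₁ R₂ hF hB hrp1 hrp2 hrv1 hrv2 hQ₁ hQ₂ hR₁ hR₂
  obtain ⟨α1, α2, hα1, hα2, Cα, hCα⟩ := hF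
  obtain ⟨β1, β2, hβ1, hβ2, Cβ, hCβ⟩ := hB
  obtain ⟨C₁, k₁, e1⟩ := w1 r t α1 β1 p1 v1 Q₁ R₁ hr ht htr (fwMono hα1 (min_le_left _ _))
    (bwMono hβ1 (min_le_left _ _)) hrp1 hrv1 hQ₁ hR₁
  obtain ⟨C₂, k₂, e2⟩ := w2 r t α2 β2 p2 v2 Q₂ R₂ hr ht htr (fwMono hα2 (min_le_right _ _))
    (bwMono hβ2 (min_le_right _ _)) hrp2 hrv2 hQ₂ hR₂
  refine ⟨|C₁| + |C₂|, max k₁ k₂, fun k hk => ?_⟩
  obtain ⟨τ, hτ, f1⟩ := e1 (k + 1) (((le_max_left _ _).trans hk).trans (Nat.le_succ k))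
  obtain ⟨τ', hτ', f2⟩ := e2 (k + 1) (((le_max_right _ _).trans hk).trans (Nat.le_succ k))
  have hτ2 : Tau g2 a α2 β2 (k + 1) l τ :=
    h3 n G g1 g2 (min κ₁ κ₂) a c₁ c₂ l D hPr hD.eqL (max Cα Cβ) α1 β1 α2 β2 (k + 1) τ
      hα1.ug hβ1.ug hα2.ug hβ2.ug (fun t => (hCα t).trans (le_max_left _ _))
      (fun t => (hCβ t).trans (le_max_right _ _)) hα1.as hβ1.as hα2.as hβ2.as hτ
  have hττ : τ = τ' := tendsto_nhds_unique hτ2 hτ'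
  rw [← hττ] at f2
  rw [Nat.add_sub_cancel] at f1 f2
  have g1' := abs_le.1 (f1.trans (expLe C₁ t k ht))
  have g2' := abs_le.1 (f2.trans (expLe C₂ t k ht))
  rw [abs_le, add_mul]
  constructor <;> linarith [g1'.1, g1'.2, g2'.1, g2'.2]

end Pool.Agent.LX
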