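import Pool.Agent.Work.MP_25cd3b_gt.LX.StmtsW

set_option autoImplicit false

/-!
# MP_25cd3b_gt, block LX, item WFu: conjugacy of the Poincaré maps
-/

open MeasureTheory Set Filter Topology
open scoped ContDiff ENNReal
open Pool.Agent.Work.MP_c9f990_an.Al (IsFlow)

namespace Pool.Agent.LX

open Pool.Agent.MLS Pool.Agent.STR Pool.Agent.LR

namespace IWFu

/-- bounded forward orbit -/
def Fb {S : Type} [NormedAddCommGroup S] [NormedSpace ℝ S] (T : S ≃L[ℝ] S) (w : S) : Prop :=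
  ∃ C : ℝ, ∀ k : ℕ, ‖(⇑T)^[k] w‖ ≤ C

section glue

variable {S₁ S₂ : Type} [NormedAddCommGroup S₁] [NormedSpace ℝ S₁] [FiniteDimensional ℝ S₁]
  [NormedAddCommGroup S₂] [NormedSpace ℝ S₂]

theorem glue (T₁ : S₁ ≃L[ℝ] S₁) (T₂ : S₂ ≃L[ℝ] S₂) (P₁ : S₁ →L[ℝ] S₁) (P₂ : S₂ →L[ℝ] S₂)
    (hP₁ : ∀ w, P₁ (P₁ w) = P₁ w) (hP₂ : ∀ w, P₂ (P₂ w) = P₂ w)
    (hc₁ : ∀ w, P₁ (T₁ w) = T₁ (P₁ w)) (Ψs Ψu : S₁ →L[ℝ] S₂)
    (hs1 : ∀ w, P₁ w = w → P₂ (Ψs w) = Ψs w) (hs2 : ∀ w, P₁ w = w → Ψs w = 0 → w = 0)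
    (hs3 : ∀ w', P₂ w' = w' → ∃ w, P₁ w = w ∧ Ψs w = w')
    (hs4 : ∀ w, P₁ w = w → Ψs (T₁ w) = T₂ (Ψs w))
    (hu1 : ∀ w, P₁ w = 0 → P₂ (Ψu w) = 0) (hu2 : ∀ w, P₁ w = 0 → Ψu w = 0 → w = 0)
    (hu3 : ∀ w', P₂ w' = 0 → ∃ w, P₁ w = 0 ∧ Ψu w = w')
    (hu4 : ∀ w, P₁ w = 0 → Ψu (T₁ w) = T₂ (Ψu w)) :
    ∃ Ψ : S₁ ≃L[ℝ] S₂, ∀ w, Ψ (T₁ w) = T₂ (Ψ w) := by
  let F : S₁ →ₗ[ℝ] S₂ := (Ψs.comp P₁ + Ψu.comp (ContinuousLinearMap.id ℝ S₁ - P₁) : S₁ →L[ℝ] S₂)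
  have hF : ∀ w, F w = Ψs (P₁ w) + Ψu (w - P₁ w) := fun w => rfl
  have hd : ∀ w, P₁ (w - P₁ w) = 0 := fun w => by rw [map_sub, hP₁, sub_self]
  have hinj : Function.Injective F := by
    rw [← LinearMap.ker_eq_bot, LinearMap.ker_eq_bot']
    intro w hw
    rw [hF] at hw
    have e1 := hs1 (P₁ w) (hP₁ w)
    have e2 := hu1 (w - P₁ w) (hd w)
    have e3 : Ψs (P₁ w) = -Ψu (w - P₁ w) := eq_neg_of_add_eq_zero_left hw
    have e4 : Ψs (P₁ w) = 0 := by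
      rw [← e1, e3, map_neg, e2, neg_zero]
    have e5 : Ψu (w - P₁ w) = 0 := by
      rw [e4, zero_add] at hw
      exact hw
    have e6 := hs2 _ (hP₁ w) e4
    have e7 := hu2 _ (hd w) e5
    rw [e6, sub_zero] at e7
    exact e7
  have hsurj : Function.Surjective F := by
    intro w'
    obtain ⟨x, hx, ex⟩ := hs3 (P₂ w') (hP₂ w')
    obtain ⟨y, hy, ey⟩ := hu3 (w' - P₂ w') (by rw [map_sub, hP₂, sub_self])
    refine ⟨x + y, ?_⟩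
    rw [hF, map_add, hx, hy, add_zero, add_sub_cancel_left, ex, ey]
    abel
  refine ⟨(LinearEquiv.ofBijective F ⟨hinj, hsurj⟩).toContinuousLinearEquiv, fun w => ?_⟩
  show F (T₁ w) = T₂ (F w)
  rw [hF, hF, hc₁, ← map_sub, hs4 _ (hP₁ w), hu4 _ (hd w), map_add]

end glue

section hyp

variable {V : Type} [NormedAddCommGroup V] [NormedSpace ℝ V]

theorem it_cancel (T : (V × V) ≃L[ℝ] (V × V)) (k : ℕ) (x : V × V) :
    (⇑T.symm)^[k] ((⇑T)^[k] x) = x := by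
  induction k generalizing x with
  | zero => rfl
  | succ k ih =>
    rw [Function.iterate_succ_apply', Function.iterate_succ_apply, ih, T.symm_apply_apply]

/-- the backward orbit of a point of the forward orbit is bounded -/
theorem Ub_iter (T : (V × V) ≃L[ℝ] (V × V)) (w : V × V) (hf : Fb T w) (hu : Ub T w) (k : ℕ) :
    Ub T ((⇑T)^[k] w) := by
  obtain ⟨C, hC⟩ := hf
  obtain ⟨D, hD⟩ := hu
  refine ⟨max C D, fun j => ?_⟩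
  rcases le_total j k with h | h
  · obtain ⟨m, rfl⟩ := Nat.exists_eq_add_of_le h
    rw [Function.iterate_add_apply, it_cancel]
    exact (hC m).trans (le_max_left _ _)
  · obtain ⟨m, rfl⟩ := Nat.exists_eq_add_of_le h
    rw [Nat.add_comm k m, Function.iterate_add_apply, it_cancel]
    exact (hD m).trans (le_max_right _ _)

theorem exp_tend {s : ℝ} (hs : 0 < s) (A : ℝ) :
    Tendsto (fun k : ℕ => A * Real.exp (-(s * k))) atTop (𝓝 0) := by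
  have h : Tendsto (fun k : ℕ => Real.exp (-(s * k))) atTop (𝓝 0) := by
    refine Real.tendsto_exp_neg_atTop_nhds_zero.comp ?_
    exact Tendsto.const_mul_atTop hs tendsto_natCast_atTop_atTop
  simpa using h.const_mul A

theorem exp_le {s : ℝ} (hs : 0 < s) (C x : ℝ) (hx : 0 ≤ x) (k : ℕ) :
    C * Real.exp (-(s * k)) * x ≤ |C| * x := by
  have h1 : Real.exp (-(s * k)) ≤ 1 := by
    rw [Real.exp_le_one_iff]
    have : 0 ≤ s * k := by positivity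
    linarith
  have h2 : C * Real.exp (-(s * k)) ≤ |C| := by
    calc C * Real.exp (-(s * k)) ≤ |C| * Real.exp (-(s * k)) :=
          mul_le_mul_of_nonneg_right (le_abs_self C) (Real.exp_pos _).le
      _ ≤ |C| * 1 := mul_le_mul_of_nonneg_left h1 (abs_nonneg C)
      _ = |C| := mul_one _
  exact mul_le_mul_of_nonneg_right h2 hx

/-- the splitting, and the bounded orbits -/
theorem split (h4 : SHs) (h5 : SHy) (h7 : XPosR) [FiniteDimensional ℝ V] (lam : ℝ) (H : Bf V)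
    (T : (V × V) ≃L[ℝ] (V × V)) (hlam : 0 < lam) (hH : Pos lam H) (hT : IsTr H T) :
    ∃ P : (V × V) →L[ℝ] (V × V), (∀ w, P (P w) = P w) ∧ (∀ w, P (T w) = T (P w)) ∧
      (∀ w, Fb T w ↔ P w = w) ∧ ∀ w, Ub T w ↔ P w = 0 := by
  obtain ⟨s, hs, hG⟩ := h7 V lam H hlam hH
  obtain ⟨P, B, Bu, C, hid, hcm, hup, hlo, -, -, -, -⟩ := h4 V lam s H T hlam hH hT hG hs
  obtain ⟨D, hD⟩ := h5 V lam s H T hlam hH hT hG hs
  have hzero : ∀ w, Fb T w → Ub T w → w = 0 := by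
    intro w hf hu
    obtain ⟨C', hC'⟩ := hf
    have hb : ∀ k : ℕ, ‖w‖ ≤ |D| * |C'| * Real.exp (-(s * k)) := by
      intro k
      have h1 := (hD ((⇑T)^[k] w)).2 (Ub_iter T w ⟨C', hC'⟩ hu k) k
      rw [it_cancel] at h1
      have h2 : ‖((⇑T)^[k] w).2‖ ≤ |C'| :=
        (norm_snd_le _).trans ((hC' k).trans (le_abs_self _))
      calc ‖w‖ ≤ D * Real.exp (-(s * k)) * ‖((⇑T)^[k] w).2‖ := h1
        _ ≤ |D| * Real.exp (-(s * k)) * |C'| :=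
            mul_le_mul (mul_le_mul_of_nonneg_right (le_abs_self D) (Real.exp_pos _).le) h2
              (norm_nonneg _) (by positivity)
        _ = |D| * |C'| * Real.exp (-(s * k)) := by ring
    have h3 : ‖w‖ ≤ 0 := ge_of_tendsto' (exp_tend hs (|D| * |C'|)) hb
    exact norm_le_zero_iff.1 h3
  have hFP : ∀ w, Fb T (P w) := fun w =>
    ⟨|C| * ‖w‖, fun k => (hup k w).trans (exp_le hs C _ (norm_nonneg w) k)⟩
  have hUP : ∀ w, Ub T (w - P w) := fun w =>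
    ⟨|C| * ‖w‖, fun k => (hlo k w).trans (exp_le hs C _ (norm_nonneg w) k)⟩
  have hsubk : ∀ (A : (V × V) ≃L[ℝ] (V × V)) (k : ℕ) (x y : V × V),
      (⇑A)^[k] (x - y) = (⇑A)^[k] x - (⇑A)^[k] y := by
    intro A k
    induction k with
    | zero => intro x y; rfl
    | succ k ih =>
      intro x y
      rw [Function.iterate_succ_apply, Function.iterate_succ_apply, Function.iterate_succ_apply,
        map_sub, ih]
  refine ⟨P, hid, hcm, fun w => ⟨fun hw => ?_, fun hw => ?_⟩, fun w => ⟨fun hw => ?_, fun hw => ?_⟩⟩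
  · have h1 : Fb T (w - P w) := by
      obtain ⟨C₁, hC₁⟩ := hw
      obtain ⟨C₂, hC₂⟩ := hFP w
      refine ⟨C₁ + C₂, fun k => ?_⟩
      rw [hsubk]
      exact (norm_sub_le _ _).trans (add_le_add (hC₁ k) (hC₂ k))
    have h2 := hzero _ h1 (hUP w)
    exact (sub_eq_zero.1 h2).symm
  · rw [← hw]
    exact hFP w
  · have h1 : Ub T (P w) := by
      obtain ⟨C₁, hC₁⟩ := hw
      obtain ⟨C₂, hC₂⟩ := hUP w
      refine ⟨C₁ + C₂, fun k => ?_⟩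
      have h3 : P w = w - (w - P w) := by abel
      rw [h3, hsubk]
      exact (norm_sub_le _ _).trans (add_le_add (hC₁ k) (hC₂ k))
    exact hzero _ (hFP w) h1
  · have h1 := hUP w
    rw [hw, sub_zero] at h1
    exact h1

/-- the inverse of the reversed transfer map -/
theorem rev_symm (T T' : (V × V) ≃L[ℝ] (V × V)) (h : ∀ w, T' w = (T.symm w.swap).swap) (w : V × V) :
    T'.symm w = (T w.swap).swap := by
  apply T'.injective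
  rw [T'.apply_symm_apply, h, Prod.swap_swap, T.symm_apply_apply, Prod.swap_swap]

theorem rev_iter (T T' : (V × V) ≃L[ℝ] (V × V)) (h : ∀ w, T' w = (T.symm w.swap).swap) (k : ℕ)
    (w : V × V) : (⇑T'.symm)^[k] w = ((⇑T)^[k] w.swap).swap := by
  induction k generalizing w with
  | zero => rfl
  | succ k ih =>
    rw [Function.iterate_succ_apply, ih, rev_symm T T' h, Prod.swap_swap,
      Function.iterate_succ_apply]

omit [NormedSpace ℝ V] in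
theorem norm_swap' (w : V × V) : ‖w.swap‖ = ‖w‖ := by
  rw [Prod.norm_def, Prod.norm_def, Prod.fst_swap, Prod.snd_swap, max_comm]

theorem rev_Ub (T T' : (V × V) ≃L[ℝ] (V × V)) (h : ∀ w, T' w = (T.symm w.swap).swap)
    (w : V × V) : Ub T' w ↔ Fb T w.swap := by
  unfold Ub Fb
  simp only [rev_iter T T' h, norm_swap']

theorem Fb_next (T : (V × V) ≃L[ℝ] (V × V)) (w : V × V) (h : Fb T w) : Fb T (T w) := by
  obtain ⟨C, hC⟩ := h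
  refine ⟨C, fun k => ?_⟩
  rw [← Function.iterate_succ_apply]
  exact hC (k + 1)

end hyp

end IWFu

open IWFu

theorem pr_WFu (h1 : WIn) (h2 : WRv) (h3 : BRev) (h4 : SHs) (h5 : SHy) (h6 : BPos) (h7 : XPosR) :
    WFu := by
  intro n G _ _ g1 g2 κ₁ κ₂ φ₁ φ₂ M₁ M₂ lg₁ lg₂ a c₁ c₂ l V₁ V₂ hD T₁ T₂ hT₁ hT₂
  obtain ⟨Ψu, u1, u2, u3, u4⟩ := h1 n G g1 g2 κ₁ κ₂ φ₁ φ₂ M₁ M₂ lg₁ lg₂ a c₁ c₂ l V₁ V₂ hD T₁ T₂
    hT₁ hT₂
  have hR₁ := (h3 n G g1 κ₁ φ₁ M₁ lg₁ a c₁ l V₁ hD.P1).1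
  have hR₂ := (h3 n G g2 κ₂ φ₂ M₂ lg₂ a c₂ l V₂ hD.P2).1
  obtain ⟨T₁', t₁, e₁⟩ := h2 n G g1 κ₁ φ₁ M₁ lg₁ a c₁ l V₁ hD.P1 T₁ hT₁
  obtain ⟨T₂', t₂, e₂⟩ := h2 n G g2 κ₂ φ₂ M₂ lg₂ a c₂ l V₂ hD.P2 T₂ hT₂
  have t₁' : IsTr (HH g1 φ₁ a⁻¹ ((fun t => c₁ (-t)) 0) l V₁) T₁' := by
    show IsTr (HH g1 φ₁ a⁻¹ (c₁ (-0)) l V₁) T₁'
    rw [neg_zero]
    exact t₁
  have t₂' : IsTr (HH g2 φ₂ a⁻¹ ((fun t => c₂ (-t)) 0) l V₂) T₂' := by
    show IsTr (HH g2 φ₂ a⁻¹ (c₂ (-0)) l V₂) T₂'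
    rw [neg_zero]
    exact t₂
  obtain ⟨Ψ', v1, v2, v3, v4⟩ := h1 n G g1 g2 κ₁ κ₂ φ₁ φ₂ M₁ M₂ lg₁ lg₂ a⁻¹ (fun t => c₁ (-t))
    (fun t => c₂ (-t)) l V₁ V₂ ⟨hR₁, hR₂, hD.eqL, hD.n1, hD.n2⟩ T₁' T₂' t₁' t₂'
  obtain ⟨lam₁, hl₁, hp₁⟩ := (h6 n G g1 κ₁ φ₁ M₁ lg₁ a c₁ l V₁ hD.P1).2
  obtain ⟨lam₂, hl₂, hp₂⟩ := (h6 n G g2 κ₂ φ₂ M₂ lg₂ a c₂ l V₂ hD.P2).2
  obtain ⟨P₁, i₁, cm₁, f₁, b₁⟩ := split h4 h5 h7 lam₁ _ T₁ hl₁ hp₁ hT₁
  obtain ⟨P₂, i₂, cm₂, f₂, b₂⟩ := split h4 h5 h7 lam₂ _ T₂ hl₂ hp₂ hT₂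
  let Ψs : (V₁ × V₁) →L[ℝ] (V₂ × V₂) :=
    ((ContinuousLinearEquiv.prodComm ℝ V₂ V₂ : (V₂ × V₂) →L[ℝ] (V₂ × V₂)).comp Ψ').comp
      (ContinuousLinearEquiv.prodComm ℝ V₁ V₁ : (V₁ × V₁) →L[ℝ] (V₁ × V₁))
  have hΨs : ∀ w, Ψs w = (Ψ' w.swap).swap := fun w => rfl
  refine glue T₁ T₂ P₁ P₂ i₁ i₂ cm₁ Ψs Ψu ?_ ?_ ?_ ?_ ?_ ?_ ?_ ?_
  · intro w hw
    rw [← f₂, hΨs, ← rev_Ub T₂ T₂' e₂]
    refine v1 _ ?_
    rw [rev_Ub T₁ T₁' e₁, Prod.swap_swap, f₁]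
    exact hw
  · intro w hw h0
    rw [hΨs] at h0
    have h8 : Ψ' w.swap = 0 := by
      have := congrArg Prod.swap h0
      rw [Prod.swap_swap] at this
      exact this
    have h9 := v2 w.swap (by rw [rev_Ub T₁ T₁' e₁, Prod.swap_swap, f₁]; exact hw) h8
    have := congrArg Prod.swap h9
    rw [Prod.swap_swap] at this
    exact this
  · intro w' hw'
    obtain ⟨w, hw, e⟩ := v3 w'.swap (by rw [rev_Ub T₂ T₂' e₂, Prod.swap_swap, f₂]; exact hw')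
    refine ⟨w.swap, ?_, ?_⟩
    · rw [← f₁, ← rev_Ub T₁ T₁' e₁]
      exact hw
    · rw [hΨs, Prod.swap_swap, e, Prod.swap_swap]
  · intro w hw
    have hf := Fb_next T₁ w ((f₁ w).2 hw)
    have h8 := v4 (T₁ w).swap (by rw [rev_Ub T₁ T₁' e₁, Prod.swap_swap]; exact hf)
    rw [e₁, e₂, Prod.swap_swap, T₁.symm_apply_apply] at h8
    rw [hΨs, hΨs, h8, Prod.swap_swap, T₂.apply_symm_apply]
  · intro w hw
    rw [← b₂]
    exact u1 w ((b₁ w).2 hw)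
  · intro w hw h0
    exact u2 w ((b₁ w).2 hw) h0
  · intro w' hw'
    obtain ⟨w, hw, e⟩ := u3 w' ((b₂ w').2 hw')
    exact ⟨w, (b₁ w).1 hw, e⟩
  · intro w hw
    exact u4 w ((b₁ w).2 hw)

end Pool.Agent.LX
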