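import Pool.Agent.Work.MP_25cd3b_gt.LX.StmtsW

set_option autoImplicit false

/-!
# MP_25cd3b_gt, block LX, item WIn: induction over the levels
-/

open MeasureTheory Set Filter Topology
open scoped ContDiff ENNReal
open Pool.Agent.Work.MP_c9f990_an.Al (IsFlow)

namespace Pool.Agent.LX

open Pool.Agent.MLS Pool.Agent.STR Pool.Agent.LR

namespace IWIn

section

variable {S₁ S₂ : Type} [NormedAddCommGroup S₁] [NormedSpace ℝ S₁] [FiniteDimensional ℝ S₁]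
  [NormedAddCommGroup S₂] [NormedSpace ℝ S₂] [FiniteDimensional ℝ S₂]

/-- the four properties -/
def PP (T₁ : S₁ ≃L[ℝ] S₁) (T₂ : S₂ ≃L[ℝ] S₂) (r : ℝ) (A₁ : S₁ →L[ℝ] S₁) (A₂ : S₂ →L[ℝ] S₂)
    (Ψ : S₁ →L[ℝ] S₂) : Prop :=
  (∀ w, InL T₁ r A₁ w → InL T₂ r A₂ (Ψ w)) ∧ (∀ w, InL T₁ r A₁ w → Ψ w = 0 → w = 0) ∧
    (∀ w', InL T₂ r A₂ w' → ∃ w, InL T₁ r A₁ w ∧ Ψ w = w') ∧
    ∀ w, InL T₁ r A₁ w → Ψ (T₁ w) = T₂ (Ψ w)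

theorem g4 (h : UGp) (T₁ : S₁ ≃L[ℝ] S₁) (T₂ : S₂ ≃L[ℝ] S₂) (r : ℝ) : ∃ δ : ℝ, 0 < δ ∧
    ∀ r' : ℝ, r < r' → r' < r + δ → ∃ (A₁ A₁' : S₁ →L[ℝ] S₁) (A₂ A₂' : S₂ →L[ℝ] S₂),
      Gap T₁ r' A₁ ∧ Gap T₁.symm r' A₁' ∧ Gap T₂ r' A₂ ∧ Gap T₂.symm r' A₂' := by
  obtain ⟨d1, P1, hd1, h1⟩ := h S₁ T₁ r
  obtain ⟨d2, P2, hd2, h2⟩ := h S₁ T₁.symm r
  obtain ⟨d3, P3, hd3, h3⟩ := h S₂ T₂ r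
  obtain ⟨d4, P4, hd4, h4⟩ := h S₂ T₂.symm r
  refine ⟨min (min d1 d2) (min d3 d4), lt_min (lt_min hd1 hd2) (lt_min hd3 hd4), ?_⟩
  intro r' hr hr'
  have e1 : min (min d1 d2) (min d3 d4) ≤ d1 := (min_le_left _ _).trans (min_le_left _ _)
  have e2 : min (min d1 d2) (min d3 d4) ≤ d2 := (min_le_left _ _).trans (min_le_right _ _)
  have e3 : min (min d1 d2) (min d3 d4) ≤ d3 := (min_le_right _ _).trans (min_le_left _ _)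
  have e4 : min (min d1 d2) (min d3 d4) ≤ d4 := (min_le_right _ _).trans (min_le_right _ _)
  exact ⟨P1, P2, P3, P4, h1 r' hr (by linarith), h2 r' hr (by linarith), h3 r' hr (by linarith),
    h4 r' hr (by linarith)⟩

theorem inL_zero (T : S₁ ≃L[ℝ] S₁) (r : ℝ) (A : S₁ →L[ℝ] S₁) : InL T r A 0 := by
  refine ⟨map_zero A, 0, fun k => ?_⟩
  rw [Function.iterate_fixed (map_zero T.symm) k, norm_zero, zero_mul]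

theorem base (hGa : UGa) (T : S₁ ≃L[ℝ] S₁) (r : ℝ) (A : S₁ →L[ℝ] S₁) (hA : Gap T r A) (w : S₁)
    (hw : InL T r A w) : w = 0 := by
  rw [← hw.1]
  exact (hGa S₁ T r r A A hA hA le_rfl).2.1 w hw.2

theorem claim (hGp : UGp) (hGa : UGa) (hGl : UGl) (T₁ : S₁ ≃L[ℝ] S₁) (T₂ : S₂ ≃L[ℝ] S₂)
    (EQ : ℝ → Prop) (r₀ : ℝ) (hr₀ : 0 < r₀)
    (h4 : ∃ (A₁ A₁' : S₁ →L[ℝ] S₁) (A₂ A₂' : S₂ →L[ℝ] S₂),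
      Gap T₁ r₀ A₁ ∧ Gap T₁.symm r₀ A₁' ∧ Gap T₂ r₀ A₂ ∧ Gap T₂.symm r₀ A₂')
    (hE : EQ r₀)
    (step : ∀ (r t : ℝ) (A₁ B₁ A₁' B₁' : S₁ →L[ℝ] S₁) (A₂ B₂ A₂' B₂' : S₂ →L[ℝ] S₂), 0 < r →
      r < t → t < 2 * r → Gap T₁ r A₁ → Gap T₁ t B₁ → Gap T₁.symm r A₁' → Gap T₁.symm t B₁' →
      Gap T₂ r A₂ → Gap T₂ t B₂ → Gap T₂.symm r A₂' → Gap T₂.symm t B₂' → EQ r →
      EQ t ∧ ∃ Ψ, PP T₁ T₂ r B₁ B₂ Ψ) (N : ℕ) :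
    ∃ (r : ℝ) (A₁ A₁' : S₁ →L[ℝ] S₁) (A₂ A₂' : S₂ →L[ℝ] S₂), r₀ ≤ r ∧ (3 / 2 : ℝ) ^ N * r₀ ≤ r ∧
      Gap T₁ r A₁ ∧ Gap T₁.symm r A₁' ∧ Gap T₂ r A₂ ∧ Gap T₂.symm r A₂' ∧ EQ r ∧
      ∃ Ψ, PP T₁ T₂ r₀ A₁ A₂ Ψ := by
  induction N with
  | zero =>
    obtain ⟨A₁, A₁', A₂, A₂', g1, g2, g3, g4⟩ := h4
    refine ⟨r₀, A₁, A₁', A₂, A₂', le_rfl, by simp, g1, g2, g3, g4, hE, 0, ?_, ?_, ?_, ?_⟩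
    · intro w _
      exact inL_zero T₂ r₀ A₂
    · intro w hw _
      exact base hGa T₁ r₀ A₁ g1 w hw
    · intro w' hw'
      refine ⟨0, inL_zero T₁ r₀ A₁, ?_⟩
      rw [base hGa T₂ r₀ A₂ g3 w' hw', map_zero]
    · intro w _
      simp
  | succ N ih =>
    obtain ⟨r, A₁, A₁', A₂, A₂', hr, hN, g1, g2, g3, g4', hEr, Ψa, p1, p2, p3, p4⟩ := ih
    have hrp : 0 < r := hr₀.trans_le hr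
    obtain ⟨δ, hδ, hg⟩ := g4 hGp T₁ T₂ (3 / 2 * r)
    obtain ⟨t, ht1, ht2, ht3⟩ : ∃ t : ℝ, 3 / 2 * r < t ∧ t < 3 / 2 * r + δ ∧ t < 2 * r := by
      refine ⟨3 / 2 * r + min δ (r / 2) / 2, ?_, ?_, ?_⟩
      · have : 0 < min δ (r / 2) := lt_min hδ (by linarith)
        linarith
      · have : min δ (r / 2) ≤ δ := min_le_left _ _
        linarith
      · have : min δ (r / 2) ≤ r / 2 := min_le_right _ _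
        linarith
    obtain ⟨B₁, B₁', B₂, B₂', k1, k2, k3, k4⟩ := hg t ht1 ht2
    have hrt : r < t := by linarith
    obtain ⟨hEt, Ψb, q1, q2, q3, q4⟩ := step r t A₁ B₁ A₁' B₁' A₂ B₂ A₂' B₂' hrp hrt ht3 g1 k1 g2
      k2 g3 k3 g4' k4 hEr
    obtain ⟨Ψ, m1, m2, m3, m4⟩ := hGl S₁ S₂ T₁ T₂ r₀ r t A₁ B₁ A₂ B₂ hr hrt g1 g3 k1 k3 Ψa Ψb p1 p2
      p3 p4 q1 q2 q3 q4
    refine ⟨t, B₁, B₁', B₂, B₂', hr.trans hrt.le, ?_, k1, k2, k3, k4, hEt, Ψ, m1, m2, m3, m4⟩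
    calc (3 / 2 : ℝ) ^ (N + 1) * r₀ = 3 / 2 * ((3 / 2 : ℝ) ^ N * r₀) := by ring
      _ ≤ 3 / 2 * r := mul_le_mul_of_nonneg_left hN (by norm_num)
      _ ≤ t := ht1.le

theorem it_le (T : S₁ ≃L[ℝ] S₁) (r : ℝ) (hr : ‖(T : S₁ →L[ℝ] S₁)‖ ≤ r) (w : S₁) (k : ℕ) :
    ‖(⇑T)^[k] w‖ ≤ ‖w‖ * Real.exp (r * k) := by
  induction k with
  | zero => simp
  | succ k ih =>
    rw [Function.iterate_succ_apply']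
    have h0 : ‖T ((⇑T)^[k] w)‖ ≤ ‖(T : S₁ →L[ℝ] S₁)‖ * ‖(⇑T)^[k] w‖ :=
      (T : S₁ →L[ℝ] S₁).le_opNorm _
    have h1 : r ≤ Real.exp r := by linarith [Real.add_one_le_exp r]
    calc ‖T ((⇑T)^[k] w)‖ ≤ ‖(T : S₁ →L[ℝ] S₁)‖ * ‖(⇑T)^[k] w‖ := h0
      _ ≤ Real.exp r * (‖w‖ * Real.exp (r * k)) :=
        mul_le_mul (hr.trans h1) ih (norm_nonneg _) (Real.exp_pos _).le
      _ = ‖w‖ * Real.exp (r * ((k + 1 : ℕ) : ℝ)) := by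
        have : r * ((k + 1 : ℕ) : ℝ) = r + r * k := by push_cast; ring
        rw [this, Real.exp_add]
        ring

theorem iff_ub (hGa : UGa) (T : S₁ ≃L[ℝ] S₁) (r₀ r : ℝ) (hr₀ : 0 < r₀)
    (hr : ‖(T : S₁ →L[ℝ] S₁)‖ ≤ r) (A : S₁ →L[ℝ] S₁) (hA : Gap T r A)
    (hu : ∀ w, Ub T w → ∃ C : ℝ, ∀ k : ℕ, ‖(⇑T.symm)^[k] w‖ ≤ C * Real.exp (-(r₀ * k))) (w : S₁) :
    Ub T w ↔ InL T r₀ A w := by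
  constructor
  · intro h
    exact ⟨(hGa S₁ T r r A A hA hA le_rfl).1 w ⟨‖w‖, fun k => it_le T r hr w k⟩, hu w h⟩
  · rintro ⟨-, C, hC⟩
    refine ⟨|C|, fun k => (hC k).trans ?_⟩
    have h1 : Real.exp (-(r₀ * k)) ≤ 1 := by
      rw [Real.exp_le_one_iff]
      have : 0 ≤ r₀ * k := mul_nonneg hr₀.le (Nat.cast_nonneg k)
      linarith
    calc C * Real.exp (-(r₀ * k)) ≤ |C| * Real.exp (-(r₀ * k)) :=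
          mul_le_mul_of_nonneg_right (le_abs_self C) (Real.exp_pos _).le
      _ ≤ |C| * 1 := mul_le_mul_of_nonneg_left h1 (abs_nonneg C)
      _ = |C| := mul_one _

theorem fin (hGp : UGp) (hGa : UGa) (hGl : UGl) (T₁ : S₁ ≃L[ℝ] S₁) (T₂ : S₂ ≃L[ℝ] S₂)
    (EQ : ℝ → Prop) (r₀ : ℝ) (hr₀ : 0 < r₀)
    (h4 : ∃ (A₁ A₁' : S₁ →L[ℝ] S₁) (A₂ A₂' : S₂ →L[ℝ] S₂),
      Gap T₁ r₀ A₁ ∧ Gap T₁.symm r₀ A₁' ∧ Gap T₂ r₀ A₂ ∧ Gap T₂.symm r₀ A₂')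
    (hE : EQ r₀)
    (step : ∀ (r t : ℝ) (A₁ B₁ A₁' B₁' : S₁ →L[ℝ] S₁) (A₂ B₂ A₂' B₂' : S₂ →L[ℝ] S₂), 0 < r →
      r < t → t < 2 * r → Gap T₁ r A₁ → Gap T₁ t B₁ → Gap T₁.symm r A₁' → Gap T₁.symm t B₁' →
      Gap T₂ r A₂ → Gap T₂ t B₂ → Gap T₂.symm r A₂' → Gap T₂.symm t B₂' → EQ r →
      EQ t ∧ ∃ Ψ, PP T₁ T₂ r B₁ B₂ Ψ)
    (hu1 : ∀ w, Ub T₁ w → ∃ C : ℝ, ∀ k : ℕ, ‖(⇑T₁.symm)^[k] w‖ ≤ C * Real.exp (-(r₀ * k)))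
    (hu2 : ∀ w, Ub T₂ w → ∃ C : ℝ, ∀ k : ℕ, ‖(⇑T₂.symm)^[k] w‖ ≤ C * Real.exp (-(r₀ * k))) :
    ∃ Ψ : S₁ →L[ℝ] S₂, (∀ w, Ub T₁ w → Ub T₂ (Ψ w)) ∧ (∀ w, Ub T₁ w → Ψ w = 0 → w = 0) ∧
      (∀ w', Ub T₂ w' → ∃ w, Ub T₁ w ∧ Ψ w = w') ∧ ∀ w, Ub T₁ w → Ψ (T₁ w) = T₂ (Ψ w) := by
  obtain ⟨N, hN⟩ := pow_unbounded_of_one_lt
    ((‖(T₁ : S₁ →L[ℝ] S₁)‖ + ‖(T₂ : S₂ →L[ℝ] S₂)‖) / r₀) (by norm_num : (1 : ℝ) < 3 / 2)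
  rw [div_lt_iff₀ hr₀] at hN
  obtain ⟨r, A₁, A₁', A₂, A₂', hr, hNr, g1, g2, g3, g4', hEr, Ψ, p1, p2, p3, p4⟩ :=
    claim hGp hGa hGl T₁ T₂ EQ r₀ hr₀ h4 hE step N
  have n1 : ‖(T₁ : S₁ →L[ℝ] S₁)‖ ≤ r := by
    linarith [norm_nonneg (T₂ : S₂ →L[ℝ] S₂)]
  have n2 : ‖(T₂ : S₂ →L[ℝ] S₂)‖ ≤ r := by
    linarith [norm_nonneg (T₁ : S₁ →L[ℝ] S₁)]
  have e1 := iff_ub hGa T₁ r₀ r hr₀ n1 A₁ g1 hu1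
  have e2 := iff_ub hGa T₂ r₀ r hr₀ n2 A₂ g3 hu2
  refine ⟨Ψ, fun w hw => (e2 _).2 (p1 w ((e1 w).1 hw)), fun w hw => p2 w ((e1 w).1 hw),
    fun w' hw' => ?_, fun w hw => p4 w ((e1 w).1 hw)⟩
  obtain ⟨w, hw, he⟩ := p3 w' ((e2 w').1 hw')
  exact ⟨w, (e1 w).2 hw, he⟩

end

/-- decay from the hyperbolicity -/
theorem dec {V : Type} [NormedAddCommGroup V] [NormedSpace ℝ V] [FiniteDimensional ℝ V]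
    (h5 : SHy) (lam s r₀ : ℝ) (H : Bf V) (T : (V × V) ≃L[ℝ] (V × V)) (hl : 0 < lam)
    (hp : Pos lam H) (hT : IsTr H T) (hg : Gr H s) (hs : 0 < s) (hr : r₀ < s) (w : V × V)
    (hw : Ub T w) : ∃ C : ℝ, ∀ k : ℕ, ‖(⇑T.symm)^[k] w‖ ≤ C * Real.exp (-(r₀ * k)) := by
  obtain ⟨C, hC⟩ := h5 V lam s H T hl hp hT hg hs
  refine ⟨|C| * ‖w.2‖, fun k => ((hC w).2 hw k).trans ?_⟩
  have h1 : Real.exp (-(s * k)) ≤ Real.exp (-(r₀ * k)) := by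
    apply Real.exp_le_exp.2
    have : r₀ * k ≤ s * k := mul_le_mul_of_nonneg_right hr.le (Nat.cast_nonneg k)
    linarith
  calc C * Real.exp (-(s * k)) * ‖w.2‖ ≤ |C| * Real.exp (-(r₀ * k)) * ‖w.2‖ := by
        refine mul_le_mul_of_nonneg_right ?_ (norm_nonneg _)
        exact mul_le_mul (le_abs_self C) h1 (Real.exp_pos _).le (abs_nonneg C)
    _ = |C| * ‖w.2‖ * Real.exp (-(r₀ * k)) := by ring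

end IWIn

open IWIn in
theorem pr_WIn (h1 : WSt) (h2 : UGp) (h3 : UGa) (h4 : UGl) (h5 : SHy) (h6 : ZDc) (h7 : BGen)
    (h8 : BPos) (h9 : XPosR) : WIn := by
  intro n G _ _ g1 g2 κ₁ κ₂ φ₁ φ₂ M₁ M₂ lg₁ lg₂ a c₁ c₂ l V₁ V₂ hD T₁ T₂ hT₁ hT₂
  obtain ⟨lam₁, hl₁, hp₁⟩ := (h8 n G g1 κ₁ φ₁ M₁ lg₁ a c₁ l V₁ hD.P1).2
  obtain ⟨lam₂, hl₂, hp₂⟩ := (h8 n G g2 κ₂ φ₂ M₂ lg₂ a c₂ l V₂ hD.P2).2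
  obtain ⟨s₁, hs₁, hg₁⟩ := h9 V₁ lam₁ _ hl₁ hp₁
  obtain ⟨s₂, hs₂, hg₂⟩ := h9 V₂ lam₂ _ hl₂ hp₂
  obtain ⟨δ, hδ, hgap⟩ := g4 h2 T₁ T₂ 0
  obtain ⟨r₀, hr0, hrδ, hr1, hr2⟩ : ∃ r₀ : ℝ, 0 < r₀ ∧ r₀ < δ ∧ r₀ < s₁ ∧ r₀ < s₂ := by
    have h0 : 0 < min δ (min s₁ s₂) := lt_min hδ (lt_min hs₁ hs₂)
    have e1 : min δ (min s₁ s₂) ≤ δ := min_le_left _ _
    have e2 : min δ (min s₁ s₂) ≤ s₁ := (min_le_right _ _).trans (min_le_left _ _)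
    have e3 : min δ (min s₁ s₂) ≤ s₂ := (min_le_right _ _).trans (min_le_right _ _)
    exact ⟨min δ (min s₁ s₂) / 2, by linarith, by linarith, by linarith, by linarith⟩
  have hE : Eqr g1 g2 φ₁ φ₂ a c₁ c₂ l V₁ V₂ r₀ := by
    obtain ⟨la₁, K₁, q₁, hG₁⟩ := h7 n G g1 κ₁ φ₁ M₁ lg₁ a c₁ l V₁ hD.P1
    obtain ⟨la₂, K₂, q₂, hG₂⟩ := h7 n G g2 κ₂ φ₂ M₂ lg₂ a c₂ l V₂ hD.P2
    obtain ⟨C₁, ρ₁, -, hρ₁, -, f1, b1⟩ := h6 V₁ la₁ K₁ q₁ _ _ _ hG₁.ch s₁ r₀ hg₁ hr0 hr1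
    obtain ⟨C₂, ρ₂, -, hρ₂, -, f2, b2⟩ := h6 V₂ la₂ K₂ q₂ _ _ _ hG₂.ch s₂ r₀ hg₂ hr0 hr2
    refine ⟨min ρ₁ ρ₂, lt_min hρ₁ hρ₂, ?_, ?_⟩
    · rintro p1 p2 ⟨α1, α2, hα1, hα2, -⟩
      have t1 : Rt r₀ p1 := ⟨_, f1 p1 ⟨fun j => (hα1.ch.small j).trans (min_le_left _ _),
        hα1.ch.el⟩⟩
      have t2 : Rt r₀ p2 := ⟨_, f2 p2 ⟨fun j => (hα2.ch.small j).trans (min_le_right _ _),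
        hα2.ch.el⟩⟩
      exact ⟨fun _ => t2, fun _ => t1⟩
    · rintro v1 v2 ⟨β1, β2, hβ1, hβ2, -⟩
      have t1 : Rt r₀ v1 := ⟨_, b1 v1 ⟨fun j => (hβ1.ch.small j).trans (min_le_left _ _),
        hβ1.ch.el⟩⟩
      have t2 : Rt r₀ v2 := ⟨_, b2 v2 ⟨fun j => (hβ2.ch.small j).trans (min_le_right _ _),
        hβ2.ch.el⟩⟩
      exact ⟨fun _ => t2, fun _ => t1⟩
  exact fin h2 h3 h4 T₁ T₂ (fun r => Eqr g1 g2 φ₁ φ₂ a c₁ c₂ l V₁ V₂ r) r₀ hr0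
    (hgap r₀ hr0 (by linarith)) hE
    (fun r t A₁ B₁ A₁' B₁' A₂ B₂ A₂' B₂' k1 k2 k3 k4 k5 k6 k7 k8 k9 k10 k11 k12 =>
      h1 n G g1 g2 κ₁ κ₂ φ₁ φ₂ M₁ M₂ lg₁ lg₂ a c₁ c₂ l V₁ V₂ hD T₁ T₂ hT₁ hT₂ r t A₁ B₁ A₁' B₁'
        A₂ B₂ A₂' B₂' k1 k2 k3 k4 k5 k6 k7 k8 k9 k10 k11 k12)
    (fun w hw => dec h5 lam₁ s₁ r₀ _ T₁ hl₁ hp₁ hT₁ hg₁ hs₁ hr1 w hw)
    (fun w hw => dec h5 lam₂ s₂ r₀ _ T₂ hl₂ hp₂ hT₂ hg₂ hs₂ hr2 w hw)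

end Pool.Agent.LX
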