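import Pool.Agent.Work.MP_25cd3b_gt.LX.StmtsV

set_option autoImplicit false

/-!
# MP_25cd3b_gt, block LX, item VEx: asymptotic geodesics with their chains, existence
-/

open MeasureTheory Set Filter Topology
open scoped ContDiff ENNReal
open Pool.Agent.Work.MP_c9f990_an.Al (IsFlow)

namespace Pool.Agent.LX

open Pool.Agent.MLS Pool.Agent.STR Pool.Agent.LR

namespace IVEx

theorem fd_swap {V : Type} [NormedAddCommGroup V] [NormedSpace ℝ V] (L L' : V × V → ℝ)
    (h : ∀ p, L' p = L p.swap) (p q : V × V) : fderiv ℝ L' p q = fderiv ℝ L p.swap q.swap := by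
  have h1 : L' = L ∘ (ContinuousLinearEquiv.prodComm ℝ V V) := by
    funext x
    rw [h x]
    rfl
  rw [h1, ContinuousLinearEquiv.comp_right_fderiv]
  rfl

theorem el_rev {V : Type} [NormedAddCommGroup V] [NormedSpace ℝ V] (L L' : V × V → ℝ)
    (h : ∀ p, L' p = L p.swap) (k : ℕ) (v : ℕ → V) (hv : EL (fderiv ℝ L') k v) :
    EL (fderiv ℝ L) k (fun j => v (k - j)) := by
  intro j hj w
  have e := hv (k - (j + 2)) (by omega) w
  rw [fd_swap L L' h, fd_swap L L' h] at e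
  have e1 : k - (j + 2) + 1 = k - (j + 1) := by omega
  have e2 : k - (j + 2) + 2 = k - j := by omega
  rw [e1, e2] at e
  simp only [Prod.swap_prod_mk] at e
  show fderiv ℝ L (v (k - j), v (k - (j + 1))) (0, w) +
    fderiv ℝ L (v (k - (j + 1)), v (k - (j + 2))) (w, 0) = 0
  linarith

end IVEx

theorem pr_VEx (h1 : KExA) (h2 : KExB) (h3 : KAl) (h4 : BRev) (h5 : StUG) : VEx := by
  intro n G _ _ g κ φ M lg a c l V hP ρ hρ
  obtain ⟨hP', hD, -⟩ := h4 n G g κ φ M lg a c l V hP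
  obtain ⟨C, ρ₁, hC, hρ₁, hK⟩ := h3 n G g κ φ M lg a c l V hP
  obtain ⟨C', ρ₁', hC', hρ₁', hK'⟩ := h3 n G g κ φ M lg a⁻¹ (fun t => c (-t)) l V hP'
  simp only [neg_zero] at hK'
  have hC0 : 0 < C := by linarith
  have hC0' : 0 < C' := by linarith
  -- the small number
  obtain ⟨δ, hδ, hδ1, hδ2, hδ3, hδ4, hδ5⟩ : ∃ δ : ℝ, 0 < δ ∧ δ ≤ ρ ∧ δ ≤ ρ₁ ∧ δ ≤ ρ₁' ∧ C * δ ≤ ρ ∧
      C' * δ ≤ ρ := by
    refine ⟨min (min ρ (min ρ₁ ρ₁')) (min (ρ / C) (ρ / C')), ?_, ?_, ?_, ?_, ?_, ?_⟩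
    · refine lt_min (lt_min hρ (lt_min hρ₁ hρ₁')) (lt_min (div_pos hρ hC0) (div_pos hρ hC0'))
    · exact (min_le_left _ _).trans (min_le_left _ _)
    · exact ((min_le_left _ _).trans (min_le_right _ _)).trans (min_le_left _ _)
    · exact ((min_le_left _ _).trans (min_le_right _ _)).trans (min_le_right _ _)
    · have := (min_le_right (min ρ (min ρ₁ ρ₁')) (min (ρ / C) (ρ / C'))).trans (min_le_left _ _)
      rw [le_div_iff₀ hC0] at this
      linarith
    · have := (min_le_right (min ρ (min ρ₁ ρ₁')) (min (ρ / C) (ρ / C'))).trans (min_le_right _ _)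
      rw [le_div_iff₀ hC0'] at this
      linarith
  obtain ⟨ρA, hρA, hA⟩ := h1 n G g κ φ M lg a c l V hP δ hδ
  obtain ⟨ρB, hρB, hB⟩ := h2 n G g κ φ M lg a c l V hP δ hδ
  refine ⟨min (min ρA ρB) δ, lt_min (lt_min hρA hρB) hδ, ?_, ?_⟩
  · intro x hx
    obtain ⟨α, a₀, hug, ha₀, hex, hd, has⟩ := hA x (hx.trans ((min_le_left _ _).trans (min_le_left _ _)))
    obtain ⟨u, t, hu0, -, hu, -, hk⟩ := hK δ a₀ α x hδ hδ2 hug ha₀ (hx.trans (min_le_right _ _)) hex hd
    refine ⟨α, u, ⟨hug, has, fun t ht => (hd t ht).trans hδ1, ⟨fun j => (hu j).2.1.trans hδ4, ?_⟩,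
      a₀, ha₀.trans hδ1, ?_⟩, hu0⟩
    · intro k
      rcases Nat.eq_zero_or_pos k with rfl | hk0
      · intro j hj
        exact absurd hj (by omega)
      · exact (hk k hk0).2.1
    · rw [hu0]
      exact hex
  · intro z hz
    obtain ⟨β, b₀, hug, hb₀, hex, hd, hab⟩ := hB z (hz.trans ((min_le_left _ _).trans (min_le_right _ _)))
    have hug' : UG g (fun t => β (0 - t)) := (h5 n g β hug).2.1 0
    obtain ⟨u, t, hu0, -, hu, -, hk⟩ := hK' δ (-b₀) (fun t => β (0 - t)) z hδ hδ3 hug'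
      (by rw [abs_neg]; exact hb₀) (hz.trans (min_le_right _ _))
      (by
        show β (0 - -b₀) = expo φ g (c 0) z
        rw [show (0 : ℝ) - -b₀ = b₀ by ring]
        exact hex)
      (by
        intro t ht
        show gd g (β (0 - t)) (c (-t)) ≤ δ
        rw [zero_sub]
        exact hd (-t) (by linarith))
    have hL : ∀ p : V × V, Lk g φ a⁻¹ (c 0) l V p = Lk g φ a (c 0) l V p.swap := by
      intro p
      exact hD 1 p.1 p.2
    refine ⟨β, u, ⟨hug, hab, fun t ht => (hd t ht).trans hδ1, ⟨fun j => (hu j).2.1.trans hδ5, ?_⟩,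
      b₀, hb₀.trans hδ1, ?_⟩, hu0⟩
    · intro k
      apply IVEx.el_rev _ _ hL
      rcases Nat.eq_zero_or_pos k with rfl | hk0
      · intro j hj
        exact absurd hj (by omega)
      · exact (hk k hk0).2.1
    · rw [hu0]
      exact hex

end Pool.Agent.LX
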