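import Pool.Agent.Work.MP_25cd3b_gt.LX.StmtsW
import Pool.Agent.Work.MP_25cd3b_gt.LX.I_KEst
import Pool.Agent.Work.MP_25cd3b_gt.LX.I_VEx

set_option autoImplicit false

/-!
# MP_25cd3b_gt, block LX, item WKe: temporal displacement, explicit errors
-/

open MeasureTheory Set Filter Topology
open scoped ContDiff ENNReal
open Pool.Agent.Work.MP_c9f990_an.Al (IsFlow)

namespace Pool.Agent.LX

open Pool.Agent.MLS Pool.Agent.STR Pool.Agent.LR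

open IKEst in
theorem pr_WKe (h1 : KAl) (h2 : KX1) (h3 : BGen) (h4 : BRev) (h5 : YExc) (h6 : UUn) (h7 : StCvG)
    (h8 : StUG) : WKe := by
  intro n G _ _ g κ φ M lg a c l V P
  have hCv : Cv g κ := ⟨P.riem, P.kpos, P.curv, φ, M, P.flow⟩
  obtain ⟨-, hd, -⟩ := h7 n g κ hCv
  have hPM : IsPM (gd g) := (pr_Gd n g).2.1
  have hinv : ∀ (a : G) (x y : E n), gd g (a • x) (a • y) = gd g x y :=
    (pr_InvD n G P.coc g P.inv).2
  have hsh : ∀ σ, UG g σ → ∀ s, UG g (fun t => σ (t + s)) := fun σ hσ => (h8 n g σ hσ).1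
  have hrv : ∀ σ, UG g σ → ∀ s, UG g (fun t => σ (s - t)) := fun σ hσ => (h8 n g σ hσ).2.1
  have hac : ∀ σ, UG g σ → ∀ b : G, UG g (fun t => b • σ t) := fun σ hσ b =>
    ((h8 n g σ hσ).2.2 G P.coc P.riem P.inv b).1
  obtain ⟨lam, K, r, hG⟩ := h3 n G g κ φ M lg a c l V P
  have hG' : Gen lam K r (Lk g φ a (c 0) l V) (fderiv ℝ (Lk g φ a (c 0) l V))
    (fderiv ℝ (fderiv ℝ (Lk g φ a (c 0) l V))) (Dk g φ a (c 0) l V) := hG
  obtain ⟨ρ₁, hρ₁, hUf, hUb⟩ := h6 V lam K r _ _ _ hG'.ch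
  obtain ⟨C₂, ρ₂, hC₂, hρ₂, hExc⟩ := h5 V lam K r _ _ _ _ hG'
  obtain ⟨C₃, ρ₃, hC₃, hρ₃, hA⟩ := h1 n G g κ φ M lg a c l V P
  obtain ⟨P', hDr, -⟩ := h4 n G g κ φ M lg a c l V P
  obtain ⟨C₄, ρ₄, hC₄, hρ₄, hB⟩ := h1 n G g κ φ M lg a⁻¹ (fun t => c (-t)) l V P'
  have hl := P.pos
  obtain ⟨b₁, hb₁⟩ : ∃ b₁ : ℝ, b₁ = min 1 (min (l / 2) (1 / (2 * l))) := ⟨_, rfl⟩
  have hb0 : 0 < b₁ := by rw [hb₁]; positivity
  have hb1 : b₁ ≤ 1 := by rw [hb₁]; exact min_le_left _ _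
  have hbl : b₁ ≤ l / 2 := by
    rw [hb₁]; exact (min_le_right _ _).trans (min_le_left _ _)
  have hbu : 2 * l ≤ 1 / b₁ := by
    have h : b₁ ≤ 1 / (2 * l) := by
      rw [hb₁]; exact (min_le_right _ _).trans (min_le_right _ _)
    rw [le_div_iff₀ hb0]
    calc 2 * l * b₁ ≤ 2 * l * (1 / (2 * l)) := mul_le_mul_of_nonneg_left h (by positivity)
      _ = 1 := by field_simp
  obtain ⟨C₆, e₀, hC₆, he₀, hX⟩ := h2 κ b₁ P.kpos hb0 hb1
  have hX' := hX n g hCv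
  -- constants
  obtain ⟨Q, hQ⟩ : ∃ Q : ℝ, Q = C₃ + C₄ := ⟨_, rfl⟩
  have hQ0 : 0 < Q := by rw [hQ]; linarith
  have hW0 : 0 < (C₆ + 1) * C₂ := by positivity
  obtain ⟨ρ, hρ0, hρ1, hρ2, hρ3, hρ4, hρl, hρe⟩ : ∃ ρ : ℝ, 0 < ρ ∧ Q * ρ ≤ ρ₁ ∧ ρ ≤ ρ₂ ∧
      ρ ≤ ρ₃ ∧ ρ ≤ ρ₄ ∧ Q * ρ ≤ l / 4 ∧ (C₆ + 1) * C₂ * ρ ≤ e₀ := by
    refine ⟨min (min (ρ₁ / Q) ρ₂) (min (min ρ₃ ρ₄) (min (l / (4 * Q)) (e₀ / ((C₆ + 1) * C₂)))),
      by positivity, ?_, ?_, ?_, ?_, ?_, ?_⟩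
    · have := (min_le_left (min (ρ₁ / Q) ρ₂)
        (min (min ρ₃ ρ₄) (min (l / (4 * Q)) (e₀ / ((C₆ + 1) * C₂))))).trans (min_le_left _ _)
      rw [le_div_iff₀ hQ0] at this
      linarith
    · exact (min_le_left _ _).trans (min_le_right _ _)
    · exact (min_le_right _ _).trans ((min_le_left _ _).trans (min_le_left _ _))
    · exact (min_le_right _ _).trans ((min_le_left _ _).trans (min_le_right _ _))
    · have := (min_le_right (min (ρ₁ / Q) ρ₂)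
        (min (min ρ₃ ρ₄) (min (l / (4 * Q)) (e₀ / ((C₆ + 1) * C₂))))).trans
        ((min_le_right _ _).trans (min_le_left _ _))
      rw [le_div_iff₀ (by positivity)] at this
      linarith
    · have := (min_le_right (min (ρ₁ / Q) ρ₂)
        (min (min ρ₃ ρ₄) (min (l / (4 * Q)) (e₀ / ((C₆ + 1) * C₂))))).trans
        ((min_le_right _ _).trans (min_le_right _ _))
      rw [le_div_iff₀ hW0] at this
      linarith
  have hq3 : C₃ * ρ ≤ Q * ρ := mul_le_mul_of_nonneg_right (by rw [hQ]; linarith) hρ0.le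
  have hq4 : C₄ * ρ ≤ Q * ρ := mul_le_mul_of_nonneg_right (by rw [hQ]; linarith) hρ0.le
  have hqρ : ρ ≤ Q * ρ := by
    have : 1 * ρ ≤ Q * ρ := mul_le_mul_of_nonneg_right (by rw [hQ]; linarith) hρ0.le
    linarith
  refine ⟨(C₆ + C₆ * (C₆ + 1)) * C₂, ρ, by positivity, hρ0, ?_⟩
  intro α β p v u a₀ b₀ k hFw hBw ha₀ hαx hb₀ hβz hk2 hu0 huk hun huT hS
  have hk1' : 1 ≤ k := by omega
  have hα := hFw.ug
  have hβ := hBw.ug
  have hx : ‖p 0‖ ≤ ρ := hFw.ch.small 0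
  have hz : ‖v 0‖ ≤ ρ := hBw.ch.small 0
  -- the chain of `α` is `p`
  obtain ⟨uα, t, huα0, ht0, huα, hLα, hTα⟩ := hA ρ a₀ α (p 0) hρ0 hρ3 hα ha₀ hx hαx hFw.near
  have hup : uα = p := by
    apply hUf uα p ⟨fun j => ((huα j).2.1).trans (by linarith), fun k => ?_⟩
      ⟨fun j => (hFw.ch.small j).trans (by linarith), hFw.ch.el⟩ huα0
    rcases Nat.eq_zero_or_pos k with rfl | hk0
    · intro j hj
      exact absurd hj (by omega)
    · exact (hTα k hk0).2.1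
  subst hup
  -- the chain of `β` is `v`
  have hβ' : UG g (fun t => β (0 - t)) := hrv β hβ 0
  obtain ⟨w, sv, hv0, hs0, hv, hLv, hTv⟩ := hB ρ (-b₀) (fun t => β (0 - t)) (v 0) hρ0 hρ4 hβ'
    (by rw [abs_neg]; exact hb₀) hz (by
      show β (0 - -b₀) = expo φ g (c (-0)) (v 0)
      rw [zero_sub, neg_neg, neg_zero]; exact hβz) (by
      intro t ht
      show gd g (β (0 - t)) (c (-t)) ≤ ρ
      rw [zero_sub]
      exact hBw.near (-t) (by linarith))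
  simp only [neg_zero] at hv hLv hTv
  have hLr : ∀ p q : V, Lk g φ a⁻¹ (c 0) l V (p, q) = Lk g φ a (c 0) l V (q, p) := fun p q =>
    hDr 1 p q
  have hLr' : ∀ p : V × V, Lk g φ a⁻¹ (c 0) l V p = Lk g φ a (c 0) l V p.swap := fun p =>
    hDr 1 p.1 p.2
  have hwv : w = v := by
    apply hUb w v ⟨fun j => ((hv j).2.1).trans (by linarith), fun k => ?_⟩
      ⟨fun j => (hBw.ch.small j).trans (by linarith), hBw.ch.el⟩ hv0
    apply IVEx.el_rev _ _ hLr'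
    rcases Nat.eq_zero_or_pos k with rfl | hk0
    · intro j hj
      exact absurd hj (by omega)
    · exact (hTv k hk0).2.1
  subst hwv
  -- the excesses
  obtain ⟨S, hSd⟩ : ∃ S : ℝ, S = ‖u 1 - uα 1‖ ^ 2 + ‖u (k - 1) - w 1‖ ^ 2 := ⟨_, rfl⟩
  rw [← hSd] at hS ⊢
  have hS0 : 0 ≤ S := by rw [hSd]; positivity
  have hx1 := (hExc k u hk2 (fun j hj => (hun j hj).trans hρ2) huT (uα 1)
    ((hFw.ch.small 1).trans hρ2)).1
  have hx2 := (hExc k u hk2 (fun j hj => (hun j hj).trans hρ2) huT (w 1)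
    ((hBw.ch.small 1).trans hρ2)).2
  rw [norm_sub_rev] at hx1 hx2
  rw [huk, hu0] at hx1 hx2
  have hy1 : C₂ * ‖u 1 - uα 1‖ ^ 2 ≤ C₂ * S := by
    apply mul_le_mul_of_nonneg_left _ hC₂.le
    rw [hSd]
    nlinarith [sq_nonneg ‖u (k - 1) - w 1‖]
  have hy2 : C₂ * ‖u (k - 1) - w 1‖ ^ 2 ≤ C₂ * S := by
    apply mul_le_mul_of_nonneg_left _ hC₂.le
    rw [hSd]
    nlinarith [sq_nonneg ‖u 1 - uα 1‖]
  have he' : (C₆ + 1) * (C₂ * S) ≤ e₀ := by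
    have h : (C₆ + 1) * C₂ * S ≤ (C₆ + 1) * C₂ * ρ := mul_le_mul_of_nonneg_left hS hW0.le
    calc (C₆ + 1) * (C₂ * S) = (C₆ + 1) * C₂ * S := by ring
      _ ≤ _ := h.trans hρe
  -- times
  have ht1 := (huα 1).2.2
  have hs1 := (hv 1).2.2
  rw [ht0] at hLα
  rw [hs0, hLr] at hLv
  rw [Nat.cast_one, one_mul] at ht1 hs1
  rw [abs_le] at ht1 hs1 ha₀ hb₀
  have hk1c : ((k - 1 : ℕ) : ℝ) = (k : ℝ) - 1 := by rw [Nat.cast_sub hk1', Nat.cast_one]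
  have hlow : ∀ R : ℝ, ρ ≤ R → Dk g φ a (c 0) l V k (uα 0) (w 0) + a₀ - b₀ -
      (C₆ + C₆ * (C₆ + 1)) * C₂ * S ≤
      gd g (α (-R)) (a ^ k • β R) - 2 * R - k * l := by
    intro R hR
    have h := est hPM hinv hd hsh hrv hac hC₆ hX' a k hk1' α β hα hβ a₀ b₀ (t 1) (sv 1)
      (expo φ g (c 0) (uα 0)) (expo φ g (c 0) (w 0)) (expo φ g (c 0) (uα 1))
      (expo φ g (c 0) (w 1)) hαx hβz (by rw [(huα 1).1, pow_one])
      (by
        have h := (hv 1).1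
        rw [zero_sub, pow_one] at h
        exact h)
      (by linarith) (by linarith) (by linarith) (by linarith) (C₂ * S) (by positivity) he'
      (by
        unfold Dk at hx1
        rw [hk1c] at hx1
        linarith)
      (by
        unfold Dk at hx2
        rw [hk1c] at hx2
        linarith) R (by linarith) (by linarith)
    unfold Dk
    linarith
  have hupp : ∀ R : ℝ, ρ ≤ R → gd g (α (-R)) (a ^ k • β R) - 2 * R - k * l ≤
      Dk g φ a (c 0) l V k (uα 0) (w 0) + a₀ - b₀ := by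
    intro R hR
    have h := upp hPM hinv hd (a ^ k) α β hα hβ a₀ b₀ R (by linarith) (by linarith)
    rw [hαx, hβz] at h
    unfold Dk
    linarith
  exact lim_tau _ _ _ ρ (anti hPM hinv hd (a ^ k) α β hα hβ (k * l)) hlow hupp

end Pool.Agent.LX
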