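import Pool.Agent.Work.MP_25cd3b_gt.LX.StmtsW
import Pool.Agent.Work.MP_25cd3b_gt.NG.All

set_option autoImplicit false

/-!
# MP_25cd3b_gt, block LX, item WKm: temporal displacement of fast geodesics
-/

open MeasureTheory Set Filter Topology
open scoped ContDiff ENNReal
open Pool.Agent.Work.MP_c9f990_an.Al (IsFlow)

namespace Pool.Agent.LX

open Pool.Agent.MLS Pool.Agent.STR Pool.Agent.LR

namespace IWKm

variable {n : ℕ} {G : Type} [Group G] [MulAction G (E n)] {g : Form n} {κ : ℝ}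
  {φ : ℝ → W n → W n} {M : ℝ → W n → W n →L[ℝ] W n} {lg : E n → E n → E n} {a : G}
  {c : ℝ → E n} {l : ℝ} {V : Submodule ℝ (E n)}

theorem per' (hP : Per n G g κ φ M lg a c l V) (j : ℕ) (t : ℝ) :
    c (j * l + t) = a ^ j • c t := by
  induction j with
  | zero => simp
  | succ j ih =>
    have h1 : ((j + 1 : ℕ) : ℝ) * l + t = (j * l + t) + l := by
      push_cast
      ring
    rw [h1, hP.per, ih, pow_succ', mul_smul]

/-- displacement of a forward asymptotic geodesic and `c` -/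
theorem tauA (hP : Per n G g κ φ M lg a c l V)
    (hd : ∀ σ, UG g σ → ∀ s t, gd g (σ s) (σ t) = |s - t|) (k : ℕ) {α : ℝ → E n}
    (hα : UG g α) (hA : As g α c) : Tau g a α c k l 0 := by
  have hpm := (pr_Gd n g).2.1
  have hkl : 0 ≤ (k : ℝ) * l := mul_nonneg (Nat.cast_nonneg k) hP.pos.le
  have hlim : Tendsto (fun R : ℝ => gd g (α (k * l + R)) (c (k * l + R))) atTop (𝓝 0) :=
    hA.comp (tendsto_atTop_add_const_left _ _ tendsto_id)
  refine squeeze_zero_norm' ?_ hlim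
  filter_upwards [eventually_ge_atTop (0 : ℝ)] with R hR
  have h1 := hd α hα (-R) (k * l + R)
  have h2 : |-R - (k * l + R)| = 2 * R + k * l := by
    rw [abs_of_nonpos (by linarith)]
    ring
  rw [h2] at h1
  have t1 := hpm.tri (α (-R)) (α (k * l + R)) (c (k * l + R))
  have t2 := hpm.tri (α (-R)) (c (k * l + R)) (α (k * l + R))
  rw [hpm.symm (c (k * l + R)) (α (k * l + R))] at t2
  rw [← per' hP, Real.norm_eq_abs, abs_le]
  constructor <;> linarith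

/-- displacement of `c` and a backward asymptotic geodesic -/
theorem tauB (hP : Per n G g κ φ M lg a c l V)
    (hd : ∀ σ, UG g σ → ∀ s t, gd g (σ s) (σ t) = |s - t|) (k : ℕ) {β : ℝ → E n}
    (hβ : UG g β) (hB : Ab g β c) : Tau g a c β k l 0 := by
  have hpm := (pr_Gd n g).2.1
  have hinv := (pr_InvD n G hP.coc g hP.inv).2
  have hkl : 0 ≤ (k : ℝ) * l := mul_nonneg (Nat.cast_nonneg k) hP.pos.le
  have hlim : Tendsto (fun R : ℝ => gd g (β (-(k * l + R))) (c (-(k * l + R)))) atTop (𝓝 0) :=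
    hB.comp (tendsto_atTop_add_const_left _ _ tendsto_id)
  refine squeeze_zero_norm' ?_ hlim
  filter_upwards [eventually_ge_atTop (0 : ℝ)] with R hR
  have h1 := hd β hβ (-(k * l + R)) R
  have h2 : |-(k * l + R) - R| = 2 * R + k * l := by
    rw [abs_of_nonpos (by linarith)]
    ring
  rw [h2] at h1
  have h3 : c (-R) = a ^ k • c (-(k * l + R)) := by
    rw [← per' hP]
    congr 1
    ring
  have t1 := hpm.tri (c (-(k * l + R))) (β (-(k * l + R))) (β R)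
  have t2 := hpm.tri (β (-(k * l + R))) (c (-(k * l + R))) (β R)
  rw [hpm.symm (c (-(k * l + R))) (β (-(k * l + R)))] at t1
  rw [h3, hinv, Real.norm_eq_abs, abs_le]
  constructor <;> linarith

theorem fw_mono {ρ ρ' : ℝ} (h : ρ ≤ ρ') {α : ℝ → E n} {p : ℕ → V} (hF : Fw g φ a c l V ρ α p) :
    Fw g φ a c l V ρ' α p := by
  obtain ⟨h1, h2, h3, h4, a₀, h5, h6⟩ := hF
  exact ⟨h1, h2, fun t ht => (h3 t ht).trans h, ⟨fun j => (h4.small j).trans h, h4.el⟩, a₀, h5.trans h, h6⟩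

theorem bw_mono {ρ ρ' : ℝ} (h : ρ ≤ ρ') {β : ℝ → E n} {v : ℕ → V} (hF : Bw g φ a c l V ρ β v) :
    Bw g φ a c l V ρ' β v := by
  obtain ⟨h1, h2, h3, h4, a₀, h5, h6⟩ := hF
  exact ⟨h1, h2, fun t ht => (h3 t ht).trans h, ⟨fun j => (h4.small j).trans h, h4.el⟩, a₀, h5.trans h, h6⟩

theorem fc_zero {V : Type} [NormedAddCommGroup V] [NormedSpace ℝ V] {L1 : V × V → V × V →L[ℝ] ℝ}
    (h : L1 0 = 0) {ρ : ℝ} (hρ : 0 ≤ ρ) : Fc L1 ρ (fun _ => (0 : V)) := by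
  refine ⟨fun j => by rw [norm_zero]; exact hρ, fun k j _ w => ?_⟩
  have h1 : L1 ((0 : V), (0 : V)) = 0 := h
  rw [h1]
  simp

theorem bc_zero {V : Type} [NormedAddCommGroup V] [NormedSpace ℝ V] {L1 : V × V → V × V →L[ℝ] ℝ}
    (h : L1 0 = 0) {ρ : ℝ} (hρ : 0 ≤ ρ) : Bc L1 ρ (fun _ => (0 : V)) := by
  refine ⟨fun j => by rw [norm_zero]; exact hρ, fun k j _ w => ?_⟩
  have h1 : L1 ((0 : V), (0 : V)) = 0 := h
  rw [h1]
  simp

theorem rt_zero {V : Type} [NormedAddCommGroup V] [NormedSpace ℝ V] (r : ℝ) :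
    Rt r (fun _ => (0 : V)) := ⟨0, fun j => by simp⟩

/-- `C (k+1) exp (-2rk)` is small for large `k` -/
theorem small (C r ε : ℝ) (hr : 0 < r) (hε : 0 < ε) :
    ∃ k₀ : ℕ, ∀ k : ℕ, k₀ ≤ k → C * (k + 1) * Real.exp (-(2 * r * k)) ≤ ε := by
  have hq : Real.exp (-(2 * r)) < 1 := Real.exp_lt_one_iff.2 (by linarith)
  have hq0 : 0 ≤ Real.exp (-(2 * r)) := (Real.exp_pos _).le
  have h1 := tendsto_self_mul_const_pow_of_lt_one hq0 hq
  have h2 := tendsto_pow_atTop_nhds_zero_of_lt_one hq0 hq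
  have h3 : Tendsto (fun k : ℕ => C * ((k : ℝ) * Real.exp (-(2 * r)) ^ k + Real.exp (-(2 * r)) ^ k))
      atTop (𝓝 0) := by
    have := (h1.add h2).const_mul C
    simpa using this
  obtain ⟨k₀, hk₀⟩ := eventually_atTop.1 (h3.eventually (ge_mem_nhds hε))
  refine ⟨k₀, fun k hk => ?_⟩
  have h4 := hk₀ k hk
  have h5 : Real.exp (-(2 * r * k)) = Real.exp (-(2 * r)) ^ k := by
    rw [← Real.exp_nat_mul]
    congr 1
    ring
  rw [h5]
  refine le_trans (le_of_eq ?_) h4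
  ring

end IWKm

open IWKm in
/-- item WKm -/
theorem pr_WKm (h1 : WKe) (h2 : UTi) (h3 : BGen) (h4 : BSm) (h5 : ZC4) (h6 : StCvG) : WKm := by
  intro n G _ _ g κ φ M lg a c l V hP
  obtain ⟨Ce, ρe, hCe, hρe, hE⟩ := h1 n G g κ φ M lg a c l V hP
  obtain ⟨lam, K, r₀, hG⟩ := h3 n G g κ φ M lg a c l V hP
  obtain ⟨b1, b2, ⟨rs, hrs, b3⟩, -⟩ := h4 n G g κ φ M lg a c l V hP
  obtain ⟨K', r', hCh4⟩ := h5 V (Lk g φ a (c 0) l V) rs hrs b3 b1 b2
  obtain ⟨ρ₂, hρ₂, hT⟩ := h2 V lam K r₀ K' r' _ _ _ _ hG hCh4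
  obtain ⟨C₁, ρ₁, hρ₁, hC₁, hex1⟩ := hG.ex
  have hCv : Cv g κ := ⟨hP.riem, hP.kpos, hP.curv, φ, M, hP.flow⟩
  have hd := (h6 n g κ hCv).2.1
  have hpm := (pr_Gd n g).2.1
  have hex : expo φ g (c 0) ((0 : V) : E n) = c 0 := by
    rw [Submodule.coe_zero]
    exact (p_NcExp n g φ M hP.riem hP.flow (c 0)).2.2.2.2
  have hC₁0 : 0 < C₁ := by linarith
  have hm : 0 < min ρe ρ₂ := lt_min hρe hρ₂
  refine ⟨min (min (min ρe ρ₂) ρ₁) (min ρe ρ₂ / C₁), lt_min (lt_min hm hρ₁) (div_pos hm hC₁0), ?_⟩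
  set ρ := min (min (min ρe ρ₂) ρ₁) (min ρe ρ₂ / C₁) with hρdef
  have hρ0 : 0 < ρ := lt_min (lt_min hm hρ₁) (div_pos hm hC₁0)
  have hρe' : ρ ≤ ρe := (min_le_left _ _).trans ((min_le_left _ _).trans (min_le_left _ _))
  have hρ₂' : ρ ≤ ρ₂ := (min_le_left _ _).trans ((min_le_left _ _).trans (min_le_right _ _))
  have hρ₁' : ρ ≤ ρ₁ := (min_le_left _ _).trans (min_le_right _ _)
  have hCρ : C₁ * ρ ≤ min ρe ρ₂ := by
    have h7 : ρ ≤ min ρe ρ₂ / C₁ := min_le_right _ _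
    rw [le_div_iff₀ hC₁0] at h7
    linarith
  have hcF : Fw g φ a c l V ρ c (fun _ => (0 : V)) := by
    refine ⟨hP.ug, ?_, fun t _ => by rw [hpm.self]; exact hρ0.le, fc_zero b2 hρ0.le, 0, by
      simpa using hρ0.le, hex.symm⟩
    have : (fun t => gd g (c t) (c t)) = fun _ => 0 := by
      funext t
      exact hpm.self _
    unfold As
    rw [this]
    exact tendsto_const_nhds
  have hcB : Bw g φ a c l V ρ c (fun _ => (0 : V)) := by
    refine ⟨hP.ug, ?_, fun t _ => by rw [hpm.self]; exact hρ0.le, bc_zero b2 hρ0.le, 0, by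
      simpa using hρ0.le, hex.symm⟩
    have : (fun t => gd g (c (-t)) (c (-t))) = fun _ => 0 := by
      funext t
      exact hpm.self _
    unfold Ab
    rw [this]
    exact tendsto_const_nhds
  -- the estimate for one pair of geodesics
  have key : ∀ (r : ℝ) (α β : ℝ → E n) (p v : ℕ → V), 0 < r → Fw g φ a c l V ρ α p →
      Bw g φ a c l V ρ β v → Rt r p → Rt r v → ∀ a₀ b₀ : ℝ, |a₀| ≤ ρ →
      α a₀ = expo φ g (c 0) (p 0) → |b₀| ≤ ρ → β b₀ = expo φ g (c 0) (v 0) →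
      ∃ (C : ℝ) (k₀ : ℕ), 0 ≤ C ∧ ∀ k : ℕ, k₀ ≤ k → ∃ τ : ℝ, Tau g a α β k l τ ∧
        Dk g φ a (c 0) l V k (p 0) (v 0) + a₀ - b₀ - C * (k + 1) * Real.exp (-(2 * r * k)) ≤ τ ∧
        τ ≤ Dk g φ a (c 0) l V k (p 0) (v 0) + a₀ - b₀ := by
    intro r α β p v hr hα hβ hp hv a₀ b₀ ha₀ hαa hb₀ hβb
    obtain ⟨C₂, hC₂, hU⟩ := hT r p v hr (fw_mono hρ₂' hα).ch (bw_mono hρ₂' hβ).ch hp hv
    obtain ⟨k₀, hk₀⟩ := small C₂ r ρe hr hρe
    refine ⟨Ce * C₂, max k₀ 2, by positivity, fun k hk => ?_⟩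
    have hk0 : k₀ ≤ k := (le_max_left _ _).trans hk
    have hk2 : 2 ≤ k := (le_max_right _ _).trans hk
    have hp0 : ‖p 0‖ ≤ ρ := hα.ch.small 0
    have hv0 : ‖v 0‖ ≤ ρ := hβ.ch.small 0
    obtain ⟨u, hu0, huk, huj, hut⟩ := hex1 k (by omega) (p 0) (v 0) (hp0.trans hρ₁')
      (hv0.trans hρ₁')
    have huj' : ∀ j ≤ k, ‖u j‖ ≤ min ρe ρ₂ := fun j hj =>
      (huj j hj).trans ((mul_le_mul_of_nonneg_left (max_le hp0 hv0) hC₁0.le).trans hCρ)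
    have herr := hU k u hk2 hut hu0 huk (fun j hj => (huj' j hj).trans (min_le_right _ _))
    obtain ⟨τ, hτ, hτ1, hτ2⟩ := hE α β p v u a₀ b₀ k (fw_mono hρe' hα) (bw_mono hρe' hβ)
      (ha₀.trans hρe') hαa (hb₀.trans hρe') hβb hk2 hu0 huk
      (fun j hj => (huj' j hj).trans (min_le_left _ _)) hut (herr.trans (hk₀ k hk0))
    refine ⟨τ, hτ, ?_, hτ2⟩
    have h7 := mul_le_mul_of_nonneg_left herr hCe.le
    have h8 : Ce * C₂ * (k + 1) * Real.exp (-(2 * r * k)) =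
        Ce * (C₂ * (k + 1) * Real.exp (-(2 * r * k))) := by ring
    rw [h8]
    linarith
  intro r α β p v hr hα hβ hp hv
  obtain ⟨a₀, ha₀, hαa⟩ := hα.st
  obtain ⟨b₀, hb₀, hβb⟩ := hβ.st
  have h00 : |(0 : ℝ)| ≤ ρ := by simpa using hρ0.le
  obtain ⟨C₃, k₃, hC₃, h3'⟩ := key r α β p v hr hα hβ hp hv a₀ b₀ ha₀ hαa hb₀ hβb
  obtain ⟨C₄, k₄, hC₄, h4'⟩ := key r α c p (fun _ => 0) hr hα hcB hp (rt_zero r) a₀ 0 ha₀ hαa h00
    hex.symm
  obtain ⟨C₅, k₅, hC₅, h5'⟩ := key r c β (fun _ => 0) v hr hcF hβ (rt_zero r) hv 0 b₀ h00 hex.symm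
    hb₀ hβb
  refine ⟨C₃ + C₄ + C₅, max k₃ (max k₄ k₅), fun k hk => ?_⟩
  have hk3 : k₃ ≤ k := (le_max_left _ _).trans hk
  have hk4 : k₄ ≤ k := (le_max_left _ _).trans ((le_max_right _ _).trans hk)
  have hk5 : k₅ ≤ k := (le_max_right _ _).trans ((le_max_right _ _).trans hk)
  obtain ⟨τ, hτ, hτ1, hτ2⟩ := h3' k hk3
  obtain ⟨τ₁, hτ₁, hp1, hp2⟩ := h4' k hk4
  obtain ⟨τ₂, hτ₂, hq1, hq2⟩ := h5' k hk5
  have e1 : τ₁ = 0 := tendsto_nhds_unique hτ₁ (tauA hP hd k hα.ug hα.as)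
  have e2 : τ₂ = 0 := tendsto_nhds_unique hτ₂ (tauB hP hd k hβ.ug hβ.as)
  rw [e1] at hp1 hp2
  rw [e2] at hq1 hq2
  refine ⟨τ, hτ, ?_⟩
  have hX : 0 ≤ ((k : ℝ) + 1) * Real.exp (-(2 * r * k)) := by positivity
  have g3 := mul_nonneg hC₃ hX
  have g4 := mul_nonneg hC₄ hX
  have g5 := mul_nonneg hC₅ hX
  have e3 : (C₃ + C₄ + C₅) * (k + 1) * Real.exp (-(2 * r * k)) =
      C₃ * ((k + 1) * Real.exp (-(2 * r * k))) + C₄ * ((k + 1) * Real.exp (-(2 * r * k))) +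
        C₅ * ((k + 1) * Real.exp (-(2 * r * k))) := by ring
  rw [mul_assoc] at hτ1 hp1 hq1
  rw [e3, Mx, abs_le]
  constructor <;> linarith

end Pool.Agent.LX
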