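import Pool.Agent.Work.MP_25cd3b_gt.LX.StmtsW
import Pool.Agent.Work.MP_25cd3b_gt.LX.I_VCon

set_option autoImplicit false

/-!
# MP_25cd3b_gt, block LX, item WPa: small chains of one metric have partners for the other metric
-/

open MeasureTheory Set Filter Topology
open scoped ContDiff ENNReal
open Pool.Agent.Work.MP_c9f990_an.Al (IsFlow)

namespace Pool.Agent.LX

open Pool.Agent.MLS Pool.Agent.STR Pool.Agent.LR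

namespace IWPa

variable {n : ℕ} {G : Type} [Group G] [MulAction G (E n)]

/-- small forward chains of the first metric -/
theorem fch (h2 : VEx) (h3 : VGv) (h4 : RT1) (h6 : UUn) (h7 : BGen) {g1 g2 : Form n}
    {κ κ₁ κ₂ : ℝ} {φ₁ φ₂ : ℝ → W n → W n} {M₁ M₂ : ℝ → W n → W n →L[ℝ] W n}
    {lg₁ lg₂ : E n → E n → E n} {a : G} {c₁ c₂ : ℝ → E n} {l D : ℝ} {V₁ V₂ : Submodule ℝ (E n)}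
    (hp₁ : Per n G g1 κ₁ φ₁ M₁ lg₁ a c₁ l V₁) (hp₂ : Per n G g2 κ₂ φ₂ M₂ lg₂ a c₂ l V₂)
    (hD : Pr2 n G g1 g2 κ a c₁ c₂ l D) (ρ : ℝ) (hρ : 0 < ρ) : ∃ C ρ₁ : ℝ, 0 < ρ₁ ∧
    ∀ p1, Fc (fderiv ℝ (Lk g1 φ₁ a (c₁ 0) l V₁)) ρ₁ p1 → ∃ (α1 α2 : ℝ → E n) (p2 : ℕ → V₂),
      Fw g1 φ₁ a c₁ l V₁ ρ α1 p1 ∧ Fw g2 φ₂ a c₂ l V₂ ρ α2 p2 ∧
        ∀ t, gd g2 (α1 t) (α2 t) ≤ C := by
  obtain ⟨lam, K, r, hG⟩ := h7 n G g1 κ₁ φ₁ M₁ lg₁ a c₁ l V₁ hp₁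
  obtain ⟨ρu, hρu, hu, -⟩ := h6 V₁ lam K r _ _ _ hG.ch
  obtain ⟨C, hC⟩ := IVCon.fwd h2 h3 h4 hp₁ hp₂ hD
  obtain ⟨ρ₀, hρ₀, hF⟩ := hC (min ρ ρu) ρ (lt_min hρ hρu) hρ
  refine ⟨C, min ρ₀ ρu, lt_min hρ₀ hρu, fun p1 hp1 => ?_⟩
  obtain ⟨α, p, α2, p2, hα, hα2, hb, hp0⟩ := hF (p1 0) ((hp1.small 0).trans (min_le_left _ _))
  have e : p = p1 := hu p p1
    ⟨fun j => (hα.ch.small j).trans (min_le_right _ _), hα.ch.el⟩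
    ⟨fun j => (hp1.small j).trans (min_le_right _ _), hp1.el⟩ hp0
  rw [e] at hα
  exact ⟨α, α2, p2, IVCon.fwMono hα (min_le_left _ _), hα2, hb⟩

/-- small backward chains of the first metric -/
theorem bch (h2 : VEx) (h3 : VGv) (h5 : RT2) (h6 : UUn) (h7 : BGen) {g1 g2 : Form n}
    {κ κ₁ κ₂ : ℝ} {φ₁ φ₂ : ℝ → W n → W n} {M₁ M₂ : ℝ → W n → W n →L[ℝ] W n}
    {lg₁ lg₂ : E n → E n → E n} {a : G} {c₁ c₂ : ℝ → E n} {l D : ℝ} {V₁ V₂ : Submodule ℝ (E n)}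
    (hp₁ : Per n G g1 κ₁ φ₁ M₁ lg₁ a c₁ l V₁) (hp₂ : Per n G g2 κ₂ φ₂ M₂ lg₂ a c₂ l V₂)
    (hD : Pr2 n G g1 g2 κ a c₁ c₂ l D) (ρ : ℝ) (hρ : 0 < ρ) : ∃ C ρ₁ : ℝ, 0 < ρ₁ ∧
    ∀ v1, Bc (fderiv ℝ (Lk g1 φ₁ a (c₁ 0) l V₁)) ρ₁ v1 → ∃ (β1 β2 : ℝ → E n) (v2 : ℕ → V₂),
      Bw g1 φ₁ a c₁ l V₁ ρ β1 v1 ∧ Bw g2 φ₂ a c₂ l V₂ ρ β2 v2 ∧
        ∀ t, gd g2 (β1 t) (β2 t) ≤ C := by
  obtain ⟨lam, K, r, hG⟩ := h7 n G g1 κ₁ φ₁ M₁ lg₁ a c₁ l V₁ hp₁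
  obtain ⟨ρu, hρu, -, hu⟩ := h6 V₁ lam K r _ _ _ hG.ch
  obtain ⟨C, hC⟩ := IVCon.bwd h2 h3 h5 hp₁ hp₂ hD
  obtain ⟨ρ₀, hρ₀, hF⟩ := hC (min ρ ρu) ρ (lt_min hρ hρu) hρ
  refine ⟨C, min ρ₀ ρu, lt_min hρ₀ hρu, fun p1 hp1 => ?_⟩
  obtain ⟨α, p, α2, p2, hα, hα2, hb, hp0⟩ := hF (p1 0) ((hp1.small 0).trans (min_le_left _ _))
  have e : p = p1 := hu p p1
    ⟨fun j => (hα.ch.small j).trans (min_le_right _ _), hα.ch.el⟩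
    ⟨fun j => (hp1.small j).trans (min_le_right _ _), hp1.el⟩ hp0
  rw [e] at hα
  exact ⟨α, α2, p2, IVCon.bwMono hα (min_le_left _ _), hα2, hb⟩

end IWPa

theorem pr_WPa (h1 : RPr) (h2 : VEx) (h3 : VGv) (h4 : RT1) (h5 : RT2) (h6 : UUn) (h7 : BGen) :
    WPa := by
  intro n G _ _ g1 g2 κ₁ κ₂ φ₁ φ₂ M₁ M₂ lg₁ lg₂ a c₁ c₂ l V₁ V₂ h ρ hρ
  obtain ⟨D, hD⟩ := h1 n G g1 g2 κ₁ κ₂ φ₁ φ₂ M₁ M₂ lg₁ lg₂ a c₁ c₂ l V₁ V₂ h.P1 h.P2 h.n1 h.n2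
    h.eqL
  obtain ⟨D', hD'⟩ := h1 n G g2 g1 κ₂ κ₁ φ₂ φ₁ M₂ M₁ lg₂ lg₁ a c₂ c₁ l V₂ V₁ h.P2 h.P1 h.n2 h.n1
    (fun b => (h.eqL b).symm)
  obtain ⟨C₁, ρ₁, hρ₁, H₁⟩ := IWPa.fch h2 h3 h4 h6 h7 h.P1 h.P2 hD ρ hρ
  obtain ⟨C₂, ρ₂, hρ₂, H₂⟩ := IWPa.fch h2 h3 h4 h6 h7 h.P2 h.P1 hD' ρ hρ
  obtain ⟨C₃, ρ₃, hρ₃, H₃⟩ := IWPa.bch h2 h3 h5 h6 h7 h.P1 h.P2 hD ρ hρ
  obtain ⟨C₄, ρ₄, hρ₄, H₄⟩ := IWPa.bch h2 h3 h5 h6 h7 h.P2 h.P1 hD' ρ hρ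
  refine ⟨min (min ρ₁ ρ₂) (min ρ₃ ρ₄), lt_min (lt_min hρ₁ hρ₂) (lt_min hρ₃ hρ₄), ?_, ?_, ?_, ?_⟩
  · intro p1 hp
    obtain ⟨α1, α2, p2, e1, e2, e3⟩ := H₁ p1 ⟨fun j => (hp.small j).trans
      ((min_le_left _ _).trans (min_le_left _ _)), hp.el⟩
    exact ⟨p2, α1, α2, e1, e2, C₁, e3⟩
  · intro p2 hp
    obtain ⟨α2, α1, p1, e2, e1, e3⟩ := H₂ p2 ⟨fun j => (hp.small j).trans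
      ((min_le_left _ _).trans (min_le_right _ _)), hp.el⟩
    exact ⟨p1, α1, α2, e1, e2, C₂ + D, fun t => IVCon.swapBd hD.cmp (e3 t)⟩
  · intro v1 hv
    obtain ⟨β1, β2, v2, e1, e2, e3⟩ := H₃ v1 ⟨fun j => (hv.small j).trans
      ((min_le_right _ _).trans (min_le_left _ _)), hv.el⟩
    exact ⟨v2, β1, β2, e1, e2, C₃, e3⟩
  · intro v2 hv
    obtain ⟨β2, β1, v1, e2, e1, e3⟩ := H₄ v2 ⟨fun j => (hv.small j).trans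
      ((min_le_right _ _).trans (min_le_right _ _)), hv.el⟩
    exact ⟨v1, β1, β2, e1, e2, C₄ + D, fun t => IVCon.swapBd hD.cmp (e3 t)⟩

end Pool.Agent.LX
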