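import Pool.Agent.Work.MP_25cd3b_gt.LX.StmtsW

set_option autoImplicit false

/-!
# MP_25cd3b_gt, block LX: item WRv (the transfer map of the reversed geodesic)
-/

open MeasureTheory Set Filter Topology
open scoped ContDiff ENNReal
open Pool.Agent.Work.MP_c9f990_an.Al (IsFlow)

namespace Pool.Agent.LX

open Pool.Agent.MLS Pool.Agent.STR Pool.Agent.LR

namespace IWRv

/-- the exchange of the two components -/
noncomputable abbrev Sw (V : Type) [NormedAddCommGroup V] [NormedSpace ℝ V] :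
    (V × V) ≃L[ℝ] (V × V) := ContinuousLinearEquiv.prodComm ℝ V V

theorem Sw_apply {V : Type} [NormedAddCommGroup V] [NormedSpace ℝ V] (p : V × V) :
    Sw V p = p.swap := rfl

theorem fd {V : Type} [NormedAddCommGroup V] [NormedSpace ℝ V] (L L' : V × V → ℝ)
    (h : ∀ p, L' p = L p.swap) :
    fderiv ℝ L' = fun p => (fderiv ℝ L (Sw V p)).comp (Sw V : (V × V) →L[ℝ] (V × V)) := by
  have e : L' = L ∘ (Sw V) := funext h
  funext p
  rw [e, ContinuousLinearEquiv.comp_right_fderiv]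

theorem snd {V : Type} [NormedAddCommGroup V] [NormedSpace ℝ V] (L L' : V × V → ℝ)
    (h : ∀ p, L' p = L p.swap) (hd : DifferentiableAt ℝ (fderiv ℝ L) 0) (q q' : V × V) :
    fderiv ℝ (fderiv ℝ L') 0 q q' = fderiv ℝ (fderiv ℝ L) 0 q.swap q'.swap := by
  let S : (V × V) →L[ℝ] (V × V) := (Sw V : (V × V) →L[ℝ] (V × V))
  let R : ((V × V) →L[ℝ] ℝ) →L[ℝ] ((V × V) →L[ℝ] ℝ) :=
    (ContinuousLinearMap.compL ℝ (V × V) (V × V) ℝ).flip S
  have hR : ∀ f : (V × V) →L[ℝ] ℝ, R f = f.comp S := fun f => rfl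
  have h0 : S 0 = 0 := map_zero S
  have h1 : HasFDerivAt (fderiv ℝ L) (fderiv ℝ (fderiv ℝ L) 0) (S 0) := by
    rw [h0]
    exact hd.hasFDerivAt
  have h2 : HasFDerivAt (fun p => fderiv ℝ L (S p)) ((fderiv ℝ (fderiv ℝ L) 0).comp S) 0 :=
    h1.comp 0 S.hasFDerivAt
  have h3 : HasFDerivAt (fun p => R (fderiv ℝ L (S p)))
      (R.comp ((fderiv ℝ (fderiv ℝ L) 0).comp S)) 0 := R.hasFDerivAt.comp 0 h2
  have h4 : fderiv ℝ L' = fun p => R (fderiv ℝ L (S p)) := fd L L' h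
  rw [h4, h3.fderiv]
  rfl

end IWRv

open IWRv in
theorem pr_WRv (h1 : BRev) (h2 : BSm) : WRv := by
  intro n G _ _ g κ φ M lg a c l V P T hT
  obtain ⟨-, hD, -⟩ := h1 n G g κ φ M lg a c l V P
  obtain ⟨-, -, ⟨r, hr, hsm⟩, -⟩ := h2 n G g κ φ M lg a c l V P
  have hL : ∀ p : V × V, Lk g φ a⁻¹ (c 0) l V p = Lk g φ a (c 0) l V p.swap := by
    intro p
    exact hD 1 p.1 p.2
  have hC : ContDiffAt ℝ ∞ (Lk g φ a (c 0) l V) 0 := hsm 0 (by rwa [norm_zero])
  have hd : DifferentiableAt ℝ (fderiv ℝ (Lk g φ a (c 0) l V)) 0 := by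
    have h3 : ContDiffAt ℝ 1 (fderiv ℝ (Lk g φ a (c 0) l V)) 0 :=
      hC.fderiv_right (m := 1) (by norm_cast)
    exact h3.differentiableAt (by norm_num)
  have hH : ∀ q q' : V × V, HH g φ a⁻¹ (c 0) l V q q' = HH g φ a (c 0) l V q.swap q'.swap :=
    fun q q' => snd _ _ hL hd q q'
  refine ⟨(Sw V).trans (T.symm.trans (Sw V)), ?_, fun w => rfl⟩
  intro a' b
  have e1 : ((Sw V).trans (T.symm.trans (Sw V))) (a', b) = (T.symm (b, a')).swap := rfl
  rw [e1]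
  rcases hx : T.symm (b, a') with ⟨x, b'⟩
  have e2 : T (x, b') = (b, a') := by rw [← hx, T.apply_symm_apply]
  obtain ⟨h5, h6⟩ := hT x b'
  rw [e2] at h5 h6
  have e3 : b = b' := h5
  subst e3
  refine ⟨rfl, fun w => ?_⟩
  rw [hH, hH]
  have h7 := h6 w
  simp only [Prod.swap_prod_mk]
  linarith

end Pool.Agent.LX
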