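import Pool.Agent.Work.MP_25cd3b_gt.LX.StmtsW

set_option autoImplicit false

/-!
# MP_25cd3b_gt, block LX, item WSt: the level step
-/

open MeasureTheory Set Filter Topology
open scoped ContDiff ENNReal
open Pool.Agent.Work.MP_c9f990_an.Al (IsFlow)

namespace Pool.Agent.LX

open Pool.Agent.MLS Pool.Agent.STR Pool.Agent.LR

namespace IWSt

variable {n : ℕ} {G : Type} [Group G] [MulAction G (E n)]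

theorem Fw_mono {g : Form n} {φ : ℝ → W n → W n} {a : G} {c : ℝ → E n} {l : ℝ}
    {V : Submodule ℝ (E n)} {ρ ρ' : ℝ} {α : ℝ → E n} {p : ℕ → V} (h : ρ ≤ ρ')
    (hF : Fw g φ a c l V ρ α p) : Fw g φ a c l V ρ' α p := by
  refine ⟨hF.ug, hF.as, fun t ht => (hF.near t ht).trans h, ⟨fun j => (hF.ch.small j).trans h,
    hF.ch.el⟩, ?_⟩
  obtain ⟨a₀, h1, h2⟩ := hF.st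
  exact ⟨a₀, h1.trans h, h2⟩

theorem Bw_mono {g : Form n} {φ : ℝ → W n → W n} {a : G} {c : ℝ → E n} {l : ℝ}
    {V : Submodule ℝ (E n)} {ρ ρ' : ℝ} {β : ℝ → E n} {v : ℕ → V} (h : ρ ≤ ρ')
    (hF : Bw g φ a c l V ρ β v) : Bw g φ a c l V ρ' β v := by
  refine ⟨hF.ug, hF.as, fun t ht => (hF.near t ht).trans h, ⟨fun j => (hF.ch.small j).trans h,
    hF.ch.el⟩, ?_⟩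
  obtain ⟨b₀, h1, h2⟩ := hF.st
  exact ⟨b₀, h1.trans h, h2⟩

theorem MF_mono {g1 g2 : Form n} {φ₁ φ₂ : ℝ → W n → W n} {a : G} {c₁ c₂ : ℝ → E n} {l : ℝ}
    {V₁ V₂ : Submodule ℝ (E n)} {ρ ρ' : ℝ} {p1 : ℕ → V₁} {p2 : ℕ → V₂} (h : ρ ≤ ρ')
    (hM : MF g1 g2 φ₁ φ₂ a c₁ c₂ l V₁ V₂ ρ p1 p2) : MF g1 g2 φ₁ φ₂ a c₁ c₂ l V₁ V₂ ρ' p1 p2 := by
  obtain ⟨α1, α2, h1, h2, h3⟩ := hM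
  exact ⟨α1, α2, Fw_mono h h1, Fw_mono h h2, h3⟩

theorem MB_mono {g1 g2 : Form n} {φ₁ φ₂ : ℝ → W n → W n} {a : G} {c₁ c₂ : ℝ → E n} {l : ℝ}
    {V₁ V₂ : Submodule ℝ (E n)} {ρ ρ' : ℝ} {v1 : ℕ → V₁} {v2 : ℕ → V₂} (h : ρ ≤ ρ')
    (hM : MB g1 g2 φ₁ φ₂ a c₁ c₂ l V₁ V₂ ρ v1 v2) : MB g1 g2 φ₁ φ₂ a c₁ c₂ l V₁ V₂ ρ' v1 v2 := by
  obtain ⟨β1, β2, h1, h2, h3⟩ := hM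
  exact ⟨β1, β2, Bw_mono h h1, Bw_mono h h2, h3⟩

end IWSt

open IWSt in
theorem pr_WSt (h1 : UAb) (h2 : WPa) (h3 : WEs) (h4 : BGen) (h5 : VTw) : WSt := by
  intro n G _ _ g1 g2 κ₁ κ₂ φ₁ φ₂ M₁ M₂ lg₁ lg₂ a c₁ c₂ l V₁ V₂ hD T₁ T₂ hT₁ hT₂ r t
    A₁ B₁ A₁' B₁' A₂ B₂ A₂' B₂' hr hrt ht2 gA₁ gB₁ gA₁' gB₁' gA₂ gB₂ gA₂' gB₂' hE
  obtain ⟨lam₁, K₁, r₁, hG₁⟩ := h4 n G g1 κ₁ φ₁ M₁ lg₁ a c₁ l V₁ hD.P1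
  obtain ⟨lam₂, K₂, r₂, hG₂⟩ := h4 n G g2 κ₂ φ₂ M₂ lg₂ a c₂ l V₂ hD.P2
  have tw1 := h5 n G g1 κ₁ φ₁ M₁ lg₁ a c₁ l V₁ hD.P1
  have tw2 := h5 n G g2 κ₂ φ₂ M₂ lg₂ a c₂ l V₂ hD.P2
  obtain ⟨ρ₀, hρ₀, hU⟩ := h1 V₁ V₂ lam₁ K₁ r₁ lam₂ K₂ r₂ _ _ _ _ _ _ T₁ T₂ hG₁.ch hG₂.ch tw1 tw2
    hT₁ hT₂ r t A₁ B₁ A₁' B₁' A₂ B₂ A₂' B₂' hr hrt ht2 gA₁ gB₁ gA₁' gB₁' gA₂ gB₂ gA₂' gB₂'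
  obtain ⟨ρE, hρE, hW⟩ := h3 n G g1 g2 κ₁ κ₂ φ₁ φ₂ M₁ M₂ lg₁ lg₂ a c₁ c₂ l V₁ V₂ hD T₁ T₂ hT₁ hT₂
  obtain ⟨ρQ, hρQ, hQf, hQb⟩ := hE
  obtain ⟨ρ, hρ⟩ : ∃ ρ : ℝ, ρ = min ρ₀ (min ρE ρQ) := ⟨_, rfl⟩
  have hρ0 : 0 < ρ := by
    rw [hρ]
    exact lt_min hρ₀ (lt_min hρE hρQ)
  have hle0 : ρ ≤ ρ₀ := hρ.le.trans (min_le_left _ _)
  have hleE : ρ ≤ ρE := hρ.le.trans ((min_le_right _ _).trans (min_le_left _ _))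
  have hleQ : ρ ≤ ρQ := hρ.le.trans ((min_le_right _ _).trans (min_le_right _ _))
  obtain ⟨hF, hB, Ψ, hΨ⟩ := hU (fun p1 p2 => MF g1 g2 φ₁ φ₂ a c₁ c₂ l V₁ V₂ ρ p1 p2)
    (fun v1 v2 => MB g1 g2 φ₁ φ₂ a c₁ c₂ l V₁ V₂ ρ v1 v2)
    (by
      rintro p1 p2 ⟨α1, α2, f1, f2, -⟩
      exact ⟨(Fw_mono hle0 f1).ch, (Fw_mono hle0 f2).ch⟩)
    (by
      rintro v1 v2 ⟨β1, β2, f1, f2, -⟩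
      exact ⟨(Bw_mono hle0 f1).ch, (Bw_mono hle0 f2).ch⟩)
    (h2 n G g1 g2 κ₁ κ₂ φ₁ φ₂ M₁ M₂ lg₁ lg₂ a c₁ c₂ l V₁ V₂ hD ρ hρ0)
    (fun p1 p2 h => hQf p1 p2 (MF_mono hleQ h))
    (fun v1 v2 h => hQb v1 v2 (MB_mono hleQ h))
    (fun p1 p2 v1 v2 Q₁ Q₂ R₁ R₂ hf hb => hW r t hr (hr.trans hrt) ht2 p1 p2 v1 v2 Q₁ Q₂ R₁ R₂
      (MF_mono hleE hf) (MB_mono hleE hb))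
  exact ⟨⟨ρ, hρ0, hF, hB⟩, Ψ, hΨ⟩

end Pool.Agent.LX
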