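import Pool.Agent.Work.MP_25cd3b_gt.LX.StmtsW

set_option autoImplicit false

/-!
# MP_25cd3b_gt, block LX, item WVf: the conclusion

The code of an orthogonal Jacobi field is a linear isomorphism; the conjugacy of the transfer maps is
transported to the Jacobi fields.
-/

open MeasureTheory Set Filter Topology
open scoped ContDiff ENNReal
open Pool.Agent.Work.MP_c9f990_an.Al (IsFlow)

namespace Pool.Agent.LX

open Pool.Agent.MLS Pool.Agent.STR Pool.Agent.LR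

namespace IWVf

/-- the field with a given code, as a linear map -/
theorem exF (h2 : VJ1) {n : ℕ} {G : Type} [Group G] [MulAction G (E n)] {g : Form n} {κ : ℝ}
    {φ : ℝ → W n → W n} {M : ℝ → W n → W n →L[ℝ] W n} {lg : E n → E n → E n} {a : G}
    {c : ℝ → E n} {l : ℝ} {V : Submodule ℝ (E n)} (hp : Per n G g κ φ M lg a c l V) :
    ∃ F : (V × V) →ₗ[ℝ] (ℝ → E n), (∀ w, NJ g c (F w) ∧ F w 0 = w.1 ∧
      F w l = dac a (c 0) w.2) ∧ (∀ J, NJ g c J → ∃ w, F w = J) ∧ Function.Injective F := by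
  obtain ⟨j1, j2, j3, j4⟩ := h2 n G g κ φ M lg a c l V hp
  choose f hf using j2
  let F : (V × V) →ₗ[ℝ] (ℝ → E n) :=
    { toFun := f
      map_add' := by
        intro w w'
        refine j3 _ _ (hf _).1 ?_ ?_ ?_
        · have := j4 (f w) (f w') 1 1 (hf _).1 (hf _).1
          simpa using this
        · rw [(hf _).2.1, Pi.add_apply, (hf _).2.1, (hf _).2.1]
          simp
        · rw [(hf _).2.2, Pi.add_apply, (hf _).2.2, (hf _).2.2]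
          simp
      map_smul' := by
        intro x w
        refine j3 _ _ (hf _).1 ?_ ?_ ?_
        · have := j4 (f w) (f w) x 0 (hf _).1 (hf _).1
          simpa using this
        · rw [(hf _).2.1, RingHom.id_apply, Pi.smul_apply, (hf _).2.1]
          simp
        · rw [(hf _).2.2, RingHom.id_apply, Pi.smul_apply, (hf _).2.2]
          simp }
  have hF : ∀ w, F w = f w := fun w => rfl
  refine ⟨F, fun w => by rw [hF]; exact hf w, ?_, ?_⟩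
  · intro J hJ
    obtain ⟨w, hw1, hw2⟩ := j1 J hJ
    refine ⟨w, ?_⟩
    rw [hF]
    refine j3 _ _ (hf _).1 hJ ?_ ?_
    · rw [(hf _).2.1, hw1]
    · rw [(hf _).2.2, hw2]
  · rw [injective_iff_map_eq_zero]
    intro w hw
    rw [hF] at hw
    have e1 : (w.1 : E n) = 0 := by
      rw [← (hf w).2.1, hw]; rfl
    have e2 : dac a (c 0) (w.2 : E n) = 0 := by
      rw [← (hf w).2.2, hw]; rfl
    have e3 : (w.2 : E n) = 0 := by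
      by_contra hne
      have h1 := hp.riem (c 0) (w.2 : E n) hne
      have h2' := hp.inv a (c 0) (w.2 : E n) (w.2 : E n)
      rw [e2] at h2'
      simp only [map_zero] at h2'
      linarith
    refine Prod.ext ?_ ?_
    · exact Subtype.ext e1
    · exact Subtype.ext e3

end IWVf

theorem pr_WVf (h1 : WFu) (h2 : VJ1) (h3 : VJ3) (h4 : VTw) (h5 : BPos) (h6 : STr) (h7 : RDim) :
    WVf := by
  intro n G _ _ g1 g2 κ₁ κ₂ φ₁ φ₂ M₁ M₂ lg₁ lg₂ a c₁ c₂ l V₁ V₂ p1 p2 hL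
  obtain ⟨F₁, hF₁, sF₁, iF₁⟩ := IWVf.exF h2 p1
  obtain ⟨F₂, hF₂, sF₂, iF₂⟩ := IWVf.exF h2 p2
  by_cases hV : ∃ v ∈ V₁, v ≠ 0
  · have hV2 : ∃ v ∈ V₂, v ≠ 0 :=
      h7 n G g1 g2 κ₁ κ₂ φ₁ φ₂ M₁ M₂ lg₁ lg₂ a c₁ c₂ l V₁ V₂ p1 p2 hV
    obtain ⟨-, lam₁, hlam₁, hP₁⟩ := h5 n G g1 κ₁ φ₁ M₁ lg₁ a c₁ l V₁ p1
    obtain ⟨-, lam₂, hlam₂, hP₂⟩ := h5 n G g2 κ₂ φ₂ M₂ lg₂ a c₂ l V₂ p2
    obtain ⟨T₁, hT₁⟩ := h6 V₁ lam₁ _ hP₁ (h4 n G g1 κ₁ φ₁ M₁ lg₁ a c₁ l V₁ p1)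
    obtain ⟨T₂, hT₂⟩ := h6 V₂ lam₂ _ hP₂ (h4 n G g2 κ₂ φ₂ M₂ lg₂ a c₂ l V₂ p2)
    obtain ⟨Ψ₀, a4⟩ := h1 n G g1 g2 κ₁ κ₂ φ₁ φ₂ M₁ M₂ lg₁ lg₂ a c₁ c₂ l V₁ V₂
      ⟨p1, p2, hL, hV, hV2⟩ T₁ T₂ hT₁ hT₂
    obtain ⟨G₀, hG₀⟩ := LinearMap.exists_leftInverse_of_injective F₁ (LinearMap.ker_eq_bot.2 iF₁)
    have hG₀' : ∀ w, G₀ (F₁ w) = w := fun w => by
      have := LinearMap.congr_fun hG₀ w
      simpa using this
    have hval : ∀ w, (F₂ ∘ₗ (Ψ₀ : (V₁ × V₁) →ₗ[ℝ] (V₂ × V₂)) ∘ₗ G₀) (F₁ w) = F₂ (Ψ₀ w) := by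
      intro w
      rw [LinearMap.comp_apply, LinearMap.comp_apply, hG₀']
      rfl
    refine ⟨F₂ ∘ₗ (Ψ₀ : (V₁ × V₁) →ₗ[ℝ] (V₂ × V₂)) ∘ₗ G₀, ⟨?_, ?_, ?_⟩, ?_⟩
    · intro J hJ
      obtain ⟨w, rfl⟩ := sF₁ J hJ
      rw [hval]
      exact (hF₂ _).1
    · intro J hJ J' hJ' he
      obtain ⟨w, rfl⟩ := sF₁ J hJ
      obtain ⟨w', rfl⟩ := sF₁ J' hJ'
      rw [hval, hval] at he
      rw [Ψ₀.injective (iF₂ he)]
    · intro J hJ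
      obtain ⟨w', rfl⟩ := sF₂ J hJ
      refine ⟨F₁ (Ψ₀.symm w'), (hF₁ _).1, ?_⟩
      rw [hval, ContinuousLinearEquiv.apply_symm_apply]
    · intro J J' hJ hJ' hr
      obtain ⟨w, rfl⟩ := sF₁ J hJ
      obtain ⟨w', rfl⟩ := sF₁ J' hJ'
      have e1 : w' = T₁ w := (h3 n G g1 κ₁ φ₁ M₁ lg₁ a c₁ l V₁ p1 T₁ hT₁ (F₁ w) (F₁ w') w w'
        (hF₁ w).1 (hF₁ w').1 (hF₁ w).2.1 (hF₁ w).2.2 (hF₁ w').2.1 (hF₁ w').2.2).1 hr
      rw [hval, hval]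
      refine (h3 n G g2 κ₂ φ₂ M₂ lg₂ a c₂ l V₂ p2 T₂ hT₂ (F₂ (Ψ₀ w)) (F₂ (Ψ₀ w')) (Ψ₀ w)
        (Ψ₀ w') (hF₂ _).1 (hF₂ _).1 (hF₂ _).2.1 (hF₂ _).2.2 (hF₂ _).2.1 (hF₂ _).2.2).2 ?_
      rw [e1, a4 w]
  · have hV2 : ¬ ∃ v ∈ V₂, v ≠ 0 := fun h =>
      hV (h7 n G g2 g1 κ₂ κ₁ φ₂ φ₁ M₂ M₁ lg₂ lg₁ a c₂ c₁ l V₂ V₁ p2 p1 h)
    have z1 : ∀ J, NJ g1 c₁ J → J = 0 := by
      intro J hJ
      obtain ⟨w, rfl⟩ := sF₁ J hJ
      have : w = 0 := by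
        refine Prod.ext (Subtype.ext ?_) (Subtype.ext ?_)
        · by_contra hne
          exact hV ⟨_, w.1.2, hne⟩
        · by_contra hne
          exact hV ⟨_, w.2.2, hne⟩
      rw [this, map_zero]
    have z2 : ∀ J, NJ g2 c₂ J → J = 0 := by
      intro J hJ
      obtain ⟨w, rfl⟩ := sF₂ J hJ
      have : w = 0 := by
        refine Prod.ext (Subtype.ext ?_) (Subtype.ext ?_)
        · by_contra hne
          exact hV2 ⟨_, w.1.2, hne⟩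
        · by_contra hne
          exact hV2 ⟨_, w.2.2, hne⟩
      rw [this, map_zero]
    have n1 : NJ g1 c₁ 0 := by
      have := (hF₁ 0).1
      rwa [map_zero] at this
    have n2 : NJ g2 c₂ 0 := by
      have := (hF₂ 0).1
      rwa [map_zero] at this
    refine ⟨0, ⟨?_, ?_, ?_⟩, ?_⟩
    · intro J _
      exact n2
    · intro J hJ J' hJ' _
      rw [z1 J hJ, z1 J' hJ']
    · intro J hJ
      exact ⟨0, n1, by rw [z2 J hJ]; rfl⟩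
    · intro J J' _ _ _ t
      simp

end Pool.Agent.LX
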