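import Pool.Agent.Work.MP_25cd3b_gt.LX.All2
import Pool.Agent.Work.MP_25cd3b_gt.LX.I_UAb
import Pool.Agent.Work.MP_25cd3b_gt.LX.I_UAs
import Pool.Agent.Work.MP_25cd3b_gt.LX.I_UCh
import Pool.Agent.Work.MP_25cd3b_gt.LX.I_UCv
import Pool.Agent.Work.MP_25cd3b_gt.LX.I_UGa
import Pool.Agent.Work.MP_25cd3b_gt.LX.I_UGk
import Pool.Agent.Work.MP_25cd3b_gt.LX.I_UGl
import Pool.Agent.Work.MP_25cd3b_gt.LX.I_UGp
import Pool.Agent.Work.MP_25cd3b_gt.LX.I_UMx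
import Pool.Agent.Work.MP_25cd3b_gt.LX.I_UOm
import Pool.Agent.Work.MP_25cd3b_gt.LX.I_UPe
import Pool.Agent.Work.MP_25cd3b_gt.LX.I_UQf
import Pool.Agent.Work.MP_25cd3b_gt.LX.I_UQv
import Pool.Agent.Work.MP_25cd3b_gt.LX.I_URe
import Pool.Agent.Work.MP_25cd3b_gt.LX.I_URs
import Pool.Agent.Work.MP_25cd3b_gt.LX.I_URv
import Pool.Agent.Work.MP_25cd3b_gt.LX.I_UTi
import Pool.Agent.Work.MP_25cd3b_gt.LX.I_UUn
import Pool.Agent.Work.MP_25cd3b_gt.LX.I_UXb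
import Pool.Agent.Work.MP_25cd3b_gt.LX.I_UXf
import Pool.Agent.Work.MP_25cd3b_gt.LX.I_WEs
import Pool.Agent.Work.MP_25cd3b_gt.LX.I_WFu
import Pool.Agent.Work.MP_25cd3b_gt.LX.I_WIn
import Pool.Agent.Work.MP_25cd3b_gt.LX.I_WKe
import Pool.Agent.Work.MP_25cd3b_gt.LX.I_WKm
import Pool.Agent.Work.MP_25cd3b_gt.LX.I_WPa
import Pool.Agent.Work.MP_25cd3b_gt.LX.I_WRv
import Pool.Agent.Work.MP_25cd3b_gt.LX.I_WSt
import Pool.Agent.Work.MP_25cd3b_gt.LX.I_WTa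
import Pool.Agent.Work.MP_25cd3b_gt.LX.I_WVf

set_option autoImplicit false

/-!
# MP_25cd3b_gt, block LX, parts U and W: all items
-/

namespace Pool.Agent.LX

theorem x_UGp : UGp := pr_UGp x_SPr

theorem x_UGa : UGa := pr_UGa

theorem x_UOm : UOm := pr_UOm

theorem x_UCh : UCh := pr_UCh x_UOm x_UGa

theorem x_UGl : UGl := pr_UGl x_UGa

theorem x_URe : URe := pr_URe

theorem x_UAs : UAs := pr_UAs

theorem x_UQv : UQv := pr_UQv x_ZTh x_UAs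

theorem x_URv : URv := pr_URv

theorem x_UQf : UQf := pr_UQf x_UQv x_URv

theorem x_UPe : UPe := pr_UPe

theorem x_UXb : UXb := pr_UXb x_UPe

theorem x_UXf : UXf := pr_UXf x_UXb x_URv

theorem x_UUn : UUn := pr_UUn x_YDif x_XPer x_XPosR

theorem x_UCv : UCv := pr_UCv x_YTri

theorem x_URs : URs := pr_URs

theorem x_UTi : UTi := pr_UTi x_URs x_UCv

theorem x_UMx : UMx := pr_UMx x_URs x_ZCv

theorem x_UGk : UGk := pr_UGk x_UOm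

theorem x_UAb : UAb := pr_UAb x_UQv x_UQf x_UXb x_UXf x_UCh x_UGa x_URe

theorem x_WKe : WKe := pr_WKe x_KAl x_KX1 x_BGen x_BRev x_YExc x_UUn x_CvG x_UG

theorem x_WKm : WKm := pr_WKm x_WKe x_UTi x_BGen x_BSm x_ZC4 x_CvG

theorem x_WTa : WTa := pr_WTa x_WKm x_UMx x_UGk x_BGen x_BSm x_ZC4 x_VTw

theorem x_WPa : WPa := pr_WPa x_RPr x_VEx x_VGv x_RT1 x_RT2 x_UUn x_BGen

theorem x_WEs : WEs := pr_WEs x_WTa x_RPr x_RTau

theorem x_WSt : WSt := pr_WSt x_UAb x_WPa x_WEs x_BGen x_VTw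

theorem x_WIn : WIn := pr_WIn x_WSt x_UGp x_UGa x_UGl x_SHy x_ZDc x_BGen x_BPos x_XPosR

theorem x_WRv : WRv := pr_WRv x_BRev x_BSm

theorem x_WFu : WFu := pr_WFu x_WIn x_WRv x_BRev x_SHs x_SHy x_BPos x_XPosR

theorem x_WVf : WVf := pr_WVf x_WFu x_VJ1 x_VJ3 x_VTw x_BPos x_STr x_RDim

end Pool.Agent.LX
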