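import Mathlib

set_option autoImplicit false

/-!
# MP_25cd3b_gt, block LX: chains.  Definitions of part A

A chain is a sequence `u 0, ..., u k` of vectors of `V`.  Linear chains: to the link `j` (from `j` to
`j + 1`) belongs a bilinear form `H j` on `V × V`.
-/

open Set Filter Topology
open scoped ContDiff

namespace Pool.Agent.LX

/-- bilinear forms on `V × V` -/
abbrev Bf (V : Type) [NormedAddCommGroup V] [NormedSpace ℝ V] : Type :=
  V × V →L[ℝ] V × V →L[ℝ] ℝ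

variable {V : Type} [NormedAddCommGroup V] [NormedSpace ℝ V]

/-- symmetric and at least `lam` times the square of the norm -/
structure Pos (lam : ℝ) (H : Bf V) : Prop where
  symm : ∀ p q, H p q = H q p
  pos : ∀ v w : V, lam * (‖v‖ ^ 2 + ‖w‖ ^ 2) ≤ H (v, w) (v, w)

/-- energy of the links `0, ..., k - 1` -/
noncomputable def En (H : ℕ → Bf V) (k : ℕ) (Y W : ℕ → V) : ℝ :=
  ∑ j ∈ Finset.range k, H j (Y j, Y (j + 1)) (W j, W (j + 1))

/-- `Y` solves the chain equation at the points `1, ..., k - 1` -/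
def Sol (H : ℕ → Bf V) (k : ℕ) (Y : ℕ → V) : Prop :=
  ∀ j, j + 1 < k → ∀ w : V, H j (Y j, Y (j + 1)) (0, w) + H (j + 1) (Y (j + 1), Y (j + 2)) (w, 0) = 0

/-- growth of rate `s` of the chain with constant form `H`: the mixed boundary form of the chain of
length `k + 1` is at most `C exp (- s k)` -/
def Gr (H : Bf V) (s : ℝ) : Prop := ∃ C : ℝ, ∀ (k : ℕ) (Y : ℕ → V) (z : V),
  Sol (fun _ => H) (k + 1) Y → Y (k + 1) = 0 →
  |H (Y k, 0) (0, z)| ≤ C * Real.exp (-(s * k)) * ‖Y 0‖ * ‖z‖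

/-- a function `L` of two variables, near `0`, with first and second derivatives `L1`, `L2`; critical
at `0` with positive second derivative -/
structure Ch (lam K r : ℝ) (L : V × V → ℝ) (L1 : V × V → V × V →L[ℝ] ℝ) (L2 : V × V → Bf V) :
    Prop where
  r_pos : 0 < r
  lam_pos : 0 < lam
  K_nn : 0 ≤ K
  d1 : ∀ p, ‖p‖ < r → HasFDerivAt L (L1 p) p
  d2 : ∀ p, ‖p‖ < r → HasFDerivAt L1 (L2 p) p
  pos : Pos lam (L2 0)
  lip : ∀ p, ‖p‖ < r → ‖L2 p - L2 0‖ ≤ K * ‖p‖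
  zero : L 0 = 0
  crit : L1 0 = 0

/-- the (nonlinear) chain equation at the points `1, ..., k - 1` -/
def EL (L1 : V × V → V × V →L[ℝ] ℝ) (k : ℕ) (u : ℕ → V) : Prop :=
  ∀ j, j + 1 < k → ∀ w : V, L1 (u j, u (j + 1)) (0, w) + L1 (u (j + 1), u (j + 2)) (w, 0) = 0

/-- the chain `u` realises `D k (u 0) (u k)` -/
def Tight (L : V × V → ℝ) (D : ℕ → V → V → ℝ) (k : ℕ) (u : ℕ → V) : Prop :=
  D k (u 0) (u k) = ∑ j ∈ Finset.range k, L (u j, u (j + 1))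

/-- `D k x z` is the minimum of `∑ L (u j, u (j + 1))` over the chains from `x` to `z` with `k` links -/
structure Gen (lam K r : ℝ) (L : V × V → ℝ) (L1 : V × V → V × V →L[ℝ] ℝ) (L2 : V × V → Bf V)
    (D : ℕ → V → V → ℝ) : Prop where
  ch : Ch lam K r L L1 L2
  one : ∀ x z, D 1 x z = L (x, z)
  tri : ∀ j k, 1 ≤ j → 1 ≤ k → ∀ x w z, D (j + k) x z ≤ D j x w + D k w z
  zero : ∀ k, 1 ≤ k → D k 0 0 = 0
  diffr : ∀ k, 1 ≤ k → ∀ x z, ‖x‖ < r → ‖z‖ < r → DifferentiableAt ℝ (fun w => D k x w) z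
  diffl : ∀ k, 1 ≤ k → ∀ x z, ‖x‖ < r → ‖z‖ < r → DifferentiableAt ℝ (fun w => D k w z) x
  ex : ∃ C ρ : ℝ, 0 < ρ ∧ 1 ≤ C ∧ ∀ k, 1 ≤ k → ∀ x z : V, ‖x‖ ≤ ρ → ‖z‖ ≤ ρ →
    ∃ u : ℕ → V, u 0 = x ∧ u k = z ∧ (∀ j, j ≤ k → ‖u j‖ ≤ C * max ‖x‖ ‖z‖) ∧ Tight L D k u

/-- mixed second difference -/
noncomputable def Mx (D : ℕ → V → V → ℝ) (k : ℕ) (x z : V) : ℝ := D k x z - D k x 0 - D k 0 z

end Pool.Agent.LX
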