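import Pool.Agent.Work.MP_13b5d9_gt.LR.Defs
import Pool.Agent.Work.MP_25cd3b_gt.LX.DefsA

set_option autoImplicit false

/-!
# MP_25cd3b_gt, block LX: closed geodesics, generating functions.  Definitions of parts B, J, K, C
-/

open MeasureTheory Set Filter Topology
open scoped ContDiff ENNReal
open Pool.Agent.Work.MP_c9f990_an.Al (IsFlow)

namespace Pool.Agent.LX

open Pool.Agent.MLS Pool.Agent.STR Pool.Agent.LR

/-- A complete invariant metric of curvature at most `-κ^2`, a unit speed geodesic `c` with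
`a c(t) = c(t + l)`, and the orthogonal complement `V` of its velocity at the point `c 0`. -/
structure Per (n : ℕ) (G : Type) [Group G] [MulAction G (E n)] (g : Form n) (κ : ℝ)
    (φ : ℝ → W n → W n) (M : ℝ → W n → W n →L[ℝ] W n) (lg : E n → E n → E n) (a : G)
    (c : ℝ → E n) (l : ℝ) (V : Submodule ℝ (E n)) : Prop where
  coc : Cocompact n G
  riem : Riem g
  inv : Inv G g
  kpos : 0 < κ
  curv : CurvLe g κ
  flow : IsFlow (XH (Hm g)) φ M
  log : IsLog g φ lg
  ug : UG g c
  pos : 0 < l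
  per : ∀ t, c (t + l) = a • c t
  mem : ∀ v : E n, v ∈ V ↔ g.val (c 0) (deriv c 0) v = 0

variable {n : ℕ} {G : Type} [Group G] [MulAction G (E n)]

/-- `D k x z = d(ex_o x, a^k ex_o z) - k l` for `x, z ∈ V`, `ex_o` the exponential map at `o` -/
noncomputable def Dk (g : Form n) (φ : ℝ → W n → W n) (a : G) (o : E n) (l : ℝ)
    (V : Submodule ℝ (E n)) (k : ℕ) (x z : V) : ℝ :=
  gd g (expo φ g o x) (a ^ k • expo φ g o z) - k * l

/-- the generating function `L(x, z) = D 1 x z` -/
noncomputable def Lk (g : Form n) (φ : ℝ → W n → W n) (a : G) (o : E n) (l : ℝ)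
    (V : Submodule ℝ (E n)) (p : V × V) : ℝ := Dk g φ a o l V 1 p.1 p.2

/-- half the square of the distance of `ex_o x` and `a ex_o z` -/
noncomputable def Ek (g : Form n) (φ : ℝ → W n → W n) (lg : E n → E n → E n) (a : G) (o : E n)
    (V : Submodule ℝ (E n)) (p : V × V) : ℝ :=
  1 / 2 * g.val (expo φ g o p.1) (lg (expo φ g o p.1) (a • expo φ g o p.2))
    (lg (expo φ g o p.1) (a • expo φ g o p.2))

/-- second derivative of the generating function at `0` -/
noncomputable def HH (g : Form n) (φ : ℝ → W n → W n) (a : G) (o : E n) (l : ℝ)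
    (V : Submodule ℝ (E n)) : Bf V := fderiv ℝ (fderiv ℝ (Lk g φ a o l V)) 0

/-- `Gen` for the generating function of a closed geodesic -/
def GenK (lam K r : ℝ) (g : Form n) (φ : ℝ → W n → W n) (a : G) (o : E n) (l : ℝ)
    (V : Submodule ℝ (E n)) : Prop :=
  Gen lam K r (Lk g φ a o l V) (fderiv ℝ (Lk g φ a o l V)) (fderiv ℝ (fderiv ℝ (Lk g φ a o l V)))
    (Dk g φ a o l V)

/-- `J` is a Jacobi field along `c`, orthogonal to `c` -/
structure NJ (g : Form n) (c J : ℝ → E n) : Prop where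
  jac : IsJac g c J
  ort : ∀ t, g.val (c t) (deriv c t) (J t) = 0

/-- forward asymptotic (as parametrised curves) -/
def As (g : Form n) (c d : ℝ → E n) : Prop := Tendsto (fun t => gd g (c t) (d t)) atTop (𝓝 0)

/-- backward asymptotic (as parametrised curves) -/
def Ab (g : Form n) (c d : ℝ → E n) : Prop :=
  Tendsto (fun t => gd g (c (-t)) (d (-t))) atTop (𝓝 0)

/-- temporal displacement of `α` and `a^k β`: the limit of `d(α (-R), a^k β R) - 2 R - k l` -/
def Tau (g : Form n) (a : G) (α β : ℝ → E n) (k : ℕ) (l τ : ℝ) : Prop :=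
  Tendsto (fun R => gd g (α (-R)) (a ^ k • β R) - 2 * R - k * l) atTop (𝓝 τ)

/-- the curves `c`, `c2` correspond under `Φ` -/
def Cor (Φ : W n → W n) (c c2 : ℝ → E n) : Prop := ∀ t, Φ (c t, deriv c t) = (c2 t, deriv c2 t)

/-- `Φ` maps unit vectors of `g1` to unit vectors of `g2`, continuously, and geodesics to geodesics;
equivariant with respect to `θ`.  (Elements of `W n = E n × E n` are vectors here: point and vector.) -/
structure Hc (θ : G →* G) (g1 g2 : Form n) (Φ : W n → W n) : Prop where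
  unit : ∀ p : W n, g1.val p.1 p.2 p.2 = 1 → g2.val (Φ p).1 (Φ p).2 (Φ p).2 = 1
  cont : ContinuousOn Φ {p : W n | g1.val p.1 p.2 p.2 = 1}
  flow : ∀ c, UG g1 c → ∃ c2, UG g2 c2 ∧ Cor Φ c c2
  eqv : ∀ (b : G) (p : W n), g1.val p.1 p.2 p.2 = 1 →
    Φ (b • p.1, dac b p.1 p.2) = (θ b • (Φ p).1, dac (θ b) (Φ p).1 (Φ p).2)

end Pool.Agent.LX
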