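import Pool.Agent.Work.MP_25cd3b_gt.Gen.Length

set_option autoImplicit false

/-!
# Conjugate geodesic flows, smallest Lyapunov exponent of a geodesic
-/

open Set Filter Topology
open scoped ContDiff

namespace Pool.Agent.GM

variable {V : Type} [NormedAddCommGroup V] [NormedSpace ℝ V]

/-- unit tangent bundle of the universal covering: pairs (point, unit vector) -/
abbrev UT (g : Frm V) : Type := {p : V × V // g.val p.1 p.2 p.2 = 1}

/-- unit speed geodesics -/
structure UGeo (g : Frm V) (c : ℝ → V) : Prop where
  geo : IsGeo g c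
  unit : ∀ t, g.val (c t) (deriv c t) (deriv c t) = 1

/-- the unit vector `c' t` at the point `c t` -/
noncomputable def vec {g : Frm V} {c : ℝ → V} (h : UGeo g c) (t : ℝ) : UT g := ⟨(c t, deriv c t), h.unit t⟩

/-- the homeomorphism `Φ` of the unit tangent bundles of the universal coverings conjugates the
geodesic flows of `g1` and `g2` (it maps the velocity vectors of a geodesic of `g1`, parametrised by
arc length, to the velocity vectors of a geodesic of `g2` with the same parameter), and it is
equivariant with respect to the automorphism `θ` of the deck group -/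
structure Conj {G : Type} [Group G] [MulAction G V] (θ : G ≃* G) (g1 g2 : Frm V)
    (Φ : UT g1 ≃ₜ UT g2) : Prop where
  flow : ∀ (c : ℝ → V) (h : UGeo g1 c), ∃ (c2 : ℝ → V) (h2 : UGeo g2 c2),
    ∀ t, Φ (vec h t) = vec h2 t
  eqv : ∀ (a : G) (p q : UT g1), q.1 = (a • p.1.1, dac a p.1.1 p.1.2) →
    (Φ q).1 = (θ a • (Φ p).1.1, dac (θ a) (Φ p).1.1 (Φ p).1.2)

/-- exponential growth rate of the field `J` along the curve `c` -/
noncomputable def lyap (g : Frm V) (c J : ℝ → V) : EReal :=
  limsup (fun t : ℝ => ((Real.log (nrm g (c t) (J t)) / t : ℝ) : EReal)) atTop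

/-- smallest exponential growth rate of the Jacobi fields `J` along the geodesic `c` which vanish at
`0` (but not everywhere) and are orthogonal to `c` -/
noncomputable def lmin (g : Frm V) (Γ : V → V →L[ℝ] V →L[ℝ] V) (c : ℝ → V) : EReal :=
  ⨅ J ∈ {J : ℝ → V | IsJac Γ c J ∧ J 0 = 0 ∧ deriv J 0 ≠ 0 ∧
    g.val (c 0) (deriv J 0) (deriv c 0) = 0}, lyap g c J

end Pool.Agent.GM
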