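import Pool.Agent.Work.MP_25cd3b_gt.LX.DefsF

set_option autoImplicit false

/-!
# Smallest Lyapunov exponents of closed geodesics
-/

open Set Filter Topology
open scoped ContDiff

namespace Pool.Agent.GM

variable {V : Type} [NormedAddCommGroup V] [NormedSpace ℝ V]

/-- there is a unit speed geodesic `c` of the metric `g` with `c (t + l) = a • c t` for some `l > 0` (a
closed geodesic of the quotient, of the free homotopy class of `a`) with `lmin g Γ c = x`, `Γ` being the
Levi-Civita connection -/
def IsExp {G : Type} [Group G] [MulAction G V] (g : Frm V) (a : G) (x : EReal) : Prop :=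
  ∃ (Γ : V → V →L[ℝ] V →L[ℝ] V) (c : ℝ → V) (l : ℝ), LeviCivita g Γ ∧ UGeo g c ∧ 0 < l ∧
    (∀ t, c (t + l) = a • c t) ∧ lmin g Γ c = x

end Pool.Agent.GM
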