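import Pool.Agent.Work.MP_25cd3b_gt.M.Defs

set_option autoImplicit false

/-!
# MP_25cd3b_gt, block LX, part M: metric geometry of curvature at most `-κ^2`, definitions

`X` is a set with a pseudometric `d` (`MLS.IsPM`: nonneg, self, symm, tri).
-/

open Set Filter Topology

namespace Pool.Agent.LX

open Pool.Agent.MLS (IsPM)

/-- geodesic (pseudo)metric space of curvature at most `-κ^2`: between `x` and `y` there are points `z`
at every distance, for which the inequality of Stewart holds -/
structure Cat {X : Type} (d : X → X → ℝ) (κ : ℝ) : Prop where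
  pm : IsPM d
  pos : 0 < κ
  btw : ∀ (x y : X) (a b : ℝ), 0 ≤ a → 0 ≤ b → a + b = d x y → ∃ z, d x z = a ∧ d z y = b ∧ ∀ p,
    Real.sinh (κ * (a + b)) * Real.cosh (κ * d p z) ≤
      Real.sinh (κ * b) * Real.cosh (κ * d p x) + Real.sinh (κ * a) * Real.cosh (κ * d p y)

/-- Gromov product of `x` and `y` seen from `o` -/
noncomputable def gp {X : Type} (d : X → X → ℝ) (o x y : X) : ℝ := (d o x + d o y - d x y) / 2

/-- cross difference of `x, y` and `z, w` -/
def crd {X : Type} (d : X → X → ℝ) (x y z w : X) : ℝ := d x z + d y w - d x w - d y z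

/-- `G` acts by isometries, cocompactly and properly, with the translation lengths `ℓ` -/
structure Act (G : Type) {X : Type} [Group G] [MulAction G X] (d : X → X → ℝ) (κ : ℝ)
    (ℓ : G → ℝ) : Prop where
  cat : Cat d κ
  iso : ∀ (a : G) (x y : X), d (a • x) (a • y) = d x y
  cob : ∃ D, ∀ x y : X, ∃ a : G, d (a • x) y ≤ D
  prp : ∀ (x : X) (r : ℝ), {a : G | d x (a • x) ≤ r}.Finite
  len : ∀ (b : G) (x : X), Tendsto (fun i : ℕ => d x (b ^ i • x) / i) atTop (𝓝 (ℓ b))

/-- geodesic lines -/
def Ln {X : Type} (d : X → X → ℝ) (c : ℝ → X) : Prop := ∀ s t, d (c s) (c t) = |s - t|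

/-- closed geodesics -/
structure Clo {G X : Type} [Group G] [MulAction G X] (d : X → X → ℝ) (a : G) (c : ℝ → X)
    (l : ℝ) : Prop where
  ln : Ln d c
  pos : 0 < l
  per : ∀ t, c (t + l) = a • c t

/-- forward asymptotic -/
def Asy {X : Type} (d : X → X → ℝ) (c c' : ℝ → X) : Prop :=
  Tendsto (fun t => d (c t) (c' t)) atTop (𝓝 0)

/-- backward asymptotic -/
def Bsy {X : Type} (d : X → X → ℝ) (c c' : ℝ → X) : Prop :=
  Tendsto (fun t => d (c (-t)) (c' (-t))) atTop (𝓝 0)

/-- temporal displacement -/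
def Tdi {G X : Type} [Group G] [MulAction G X] (d : X → X → ℝ) (a : G) (α β : ℝ → X) (k : ℕ)
    (l τ : ℝ) : Prop :=
  Tendsto (fun R => d (α (-R)) (a ^ k • β R) - 2 * R - k * l) atTop (𝓝 τ)

/-- finitely many elements `f` of the group suffice to make the Gromov products of `v` and `f u` small
for arbitrary points `u`, `v` -/
def Fin4 (G : Type) {X : Type} [Group G] [MulAction G X] (d : X → X → ℝ) (o : X) : Prop :=
  ∃ (F : Finset G) (K : ℝ), ∀ u v : X, ∃ f ∈ F, gp d o v (f • u) ≤ K

end Pool.Agent.LX
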