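import Pool.Agent.Work.MP_25cd3b_gt.LX.DefsF

set_option autoImplicit false

/-!
# The slow part of the linearised Poincaré map of a closed geodesic
-/

open Set Filter Topology
open scoped ContDiff

namespace Pool.Agent.GM

variable {V : Type} [NormedAddCommGroup V] [NormedSpace ℝ V]

/-- a closed geodesic of the metric `g` of the quotient, in the free homotopy class of `a`: a unit speed
geodesic `c` with `c (t + l) = a • c t`, `l > 0`; `Γ` is the Levi-Civita connection of `g` -/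
structure ClGeo {G : Type} [Group G] [MulAction G V] (g : Frm V) (a : G) where
  Γ : V → V →L[ℝ] V →L[ℝ] V
  c : ℝ → V
  l : ℝ
  lc : LeviCivita g Γ
  ug : UGeo g c
  pos : 0 < l
  per : ∀ t, c (t + l) = a • c t

/-- Jacobi fields along the closed geodesic, orthogonal to it, bounded on `(-∞, 0]` (unstable), of
exponential growth rate at most `q` on `[0, ∞)` -/
def ClGeo.slow {G : Type} [Group G] [MulAction G V] {g : Frm V} {a : G} (γ : ClGeo g a)
    (q : ℝ) : Set (ℝ → V) :=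
  {J | IsJac γ.Γ γ.c J ∧ (∀ t, g.val (γ.c t) (deriv γ.c t) (J t) = 0) ∧
    (∃ C : ℝ, ∀ t, t ≤ 0 → nrm g (γ.c t) (J t) ≤ C) ∧
    ∀ q' : ℝ, q < q' → ∃ C : ℝ, ∀ t, 0 ≤ t → nrm g (γ.c t) (J t) ≤ C * Real.exp (q' * t)}

/-- a linear map `Ψ` maps the slow fields of `γ1` bijectively to those of `γ2` and commutes with the
linearised Poincaré maps (`J' = P J`, if `J (t + l) = dac a (J' t)` for all `t`) -/
def SlowConj {G : Type} [Group G] [MulAction G V] {g1 g2 : Frm V} {a : G} (γ1 : ClGeo g1 a)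
    (γ2 : ClGeo g2 a) (q : ℝ) : Prop :=
  ∃ Ψ : (ℝ → V) →ₗ[ℝ] (ℝ → V), BijOn Ψ (γ1.slow q) (γ2.slow q) ∧
    ∀ J ∈ γ1.slow q, ∀ J' ∈ γ1.slow q, (∀ t, J (t + γ1.l) = dac a (γ1.c t) (J' t)) →
      ∀ t, Ψ J (t + γ2.l) = dac a (γ2.c t) (Ψ J' t)

end Pool.Agent.GM
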