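import Pool.Agent.Work.MP_25cd3b_gt.LX.DefsA

set_option autoImplicit false

/-!
# MP_25cd3b_gt, block LX, part Z: transfer map of a linear chain, infinite chains.  Definitions
-/

open Set Filter Topology
open scoped ContDiff

namespace Pool.Agent.LX

/-- `Pr` is the spectral projection of `T` for the eigenvalues of modulus at most `ρ` -/
structure SpP {S : Type} [NormedAddCommGroup S] [NormedSpace ℝ S] (T : S ≃L[ℝ] S) (ρ : ℝ)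
    (Pr : S →L[ℝ] S) : Prop where
  idem : ∀ w, Pr (Pr w) = Pr w
  comm : ∀ w, Pr (T w) = T (Pr w)
  up : ∀ ρ' : ℝ, ρ < ρ' → ∃ C : ℝ, ∀ (k : ℕ) (w : S), ‖(⇑T)^[k] (Pr w)‖ ≤ C * ρ' ^ k * ‖w‖
  lo : ∃ ρ₂ C : ℝ, ρ < ρ₂ ∧ ∀ (k : ℕ) (w : S), ‖(⇑T.symm)^[k] (w - Pr w)‖ ≤ C * ρ₂⁻¹ ^ k * ‖w‖

/-- splitting of `S`: `Ps` projects to the stable part (rate at least `s`), `P` to the slow unstable part
(rates between `s` and `t₁`), `1 - Ps - P` to the fast unstable part (rate at least `t`) -/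
structure Spl {S : Type} [NormedAddCommGroup S] [NormedSpace ℝ S] (T : S ≃L[ℝ] S) (s t₁ t : ℝ)
    (Ps P : S →L[ℝ] S) : Prop where
  is : ∀ w, Ps (Ps w) = Ps w
  ip : ∀ w, P (P w) = P w
  sp : ∀ w, Ps (P w) = 0
  ps : ∀ w, P (Ps w) = 0
  cs : ∀ w, Ps (T w) = T (Ps w)
  cp : ∀ w, P (T w) = T (P w)
  bs : ∃ C : ℝ, ∀ (k : ℕ) (w : S), ‖(⇑T)^[k] (Ps w)‖ ≤ C * Real.exp (-(s * k)) * ‖w‖
  b1 : ∃ C : ℝ, ∀ (k : ℕ) (w : S), ‖(⇑T.symm)^[k] (P w)‖ ≤ C * Real.exp (-(s * k)) * ‖w‖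
  b2 : ∃ C : ℝ, ∀ (k : ℕ) (w : S), ‖(⇑T)^[k] (P w)‖ ≤ C * Real.exp (t₁ * k) * ‖w‖
  bu : ∃ C : ℝ, ∀ (k : ℕ) (w : S),
    ‖(⇑T.symm)^[k] (w - Ps w - P w)‖ ≤ C * Real.exp (-(t * k)) * ‖w‖

variable {V : Type} [NormedAddCommGroup V] [NormedSpace ℝ V]

/-- the mixed part of `H` is nondegenerate -/
def Tws (H : Bf V) : Prop := ∀ v : V, (∀ w : V, H (0, v) (w, 0) = 0) → v = 0

/-- transfer map: `T (a, b) = (b, c)`, where `a, b, c` satisfy the chain equation -/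
def IsTr (H : Bf V) (T : (V × V) ≃L[ℝ] (V × V)) : Prop :=
  ∀ a b : V, (T (a, b)).1 = b ∧ ∀ w : V, H (a, b) (0, w) + H (b, (T (a, b)).2) (w, 0) = 0

/-- `w` is in the slow unstable space: bounded backward orbit, growth of the forward orbit of rate at
most `q` -/
def Slw (T : (V × V) ≃L[ℝ] (V × V)) (q : ℝ) (w : V × V) : Prop :=
  (∃ C : ℝ, ∀ k : ℕ, ‖(⇑T.symm)^[k] w‖ ≤ C) ∧
    ∀ q' : ℝ, q < q' → ∃ C : ℝ, ∀ k : ℕ, ‖(⇑T)^[k] w‖ ≤ C * Real.exp (q' * k)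

/-- the splitting of a linear chain, and the graphs of the stable and the unstable space: `(v, B v)` is
stable and `(Bu v, v)` is unstable -/
structure Spc (H : Bf V) (T : (V × V) ≃L[ℝ] (V × V)) (s q t₁ t : ℝ)
    (Ps P : (V × V) →L[ℝ] (V × V)) (B Bu : V →L[ℝ] V) : Prop where
  tr : IsTr H T
  spl : Spl T s t₁ t Ps P
  s_pos : 0 < s
  lt1 : q < t₁
  lt2 : t₁ < t
  slw : ∀ w, P w = w ↔ Slw T q w
  gs : ∀ v, Ps (v, B v) = (v, B v)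
  gu : ∀ v, Ps (Bu v, v) = 0
  ks : ∀ w, Ps w = w → w.2 = B w.1
  ku : ∀ w, Ps w = 0 → w.1 = Bu w.2

/-- further smoothness of `L` -/
structure Ch4 (K r : ℝ) (L : V × V → ℝ) (L1 : V × V → V × V →L[ℝ] ℝ) (L2 : V × V → Bf V) :
    Prop where
  r_pos : 0 < r
  K_nn : 0 ≤ K
  lip2 : ∀ p p', ‖p‖ < r → ‖p'‖ < r → ‖L2 p - L2 p'‖ ≤ K * ‖p - p'‖
  dd : ∀ a b, ‖a‖ < r → ‖b‖ < r →
    |L (a + b) - L a - L b - L1 a b - L1 b a + L2 0 a b| ≤ K * ‖a‖ ^ 2 * ‖b‖ ^ 2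

/-- forward infinite chain -/
structure Fc (L1 : V × V → V × V →L[ℝ] ℝ) (ρ : ℝ) (p : ℕ → V) : Prop where
  small : ∀ j, ‖p j‖ ≤ ρ
  el : ∀ k, EL L1 k p

/-- backward infinite chain; `v i` is the entry number `-i` -/
structure Bc (L1 : V × V → V × V →L[ℝ] ℝ) (ρ : ℝ) (v : ℕ → V) : Prop where
  small : ∀ j, ‖v j‖ ≤ ρ
  el : ∀ k, EL L1 k (fun j => v (k - j))

/-- the functional of the chain `p` (on sequences `q`; `R` is the linear chain from `q 0` to `0`) -/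
noncomputable def Fk (H : Bf V) (L1 : V × V → V × V →L[ℝ] ℝ) (p : ℕ → V) (k : ℕ)
    (q R : ℕ → V) : ℝ :=
  H (0, q 1 - R 1) (p 0, 0) + ∑ j ∈ Finset.range k,
    (L1 (p j, p (j + 1)) - H (p j, p (j + 1))) (q j - R j, q (j + 1) - R (j + 1))

end Pool.Agent.LX
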