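import Pool.Agent.Work.MP_25cd3b_gt.LX.StmtsA
import Pool.Agent.Work.MP_25cd3b_gt.LX.DefsZ

set_option autoImplicit false

/-!
# MP_25cd3b_gt, block LX, part Z: spectral splitting of linear chains and the slow part of the mixed second
difference; statements with complete proofs

Pure analysis, no geometry.  `H = L2 0`, `S = V × V`, `T` the transfer map (`IsTr`), `E` the range of `P` (the
slow unstable space), `C` denotes constants, `c₁ a = L1 a - H a` (so `‖c₁ a‖ ≤ K ‖a‖^2` and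
`‖c₁ a - c₁ b‖ ≤ K (‖a‖ + ‖b‖) ‖a - b‖` near `0` by `Ch.lip`), `y⁺ j = (y j, y (j+1))`.  Every statement of
StmtsA and every earlier statement may be used as a hypothesis (`XBvp`, `XDec`, `XPer`, ... are theorems, see
`LX/All.lean`: `x_XBvp`, ...).
-/

open Set Filter Topology
open scoped ContDiff

namespace Pool.Agent.LX

/-! ### linear algebra -/

/-- SPECTRAL PROJECTION (standard).  Complexify (choose a basis of `S`, `S_ℂ = Fin m → ℂ`, `A` the complex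
matrix of `T`).  `S_ℂ` is the direct sum of the generalised eigenspaces of `A`
(`Module.End.iSup_maxGenEigenspace_eq_top`, `Module.End.independent_maxGenEigenspace`); let `F` be the sum
of those with `|μ| ≤ ρ` and `K` the sum of the others.  Complex conjugation exchanges the generalised
eigenspaces of `μ` and `conj μ`, so `F` and `K` are invariant under conjugation and are the
complexifications of real subspaces, invariant under `T`.  On the generalised eigenspace of `μ`,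
`N = A - μ` is nilpotent, `A^k = ∑_{i<m} (k choose i) μ^(k-i) N^i`, so `‖A^k v‖ ≤ C k^m |μ|^k ‖v‖ ≤
C' ρ'^k ‖v‖` if `|μ| < ρ'`; the inverse of `A` has on it the eigenvalue `μ⁻¹` only.  (Finitely many `μ`, so
`ρ₂ > ρ` exists.)  Other proof: factor the minimal polynomial of `T` over the reals into coprime factors
with roots of modulus `≤ ρ` and `> ρ`, take the kernels of the factors, and use Gelfand's formula for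
the spectral radius of complex matrices. -/
def SPr : Prop := ∀ (S : Type) [NormedAddCommGroup S] [NormedSpace ℝ S] [FiniteDimensional ℝ S]
  (T : S ≃L[ℝ] S) (ρ : ℝ), 0 < ρ → ∃ Pr : S →L[ℝ] S, SpP T ρ Pr

/-- Transfer map.  `j : V → V*`, `j c = H (0, c) (·, 0)` is injective (`Tws`), hence bijective; for `(a, b)`
let `c` be the vector with `j c = - H (a, b) (0, ·) - H (b, 0) (·, 0)` (functionals on `V`).  Linear in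
`(a, b)`; injective: if `b = c = 0` then `0 = H (a, 0) (0, w) = H (0, w) (a, 0) = j w a` for all `w`, and `j` is
surjective, so `a = 0`.  (`LinearEquiv.ofInjectiveEndo`, `LinearEquiv.toContinuousLinearEquiv`.) -/
def STr : Prop := ∀ (V : Type) [NormedAddCommGroup V] [NormedSpace ℝ V] [FiniteDimensional ℝ V]
  (lam : ℝ) (H : Bf V), Pos lam H → Tws H → ∃ T : (V × V) ≃L[ℝ] (V × V), IsTr H T

/-- Bounded orbits decay (uses `XBvp`, `XDec`).  `(⇑T)^[j] w = (Y j, Y (j+1))` with a solution `Y`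
(`Sol (fun _ => H) k Y` for all `k`).  On `[0, k]` let `Y'` be the solution with `Y' 0 = Y 0`, `Y' k = 0`
(`XBvp`); `XDec`: `‖Y' j‖ ≤ C exp(-sj) ‖Y 0‖`, `‖Y j - Y' j‖ ≤ C exp(-s(k-j)) ‖Y k‖`.  If `Y` is bounded let
`k → ∞`.  Backward orbits: `U j = ((⇑T.symm)^[k-j] w).1` for `j ≤ k`, `U (k+1) = w.2`, is a solution on
`[0, k+1]`; split it in the same way: `‖U (k-i)‖ ≤ C (exp(-s(i+1)) ‖w.2‖ + exp(-s(k-i)) ‖U 0‖)`, `k → ∞`. -/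
def SHy : Prop := ∀ (V : Type) [NormedAddCommGroup V] [NormedSpace ℝ V] [FiniteDimensional ℝ V]
  (lam s : ℝ) (H : Bf V) (T : (V × V) ≃L[ℝ] (V × V)), 0 < lam → Pos lam H → IsTr H T → Gr H s →
  0 < s → ∃ C : ℝ, ∀ w : V × V,
  ((∃ C' : ℝ, ∀ k : ℕ, ‖(⇑T)^[k] w‖ ≤ C') → ∀ k : ℕ,
    ‖(⇑T)^[k] w‖ ≤ C * Real.exp (-(s * k)) * ‖w.1‖) ∧
  ((∃ C' : ℝ, ∀ k : ℕ, ‖(⇑T.symm)^[k] w‖ ≤ C') → ∀ k : ℕ,
    ‖(⇑T.symm)^[k] w‖ ≤ C * Real.exp (-(s * k)) * ‖w.2‖)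

/-- HYPERBOLIC SPLITTING (uses `SHy`, `XBvp`, `XDec`).  Let `Es`, `Eu` be the spaces of the vectors with
bounded forward, backward orbit (`T`-invariant subspaces).  `Es ∩ Eu = 0`: if `w ∈ Es ∩ Eu` then
`‖w‖ = ‖T^(-k) T^k w‖ ≤ C exp(-sk) ‖T^k w‖ ≤ C² exp(-2sk) ‖w‖` for all `k`.  For every `x ∈ V` there is
exactly one `w ∈ Es` with `w.1 = x`: unique by `SHy`; existence: the solutions `Y^(k)` on `[0, k]` with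
`Y^(k) 0 = x`, `Y^(k) k = 0` satisfy `‖Y^(k) j‖ ≤ C exp(-sj) ‖x‖` (`XDec`); a subsequence converges
pointwise (compactness; it suffices that `Y^(k) 1` converges along a subsequence, the other entries are
determined by `T`).  So `Es` is a graph over the first factor, `B x = w.2`; likewise `Eu` is a graph over
the second factor.  Both have dimension `dim V`, so `S = Es ⊕ Eu`; `Ps` is the projection.  The bounds: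
`SHy` and `‖Ps w‖ ≤ C ‖w‖`. -/
def SHs : Prop := ∀ (V : Type) [NormedAddCommGroup V] [NormedSpace ℝ V] [FiniteDimensional ℝ V]
  (lam s : ℝ) (H : Bf V) (T : (V × V) ≃L[ℝ] (V × V)), 0 < lam → Pos lam H → IsTr H T → Gr H s →
  0 < s → ∃ (Ps : (V × V) →L[ℝ] (V × V)) (B Bu : V →L[ℝ] V) (C : ℝ), (∀ w, Ps (Ps w) = Ps w) ∧
  (∀ w, Ps (T w) = T (Ps w)) ∧
  (∀ (k : ℕ) (w : V × V), ‖(⇑T)^[k] (Ps w)‖ ≤ C * Real.exp (-(s * k)) * ‖w‖) ∧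
  (∀ (k : ℕ) (w : V × V), ‖(⇑T.symm)^[k] (w - Ps w)‖ ≤ C * Real.exp (-(s * k)) * ‖w‖) ∧
  (∀ v, Ps (v, B v) = (v, B v)) ∧ (∀ v, Ps (Bu v, v) = 0) ∧ (∀ w, Ps w = w → w.2 = B w.1) ∧
  ∀ w, Ps w = 0 → w.1 = Bu w.2

/-- THE SPLITTING (uses `STr`, `SHs`, `SPr`).  `T` from `STr`, `Ps, B, Bu` from `SHs`, `Pr` from `SPr` for
`ρ = exp q ≥ 1`, with `ρ₂ > ρ`.  A vector `w` is in the range of `Pr` iff for every `ρ' > ρ` its orbit is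
`≤ C ρ'^k` (if so, then for `ρ < ρ' < ρ₂` `‖w - Pr w‖ ≤ C ρ₂^(-k) ‖T^k (w - Pr w)‖ ≤ C (ρ'/ρ₂)^k → 0`), so
`Es` is contained in it; a vector in the kernel of `Pr` has a bounded backward orbit, so it is in `Eu`,
`Ps w = 0`.  Hence `Pr Ps = Ps Pr = Ps`; let `P = Pr - Ps`.  Choose `q < t₁ < t < q + ε`, `exp t ≤ ρ₂`.
`slw`: `P w = w` iff `Pr w = w` and `Ps w = 0` (a vector with bounded backward orbit is in `Eu`: apply `SHs`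
to `Ps w`, whose backward orbit is bounded: `‖Ps w‖ ≤ C exp(-sk) ‖T^(-k) w‖`). -/
def SSp : Prop := ∀ (V : Type) [NormedAddCommGroup V] [NormedSpace ℝ V] [FiniteDimensional ℝ V]
  (lam s q ε : ℝ) (H : Bf V), 0 < lam → Pos lam H → Tws H → Gr H s → 0 < s → 0 ≤ q → 0 < ε →
  ∃ (t₁ t : ℝ) (T : (V × V) ≃L[ℝ] (V × V)) (Ps P : (V × V) →L[ℝ] (V × V)) (B Bu : V →L[ℝ] V),
  t < q + ε ∧ Spc H T s q t₁ t Ps P B Bu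

/-- No slow vectors, uniform growth (uses `XPosR`, `SHs`, `SPr`, `XRec`).  Let `s₀ > 0` with `Gr H s₀`
(`XPosR`), `Ps` from `SHs`, `Pr` from `SPr` for `ρ = exp s`, `ρ₂ > ρ`.  Suppose `Gr H s` fails; `Z` from `XRec` for
`s' > s` with `exp s' < ρ₂`; `w = (Z 0, Z 1) = (0, Z 1) ≠ 0`, `‖T^k w‖ ≤ C exp(s' k)`, so `w - Pr w = 0` (as in
`SSp`) and the growth of `w` has rate at most `s`.  Let `w' = w - Ps w`: bounded backward orbit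
(`SHs`), rate of growth at most `s` (`Ps w` is bounded), so `w' = 0` by hypothesis; then
`w = Ps w`, `w.2 = B w.1 = B 0 = 0`, `Z 1 = 0`: a contradiction. -/
def SGr : Prop := ∀ (V : Type) [NormedAddCommGroup V] [NormedSpace ℝ V] [FiniteDimensional ℝ V]
  (lam s : ℝ) (H : Bf V) (T : (V × V) ≃L[ℝ] (V × V)), 0 < lam → Pos lam H → IsTr H T → 0 < s →
  (∀ w, Slw T s w → w = 0) → Gr H s

/-! ### infinite chains -/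

/-- Decay (uses `YDif`, `XPer`).  `YDif` for `p` and the chain `0` (`crit`) on `[0, k]`, and `XPer`:
`‖p j‖ ≤ C (exp(-s'j) ‖p 0‖ + exp(-s'(k-j)) ρ)`, `k → ∞`.  For `v`: the chain `q j = v (k - j)` on `[0, k]`,
`‖v i‖ = ‖q (k-i)‖ ≤ C (exp(-s'(k-i)) ρ + exp(-s'i) ‖v 0‖)`, `k → ∞`. -/
def ZDc : Prop := ∀ (V : Type) [NormedAddCommGroup V] [NormedSpace ℝ V] [FiniteDimensional ℝ V]
  (lam K r : ℝ) (L : V × V → ℝ) (L1 : V × V → V × V →L[ℝ] ℝ) (L2 : V × V → Bf V),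
  Ch lam K r L L1 L2 → ∀ s s' : ℝ, Gr (L2 0) s → 0 < s' → s' < s → ∃ C ρ : ℝ, 1 ≤ C ∧ 0 < ρ ∧
  ρ < r ∧ (∀ p, Fc L1 ρ p → ∀ j : ℕ, ‖p j‖ ≤ C * ‖p 0‖ * Real.exp (-(s' * j))) ∧
  ∀ v, Bc L1 ρ v → ∀ j : ℕ, ‖v j‖ ≤ C * ‖v 0‖ * Real.exp (-(s' * j))

/-- Recursion for backward chains.  The chain equation for the three entries `v (i+2), v (i+1), v i` is
`L1 (v (i+2), v (i+1)) (0, w) + L1 (v (i+1), v i) (w, 0) = 0`, so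
`H (v (i+2), v (i+1)) (0, w) + H (v (i+1), v i) (w, 0)` is at most `2 K (..)^2 ‖w‖`.
`T.symm (v (i+1), v i) = (a, v (i+1))` with `H (a, v (i+1)) (0, w) + H (v (i+1), v i) (w, 0) = 0` (`IsTr`).
Subtract: `|H (v (i+2) - a, 0) (0, w)| ≤ 2 K (..)^2 ‖w‖`; the map `a ↦ H (a, 0) (0, ·)` is injective (proof of
`STr`; it follows from `IsTr` that `T (a, 0) = (0, 0)` implies `a = 0`), hence bounded below. -/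
def ZTh : Prop := ∀ (V : Type) [NormedAddCommGroup V] [NormedSpace ℝ V] [FiniteDimensional ℝ V]
  (lam K r : ℝ) (L : V × V → ℝ) (L1 : V × V → V × V →L[ℝ] ℝ) (L2 : V × V → Bf V)
  (T : (V × V) ≃L[ℝ] (V × V)), Ch lam K r L L1 L2 → Tws (L2 0) → IsTr (L2 0) T →
  ∃ C ρ : ℝ, 0 < ρ ∧ ∀ v, Bc L1 ρ v → ∀ i : ℕ,
  ‖(v (i + 2), v (i + 1)) - T.symm (v (i + 1), v i)‖ ≤
    C * (‖v i‖ + ‖v (i + 1)‖ + ‖v (i + 2)‖) ^ 2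

/-- ASYMPTOTICS OF PERTURBED LINEAR ORBITS.  Let `e i = θ (i+1) - T.symm (θ i)`, `Pu = 1 - Ps - P` (commutes with
`T`, `Pu Pu = Pu`).  Fast part: `Pu θ_i = T^(-i) Pu θ_0 + ∑_{m<i} T^(-(i-m-1)) Pu e_m`, norm
`≤ C A ρ exp(-ti) + ∑_{m<i} C exp(-t(i-m-1)) A ρ^2 exp(-2sm) ≤ C ρ exp(-ti)` (`t < 2s`).  Stable part: `θ_m =
T (θ_(m+1) - e_m)`, so `Ps θ_i = T^(m-i) Ps θ_m - ∑_{i≤l<m} T^(l-i+1) Ps e_l`; `m → ∞`: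
`‖Ps θ_i‖ ≤ ∑_{l≥i} C exp(-s(l-i+1)) A ρ^2 exp(-2sl) ≤ C ρ^2 exp(-2si)`.  Slow part: `Q_i = T^i P θ_i`,
`Q_(i+1) - Q_i = T^(i+1) P e_i`, norm `≤ C exp(t₁(i+1)) A ρ^2 exp(-2si)`, summable (`t₁ < 2s`), so `Q_i` converges
to some `Q` with `P Q = Q`, `‖Q - P θ_0‖ ≤ C ρ^2`, and `P θ_i - T^(-i) Q = - ∑_{l≥i} T^(l+1-i) P e_l` has norm
`≤ C ρ^2 exp(-2si)`. -/
def ZAs : Prop := ∀ (S : Type) [NormedAddCommGroup S] [NormedSpace ℝ S] [FiniteDimensional ℝ S]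
  (T : S ≃L[ℝ] S) (s₀ s t₁ t : ℝ) (Ps P : S →L[ℝ] S), Spl T s₀ t₁ t Ps P → 0 < s → s ≤ s₀ →
  0 < t₁ → t₁ < t → t < 2 * s → ∀ A : ℝ, 0 ≤ A → ∃ C : ℝ, 0 ≤ C ∧ ∀ (ρ : ℝ) (θ : ℕ → S), 0 ≤ ρ →
  ρ ≤ 1 → (∀ i : ℕ, ‖θ i‖ ≤ A * ρ * Real.exp (-(s * i))) →
  (∀ i : ℕ, ‖θ (i + 1) - T.symm (θ i)‖ ≤ A * ρ ^ 2 * Real.exp (-(2 * s * i))) →
  ∃ Q : S, P Q = Q ∧ ‖Q - P (θ 0)‖ ≤ C * ρ ^ 2 ∧ ‖Ps (θ 0)‖ ≤ C * ρ ^ 2 ∧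
    ∀ i : ℕ, ‖θ i - (⇑T.symm)^[i] Q‖ ≤ C * ρ * Real.exp (-(t * i))

/-- The slow coordinate of a backward chain (uses `ZDc`, `ZTh`, `ZAs`).  `θ i = (v (i+1), v i)`,
`ρ' = ‖v 0‖ ≤ 1`; the hypotheses of `ZAs` hold by `ZDc` (rate `s'`) and `ZTh`.  `Q` from `ZAs`.
`Ps (θ 0) = O(ρ'^2)`; `θ 0 - (Bu (v 0), v 0) = (v 1 - Bu (v 0), 0)` and `Ps` is injective on the vectors
`(a, 0)` (if `Ps (a, 0) = 0` then `a = Bu 0 = 0` by `ku`), hence bounded below on them, so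
`‖v 1 - Bu (v 0)‖ ≤ C ‖Ps (θ 0)‖ ≤ C ρ'^2` (`gu`) and `‖Q - P (Bu (v 0), v 0)‖ ≤ C ρ'^2`. -/
def ZQv : Prop := ∀ (V : Type) [NormedAddCommGroup V] [NormedSpace ℝ V] [FiniteDimensional ℝ V]
  (lam K r : ℝ) (L : V × V → ℝ) (L1 : V × V → V × V →L[ℝ] ℝ) (L2 : V × V → Bf V)
  (T : (V × V) ≃L[ℝ] (V × V)) (s s' q t₁ t : ℝ) (Ps P : (V × V) →L[ℝ] (V × V))
  (B Bu : V →L[ℝ] V), Ch lam K r L L1 L2 → Tws (L2 0) → Gr (L2 0) s → 0 < s' → s' < s →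
  Spc (L2 0) T s q t₁ t Ps P B Bu → 0 ≤ q → t < 2 * s' → ∃ C ρ : ℝ, 0 < ρ ∧ ∀ v, Bc L1 ρ v →
  ∃ Q : V × V, P Q = Q ∧ ‖Q‖ ≤ 1 ∧ ‖Q - P (Bu (v 0), v 0)‖ ≤ C * ‖v 0‖ ^ 2 ∧
    ∀ i : ℕ, ‖(v (i + 1), v i) - (⇑T.symm)^[i] Q‖ ≤ C * Real.exp (-(t * i))

/-! ### the mixed second difference -/

/-- Almost critical chains have almost minimal action.  Upper inequality: `YTri`.  Lower inequality: let
`u` be the tight chain from `y 0` to `y k` of `Gen.ex`, `‖u j‖ ≤ C₁ ρ`; choose `ρ` with `C₁ ρ < r` and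
`K C₁ ρ ≤ lam/2`, so `L2` at points of norm `≤ C₁ ρ` is at least `lam/2` times the square of the norm
(`‖a‖^2 + ‖b‖^2` for `(a, b)`).  Taylor along the segments from `y⁺ j` to `u⁺ j`, `δ = u - y`:
`∑ L(u⁺ j) ≥ ∑ L(y⁺ j) + ∑ L1(y⁺ j)(δ⁺ j) + (lam/4) ∑ (‖δ j‖^2 + ‖δ (j+1)‖^2)`.  As `δ 0 = δ k = 0` the
second sum is `∑_{0<j<k} (residual at j)(δ j) ≥ - ∑ ε j ‖δ j‖ ≥ - (lam/4) ∑ ‖δ j‖^2 - (1/lam) ∑ (ε j)^2`. -/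
def ZCv : Prop := ∀ (V : Type) [NormedAddCommGroup V] [NormedSpace ℝ V] (lam K r : ℝ)
  (L : V × V → ℝ) (L1 : V × V → V × V →L[ℝ] ℝ) (L2 : V × V → Bf V) (D : ℕ → V → V → ℝ),
  Gen lam K r L L1 L2 D → ∃ C ρ : ℝ, 0 < C ∧ 0 < ρ ∧ ∀ (k : ℕ) (y : ℕ → V) (ε : ℕ → ℝ), 1 ≤ k →
  (∀ j ≤ k, ‖y j‖ ≤ ρ) → (∀ j, 0 ≤ ε j) → (∀ j, j + 1 < k → ∀ w : V,
    |L1 (y j, y (j + 1)) (0, w) + L1 (y (j + 1), y (j + 2)) (w, 0)| ≤ ε (j + 1) * ‖w‖) →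
  D k (y 0) (y k) ≤ ∑ j ∈ Finset.range k, L (y j, y (j + 1)) ∧
  ∑ j ∈ Finset.range k, L (y j, y (j + 1)) - C * ∑ j ∈ Finset.range k, ε j ^ 2 ≤ D k (y 0) (y k)

/-- Sizes (uses `ZDc`, `XPer`).  `q j = v (k - j)`.  `XPer` with `H' = H` for the linear chains `Rx`, `Rz` and
`ZDc`: `‖Rx j‖ ≤ C exp(-s'(k-j)) ‖p k‖`, `‖Rz j‖ ≤ C exp(-s'j) ‖v k‖`.  All sizes are at most `ρ₀` if `ρ` is
small. -/
def ZMa : Prop := ∀ (V : Type) [NormedAddCommGroup V] [NormedSpace ℝ V] [FiniteDimensional ℝ V]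
  (lam K r : ℝ) (L : V × V → ℝ) (L1 : V × V → V × V →L[ℝ] ℝ) (L2 : V × V → Bf V),
  Ch lam K r L L1 L2 → ∀ s s' : ℝ, Gr (L2 0) s → 0 < s' → s' < s → ∀ ρ₀ : ℝ, 0 < ρ₀ →
  ∃ ρ : ℝ, 0 < ρ ∧ ∀ (k : ℕ) (p v Rx Rz : ℕ → V), Fc L1 ρ p → Bc L1 ρ v →
  Sol (fun _ => L2 0) k Rx → Rx 0 = 0 → Rx k = p k →
  Sol (fun _ => L2 0) k Rz → Rz 0 = v k → Rz k = 0 → ∀ j ≤ k,
  ‖p j‖ ≤ ρ₀ * Real.exp (-(s' * j)) ∧ ‖v (k - j)‖ ≤ ρ₀ * Real.exp (-(s' * ((k : ℝ) - j))) ∧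
  ‖Rx j‖ ≤ ρ₀ * Real.exp (-(s' * (2 * (k : ℝ) - j))) ∧
  ‖Rz j‖ ≤ ρ₀ * Real.exp (-(s' * ((k : ℝ) + j)))

/-- First step (uses `ZMa`, `ZCv`, `YTri`).  `q j = v (k - j)`, `A = p - Rx`, `B = q - Rz`: `A 0 = p 0`, `A k = 0`,
`B 0 = 0`, `B k = v 0`, `‖A j‖ ≤ 2 ρ₀ exp(-s'j)`, `‖B j‖ ≤ 2 ρ₀ exp(-s'(k-j))` (`ρ₀` small).  Let `res y j` be the
functional of the chain equation at `j`.  `res p = 0`, `res q = 0`, and the linear equations for `Rx`, `Rz`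
give `‖res A j‖ ≤ C (‖p‖ ‖Rx‖ + ‖Rx‖^2) ≤ C exp(-2s'k)` and `‖res B j‖ ≤ C exp(-2s'k)` (near `j`; by `Ch.lip`:
`‖L1 (a - b) - L1 a + H b‖ ≤ K (‖a‖ + ‖b‖) ‖b‖`).  `‖L1 (a + b) - L1 a - L1 b‖ ≤ K' ‖a‖ ‖b‖` (`lip2`), so
`‖res (A + B) j‖ ≤ C exp(-s'k)`.  `ZCv` for `A + B`, `A` and `B`: `Mx D k (p 0) (v 0)` differs from
`∑ (L((A+B)⁺) - L(A⁺) - L(B⁺))` by at most `C k exp(-2s'k)`; then `Ch4.dd` (`∑ ‖A⁺‖^2 ‖B⁺‖^2 ≤ C k exp(-2s'k)`). -/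
def ZMb : Prop := ∀ (V : Type) [NormedAddCommGroup V] [NormedSpace ℝ V] [FiniteDimensional ℝ V]
  (lam K r K' r' : ℝ) (L : V × V → ℝ) (L1 : V × V → V × V →L[ℝ] ℝ) (L2 : V × V → Bf V)
  (D : ℕ → V → V → ℝ), Gen lam K r L L1 L2 D → Ch4 K' r' L L1 L2 → ∀ s s' : ℝ, Gr (L2 0) s →
  0 < s' → s' < s → ∃ C ρ : ℝ, 0 < ρ ∧ ∀ (k : ℕ) (p v Rx Rz : ℕ → V), 1 ≤ k → Fc L1 ρ p →
  Bc L1 ρ v → Sol (fun _ => L2 0) k Rx → Rx 0 = 0 → Rx k = p k →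
  Sol (fun _ => L2 0) k Rz → Rz 0 = v k → Rz k = 0 →
  |Mx D k (p 0) (v 0) - ∑ j ∈ Finset.range k,
    (L1 (p j - Rx j, p (j + 1) - Rx (j + 1)) (v (k - j) - Rz j, v (k - (j + 1)) - Rz (j + 1)) +
    L1 (v (k - j) - Rz j, v (k - (j + 1)) - Rz (j + 1)) (p j - Rx j, p (j + 1) - Rx (j + 1)) -
    L2 0 (p j - Rx j, p (j + 1) - Rx (j + 1)) (v (k - j) - Rz j, v (k - (j + 1)) - Rz (j + 1)))| ≤
      C * (k + 1) * Real.exp (-(2 * s' * k))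

/-- Second step (uses `ZMa`, `XGreen`).  Notation as in `ZMb`; errors `≤ C (k+1) exp(-2s'k)` are neglected.
`∑ (L1(A⁺) B⁺ - H A⁺ B⁺) = ∑ c₁(A⁺) B⁺`, and `‖c₁(A⁺) - c₁(p⁺)‖ ≤ C (‖p⁺‖ + ‖Rx⁺‖) ‖Rx⁺‖ ≤ C exp(-2s'k)`, so it is
`∑ c₁(p⁺) B⁺`, the sum in `Fk` (`q j = v (k - j)`, `R = Rz`).  `∑ L1(B⁺) A⁺`: `‖L1(B⁺) - L1(q⁺) + H Rz⁺‖ ≤
C (‖q⁺‖ + ‖Rz⁺‖) ‖Rz⁺‖ ≤ C exp(-2s'k)` and `‖A⁺‖ ≤ C exp(-s'j)`, so it is `∑ L1(q⁺) A⁺ - ∑ H Rz⁺ A⁺`.  As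
`A 0 = p 0`, `A k = 0` and `q`, `Rz` satisfy their chain equations, the two sums are (summation by parts)
`L1(q 0, q 1)(p 0, 0) = H(q 0, q 1)(p 0, 0) + O(exp(-2s'k))` and `H(Rz 0, Rz 1)(p 0, 0)`; `Rz 0 = q 0`. -/
def ZMc : Prop := ∀ (V : Type) [NormedAddCommGroup V] [NormedSpace ℝ V] [FiniteDimensional ℝ V]
  (lam K r : ℝ) (L : V × V → ℝ) (L1 : V × V → V × V →L[ℝ] ℝ) (L2 : V × V → Bf V),
  Ch lam K r L L1 L2 → ∀ s s' : ℝ, Gr (L2 0) s →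
  0 < s' → s' < s → ∃ C ρ : ℝ, 0 < ρ ∧ ∀ (k : ℕ) (p v Rx Rz : ℕ → V), 1 ≤ k → Fc L1 ρ p →
  Bc L1 ρ v → Sol (fun _ => L2 0) k Rx → Rx 0 = 0 → Rx k = p k →
  Sol (fun _ => L2 0) k Rz → Rz 0 = v k → Rz k = 0 →
  |∑ j ∈ Finset.range k,
    (L1 (p j - Rx j, p (j + 1) - Rx (j + 1)) (v (k - j) - Rz j, v (k - (j + 1)) - Rz (j + 1)) +
    L1 (v (k - j) - Rz j, v (k - (j + 1)) - Rz (j + 1)) (p j - Rx j, p (j + 1) - Rx (j + 1)) -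
    L2 0 (p j - Rx j, p (j + 1) - Rx (j + 1)) (v (k - j) - Rz j, v (k - (j + 1)) - Rz (j + 1))) -
    Fk (L2 0) L1 p k (fun j => v (k - j)) Rz| ≤ C * (k + 1) * Real.exp (-(2 * s' * k))

/-- The functional of a forward chain (uses `ZDc`, `XDec`).  For `w ∈ E` let `R⁺ j = T^j (w.1, B w.1)` (the stable
solution from `w.1`; `Ps (w.1, B w.1) = (w.1, B w.1)`, norm `≤ C exp(-sj) ‖w‖`), and
`f w = H (0, w.2 - B w.1) (p 0, 0) + ∑_{j ≥ 0} c₁(p⁺ j) (T^j w - T^j (w.1, B w.1))`; for general `w` replace `w` by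
`P w`.  `‖c₁(p⁺ j)‖ ≤ C ‖p 0‖^2 exp(-2s'j)` (`ZDc`) and `‖T^j w‖ ≤ C exp(t₁ j) ‖w‖`, `t₁ < t < 2s'`: the series
converges and `f` is a bounded functional with the first property.  Second property: `w = T^(-k) T Q`, so
`T^j w = T^(-(k-j-1)) Q` for `j < k`; `‖w‖ ≤ C`.  (a) Replace `q⁺ j` by `T^j w`, and `R` by the linear chain `R'`
from `w.1` to `0` on `[0, k]`: `‖R j - R' j‖ ≤ C exp(-sj) ‖q 0 - w.1‖` (`XDec`), the change of `Fk` is at most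
`C C' ∑_j exp(-2s'j) exp(-t(k-j)) ≤ C C' exp(-tk)` (`t < 2s'`).  (b) Replace `R'` by `R⁺`: `‖R⁺ j - R' j‖ ≤
C exp(-s(k-j)) exp(-sk)` (`XDec`; it vanishes at `0`), change at most `C ∑_j exp(-2s'j - s(2k-j)) ≤
C exp(-2s'k)`.  (c) The tail: `∑_{j≥k} C exp(-2s'j) exp(t₁(j-k+1)) ≤ C exp(-2s'k)`. -/
def ZFf : Prop := ∀ (V : Type) [NormedAddCommGroup V] [NormedSpace ℝ V] [FiniteDimensional ℝ V]
  (lam K r : ℝ) (L : V × V → ℝ) (L1 : V × V → V × V →L[ℝ] ℝ) (L2 : V × V → Bf V)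
  (T : (V × V) ≃L[ℝ] (V × V)) (s s' q₀ t₁ t : ℝ) (Ps P : (V × V) →L[ℝ] (V × V))
  (B Bu : V →L[ℝ] V), Ch lam K r L L1 L2 → Tws (L2 0) → Gr (L2 0) s → 0 < s' → s' < s →
  Spc (L2 0) T s q₀ t₁ t Ps P B Bu → 0 ≤ q₀ → t < 2 * s' → ∃ C ρ : ℝ, 0 < ρ ∧ ∀ p, Fc L1 ρ p →
  ∃ f : V × V →L[ℝ] ℝ,
  (∀ w, P w = w → |f w - L2 0 (0, w.2 - B w.1) (p 0, 0)| ≤ C * ‖p 0‖ ^ 2 * ‖w‖) ∧
  ∀ (k : ℕ) (Q : V × V) (q R : ℕ → V) (C' : ℝ), 1 ≤ k → P Q = Q → ‖Q‖ ≤ 1 → 0 ≤ C' →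
    Sol (fun _ => L2 0) k R → R 0 = q 0 → R k = 0 →
    (∀ j : ℕ, j + 1 ≤ k →
      ‖(q j, q (j + 1)) - (⇑T.symm)^[k - (j + 1)] Q‖ ≤ C' * Real.exp (-(t * ((k : ℝ) - j)))) →
    |Fk (L2 0) L1 p k q R - f ((⇑T.symm)^[k] (T Q))| ≤ C * (1 + C') * Real.exp (-(t * k))

/-- THE SLOW PART OF THE MIXED SECOND DIFFERENCE (uses `ZMb`, `ZMc`, `ZFf`, `ZQv`, `XBvp`).  Choose functions
`Q₀`, `f` with the properties of `ZQv`, `ZFf` (`Classical.choice`), `Q v = T (Q₀ v)`.  `Rx`, `Rz` from `XBvp`.  The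
hypothesis of `ZFf` for `q j = v (k - j)`, `C' = C exp t`: `ZQv` with `i = k - (j + 1)`
(`(q j, q (j+1)) = (v (i+1), v i)`).  And `(k+1) exp(-2s'k) ≤ C exp(-tk)` as `t < 2s'`. -/
def ZF : Prop := ∀ (V : Type) [NormedAddCommGroup V] [NormedSpace ℝ V] [FiniteDimensional ℝ V]
  (lam K r K' r' : ℝ) (L : V × V → ℝ) (L1 : V × V → V × V →L[ℝ] ℝ) (L2 : V × V → Bf V)
  (D : ℕ → V → V → ℝ) (T : (V × V) ≃L[ℝ] (V × V)) (s s' q t₁ t : ℝ)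
  (Ps P : (V × V) →L[ℝ] (V × V)) (B Bu : V →L[ℝ] V), Gen lam K r L L1 L2 D →
  Ch4 K' r' L L1 L2 → Tws (L2 0) → Gr (L2 0) s → 0 < s' → s' < s →
  Spc (L2 0) T s q t₁ t Ps P B Bu → 0 ≤ q → t < 2 * s' →
  ∃ (C ρ : ℝ) (Q : (ℕ → V) → V × V) (f : (ℕ → V) → V × V →L[ℝ] ℝ), 0 < ρ ∧
  (∀ v, Bc L1 ρ v → P (Q v) = Q v ∧ ‖Q v - T (P (Bu (v 0), v 0))‖ ≤ C * ‖v 0‖ ^ 2) ∧
  (∀ p, Fc L1 ρ p → ∀ w, P w = w →
    |f p w - L2 0 (0, w.2 - B w.1) (p 0, 0)| ≤ C * ‖p 0‖ ^ 2 * ‖w‖) ∧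
  ∀ (p v : ℕ → V) (k : ℕ), Fc L1 ρ p → Bc L1 ρ v → 1 ≤ k →
    |Mx D k (p 0) (v 0) - f p ((⇑T.symm)^[k] (Q v))| ≤ C * Real.exp (-(t * k))

/-! ### realisation -/

/-- Spanning.  FIRST PART.  Let `U` be the span, a closed subspace of `E`.  Let `w ∈ E`, `z = w.2`; `Ps w = 0`, so
`w = (Bu z, z)` (`ku`) and `P (Bu z, z) = w`.  For `θ > 0` small take `v ∈ VV` with `v 0 = θ z`:
`‖θ⁻¹ Q v - T w‖ ≤ C θ ‖z‖^2`, so `T w ∈ U`.  As `T` maps `E` onto `E`, `U = E`.  SECOND PART.  Let `w ∈ E` with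
`f p w = 0` for all `p ∈ PP`; for `x ∈ V` and small `θ > 0` take `p ∈ PP` with `p 0 = θ x`: `|H (0, w.2 - B w.1) (x, 0)| ≤
C θ ‖x‖^2 ‖w‖`.  So `w.2 = B w.1` (`Tws`), `w = (w.1, B w.1)`, `Ps w = w` (`gs`), but `Ps w = Ps (P w) = 0`. -/
def ZSp : Prop := ∀ (V : Type) [NormedAddCommGroup V] [NormedSpace ℝ V] [FiniteDimensional ℝ V]
  (H : Bf V) (T : (V × V) ≃L[ℝ] (V × V)) (s q t₁ t : ℝ) (Ps P : (V × V) →L[ℝ] (V × V))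
  (B Bu : V →L[ℝ] V), Tws H → Spc H T s q t₁ t Ps P B Bu → ∀ C ρ₁ : ℝ, 0 < ρ₁ →
  (∀ (VV : Set (ℕ → V)) (Q : (ℕ → V) → V × V),
    (∀ v ∈ VV, P (Q v) = Q v ∧ ‖Q v - T (P (Bu (v 0), v 0))‖ ≤ C * ‖v 0‖ ^ 2) →
    (∀ z : V, ‖z‖ ≤ ρ₁ → ∃ v ∈ VV, v 0 = z) → ∀ w, P w = w → w ∈ Submodule.span ℝ (Q '' VV)) ∧
  ∀ (PP : Set (ℕ → V)) (f : (ℕ → V) → V × V →L[ℝ] ℝ),
    (∀ p ∈ PP, ∀ w, P w = w → |f p w - H (0, w.2 - B w.1) (p 0, 0)| ≤ C * ‖p 0‖ ^ 2 * ‖w‖) →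
    (∀ x : V, ‖x‖ ≤ ρ₁ → ∃ p ∈ PP, p 0 = x) → ∀ w, P w = w → (∀ p ∈ PP, f p w = 0) → w = 0

/-- UNIQUENESS OF REALISATIONS.  `E_i` the range of `P_i`.  (1) The sequence
`a k = f₁ α (T₁^(-k) Q₁ β) - f₂ α (T₂^(-k) Q₂ β)` is `0` for all `k`.  Let `E = E₁ × E₂`, `T = T₁ × T₂` (maps `E` onto
`E`), `φ = (f₁ α, - f₂ α)`, `ψ = (Q₁ β, Q₂ β) ∈ E`, `N` the space of all `w ∈ E` with `φ (T^(-k) w) = 0` for all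
`k ≥ 0`, and `m = dim E`.  By Cayley-Hamilton (for `T⁻¹` on `E`) `N` is the space of the `w ∈ E` with
`φ (T^(-k) w) = 0` for `0 ≤ k < m`, and it is invariant under `T⁻¹`, hence under `T`.  So with a constant `C`
`dist(w, N) ≤ C max_{k<m} |φ (T^(-k) w)|` for `w ∈ E`; for `w = T^(-k) ψ` this is `≤ C' exp(-tk)`, and `T^k`
maps `N` to `N` and is bounded by `C exp(t₁ k)` on `E`, so `dist(ψ, N) ≤ C exp(t₁ k) C' exp(-tk) → 0`,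
`ψ ∈ N`.  (2) Let `Ψ (∑ c_β Q₁ β) = ∑ c_β Q₂ β`: well defined on `E₁` (spanned by the `Q₁ β`), because if
`∑ c_β Q₁ β = 0` then `f₂ α (∑ c_β Q₂ β) = f₁ α (∑ c_β Q₁ β) = 0` for all `α` (`k = 0` in (1)).  Injective by the
same argument with `f₁`, onto `E₂`, and `f₂ α (T₂^(-1) Ψ w) = f₁ α (T₁^(-1) w) = f₂ α (Ψ T₁^(-1) w)` (`k = 1`
and `k = 0` in (1)), so `T₂^(-1) Ψ = Ψ T₁^(-1)` on `E₁`.  Extend `Ψ` to `S₁` by `Ψ ∘ P₁`. -/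
def ZRe : Prop := ∀ (S₁ S₂ : Type) [NormedAddCommGroup S₁] [NormedSpace ℝ S₁]
  [FiniteDimensional ℝ S₁] [NormedAddCommGroup S₂] [NormedSpace ℝ S₂] [FiniteDimensional ℝ S₂]
  (T₁ : S₁ ≃L[ℝ] S₁) (T₂ : S₂ ≃L[ℝ] S₂) (s r₁ r₂ t₁ t₂ t : ℝ) (Ps₁ P₁ : S₁ →L[ℝ] S₁)
  (Ps₂ P₂ : S₂ →L[ℝ] S₂), Spl T₁ s r₁ t₁ Ps₁ P₁ → Spl T₂ s r₂ t₂ Ps₂ P₂ → r₁ < t → r₂ < t →
  ∀ (𝒜 ℬ : Type) (f₁ : 𝒜 → S₁ →L[ℝ] ℝ) (f₂ : 𝒜 → S₂ →L[ℝ] ℝ) (Q₁ : ℬ → S₁) (Q₂ : ℬ → S₂),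
  (∀ β, P₁ (Q₁ β) = Q₁ β) → (∀ β, P₂ (Q₂ β) = Q₂ β) →
  (∀ w, P₁ w = w → w ∈ Submodule.span ℝ (range Q₁)) →
  (∀ w, P₂ w = w → w ∈ Submodule.span ℝ (range Q₂)) →
  (∀ w, P₁ w = w → (∀ α, f₁ α w = 0) → w = 0) → (∀ w, P₂ w = w → (∀ α, f₂ α w = 0) → w = 0) →
  (∀ α β, ∃ (C : ℝ) (k₀ : ℕ), ∀ k : ℕ, k₀ ≤ k →
    |f₁ α ((⇑T₁.symm)^[k] (Q₁ β)) - f₂ α ((⇑T₂.symm)^[k] (Q₂ β))| ≤ C * Real.exp (-(t * k))) →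
  ∃ Ψ : S₁ →L[ℝ] S₂, (∀ w, P₁ w = w → P₂ (Ψ w) = Ψ w) ∧ (∀ w, P₁ w = w → Ψ w = 0 → w = 0) ∧
    (∀ w', P₂ w' = w' → ∃ w, P₁ w = w ∧ Ψ w = w') ∧ ∀ w, P₁ w = w → Ψ (T₁ w) = T₂ (Ψ w)

end Pool.Agent.LX
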