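import Pool.Agent.Work.MP_25cd3b_gt.LX.StmtsR
import Pool.Agent.Work.MP_25cd3b_gt.LX.StmtsZ

set_option autoImplicit false

/-!
# MP_25cd3b_gt, block LX, part V: the slow part of the linearised Poincaré map (geometric part), statements
with complete proofs

What may be used: as in StmtsB, StmtsK, StmtsR; every statement of the parts A, B, J, K, C, M, R is a theorem
(`Pool.Agent.Work.MP_25cd3b_gt.LX.All`: `x_BSm`, `x_KMain`, ...), but please take them as hypotheses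
`(h : BSm)` (faster imports).  `L = Lk g φ a o l V`, `L1 = fderiv ℝ L`, `L2 = fderiv ℝ (fderiv ℝ L)`,
`H = HH g φ a o l V = L2 0` (by definition), `o = c 0`.
-/

open MeasureTheory Set Filter Topology
open scoped ContDiff ENNReal
open Pool.Agent.Work.MP_c9f990_an.Al (IsFlow)

namespace Pool.Agent.LX

open Pool.Agent.MLS Pool.Agent.STR Pool.Agent.LR

/-- `α` is forward asymptotic to `c`, `ρ`-close to `c` on `[0, ∞)`, and passes through `ex_o (p 0)` at a time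
close to `0`; `p` is a forward chain -/
structure Fw {n : ℕ} {G : Type} [Group G] [MulAction G (E n)] (g : Form n) (φ : ℝ → W n → W n)
    (a : G) (c : ℝ → E n) (l : ℝ) (V : Submodule ℝ (E n)) (ρ : ℝ) (α : ℝ → E n) (p : ℕ → V) :
    Prop where
  ug : UG g α
  as : As g α c
  near : ∀ t, 0 ≤ t → gd g (α t) (c t) ≤ ρ
  ch : Fc (fderiv ℝ (Lk g φ a (c 0) l V)) ρ p
  st : ∃ a₀ : ℝ, |a₀| ≤ ρ ∧ α a₀ = expo φ g (c 0) (p 0)

/-- the same for backward asymptotic geodesics -/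
structure Bw {n : ℕ} {G : Type} [Group G] [MulAction G (E n)] (g : Form n) (φ : ℝ → W n → W n)
    (a : G) (c : ℝ → E n) (l : ℝ) (V : Submodule ℝ (E n)) (ρ : ℝ) (β : ℝ → E n) (v : ℕ → V) :
    Prop where
  ug : UG g β
  as : Ab g β c
  near : ∀ t, t ≤ 0 → gd g (β t) (c t) ≤ ρ
  ch : Bc (fderiv ℝ (Lk g φ a (c 0) l V)) ρ v
  st : ∃ b₀ : ℝ, |b₀| ≤ ρ ∧ β b₀ = expo φ g (c 0) (v 0)

/-- orthogonal Jacobi fields, bounded on `(-∞, 0]`, of growth rate at most `q` on `[0, ∞)` -/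
def slo {n : ℕ} (g : Form n) (c : ℝ → E n) (q : ℝ) : Set (ℝ → E n) :=
  {J | NJ g c J ∧ (∃ C : ℝ, ∀ t, t ≤ 0 → nrm g (c t) (J t) ≤ C) ∧
    ∀ q' : ℝ, q < q' → ∃ C : ℝ, ∀ t, 0 ≤ t → nrm g (c t) (J t) ≤ C * Real.exp (q' * t)}

/-! ### preparation -/

/-- Functions of class `C^4` (pure analysis).  Let `L1 = fderiv L`, `L2 = fderiv L1`, `L3 = fderiv L2` near
`0`; `L2` and `L3` are Lipschitz on a small ball (`ContDiffAt.exists_lipschitzOnWith`).  `dd`: for fixed small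
`a, b` let `h s = L(s a + b) - L(s a) - L b - L1(s a) b - s L1(b) a + s L2(0) a b`, `s ∈ [0, 1]`.  `h 0 = 0`
(`L 0 = 0`, `L1 0 = 0`), `h' s = L1(s a + b) a - L1(s a) a - L2(s a) a b - L1(b) a + L2(0) a b`, `h' 0 = 0`,
`h'' s = L2(s a + b) a a - L2(s a) a a - L3(s a) a a b`, and `L3(x) a a b = L3(x) b a a` (symmetry of third
derivatives), so `|h'' s| ≤ ‖L2(s a + b) - L2(s a) - L3(s a) b‖ ‖a‖^2 ≤ K ‖b‖^2 ‖a‖^2`.  So
`|h 1| ≤ K ‖a‖^2 ‖b‖^2`. -/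
def ZC4 : Prop := ∀ (V : Type) [NormedAddCommGroup V] [NormedSpace ℝ V] [FiniteDimensional ℝ V]
  (L : V × V → ℝ) (r₀ : ℝ), 0 < r₀ → (∀ p : V × V, ‖p‖ < r₀ → ContDiffAt ℝ ∞ L p) → L 0 = 0 →
  fderiv ℝ L 0 = 0 → ∃ K r : ℝ, Ch4 K r L (fderiv ℝ L) (fderiv ℝ (fderiv ℝ L))

/-- Smaller growth rate in a splitting.  Only `b2` changes: by `slw` for every `w` the orbit of `P w` is at
most `C_w exp(r k)`; apply this to a basis of the finite dimensional space `V × V` (linearity of `P` and of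
the iterates of `T`). -/
def SRr : Prop := ∀ (V : Type) [NormedAddCommGroup V] [NormedSpace ℝ V] [FiniteDimensional ℝ V]
  (H : Bf V) (T : (V × V) ≃L[ℝ] (V × V)) (s q t₁ t : ℝ) (Ps P : (V × V) →L[ℝ] (V × V))
  (B Bu : V →L[ℝ] V), Spc H T s q t₁ t Ps P B Bu → ∀ r : ℝ, q < r → r < t →
  Spc H T s q r t Ps P B Bu

/-- Nondegeneracy (uses `BPos`, `BBv`, `BOrt`; it is a step in the proof of `JInv`, see `LX/I_JInv.lean`).  If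
`v' ∈ V` and `H (0, v') (w, 0) = 0` for all `w ∈ V`, then for the Jacobi field `J` with `J 0 = 0`,
`J l = dac a (c 0) v'` the formula of `BPos` gives `g(c 0)(cov J 0, w) = 0` for all `w ∈ V`; `cov J 0 ∈ V`
(`BOrt`), so `cov J 0 = J' 0 = 0`, `J = 0` (`BBv`), `v' = 0`. -/
def VTw : Prop := ∀ (n : ℕ) (G : Type) [Group G] [MulAction G (E n)] (g : Form n) (κ : ℝ)
  (φ : ℝ → W n → W n) (M : ℝ → W n → W n →L[ℝ] W n) (lg : E n → E n → E n) (a : G) (c : ℝ → E n)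
  (l : ℝ) (V : Submodule ℝ (E n)), Per n G g κ φ M lg a c l V → Tws (HH g φ a (c 0) l V)

/-- Existence (uses `KExA`, `KExB`, `KAl`, `BRev`).  Forward: `α, a₀` from `KExA`, `p` from `KAl` with
`δ = ρ / C` (and the `ρ` of `KExA` equal to `δ`).  Backward: `β, b₀` from `KExB`; `t ↦ β (-t)`, `-b₀` and the
reversed data of `BRev` in `KAl` give `v` with `v 0 = z`, `EL` for `Lk g φ a⁻¹ (c 0) l V`.  By `BRev` (`k = 1`)
this function is `p ↦ Lk g φ a (c 0) l V p.swap`, so its derivative at `p` is `q ↦ L1 p.swap q.swap`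
(everywhere; `fderiv` of a composition with a linear equivalence), and the chain equation for
`j ↦ v (k - j)` is the one for `v`. -/
def VEx : Prop := ∀ (n : ℕ) (G : Type) [Group G] [MulAction G (E n)] (g : Form n) (κ : ℝ)
  (φ : ℝ → W n → W n) (M : ℝ → W n → W n →L[ℝ] W n) (lg : E n → E n → E n) (a : G) (c : ℝ → E n)
  (l : ℝ) (V : Submodule ℝ (E n)), Per n G g κ φ M lg a c l V → ∀ ρ : ℝ, 0 < ρ → ∃ ρ₀ : ℝ, 0 < ρ₀ ∧
  (∀ x : V, ‖x‖ ≤ ρ₀ → ∃ (α : ℝ → E n) (p : ℕ → V), Fw g φ a c l V ρ α p ∧ p 0 = x) ∧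
  ∀ z : V, ‖z‖ ≤ ρ₀ → ∃ (β : ℝ → E n) (v : ℕ → V), Bw g φ a c l V ρ β v ∧ v 0 = z

/-- Chains of given geodesics (uses `BCr`, `KAl`, `BRev`).  Forward: `BCr` with `j = 0` (`C ρ₁ ≤ 1`) gives
`a₀`, `x` with `α a₀ = ex_o x`, both at most `C ρ₁`; then `KAl`.  Backward: the same for the reversed
data (see `VEx`). -/
def VGv : Prop := ∀ (n : ℕ) (G : Type) [Group G] [MulAction G (E n)] (g : Form n) (κ : ℝ)
  (φ : ℝ → W n → W n) (M : ℝ → W n → W n →L[ℝ] W n) (lg : E n → E n → E n) (a : G) (c : ℝ → E n)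
  (l : ℝ) (V : Submodule ℝ (E n)), Per n G g κ φ M lg a c l V → ∀ ρ : ℝ, 0 < ρ → ∃ ρ₁ : ℝ, 0 < ρ₁ ∧
  (∀ α : ℝ → E n, UG g α → As g α c → (∀ t, -1 ≤ t → gd g (α t) (c t) ≤ ρ₁) →
    ∃ p : ℕ → V, Fw g φ a c l V ρ α p) ∧
  ∀ β : ℝ → E n, UG g β → Ab g β c → (∀ t, t ≤ 1 → gd g (β t) (c t) ≤ ρ₁) →
    ∃ v : ℕ → V, Bw g φ a c l V ρ β v

/-- TEMPORAL DISPLACEMENTS AND THE SLOW PART (uses `BGen`, `BSm`, `ZC4`, `VTw`, `KMain`, `ZF`).  `ZF` for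
`GenK` (`BGen`), `Ch4` (`BSm`, `ZC4`), and `KMain` with the same `s, s'`: `|τ - Mx ..| ≤ C exp(-2s'k) ≤ C exp(-tk)`. -/
def VTa : Prop := ∀ (n : ℕ) (G : Type) [Group G] [MulAction G (E n)] (g : Form n) (κ : ℝ)
  (φ : ℝ → W n → W n) (M : ℝ → W n → W n →L[ℝ] W n) (lg : E n → E n → E n) (a : G) (c : ℝ → E n)
  (l : ℝ) (V : Submodule ℝ (E n)), Per n G g κ φ M lg a c l V →
  ∀ (T : (V × V) ≃L[ℝ] (V × V)) (s s' q t₁ t : ℝ) (Ps P : (V × V) →L[ℝ] (V × V))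
  (B Bu : V →L[ℝ] V), Gr (HH g φ a (c 0) l V) s → 0 < s' → s' < s →
  Spc (HH g φ a (c 0) l V) T s q t₁ t Ps P B Bu → 0 ≤ q → t < 2 * s' →
  ∃ (C ρ : ℝ) (k₀ : ℕ) (Q : (ℕ → V) → V × V) (f : (ℕ → V) → V × V →L[ℝ] ℝ), 0 < ρ ∧
  (∀ v, Bc (fderiv ℝ (Lk g φ a (c 0) l V)) ρ v →
    P (Q v) = Q v ∧ ‖Q v - T (P (Bu (v 0), v 0))‖ ≤ C * ‖v 0‖ ^ 2) ∧
  (∀ p, Fc (fderiv ℝ (Lk g φ a (c 0) l V)) ρ p → ∀ w, P w = w →
    |f p w - HH g φ a (c 0) l V (0, w.2 - B w.1) (p 0, 0)| ≤ C * ‖p 0‖ ^ 2 * ‖w‖) ∧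
  ∀ (α β : ℝ → E n) (p v : ℕ → V) (k : ℕ), Fw g φ a c l V ρ α p → Bw g φ a c l V ρ β v →
    k₀ ≤ k → ∃ τ : ℝ, Tau g a α β k l τ ∧
      |τ - f p ((⇑T.symm)^[k] (Q v))| ≤ C * Real.exp (-(t * k))

/-- CONJUGACY OF THE SLOW PARTS (uses `VTa`, `VEx`, `VGv`, `VTw`, `RPr`, `RT1`, `RT2`, `RTau`, `SRr`, `ZSp`, `ZRe`).
`D` from `RPr` (for `(g1, g2)` and for `(g2, g1)`), `C, ρ, k₀, Q, f` from `VTa` for both metrics (the smaller `ρ`,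
the larger `k₀`).  `𝒜` is the type of the quadruples `(α1, p1, α2, p2)` with `Fw` for `g1` and for `g2` and
`d₂(α1 t, α2 t) ≤ C'` for all `t`; `ℬ` the type of the quadruples `(β1, v1, β2, v2)` with `Bw` for both and
`d₂(β1 t, β2 t) ≤ C'`, where `C'` is large.  `f_i` of a quadruple is `f^i p_i`, `Q_i` is `Q^i v_i`.  Every small
`x ∈ V₁` is `p1 0` of a quadruple: `α1, p1` from `VEx` (with a small `ρ`), `α2` from `RT1` (for `(g1, g2)`), `p2` from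
`VGv` for `g2`.  Every small `y ∈ V₂` is `p2 0` of a quadruple: `VEx` for `g2`, `RT1` for `(g2, g1)`, `VGv` for
`g1`, and `d₂ ≤ d₁ + D`.  The same for `ℬ` with `RT2`.  So by `ZSp` (for both metrics) the spanning and
separation hypotheses of `ZRe` hold.  Estimate: for `k ≥ k₀` `VTa` for `g1` gives `τ` with `Tau g1 .. τ`, so
`Tau g2 .. τ` (`RTau`), and `VTa` for `g2` gives `τ'`, `τ' = τ` (limits are unique); so
`|f₁ α (T₁^(-k) Q₁ β) - f₂ α (T₂^(-k) Q₂ β)| ≤ C exp(-tk)`, `t = min t₁ t₂`.  Use `SRr` with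
`q < r < min t₁ t₂` for the growth rates in `ZRe`. -/
def VCon : Prop := ∀ (n : ℕ) (G : Type) [Group G] [MulAction G (E n)] (g1 g2 : Form n)
  (κ₁ κ₂ : ℝ) (φ₁ φ₂ : ℝ → W n → W n) (M₁ M₂ : ℝ → W n → W n →L[ℝ] W n)
  (lg₁ lg₂ : E n → E n → E n) (a : G) (c₁ c₂ : ℝ → E n) (l : ℝ) (V₁ V₂ : Submodule ℝ (E n)),
  Per n G g1 κ₁ φ₁ M₁ lg₁ a c₁ l V₁ → Per n G g2 κ₂ φ₂ M₂ lg₂ a c₂ l V₂ →
  (∀ b : G, L g1 b = L g2 b) → (∃ v ∈ V₁, v ≠ 0) → (∃ v ∈ V₂, v ≠ 0) →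
  ∀ (T₁ : (V₁ × V₁) ≃L[ℝ] (V₁ × V₁)) (T₂ : (V₂ × V₂) ≃L[ℝ] (V₂ × V₂)) (s s' q r₁ r₂ t₁ t₂ : ℝ)
  (Ps₁ P₁ : (V₁ × V₁) →L[ℝ] (V₁ × V₁)) (Ps₂ P₂ : (V₂ × V₂) →L[ℝ] (V₂ × V₂))
  (B₁ Bu₁ : V₁ →L[ℝ] V₁) (B₂ Bu₂ : V₂ →L[ℝ] V₂),
  Gr (HH g1 φ₁ a (c₁ 0) l V₁) s → Gr (HH g2 φ₂ a (c₂ 0) l V₂) s → 0 < s' → s' < s → 0 ≤ q →
  Spc (HH g1 φ₁ a (c₁ 0) l V₁) T₁ s q r₁ t₁ Ps₁ P₁ B₁ Bu₁ →
  Spc (HH g2 φ₂ a (c₂ 0) l V₂) T₂ s q r₂ t₂ Ps₂ P₂ B₂ Bu₂ → t₁ < 2 * s' → t₂ < 2 * s' →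
  ∃ Ψ : (V₁ × V₁) →L[ℝ] (V₂ × V₂), (∀ w, P₁ w = w → P₂ (Ψ w) = Ψ w) ∧
    (∀ w, P₁ w = w → Ψ w = 0 → w = 0) ∧ (∀ w', P₂ w' = w' → ∃ w, P₁ w = w ∧ Ψ w = w') ∧
    ∀ w, P₁ w = w → Ψ (T₁ w) = T₂ (Ψ w)

/-! ### Jacobi fields -/

/-- Codes of Jacobi fields (uses `BBv`, `BOrt`, `JChn`).  The code of an orthogonal Jacobi field `J` is
`w = (Z 0, Z 1)`, `J 0 = Z 0`, `J l = dac a (c 0) (Z 1)` (`Z` from `JChn`).  Existence and uniqueness for a given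
`w`: `BBv` and `BOrt` (first part; `dac a (c 0)` maps `V` to the orthogonal complement of `c' l`, `Inv`).
Linear combinations: `BBv`, last part. -/
def VJ1 : Prop := ∀ (n : ℕ) (G : Type) [Group G] [MulAction G (E n)] (g : Form n) (κ : ℝ)
  (φ : ℝ → W n → W n) (M : ℝ → W n → W n →L[ℝ] W n) (lg : E n → E n → E n) (a : G) (c : ℝ → E n)
  (l : ℝ) (V : Submodule ℝ (E n)), Per n G g κ φ M lg a c l V →
  (∀ J, NJ g c J → ∃ w : V × V, J 0 = w.1 ∧ J l = dac a (c 0) w.2) ∧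
  (∀ w : V × V, ∃ J, NJ g c J ∧ J 0 = w.1 ∧ J l = dac a (c 0) w.2) ∧
  (∀ J J', NJ g c J → NJ g c J' → J 0 = J' 0 → J l = J' l → J = J') ∧
  ∀ (J J' : ℝ → E n) (x y : ℝ), NJ g c J → NJ g c J' → NJ g c (x • J + y • J')

/-- The Poincaré map is the transfer map (uses `JChn`, `VTw`, `BBv`, `BJm`, `BJs`, `BOrt`, `VJ1`).  Let `Z` be the
chain of `J` (`JChn`), `w = (Z 0, Z 1)`, so `T w = (Z 1, Z 2)` (the chain equation determines `Z 2`, `VTw`).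
The field `J' t = (dac a (c t))⁻¹ (J (t + l)) = dac a⁻¹ (c (t + l)) (J (t + l))` is an orthogonal Jacobi field
(`BJs`, `BJm` for `a⁻¹`, `Inv`) with `J' 0 = Z 1`, `J' l = dac a (c 0) (Z 2)` (`c (2 l) = a^2 c 0`, chain rule),
so its code is `T w`; conversely a field `J'` with code `T w` is this one (`VJ1`).  So the relation
`J (t + l) = dac a (c t) (J' t)` for all `t` is equivalent to `w' = T w`. -/
def VJ3 : Prop := ∀ (n : ℕ) (G : Type) [Group G] [MulAction G (E n)] (g : Form n) (κ : ℝ)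
  (φ : ℝ → W n → W n) (M : ℝ → W n → W n →L[ℝ] W n) (lg : E n → E n → E n) (a : G) (c : ℝ → E n)
  (l : ℝ) (V : Submodule ℝ (E n)), Per n G g κ φ M lg a c l V →
  ∀ (T : (V × V) ≃L[ℝ] (V × V)), IsTr (HH g φ a (c 0) l V) T → ∀ (J J' : ℝ → E n) (w w' : V × V),
  NJ g c J → NJ g c J' → J 0 = w.1 → J l = dac a (c 0) w.2 → J' 0 = w'.1 →
  J' l = dac a (c 0) w'.2 → ((∀ t, J (t + l) = dac a (c t) (J' t)) ↔ w' = T w)

/-- Growth of Jacobi fields and of orbits (uses `VJ1`, `VJ3`, `BOrt`, `BCr` (third claim) or `StBnd`).  Let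
`J_k` be the field with the code `T^k w`, `J_(-k)` the field with the code `T^(-k) w`.  By `VJ3` (induction)
`J (t + k l) = dac (a^k) (c t) (J_k t)` and `J_(-k) (t + k l) = dac (a^k) (c t) (J t)`, so by `Inv`
`nrm (J (k l)) = nrm g o (T^k w).1` and `nrm (J (-k l)) = nrm g o (T^(-k) w).1` (the second with `c (-k l) =
a^(-k) o`).  `nrm g o` and `‖·‖` are equivalent, `‖T^k w‖ = max ‖(T^k w).1‖ ‖(T^(k+1) w).1‖` (`IsTr`: first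
component of `T w` is `w.2`).  Between two multiples of `l` the function `|J|^2` is at most the maximum
of its values at the two multiples: it is convex, because its derivative `2 g(D J, J)` is monotone
(`BOrt`).  With `q' l` in place of `q'`. -/
def VJ5 : Prop := ∀ (n : ℕ) (G : Type) [Group G] [MulAction G (E n)] (g : Form n) (κ : ℝ)
  (φ : ℝ → W n → W n) (M : ℝ → W n → W n →L[ℝ] W n) (lg : E n → E n → E n) (a : G) (c : ℝ → E n)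
  (l : ℝ) (V : Submodule ℝ (E n)), Per n G g κ φ M lg a c l V →
  ∀ (T : (V × V) ≃L[ℝ] (V × V)), IsTr (HH g φ a (c 0) l V) T → ∀ (J : ℝ → E n) (w : V × V) (q : ℝ),
  NJ g c J → J 0 = w.1 → J l = dac a (c 0) w.2 → (J ∈ slo g c q ↔ Slw T (q * l) w)

/-- CONCLUSION (uses `VCon`, `VJ1`, `VJ3`, `VJ5`, `VTw`, `BPos`, `SGr`, `SSp`, `STr`, `RFin`, `RDim`).  CASE `V₁ = 0`: then
`V₂ = 0` (`RDim` with the roles exchanged), all codes are `0`, so `slo` is `{0}` for both (`VJ1`), `Ψ = 0`.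
CASE `V₁ ≠ 0`, `V₂ ≠ 0`.  `q₀ > 0`.  `lam` from `BPos`, `T₁` from `STr`.  By `VJ5`, `VJ1` and the hypothesis
`Slw T₁ (q₀ l) w` implies `w = 0`, so `Gr H₁ (q₀ l)` (`SGr`).  `RFin` for `(g2, g1)`: `Gr H₂ s` for every
`0 < s < q₀ l`; and `Gr H₁ s` (monotone).  Choose `q l / 2 < s' < s < q₀ l`, `0 < s'`, and `ε` with
`q l + ε < 2 s'`; `SSp` for both (`q := q l`).  `VCon` gives `Ψ₀`.  Let `N_i` be the vector space of the
orthogonal Jacobi fields along `c_i` and `w_i : N_i → V_i × V_i` the code, a linear isomorphism (`VJ1`).  `Ψ` is a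
linear extension to all functions (`LinearMap.exists_extend`) of the map `N₁ → N₂` which corresponds to `Ψ₀`.
`J ∈ slo g1 c₁ q` iff `P₁ w = w` (`VJ5`, `slw`), so `Ψ` is a bijection of `slo g1 c₁ q` to `slo g2 c₂ q`, and it
commutes with the Poincaré maps by `VJ3` (for `J, J'` in `slo`, `w' = T₁ w`, `Ψ₀ w' = T₂ Ψ₀ w`). -/
def VFi : Prop := ∀ (n : ℕ) (G : Type) [Group G] [MulAction G (E n)] (g1 g2 : Form n)
  (κ₁ κ₂ : ℝ) (φ₁ φ₂ : ℝ → W n → W n) (M₁ M₂ : ℝ → W n → W n →L[ℝ] W n)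
  (lg₁ lg₂ : E n → E n → E n) (a : G) (c₁ c₂ : ℝ → E n) (l : ℝ) (V₁ V₂ : Submodule ℝ (E n)),
  Per n G g1 κ₁ φ₁ M₁ lg₁ a c₁ l V₁ → Per n G g2 κ₂ φ₂ M₂ lg₂ a c₂ l V₂ →
  (∀ b : G, L g1 b = L g2 b) → ∀ q₀ q : ℝ, 0 ≤ q → q < 2 * q₀ →
  (∀ J ∈ slo g1 c₁ q₀, J = 0) → ∃ Ψ : (ℝ → E n) →ₗ[ℝ] (ℝ → E n),
  BijOn Ψ (slo g1 c₁ q) (slo g2 c₂ q) ∧ ∀ J ∈ slo g1 c₁ q, ∀ J' ∈ slo g1 c₁ q,
    (∀ t, J (t + l) = dac a (c₁ t) (J' t)) → ∀ t, Ψ J (t + l) = dac a (c₂ t) (Ψ J' t)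

end Pool.Agent.LX
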