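import Pool.Agent.Work.MP_25cd3b_gt.LX.Fin2
import Pool.Agent.Work.MP_25cd3b_gt.LX.StmtsV
import Pool.Agent.Work.MP_25cd3b_gt.LX.DefsP
import Pool.Agent.Work.MP_25cd3b_gt.NG.All

set_option autoImplicit false

/-!
# MP_25cd3b_gt, block LX: the slow part of the linearised Poincaré map, the conclusion
-/

open MeasureTheory Set Filter Topology
open scoped ContDiff ENNReal

namespace Pool.Agent.LX

open Pool.Agent.MLS (E W)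
open Pool.Agent.GM (Frm toF UGeo UT vec ClGeo SlowConj)

namespace IFin3

theorem slow_eq {n : ℕ} {G : Type} [Group G] [MulAction G (E n)] {g : Frm (E n)}
    (hg : GM.Riem g) {a : G} (γ : ClGeo g a) (q : ℝ) : γ.slow q = slo (toF g) γ.c q := by
  have hΓ := γ.lc
  rw [GM.leviCivita_iff MLS.p_NcGa g hg] at hΓ
  ext J
  constructor
  · rintro ⟨h1, h2, h3, h4⟩
    exact ⟨⟨(GM.isJac_iff MLS.p_NcGa (toF g) hg γ.c J).2 (hΓ ▸ h1), h2⟩, h3, h4⟩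
  · rintro ⟨⟨h1, h2⟩, h3, h4⟩
    refine ⟨?_, h2, h3, h4⟩
    rw [hΓ]
    exact (GM.isJac_iff MLS.p_NcGa (toF g) hg γ.c J).1 h1

end IFin3

theorem fin3 (hV : VFi) (hP : FPer) (hC : LR.StCvG) (hR : RLen) (n : ℕ) (G : Type) [Group G]
    [MulAction G (E n)] (hG : GM.Cocompact (E n) G) (g1 g2 : Frm (E n)) (r1 : GM.Riem g1)
    (r2 : GM.Riem g2) (i1 : GM.Inv G g1) (i2 : GM.Inv G g2) (n1 : GM.NegCurv g1)
    (n2 : GM.NegCurv g2) (hLL : ∀ b : G, GM.L g1 b = GM.L g2 b) (a : G) (γ1 : ClGeo g1 a)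
    (γ2 : ClGeo g2 a) (q₀ q : ℝ) (hq : 0 ≤ q) (hq₀ : q < 2 * q₀) (h0 : γ1.slow q₀ ⊆ {0}) :
    SlowConj γ1 γ2 q := by
  obtain ⟨κ₁, φ₁, M₁, lg₁, V₁, P₁⟩ := hP n G hG g1 r1 i1 n1 a γ1.c γ1.l γ1.ug γ1.pos γ1.per
  obtain ⟨κ₂, φ₂, M₂, lg₂, V₂, P₂⟩ := hP n G hG g2 r2 i2 n2 a γ2.c γ2.l γ2.ug γ2.pos γ2.per
  have e : γ2.l = γ1.l := by
    rw [← IFin2.len hC hR P₁, ← IFin2.len hC hR P₂, hLL]
  rw [e] at P₂
  have hLL' : ∀ b : G, MLS.L (toF g1) b = MLS.L (toF g2) b := fun b => by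
    rw [GM.L_eq, GM.L_eq]; exact hLL b
  obtain ⟨Ψ, h1, h2⟩ := hV n G (toF g1) (toF g2) κ₁ κ₂ φ₁ φ₂ M₁ M₂ lg₁ lg₂ a γ1.c γ2.c γ1.l
    V₁ V₂ P₁ P₂ hLL' q₀ q hq hq₀ (fun J hJ => h0 (by rw [IFin3.slow_eq r1]; exact hJ))
  refine ⟨Ψ, ?_, ?_⟩
  · rw [IFin3.slow_eq r1, IFin3.slow_eq r2]
    exact h1
  · rw [IFin3.slow_eq r1, e]
    exact h2

end Pool.Agent.LX
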