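import Pool.Agent.Work.MP_25cd3b_gt.LX.StmtsB
import Pool.Agent.Work.MP_25cd3b_gt.NG.All

/-!
# MP_25cd3b_gt, block LX, item BBv: Jacobi fields with given boundary values
-/

set_option autoImplicit false
set_option maxSynthPendingDepth 3

open MeasureTheory Set Filter Topology
open scoped ContDiff ENNReal
open Pool.Agent.Work.MP_c9f990_an.Al (IsFlow)

namespace Pool.Agent.LX

open Pool.Agent.MLS Pool.Agent.STR Pool.Agent.LR

namespace IBBv

lemma cov_lin {n : ℕ} (g : Form n) (c X Y : ℝ → E n) (p q t : ℝ)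
    (hX : DifferentiableAt ℝ X t) (hY : DifferentiableAt ℝ Y t) :
    cov g c (fun s => p • X s + q • Y s) t = p • cov g c X t + q • cov g c Y t := by
  unfold cov
  have h1 : deriv (fun s => p • X s + q • Y s) t = p • deriv X t + q • deriv Y t :=
    ((hX.hasDerivAt.const_smul p).add (hY.hasDerivAt.const_smul q)).deriv
  rw [h1, map_add, map_smul, map_smul]
  module

lemma rm_lin {n : ℕ} (g : Form n) (x u u' v w : E n) (p q : ℝ) :
    Rm g x (p • u + q • u') v w = p • Rm g x u v w + q • Rm g x u' v w := by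
  unfold Rm
  simp only [map_add, map_smul, ContinuousLinearMap.add_apply, ContinuousLinearMap.smul_apply]
  module

lemma cov_diff {n : ℕ} {g : Form n} (hs : ContDiff ℝ ∞ (Ga g)) {c J : ℝ → E n}
    (hc : ContDiff ℝ 2 c) (hJ : ContDiff ℝ 2 J) : Differentiable ℝ (cov g c J) := by
  have h1 : Differentiable ℝ (deriv J) :=
    ((contDiff_succ_iff_deriv (n := 1)).1 hJ).2.2.differentiable (by norm_num)
  have h2 : Differentiable ℝ (deriv c) :=
    ((contDiff_succ_iff_deriv (n := 1)).1 hc).2.2.differentiable (by norm_num)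
  have h3 : Differentiable ℝ (fun s => Ga g (c s)) :=
    (hs.differentiable (by norm_num)).comp (hc.differentiable (by norm_num))
  exact h1.add ((h3.clm_apply h2).clm_apply (hJ.differentiable (by norm_num)))

lemma jac_lin {n : ℕ} {g : Form n} (hg : Riem g) {c : ℝ → E n} (hc : IsGeo g c) (J J' : ℝ → E n)
    (p q : ℝ) (hJ : IsJac g c J) (hJ' : IsJac g c J') :
    IsJac g c (fun t => p • J t + q • J' t) := by
  obtain ⟨hs, -, -, -⟩ := p_NcGa n g hg
  refine ⟨(hJ.smooth.const_smul p).add (hJ'.smooth.const_smul q), fun t => ?_⟩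
  have h1 : cov g c (fun t => p • J t + q • J' t) =
      fun t => p • cov g c J t + q • cov g c J' t := by
    funext s
    exact cov_lin g c J J' p q s ((hJ.smooth.differentiable (by norm_num)) s)
      ((hJ'.smooth.differentiable (by norm_num)) s)
  rw [h1, cov_lin g c (cov g c J) (cov g c J') p q t (cov_diff hs hc.smooth hJ.smooth t)
    (cov_diff hs hc.smooth hJ'.smooth t), rm_lin]
  have h2 := hJ.jac t
  have h3 := hJ'.jac t
  calc p • cov g c (cov g c J) t + q • cov g c (cov g c J') t +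
      (p • Rm g (c t) (J t) (deriv c t) (deriv c t) +
        q • Rm g (c t) (J' t) (deriv c t) (deriv c t)) =
      p • (cov g c (cov g c J) t + Rm g (c t) (J t) (deriv c t) (deriv c t)) +
      q • (cov g c (cov g c J') t + Rm g (c t) (J' t) (deriv c t) (deriv c t)) := by
        module
    _ = 0 := by rw [h2, h3, smul_zero, smul_zero, add_zero]

lemma jac_flow {n : ℕ} {g : Form n} {φ : ℝ → W n → W n} {M : ℝ → W n → W n →L[ℝ] W n}
    (hg : Riem g) (hφ : IsFlow (XH (Hm g)) φ M) {c : ℝ → E n} (hc : IsGeo g c) (t₀ : ℝ) (δ : W n) :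
    IsJac g c (fun s => (M (s - t₀) (c t₀, op g (c t₀) (deriv c t₀)) δ).1) := by
  obtain ⟨-, -, hiop, -, -, -, -, -, -⟩ := pr_Op n g hg
  obtain ⟨cd, -, d2⟩ := p_NcLin n g φ M hg hφ (c t₀, op g (c t₀) (deriv c t₀)) δ
  have hgx := p_NcGx n g φ M hg hφ c hc t₀
  refine p_NcCov n g hg c _ hc (cd.comp (contDiff_id.sub contDiff_const)) (fun t => ?_)
  have h1 : deriv (fun s => (M (s - t₀) (c t₀, op g (c t₀) (deriv c t₀)) δ).1) =
      fun s => deriv (fun r => (M r (c t₀, op g (c t₀) (deriv c t₀)) δ).1) (s - t₀) := by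
    funext s
    exact deriv_comp_sub_const (fun r => (M r (c t₀, op g (c t₀) (deriv c t₀)) δ).1) t₀ s
  have h2 := (d2 (t - t₀)).comp_sub_const t t₀
  rw [h1]
  rw [← (hgx t).1] at h2
  have h3 : vel g (c t, op g (c t) (deriv c t)) = deriv c t := hiop _ _
  rw [h3] at h2
  exact h2

lemma flow_zero {n : ℕ} {g : Form n} {φ : ℝ → W n → W n} {M : ℝ → W n → W n →L[ℝ] W n}
    (hg : Riem g) (hφ : IsFlow (XH (Hm g)) φ M) {c : ℝ → E n} (t₀ : ℝ) (δ : W n)
    (h1 : (M (t₀ - t₀) (c t₀, op g (c t₀) (deriv c t₀)) δ).1 = 0)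
    (h2 : deriv (fun s => (M (s - t₀) (c t₀, op g (c t₀) (deriv c t₀)) δ).1) t₀ = 0) : δ = 0 := by
  obtain ⟨-, -, -, hop, -, -, -, -, -⟩ := pr_Op n g hg
  obtain ⟨-, d1, -⟩ := p_NcLin n g φ M hg hφ (c t₀, op g (c t₀) (deriv c t₀)) δ
  have h3 : δ.1 = 0 := by
    rw [sub_self, hφ.M0] at h1
    exact h1
  have h4 : deriv (fun s => (M (s - t₀) (c t₀, op g (c t₀) (deriv c t₀)) δ).1) t₀ =
      deriv (fun r => (M r (c t₀, op g (c t₀) (deriv c t₀)) δ).1) (t₀ - t₀) :=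
    deriv_comp_sub_const (fun r => (M r (c t₀, op g (c t₀) (deriv c t₀)) δ).1) t₀ t₀
  rw [h2, d1 (t₀ - t₀), sub_self, hφ.zero, hφ.M0] at h4
  have h5 : δ = ((0 : E n), δ.2) := Prod.ext h3 rfl
  have h6 : fderiv ℝ (vel g) (c t₀, op g (c t₀) (deriv c t₀)) δ = 0 := h4.symm
  rw [h5, JNCInj.vel_vert pr_Op n g hg] at h6
  have h7 : δ.2 = 0 := by
    rw [← hop (c t₀) δ.2, h6, map_zero]
  rw [h5, h7]
  rfl

/-- The boundary map `δ ↦ (J_δ t₀, J_δ t₁)`. -/
noncomputable def bm {n : ℕ} (T : W n →L[ℝ] W n) : W n →ₗ[ℝ] W n :=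
  (LinearMap.fst ℝ (E n) (E n)).prod ((LinearMap.fst ℝ (E n) (E n)).comp (T : W n →ₗ[ℝ] W n))

lemma jac_surj {n : ℕ} {g : Form n} {φ : ℝ → W n → W n} {M : ℝ → W n → W n →L[ℝ] W n}
    (hg : Riem g) (hn : NoConj g) (hφ : IsFlow (XH (Hm g)) φ M) {c : ℝ → E n} (hc : IsGeo g c)
    (t₀ t₁ : ℝ) (h : t₀ ≠ t₁) (v w : E n) : ∃ δ : W n,
    (M (t₀ - t₀) (c t₀, op g (c t₀) (deriv c t₀)) δ).1 = v ∧
    (M (t₁ - t₀) (c t₀, op g (c t₀) (deriv c t₀)) δ).1 = w := by
  have hinj : Function.Injective (bm (M (t₁ - t₀) (c t₀, op g (c t₀) (deriv c t₀)))) := by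
    rw [injective_iff_map_eq_zero]
    intro δ hδ
    have h1 : δ.1 = 0 := congrArg Prod.fst hδ
    have h2 : (M (t₁ - t₀) (c t₀, op g (c t₀) (deriv c t₀)) δ).1 = 0 := congrArg Prod.snd hδ
    have h3 : (M (t₀ - t₀) (c t₀, op g (c t₀) (deriv c t₀)) δ).1 = 0 := by
      rw [sub_self, hφ.M0]
      exact h1
    have h4 := hn c hc _ (jac_flow hg hφ hc t₀ δ) t₀ t₁ h h3 h2
    refine flow_zero (c := c) hg hφ t₀ δ h3 ?_
    have h5 : (fun s => (M (s - t₀) (c t₀, op g (c t₀) (deriv c t₀)) δ).1) = fun _ => (0 : E n) :=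
      funext h4
    rw [h5, deriv_const]
  have hsur := LinearMap.injective_iff_surjective.1 hinj
  obtain ⟨δ, hδ⟩ := hsur (v, w)
  refine ⟨δ, ?_, congrArg Prod.snd hδ⟩
  rw [sub_self, hφ.M0]
  exact congrArg Prod.fst hδ

end IBBv

open IBBv in
theorem pr_BBv (h1 : StCvG) : BBv := by
  intro n g κ hcv c hc
  have hg := hcv.riem
  have hn := (h1 n g κ hcv).1
  obtain ⟨φ, M, hφ⟩ := hcv.flow
  have huniq : ∀ t₀ t₁ : ℝ, t₀ ≠ t₁ → ∀ J J', IsJac g c J → IsJac g c J' → J t₀ = J' t₀ →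
      J t₁ = J' t₁ → ∀ t, J t = J' t := by
    intro t₀ t₁ ht J J' hJ hJ' h2 h3 t
    have h4 := jac_lin hg hc J J' 1 (-1) hJ hJ'
    have h5 := hn c hc _ h4 t₀ t₁ ht (by rw [h2]; module) (by rw [h3]; module) t
    have h6 : J t - J' t = 0 := by
      rw [← h5]
      module
    exact sub_eq_zero.1 h6
  refine ⟨fun t₀ t₁ ht => ⟨fun v w => ?_, huniq t₀ t₁ ht⟩, ?_, fun J J' p q hJ hJ' =>
    jac_lin hg hc J J' p q hJ hJ'⟩
  · obtain ⟨δ, h2, h3⟩ := jac_surj hg hn hφ hc t₀ t₁ ht v w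
    exact ⟨_, jac_flow hg hφ hc t₀ δ, h2, h3⟩
  · intro J t₀ hJ h2 h3
    have ht : t₀ ≠ t₀ + 1 := by
      intro h
      linarith
    obtain ⟨δ, h4, h5⟩ := jac_surj hg hn hφ hc t₀ (t₀ + 1) ht (J t₀) (J (t₀ + 1))
    have h6 := huniq t₀ (t₀ + 1) ht _ J (jac_flow hg hφ hc t₀ δ) hJ h4 h5
    have h7 : (fun s => (M (s - t₀) (c t₀, op g (c t₀) (deriv c t₀)) δ).1) = J := funext h6
    have h8 : δ = 0 := by
      refine flow_zero (c := c) hg hφ t₀ δ ?_ ?_
      · rw [h4, h2]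
      · rw [h7, h3]
    intro t
    rw [← h6 t, h8, map_zero]
    rfl

end Pool.Agent.LX
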