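import Pool.Agent.Work.MP_25cd3b_gt.LX.StmtsB

/-!
# MP_25cd3b_gt, block LX, item BJs: affine changes of the parameter
-/

set_option autoImplicit false

open MeasureTheory Set Filter Topology
open scoped ContDiff ENNReal

namespace Pool.Agent.LX

open Pool.Agent.MLS Pool.Agent.STR Pool.Agent.LR

namespace IBJs

lemma deriv_aff {V : Type} [NormedAddCommGroup V] [NormedSpace ℝ V] (J : ℝ → V) (p q t : ℝ) :
    deriv (fun t => J (p * t + q)) t = p • deriv J (p * t + q) := by
  have h1 := deriv_comp_mul_left p (fun s => J (s + q)) t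
  rw [deriv_comp_add_const] at h1
  exact h1

lemma cov_aff {n : ℕ} (g : Form n) (c J : ℝ → E n) (p q t : ℝ) :
    cov g (fun t => c (p * t + q)) (fun t => J (p * t + q)) t = p • cov g c J (p * t + q) := by
  unfold cov
  simp only [deriv_aff, map_smul, ContinuousLinearMap.smul_apply, smul_add]

lemma cov_smul {n : ℕ} (g : Form n) (c X : ℝ → E n) (p t : ℝ) :
    cov g c (fun t => p • X t) t = p • cov g c X t := by
  unfold cov
  have h1 : deriv (fun t => p • X t) t = p • deriv X t := by
    have := deriv_const_smul_field p X (x := t)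
    exact this
  rw [h1, map_smul, smul_add]

lemma contDiff_aff {V : Type} [NormedAddCommGroup V] [NormedSpace ℝ V] (J : ℝ → V) (p q : ℝ)
    (h : ContDiff ℝ 2 J) : ContDiff ℝ 2 (fun t => J (p * t + q)) :=
  h.comp ((contDiff_const.mul contDiff_id).add contDiff_const)

lemma geo_aff {n : ℕ} (g : Form n) (c : ℝ → E n) (p q : ℝ) (h : IsGeo g c) :
    IsGeo g (fun t => c (p * t + q)) := by
  refine ⟨contDiff_aff c p q h.smooth, fun t w => ?_⟩
  have h1 := h.el (p * t + q) w
  have h2 : HasDerivAt (fun s : ℝ => p * s + q) p t := by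
    simpa using ((hasDerivAt_id t).const_mul p).add_const q
  have h3 := (h1.scomp t h2).const_mul p
  simp only [deriv_aff, map_smul, ContinuousLinearMap.smul_apply, smul_eq_mul]
  refine HasDerivAt.congr_deriv h3 ?_
  simp only [smul_eq_mul]
  ring

lemma rm_smul {n : ℕ} (g : Form n) (x u v w : E n) (p : ℝ) :
    Rm g x u (p • v) (p • w) = p • p • Rm g x u v w := by
  unfold Rm
  simp only [map_smul, ContinuousLinearMap.smul_apply, smul_add, smul_sub]

end IBJs

theorem pr_BJs : BJs := by
  intro n g _ c J p q hc hJ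
  refine ⟨IBJs.geo_aff g c p q hc, ⟨IBJs.contDiff_aff J p q hJ.smooth, fun t => ?_⟩,
    fun t => IBJs.cov_aff g c J p q t⟩
  have h1 : cov g (fun t => c (p * t + q)) (fun t => J (p * t + q)) =
      fun t => p • cov g c J (p * t + q) := by
    funext t
    exact IBJs.cov_aff g c J p q t
  rw [h1, IBJs.cov_smul g (fun t => c (p * t + q)) (fun t => cov g c J (p * t + q)) p t,
    IBJs.cov_aff g c (cov g c J) p q t]
  simp only [IBJs.deriv_aff]
  rw [IBJs.rm_smul, ← smul_add, ← smul_add, hJ.jac, smul_zero, smul_zero]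

end Pool.Agent.LX
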