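import Pool.Agent.Work.MP_25cd3b_gt.LX.StmtsF

set_option autoImplicit false

/-!
# MP_25cd3b_gt, block LX, item FHc: the conjugacy and its inverse as maps of `W n`
-/

open MeasureTheory Set Filter Topology
open scoped ContDiff ENNReal
open Pool.Agent.Work.MP_c9f990_an.Al (IsFlow)

namespace Pool.Agent.LX

open Pool.Agent.MLS (E W)
open Pool.Agent.GM (Frm toF UGeo UT vec)

namespace IFHc

open Classical in
/-- extension to all vectors -/
noncomputable def ext {n : ℕ} {g g' : Frm (E n)} (Ψ : UT g → UT g') (p : W n) : W n :=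
  if h : g.val p.1 p.2 p.2 = 1 then (Ψ ⟨p, h⟩).1 else p

theorem ext_eq {n : ℕ} {g g' : Frm (E n)} (Ψ : UT g → UT g') (p : W n)
    (h : g.val p.1 p.2 p.2 = 1) : ext Ψ p = (Ψ ⟨p, h⟩).1 := dif_pos h

theorem hc_of {n : ℕ} {G : Type} [Group G] [MulAction G (E n)] {g g' : Frm (E n)}
    (hi : GM.Inv G g) (θ : G ≃* G) (Ψ : UT g ≃ₜ UT g') (hc : GM.Conj θ g g' Ψ) :
    Hc θ.toMonoidHom (toF g) (toF g') (ext Ψ) where
  unit := by
    intro p hp
    rw [ext_eq Ψ p hp]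
    exact (Ψ ⟨p, hp⟩).2
  cont := by
    rw [continuousOn_iff_continuous_domRestrict]
    have h1 : Continuous (fun p : UT g => (Ψ p).1) := continuous_subtype_val.comp Ψ.continuous
    have h2 : ({p : W n | (toF g).val p.1 p.2 p.2 = 1}).domRestrict (ext Ψ) =
        (fun p : UT g => (Ψ p).1) := by
      funext p
      exact ext_eq Ψ p.1 p.2
    rw [h2]
    exact h1
  flow := by
    intro c h
    have hu : UGeo g c := ⟨(GM.isGeo_iff g c).1 h.geo, h.unit⟩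
    obtain ⟨c2, h2, h3⟩ := hc.flow c hu
    refine ⟨c2, ⟨(GM.isGeo_iff g' c2).2 h2.geo, h2.unit⟩, fun t => ?_⟩
    rw [ext_eq Ψ (c t, deriv c t) (hu.unit t)]
    exact congrArg Subtype.val (h3 t)
  eqv := by
    intro b p hp
    have hq : g.val (b • p.1) (GM.dac b p.1 p.2) (GM.dac b p.1 p.2) = 1 := by
      rw [hi b p.1 p.2 p.2]
      exact hp
    rw [ext_eq Ψ p hp, ext_eq Ψ (b • p.1, MLS.dac b p.1 p.2) hq]
    exact hc.eqv b ⟨p, hp⟩ ⟨(b • p.1, GM.dac b p.1 p.2), hq⟩ rfl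

theorem exGeo {n : ℕ} {G : Type} [Group G] [MulAction G (E n)] (hG : GM.Cocompact (E n) G)
    {g : Frm (E n)} (hr : GM.Riem g) (hi : GM.Inv G g) (p : UT g) :
    ∃ (c : ℝ → E n) (h : UGeo g c), vec h 0 = p := by
  obtain ⟨φ, M, hφ⟩ := MLS.p_Flow n G ((GM.cocompact_iff (n := n) G).2 hG) (toF g) hr hi
  obtain ⟨-, -, hop1, -, -, -, -, -, hHm⟩ := MLS.pr_Op n (toF g) hr
  have hz := MLS.p_Geo1 n (toF g) hr (fun t => φ t (p.1.1, MLS.op (toF g) p.1.1 p.1.2))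
    (fun t => hφ.ode _ t)
  obtain ⟨hz1, hz2, hz3⟩ := hz
  have h0 : φ 0 (p.1.1, MLS.op (toF g) p.1.1 p.1.2) = (p.1.1, MLS.op (toF g) p.1.1 p.1.2) :=
    hφ.zero _
  have hv0 : MLS.vel (toF g) (p.1.1, MLS.op (toF g) p.1.1 p.1.2) = p.1.2 := hop1 p.1.1 p.1.2
  have hd0 : deriv (fun s => (φ s (p.1.1, MLS.op (toF g) p.1.1 p.1.2)).1) 0 = p.1.2 := by
    rw [hz2 0]
    show MLS.vel (toF g) (φ 0 (p.1.1, MLS.op (toF g) p.1.1 p.1.2)) = p.1.2
    rw [h0, hv0]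
  refine ⟨fun t => (φ t (p.1.1, MLS.op (toF g) p.1.1 p.1.2)).1,
    ⟨(GM.isGeo_iff g _).1 hz1, fun t => ?_⟩, ?_⟩
  · have h1 := hHm (φ t (p.1.1, MLS.op (toF g) p.1.1 p.1.2))
    have h2 := hHm (p.1.1, MLS.op (toF g) p.1.1 p.1.2)
    have h3 := hz3 t
    simp only [h0] at h3
    rw [h1, h2, hv0] at h3
    rw [hz2 t]
    have h4 : (toF g).val p.1.1 p.1.2 p.1.2 = 1 := p.2
    have h5 : (toF g).val (φ t (p.1.1, MLS.op (toF g) p.1.1 p.1.2)).1
        (MLS.vel (toF g) (φ t (p.1.1, MLS.op (toF g) p.1.1 p.1.2)))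
        (MLS.vel (toF g) (φ t (p.1.1, MLS.op (toF g) p.1.1 p.1.2))) = 1 := by
      linarith
    exact h5
  · apply Subtype.ext
    refine Prod.ext ?_ hd0
    show (φ 0 (p.1.1, MLS.op (toF g) p.1.1 p.1.2)).1 = p.1.1
    rw [h0]

theorem unGeo {n : ℕ} {G : Type} [Group G] [MulAction G (E n)] (hG : GM.Cocompact (E n) G)
    {g : Frm (E n)} (hr : GM.Riem g) (hi : GM.Inv G g) (c d : ℝ → E n) (hc : UGeo g c)
    (hd : UGeo g d) (h : vec hc 0 = vec hd 0) : c = d := by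
  obtain ⟨φ, M, hφ⟩ := MLS.p_Flow n G ((GM.cocompact_iff (n := n) G).2 hG) (toF g) hr hi
  have h1 := congrArg Subtype.val h
  have h2 : c 0 = d 0 := congrArg Prod.fst h1
  have h3 : deriv c 0 = deriv d 0 := congrArg Prod.snd h1
  funext t
  have h4 := (MLS.p_NcGx n (toF g) φ M hr hφ c ((GM.isGeo_iff g c).2 hc.geo) 0 t).2
  have h5 := (MLS.p_NcGx n (toF g) φ M hr hφ d ((GM.isGeo_iff g d).2 hd.geo) 0 t).2
  rw [h4, h5, h2, h3]

theorem conj_symm {n : ℕ} {G : Type} [Group G] [MulAction G (E n)] (hG : GM.Cocompact (E n) G)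
    {g1 g2 : Frm (E n)} (r1 : GM.Riem g1) (r2 : GM.Riem g2) (i1 : GM.Inv G g1)
    (i2 : GM.Inv G g2) (θ : G ≃* G) (Φ : UT g1 ≃ₜ UT g2) (hc : GM.Conj θ g1 g2 Φ) :
    GM.Conj θ.symm g2 g1 Φ.symm where
  flow := by
    intro c h
    obtain ⟨c1, h1, h2⟩ := exGeo hG r1 i1 (Φ.symm (vec h 0))
    obtain ⟨c2, h3, h4⟩ := hc.flow c1 h1
    have h5 : vec h3 0 = vec h 0 := by
      rw [← h4 0, h2, Homeomorph.apply_symm_apply]
    have h6 := unGeo hG r2 i2 c2 c h3 h h5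
    subst h6
    refine ⟨c1, h1, fun t => ?_⟩
    rw [← h4 t, Homeomorph.symm_apply_apply]
  eqv := by
    intro a p q hq
    have hu : g1.val (θ.symm a • (Φ.symm p).1.1) (GM.dac (θ.symm a) (Φ.symm p).1.1 (Φ.symm p).1.2)
        (GM.dac (θ.symm a) (Φ.symm p).1.1 (Φ.symm p).1.2) = 1 := by
      rw [i1 (θ.symm a) (Φ.symm p).1.1 (Φ.symm p).1.2 (Φ.symm p).1.2]
      exact (Φ.symm p).2
    have h1 := hc.eqv (θ.symm a) (Φ.symm p)
      ⟨(θ.symm a • (Φ.symm p).1.1, GM.dac (θ.symm a) (Φ.symm p).1.1 (Φ.symm p).1.2), hu⟩ rfl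
    rw [Homeomorph.apply_symm_apply, MulEquiv.apply_symm_apply, ← hq] at h1
    have h2 := Subtype.ext h1
    have h3 : Φ.symm q = ⟨(θ.symm a • (Φ.symm p).1.1,
        GM.dac (θ.symm a) (Φ.symm p).1.1 (Φ.symm p).1.2), hu⟩ := by
      rw [← h2, Homeomorph.symm_apply_apply]
    rw [h3]

end IFHc

open IFHc in
theorem pr_FHc : FHc := by
  intro n G _ _ hG g1 g2 r1 r2 i1 i2 θ Φ hc
  refine ⟨ext Φ, ext Φ.symm, hc_of i1 θ Φ hc,
    hc_of i2 θ.symm Φ.symm (conj_symm hG r1 r2 i1 i2 θ Φ hc), ?_⟩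
  intro c1 c2 h1 h2 h
  refine ⟨fun t => ?_, fun t => ?_⟩
  · rw [ext_eq Φ (c1 t, deriv c1 t) (h1.unit t)]
    exact congrArg Subtype.val (h t)
  · rw [ext_eq Φ.symm (c2 t, deriv c2 t) (h2.unit t)]
    have h3 : Φ.symm (vec h2 t) = vec h1 t := by
      rw [← h t, Homeomorph.symm_apply_apply]
    exact congrArg Subtype.val h3

end Pool.Agent.LX
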