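import Pool.Agent.Work.MP_25cd3b_gt.LX.StmtsM

/-!
# MP_25cd3b_gt, block LX, item MCt: the cross difference depends continuously on the points
-/

set_option autoImplicit false

open Set Filter Topology

namespace Pool.Agent.LX

open Pool.Agent.MLS (IsPM)

namespace IMCt

lemma gp_nonneg {X : Type} {d : X → X → ℝ} (h : IsPM d) (o x y : X) : 0 ≤ gp d o x y := by
  have h1 := h.tri x o y
  have h2 := h.symm x o
  unfold gp
  linarith

lemma one_side (h1 : MF1) {X : Type} {d : X → X → ℝ} {κ : ℝ} (h : Cat d κ) (o x x' z w : X)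
    (K T : ℝ) (hT : T ≤ gp d o x x') (hK : gp d o x w ≤ K) (hK' : gp d o x' z ≤ K) :
    crd d x x' z w ≤ 6 / κ * Real.exp (-(κ * (T - 2 * K))) := by
  have hκ := h.pos
  refine (h1 X d κ h x x' z w).trans ?_
  refine mul_le_mul_of_nonneg_left (Real.exp_le_exp.mpr ?_) (by positivity)
  have h2 := gp_nonneg h.pm o z w
  have h3 : T - 2 * K ≤ (d x w + d x' z - d x x' - d z w) / 2 := by
    unfold gp at *
    linarith
  have h4 := mul_le_mul_of_nonneg_left h3 hκ.le
  have h5 : κ * ((d x w + d x' z - d x x' - d z w) / 2) =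
      κ * (d x w + d x' z - d x x' - d z w) / 2 := by ring
  linarith

end IMCt

theorem pr_MCt (h1 : MF1) : MCt := by
  intro X d κ h o x x' z w K T hT h2 h3 h4 h5
  rw [abs_le]
  constructor
  · have h6 := IMCt.one_side h1 h o x x' w z K T hT h2 h5
    unfold crd at *
    linarith
  · exact IMCt.one_side h1 h o x x' z w K T hT h3 h4

end Pool.Agent.LX
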