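import Pool.Agent.Work.MP_25cd3b_gt.LX.StmtsM

set_option autoImplicit false

/-!
# MP_25cd3b_gt, block LX, part M: item MRi (same translation lengths, rough isometry)
-/

open Set Filter Topology

namespace Pool.Agent.LX

open Pool.Agent.MLS (IsPM)

namespace IMRi

variable {G X : Type} [Group G] [MulAction G X] {d : X → X → ℝ}

/-- moving an element to the other side -/
theorem mv' (iso : ∀ (a : G) (x y : X), d (a • x) (a • y) = d x y) (a : G) (x y : X) :
    d x (a • y) = d (a⁻¹ • x) y := by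
  have h := iso a⁻¹ x (a • y)
  rw [smul_smul, inv_mul_cancel, one_smul] at h
  exact h.symm

theorem pow_le (pm : IsPM d) (iso : ∀ (a : G) (x y : X), d (a • x) (a • y) = d x y) (b : G)
    (o : X) (i : ℕ) : d o (b ^ i • o) ≤ i * d o (b • o) := by
  induction i with
  | zero =>
    rw [pow_zero, one_smul, pm.self]
    simp
  | succ i ih =>
    have h1 := pm.tri o (b ^ i • o) (b ^ (i + 1) • o)
    rw [pow_succ, mul_smul, iso] at h1
    rw [pow_succ, mul_smul]
    push_cast
    linarith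

theorem len_le {κ : ℝ} {ℓ : G → ℝ} (hA : Act G d κ ℓ) (b : G) (o : X) : ℓ b ≤ d o (b • o) := by
  refine le_of_tendsto (hA.len b o) ?_
  filter_upwards [eventually_gt_atTop 0] with i hi
  have hi' : (0 : ℝ) < i := by exact_mod_cast hi
  rw [div_le_iff₀ hi']
  have := pow_le hA.cat.pm hA.iso b o i
  linarith

theorem len_nonneg {κ : ℝ} {ℓ : G → ℝ} (hA : Act G d κ ℓ) (b : G) (o : X) : 0 ≤ ℓ b := by
  refine ge_of_tendsto' (hA.len b o) fun i => ?_
  exact div_nonneg (hA.cat.pm.nonneg _ _) (Nat.cast_nonneg i)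

end IMRi

theorem pr_MRi (h1 : MTl) : MRi := by
  intro G X _ _ d1 d2 κ ℓ hA1 hA2 o hF hyp
  obtain ⟨F, K, hF⟩ := hF
  obtain ⟨D, hD⟩ := hA1.cob
  have pm := hA1.cat.pm
  have iso := hA1.iso
  obtain ⟨D', hD'⟩ : ∃ D' : ℝ, D' = ∑ f ∈ F, d1 o (f • o) := ⟨_, rfl⟩
  have hD'0 : 0 ≤ D' := by
    rw [hD']
    exact Finset.sum_nonneg fun f _ => pm.nonneg _ _
  have hfD : ∀ f ∈ F, d1 o (f • o) ≤ D' := by
    intro f hf
    rw [hD']
    exact Finset.single_le_sum (fun f _ => pm.nonneg o (f • o)) hf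
  obtain ⟨R₀, C, hC, hTl⟩ := h1 κ (K + 2 * D') hA1.cat.pos
  obtain ⟨r', hr'⟩ := hyp (D' + D)
  obtain ⟨r'', hr''⟩ := hyp D
  -- the bound for points and the base point
  have hb : ∀ y, d1 o y ≤ d2 o y + (r' + (|2 * (K + 2 * D')| + C + |R₀|) + (D' + D)) := by
    intro y
    obtain ⟨γ, hγ⟩ := hD o y
    obtain ⟨f, hf, hfK⟩ := hF (γ • o) (γ⁻¹ • o)
    have hfd := hfD f hf
    have e1 : d1 o (γ⁻¹ • o) = d1 o (γ • o) := by
      rw [IMRi.mv' iso, inv_inv, pm.symm]
    have e4 : d1 o ((γ * f)⁻¹ • o) = d1 o ((γ * f) • o) := by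
      rw [IMRi.mv' iso, inv_inv, pm.symm]
    unfold gp at hfK
    rw [e1] at hfK
    -- the product of `b = γ f`
    have t1 : d1 (γ⁻¹ • o) (f • γ • o) ≤ d1 ((γ * f)⁻¹ • o) ((γ * f) • o) + D' := by
      have s1 : d1 ((γ * f)⁻¹ • o) ((γ * f) • o) = d1 (γ⁻¹ • o) (f • γ • f • o) := by
        have s2 : (γ * f)⁻¹ • o = f⁻¹ • γ⁻¹ • o := by
          rw [smul_smul, mul_inv_rev]
        rw [s2, mul_smul, IMRi.mv' iso f (γ⁻¹ • o)]
      have s3 := pm.tri (γ⁻¹ • o) (f • γ • f • o) (f • γ • o)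
      have s4 : d1 (f • γ • f • o) (f • γ • o) = d1 o (f • o) := by
        rw [iso, iso, pm.symm]
      rw [s1]
      linarith
    have t2 : d1 o ((γ * f) • o) ≤ d1 o (γ • o) + D' := by
      have s1 := pm.tri o (γ • o) ((γ * f) • o)
      rw [mul_smul, iso] at s1
      rw [mul_smul]
      linarith
    have t3 : d1 o (γ • o) ≤ d1 o (f • γ • o) + D' := by
      have s1 := pm.tri (f • o) o (f • γ • o)
      rw [iso, pm.symm (f • o) o] at s1
      linarith
    have t4 : gp d1 o ((γ * f)⁻¹ • o) ((γ * f) • o) ≤ K + 2 * D' := by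
      unfold gp
      rw [e4]
      linarith
    -- the translation length
    have t5 : d1 o ((γ * f) • o) ≤ ℓ (γ * f) + (|2 * (K + 2 * D')| + C + |R₀|) := by
      by_cases hR : |R₀| ≤ d1 o ((γ * f) • o)
      · have s1 := (hTl G X d1 ℓ hA1 |R₀| o (γ * f) (γ * f) (le_abs_self R₀) hR t4).1
        have s2 : Real.exp (-(κ * |R₀|)) ≤ 1 := by
          rw [Real.exp_le_one_iff]
          have := mul_nonneg hA1.cat.pos.le (abs_nonneg R₀)
          linarith
        have s3 : C * Real.exp (-(κ * |R₀|)) ≤ C := by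
          have := mul_le_mul_of_nonneg_left s2 hC.le
          linarith
        have s4 := (abs_le.1 s1).1
        unfold gp at t4
        rw [e4] at t4
        have s5 := le_abs_self (2 * (K + 2 * D'))
        have s6 := abs_nonneg R₀
        linarith
      · push Not at hR
        have s1 := IMRi.len_nonneg hA1 (γ * f) o
        have s2 := abs_nonneg (2 * (K + 2 * D'))
        linarith
    have t6 : ℓ (γ * f) ≤ d2 o ((γ * f) • o) := IMRi.len_le hA2 (γ * f) o
    have t7 : d1 ((γ * f) • o) y ≤ D' + D := by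
      have s1 := pm.tri ((γ * f) • o) (γ • o) y
      have s2 : d1 ((γ * f) • o) (γ • o) = d1 o (f • o) := by
        rw [mul_smul, iso, pm.symm]
      linarith
    have t8 : d2 o ((γ * f) • o) ≤ d2 o y + r' := by
      have s1 := hA2.cat.pm.tri o y ((γ * f) • o)
      have s2 := hr' y ((γ * f) • o) (by rw [pm.symm]; exact t7)
      linarith
    have t9 := pm.tri o ((γ * f) • o) y
    linarith
  refine ⟨D + (r' + (|2 * (K + 2 * D')| + C + |R₀|) + (D' + D)) + r'', ?_⟩
  intro x y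
  obtain ⟨a, ha⟩ := hD x o
  have u1 : d1 x y = d1 (a • x) (a • y) := (iso a x y).symm
  have u2 : d2 x y = d2 (a • x) (a • y) := (hA2.iso a x y).symm
  have u3 := pm.tri (a • x) o (a • y)
  have u4 := hb (a • y)
  have u5 := hA2.cat.pm.tri o (a • x) (a • y)
  have u6 := hr'' o (a • x) (by rw [pm.symm]; exact ha)
  linarith

end Pool.Agent.LX
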