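import Pool.Agent.Work.MP_25cd3b_gt.LX.StmtsR
import Pool.Agent.Work.MP_25cd3b_gt.M.All

set_option autoImplicit false

/-!
# MP_25cd3b_gt, block LX: item RLen (translation lengths are asymptotic displacements)
-/

open MeasureTheory Set Filter Topology
open scoped ContDiff ENNReal
open Pool.Agent.Work.MP_c9f990_an.Al (IsFlow)

namespace Pool.Agent.LX

open Pool.Agent.MLS Pool.Agent.STR Pool.Agent.LR

namespace IRLen

/-- squeeze -/
theorem sqz (f : ℕ → ℝ) (l C : ℝ) (h1 : ∀ i : ℕ, i * l ≤ f i) (h2 : ∀ i : ℕ, f i ≤ C + i * l) :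
    Tendsto (fun i : ℕ => f i / i) atTop (𝓝 l) := by
  have hlim : Tendsto (fun i : ℕ => C / i + l) atTop (𝓝 l) := by
    have h := (tendsto_const_div_atTop_nhds_zero_nat C).add_const l
    rwa [zero_add] at h
  refine tendsto_of_tendsto_of_tendsto_of_le_of_le' tendsto_const_nhds hlim ?_ ?_
  · filter_upwards [eventually_gt_atTop 0] with i hi
    have hi' : (0 : ℝ) < i := Nat.cast_pos.2 hi
    rw [le_div_iff₀ hi']
    have := h1 i
    linarith
  · filter_upwards [eventually_gt_atTop 0] with i hi
    have hi' : (0 : ℝ) < i := Nat.cast_pos.2 hi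
    rw [div_le_iff₀ hi', add_mul, div_mul_cancel₀ _ hi'.ne']
    have := h2 i
    linarith

end IRLen

open IRLen in
theorem pr_RLen (h1 : StCvG) (h2 : StAxis) : RLen := by
  intro n G _ _ hcoc g κ hg hinv hκ hcurv b x
  obtain ⟨φ, M, hφ⟩ := p_Flow n G hcoc g hg hinv
  have hcv : Cv g κ := ⟨hg, hκ, hcurv, φ, M, hφ⟩
  obtain ⟨hno, hug, -⟩ := h1 n g κ hcv
  have hpm := (pr_Gd n g).2.1
  have hld := p_Ld n G g b
  have hiso := (pr_InvD n G hcoc g hinv).2
  by_cases hb : b = 1
  · have hL : L g b = 0 := by
      apply le_antisymm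
      · have := hld.1 x
        rw [hb, one_smul, hpm.self] at this
        rw [hb]
        exact this
      · exact hld.2 0 fun z => hpm.nonneg _ _
    rw [hL, hb]
    have : (fun i : ℕ => gd g x ((1 : G) ^ i • x) / i) = fun _ => (0 : ℝ) := by
      funext i
      rw [one_pow, one_smul, hpm.self, zero_div]
    rw [this]
    exact tendsto_const_nhds
  · obtain ⟨c, ell, hax⟩ := h2 n G hcoc g hg hinv hno b hb
    have hiter : ∀ (i : ℕ) (z : E n), (fun y : E n => b • y)^[i] z = b ^ i • z := by
      intro i z
      rw [smul_iterate]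
    have htr : ∀ i : ℕ, c (i * ell) = b ^ i • c 0 := by
      intro i
      induction i with
      | zero => simp
      | succ i ih =>
        have h := hax.tr (i * ell)
        rw [ih] at h
        rw [pow_succ', mul_smul, ← h]
        congr 1
        push_cast
        ring
    have hL : L g b = ell := by
      apply le_antisymm
      · have h3 := hld.1 (c 0)
        have h4 := hax.tr 0
        rw [← h4, hug c hax.ug, zero_add, zero_sub, abs_neg, abs_of_pos hax.pos] at h3
        exact h3
      · refine hld.2 ell fun z => ?_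
        have h3 := hax.min 1 z
        rw [Nat.cast_one, one_mul, Function.iterate_one] at h3
        exact h3
    rw [hL]
    apply sqz _ _ (2 * gd g x (c 0))
    · intro i
      have h3 := hax.min i x
      rw [hiter] at h3
      exact h3
    · intro i
      have h3 : gd g (c 0) (b ^ i • c 0) = i * ell := by
        rw [← htr, hug c hax.ug, zero_sub, abs_neg, abs_of_nonneg]
        have := hax.pos
        positivity
      have h4 := hpm.tri x (c 0) (b ^ i • x)
      have h5 := hpm.tri (c 0) (b ^ i • c 0) (b ^ i • x)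
      rw [hiso, hpm.symm (c 0) x] at h5
      linarith

end Pool.Agent.LX
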