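import Pool.Agent.Work.MP_25cd3b_gt.LX.StmtsU

set_option autoImplicit false

/-!
# MP_25cd3b_gt, block LX, part U, item UMx (helper95): the mixed second difference of fast chains
-/

open Set Filter Topology
open scoped ContDiff

namespace Pool.Agent.LX

namespace IUMx

variable {V : Type} [NormedAddCommGroup V] [NormedSpace ℝ V]

/-- summation by parts -/
theorem parts (F : ℕ → V × V →L[ℝ] ℝ) (A : ℕ → V) (k : ℕ)
    (h : ∀ j, j + 1 < k + 1 → ∀ w : V, F j (0, w) + F (j + 1) (w, 0) = 0) :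
    ∑ j ∈ Finset.range (k + 1), F j (A j, A (j + 1)) = F 0 (A 0, 0) + F k (0, A (k + 1)) := by
  induction k with
  | zero =>
    simp only [zero_add, Finset.sum_range_one]
    rw [← map_add]; simp
  | succ k ih =>
    rw [Finset.sum_range_succ, ih (fun j hj w => h j (by omega) w)]
    have h1 : F (k + 1) (A (k + 1), A (k + 1 + 1)) =
        F (k + 1) (A (k + 1), 0) + F (k + 1) (0, A (k + 1 + 1)) := by
      rw [← map_add]; simp
    have h2 := h k (by omega) (A (k + 1))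
    rw [h1]; linarith

theorem c1_bd {lam K r : ℝ} {L : V × V → ℝ} {L1 : V × V → V × V →L[ℝ] ℝ} {L2 : V × V → Bf V}
    (hC : Ch lam K r L L1 L2) {a : V × V} (ha : ‖a‖ < r) : ‖L1 a - L2 0 a‖ ≤ K * ‖a‖ ^ 2 := by
  have hconv : Convex ℝ (Metric.closedBall (0 : V × V) ‖a‖) := convex_closedBall 0 _
  have h := hconv.norm_image_sub_le_of_norm_hasFDerivWithin_le (f := fun x => L1 x - L2 0 x)
    (f' := fun x => L2 x - L2 0) (C := K * ‖a‖) (x := 0) (y := a) ?_ ?_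
    (by simp) (by simp)
  · have e : (fun x => L1 x - L2 0 x) a - (fun x => L1 x - L2 0 x) 0 = L1 a - L2 0 a := by
      simp only [hC.crit, map_zero, sub_zero]
    rw [e, sub_zero] at h
    calc _ ≤ _ := h
      _ = K * ‖a‖ ^ 2 := by ring
  · intro x hx
    have hx' : ‖x‖ ≤ ‖a‖ := by simpa using hx
    exact ((hC.d2 x (lt_of_le_of_lt hx' ha)).sub (L2 0).hasFDerivAt).hasFDerivWithinAt
  · intro x hx
    have hx' : ‖x‖ ≤ ‖a‖ := by simpa using hx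
    exact (hC.lip x (lt_of_le_of_lt hx' ha)).trans (mul_le_mul_of_nonneg_left hx' hC.K_nn)

theorem c1_app {lam K r : ℝ} {L : V × V → ℝ} {L1 : V × V → V × V →L[ℝ] ℝ} {L2 : V × V → Bf V}
    (hC : Ch lam K r L L1 L2) {a c : V × V} {m n : ℝ} (ha : ‖a‖ < r) (hm : ‖a‖ ≤ m)
    (hn : ‖c‖ ≤ n) : |(L1 a - L2 0 a) c| ≤ K * m ^ 2 * n := by
  have h1 := c1_bd hC ha
  have h2 : |(L1 a - L2 0 a) c| ≤ ‖L1 a - L2 0 a‖ * ‖c‖ := by
    rw [← Real.norm_eq_abs]
    exact ContinuousLinearMap.le_opNorm _ _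
  have h3 : ‖L1 a - L2 0 a‖ ≤ K * m ^ 2 := by
    refine h1.trans (mul_le_mul_of_nonneg_left ?_ hC.K_nn)
    exact pow_le_pow_left₀ (norm_nonneg _) hm 2
  exact h2.trans (mul_le_mul h3 hn (norm_nonneg _) ((norm_nonneg _).trans h3))

omit [NormedSpace ℝ V] in
theorem CA_lt {k : ℕ} {p : ℕ → V} {j : ℕ} (h : j < k) : CA k p j = p j := by
  simp [CA, h]

omit [NormedSpace ℝ V] in
theorem CA_self (k : ℕ) (p : ℕ → V) : CA k p k = 0 := by
  simp [CA]

omit [NormedSpace ℝ V] in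
theorem CB_pos {k : ℕ} {v : ℕ → V} {j : ℕ} (h : 0 < j) : CB k v j = v (k - j) := by
  simp [CB, h]

omit [NormedSpace ℝ V] in
theorem CB_zero (k : ℕ) (v : ℕ → V) : CB k v 0 = 0 := by
  simp [CB]

/-- the exact identity -/
theorem ident (H : Bf V) (hs : ∀ x y, H x y = H y x) (L1 : V × V → V × V →L[ℝ] ℝ)
    (p v : ℕ → V) (m : ℕ) (hm : 1 ≤ m)
    (hq : ∀ j, j + 1 < m + 1 → ∀ w : V, L1 (v (m + 1 - j), v (m + 1 - (j + 1))) (0, w) +
      L1 (v (m + 1 - (j + 1)), v (m + 1 - (j + 2))) (w, 0) = 0) :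
    ∑ j ∈ Finset.range (m + 1),
      (L1 (CA (m + 1) p j, CA (m + 1) p (j + 1)) (CB (m + 1) v j, CB (m + 1) v (j + 1)) +
      L1 (CB (m + 1) v j, CB (m + 1) v (j + 1)) (CA (m + 1) p j, CA (m + 1) p (j + 1)) -
      H (CA (m + 1) p j, CA (m + 1) p (j + 1)) (CB (m + 1) v j, CB (m + 1) v (j + 1))) =
    Gk H L1 p v (m + 1) +
      (L1 (v (m + 1), v m) - H (v (m + 1), v m)) (p 0, 0) +
      ((L1 (0, v m) - H (0, v m)) (p 0, p 1) -
        (L1 (v (m + 1), v m) - H (v (m + 1), v m)) (p 0, p 1)) +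
      ((L1 (p m, 0) - H (p m, 0)) (v 1, v 0) -
        (L1 (p m, p (m + 1)) - H (p m, p (m + 1))) (v 1, v 0)) := by
  set A := CA (m + 1) p with hA
  set B := CB (m + 1) v with hB
  have hA1 : ∀ j, j < m + 1 → A j = p j := fun j hj => CA_lt hj
  have hAk : A (m + 1) = 0 := CA_self _ _
  have hB0 : B 0 = 0 := CB_zero _ _
  have hB1 : ∀ j, 0 < j → B j = v (m + 1 - j) := fun j hj => CB_pos hj
  set q : ℕ → V := fun j => v (m + 1 - j) with hqd
  have q0 : q 0 = v (m + 1) := rfl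
  have q1 : q 1 = v m := by simp [hqd]
  have qm : q m = v 1 := by
    have : m + 1 - m = 1 := by omega
    simp [hqd, this]
  have qm1 : q (m + 1) = v 0 := by simp [hqd]
  -- the sum of L1 (B) A
  have sB : ∑ j ∈ Finset.range (m + 1), L1 (B j, B (j + 1)) (A j, A (j + 1)) =
      L1 (q 0, q 1) (p 0, 0) + L1 (0, q 1) (p 0, p 1) - L1 (q 0, q 1) (p 0, p 1) := by
    have e1 := parts (fun j => L1 (q j, q (j + 1))) A m (fun j hj w => hq j hj w)
    rw [hAk] at e1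
    have e0 : L1 (q m, q (m + 1)) ((0 : V), (0 : V)) = 0 := by
      rw [show ((0 : V), (0 : V)) = 0 from rfl, map_zero]
    rw [e0, add_zero, Finset.sum_range_succ'] at e1
    rw [Finset.sum_range_succ']
    have e2 : ∑ j ∈ Finset.range m, L1 (B (j + 1), B (j + 1 + 1)) (A (j + 1), A (j + 1 + 1)) =
        ∑ j ∈ Finset.range m, L1 (q (j + 1), q (j + 1 + 1)) (A (j + 1), A (j + 1 + 1)) := by
      refine Finset.sum_congr rfl fun j _ => ?_
      rw [hB1 (j + 1) (by omega), hB1 (j + 1 + 1) (by omega)]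
    rw [e2]
    simp only [zero_add] at e1 ⊢
    rw [hB0, hB1 1 one_pos, hA1 0 (by omega), hA1 1 (by omega)]
    rw [hA1 0 (by omega), hA1 1 (by omega)] at e1
    have e3 : v (m + 1 - 1) = q 1 := rfl
    rw [e3]
    linarith
  -- the sum of (L1 (A) - H A) B
  have sC : ∑ j ∈ Finset.range (m + 1), (L1 (A j, A (j + 1)) - H (A j, A (j + 1))) (B j, B (j + 1)) =
      ∑ j ∈ Finset.range (m + 1), (L1 (p j, p (j + 1)) - H (p j, p (j + 1))) (B j, B (j + 1)) +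
      ((L1 (p m, 0) - H (p m, 0)) (v 1, v 0) -
        (L1 (p m, p (m + 1)) - H (p m, p (m + 1))) (v 1, v 0)) := by
    rw [Finset.sum_range_succ, Finset.sum_range_succ]
    have e2 : ∑ j ∈ Finset.range m, (L1 (A j, A (j + 1)) - H (A j, A (j + 1))) (B j, B (j + 1)) =
        ∑ j ∈ Finset.range m, (L1 (p j, p (j + 1)) - H (p j, p (j + 1))) (B j, B (j + 1)) := by
      refine Finset.sum_congr rfl fun j hj => ?_
      rw [Finset.mem_range] at hj
      rw [hA1 j (by omega), hA1 (j + 1) (by omega)]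
    rw [e2, hA1 m (by omega), hAk, hB1 m (by omega), hB1 (m + 1) (by omega)]
    have e3 : v (m + 1 - m) = v 1 := qm
    have e4 : v (m + 1 - (m + 1)) = v 0 := qm1
    rw [e3, e4]
    ring
  have sD : ∑ j ∈ Finset.range (m + 1), (L1 (p j, p (j + 1)) - H (p j, p (j + 1))) (B j, B (j + 1)) =
      ∑ j ∈ Finset.range (m + 1), (L1 (p j, p (j + 1)) - H (p j, p (j + 1))) (q j, q (j + 1)) -
      (L1 (p 0, p 1) - H (p 0, p 1)) (q 0, 0) := by
    rw [Finset.sum_range_succ', Finset.sum_range_succ']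
    have e2 : ∑ j ∈ Finset.range m, (L1 (p (j + 1), p (j + 1 + 1)) -
          H (p (j + 1), p (j + 1 + 1))) (B (j + 1), B (j + 1 + 1)) =
        ∑ j ∈ Finset.range m, (L1 (p (j + 1), p (j + 1 + 1)) -
          H (p (j + 1), p (j + 1 + 1))) (q (j + 1), q (j + 1 + 1)) := by
      refine Finset.sum_congr rfl fun j _ => ?_
      rw [hB1 (j + 1) (by omega), hB1 (j + 1 + 1) (by omega)]
    rw [e2]
    simp only [zero_add]
    rw [hB0, hB1 1 one_pos]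
    have e3 : v (m + 1 - 1) = q 1 := rfl
    rw [e3]
    have e4 : (q 0, q 1) = (q 0, (0 : V)) + ((0 : V), q 1) := by simp
    rw [e4, map_add]
    ring
  have sE : ∑ j ∈ Finset.range (m + 1),
      (L1 (A j, A (j + 1)) (B j, B (j + 1)) + L1 (B j, B (j + 1)) (A j, A (j + 1)) -
      H (A j, A (j + 1)) (B j, B (j + 1))) =
      ∑ j ∈ Finset.range (m + 1), (L1 (A j, A (j + 1)) - H (A j, A (j + 1))) (B j, B (j + 1)) +
      ∑ j ∈ Finset.range (m + 1), L1 (B j, B (j + 1)) (A j, A (j + 1)) := by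
    rw [← Finset.sum_add_distrib]
    refine Finset.sum_congr rfl fun j _ => ?_
    rw [sub_apply]
    ring
  have sG : Gk H L1 p v (m + 1) = H (q 0, q 1) (p 0, 0) - L1 (p 0, p 1) (q 0, 0) +
      ∑ j ∈ Finset.range (m + 1), (L1 (p j, p (j + 1)) - H (p j, p (j + 1))) (q j, q (j + 1)) := rfl
  have sH : H (q 0, q 1) (p 0, p 1) = H (q 0, 0) (p 0, p 1) + H (0, q 1) (p 0, p 1) := by
    rw [← add_apply, ← map_add]
    simp
  have sS : H (q 0, 0) (p 0, p 1) = H (p 0, p 1) (q 0, 0) := hs _ _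
  rw [sE, sC, sD, sB, sG, ← q0, ← q1]
  simp only [sub_apply] at *
  linarith

end IUMx

open IUMx

theorem pr_UMx (h1 : URs) (h2 : ZCv) : UMx := by
  intro V _ _ lam K r₀ K' r' L L1 L2 D hG h4
  obtain ⟨Cc, ρc, hCc, hρc, hcv⟩ := h2 V lam K r₀ L L1 L2 D hG
  obtain ⟨ρ₁, hρ₁, hrs⟩ := h1 V lam K r₀ K' r' L L1 L2 hG.ch h4
  have hr₀ := hG.ch.r_pos
  have hr' := h4.r_pos
  have hK := hG.ch.K_nn
  have hK' := h4.K_nn
  obtain ⟨ρ, hρ, hρ1, hρ2, hρ3, hρ4⟩ : ∃ ρ : ℝ, 0 < ρ ∧ ρ ≤ ρ₁ ∧ 2 * ρ ≤ ρc ∧ ρ < r₀ ∧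
      ρ < r' := by
    refine ⟨min (min ρ₁ (ρc / 2)) (min (r₀ / 2) (r' / 2)), by positivity, ?_, ?_, ?_, ?_⟩
    · exact (min_le_left _ _).trans (min_le_left _ _)
    · have : min (min ρ₁ (ρc / 2)) (min (r₀ / 2) (r' / 2)) ≤ ρc / 2 :=
        (min_le_left _ _).trans (min_le_right _ _)
      linarith
    · have : min (min ρ₁ (ρc / 2)) (min (r₀ / 2) (r' / 2)) ≤ r₀ / 2 :=
        (min_le_right _ _).trans (min_le_left _ _)
      linarith
    · have : min (min ρ₁ (ρc / 2)) (min (r₀ / 2) (r' / 2)) ≤ r' / 2 :=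
        (min_le_right _ _).trans (min_le_right _ _)
      linarith
  refine ⟨ρ, hρ, ?_⟩
  intro r p v hr hp hv hpr hvr
  obtain ⟨CR, hCR, hres⟩ := hrs r p v hr ⟨fun j => (hp.small j).trans hρ1, hp.el⟩
    ⟨fun j => (hv.small j).trans hρ1, hv.el⟩ hpr hvr
  obtain ⟨M, hM0, hMp, hMv⟩ : ∃ M : ℝ, 0 ≤ M ∧ (∀ j : ℕ, ‖p j‖ ≤ M * Real.exp (-(r * j))) ∧
      ∀ j : ℕ, ‖v j‖ ≤ M * Real.exp (-(r * j)) := by
    obtain ⟨a, ha⟩ := hpr
    obtain ⟨b, hb⟩ := hvr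
    refine ⟨max (max a b) 0, le_max_right _ _, fun j => ?_, fun j => ?_⟩
    · exact (ha j).trans (mul_le_mul_of_nonneg_right
        ((le_max_left _ _).trans (le_max_left _ _)) (Real.exp_pos _).le)
    · exact (hb j).trans (mul_le_mul_of_nonneg_right
        ((le_max_right _ _).trans (le_max_left _ _)) (Real.exp_pos _).le)
  obtain ⟨G, hGd⟩ : ∃ G : ℝ, G = Real.exp r := ⟨_, rfl⟩
  have hG0 : 0 < G := hGd ▸ Real.exp_pos _
  refine ⟨2 * (Cc * CR ^ 2) + K' * (M ^ 4 * G ^ 2) + 5 * (K * (M * G) ^ 2 * ρ), by positivity, ?_⟩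
  intro k hk
  obtain ⟨m, rfl⟩ : ∃ m, k = m + 1 := ⟨k - 1, by omega⟩
  obtain ⟨hRA, hRB, hRAB⟩ := hres (m + 1) (by omega)
  obtain ⟨E, hE⟩ : ∃ E : ℝ, E = Real.exp (-(r * ((m + 1 : ℕ) : ℝ))) := ⟨_, rfl⟩
  have hE0 : 0 < E := hE ▸ Real.exp_pos _
  rw [← hE] at hRA hRB hRAB
  set A := CA (m + 1) p with hA
  set B := CB (m + 1) v with hB
  have hA1 : ∀ j, j < m + 1 → A j = p j := fun j hj => CA_lt hj
  have hAk : A (m + 1) = 0 := CA_self _ _
  have hB0 : B 0 = 0 := CB_zero _ _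
  have hB1 : ∀ j, 0 < j → B j = v (m + 1 - j) := fun j hj => CB_pos hj
  -- sizes
  have sA : ∀ j, ‖A j‖ ≤ ρ := by
    intro j
    rw [hA]
    unfold CA
    split_ifs
    · exact hp.small j
    · rw [norm_zero]; exact hρ.le
  have sB : ∀ j, ‖B j‖ ≤ ρ := by
    intro j
    rw [hB]
    unfold CB
    split_ifs
    · exact hv.small _
    · rw [norm_zero]; exact hρ.le
  have sA' : ∀ j : ℕ, ‖A j‖ ≤ M * Real.exp (-(r * j)) := by
    intro j
    rw [hA]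
    unfold CA
    split_ifs
    · exact hMp j
    · rw [norm_zero]; positivity
  have sB' : ∀ j : ℕ, j ≤ m + 1 → ‖B j‖ ≤ M * Real.exp (-(r * ((m : ℝ) + 1 - j))) := by
    intro j hj
    rw [hB]
    unfold CB
    split_ifs
    · have := hMv (m + 1 - j)
      rwa [Nat.cast_sub hj, Nat.cast_add, Nat.cast_one] at this
    · rw [norm_zero]; positivity
  have eGE : Real.exp (-(r * (m : ℝ))) = G * E := by
    rw [hGd, hE, ← Real.exp_add]
    congr 1
    push_cast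
    ring
  have hexp : ∀ x y : ℝ, x ≤ y → Real.exp (-(r * y)) ≤ Real.exp (-(r * x)) := by
    intro x y hxy
    apply Real.exp_le_exp.2
    have := mul_le_mul_of_nonneg_left hxy hr.le
    linarith
  have pr_le : ∀ (x y : V) (c : ℝ), ‖x‖ ≤ c → ‖y‖ ≤ c → ‖(x, y)‖ ≤ c := by
    intro x y c hx hy
    rw [Prod.norm_def]; exact max_le hx hy
  have lA : ∀ j, ‖(A j, A (j + 1))‖ ≤ ρ := fun j => pr_le _ _ _ (sA _) (sA _)
  have lB : ∀ j, ‖(B j, B (j + 1))‖ ≤ ρ := fun j => pr_le _ _ _ (sB _) (sB _)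
  have lA' : ∀ j : ℕ, ‖(A j, A (j + 1))‖ ≤ M * Real.exp (-(r * j)) := fun j =>
    pr_le _ _ _ (sA' _) ((sA' _).trans (mul_le_mul_of_nonneg_left
      (hexp _ _ (by push_cast; linarith)) hM0))
  have lB' : ∀ j : ℕ, j < m + 1 → ‖(B j, B (j + 1))‖ ≤ M * Real.exp (-(r * ((m : ℝ) - j))) :=
    fun j hj => pr_le _ _ _ ((sB' _ hj.le).trans (mul_le_mul_of_nonneg_left
      (hexp _ _ (by linarith)) hM0)) ((sB' _ hj).trans (mul_le_mul_of_nonneg_left
      (hexp _ _ (by push_cast; linarith)) hM0))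
  -- the actions
  obtain ⟨Y, hY⟩ : ∃ Y : ℝ, Y = Cc * (((m + 1 : ℕ) : ℝ) * (CR * E) ^ 2) := ⟨_, rfl⟩
  have hCE : 0 ≤ CR * E := by positivity
  have act : ∀ y : ℕ → V, (∀ j, ‖y j‖ ≤ 2 * ρ) → Res L1 (m + 1) y (CR * E) →
      D (m + 1) (y 0) (y (m + 1)) ≤ ∑ j ∈ Finset.range (m + 1), L (y j, y (j + 1)) ∧
      ∑ j ∈ Finset.range (m + 1), L (y j, y (j + 1)) - Y ≤ D (m + 1) (y 0) (y (m + 1)) := by
    intro y hy hR
    have := hcv (m + 1) y (fun _ => CR * E) (by omega) (fun j _ => (hy j).trans hρ2)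
      (fun _ => hCE) (fun j hj w => hR j hj w)
    rw [Finset.sum_const, Finset.card_range, nsmul_eq_mul, ← hY] at this
    exact this
  have aAB := act (A + B) (fun j => (norm_add_le _ _).trans (by linarith [sA j, sB j])) hRAB
  have aA := act A (fun j => (sA j).trans (by linarith)) hRA
  have aB := act B (fun j => (sB j).trans (by linarith)) hRB
  have b1 : (A + B) 0 = p 0 := by
    rw [Pi.add_apply, hB0, hA1 0 (by omega), add_zero]
  have b2 : (A + B) (m + 1) = v 0 := by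
    rw [Pi.add_apply, hAk, hB1 (m + 1) (by omega), zero_add, Nat.sub_self]
  have b3 : A 0 = p 0 := hA1 0 (by omega)
  have b4 : B (m + 1) = v 0 := by
    rw [hB1 (m + 1) (by omega), Nat.sub_self]
  rw [b1, b2] at aAB
  rw [b3, hAk] at aA
  rw [hB0, b4] at aB
  -- the quadratic expansion
  have quad : |∑ j ∈ Finset.range (m + 1), L ((A + B) j, (A + B) (j + 1)) -
      ∑ j ∈ Finset.range (m + 1), L (A j, A (j + 1)) -
      ∑ j ∈ Finset.range (m + 1), L (B j, B (j + 1)) -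
      ∑ j ∈ Finset.range (m + 1), (L1 (A j, A (j + 1)) (B j, B (j + 1)) +
        L1 (B j, B (j + 1)) (A j, A (j + 1)) - L2 0 (A j, A (j + 1)) (B j, B (j + 1)))| ≤
      ((m + 1 : ℕ) : ℝ) * (K' * (M ^ 4 * G ^ 2) * E ^ 2) := by
    rw [← Finset.sum_sub_distrib, ← Finset.sum_sub_distrib, ← Finset.sum_sub_distrib]
    refine (Finset.abs_sum_le_sum_abs _ _).trans ?_
    have : ∑ _j ∈ Finset.range (m + 1), K' * (M ^ 4 * G ^ 2) * E ^ 2 =
        ((m + 1 : ℕ) : ℝ) * (K' * (M ^ 4 * G ^ 2) * E ^ 2) := by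
      rw [Finset.sum_const, Finset.card_range, nsmul_eq_mul]
    rw [← this]
    refine Finset.sum_le_sum fun j hj => ?_
    rw [Finset.mem_range] at hj
    have h5 := h4.dd (A j, A (j + 1)) (B j, B (j + 1)) ((lA j).trans_lt hρ4)
      ((lB j).trans_lt hρ4)
    have e : ((A + B) j, (A + B) (j + 1)) = (A j, A (j + 1)) + (B j, B (j + 1)) := rfl
    have e2 : ‖(A j, A (j + 1))‖ * ‖(B j, B (j + 1))‖ ≤ M ^ 2 * (G * E) := by
      have h6 := mul_le_mul (lA' j) (lB' j hj) (norm_nonneg _) (by positivity)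
      refine h6.trans (le_of_eq ?_)
      rw [← eGE]
      have : Real.exp (-(r * (m : ℝ))) = Real.exp (-(r * (j : ℝ))) *
          Real.exp (-(r * ((m : ℝ) - j))) := by
        rw [← Real.exp_add]
        congr 1
        ring
      rw [this]
      ring
    have e3 : ‖(A j, A (j + 1))‖ ^ 2 * ‖(B j, B (j + 1))‖ ^ 2 ≤ M ^ 4 * G ^ 2 * E ^ 2 := by
      have := pow_le_pow_left₀ (by positivity) e2 2
      calc ‖(A j, A (j + 1))‖ ^ 2 * ‖(B j, B (j + 1))‖ ^ 2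
          = (‖(A j, A (j + 1))‖ * ‖(B j, B (j + 1))‖) ^ 2 := by ring
        _ ≤ (M ^ 2 * (G * E)) ^ 2 := this
        _ = M ^ 4 * G ^ 2 * E ^ 2 := by ring
    rw [e]
    have e4 : L ((A j, A (j + 1)) + (B j, B (j + 1))) - L (A j, A (j + 1)) - L (B j, B (j + 1)) -
        (L1 (A j, A (j + 1)) (B j, B (j + 1)) + L1 (B j, B (j + 1)) (A j, A (j + 1)) -
          L2 0 (A j, A (j + 1)) (B j, B (j + 1))) =
        L ((A j, A (j + 1)) + (B j, B (j + 1))) - L (A j, A (j + 1)) - L (B j, B (j + 1)) -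
        L1 (A j, A (j + 1)) (B j, B (j + 1)) - L1 (B j, B (j + 1)) (A j, A (j + 1)) +
          L2 0 (A j, A (j + 1)) (B j, B (j + 1)) := by ring
    rw [e4]
    refine h5.trans ?_
    calc K' * ‖(A j, A (j + 1))‖ ^ 2 * ‖(B j, B (j + 1))‖ ^ 2
        = K' * (‖(A j, A (j + 1))‖ ^ 2 * ‖(B j, B (j + 1))‖ ^ 2) := by ring
      _ ≤ K' * (M ^ 4 * G ^ 2 * E ^ 2) := mul_le_mul_of_nonneg_left e3 hK'
      _ = K' * (M ^ 4 * G ^ 2) * E ^ 2 := by ring
  -- the identity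
  have id := ident (L2 0) hG.ch.pos.symm L1 p v m (by omega) (fun j hj w => hv.el (m + 1) j hj w)
  rw [← hA, ← hB] at id
  rw [id] at quad
  -- the four errors
  have n1 : ‖(v (m + 1), v m)‖ ≤ M * G * E := by
    have e1 := hMv (m + 1)
    have e2 := hMv m
    rw [eGE] at e2
    refine pr_le _ _ _ (e1.trans ?_) (by linarith)
    have e3 := mul_le_mul_of_nonneg_left (hexp (m : ℝ) ((m + 1 : ℕ) : ℝ)
      (by push_cast; linarith)) hM0
    rw [eGE] at e3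
    linarith
  have n2 : ‖((0 : V), v m)‖ ≤ M * G * E := by
    have e2 := hMv m
    rw [eGE] at e2
    refine pr_le _ _ _ (by rw [norm_zero]; positivity) (by linarith)
  have n3 : ‖(p m, p (m + 1))‖ ≤ M * G * E := by
    have e1 := hMp (m + 1)
    have e2 := hMp m
    rw [eGE] at e2
    refine pr_le _ _ _ (by linarith) (e1.trans ?_)
    have e3 := mul_le_mul_of_nonneg_left (hexp (m : ℝ) ((m + 1 : ℕ) : ℝ)
      (by push_cast; linarith)) hM0
    rw [eGE] at e3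
    linarith
  have n4 : ‖(p m, (0 : V))‖ ≤ M * G * E := by
    have e2 := hMp m
    rw [eGE] at e2
    refine pr_le _ _ _ (by linarith) (by rw [norm_zero]; positivity)
  have k1 : ‖(v (m + 1), v m)‖ < r₀ :=
    (pr_le _ _ _ (hv.small _) (hv.small _)).trans_lt hρ3
  have k2 : ‖((0 : V), v m)‖ < r₀ :=
    (pr_le _ _ _ (by rw [norm_zero]; exact hρ.le) (hv.small _)).trans_lt hρ3
  have k3 : ‖(p m, p (m + 1))‖ < r₀ :=
    (pr_le _ _ _ (hp.small _) (hp.small _)).trans_lt hρ3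
  have k4 : ‖(p m, (0 : V))‖ < r₀ :=
    (pr_le _ _ _ (hp.small _) (by rw [norm_zero]; exact hρ.le)).trans_lt hρ3
  have z1 := c1_app hG.ch k1 n1 (c := (p 0, 0)) (n := ρ)
    (pr_le _ _ _ (hp.small _) (by rw [norm_zero]; exact hρ.le))
  have z2 := c1_app hG.ch k2 n2 (c := (p 0, p 1)) (n := ρ)
    (pr_le _ _ _ (hp.small _) (hp.small _))
  have z3 := c1_app hG.ch k1 n1 (c := (p 0, p 1)) (n := ρ)
    (pr_le _ _ _ (hp.small _) (hp.small _))
  have z4 := c1_app hG.ch k4 n4 (c := (v 1, v 0)) (n := ρ)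
    (pr_le _ _ _ (hv.small _) (hv.small _))
  have z5 := c1_app hG.ch k3 n3 (c := (v 1, v 0)) (n := ρ)
    (pr_le _ _ _ (hv.small _) (hv.small _))
  have eE : Real.exp (-(2 * r * ((m + 1 : ℕ) : ℝ))) = E ^ 2 := by
    rw [hE, ← Real.exp_nat_mul]
    congr 1
    push_cast
    ring
  rw [eE]
  have hMG : K * (M * G * E) ^ 2 * ρ = K * (M * G) ^ 2 * ρ * E ^ 2 := by ring
  rw [hMG] at z1 z2 z3 z4 z5
  have hk1 : (1 : ℝ) ≤ ((m + 1 : ℕ) : ℝ) + 1 := by push_cast; linarith [Nat.cast_nonneg (α := ℝ) m]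
  have hW : 0 ≤ K * (M * G) ^ 2 * ρ * E ^ 2 := by positivity
  have hW2 : K * (M * G) ^ 2 * ρ * E ^ 2 ≤
      (((m + 1 : ℕ) : ℝ) + 1) * (K * (M * G) ^ 2 * ρ * E ^ 2) := le_mul_of_one_le_left hW hk1
  have hYb : Y ≤ (((m + 1 : ℕ) : ℝ) + 1) * (Cc * CR ^ 2 * E ^ 2) := by
    rw [hY]
    have : 0 ≤ Cc * CR ^ 2 * E ^ 2 := by positivity
    have e : Cc * (((m + 1 : ℕ) : ℝ) * (CR * E) ^ 2) =
        ((m + 1 : ℕ) : ℝ) * (Cc * CR ^ 2 * E ^ 2) := by ring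
    rw [e]
    linarith
  have hY0 : 0 ≤ Y := by rw [hY]; positivity
  have hq2 : ((m + 1 : ℕ) : ℝ) * (K' * (M ^ 4 * G ^ 2) * E ^ 2) ≤
      (((m + 1 : ℕ) : ℝ) + 1) * (K' * (M ^ 4 * G ^ 2) * E ^ 2) := by
    have : 0 ≤ K' * (M ^ 4 * G ^ 2) * E ^ 2 := by positivity
    linarith
  have hfin : (2 * (Cc * CR ^ 2) + K' * (M ^ 4 * G ^ 2) + 5 * (K * (M * G) ^ 2 * ρ)) *
      (((m + 1 : ℕ) : ℝ) + 1) * E ^ 2 =
      2 * ((((m + 1 : ℕ) : ℝ) + 1) * (Cc * CR ^ 2 * E ^ 2)) +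
      (((m + 1 : ℕ) : ℝ) + 1) * (K' * (M ^ 4 * G ^ 2) * E ^ 2) +
      5 * ((((m + 1 : ℕ) : ℝ) + 1) * (K * (M * G) ^ 2 * ρ * E ^ 2)) := by ring
  rw [hfin]
  obtain ⟨z1a, z1b⟩ := abs_le.1 z1
  obtain ⟨z2a, z2b⟩ := abs_le.1 z2
  obtain ⟨z3a, z3b⟩ := abs_le.1 z3
  obtain ⟨z4a, z4b⟩ := abs_le.1 z4
  obtain ⟨z5a, z5b⟩ := abs_le.1 z5
  obtain ⟨qa, qb⟩ := abs_le.1 quad
  obtain ⟨u1, u2⟩ := aAB
  obtain ⟨u3, u4⟩ := aA
  obtain ⟨u5, u6⟩ := aB
  have hMx : Mx D (m + 1) (p 0) (v 0) = D (m + 1) (p 0) (v 0) - D (m + 1) (p 0) 0 -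
      D (m + 1) 0 (v 0) := rfl
  rw [hMx, abs_le]
  constructor <;> linarith

end Pool.Agent.LX
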