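import Pool.Agent.Work.MP_25cd3b_gt.LX.StmtsZ

set_option autoImplicit false

/-! # Block LX, item ZTh: recursion for backward chains -/

open Set Filter Topology
open scoped ContDiff

namespace Pool.Agent.LX

namespace IZTh

variable {V : Type} [NormedAddCommGroup V] [NormedSpace ℝ V]

theorem quad {lam K r : ℝ} {L : V × V → ℝ} {L1 : V × V → V × V →L[ℝ] ℝ} {L2 : V × V → Bf V}
    (h : Ch lam K r L L1 L2) (p : V × V) (hp : ‖p‖ < r) : ‖L1 p - L2 0 p‖ ≤ K * ‖p‖ ^ 2 := by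
  have hd : ∀ x ∈ Metric.closedBall (0 : V × V) ‖p‖,
      HasFDerivWithinAt (fun x => L1 x - L2 0 x) (L2 x - L2 0) (Metric.closedBall 0 ‖p‖) x := by
    intro x hx
    have hx' : ‖x‖ < r := lt_of_le_of_lt (by simpa using hx) hp
    exact ((h.d2 x hx').sub (L2 0).hasFDerivAt).hasFDerivWithinAt
  have hb : ∀ x ∈ Metric.closedBall (0 : V × V) ‖p‖, ‖L2 x - L2 0‖ ≤ K * ‖p‖ := by
    intro x hx
    have hx1 : ‖x‖ ≤ ‖p‖ := by simpa using hx
    exact (h.lip x (lt_of_le_of_lt hx1 hp)).trans (mul_le_mul_of_nonneg_left hx1 h.K_nn)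
  have hm := Convex.norm_image_sub_le_of_norm_hasFDerivWithin_le hd hb
    (convex_closedBall (0 : V × V) ‖p‖) (x := 0) (y := p) (by simp) (by simp)
  have h0 : L1 0 - L2 0 0 = 0 := by rw [h.crit, map_zero, sub_zero]
  simp only [h0, sub_zero] at hm
  calc ‖L1 p - L2 0 p‖ ≤ K * ‖p‖ * ‖p‖ := hm
    _ = K * ‖p‖ ^ 2 := by ring

/-- the map `a ↦ H (a, 0) (0, ·)` -/
noncomputable def phi (H : Bf V) : V →L[ℝ] V →L[ℝ] ℝ :=
  ((ContinuousLinearMap.compL ℝ V (V × V) ℝ).flip (ContinuousLinearMap.inr ℝ V V)) ∘L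
    (H ∘L (ContinuousLinearMap.inl ℝ V V))

theorem phi_apply (H : Bf V) (a w : V) : phi H a w = H (a, 0) (0, w) := rfl

theorem phi_inj (H : Bf V) (T : (V × V) ≃L[ℝ] (V × V)) (hT : Tws H) (hI : IsTr H T) (a : V)
    (ha : ∀ w, H (a, 0) (0, w) = 0) : a = 0 := by
  obtain ⟨h1, h2⟩ := hI a 0
  have h3 : (T (a, 0)).2 = 0 := by
    apply hT
    intro w
    have := h2 w
    rw [ha w, zero_add] at this
    exact this
  have h4 : T (a, 0) = T 0 := by
    rw [map_zero]
    exact Prod.ext h1 h3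
  have h5 := T.injective h4
  exact congrArg Prod.fst h5

end IZTh

open IZTh in
theorem pr_ZTh : ZTh := by
  intro V _ _ _ lam K r L L1 L2 T hC hTw hI
  set H := L2 0 with hH
  obtain ⟨A, hA0, hA⟩ := LinearMap.exists_antilipschitzWith ((phi H).toLinearMap) (by
    rw [LinearMap.ker_eq_bot']
    intro a ha
    apply phi_inj H T hTw hI a
    intro w
    have := congrArg (fun f : V →L[ℝ] ℝ => f w) ha
    simpa [phi_apply] using this)
  have hA' : ∀ a : V, ‖a‖ ≤ A * ‖phi H a‖ := by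
    intro a
    have := hA.le_mul_dist a 0
    simpa [dist_eq_norm] using this
  refine ⟨A * (2 * K), r / 2, half_pos hC.r_pos, ?_⟩
  intro v hv i
  have hr := hC.r_pos
  have hKn := hC.K_nn
  have hn : ∀ j, ‖v j‖ < r := fun j => lt_of_le_of_lt (hv.small j) (half_lt_self hr)
  have hel : ∀ w : V, L1 (v (i + 2), v (i + 1)) (0, w) + L1 (v (i + 1), v i) (w, 0) = 0 := by
    intro w
    have := hv.el (i + 2) 0 (by omega) w
    simpa using this
  set S := ‖v i‖ + ‖v (i + 1)‖ + ‖v (i + 2)‖ with hS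
  have hq1 : ‖L1 (v (i + 2), v (i + 1)) - H (v (i + 2), v (i + 1))‖ ≤ K * S ^ 2 := by
    have h1 : ‖(v (i + 2), v (i + 1))‖ < r := by
      rw [Prod.norm_def]
      exact max_lt (hn _) (hn _)
    refine (quad hC _ h1).trans (mul_le_mul_of_nonneg_left ?_ hKn)
    have h2 : ‖(v (i + 2), v (i + 1))‖ ≤ S := by
      rw [Prod.norm_def]
      have e1 := norm_nonneg (v i)
      have e2 := norm_nonneg (v (i + 1))
      have e3 := norm_nonneg (v (i + 2))
      exact max_le (by simp only; linarith) (by simp only; linarith)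
    exact pow_le_pow_left₀ (norm_nonneg _) h2 2
  have hq2 : ‖L1 (v (i + 1), v i) - H (v (i + 1), v i)‖ ≤ K * S ^ 2 := by
    have h1 : ‖(v (i + 1), v i)‖ < r := by
      rw [Prod.norm_def]
      exact max_lt (hn _) (hn _)
    refine (quad hC _ h1).trans (mul_le_mul_of_nonneg_left ?_ hKn)
    have h2 : ‖(v (i + 1), v i)‖ ≤ S := by
      rw [Prod.norm_def]
      have e1 := norm_nonneg (v i)
      have e2 := norm_nonneg (v (i + 1))
      have e3 := norm_nonneg (v (i + 2))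
      exact max_le (by simp only; linarith) (by simp only; linarith)
    exact pow_le_pow_left₀ (norm_nonneg _) h2 2
  obtain ⟨⟨a, b⟩, hab⟩ : ∃ ab : V × V, T.symm (v (i + 1), v i) = ab := ⟨_, rfl⟩
  have hTab : T (a, b) = (v (i + 1), v i) := by
    rw [← hab, ContinuousLinearEquiv.apply_symm_apply]
  obtain ⟨h1, h2⟩ := hI a b
  rw [hTab] at h1 h2
  simp only at h1 h2
  subst h1
  rw [hab]
  have hkey : ‖phi H (v (i + 2) - a)‖ ≤ 2 * K * S ^ 2 := by
    refine ContinuousLinearMap.opNorm_le_bound _ (by positivity) ?_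
    intro w
    rw [phi_apply]
    have e1 : ((v (i + 2) - a, 0) : V × V) = (v (i + 2), v (i + 1)) - (a, v (i + 1)) := by
      ext <;> simp
    have e2 : H (v (i + 2) - a, 0) (0, w) =
        -((L1 (v (i + 2), v (i + 1)) - H (v (i + 2), v (i + 1))) (0, w)) -
        (L1 (v (i + 1), v i) - H (v (i + 1), v i)) (w, 0) := by
      rw [e1, map_sub, ContinuousLinearMap.sub_apply, ContinuousLinearMap.sub_apply,
        ContinuousLinearMap.sub_apply]
      have e3 := h2 w
      have e4 := hel w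
      linarith
    rw [e2]
    have n1 : ‖((0, w) : V × V)‖ = ‖w‖ := by simp [Prod.norm_def]
    have n2 : ‖((w, 0) : V × V)‖ = ‖w‖ := by simp [Prod.norm_def]
    have b1 := (L1 (v (i + 2), v (i + 1)) - H (v (i + 2), v (i + 1))).le_of_opNorm_le hq1 (0, w)
    have b2 := (L1 (v (i + 1), v i) - H (v (i + 1), v i)).le_of_opNorm_le hq2 (w, 0)
    rw [n1] at b1
    rw [n2] at b2
    calc ‖-((L1 (v (i + 2), v (i + 1)) - H (v (i + 2), v (i + 1))) (0, w)) -
        (L1 (v (i + 1), v i) - H (v (i + 1), v i)) (w, 0)‖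
        ≤ ‖-((L1 (v (i + 2), v (i + 1)) - H (v (i + 2), v (i + 1))) (0, w))‖ +
          ‖(L1 (v (i + 1), v i) - H (v (i + 1), v i)) (w, 0)‖ := norm_sub_le _ _
      _ ≤ K * S ^ 2 * ‖w‖ + K * S ^ 2 * ‖w‖ := by
          rw [norm_neg]
          exact add_le_add b1 b2
      _ = 2 * K * S ^ 2 * ‖w‖ := by ring
  have hfin : ‖((v (i + 2), v (i + 1)) : V × V) - (a, v (i + 1))‖ = ‖v (i + 2) - a‖ := by
    simp [Prod.norm_def]
  rw [hfin]
  calc ‖v (i + 2) - a‖ ≤ A * ‖phi H (v (i + 2) - a)‖ := hA' _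
    _ ≤ A * (2 * K * S ^ 2) := mul_le_mul_of_nonneg_left hkey A.coe_nonneg
    _ = A * (2 * K) * S ^ 2 := by ring

end Pool.Agent.LX
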