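import Pool.Agent.Work.MP_25cd3b_gt.LX.StmtsU
import Pool.Agent.Work.MP_25cd3b_gt.LX.I_ZTh

set_option autoImplicit false

/-! # Block LX, item UXb: fast backward chains -/

open Set Filter Topology
open scoped ContDiff

namespace Pool.Agent.LX

namespace IUXb

variable {V : Type} [NormedAddCommGroup V] [NormedSpace ℝ V]

/-- the nonlinear part of `L1` is Lipschitz with a small constant -/
theorem lipc {lam K r : ℝ} {L : V × V → ℝ} {L1 : V × V → V × V →L[ℝ] ℝ} {L2 : V × V → Bf V}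
    (h : Ch lam K r L L1 L2) (p q : V × V) (hp : ‖p‖ < r) (hq : ‖q‖ < r) :
    ‖(L1 p - L2 0 p) - (L1 q - L2 0 q)‖ ≤ K * (‖p‖ + ‖q‖) * ‖p - q‖ := by
  have hm0 : max ‖p‖ ‖q‖ < r := max_lt hp hq
  have hd : ∀ x ∈ Metric.closedBall (0 : V × V) (max ‖p‖ ‖q‖),
      HasFDerivWithinAt (fun x => L1 x - L2 0 x) (L2 x - L2 0)
        (Metric.closedBall 0 (max ‖p‖ ‖q‖)) x := by
    intro x hx
    have hx' : ‖x‖ < r := lt_of_le_of_lt (by simpa using hx) hm0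
    exact ((h.d2 x hx').sub (L2 0).hasFDerivAt).hasFDerivWithinAt
  have hb : ∀ x ∈ Metric.closedBall (0 : V × V) (max ‖p‖ ‖q‖),
      ‖L2 x - L2 0‖ ≤ K * (‖p‖ + ‖q‖) := by
    intro x hx
    have hx1 : ‖x‖ ≤ max ‖p‖ ‖q‖ := by simpa using hx
    have hx2 : ‖x‖ ≤ ‖p‖ + ‖q‖ :=
      hx1.trans (max_le (le_add_of_nonneg_right (norm_nonneg _))
        (le_add_of_nonneg_left (norm_nonneg _)))
    exact (h.lip x (lt_of_le_of_lt hx1 hm0)).trans (mul_le_mul_of_nonneg_left hx2 h.K_nn)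
  exact Convex.norm_image_sub_le_of_norm_hasFDerivWithin_le hd hb
    (convex_closedBall (0 : V × V) (max ‖p‖ ‖q‖)) (x := q) (y := p)
    (by simp) (by simp)

/-- the inverse of `phi` -/
theorem exM [FiniteDimensional ℝ V] (H : Bf V) (T : (V × V) ≃L[ℝ] (V × V)) (hT : Tws H)
    (hI : IsTr H T) : ∃ M : (V →L[ℝ] ℝ) →L[ℝ] V, ∀ ξ w, H (M ξ, 0) (0, w) = ξ w := by
  have hinj : Function.Injective (IZTh.phi H).toLinearMap := by
    rw [injective_iff_map_eq_zero]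
    intro a ha
    apply IZTh.phi_inj H T hT hI a
    intro w
    have := congrArg (fun f : V →L[ℝ] ℝ => f w) ha
    simpa [IZTh.phi_apply] using this
  have hfin : FiniteDimensional ℝ (V →L[ℝ] ℝ) :=
    LinearEquiv.finiteDimensional (LinearMap.toContinuousLinearMap : (V →ₗ[ℝ] ℝ) ≃ₗ[ℝ] (V →L[ℝ] ℝ))
  have hrank : Module.finrank ℝ V = Module.finrank ℝ (V →L[ℝ] ℝ) := by
    rw [← LinearEquiv.finrank_eq
      (LinearMap.toContinuousLinearMap : (V →ₗ[ℝ] ℝ) ≃ₗ[ℝ] (V →L[ℝ] ℝ))]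
    exact (Subspace.dual_finrank_eq (K := ℝ) (V := V)).symm
  have hsurj : Function.Surjective (IZTh.phi H).toLinearMap :=
    (LinearMap.injective_iff_surjective_of_finrank_eq_finrank hrank).mp hinj
  obtain ⟨e, he⟩ : ∃ e : V ≃ₗ[ℝ] (V →L[ℝ] ℝ), ∀ a, e a = IZTh.phi H a :=
    ⟨LinearEquiv.ofBijective _ ⟨hinj, hsurj⟩, fun a => rfl⟩
  refine ⟨LinearMap.toContinuousLinearMap e.symm.toLinearMap, fun ξ w => ?_⟩
  have h1 : IZTh.phi H (e.symm ξ) = ξ := by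
    rw [← he]
    exact e.apply_symm_apply ξ
  rw [← IZTh.phi_apply]
  exact congrArg (fun f : V →L[ℝ] ℝ => f w) h1

/-- the functional `c₁ y (0, ·) + c₁ x (·, 0)` -/
noncomputable def xi (c : V × V → V × V →L[ℝ] ℝ) (x y : V × V) : V →L[ℝ] ℝ :=
  (c y).comp (ContinuousLinearMap.inr ℝ V V) + (c x).comp (ContinuousLinearMap.inl ℝ V V)

theorem xi_apply (c : V × V → V × V →L[ℝ] ℝ) (x y : V × V) (w : V) :
    xi c x y w = c y (0, w) + c x (w, 0) := rfl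

theorem xi_bound (c : V × V → V × V →L[ℝ] ℝ) (x y x' y' : V × V) :
    ‖xi c x y - xi c x' y'‖ ≤ ‖c y - c y'‖ + ‖c x - c x'‖ := by
  refine ContinuousLinearMap.opNorm_le_bound _ (by positivity) fun w => ?_
  have e : (xi c x y - xi c x' y') w = (c y - c y') (0, w) + (c x - c x') (w, 0) := by
    show xi c x y w - xi c x' y' w = (c y (0, w) - c y' (0, w)) + (c x (w, 0) - c x' (w, 0))
    rw [xi_apply, xi_apply]
    ring
  have n1 : ‖((0, w) : V × V)‖ = ‖w‖ := by simp [Prod.norm_def]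
  have n2 : ‖((w, 0) : V × V)‖ = ‖w‖ := by simp [Prod.norm_def]
  have b1 := (c y - c y').le_opNorm (0, w)
  have b2 := (c x - c x').le_opNorm (w, 0)
  rw [n1] at b1
  rw [n2] at b2
  rw [e, add_mul]
  exact (norm_add_le _ _).trans (add_le_add b1 b2)

end IUXb

open IUXb in
/-- item UXb -/
theorem pr_UXb (h1 : UPe) : UXb := by
  intro V _ _ _ lam K r₀ L L1 L2 T hC hTw hI r P hr hP ρ₀ hρ₀
  obtain ⟨M, hM⟩ := exM (L2 0) T hTw hI
  have hr₀ := hC.r_pos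
  have hK := hC.K_nn
  obtain ⟨C, ρ, hC0, hρ, hN⟩ := h1 (V × V) T r P hr hP (‖M‖ * K) (r₀ / 2) (by positivity)
    (half_pos hr₀)
  obtain ⟨c, hc⟩ : ∃ c : V × V → V × V →L[ℝ] ℝ, ∀ p, c p = L1 p - L2 0 p := ⟨_, fun _ => rfl⟩
  obtain ⟨N, hNd⟩ : ∃ N : V × V → V × V → V × V, ∀ x y, N x y = (-(M (xi c x y)), 0) :=
    ⟨_, fun _ _ => rfl⟩
  have hN0 : N 0 0 = 0 := by
    rw [hNd]
    have h3 : c 0 = 0 := by rw [hc, hC.crit, map_zero, sub_zero]
    have h4 : xi c 0 0 = 0 := by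
      unfold xi
      rw [h3]
      simp
    rw [h4, map_zero, neg_zero]
    rfl
  have hNl : ∀ x y x' y' : V × V, ‖x‖ ≤ r₀ / 2 → ‖y‖ ≤ r₀ / 2 → ‖x'‖ ≤ r₀ / 2 → ‖y'‖ ≤ r₀ / 2 →
      ‖N x y - N x' y'‖ ≤ ‖M‖ * K * (‖x‖ + ‖y‖ + ‖x'‖ + ‖y'‖) * (‖x - x'‖ + ‖y - y'‖) := by
    intro x y x' y' hx hy hx' hy'
    have hlt : r₀ / 2 < r₀ := half_lt_self hr₀
    have e1 : N x y - N x' y' = (-(M (xi c x y - xi c x' y')), 0) := by
      rw [hNd, hNd, map_sub, Prod.mk_sub_mk, sub_zero, neg_sub_neg, neg_sub]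
    have e2 : ‖N x y - N x' y'‖ = ‖M (xi c x y - xi c x' y')‖ := by
      rw [e1, Prod.norm_def]
      show max ‖-(M (xi c x y - xi c x' y'))‖ ‖(0 : V)‖ = _
      rw [norm_neg, norm_zero, max_eq_left (norm_nonneg _)]
    have b1 := lipc hC y y' (hy.trans_lt hlt) (hy'.trans_lt hlt)
    have b2 := lipc hC x x' (hx.trans_lt hlt) (hx'.trans_lt hlt)
    rw [← hc, ← hc] at b1 b2
    have b3 := xi_bound c x y x' y'
    have b4 : ‖xi c x y - xi c x' y'‖ ≤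
        K * (‖x‖ + ‖y‖ + ‖x'‖ + ‖y'‖) * (‖x - x'‖ + ‖y - y'‖) := by
      have n1 := norm_nonneg x
      have n2 := norm_nonneg y
      have n3 := norm_nonneg x'
      have n4 := norm_nonneg y'
      have n5 := norm_nonneg (x - x')
      have n6 := norm_nonneg (y - y')
      have b5 : K * (‖y‖ + ‖y'‖) * ‖y - y'‖ ≤ K * (‖x‖ + ‖y‖ + ‖x'‖ + ‖y'‖) * ‖y - y'‖ :=
        mul_le_mul_of_nonneg_right (mul_le_mul_of_nonneg_left (by linarith) hK) n6
      have b6 : K * (‖x‖ + ‖x'‖) * ‖x - x'‖ ≤ K * (‖x‖ + ‖y‖ + ‖x'‖ + ‖y'‖) * ‖x - x'‖ :=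
        mul_le_mul_of_nonneg_right (mul_le_mul_of_nonneg_left (by linarith) hK) n5
      rw [mul_add]
      linarith
    rw [e2]
    calc ‖M (xi c x y - xi c x' y')‖ ≤ ‖M‖ * ‖xi c x y - xi c x' y'‖ := M.le_opNorm _
      _ ≤ ‖M‖ * (K * (‖x‖ + ‖y‖ + ‖x'‖ + ‖y'‖) * (‖x - x'‖ + ‖y - y'‖)) :=
          mul_le_mul_of_nonneg_left b4 M.opNorm_nonneg
      _ = _ := by ring
  refine ⟨C, min ρ (ρ₀ / C), hC0, lt_min hρ (by positivity), fun w hPw hw => ?_⟩
  obtain ⟨θ, hθ1, hθ2, hθ3⟩ := hN N hN0 hNl w hPw (hw.trans (min_le_left _ _))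
  -- the second components
  have hTs : ∀ z : V × V, (T.symm z).2 = z.1 := by
    intro z
    have h3 := (hI (T.symm z).1 (T.symm z).2).1
    have h4 : ((T.symm z).1, (T.symm z).2) = T.symm z := rfl
    rw [h4, ContinuousLinearEquiv.apply_symm_apply] at h3
    exact h3.symm
  have hsnd : ∀ i, (θ (i + 1)).2 = (θ i).1 := by
    intro i
    rw [hθ1 i, hNd, Prod.snd_add, hTs, add_zero]
  have hθp : ∀ i, θ i = ((θ (i + 1)).2, (θ i).2) := by
    intro i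
    rw [hsnd i]
  have hchain : ∀ i, ∀ w' : V, L1 ((θ (i + 2)).2, (θ (i + 1)).2) (0, w') +
      L1 ((θ (i + 1)).2, (θ i).2) (w', 0) = 0 := by
    intro i w'
    rw [← hθp (i + 1), ← hθp i]
    obtain ⟨a, ha⟩ : ∃ a, a = (T.symm (θ i)).1 := ⟨_, rfl⟩
    have h5 : T.symm (θ i) = (a, (θ i).1) := by
      rw [ha, ← hTs (θ i)]
    have h6 : T (a, (θ i).1) = θ i := by
      rw [← h5, ContinuousLinearEquiv.apply_symm_apply]
    have h7 := (hI a (θ i).1).2 w'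
    rw [h6] at h7
    have h8 : ((θ i).1, (θ i).2) = θ i := rfl
    rw [h8] at h7
    have h9 : θ (i + 1) = (a, (θ i).1) + (-(M (xi c (θ i) (θ (i + 1)))), 0) := by
      rw [← h5, ← hNd]
      exact hθ1 i
    have h10 : L2 0 (θ (i + 1)) (0, w') = L2 0 (a, (θ i).1) (0, w') -
        xi c (θ i) (θ (i + 1)) w' := by
      have h11 : ((-(M (xi c (θ i) (θ (i + 1)))), 0) : V × V) =
          -((M (xi c (θ i) (θ (i + 1))), 0) : V × V) := by
        ext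
        · simp
        · simp
      have h12 := hM (xi c (θ i) (θ (i + 1))) w'
      calc L2 0 (θ (i + 1)) (0, w')
          = L2 0 ((a, (θ i).1) + (-(M (xi c (θ i) (θ (i + 1)))), 0)) (0, w') := by rw [← h9]
        _ = _ := by
          rw [h11, map_add, map_neg, add_apply, neg_apply, h12]
          ring
    rw [xi_apply, hc, hc] at h10
    have h13 : (L1 (θ (i + 1)) - L2 0 (θ (i + 1))) (0, w') =
        L1 (θ (i + 1)) (0, w') - L2 0 (θ (i + 1)) (0, w') := rfl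
    have h14 : (L1 (θ i) - L2 0 (θ i)) (w', 0) =
        L1 (θ i) (w', 0) - L2 0 (θ i) (w', 0) := rfl
    rw [h13, h14] at h10
    linarith
  have hsize : ∀ j : ℕ, ‖(θ j).2‖ ≤ C * ‖w‖ * Real.exp (-(r * j)) := fun j =>
    (norm_snd_le _).trans (hθ2 j)
  refine ⟨fun j => (θ j).2, ⟨fun j => ?_, fun k j hj w' => ?_⟩, hsize, ?_⟩
  · refine (hsize j).trans ?_
    have h15 : Real.exp (-(r * j)) ≤ 1 := by
      rw [Real.exp_le_one_iff]
      have : (0 : ℝ) ≤ r * j := by positivity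
      linarith
    have h16 : C * ‖w‖ ≤ ρ₀ := by
      have h17 := hw.trans (min_le_right _ _)
      rw [le_div_iff₀ hC0] at h17
      linarith
    calc C * ‖w‖ * Real.exp (-(r * j)) ≤ C * ‖w‖ * 1 :=
          mul_le_mul_of_nonneg_left h15 (by positivity)
      _ ≤ ρ₀ := by rw [mul_one]; exact h16
  · have h18 := hchain (k - (j + 2)) w'
    have e1 : k - (j + 2) + 2 = k - j := by omega
    have e2 : k - (j + 2) + 1 = k - (j + 1) := by omega
    rw [e1, e2] at h18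
    exact h18
  · have h19 : (((θ 1).2, (θ 0).2) : V × V) = θ 0 := (hθp 0).symm
    show ‖((θ 1).2, (θ 0).2) - w‖ ≤ C * ‖w‖ ^ 2
    rw [h19]
    exact hθ3

end Pool.Agent.LX
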