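import Pool.Agent.Work.MP_25cd3b_gt.LX.StmtsW

set_option autoImplicit false

/-!
# MP_25cd3b_gt, block LX: item WTa (temporal displacement and coordinates)
-/

open MeasureTheory Set Filter Topology
open scoped ContDiff ENNReal
open Pool.Agent.Work.MP_c9f990_an.Al (IsFlow)

namespace Pool.Agent.LX

open Pool.Agent.MLS Pool.Agent.STR Pool.Agent.LR

namespace IWTa

theorem fc_mono {V : Type} [NormedAddCommGroup V] [NormedSpace ℝ V]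
    {L1 : V × V → V × V →L[ℝ] ℝ} {ρ ρ' : ℝ} (h : ρ ≤ ρ') {p : ℕ → V} (hp : Fc L1 ρ p) :
    Fc L1 ρ' p := ⟨fun j => (hp.small j).trans h, hp.el⟩

theorem bc_mono {V : Type} [NormedAddCommGroup V] [NormedSpace ℝ V]
    {L1 : V × V → V × V →L[ℝ] ℝ} {ρ ρ' : ℝ} (h : ρ ≤ ρ') {p : ℕ → V} (hp : Bc L1 ρ p) :
    Bc L1 ρ' p := ⟨fun j => (hp.small j).trans h, hp.el⟩

theorem fw_mono {n : ℕ} {G : Type} [Group G] [MulAction G (E n)] {g : Form n}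
    {φ : ℝ → W n → W n} {a : G} {c : ℝ → E n} {l : ℝ} {V : Submodule ℝ (E n)} {ρ ρ' : ℝ}
    (h : ρ ≤ ρ') {α : ℝ → E n} {p : ℕ → V} (hF : Fw g φ a c l V ρ α p) :
    Fw g φ a c l V ρ' α p := by
  obtain ⟨a₀, ha₀, hα⟩ := hF.st
  exact ⟨hF.ug, hF.as, fun t ht => (hF.near t ht).trans h, fc_mono h hF.ch,
    ⟨a₀, ha₀.trans h, hα⟩⟩

theorem bw_mono {n : ℕ} {G : Type} [Group G] [MulAction G (E n)] {g : Form n}
    {φ : ℝ → W n → W n} {a : G} {c : ℝ → E n} {l : ℝ} {V : Submodule ℝ (E n)} {ρ ρ' : ℝ}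
    (h : ρ ≤ ρ') {β : ℝ → E n} {v : ℕ → V} (hB : Bw g φ a c l V ρ β v) :
    Bw g φ a c l V ρ' β v := by
  obtain ⟨b₀, hb₀, hβ⟩ := hB.st
  exact ⟨hB.ug, hB.as, fun t ht => (hB.near t ht).trans h, bc_mono h hB.ch,
    ⟨b₀, hb₀.trans h, hβ⟩⟩

theorem expbound (r t : ℝ) (h : t < 2 * r) (k : ℕ) :
    ((k : ℝ) + 1) * Real.exp (-(2 * r * k)) ≤
      (1 + 1 / (2 * r - t)) * Real.exp (-(t * k)) := by
  have hδ : 0 < 2 * r - t := by linarith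
  have hk : (0 : ℝ) ≤ k := Nat.cast_nonneg k
  have e1 : Real.exp (-(2 * r * k)) = Real.exp (-(t * k)) * Real.exp (-((2 * r - t) * k)) := by
    rw [← Real.exp_add]
    congr 1
    ring
  have e2 : (2 * r - t) * k + 1 ≤ Real.exp ((2 * r - t) * k) := Real.add_one_le_exp _
  have e3 : (k : ℝ) + 1 ≤ (1 + 1 / (2 * r - t)) * Real.exp ((2 * r - t) * k) := by
    have e4 : (1 + 1 / (2 * r - t)) * ((2 * r - t) * k + 1) =
        1 + (2 * r - t) * k + 1 / (2 * r - t) + k := by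
      field_simp
      ring
    have e5 : 0 < 1 / (2 * r - t) := by positivity
    have e6 : 0 ≤ (2 * r - t) * k := mul_nonneg hδ.le hk
    have e7 : (1 + 1 / (2 * r - t)) * ((2 * r - t) * k + 1) ≤
        (1 + 1 / (2 * r - t)) * Real.exp ((2 * r - t) * k) :=
      mul_le_mul_of_nonneg_left e2 (by linarith)
    linarith
  have e8 : Real.exp ((2 * r - t) * k) * Real.exp (-((2 * r - t) * k)) = 1 := by
    rw [← Real.exp_add]
    simp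
  calc ((k : ℝ) + 1) * Real.exp (-(2 * r * k))
      = ((k : ℝ) + 1) * (Real.exp (-(t * k)) * Real.exp (-((2 * r - t) * k))) := by rw [e1]
    _ ≤ ((1 + 1 / (2 * r - t)) * Real.exp ((2 * r - t) * k)) *
        (Real.exp (-(t * k)) * Real.exp (-((2 * r - t) * k))) :=
        mul_le_mul_of_nonneg_right e3 (by positivity)
    _ = (1 + 1 / (2 * r - t)) * Real.exp (-(t * k)) *
        (Real.exp ((2 * r - t) * k) * Real.exp (-((2 * r - t) * k))) := by ring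
    _ = (1 + 1 / (2 * r - t)) * Real.exp (-(t * k)) := by rw [e8, mul_one]

end IWTa

theorem pr_WTa (h1 : WKm) (h2 : UMx) (h3 : UGk) (h4 : BGen) (h5 : BSm) (h6 : ZC4) (h7 : VTw) :
    WTa := by
  intro n G _ _ g κ φ M lg a c l V hP T hTr
  obtain ⟨lam, K, r₁, hG⟩ := h4 n G g κ φ M lg a c l V hP
  obtain ⟨hL0, hL1, ⟨r₀, hr₀, hsm⟩, -⟩ := h5 n G g κ φ M lg a c l V hP
  obtain ⟨K', r', hC4⟩ := h6 V (Lk g φ a (c 0) l V) r₀ hr₀ hsm hL0 hL1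
  have hTw := h7 n G g κ φ M lg a c l V hP
  have hCh : Ch lam K r₁ (Lk g φ a (c 0) l V) (fderiv ℝ (Lk g φ a (c 0) l V))
      (fderiv ℝ (fderiv ℝ (Lk g φ a (c 0) l V))) := Gen.ch hG
  obtain ⟨ρ₁, hρ₁, hKm⟩ := h1 n G g κ φ M lg a c l V hP
  obtain ⟨ρ₂, hρ₂, hMx⟩ := h2 V lam K r₁ K' r' (Lk g φ a (c 0) l V)
    (fderiv ℝ (Lk g φ a (c 0) l V)) (fderiv ℝ (fderiv ℝ (Lk g φ a (c 0) l V)))
    (Dk g φ a (c 0) l V) hG hC4
  obtain ⟨ρ₃, hρ₃, hGk⟩ := h3 V lam K r₁ (Lk g φ a (c 0) l V)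
    (fderiv ℝ (Lk g φ a (c 0) l V)) (fderiv ℝ (fderiv ℝ (Lk g φ a (c 0) l V))) T hCh hTw hTr
  refine ⟨min ρ₁ (min ρ₂ ρ₃), lt_min hρ₁ (lt_min hρ₂ hρ₃), ?_⟩
  intro r t α β p v Q R hr ht htr hF hB hRp hRv hQ hR
  have m1 : min ρ₁ (min ρ₂ ρ₃) ≤ ρ₁ := min_le_left _ _
  have m2 : min ρ₁ (min ρ₂ ρ₃) ≤ ρ₂ := (min_le_right _ _).trans (min_le_left _ _)
  have m3 : min ρ₁ (min ρ₂ ρ₃) ≤ ρ₃ := (min_le_right _ _).trans (min_le_right _ _)
  obtain ⟨C₁, k₁, e1⟩ := hKm r α β p v hr (IWTa.fw_mono m1 hF) (IWTa.bw_mono m1 hB) hRp hRv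
  obtain ⟨C₂, hC₂, e2⟩ := hMx r p v hr (IWTa.fc_mono m2 hF.ch) (IWTa.bc_mono m2 hB.ch) hRp hRv
  obtain ⟨C₃, e3⟩ := hGk r t p v Q R hr ht htr (IWTa.fc_mono m3 hF.ch) hRp hQ hR
  refine ⟨(|C₁| + C₂) * (1 + 1 / (2 * r - t)) + C₃, max k₁ 2, fun k hk => ?_⟩
  have hk1 : k₁ ≤ k := (le_max_left _ _).trans hk
  have hk2 : 2 ≤ k := (le_max_right _ _).trans hk
  obtain ⟨τ, hτ, f1⟩ := e1 k hk1
  refine ⟨τ, hτ, ?_⟩
  have f2 := e2 k hk2
  have f3 := e3 k (by omega)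
  have f4 := IWTa.expbound r t htr k
  set mx := Mx (Dk g φ a (c 0) l V) k (p 0) (v 0) with hmx
  set gk := Gk (fderiv ℝ (fderiv ℝ (Lk g φ a (c 0) l V)) 0) (fderiv ℝ (Lk g φ a (c 0) l V)) p v k
    with hgk
  set om := Om (fderiv ℝ (fderiv ℝ (Lk g φ a (c 0) l V)) 0) R ((⇑T.symm)^[k - 1] Q) with hom
  show |τ + om| ≤ _
  have g1 : |τ + om| ≤ |τ - mx| + |mx - gk| + |gk + om| := by
    have h : τ + om = (τ - mx) + (mx - gk) + (gk + om) := by ring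
    rw [h]
    exact (abs_add_le _ _).trans (add_le_add (abs_add_le _ _) le_rfl)
  have hX : (0 : ℝ) ≤ ((k : ℝ) + 1) * Real.exp (-(2 * r * k)) := by positivity
  have g2 : |τ - mx| ≤ |C₁| * (((k : ℝ) + 1) * Real.exp (-(2 * r * k))) := by
    refine f1.trans ?_
    rw [mul_assoc]
    exact mul_le_mul_of_nonneg_right (le_abs_self C₁) hX
  have g3 : |mx - gk| ≤ C₂ * (((k : ℝ) + 1) * Real.exp (-(2 * r * k))) := by
    refine f2.trans (le_of_eq ?_)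
    ring
  have g4 : (|C₁| + C₂) * (((k : ℝ) + 1) * Real.exp (-(2 * r * k))) ≤
      (|C₁| + C₂) * ((1 + 1 / (2 * r - t)) * Real.exp (-(t * k))) :=
    mul_le_mul_of_nonneg_left f4 (add_nonneg (abs_nonneg _) hC₂)
  calc |τ + om| ≤ |τ - mx| + |mx - gk| + |gk + om| := g1
    _ ≤ |C₁| * (((k : ℝ) + 1) * Real.exp (-(2 * r * k))) +
        C₂ * (((k : ℝ) + 1) * Real.exp (-(2 * r * k))) + C₃ * Real.exp (-(t * k)) :=
        add_le_add (add_le_add g2 g3) f3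
    _ = (|C₁| + C₂) * (((k : ℝ) + 1) * Real.exp (-(2 * r * k))) + C₃ * Real.exp (-(t * k)) := by
        ring
    _ ≤ (|C₁| + C₂) * ((1 + 1 / (2 * r - t)) * Real.exp (-(t * k))) +
        C₃ * Real.exp (-(t * k)) := add_le_add g4 le_rfl
    _ = ((|C₁| + C₂) * (1 + 1 / (2 * r - t)) + C₃) * Real.exp (-(t * k)) := by ring

end Pool.Agent.LX

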