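import Pool.Agent.Work.MP_25cd3b_gt.LX.StmtsA

set_option autoImplicit false

/-!
# MP_25cd3b_gt, block LX, item XDec: decay of the solutions of the constant chain
-/

open Set Filter Topology
open scoped ContDiff

namespace Pool.Agent.LX

namespace IXDec

variable {V : Type} [NormedAddCommGroup V] [NormedSpace ℝ V]

theorem en_symm {lam : ℝ} {H : Bf V} (hH : Pos lam H) (k : ℕ) (Y W : ℕ → V) :
    En (fun _ => H) k Y W = En (fun _ => H) k W Y :=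
  Finset.sum_congr rfl fun _ _ => hH.symm _ _

theorem term_nn {lam : ℝ} (hl : 0 < lam) {H : Bf V} (hH : Pos lam H) (Y : ℕ → V) (j : ℕ) :
    0 ≤ H (Y j, Y (j + 1)) (Y j, Y (j + 1)) := by
  refine le_trans ?_ (hH.pos (Y j) (Y (j + 1)))
  positivity

theorem en_first {lam : ℝ} (hl : 0 < lam) {H : Bf V} (hH : Pos lam H) (k : ℕ) (Y : ℕ → V) :
    lam * ‖Y 0‖ ^ 2 ≤ En (fun _ => H) (k + 1) Y Y := by
  have h1 : H (Y 0, Y (0 + 1)) (Y 0, Y (0 + 1)) ≤ En (fun _ => H) (k + 1) Y Y :=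
    Finset.single_le_sum (f := fun j => H (Y j, Y (j + 1)) (Y j, Y (j + 1)))
      (fun j _ => term_nn hl hH Y j) (Finset.mem_range.2 (Nat.succ_pos k))
  have h2 := hH.pos (Y 0) (Y (0 + 1))
  have h3 : 0 ≤ lam * ‖Y (0 + 1)‖ ^ 2 := by positivity
  linarith

theorem en_last {lam : ℝ} (hl : 0 < lam) {H : Bf V} (hH : Pos lam H) (k : ℕ) (Y : ℕ → V) :
    lam * ‖Y (k + 1)‖ ^ 2 ≤ En (fun _ => H) (k + 1) Y Y := by
  have h1 : H (Y k, Y (k + 1)) (Y k, Y (k + 1)) ≤ En (fun _ => H) (k + 1) Y Y :=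
    Finset.single_le_sum (f := fun j => H (Y j, Y (j + 1)) (Y j, Y (j + 1)))
      (fun j _ => term_nn hl hH Y j) (Finset.mem_range.2 (Nat.lt_succ_self k))
  have h2 := hH.pos (Y k) (Y (k + 1))
  have h3 : 0 ≤ lam * ‖Y k‖ ^ 2 := by positivity
  linarith

theorem sol_mono {H : Bf V} {k l : ℕ} (hkl : k ≤ l) {Y : ℕ → V} (h : Sol (fun _ => H) l Y) :
    Sol (fun _ => H) k Y := fun j hj w => h j (by omega) w

/-- the boundary value problem without sources -/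
theorem bvp (h2 : XBvp) [FiniteDimensional ℝ V] {lam : ℝ} (hl : 0 < lam) {H : Bf V}
    (hH : Pos lam H) (k : ℕ) (x z : V) :
    ∃ Y : ℕ → V, Y 0 = x ∧ Y (k + 1) = z ∧ Sol (fun _ => H) (k + 1) Y := by
  obtain ⟨Y, h3, h4, h5⟩ := h2 V lam hl (fun _ => H) (fun _ => hH) k x z (fun _ => 0)
  exact ⟨Y, h3, h4, fun j hj w => h5 j hj w⟩

theorem pair_zero : ((0 : V), (0 : V)) = 0 := rfl

/-- first part -/
theorem part1 (h1 : XGreen) (h2 : XBvp) [FiniteDimensional ℝ V] {lam s C₀ : ℝ} (hl : 0 < lam)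
    {H : Bf V} (hH : Pos lam H)
    (hG : ∀ (k : ℕ) (Y : ℕ → V) (z : V), Sol (fun _ => H) (k + 1) Y → Y (k + 1) = 0 →
      |H (Y k, 0) (0, z)| ≤ C₀ * Real.exp (-(s * k)) * ‖Y 0‖ * ‖z‖)
    (j m : ℕ) (Z : ℕ → V) (hZ : Sol (fun _ => H) (j + 1 + (m + 1)) Z) (hZ0 : Z 0 = 0) :
    2 * lam * ‖Z (j + 1)‖ ^ 2 ≤
      C₀ * Real.exp (-(s * m)) * ‖Z (j + 1)‖ * ‖Z (j + 1 + (m + 1))‖ := by
  obtain ⟨Y, hY0, hY1, hY⟩ := bvp h2 hl hH m (Z (j + 1)) 0
  have hZ' : Sol (fun _ => H) (m + 1) (fun i => Z (j + 1 + i)) := by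
    intro i hi w
    exact hZ (j + 1 + i) (by omega) w
  have e1 : En (fun _ => H) (m + 1) Y (fun i => Z (j + 1 + i)) =
      H (Y 0, Y 1) (Z (j + 1), 0) + H (Y m, Y (m + 1)) (0, Z (j + 1 + (m + 1))) :=
    h1 V (fun _ => H) m Y (fun i => Z (j + 1 + i)) hY
  have e2 : En (fun _ => H) (m + 1) (fun i => Z (j + 1 + i)) Y =
      H (Z (j + 1), Z (j + 1 + 1)) (Y 0, 0) +
        H (Z (j + 1 + m), Z (j + 1 + (m + 1))) (0, Y (m + 1)) :=
    h1 V (fun _ => H) m (fun i => Z (j + 1 + i)) Y hZ'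
  have e3 : En (fun _ => H) (m + 1) Y Y =
      H (Y 0, Y 1) (Y 0, 0) + H (Y m, Y (m + 1)) (0, Y (m + 1)) :=
    h1 V (fun _ => H) m Y Y hY
  have e4 : En (fun _ => H) (j + 1) Z Z =
      H (Z 0, Z 1) (Z 0, 0) + H (Z j, Z (j + 1)) (0, Z (j + 1)) :=
    h1 V (fun _ => H) j Z Z (sol_mono (by omega) hZ)
  have e5 : H (Z j, Z (j + 1)) (0, Z (j + 1)) + H (Z (j + 1), Z (j + 2)) (Z (j + 1), 0) = 0 :=
    hZ j (by omega) (Z (j + 1))
  have e6 := en_symm hH (m + 1) Y (fun i => Z (j + 1 + i))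
  have e7 := en_first hl hH m Y
  have e8 := en_last hl hH j Z
  have e9 := hG m Y (Z (j + 1 + (m + 1))) hY hY1
  rw [hY1, hY0] at e2 e3
  rw [hY1, hY0] at e1
  rw [hZ0] at e4
  rw [pair_zero, map_zero] at e2 e3 e4
  rw [hY0] at e7 e9
  have e10 := (abs_le.1 e9).1
  have e11 : H (Z (j + 1), Z (j + 1 + 1)) (Z (j + 1), 0) =
      H (Z (j + 1), Z (j + 2)) (Z (j + 1), 0) := rfl
  linarith

/-- second part -/
theorem part2 (h1 : XGreen) (h2 : XBvp) [FiniteDimensional ℝ V] {lam s C₀ : ℝ} (hl : 0 < lam)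
    {H : Bf V} (hH : Pos lam H)
    (hG : ∀ (k : ℕ) (Y : ℕ → V) (z : V), Sol (fun _ => H) (k + 1) Y → Y (k + 1) = 0 →
      |H (Y k, 0) (0, z)| ≤ C₀ * Real.exp (-(s * k)) * ‖Y 0‖ * ‖z‖)
    (j m : ℕ) (Y : ℕ → V) (hY : Sol (fun _ => H) (j + 1 + (m + 1)) Y)
    (hY1 : Y (j + 1 + (m + 1)) = 0) :
    2 * lam * ‖Y (j + 1)‖ ^ 2 ≤
      C₀ * Real.exp (-(s * j)) * ‖Y 0‖ * ‖Y (j + 1)‖ := by
  obtain ⟨Z, hZ0, hZ1, hZ⟩ := bvp h2 hl hH j 0 (Y (j + 1))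
  obtain ⟨X, hX0, hX1, hX⟩ := bvp h2 hl hH j (Y 0) 0
  have hY' : Sol (fun _ => H) (m + 1) (fun i => Y (j + 1 + i)) := by
    intro i hi w
    exact hY (j + 1 + i) (by omega) w
  have e1 : En (fun _ => H) (j + 1) Y Z =
      H (Y 0, Y 1) (Z 0, 0) + H (Y j, Y (j + 1)) (0, Z (j + 1)) :=
    h1 V (fun _ => H) j Y Z (sol_mono (by omega) hY)
  have e2 : En (fun _ => H) (j + 1) Z Y =
      H (Z 0, Z 1) (Y 0, 0) + H (Z j, Z (j + 1)) (0, Y (j + 1)) :=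
    h1 V (fun _ => H) j Z Y hZ
  have e3 : En (fun _ => H) (j + 1) Z Z =
      H (Z 0, Z 1) (Z 0, 0) + H (Z j, Z (j + 1)) (0, Z (j + 1)) :=
    h1 V (fun _ => H) j Z Z hZ
  have e4 : En (fun _ => H) (m + 1) (fun i => Y (j + 1 + i)) (fun i => Y (j + 1 + i)) =
      H (Y (j + 1), Y (j + 1 + 1)) (Y (j + 1), 0) +
        H (Y (j + 1 + m), Y (j + 1 + (m + 1))) (0, Y (j + 1 + (m + 1))) :=
    h1 V (fun _ => H) m (fun i => Y (j + 1 + i)) (fun i => Y (j + 1 + i)) hY'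
  have e5 : H (Y j, Y (j + 1)) (0, Y (j + 1)) + H (Y (j + 1), Y (j + 2)) (Y (j + 1), 0) = 0 :=
    hY j (by omega) (Y (j + 1))
  have e6 : En (fun _ => H) (j + 1) X Z =
      H (X 0, X 1) (Z 0, 0) + H (X j, X (j + 1)) (0, Z (j + 1)) :=
    h1 V (fun _ => H) j X Z hX
  have e7 : En (fun _ => H) (j + 1) Z X =
      H (Z 0, Z 1) (X 0, 0) + H (Z j, Z (j + 1)) (0, X (j + 1)) :=
    h1 V (fun _ => H) j Z X hZ
  have e8 := en_symm hH (j + 1) Y Z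
  have e9 := en_symm hH (j + 1) X Z
  have e10 := en_last hl hH j Z
  have e11 : lam * ‖Y (j + 1)‖ ^ 2 ≤
      En (fun _ => H) (m + 1) (fun i => Y (j + 1 + i)) (fun i => Y (j + 1 + i)) :=
    en_first hl hH m (fun i => Y (j + 1 + i))
  have e12 := hG j X (Y (j + 1)) hX hX1
  rw [hZ0, hZ1, pair_zero, map_zero] at e1
  rw [hZ1, hZ0] at e2 e3 e7
  rw [pair_zero, map_zero] at e3
  rw [hY1, pair_zero, map_zero] at e4
  rw [hX1, hZ1, hZ0, pair_zero, map_zero] at e6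
  rw [hX1, hX0, pair_zero, map_zero] at e7
  rw [hZ1] at e10
  rw [hX0] at e12
  have e13 := (abs_le.1 e12).1
  have e14 : H (Y (j + 1), Y (j + 1 + 1)) (Y (j + 1), 0) =
      H (Y (j + 1), Y (j + 2)) (Y (j + 1), 0) := rfl
  linarith

/-- division by the norm -/
theorem cancel {lam C₀ E a b : ℝ} (hl : 0 < lam) (ha : 0 ≤ a) (hC : 0 ≤ C₀) (hE : 0 ≤ E)
    (hb : 0 ≤ b) (h : 2 * lam * a ^ 2 ≤ C₀ * E * a * b) : a ≤ C₀ / (2 * lam) * E * b := by
  have h0 : 0 ≤ C₀ / (2 * lam) * E * b := by positivity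
  by_cases h1 : a = 0
  · rw [h1]
    exact h0
  · have h2 : 0 < a := lt_of_le_of_ne ha (Ne.symm h1)
    have h3 : 2 * lam * a ≤ C₀ * E * b := by
      have h4 : a * (2 * lam * a) ≤ a * (C₀ * E * b) := by nlinarith
      exact le_of_mul_le_mul_left h4 h2
    have h5 : C₀ / (2 * lam) * E * b = (C₀ * E * b) / (2 * lam) := by ring
    rw [h5, le_div_iff₀ (by positivity)]
    linarith

end IXDec

open IXDec

/-- item XDec -/
theorem pr_XDec (h1 : XGreen) (h2 : XBvp) : XDec := by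
  intro V _ _ _ lam s H hl hH hGr
  obtain ⟨C', hC'⟩ := hGr
  obtain ⟨C₀, hC₀⟩ : ∃ C₀, C₀ = max C' 0 := ⟨_, rfl⟩
  have hC0 : 0 ≤ C₀ := by rw [hC₀]; exact le_max_right _ _
  have hG : ∀ (k : ℕ) (Y : ℕ → V) (z : V), Sol (fun _ => H) (k + 1) Y → Y (k + 1) = 0 →
      |H (Y k, 0) (0, z)| ≤ C₀ * Real.exp (-(s * k)) * ‖Y 0‖ * ‖z‖ := by
    intro k Y z hY hY1
    refine (hC' k Y z hY hY1).trans ?_
    have h3 : C' ≤ C₀ := by rw [hC₀]; exact le_max_left _ _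
    gcongr
  obtain ⟨C, hC⟩ : ∃ C, C = max 1 (C₀ / (2 * lam) * Real.exp s) := ⟨_, rfl⟩
  have hC1 : 1 ≤ C := by rw [hC]; exact le_max_left _ _
  have hC2 : C₀ / (2 * lam) * Real.exp s ≤ C := by rw [hC]; exact le_max_right _ _
  refine ⟨C, hC1, ?_, ?_⟩
  · intro k Z hZ hZ0 j hj
    rcases Nat.eq_zero_or_pos j with h0 | h0
    · rw [h0, hZ0, norm_zero]
      positivity
    rcases Nat.lt_or_ge j k with h3 | h3
    · obtain ⟨i, rfl⟩ : ∃ i, j = i + 1 := ⟨j - 1, by omega⟩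
      obtain ⟨m, rfl⟩ : ∃ m, k = i + 1 + (m + 1) := ⟨k - (i + 1) - 1, by omega⟩
      have h4 := part1 h1 h2 hl hH hG i m Z hZ hZ0
      have h5 := cancel hl (norm_nonneg _) hC0 (Real.exp_pos _).le (norm_nonneg _) h4
      refine h5.trans ?_
      have h6 : Real.exp (-(s * m)) =
          Real.exp s * Real.exp (-(s * (((i + 1 + (m + 1) : ℕ) : ℝ) - ((i + 1 : ℕ) : ℝ)))) := by
        rw [← Real.exp_add]
        congr 1
        push_cast
        ring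
      rw [h6, ← mul_assoc]
      gcongr
    · have h4 : j = k := by omega
      rw [h4, sub_self, mul_zero, neg_zero, Real.exp_zero, mul_one]
      exact le_mul_of_one_le_left (norm_nonneg _) hC1
  · intro k Y hY hY1 j hj
    rcases Nat.eq_zero_or_pos j with h0 | h0
    · rw [h0, Nat.cast_zero, mul_zero, neg_zero, Real.exp_zero, mul_one]
      exact le_mul_of_one_le_left (norm_nonneg _) hC1
    rcases Nat.lt_or_ge j k with h3 | h3
    · obtain ⟨i, rfl⟩ : ∃ i, j = i + 1 := ⟨j - 1, by omega⟩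
      obtain ⟨m, rfl⟩ : ∃ m, k = i + 1 + (m + 1) := ⟨k - (i + 1) - 1, by omega⟩
      have h4 := part2 h1 h2 hl hH hG i m Y hY hY1
      have h4' : 2 * lam * ‖Y (i + 1)‖ ^ 2 ≤
          C₀ * Real.exp (-(s * i)) * ‖Y (i + 1)‖ * ‖Y 0‖ := by
        refine h4.trans (le_of_eq ?_)
        ring
      have h5 := cancel hl (norm_nonneg _) hC0 (Real.exp_pos _).le (norm_nonneg _) h4'
      refine h5.trans ?_
      have h6 : Real.exp (-(s * i)) = Real.exp s * Real.exp (-(s * ((i + 1 : ℕ) : ℝ))) := by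
        rw [← Real.exp_add]
        congr 1
        push_cast
        ring
      rw [h6, ← mul_assoc]
      gcongr
    · have h4 : j = k := by omega
      rw [h4, hY1, norm_zero]
      positivity

end Pool.Agent.LX
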