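import Pool.Agent.Work.MP_25cd3b_gt.LX.StmtsA

set_option autoImplicit false
set_option maxSynthPendingDepth 3

/-!
# MP_25cd3b_gt, block LX, item YExc: the excess of a broken chain
-/

open Set Filter Topology
open scoped ContDiff

namespace Pool.Agent.LX

namespace IYExc

variable {V : Type} [NormedAddCommGroup V] [NormedSpace ℝ V]

/-- Taylor's formula with the second derivative bounded by `‖L2 0‖ + K r` -/
theorem taylor {lam K r : ℝ} {L : V × V → ℝ} {L1 : V × V → V × V →L[ℝ] ℝ} {L2 : V × V → Bf V}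
    (h : Ch lam K r L L1 L2) (p q : V × V) (hp : ‖p‖ < r) (hq : ‖q‖ < r) :
    L q - L p - L1 p (q - p) ≤ (‖L2 0‖ + K * r) * ‖q - p‖ ^ 2 := by
  have hpb : p ∈ Metric.ball (0 : V × V) r := mem_ball_zero_iff.2 hp
  have hqb : q ∈ Metric.ball (0 : V × V) r := mem_ball_zero_iff.2 hq
  have hball : ∀ x ∈ segment ℝ p q, ‖x‖ < r := by
    intro x hx
    exact mem_ball_zero_iff.1 ((convex_ball (0 : V × V) r).segment_subset hpb hqb hx)
  have hL2 : ∀ x, ‖x‖ < r → ‖L2 x‖ ≤ ‖L2 0‖ + K * r := by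
    intro x hx
    have h1 := h.lip x hx
    have h2 : ‖L2 x‖ ≤ ‖L2 0‖ + ‖L2 x - L2 0‖ := by
      have h4 := norm_add_le (L2 0) (L2 x - L2 0)
      rwa [add_sub_cancel] at h4
    have h3 : K * ‖x‖ ≤ K * r := mul_le_mul_of_nonneg_left hx.le h.K_nn
    linarith
  have hΛ : 0 ≤ ‖L2 0‖ + K * r := add_nonneg (norm_nonneg _) (mul_nonneg h.K_nn h.r_pos.le)
  have hlip : ∀ x ∈ segment ℝ p q, ‖L1 x - L1 p‖ ≤ (‖L2 0‖ + K * r) * ‖q - p‖ := by
    intro x hx
    have h1 := (convex_ball (0 : V × V) r).norm_image_sub_le_of_norm_hasFDerivWithin_le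
      (f := L1) (f' := L2) (C := ‖L2 0‖ + K * r)
      (fun y hy => (h.d2 y (mem_ball_zero_iff.1 hy)).hasFDerivWithinAt)
      (fun y hy => hL2 y (mem_ball_zero_iff.1 hy)) hpb (mem_ball_zero_iff.2 (hball x hx))
    have h2 : ‖x - p‖ ≤ ‖q - p‖ := by
      exact norm_sub_le_of_mem_segment hx
    exact h1.trans (mul_le_mul_of_nonneg_left h2 hΛ)
  have h5 := (convex_segment p q).norm_image_sub_le_of_norm_hasFDerivWithin_le' (f := L)
    (f' := L1) (φ := L1 p) (C := (‖L2 0‖ + K * r) * ‖q - p‖)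
    (fun y hy => (h.d1 y (hball y hy)).hasFDerivWithinAt) hlip (left_mem_segment ℝ p q)
    (right_mem_segment ℝ p q)
  rw [Real.norm_eq_abs] at h5
  have h6 := (le_abs_self _).trans h5
  rw [sq, ← mul_assoc]
  exact h6

/-- the excess at one point -/
theorem exc {lam K r : ℝ} {L : V × V → ℝ} {L1 : V × V → V × V →L[ℝ] ℝ} {L2 : V × V → Bf V}
    (h : Ch lam K r L L1 L2) (a b v w : V) (ha : ‖a‖ < r) (hb : ‖b‖ < r) (hv : ‖v‖ < r)
    (hw : ‖w‖ < r) (hcr : ∀ x : V, L1 (a, v) (0, x) + L1 (v, b) (x, 0) = 0) :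
    L (a, w) + L (w, b) - L (a, v) - L (v, b) ≤ 2 * (‖L2 0‖ + K * r) * ‖w - v‖ ^ 2 := by
  have hn : ∀ x y : V, ‖x‖ < r → ‖y‖ < r → ‖((x, y) : V × V)‖ < r := by
    intro x y hx hy
    rw [Prod.norm_mk]
    exact max_lt hx hy
  have h1 := taylor h (a, v) (a, w) (hn _ _ ha hv) (hn _ _ ha hw)
  have h2 := taylor h (v, b) (w, b) (hn _ _ hv hb) (hn _ _ hw hb)
  have e1 : ((a, w) : V × V) - (a, v) = (0, w - v) := by
    rw [Prod.mk_sub_mk, sub_self]
  have e2 : ((w, b) : V × V) - (v, b) = (w - v, 0) := by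
    rw [Prod.mk_sub_mk, sub_self]
  have n1 : ‖((0, w - v) : V × V)‖ = ‖w - v‖ := by
    rw [Prod.norm_mk, norm_zero]
    exact max_eq_right (norm_nonneg _)
  have n2 : ‖((w - v, 0) : V × V)‖ = ‖w - v‖ := by
    rw [Prod.norm_mk, norm_zero]
    exact max_eq_left (norm_nonneg _)
  rw [e1, n1] at h1
  rw [e2, n2] at h2
  have h3 := hcr (w - v)
  linarith

end IYExc

open IYExc in
/-- [YExc]: the excess of a broken chain -/
theorem pr_YExc (h1 : YTri) (h2 : YEL) : YExc := by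
  intro V _ _ lam K r L L1 L2 D hG
  have hr := hG.ch.r_pos
  have hΛ : 0 ≤ ‖L2 0‖ + K * r := add_nonneg (norm_nonneg _) (mul_nonneg hG.ch.K_nn hr.le)
  refine ⟨2 * (‖L2 0‖ + K * r) + 1, r / 2, by linarith, by linarith, ?_⟩
  intro k u hk hu hT w hw
  obtain ⟨m, rfl⟩ : ∃ m, k = m + 2 := ⟨k - 2, by omega⟩
  have hur : ∀ j, j ≤ m + 2 → ‖u j‖ < r := fun j hj => by
    have := hu j hj
    linarith
  have hwr : ‖w‖ < r := by linarith
  have hEL := h2 V lam K r L L1 L2 D hG (m + 2) (by omega) u hur hT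
  have hTe : D (m + 2) (u 0) (u (m + 2)) = ∑ j ∈ Finset.range (m + 2), L (u j, u (j + 1)) := hT
  have hm1 : m + 2 - 1 = m + 1 := rfl
  rw [hm1]
  have hsq : ∀ x : V, 2 * (‖L2 0‖ + K * r) * ‖x‖ ^ 2 ≤
      (2 * (‖L2 0‖ + K * r) + 1) * ‖x‖ ^ 2 := by
    intro x
    have := sq_nonneg ‖x‖
    nlinarith
  constructor
  · -- the chain `w, u 2, ..., u k`
    obtain ⟨y, hy⟩ : ∃ y : ℕ → V, y = fun i => if i = 0 then w else u (i + 1) := ⟨_, rfl⟩
    have hy0 : y 0 = w := by rw [hy]; simp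
    have hy1 : ∀ i, y (i + 1) = u (i + 2) := fun i => by rw [hy]; simp
    have h3 := (h1 V lam K r L L1 L2 D hG (m + 1) (by omega) y).1
    rw [hy0, hy1 m, Finset.sum_range_succ', hy0, zero_add, hy1 0] at h3
    have e1 : ∑ j ∈ Finset.range m, L (y (j + 1), y (j + 1 + 1)) =
        ∑ j ∈ Finset.range m, L (u (j + 2), u (j + 3)) :=
      Finset.sum_congr rfl fun j _ => by rw [hy1 j, hy1 (j + 1)]
    rw [e1] at h3
    rw [Finset.sum_range_succ', Finset.sum_range_succ'] at hTe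
    have h4 := exc hG.ch (u 0) (u 2) (u 1) w (hur 0 (by omega)) (hur 2 (by omega))
      (hur 1 (by omega)) hwr (hEL 0 (by omega))
    have h5 := hsq (w - u 1)
    have h6 : D (m + 2) (u 0) (u (m + 2)) = ∑ j ∈ Finset.range m, L (u (j + 2), u (j + 3)) +
        L (u 1, u 2) + L (u 0, u 1) := hTe
    have h7 : D (m + 1) w (u (m + 2)) ≤ ∑ j ∈ Finset.range m, L (u (j + 2), u (j + 3)) +
        L (w, u 2) := h3
    linarith
  · -- the chain `u 0, ..., u (k - 2), w`
    obtain ⟨y, hy⟩ : ∃ y : ℕ → V, y = fun i => if i = m + 1 then w else u i := ⟨_, rfl⟩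
    have hyl : y (m + 1) = w := by rw [hy]; simp
    have hyi : ∀ i, i ≤ m → y i = u i := fun i hi => by
      rw [hy]
      exact if_neg (by omega)
    have h3 := (h1 V lam K r L L1 L2 D hG (m + 1) (by omega) y).1
    rw [hyl, hyi 0 (by omega), Finset.sum_range_succ, hyl, hyi m le_rfl] at h3
    have e1 : ∑ j ∈ Finset.range m, L (y j, y (j + 1)) =
        ∑ j ∈ Finset.range m, L (u j, u (j + 1)) :=
      Finset.sum_congr rfl fun j hj => by
        have hj' := Finset.mem_range.1 hj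
        rw [hyi j (by omega), hyi (j + 1) (by omega)]
    rw [e1] at h3
    rw [Finset.sum_range_succ, Finset.sum_range_succ] at hTe
    have h4 := exc hG.ch (u m) (u (m + 2)) (u (m + 1)) w (hur m (by omega))
      (hur (m + 2) (by omega)) (hur (m + 1) (by omega)) hwr (hEL m (by omega))
    have h5 := hsq (w - u (m + 1))
    have h6 : D (m + 2) (u 0) (u (m + 2)) = ∑ j ∈ Finset.range m, L (u j, u (j + 1)) +
        L (u m, u (m + 1)) + L (u (m + 1), u (m + 2)) := hTe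
    linarith

end Pool.Agent.LX
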