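import Pool.Agent.Work.MP_25cd3b_gt.LX.DefsA

set_option autoImplicit false

/-!
# MP_25cd3b_gt, block LX: part A (chains), statements with complete proofs

Pure analysis, no geometry.  Every earlier statement may be used as a hypothesis `(h : X...)`.
`K`, `lam`, ... are real numbers; the norm of `V × V` is the maximum norm.
-/

open Set Filter Topology
open scoped ContDiff

namespace Pool.Agent.LX

/-! ### linear chains -/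

/-- Green's formula.  Split `H j (Y j, Y (j+1)) (W j, W (j+1)) = H j (..) (W j, 0) + H j (..) (0, W (j+1))`
and use `Sol` at the points `1, ..., k` (for instance by induction on `k`, with `Finset.sum_range_succ`). -/
def XGreen : Prop := ∀ (V : Type) [NormedAddCommGroup V] [NormedSpace ℝ V] (H : ℕ → Bf V) (k : ℕ)
  (Y W : ℕ → V), Sol H (k + 1) Y →
  En H (k + 1) Y W = H 0 (Y 0, Y 1) (W 0, 0) + H k (Y k, Y (k + 1)) (0, W (k + 1))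

/-- Boundary value problem with sources.  Let `S` be the (finite dimensional) space of the functions
`v : Fin k → V` (values at the points `1, ..., k`), extended by `0` to a chain `Y_v`.  The linear map
`T : S → (Fin k → V →L[ℝ] ℝ)` which sends `v` to the left sides of the equations for `Y_v` is injective:
if `T v = 0` then `Y_v` is a solution with `Y 0 = Y (k+1) = 0`, so by `XGreen` `En H (k+1) Y Y = 0`, and
each term is `≥ lam (‖Y j‖^2 + ‖Y (j+1)‖^2)`.  The dimensions agree, so `T` is surjective.  Take any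
chain with the right boundary values and correct it by `Y_v`. -/
def XBvp : Prop := ∀ (V : Type) [NormedAddCommGroup V] [NormedSpace ℝ V] [FiniteDimensional ℝ V]
  (lam : ℝ), 0 < lam → ∀ H : ℕ → Bf V, (∀ j, Pos lam (H j)) → ∀ (k : ℕ) (x z : V)
  (f : ℕ → V →L[ℝ] ℝ), ∃ Y : ℕ → V, Y 0 = x ∧ Y (k + 1) = z ∧ ∀ j, j + 1 < k + 1 → ∀ w : V,
    H j (Y j, Y (j + 1)) (0, w) + H (j + 1) (Y (j + 1), Y (j + 2)) (w, 0) = f (j + 1) w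

/-- Decay of solutions of the constant chain (uses `XGreen`, `XBvp`).  Let `C₀` be the constant of `Gr`.
FIRST PART, `1 ≤ j < k` (`j = 0` and `j = k` are clear if `C ≥ 1`).  Let `k - j = m + 1`,
`Z' i = Z (j + i)` (a solution on `[0, m+1]`), and `Y` the solution on `[0, m+1]` with `Y 0 = Z j`,
`Y (m+1) = 0` (`XBvp` with `f = 0`).  `E = En (m+1) Y Z'`.  `XGreen` for `Y`:
`E = H(Y 0, Y 1)(Z j, 0) + H(Y m, 0)(0, Z k)`; `XGreen` for `Z'` and symmetry: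
`E = H(Z j, Z (j+1))(Z j, 0)`.  By `Sol` at `j` this is `- H(Z (j-1), Z j)(0, Z j) = - En j Z Z`
(`XGreen` on `[0, j]`, `Z 0 = 0`) `≤ - lam ‖Z j‖^2` (last link).  And `H(Y 0, Y 1)(Z j, 0) =
En (m+1) Y Y ≥ lam ‖Z j‖^2` (first link, `XGreen`, `Y (m+1) = 0`).  So
`2 lam ‖Z j‖^2 ≤ - H(Y m, 0)(0, Z k) ≤ C₀ exp(-s m) ‖Z j‖ ‖Z k‖`, `m = k - j - 1`.
SECOND PART, `1 ≤ j < k`: let `Z` be the solution on `[0, j]` with `Z 0 = 0`, `Z j = Y j`.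
`En j Y Z` by `XGreen` for `Y`: `H(Y (j-1), Y j)(0, Y j)`; for `Z`: `H(0, Z 1)(Y 0, 0) +
H(Z (j-1), Z j)(0, Z j)`.  `H(Z (j-1), Z j)(0, Z j) = En j Z Z ≥ lam ‖Y j‖^2`;
`H(Y (j-1), Y j)(0, Y j) = - H(Y j, Y (j+1))(Y j, 0) = - En (k-j) Y' Y' ≤ - lam ‖Y j‖^2`, `Y' i = Y (j+i)`.
So `H(0, Z 1)(Y 0, 0) ≤ - 2 lam ‖Y j‖^2`.  Finally for the solution `Y''` on `[0, j]` with
`Y'' 0 = Y 0`, `Y'' j = 0`: `XGreen` twice for `En j Y'' Z` gives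
`H(0, Z 1)(Y 0, 0) = H(Y'' (j-1), 0)(0, Z j)`, whose absolute value is at most
`C₀ exp(-s (j-1)) ‖Y 0‖ ‖Y j‖`. -/
def XDec : Prop := ∀ (V : Type) [NormedAddCommGroup V] [NormedSpace ℝ V] [FiniteDimensional ℝ V]
  (lam s : ℝ) (H : Bf V), 0 < lam → Pos lam H → Gr H s → ∃ C : ℝ, 1 ≤ C ∧
  (∀ (k : ℕ) (Z : ℕ → V), Sol (fun _ => H) k Z → Z 0 = 0 → ∀ j ≤ k,
    ‖Z j‖ ≤ C * Real.exp (-(s * ((k : ℝ) - j))) * ‖Z k‖) ∧
  (∀ (k : ℕ) (Y : ℕ → V), Sol (fun _ => H) k Y → Y k = 0 → ∀ j ≤ k,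
    ‖Y j‖ ≤ C * Real.exp (-(s * j)) * ‖Y 0‖)

/-- A positive rate (uses `XGreen`).  Let `Y` be a solution on `[0, k+1]`, `Y (k+1) = 0`, and
`e j = ∑_{j ≤ i ≤ k} H(Y i, Y (i+1))(Y i, Y (i+1))`, so `e j = H(Y j, Y (j+1))(Y j, 0)` (`XGreen` for the
shifted chain) and `lam (‖Y j‖^2 + ‖Y (j+1)‖^2) ≤ e j - e (j+1)`.  For `j ≥ 1` by `Sol`
`e j = - H(Y (j-1), Y j)(0, Y j) ≤ ‖H‖ (‖Y (j-1)‖^2 + ‖Y j‖^2) ≤ (‖H‖/lam) (e (j-1) - e j)`, so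
`e j ≤ q e (j-1)` with `q = ‖H‖/(‖H‖ + lam) < 1` (if `‖H‖ = 0` then all `Y j = 0`).  And
`e 0 = H(Y 0, Y 1)(Y 0, 0) ≤ ‖H‖ (‖Y 0‖ + ‖Y 1‖) ‖Y 0‖`, `‖Y 1‖^2 ≤ e 0 / lam`, so `e 0 ≤ C ‖Y 0‖^2`.
Hence `lam ‖Y k‖^2 ≤ e k ≤ C q^k ‖Y 0‖^2`, `s = - (log q) / 2`. (Take `q` replaced by `max q (1/2)` to
have `q > 0`.) -/
def XPosR : Prop := ∀ (V : Type) [NormedAddCommGroup V] [NormedSpace ℝ V] (lam : ℝ) (H : Bf V),
  0 < lam → Pos lam H → ∃ s : ℝ, 0 < s ∧ Gr H s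

/-- Perturbation (uses `XGreen`, `XBvp`, `XDec`).  `C` denotes constants which depend on `H, s, s'`.
(1) Green chains: for `0 < j < k` and a functional `f` of norm `≤ 1` there is `G` with `G 0 = G k = 0`,
which satisfies the equations of `H` with the source `f` at `j` only (`XBvp`).  On `[0, j]` and (shifted)
on `[j, k]` it is a solution, so by `XGreen` (twice) `∑_{i<k} H(G i, G (i+1))(W i, W (i+1)) = f (W j)` for
every `W` with `W 0 = W k = 0` (*), with `W = G`: `2 lam ‖G j‖^2 ≤ f (G j)`, so `‖G j‖ ≤ 1/lam`, and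
by `XDec` on both sides `‖G i‖ ≤ C exp(-s |i - j|)` for all `i ≤ k`.
(2) Let `Z` be a solution for `H'`, `W` the solution for `H` with the same boundary values; `W` is the
sum of solutions vanishing at `0` and at `k` (`XBvp`, uniqueness by `XDec`), so
`‖W j‖ ≤ C ω j`, `ω j = exp(-s' j) ‖Z 0‖ + exp(-s' (k-j)) ‖Z k‖`.  For `0 < j < k` and `f` as in (1),
`U = Z - W` (which vanishes at `0`, `k`): by (*) `f (Z j - W j) = ∑ H(G)(U) = ∑ H(G)(Z) - ∑ H(G)(W)`,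
`∑ H(G)(W) = ∑ H(W)(G) = 0` (`XGreen` for `W`), and `∑ H' j (Z j, ..)(G j, ..) = 0` (`XGreen` for `Z`,
any `H'`), so `f (Z j - W j) = ∑_i (H - H' i)(Z i, Z (i+1))(G i, G (i+1))` and (choose `f` with
`f (Z j - W j) = ‖Z j - W j‖`) `‖Z j - W j‖ ≤ ρ C ∑_{i ≤ k} exp(-s |i - j|) ‖Z i‖`.
(3) Since `0 < s' < s`: `∑_i exp(-s |i-j|) ω i ≤ C ω j`.  Let `ε > 0` and let `m` be the maximum over
`j ≤ k` of `‖Z j‖ / (ω j + ε)`; then `‖Z j‖ ≤ C ω j + ρ C m (C ω j + C ε)`, so `m ≤ C + ρ C' m` and for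
`ρ C' ≤ 1/2` we get `m ≤ 2 C`; let `ε → 0`. -/
def XPer : Prop := ∀ (V : Type) [NormedAddCommGroup V] [NormedSpace ℝ V] [FiniteDimensional ℝ V]
  (lam s s' : ℝ) (H : Bf V), 0 < lam → Pos lam H → Gr H s → 0 < s' → s' < s →
  ∃ ρ C : ℝ, 0 < ρ ∧ 1 ≤ C ∧ ∀ (k : ℕ) (H' : ℕ → Bf V), (∀ j, j < k → ‖H' j - H‖ ≤ ρ) →
  ∀ Z : ℕ → V, Sol H' k Z → ∀ j ≤ k,
    ‖Z j‖ ≤ C * (Real.exp (-(s' * j)) * ‖Z 0‖ + Real.exp (-(s' * ((k : ℝ) - j))) * ‖Z k‖)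

/-- Comparison of the mixed boundary forms (uses `XGreen`, `XBvp`, `XDec`, `XPer`).  Let `Z` be the
solution for `H` on `[0, k+1]` with `Z 0 = 0`, `Z (k+1) = z`.  `∑ H' j (Y' j, ..)(Z j, ..) =
H' k (Y' k, 0)(0, z)` (`XGreen` for `Y'`).  `∑ H(Y')(Z) = ∑ H(Z)(Y') = H(0, Z 1)(Y' 0, 0)` (`XGreen` for
`Z`), and this is `H(Y k, 0)(0, z)` (`XGreen` twice for `∑ H(Y)(Z)`, `Y 0 = Y' 0`).  So the difference
is `∑_{j ≤ k} (H' j - H)(Y' j, Y' (j+1))(Z j, Z (j+1))`, and `‖Y' j‖ ≤ C exp(-s' j) ‖Y 0‖` (`XPer`),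
`‖Z j‖ ≤ C exp(-s' (k + 1 - j)) ‖z‖` (`XDec`, `s' < s`). -/
def XCmp : Prop := ∀ (V : Type) [NormedAddCommGroup V] [NormedSpace ℝ V] [FiniteDimensional ℝ V]
  (lam s s' : ℝ) (H : Bf V), 0 < lam → Pos lam H → Gr H s → 0 < s' → s' < s →
  ∃ ρ C : ℝ, 0 < ρ ∧ 1 ≤ C ∧ ∀ (k : ℕ) (H' : ℕ → Bf V) (θ : ℝ), 0 ≤ θ → θ ≤ ρ →
  (∀ j, j ≤ k → ‖H' j - H‖ ≤ θ) → ∀ Y' Y : ℕ → V, Sol H' (k + 1) Y' → Sol (fun _ => H) (k + 1) Y →
  Y' (k + 1) = 0 → Y (k + 1) = 0 → Y' 0 = Y 0 → ∀ z : V,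
  |H' k (Y' k, 0) (0, z) - H (Y k, 0) (0, z)| ≤
    C * θ * (k + 1) * Real.exp (-(s' * k)) * ‖Y 0‖ * ‖z‖

/-- Large values occur for large `k` (uses `XPosR`, `XDec`).  Otherwise (scaling `Y` and `z`)
`|H(Y k, 0)(0, z)| ≤ N exp(-t k) ‖Y 0‖ ‖z‖` for all `k ≥ k₀` (if `Y 0 = 0` or `z = 0` the left side is
`0`: `Y = 0` by `XDec`), and for `k < k₀` it is at most `‖H‖ ‖Y k‖ ‖z‖ ≤ C ‖Y 0‖ ‖z‖` (`XPosR`,
`XDec`); so `Gr H t` holds (with a large constant). -/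
def XUnb : Prop := ∀ (V : Type) [NormedAddCommGroup V] [NormedSpace ℝ V] [FiniteDimensional ℝ V]
  (lam t : ℝ) (H : Bf V), 0 < lam → Pos lam H → ¬ Gr H t → ∀ (N : ℝ) (k₀ : ℕ), ∃ k ≥ k₀,
  ∃ (Y : ℕ → V) (z : V), Sol (fun _ => H) (k + 1) Y ∧ Y (k + 1) = 0 ∧ ‖Y 0‖ ≤ 1 ∧ ‖z‖ ≤ 1 ∧
    N * Real.exp (-(t * k)) < |H (Y k, 0) (0, z)|

/-- A slow solution (uses `XGreen`, `XBvp`, `XUnb`, `XDec`).  Let `b k` be the supremum of
`|H(Y k, 0)(0, z)|` over the solutions `Y` on `[0, k+1]` with `Y (k+1) = 0`, `‖Y 0‖ ≤ 1`, and `‖z‖ ≤ 1`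
(finite by `XPosR`, `XDec`).  By `XUnb` (with `t = s`) `b k exp(s' k)` is unbounded, so for infinitely
many `k` (records) `b m exp(s' m) ≤ b k exp(s' k)` for all `m ≤ k`, `b k > 0`.  For such `k` choose
`Y, z` (unit vectors) with `|H(Y k, 0)(0, z)| ≥ b k / 2` and let `Z` be the solution on `[0, k+1]` with
`Z 0 = 0`, `Z (k+1) = z`; `H(Y k, 0)(0, z) = H(0, Z 1)(Y 0, 0)` (`XGreen` twice, symmetry), so
`‖Z 1‖ ≥ b k / (2 ‖H‖)`.  By the proof of the first part of `XDec` (the estimate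
`2 lam ‖Z j‖^2 ≤ |H(Y' m, 0)(0, z)| ≤ b m ‖Z j‖ ‖z‖`, `m = k - j`, `Y'` the solution on `[0, m+1]` with
`Y' 0 = Z j`, `Y' (m+1) = 0`) `‖Z j‖ ≤ b (k - j) / (2 lam) ≤ b k exp(s' j) / (2 lam)` for `1 ≤ j ≤ k`.
So `Z / ‖Z 1‖` has norm one at `1` and is bounded by `C exp(s' j)` at `j ≤ k`.  By compactness (closed
balls of `V` are compact; diagonal sequence or Tychonoff in `ℕ → V`) a subsequence converges pointwise
to the solution we want. -/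
def XRec : Prop := ∀ (V : Type) [NormedAddCommGroup V] [NormedSpace ℝ V] [FiniteDimensional ℝ V]
  (lam s s' : ℝ) (H : Bf V), 0 < lam → Pos lam H → ¬ Gr H s → s < s' →
  ∃ (Z : ℕ → V) (C : ℝ), Z 0 = 0 ∧ Z 1 ≠ 0 ∧ (∀ k, Sol (fun _ => H) k Z) ∧
    ∀ j : ℕ, ‖Z j‖ ≤ C * Real.exp (s' * j)

/-! ### nonlinear chains -/

/-- Chains and triangle inequality.  First part: induction on `k` with `tri` and `one`.  Second part:
if `D k (u 0) (u k)` is the sum, then `sum ≤ D j (u 0) (u j) + D (k-j) (u j) (u k) ≤ sum`. -/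
def YTri : Prop := ∀ (V : Type) [NormedAddCommGroup V] [NormedSpace ℝ V] (lam K r : ℝ)
  (L : V × V → ℝ) (L1 : V × V → V × V →L[ℝ] ℝ) (L2 : V × V → Bf V) (D : ℕ → V → V → ℝ),
  Gen lam K r L L1 L2 D → ∀ k, 1 ≤ k → ∀ u : ℕ → V,
  D k (u 0) (u k) ≤ ∑ j ∈ Finset.range k, L (u j, u (j + 1)) ∧
  (Tight L D k u → ∀ j, 1 ≤ j → j < k → Tight L D j u ∧ Tight L D (k - j) (fun i => u (j + i)))

/-- Chains which realise the minimum satisfy the chain equation (uses `YTri`).  For `j + 1 < k` and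
`w` near `u (j+1)` replace `u (j+1)` by `w` in the chain: by the first part of `YTri` the function
`w ↦ L(u j, w) + L(w, u (j+2))` has a local minimum at `u (j+1)`; it is differentiable there (`d1`,
the norms are `< r`), so its derivative vanishes. -/
def YEL : Prop := ∀ (V : Type) [NormedAddCommGroup V] [NormedSpace ℝ V] (lam K r : ℝ)
  (L : V × V → ℝ) (L1 : V × V → V × V →L[ℝ] ℝ) (L2 : V × V → Bf V) (D : ℕ → V → V → ℝ),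
  Gen lam K r L L1 L2 D → ∀ k, 1 ≤ k → ∀ u : ℕ → V, (∀ j, j ≤ k → ‖u j‖ < r) → Tight L D k u →
  EL L1 k u

/-- Differences of chains.  Let `p = (u j, u (j+1))`, `p' = (u' j, u' (j+1))`, `δ = p' - p`.  On the
segment from `p` to `p'` (norms `≤ ρ < r`) `‖L2 q - L2 0‖ ≤ K ρ`, so by the mean value inequality for
`q ↦ L1 q - L2 0 q` the error `e = L1 p' - L1 p - L2 0 δ` satisfies `‖e‖ ≤ K ρ ‖δ‖`.  Let `ψ` be a
functional on `V × V` of norm `≤ 1` with `ψ δ = ‖δ‖` (`exists_dual_vector''`), and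
`H' j q = L2 0 q + (ψ q / ‖δ‖) e` (`H' j = L2 0` if `δ = 0`).  Then `H' j δ = L1 p' - L1 p`; subtract
the two chain equations. -/
def YDif : Prop := ∀ (V : Type) [NormedAddCommGroup V] [NormedSpace ℝ V] (lam K r : ℝ)
  (L : V × V → ℝ) (L1 : V × V → V × V →L[ℝ] ℝ) (L2 : V × V → Bf V), Ch lam K r L L1 L2 →
  ∀ (k : ℕ) (u u' : ℕ → V) (ρ : ℝ), ρ < r → (∀ j, j ≤ k → ‖u j‖ ≤ ρ) →
  (∀ j, j ≤ k → ‖u' j‖ ≤ ρ) → EL L1 k u → EL L1 k u' → ∃ H' : ℕ → Bf V,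
  (∀ j, j < k → ‖H' j - L2 0‖ ≤ K * ρ) ∧ Sol H' k (fun j => u' j - u j) ∧
  ∀ j, j < k → ∀ p : V × V, L1 (u' j, u' (j + 1)) p - L1 (u j, u (j + 1)) p =
    H' j (u' j - u j, u' (j + 1) - u (j + 1)) p

/-- The mixed second difference is the mixed boundary form of a linear chain (uses `YTri`, `YEL`,
`YDif`).  Let `C₁, ρ₁` be from `Gen.ex`, `ρ ≤ ρ₁`, `C₁ ρ < r` (and `ρ < r`).  Derivative of `D (m+1) x`
at `z'`, `‖z'‖ ≤ ρ`: let `u` be the chain of `Gen.ex`; for all `w`, `D (m+1) x w ≤ D m x (u m) +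
L(u m, w)` (`tri`; for `m = 0` `D 1 = L`, `u 0 = x`), with equality at `w = z'` (`Tight`, `YTri`); both sides
are differentiable at `z'` (`diffr`, `d1`), so the derivatives agree: `L1(u m, z')(0, ·)`.  Let
`f t = D (m+1) x (t z) - D (m+1) 0 (t z)`, `t ∈ [0, 1]`; `f 1 - f 0` is the left side
(`D (m+1) 0 0 = 0`), and by the mean value theorem it is `f' t = L1(u' m, t z)(0, z) - L1(u m, t z)(0, z)`
for some `t ∈ (0, 1)`, `u'`, `u` the chains from `x` and from `0` to `t z`.  Their entries are at most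
`C₁ max ‖x‖ ‖z‖`; take `H'` from `YDif` and `Y j = u' j - u j`. -/
def YM : Prop := ∀ (V : Type) [NormedAddCommGroup V] [NormedSpace ℝ V] (lam K r : ℝ)
  (L : V × V → ℝ) (L1 : V × V → V × V →L[ℝ] ℝ) (L2 : V × V → Bf V) (D : ℕ → V → V → ℝ),
  Gen lam K r L L1 L2 D → ∃ C ρ : ℝ, 0 ≤ C ∧ 0 < ρ ∧ ∀ (m : ℕ) (x z : V), ‖x‖ ≤ ρ → ‖z‖ ≤ ρ →
  ∃ (H' : ℕ → Bf V) (Y : ℕ → V), (∀ j, j ≤ m → ‖H' j - L2 0‖ ≤ C * max ‖x‖ ‖z‖) ∧
    Sol H' (m + 1) Y ∧ Y 0 = x ∧ Y (m + 1) = 0 ∧ Mx D (m + 1) x z = H' m (Y m, 0) (0, z)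

/-- Upper bound (uses `YM`, `XPer`).  For small `ρ` the forms `H'` of `YM` are in the range of `XPer`
(with `H = L2 0`), so `‖Y m‖ ≤ C exp(-s' m) ‖x‖` and
`|H' m (Y m, 0)(0, z)| ≤ (‖L2 0‖ + 1) ‖Y m‖ ‖z‖`, `k = m + 1`. -/
def YUp : Prop := ∀ (V : Type) [NormedAddCommGroup V] [NormedSpace ℝ V] [FiniteDimensional ℝ V]
  (lam K r : ℝ) (L : V × V → ℝ) (L1 : V × V → V × V →L[ℝ] ℝ) (L2 : V × V → Bf V)
  (D : ℕ → V → V → ℝ), Gen lam K r L L1 L2 D → ∀ s s' : ℝ, Gr (L2 0) s → 0 < s' → s' < s →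
  ∃ C ρ : ℝ, 0 < C ∧ 0 < ρ ∧ ∀ k : ℕ, 1 ≤ k → ∀ x z : V, ‖x‖ ≤ ρ → ‖z‖ ≤ ρ →
    |Mx D k x z| ≤ C * Real.exp (-(s' * k))

/-- Lower bound (uses `YM`, `XCmp`, `XUnb`).  `C` denotes constants independent of `m`.  `t > s > 0`
(`Gr` is monotone in the rate).  Take `Y, z` from `XUnb` for `k = m ≥ k₀` large and a large `N`, put
`θ = exp(-η (m+1))`, `x = θ Y 0`, `z' = θ z`.  `YM` gives `H', Y'` with `‖H' j - L2 0‖ ≤ C θ`; `XCmp` for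
`Y'` and `θ Y` gives `|Mx D (m+1) x z' - θ^2 L2 0 (Y m, 0)(0, z)| ≤ C θ (m+1) exp(-s' m) θ^2`, and
`θ (m+1) exp(-s' m) ≤ exp(-t m)` for `m` large because `η + s' > t`.  So
`|Mx| ≥ θ^2 (N - C) exp(-t m) ≥ exp(-2 η (m+1)) exp(-t (m+1))` if `N ≥ C + 1`; `k = m + 1`. -/
def YInf : Prop := ∀ (V : Type) [NormedAddCommGroup V] [NormedSpace ℝ V] [FiniteDimensional ℝ V]
  (lam K r : ℝ) (L : V × V → ℝ) (L1 : V × V → V × V →L[ℝ] ℝ) (L2 : V × V → Bf V)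
  (D : ℕ → V → V → ℝ), Gen lam K r L L1 L2 D → ∀ s s' t η : ℝ, Gr (L2 0) s → ¬ Gr (L2 0) t →
  0 < s' → s' < s → 0 < η → t - s' < η → ∀ k₀ : ℕ, ∃ k ≥ k₀, ∃ x z : V,
    ‖x‖ ≤ Real.exp (-(η * k)) ∧ ‖z‖ ≤ Real.exp (-(η * k)) ∧
    Real.exp (-((t + 2 * η) * k)) ≤ |Mx D k x z|

/-- Chains with a common end (uses `YDif`, `XPer`).  `δ j = u' j - u j` is a solution of a linear chain
close to `L2 0` and `‖δ k‖ ≤ 2 ρ` (or `‖δ 0‖ ≤ 2 ρ`), so `XPer` gives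
`‖δ 1‖ ≤ C exp(-s' (k-1)) 2 ρ` if `δ 0 = 0`, and `‖δ (k-1)‖ ≤ C exp(-s' (k-1)) 2 ρ` if `δ k = 0`. -/
def YAng : Prop := ∀ (V : Type) [NormedAddCommGroup V] [NormedSpace ℝ V] [FiniteDimensional ℝ V]
  (lam K r : ℝ) (L : V × V → ℝ) (L1 : V × V → V × V →L[ℝ] ℝ) (L2 : V × V → Bf V),
  Ch lam K r L L1 L2 → ∀ s s' : ℝ, Gr (L2 0) s → 0 < s' → s' < s →
  ∃ C ρ : ℝ, 0 < C ∧ 0 < ρ ∧ ρ < r ∧ ∀ (k : ℕ) (u u' : ℕ → V), 1 ≤ k →
  (∀ j, j ≤ k → ‖u j‖ ≤ ρ) → (∀ j, j ≤ k → ‖u' j‖ ≤ ρ) → EL L1 k u → EL L1 k u' →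
  (u 0 = u' 0 → ‖u 1 - u' 1‖ ≤ C * Real.exp (-(s' * k))) ∧
  (u k = u' k → ‖u (k - 1) - u' (k - 1)‖ ≤ C * Real.exp (-(s' * k)))

/-- Excess (uses `YTri`, `YEL`).  First inequality: by `YTri` (chain `w, u 2, ..., u k`)
`L(u 0, w) + D (k-1) w (u k) ≤ F w + ∑_{2 ≤ j < k} L(u j, u (j+1))`, `F w = L(u 0, w) + L(w, u 2)`, with
equality at `w = u 1` (there the left side is `D k (u 0) (u k)`).  `F` is differentiable near the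
segment from `u 1` to `w`, its derivative is Lipschitz there (`L2` is bounded by `‖L2 0‖ + K r`) and
vanishes at `u 1` (`EL`), so `F w - F (u 1) ≤ C ‖w - u 1‖^2`.  The second inequality is the mirror
image. -/
def YExc : Prop := ∀ (V : Type) [NormedAddCommGroup V] [NormedSpace ℝ V] (lam K r : ℝ)
  (L : V × V → ℝ) (L1 : V × V → V × V →L[ℝ] ℝ) (L2 : V × V → Bf V) (D : ℕ → V → V → ℝ),
  Gen lam K r L L1 L2 D → ∃ C ρ : ℝ, 0 < C ∧ 0 < ρ ∧ ∀ (k : ℕ) (u : ℕ → V), 2 ≤ k →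
  (∀ j, j ≤ k → ‖u j‖ ≤ ρ) → Tight L D k u → ∀ w : V, ‖w‖ ≤ ρ →
  L (u 0, w) + D (k - 1) w (u k) - D k (u 0) (u k) ≤ C * ‖w - u 1‖ ^ 2 ∧
  D (k - 1) (u 0) w + L (w, u k) - D k (u 0) (u k) ≤ C * ‖w - u (k - 1)‖ ^ 2

/-- Decay of infinite chains (uses `YDif`, `XPer`).  The zero chain satisfies the chain equation
(`crit`).  `YDif` on `[0, k]` for the zero chain and `u`, and `XPer`:
`‖u j‖ ≤ C (exp(-s' j) ρ + exp(-s' (k - j)) ρ)`; let `k → ∞`.  And `|L p| ≤ C ‖p‖^2` for `‖p‖ ≤ ρ < r`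
(`zero`, `crit`, `L2` bounded). -/
def YDec : Prop := ∀ (V : Type) [NormedAddCommGroup V] [NormedSpace ℝ V] [FiniteDimensional ℝ V]
  (lam K r : ℝ) (L : V × V → ℝ) (L1 : V × V → V × V →L[ℝ] ℝ) (L2 : V × V → Bf V),
  Ch lam K r L L1 L2 → ∀ s s' : ℝ, Gr (L2 0) s → 0 < s' → s' < s →
  ∃ C ρ : ℝ, 0 < C ∧ 0 < ρ ∧ ρ < r ∧ ∀ u : ℕ → V, (∀ j, ‖u j‖ ≤ ρ) → (∀ k, EL L1 k u) →
  ∀ j : ℕ, ‖u j‖ ≤ C * Real.exp (-(s' * j)) ∧
    |L (u j, u (j + 1))| ≤ C * Real.exp (-(2 * s' * j))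

/-- Reversal.  `L' p = L (p.2, p.1)`, with derivatives `L1' p q = L1 p.swap q.swap` and
`L2' p q q' = L2 p.swap q.swap q'.swap`, satisfies `Gen` with `D' k x z = D k z x` (a chain from `x` to `z`
for `D'` is a reversed chain `j ↦ u (k - j)`).  Growth (uses `XGreen`, `XBvp`): a solution `Y` on
`[0, k+1]` for `L2' 0` with `Y (k+1) = 0` is a reversed solution `Z j = Y (k+1-j)` for `H = L2 0` with
`Z 0 = 0`, and `L2' 0 (Y k, 0)(0, z) = H(0, Z 1)(z, 0) = H(Y'' k, 0)(0, Y 0)`, `Y''` the solution on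
`[0, k+1]` with `Y'' 0 = z`, `Y'' (k+1) = 0` (`XGreen` twice). -/
def YRev : Prop := ∀ (V : Type) [NormedAddCommGroup V] [NormedSpace ℝ V] [FiniteDimensional ℝ V]
  (lam K r : ℝ) (L : V × V → ℝ) (L1 : V × V → V × V →L[ℝ] ℝ) (L2 : V × V → Bf V)
  (D : ℕ → V → V → ℝ), Gen lam K r L L1 L2 D →
  ∃ (L1' : V × V → V × V →L[ℝ] ℝ) (L2' : V × V → Bf V),
    Gen lam K r (fun p => L (p.2, p.1)) L1' L2' (fun k x z => D k z x) ∧
    ∀ s, Gr (L2 0) s → Gr (L2' 0) s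

end Pool.Agent.LX
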