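import Pool.Agent.Work.MP_25cd3b_gt.LX.StmtsA
import Pool.Agent.Work.MP_25cd3b_gt.LX.DefsB
import Pool.Agent.Work.MP_13b5d9_gt.LR.StmtsB

set_option autoImplicit false

/-!
# MP_25cd3b_gt, block LX: part B (second variation, generating function), statements with proofs

Theorems which may be used freely (import them in the item files): everything of the blocks M, NC, NG of
MP_25cd3b_gt (`Pool.Agent.Work.MP_25cd3b_gt.NG.All`: `pr_Gd`, `pr_InvD`, `pr_Op`, `p_Hd`, `p_Geo1`,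
`p_Geo2`, `p_EqG`, `p_EqF`, `p_Flow`, `p_NcGa`, `p_NcGeo`, `p_NcLin`, `p_NcCov`, `p_NcExp`, `p_NcInj`,
`p_NcDist`, `p_NcGx`, `p_NgMet`, `p_NgAlg`, `p_NgGaN`, `p_NgRN`, `p_NgNoC`, `p_NgJc`, ...) and of the block
ST of MP_13b5d9 (`Pool.Agent.Work.MP_13b5d9_gt.ST.All93`: `p_ExS`, `p_Log`, `p_Var`, `p_LgI`, ...); the
statements `StUG`, `StGe`, `StCvG`, `StStew`, `StIso` of LR/StmtsB and all earlier statements of this
block may be used as hypotheses.  Notation: `ex_p = expo φ g p`, `Γ = Ga g`, `D X = cov g c X`, `d = gd g`.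
-/

open MeasureTheory Set Filter Topology
open scoped ContDiff ENNReal
open Pool.Agent.Work.MP_c9f990_an.Al (IsFlow)

namespace Pool.Agent.LX

open Pool.Agent.MLS Pool.Agent.STR Pool.Agent.LR

/-! ### Jacobi fields -/

/-- Isometries and covariant derivatives (uses `NgGaN`, `NgRN`, `StEqG`).  `F x = a x` satisfies
`g(F x)(DF v, DF w) = g(x)(v, w)`.  First part: `(DF(c) X)' = D²F(c', X) + DF X'`, and by `NgGaN` (with
`u = c'`, `v = X`) `D²F(c', X) = DF Γ(c', X) - Γ(DF c', DF X)`, `(a c)' = DF c'`.  Second part: apply the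
first part twice (to `X = J` and to `X = D J`, differentiable since `J` is `C^2` and
`D J = J' + Γ(c', J)`), and `NgRN` for the curvature term. -/
def BJm : Prop := ∀ (n : ℕ) (G : Type) [Group G] [MulAction G (E n)], Cocompact n G →
  ∀ g : Form n, Riem g → Inv G g → ∀ (a : G) (c X : ℝ → E n),
  (∀ t, DifferentiableAt ℝ c t → DifferentiableAt ℝ X t →
    cov g (fun s => a • c s) (fun s => dac a (c s) (X s)) t = dac a (c t) (cov g c X t)) ∧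
  (IsGeo g c → IsJac g c X → IsJac g (fun s => a • c s) (fun s => dac a (c s) (X s)))

/-- Affine changes of the parameter.  `(J (p t + q))' = p J' (p t + q)`, so `cov` gets the factor `p`
(`Ga` is linear in `c'`), applied twice `p^2`, and the curvature term gets `p^2`.  Geodesics: the
equation `c'' = - Γ(c', c')` (`NcGeo`) is homogeneous of degree two. -/
def BJs : Prop := ∀ (n : ℕ) (g : Form n), Riem g → ∀ (c J : ℝ → E n) (p q : ℝ), IsGeo g c →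
  IsJac g c J → IsGeo g (fun t => c (p * t + q)) ∧ IsJac g (fun t => c (p * t + q))
    (fun t => J (p * t + q)) ∧
  ∀ t, cov g (fun t => c (p * t + q)) (fun t => J (p * t + q)) t = p • cov g c J (p * t + q)

/-- Jacobi fields with given boundary values.  `CurvLe g κ` implies `CurvLe g 0` and `NoConj g`
(`StCvG`).  Uniqueness: the difference of two Jacobi fields is one (`IsJac` is linear in `J`: `cov` is
linear for differentiable fields and `Rm` is linear in the first argument), use `NoConj`.  Existence: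
let `z = (c t₀, op g c')` and `J_δ s = (M (s - t₀) z δ).1` for `δ ∈ W n`, a Jacobi field along
`c s = (φ (s - t₀) z).1` (`NcLin`, `NcCov`, `NcGx`).  The linear map `δ ↦ (J_δ t₀, J_δ t₁)` from
`W n = E n × E n` to itself is injective: if both vanish then `J_δ = 0` by `NoConj`; `δ.1 = J_δ t₀ = 0` and
`0 = J_δ' t₀ = Dvel(z) δ = iop g (c t₀) δ.2` (`NcLin`; `vel g (x, P) = iop g x P` is linear in `P`), so
`δ = 0`.  Hence it is surjective.  So every Jacobi field `J` is a `J_δ` (compare the boundary values), and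
if `J t₀ = J' t₀ = 0` then `δ = 0` and `J = 0`.  Last part: linear combinations. -/
def BBv : Prop := ∀ (n : ℕ) (g : Form n) (κ : ℝ), Cv g κ → ∀ c : ℝ → E n, IsGeo g c →
  (∀ t₀ t₁ : ℝ, t₀ ≠ t₁ → (∀ v w : E n, ∃ J, IsJac g c J ∧ J t₀ = v ∧ J t₁ = w) ∧
    ∀ J J', IsJac g c J → IsJac g c J' → J t₀ = J' t₀ → J t₁ = J' t₁ → ∀ t, J t = J' t) ∧
  (∀ (J : ℝ → E n) (t₀ : ℝ), IsJac g c J → J t₀ = 0 → deriv J t₀ = 0 → ∀ t, J t = 0) ∧
  ∀ (J J' : ℝ → E n) (p q : ℝ), IsJac g c J → IsJac g c J' → IsJac g c (fun t => p • J t + q • J' t)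

/-- Orthogonal Jacobi fields.  `f t = g(c', J)` has `f' = g(c', D J)` and `f'' = g(c', D D J) =
- g(Rm(J, c') c', c') = 0` (`NgMet`, `NgAlg`), so `f` is affine: if it vanishes at two points, or if `f`
and `f'` vanish at one point, then `f = 0` and then also `g(c', D J) = f' = 0`.  Energy identity:
`(g(D J, J))' = |D J|^2 + g(D D J, J) = |D J|^2 - Kn(J, c') ≥ κ^2 Ar(J, c') = κ^2 |J|^2`
(`CurvLe`, `|c'| = 1`, `g(J, c') = 0`), so `g(D J, J)` is monotone, and if its values at `t₀ < t₁` agree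
then `J = 0` on `[t₀, t₁]`. -/
def BOrt : Prop := ∀ (n : ℕ) (g : Form n) (κ : ℝ), Cv g κ → ∀ c J : ℝ → E n, UG g c →
  IsJac g c J → (∀ t₀ t₁ : ℝ, t₀ ≠ t₁ → g.val (c t₀) (deriv c t₀) (J t₀) = 0 →
    g.val (c t₁) (deriv c t₁) (J t₁) = 0 → NJ g c J) ∧
  (∀ t₀ : ℝ, g.val (c t₀) (deriv c t₀) (J t₀) = 0 →
    g.val (c t₀) (deriv c t₀) (cov g c J t₀) = 0 → NJ g c J) ∧
  (NJ g c J → (∀ t, g.val (c t) (deriv c t) (cov g c J t) = 0) ∧
    ∀ t₀ t₁ : ℝ, t₀ < t₁ → g.val (c t₀) (cov g c J t₀) (J t₀) ≤ g.val (c t₁) (cov g c J t₁) (J t₁) ∧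
      (g.val (c t₀) (cov g c J t₀) (J t₀) = g.val (c t₁) (cov g c J t₁) (J t₁) →
        ∀ t ∈ Icc t₀ t₁, J t = 0))

/-! ### second variation -/

/-- Exponential map at `0`.  `ex_p` is smooth (`STR.StExS`).  For a vector `u` the curve `t ↦ ex_p (t u)`
is a geodesic (`NcExp`, `StGeo1`) with velocity `vel g (p, op g p u) = u` at `0`, so
`fderiv ex_p 0 u = u`, and by `NcGeo` its second derivative at `0` is `- Γ(u, u)`; it is
`fderiv (fderiv ex_p) 0 u u`.  Polarise (the second derivative and `Ga g p` are symmetric). -/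
def BEx2 : Prop := ∀ (n : ℕ) (g : Form n) (φ : ℝ → W n → W n) (M : ℝ → W n → W n →L[ℝ] W n),
  Riem g → IsFlow (XH (Hm g)) φ M → ∀ p : E n, ContDiff ℝ ∞ (expo φ g p) ∧ expo φ g p 0 = p ∧
  (∀ u, fderiv ℝ (expo φ g p) 0 u = u) ∧
  ∀ v w, fderiv ℝ (fderiv ℝ (expo φ g p)) 0 v w = -(Ga g p v w)

/-- Variation through geodesics.  Let `z r = (x r, op g (x r) (lg (x r) (y r)))`, a smooth curve
(`IsLog.smooth`, `StOp`), `δ = z' 0`, `c t = (φ t (z 0)).1 = ex_(x 0) (t lg)` (`NcExp`),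
`J t = (M t (z 0) δ).1`, a Jacobi field along `c` (`NcLin`, `NcCov`, `StGeo1`).  `J 0 = δ.1 = x' 0`
(`M0`); `(φ 1 (z r)).1 = y r` (`IsLog.exp_log`), so `J 1 = y' 0` (`IsFlow.diff`, chain rule).
`lg (x r) (y r) = vel g (z r)` (`iop ∘ op = id`), so its derivative at `0` is `Dvel(z 0) δ = J' 0`
(`NcLin`, second part, `φ 0 = id`, `M0`), and `cov g x (..) 0 = J' 0 + Γ(x', lg) = J' 0 + Γ(c' 0, J 0)`
(`Γ` symmetric, `c' 0 = lg (x 0) (y 0)`).  `ev φ g (x r) (lg (x r) (y r)) = vel g (φ 1 (z r))`, whose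
derivative is `Dvel(φ 1 (z 0)) (M 1 (z 0) δ) = J' 1`, and
`cov g y (..) 0 = J' 1 + Γ(y', ev) = J' 1 + Γ(c' 1, J 1)`. -/
def BVarG : Prop := ∀ (n : ℕ) (g : Form n) (φ : ℝ → W n → W n) (M : ℝ → W n → W n →L[ℝ] W n)
  (lg : E n → E n → E n), Riem g → IsFlow (XH (Hm g)) φ M → IsLog g φ lg →
  ∀ x y : ℝ → E n, ContDiff ℝ ∞ x → ContDiff ℝ ∞ y → ∃ J : ℝ → E n,
  IsGeo g (fun t => expo φ g (x 0) (t • lg (x 0) (y 0))) ∧
  IsJac g (fun t => expo φ g (x 0) (t • lg (x 0) (y 0))) J ∧ J 0 = deriv x 0 ∧ J 1 = deriv y 0 ∧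
  cov g x (fun r => lg (x r) (y r)) 0 =
    cov g (fun t => expo φ g (x 0) (t • lg (x 0) (y 0))) J 0 ∧
  cov g y (fun r => ev φ g (x r) (lg (x r) (y r))) 0 =
    cov g (fun t => expo φ g (x 0) (t • lg (x 0) (y 0))) J 1

/-- First variation with both end points (uses `STR.StVar` or `STR.StAct`, `BEx2`).  `Ek` is smooth
(composition).  Let `x = ex_o p.1`, `y = a ex_o p.2`.  The derivative of
`(x, y) ↦ 1/2 g_x(lg x y, lg x y)` is `(u, w) ↦ - g_x(lg x y, u) + g_y(ev x lg, w)`: `STR.StAct` with `t = 1`,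
`z = (x, op g x (lg x y))` and `δ` the derivative of `(x, y) ↦ z` (as in the proof of `STR.StVar`).
`lg (c 0) (a c 0) = l c' 0`, because `a c 0 = c l = ex_(c 0) (l c' 0)` (`NcGx`) and `log_exp`, and
`ev (c 0) (l c' 0) = l c' l` (`NcGx`: `φ l (c 0, op c') = (c l, op c' l)`, and homogeneity as in `NcExp`);
`c' l = dac a (c 0) (c' 0)` (differentiate `per`), so at `p = 0` the derivative in the direction
`q ∈ V × V` vanishes (`Inv`, `Per.mem`). -/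
def BFv : Prop := ∀ (n : ℕ) (G : Type) [Group G] [MulAction G (E n)] (g : Form n) (κ : ℝ)
  (φ : ℝ → W n → W n) (M : ℝ → W n → W n →L[ℝ] W n) (lg : E n → E n → E n) (a : G) (c : ℝ → E n)
  (l : ℝ) (V : Submodule ℝ (E n)), Per n G g κ φ M lg a c l V →
  ContDiff ℝ ∞ (Ek g φ lg a (c 0) V) ∧
  (∀ p q : V × V, fderiv ℝ (Ek g φ lg a (c 0) V) p q =
    -g.val (expo φ g (c 0) p.1) (lg (expo φ g (c 0) p.1) (a • expo φ g (c 0) p.2))
        (fderiv ℝ (expo φ g (c 0)) p.1 q.1) +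
      g.val (a • expo φ g (c 0) p.2)
        (ev φ g (expo φ g (c 0) p.1) (lg (expo φ g (c 0) p.1) (a • expo φ g (c 0) p.2)))
        (dac a (expo φ g (c 0) p.2) (fderiv ℝ (expo φ g (c 0)) p.2 q.2))) ∧
  lg (c 0) (a • c 0) = l • deriv c 0 ∧ ev φ g (c 0) (l • deriv c 0) = l • deriv c l ∧
  deriv c l = dac a (c 0) (deriv c 0) ∧ fderiv ℝ (Ek g φ lg a (c 0) V) 0 = 0

/-- SECOND VARIATION (uses `BVarG`, `BEx2`, `BFv`, `BJm`, `BJs`, `BBv`).  Differentiate the formula of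
`BFv` for `p = r (v, v')`, `q = (w, w')` at `r = 0`.  Let `x r = ex_o (r v)`, `y r = a ex_o (r v')`,
`o = c 0`, `X r = lg (x r) (y r)`, `Y r = ev (x r) (X r)`, `P r = Dex_o(r v) w`,
`Q r = dac a (ex_o (r v')) (Dex_o (r v') w')`.  Product rule (`NgMet`) along the curves `x` and `y`:
`D²Ek(0)(v, v')(w, w') = - g(D X, P) - g(X, D P) + g(D Y, Q) + g(Y, D Q)` (covariant derivatives at `0`).
`D P = D²ex_o(0)(v, w) + Γ(v, w) = 0` (`BEx2`), and `D Q = dac a (D (r ↦ Dex_o (r v') w')) = 0` (`BJm`, first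
part).  By `BVarG` `D X = cov J₁ 0`, `D Y = cov J₁ 1` with a Jacobi field `J₁` along
`t ↦ ex_o (t l c' 0) = c (l t)` with `J₁ 0 = v`, `J₁ 1 = dac a o v'`; by `BJs` and `BBv` `J₁ t = J (l t)` and
`cov J₁ = l cov J`. -/
def BHess : Prop := ∀ (n : ℕ) (G : Type) [Group G] [MulAction G (E n)] (g : Form n) (κ : ℝ)
  (φ : ℝ → W n → W n) (M : ℝ → W n → W n →L[ℝ] W n) (lg : E n → E n → E n) (a : G) (c : ℝ → E n)
  (l : ℝ) (V : Submodule ℝ (E n)), Per n G g κ φ M lg a c l V →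
  ∀ (v v' w w' : V) (J : ℝ → E n), IsJac g c J → J 0 = v → J l = dac a (c 0) v' →
  fderiv ℝ (fderiv ℝ (Ek g φ lg a (c 0) V)) 0 (v, v') (w, w') =
    l * (g.val (c l) (cov g c J l) (dac a (c 0) w') - g.val (c 0) (cov g c J 0) w)

/-- The generating function (uses `BFv`).  `Lk p = (2 Ek p)^(1/2) - l` (`IsLog.dist`, `nrm`), `Ek 0 = l^2/2`;
near `0` `Ek > 0`, so `Lk` is smooth there.  As `DEk(0) = 0`: `DLk(0) = 0` and
`D²Lk(0) = (1/l) D²Ek(0)` (the derivative of `Lk` near `0` is `(2 Ek)^(-1/2) DEk`). -/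
def BSm : Prop := ∀ (n : ℕ) (G : Type) [Group G] [MulAction G (E n)] (g : Form n) (κ : ℝ)
  (φ : ℝ → W n → W n) (M : ℝ → W n → W n →L[ℝ] W n) (lg : E n → E n → E n) (a : G) (c : ℝ → E n)
  (l : ℝ) (V : Submodule ℝ (E n)), Per n G g κ φ M lg a c l V →
  Lk g φ a (c 0) l V 0 = 0 ∧ fderiv ℝ (Lk g φ a (c 0) l V) 0 = 0 ∧
  (∃ r : ℝ, 0 < r ∧ ∀ p : V × V, ‖p‖ < r → ContDiffAt ℝ ∞ (Lk g φ a (c 0) l V) p) ∧
  ∀ p q : V × V, HH g φ a (c 0) l V p q =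
    l⁻¹ * fderiv ℝ (fderiv ℝ (Ek g φ lg a (c 0) V)) 0 p q

/-- Formula and positivity of the second derivative (uses `BSm`, `BHess`, `BBv`, `BOrt`).  The formula is
`BSm` and `BHess`.  For `(v, v') ≠ 0` let `J` be the Jacobi field with `J 0 = v`, `J l = dac a (c 0) v'`
(`BBv`); it is orthogonal (`BOrt`, first part; `c' l = dac a (c 0) (c' 0)`, `Inv`), so
`HH (v, v') (v, v') = g(D J, J)(l) - g(D J, J)(0) ≥ 0`, and if it were `0` then `J = 0` on `[0, l]`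
(`BOrt`), `v = 0`, `v' = 0` (`dac a` is injective by `Inv`).  The continuous function
`p ↦ HH p p` is positive on the compact unit sphere of `V × V`; homogeneity gives `lam`.  Symmetry: second
derivatives are symmetric (`ContDiffAt.isSymmSndFDerivAt`, `BSm`). -/
def BPos : Prop := ∀ (n : ℕ) (G : Type) [Group G] [MulAction G (E n)] (g : Form n) (κ : ℝ)
  (φ : ℝ → W n → W n) (M : ℝ → W n → W n →L[ℝ] W n) (lg : E n → E n → E n) (a : G) (c : ℝ → E n)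
  (l : ℝ) (V : Submodule ℝ (E n)), Per n G g κ φ M lg a c l V →
  (∀ (v v' w w' : V) (J : ℝ → E n), IsJac g c J → J 0 = v → J l = dac a (c 0) v' →
    HH g φ a (c 0) l V (v, v') (w, w') =
      g.val (c l) (cov g c J l) (dac a (c 0) w') - g.val (c 0) (cov g c J 0) w) ∧
  ∃ lam : ℝ, 0 < lam ∧ Pos lam (HH g φ a (c 0) l V)

/-- The structure `Ch` (uses `BSm`, `BPos`).  On a smaller ball `fderiv Lk` is differentiable and the
second derivative is Lipschitz (`Lk` is `C^3` at `0`, `ContDiffAt.exists_lipschitzOnWith` for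
`fderiv (fderiv Lk)`, which is `C^1` at `0`). -/
def BCh : Prop := ∀ (n : ℕ) (G : Type) [Group G] [MulAction G (E n)] (g : Form n) (κ : ℝ)
  (φ : ℝ → W n → W n) (M : ℝ → W n → W n →L[ℝ] W n) (lg : E n → E n → E n) (a : G) (c : ℝ → E n)
  (l : ℝ) (V : Submodule ℝ (E n)), Per n G g κ φ M lg a c l V → ∀ r₀ : ℝ, 0 < r₀ →
  ∃ lam K r : ℝ, r ≤ r₀ ∧ Ch lam K r (Lk g φ a (c 0) l V) (fderiv ℝ (Lk g φ a (c 0) l V))
    (fderiv ℝ (fderiv ℝ (Lk g φ a (c 0) l V)))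

/-! ### chains of geodesics -/

/-- Closeness (uses `StCvG`, `StUG`, `StIso`, `StGd`).  If two unit speed geodesics start at the same point
then `d(σ s, σ' s) ≤ d(σ S, σ' S)` for `0 ≤ s ≤ S` (`StIso`: `sinh (κ s) ≤ sinh (κ S)`, monotonicity of
`cosh`; trivial for `S = 0`).  Let `T' = d(c₁ 0, c₂ T)`, `|T' - T| ≤ δ`.  If `T' = 0` then `T ≤ δ` and
`d(c₁ t, c₂ t) ≤ δ + 2 t ≤ 3 δ`.  Otherwise let `c₃` be the geodesic from `c₁ 0` to `c₂ T`, `S = min T T'`.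
`c₁, c₃`: `d(c₁ S, c₃ S) ≤ d(c₁ S, c₁ T) + d(c₁ T, c₂ T) + d(c₃ T', c₃ S) ≤ 3 δ`, so `d(c₁ t, c₃ t) ≤ 3 δ` for
`0 ≤ t ≤ S`.  Reversed geodesics `t ↦ c₃ (T' - t)`, `t ↦ c₂ (T - t)` from `c₂ T`:
`d(c₃ (T' - S), c₂ (T - S)) ≤ 3 δ`, so `d(c₃ (T' - t), c₂ (T - t)) ≤ 3 δ`, `0 ≤ t ≤ S`.  Combine (shift of
the parameter by `|T - T'| ≤ δ`, several times): at most `10 δ`. -/
def BCL : Prop := ∀ (n : ℕ) (g : Form n) (κ : ℝ), Cv g κ → ∀ c₁ c₂ : ℝ → E n, UG g c₁ → UG g c₂ →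
  ∀ T δ : ℝ, 0 ≤ T → 0 ≤ δ → gd g (c₁ 0) (c₂ 0) ≤ δ → gd g (c₁ T) (c₂ T) ≤ δ →
  ∀ t ∈ Icc 0 T, gd g (c₁ t) (c₂ t) ≤ 10 * δ

/-- Crossing the hypersurface `a^j Σ`, `Σ = ex_o V`, `o = c 0` (uses `StProp`, `StBnd`, `StCtsD`, `StInvD`).
Let `F y = g_o(c' 0, lg o y)`, a smooth function; `F (c t) = t` (`c t = ex_o (t c' 0)`, `NcGx`, `log_exp`),
and `F y = 0` iff `lg o y ∈ V`.  There is `C₀ ≥ 1` with `|F y - F (c t)| ≤ C₀ d(y, c t)` for `|t| ≤ 1`,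
`d(y, c t) ≤ 1` (multiply `F` by a smooth cut-off which is `1` near the compact closed ball of radius `4`
around `o` (`StProp`), `StFun`), and `‖v‖ ≤ C₀ nrm g o v` for all `v` (`StBnd`), so
`‖lg o y‖ ≤ C₀ d(o, y)` (`IsLog.dist`).  Let `C = 2 C₀` at first, `ρ ≤ 1 / C`: the continuous function
`t ↦ F (a^(-j) η (j l + t))` is `≥ t - C₀ δ > 0` at `t = C δ` and `< 0` at `t = - C δ`
(`c (j l + t) = a^j c t`, `StInvD`); by the intermediate value theorem it vanishes at some `t`, and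
`u = lg o (a^(-j) η (j l + t)) ∈ V`, `‖u‖ ≤ C₀ (δ + |t|) ≤ C₀ (1 + C) δ`; enlarge `C`. -/
def BCr : Prop := ∀ (n : ℕ) (G : Type) [Group G] [MulAction G (E n)] (g : Form n) (κ : ℝ)
  (φ : ℝ → W n → W n) (M : ℝ → W n → W n →L[ℝ] W n) (lg : E n → E n → E n) (a : G) (c : ℝ → E n)
  (l : ℝ) (V : Submodule ℝ (E n)), Per n G g κ φ M lg a c l V →
  ∃ C ρ : ℝ, 1 ≤ C ∧ 0 < ρ ∧ (∀ v : V, ‖v‖ ≤ C * nrm g (c 0) v ∧ nrm g (c 0) v ≤ C * ‖v‖) ∧
  ∀ (η : ℝ → E n) (j : ℕ) (δ : ℝ), Continuous η → 0 < δ → δ ≤ ρ →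
  (∀ t, |t| ≤ C * δ → gd g (η (j * l + t)) (c (j * l + t)) ≤ δ) →
  ∃ (t : ℝ) (u : V), |t| ≤ C * δ ∧ ‖u‖ ≤ C * δ ∧ η (j * l + t) = a ^ j • expo φ g (c 0) u

/-- Points of a geodesic form a tight chain (uses `StCvG`, `StInvD`).  `d(η s, η t) = |s - t|`, and
`d(a^j ex_o (u j), a^(j+1) ex_o (u (j+1))) = d(ex_o (u j), a ex_o (u (j+1)))`; sum (telescope). -/
def BTi : Prop := ∀ (n : ℕ) (G : Type) [Group G] [MulAction G (E n)] (g : Form n) (κ : ℝ)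
  (φ : ℝ → W n → W n) (M : ℝ → W n → W n →L[ℝ] W n) (lg : E n → E n → E n) (a : G) (c : ℝ → E n)
  (l : ℝ) (V : Submodule ℝ (E n)), Per n G g κ φ M lg a c l V →
  ∀ (η : ℝ → E n) (k : ℕ) (u : ℕ → V) (t : ℕ → ℝ), UG g η → 1 ≤ k →
  (∀ j, j ≤ k → η (t j) = a ^ j • expo φ g (c 0) (u j)) → (∀ j, j < k → t j ≤ t (j + 1)) →
  Tight (Lk g φ a (c 0) l V) (Dk g φ a (c 0) l V) k u ∧
  Dk g φ a (c 0) l V k (u 0) (u k) = t k - t 0 - k * l ∧
  ∀ j, j < k → Lk g φ a (c 0) l V (u j, u (j + 1)) = t (j + 1) - t j - l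

/-- The structure `GenK` (uses `BCh`, `BCL`, `BCr`, `BTi`, `StCvG`).  `r` from `BCh` so small that
`d(ex_o x, a^k ex_o z) ≥ k l - d(o, ex_o x) - d(o, ex_o z) > 0` for `‖x‖, ‖z‖ < r`, `k ≥ 1` (`d(o, ex_o v) =
nrm g o v`, `StCvG`: `d(o, a^k o) = d(c 0, c (k l)) = k l`); then `Dk` is differentiable there
(`gd = (g(lg, lg))^(1/2)`, `IsLog`, smooth away from zeros).  `one`, `zero`: clear.  `tri`: triangle
inequality and `StInvD`.  `ex`: let `δ₀ = C₁ max ‖x‖ ‖z‖ ≥ d(o, ex_o x), d(o, ex_o z)`; if `δ₀ = 0` take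
`u = 0` (the points `c (j l)`).  Let `η` be the geodesic from `ex_o x` to `a^k ex_o z` (they are different),
`T = d(..)`, `|T - k l| ≤ 2 δ₀`.  `d(η 0, c 0) ≤ δ₀`, `d(η (k l), c (k l)) ≤ |T - k l| + δ₀ ≤ 3 δ₀`, so
`d(η t, c t) ≤ 30 δ₀` for `0 ≤ t ≤ k l` (`BCL`).  For `0 < j < k` `BCr` with `δ = 30 δ₀` (`C δ < l / 4`) gives
`t j ∈ (j l - l/4, j l + l/4)` and `u j`; put `t 0 = 0`, `u 0 = x`, `t k = T`, `u k = z`; use `BTi`. -/
def BGen : Prop := ∀ (n : ℕ) (G : Type) [Group G] [MulAction G (E n)] (g : Form n) (κ : ℝ)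
  (φ : ℝ → W n → W n) (M : ℝ → W n → W n →L[ℝ] W n) (lg : E n → E n → E n) (a : G) (c : ℝ → E n)
  (l : ℝ) (V : Submodule ℝ (E n)), Per n G g κ φ M lg a c l V →
  ∃ lam K r : ℝ, GenK lam K r g φ a (c 0) l V

/-- Reversal (uses `BGen`, `YRev`, `StUG`, `StInvD`).  `c(-t)` is a unit speed geodesic, `a⁻¹ c(-t) =
c(-t-l)`, its velocity at `0` is `- c' 0`, so `V` is the same.  `d(ex_o x, a^(-k) ex_o z) =
d(a^k ex_o x, ex_o z) = d(ex_o z, a^k ex_o x)`.  Growth: `Lk` for `a⁻¹` is `p ↦ Lk p.swap`, the function of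
`YRev`; by `Ch.d1`, `Ch.d2` the form `L2' 0` of `YRev` is the second derivative of this function at `0`
(`fderiv` is unique, eventually equal functions have equal derivatives), that is `HH` for `a⁻¹`. -/
def BRev : Prop := ∀ (n : ℕ) (G : Type) [Group G] [MulAction G (E n)] (g : Form n) (κ : ℝ)
  (φ : ℝ → W n → W n) (M : ℝ → W n → W n →L[ℝ] W n) (lg : E n → E n → E n) (a : G) (c : ℝ → E n)
  (l : ℝ) (V : Submodule ℝ (E n)), Per n G g κ φ M lg a c l V →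
  Per n G g κ φ M lg a⁻¹ (fun t => c (-t)) l V ∧
  (∀ k x z, Dk g φ a⁻¹ (c 0) l V k x z = Dk g φ a (c 0) l V k z x) ∧
  ∀ s, Gr (HH g φ a (c 0) l V) s → Gr (HH g φ a⁻¹ (c 0) l V) s

end Pool.Agent.LX
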