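import Pool.Agent.Work.MP_25cd3b_gt.LX.StmtsK
import Pool.Agent.Work.MP_25cd3b_gt.LX.DefsF
import Pool.Agent.Work.MP_25cd3b_gt.KB.Bridge

set_option autoImplicit false

/-!
# MP_25cd3b_gt, block LX: bridge to the definitions of `Gen` and `LX/DefsF` (namespace `GM`)

`Gen/Bridge.lean` and `KB/Bridge.lean` contain the comparison of the definitions of the namespaces
`GM` and `MLS`: `toF`, `isGeo_iff`, `isJac_iff`, `leviCivita_iff`, `cocompact_iff`, `inv_iff`, `nrm_eq`,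
`dac_eq`, `KB.negSec` (most are proved by `rfl`).
-/

open MeasureTheory Set Filter Topology
open scoped ContDiff ENNReal
open Pool.Agent.Work.MP_c9f990_an.Al (IsFlow)

namespace Pool.Agent.LX

open Pool.Agent.MLS (E W)
open Pool.Agent.GM (Frm toF UGeo UT vec)

/-- The smallest Lyapunov exponent and the growth of chains (uses `JGr`, `JSl`, `BOrt`, `BPos`, `XPosR`,
`GM.isJac_iff`, `GM.leviCivita_iff` with `MLS.p_NcGa`).  FIRST PART.  Let `J` be one of the fields in the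
definition of `lmin`.  It is a Jacobi field of `toF g`, `cov g c J 0 = J' 0` (`J 0 = 0`), so it is orthogonal
(`BOrt`, second part) and `JGr` with `s = q l` gives `nrm (J t_k) ≥ C exp(q l k) nrm (J' 0)` for
`t_k = (k + 1) l`, so `(log nrm (J t_k)) / t_k ≥ (log C' + q l k) / ((k + 1) l)`, which tends to `q`; so
`q ≤ lyap g c J` (for every `q' < q` the function is frequently `≥ q'`,
`Filter.le_limsup_of_frequently_le`).
SECOND PART.  By `XPosR` and `BPos` (`Gr` is monotone: a rate below a rate is a rate) `q l > 0`.  Let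
`q < q'`, `s = q l`, `s' = q' l`, `J` from `JSl`: it is one of the fields in the definition of `lmin`
(orthogonality of `J' 0 = cov g c J 0`: third part of `BOrt`) and for `t > 0`
`log nrm (J t) ≤ log (max C 1) + q' t` (also if `J t = 0`, since `Real.log 0 = 0`), so
`lyap g c J ≤ q'` (`limsup_le_limsup` and the limit of the right side divided by `t`).  Hence
`lmin ≤ q'` for every `q' > q`, so `lmin ≤ q`. -/
def FLy : Prop := ∀ (n : ℕ) (G : Type) [Group G] [MulAction G (E n)] (g : Frm (E n)) (κ : ℝ)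
  (φ : ℝ → W n → W n) (M : ℝ → W n → W n →L[ℝ] W n) (lg : E n → E n → E n) (a : G) (c : ℝ → E n)
  (l : ℝ) (V : Submodule ℝ (E n)), Per n G (toF g) κ φ M lg a c l V →
  ∀ Γ : E n → E n →L[ℝ] E n →L[ℝ] E n, GM.LeviCivita g Γ →
  (∀ q : ℝ, Gr (HH (toF g) φ a (c 0) l V) (q * l) → (q : EReal) ≤ GM.lmin g Γ c) ∧
  ∀ q : ℝ, ¬ Gr (HH (toF g) φ a (c 0) l V) (q * l) → GM.lmin g Γ c ≤ (q : EReal)

/-- The data of a closed geodesic.  `GM.KB.negSec` and `MLS.p_NgSec` give `κ` with `CurvLe (toF g) κ`;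
the flow: `MLS.p_Flow` (or `MLS.pr_Flow ..`, see M/All, NG/All); no conjugate points: `MLS.p_NgNoC` (see
`MLS.p_NgThm` in NG/All and its proof, or `LR.pr_CvG`), `lg`: `STR.p_Log` (ST/All93); `V` is the kernel of
`g.val (c 0) (deriv c 0)`. -/
def FPer : Prop := ∀ (n : ℕ) (G : Type) [Group G] [MulAction G (E n)], GM.Cocompact (E n) G →
  ∀ g : Frm (E n), GM.Riem g → GM.Inv G g → GM.NegCurv g → ∀ (a : G) (c : ℝ → E n) (l : ℝ),
  UGeo g c → 0 < l → (∀ t, c (t + l) = a • c t) → ∃ (κ : ℝ) (φ : ℝ → W n → W n)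
  (M : ℝ → W n → W n →L[ℝ] W n) (lg : E n → E n → E n) (V : Submodule ℝ (E n)),
  Per n G (toF g) κ φ M lg a c l V

/-- The conjugacy and its inverse as maps of `W n`.  `F₁ p = Φ ⟨p, h⟩` if `h : g1.val p.1 p.2 p.2 = 1` and
`F₁ p = p` otherwise; `F₂` in the same way with `Φ.symm` (`continuousOn_iff_continuous_restrict`).
`Hc.eqv`: `Conj.eqv` (the vector `(b x, dac b x v)` is a unit vector by `Inv`).  `Hc.flow` for `F₁` is
`Conj.flow`.  For `F₂`: let `c2` be a unit speed geodesic of `g2`, `p = Φ.symm (c2 0, c2' 0)`; by `StFlow`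
and `StGeo1` (`vel g (x, op g x v) = v`, `StOp`) there is a geodesic `c1` of `g1` with
`(c1 0, c1' 0) = p`, of unit speed (constant energy, `StGeo1`); by `Conj.flow` `Φ (c1, c1')` is the
velocity of a geodesic `c2'` of `g2` with the same initial vector as `c2`, so `c2' = c2` (`NcGx`), and
`F₂ (c2 t, c2' t) = (c1 t, c1' t)`.  Equivariance of `F₂`: let `p` be a unit vector of `g2`, `p₀ = Φ.symm p`,
`q₀ = θ⁻¹ b p₀`; by `Conj.eqv` `Φ q₀ = b p`, so `Φ.symm (b p) = q₀`. -/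
def FHc : Prop := ∀ (n : ℕ) (G : Type) [Group G] [MulAction G (E n)], GM.Cocompact (E n) G →
  ∀ g1 g2 : Frm (E n), GM.Riem g1 → GM.Riem g2 → GM.Inv G g1 → GM.Inv G g2 →
  ∀ (θ : G ≃* G) (Φ : UT g1 ≃ₜ UT g2), GM.Conj θ g1 g2 Φ →
  ∃ F₁ F₂ : W n → W n, Hc θ.toMonoidHom (toF g1) (toF g2) F₁ ∧
    Hc θ.symm.toMonoidHom (toF g2) (toF g1) F₂ ∧
    ∀ (c1 c2 : ℝ → E n) (h1 : UGeo g1 c1) (h2 : UGeo g2 c2), (∀ t, Φ (vec h1 t) = vec h2 t) →
      Cor F₁ c1 c2 ∧ Cor F₂ c2 c1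

end Pool.Agent.LX
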